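import Mathlib
import Pool.Agent.Work.MP_836e4b_nt.Defs

/-! # MP_836e4b_nt, prime level: vector valued forms of weight `κ + 1/2` (the plus space).

All definitions of the board `mod836`.  `κ = k + e`.

* `th r τ z = ∑_{n ≡ r mod 2} e(n²τ/4 + n z)` (`r = 0, 1`): the two theta functions of index one.
* `M p A τ`: for an integer matrix `A` of determinant `p²`, the `2 × 2` matrix with
  `avg p τ (thA p A r τ) z = ∑_s M_{rs} th s τ z` (`thA` = the slashed theta function, `avg` = mean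
  over the elliptic translates mod `p`).
* `E κ p A τ`: `M^T / j` for odd `κ`, `M^* / |j|` for even `κ`; `sl κ p A h` = the slash operator on
  vector valued functions `h : ℍ → Fin 2 → ℂ`.
* `IsP κ c h`: `h` is a form of weight `κ + 1/2` with coefficients `c` (plus space, cuspidal).
* `T κ p`: the Hecke operator `T_{p²} + p^{κ-1}`; `Tc κ p` its action on coefficients.
* `ph D l`: `∑_{m ≡ r mod 2} m^l e(D m² τ/4)`; `Pser κ f` = the Poincare type series of `f`.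
-/

open UpperHalfPlane Complex
open scoped MatrixGroups ComplexConjugate Matrix

namespace MP836e4b.P

noncomputable section

/-- Integer matrices. -/
abbrev Mat := Matrix (Fin 2) (Fin 2) ℤ

/-- Vector valued functions on the upper half plane. -/
abbrev VF := ℍ → Fin 2 → ℂ

/-- `e(x) = exp(2πix)`. -/
def ee (x : ℂ) : ℂ := Complex.exp (2 * (Real.pi : ℂ) * Complex.I * x)

/-- The automorphy factor `cτ + d`. -/
def jf (A : Mat) (τ : ℍ) : ℂ := (A 1 0 : ℂ) * (τ : ℂ) + (A 1 1 : ℂ)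

/-- The Moebius transformation `(aτ + b)/(cτ + d)` (for matrices of positive determinant). -/
def mob (A : Mat) (τ : ℍ) : ℍ :=
  if h : 0 < (((A 0 0 : ℂ) * (τ : ℂ) + (A 0 1 : ℂ)) / jf A τ).im then
    ⟨((A 0 0 : ℂ) * (τ : ℂ) + (A 0 1 : ℂ)) / jf A τ, h⟩ else τ

/-- `th r τ z = ∑_{n ≡ r mod 2} e(n²τ/4 + n z)`. -/
def th (r : Fin 2) (τ : ℍ) (z : ℂ) : ℂ :=
  ∑' m : ℤ, ee ((2 * (m : ℂ) + ((r : ℕ) : ℂ)) ^ 2 * (τ : ℂ) / 4 + (2 * (m : ℂ) + ((r : ℕ) : ℂ)) * z)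

/-- The theta function slashed with a matrix `A` of determinant `p²`. -/
def thA (p : ℕ) (A : Mat) (r : Fin 2) (τ : ℍ) (z : ℂ) : ℂ :=
  ee (-((A 1 0 : ℂ) * z ^ 2 / jf A τ)) * th r (mob A τ) ((p : ℂ) * z / jf A τ)

/-- The mean over the elliptic translates modulo `p`. -/
def avg (p : ℕ) (τ : ℍ) (f : ℂ → ℂ) (z : ℂ) : ℂ :=
  ((p : ℂ) ^ 2)⁻¹ * ∑ l ∈ Finset.range p, ∑ m ∈ Finset.range p,
    ee ((l : ℂ) ^ 2 * (τ : ℂ) + 2 * (l : ℂ) * z) * f (z + (l : ℂ) * (τ : ℂ) + (m : ℂ))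

/-- `m` is the matrix of `A` (determinant `p²`) at `τ`. -/
def IsM (p : ℕ) (A : Mat) (τ : ℍ) (m : Matrix (Fin 2) (Fin 2) ℂ) : Prop :=
  ∀ (r : Fin 2) (z : ℂ), avg p τ (thA p A r τ) z = ∑ s : Fin 2, m r s * th s τ z

open Classical in
/-- The matrix of `A` (determinant `p²`) at `τ`. -/
def M (p : ℕ) (A : Mat) (τ : ℍ) : Matrix (Fin 2) (Fin 2) ℂ :=
  if h : ∃ m, IsM p A τ m then h.choose else 0

/-- `M^T / j` for odd `κ`, `M^* / |j|` for even `κ`. -/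
def E (κ p : ℕ) (A : Mat) (τ : ℍ) : Matrix (Fin 2) (Fin 2) ℂ :=
  if Even κ then ((‖jf A τ‖ : ℝ) : ℂ)⁻¹ • (M p A τ)ᴴ else (jf A τ)⁻¹ • (M p A τ)ᵀ

/-- The slash operator of weight `κ + 1/2`. -/
def sl (κ p : ℕ) (A : Mat) (h : VF) : VF := fun τ ↦
  ((jf A τ) ^ κ)⁻¹ • (E κ p A τ) *ᵥ (h (mob A τ))

/-- The residue class mod `4` of the exponents in the component `r`. -/
def cls (κ : ℕ) (r : Fin 2) : ℕ := if r = 0 then 0 else if Even κ then 1 else 3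

/-- `h` has the Fourier coefficients `c`: `h_r(τ) = ∑_{n ≡ cls r mod 4} c(n) e(nτ/4)`, `c(0) = 0`. -/
structure HasE (κ : ℕ) (c : ℕ → ℂ) (h : VF) : Prop where
  zero : c 0 = 0
  supp : ∀ n, n % 4 ≠ cls κ 0 → n % 4 ≠ cls κ 1 → c n = 0
  sum : ∀ (τ : ℍ) (r : Fin 2),
    HasSum (fun n : ℕ ↦ if n % 4 = cls κ r then c n * ee ((n : ℂ) * (τ : ℂ) / 4) else 0) (h τ r)

/-- `h` is a form of weight `κ + 1/2` in the plus space, with coefficients `c`, cuspidal. -/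
structure IsP (κ : ℕ) (c : ℕ → ℂ) (h : VF) : Prop where
  exp : HasE κ c h
  inv : ∀ γ : SL(2, ℤ), sl κ 1 (γ : Mat) h = h

/-- The Hecke operator `T_{p²} + p^{κ-1}`: the sum over all matrices of determinant `p²` modulo
`SL(2,ℤ)` on the left. -/
def T (κ p : ℕ) (h : VF) : VF := fun τ ↦
  (p : ℂ) ^ (2 * κ) • (sl κ p !![(p : ℤ) ^ 2, 0; 0, 1] h τ
    + ∑ b ∈ Finset.range p, sl κ p !![(p : ℤ), (b : ℤ); 0, (p : ℤ)] h τ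
    + ∑ b ∈ Finset.range (p ^ 2), sl κ p !![1, (b : ℤ); 0, (p : ℤ) ^ 2] h τ)

/-- The quadratic symbol of `(-1)^κ N` at the prime `p` (Kronecker symbol at `p = 2`). -/
def psi (κ p N : ℕ) : ℤ :=
  if p = 2 then (if N % 2 = 0 then 0 else if ((-1) ^ κ * (N : ℤ)) % 8 = 1 then 1 else -1)
  else jacobiSym ((-1) ^ κ * (N : ℤ)) p

/-- The action of `T κ p` on coefficients. -/
def Tc (κ p : ℕ) (c : ℕ → ℂ) (N : ℕ) : ℂ :=
  if N % 4 = cls κ 0 ∨ N % 4 = cls κ 1 then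
    c (p ^ 2 * N) + (p : ℂ) ^ (κ - 1) * (1 + ((psi κ p N : ℤ) : ℂ)) * c N
      + (p : ℂ) ^ (2 * κ - 1) * (if p ^ 2 ∣ N then c (N / p ^ 2) else 0)
  else 0

/-- The sum of `Φ` over the upper triangular representatives of the integer matrices of
determinant `p²` (`p` prime) modulo `SL(2,ℤ)` on the left. -/
def cosSum (p : ℕ) (Φ : Mat → Fin 2 → ℂ) : Fin 2 → ℂ :=
  Φ !![(p : ℤ) ^ 2, 0; 0, 1] + ∑ b ∈ Finset.range p, Φ !![(p : ℤ), (b : ℤ); 0, (p : ℤ)]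
    + ∑ b ∈ Finset.range (p ^ 2), Φ !![1, (b : ℤ); 0, (p : ℤ) ^ 2]

/-- The quadratic Gauss sum `∑_{n mod c} e(a n²/c)`. -/
def gq (a : ℤ) (c : ℕ) : ℂ := ∑ n ∈ Finset.range c, ee ((a : ℂ) * (n : ℂ) ^ 2 / (c : ℂ))

/-- The value of the Gauss sum of `(·/D)`: `√D` or `i√D`. -/
def gD (D : ℕ) : ℂ := if D % 4 = 1 then ((Real.sqrt D : ℝ) : ℂ) else Complex.I * ((Real.sqrt D : ℝ) : ℂ)

/-- The real quadratic character as a complex number. -/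
def ch (D : ℕ) (n : ℤ) : ℂ := ((jacobiSym n D : ℤ) : ℂ)

open Classical in
/-- `1/2 ∑_{(c,d)=1, D ∣ c} χ_D(d) c^i (cτ+d)^{-k-i}`. -/
def EInf (D k i : ℕ) (τ : ℍ) : ℂ :=
  (1 / 2 : ℂ) * ∑' v : ℤ × ℤ, if IsCoprime v.1 v.2 ∧ (D : ℤ) ∣ v.1 then
    ch D v.2 * (v.1 : ℂ) ^ i * (((v.1 : ℂ) * (τ : ℂ) + (v.2 : ℂ)) ^ (k + i))⁻¹ else 0

open Classical in
/-- `1/2 ∑_{(c,d)=1, D ∣ d} χ_D(c) c^i (cτ+d)^{-k-i}`. -/
def EZero (D k i : ℕ) (τ : ℍ) : ℂ :=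
  (1 / 2 : ℂ) * ∑' v : ℤ × ℤ, if IsCoprime v.1 v.2 ∧ (D : ℤ) ∣ v.2 then
    ch D v.1 * (v.1 : ℂ) ^ i * (((v.1 : ℂ) * (τ : ℂ) + (v.2 : ℂ)) ^ (k + i))⁻¹ else 0

/-- `e!/(i!(e-2i)!) (2πi)^{-i}`. -/
def cf (e i : ℕ) : ℂ :=
  ((e.factorial : ℂ) / ((i.factorial : ℂ) * ((e - 2 * i).factorial : ℂ))) *
    ((2 * (Real.pi : ℂ) * Complex.I) ^ i)⁻¹

/-- `∑_{m ≡ r mod 2} m^l e(D m² τ/4)`, `m` over the integers. -/
def ph (D l : ℕ) : VF := fun τ r ↦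
  ∑' m : ℤ, (2 * (m : ℂ) + ((r : ℕ) : ℂ)) ^ l *
    ee ((D : ℂ) * (2 * (m : ℂ) + ((r : ℕ) : ℂ)) ^ 2 * (τ : ℂ) / 4)

open Classical in
/-- A matrix in `SL(2,ℤ)` with bottom row `(c, d)` (`(c, d)` coprime). -/
def gam (c d : ℤ) : SL(2, ℤ) :=
  if h : ∃ γ : SL(2, ℤ), γ 1 0 = c ∧ γ 1 1 = d then h.choose else 1

open Classical in
/-- The Poincare type series `∑_{γ ∈ ±Γ_∞ \ Γ} f|γ`, as half of the sum over coprime pairs. -/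
def Pser (κ : ℕ) (f : VF) : VF := fun τ r ↦
  (1 / 2 : ℂ) * ∑' v : ℤ × ℤ, if IsCoprime v.1 v.2 then sl κ 1 (gam v.1 v.2 : Mat) f τ r else 0

/-- The seed series converges absolutely. -/
def SeedSum (κ : ℕ) (f : VF) : Prop :=
  ∀ (τ : ℍ) (r : Fin 2), Summable fun v : {v : ℤ × ℤ // IsCoprime v.1 v.2} ↦
    sl κ 1 (gam v.1.1 v.1.2 : Mat) f τ r

/-- The weighted sum `M(c) = ∑_{m ≥ 1} m^{-(2k+e-1)} c(D m²)`, restricted to `m` prime to `P`. -/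
def Mf (k e D P : ℕ) (c : ℕ → ℂ) : ℂ :=
  ∑' m : ℕ, if 0 < m ∧ m.Coprime P then ((m : ℂ) ^ (2 * k + e - 1))⁻¹ * c (D * m ^ 2) else 0

/-- The `D`-th Shimura lift on coefficients: `∑_{d ∣ n} χ_D(d) d^{κ-1} c(D (n/d)²)`. -/
def Sh (D κ : ℕ) (c : ℕ → ℂ) (n : ℕ) : ℂ :=
  ∑ d ∈ n.divisors, ((jacobiSym (d : ℤ) D : ℤ) : ℂ) * (d : ℂ) ^ (κ - 1) * c (D * (n / d) ^ 2)

/-- The coefficients of the seed `ph D e`, `e ≥ 1`: `2 m^e` at `n = D m²`. -/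
def cph (D e n : ℕ) : ℂ := ∑ m ∈ Finset.range (n + 1), if D * m ^ 2 = n ∧ 0 < m then 2 * (m : ℂ) ^ e else 0

/-- `∑_i e!/(i!(e-2i)!) (k-1)!/(k+i-1)! (-x)^i m^{e-2i}`. -/
def Wp (k e : ℕ) (x m : ℂ) : ℂ :=
  ∑ i ∈ Finset.range (e / 2 + 1),
    ((e.factorial : ℂ) / ((i.factorial : ℂ) * ((e - 2 * i).factorial : ℂ))) *
      (((k - 1).factorial : ℂ) / ((k + i - 1).factorial : ℂ)) * (-x) ^ i * m ^ (e - 2 * i)

/-- The coefficients of `g_D = Pser (k+e) (ph D e)`, up to the constant `2 / L(1-k, χ_D)`: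
contribution of the cusps `∞` and `0`. -/
def cg (D k e n : ℕ) : ℂ :=
  ∑ m ∈ Finset.Icc (-(n : ℤ)) n,
    ((if (D : ℤ) * m ^ 2 ≤ n ∧ (4 : ℤ) ∣ (n : ℤ) - (D : ℤ) * m ^ 2 then
      sig k D 1 (((n : ℤ) - (D : ℤ) * m ^ 2) / 4).toNat *
        Wp k e (((((n : ℤ) - (D : ℤ) * m ^ 2) / 4 : ℤ) : ℂ) / (D : ℂ)) (m : ℂ) else 0))
  + ((jacobiSym (-1) D : ℤ) : ℂ) * ((D : ℂ) ^ e)⁻¹ *
    ∑ m ∈ Finset.Icc (-((D * n : ℕ) : ℤ)) (D * n : ℕ),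
      (if m ^ 2 ≤ (D : ℤ) * n ∧ (4 : ℤ) ∣ (D : ℤ) * n - m ^ 2 then
        sig k 1 D (((D : ℤ) * n - m ^ 2) / 4).toNat *
          Wp k e ((((D : ℤ) * n - m ^ 2) / 4 : ℤ) : ℂ) (m : ℂ) else 0)

/-- The Petersson product. -/
def pet (κ : ℕ) (g h : VF) : ℂ :=
  ∫ τ in (ModularGroup.fd : Set ℍ), (∑ r : Fin 2, g τ r * conj (h τ r)) *
    ((τ.im ^ ((κ : ℝ) + 1 / 2) : ℝ) : ℂ)

/-- `1` if `D = 1 mod 4`, `-i` otherwise. -/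
def dl (D : ℕ) : ℂ := if D % 4 = 1 then 1 else -Complex.I

/-- The phase of the translation by `β` in the component `r`: `e(± r β / 4)`. -/
def tw (κ : ℕ) (r : Fin 2) (β : ℤ) : ℂ :=
  ee ((if Even κ then (-1 : ℂ) else 1) * ((r : ℕ) : ℂ) * (β : ℂ) / 4)

/-- The matrices `S` and `T^b`, and `-1`. -/
def mS : Mat := !![0, -1; 1, 0]
def mT (b : ℤ) : Mat := !![1, b; 0, 1]
def mN : Mat := !![-1, 0; 0, -1]

/-- `F` is an invariant seed: `F|T = F` and `F|(-1) = F`. -/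
structure SeedInv (κ : ℕ) (f : VF) : Prop where
  t : sl κ 1 (mT 1) f = f
  n : sl κ 1 mN f = f

/-- The seed bound `‖f‖ ≤ C (Im τ)^{-(e+1)/2}`. -/
def SeedBd (e : ℕ) (f : VF) : Prop :=
  ∃ C : ℝ, 0 < C ∧ ∀ (τ : ℍ) (r : Fin 2), ‖f τ r‖ ≤ C * τ.im ^ (-(((e : ℝ) + 1) / 2))

/-- `P` is the expansion of `f` in powers of `e(τ/4)`. -/
def Ev (P : PowerSeries ℤ) (f : ℍ → ℂ) : Prop :=
  ∀ τ : ℍ, HasSum (fun n : ℕ ↦ ((PowerSeries.coeff n P : ℤ) : ℂ) * ee ((n : ℂ) * (τ : ℂ) / 4)) (f τ)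

/-- The invariants `E₄`, `E₆`, `Δ` as polynomials in the theta constants. -/
def e4p (x y : ℂ) : ℂ := x ^ 8 + 14 * x ^ 4 * y ^ 4 + y ^ 8
def e6p (x y : ℂ) : ℂ := x ^ 12 - 33 * x ^ 8 * y ^ 4 - 33 * x ^ 4 * y ^ 8 + y ^ 12
def dlp (x y : ℂ) : ℂ := x ^ 4 * (x ^ 4 - y ^ 4) ^ 4 * (y / 2) ^ 4

/-- The basic vectors of weight `1/2, 5/2, 7/2, 11/2` (`b = 0, 2, 3, 5`). -/
def bas (b : ℕ) (x y : ℂ) : Fin 2 → ℂ :=
  if b = 0 then ![x, y]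
  else if b = 2 then ![x ^ 5 - 5 * x * y ^ 4, y ^ 5 - 5 * x ^ 4 * y]
  else if b = 3 then ![x ^ 7 + 7 * x ^ 3 * y ^ 4, y ^ 7 + 7 * x ^ 4 * y ^ 3]
  else ![x ^ 11 - 22 * x ^ 7 * y ^ 4 - 11 * x ^ 3 * y ^ 8,
    y ^ 11 - 22 * x ^ 4 * y ^ 7 - 11 * x ^ 8 * y ^ 3]

/-- The test form `bas b * E₄^a * E₆^a' * Δ^j`, of weight `b + 4a + 6a' + 12j + 1/2`. -/
def tf (b a a' j : ℕ) : VF := fun τ r ↦
  bas b (th 0 τ 0) (th 1 τ 0) r * e4p (th 0 τ 0) (th 1 τ 0) ^ a * e6p (th 0 τ 0) (th 1 τ 0) ^ a' *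
    dlp (th 0 τ 0) (th 1 τ 0) ^ j

/-- The number of ordered representations of `n` as a sum of `j` squares of positive odd
integers. -/
def oddReps (j n : ℕ) : ℕ :=
  ((Fintype.piFinset fun _ : Fin j ↦ Finset.range (n + 1)).filter
    fun u ↦ (∀ i, Odd (u i)) ∧ ∑ i, (u i) ^ 2 = n).card

end

end MP836e4b.P
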