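/-
MODULE Rep3 (size M), board mod836, MP_836e4b_nt, folder Work/MP_836e4b_nt/P. Keep the statements verbatim, helper lemmas private.
D prime, D = 3 mod 8: the number of (u1,u2,u3) positive odd with sum of squares D is odd. Involution u2 <-> u3: fixed
points u² + 2v² = D. Exactly one solution in positive integers: existence since -2 is a square mod D (Thue /
Minkowski, or Mathlib ZMod.exists_sq_eq_neg_two_iff; descent), uniqueness as for sums of two squares
((u²+2v²)(x²+2y²) argument: D ∣ uy ± vx, ...). In a solution u, v are odd (D = 3 mod 8). u1²+u2²+u3²: all positive.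
-/
import Mathlib
import Pool.Agent.Work.MP_836e4b_nt.P.Defs

open UpperHalfPlane Complex
open scoped MatrixGroups ComplexConjugate Matrix

namespace MP836e4b.P

private theorem r3_thue (p : ℕ) (hp : p.Prime) (m : ℤ) :
    ∃ x y : ℤ, (x, y) ≠ (0, 0) ∧ x ^ 2 < p ∧ y ^ 2 < p ∧ (p : ℤ) ∣ x - m * y := by
  haveI : Fact p.Prime := ⟨hp⟩
  set s := Nat.sqrt p with hs
  have hs1 : s * s ≤ p := Nat.sqrt_le p
  have hs2 : p < (s + 1) * (s + 1) := Nat.lt_succ_sqrt p
  have hs3 : s * s ≠ p := by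
    intro h
    exact (Nat.prime_iff.1 hp).irreducible.not_isSquare ⟨s, h.symm⟩
  have hs4 : s * s < p := lt_of_le_of_ne hs1 hs3
  have hcard : (Finset.univ : Finset (ZMod p)).card <
      (Finset.range (s + 1) ×ˢ Finset.range (s + 1)).card := by
    rw [Finset.card_product, Finset.card_range, Finset.card_univ, ZMod.card]
    exact hs2
  obtain ⟨⟨u, v⟩, hx, ⟨u', v'⟩, hy, hne, heq⟩ :=
    Finset.exists_ne_map_eq_of_card_lt_of_maps_to hcard
      (f := fun x : ℕ × ℕ => (x.1 : ZMod p) - (m : ZMod p) * x.2) (fun _ _ => Finset.mem_univ _)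
  simp only [Finset.mem_product, Finset.mem_range] at hx hy
  simp only at heq
  have bound : ∀ a b : ℕ, a < s + 1 → b < s + 1 → ((a : ℤ) - b) ^ 2 < p := by
    intro a b ha hb
    have h1 : |(a : ℤ) - b| ≤ s := by
      rw [abs_le]
      constructor <;> omega
    calc ((a : ℤ) - b) ^ 2 = |(a : ℤ) - b| ^ 2 := (sq_abs _).symm
      _ ≤ (s : ℤ) ^ 2 := by gcongr
      _ < p := by rw [sq]; exact_mod_cast hs4
  refine ⟨(u : ℤ) - u', (v : ℤ) - v', ?_, bound _ _ hx.1 hy.1, bound _ _ hx.2 hy.2, ?_⟩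
  · intro h
    simp only [Prod.mk.injEq] at h
    apply hne
    rw [Prod.mk.injEq]
    constructor <;> omega
  · rw [← ZMod.intCast_zmod_eq_zero_iff_dvd]
    push_cast
    linear_combination heq

private theorem r3_rep {p : ℕ} (hp : p.Prime) (h : p % 8 = 3) :
    ∃ x y : ℤ, x ^ 2 + 2 * y ^ 2 = p := by
  haveI : Fact p.Prime := ⟨hp⟩
  have h2 : p ≠ 2 := by
    rintro rfl
    omega
  obtain ⟨r, hr⟩ := (ZMod.exists_sq_eq_neg_two_iff h2).2 (Or.inr h)
  obtain ⟨x, y, h0, hx, hy, hxy⟩ := r3_thue p hp (r.val : ℤ)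
  have h1 : (p : ℤ) ∣ x ^ 2 + 2 * y ^ 2 := by
    rw [← ZMod.intCast_zmod_eq_zero_iff_dvd] at hxy ⊢
    push_cast at hxy ⊢
    rw [ZMod.natCast_zmod_val] at hxy
    have hr' : (2 : ZMod p) = - (r * r) := by
      rw [← hr]
      ring
    rw [hr']
    linear_combination ((x : ZMod p) + r * y) * hxy
  obtain ⟨k, hk⟩ := h1
  have hp1 := hp.one_lt
  have hpos : 0 < x ^ 2 + 2 * y ^ 2 := by
    rcases eq_or_ne x 0 with h3 | h3
    · have h4 : y ≠ 0 := by
        intro h5
        exact h0 (by rw [h3, h5])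
      have : 0 < y ^ 2 := by positivity
      nlinarith [sq_nonneg x]
    · have : 0 < x ^ 2 := by positivity
      nlinarith [sq_nonneg y]
  have hp0 : (0 : ℤ) < p := by exact_mod_cast hp.pos
  have hk0 : 0 < k := by
    by_contra hh
    push Not at hh
    nlinarith
  have hk4 : k < 3 := by
    by_contra hh
    push Not at hh
    nlinarith
  have h3 : k = 1 ∨ k = 2 := by omega
  rcases h3 with rfl | rfl
  · exact ⟨x, y, by linarith⟩
  · have h5 : (2 : ℤ) ∣ x ^ 2 := ⟨p - y ^ 2, by linarith⟩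
    obtain ⟨x', rfl⟩ := Int.prime_two.dvd_of_dvd_pow h5
    exact ⟨y, x', by linarith⟩

private theorem r3_uniq {p : ℕ} (hp : p.Prime) {a b c d : ℤ} (ha : 0 < a) (hb : 0 < b)
    (hc : 0 < c) (hd : 0 < d) (h1 : a ^ 2 + 2 * b ^ 2 = p) (h2 : c ^ 2 + 2 * d ^ 2 = p) :
    a = c ∧ b = d := by
  have hp0 : (0 : ℤ) < p := by exact_mod_cast hp.pos
  have he : (a * d - b * c) * (a * d + b * c) = p * (d ^ 2 - b ^ 2) := by
    linear_combination d ^ 2 * h1 - b ^ 2 * h2
  have hdiv : (p : ℤ) ∣ (a * d - b * c) * (a * d + b * c) := ⟨_, he⟩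
  have hpp : (p : ℤ) ^ 2 = (a ^ 2 + 2 * b ^ 2) * (c ^ 2 + 2 * d ^ 2) := by
    rw [h1, h2]
    ring
  rcases (Nat.prime_iff_prime_int.mp hp).dvd_or_dvd hdiv with h | h
  · have hz : a * d - b * c = 0 := by
      by_contra hne
      have h3 : (p : ℤ) ≤ |a * d - b * c| :=
        Int.le_of_dvd (abs_pos.mpr hne) ((dvd_abs _ _).mpr h)
      have h4 : (a * c + 2 * b * d) ^ 2 + 2 * (a * d - b * c) ^ 2 = (p : ℤ) ^ 2 := by
        rw [hpp]
        ring
      have h5 : (a * d - b * c) ^ 2 = |a * d - b * c| ^ 2 := (sq_abs _).symm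
      nlinarith [sq_nonneg (a * c + 2 * b * d)]
    rw [hz, zero_mul] at he
    have h6 : d ^ 2 - b ^ 2 = 0 := by
      rcases mul_eq_zero.mp he.symm with h7 | h7
      · exact absurd h7 hp0.ne'
      · exact h7
    have h7 : b = d := by nlinarith
    refine ⟨?_, h7⟩
    have h8 : a ^ 2 = c ^ 2 := by
      rw [h7] at h1
      linarith
    nlinarith
  · exfalso
    have h3 : (p : ℤ) ≤ a * d + b * c := Int.le_of_dvd (by positivity) h
    have h4 : (a * c - 2 * b * d) ^ 2 + 2 * (a * d + b * c) ^ 2 = (p : ℤ) ^ 2 := by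
      rw [hpp]
      ring
    nlinarith [sq_nonneg (a * c - 2 * b * d)]

private theorem r3_parity {D a b : ℕ} (h8 : D % 8 = 3) (h : a ^ 2 + 2 * b ^ 2 = D) :
    Odd a ∧ Odd b := by
  have ha : a % 8 = 0 ∨ a % 8 = 1 ∨ a % 8 = 2 ∨ a % 8 = 3 ∨ a % 8 = 4 ∨ a % 8 = 5 ∨ a % 8 = 6 ∨
    a % 8 = 7 := by omega
  have hb : b % 8 = 0 ∨ b % 8 = 1 ∨ b % 8 = 2 ∨ b % 8 = 3 ∨ b % 8 = 4 ∨ b % 8 = 5 ∨ b % 8 = 6 ∨
    b % 8 = 7 := by omega
  have ha2 : a ^ 2 % 8 = (a % 8) ^ 2 % 8 := by rw [Nat.pow_mod]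
  have hb2 : b ^ 2 % 8 = (b % 8) ^ 2 % 8 := by rw [Nat.pow_mod]
  have hs : (a ^ 2 + 2 * b ^ 2) % 8 = 3 := by rw [h, h8]
  constructor
  · rw [Nat.odd_iff]
    rcases ha with h1 | h1 | h1 | h1 | h1 | h1 | h1 | h1 <;> rw [h1] at ha2 <;> norm_num at ha2 <;>
      omega
  · rw [Nat.odd_iff]
    rcases hb with h1 | h1 | h1 | h1 | h1 | h1 | h1 | h1 <;> rw [h1] at hb2 <;> norm_num at hb2 <;>
      rcases ha with h2 | h2 | h2 | h2 | h2 | h2 | h2 | h2 <;> rw [h2] at ha2 <;>
      norm_num at ha2 <;> omega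

theorem oddReps_three (D : ℕ) (hD : D.Prime) (h8 : D % 8 = 3) : Odd (oddReps 3 D) := by
  classical
  obtain ⟨x, y, hxy⟩ := r3_rep hD h8
  obtain ⟨a, ha⟩ : ∃ a, a = x.natAbs := ⟨_, rfl⟩
  obtain ⟨b, hb⟩ : ∃ b, b = y.natAbs := ⟨_, rfl⟩
  have hab : a ^ 2 + 2 * b ^ 2 = D := by
    have : ((a ^ 2 + 2 * b ^ 2 : ℕ) : ℤ) = D := by
      rw [← hxy, ha, hb]
      push_cast
      rw [sq_abs, sq_abs]
    exact_mod_cast this
  obtain ⟨hao, hbo⟩ := r3_parity h8 hab
  unfold oddReps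
  obtain ⟨X, hX⟩ : ∃ X, X = (Fintype.piFinset fun _ : Fin 3 ↦ Finset.range (D + 1)).filter
    (fun u ↦ (∀ i, Odd (u i)) ∧ ∑ i, (u i) ^ 2 = D) := ⟨_, rfl⟩
  rw [← hX]
  have hmem : ∀ u : Fin 3 → ℕ, u ∈ X ↔ (∀ i, Odd (u i)) ∧ (u 0) ^ 2 + (u 1) ^ 2 + (u 2) ^ 2 = D := by
    intro u
    rw [hX, Finset.mem_filter, Fintype.mem_piFinset, Fin.sum_univ_three]
    constructor
    · rintro ⟨_, h⟩
      exact h
    · rintro ⟨h1, h2⟩
      refine ⟨fun i => ?_, h1, h2⟩
      rw [Finset.mem_range]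
      have h3 : u i ≤ (u i) ^ 2 := Nat.le_self_pow (by norm_num) _
      fin_cases i <;> simp at h3 ⊢ <;> omega
  have hfix : X.filter (fun u => u 1 = u 2) = {![a, b, b]} := by
    ext u
    rw [Finset.mem_filter, Finset.mem_singleton, hmem]
    constructor
    · rintro ⟨⟨h1, h2⟩, h3⟩
      have hu : (u 0) ^ 2 + 2 * (u 1) ^ 2 = D := by
        rw [← h2, ← h3]
        ring
      have h4 : ((u 0 : ℕ) : ℤ) = a ∧ ((u 1 : ℕ) : ℤ) = b := by
        apply r3_uniq hD
        · exact_mod_cast (h1 0).pos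
        · exact_mod_cast (h1 1).pos
        · exact_mod_cast hao.pos
        · exact_mod_cast hbo.pos
        · exact_mod_cast hu
        · exact_mod_cast hab
      have h5 : u 0 = a := by exact_mod_cast h4.1
      have h6 : u 1 = b := by exact_mod_cast h4.2
      funext i
      fin_cases i
      · exact h5
      · exact h6
      · exact h3.symm.trans h6
    · rintro rfl
      refine ⟨⟨?_, ?_⟩, rfl⟩
      · intro i
        fin_cases i
        · exact hao
        · exact hbo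
        · exact hbo
      · show a ^ 2 + b ^ 2 + b ^ 2 = D
        rw [← hab]
        ring
  have hnon : (((X.filter (fun u => ¬ u 1 = u 2)).card : ℕ) : ZMod 2) = 0 := by
    rw [Finset.cast_card]
    apply Finset.sum_involution (fun (u : Fin 3 → ℕ) _ => u ∘ (Equiv.swap (1 : Fin 3) 2))
    · intro u _
      decide
    · intro u hu _ h
      rw [Finset.mem_filter] at hu
      apply hu.2
      have := congrFun h 2
      simpa using this
    · intro u hu
      rw [Finset.mem_filter, hmem] at hu ⊢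
      obtain ⟨⟨h1, h2⟩, h3⟩ := hu
      refine ⟨⟨fun i => h1 _, ?_⟩, ?_⟩
      · have e0 : (u ∘ (Equiv.swap (1 : Fin 3) 2)) 0 = u 0 := by
          show u (Equiv.swap (1 : Fin 3) 2 0) = u 0
          congr 1
        have e1 : (u ∘ (Equiv.swap (1 : Fin 3) 2)) 1 = u 2 := by simp
        have e2 : (u ∘ (Equiv.swap (1 : Fin 3) 2)) 2 = u 1 := by simp
        rw [e0, e1, e2, ← h2]
        ring
      · intro h4
        apply h3
        simpa using h4.symm
    · intro u _
      funext i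
      simp
  have hcard := Finset.card_filter_add_card_filter_not (s := X) (fun u => u 1 = u 2)
  rw [hfix, Finset.card_singleton] at hcard
  have heven : Even (X.filter (fun u => ¬ u 1 = u 2)).card := by
    rw [even_iff_two_dvd]
    exact (ZMod.natCast_eq_zero_iff _ 2).mp hnon
  rw [← hcard]
  exact heven.one_add

end MP836e4b.P
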