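/-
MODULE Rep5 (size M-L), board mod836, MP_836e4b_nt, folder Work/MP_836e4b_nt/P. Keep the statements verbatim, helper lemmas private.
D prime, D = 5 mod 8: the number of 5-tuples of positive odd integers with sum of squares D is odd. Involutions:
swap (u2,u3) with... first the involution exchanging the pairs (u2,u3) <-> (u4,u5): fixed points u1² + 2u2² + 2u3² = D;
then u2 <-> u3: fixed points u² + 4v² = D, u, v odd positive. Exactly one: D = a² + b² uniquely (Mathlib
Nat.Prime.sq_add_sq for existence; uniqueness by the standard argument), a odd, b = 2v, and D = 5 mod 8 forces v odd.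
(Count the fixed points of an involution: Function.Involutive / card_modEq_card_fixedPoints, or
Finset.sum_involution in ZMod 2.)
-/
import Mathlib
import Pool.Agent.Work.MP_836e4b_nt.P.Defs

set_option autoImplicit false

open UpperHalfPlane Complex
open scoped MatrixGroups ComplexConjugate Matrix

namespace MP836e4b.P

private theorem uniq (D a v a' v' : ℤ) (hD : Prime D) (hD5 : 5 ≤ D) (ha : 0 < a) (hv : 0 < v)
    (ha' : 0 < a') (hv' : 0 < v') (h : a ^ 2 + 4 * v ^ 2 = D) (h' : a' ^ 2 + 4 * v' ^ 2 = D) :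
    a = a' ∧ v = v' := by
  have hdvd : D ∣ 4 * ((a * v' - a' * v) * (a * v' + a' * v)) := by
    refine ⟨4 * (v' ^ 2 - v ^ 2), ?_⟩
    have e1 : a ^ 2 = D - 4 * v ^ 2 := by linarith
    have e2 : a' ^ 2 = D - 4 * v' ^ 2 := by linarith
    have : 4 * ((a * v' - a' * v) * (a * v' + a' * v)) = 4 * (a ^ 2 * v' ^ 2 - a' ^ 2 * v ^ 2) := by
      ring
    rw [this, e1, e2]
    ring
  have hN1 : D ^ 2 = (a * a' + 4 * v * v') ^ 2 + 4 * (a * v' - a' * v) ^ 2 := by
    calc D ^ 2 = (a ^ 2 + 4 * v ^ 2) * (a' ^ 2 + 4 * v' ^ 2) := by rw [h, h']; ring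
      _ = _ := by ring
  have hN2 : D ^ 2 = (a * a' - 4 * v * v') ^ 2 + 4 * (a * v' + a' * v) ^ 2 := by
    calc D ^ 2 = (a ^ 2 + 4 * v ^ 2) * (a' ^ 2 + 4 * v' ^ 2) := by rw [h, h']; ring
      _ = _ := by ring
  rcases hD.dvd_or_dvd hdvd with h4 | h4
  · have := Int.le_of_dvd (by norm_num) h4
    omega
  · rcases hD.dvd_or_dvd h4 with h5 | h5
    · have hz : a * v' - a' * v = 0 := by
        by_contra hne
        obtain ⟨k, hk⟩ := h5
        have hk0 : k ≠ 0 := by
          rintro rfl
          apply hne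
          rw [hk, mul_zero]
        have hk1 : 1 ≤ k ^ 2 := by
          have : 0 < k ^ 2 := by positivity
          omega
        rw [hk] at hN1
        nlinarith [sq_nonneg (a * a' + 4 * v * v'), mul_le_mul_of_nonneg_left hk1 (sq_nonneg D)]
      have h6 : a ^ 2 * v' ^ 2 = a' ^ 2 * v ^ 2 := by
        have : a * v' = a' * v := by linarith
        calc a ^ 2 * v' ^ 2 = (a * v') ^ 2 := by ring
          _ = (a' * v) ^ 2 := by rw [this]
          _ = _ := by ring
      have e1 : a ^ 2 = D - 4 * v ^ 2 := by linarith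
      have e2 : a' ^ 2 = D - 4 * v' ^ 2 := by linarith
      rw [e1, e2] at h6
      have h7 : D * (v' ^ 2 - v ^ 2) = 0 := by linarith
      have h8 : v' ^ 2 = v ^ 2 := by
        rcases mul_eq_zero.1 h7 with h9 | h9
        · omega
        · linarith
      have hvv : v = v' := by
        have := (sq_eq_sq₀ hv'.le hv.le).1 h8
        exact this.symm
      refine ⟨?_, hvv⟩
      have h10 : a ^ 2 = a' ^ 2 := by rw [e1, e2, h8]
      exact (sq_eq_sq₀ ha.le ha'.le).1 h10
    · exfalso
      have hp : 0 < a * v' + a' * v := by positivity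
      have h11 := Int.le_of_dvd hp h5
      nlinarith [sq_nonneg (a * a' - 4 * v * v')]

theorem oddReps_five (D : ℕ) (hD : D.Prime) (h8 : D % 8 = 5) : Odd (oddReps 5 D) := by
  classical
  have : Fact D.Prime := ⟨hD⟩
  obtain ⟨x, y, hxy⟩ := Nat.Prime.sq_add_sq (p := D) (by omega)
  -- normalise: a odd, b = 2 v, v odd
  have key : ∃ a v : ℕ, Odd a ∧ Odd v ∧ a ^ 2 + 4 * v ^ 2 = D := by
    have aux : ∀ x y : ℕ, x % 2 = 1 → x ^ 2 + y ^ 2 = D →
        ∃ a v : ℕ, Odd a ∧ Odd v ∧ a ^ 2 + 4 * v ^ 2 = D := by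
      intro x y hx h
      have hx8 : x ^ 2 % 8 = 1 := by
        have : x % 8 = 1 ∨ x % 8 = 3 ∨ x % 8 = 5 ∨ x % 8 = 7 := by omega
        rcases this with h | h | h | h <;> simp [Nat.pow_mod, h]
      have hy8 : y ^ 2 % 8 = 4 := by omega
      have hy4 : y % 4 = 2 := by
        have : y % 8 = 0 ∨ y % 8 = 1 ∨ y % 8 = 2 ∨ y % 8 = 3 ∨ y % 8 = 4 ∨ y % 8 = 5 ∨
          y % 8 = 6 ∨ y % 8 = 7 := by omega
        rcases this with h | h | h | h | h | h | h | h <;> simp [Nat.pow_mod, h] at hy8 <;> omega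
      refine ⟨x, y / 2, Nat.odd_iff.2 hx, Nat.odd_iff.2 (by omega), ?_⟩
      have : y = 2 * (y / 2) := by omega
      rw [← h]
      conv_rhs => rw [this]
      ring
    rcases Nat.even_or_odd x with hx | hx
    · rcases Nat.even_or_odd y with hy | hy
      · exfalso
        obtain ⟨u, hu⟩ := hx
        obtain ⟨w, hw⟩ := hy
        have : D % 2 = 0 := by
          rw [← hxy, hu, hw]
          have : (u + u) ^ 2 + (w + w) ^ 2 = 2 * (2 * u ^ 2 + 2 * w ^ 2) := by ring
          rw [this]
          omega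
        omega
      · exact aux y x (Nat.odd_iff.1 hy) (by rw [add_comm]; exact hxy)
    · exact aux x y (Nat.odd_iff.1 hx) hxy
  obtain ⟨a, v, ha, hv, hav⟩ := key
  let S : Finset (Fin 5 → ℕ) := (Fintype.piFinset fun _ : Fin 5 ↦ Finset.range (D + 1)).filter
    fun u ↦ (∀ i, Odd (u i)) ∧ ∑ i, (u i) ^ 2 = D
  have hS : oddReps 5 D = Fintype.card S := by
    rw [Fintype.card_coe]
    rfl
  have hmem : ∀ u : Fin 5 → ℕ, (∀ i, Odd (u i)) → ∑ i, (u i) ^ 2 = D → u ∈ S := by
    intro u h1 h2
    refine Finset.mem_filter.2 ⟨Fintype.mem_piFinset.2 fun i => ?_, h1, h2⟩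
    rw [Finset.mem_range, Nat.lt_succ_iff]
    calc u i ≤ (u i) ^ 2 := by nlinarith [(h1 i).pos]
      _ ≤ ∑ i, (u i) ^ 2 := Finset.single_le_sum (f := fun i => (u i) ^ 2)
          (fun _ _ => Nat.zero_le _) (Finset.mem_univ i)
      _ = D := h2
  let σ : Equiv.Perm (Fin 5) := c[1, 2, 3, 4]
  let f : Function.End S := fun u => ⟨fun i => u.1 (σ i), hmem _
    (fun i => ((Finset.mem_filter.1 u.2).2.1 (σ i)))
    (by
      rw [← (Finset.mem_filter.1 u.2).2.2]
      exact Equiv.sum_comp σ (fun i => (u.1 i) ^ 2))⟩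
  have hσ : ∀ i, σ (σ (σ (σ i))) = i := by decide
  have hff : ∀ u : S, f (f (f (f u))) = u := by
    intro u
    apply Subtype.ext
    funext i
    show u.1 (σ (σ (σ (σ i)))) = u.1 i
    rw [hσ i]
  have hf : f ^ 2 ^ 2 = 1 := by
    have h4 : f ^ 2 ^ 2 = f * (f * (f * f)) := by
      have : (2 : ℕ) ^ 2 = 1 + 1 + 1 + 1 := by norm_num
      rw [this, pow_succ, pow_succ, pow_succ, pow_one, mul_assoc, mul_assoc]
    rw [h4]
    funext u
    exact hff u
  have : Fact (Nat.Prime 2) := ⟨Nat.prime_two⟩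
  have hmod := Equiv.Perm.card_fixedPoints_modEq (p := 2) (n := 2) hf
  have hone : Fintype.card (Function.fixedPoints f) = 1 := by
    rw [Fintype.card_eq_one_iff]
    have hw : (fun i : Fin 5 => if i = 0 then a else v) ∈ S := by
      refine hmem _ (fun i => ?_) ?_
      · by_cases hi : i = 0
        · simp only [hi, if_true]
          exact ha
        · simp only [hi, if_false]
          exact hv
      · rw [Fin.sum_univ_five]
        simp
        rw [← hav]
        ring
    refine ⟨⟨⟨_, hw⟩, ?_⟩, ?_⟩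
    · apply Subtype.ext
      funext i
      show (if σ i = 0 then a else v) = if i = 0 then a else v
      have : ∀ i : Fin 5, σ i = 0 ↔ i = 0 := by decide
      simp only [this i]
    · rintro ⟨⟨u, hu⟩, hfix⟩
      apply Subtype.ext
      apply Subtype.ext
      have hfu : ∀ i, u (σ i) = u i := fun i => congrFun (congrArg Subtype.val hfix) i
      have h12 : u 2 = u 1 := hfu 1
      have h23 : u 3 = u 2 := hfu 2
      have h34 : u 4 = u 3 := hfu 3
      have hodd := (Finset.mem_filter.1 hu).2.1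
      have hsum := (Finset.mem_filter.1 hu).2.2
      rw [Fin.sum_univ_five, h34, h23, h12] at hsum
      have hs : (u 0) ^ 2 + 4 * (u 1) ^ 2 = D := by
        rw [← hsum]
        ring
      have hu' := uniq (D : ℤ) (u 0 : ℤ) (u 1 : ℤ) (a : ℤ) (v : ℤ) (Nat.prime_iff_prime_int.1 hD)
        (by omega) (by exact_mod_cast (hodd 0).pos) (by exact_mod_cast (hodd 1).pos)
        (by exact_mod_cast ha.pos) (by exact_mod_cast hv.pos) (by exact_mod_cast hs)
        (by exact_mod_cast hav)
      have e0 : u 0 = a := by exact_mod_cast hu'.1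
      have e1 : u 1 = v := by exact_mod_cast hu'.2
      funext i
      fin_cases i
      · simpa using e0
      · simpa using e1
      · simpa [h12] using e1
      · simpa [h23, h12] using e1
      · simpa [h34, h23, h12] using e1
  rw [hS, Nat.odd_iff]
  have := hmod
  rw [hone] at this
  exact this

end MP836e4b.P
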