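/-
MODULE Bas (size M), board mod836, MP_836e4b_nt, folder Work/MP_836e4b_nt/P. Keep the statements verbatim, helper lemmas private.
Basic facts about e(x), the automorphy factor and the Moebius action. All by direct computation:
im((aτ+b)/(cτ+d)) = det * im τ / |cτ+d|^2 > 0, so `mob` is the fraction; the rest is field_simp/ring.
`mob_sl`: compare with UpperHalfPlane.specialLinearGroup_apply / coe_smul.
-/
import Mathlib
import Pool.Agent.Work.MP_836e4b_nt.P.Defs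

open UpperHalfPlane Complex
open scoped MatrixGroups ComplexConjugate Matrix

namespace MP836e4b.P

theorem ee_add (x y : ℂ) : ee (x + y) = ee x * ee y := by
  unfold ee
  rw [← Complex.exp_add]
  congr 1
  ring

theorem ee_zero : ee 0 = 1 := by
  unfold ee
  simp

theorem ee_neg (x : ℂ) : ee (-x) = (ee x)⁻¹ := by
  unfold ee
  rw [← Complex.exp_neg]
  congr 1
  ring

theorem ee_intCast (n : ℤ) : ee (n : ℂ) = 1 := by
  unfold ee
  rw [Complex.exp_eq_one_iff]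
  exact ⟨n, by ring⟩

theorem ee_add_int (x : ℂ) (n : ℤ) : ee (x + (n : ℂ)) = ee x := by
  rw [ee_add, ee_intCast, mul_one]

theorem ee_ne_zero (x : ℂ) : ee x ≠ 0 := by
  unfold ee
  exact Complex.exp_ne_zero _

theorem norm_ee (x : ℂ) : ‖ee x‖ = Real.exp (-2 * Real.pi * x.im) := by
  unfold ee
  rw [Complex.norm_exp]
  congr 1
  simp [Complex.mul_re, Complex.mul_im]

theorem conj_ee (x : ℂ) : conj (ee x) = ee (-conj x) := by
  unfold ee
  rw [← Complex.exp_conj]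
  congr 1
  have h2 : conj (2 : ℂ) = 2 := Complex.conj_ofNat 2
  simp [map_mul, Complex.conj_ofReal, h2]

theorem jf_ne_zero (A : Mat) (hA : A.det ≠ 0) (τ : ℍ) : jf A τ ≠ 0 := by
  intro h
  unfold jf at h
  have him := congrArg Complex.im h
  have hre := congrArg Complex.re h
  simp only [Complex.add_im, Complex.mul_im, Complex.intCast_re, Complex.intCast_im, zero_mul,
    add_zero, Complex.zero_im] at him
  simp only [Complex.add_re, Complex.mul_re, Complex.intCast_re, Complex.intCast_im, zero_mul,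
    sub_zero, Complex.zero_re] at hre
  have hτ : (0 : ℝ) < (τ : ℂ).im := τ.im_pos
  have h1 : ((A 1 0 : ℤ) : ℝ) = 0 := by
    rcases mul_eq_zero.mp him with h | h
    · exact h
    · exact absurd h hτ.ne'
  rw [h1, zero_mul, zero_add] at hre
  have h10 : A 1 0 = 0 := by exact_mod_cast h1
  have h11 : A 1 1 = 0 := by exact_mod_cast hre
  apply hA
  rw [Matrix.det_fin_two, h10, h11]
  ring

private theorem im_frac (A : Mat) (τ : ℍ) :
    (((A 0 0 : ℂ) * (τ : ℂ) + (A 0 1 : ℂ)) / jf A τ).im = (A.det : ℝ) * τ.im / ‖jf A τ‖ ^ 2 := by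
  rw [Complex.div_im, ← Complex.normSq_eq_norm_sq, Matrix.det_fin_two]
  unfold jf
  simp only [Complex.add_im, Complex.mul_im, Complex.intCast_re, Complex.intCast_im, zero_mul,
    add_zero, Complex.add_re, Complex.mul_re, sub_zero, UpperHalfPlane.coe_im,
    UpperHalfPlane.coe_re]
  push_cast
  ring

theorem coe_mob (A : Mat) (hA : 0 < A.det) (τ : ℍ) :
    ((mob A τ : ℍ) : ℂ) = ((A 0 0 : ℂ) * (τ : ℂ) + (A 0 1 : ℂ)) / jf A τ := by
  have hj : jf A τ ≠ 0 := jf_ne_zero A hA.ne' τ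
  have h : 0 < (((A 0 0 : ℂ) * (τ : ℂ) + (A 0 1 : ℂ)) / jf A τ).im := by
    rw [im_frac]
    have h1 : (0 : ℝ) < (A.det : ℝ) := by exact_mod_cast hA
    have h2 : 0 < ‖jf A τ‖ := norm_pos_iff.mpr hj
    have h3 : 0 < τ.im := τ.im_pos
    positivity
  unfold mob
  rw [dif_pos h]

theorem im_mob (A : Mat) (hA : 0 < A.det) (τ : ℍ) :
    (mob A τ).im = (A.det : ℝ) * τ.im / ‖jf A τ‖ ^ 2 := by
  rw [← im_frac, ← coe_mob A hA, UpperHalfPlane.coe_im]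

private theorem det_mul_pos (A B : Mat) (hA : 0 < A.det) (hB : 0 < B.det) : 0 < (A * B).det := by
  rw [Matrix.det_mul]
  exact mul_pos hA hB

private theorem mul_entries (A B : Mat) (i j : Fin 2) :
    (((A * B) i j : ℤ) : ℂ) = (A i 0 : ℂ) * (B 0 j : ℂ) + (A i 1 : ℂ) * (B 1 j : ℂ) := by
  rw [Matrix.mul_apply, Fin.sum_univ_two]
  push_cast
  ring

theorem jf_mul (A B : Mat) (hA : 0 < A.det) (hB : 0 < B.det) (τ : ℍ) :
    jf (A * B) τ = jf A (mob B τ) * jf B τ := by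
  have hj : jf B τ ≠ 0 := jf_ne_zero B hB.ne' τ
  have e1 : jf (A * B) τ = ((A * B) 1 0 : ℂ) * (τ : ℂ) + ((A * B) 1 1 : ℂ) := rfl
  have e2 : jf A (mob B τ) = (A 1 0 : ℂ) * ((mob B τ : ℍ) : ℂ) + (A 1 1 : ℂ) := rfl
  rw [e1, e2, coe_mob B hB, mul_entries, mul_entries]
  have e3 : ((A 1 0 : ℂ) * (((B 0 0 : ℂ) * (τ : ℂ) + (B 0 1 : ℂ)) / jf B τ) + (A 1 1 : ℂ)) * jf B τ =
      (A 1 0 : ℂ) * ((B 0 0 : ℂ) * (τ : ℂ) + (B 0 1 : ℂ)) + (A 1 1 : ℂ) * jf B τ := by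
    field_simp
  rw [e3]
  unfold jf
  ring

theorem mob_mul (A B : Mat) (hA : 0 < A.det) (hB : 0 < B.det) (τ : ℍ) :
    mob (A * B) τ = mob A (mob B τ) := by
  have hAB := det_mul_pos A B hA hB
  have hj : jf B τ ≠ 0 := jf_ne_zero B hB.ne' τ
  have hj2 : jf A (mob B τ) ≠ 0 := jf_ne_zero A hA.ne' _
  apply UpperHalfPlane.ext
  rw [coe_mob (A * B) hAB, coe_mob A hA, jf_mul A B hA hB, coe_mob B hB, mul_entries, mul_entries,
    div_eq_div_iff (mul_ne_zero hj2 hj) hj2]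
  have e1 : ((A 0 0 : ℂ) * (((B 0 0 : ℂ) * (τ : ℂ) + (B 0 1 : ℂ)) / jf B τ) + (A 0 1 : ℂ)) *
      (jf A (mob B τ) * jf B τ) = ((A 0 0 : ℂ) * ((B 0 0 : ℂ) * (τ : ℂ) + (B 0 1 : ℂ)) +
        (A 0 1 : ℂ) * jf B τ) * jf A (mob B τ) := by
    field_simp
  rw [e1]
  congr 1
  unfold jf
  ring

theorem mob_sl (γ : SL(2, ℤ)) (τ : ℍ) : mob (γ : Mat) τ = γ • τ := by
  have hd : 0 < (γ : Mat).det := by
    rw [Matrix.SpecialLinearGroup.det_coe]
    exact one_pos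
  apply UpperHalfPlane.ext
  rw [coe_mob _ hd]
  rw [UpperHalfPlane.specialLinearGroup_apply]
  simp [jf]

theorem mob_one (τ : ℍ) : mob 1 τ = τ := by
  have hd : 0 < (1 : Mat).det := by
    rw [Matrix.det_one]
    exact one_pos
  apply UpperHalfPlane.ext
  rw [coe_mob _ hd]
  simp [jf]

theorem jf_one (τ : ℍ) : jf 1 τ = 1 := by
  simp [jf]

theorem cocycle_c (A B : Mat) (hA : 0 < A.det) (hB : 0 < B.det) (τ : ℍ) :
    (((A * B) 1 0 : ℤ) : ℂ) / jf (A * B) τ =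
      ((B 1 0 : ℤ) : ℂ) / jf B τ + ((A 1 0 : ℤ) : ℂ) * ((B.det : ℤ) : ℂ) /
        (jf A (mob B τ) * jf B τ ^ 2) := by
  have hj : jf B τ ≠ 0 := jf_ne_zero B hB.ne' τ
  have hj2 : jf A (mob B τ) ≠ 0 := jf_ne_zero A hA.ne' _
  rw [jf_mul A B hA hB, mul_entries, Matrix.det_fin_two]
  rw [div_add_div _ _ hj (mul_ne_zero hj2 (pow_ne_zero 2 hj)),
    div_eq_div_iff (mul_ne_zero hj2 hj) (mul_ne_zero hj (mul_ne_zero hj2 (pow_ne_zero 2 hj)))]
  have e2 : jf A (mob B τ) * jf B τ = (A 1 0 : ℂ) * ((B 0 0 : ℂ) * (τ : ℂ) + (B 0 1 : ℂ)) +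
      (A 1 1 : ℂ) * jf B τ := by
    have e3 : jf A (mob B τ) = (A 1 0 : ℂ) * ((mob B τ : ℍ) : ℂ) + (A 1 1 : ℂ) := rfl
    rw [e3, coe_mob B hB]
    field_simp
  have e4 : jf B τ = (B 1 0 : ℂ) * (τ : ℂ) + (B 1 1 : ℂ) := rfl
  have key : ((A 1 0 : ℂ) * (B 0 0 : ℂ) + (A 1 1 : ℂ) * (B 1 0 : ℂ)) * jf B τ =
      (B 1 0 : ℂ) * (jf A (mob B τ) * jf B τ) + (A 1 0 : ℂ) *
        ((B 0 0 : ℂ) * (B 1 1 : ℂ) - (B 0 1 : ℂ) * (B 1 0 : ℂ)) := by
    rw [e2, e4]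
    ring
  push_cast
  calc ((A 1 0 : ℂ) * (B 0 0 : ℂ) + (A 1 1 : ℂ) * (B 1 0 : ℂ)) *
        (jf B τ * (jf A (mob B τ) * jf B τ ^ 2))
      = (((A 1 0 : ℂ) * (B 0 0 : ℂ) + (A 1 1 : ℂ) * (B 1 0 : ℂ)) * jf B τ) *
        (jf A (mob B τ) * jf B τ ^ 2) := by ring
    _ = _ := by
        rw [key]
        ring

end MP836e4b.P
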