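/-
MODULE AvG (size M), board mod836, MP_836e4b_nt, folder Work/MP_836e4b_nt/P. Keep the statements verbatim, helper lemmas private.
The average over the elliptic translates mod p commutes with the slash of γ = (a,b;c,d) in SL(2,Z).
Write F|(l,m)(w) = e(l²τ'+2lw) F(w+lτ'+m), τ' = γτ. F|(X+Y) = (F|X)|Y for integer X, Y (the cocycle is
e(2 l m') = 1), so by hF F|(l,m) depends only on (l,m) mod p. Put (F⋆γ)(z) = e(-cz²/j) F(z/j). Then
(F⋆γ)|(l,m) = (F|(l',m'))⋆γ with l' = l d - m c, m' = m a - l b (because (lτ+m)/j = l'γτ + m' and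
l²τ + 2lz - c((z+lτ+m)²-z²)/j = l'^2 γτ + 2l'z/j - (bd l² - 2bc lm + ac m²)). The map
(l,m) -> (l',m') is a bijection of (Z/p)² (inverse by the inverse matrix). Sum over ZMod p × ZMod p or
over ranges with a bijection (Finset.sum_bij after taking residues).
-/
import Mathlib
import Pool.Agent.Work.MP_836e4b_nt.P.Defs
import Pool.Agent.Work.MP_836e4b_nt.P.Bas

open UpperHalfPlane Complex
open scoped MatrixGroups ComplexConjugate Matrix

namespace MP836e4b.P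

private theorem avg_range {p : ℕ} [NeZero p] (H : ℤ → ℤ → ℂ) :
    ∑ l ∈ Finset.range p, ∑ m ∈ Finset.range p, H (l : ℤ) (m : ℤ) =
      ∑ x : ZMod p × ZMod p, H (x.1.val : ℤ) (x.2.val : ℤ) := by
  have one : ∀ h : ℤ → ℂ, ∑ l ∈ Finset.range p, h (l : ℤ) = ∑ x : ZMod p, h (x.val : ℤ) := by
    intro h
    refine Finset.sum_nbij' (fun l => (l : ZMod p)) (fun x => x.val) ?_ ?_ ?_ ?_ ?_
    · intro l _
      exact Finset.mem_univ _
    · intro x _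
      exact Finset.mem_range.2 (ZMod.val_lt x)
    · intro l hl
      exact ZMod.val_cast_of_lt (Finset.mem_range.1 hl)
    · intro x _
      exact ZMod.natCast_zmod_val x
    · intro l hl
      rw [ZMod.val_cast_of_lt (Finset.mem_range.1 hl)]
  rw [Fintype.sum_prod_type, one (fun l => ∑ m ∈ Finset.range p, H l (m : ℤ))]
  exact Finset.sum_congr rfl fun x _ => one (fun m => H (x.val : ℤ) m)

private theorem avg_per {p : ℕ} [NeZero p] {H : ℤ → ℤ → ℂ}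
    (hH : ∀ l m L M : ℤ, H (l + p * L) (m + p * M) = H l m) (u v : ℤ) :
    H u v = H (((u : ZMod p)).val : ℤ) (((v : ZMod p)).val : ℤ) := by
  rw [ZMod.val_intCast, ZMod.val_intCast]
  have h1 := hH (u % p) (v % p) (u / p) (v / p)
  rwa [Int.emod_add_mul_ediv, Int.emod_add_mul_ediv] at h1

private theorem avg_lin {p : ℕ} [NeZero p] (H : ℤ → ℤ → ℂ)
    (hH : ∀ l m L M : ℤ, H (l + p * L) (m + p * M) = H l m) (a b c d : ℤ)
    (hd : a * d - b * c = 1) :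
    ∑ l ∈ Finset.range p, ∑ m ∈ Finset.range p,
        H ((l : ℤ) * d - (m : ℤ) * c) ((m : ℤ) * a - (l : ℤ) * b) =
      ∑ l ∈ Finset.range p, ∑ m ∈ Finset.range p, H (l : ℤ) (m : ℤ) := by
  rw [avg_range (fun l m => H (l * d - m * c) (m * a - l * b)), avg_range H]
  have hd' : (a : ZMod p) * (d : ZMod p) - (b : ZMod p) * (c : ZMod p) = 1 := by
    exact_mod_cast congrArg (fun t : ℤ => (t : ZMod p)) hd
  let e : ZMod p × ZMod p ≃ ZMod p × ZMod p :=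
    { toFun := fun x => (x.1 * d - x.2 * c, x.2 * a - x.1 * b)
      invFun := fun x => (a * x.1 + c * x.2, b * x.1 + d * x.2)
      left_inv := fun x => by
        refine Prod.ext ?_ ?_
        · show (a : ZMod p) * (x.1 * d - x.2 * c) + c * (x.2 * a - x.1 * b) = x.1
          linear_combination x.1 * hd'
        · show (b : ZMod p) * (x.1 * d - x.2 * c) + d * (x.2 * a - x.1 * b) = x.2
          linear_combination x.2 * hd'
      right_inv := fun x => by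
        refine Prod.ext ?_ ?_
        · show (a * x.1 + c * x.2) * (d : ZMod p) - (b * x.1 + d * x.2) * c = x.1
          linear_combination x.1 * hd'
        · show (b * x.1 + d * x.2) * (a : ZMod p) - (a * x.1 + c * x.2) * b = x.2
          linear_combination x.2 * hd' }
  rw [← Equiv.sum_comp e (fun x => H (x.1.val : ℤ) (x.2.val : ℤ))]
  refine Finset.sum_congr rfl fun x _ => ?_
  rw [avg_per hH]
  have e1 : ((((x.1.val : ℤ) * d - (x.2.val : ℤ) * c : ℤ)) : ZMod p) = (e x).1 := by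
    push_cast
    rw [ZMod.natCast_zmod_val, ZMod.natCast_zmod_val]
    rfl
  have e2 : ((((x.2.val : ℤ) * a - (x.1.val : ℤ) * b : ℤ)) : ZMod p) = (e x).2 := by
    push_cast
    rw [ZMod.natCast_zmod_val, ZMod.natCast_zmod_val]
    rfl
  rw [e1, e2]

theorem avg_slash (p : ℕ) (hp : 0 < p) (γ : SL(2, ℤ)) (τ : ℍ) (F : ℂ → ℂ)
    (hF : ∀ (l m : ℤ) (w : ℂ),
      ee (((p : ℂ) * (l : ℂ)) ^ 2 * ((mob (γ : Mat) τ : ℍ) : ℂ) + 2 * ((p : ℂ) * (l : ℂ)) * w) *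
        F (w + (p : ℂ) * (l : ℂ) * ((mob (γ : Mat) τ : ℍ) : ℂ) + (p : ℂ) * (m : ℂ)) = F w)
    (z : ℂ) :
    avg p τ (fun w ↦ ee (-((((γ : Mat) 1 0 : ℤ) : ℂ) * w ^ 2 / jf (γ : Mat) τ)) *
        F (w / jf (γ : Mat) τ)) z =
      ee (-((((γ : Mat) 1 0 : ℤ) : ℂ) * z ^ 2 / jf (γ : Mat) τ)) *
        avg p (mob (γ : Mat) τ) F (z / jf (γ : Mat) τ) := by
  have : NeZero p := ⟨hp.ne'⟩
  obtain ⟨a, ha⟩ : ∃ a : ℤ, a = (γ : Mat) 0 0 := ⟨_, rfl⟩
  obtain ⟨b, hb⟩ : ∃ a : ℤ, a = (γ : Mat) 0 1 := ⟨_, rfl⟩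
  obtain ⟨c, hc⟩ : ∃ a : ℤ, a = (γ : Mat) 1 0 := ⟨_, rfl⟩
  obtain ⟨d, hd⟩ : ∃ a : ℤ, a = (γ : Mat) 1 1 := ⟨_, rfl⟩
  have hdet : a * d - b * c = 1 := by
    rw [ha, hb, hc, hd, ← Matrix.det_fin_two]
    exact γ.2
  have hdetC : (a : ℂ) * (d : ℂ) - (b : ℂ) * (c : ℂ) = 1 := by exact_mod_cast hdet
  have hpos : 0 < (γ : Mat).det := by
    rw [Matrix.SpecialLinearGroup.det_coe]
    exact one_pos
  obtain ⟨j, hj⟩ : ∃ j : ℂ, j = jf (γ : Mat) τ := ⟨_, rfl⟩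
  have hj0 : j ≠ 0 := by
    rw [hj]
    exact jf_ne_zero _ hpos.ne' τ
  have hj' : j = (c : ℂ) * (τ : ℂ) + (d : ℂ) := by
    rw [hj, hc, hd]
    rfl
  obtain ⟨t, ht⟩ : ∃ t : ℂ, t = ((mob (γ : Mat) τ : ℍ) : ℂ) := ⟨_, rfl⟩
  have ht' : t * j = (a : ℂ) * (τ : ℂ) + (b : ℂ) := by
    rw [ht, coe_mob _ hpos, ← hj, ha, hb]
    exact div_mul_cancel₀ _ hj0
  rw [← ht] at hF
  obtain ⟨w, hw⟩ : ∃ w : ℂ, w = z / j := ⟨_, rfl⟩
  have hw' : w * j = z := by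
    rw [hw]
    exact div_mul_cancel₀ _ hj0
  obtain ⟨H, hH⟩ : ∃ H : ℤ → ℤ → ℂ, H = fun (l m : ℤ) =>
      ee ((l : ℂ) ^ 2 * t + 2 * (l : ℂ) * w) * F (w + (l : ℂ) * t + (m : ℂ)) := ⟨_, rfl⟩
  have hper : ∀ l m L M : ℤ, H (l + p * L) (m + p * M) = H l m := by
    intro l m L M
    rw [hH]
    dsimp only
    rw [← hF L M (w + (l : ℂ) * t + (m : ℂ))]
    have e1 : w + ((l + p * L : ℤ) : ℂ) * t + ((m + p * M : ℤ) : ℂ) =
        w + (l : ℂ) * t + (m : ℂ) + (p : ℂ) * (L : ℂ) * t + (p : ℂ) * (M : ℂ) := by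
      push_cast
      ring
    rw [e1, ← mul_assoc, ← ee_add]
    congr 1
    have e2 : (l : ℂ) ^ 2 * t + 2 * (l : ℂ) * w +
        (((p : ℂ) * (L : ℂ)) ^ 2 * t + 2 * ((p : ℂ) * (L : ℂ)) * (w + (l : ℂ) * t + (m : ℂ))) =
        ((l + p * L : ℤ) : ℂ) ^ 2 * t + 2 * ((l + p * L : ℤ) : ℂ) * w +
          ((2 * p * L * m : ℤ) : ℂ) := by
      push_cast
      ring
    rw [e2, ee_add_int]
  unfold avg
  rw [← hj, ← ht, ← hc, ← hw]
  have hterm : ∀ l m : ℕ, ee ((l : ℂ) ^ 2 * (τ : ℂ) + 2 * (l : ℂ) * z) *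
      (ee (-((c : ℂ) * (z + (l : ℂ) * (τ : ℂ) + (m : ℂ)) ^ 2 / j)) *
        F ((z + (l : ℂ) * (τ : ℂ) + (m : ℂ)) / j)) =
      ee (-((c : ℂ) * z ^ 2 / j)) * H ((l : ℤ) * d - (m : ℤ) * c) ((m : ℤ) * a - (l : ℤ) * b) := by
    intro l m
    rw [hH]
    dsimp only
    have e1 : (z + (l : ℂ) * (τ : ℂ) + (m : ℂ)) / j =
        w + (((l : ℤ) * d - (m : ℤ) * c : ℤ) : ℂ) * t + (((m : ℤ) * a - (l : ℤ) * b : ℤ) : ℂ) := by
      rw [div_eq_iff hj0]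
      push_cast
      have e3 : (w + ((l : ℂ) * (d : ℂ) - (m : ℂ) * (c : ℂ)) * t +
          ((m : ℂ) * (a : ℂ) - (l : ℂ) * (b : ℂ))) * j =
          w * j + ((l : ℂ) * (d : ℂ) - (m : ℂ) * (c : ℂ)) * (t * j) +
          ((m : ℂ) * (a : ℂ) - (l : ℂ) * (b : ℂ)) * j := by ring
      rw [e3, hw', ht', hj']
      linear_combination (-((l : ℂ) * (τ : ℂ) + (m : ℂ))) * hdetC
    rw [e1, ← mul_assoc, ← mul_assoc, ← ee_add, ← ee_add]
    congr 1
    have e2 : (l : ℂ) ^ 2 * (τ : ℂ) + 2 * (l : ℂ) * z +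
        -((c : ℂ) * (z + (l : ℂ) * (τ : ℂ) + (m : ℂ)) ^ 2 / j) +
          (((b * d * l ^ 2 - 2 * b * c * l * m + a * c * m ^ 2 : ℤ)) : ℂ) =
        -((c : ℂ) * z ^ 2 / j) + ((((l : ℤ) * d - (m : ℤ) * c : ℤ) : ℂ) ^ 2 * t +
          2 * (((l : ℤ) * d - (m : ℤ) * c : ℤ) : ℂ) * w) := by
      have f1 : t = ((a : ℂ) * (τ : ℂ) + (b : ℂ)) / j := by
        rw [eq_div_iff hj0]
        exact ht'
      rw [f1, hw]
      push_cast
      field_simp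
      rw [hj']
      linear_combination (-((τ : ℂ) * ((d : ℂ) * (l : ℂ) ^ 2 - 2 * (c : ℂ) * (l : ℂ) * (m : ℂ)) -
        (c : ℂ) * (m : ℂ) ^ 2)) * hdetC
    rw [← e2, ee_add_int]
  rw [Finset.sum_congr rfl fun l _ => Finset.sum_congr rfl fun m _ => hterm l m]
  have hpull : ∑ l ∈ Finset.range p, ∑ m ∈ Finset.range p, ee (-((c : ℂ) * z ^ 2 / j)) *
      H ((l : ℤ) * d - (m : ℤ) * c) ((m : ℤ) * a - (l : ℤ) * b) = ee (-((c : ℂ) * z ^ 2 / j)) *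
      ∑ l ∈ Finset.range p, ∑ m ∈ Finset.range p,
        H ((l : ℤ) * d - (m : ℤ) * c) ((m : ℤ) * a - (l : ℤ) * b) := by
    rw [Finset.mul_sum]
    exact Finset.sum_congr rfl fun l _ => (Finset.mul_sum _ _ _).symm
  rw [hpull, avg_lin H hper a b c d hdet, hH]
  push_cast
  ring

end MP836e4b.P
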