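/-
MODULE Th1 (size M), board mod836, MP_836e4b_nt, folder Work/MP_836e4b_nt/P. Keep the statements verbatim, helper lemmas private.
Convergence and formal properties of th r τ z = sum over n = 2m + r of e(n^2 τ/4 + n z).
th 0 τ z = jacobiTheta₂ (2z) (2τ), th 1 τ z = e(τ/4+z) jacobiTheta₂ (2z+τ) (2τ)  (n = 2m+1:
n^2/4 = m^2+m+1/4); summability from Mathlib (hasSum_jacobiTheta₂_term).
th_elliptic: n^2 τ/4 + n(z+lτ+m) + l^2 τ + 2lz = (n+2l)^2 τ/4 + (n+2l) z + nm, reindex n -> n+2l, e(nm)=1.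
th_half: e(n/2) = (-1)^n. th_half_tau: n^2 τ/4 + nz + nτ/2 + τ/4 + z = (n+1)^2 τ/4 + (n+1)z; for r = 1 the
index r+1 is 0 in Fin 2 and n+1 = 2(m+1). th_T: n^2 b/4 = r b/4 mod 1 (n^2 = r mod 4).
th_int: integrate term by term over 0 ≤ z ≤ 1 (only n = 0 survives).
-/
import Mathlib
import Pool.Agent.Work.MP_836e4b_nt.P.Defs
import Pool.Agent.Work.MP_836e4b_nt.P.Bas

open UpperHalfPlane Complex
open scoped MatrixGroups ComplexConjugate Matrix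

namespace MP836e4b.P

private theorem term_eq (r : Fin 2) (τ : ℍ) (z : ℂ) (m : ℤ) :
    ee ((2 * (m : ℂ) + ((r : ℕ) : ℂ)) ^ 2 * (τ : ℂ) / 4 + (2 * (m : ℂ) + ((r : ℕ) : ℂ)) * z) =
      ee (((r : ℕ) : ℂ) ^ 2 * (τ : ℂ) / 4 + ((r : ℕ) : ℂ) * z) *
        jacobiTheta₂_term m (2 * z + ((r : ℕ) : ℂ) * (τ : ℂ)) (2 * (τ : ℂ)) := by
  simp only [ee, jacobiTheta₂_term]
  rw [← Complex.exp_add]
  congr 1
  ring

private theorem im_two (τ : ℍ) : 0 < (2 * (τ : ℂ)).im := by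
  have := τ.im_pos
  simp only [Complex.mul_im, Complex.re_ofNat, Complex.im_ofNat, zero_mul, add_zero]
  exact mul_pos two_pos this

theorem th_summable (r : Fin 2) (τ : ℍ) (z : ℂ) :
    Summable fun m : ℤ ↦ ee ((2 * (m : ℂ) + ((r : ℕ) : ℂ)) ^ 2 * (τ : ℂ) / 4 +
      (2 * (m : ℂ) + ((r : ℕ) : ℂ)) * z) := by
  simp_rw [term_eq]
  exact ((summable_jacobiTheta₂_term_iff _ _).mpr (im_two τ)).mul_left _

private theorem th_eq (r : Fin 2) (τ : ℍ) (z : ℂ) :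
    th r τ z = ee (((r : ℕ) : ℂ) ^ 2 * (τ : ℂ) / 4 + ((r : ℕ) : ℂ) * z) *
        jacobiTheta₂ (2 * z + ((r : ℕ) : ℂ) * (τ : ℂ)) (2 * (τ : ℂ)) := by
  rw [th, jacobiTheta₂, ← tsum_mul_left]
  exact tsum_congr fun m ↦ term_eq r τ z m

theorem th_zero_eq (τ : ℍ) (z : ℂ) : th 0 τ z = jacobiTheta₂ (2 * z) (2 * (τ : ℂ)) := by
  rw [th_eq]
  simp [ee]

theorem th_one_eq (τ : ℍ) (z : ℂ) :
    th 1 τ z = ee ((τ : ℂ) / 4 + z) * jacobiTheta₂ (2 * z + (τ : ℂ)) (2 * (τ : ℂ)) := by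
  rw [th_eq]
  simp

theorem th_elliptic (r : Fin 2) (τ : ℍ) (z : ℂ) (l m : ℤ) :
    ee ((l : ℂ) ^ 2 * (τ : ℂ) + 2 * (l : ℂ) * z) * th r τ (z + (l : ℂ) * (τ : ℂ) + (m : ℂ)) =
      th r τ z := by
  rw [th, th, ← tsum_mul_left, ← (Equiv.addRight l).tsum_eq (fun m : ℤ ↦
    ee ((2 * (m : ℂ) + ((r : ℕ) : ℂ)) ^ 2 * (τ : ℂ) / 4 + (2 * (m : ℂ) + ((r : ℕ) : ℂ)) * z))]
  refine tsum_congr fun n ↦ ?_
  rw [← ee_add, ← ee_add_int ((2 * (((Equiv.addRight l) n : ℤ) : ℂ) + ((r : ℕ) : ℂ)) ^ 2 * (τ : ℂ) / 4 +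
    (2 * (((Equiv.addRight l) n : ℤ) : ℂ) + ((r : ℕ) : ℂ)) * z) ((2 * n + ((r : ℕ) : ℤ)) * m)]
  congr 1
  simp only [Equiv.coe_addRight]
  push_cast
  ring

theorem th_half (r : Fin 2) (τ : ℍ) (z : ℂ) :
    th r τ (z + 1 / 2) = (-1) ^ (r : ℕ) * th r τ z := by
  have hh : ee (1 / 2) = -1 := by
    rw [ee, ← Complex.exp_pi_mul_I]
    congr 1
    ring
  have h2 : ee (((r : ℕ) : ℂ) / 2) = (-1) ^ (r : ℕ) := by
    fin_cases r
    · simp [ee]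
    · simpa using hh
  rw [th, th, ← tsum_mul_left]
  refine tsum_congr fun n ↦ ?_
  rw [← h2, ← ee_add, ← ee_add_int (((r : ℕ) : ℂ) / 2 + _) n]
  congr 1
  ring

theorem th_half_tau (r : Fin 2) (τ : ℍ) (z : ℂ) :
    ee ((τ : ℂ) / 4 + z) * th r τ (z + (τ : ℂ) / 2) = th (r + 1) τ z := by
  rw [th, th, ← tsum_mul_left]
  fin_cases r
  · refine tsum_congr fun n ↦ ?_
    rw [← ee_add]
    congr 1
    simp
    ring
  · rw [← (Equiv.addRight (1 : ℤ)).tsum_eq (fun m : ℤ ↦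
      ee ((2 * (m : ℂ) + ((((⟨1, by norm_num⟩ : Fin 2) + 1 : Fin 2) : ℕ) : ℂ)) ^ 2 * (τ : ℂ) / 4 +
        (2 * (m : ℂ) + ((((⟨1, by norm_num⟩ : Fin 2) + 1 : Fin 2) : ℕ) : ℂ)) * z))]
    refine tsum_congr fun n ↦ ?_
    rw [← ee_add]
    congr 1
    simp
    ring

theorem th_neg (r : Fin 2) (τ : ℍ) (z : ℂ) : th r τ (-z) = th r τ z := by
  rw [th, th, ← ((Equiv.neg ℤ).trans (Equiv.addRight (-((r : ℕ) : ℤ)))).tsum_eq (fun m : ℤ ↦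
    ee ((2 * (m : ℂ) + ((r : ℕ) : ℂ)) ^ 2 * (τ : ℂ) / 4 + (2 * (m : ℂ) + ((r : ℕ) : ℂ)) * z))]
  refine tsum_congr fun n ↦ ?_
  congr 1
  simp only [Equiv.trans_apply, Equiv.neg_apply, Equiv.coe_addRight]
  push_cast
  ring

theorem th_T (r : Fin 2) (b : ℤ) (τ : ℍ) (z : ℂ) :
    th r (mob (mT b) τ) z = ee (((r : ℕ) : ℂ) * (b : ℂ) / 4) * th r τ z := by
  have hm : ((mob (mT b) τ : ℍ) : ℂ) = (τ : ℂ) + (b : ℂ) := by
    rw [coe_mob _ (by simp [mT, Matrix.det_fin_two])]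
    simp [mT, jf]
  have hr : ((r : ℕ) : ℂ) ^ 2 = ((r : ℕ) : ℂ) := by
    fin_cases r <;> simp
  rw [th, th, ← tsum_mul_left]
  refine tsum_congr fun n ↦ ?_
  rw [← ee_add, ← ee_add_int (((r : ℕ) : ℂ) * (b : ℂ) / 4 + _) ((n ^ 2 + n * ((r : ℕ) : ℤ)) * b), hm]
  congr 1
  push_cast
  linear_combination ((b : ℂ) / 4) * hr

theorem th_differentiable (r : Fin 2) (τ : ℍ) : Differentiable ℂ (th r τ) := by
  have h : th r τ = fun z ↦ ee (((r : ℕ) : ℂ) ^ 2 * (τ : ℂ) / 4 + ((r : ℕ) : ℂ) * z) *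
        jacobiTheta₂ (2 * z + ((r : ℕ) : ℂ) * (τ : ℂ)) (2 * (τ : ℂ)) := by
    funext z
    exact th_eq r τ z
  rw [h]
  intro z
  refine DifferentiableAt.mul ?_ ?_
  · unfold ee
    fun_prop
  · have h1 := differentiableAt_jacobiTheta₂_fst (2 * z + ((r : ℕ) : ℂ) * (τ : ℂ)) (im_two τ)
    have h2 : DifferentiableAt ℂ (fun w : ℂ ↦ 2 * w + ((r : ℕ) : ℂ) * (τ : ℂ)) z := by fun_prop
    exact DifferentiableAt.comp z (f := fun w : ℂ ↦ 2 * w + ((r : ℕ) : ℂ) * (τ : ℂ)) h1 h2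

private theorem int_ee (n : ℤ) : ∫ x in (0 : ℝ)..1, ee ((n : ℂ) * (x : ℂ)) = if n = 0 then 1 else 0 := by
  by_cases hn : n = 0
  · subst hn
    simp [ee]
  · rw [if_neg hn]
    have hc : (2 * (Real.pi : ℂ) * Complex.I * (n : ℂ)) ≠ 0 := by
      refine mul_ne_zero Complex.two_pi_I_ne_zero ?_
      exact_mod_cast hn
    have h1 := integral_exp_mul_complex (a := 0) (b := 1) hc
    have h2 : (fun x : ℝ ↦ ee ((n : ℂ) * (x : ℂ))) =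
        fun x : ℝ ↦ Complex.exp (2 * (Real.pi : ℂ) * Complex.I * (n : ℂ) * (x : ℂ)) := by
      funext x
      rw [ee]
      congr 1
      ring
    rw [h2, h1]
    have h3 : Complex.exp (2 * (Real.pi : ℂ) * Complex.I * (n : ℂ) * ((1 : ℝ) : ℂ)) = 1 := by
      have := ee_intCast n
      rw [ee] at this
      simpa using this
    rw [h3]
    simp

theorem th_int (r : Fin 2) (τ : ℍ) :
    ∫ x in (0 : ℝ)..1, th r τ (x : ℂ) = if r = 0 then 1 else 0 := by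
  have hnorm : ∀ (m : ℤ) (x : ℝ), ‖ee ((2 * (m : ℂ) + ((r : ℕ) : ℂ)) ^ 2 * (τ : ℂ) / 4 +
      (2 * (m : ℂ) + ((r : ℕ) : ℂ)) * (x : ℂ))‖ =
      ‖ee ((2 * (m : ℂ) + ((r : ℕ) : ℂ)) ^ 2 * (τ : ℂ) / 4 +
      (2 * (m : ℂ) + ((r : ℕ) : ℂ)) * 0)‖ := by
    intro m x
    rw [norm_ee, norm_ee]
    congr 2
    have : ((2 * (m : ℂ) + ((r : ℕ) : ℂ)) * (x : ℂ)) = (((2 * (m : ℝ) + ((r : ℕ) : ℝ)) * x : ℝ) : ℂ) := by
      push_cast
      ring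
    rw [Complex.add_im, Complex.add_im, this]
    simp
  have hs : HasSum (fun m : ℤ ↦ ∫ x in (0 : ℝ)..1,
      ee ((2 * (m : ℂ) + ((r : ℕ) : ℂ)) ^ 2 * (τ : ℂ) / 4 +
      (2 * (m : ℂ) + ((r : ℕ) : ℂ)) * (x : ℂ))) (∫ x in (0 : ℝ)..1, th r τ (x : ℂ)) := by
    refine intervalIntegral.hasSum_integral_of_dominated_convergence
      (fun m _ ↦ ‖ee ((2 * (m : ℂ) + ((r : ℕ) : ℂ)) ^ 2 * (τ : ℂ) / 4 +
      (2 * (m : ℂ) + ((r : ℕ) : ℂ)) * 0)‖) ?_ ?_ ?_ ?_ ?_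
    · intro m
      refine Continuous.aestronglyMeasurable ?_
      unfold ee
      fun_prop
    · intro m
      exact Filter.Eventually.of_forall fun x _ ↦ (hnorm m x).le
    · exact Filter.Eventually.of_forall fun x _ ↦ (th_summable r τ 0).norm
    · exact intervalIntegrable_const
    · exact Filter.Eventually.of_forall fun x _ ↦ (th_summable r τ (x : ℂ)).hasSum
  have ht : ∀ m : ℤ, (∫ x in (0 : ℝ)..1,
      ee ((2 * (m : ℂ) + ((r : ℕ) : ℂ)) ^ 2 * (τ : ℂ) / 4 +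
      (2 * (m : ℂ) + ((r : ℕ) : ℂ)) * (x : ℂ))) =
      ee ((2 * (m : ℂ) + ((r : ℕ) : ℂ)) ^ 2 * (τ : ℂ) / 4) *
        (if (2 * m + ((r : ℕ) : ℤ)) = 0 then 1 else 0) := by
    intro m
    rw [← int_ee, ← intervalIntegral.integral_const_mul]
    refine intervalIntegral.integral_congr fun x _ ↦ ?_
    show _ = _ * _
    rw [← ee_add]
    congr 1
    push_cast
    ring
  rw [← hs.tsum_eq]
  simp_rw [ht]
  fin_cases r
  · rw [tsum_eq_single 0]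
    · simp [ee]
    · intro m hm
      have : ¬ (2 * m + (((⟨0, by norm_num⟩ : Fin 2) : ℕ) : ℤ)) = 0 := by
        simp only [Nat.cast_zero, add_zero]
        omega
      simp only [Fin.zero_eta] at this ⊢
      rw [if_neg this, mul_zero]
  · have : ∀ m : ℤ, ¬ (2 * m + (((⟨1, by norm_num⟩ : Fin 2) : ℕ) : ℤ)) = 0 := by
      intro m
      simp only [Nat.cast_one]
      omega
    simp only [Fin.mk_one] at this ⊢
    rw [tsum_congr fun m ↦ by rw [if_neg (this m), mul_zero]]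
    simp

end MP836e4b.P
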