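/-
MODULE AvI (size M), board mod836, MP_836e4b_nt, folder Work/MP_836e4b_nt/P. Keep the statements verbatim, helper lemmas private.
thA p A r τ is invariant under the elliptic translations by p Z²: with A = (a,b;c,d), ad - bc = p²,
j = cτ+d, w = p z/j: replace z by z + plτ + pm; then w changes by p²(lτ+m)/j and
p² τ = d(aτ+b) - b(cτ+d), p² = a(cτ+d) - c(aτ+b), so p²(lτ+m)/j = l' Aτ + m' with
l' = l d - m c, m' = m a - l b. Apply th_elliptic with (l',m') at the point mob A τ and compare the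
exponents: (pl)²τ + 2plz - c((z+plτ+pm)² - z²)/j = l'^2 Aτ + 2 l' w + (integer): the integer is
(bd l² - 2bc lm + ac m²) up to sign (multiply by j and compare coefficients of τ, use ad-bc=p²).
-/
import Mathlib
import Pool.Agent.Work.MP_836e4b_nt.P.Defs
import Pool.Agent.Work.MP_836e4b_nt.P.Th1

open UpperHalfPlane Complex
open scoped MatrixGroups ComplexConjugate Matrix

namespace MP836e4b.P

theorem thA_elliptic (p : ℕ) (hp : 0 < p) (A : Mat) (hA : A.det = (p : ℤ) ^ 2) (r : Fin 2)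
    (τ : ℍ) (z : ℂ) (l m : ℤ) :
    ee (((p : ℂ) * (l : ℂ)) ^ 2 * (τ : ℂ) + 2 * ((p : ℂ) * (l : ℂ)) * z) *
      thA p A r τ (z + (p : ℂ) * (l : ℂ) * (τ : ℂ) + (p : ℂ) * (m : ℂ)) = thA p A r τ z := by
  have hdpos : 0 < A.det := by
    rw [hA]
    positivity
  have hj : jf A τ ≠ 0 := jf_ne_zero A hdpos.ne' τ
  have hmob := coe_mob A hdpos τ
  have hdet : (A 0 0 : ℂ) * (A 1 1 : ℂ) - (A 0 1 : ℂ) * (A 1 0 : ℂ) = (p : ℂ) ^ 2 := by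
    have h1 : A 0 0 * A 1 1 - A 0 1 * A 1 0 = (p : ℤ) ^ 2 := by
      rw [← hA, Matrix.det_fin_two]
    exact_mod_cast h1
  have hjdef : jf A τ = (A 1 0 : ℂ) * (τ : ℂ) + (A 1 1 : ℂ) := rfl
  unfold thA
  -- the translation
  have hw : (p : ℂ) * (z + (p : ℂ) * (l : ℂ) * (τ : ℂ) + (p : ℂ) * (m : ℂ)) / jf A τ =
      (p : ℂ) * z / jf A τ + ((l * A 1 1 - m * A 1 0 : ℤ) : ℂ) * ((mob A τ : ℍ) : ℂ) +
        ((m * A 0 0 - l * A 0 1 : ℤ) : ℂ) := by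
    rw [hmob]
    push_cast
    field_simp
    rw [hjdef]
    linear_combination (-((l : ℂ) * (τ : ℂ) + (m : ℂ))) * hdet
  have hell := th_elliptic r (mob A τ) ((p : ℂ) * z / jf A τ) (l * A 1 1 - m * A 1 0)
    (m * A 0 0 - l * A 0 1)
  have hexp : ((p : ℂ) * (l : ℂ)) ^ 2 * (τ : ℂ) + 2 * ((p : ℂ) * (l : ℂ)) * z +
      -((A 1 0 : ℂ) * (z + (p : ℂ) * (l : ℂ) * (τ : ℂ) + (p : ℂ) * (m : ℂ)) ^ 2 / jf A τ) =
      (-((A 1 0 : ℂ) * z ^ 2 / jf A τ) +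
        (((l * A 1 1 - m * A 1 0 : ℤ) : ℂ) ^ 2 * ((mob A τ : ℍ) : ℂ) +
          2 * ((l * A 1 1 - m * A 1 0 : ℤ) : ℂ) * ((p : ℂ) * z / jf A τ))) +
      ((-(A 0 1 * A 1 1 * l ^ 2 - 2 * A 0 1 * A 1 0 * l * m + A 0 0 * A 1 0 * m ^ 2) : ℤ) : ℂ) := by
    rw [hmob]
    push_cast
    field_simp
    rw [hjdef]
    linear_combination (-((l : ℂ) ^ 2 * (τ : ℂ) * ((A 1 0 : ℂ) * (τ : ℂ) + (A 1 1 : ℂ)) -
      (A 1 0 : ℂ) * ((l : ℂ) * (τ : ℂ) + (m : ℂ)) ^ 2)) * hdet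
  have key : ee (((p : ℂ) * (l : ℂ)) ^ 2 * (τ : ℂ) + 2 * ((p : ℂ) * (l : ℂ)) * z) *
      ee (-((A 1 0 : ℂ) * (z + (p : ℂ) * (l : ℂ) * (τ : ℂ) + (p : ℂ) * (m : ℂ)) ^ 2 / jf A τ)) =
      ee (-((A 1 0 : ℂ) * z ^ 2 / jf A τ)) *
        ee (((l * A 1 1 - m * A 1 0 : ℤ) : ℂ) ^ 2 * ((mob A τ : ℍ) : ℂ) +
          2 * ((l * A 1 1 - m * A 1 0 : ℤ) : ℂ) * ((p : ℂ) * z / jf A τ)) := by
    rw [← ee_add, ← ee_add, hexp, ee_add_int]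
  rw [hw, ← hell]
  generalize th r (mob A τ) ((p : ℂ) * z / jf A τ + ((l * A 1 1 - m * A 1 0 : ℤ) : ℂ) *
    ((mob A τ : ℍ) : ℂ) + ((m * A 0 0 - l * A 0 1 : ℤ) : ℂ)) = Θ
  linear_combination Θ * key

end MP836e4b.P
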