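/-
MODULE GCr (size M), board mod836, MP_836e4b_nt, folder Work/MP_836e4b_nt/P. Keep the statements verbatim, helper lemmas private.
Gauss sums for a product of coprime moduli: n = c1 y + c2 x with y mod c2, x mod c1 is a bijection onto residues mod
c1c2 (e(an²/(c1c2)) depends only on n mod c1c2) and a n²/(c1c2) = a c1 y²/c2 + a c2 x²/c1 + 2axy.
-/
import Mathlib
import Pool.Agent.Work.MP_836e4b_nt.P.Defs

open UpperHalfPlane Complex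
open scoped MatrixGroups ComplexConjugate Matrix

namespace MP836e4b.P

private theorem gc_add (x y : ℂ) : ee (x + y) = ee x * ee y := by
  unfold ee
  rw [← Complex.exp_add]
  congr 1
  ring

private theorem gc_int (n : ℤ) : ee (n : ℂ) = 1 := by
  unfold ee
  rw [mul_comm]
  exact Complex.exp_int_mul_two_pi_mul_I n

private theorem gc_add_int (x : ℂ) (n : ℤ) : ee (x + n) = ee x := by
  rw [gc_add, gc_int, mul_one]

theorem gq_coprime (a : ℤ) (c₁ c₂ : ℕ) (h₁ : 0 < c₁) (h₂ : 0 < c₂) (h : Nat.Coprime c₁ c₂) :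
    gq a (c₁ * c₂) = gq (a * c₁) c₂ * gq (a * c₂) c₁ := by
  have e1 : (c₁ : ℂ) ≠ 0 := Nat.cast_ne_zero.2 h₁.ne'
  have e2 : (c₂ : ℂ) ≠ 0 := Nat.cast_ne_zero.2 h₂.ne'
  unfold gq
  rw [Finset.sum_mul_sum, ← Finset.sum_product']
  symm
  have hmap : ∀ p ∈ Finset.range c₂ ×ˢ Finset.range c₁,
      (c₁ * p.1 + c₂ * p.2) % (c₁ * c₂) ∈ Finset.range (c₁ * c₂) := by
    intro p _
    rw [Finset.mem_range]
    exact Nat.mod_lt _ (Nat.mul_pos h₁ h₂)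
  have hinj : Set.InjOn (fun p : ℕ × ℕ => (c₁ * p.1 + c₂ * p.2) % (c₁ * c₂))
      (Finset.range c₂ ×ˢ Finset.range c₁ : Finset (ℕ × ℕ)) := by
    rintro ⟨y, x⟩ hp ⟨y', x'⟩ hp' heq
    simp only [Finset.coe_product, Finset.coe_range, Set.mem_prod, Set.mem_Iio] at hp hp'
    have hm : (c₁ * y + c₂ * x) ≡ (c₁ * y' + c₂ * x') [MOD c₁ * c₂] := heq
    have hm1 : (c₁ * y + c₂ * x) ≡ (c₁ * y' + c₂ * x') [MOD c₁] := hm.of_mul_right c₂
    have hm2 : (c₁ * y + c₂ * x) ≡ (c₁ * y' + c₂ * x') [MOD c₂] := hm.of_mul_left c₁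
    have hz1 : c₁ * y ≡ c₁ * y' [MOD c₁] := by
      unfold Nat.ModEq
      rw [Nat.mul_mod_right, Nat.mul_mod_right]
    have hz2 : c₂ * x ≡ c₂ * x' [MOD c₂] := by
      unfold Nat.ModEq
      rw [Nat.mul_mod_right, Nat.mul_mod_right]
    have k1 : c₂ * x ≡ c₂ * x' [MOD c₁] := Nat.ModEq.add_left_cancel hz1 hm1
    have k2 : c₁ * y ≡ c₁ * y' [MOD c₂] := Nat.ModEq.add_right_cancel hz2 hm2
    have l1 : x ≡ x' [MOD c₁] := Nat.ModEq.cancel_left_of_coprime h k1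
    have l2 : y ≡ y' [MOD c₂] := Nat.ModEq.cancel_left_of_coprime h.symm k2
    have m1 : x = x' := Nat.ModEq.eq_of_lt_of_lt l1 hp.2 hp'.2
    have m2 : y = y' := Nat.ModEq.eq_of_lt_of_lt l2 hp.1 hp'.1
    rw [m1, m2]
  refine Finset.sum_nbij (fun p : ℕ × ℕ => (c₁ * p.1 + c₂ * p.2) % (c₁ * c₂)) hmap hinj ?_ ?_
  · apply Finset.surjOn_of_injOn_of_card_le _ hmap hinj
    rw [Finset.card_product, Finset.card_range, Finset.card_range, Finset.card_range, mul_comm]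
  · rintro ⟨y, x⟩ _
    obtain ⟨r, hr⟩ : ∃ r, r = (c₁ * y + c₂ * x) % (c₁ * c₂) := ⟨_, rfl⟩
    obtain ⟨q, hq⟩ : ∃ q, q = (c₁ * y + c₂ * x) / (c₁ * c₂) := ⟨_, rfl⟩
    have hd : c₁ * c₂ * q + r = c₁ * y + c₂ * x := by
      rw [hr, hq]
      exact Nat.div_add_mod _ _
    have hd' : (c₁ : ℂ) * c₂ * q + r = c₁ * y + c₂ * x := by exact_mod_cast hd
    show ee (((a * c₁ : ℤ) : ℂ) * (y : ℂ) ^ 2 / (c₂ : ℂ)) *
      ee (((a * c₂ : ℤ) : ℂ) * (x : ℂ) ^ 2 / (c₁ : ℂ)) =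
      ee ((a : ℂ) * (((c₁ * y + c₂ * x) % (c₁ * c₂) : ℕ) : ℂ) ^ 2 / ((c₁ * c₂ : ℕ) : ℂ))
    rw [← hr, ← gc_add]
    rw [← gc_add_int (((a * c₁ : ℤ) : ℂ) * (y : ℂ) ^ 2 / (c₂ : ℂ) +
      ((a * c₂ : ℤ) : ℂ) * (x : ℂ) ^ 2 / (c₁ : ℂ)) (2 * a * x * y)]
    rw [← gc_add_int ((a : ℂ) * (r : ℂ) ^ 2 / ((c₁ * c₂ : ℕ) : ℂ))
      (a * (c₁ * c₂ * q ^ 2 + 2 * q * r))]
    congr 1
    push_cast
    field_simp
    linear_combination (a : ℂ) * (-(c₁ : ℂ) * c₂ * q - r - (c₁ * y + c₂ * x)) * hd'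

theorem gq_one (a : ℤ) : gq a 1 = 1 := by
  unfold gq ee
  simp

theorem gq_conj (a : ℤ) (c : ℕ) : conj (gq a c) = gq (-a) c := by
  unfold gq
  rw [map_sum]
  apply Finset.sum_congr rfl
  intro n _
  unfold ee
  rw [← Complex.exp_conj]
  congr 1
  simp only [map_mul, map_div₀, map_pow, map_ofNat, Complex.conj_ofReal, Complex.conj_I,
    map_intCast, map_natCast]
  push_cast
  ring

end MP836e4b.P
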