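/-
MODULE GaD (size M), board mod836, MP_836e4b_nt, folder Work/MP_836e4b_nt/P. Keep the statements verbatim, helper lemmas private.
Gauss sum of the quadratic character mod an odd prime D with its sign: ∑_a χ_D(a) e(an/D) = χ_D(n) gD D.
Twisting: Mathlib gaussSum / DirichletCharacter, or reindex a -> a n⁻¹ (n prime to D; for D ∣ n the sum of χ is 0).
Sign: look at Pool/Agent/Work/MP_af11aa_nt/W/GaussSign.lean and K/Salie.lean (private copies of what is needed are
fine, or import them); otherwise by Poisson / the theta function (Schaar) or the product formula.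
-/
import Mathlib
import Pool.Agent.Work.MP_836e4b_nt.P.Defs
import Pool.Agent.Work.MP_836e4b_nt.P.Bas
import Pool.Agent.Work.MP_af11aa_nt.W.GaussSign

open UpperHalfPlane Complex
open scoped MatrixGroups ComplexConjugate Matrix

namespace MP836e4b.P

open Finset Pool.Agent.Work.MP_af11aa_nt.K in
private theorem ga_key (l : ℕ) [Fact l.Prime] (hl2 : l ≠ 2) (b : ZMod l) (hb : b ≠ 0) :
    ∑ x : ZMod l, ZMod.stdAddChar (b * x ^ 2)
      = ∑ v : ZMod l, (quadraticChar (ZMod l) v : ℂ) * ZMod.stdAddChar (b * v) := by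
  classical
  have hchar : ringChar (ZMod l) ≠ 2 := by rwa [ZMod.ringChar_zmod_n]
  have h1 : ∑ x : ZMod l, ZMod.stdAddChar (b * x ^ 2)
      = ∑ v : ZMod l, ∑ x : ZMod l with x ^ 2 = v, (ZMod.stdAddChar (b * v) : ℂ) := by
    rw [← Finset.sum_fiberwise (s := univ) (g := fun x : ZMod l => x ^ 2)]
    refine Finset.sum_congr rfl (fun v _ => Finset.sum_congr rfl (fun x hx => ?_))
    simp only [Finset.mem_filter, Finset.mem_univ, true_and] at hx
    rw [hx]
  rw [h1]
  have h2 : ∀ v : ZMod l, ∑ x : ZMod l with x ^ 2 = v, (ZMod.stdAddChar (b * v) : ℂ)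
      = (quadraticChar (ZMod l) v : ℂ) * ZMod.stdAddChar (b * v) + ZMod.stdAddChar (b * v) := by
    intro v
    rw [Finset.sum_const, nsmul_eq_mul]
    have h3 := quadraticChar_card_sqrts hchar v
    have h4 : ({x : ZMod l | x ^ 2 = v} : Set (ZMod l)).toFinset = (univ.filter (fun x : ZMod l => x ^ 2 = v)) := by
      ext x; simp
    rw [h4] at h3
    have h5 : ((univ.filter (fun x : ZMod l => x ^ 2 = v)).card : ℂ)
        = (quadraticChar (ZMod l) v : ℂ) + 1 := by
      have : (((univ.filter (fun x : ZMod l => x ^ 2 = v)).card : ℤ) : ℂ)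
        = ((quadraticChar (ZMod l) v + 1 : ℤ) : ℂ) := by rw [h3]
      push_cast at this
      exact this
    rw [h5]
    ring
  rw [Finset.sum_congr rfl (fun v _ => h2 v), Finset.sum_add_distrib]
  have h6 : ∑ v : ZMod l, (ZMod.stdAddChar (b * v) : ℂ) = 0 := by
    have := AddChar.sum_mulShift b (ZMod.isPrimitive_stdAddChar l)
    rw [if_neg hb] at this
    rw [← Nat.cast_zero, ← this]
    exact Finset.sum_congr rfl (fun v _ => by rw [mul_comm])
  rw [h6, add_zero]

private theorem ga_ec (D : ℕ) (z : ℤ) :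
    Pool.Agent.Work.MP_af11aa_nt.K.Salie.ec D z = ee ((z : ℂ) / (D : ℂ)) := by
  unfold Pool.Agent.Work.MP_af11aa_nt.K.Salie.ec ee
  congr 1
  ring

private theorem ga_ch (D : ℕ) [Fact D.Prime] (a : ℤ) :
    ch D a = ((quadraticChar (ZMod D) (a : ZMod D) : ℤ) : ℂ) := by
  unfold ch
  rw [← jacobiSym.legendreSym.to_jacobiSym, legendreSym]

private theorem ga_sum (D : ℕ) [Fact D.Prime] (n : ℤ) :
    ∑ a ∈ Finset.range D, ch D a * ee ((a : ℂ) * (n : ℂ) / (D : ℂ)) =
      ∑ v : ZMod D, (quadraticChar (ZMod D) v : ℂ) * ZMod.stdAddChar ((n : ZMod D) * v) := by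
  have : NeZero D := ⟨(Fact.out : D.Prime).ne_zero⟩
  rw [Pool.Agent.Work.MP_af11aa_nt.K.Salie.sum_zmod]
  refine Finset.sum_congr rfl fun a _ => ?_
  rw [ga_ch]
  have e : ((n : ZMod D) * ((a : ℕ) : ZMod D)) = (((n * (a : ℤ) : ℤ)) : ZMod D) := by
    push_cast
    ring
  rw [e, Pool.Agent.Work.MP_af11aa_nt.K.Salie.std_eq, ga_ec]
  congr 2
  · push_cast
    rfl
  · push_cast
    ring

private theorem gq_eq (a : ℤ) (c : ℕ) : gq a c = Pool.Agent.Work.MP_af11aa_nt.K.Salie.G a c := by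
  unfold gq Pool.Agent.Work.MP_af11aa_nt.K.Salie.G
  refine Finset.sum_congr rfl fun n _ => ?_
  rw [ga_ec]
  congr 1
  push_cast
  ring

private theorem ga_gD (p : ℕ) (hp : p.Prime) (hp2 : p ≠ 2) :
    Pool.Agent.Work.MP_af11aa_nt.K.Salie.G 1 p = gD p := by
  rw [Pool.Agent.Work.MP_af11aa_nt.W.gauss_sign p (hp.odd_of_ne_two hp2)]
  unfold Pool.Agent.Work.MP_af11aa_nt.W.gs gD
  split_ifs <;> simp

theorem gq_prime (p : ℕ) (hp : p.Prime) (hp2 : p ≠ 2) (a : ℤ) (ha : ¬ (p : ℤ) ∣ a) :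
    gq a p = ch p a * gD p := by
  have : Fact p.Prime := ⟨hp⟩
  rw [gq_eq, Pool.Agent.Work.MP_af11aa_nt.K.Salie.G_prime a p hp2 ha, ga_gD p hp hp2]
  rfl

theorem gauss_twist (D : ℕ) (hD : D.Prime) (hD2 : D ≠ 2) (n : ℤ) :
    ∑ a ∈ Finset.range D, ch D a * ee ((a : ℂ) * (n : ℂ) / (D : ℂ)) = ch D n * gD D := by
  have hf : Fact D.Prime := ⟨hD⟩
  have hz : NeZero D := ⟨hD.ne_zero⟩
  rw [ga_sum]
  by_cases hn : (D : ℤ) ∣ n
  · have h0 : ((n : ℤ) : ZMod D) = 0 := (ZMod.intCast_zmod_eq_zero_iff_dvd n D).2 hn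
    have h1 : ch D n = 0 := by
      rw [ga_ch, h0]
      simp
    rw [h1, zero_mul, h0]
    simp only [zero_mul, AddChar.map_zero_eq_one, mul_one]
    have hchar : ringChar (ZMod D) ≠ 2 := by rwa [ZMod.ringChar_zmod_n]
    have h2 := quadraticChar_sum_zero hchar
    exact_mod_cast congrArg (Int.cast : ℤ → ℂ) h2
  · have h0 : ((n : ℤ) : ZMod D) ≠ 0 := by
      rw [Ne, ZMod.intCast_zmod_eq_zero_iff_dvd]
      exact hn
    rw [← ga_key D hD2 _ h0, ← Pool.Agent.Work.MP_af11aa_nt.K.Salie.G_eq, ← gq_eq, gq_prime D hD hD2 n hn]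

end MP836e4b.P
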