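/-
MODULE CGa (size M-L), board mod836, MP_836e4b_nt, folder Work/MP_836e4b_nt/P. Keep the statements verbatim, helper lemmas private.
Gauss sums for odd squarefree moduli, by induction over the prime factors (D = p D', gq_coprime / CRT).
gD_mul: with ε_n = 1 or i for n = 1, 3 mod 4: gD n = ε_n √n and ε_{ab} = ε_a ε_b (-1)^((a-1)(b-1)/4) =
ε_a ε_b (a/b)(b/a) (jacobiSym.quadratic_reciprocity). gq_sqfree: gq a (p D') = gq (ap) D' gq (aD') p =
(ap/D')(aD'/p) gD D' gD p. gauss_twist_sq: a = a1 D2 + a2 D1, χ_D(a) = χ_{D1}(a1 D2) χ_{D2}(a2 D1); valid for all n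
(primitive character); for D = 1 both sides are 1.
-/
import Mathlib
import Pool.Agent.Work.MP_836e4b_nt.P.Defs
import Pool.Agent.Work.MP_836e4b_nt.P.GaD
import Pool.Agent.Work.MP_836e4b_nt.P.GCr

open UpperHalfPlane Complex
open scoped MatrixGroups ComplexConjugate Matrix

namespace MP836e4b.P

private theorem cga_add (x y : ℂ) : ee (x + y) = ee x * ee y := by
  unfold ee
  rw [← Complex.exp_add]
  congr 1
  ring

private theorem cga_int (n : ℤ) : ee (n : ℂ) = 1 := by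
  unfold ee
  rw [mul_comm]
  exact Complex.exp_int_mul_two_pi_mul_I n

private theorem cga_ch_mul (D : ℕ) (m n : ℤ) : ch D (m * n) = ch D m * ch D n := by
  unfold ch
  rw [jacobiSym.mul_left]
  push_cast
  rfl

private theorem cga_ch_mod (D : ℕ) (m n : ℤ) (h : m % (D : ℤ) = n % (D : ℤ)) : ch D m = ch D n := by
  unfold ch
  rw [jacobiSym.mod_left' h]

private theorem cga_ch_prod (a b : ℕ) (ha : a ≠ 0) (hb : b ≠ 0) (n : ℤ) :
    ch (a * b) n = ch a n * ch b n := by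
  unfold ch
  have : NeZero a := ⟨ha⟩
  have : NeZero b := ⟨hb⟩
  rw [jacobiSym.mul_right]
  push_cast
  rfl

private theorem cga_sum (c₁ c₂ : ℕ) (h₁ : 0 < c₁) (h₂ : 0 < c₂) (h : Nat.Coprime c₁ c₂)
    (f : ℕ → ℂ) (hf : ∀ m, f (m % (c₁ * c₂)) = f m) :
    ∑ a ∈ Finset.range (c₁ * c₂), f a =
      ∑ y ∈ Finset.range c₂, ∑ x ∈ Finset.range c₁, f (c₁ * y + c₂ * x) := by
  rw [← Finset.sum_product']
  symm
  have hmap : ∀ p ∈ Finset.range c₂ ×ˢ Finset.range c₁,
      (c₁ * p.1 + c₂ * p.2) % (c₁ * c₂) ∈ Finset.range (c₁ * c₂) := by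
    intro p _
    rw [Finset.mem_range]
    exact Nat.mod_lt _ (Nat.mul_pos h₁ h₂)
  have hinj : Set.InjOn (fun p : ℕ × ℕ => (c₁ * p.1 + c₂ * p.2) % (c₁ * c₂))
      (Finset.range c₂ ×ˢ Finset.range c₁ : Finset (ℕ × ℕ)) := by
    rintro ⟨y, x⟩ hp ⟨y', x'⟩ hp' heq
    simp only [Finset.coe_product, Finset.coe_range, Set.mem_prod, Set.mem_Iio] at hp hp'
    have hm : (c₁ * y + c₂ * x) ≡ (c₁ * y' + c₂ * x') [MOD c₁ * c₂] := heq
    have hm1 : (c₁ * y + c₂ * x) ≡ (c₁ * y' + c₂ * x') [MOD c₁] := hm.of_mul_right c₂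
    have hm2 : (c₁ * y + c₂ * x) ≡ (c₁ * y' + c₂ * x') [MOD c₂] := hm.of_mul_left c₁
    have hz1 : c₁ * y ≡ c₁ * y' [MOD c₁] := by
      unfold Nat.ModEq
      rw [Nat.mul_mod_right, Nat.mul_mod_right]
    have hz2 : c₂ * x ≡ c₂ * x' [MOD c₂] := by
      unfold Nat.ModEq
      rw [Nat.mul_mod_right, Nat.mul_mod_right]
    have k1 : c₂ * x ≡ c₂ * x' [MOD c₁] := Nat.ModEq.add_left_cancel hz1 hm1
    have k2 : c₁ * y ≡ c₁ * y' [MOD c₂] := Nat.ModEq.add_right_cancel hz2 hm2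
    have l1 : x ≡ x' [MOD c₁] := Nat.ModEq.cancel_left_of_coprime h k1
    have l2 : y ≡ y' [MOD c₂] := Nat.ModEq.cancel_left_of_coprime h.symm k2
    have m1 : x = x' := Nat.ModEq.eq_of_lt_of_lt l1 hp.2 hp'.2
    have m2 : y = y' := Nat.ModEq.eq_of_lt_of_lt l2 hp.1 hp'.1
    rw [m1, m2]
  refine Finset.sum_nbij (fun p : ℕ × ℕ => (c₁ * p.1 + c₂ * p.2) % (c₁ * c₂)) hmap hinj ?_ ?_
  · apply Finset.surjOn_of_injOn_of_card_le _ hmap hinj
    rw [Finset.card_product, Finset.card_range, Finset.card_range, Finset.card_range, mul_comm]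
  · rintro ⟨y, x⟩ _
    exact (hf _).symm

private theorem cga_sqrt (a b : ℕ) :
    ((Real.sqrt ((a * b : ℕ) : ℝ) : ℝ) : ℂ) = ((Real.sqrt a : ℝ) : ℂ) * ((Real.sqrt b : ℝ) : ℂ) := by
  rw [Nat.cast_mul, Real.sqrt_mul (Nat.cast_nonneg a)]
  push_cast
  rfl

private theorem cga_one (n : ℤ) : ch 1 n = 1 := by
  unfold ch
  rw [jacobiSym.one_right]
  norm_num

private theorem cga_gD_one : gD 1 = 1 := by
  unfold gD
  simp

private theorem cga_ind (P : ℕ → Prop) (h1 : P 1)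
    (hp : ∀ p D : ℕ, p.Prime → p ≠ 2 → Odd p → Odd D → Squarefree D → Nat.Coprime p D → P D → P (p * D)) :
    ∀ D : ℕ, Odd D → Squarefree D → P D := by
  intro D
  induction D using Nat.strong_induction_on with
  | _ D ih =>
    intro hD hs
    by_cases hD1 : D = 1
    · rw [hD1]; exact h1
    · have hprime := Nat.minFac_prime hD1
      obtain ⟨E, hE⟩ := Nat.minFac_dvd D
      obtain ⟨p, hpe⟩ : ∃ p, p = D.minFac := ⟨_, rfl⟩
      rw [← hpe] at hE hprime
      have hDpos : 0 < D := hD.pos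
      have hEpos : 0 < E := by
        rcases Nat.eq_zero_or_pos E with h0 | h0
        · rw [h0, mul_zero] at hE; omega
        · exact h0
      rw [hE, Nat.odd_mul] at hD
      rw [hE] at hs
      have hcop : Nat.Coprime p E := Nat.coprime_of_squarefree_mul hs
      have hsE : Squarefree E := hs.squarefree_of_dvd (Dvd.intro_left p rfl)
      have hlt : E < D := by
        rw [hE]
        have := hprime.two_le
        nlinarith
      have hp2 : p ≠ 2 := by
        rintro rfl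
        exact absurd hD.1 (by decide)
      rw [hE]
      exact hp p E hprime hp2 hD.1 hD.2 hsE hcop (ih E hlt hD.2 hsE)

theorem gD_mul (a b : ℕ) (ha : Odd a) (hb : Odd b) (h : Nat.Coprime a b) :
    gD (a * b) = ch a b * ch b a * gD a * gD b := by
  have hq := jacobiSym.quadratic_reciprocity ha hb
  have hsq : ((jacobiSym (b : ℤ) a : ℤ) : ℂ) * ((jacobiSym (b : ℤ) a : ℤ) : ℂ) = 1 := by
    have h1 : Int.gcd (b : ℤ) (a : ℤ) = 1 := by
      rw [Int.gcd_natCast_natCast]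
      exact h.symm
    have h2 := jacobiSym.sq_one h1
    rw [sq] at h2
    exact_mod_cast congrArg (Int.cast : ℤ → ℂ) h2
  have hch : ch a b * ch b a = (-1 : ℂ) ^ (a / 2 * (b / 2)) := by
    unfold ch
    rw [hq]
    push_cast
    linear_combination (-1 : ℂ) ^ (a / 2 * (b / 2)) * hsq
  rw [hch]
  have ha4 : a % 4 = 1 ∨ a % 4 = 3 := by
    have := Nat.odd_iff.1 ha
    omega
  have hb4 : b % 4 = 1 ∨ b % 4 = 3 := by
    have := Nat.odd_iff.1 hb
    omega
  have hab : (a * b) % 4 = (a % 4) * (b % 4) % 4 := Nat.mul_mod a b 4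
  unfold gD
  rw [cga_sqrt]
  rcases ha4 with h1 | h1 <;> rcases hb4 with h2 | h2
  · have e : Even (a / 2 * (b / 2)) := by
      have : Even (a / 2) := by
        rw [Nat.even_iff]
        omega
      exact this.mul_right _
    have h3 : (a * b) % 4 = 1 := by rw [hab, h1, h2]
    rw [if_pos h3, if_pos h1, if_pos h2, e.neg_one_pow]
    ring
  · have e : Even (a / 2 * (b / 2)) := by
      have : Even (a / 2) := by
        rw [Nat.even_iff]
        omega
      exact this.mul_right _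
    have h3 : (a * b) % 4 = 3 := by rw [hab, h1, h2]
    rw [if_neg (by rw [h3]; norm_num), if_pos h1, if_neg (by rw [h2]; norm_num), e.neg_one_pow]
    ring
  · have e : Even (a / 2 * (b / 2)) := by
      have : Even (b / 2) := by
        rw [Nat.even_iff]
        omega
      exact this.mul_left _
    have h3 : (a * b) % 4 = 3 := by rw [hab, h1, h2]
    rw [if_neg (by rw [h3]; norm_num), if_neg (by rw [h1]; norm_num), if_pos h2, e.neg_one_pow]
    ring
  · have e : Odd (a / 2 * (b / 2)) := by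
      rw [Nat.odd_mul, Nat.odd_iff, Nat.odd_iff]
      omega
    have h3 : (a * b) % 4 = 1 := by rw [hab, h1, h2]
    rw [if_pos h3, if_neg (by rw [h1]; norm_num), if_neg (by rw [h2]; norm_num), e.neg_one_pow]
    have hI : Complex.I * Complex.I = -1 := Complex.I_mul_I
    linear_combination (((Real.sqrt a : ℝ) : ℂ) * ((Real.sqrt b : ℝ) : ℂ)) * hI

theorem gq_sqfree (D : ℕ) (hD : Odd D) (hs : Squarefree D) (a : ℤ) (ha : IsCoprime a (D : ℤ)) :
    gq a D = ch D a * gD D := by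
  revert a
  refine cga_ind (fun D => ∀ a : ℤ, IsCoprime a (D : ℤ) → gq a D = ch D a * gD D) ?_ ?_ D hD hs
  · intro a _
    rw [gq_one, cga_one, cga_gD_one, one_mul]
  · intro p E hp hp2 hpo hEo hsE hcop ih a ha
    have hpE : IsCoprime (p : ℤ) (E : ℤ) := Nat.isCoprime_iff_coprime.2 hcop
    rw [Nat.cast_mul] at ha
    have h1 : IsCoprime a (p : ℤ) := ha.of_mul_right_left
    have h2 : IsCoprime a (E : ℤ) := ha.of_mul_right_right
    have h3 : IsCoprime (a * (p : ℤ)) (E : ℤ) := h2.mul_left hpE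
    have h4 : IsCoprime (a * (E : ℤ)) (p : ℤ) := h1.mul_left hpE.symm
    have h5 : ¬ (p : ℤ) ∣ a * (E : ℤ) := by
      intro hd
      have h6 := h4.isUnit_of_dvd' hd dvd_rfl
      rw [Int.isUnit_iff] at h6
      have := hp.two_le
      omega
    rw [gq_coprime a p E hp.pos hEo.pos hcop, ih _ h3, gq_prime p hp hp2 _ h5,
      cga_ch_prod p E hp.ne_zero hEo.pos.ne', gD_mul p E hpo hEo hcop, cga_ch_mul, cga_ch_mul]
    ring

theorem gauss_twist_sq (D : ℕ) (hD : Odd D) (hs : Squarefree D) (n : ℤ) :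
    ∑ a ∈ Finset.range D, ch D a * ee ((a : ℂ) * (n : ℂ) / (D : ℂ)) = ch D n * gD D := by
  revert n
  refine cga_ind (fun D => ∀ n : ℤ, ∑ a ∈ Finset.range D,
    ch D a * ee ((a : ℂ) * (n : ℂ) / (D : ℂ)) = ch D n * gD D) ?_ ?_ D hD hs
  · intro n
    rw [cga_one, cga_gD_one]
    simp [cga_one, ee]
  · intro p E hp hp2 hpo hEo hsE hcop ih n
    have hp0 : (p : ℂ) ≠ 0 := Nat.cast_ne_zero.2 hp.ne_zero
    have hE0 : (E : ℂ) ≠ 0 := Nat.cast_ne_zero.2 hEo.pos.ne'
    have hper : ∀ m : ℕ, ch (p * E) ((m % (p * E) : ℕ) : ℤ) *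
        ee (((m % (p * E) : ℕ) : ℂ) * (n : ℂ) / ((p * E : ℕ) : ℂ)) =
        ch (p * E) (m : ℤ) * ee ((m : ℂ) * (n : ℂ) / ((p * E : ℕ) : ℂ)) := by
      intro m
      have e1 : ch (p * E) ((m % (p * E) : ℕ) : ℤ) = ch (p * E) (m : ℤ) := by
        apply cga_ch_mod
        push_cast
        exact Int.emod_emod_of_dvd _ dvd_rfl
      have e2 : ee (((m % (p * E) : ℕ) : ℂ) * (n : ℂ) / ((p * E : ℕ) : ℂ)) =
          ee ((m : ℂ) * (n : ℂ) / ((p * E : ℕ) : ℂ)) := by
        have hd : ((p * E : ℕ) : ℂ) * ((m / (p * E) : ℕ) : ℂ) + ((m % (p * E) : ℕ) : ℂ) = (m : ℂ) := by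
          exact_mod_cast Nat.div_add_mod m (p * E)
        have hpE0 : ((p * E : ℕ) : ℂ) ≠ 0 := by
          rw [Nat.cast_mul]
          exact mul_ne_zero hp0 hE0
        have e3 : (m : ℂ) * (n : ℂ) / ((p * E : ℕ) : ℂ) =
            ((m % (p * E) : ℕ) : ℂ) * (n : ℂ) / ((p * E : ℕ) : ℂ) +
              ((((m / (p * E) : ℕ) : ℤ) * n : ℤ) : ℂ) := by
          rw [← hd]
          generalize m / (p * E) = q
          generalize m % (p * E) = r
          push_cast
          push_cast at hpE0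
          field_simp
          ring
        rw [e3, cga_add, cga_int, mul_one]
      rw [e1, e2]
    rw [cga_sum p E hp.pos hEo.pos hcop (fun m => ch (p * E) (m : ℤ) *
      ee ((m : ℂ) * (n : ℂ) / ((p * E : ℕ) : ℂ))) hper]
    have hterm : ∀ y x : ℕ, ch (p * E) ((p * y + E * x : ℕ) : ℤ) *
        ee (((p * y + E * x : ℕ) : ℂ) * (n : ℂ) / ((p * E : ℕ) : ℂ)) =
        (ch E (p : ℤ) * ch p (E : ℤ)) * ((ch E (y : ℤ) * ee ((y : ℂ) * (n : ℂ) / (E : ℂ))) *
          (ch p (x : ℤ) * ee ((x : ℂ) * (n : ℂ) / (p : ℂ)))) := by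
      intro y x
      have e1 : ch E ((p * y + E * x : ℕ) : ℤ) = ch E ((p : ℤ) * (y : ℤ)) := by
        apply cga_ch_mod
        push_cast
        exact Int.add_mul_emod_self_left _ _ _
      have e2 : ch p ((p * y + E * x : ℕ) : ℤ) = ch p ((E : ℤ) * (x : ℤ)) := by
        apply cga_ch_mod
        push_cast
        rw [add_comm]
        exact Int.add_mul_emod_self_left _ _ _
      have e3 : ee (((p * y + E * x : ℕ) : ℂ) * (n : ℂ) / ((p * E : ℕ) : ℂ)) =
          ee ((y : ℂ) * (n : ℂ) / (E : ℂ)) * ee ((x : ℂ) * (n : ℂ) / (p : ℂ)) := by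
        rw [← cga_add]
        congr 1
        push_cast
        field_simp
      rw [cga_ch_prod p E hp.ne_zero hEo.pos.ne', e1, e2, e3, cga_ch_mul, cga_ch_mul]
      ring
    have hfin : ∑ y ∈ Finset.range E, ∑ x ∈ Finset.range p,
        ch (p * E) ((p * y + E * x : ℕ) : ℤ) *
          ee (((p * y + E * x : ℕ) : ℂ) * (n : ℂ) / ((p * E : ℕ) : ℂ)) =
        (ch E (p : ℤ) * ch p (E : ℤ)) *
          ((∑ y ∈ Finset.range E, ch E (y : ℤ) * ee ((y : ℂ) * (n : ℂ) / (E : ℂ))) *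
            ∑ x ∈ Finset.range p, ch p (x : ℤ) * ee ((x : ℂ) * (n : ℂ) / (p : ℂ))) := by
      rw [Finset.sum_mul_sum, Finset.mul_sum]
      refine Finset.sum_congr rfl fun y _ => ?_
      rw [Finset.mul_sum]
      exact Finset.sum_congr rfl fun x _ => hterm y x
    rw [hfin, ih n, gauss_twist p hp hp2 n, cga_ch_prod p E hp.ne_zero hEo.pos.ne',
      gD_mul p E hpo hEo hcop]
    ring

end MP836e4b.P
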