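/-
MODULE CoB (size M), board mod836, MP_836e4b_nt, folder Work/MP_836e4b_nt/P. Keep the statements verbatim, helper lemmas private.
Functional equation at s = k: L(1-k,χ) = D^(k-1) (2π)^(-k) Γ(k) (e^{πik/2} χ-hat + ...) : Mathlib
ZMod.LFunction_one_sub (used in Work/MP_836e4b_nt/Char.lean, lemma Lval_one_sub_norm: copy that proof and keep the
phase). The Fourier transform of χ is χ(-1) gaussSum χ = χ(-1) gD D * χ (gauss_twist) and (-1)^k = χ(-1):
the two exponentials e^{±πik/2} combine (for even k both equal (-1)^(k/2), for odd k they differ by the sign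
which χ(-1) = -1 compensates) to 2 (−i)^k or 2 i^k; result: (k-1)! D^k L(k,χ) * 2 = gD D (-2πi)^k L(1-k,χ)
up to the stated form. Numerically checked for D = 3,5,7. Lval D k ≠ 0 for k ≥ 3: Lval_ge in Char.lean.
-/
import Mathlib
import Pool.Agent.Work.MP_836e4b_nt.P.Defs
import Pool.Agent.Work.MP_836e4b_nt.P.GaD
import Pool.Agent.Work.MP_836e4b_nt.P.Bas
import Pool.Agent.Work.MP_836e4b_nt.Char
import Pool.Agent.Work.MP_af11aa_nt.K.Salie

open UpperHalfPlane Complex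
open scoped MatrixGroups ComplexConjugate Matrix

namespace MP836e4b.P

open Finset in
open scoped Real ZMod in
private theorem lval_one_sub (m k : ℕ) [NeZero m] (hodd : Odd m) (hsq : Squarefree m) (hk : 2 ≤ k)
    (hpar : jacobiSym (-1) m = (-1) ^ k) :
    Lval m (1 - k) = (m : ℂ) ^ (k - 1) * ((2 * (Real.pi : ℂ)) ^ k)⁻¹ * ((k - 1).factorial : ℂ) *
      ((-Complex.I) ^ k * (2 * gaussSum (chi m) ZMod.stdAddChar * Lval m k)) := by
  have hprim := chi_isPrimitive m hodd hsq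
  set g := gaussSum (chi m) ZMod.stdAddChar with hg
  have hm1 : chi m (-1) = (-1) ^ k := by rw [chi_neg_one, hpar]; push_cast; rfl
  have h1 : 𝓕 (chi m : ZMod m → ℂ) = fun x => (chi m (-1) * g) * chi m x := by
    funext x
    rw [hprim.fourierTransform_eq_inv_mul_gaussSum, chi_mul_self, ← hg]
    have : chi m (-x) = chi m (-1) * chi m x := by rw [← map_mul]; congr 1; ring
    rw [this]
    ring
  have h2 : (fun x : ZMod m => chi m (-x)) = fun x => chi m (-1) * chi m x := by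
    funext x
    rw [← map_mul]; congr 1; ring
  have h3 : 𝓕 (fun x : ZMod m => chi m (-x)) = fun x => (chi m (-1) * (chi m (-1) * g)) * chi m x := by
    rw [h2, ZMod.dft_const_mul, h1]
    funext x
    ring
  have h4 := ZMod.LFunction_one_sub (chi m : ZMod m → ℂ) (s := (k : ℂ))
    (by
      intro n h
      have := congr_arg Complex.re h
      simp at this
      have h5 : (k : ℝ) + n = 0 := by linarith
      have h6 : (0:ℝ) < k := by exact_mod_cast (by omega : 0 < k)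
      have h7 : (0:ℝ) ≤ n := Nat.cast_nonneg n
      linarith)
    (Or.inr (by
      intro h
      have : k = 1 := by exact_mod_cast h
      omega))
  rw [h1, h3, zlf_const_mul, zlf_const_mul] at h4
  have h5 : Complex.exp (-π * Complex.I * k / 2) = (-1) ^ k * Complex.exp (π * Complex.I * k / 2) := by
    rw [← Complex.exp_pi_mul_I, ← Complex.exp_nat_mul, ← Complex.exp_add]
    rw [Complex.exp_eq_exp_iff_exists_int]
    refine ⟨-(k : ℤ), ?_⟩
    push_cast
    ring
  rw [h5, hm1] at h4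
  rw [Lval_eq, Lval_eq, DirichletCharacter.LFunction, DirichletCharacter.LFunction, h4]
  have h6 : ((-1 : ℂ) ^ k) * (-1) ^ k = 1 := by rw [← mul_pow]; simp
  have h7 : Complex.exp (π * Complex.I * k / 2) * ((-1) ^ k * g * ZMod.LFunction (chi m) k) +
      (-1) ^ k * Complex.exp (π * Complex.I * k / 2) * ((-1) ^ k * ((-1) ^ k * g) * ZMod.LFunction (chi m) k)
      = Complex.exp (π * Complex.I * k / 2) * (-1) ^ k * (2 * g * ZMod.LFunction (chi m) k) := by
    linear_combination (Complex.exp (π * Complex.I * k / 2) * (-1) ^ k * g * ZMod.LFunction (chi m) k) * h6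
  rw [h7]
  have h8 : Complex.Gamma k = ((k - 1).factorial : ℂ) := by
    have : (k : ℂ) = ((k - 1 : ℕ) : ℂ) + 1 := by
      rw [Nat.cast_sub (by omega)]; push_cast; ring
    rw [this, Complex.Gamma_nat_eq_factorial]
  have h9 : (m : ℂ) ^ ((k : ℂ) - 1) = (m : ℂ) ^ (k - 1) := by
    have : (k : ℂ) - 1 = ((k - 1 : ℕ) : ℂ) := by
      rw [Nat.cast_sub (by omega)]; push_cast; ring
    rw [this, Complex.cpow_natCast]
  have h10 : (2 * π : ℂ) ^ (-(k : ℂ)) = ((2 * π : ℂ) ^ k)⁻¹ := by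
    rw [Complex.cpow_neg, Complex.cpow_natCast]
  have h11 : Complex.exp (π * Complex.I * k / 2) = Complex.I ^ k := by
    have : (π * Complex.I * k / 2 : ℂ) = (k : ℂ) * (π / 2 * Complex.I) := by ring
    rw [this, Complex.exp_nat_mul, Complex.exp_pi_div_two_mul_I]
  have h12 : (-Complex.I) ^ k = (-1) ^ k * Complex.I ^ k := by rw [← mul_pow, neg_one_mul]
  rw [h8, h9, h10, h11, h12]
  ring

private theorem gauss_eq_gD (D : ℕ) [NeZero D] (hD : D.Prime) (hD2 : D ≠ 2) :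
    gaussSum (chi D) ZMod.stdAddChar = gD D := by
  have h := gauss_twist D hD hD2 1
  have h1 : ch D 1 = 1 := by
    unfold ch
    rw [jacobiSym.one_left]
    simp
  rw [h1, one_mul] at h
  rw [← h, gaussSum, Pool.Agent.Work.MP_af11aa_nt.K.Salie.sum_zmod]
  refine Finset.sum_congr rfl fun a _ => ?_
  rw [chi_natCast]
  have e : (((a : ℕ) : ZMod D)) = (((a : ℤ)) : ZMod D) := by push_cast; rfl
  rw [e, Pool.Agent.Work.MP_af11aa_nt.K.Salie.std_eq]
  unfold ch Pool.Agent.Work.MP_af11aa_nt.K.Salie.ec ee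
  congr 2
  push_cast
  ring

theorem const_B (D k : ℕ) (hD : D.Prime) (hD2 : D ≠ 2) (hk : 3 ≤ k)
    (hpar : jacobiSym (-1) D = (-1) ^ k) :
    Lval D (1 - (k : ℂ)) ≠ 0 ∧
    gD D * (-(2 * (Real.pi : ℂ) * Complex.I)) ^ k /
      (((k - 1).factorial : ℂ) * (D : ℂ) ^ k * Lval D (k : ℂ)) = 2 / Lval D (1 - (k : ℂ)) := by
  have hz : NeZero D := ⟨hD.ne_zero⟩
  have hodd : Odd D := hD.odd_of_ne_two hD2
  have h1 := lval_one_sub D k hodd hD.squarefree (by omega) hpar
  rw [gauss_eq_gD D hD hD2] at h1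
  have hL : Lval D (k : ℂ) ≠ 0 := by
    intro h
    have := Lval_ge D k hk
    rw [h, norm_zero] at this
    norm_num at this
  have hD0 : (D : ℂ) ≠ 0 := by exact_mod_cast hD.ne_zero
  have hpi : (Real.pi : ℂ) ≠ 0 := by exact_mod_cast Real.pi_ne_zero
  have hf : ((k - 1).factorial : ℂ) ≠ 0 := by exact_mod_cast Nat.factorial_ne_zero _
  have hsq : (((Real.sqrt D : ℝ)) : ℂ) ^ 2 = (D : ℂ) := by
    have : Real.sqrt (D : ℝ) ^ 2 = (D : ℝ) := Real.sq_sqrt (Nat.cast_nonneg D)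
    exact_mod_cast congrArg (Complex.ofReal) this
  have hg2 : gD D ^ 2 = (-1) ^ k * (D : ℂ) := by
    have hj := jacobiSym.at_neg_one hodd
    have hj2 : ((-1 : ℤ)) ^ k = ZMod.χ₄ D := by rw [← hpar, hj]
    have hj3 : ((-1 : ℂ)) ^ k = ((ZMod.χ₄ D : ℤ) : ℂ) := by
      rw [← hj2]
      push_cast
      rfl
    rw [hj3]
    unfold gD
    split_ifs with h4
    · rw [ZMod.χ₄_nat_one_mod_four h4, hsq]
      push_cast
      ring
    · have h3 : D % 4 = 3 := by
        obtain ⟨m, hm⟩ := hodd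
        omega
      rw [ZMod.χ₄_nat_three_mod_four h3, mul_pow, hsq, Complex.I_sq]
      push_cast
      ring
  have hg : gD D ≠ 0 := by
    intro h
    rw [h] at hg2
    have h2 : ((-1 : ℂ)) ^ k * (D : ℂ) ≠ 0 := mul_ne_zero (pow_ne_zero _ (by norm_num)) hD0
    exact h2 (by rw [← hg2]; norm_num)
  have hI : (-Complex.I) ≠ 0 := neg_ne_zero.2 Complex.I_ne_zero
  have hne : Lval D (1 - (k : ℂ)) ≠ 0 := by
    rw [h1]
    refine mul_ne_zero (mul_ne_zero (mul_ne_zero (pow_ne_zero _ hD0)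
      (inv_ne_zero (pow_ne_zero _ (mul_ne_zero two_ne_zero hpi)))) hf)
      (mul_ne_zero (pow_ne_zero _ hI) (mul_ne_zero (mul_ne_zero two_ne_zero hg) hL))
  refine ⟨hne, ?_⟩
  rw [div_eq_div_iff (mul_ne_zero (mul_ne_zero hf (pow_ne_zero _ hD0)) hL) hne, h1]
  have e1 : (-(2 * (Real.pi : ℂ) * Complex.I)) ^ k = (2 * (Real.pi : ℂ)) ^ k * (-Complex.I) ^ k := by
    rw [← mul_pow]
    congr 1
    ring
  have e2 : (-Complex.I) ^ k * (-Complex.I) ^ k = (-1) ^ k := by
    rw [← mul_pow]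
    congr 1
    rw [neg_mul_neg, Complex.I_mul_I]
  have e3 : (2 * (Real.pi : ℂ)) ^ k * ((2 * (Real.pi : ℂ)) ^ k)⁻¹ = 1 :=
    mul_inv_cancel₀ (pow_ne_zero _ (mul_ne_zero two_ne_zero hpi))
  have e4 : (D : ℂ) ^ k = (D : ℂ) ^ (k - 1) * (D : ℂ) := by
    rw [← pow_succ]
    congr 1
    omega
  have e5 : ((-1 : ℂ)) ^ k * (-1) ^ k = 1 := by rw [← mul_pow]; simp
  rw [e1, e4]
  calc gD D * ((2 * (Real.pi : ℂ)) ^ k * (-Complex.I) ^ k) *
        ((D : ℂ) ^ (k - 1) * ((2 * (Real.pi : ℂ)) ^ k)⁻¹ * ((k - 1).factorial : ℂ) *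
          ((-Complex.I) ^ k * (2 * gD D * Lval D k)))
      = (gD D ^ 2) * ((2 * (Real.pi : ℂ)) ^ k * ((2 * (Real.pi : ℂ)) ^ k)⁻¹) *
          ((-Complex.I) ^ k * (-Complex.I) ^ k) * (D : ℂ) ^ (k - 1) * ((k - 1).factorial : ℂ) *
          (2 * Lval D k) := by ring
    _ = ((-1) ^ k * (D : ℂ)) * 1 * ((-1) ^ k) * (D : ℂ) ^ (k - 1) * ((k - 1).factorial : ℂ) *
          (2 * Lval D k) := by rw [hg2, e2, e3]
    _ = (((-1 : ℂ)) ^ k * (-1) ^ k) * (2 * (((k - 1).factorial : ℂ) * ((D : ℂ) ^ (k - 1) * (D : ℂ)) *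
          Lval D k)) := by ring
    _ = _ := by rw [e5, one_mul]

theorem Lval_tsum (D k : ℕ) (hD : D.Prime) (hk : 3 ≤ k) :
    Lval D (k : ℂ) = ∑' g : ℕ, if g = 0 then 0 else ch D g * ((g : ℂ) ^ k)⁻¹ := by
  have hz : NeZero D := ⟨hD.ne_zero⟩
  have hre : 1 < (k : ℂ).re := by
    simp
    omega
  rw [Lval_eq, DirichletCharacter.LFunction_eq_LSeries _ hre, LSeries]
  refine tsum_congr fun g => ?_
  rw [LSeries.term_def]
  split_ifs with h0
  · rfl
  · rw [chi_natCast, Complex.cpow_natCast, div_eq_mul_inv]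
    rfl

end MP836e4b.P
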