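/-
MODULE CDf (size S), board mod836, MP_836e4b_nt, folder Work/MP_836e4b_nt/P. Keep the statements verbatim, helper lemmas private.
Definitions of the composite block (fully proved, not for claiming).
-/
import Mathlib
import Pool.Agent.Work.MP_836e4b_nt.P.Defs

open UpperHalfPlane Complex
open scoped MatrixGroups ComplexConjugate Matrix

namespace MP836e4b.P

/-- The phase `e(± r β/4)` attached to `D₂`: minus sign for `D₂ = 1 mod 4`. -/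
noncomputable def tw2 (D₂ : ℕ) (r : Fin 2) (β : ℤ) : ℂ :=
  ee ((if D₂ % 4 = 1 then (-1 : ℂ) else 1) * ((r : ℕ) : ℂ) * (β : ℂ) / 4)

open Classical in
/-- `1/2 ∑_{(c,d)=1, D₁ ∣ c, D₂ ∣ d} χ_{D₁}(d) χ_{D₂}(c/D₁) c^i (cτ+d)^{-k-i}`. -/
noncomputable def EGen (D₁ D₂ k i : ℕ) (τ : ℍ) : ℂ :=
  (1 / 2 : ℂ) * ∑' v : ℤ × ℤ, if IsCoprime v.1 v.2 ∧ (D₁ : ℤ) ∣ v.1 ∧ (D₂ : ℤ) ∣ v.2 then
    ch D₁ v.2 * ch D₂ (v.1 / (D₁ : ℤ)) * (v.1 : ℂ) ^ i *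
      (((v.1 : ℂ) * (τ : ℂ) + (v.2 : ℂ)) ^ (k + i))⁻¹ else 0

/-- The contribution of the cusps with `gcd(c, D) = D₁`. -/
noncomputable def cgP (D₁ D₂ k e n : ℕ) : ℂ :=
  ch D₂ (-(D₁ : ℤ)) * ((D₂ : ℂ) ^ e)⁻¹ *
    ∑ m ∈ Finset.Icc (-((D₂ * n : ℕ) : ℤ)) (D₂ * n : ℕ),
      (if (D₁ : ℤ) * m ^ 2 ≤ (D₂ : ℤ) * n ∧ (4 : ℤ) ∣ (D₂ : ℤ) * n - (D₁ : ℤ) * m ^ 2 then
        sig k D₁ D₂ (((D₂ : ℤ) * n - (D₁ : ℤ) * m ^ 2) / 4).toNat *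
          Wp k e (((((D₂ : ℤ) * n - (D₁ : ℤ) * m ^ 2) / 4 : ℤ) : ℂ) / (D₁ : ℂ)) (m : ℂ) else 0)

/-- The coefficients of `g_D` up to the constant `2 / L(1-k, χ_D)`, `D` odd squarefree. -/
noncomputable def cgG (D k e n : ℕ) : ℂ := ∑ p ∈ D.divisorsAntidiagonal, cgP p.1 p.2 k e n

end MP836e4b.P
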