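/-
MODULE CopS (size M), board mod836, MP_836e4b_nt, folder Work/MP_836e4b_nt/P. Keep the statements verbatim, helper lemmas private.
Sum over all pairs = sum over multiples of coprime pairs: every v ≠ 0 is uniquely g v' with g ≥ 1 and v' coprime.
Equiv {v : ℤ×ℤ // v ≠ 0} ≃ {g : ℕ // 0 < g} × {v // IsCoprime}; F(g v') = ψ(g) F(v'); Summable.tsum_prod /
tsum_mul_tsum. If F vanishes at all coprime pairs both sides are 0 (no summability of ψ needed); otherwise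
ψ is summable because g -> F(g v') is.
-/
import Mathlib
import Pool.Agent.Work.MP_836e4b_nt.P.Defs

open UpperHalfPlane Complex
open scoped MatrixGroups ComplexConjugate Matrix

namespace MP836e4b.P

private def cpe (p : {g : ℕ // 0 < g} × {v : ℤ × ℤ // IsCoprime v.1 v.2}) : ℤ × ℤ :=
  (((p.1.1 : ℕ) : ℤ) * p.2.1.1, ((p.1.1 : ℕ) : ℤ) * p.2.1.2)

private theorem cpe_gcd (p : {g : ℕ // 0 < g} × {v : ℤ × ℤ // IsCoprime v.1 v.2}) :
    Int.gcd (cpe p).1 (cpe p).2 = p.1.1 := by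
  unfold cpe
  have h := p.2.2
  rw [Int.isCoprime_iff_gcd_eq_one] at h
  simp only
  rw [Int.gcd_mul_left, h, mul_one]
  simp

private theorem cpe_inj : Function.Injective cpe := by
  intro p q h
  have h1 : p.1.1 = q.1.1 := by rw [← cpe_gcd p, ← cpe_gcd q, h]
  have hg : ((p.1.1 : ℕ) : ℤ) ≠ 0 := by
    have := p.1.2
    exact_mod_cast this.ne'
  unfold cpe at h
  rw [Prod.mk.injEq, ← h1] at h
  have h2 : p.2.1.1 = q.2.1.1 := mul_left_cancel₀ hg h.1
  have h3 : p.2.1.2 = q.2.1.2 := mul_left_cancel₀ hg h.2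
  exact Prod.ext (Subtype.ext h1) (Subtype.ext (Prod.ext h2 h3))

private theorem cpe_surj (v : ℤ × ℤ) (hv : v ≠ 0) : ∃ p, cpe p = v := by
  have hg : 0 < Int.gcd v.1 v.2 := by
    rcases Nat.eq_zero_or_pos (Int.gcd v.1 v.2) with h | h
    · exfalso
      rw [Int.gcd_eq_zero_iff] at h
      exact hv (Prod.ext h.1 h.2)
    · exact h
  obtain ⟨a, ha⟩ := Int.gcd_dvd_left v.1 v.2
  obtain ⟨b, hb⟩ := Int.gcd_dvd_right v.1 v.2
  have hcop : IsCoprime a b := by
    rw [Int.isCoprime_iff_gcd_eq_one]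
    have h1 : Int.gcd v.1 v.2 = Int.gcd v.1 v.2 * Int.gcd a b := by
      have h3 : Int.gcd v.1 v.2 = Int.gcd (((Int.gcd v.1 v.2 : ℕ) : ℤ) * a) (((Int.gcd v.1 v.2 : ℕ) : ℤ) * b) := by
        rw [← ha, ← hb]
      rw [Int.gcd_mul_left, Int.natAbs_natCast] at h3
      exact h3
    have h2 : Int.gcd v.1 v.2 * Int.gcd a b = Int.gcd v.1 v.2 * 1 := by rw [← h1, mul_one]
    exact Nat.eq_of_mul_eq_mul_left hg h2
  exact ⟨(⟨_, hg⟩, ⟨(a, b), hcop⟩), Prod.ext ha.symm hb.symm⟩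

open Classical in
theorem sum_coprime (F : ℤ × ℤ → ℂ) (ψ : ℕ → ℂ) (hF : Summable F) (h0 : F 0 = 0)
    (hh : ∀ (g : ℕ) (v : ℤ × ℤ), 0 < g → F ((g : ℤ) * v.1, (g : ℤ) * v.2) = ψ g * F v) :
    ∑' v, F v = (∑' g : ℕ, if g = 0 then 0 else ψ g) *
      ∑' v : ℤ × ℤ, if IsCoprime v.1 v.2 then F v else 0 := by
  have hs : Function.support F ⊆ Set.range cpe := by
    intro v hv
    have hv0 : v ≠ 0 := by
      rintro rfl
      exact hv h0
    exact cpe_surj v hv0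
  have h1 : ∑' v, F v = ∑' p, F (cpe p) := (cpe_inj.tsum_eq hs).symm
  have hsum : Summable fun p => F (cpe p) := hF.comp_injective cpe_inj
  have h2 : ∀ p, F (cpe p) = ψ p.1.1 * F p.2.1 := fun p => hh p.1.1 p.2.1 p.1.2
  rw [h1, hsum.tsum_prod]
  have h3 : ∀ g : {g : ℕ // 0 < g}, ∑' v : {v : ℤ × ℤ // IsCoprime v.1 v.2}, F (cpe (g, v)) =
      ψ g.1 * ∑' v : {v : ℤ × ℤ // IsCoprime v.1 v.2}, F v.1 := by
    intro g
    rw [← tsum_mul_left]
    exact tsum_congr fun v => h2 (g, v)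
  rw [tsum_congr h3, tsum_mul_right]
  congr 1
  · have h4 := tsum_subtype {g : ℕ | 0 < g} ψ
    refine h4.trans (tsum_congr fun g => ?_)
    by_cases hg : g = 0
    · rw [if_pos hg, Set.indicator_of_notMem]
      simp [hg]
    · rw [if_neg hg, Set.indicator_of_mem]
      exact Nat.pos_of_ne_zero hg
  · have h4 := tsum_subtype {v : ℤ × ℤ | IsCoprime v.1 v.2} F
    refine h4.trans (tsum_congr fun v => ?_)
    rw [Set.indicator_apply]
    rfl

end MP836e4b.P
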