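/-
MODULE Lip (size M), board mod836, MP_836e4b_nt, folder Work/MP_836e4b_nt/P. Keep the statements verbatim, helper lemmas private.
Lipschitz formula: Mathlib EisensteinSeries q-expansion identity for ∑ 1/(z+n)^(k) (k ≥ 2). Mathlib:
`EisensteinSeries.qExpansion_identity` or similar (file NumberTheory/ModularForms/EisensteinSeries/QExpansion or
Cotangent expansion `cot_..`), with 1/(z+n)^(k+1). Also the absolute summability of both sides.
-/
import Mathlib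
import Pool.Agent.Work.MP_836e4b_nt.P.Defs
import Pool.Agent.Work.MP_836e4b_nt.P.Bas

open UpperHalfPlane Complex
open scoped MatrixGroups ComplexConjugate Matrix

namespace MP836e4b.P

private theorem ee_nat_mul (n : ℕ) (τ : ℍ) :
    ee ((n : ℂ) * (τ : ℂ)) = Complex.exp (2 * (Real.pi : ℂ) * Complex.I * (τ : ℂ)) ^ n := by
  unfold ee
  rw [← Complex.exp_nat_mul]
  congr 1
  ring

theorem lipschitz (k : ℕ) (hk : 2 ≤ k) (τ : ℍ) :
    ∑' l : ℤ, (((τ : ℂ) + (l : ℂ)) ^ k)⁻¹ =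
      (-(2 * (Real.pi : ℂ) * Complex.I)) ^ k / ((k - 1).factorial : ℂ) *
        ∑' n : ℕ, if n = 0 then 0 else (n : ℂ) ^ (k - 1) * ee ((n : ℂ) * (τ : ℂ)) := by
  obtain ⟨m, rfl⟩ : ∃ m, k = m + 1 := ⟨k - 1, by omega⟩
  have hm : 1 ≤ m := by omega
  have h := EisensteinSeries.qExpansion_identity hm τ
  have e1 : ∑' l : ℤ, (((τ : ℂ) + (l : ℂ)) ^ (m + 1))⁻¹ =
      ∑' n : ℤ, 1 / ((τ : ℂ) + n) ^ (m + 1) := by
    refine tsum_congr fun n => ?_
    rw [one_div]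
  have e2 : ∑' n : ℕ, (if n = 0 then 0 else (n : ℂ) ^ (m + 1 - 1) * ee ((n : ℂ) * (τ : ℂ))) =
      ∑' n : ℕ, (n : ℂ) ^ m * Complex.exp (2 * (Real.pi : ℂ) * Complex.I * (τ : ℂ)) ^ n := by
    refine tsum_congr fun n => ?_
    rw [Nat.add_sub_cancel]
    split_ifs with hn
    · rw [hn, Nat.cast_zero, zero_pow (by omega : m ≠ 0), zero_mul]
    · rw [ee_nat_mul]
  rw [e1, e2, h, Nat.add_sub_cancel]
  congr 3
  ring

theorem lipschitz_summable (k : ℕ) (τ : ℍ) :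
    Summable fun n : ℕ ↦ (n : ℂ) ^ k * ee ((n : ℂ) * (τ : ℂ)) := by
  have h := summable_pow_mul_cexp k 1 τ
  refine h.congr fun n => ?_
  rw [ee_nat_mul]
  simp

end MP836e4b.P
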