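/-
MODULE CEis (size L), board mod836, MP_836e4b_nt, folder Work/MP_836e4b_nt/P. Keep the statements verbatim, helper lemmas private.
Expansion of EGen, D = D1 D2. F(c,d) = [D1 ∣ c][D2 ∣ d] χ_{D1}(d) χ_{D2}(c/D1) c^i (cτ+d)^{-k-i}; F(gv) = χ_D(g) g^{-k} F(v)
(if g is not prime to D both sides vanish: for a prime p ∣ g, p ∣ D1: p ∣ gd so χ_{D1}(gd) = 0; p ∣ D2, D1 ∣ c: χ_{D2} = 0; if
D1 ∤ c but D1 ∣ gc then g has a common factor with D1; same for D2). sum_coprime and Lval_tsum_sq: 2 L(k,χ_D) EGen = ∑_v F(v).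
c = 0: zero unless D2 = 1 and i = 0, then 2 L(k,χ_D) (parity). Rows ±c are equal: 2 ∑_{c1 ≥ 1} χ_{D2}(c1) (D1c1)^i ∑_l
χ_{D1}(D2 l) (D1c1τ + D2 l)^{-k-i}; l = a + D1 l': D^{-k-i} χ_{D1}(D2) ∑_a χ_{D1}(a) ∑_{l'} (c1τ/D2 + a/D1 + l')^{-k-i} = D^{-k-i}
χ_{D1}(D2) (-2πi)^{k+i}/(k+i-1)! ∑_n n^{k+i-1} e(nc1τ/D2) χ_{D1}(n) gD D1 (lipschitz, gauss_twist_sq). N = c1 n: N^i n^{k-1}
χ_{D1}(n)χ_{D2}(c1): sig k D1 D2 N. D^{-i} D1^i = D2^{-i}; const_B_sq. (Modules EIn, EZe are the cases D2 = 1, D1 = 1.)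
-/
import Mathlib
import Pool.Agent.Work.MP_836e4b_nt.P.Defs
import Pool.Agent.Work.MP_836e4b_nt.P.Lip
import Pool.Agent.Work.MP_836e4b_nt.P.CGa
import Pool.Agent.Work.MP_836e4b_nt.P.CCo
import Pool.Agent.Work.MP_836e4b_nt.P.CopS
import Pool.Agent.Work.MP_836e4b_nt.P.CDf

open UpperHalfPlane Complex
open scoped MatrixGroups ComplexConjugate Matrix

namespace MP836e4b.P

private theorem cei_ch (D : ℕ) (n : ℤ) : ‖ch D n‖ ≤ 1 := by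
  unfold ch
  rcases jacobiSym.trichotomy n D with h | h | h <;> simp [h]

private theorem cei_sum (K i : ℕ) (hK : 3 ≤ K) (τ : ℍ) (a : ℤ × ℤ → ℂ) (ha : ∀ v, ‖a v‖ ≤ 1) :
    Summable fun v : ℤ × ℤ ↦
      a v * (v.1 : ℂ) ^ i * (((v.1 : ℂ) * (τ : ℂ) + (v.2 : ℂ)) ^ (K + i))⁻¹ := by
  have h1 := EisensteinSeries.summable_norm_eisSummand (k := (K : ℤ)) (by exact_mod_cast hK) τ
  have h2 : Summable fun v : ℤ × ℤ ↦
      ‖EisensteinSeries.eisSummand (K : ℤ) ((finTwoArrowEquiv ℤ).symm v) τ‖ :=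
    (finTwoArrowEquiv ℤ).symm.summable_iff.mpr h1
  refine Summable.of_norm_bounded (h2.mul_left ((τ.im⁻¹) ^ i)) fun v ↦ ?_
  have e1 : EisensteinSeries.eisSummand (K : ℤ) ((finTwoArrowEquiv ℤ).symm v) τ =
      ((v.1 : ℂ) * (τ : ℂ) + (v.2 : ℂ)) ^ (-(K : ℤ)) := rfl
  rw [e1]
  set w : ℂ := (v.1 : ℂ) * (τ : ℂ) + (v.2 : ℂ) with hw
  have him : 0 < τ.im := τ.im_pos
  by_cases h0 : w = 0
  · rw [h0, zero_pow (by omega), inv_zero, mul_zero, norm_zero]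
    positivity
  · have hwn : 0 < ‖w‖ := norm_pos_iff.mpr h0
    have h3 : ‖(v.1 : ℂ)‖ ≤ ‖w‖ * τ.im⁻¹ := by
      have h4 : w.im = (v.1 : ℝ) * τ.im := by
        rw [hw]
        simp
      have h5 := Complex.abs_im_le_norm w
      rw [h4, abs_mul, abs_of_pos him] at h5
      rw [Complex.norm_intCast, ← div_eq_mul_inv, le_div_iff₀ him]
      exact h5
    rw [norm_mul, norm_mul, norm_inv, norm_pow, norm_pow, zpow_neg, zpow_natCast, norm_inv,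
      norm_pow]
    calc ‖a v‖ * ‖(v.1 : ℂ)‖ ^ i * (‖w‖ ^ (K + i))⁻¹
        ≤ 1 * (‖w‖ * τ.im⁻¹) ^ i * (‖w‖ ^ (K + i))⁻¹ := by
          gcongr
          exact ha v
      _ = (τ.im⁻¹) ^ i * (‖w‖ ^ K)⁻¹ := by
          rw [pow_add, mul_pow]
          field_simp

private theorem cei_pnat (f : ℕ → ℂ) :
    ∑' n : ℕ, (if n = 0 then 0 else f n) = ∑' n : ℕ+, f n := by
  rw [← PNat.coe_injective.tsum_eq (f := fun n : ℕ ↦ if n = 0 then 0 else f n)]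
  · exact tsum_congr fun n ↦ if_neg n.ne_zero
  · intro n hn
    rw [Function.mem_support] at hn
    have h0 : n ≠ 0 := by
      rintro rfl
      exact hn (if_pos rfl)
    exact ⟨⟨n, Nat.pos_of_ne_zero h0⟩, rfl⟩

private theorem cei_mult (D : ℕ) (hD : D ≠ 0) (f : ℤ → ℂ) :
    ∑' d : ℤ, (if (D : ℤ) ∣ d then f d else 0) = ∑' l : ℤ, f ((D : ℤ) * l) := by
  have hinj : Function.Injective fun l : ℤ ↦ (D : ℤ) * l := by
    intro l l' h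
    exact mul_left_cancel₀ (by exact_mod_cast hD) h
  rw [← hinj.tsum_eq (f := fun d : ℤ ↦ if (D : ℤ) ∣ d then f d else 0)]
  · exact tsum_congr fun l ↦ if_pos (dvd_mul_right _ _)
  · intro d hd
    rw [Function.mem_support] at hd
    by_cases h : (D : ℤ) ∣ d
    · obtain ⟨l, rfl⟩ := h
      exact ⟨l, rfl⟩
    · exact absurd (if_neg h) hd

private theorem cei_geo (K : ℕ) {s : ℝ} (h0 : 0 ≤ s) (h1 : s < 1) :
    Summable fun n : ℕ+ ↦ ((n : ℕ) : ℝ) ^ K * s ^ (n : ℕ) := by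
  have h := summable_pow_mul_geometric_of_norm_lt_one K (r := s)
    (by rw [Real.norm_eq_abs, abs_of_nonneg h0]; exact h1)
  exact h.comp_injective PNat.coe_injective

private theorem cei_div (k i : ℕ) (hk : 1 ≤ k) (a b : ℕ → ℂ) (ha : ∀ n, ‖a n‖ ≤ 1)
    (hb : ∀ n, ‖b n‖ ≤ 1) {q : ℂ} (hq : ‖q‖ < 1) :
    ∑' c : ℕ+, ∑' n : ℕ+, ((c : ℕ) : ℂ) ^ i * ((n : ℕ) : ℂ) ^ (k + i - 1) * a c * b n *
      q ^ ((c : ℕ) * (n : ℕ)) = ∑' N : ℕ+, ((N : ℕ) : ℂ) ^ i *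
        (∑ x ∈ (N : ℕ).divisorsAntidiagonal, b x.1 * a x.2 * (x.1 : ℂ) ^ (k - 1)) *
          q ^ (N : ℕ) := by
  set s : ℝ := Real.sqrt ‖q‖ with hs
  have s0 : 0 ≤ s := Real.sqrt_nonneg _
  have s1 : s < 1 := by
    rw [hs, Real.sqrt_lt' one_pos, one_pow]
    exact hq
  have hqs : ‖q‖ = s ^ 2 := (Real.sq_sqrt (norm_nonneg _)).symm
  let h : ℕ × ℕ → ℂ := fun x ↦ (x.2 : ℂ) ^ i * (x.1 : ℂ) ^ (k + i - 1) * a x.2 * b x.1 *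
    q ^ (x.1 * x.2)
  have hsum : Summable fun x : ℕ+ × ℕ+ ↦ h ((x.1 : ℕ), (x.2 : ℕ)) := by
    have g1 := cei_geo (k + i - 1) s0 s1
    have g2 := cei_geo i s0 s1
    have g3 := g1.mul_of_nonneg g2 (fun n ↦ by positivity) (fun n ↦ by positivity)
    refine Summable.of_norm_bounded g3 fun x ↦ ?_
    have p1 : 1 ≤ (x.1 : ℕ) := x.1.pos
    have p2 : 1 ≤ (x.2 : ℕ) := x.2.pos
    have hle : (x.1 : ℕ) + (x.2 : ℕ) ≤ 2 * ((x.1 : ℕ) * (x.2 : ℕ)) := by nlinarith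
    have hpow : ‖q‖ ^ ((x.1 : ℕ) * (x.2 : ℕ)) ≤ s ^ (x.1 : ℕ) * s ^ (x.2 : ℕ) := by
      rw [hqs, ← pow_mul, ← pow_add]
      exact pow_le_pow_of_le_one s0 s1.le hle
    change ‖((x.2 : ℕ) : ℂ) ^ i * ((x.1 : ℕ) : ℂ) ^ (k + i - 1) * a x.2 * b x.1 *
      q ^ ((x.1 : ℕ) * (x.2 : ℕ))‖ ≤ ((x.1 : ℕ) : ℝ) ^ (k + i - 1) * s ^ (x.1 : ℕ) *
        (((x.2 : ℕ) : ℝ) ^ i * s ^ (x.2 : ℕ))
    rw [norm_mul, norm_mul, norm_mul, norm_mul, norm_pow, norm_pow, norm_pow,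
      Complex.norm_natCast, Complex.norm_natCast]
    calc ((x.2 : ℕ) : ℝ) ^ i * ((x.1 : ℕ) : ℝ) ^ (k + i - 1) * ‖a x.2‖ * ‖b x.1‖ *
          ‖q‖ ^ ((x.1 : ℕ) * (x.2 : ℕ))
        ≤ ((x.2 : ℕ) : ℝ) ^ i * ((x.1 : ℕ) : ℝ) ^ (k + i - 1) * 1 * 1 *
          (s ^ (x.1 : ℕ) * s ^ (x.2 : ℕ)) := by
          gcongr
          · exact ha _
          · exact hb _
      _ = _ := by ring
  have hsw : Summable fun x : ℕ+ × ℕ+ ↦ h ((x.2 : ℕ), (x.1 : ℕ)) :=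
    (Equiv.prodComm ℕ+ ℕ+).summable_iff.mpr hsum
  have e1 : ∑' c : ℕ+, ∑' n : ℕ+, ((c : ℕ) : ℂ) ^ i * ((n : ℕ) : ℂ) ^ (k + i - 1) * a c * b n *
      q ^ ((c : ℕ) * (n : ℕ)) = ∑' x : ℕ+ × ℕ+, h ((x.2 : ℕ), (x.1 : ℕ)) := by
    rw [hsw.tsum_prod]
    refine tsum_congr fun c ↦ tsum_congr fun n ↦ ?_
    change _ = ((c : ℕ) : ℂ) ^ i * ((n : ℕ) : ℂ) ^ (k + i - 1) * a c * b n *
      q ^ ((n : ℕ) * (c : ℕ))
    rw [mul_comm (n : ℕ) (c : ℕ)]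
  have e2 : ∑' x : ℕ+ × ℕ+, h ((x.2 : ℕ), (x.1 : ℕ)) =
      ∑' x : ℕ+ × ℕ+, h ((x.1 : ℕ), (x.2 : ℕ)) :=
    (Equiv.prodComm ℕ+ ℕ+).tsum_eq fun x : ℕ+ × ℕ+ ↦ h ((x.1 : ℕ), (x.2 : ℕ))
  have hss : Summable fun y : (n : ℕ+) × Nat.divisorsAntidiagonal n ↦ h y.2.1 :=
    sigmaAntidiagonalEquivProd.summable_iff.mpr hsum
  have e3 : ∑' x : ℕ+ × ℕ+, h ((x.1 : ℕ), (x.2 : ℕ)) =
      ∑' y : (n : ℕ+) × Nat.divisorsAntidiagonal n, h y.2.1 :=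
    (sigmaAntidiagonalEquivProd.tsum_eq fun x : ℕ+ × ℕ+ ↦ h ((x.1 : ℕ), (x.2 : ℕ))).symm
  rw [e1, e2, e3, hss.tsum_sigma]
  refine tsum_congr fun N ↦ ?_
  have e4 : ∑' x : Nat.divisorsAntidiagonal N, h x.1 =
      ∑ x ∈ (N : ℕ).divisorsAntidiagonal, h x := Finset.tsum_subtype _ h
  rw [e4, Finset.mul_sum, Finset.sum_mul]
  refine Finset.sum_congr rfl fun x hx ↦ ?_
  have hx' : x.1 * x.2 = (N : ℕ) := (Nat.mem_divisorsAntidiagonal.mp hx).1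
  change (x.2 : ℂ) ^ i * (x.1 : ℂ) ^ (k + i - 1) * a x.2 * b x.1 * q ^ (x.1 * x.2) = _
  rw [hx', ← hx', show k + i - 1 = i + (k - 1) by omega, pow_add]
  push_cast
  ring

private theorem cei_even (G : ℤ → ℂ) (hG : ∀ n, G (-n) = G n) (hs : Summable G) :
    ∑' n : ℤ, G n = G 0 + 2 * ∑' n : ℕ+, G ((n : ℕ) : ℤ) := by
  have h := tsum_int_eq_zero_add_two_mul_tsum_pnat (f := G) (fun n ↦ hG n) hs
  rw [h, nsmul_eq_mul, Nat.cast_ofNat]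

private theorem cei_res (D : ℕ) (hD : D ≠ 0) (f : ℤ → ℂ) (hf : Summable f) :
    ∑' d : ℤ, f d = ∑ a ∈ Finset.range D, ∑' l : ℤ, f ((D : ℤ) * l + (a : ℤ)) := by
  have : NeZero D := ⟨hD⟩
  have h1 := (Int.divModEquiv D).symm.tsum_eq f
  have h2 : Summable fun x : ℤ × Fin D ↦ f ((Int.divModEquiv D).symm x) :=
    (Int.divModEquiv D).symm.summable_iff.mpr hf
  have h3 : Summable fun x : Fin D × ℤ ↦ f ((Int.divModEquiv D).symm (x.2, x.1)) :=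
    (Equiv.prodComm (Fin D) ℤ).summable_iff.mpr h2
  have h4 : ∑' x : Fin D × ℤ, f ((Int.divModEquiv D).symm (x.2, x.1)) =
      ∑' x : ℤ × Fin D, f ((Int.divModEquiv D).symm x) :=
    (Equiv.prodComm (Fin D) ℤ).tsum_eq fun x : ℤ × Fin D ↦ f ((Int.divModEquiv D).symm x)
  rw [← h1, ← h4, h3.tsum_prod, tsum_fintype, Finset.sum_range]
  refine Finset.sum_congr rfl fun a _ ↦ tsum_congr fun l ↦ ?_
  congr 1
  change l * (D : ℤ) + ((a : ℕ) : ℤ) = _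
  ring

private theorem cei_mul (D : ℕ) (m n : ℤ) : ch D (m * n) = ch D m * ch D n := by
  unfold ch
  rw [jacobiSym.mul_left]
  push_cast
  ring

private theorem cei_mulr (D₁ D₂ : ℕ) (h1 : D₁ ≠ 0) (h2 : D₂ ≠ 0) (n : ℤ) :
    ch (D₁ * D₂) n = ch D₁ n * ch D₂ n := by
  have : NeZero D₁ := ⟨h1⟩
  have : NeZero D₂ := ⟨h2⟩
  unfold ch
  rw [jacobiSym.mul_right]
  push_cast
  ring

private theorem cei_zero (D p : ℕ) (hD : D ≠ 0) (hp : p.Prime) (hpD : p ∣ D) (n : ℤ)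
    (hn : (p : ℤ) ∣ n) : ch D n = 0 := by
  have : NeZero D := ⟨hD⟩
  unfold ch
  have h1 : jacobiSym n D = 0 := by
    rw [jacobiSym.eq_zero_iff_not_coprime]
    intro h2
    have h3 : (p : ℤ) ∣ (Int.gcd n D : ℤ) := Int.dvd_coe_gcd hn (by exact_mod_cast hpD)
    rw [h2] at h3
    have h4 : p ∣ 1 := by exact_mod_cast h3
    exact hp.one_lt.ne' (Nat.dvd_one.mp h4)
  rw [h1, Int.cast_zero]

private theorem cei_per (D : ℕ) (a : ℕ) (l : ℤ) : ch D ((D : ℤ) * l + (a : ℤ)) = ch D (a : ℤ) := by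
  unfold ch
  rw [jacobiSym.mod_left, Int.mul_add_emod_self_left, ← jacobiSym.mod_left]

private theorem cei_gD (D : ℕ) (hD : D ≠ 0) : gD D ≠ 0 := by
  have h1 : ((Real.sqrt D : ℝ) : ℂ) ≠ 0 := by
    rw [Complex.ofReal_ne_zero]
    exact (Real.sqrt_pos.mpr (by exact_mod_cast Nat.pos_of_ne_zero hD)).ne'
  unfold gD
  split_ifs
  · exact h1
  · exact mul_ne_zero Complex.I_ne_zero h1

private theorem cei_L (D k : ℕ) (hD : Odd D) (hs : Squarefree D) (hk : 3 ≤ k)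
    (hpar : jacobiSym (-1) D = (-1) ^ k) : Lval D (k : ℂ) ≠ 0 := by
  obtain ⟨h1, h2⟩ := const_B_sq D k hD hs hk hpar
  intro h0
  rw [h0, mul_zero, div_zero] at h2
  exact div_ne_zero two_ne_zero h1 h2.symm

/-- the coefficient of the pair `v` -/
private noncomputable def ceic (D₁ D₂ : ℕ) (v : ℤ × ℤ) : ℂ :=
  open Classical in if (D₁ : ℤ) ∣ v.1 ∧ (D₂ : ℤ) ∣ v.2 then
    ch D₁ v.2 * ch D₂ (v.1 / (D₁ : ℤ)) else 0

private theorem ceic_norm (D₁ D₂ : ℕ) (v : ℤ × ℤ) : ‖ceic D₁ D₂ v‖ ≤ 1 := by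
  unfold ceic
  split_ifs
  · rw [norm_mul]
    exact mul_le_one₀ (cei_ch _ _) (norm_nonneg _) (cei_ch _ _)
  · rw [norm_zero]
    exact zero_le_one

private theorem ceic_hom (D₁ D₂ : ℕ) (hs : Squarefree (D₁ * D₂)) (g : ℕ) (v : ℤ × ℤ) :
    ceic D₁ D₂ ((g : ℤ) * v.1, (g : ℤ) * v.2) = ch (D₁ * D₂) g * ceic D₁ D₂ v := by
  have hD0 : D₁ * D₂ ≠ 0 := hs.ne_zero
  have hD1 : D₁ ≠ 0 := left_ne_zero_of_mul hD0
  have hD2 : D₂ ≠ 0 := right_ne_zero_of_mul hD0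
  have hD1z : (D₁ : ℤ) ≠ 0 := by exact_mod_cast hD1
  have hcop : D₁.Coprime D₂ := (Nat.squarefree_mul_iff.mp hs).1
  unfold ceic
  dsimp only
  by_cases hg : Nat.Coprime g (D₁ * D₂)
  · have c1 : IsCoprime (D₁ : ℤ) (g : ℤ) :=
      (Nat.isCoprime_iff_coprime.mpr (Nat.Coprime.coprime_mul_right_right hg)).symm
    have c2 : IsCoprime (D₂ : ℤ) (g : ℤ) :=
      (Nat.isCoprime_iff_coprime.mpr (Nat.Coprime.coprime_mul_left_right hg)).symm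
    have e1 : (D₁ : ℤ) ∣ (g : ℤ) * v.1 ↔ (D₁ : ℤ) ∣ v.1 :=
      ⟨fun h ↦ c1.dvd_of_dvd_mul_left h, fun h ↦ h.mul_left _⟩
    have e2 : (D₂ : ℤ) ∣ (g : ℤ) * v.2 ↔ (D₂ : ℤ) ∣ v.2 :=
      ⟨fun h ↦ c2.dvd_of_dvd_mul_left h, fun h ↦ h.mul_left _⟩
    by_cases h : (D₁ : ℤ) ∣ v.1 ∧ (D₂ : ℤ) ∣ v.2
    · rw [if_pos h, if_pos ⟨e1.mpr h.1, e2.mpr h.2⟩, Int.mul_ediv_assoc _ h.1, cei_mul, cei_mul,
        cei_mulr D₁ D₂ hD1 hD2]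
      ring
    · rw [if_neg h, if_neg (fun h' ↦ h ⟨e1.mp h'.1, e2.mp h'.2⟩), mul_zero]
  · obtain ⟨p, hp, hpg, hpD⟩ := Nat.Prime.not_coprime_iff_dvd.mp hg
    have hpgz : (p : ℤ) ∣ (g : ℤ) := by exact_mod_cast hpg
    rw [cei_zero (D₁ * D₂) p hD0 hp hpD _ hpgz, zero_mul]
    split_ifs with h
    · rcases (Nat.Prime.dvd_mul hp).mp hpD with h1 | h1
      · rw [cei_zero D₁ p hD1 hp h1 _ (hpgz.mul_right _), zero_mul]
      · obtain ⟨m, hm⟩ := h.1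
        rw [hm, Int.mul_ediv_cancel_left _ hD1z]
        have h2 : (p : ℤ) ∣ (D₁ : ℤ) * m := by
          rw [← hm]
          exact hpgz.mul_right _
        have h3 : ¬ (p : ℤ) ∣ (D₁ : ℤ) := by
          intro h4
          have h5 : p ∣ D₁ := by exact_mod_cast h4
          have h6 : p ∣ Nat.gcd D₁ D₂ := Nat.dvd_gcd h5 h1
          rw [hcop] at h6
          exact hp.one_lt.ne' (Nat.dvd_one.mp h6)
        have h4 : (p : ℤ) ∣ m := ((Nat.prime_iff_prime_int.mp hp).dvd_or_dvd h2).resolve_left h3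
        rw [cei_zero D₂ p hD2 hp h1 _ h4, mul_zero]
    · rfl

private theorem ceic_neg (D₁ D₂ k : ℕ) (hs : Squarefree (D₁ * D₂))
    (hpar : jacobiSym (-1) (D₁ * D₂ : ℕ) = (-1) ^ k) (v : ℤ × ℤ) :
    ceic D₁ D₂ (-v.1, -v.2) = (-1) ^ k * ceic D₁ D₂ v := by
  have hD0 : D₁ * D₂ ≠ 0 := hs.ne_zero
  have hD1 : D₁ ≠ 0 := left_ne_zero_of_mul hD0
  have hD2 : D₂ ≠ 0 := right_ne_zero_of_mul hD0
  have h1 : ch D₁ (-1) * ch D₂ (-1) = (-1) ^ k := by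
    rw [← cei_mulr D₁ D₂ hD1 hD2]
    unfold ch
    rw [hpar]
    push_cast
    ring
  unfold ceic
  dsimp only
  by_cases h : (D₁ : ℤ) ∣ v.1 ∧ (D₂ : ℤ) ∣ v.2
  · rw [if_pos h, if_pos ⟨(dvd_neg).mpr h.1, (dvd_neg).mpr h.2⟩, Int.neg_ediv_of_dvd h.1,
      ← neg_one_mul v.2, ← neg_one_mul (v.1 / (D₁ : ℤ)), cei_mul, cei_mul]
    linear_combination (ch D₁ v.2 * ch D₂ (v.1 / (D₁ : ℤ))) * h1
  · rw [if_neg h, if_neg (fun h' ↦ h ⟨(dvd_neg).mp h'.1, (dvd_neg).mp h'.2⟩), mul_zero]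

private theorem ceic_row (D₁ D₂ : ℕ) (hD1 : D₁ ≠ 0) (c d : ℤ) :
    ceic D₁ D₂ ((D₁ : ℤ) * c, d) = if (D₂ : ℤ) ∣ d then ch D₁ d * ch D₂ c else 0 := by
  have hD1z : (D₁ : ℤ) ≠ 0 := by exact_mod_cast hD1
  unfold ceic
  dsimp only
  rw [Int.mul_ediv_cancel_left _ hD1z]
  by_cases h : (D₂ : ℤ) ∣ d
  · rw [if_pos ⟨dvd_mul_right _ _, h⟩, if_pos h]
  · rw [if_neg (fun h' ↦ h h'.2), if_neg h]

theorem EGen_eq (D₁ D₂ k i : ℕ) (hD : Odd (D₁ * D₂)) (hs : Squarefree (D₁ * D₂)) (hk : 3 ≤ k)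
    (hpar : jacobiSym (-1) (D₁ * D₂ : ℕ) = (-1) ^ k) (τ : ℍ) :
    EGen D₁ D₂ k i τ = (if D₂ = 1 ∧ i = 0 then 1 else 0) +
      2 / Lval (D₁ * D₂) (1 - (k : ℂ)) * (gD D₁ * ch D₁ D₂ / gD (D₁ * D₂)) * ((D₂ : ℂ) ^ i)⁻¹ *
      ((-(2 * (Real.pi : ℂ) * Complex.I)) ^ i *
        (((k - 1).factorial : ℂ) / ((k + i - 1).factorial : ℂ))) *
      ∑' N : ℕ, if N = 0 then 0 else
        (N : ℂ) ^ i * sig k D₁ D₂ N * ee ((N : ℂ) * (τ : ℂ) / (D₂ : ℂ)) := by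
  classical
  have hD0 : D₁ * D₂ ≠ 0 := hs.ne_zero
  have hD1 : D₁ ≠ 0 := left_ne_zero_of_mul hD0
  have hD2 : D₂ ≠ 0 := right_ne_zero_of_mul hD0
  have hodd1 : Odd D₁ := (Nat.odd_mul.mp hD).1
  have hs1 : Squarefree D₁ := (Nat.squarefree_mul_iff.mp hs).2.1
  have hDc1 : (D₁ : ℂ) ≠ 0 := by exact_mod_cast hD1
  have hDc2 : (D₂ : ℂ) ≠ 0 := by exact_mod_cast hD2
  have hD1z : (D₁ : ℤ) ≠ 0 := by exact_mod_cast hD1
  set K : ℕ := k + i with hK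
  set L : ℂ := Lval (D₁ * D₂) (k : ℂ) with hL
  have hL0 : L ≠ 0 := cei_L (D₁ * D₂) k hD hs hk hpar
  have hg0 : gD (D₁ * D₂) ≠ 0 := cei_gD _ hD0
  obtain ⟨hB0, hB⟩ := const_B_sq (D₁ * D₂) k hD hs hk hpar
  let F : ℤ × ℤ → ℂ := fun v ↦ ceic D₁ D₂ v * (v.1 : ℂ) ^ i *
      (((v.1 : ℂ) * (τ : ℂ) + (v.2 : ℂ)) ^ K)⁻¹
  have hFe : ∀ v : ℤ × ℤ, F v = ceic D₁ D₂ v * (v.1 : ℂ) ^ i *
      (((v.1 : ℂ) * (τ : ℂ) + (v.2 : ℂ)) ^ K)⁻¹ := fun v ↦ rfl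
  have hF : Summable F := cei_sum k i hk τ (fun v ↦ ceic D₁ D₂ v) (ceic_norm D₁ D₂)
  have hF0 : F 0 = 0 := by
    rw [hFe]
    have h1 : (((0 : ℤ × ℤ).1 : ℤ) : ℂ) * (τ : ℂ) + (((0 : ℤ × ℤ).2 : ℤ) : ℂ) = 0 := by
      simp
    rw [h1, zero_pow (by omega), inv_zero, mul_zero]
  have hhom : ∀ (g : ℕ) (v : ℤ × ℤ), 0 < g →
      F ((g : ℤ) * v.1, (g : ℤ) * v.2) = (ch (D₁ * D₂) g * ((g : ℂ) ^ k)⁻¹) * F v := by
    intro g v hg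
    have hgc : (g : ℂ) ≠ 0 := by exact_mod_cast hg.ne'
    rw [hFe, hFe, ceic_hom D₁ D₂ hs]
    dsimp only
    have h5 : (((g : ℤ) * v.1 : ℤ) : ℂ) * (τ : ℂ) + (((g : ℤ) * v.2 : ℤ) : ℂ) =
        (g : ℂ) * ((v.1 : ℂ) * (τ : ℂ) + (v.2 : ℂ)) := by
      push_cast
      ring
    rw [h5, mul_pow, mul_inv, hK, pow_add (g : ℂ) k i]
    push_cast
    rw [mul_pow]
    field_simp
  have hcop := sum_coprime F (fun g ↦ ch (D₁ * D₂) g * ((g : ℂ) ^ k)⁻¹) hF hF0 hhom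
  rw [← Lval_tsum_sq (D₁ * D₂) k (Nat.pos_of_ne_zero hD0) hk, ← hL] at hcop
  have hEI : EGen D₁ D₂ k i τ = (1 / 2) * (L⁻¹ * ∑' v, F v) := by
    rw [hcop, inv_mul_cancel_left₀ hL0]
    unfold EGen
    congr 1
    refine tsum_congr fun v ↦ ?_
    rw [hFe]
    unfold ceic
    by_cases h1 : IsCoprime v.1 v.2
    · by_cases h2 : (D₁ : ℤ) ∣ v.1 ∧ (D₂ : ℤ) ∣ v.2
      · rw [if_pos ⟨h1, h2⟩, if_pos h1, if_pos h2]
      · rw [if_neg (fun h ↦ h2 h.2), if_pos h1, if_neg h2, zero_mul, zero_mul]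
    · rw [if_neg (fun h ↦ h1 h.1), if_neg h1]
  -- the rows
  set G : ℤ → ℂ := fun c ↦ ∑' d : ℤ, F (c, d) with hG
  have hGs : Summable G := hF.prod
  have hsumG : ∑' v, F v = ∑' c : ℤ, G c := hF.tsum_prod
  have h4 : ((-1 : ℂ) ^ k) * ((-1 : ℂ) ^ k) = 1 := by
    rw [← mul_pow]
    norm_num
  have h5 : ((-1 : ℂ) ^ i) * ((-1 : ℂ) ^ i) = 1 := by
    rw [← mul_pow]
    norm_num
  have hGe : ∀ c, G (-c) = G c := by
    intro c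
    rw [hG]
    dsimp only
    rw [← (Equiv.neg ℤ).tsum_eq (fun d : ℤ ↦ F (-c, d))]
    refine tsum_congr fun d ↦ ?_
    rw [hFe, hFe]
    change ceic D₁ D₂ (-(c, d).1, -(c, d).2) * ((-c : ℤ) : ℂ) ^ i *
      ((((-c : ℤ) : ℂ) * (τ : ℂ) + ((-d : ℤ) : ℂ)) ^ K)⁻¹ = ceic D₁ D₂ (c, d) *
        (c : ℂ) ^ i * (((c : ℂ) * (τ : ℂ) + (d : ℂ)) ^ K)⁻¹
    have h2 : ((-c : ℤ) : ℂ) * (τ : ℂ) + ((-d : ℤ) : ℂ) =
        (-1) * ((c : ℂ) * (τ : ℂ) + (d : ℂ)) := by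
      push_cast
      ring
    have h3 : ((-c : ℤ) : ℂ) = (-1) * (c : ℂ) := by
      push_cast
      ring
    rw [ceic_neg D₁ D₂ k hs hpar, h2, h3, mul_pow, mul_pow, mul_inv, hK,
      pow_add (-1 : ℂ) k i]
    have h6 : (((-1 : ℂ) ^ k * (-1 : ℂ) ^ i))⁻¹ = (-1 : ℂ) ^ k * (-1 : ℂ) ^ i := by
      apply inv_eq_of_mul_eq_one_right
      linear_combination h4 * ((-1 : ℂ) ^ i * (-1 : ℂ) ^ i) + h5
    rw [h6]
    linear_combination (ceic D₁ D₂ (c, d) * (c : ℂ) ^ i *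
      (((c : ℂ) * (τ : ℂ) + (d : ℂ)) ^ (k + i))⁻¹) *
        (h4 * ((-1 : ℂ) ^ i * (-1 : ℂ) ^ i) + h5)
  have hrow0 : ∀ c d : ℤ, F ((D₁ : ℤ) * c, d) = (if (D₂ : ℤ) ∣ d then ch D₁ d * ch D₂ c else 0) *
      (((D₁ : ℤ) * c : ℤ) : ℂ) ^ i * (((((D₁ : ℤ) * c : ℤ) : ℂ) * (τ : ℂ) + (d : ℂ)) ^ K)⁻¹ := by
    intro c d
    rw [hFe, ceic_row D₁ D₂ hD1]
  have hG0 : G 0 = if D₂ = 1 ∧ i = 0 then 2 * L else 0 := by
    have e0 : ∀ d : ℤ, F (0, d) = (if (D₂ : ℤ) ∣ d then ch D₁ d * ch D₂ 0 else 0) *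
        ((0 : ℤ) : ℂ) ^ i * ((d : ℂ) ^ K)⁻¹ := by
      intro d
      have h1 := hrow0 0 d
      rw [mul_zero] at h1
      rw [h1, Int.cast_zero, zero_mul, zero_add]
    by_cases hi : i = 0
    · by_cases h21 : D₂ = 1
      · rw [if_pos ⟨h21, hi⟩, hG]
        dsimp only
        have h1 : ∀ d : ℤ, F (0, d) = ch (D₁ * D₂) d * ((d : ℂ) ^ k)⁻¹ := by
          intro d
          rw [e0, hK, hi, h21, mul_one, Nat.cast_one, if_pos (one_dvd d), pow_zero, mul_one,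
            add_zero]
          have h7 : ch 1 0 = 1 := by
            unfold ch
            rw [jacobiSym.one_right, Int.cast_one]
          rw [h7, mul_one]
        have h2 : Summable fun d : ℤ ↦ ch (D₁ * D₂) d * ((d : ℂ) ^ k)⁻¹ :=
          (hF.prod_factor 0).congr fun d ↦ h1 d
        rw [tsum_congr h1, cei_even _ _ h2]
        · rw [Int.cast_zero, zero_pow (by omega), inv_zero, mul_zero, zero_add, hL,
            Lval_tsum_sq (D₁ * D₂) k (Nat.pos_of_ne_zero hD0) hk, cei_pnat]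
          rfl
        · intro n
          have h8 : ch (D₁ * D₂) (-n) = (-1) ^ k * ch (D₁ * D₂) n := by
            rw [← neg_one_mul n, cei_mul]
            congr 1
            unfold ch
            rw [hpar]
            push_cast
            ring
          rw [h8]
          have h6 : ((-n : ℤ) : ℂ) ^ k = (-1) ^ k * (n : ℂ) ^ k := by
            rw [← mul_pow]
            push_cast
            ring
          have h7 : ((-1 : ℂ) ^ k)⁻¹ = (-1 : ℂ) ^ k := inv_eq_of_mul_eq_one_right h4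
          rw [h6, mul_inv, h7]
          linear_combination (ch (D₁ * D₂) n * ((n : ℂ) ^ k)⁻¹) * h4
      · rw [if_neg (fun h ↦ h21 h.1), hG]
        dsimp only
        have h7 : ch D₂ 0 = 0 := by
          obtain ⟨p, hp, hpD⟩ := Nat.exists_prime_and_dvd h21
          exact cei_zero D₂ p hD2 hp hpD 0 (dvd_zero _)
        have h1 : ∀ d : ℤ, F (0, d) = 0 := by
          intro d
          rw [e0, h7, mul_zero, ite_self, zero_mul, zero_mul]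
        rw [tsum_congr h1, tsum_zero]
    · rw [if_neg (fun h ↦ hi h.2), hG]
      dsimp only
      have h1 : ∀ d : ℤ, F (0, d) = 0 := by
        intro d
        rw [e0, Int.cast_zero, zero_pow hi, mul_zero, zero_mul]
      rw [tsum_congr h1, tsum_zero]
  -- only the multiples of `D₁`
  have hGD : ∀ c : ℤ, G c = if (D₁ : ℤ) ∣ c then G c else 0 := by
    intro c
    by_cases h1 : (D₁ : ℤ) ∣ c
    · rw [if_pos h1]
    · rw [if_neg h1, hG]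
      dsimp only
      have h2 : ∀ d : ℤ, F (c, d) = 0 := by
        intro d
        rw [hFe]
        unfold ceic
        rw [if_neg (fun h ↦ h1 h.1), zero_mul, zero_mul]
      rw [tsum_congr h2, tsum_zero]
  have hinj : Function.Injective fun l : ℤ ↦ (D₁ : ℤ) * l := by
    intro l l' h
    exact mul_left_cancel₀ hD1z h
  have hsumG2 : ∑' c : ℤ, G c = ∑' l : ℤ, G ((D₁ : ℤ) * l) := by
    rw [tsum_congr hGD, cei_mult D₁ hD1 G]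
  have hsumG3 : ∑' l : ℤ, G ((D₁ : ℤ) * l) =
      G 0 + 2 * ∑' c : ℕ+, G ((D₁ : ℤ) * ((c : ℕ) : ℤ)) := by
    have h1 := cei_even (fun l : ℤ ↦ G ((D₁ : ℤ) * l)) (fun n ↦ by
      rw [mul_neg, hGe]) (hGs.comp_injective hinj)
    rw [h1, mul_zero]
  set q : ℂ := ee ((τ : ℂ) / (D₂ : ℂ)) with hq
  have hqn : ‖q‖ < 1 := by
    rw [hq, norm_ee, Real.exp_lt_one_iff]
    have h1 : ((τ : ℂ) / (D₂ : ℂ)).im = τ.im / D₂ := by
      rw [Complex.div_natCast_im]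
      rfl
    rw [h1]
    have h2 : 0 < τ.im / D₂ := div_pos τ.im_pos (by exact_mod_cast Nat.pos_of_ne_zero hD2)
    have h3 := Real.pi_pos
    nlinarith
  have hqp : ∀ m : ℕ, ee ((m : ℂ) * (τ : ℂ) / (D₂ : ℂ)) = q ^ m := by
    intro m
    rw [hq]
    unfold ee
    rw [← Complex.exp_nat_mul]
    congr 1
    ring
  set C : ℂ := (-(2 * (Real.pi : ℂ) * Complex.I)) ^ K / ((K - 1).factorial : ℂ) with hC
  have hrow : ∀ c : ℕ+, G ((D₁ : ℤ) * ((c : ℕ) : ℤ)) =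
      ((((D₁ : ℂ) * (D₂ : ℂ)) ^ k)⁻¹ * ((D₂ : ℂ) ^ i)⁻¹ * ch D₁ D₂ * C * gD D₁) *
      ∑' n : ℕ+, ((c : ℕ) : ℂ) ^ i * ((n : ℕ) : ℂ) ^ (k + i - 1) * ch D₂ ((c : ℕ) : ℤ) *
        ch D₁ ((n : ℕ) : ℤ) * q ^ ((c : ℕ) * (n : ℕ)) := by
    intro c
    have hDr : (0 : ℝ) < (D₂ : ℝ) := by exact_mod_cast Nat.pos_of_ne_zero hD2
    have hc0 : (0 : ℝ) < ((c : ℕ) : ℝ) := by exact_mod_cast c.pos
    have him : ∀ a : ℕ, 0 < (((c : ℕ) : ℂ) * ((τ : ℂ) / (D₂ : ℂ)) + (a : ℂ) / (D₁ : ℂ)).im := by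
      intro a
      have h1 : (((c : ℕ) : ℂ) * ((τ : ℂ) / (D₂ : ℂ)) + (a : ℂ) / (D₁ : ℂ)).im =
          ((c : ℕ) : ℝ) * (τ.im / D₂) := by
        rw [Complex.add_im, Complex.div_natCast_im, Complex.natCast_im, Complex.mul_im,
          Complex.natCast_re, Complex.natCast_im, zero_mul, add_zero, zero_div, add_zero,
          Complex.div_natCast_im]
        rfl
      rw [h1]
      exact mul_pos hc0 (div_pos τ.im_pos hDr)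
    let τc : ℕ → ℍ := fun a ↦ ⟨((c : ℕ) : ℂ) * ((τ : ℂ) / (D₂ : ℂ)) + (a : ℂ) / (D₁ : ℂ), him a⟩
    have hτc : ∀ a, (τc a : ℂ) = ((c : ℕ) : ℂ) * ((τ : ℂ) / (D₂ : ℂ)) + (a : ℂ) / (D₁ : ℂ) :=
      fun a ↦ rfl
    have hlip : ∀ a, ∑' l : ℤ, (((τc a : ℂ) + (l : ℂ)) ^ K)⁻¹ =
        C * ∑' n : ℕ+, ((n : ℕ) : ℂ) ^ (K - 1) * ee (((n : ℕ) : ℂ) * (τc a : ℂ)) := by
      intro a
      have h1 := lipschitz K (by omega) (τc a)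
      rw [cei_pnat] at h1
      exact h1
    have hFc : Summable fun d : ℤ ↦ F ((D₁ : ℤ) * ((c : ℕ) : ℤ), d) := hF.prod_factor _
    have hinj2 : Function.Injective fun l : ℤ ↦ (D₂ : ℤ) * l := by
      intro l l' h
      exact mul_left_cancel₀ (by exact_mod_cast hD2) h
    have hFc2 : Summable fun l : ℤ ↦ F ((D₁ : ℤ) * ((c : ℕ) : ℤ), (D₂ : ℤ) * l) :=
      hFc.comp_injective hinj2
    have hee : ∀ (a : ℕ) (n : ℕ+), ee (((n : ℕ) : ℂ) * (τc a : ℂ)) = q ^ ((c : ℕ) * (n : ℕ)) *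
          ee ((a : ℂ) * (((n : ℕ) : ℤ) : ℂ) / (D₁ : ℂ)) := by
      intro a n
      rw [← hqp, ← ee_add, hτc]
      congr 1
      push_cast
      ring
    have hA : ∀ a : ℕ, ∑' l : ℤ, F ((D₁ : ℤ) * ((c : ℕ) : ℤ), (D₂ : ℤ) * ((D₁ : ℤ) * l + (a : ℤ))) =
        (((c : ℕ) : ℂ) ^ i * (((D₁ : ℂ) * (D₂ : ℂ)) ^ k)⁻¹ * ((D₂ : ℂ) ^ i)⁻¹ * ch D₁ D₂ *
          ch D₂ ((c : ℕ) : ℤ) * C) * ∑' n : ℕ+, (((n : ℕ) : ℂ) ^ (K - 1) *
          q ^ ((c : ℕ) * (n : ℕ))) *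
            (ch D₁ (a : ℤ) * ee ((a : ℂ) * (((n : ℕ) : ℤ) : ℂ) / (D₁ : ℂ))) := by
      intro a
      have h1 : ∀ l : ℤ, F ((D₁ : ℤ) * ((c : ℕ) : ℤ), (D₂ : ℤ) * ((D₁ : ℤ) * l + (a : ℤ))) =
          (ch D₁ (a : ℤ) * ((c : ℕ) : ℂ) ^ i * (((D₁ : ℂ) * (D₂ : ℂ)) ^ k)⁻¹ *
            ((D₂ : ℂ) ^ i)⁻¹ * ch D₁ D₂ * ch D₂ ((c : ℕ) : ℤ)) *
              (((τc a : ℂ) + (l : ℂ)) ^ K)⁻¹ := by
        intro l
        rw [hrow0, if_pos (dvd_mul_right _ _), cei_mul, cei_per]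
        have h3 : (((D₁ : ℤ) * ((c : ℕ) : ℤ) : ℤ) : ℂ) * (τ : ℂ) +
            (((D₂ : ℤ) * ((D₁ : ℤ) * l + (a : ℤ)) : ℤ) : ℂ) =
            ((D₁ : ℂ) * (D₂ : ℂ)) * ((τc a : ℂ) + (l : ℂ)) := by
          rw [hτc]
          push_cast
          field_simp
          ring
        rw [h3, mul_pow ((D₁ : ℂ) * (D₂ : ℂ)), mul_inv, hK,
          pow_add ((D₁ : ℂ) * (D₂ : ℂ)) k i]
        push_cast
        rw [mul_pow (D₁ : ℂ) ((c : ℕ) : ℂ) i, mul_pow (D₁ : ℂ) (D₂ : ℂ) i]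
        have hx1 : (D₁ : ℂ) ^ i ≠ 0 := pow_ne_zero _ hDc1
        have hx2 : (D₂ : ℂ) ^ i ≠ 0 := pow_ne_zero _ hDc2
        have hx3 : ((D₁ : ℂ) * (D₂ : ℂ)) ^ k ≠ 0 := pow_ne_zero _ (mul_ne_zero hDc1 hDc2)
        generalize ((D₁ : ℂ) * (D₂ : ℂ)) ^ k = X3 at *
        generalize (D₁ : ℂ) ^ i = X1 at *
        generalize (D₂ : ℂ) ^ i = X2 at *
        field_simp
      rw [tsum_congr h1, tsum_mul_left, hlip, ← tsum_mul_left, ← tsum_mul_left, ← tsum_mul_left]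
      refine tsum_congr fun n ↦ ?_
      rw [hee]
      ring
    have hAs : ∀ a : ℕ, Summable fun n : ℕ+ ↦ (((n : ℕ) : ℂ) ^ (K - 1) *
          q ^ ((c : ℕ) * (n : ℕ))) *
            (ch D₁ (a : ℤ) * ee ((a : ℂ) * (((n : ℕ) : ℤ) : ℂ) / (D₁ : ℂ))) := by
      intro a
      have h1 := ((lipschitz_summable (K - 1) (τc a)).comp_injective
        PNat.coe_injective).mul_left (ch D₁ (a : ℤ))
      refine h1.congr fun n ↦ ?_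
      change ch D₁ (a : ℤ) * (((n : ℕ) : ℂ) ^ (K - 1) * ee (((n : ℕ) : ℂ) * (τc a : ℂ))) = _
      rw [hee]
      ring
    have hG1 : G ((D₁ : ℤ) * ((c : ℕ) : ℤ)) =
        ∑' l : ℤ, F ((D₁ : ℤ) * ((c : ℕ) : ℤ), (D₂ : ℤ) * l) := by
      rw [← cei_mult D₂ hD2 (fun d ↦ F ((D₁ : ℤ) * ((c : ℕ) : ℤ), d))]
      rw [hG]
      dsimp only
      refine tsum_congr fun d ↦ ?_
      split_ifs with h7
      · rfl
      · rw [hrow0, if_neg h7, zero_mul, zero_mul]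
    rw [hG1, cei_res D₁ hD1 _ hFc2, Finset.sum_congr rfl fun a _ ↦ hA a, ← Finset.mul_sum,
      ← Summable.tsum_finsetSum fun a _ ↦ hAs a]
    have h6 : ∀ n : ℕ+, ∑ a ∈ Finset.range D₁, (((n : ℕ) : ℂ) ^ (K - 1) *
          q ^ ((c : ℕ) * (n : ℕ))) *
            (ch D₁ (a : ℤ) * ee ((a : ℂ) * (((n : ℕ) : ℤ) : ℂ) / (D₁ : ℂ))) =
        gD D₁ * (((n : ℕ) : ℂ) ^ (K - 1) * ch D₁ ((n : ℕ) : ℤ) * q ^ ((c : ℕ) * (n : ℕ))) := by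
      intro n
      rw [← Finset.mul_sum, gauss_twist_sq D₁ hodd1 hs1]
      ring
    rw [tsum_congr h6, tsum_mul_left]
    have h7 : ∑' n : ℕ+, ((c : ℕ) : ℂ) ^ i * ((n : ℕ) : ℂ) ^ (k + i - 1) * ch D₂ ((c : ℕ) : ℤ) *
        ch D₁ ((n : ℕ) : ℤ) * q ^ ((c : ℕ) * (n : ℕ)) = (((c : ℕ) : ℂ) ^ i *
          ch D₂ ((c : ℕ) : ℤ)) *
        ∑' n : ℕ+, ((n : ℕ) : ℂ) ^ (K - 1) * ch D₁ ((n : ℕ) : ℤ) * q ^ ((c : ℕ) * (n : ℕ)) := by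
      rw [← tsum_mul_left]
      refine tsum_congr fun n ↦ ?_
      rw [hK]
      ring
    rw [h7]
    ring
  have hdiv := cei_div k i (by omega) (fun n ↦ ch D₂ (n : ℤ)) (fun n ↦ ch D₁ (n : ℤ))
    (fun n ↦ cei_ch D₂ n) (fun n ↦ cei_ch D₁ n) hqn
  have hsig : ∑' N : ℕ, (if N = 0 then 0 else
      (N : ℂ) ^ i * sig k D₁ D₂ N * ee ((N : ℂ) * (τ : ℂ) / (D₂ : ℂ))) =
      ∑' N : ℕ+, ((N : ℕ) : ℂ) ^ i * (∑ x ∈ (N : ℕ).divisorsAntidiagonal,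
        ch D₁ (x.1 : ℤ) * ch D₂ (x.2 : ℤ) * (x.1 : ℂ) ^ (k - 1)) * q ^ (N : ℕ) := by
    rw [cei_pnat]
    refine tsum_congr fun N ↦ ?_
    rw [hqp]
    congr 2
    unfold sig
    rw [if_neg N.ne_zero]
    refine Finset.sum_congr rfl fun x _ ↦ ?_
    unfold ch
    push_cast
    ring
  rw [hEI, hsumG, hsumG2, hsumG3, hG0, tsum_congr hrow, tsum_mul_left, hdiv, ← hsig, ← hB, ← hL]
  generalize (∑' N : ℕ, (if N = 0 then 0 else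
      (N : ℂ) ^ i * sig k D₁ D₂ N * ee ((N : ℂ) * (τ : ℂ) / (D₂ : ℂ)))) = SS
  have hf1 : ((k - 1).factorial : ℂ) ≠ 0 := by exact_mod_cast (k - 1).factorial_ne_zero
  have hf2 : ((K - 1).factorial : ℂ) ≠ 0 := by exact_mod_cast (K - 1).factorial_ne_zero
  have hp : (-(2 * (Real.pi : ℂ) * Complex.I)) ^ K = (-(2 * (Real.pi : ℂ) * Complex.I)) ^ k *
      (-(2 * (Real.pi : ℂ) * Complex.I)) ^ i := by
    rw [hK, pow_add]
  rw [hC, hp, Nat.cast_mul]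
  have hx2 : (D₂ : ℂ) ^ i ≠ 0 := pow_ne_zero _ hDc2
  have hx3 : ((D₁ : ℂ) * (D₂ : ℂ)) ^ k ≠ 0 := pow_ne_zero _ (mul_ne_zero hDc1 hDc2)
  generalize ((D₁ : ℂ) * (D₂ : ℂ)) ^ k = X3 at *
  generalize (D₂ : ℂ) ^ i = X2 at *
  generalize ((-(2 * (Real.pi : ℂ) * Complex.I)) ^ k) = Y1 at *
  generalize ((-(2 * (Real.pi : ℂ) * Complex.I)) ^ i) = Y2 at *
  split_ifs
  · field_simp
  · field_simp
    ring

end MP836e4b.P
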