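/-
MODULE PhE (size M), board mod836, MP_836e4b_nt, folder Work/MP_836e4b_nt/P. Keep the statements verbatim, helper lemmas private.
The seed ph D e. Coefficients: u = |2m+r| > 0 occurs twice (± signs, e even), exponent n = D u²; D·odd² = D mod 4
(odd² = 1 mod 8), D·even² = 0 mod 4; u = 0 contributes 0 (e ≥ 2). Bound: ∑_{u≥1} u^l e^{-πDu²y/2} ≤
C y^{-(l+1)/2} for all y > 0 (l ≥ 1; e.g. u^l e^{-πDu²y/4} ≤ C y^{-l/2} and ∑_{u ≥ 1} e^{-πDu²y/4} ≤ C y^{-1/2}).
The terms with l = 0 are also summable (ph_summable).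
-/
import Mathlib
import Pool.Agent.Work.MP_836e4b_nt.P.Defs
import Pool.Agent.Work.MP_836e4b_nt.P.Bas

open UpperHalfPlane Complex
open scoped MatrixGroups ComplexConjugate Matrix

namespace MP836e4b.P

private theorem two_mul_add_inj (r : Fin 2) :
    Function.Injective fun m : ℤ ↦ 2 * m + ((r : ℕ) : ℤ) := by
  intro a b h
  simp only at h
  omega

private theorem norm_term (D l : ℕ) (τ : ℍ) (n : ℤ) :
    ‖((n : ℤ) : ℂ) ^ l * ee ((D : ℂ) * ((n : ℤ) : ℂ) ^ 2 * (τ : ℂ) / 4)‖ =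
      |(n : ℝ)| ^ l * Real.exp (-(Real.pi * (D : ℝ) * τ.im / 2) * (n : ℝ) ^ 2) := by
  rw [norm_mul, norm_pow, norm_ee, Complex.norm_intCast]
  congr 2
  have h : ((D : ℂ) * ((n : ℤ) : ℂ) ^ 2 * (τ : ℂ) / 4) =
      (((D : ℝ) * (n : ℝ) ^ 2 / 4 : ℝ) : ℂ) * (τ : ℂ) := by
    push_cast
    ring
  rw [h, Complex.im_ofReal_mul, UpperHalfPlane.coe_im]
  ring

private theorem summable_abs (l : ℕ) (c : ℝ) (hc : 0 < c) :
    Summable fun n : ℤ ↦ |(n : ℝ)| ^ l * Real.exp (-c * (n : ℝ) ^ 2) := by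
  have h := summable_pow_mul_jacobiTheta₂_term_bound 0 (T := c / Real.pi) (by positivity) l
  refine h.congr fun n ↦ ?_
  congr 2
  · push_cast
    rfl
  · have hpi : Real.pi ≠ 0 := Real.pi_ne_zero
    field_simp
    ring

private theorem summable_int (D l : ℕ) (hD : 0 < D) (τ : ℍ) :
    Summable fun n : ℤ ↦ ((n : ℤ) : ℂ) ^ l * ee ((D : ℂ) * ((n : ℤ) : ℂ) ^ 2 * (τ : ℂ) / 4) := by
  refine Summable.of_norm ?_
  have hD' : (0 : ℝ) < (D : ℝ) := by exact_mod_cast hD
  have hpi := Real.pi_pos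
  have him := τ.im_pos
  have h := summable_abs l (Real.pi * (D : ℝ) * τ.im / 2) (by positivity)
  refine h.congr fun n ↦ ?_
  rw [norm_term]

private theorem cast_eq (r : Fin 2) (m : ℤ) :
    (((2 * m + ((r : ℕ) : ℤ) : ℤ)) : ℂ) = 2 * (m : ℂ) + ((r : ℕ) : ℂ) := by
  push_cast
  rfl

theorem ph_summable (D l : ℕ) (hD : 0 < D) (τ : ℍ) (r : Fin 2) :
    Summable fun m : ℤ ↦ (2 * (m : ℂ) + ((r : ℕ) : ℂ)) ^ l *
      ee ((D : ℂ) * (2 * (m : ℂ) + ((r : ℕ) : ℂ)) ^ 2 * (τ : ℂ) / 4) := by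
  have h := (summable_int D l hD τ).comp_injective (two_mul_add_inj r)
  refine h.congr fun m ↦ ?_
  simp only [Function.comp, cast_eq]

private theorem cph_of (D e u : ℕ) (hD : 0 < D) (hu : 0 < u) :
    cph D e (D * u ^ 2) = 2 * (u : ℂ) ^ e := by
  unfold cph
  rw [Finset.sum_eq_single u]
  · simp [hu]
  · intro m _ hm
    rw [if_neg]
    rintro ⟨h1, h2⟩
    apply hm
    have h3 : m ^ 2 = u ^ 2 := Nat.eq_of_mul_eq_mul_left hD h1
    exact Nat.pow_left_injective (n := 2) (by norm_num) h3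
  · intro h
    exfalso
    apply h
    rw [Finset.mem_range]
    nlinarith [Nat.pos_of_ne_zero hD.ne', sq_nonneg u]

private theorem cph_zero (D e : ℕ) : cph D e 0 = 0 := by
  unfold cph
  simp

private theorem cph_not (D e n : ℕ) (h : ∀ u : ℕ, D * u ^ 2 ≠ n) : cph D e n = 0 := by
  unfold cph
  refine Finset.sum_eq_zero fun m _ ↦ ?_
  rw [if_neg]
  rintro ⟨h1, _⟩
  exact h m h1

private theorem sq_mod (D u : ℕ) : (u % 2 = 0 → D * u ^ 2 % 4 = 0) ∧
    (u % 2 = 1 → D * u ^ 2 % 4 = D % 4) := by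
  constructor
  · intro h
    obtain ⟨v, rfl⟩ : 2 ∣ u := Nat.dvd_of_mod_eq_zero h
    have : D * (2 * v) ^ 2 = 4 * (D * v ^ 2) := by ring
    omega
  · intro h
    obtain ⟨v, hv⟩ : ∃ v, u = 2 * v + 1 := ⟨u / 2, by omega⟩
    subst hv
    have : D * (2 * v + 1) ^ 2 = 4 * (D * (v ^ 2 + v)) + D := by ring
    omega

private theorem cls_zero (κ : ℕ) : cls κ 0 = 0 := by simp [cls]

private theorem cls_one (κ : ℕ) : cls κ 1 = 1 ∨ cls κ 1 = 3 := by
  unfold cls
  by_cases h : Even κ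
  · left; simp [h]
  · right; simp [h]

theorem hasE_ph (D e κ : ℕ) (hD : 0 < D) (he : Even e) (he2 : 2 ≤ e) (hD4 : D % 4 = cls κ 1) :
    HasE κ (cph D e) (ph D e) := by
  refine ⟨cph_zero D e, ?_, ?_⟩
  · intro n h0 h1
    by_cases h : ∃ u : ℕ, D * u ^ 2 = n
    · obtain ⟨u, rfl⟩ := h
      exfalso
      rcases Nat.mod_two_eq_zero_or_one u with h | h
      · exact h0 (by rw [(sq_mod D u).1 h, cls_zero])
      · exact h1 (by rw [(sq_mod D u).2 h, hD4])
    · push Not at h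
      exact cph_not D e n h
  · intro τ r
    have hs := (ph_summable D e hD τ r).hasSum
    have hph : ∑' m : ℤ, (2 * (m : ℂ) + ((r : ℕ) : ℂ)) ^ e *
      ee ((D : ℂ) * (2 * (m : ℂ) + ((r : ℕ) : ℂ)) ^ 2 * (τ : ℂ) / 4) = ph D e τ r := rfl
    rw [hph] at hs
    set G : ℤ → ℂ := fun n ↦ if n % 2 = ((r : ℕ) : ℤ) then
      ((n : ℤ) : ℂ) ^ e * ee ((D : ℂ) * ((n : ℤ) : ℂ) ^ 2 * (τ : ℂ) / 4) else 0 with hG
    have hr : (r : ℕ) = 0 ∨ (r : ℕ) = 1 := by omega
    have hG1 : HasSum G (ph D e τ r) := by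
      rw [← (two_mul_add_inj r).hasSum_iff]
      · have : (G ∘ fun m : ℤ ↦ 2 * m + ((r : ℕ) : ℤ)) = fun m : ℤ ↦
            (2 * (m : ℂ) + ((r : ℕ) : ℂ)) ^ e *
              ee ((D : ℂ) * (2 * (m : ℂ) + ((r : ℕ) : ℂ)) ^ 2 * (τ : ℂ) / 4) := by
          funext m
          simp only [Function.comp, hG]
          rw [if_pos (by omega), cast_eq]
        rw [this]
        exact hs
      · intro x hx
        simp only [hG]
        rw [if_neg]
        intro h
        apply hx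
        exact ⟨x / 2, by simp only; omega⟩
    have hG0 : G 0 = 0 := by
      simp only [hG]
      split_ifs
      · rw [Int.cast_zero, zero_pow (by omega), zero_mul]
      · rfl
    have hG2 := hG1.nat_add_neg
    rw [hG0, add_zero] at hG2
    have hinj : Function.Injective fun u : ℕ ↦ D * u ^ 2 := by
      intro a b h
      exact Nat.pow_left_injective (n := 2) (by norm_num) (Nat.eq_of_mul_eq_mul_left hD h)
    rw [← hinj.hasSum_iff]
    · convert hG2 using 1
      funext u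
      simp only [Function.comp, hG]
      rcases Nat.eq_zero_or_pos u with hu | hu
      · subst hu
        have h0 : D * 0 ^ 2 = 0 := by simp
        have h1 : (0 : ℂ) ^ e = 0 := zero_pow (by omega)
        rw [h0, cph_zero]
        simp [h1]
      · rw [cph_of D e u hD hu]
        have h2 : (-(u : ℤ)) % 2 = ((r : ℕ) : ℤ) ↔ ((u : ℤ)) % 2 = ((r : ℕ) : ℤ) := by omega
        have h3 : D * u ^ 2 % 4 = cls κ r ↔ ((u : ℤ)) % 2 = ((r : ℕ) : ℤ) := by
          have hc := cls_one κ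
          rcases hr with hr | hr
          · have hr' : r = 0 := Fin.ext hr
            subst hr'
            rw [cls_zero]
            constructor
            · intro h
              by_contra hne
              have : u % 2 = 1 := by
                simp only [Fin.val_zero, Nat.cast_zero] at hne
                omega
              have := (sq_mod D u).2 this
              omega
            · intro h
              exact (sq_mod D u).1 (by
                simp only [Fin.val_zero, Nat.cast_zero] at h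
                omega)
          · have hr' : r = 1 := Fin.ext hr
            subst hr'
            constructor
            · intro h
              by_contra hne
              have : u % 2 = 0 := by
                simp only [Fin.val_one, Nat.cast_one] at hne
                omega
              have := (sq_mod D u).1 this
              omega
            · intro h
              rw [← hD4]
              exact (sq_mod D u).2 (by
                simp only [Fin.val_one, Nat.cast_one] at h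
                omega)
        by_cases hur : ((u : ℤ)) % 2 = ((r : ℕ) : ℤ)
        · rw [if_pos (h3.2 hur), if_pos hur, if_pos (h2.2 hur)]
          push_cast
          rw [he.neg_pow, neg_sq]
          have : (D : ℂ) * (u : ℂ) ^ 2 * (τ : ℂ) / 4 = (D : ℂ) * (u : ℂ) ^ 2 * (τ : ℂ) / 4 := rfl
          ring
        · rw [if_neg (fun h ↦ hur (h3.1 h)), if_neg hur, if_neg (fun h ↦ hur (h2.1 h)), add_zero]
    · intro n hn
      have : cph D e n = 0 := cph_not D e n fun u hu ↦ hn ⟨u, hu⟩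
      rw [this, zero_mul, ite_self]

private theorem exp_bound (e : ℕ) (x : ℝ) (hx : 0 ≤ x) :
    x ^ e * Real.exp (-x ^ 2) ≤
      2 * (2 + (e.factorial : ℝ) + ((e + 1).factorial : ℝ)) * ((1 + x) ^ 2)⁻¹ := by
  have ht : 0 ≤ x ^ 2 := sq_nonneg x
  have h1 : ∀ K : ℕ, (x ^ 2) ^ K ≤ (K.factorial : ℝ) * Real.exp (x ^ 2) := by
    intro K
    have := Real.pow_div_factorial_le_exp (x := x ^ 2) ht K
    rw [div_le_iff₀ (by positivity)] at this
    linarith
  have h2 : x ^ e ≤ 1 + (x ^ 2) ^ e := by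
    rcases le_total x 1 with h | h
    · have : x ^ e ≤ 1 := pow_le_one₀ hx h
      have : 0 ≤ (x ^ 2) ^ e := by positivity
      linarith
    · have : x ^ e ≤ (x ^ 2) ^ e := by
        apply pow_le_pow_left₀ hx
        nlinarith
      linarith
  have h3 : (1 + x) ^ 2 ≤ 2 * (1 + x ^ 2) := by nlinarith [sq_nonneg (1 - x)]
  have hE : 1 ≤ Real.exp (x ^ 2) := Real.one_le_exp ht
  have h4 : x ^ e * (1 + x) ^ 2 ≤
      2 * (2 + (e.factorial : ℝ) + ((e + 1).factorial : ℝ)) * Real.exp (x ^ 2) := by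
    have ha : x ^ e * (1 + x) ^ 2 ≤ (1 + (x ^ 2) ^ e) * (2 * (1 + x ^ 2)) :=
      mul_le_mul h2 h3 (by positivity) (by positivity)
    have hb := h1 1
    have hc := h1 e
    have hd := h1 (e + 1)
    rw [pow_succ] at hd
    simp only [pow_one, Nat.factorial_one, Nat.cast_one, one_mul] at hb
    nlinarith
  rw [Real.exp_neg]
  have hpos : 0 < Real.exp (x ^ 2) := Real.exp_pos _
  have hpos2 : 0 < (1 + x) ^ 2 := by positivity
  rw [← div_eq_mul_inv, ← div_eq_mul_inv, div_le_div_iff₀ hpos hpos2]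
  exact h4

private theorem nat_sum (s : ℝ) (hs : 0 < s) (n : ℕ) :
    ∑ i ∈ Finset.range n, ((1 + s * ((i : ℝ) + 1)) ^ 2)⁻¹ ≤ s⁻¹ * (1 - (1 + s * (n : ℝ))⁻¹) := by
  induction n with
  | zero => simp
  | succ n ih =>
    rw [Finset.sum_range_succ]
    have h1 : (0 : ℝ) < 1 + s * (n : ℝ) := by positivity
    have h2 : (0 : ℝ) < 1 + s * ((n : ℝ) + 1) := by positivity
    have h3 : ((1 + s * ((n : ℝ) + 1)) ^ 2)⁻¹ ≤
        s⁻¹ * ((1 + s * (n : ℝ))⁻¹ - (1 + s * ((n : ℝ) + 1))⁻¹) := by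
      have e1 : s⁻¹ * ((1 + s * (n : ℝ))⁻¹ - (1 + s * ((n : ℝ) + 1))⁻¹) =
          ((1 + s * (n : ℝ)) * (1 + s * ((n : ℝ) + 1)))⁻¹ := by
        field_simp
        ring
      rw [e1]
      apply inv_anti₀ (by positivity)
      rw [sq]
      apply mul_le_mul_of_nonneg_right _ h2.le
      nlinarith
    push_cast
    have e2 : s⁻¹ * (1 - (1 + s * ((n : ℝ) + 1))⁻¹) = s⁻¹ * (1 - (1 + s * (n : ℝ))⁻¹) +
        s⁻¹ * ((1 + s * (n : ℝ))⁻¹ - (1 + s * ((n : ℝ) + 1))⁻¹) := by ring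
    rw [e2]
    linarith

private theorem nat_sum' (s : ℝ) (hs : 0 < s) (n : ℕ) :
    ∑ i ∈ Finset.range n, ((1 + s * ((i : ℝ) + 1)) ^ 2)⁻¹ ≤ s⁻¹ := by
  have h1 := nat_sum s hs n
  have h2 : 0 < s⁻¹ := inv_pos.2 hs
  have h3 : 0 < (1 + s * (n : ℝ))⁻¹ := by positivity
  nlinarith

theorem ph_bound (D e : ℕ) (hD : 0 < D) (he : 1 ≤ e) : SeedBd e (ph D e) := by
  set C : ℝ := 2 * (2 + (e.factorial : ℝ) + ((e + 1).factorial : ℝ)) with hC
  have hCpos : 0 < C := by positivity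
  refine ⟨2 * C, by positivity, fun τ r ↦ ?_⟩
  have hy := τ.im_pos
  set y := τ.im with hydef
  set s := Real.sqrt y with hsdef
  have hs : 0 < s := Real.sqrt_pos.2 hy
  have hs2 : s ^ 2 = y := Real.sq_sqrt hy.le
  have hD' : (1 : ℝ) ≤ (D : ℝ) := by exact_mod_cast hD
  set K : ℤ → ℝ := fun n ↦ if n = 0 then 0 else C * (s ^ e)⁻¹ * ((1 + s * |(n : ℝ)|) ^ 2)⁻¹ with hK
  have hK0 : ∀ n, 0 ≤ K n := by
    intro n
    simp only [hK]
    split_ifs
    · exact le_refl _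
    · positivity
  have hterm : ∀ n : ℤ, ‖((n : ℤ) : ℂ) ^ e * ee ((D : ℂ) * ((n : ℤ) : ℂ) ^ 2 * (τ : ℂ) / 4)‖ ≤
      K n := by
    intro n
    rw [norm_term]
    simp only [hK]
    split_ifs with hn
    · subst hn
      have : |((0 : ℤ) : ℝ)| ^ e = 0 := by
        rw [Int.cast_zero, abs_zero, zero_pow (by omega)]
      rw [this, zero_mul]
    · have hb := exp_bound e (s * |(n : ℝ)|) (by positivity)
      have e1 : (s * |(n : ℝ)|) ^ 2 = y * (n : ℝ) ^ 2 := by
        rw [mul_pow, hs2, sq_abs]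
      have e2 : Real.exp (-(Real.pi * (D : ℝ) * y / 2) * (n : ℝ) ^ 2) ≤
          Real.exp (-(s * |(n : ℝ)|) ^ 2) := by
        apply Real.exp_le_exp.2
        rw [e1]
        have hpi : (3 : ℝ) < Real.pi := Real.pi_gt_three
        have h5 : y ≤ Real.pi * (D : ℝ) * y / 2 := by
          nlinarith [mul_pos (lt_trans (by norm_num) hpi) hy]
        have h6 : 0 ≤ (n : ℝ) ^ 2 := sq_nonneg _
        nlinarith
      have e3 : |(n : ℝ)| ^ e = (s ^ e)⁻¹ * (s * |(n : ℝ)|) ^ e := by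
        rw [mul_pow]
        have : s ^ e ≠ 0 := by positivity
        field_simp
      rw [e3]
      calc (s ^ e)⁻¹ * (s * |(n : ℝ)|) ^ e * Real.exp (-(Real.pi * (D : ℝ) * y / 2) * (n : ℝ) ^ 2)
          ≤ (s ^ e)⁻¹ * (s * |(n : ℝ)|) ^ e * Real.exp (-(s * |(n : ℝ)|) ^ 2) :=
            mul_le_mul_of_nonneg_left e2 (by positivity)
        _ = (s ^ e)⁻¹ * ((s * |(n : ℝ)|) ^ e * Real.exp (-(s * |(n : ℝ)|) ^ 2)) := by ring
        _ ≤ (s ^ e)⁻¹ * (C * ((1 + s * |(n : ℝ)|) ^ 2)⁻¹) :=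
            mul_le_mul_of_nonneg_left hb (by positivity)
        _ = _ := by ring
  have hf1 : ∀ n : ℕ, K ((n : ℤ) + 1) = C * (s ^ e)⁻¹ * ((1 + s * ((n : ℝ) + 1)) ^ 2)⁻¹ := by
    intro n
    simp only [hK]
    rw [if_neg (by omega)]
    push_cast
    rw [abs_of_nonneg (by positivity)]
  have hf2 : ∀ n : ℕ, K (-((n : ℤ) + 1)) = C * (s ^ e)⁻¹ * ((1 + s * ((n : ℝ) + 1)) ^ 2)⁻¹ := by
    intro n
    simp only [hK]
    rw [if_neg (by omega)]
    push_cast
    rw [abs_neg, abs_of_nonneg (by positivity)]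
  have hB : ∀ n : ℕ, ∑ i ∈ Finset.range n, C * (s ^ e)⁻¹ * ((1 + s * ((i : ℝ) + 1)) ^ 2)⁻¹ ≤
      C * (s ^ e)⁻¹ * s⁻¹ := by
    intro n
    rw [← Finset.mul_sum]
    exact mul_le_mul_of_nonneg_left (nat_sum' s hs n) (by positivity)
  have hnn : ∀ n : ℕ, 0 ≤ C * (s ^ e)⁻¹ * ((1 + s * ((n : ℝ) + 1)) ^ 2)⁻¹ := by
    intro n
    positivity
  have hsum := summable_of_sum_range_le hnn hB
  have hle := Real.tsum_le_of_sum_range_le hnn hB
  have hKs : Summable K := by
    apply Summable.of_add_one_of_neg_add_one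
    · exact hsum.congr fun n ↦ (hf1 n).symm
    · exact hsum.congr fun n ↦ (hf2 n).symm
  have hKt : ∑' n, K n ≤ 2 * (C * (s ^ e)⁻¹ * s⁻¹) := by
    rw [tsum_of_add_one_of_neg_add_one (hsum.congr fun n ↦ (hf1 n).symm)
      (hsum.congr fun n ↦ (hf2 n).symm)]
    have h0 : K 0 = 0 := by simp [hK]
    simp only [hf1, hf2, h0]
    linarith
  have hfin : ‖ph D e τ r‖ ≤ ∑' m : ℤ, (K ∘ fun m : ℤ ↦ 2 * m + ((r : ℕ) : ℤ)) m := by
    unfold ph
    apply tsum_of_norm_bounded (hKs.comp_injective (two_mul_add_inj r)).hasSum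
    intro m
    have := hterm (2 * m + ((r : ℕ) : ℤ))
    rw [cast_eq] at this
    exact this
  have hle2 := tsum_comp_le_tsum_of_inj hKs hK0 (two_mul_add_inj r)
  have hend : C * (s ^ e)⁻¹ * s⁻¹ = C * y ^ (-(((e : ℝ) + 1) / 2)) := by
    rw [mul_assoc, ← mul_inv, ← pow_succ, Real.rpow_neg hy.le, hsdef, Real.sqrt_eq_rpow,
      ← Real.rpow_natCast, ← Real.rpow_mul hy.le]
    congr 3
    push_cast
    ring
  calc ‖ph D e τ r‖ ≤ ∑' m : ℤ, (K ∘ fun m : ℤ ↦ 2 * m + ((r : ℕ) : ℤ)) m := hfin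
    _ ≤ ∑' n, K n := hle2
    _ ≤ 2 * (C * (s ^ e)⁻¹ * s⁻¹) := hKt
    _ = 2 * C * y ^ (-(((e : ℝ) + 1) / 2)) := by rw [hend]; ring

end MP836e4b.P
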