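/-
MODULE CPar (size L), board mod836, MP_836e4b_nt, folder Work/MP_836e4b_nt/P. Keep the statements verbatim, helper lemmas private.
The q-expansion of the part of (D1,D2). cf e i (-2πi)^i = e!/(i!(e-2i)!) (-1)^i. Insert EGen_eq at τ+β; D2^{-(e-i)} D1^{-i} D2^{-i}
= D2^{-e} D1^{-i}. The term 1 (D2 = 1, i = 0) is (2/L) sig k D 1 0 = 1 (sig k D 1 0 = L(1-k,χ)/2, Lval_one_zero), i.e. the
N = 0 term; for D2 > 1 sig k D1 D2 0 = 0 (Lval_zero in Char.lean), so the N = 0 term may be added always. The part is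
(dl D2/√D2)(gD D1 ch D1 D2/gD D)(2/L) D2^{-e} ∑_{N≥0} ∑_{m=r(2)} sig k D1 D2 N * Wp k e (N/D1) m * e((4N+D1m²)τ/(4D2)) *
∑_{β<D2} tw2 D2 r (D1β) e((4N+D1m²)β/(4D2)). With μ = 4N+D1m² and ε2 = -1 (D2 = 1 mod 4), +1 (3 mod 4): the β-sum is
∑ e(β(μ+ε2 r D)/(4D2)), μ + ε2 r D = r D1(1+ε2D2) = 0 mod 4, so it is D2 if D2 ∣ μ, else 0. μ = D2 n; n % 4 = cls κ r
(D2 n = D1 r mod 4, D = D1D2 = cls κ 1). Constant: √D2 dl(D2) gD(D1) ch D1 D2/gD(D) = ch D2 (-D1): gD_mul,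
dl(D2) √D2/gD(D2) = ch D2 (-1).
-/
import Mathlib
import Pool.Agent.Work.MP_836e4b_nt.P.Defs
import Pool.Agent.Work.MP_836e4b_nt.P.CEis
import Pool.Agent.Work.MP_836e4b_nt.P.PhE
import Pool.Agent.Work.MP_836e4b_nt.P.CDf
import Pool.Agent.Work.MP_836e4b_nt.P.CGa
import Pool.Agent.Work.MP_836e4b_nt.P.CCo
import Pool.Agent.Work.MP_836e4b_nt.Arith
import Pool.Agent.Work.MP_836e4b_nt.Char

open UpperHalfPlane Complex
open scoped MatrixGroups ComplexConjugate Matrix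

namespace MP836e4b.P

private theorem cpar_coeT (τ : ℍ) (β : ℤ) : ((mob (mT β) τ : ℍ) : ℂ) = (τ : ℂ) + (β : ℂ) := by
  have hd : (mT β).det = 1 := by
    rw [mT, Matrix.det_fin_two]
    simp
  rw [coe_mob _ (by rw [hd]; exact one_pos)]
  have hj : jf (mT β) τ = 1 := by
    unfold jf mT
    simp
  rw [hj, div_one]
  simp [mT]

private theorem cpar_coeD (τ : ℍ) (β : ℤ) (D₁ D₂ : ℕ) (hD₁ : 0 < D₁) (hD₂ : 0 < D₂) :
    ((mob !![(D₁ : ℤ), (D₁ : ℤ) * β; 0, (D₂ : ℤ)] τ : ℍ) : ℂ) =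
      (D₁ : ℂ) * ((τ : ℂ) + (β : ℂ)) / (D₂ : ℂ) := by
  have hd : (!![(D₁ : ℤ), (D₁ : ℤ) * β; 0, (D₂ : ℤ)] : Mat).det = D₁ * D₂ := by
    rw [Matrix.det_fin_two]
    simp
  rw [coe_mob _ (by rw [hd]; exact_mod_cast Nat.mul_pos hD₁ hD₂)]
  have hj : jf !![(D₁ : ℤ), (D₁ : ℤ) * β; 0, (D₂ : ℤ)] τ = (D₂ : ℂ) := by
    unfold jf
    simp
  rw [hj]
  simp [mul_add]

private theorem cpar_geom (D : ℕ) (hD : 0 < D) (ν : ℤ) :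
    ∑ β ∈ Finset.range D, ee ((ν : ℂ) * (β : ℂ) / (D : ℂ)) =
      if (D : ℤ) ∣ ν then (D : ℂ) else 0 := by
  have hD0 : (D : ℂ) ≠ 0 := by exact_mod_cast hD.ne'
  split_ifs with h
  · obtain ⟨c, rfl⟩ := h
    have h1 : ∀ β ∈ Finset.range D, ee ((((D : ℤ) * c : ℤ) : ℂ) * (β : ℂ) / (D : ℂ)) = 1 := by
      intro β _
      have h2 : (((D : ℤ) * c : ℤ) : ℂ) * (β : ℂ) / (D : ℂ) = ((c * (β : ℤ) : ℤ) : ℂ) := by
        push_cast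
        field_simp
      rw [h2, ee_intCast]
    rw [Finset.sum_congr rfl h1, Finset.sum_const, Finset.card_range, nsmul_eq_mul, mul_one]
  · have hz : ∀ β : ℕ, ee ((ν : ℂ) * (β : ℂ) / (D : ℂ)) = ee ((ν : ℂ) / (D : ℂ)) ^ β := by
      intro β
      unfold ee
      rw [← Complex.exp_nat_mul]
      congr 1
      ring
    rw [Finset.sum_congr rfl (fun β _ => hz β)]
    have hne : ee ((ν : ℂ) / (D : ℂ)) ≠ 1 := by
      intro h1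
      unfold ee at h1
      rw [Complex.exp_eq_one_iff] at h1
      obtain ⟨n, hn⟩ := h1
      apply h
      refine ⟨n, ?_⟩
      have h2 : (2 * (Real.pi : ℂ) * Complex.I) ≠ 0 := Complex.two_pi_I_ne_zero
      have h3 : (ν : ℂ) / (D : ℂ) = n := by
        apply mul_left_cancel₀ h2
        rw [hn]
        ring
      have h4 : (ν : ℂ) = (D : ℂ) * n := by
        rw [← h3]
        field_simp
      exact_mod_cast h4
    have hD1 : ee ((ν : ℂ) / (D : ℂ)) ^ D = 1 := by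
      rw [← hz D]
      have h2 : (ν : ℂ) * (D : ℂ) / (D : ℂ) = (ν : ℂ) := by field_simp
      rw [h2, ee_intCast]
    rw [geom_sum_eq hne, hD1, sub_self, zero_div]

private theorem cpar_odd (D : ℕ) (h : Odd D) : (∃ q : ℕ, D = 4 * q + 1) ∨ ∃ q : ℕ, D = 4 * q + 3 := by
  obtain ⟨w, hw⟩ := h
  rcases Nat.even_or_odd' w with ⟨v, hv | hv⟩
  · exact Or.inl ⟨v, by omega⟩
  · exact Or.inr ⟨v, by omega⟩

private theorem cpar_nu (D₁ D₂ : ℕ) (hD₂ : Odd D₂) (r : Fin 2) (N : ℕ) (m : ℤ) :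
    ∃ ν : ℤ, 4 * (N : ℤ) + (D₁ : ℤ) * (2 * m + ((r : ℕ) : ℤ)) ^ 2 +
      (if D₂ % 4 = 1 then (-1 : ℤ) else 1) * ((r : ℕ) : ℤ) * ((D₁ : ℤ) * (D₂ : ℤ)) = 4 * ν := by
  rcases cpar_odd D₂ hD₂ with ⟨q, rfl⟩ | ⟨q, rfl⟩
  · rw [if_pos (by omega)]
    fin_cases r
    · refine ⟨N + D₁ * m ^ 2, ?_⟩
      push_cast
      ring
    · refine ⟨N + D₁ * (m ^ 2 + m) - D₁ * q, ?_⟩
      push_cast
      ring
  · rw [if_neg (by omega)]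
    fin_cases r
    · refine ⟨N + D₁ * m ^ 2, ?_⟩
      push_cast
      ring
    · refine ⟨N + D₁ * (m ^ 2 + m) + D₁ * (q + 1), ?_⟩
      push_cast
      ring

private theorem cpar_tw (D₁ D₂ : ℕ) (hD₂ : Odd D₂)
    (r : Fin 2) (N : ℕ) (m : ℤ) :
    ∑ β ∈ Finset.range D₂, tw2 D₂ r ((D₁ : ℤ) * (β : ℤ)) *
      ee (((4 * (N : ℤ) + (D₁ : ℤ) * (2 * m + ((r : ℕ) : ℤ)) ^ 2 : ℤ) : ℂ) * (β : ℂ) /
        (4 * (D₂ : ℂ))) =
      if (D₂ : ℤ) ∣ 4 * (N : ℤ) + (D₁ : ℤ) * (2 * m + ((r : ℕ) : ℤ)) ^ 2 then (D₂ : ℂ) else 0 := by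
  have hpos : 0 < D₂ := hD₂.pos
  have hD0 : (D₂ : ℂ) ≠ 0 := by exact_mod_cast hpos.ne'
  obtain ⟨ν, hν⟩ := cpar_nu D₁ D₂ hD₂ r N m
  set μ : ℤ := 4 * (N : ℤ) + (D₁ : ℤ) * (2 * m + ((r : ℕ) : ℤ)) ^ 2 with hμ
  have h1 : ∀ β ∈ Finset.range D₂, tw2 D₂ r ((D₁ : ℤ) * (β : ℤ)) *
      ee ((μ : ℂ) * (β : ℂ) / (4 * (D₂ : ℂ))) = ee ((ν : ℂ) * (β : ℂ) / (D₂ : ℂ)) := by
    intro β _
    unfold tw2
    rw [← ee_add]
    congr 1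
    have h2 : (μ : ℂ) + (if D₂ % 4 = 1 then (-1 : ℂ) else 1) * ((r : ℕ) : ℂ) *
        ((D₁ : ℂ) * (D₂ : ℂ)) = 4 * (ν : ℂ) := by
      have h3 := congrArg (fun z : ℤ => (z : ℂ)) hν
      push_cast at h3
      rw [← h3]
    have h4 : (ν : ℂ) = ((μ : ℂ) + (if D₂ % 4 = 1 then (-1 : ℂ) else 1) * ((r : ℕ) : ℂ) *
        ((D₁ : ℂ) * (D₂ : ℂ))) / 4 := by
      rw [h2]
      ring
    rw [h4]
    push_cast
    field_simp
    ring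
  rw [Finset.sum_congr rfl h1, cpar_geom D₂ hpos ν]
  have hcop : IsCoprime (D₂ : ℤ) 4 := by
    have h5 : Nat.Coprime D₂ 4 := by
      have h6 : Nat.Coprime D₂ 2 := Nat.Coprime.symm (Nat.coprime_two_left.mpr hD₂)
      exact Nat.Coprime.pow_right 2 h6
    exact_mod_cast Nat.isCoprime_iff_coprime.2 h5
  have h7 : (D₂ : ℤ) ∣ ν ↔ (D₂ : ℤ) ∣ μ := by
    have h8 : (D₂ : ℤ) ∣ ν ↔ (D₂ : ℤ) ∣ 4 * ν :=
      ⟨fun h => Dvd.dvd.mul_left h 4, fun h => hcop.dvd_of_dvd_mul_left h⟩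
    rw [h8, ← hν]
    refine dvd_add_left ?_
    refine Dvd.dvd.mul_left ?_ _
    exact Dvd.intro_left _ rfl
  simp only [h7]

private theorem cpar_z (D : ℕ) (h : Odd D) : (D : ZMod 4) = 1 ∨ (D : ZMod 4) = 3 := by
  have h4 : (4 : ZMod 4) = 0 := by decide
  rcases cpar_odd D h with ⟨q, rfl⟩ | ⟨q, rfl⟩
  · left
    push_cast
    rw [h4, zero_mul, zero_add]
  · right
    push_cast
    rw [h4, zero_mul, zero_add]

private theorem cpar_cls (D₁ D₂ κ : ℕ) (hD4 : (D₁ * D₂) % 4 = cls κ 1) (r : Fin 2) :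
    ((cls κ r : ℕ) : ZMod 4) = ((r : ℕ) : ZMod 4) * ((D₁ : ZMod 4) * (D₂ : ZMod 4)) := by
  fin_cases r
  · show ((cls κ 0 : ℕ) : ZMod 4) = ((0 : ℕ) : ZMod 4) * ((D₁ : ZMod 4) * (D₂ : ZMod 4))
    unfold cls
    rw [if_pos rfl]
    simp
  · show ((cls κ 1 : ℕ) : ZMod 4) = ((1 : ℕ) : ZMod 4) * ((D₁ : ZMod 4) * (D₂ : ZMod 4))
    rw [← hD4, ZMod.natCast_mod, Nat.cast_one, one_mul, Nat.cast_mul]

private theorem cpar_modcls (κ : ℕ) (r : Fin 2) (n : ℕ) :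
    n % 4 = cls κ r ↔ (n : ZMod 4) = ((cls κ r : ℕ) : ZMod 4) := by
  have hlt : cls κ r < 4 := by
    unfold cls
    split_ifs <;> omega
  rw [ZMod.natCast_eq_natCast_iff', Nat.mod_eq_of_lt hlt]

private theorem cpar_fib1 (D₁ D₂ κ : ℕ) (hD₂ : Odd D₂) (hD4 : (D₁ * D₂) % 4 = cls κ 1)
    (r : Fin 2) (N : ℕ) (m : ℤ) (n : ℕ)
    (h : 4 * (N : ℤ) + (D₁ : ℤ) * (2 * m + ((r : ℕ) : ℤ)) ^ 2 = (D₂ : ℤ) * n) :
    n % 4 = cls κ r := by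
  rw [cpar_modcls, cpar_cls D₁ D₂ κ hD4 r]
  have h1 := congrArg (fun z : ℤ => (z : ZMod 4)) h
  push_cast at h1
  have h2 := cpar_z D₂ hD₂
  generalize (D₂ : ZMod 4) = d2 at *
  generalize (D₁ : ZMod 4) = d1 at *
  generalize (n : ZMod 4) = n' at *
  generalize (m : ZMod 4) = m' at *
  generalize (N : ZMod 4) = N' at *
  fin_cases r
  · have h3 : 4 * N' + d1 * (2 * m' + ((0 : ℕ) : ZMod 4)) ^ 2 = d2 * n' := h1
    show n' = ((0 : ℕ) : ZMod 4) * (d1 * d2)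
    revert h3 h2
    clear h1
    revert d2 d1 n' m' N'
    decide
  · have h3 : 4 * N' + d1 * (2 * m' + ((1 : ℕ) : ZMod 4)) ^ 2 = d2 * n' := h1
    show n' = ((1 : ℕ) : ZMod 4) * (d1 * d2)
    revert h3 h2
    clear h1
    revert d2 d1 n' m' N'
    decide

private theorem cpar_even (v : ℤ) : ((v : ZMod 4) = 0 ∨ (v : ZMod 4) = 2) → v % 2 = 0 := by
  rintro (h | h)
  · have h1 := (ZMod.intCast_zmod_eq_zero_iff_dvd v 4).mp h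
    omega
  · have h0 : ((v - 2 : ℤ) : ZMod 4) = 0 := by
      push_cast
      rw [h]
      decide
    have h1 := (ZMod.intCast_zmod_eq_zero_iff_dvd (v - 2) 4).mp h0
    omega

private theorem cpar_odd' (v : ℤ) : ((v : ZMod 4) = 1 ∨ (v : ZMod 4) = 3) → v % 2 = 1 := by
  rintro (h | h)
  · have h0 : ((v - 1 : ℤ) : ZMod 4) = 0 := by
      push_cast
      rw [h]
      decide
    have h1 := (ZMod.intCast_zmod_eq_zero_iff_dvd (v - 1) 4).mp h0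
    omega
  · have h0 : ((v - 3 : ℤ) : ZMod 4) = 0 := by
      push_cast
      rw [h]
      decide
    have h1 := (ZMod.intCast_zmod_eq_zero_iff_dvd (v - 3) 4).mp h0
    omega

private theorem cpar_fib2 (D₁ D₂ κ : ℕ) (hD₁ : Odd D₁) (hD₂ : Odd D₂)
    (hD4 : (D₁ * D₂) % 4 = cls κ 1) (r : Fin 2) (v : ℤ) (n : ℕ)
    (hn : n % 4 = cls κ r) (h : (4 : ℤ) ∣ (D₂ : ℤ) * n - (D₁ : ℤ) * v ^ 2) :
    2 * ((v - ((r : ℕ) : ℤ)) / 2) + ((r : ℕ) : ℤ) = v := by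
  rw [cpar_modcls, cpar_cls D₁ D₂ κ hD4 r] at hn
  have h1 := (ZMod.intCast_zmod_eq_zero_iff_dvd ((D₂ : ℤ) * n - (D₁ : ℤ) * v ^ 2) 4).mpr
    (by exact_mod_cast h)
  push_cast at h1
  have h2 := cpar_z D₂ hD₂
  have h3 := cpar_z D₁ hD₁
  fin_cases r
  · have h4 : v % 2 = 0 := by
      apply cpar_even
      have h5 : (n : ZMod 4) = ((0 : ℕ) : ZMod 4) * ((D₁ : ZMod 4) * (D₂ : ZMod 4)) := hn
      generalize (D₂ : ZMod 4) = d2 at *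
      generalize (D₁ : ZMod 4) = d1 at *
      generalize (n : ZMod 4) = n' at *
      generalize (v : ZMod 4) = v' at *
      clear hn
      revert h1 h2 h3 h5
      revert d2 d1 n' v'
      decide
    show 2 * ((v - 0) / 2) + 0 = v
    omega
  · have h4 : v % 2 = 1 := by
      apply cpar_odd'
      have h5 : (n : ZMod 4) = ((1 : ℕ) : ZMod 4) * ((D₁ : ZMod 4) * (D₂ : ZMod 4)) := hn
      generalize (D₂ : ZMod 4) = d2 at *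
      generalize (D₁ : ZMod 4) = d1 at *
      generalize (n : ZMod 4) = n' at *
      generalize (v : ZMod 4) = v' at *
      clear hn
      revert h1 h2 h3 h5
      revert d2 d1 n' v'
      decide
    show 2 * ((v - 1) / 2) + 1 = v
    omega

private theorem cpar_sumN (D₁ D₂ k i : ℕ) (hD : 0 < D₂) (hk : 3 ≤ k) (τ : ℍ) :
    Summable fun N : ℕ ↦ ‖(N : ℂ) ^ i * sig k D₁ D₂ N * ee ((N : ℂ) * (τ : ℂ) / (D₂ : ℂ))‖ := by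
  set ρ : ℝ := Real.exp (-(2 * Real.pi * τ.im / D₂)) with hρ
  have hD' : (0 : ℝ) < D₂ := by exact_mod_cast hD
  have hpos : 0 < 2 * Real.pi * τ.im / D₂ := by
    have := Real.pi_pos
    have := τ.im_pos
    positivity
  have hρ0 : 0 < ρ := Real.exp_pos _
  have hρ1 : ρ < 1 := by
    rw [hρ]
    exact Real.exp_lt_one_iff.2 (by linarith)
  have hnorm : ‖ρ‖ < 1 := by
    rw [Real.norm_eq_abs, abs_of_pos hρ0]
    exact hρ1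
  have hS := (summable_pow_mul_geometric_of_norm_lt_one (i + (k - 1)) hnorm).mul_left (5 / 3 : ℝ)
  rw [← summable_nat_add_iff 1] at hS ⊢
  refine Summable.of_nonneg_of_le (fun N => norm_nonneg _) (fun N => ?_) hS
  have hN : 0 < N + 1 := Nat.succ_pos N
  generalize N + 1 = N' at *
  have hE : ‖ee ((N' : ℂ) * (τ : ℂ) / (D₂ : ℂ))‖ = ρ ^ N' := by
    rw [norm_ee, hρ, ← Real.exp_nat_mul]
    congr 1
    have h1 : (N' : ℂ) * (τ : ℂ) / (D₂ : ℂ) = (((N' : ℝ) / (D₂ : ℝ) : ℝ) : ℂ) * (τ : ℂ) := by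
      push_cast
      ring
    rw [h1, Complex.im_ofReal_mul, UpperHalfPlane.coe_im]
    field_simp
  rw [norm_mul, norm_mul, norm_pow, Complex.norm_natCast, hE]
  have hs := sig_bound k D₁ D₂ N' hk hN.ne'
  calc (N' : ℝ) ^ i * ‖sig k D₁ D₂ N'‖ * ρ ^ N' ≤
        (N' : ℝ) ^ i * (5 / 3 * (N' : ℝ) ^ (k - 1)) * ρ ^ N' := by gcongr
    _ = 5 / 3 * ((N' : ℝ) ^ (i + (k - 1)) * ρ ^ N') := by
        rw [pow_add]
        ring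

private theorem cpar_coef (D₁ D₂ k e i : ℕ) (hD₁ : 0 < D₁) (hD₂ : 0 < D₂)
    (hi : i ∈ Finset.range (e / 2 + 1)) (N u : ℂ) :
    cf e i * ((D₁ : ℂ) ^ i)⁻¹ * ((D₂ : ℂ) ^ (e - i))⁻¹ * (((D₂ : ℂ) ^ i)⁻¹ *
      ((-(2 * (Real.pi : ℂ) * Complex.I)) ^ i *
        (((k - 1).factorial : ℂ) / ((k + i - 1).factorial : ℂ)))) * (N ^ i * u ^ (e - 2 * i)) =
    ((D₂ : ℂ) ^ e)⁻¹ * (((e.factorial : ℂ) / ((i.factorial : ℂ) * ((e - 2 * i).factorial : ℂ))) *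
      (((k - 1).factorial : ℂ) / ((k + i - 1).factorial : ℂ)) * (-(N / (D₁ : ℂ))) ^ i *
        u ^ (e - 2 * i)) := by
  rw [Finset.mem_range] at hi
  have hD0 : (D₂ : ℂ) ≠ 0 := by exact_mod_cast hD₂.ne'
  have hpi : (2 * (Real.pi : ℂ) * Complex.I) ^ i ≠ 0 := pow_ne_zero _ Complex.two_pi_I_ne_zero
  have he : (D₂ : ℂ) ^ e = (D₂ : ℂ) ^ (e - i) * (D₂ : ℂ) ^ i := by
    rw [← pow_add]
    congr 1
    omega
  have h1 : (-(2 * (Real.pi : ℂ) * Complex.I)) ^ i =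
      (-1) ^ i * (2 * (Real.pi : ℂ) * Complex.I) ^ i := by
    rw [← mul_pow]
    congr 1
    ring
  have h2 : (-(N / (D₁ : ℂ))) ^ i = (-1) ^ i * N ^ i * ((D₁ : ℂ) ^ i)⁻¹ := by
    rw [← inv_pow, ← mul_pow, ← mul_pow]
    congr 1
    ring
  have h3 : ((2 * (Real.pi : ℂ) * Complex.I) ^ i)⁻¹ * (2 * (Real.pi : ℂ) * Complex.I) ^ i = 1 :=
    inv_mul_cancel₀ hpi
  rw [he, h1, h2, mul_inv]
  unfold cf
  calc _ = ((2 * (Real.pi : ℂ) * Complex.I) ^ i)⁻¹ * (2 * (Real.pi : ℂ) * Complex.I) ^ i *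
      (((D₂ : ℂ) ^ (e - i))⁻¹ * ((D₂ : ℂ) ^ i)⁻¹ *
        (((e.factorial : ℂ) / ((i.factorial : ℂ) * ((e - 2 * i).factorial : ℂ))) *
      (((k - 1).factorial : ℂ) / ((k + i - 1).factorial : ℂ)) *
        ((-1) ^ i * N ^ i * ((D₁ : ℂ) ^ i)⁻¹) * u ^ (e - 2 * i))) := by ring
    _ = _ := by
      rw [h3, one_mul]

private theorem cpar_ch_sq (a : ℕ) (b : ℤ) (h : Int.gcd b a = 1) : ch a b * ch a b = 1 := by
  unfold ch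
  rw [← Int.cast_mul, ← sq, jacobiSym.sq_one h, Int.cast_one]

private theorem cpar_gD_ne (D : ℕ) (hD : 0 < D) : gD D ≠ 0 := by
  have hs0 : ((Real.sqrt D : ℝ) : ℂ) ≠ 0 := by
    have : 0 < Real.sqrt D := Real.sqrt_pos.mpr (by exact_mod_cast hD)
    exact_mod_cast this.ne'
  unfold gD
  split_ifs
  · exact hs0
  · exact mul_ne_zero Complex.I_ne_zero hs0

private theorem cpar_dl (D : ℕ) (hodd : Odd D) :
    (gD D)⁻¹ * (dl D / ((Real.sqrt D : ℝ) : ℂ)) * (D : ℂ) = ch D (-1) := by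
  have hs : ((Real.sqrt D : ℝ) : ℂ) * ((Real.sqrt D : ℝ) : ℂ) = (D : ℂ) := by
    rw [← Complex.ofReal_mul, Real.mul_self_sqrt (Nat.cast_nonneg D)]
    simp
  have hs0 : ((Real.sqrt D : ℝ) : ℂ) ≠ 0 := by
    intro h
    rw [h, mul_zero] at hs
    exact hodd.pos.ne' (by exact_mod_cast hs.symm)
  unfold ch
  rw [jacobiSym.at_neg_one hodd, ← hs]
  rcases Nat.odd_mod_four_iff.1 (Nat.odd_iff.1 hodd) with h | h
  · rw [ZMod.χ₄_nat_one_mod_four h]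
    unfold gD dl
    rw [if_pos h, if_pos h]
    field_simp
    simp
  · rw [ZMod.χ₄_nat_three_mod_four h]
    unfold gD dl
    rw [if_neg (by omega), if_neg (by omega)]
    field_simp
    simp

private theorem cpar_const (D₁ D₂ : ℕ) (h1 : Odd D₁) (h2 : Odd D₂) (hc : Nat.Coprime D₁ D₂) :
    gD D₁ * ch D₁ D₂ / gD (D₁ * D₂) * (dl D₂ / ((Real.sqrt D₂ : ℝ) : ℂ)) * (D₂ : ℂ) =
      ch D₂ (-(D₁ : ℤ)) := by
  have e1 := cpar_dl D₂ h2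
  have e2 := cpar_ch_sq D₁ (D₂ : ℤ) (by
    rw [Int.gcd_natCast_natCast]
    exact hc.symm)
  have e3 := cpar_ch_sq D₂ (D₁ : ℤ) (by
    rw [Int.gcd_natCast_natCast]
    exact hc)
  have e4 : ch D₂ (-(D₁ : ℤ)) = ch D₂ (-1) * ch D₂ D₁ := by
    unfold ch
    rw [← Int.cast_mul, ← jacobiSym.mul_left]
    congr 2
    ring
  have g1 := cpar_gD_ne D₁ h1.pos
  have g2 := cpar_gD_ne D₂ h2.pos
  have c1 : ch D₁ D₂ ≠ 0 := by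
    intro h
    rw [h, mul_zero] at e2
    exact zero_ne_one e2
  have c2 : ch D₂ D₁ ≠ 0 := by
    intro h
    rw [h, mul_zero] at e3
    exact zero_ne_one e3
  rw [gD_mul D₁ D₂ h1 h2 hc, e4, ← e1]
  have e5 : gD D₁ * ch D₁ D₂ / (ch D₁ D₂ * ch D₂ D₁ * gD D₁ * gD D₂) = (gD D₂)⁻¹ * (ch D₂ D₁)⁻¹ := by
    field_simp
  have e6 : (ch D₂ D₁)⁻¹ = ch D₂ D₁ := inv_eq_of_mul_eq_one_left e3
  rw [e5, e6]
  ring

private noncomputable def cpar_g (D₁ D₂ : ℕ) (r : Fin 2) (p : ℕ × ℤ) : ℕ :=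
  ((4 * (p.1 : ℤ) + (D₁ : ℤ) * (2 * p.2 + ((r : ℕ) : ℤ)) ^ 2) / (D₂ : ℤ)).toNat

/-- the terms of the double series -/
private noncomputable def cpar_F (D₁ D₂ k e : ℕ) (τ : ℍ) (r : Fin 2) (p : ℕ × ℤ) : ℂ :=
  if (D₂ : ℤ) ∣ 4 * (p.1 : ℤ) + (D₁ : ℤ) * (2 * p.2 + ((r : ℕ) : ℤ)) ^ 2 then
    sig k D₁ D₂ p.1 * Wp k e ((p.1 : ℂ) / (D₁ : ℂ)) ((2 * p.2 + ((r : ℕ) : ℤ) : ℤ) : ℂ) *
      ee (((4 * (p.1 : ℤ) + (D₁ : ℤ) * (2 * p.2 + ((r : ℕ) : ℤ)) ^ 2 : ℤ) : ℂ) * (τ : ℂ) /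
        (4 * (D₂ : ℂ))) else 0

private theorem cpar_fibre (D₁ D₂ κ k e n : ℕ) (hD₁ : Odd D₁) (hD₂ : Odd D₂)
    (hD4 : (D₁ * D₂) % 4 = cls κ 1) (τ : ℍ) (r : Fin 2) (C : ℂ) :
    ∑' b : (cpar_g D₁ D₂ r) ⁻¹' {n}, (C * cpar_F D₁ D₂ k e τ r b) =
    if n % 4 = cls κ r then
      C * (∑ m ∈ Finset.Icc (-((D₂ * n : ℕ) : ℤ)) (D₂ * n : ℕ),
      (if (D₁ : ℤ) * m ^ 2 ≤ (D₂ : ℤ) * n ∧ (4 : ℤ) ∣ (D₂ : ℤ) * n - (D₁ : ℤ) * m ^ 2 then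
        sig k D₁ D₂ (((D₂ : ℤ) * n - (D₁ : ℤ) * m ^ 2) / 4).toNat *
          Wp k e (((((D₂ : ℤ) * n - (D₁ : ℤ) * m ^ 2) / 4 : ℤ) : ℂ) / (D₁ : ℂ)) (m : ℂ) else 0)) *
        ee ((n : ℂ) * (τ : ℂ) / 4) else 0 := by
  have hDz : (0 : ℤ) < D₂ := by exact_mod_cast hD₂.pos
  have hDz1 : (1 : ℤ) ≤ D₁ := by exact_mod_cast hD₁.pos
  have hD0 : (D₂ : ℂ) ≠ 0 := by exact_mod_cast hD₂.pos.ne'
  rw [tsum_subtype ((cpar_g D₁ D₂ r) ⁻¹' {n})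
        (fun b => C * cpar_F D₁ D₂ k e τ r b)]
  -- the terms that are not zero
  have key : ∀ b : ℕ × ℤ, b ∈ (cpar_g D₁ D₂ r) ⁻¹' {n} →
      (D₂ : ℤ) ∣ 4 * (b.1 : ℤ) + (D₁ : ℤ) * (2 * b.2 + ((r : ℕ) : ℤ)) ^ 2 →
      4 * (b.1 : ℤ) + (D₁ : ℤ) * (2 * b.2 + ((r : ℕ) : ℤ)) ^ 2 = (D₂ : ℤ) * n := by
    intro b hb hdvd
    have hb' : ((4 * (b.1 : ℤ) + (D₁ : ℤ) * (2 * b.2 + ((r : ℕ) : ℤ)) ^ 2) /
      (D₂ : ℤ)).toNat = n := hb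
    have h0 : 0 ≤ 4 * (b.1 : ℤ) + (D₁ : ℤ) * (2 * b.2 + ((r : ℕ) : ℤ)) ^ 2 := by positivity
    have h1 : 0 ≤ (4 * (b.1 : ℤ) + (D₁ : ℤ) * (2 * b.2 + ((r : ℕ) : ℤ)) ^ 2) / (D₂ : ℤ) :=
      Int.ediv_nonneg h0 hDz.le
    have h2 : (n : ℤ) = (4 * (b.1 : ℤ) + (D₁ : ℤ) * (2 * b.2 + ((r : ℕ) : ℤ)) ^ 2) /
        (D₂ : ℤ) := by
      rw [← hb', Int.toNat_of_nonneg h1]
    rw [h2, Int.mul_ediv_cancel' hdvd]
  by_cases hn : n % 4 = cls κ r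
  · rw [if_pos hn, ← Finset.sum_filter, Finset.mul_sum, Finset.sum_mul]
    set S := (Finset.Icc (-((D₂ * n : ℕ) : ℤ)) (D₂ * n : ℕ)).filter
      (fun m => (D₁ : ℤ) * m ^ 2 ≤ (D₂ : ℤ) * n ∧ (4 : ℤ) ∣ (D₂ : ℤ) * n - (D₁ : ℤ) * m ^ 2)
      with hS
    set φ : ℤ → ℕ × ℤ := fun v => ((((D₂ : ℤ) * n - (D₁ : ℤ) * v ^ 2) / 4).toNat,
      (v - ((r : ℕ) : ℤ)) / 2) with hφ
    have hSφ : ∀ v ∈ S, 2 * ((v - ((r : ℕ) : ℤ)) / 2) + ((r : ℕ) : ℤ) = v ∧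
        ((((D₂ : ℤ) * n - (D₁ : ℤ) * v ^ 2) / 4).toNat : ℤ) =
          ((D₂ : ℤ) * n - (D₁ : ℤ) * v ^ 2) / 4 ∧
        4 * (((D₂ : ℤ) * n - (D₁ : ℤ) * v ^ 2) / 4) = (D₂ : ℤ) * n - (D₁ : ℤ) * v ^ 2 := by
      intro v hv
      rw [hS, Finset.mem_filter] at hv
      obtain ⟨-, h1, h2⟩ := hv
      refine ⟨cpar_fib2 D₁ D₂ κ hD₁ hD₂ hD4 r v n hn h2, ?_, ?_⟩
      · exact Int.toNat_of_nonneg (Int.ediv_nonneg (by linarith) (by norm_num))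
      · rw [mul_comm]
        exact Int.ediv_mul_cancel h2
    rw [tsum_eq_sum (s := S.image φ) ?_, Finset.sum_image ?_]
    · refine Finset.sum_congr rfl fun v hv => ?_
      obtain ⟨h1, h2, h3⟩ := hSφ v hv
      have h4 : 4 * ((φ v).1 : ℤ) + (D₁ : ℤ) * (2 * (φ v).2 + ((r : ℕ) : ℤ)) ^ 2 =
          (D₂ : ℤ) * n := by
        show 4 * ((((D₂ : ℤ) * n - (D₁ : ℤ) * v ^ 2) / 4).toNat : ℤ) +
          (D₁ : ℤ) * (2 * ((v - ((r : ℕ) : ℤ)) / 2) + ((r : ℕ) : ℤ)) ^ 2 = (D₂ : ℤ) * n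
        rw [h1, h2, h3]
        ring
      rw [Set.indicator_of_mem]
      · unfold cpar_F
        rw [h4, if_pos (Dvd.intro _ rfl)]
        have h5 : (2 * (φ v).2 + ((r : ℕ) : ℤ) : ℤ) = v := h1
        have h6 : ((φ v).1 : ℂ) = (((((D₂ : ℤ) * n - (D₁ : ℤ) * v ^ 2) / 4 : ℤ)) : ℂ) := by
          rw [← h2]
          rfl
        have h7 : (((D₂ : ℤ) * n : ℤ) : ℂ) * (τ : ℂ) / (4 * (D₂ : ℂ)) =
            (n : ℂ) * (τ : ℂ) / 4 := by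
          push_cast
          field_simp
        rw [h5, h6, h7, ← mul_assoc]
      · show ((4 * ((φ v).1 : ℤ) + (D₁ : ℤ) * (2 * (φ v).2 + ((r : ℕ) : ℤ)) ^ 2) /
          (D₂ : ℤ)).toNat = n
        rw [h4, Int.mul_ediv_cancel_left _ hDz.ne']
        exact Int.toNat_natCast n
    · intro v hv w hw hvw
      have h1 := (hSφ v hv).1
      have h2 := (hSφ w hw).1
      have h3 : (v - ((r : ℕ) : ℤ)) / 2 = (w - ((r : ℕ) : ℤ)) / 2 := congrArg Prod.snd hvw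
      rw [← h1, ← h2, h3]
    · intro b hb
      by_cases hbm : b ∈ (cpar_g D₁ D₂ r) ⁻¹' {n}
      · rw [Set.indicator_of_mem hbm]
        by_cases hdvd : (D₂ : ℤ) ∣ 4 * (b.1 : ℤ) + (D₁ : ℤ) * (2 * b.2 + ((r : ℕ) : ℤ)) ^ 2
        · exfalso
          apply hb
          have h1 := key b hbm hdvd
          rw [Finset.mem_image]
          refine ⟨2 * b.2 + ((r : ℕ) : ℤ), ?_, ?_⟩
          · have h2 : (D₁ : ℤ) * (2 * b.2 + ((r : ℕ) : ℤ)) ^ 2 ≤ (D₂ : ℤ) * n := by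
              rw [← h1]
              have := Int.natCast_nonneg b.1
              linarith
            have h3 : |2 * b.2 + ((r : ℕ) : ℤ)| ≤ (D₁ : ℤ) * (2 * b.2 + ((r : ℕ) : ℤ)) ^ 2 := by
              have h31 : |2 * b.2 + ((r : ℕ) : ℤ)| ≤ (2 * b.2 + ((r : ℕ) : ℤ)) ^ 2 := by
                rw [← sq_abs]
                exact Int.le_self_sq _
              nlinarith [sq_nonneg (2 * b.2 + ((r : ℕ) : ℤ))]
            have h4 := abs_le.1 (h3.trans h2)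
            rw [hS, Finset.mem_filter, Finset.mem_Icc]
            push_cast
            refine ⟨⟨h4.1, h4.2⟩, h2, ?_⟩
            exact ⟨b.1, by linarith⟩
          · refine Prod.ext ?_ ?_
            · show (((D₂ : ℤ) * n - (D₁ : ℤ) * (2 * b.2 + ((r : ℕ) : ℤ)) ^ 2) / 4).toNat = b.1
              have h5 : (D₂ : ℤ) * n - (D₁ : ℤ) * (2 * b.2 + ((r : ℕ) : ℤ)) ^ 2 =
                4 * (b.1 : ℤ) := by linarith
              rw [h5, Int.mul_ediv_cancel_left _ (by norm_num)]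
              exact Int.toNat_natCast _
            · show (2 * b.2 + ((r : ℕ) : ℤ) - ((r : ℕ) : ℤ)) / 2 = b.2
              omega
        · unfold cpar_F
          rw [if_neg hdvd, mul_zero]
      · rw [Set.indicator_of_notMem hbm]
  · rw [if_neg hn]
    have h0 : ∀ b : ℕ × ℤ, ((cpar_g D₁ D₂ r) ⁻¹' {n}).indicator
        (fun b => C * cpar_F D₁ D₂ k e τ r b) b = 0 := by
      intro b
      by_cases hbm : b ∈ (cpar_g D₁ D₂ r) ⁻¹' {n}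
      · rw [Set.indicator_of_mem hbm]
        by_cases hdvd : (D₂ : ℤ) ∣ 4 * (b.1 : ℤ) + (D₁ : ℤ) * (2 * b.2 + ((r : ℕ) : ℤ)) ^ 2
        · exact absurd (cpar_fib1 D₁ D₂ κ hD₂ hD4 r b.1 b.2 n (key b hbm hdvd)) hn
        · unfold cpar_F
          rw [if_neg hdvd, mul_zero]
      · rw [Set.indicator_of_notMem hbm]
    simp only [h0, tsum_zero]

private theorem cpar_E (D₁ D₂ k i : ℕ) (hD : Odd (D₁ * D₂)) (hs : Squarefree (D₁ * D₂))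
    (hk : 3 ≤ k) (hpar : jacobiSym (-1) (D₁ * D₂ : ℕ) = (-1) ^ k) (τ : ℍ) :
    EGen D₁ D₂ k i τ =
      2 / Lval (D₁ * D₂) (1 - (k : ℂ)) * (gD D₁ * ch D₁ D₂ / gD (D₁ * D₂)) * ((D₂ : ℂ) ^ i)⁻¹ *
      ((-(2 * (Real.pi : ℂ) * Complex.I)) ^ i *
        (((k - 1).factorial : ℂ) / ((k + i - 1).factorial : ℂ))) *
      ∑' N : ℕ, (N : ℂ) ^ i * sig k D₁ D₂ N * ee ((N : ℂ) * (τ : ℂ) / (D₂ : ℂ)) := by
  obtain ⟨ho1, ho2⟩ := Nat.odd_mul.mp hD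
  haveI : NeZero D₁ := ⟨ho1.pos.ne'⟩
  haveI : NeZero D₂ := ⟨ho2.pos.ne'⟩
  have hS := (cpar_sumN D₁ D₂ k i ho2.pos hk τ).of_norm
  rw [EGen_eq D₁ D₂ k i hD hs hk hpar τ, hS.tsum_eq_add_tsum_ite 0, mul_add]
  congr 1
  have hL := (const_B_sq (D₁ * D₂) k hD hs hk hpar).1
  have e0 : (((0 : ℕ) : ℂ)) * (τ : ℂ) / (D₂ : ℂ) = 0 := by simp
  rw [e0, ee_zero, mul_one]
  rcases Nat.eq_zero_or_pos i with rfl | hi
  · rw [pow_zero, pow_zero, pow_zero, inv_one, mul_one, one_mul, one_mul, add_zero]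
    have hf : (((k - 1).factorial : ℂ) / ((k - 1).factorial : ℂ)) = 1 := by
      apply div_self
      exact_mod_cast (k - 1).factorial_ne_zero
    rw [hf, mul_one]
    by_cases h1 : D₂ = 1
    · subst h1
      rw [if_pos ⟨rfl, rfl⟩]
      have hc : ch D₁ ((1 : ℕ) : ℤ) = 1 := by
        unfold ch
        rw [Nat.cast_one, jacobiSym.one_left, Int.cast_one]
      have hg := cpar_gD_ne D₁ ho1.pos
      rw [mul_one] at hL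
      have hsig : sig k D₁ 1 0 = Lval D₁ (1 - (k : ℂ)) / 2 := by
        rw [sig, if_pos rfl, Lval_one_zero]
        ring
      rw [hsig]
      first
        | (rw [hc, mul_one, mul_one, div_self hg]
           field_simp)
        | (simp only [hc, mul_one, div_self hg]
           field_simp)
    · rw [if_neg (fun h => h1 h.1)]
      have hz : sig k D₁ D₂ 0 = 0 := by
        rw [sig, if_pos rfl, Lval_zero k D₁ D₂ hk (by have := ho2.pos; omega) hpar, neg_zero]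
      rw [hz, mul_zero]
  · rw [if_neg (by omega), Nat.cast_zero, zero_pow (by omega), zero_mul, mul_zero]

theorem hasSum_part (D₁ D₂ κ k e : ℕ) (hD : Odd (D₁ * D₂)) (hs : Squarefree (D₁ * D₂))
    (hD4 : (D₁ * D₂) % 4 = cls κ 1) (hk : 3 ≤ k)
    (hpar : jacobiSym (-1) (D₁ * D₂ : ℕ) = (-1) ^ k) (τ : ℍ) (r : Fin 2) :
    HasSum (fun n : ℕ ↦ if n % 4 = cls κ r then
        2 / Lval (D₁ * D₂) (1 - (k : ℂ)) * cgP D₁ D₂ k e n * ee ((n : ℂ) * (τ : ℂ) / 4) else 0)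
      (∑ β ∈ Finset.range D₂, ∑ i ∈ Finset.range (e / 2 + 1),
        cf e i * ((D₁ : ℂ) ^ i)⁻¹ * ((D₂ : ℂ) ^ (e - i))⁻¹ *
          (dl D₂ / ((Real.sqrt D₂ : ℝ) : ℂ)) * tw2 D₂ r ((D₁ : ℤ) * β) *
          EGen D₁ D₂ k i (mob (mT β) τ) *
          ph 1 (e - 2 * i) (mob !![(D₁ : ℤ), (D₁ : ℤ) * (β : ℤ); 0, (D₂ : ℤ)] τ) r) := by
  obtain ⟨ho1, ho2⟩ := Nat.odd_mul.mp hD
  have hc12 : Nat.Coprime D₁ D₂ := Nat.coprime_of_squarefree_mul hs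
  have hD0 : (D₂ : ℂ) ≠ 0 := by exact_mod_cast ho2.pos.ne'
  have hD10 : (D₁ : ℂ) ≠ 0 := by exact_mod_cast ho1.pos.ne'
  set c0 : ℂ := 2 / Lval (D₁ * D₂) (1 - (k : ℂ)) with hc0
  set G : ℂ := gD D₁ * ch D₁ D₂ / gD (D₁ * D₂) with hG
  -- one product
  have hprod : ∀ (β : ℕ) (i : ℕ), HasSum (fun p : ℕ × ℤ ↦
      (cf e i * ((D₁ : ℂ) ^ i)⁻¹ * ((D₂ : ℂ) ^ (e - i))⁻¹ *
        (dl D₂ / ((Real.sqrt D₂ : ℝ) : ℂ)) * tw2 D₂ r ((D₁ : ℤ) * (β : ℤ)) *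
        (c0 * G * ((D₂ : ℂ) ^ i)⁻¹ * ((-(2 * (Real.pi : ℂ) * Complex.I)) ^ i *
        (((k - 1).factorial : ℂ) / ((k + i - 1).factorial : ℂ))))) *
      (((p.1 : ℂ) ^ i * sig k D₁ D₂ p.1 *
          ee ((p.1 : ℂ) * ((mob (mT (β : ℤ)) τ : ℍ) : ℂ) / (D₂ : ℂ))) *
        ((2 * (p.2 : ℂ) + ((r : ℕ) : ℂ)) ^ (e - 2 * i) *
          ee (((1 : ℕ) : ℂ) * (2 * (p.2 : ℂ) + ((r : ℕ) : ℂ)) ^ 2 *
            ((mob !![(D₁ : ℤ), (D₁ : ℤ) * (β : ℤ); 0, (D₂ : ℤ)] τ : ℍ) : ℂ) / 4))))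
      (cf e i * ((D₁ : ℂ) ^ i)⁻¹ * ((D₂ : ℂ) ^ (e - i))⁻¹ *
        (dl D₂ / ((Real.sqrt D₂ : ℝ) : ℂ)) * tw2 D₂ r ((D₁ : ℤ) * (β : ℤ)) *
          EGen D₁ D₂ k i (mob (mT (β : ℤ)) τ) *
          ph 1 (e - 2 * i) (mob !![(D₁ : ℤ), (D₁ : ℤ) * (β : ℤ); 0, (D₂ : ℤ)] τ) r) := by
    intro β i
    have hA := cpar_sumN D₁ D₂ k i ho2.pos hk (mob (mT (β : ℤ)) τ)
    have hB := summable_norm_iff.2
      (ph_summable 1 (e - 2 * i) one_pos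
        (mob !![(D₁ : ℤ), (D₁ : ℤ) * (β : ℤ); 0, (D₂ : ℤ)] τ) r)
    have hsum := summable_mul_of_summable_norm hA hB
    have htsum := tsum_mul_tsum_of_summable_norm hA hB
    have hE := cpar_E D₁ D₂ k i hD hs hk hpar (mob (mT (β : ℤ)) τ)
    have hP : ph 1 (e - 2 * i) (mob !![(D₁ : ℤ), (D₁ : ℤ) * (β : ℤ); 0, (D₂ : ℤ)] τ) r =
      ∑' m : ℤ, (2 * (m : ℂ) + ((r : ℕ) : ℂ)) ^ (e - 2 * i) *
        ee (((1 : ℕ) : ℂ) * (2 * (m : ℂ) + ((r : ℕ) : ℂ)) ^ 2 *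
          ((mob !![(D₁ : ℤ), (D₁ : ℤ) * (β : ℤ); 0, (D₂ : ℤ)] τ : ℍ) : ℂ) / 4) := rfl
    have h1 := hsum.hasSum
    rw [← htsum, ← hP] at h1
    have h2 := h1.mul_left (cf e i * ((D₁ : ℂ) ^ i)⁻¹ * ((D₂ : ℂ) ^ (e - i))⁻¹ *
        (dl D₂ / ((Real.sqrt D₂ : ℝ) : ℂ)) * tw2 D₂ r ((D₁ : ℤ) * (β : ℤ)) *
        (c0 * G * ((D₂ : ℂ) ^ i)⁻¹ * ((-(2 * (Real.pi : ℂ) * Complex.I)) ^ i *
        (((k - 1).factorial : ℂ) / ((k + i - 1).factorial : ℂ)))))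
    rw [hE]
    refine Eq.subst (motive := fun v => HasSum _ v) ?_ h2
    ring
  have hall : HasSum _ _ := hasSum_sum (s := Finset.range D₂) fun β _ =>
    hasSum_sum (s := Finset.range (e / 2 + 1)) fun i _ => hprod β i
  set C : ℂ := c0 * (ch D₂ (-(D₁ : ℤ)) * ((D₂ : ℂ) ^ e)⁻¹) with hC
  have hpt : ∀ p : ℕ × ℤ, (∑ β ∈ Finset.range D₂, ∑ i ∈ Finset.range (e / 2 + 1),
      (cf e i * ((D₁ : ℂ) ^ i)⁻¹ * ((D₂ : ℂ) ^ (e - i))⁻¹ *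
        (dl D₂ / ((Real.sqrt D₂ : ℝ) : ℂ)) * tw2 D₂ r ((D₁ : ℤ) * (β : ℤ)) *
        (c0 * G * ((D₂ : ℂ) ^ i)⁻¹ * ((-(2 * (Real.pi : ℂ) * Complex.I)) ^ i *
        (((k - 1).factorial : ℂ) / ((k + i - 1).factorial : ℂ))))) *
      (((p.1 : ℂ) ^ i * sig k D₁ D₂ p.1 *
          ee ((p.1 : ℂ) * ((mob (mT (β : ℤ)) τ : ℍ) : ℂ) / (D₂ : ℂ))) *
        ((2 * (p.2 : ℂ) + ((r : ℕ) : ℂ)) ^ (e - 2 * i) *
          ee (((1 : ℕ) : ℂ) * (2 * (p.2 : ℂ) + ((r : ℕ) : ℂ)) ^ 2 *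
            ((mob !![(D₁ : ℤ), (D₁ : ℤ) * (β : ℤ); 0, (D₂ : ℤ)] τ : ℍ) : ℂ) / 4)))) =
      C * cpar_F D₁ D₂ k e τ r p := by
    rintro ⟨N, m⟩
    have hβ : ∀ β ∈ Finset.range D₂, (∑ i ∈ Finset.range (e / 2 + 1),
      (cf e i * ((D₁ : ℂ) ^ i)⁻¹ * ((D₂ : ℂ) ^ (e - i))⁻¹ *
        (dl D₂ / ((Real.sqrt D₂ : ℝ) : ℂ)) * tw2 D₂ r ((D₁ : ℤ) * (β : ℤ)) *
        (c0 * G * ((D₂ : ℂ) ^ i)⁻¹ * ((-(2 * (Real.pi : ℂ) * Complex.I)) ^ i *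
        (((k - 1).factorial : ℂ) / ((k + i - 1).factorial : ℂ))))) *
      (((N : ℂ) ^ i * sig k D₁ D₂ N *
          ee ((N : ℂ) * ((mob (mT (β : ℤ)) τ : ℍ) : ℂ) / (D₂ : ℂ))) *
        ((2 * (m : ℂ) + ((r : ℕ) : ℂ)) ^ (e - 2 * i) *
          ee (((1 : ℕ) : ℂ) * (2 * (m : ℂ) + ((r : ℕ) : ℂ)) ^ 2 *
            ((mob !![(D₁ : ℤ), (D₁ : ℤ) * (β : ℤ); 0, (D₂ : ℤ)] τ : ℍ) : ℂ) / 4)))) =
        (c0 * G * (dl D₂ / ((Real.sqrt D₂ : ℝ) : ℂ)) * ((D₂ : ℂ) ^ e)⁻¹ *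
        (sig k D₁ D₂ N * Wp k e ((N : ℂ) / (D₁ : ℂ)) ((2 * m + ((r : ℕ) : ℤ) : ℤ) : ℂ) *
          ee (((4 * (N : ℤ) + (D₁ : ℤ) * (2 * m + ((r : ℕ) : ℤ)) ^ 2 : ℤ) : ℂ) * (τ : ℂ) /
            (4 * (D₂ : ℂ))))) *
        (tw2 D₂ r ((D₁ : ℤ) * (β : ℤ)) *
          ee (((4 * (N : ℤ) + (D₁ : ℤ) * (2 * m + ((r : ℕ) : ℤ)) ^ 2 : ℤ) : ℂ) * (β : ℂ) /
          (4 * (D₂ : ℂ)))) := by
      intro β _
      have hEE : ee ((N : ℂ) * ((mob (mT (β : ℤ)) τ : ℍ) : ℂ) / (D₂ : ℂ)) *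
          ee (((1 : ℕ) : ℂ) * (2 * (m : ℂ) + ((r : ℕ) : ℂ)) ^ 2 *
            ((mob !![(D₁ : ℤ), (D₁ : ℤ) * (β : ℤ); 0, (D₂ : ℤ)] τ : ℍ) : ℂ) / 4) =
          ee (((4 * (N : ℤ) + (D₁ : ℤ) * (2 * m + ((r : ℕ) : ℤ)) ^ 2 : ℤ) : ℂ) * (τ : ℂ) /
            (4 * (D₂ : ℂ))) *
          ee (((4 * (N : ℤ) + (D₁ : ℤ) * (2 * m + ((r : ℕ) : ℤ)) ^ 2 : ℤ) : ℂ) * (β : ℂ) /
            (4 * (D₂ : ℂ))) := by
        rw [← ee_add, ← ee_add, cpar_coeT, cpar_coeD τ (β : ℤ) D₁ D₂ ho1.pos ho2.pos]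
        congr 1
        push_cast
        field_simp
      have hW : Wp k e ((N : ℂ) / (D₁ : ℂ)) ((2 * m + ((r : ℕ) : ℤ) : ℤ) : ℂ) =
        ∑ i ∈ Finset.range (e / 2 + 1),
          ((e.factorial : ℂ) / ((i.factorial : ℂ) * ((e - 2 * i).factorial : ℂ))) *
          (((k - 1).factorial : ℂ) / ((k + i - 1).factorial : ℂ)) *
            (-((N : ℂ) / (D₁ : ℂ))) ^ i *
          (2 * (m : ℂ) + ((r : ℕ) : ℂ)) ^ (e - 2 * i) := by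
        unfold Wp
        push_cast
        rfl
      rw [hW]
      calc _ = ∑ i ∈ Finset.range (e / 2 + 1),
          (c0 * G * (dl D₂ / ((Real.sqrt D₂ : ℝ) : ℂ)) * ((D₂ : ℂ) ^ e)⁻¹ * sig k D₁ D₂ N *
            tw2 D₂ r ((D₁ : ℤ) * (β : ℤ)) *
            (ee (((4 * (N : ℤ) + (D₁ : ℤ) * (2 * m + ((r : ℕ) : ℤ)) ^ 2 : ℤ) : ℂ) * (τ : ℂ) /
              (4 * (D₂ : ℂ))) *
            ee (((4 * (N : ℤ) + (D₁ : ℤ) * (2 * m + ((r : ℕ) : ℤ)) ^ 2 : ℤ) : ℂ) * (β : ℂ) /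
              (4 * (D₂ : ℂ))))) *
          (((e.factorial : ℂ) / ((i.factorial : ℂ) * ((e - 2 * i).factorial : ℂ))) *
          (((k - 1).factorial : ℂ) / ((k + i - 1).factorial : ℂ)) *
            (-((N : ℂ) / (D₁ : ℂ))) ^ i *
          (2 * (m : ℂ) + ((r : ℕ) : ℂ)) ^ (e - 2 * i)) := by
            refine Finset.sum_congr rfl fun i hi => ?_
            have hco := cpar_coef D₁ D₂ k e i ho1.pos ho2.pos hi (N : ℂ)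
              (2 * (m : ℂ) + ((r : ℕ) : ℂ))
            rw [← hEE]
            generalize ee ((N : ℂ) * ((mob (mT (β : ℤ)) τ : ℍ) : ℂ) / (D₂ : ℂ)) = E1
            generalize ee (((1 : ℕ) : ℂ) * (2 * (m : ℂ) + ((r : ℕ) : ℂ)) ^ 2 *
              ((mob !![(D₁ : ℤ), (D₁ : ℤ) * (β : ℤ); 0, (D₂ : ℤ)] τ : ℍ) : ℂ) / 4) = E2
            calc _ = (c0 * G * (dl D₂ / ((Real.sqrt D₂ : ℝ) : ℂ)) * sig k D₁ D₂ N *
                tw2 D₂ r ((D₁ : ℤ) * (β : ℤ)) * (E1 * E2)) * (cf e i * ((D₁ : ℂ) ^ i)⁻¹ *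
                ((D₂ : ℂ) ^ (e - i))⁻¹ *
                (((D₂ : ℂ) ^ i)⁻¹ * ((-(2 * (Real.pi : ℂ) * Complex.I)) ^ i *
                (((k - 1).factorial : ℂ) / ((k + i - 1).factorial : ℂ)))) *
                ((N : ℂ) ^ i * (2 * (m : ℂ) + ((r : ℕ) : ℂ)) ^ (e - 2 * i))) := by ring
              _ = _ := by
                rw [hco]
                ring
        _ = _ := by
            rw [← Finset.mul_sum]
            ring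
    show (∑ β ∈ Finset.range D₂, ∑ i ∈ Finset.range (e / 2 + 1), _) = _
    rw [Finset.sum_congr rfl hβ, ← Finset.mul_sum, cpar_tw D₁ D₂ ho2 r N m]
    unfold cpar_F
    rw [hC, ← cpar_const D₁ D₂ ho1 ho2 hc12]
    split_ifs with h
    · rw [← hG]
      ring
    · rw [mul_zero, mul_zero]
  have hF := Eq.subst (motive := fun f => HasSum f _) (funext hpt) hall
  have hfin := hF.tsum_fiberwise (cpar_g D₁ D₂ r)
  refine Eq.subst (motive := fun f => HasSum f _) (funext ?_) hfin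
  intro n
  rw [cpar_fibre D₁ D₂ κ k e n ho1 ho2 hD4 τ r C]
  unfold cgP
  split_ifs with h
  · rw [hC]
    ring
  · rfl

end MP836e4b.P
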