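/-
MODULE ThI (size M), board mod836, MP_836e4b_nt, folder Work/MP_836e4b_nt/P. Keep the statements verbatim, helper lemmas private.
Linear independence of th 0 τ, th 1 τ (functions of z). Replace z by z + 1/2: a th0 - b th1 = 0, so
a th0 = 0 and b th1 = 0 for all z; ∫_0^1 th 0 = 1 gives a = 0; th 0 τ (z+τ/2) e(τ/4+z) = th 1 (th_half_tau at
r = 0) shows th 1 is not identically zero either (th 0 would vanish identically).
Then isM_unique: subtract; M_eq: h.choose is some matrix with IsM, use uniqueness.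
-/
import Mathlib
import Pool.Agent.Work.MP_836e4b_nt.P.Defs
import Pool.Agent.Work.MP_836e4b_nt.P.Th1

open UpperHalfPlane Complex
open scoped MatrixGroups ComplexConjugate Matrix

namespace MP836e4b.P

theorem th_indep (τ : ℍ) (a b : ℂ) (h : ∀ z, a * th 0 τ z + b * th 1 τ z = 0) :
    a = 0 ∧ b = 0 := by
  have h0 : ∀ z, a * th 0 τ z = 0 := by
    intro z
    have h1 := h z
    have h2 := h (z + 1 / 2)
    rw [th_half, th_half] at h2
    simp only [Fin.val_zero, Fin.val_one, pow_zero, pow_one, one_mul] at h2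
    linear_combination (1 / 2 : ℂ) * h1 + (1 / 2 : ℂ) * h2
  have h1 : ∀ z, b * th 1 τ z = 0 := by
    intro z
    have h2 := h z
    rw [h0 z, zero_add] at h2
    exact h2
  have hint : ∀ c : ℂ, (∀ z, c * th 0 τ z = 0) → c = 0 := by
    intro c hc
    have h3 : ∫ x in (0 : ℝ)..1, c * th 0 τ (x : ℂ) = 0 := by
      simp only [hc]
      exact intervalIntegral.integral_zero
    rw [intervalIntegral.integral_const_mul, th_int, if_pos rfl, mul_one] at h3
    exact h3
  refine ⟨hint a h0, ?_⟩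
  by_contra hb
  have h2 : ∀ z, th 1 τ z = 0 := fun z ↦ (mul_eq_zero.1 (h1 z)).resolve_left hb
  have h3 : ∀ z, th 0 τ z = 0 := by
    intro z
    have h4 := th_half_tau 0 τ (z - (τ : ℂ) / 2)
    rw [show (0 : Fin 2) + 1 = 1 from rfl, h2, sub_add_cancel] at h4
    exact (mul_eq_zero.1 h4).resolve_left (Complex.exp_ne_zero _)
  exact one_ne_zero (hint 1 fun z ↦ by rw [h3, mul_zero])

theorem isM_unique {p : ℕ} {A : Mat} {τ : ℍ} {m m' : Matrix (Fin 2) (Fin 2) ℂ}
    (h : IsM p A τ m) (h' : IsM p A τ m') : m = m' := by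
  have key : ∀ r : Fin 2, m r 0 - m' r 0 = 0 ∧ m r 1 - m' r 1 = 0 := by
    intro r
    apply th_indep τ
    intro z
    have h1 := (h r z).symm.trans (h' r z)
    rw [Fin.sum_univ_two, Fin.sum_univ_two] at h1
    linear_combination h1
  ext r s
  obtain ⟨h0, h1⟩ := key r
  fin_cases s
  · exact sub_eq_zero.1 h0
  · exact sub_eq_zero.1 h1

theorem M_eq {p : ℕ} {A : Mat} {τ : ℍ} {m : Matrix (Fin 2) (Fin 2) ℂ}
    (h : IsM p A τ m) : M p A τ = m := by
  have h1 : ∃ m, IsM p A τ m := ⟨m, h⟩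
  unfold M
  rw [dif_pos h1]
  exact isM_unique h1.choose_spec h

theorem isM_M {p : ℕ} {A : Mat} {τ : ℍ} (h : ∃ m, IsM p A τ m) : IsM p A τ (M p A τ) := by
  obtain ⟨m, hm⟩ := h
  rw [M_eq hm]
  exact hm

end MP836e4b.P
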