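/-
MODULE MA1 (size M), board mod836, MP_836e4b_nt, folder Work/MP_836e4b_nt/P. Keep the statements verbatim, helper lemmas private.
Existence of the matrices M 1 γ τ for all γ in SL(2,Z) and the cocycle rule.
avg 1 τ f z = f z (only l = m = 0). So IsM 1 A τ m says thA 1 A r τ z = ∑ m_rs th s τ z.
Closure: if IsM 1 γ (mob γ' τ) m and IsM 1 γ' τ m' then IsM 1 (γγ') τ (m m')
  [thA 1 (γγ') r τ z = e(-c''z²/j(γγ',τ)) th r (γγ'τ) (z/j(γγ',τ)); put z' = z/j(γ',τ); cocycle_c with B = γ'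
   (det 1): c''/j'' = c'/j' + c/(j(γ,γ'τ) j'^2)], so it equals e(-c'z²/j') (thA 1 γ r (γ'τ) z').
S: th_S (mob mS τ = -1/τ, jf mS τ = τ). T^b: th_T. Inverses: S⁻¹ = S³, T⁻¹ = T^(-1); generators:
Mathlib ModularGroup / SpecialLinearGroup.SL2Z_generators (closure {S,T} = ⊤), use
Subgroup.closure_induction. M_det_ne: M 1 γ⁻¹ (γτ) * M 1 γ τ = M 1 1 τ = 1.
-/
import Mathlib
import Pool.Agent.Work.MP_836e4b_nt.P.Defs
import Pool.Agent.Work.MP_836e4b_nt.P.ThS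
import Pool.Agent.Work.MP_836e4b_nt.P.ThI

open UpperHalfPlane Complex
open scoped MatrixGroups ComplexConjugate Matrix

namespace MP836e4b.P

private theorem ma_avg (τ : ℍ) (f : ℂ → ℂ) (z : ℂ) : avg 1 τ f z = f z := by
  have h0 : ee 0 = 1 := ee_zero
  simp [avg, h0]

private theorem ma_isM {A : Mat} {τ : ℍ} {m : Matrix (Fin 2) (Fin 2) ℂ} :
    IsM 1 A τ m ↔ ∀ (r : Fin 2) (z : ℂ), thA 1 A r τ z = ∑ s : Fin 2, m r s * th s τ z := by
  unfold IsM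
  simp only [ma_avg]

/-- composition of the slashed theta functions -/
private theorem ma_comp (A B : Mat) (hA : 0 < A.det) (hB : B.det = 1) (r : Fin 2) (τ : ℍ)
    (z : ℂ) : thA 1 (A * B) r τ z =
      ee (-((B 1 0 : ℂ) * z ^ 2 / jf B τ)) * thA 1 A r (mob B τ) (z / jf B τ) := by
  have hB0 : 0 < B.det := by
    rw [hB]
    exact one_pos
  have hjB : jf B τ ≠ 0 := jf_ne_zero B hB0.ne' τ
  have hjA : jf A (mob B τ) ≠ 0 := jf_ne_zero A hA.ne' _
  have hc := cocycle_c A B hA hB0 τ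
  rw [hB] at hc
  unfold thA
  rw [mob_mul A B hA hB0, ← mul_assoc, ← ee_add]
  have e1 : -((((A * B) 1 0 : ℤ) : ℂ) * z ^ 2 / jf (A * B) τ) =
      -((B 1 0 : ℂ) * z ^ 2 / jf B τ) +
        -((A 1 0 : ℂ) * (z / jf B τ) ^ 2 / jf A (mob B τ)) := by
    have e2 : (((A * B) 1 0 : ℤ) : ℂ) * z ^ 2 / jf (A * B) τ =
        (((A * B) 1 0 : ℤ) : ℂ) / jf (A * B) τ * z ^ 2 := by ring
    rw [e2, hc]
    push_cast
    field_simp
    ring
  have e3 : ((1 : ℕ) : ℂ) * z / jf (A * B) τ =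
      ((1 : ℕ) : ℂ) * (z / jf B τ) / jf A (mob B τ) := by
    rw [jf_mul A B hA hB0]
    field_simp
  rw [e1, e3]

private theorem ma_mul {A B : Mat} (hA : 0 < A.det) (hB : B.det = 1) {τ : ℍ}
    {m m' : Matrix (Fin 2) (Fin 2) ℂ} (h : IsM 1 A (mob B τ) m) (h' : IsM 1 B τ m') :
    IsM 1 (A * B) τ (m * m') := by
  rw [ma_isM] at h h' ⊢
  intro r z
  have h1 : ∀ s : Fin 2, ee (-((B 1 0 : ℂ) * z ^ 2 / jf B τ)) * th s (mob B τ) (z / jf B τ) =
      ∑ t : Fin 2, m' s t * th t τ z := by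
    intro s
    rw [← h' s z]
    unfold thA
    rw [Nat.cast_one, one_mul]
  rw [ma_comp A B hA hB, h r]
  simp only [Fin.sum_univ_two, Matrix.mul_apply] at h1 ⊢
  have h10 := h1 0
  have h11 := h1 1
  linear_combination m r 0 * h10 + m r 1 * h11

private theorem ma_isM_S (τ : ℍ) :
    IsM 1 mS τ (((τ : ℂ) / (2 * Complex.I)) ^ (1 / 2 : ℂ) • !![1, 1; 1, -1]) := by
  rw [ma_isM]
  intro r z
  have h := th_S r τ z
  have hj : jf mS τ = (τ : ℂ) := by simp [jf, mS]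
  unfold thA
  have e1 : -(((mS 1 0 : ℤ) : ℂ) * z ^ 2 / jf mS τ) = -(z ^ 2 / (τ : ℂ)) := by
    rw [hj]
    simp [mS]
  rw [e1, hj, Nat.cast_one, one_mul, h]
  fin_cases r
  · simp [Fin.sum_univ_two]
    ring
  · simp [Fin.sum_univ_two]
    ring

private theorem ma_isM_T (b : ℤ) (τ : ℍ) :
    IsM 1 (mT b) τ (!![1, 0; 0, ee ((b : ℂ) / 4)]) := by
  rw [ma_isM]
  intro r z
  have h := th_T r b τ z
  have hj : jf (mT b) τ = 1 := by simp [jf, mT]
  unfold thA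
  have e1 : -(((mT b 1 0 : ℤ) : ℂ) * z ^ 2 / jf (mT b) τ) = 0 := by
    rw [hj]
    simp [mT]
  rw [e1, hj, Nat.cast_one, one_mul, div_one, h, ee_zero, one_mul]
  fin_cases r
  · simp [Fin.sum_univ_two, ee_zero]
  · simp [Fin.sum_univ_two]

private theorem ma_isM_one (τ : ℍ) : IsM 1 (1 : Mat) τ 1 := by
  rw [ma_isM]
  intro r z
  unfold thA
  have e1 : -((((1 : Mat) 1 0 : ℤ) : ℂ) * z ^ 2 / jf 1 τ) = 0 := by
    simp
  rw [e1, jf_one, Nat.cast_one, one_mul, div_one, mob_one, ee_zero, one_mul]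
  simp [Matrix.one_apply]

private theorem ma_isM_N (τ : ℍ) : IsM 1 mN τ 1 := by
  rw [ma_isM]
  intro r z
  have hdet : (mN : Mat).det = 1 := by
    rw [Matrix.det_fin_two]
    simp [mN]
  have hj : jf mN τ = -1 := by simp [jf, mN]
  have hm : mob mN τ = τ := by
    apply UpperHalfPlane.ext
    rw [coe_mob mN (by rw [hdet]; exact one_pos), hj]
    simp [mN]
  unfold thA
  have e1 : -(((mN 1 0 : ℤ) : ℂ) * z ^ 2 / jf mN τ) = 0 := by
    rw [hj]
    simp [mN]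
  have e2 : z / -1 = -z := by ring
  rw [e1, hj, hm, Nat.cast_one, one_mul, e2, th_neg, ee_zero, one_mul]
  simp [Matrix.one_apply]

private theorem ma_det (γ : SL(2, ℤ)) : (γ : Mat).det = 1 := γ.det_coe

private theorem ma_S : ((ModularGroup.S : SL(2, ℤ)) : Mat) = mS := by
  rw [ModularGroup.coe_S]
  rfl

private theorem ma_T : ((ModularGroup.T : SL(2, ℤ)) : Mat) = mT 1 := by
  rw [ModularGroup.coe_T]
  rfl

private theorem ma_Ti : (((ModularGroup.T : SL(2, ℤ))⁻¹ : SL(2, ℤ)) : Mat) = mT (-1) := by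
  rw [ModularGroup.coe_T_inv]
  rfl

private theorem ma_Si : (((ModularGroup.S : SL(2, ℤ))⁻¹ : SL(2, ℤ)) : Mat) = mS * mS * mS := by
  rw [Matrix.SpecialLinearGroup.coe_inv, ma_S]
  ext i j
  fin_cases i <;> fin_cases j <;>
    simp [mS, Matrix.adjugate_fin_two, Matrix.mul_apply, Fin.sum_univ_two]

private theorem ma_mS_det : (mS : Mat).det = 1 := by
  rw [← ma_S]
  exact ma_det _

private theorem ma_ex (γ : SL(2, ℤ)) : ∀ τ : ℍ, ∃ m, IsM 1 (γ : Mat) τ m := by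
  have hγ : γ ∈ Subgroup.closure {ModularGroup.S, ModularGroup.T} := by
    rw [SpecialLinearGroup.SL2Z_generators]
    exact Subgroup.mem_top γ
  induction hγ using Subgroup.closure_induction_right with
  | one =>
    intro τ
    exact ⟨1, by rw [Matrix.SpecialLinearGroup.coe_one]; exact ma_isM_one τ⟩
  | mul_right x hx y hy ih =>
    intro τ
    obtain ⟨m, hm⟩ := ih (mob (y : Mat) τ)
    have hy' : ∃ m', IsM 1 (y : Mat) τ m' := by
      rcases hy with rfl | hy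
      · rw [ma_S]
        exact ⟨_, ma_isM_S τ⟩
      · rw [Set.mem_singleton_iff] at hy
        rw [hy, ma_T]
        exact ⟨_, ma_isM_T 1 τ⟩
    obtain ⟨m', hm'⟩ := hy'
    refine ⟨m * m', ?_⟩
    rw [Matrix.SpecialLinearGroup.coe_mul]
    exact ma_mul (by rw [ma_det]; exact one_pos) (ma_det y) hm hm'
  | mul_inv_cancel x hx y hy ih =>
    intro τ
    obtain ⟨m, hm⟩ := ih (mob ((y⁻¹ : SL(2, ℤ)) : Mat) τ)
    have hy' : ∃ m', IsM 1 ((y⁻¹ : SL(2, ℤ)) : Mat) τ m' := by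
      rcases hy with rfl | hy
      · rw [ma_Si]
        have h1 : IsM 1 (mS * mS) τ _ :=
          ma_mul (by rw [ma_mS_det]; exact one_pos) ma_mS_det (ma_isM_S _) (ma_isM_S τ)
        have h2 : ∀ τ' : ℍ, ∃ m', IsM 1 (mS * mS) τ' m' := fun τ' => ⟨_,
          ma_mul (by rw [ma_mS_det]; exact one_pos) ma_mS_det (ma_isM_S _) (ma_isM_S τ')⟩
        obtain ⟨m', hm'⟩ := h2 (mob mS τ)
        refine ⟨m' * _, ma_mul ?_ ma_mS_det hm' (ma_isM_S τ)⟩
        rw [Matrix.det_mul, ma_mS_det, one_mul]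
        exact one_pos
      · rw [Set.mem_singleton_iff] at hy
        rw [hy, ma_Ti]
        exact ⟨_, ma_isM_T (-1) τ⟩
    obtain ⟨m', hm'⟩ := hy'
    refine ⟨m * m', ?_⟩
    rw [Matrix.SpecialLinearGroup.coe_mul]
    exact ma_mul (by rw [ma_det]; exact one_pos) (ma_det _) hm hm'

theorem isM_sl (γ : SL(2, ℤ)) (τ : ℍ) : IsM 1 (γ : Mat) τ (M 1 (γ : Mat) τ) := by
  exact isM_M (ma_ex γ τ)

theorem M_mul (γ γ' : SL(2, ℤ)) (τ : ℍ) :
    M 1 ((γ : Mat) * (γ' : Mat)) τ = M 1 (γ : Mat) (mob (γ' : Mat) τ) * M 1 (γ' : Mat) τ := by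
  exact M_eq (ma_mul (by rw [ma_det]; exact one_pos) (ma_det γ') (isM_sl γ _) (isM_sl γ' τ))

theorem M_one (τ : ℍ) : M 1 (1 : Mat) τ = 1 := by
  exact M_eq (ma_isM_one τ)

theorem M_S (τ : ℍ) :
    M 1 mS τ = ((τ : ℂ) / (2 * Complex.I)) ^ (1 / 2 : ℂ) • !![1, 1; 1, -1] := by
  exact M_eq (ma_isM_S τ)

theorem M_T (b : ℤ) (τ : ℍ) : M 1 (mT b) τ = !![1, 0; 0, ee ((b : ℂ) / 4)] := by
  exact M_eq (ma_isM_T b τ)

theorem M_N (τ : ℍ) : M 1 mN τ = 1 := by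
  exact M_eq (ma_isM_N τ)

theorem M_det_ne (γ : SL(2, ℤ)) (τ : ℍ) : (M 1 (γ : Mat) τ).det ≠ 0 := by
  have h := M_mul γ⁻¹ γ τ
  have h1 : ((γ⁻¹ : SL(2, ℤ)) : Mat) * (γ : Mat) = 1 := by
    rw [← Matrix.SpecialLinearGroup.coe_mul, inv_mul_cancel, Matrix.SpecialLinearGroup.coe_one]
  rw [h1, M_one] at h
  intro h0
  have h2 := congrArg Matrix.det h
  rw [Matrix.det_one, Matrix.det_mul, h0, mul_zero] at h2
  exact one_ne_zero h2

end MP836e4b.P
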