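/-
MODULE CuspG (size M-L), board mod836, MP_836e4b_nt, folder Work/MP_836e4b_nt/P. Keep the statements verbatim, helper lemmas private.
The (0,0) entry of M 1 γ τ for c > 0 as a Gauss sum. Integrate th's identity over 0 ≤ z ≤ 1 (th_int):
M_00 = ∫_0^1 e(-cz²/j) th 0 (γτ) (z/j) dz = ∑_n ∫_0^1 e(-cz²/j + n²γτ + 2nz/j) dz (th 0 τ z = ∑_n e(n²τ+2nz)), and
γτ = a/c - 1/(cj): the exponent is n²a/c - (cz-n)²/(cj). Write n = ρ - cm, 0 ≤ ρ < c: e(ρ²a/c) e(-(c(z+m)-ρ)²/(cj));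
∑_m ∫_0^1 = ∫_ℝ e(-(cz-ρ)²/(cj)) dz = ∫_ℝ exp(-2πi c z²/j) dz = (j/(2ic))^(1/2) = (j/2i)^(1/2)/√c (Re (ic/j) > 0;
Mathlib integral_gaussian_complex). Absolute convergence: Gaussian decay.
-/
import Mathlib
import Pool.Agent.Work.MP_836e4b_nt.P.Defs
import Pool.Agent.Work.MP_836e4b_nt.P.MA1

open UpperHalfPlane Complex
open scoped MatrixGroups ComplexConjugate Matrix

namespace MP836e4b.P

private theorem cg_shift {E : Type} [NormedAddCommGroup E] [NormedSpace ℝ E] (G : ℝ → E)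
    (hG : MeasureTheory.Integrable G) (y : ℝ) :
    HasSum (fun q : ℤ ↦ ∫ x in (0 : ℝ)..1, G (x - y - (q : ℝ))) (∫ x, G x) := by
  have h1 : MeasureTheory.Integrable (fun x : ℝ ↦ G (x - y)) := hG.comp_sub_right y
  have h2 := h1.hasSum_intervalIntegral_comp_add_int
  rw [MeasureTheory.integral_sub_right_eq_self (fun x : ℝ ↦ G x) y] at h2
  have h3 := (Equiv.neg ℤ).hasSum_iff.mpr h2
  refine h3.congr_fun ?_
  intro q
  simp only [Function.comp_apply, Equiv.neg_apply]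
  refine intervalIntegral.integral_congr fun x _ ↦ ?_
  show G _ = G _
  congr 1
  push_cast
  ring

private theorem cg_unfold (c : ℕ) (hc : 0 < c) (w : ℕ → ℂ) (G : ℝ → ℂ)
    (hG : MeasureTheory.Integrable G) (T : ℤ → ℝ → ℂ)
    (hT : ∀ (q : ℤ) (ρ : Fin c) (x : ℝ),
      T (q * (c : ℤ) + ((ρ : ℕ) : ℤ)) x = w ρ * G (x - ((ρ : ℕ) : ℝ) / (c : ℝ) - (q : ℝ))) :
    ∫ x in (0 : ℝ)..1, ∑' m : ℤ, T m x = (∑ n ∈ Finset.range c, w n) * ∫ x, G x := by
  have : NeZero c := ⟨hc.ne'⟩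
  let σ : Fin c × ℤ ≃ ℤ := (Equiv.prodComm _ _).trans (Int.divModEquiv c).symm
  have hσ : ∀ (ρ : Fin c) (q : ℤ), σ (ρ, q) = q * (c : ℤ) + ((ρ : ℕ) : ℤ) := by
    intro ρ q
    simp [σ, Int.divModEquiv_symm_apply]
  have hTσ : ∀ (ρ : Fin c) (q : ℤ) (x : ℝ),
      T (σ (ρ, q)) x = w ρ * G (x - ((ρ : ℕ) : ℝ) / (c : ℝ) - (q : ℝ)) := by
    intro ρ q x
    rw [hσ, hT]
  have hint0 : ∀ (ρ : Fin c) (q : ℤ), MeasureTheory.Integrable (T (σ (ρ, q))) := by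
    intro ρ q
    have h1 : T (σ (ρ, q)) = fun x ↦ w ρ * G (x - ((ρ : ℕ) : ℝ) / (c : ℝ) - (q : ℝ)) := by
      funext x
      exact hTσ ρ q x
    rw [h1]
    have h2 : MeasureTheory.Integrable (fun x : ℝ ↦ G (x - ((ρ : ℕ) : ℝ) / (c : ℝ))) :=
      hG.comp_sub_right _
    have h3 : MeasureTheory.Integrable
        (fun x : ℝ ↦ G ((x - (q : ℝ)) - ((ρ : ℕ) : ℝ) / (c : ℝ))) := h2.comp_sub_right (q : ℝ)
    have h4 : (fun x : ℝ ↦ G ((x - (q : ℝ)) - ((ρ : ℕ) : ℝ) / (c : ℝ))) =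
        fun x : ℝ ↦ G (x - ((ρ : ℕ) : ℝ) / (c : ℝ) - (q : ℝ)) := by
      funext x
      congr 1
      ring
    rw [h4] at h3
    exact h3.const_mul _
  have hint : ∀ m : ℤ, MeasureTheory.Integrable (T m) := by
    intro m
    have h1 := hint0 (σ.symm m).1 (σ.symm m).2
    rwa [Prod.mk.eta, Equiv.apply_symm_apply] at h1
  have hsum : Summable fun m : ℤ ↦ ∫ x in Set.Ioc (0 : ℝ) 1, ‖T m x‖ := by
    rw [← σ.summable_iff]
    refine (summable_prod_of_nonneg ?_).mpr ⟨?_, Summable.of_finite⟩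
    · intro p
      exact MeasureTheory.integral_nonneg fun x ↦ norm_nonneg _
    · intro ρ
      have h1 := (cg_shift (fun x ↦ ‖G x‖) hG.norm (((ρ : ℕ) : ℝ) / (c : ℝ))).summable.mul_left
        ‖w ρ‖
      refine h1.congr ?_
      intro q
      simp only [Function.comp_apply]
      rw [intervalIntegral.integral_of_le zero_le_one, ← MeasureTheory.integral_const_mul]
      refine MeasureTheory.integral_congr_ae (Filter.Eventually.of_forall fun x ↦ ?_)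
      simp only [hTσ, norm_mul]
  have hs := MeasureTheory.hasSum_integral_of_summable_integral_norm
    (μ := MeasureTheory.volume.restrict (Set.Ioc (0 : ℝ) 1)) (F := T)
    (fun m ↦ (hint m).integrableOn) hsum
  have hs2 := σ.hasSum_iff.mpr hs
  have hf : ∀ ρ : Fin c, HasSum (fun q : ℤ ↦ ((fun m : ℤ ↦ ∫ x in Set.Ioc (0 : ℝ) 1, T m x) ∘ σ)
      (ρ, q)) (w ρ * ∫ x, G x) := by
    intro ρ
    refine ((cg_shift G hG (((ρ : ℕ) : ℝ) / (c : ℝ))).mul_left (w ρ)).congr_fun ?_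
    intro q
    simp only [Function.comp_apply]
    rw [intervalIntegral.integral_of_le zero_le_one, ← MeasureTheory.integral_const_mul]
    refine MeasureTheory.integral_congr_ae (Filter.Eventually.of_forall fun x ↦ ?_)
    simp only [hTσ]
  have h4 := (hs2.prod_fiberwise hf).unique (hasSum_fintype _)
  rw [intervalIntegral.integral_of_le zero_le_one, h4, Finset.sum_range, Finset.sum_mul]

private theorem cg_sqrt (w : ℂ) (hw : 0 < w.re) (c : ℝ) (hc : 0 < c) :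
    (w / (c : ℂ)) ^ (1 / 2 : ℂ) = w ^ (1 / 2 : ℂ) / ((Real.sqrt c : ℝ) : ℂ) := by
  have hw0 : w ≠ 0 := by
    intro h
    rw [h] at hw
    simp at hw
  have hc0 : (c : ℂ) ≠ 0 := by exact_mod_cast hc.ne'
  have h4 : w / (c : ℂ) = ((c⁻¹ : ℝ) : ℂ) * w := by
    push_cast
    field_simp
  rw [Complex.cpow_def_of_ne_zero (div_ne_zero hw0 hc0), h4,
    Complex.log_ofReal_mul (inv_pos.mpr hc) hw0, Complex.cpow_def_of_ne_zero hw0, add_mul,
    Complex.exp_add, div_eq_mul_inv, mul_comm]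
  congr 1
  rw [Real.log_inv, Real.sqrt_eq_rpow, Real.rpow_def_of_pos hc, ← Complex.ofReal_inv,
    ← Real.exp_neg]
  push_cast
  congr 1
  ring

theorem M_zero_zero (γ : SL(2, ℤ)) (c : ℕ) (hc : 0 < c) (hγ : (γ : Mat) 1 0 = (c : ℤ)) (τ : ℍ) :
    M 1 (γ : Mat) τ 0 0 = gq ((γ : Mat) 0 0) c / ((Real.sqrt c : ℝ) : ℂ) *
      (jf (γ : Mat) τ / (2 * Complex.I)) ^ (1 / 2 : ℂ) := by
  have hcR : (0 : ℝ) < (c : ℝ) := by exact_mod_cast hc
  have hcC : (c : ℂ) ≠ 0 := by exact_mod_cast hc.ne'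
  have hdet : (γ : Mat).det = 1 := γ.det_coe
  have hdet0 : 0 < (γ : Mat).det := by rw [hdet]; exact one_pos
  obtain ⟨j, hjdef⟩ : ∃ j, j = jf (γ : Mat) τ := ⟨_, rfl⟩
  have hj0 : j ≠ 0 := by
    rw [hjdef]
    exact jf_ne_zero _ hdet0.ne' τ
  have hjv : j = (c : ℂ) * (τ : ℂ) + (((γ : Mat) 1 1 : ℤ) : ℂ) := by
    rw [hjdef]
    unfold jf
    rw [hγ]
    push_cast
    rfl
  have hjim : j.im = (c : ℝ) * τ.im := by
    rw [hjv]
    simp
  have hjim0 : 0 < j.im := by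
    rw [hjim]
    exact mul_pos hcR τ.im_pos
  have hdetC : (((γ : Mat) 0 0 : ℤ) : ℂ) * (((γ : Mat) 1 1 : ℤ) : ℂ) -
      (((γ : Mat) 0 1 : ℤ) : ℂ) * (c : ℂ) = 1 := by
    rw [Matrix.det_fin_two, hγ] at hdet
    exact_mod_cast hdet
  have hmob : ((mob (γ : Mat) τ : ℍ) : ℂ) =
      (((γ : Mat) 0 0 : ℤ) : ℂ) / (c : ℂ) - 1 / ((c : ℂ) * j) := by
    rw [coe_mob _ hdet0, ← hjdef, div_sub_div _ _ hcC (mul_ne_zero hcC hj0),
      div_eq_div_iff hj0 (mul_ne_zero hcC (mul_ne_zero hcC hj0))]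
    rw [hjv]
    linear_combination ((c : ℂ) * (c : ℂ) * (τ : ℂ) + (c : ℂ) * (((γ : Mat) 1 1 : ℤ) : ℂ)) *
      (-hdetC)
  -- the Gaussian
  obtain ⟨b, hb⟩ : ∃ b : ℂ, b = 2 * (Real.pi : ℂ) * Complex.I * (c : ℂ) / j := ⟨_, rfl⟩
  have hbre : 0 < b.re := by
    have h1 : b = (((2 * Real.pi * (c : ℝ) : ℝ)) : ℂ) * (Complex.I / j) := by
      rw [hb]
      push_cast
      ring
    have h2 : (Complex.I / j).re = j.im / Complex.normSq j := by
      rw [Complex.div_re]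
      simp
    rw [h1, Complex.re_ofReal_mul, h2]
    have h3 : 0 < Complex.normSq j := Complex.normSq_pos.mpr hj0
    have := Real.pi_pos
    positivity
  have hGint : MeasureTheory.Integrable (fun x : ℝ ↦ Complex.exp (-b * (x : ℂ) ^ 2)) :=
    integrable_cexp_neg_mul_sq hbre
  have hGval : ∫ x : ℝ, Complex.exp (-b * (x : ℂ) ^ 2) = ((Real.pi : ℂ) / b) ^ (1 / 2 : ℂ) :=
    integral_gaussian_complex hbre
  have hw : (Real.pi : ℂ) / b = j / (2 * Complex.I) / (((c : ℝ)) : ℂ) := by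
    have hpi : (Real.pi : ℂ) ≠ 0 := by exact_mod_cast Real.pi_ne_zero
    have hI : Complex.I ≠ 0 := Complex.I_ne_zero
    rw [hb, Complex.ofReal_natCast]
    field_simp
  have hwre : 0 < (j / (2 * Complex.I)).re := by
    have h1 : j / (2 * Complex.I) = (((1 / 2 : ℝ)) : ℂ) * (-(Complex.I * j)) := by
      have hI : Complex.I ≠ 0 := Complex.I_ne_zero
      rw [div_eq_iff (mul_ne_zero two_ne_zero hI)]
      push_cast
      linear_combination j * Complex.I_sq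
    rw [h1, Complex.re_ofReal_mul]
    simp
    exact hjim0
  rw [hw, cg_sqrt _ hwre _ hcR] at hGval
  -- the terms
  obtain ⟨T, hTdef⟩ : ∃ T : ℤ → ℝ → ℂ, T = fun (m : ℤ) (x : ℝ) ↦
      ee ((((γ : Mat) 0 0 : ℤ) : ℂ) * (m : ℂ) ^ 2 / (c : ℂ)) *
        Complex.exp (-b * ((x - (m : ℝ) / (c : ℝ) : ℝ) : ℂ) ^ 2) := ⟨_, rfl⟩
  have hT : ∀ (q : ℤ) (ρ : Fin c) (x : ℝ),
      T (q * (c : ℤ) + ((ρ : ℕ) : ℤ)) x =
        (fun n : ℕ ↦ ee ((((γ : Mat) 0 0 : ℤ) : ℂ) * (n : ℂ) ^ 2 / (c : ℂ))) ρ *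
        (fun x : ℝ ↦ Complex.exp (-b * (x : ℂ) ^ 2)) (x - ((ρ : ℕ) : ℝ) / (c : ℝ) - (q : ℝ)) := by
    intro q ρ x
    rw [hTdef]
    simp only
    congr 1
    · rw [← ee_add_int ((((γ : Mat) 0 0 : ℤ) : ℂ) * (((ρ : ℕ) : ℂ)) ^ 2 / (c : ℂ))
        ((γ : Mat) 0 0 * (q * q * (c : ℤ) + 2 * q * ((ρ : ℕ) : ℤ)))]
      congr 1
      push_cast
      field_simp
      ring
    · congr 3
      push_cast
      field_simp
      ring
  have hunf := cg_unfold c hc (fun n : ℕ ↦ ee ((((γ : Mat) 0 0 : ℤ) : ℂ) * (n : ℂ) ^ 2 / (c : ℂ)))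
    (fun x : ℝ ↦ Complex.exp (-b * (x : ℂ) ^ 2)) hGint T hT
  have hM := isM_sl γ τ
  have hthA : ∀ x : ℝ, ∑' m : ℤ, T m x = ∑ s : Fin 2, M 1 (γ : Mat) τ 0 s * th s τ (x : ℂ) := by
    intro x
    rw [← hM 0 (x : ℂ)]
    have h1 : avg 1 τ (thA 1 (γ : Mat) 0 τ) (x : ℂ) = thA 1 (γ : Mat) 0 τ (x : ℂ) := by
      simp [avg, ee_zero]
    rw [h1]
    unfold thA th
    rw [← tsum_mul_left]
    refine tsum_congr fun m ↦ ?_
    rw [← ee_add, hTdef]
    simp only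
    have h2 : Complex.exp (-b * ((x - (m : ℝ) / (c : ℝ) : ℝ) : ℂ) ^ 2) =
        ee (-((c : ℂ) * ((x : ℂ) - (m : ℂ) / (c : ℂ)) ^ 2 / j)) := by
      unfold ee
      rw [hb]
      congr 1
      push_cast
      ring
    rw [h2, ← ee_add, ← hjdef, hmob, hγ]
    congr 1
    simp only [Fin.val_zero, Nat.cast_zero, add_zero, Nat.cast_one, one_mul, Int.cast_natCast]
    field_simp
    ring
  have hI : ∫ x in (0 : ℝ)..1, ∑' m : ℤ, T m x = M 1 (γ : Mat) τ 0 0 := by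
    have h1 : ∀ s : Fin 2, IntervalIntegrable (fun x : ℝ ↦ th s τ (x : ℂ)) MeasureTheory.volume
        0 1 := by
      intro s
      refine Continuous.intervalIntegrable ?_ _ _
      exact (th_differentiable s τ).continuous.comp Complex.continuous_ofReal
    simp_rw [hthA, Fin.sum_univ_two]
    rw [intervalIntegral.integral_add ((h1 0).const_mul _) ((h1 1).const_mul _),
      intervalIntegral.integral_const_mul, intervalIntegral.integral_const_mul, th_int, th_int]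
    simp
  rw [← hI, hunf, hGval, ← hjdef]
  unfold gq
  ring

end MP836e4b.P
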