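/-
MODULE MA2 (size M), board mod836, MP_836e4b_nt, folder Work/MP_836e4b_nt/P. Keep the statements verbatim, helper lemmas private.
Unitarity. M Mᴴ = |j| 1: true for S (M_S: |τ/2| * [[2,0],[0,2]] = |τ| 1), for T^b (j = 1), and the set of γ
with the property for all τ is closed under products (M_mul, jf_mul) and inverses; generators S, T
(SpecialLinearGroup.SL2Z_generators). Then E Eᴴ = |j|⁻¹ 1 in both parities
(E = Mᴴ/|j| or Mᵀ/j; a scalar multiple of a unitary matrix commutes with its adjoint).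
sl_inner: sl = j^{-κ} E h(γτ): the pairing gives |j|^{-2κ-1} times the pairing at γτ and
im(γτ) = im τ/|j|².
-/
import Mathlib
import Pool.Agent.Work.MP_836e4b_nt.P.Defs
import Pool.Agent.Work.MP_836e4b_nt.P.MA1

open UpperHalfPlane Complex
open scoped MatrixGroups ComplexConjugate Matrix

namespace MP836e4b.P

private theorem mb_det (γ : SL(2, ℤ)) : (γ : Mat).det = 1 := γ.det_coe

private theorem mb_pos (γ : SL(2, ℤ)) : 0 < (γ : Mat).det := by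
  rw [mb_det]
  exact one_pos

private theorem mb_S : ((ModularGroup.S : SL(2, ℤ)) : Mat) = mS := by
  rw [ModularGroup.coe_S]
  rfl

private theorem mb_T : ((ModularGroup.T : SL(2, ℤ)) : Mat) = mT 1 := by
  rw [ModularGroup.coe_T]
  rfl

/-- the unitarity property -/
private def UU (γ : SL(2, ℤ)) : Prop :=
  ∀ τ : ℍ, M 1 (γ : Mat) τ * (M 1 (γ : Mat) τ)ᴴ = ((‖jf (γ : Mat) τ‖ : ℝ) : ℂ) • 1

private theorem mb_mul {γ γ' : SL(2, ℤ)} (h : UU γ) (h' : UU γ') : UU (γ * γ') := by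
  intro τ
  rw [Matrix.SpecialLinearGroup.coe_mul, M_mul, Matrix.conjTranspose_mul,
    jf_mul _ _ (mb_pos γ) (mb_pos γ')]
  have e1 : M 1 (γ : Mat) (mob (γ' : Mat) τ) * M 1 (γ' : Mat) τ *
      ((M 1 (γ' : Mat) τ)ᴴ * (M 1 (γ : Mat) (mob (γ' : Mat) τ))ᴴ) =
      M 1 (γ : Mat) (mob (γ' : Mat) τ) * (M 1 (γ' : Mat) τ * (M 1 (γ' : Mat) τ)ᴴ) *
        (M 1 (γ : Mat) (mob (γ' : Mat) τ))ᴴ := by
    simp only [Matrix.mul_assoc]
  rw [e1, h' τ, Matrix.mul_smul, Matrix.mul_one, Matrix.smul_mul, h, smul_smul, norm_mul]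
  congr 1
  push_cast
  ring

private theorem mb_inv {γ : SL(2, ℤ)} (h : UU γ) : UU γ⁻¹ := by
  intro τ'
  have h1 : ((γ⁻¹ : SL(2, ℤ)) : Mat) * (γ : Mat) = 1 := by
    rw [← Matrix.SpecialLinearGroup.coe_mul, inv_mul_cancel, Matrix.SpecialLinearGroup.coe_one]
  have h2 : (γ : Mat) * ((γ⁻¹ : SL(2, ℤ)) : Mat) = 1 := by
    rw [← Matrix.SpecialLinearGroup.coe_mul, mul_inv_cancel, Matrix.SpecialLinearGroup.coe_one]
  obtain ⟨τ, hτ⟩ : ∃ τ : ℍ, mob (γ : Mat) τ = τ' := by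
    refine ⟨mob ((γ⁻¹ : SL(2, ℤ)) : Mat) τ', ?_⟩
    rw [← mob_mul _ _ (mb_pos γ) (mb_pos γ⁻¹), h2, mob_one]
  have hA := M_mul γ⁻¹ γ τ
  rw [h1, M_one, hτ] at hA
  have hj := jf_mul ((γ⁻¹ : SL(2, ℤ)) : Mat) (γ : Mat) (mb_pos γ⁻¹) (mb_pos γ) τ
  rw [h1, jf_one, hτ] at hj
  set A := M 1 ((γ⁻¹ : SL(2, ℤ)) : Mat) τ' with hAd
  set B := M 1 (γ : Mat) τ with hBd
  have hB := h τ
  rw [← hBd] at hB
  set j := jf (γ : Mat) τ with hjd
  set j' := jf ((γ⁻¹ : SL(2, ℤ)) : Mat) τ' with hjd'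
  have hjn : ((‖j'‖ : ℝ) : ℂ) * ((‖j‖ : ℝ) : ℂ) = 1 := by
    rw [← Complex.ofReal_mul, ← norm_mul, ← hj, norm_one, Complex.ofReal_one]
  -- A B = 1 and B Bᴴ = |j|
  have e0 : B * A = 1 := mul_eq_one_comm.mp hA.symm
  have e1 : Bᴴ = ((‖j‖ : ℝ) : ℂ) • A := by
    calc Bᴴ = (A * B) * Bᴴ := by rw [← hA, Matrix.one_mul]
      _ = A * (B * Bᴴ) := by rw [Matrix.mul_assoc]
      _ = ((‖j‖ : ℝ) : ℂ) • A := by rw [hB, Matrix.mul_smul, Matrix.mul_one]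
  have e2 : (A * B)ᴴ = 1 := by rw [← hA, Matrix.conjTranspose_one]
  have e3 : Bᴴ * Aᴴ = 1 := by rw [← Matrix.conjTranspose_mul]; exact e2
  rw [e1, Matrix.smul_mul] at e3
  calc A * Aᴴ = (((‖j'‖ : ℝ) : ℂ) * ((‖j‖ : ℝ) : ℂ)) • (A * Aᴴ) := by rw [hjn, one_smul]
    _ = ((‖j'‖ : ℝ) : ℂ) • 1 := by rw [mul_smul, e3]

private theorem mb_uS : UU ModularGroup.S := by
  intro τ
  rw [mb_S, M_S, Matrix.conjTranspose_smul, Matrix.smul_mul, Matrix.mul_smul, smul_smul]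
  have hj : jf mS τ = (τ : ℂ) := by simp [jf, mS]
  rw [hj]
  have hτ : (τ : ℂ) ≠ 0 := τ.ne_zero
  have hw : (τ : ℂ) / (2 * Complex.I) ≠ 0 := div_ne_zero hτ (mul_ne_zero two_ne_zero Complex.I_ne_zero)
  set c : ℂ := ((τ : ℂ) / (2 * Complex.I)) ^ (1 / 2 : ℂ) with hc
  have hcc : c * star c = ((‖(τ : ℂ)‖ : ℝ) : ℂ) / 2 := by
    have h1 : c * star c = ((‖c‖ ^ 2 : ℝ) : ℂ) := by
      rw [Complex.star_def, Complex.mul_conj, Complex.normSq_eq_norm_sq]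
    have h2 : c ^ 2 = (τ : ℂ) / (2 * Complex.I) := by
      rw [hc, ← Complex.cpow_mul_nat]
      norm_num
    have h3 : ‖c‖ ^ 2 = ‖(τ : ℂ)‖ / 2 := by
      rw [← norm_pow, h2, norm_div, norm_mul, Complex.norm_I, mul_one, Complex.norm_two]
    rw [h1, h3]
    push_cast
    ring
  rw [hcc]
  have hm : (!![1, 1; 1, -1] : Matrix (Fin 2) (Fin 2) ℂ) *
      (!![1, 1; 1, -1] : Matrix (Fin 2) (Fin 2) ℂ)ᴴ = (2 : ℂ) • 1 := by
    ext i j
    fin_cases i <;> fin_cases j <;>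
      simp [Matrix.mul_apply, Fin.sum_univ_two, Matrix.conjTranspose_apply] <;> norm_num
  rw [hm, smul_smul]
  congr 1
  ring

private theorem mb_uT : UU ModularGroup.T := by
  intro τ
  rw [mb_T, M_T]
  have hj : jf (mT 1) τ = 1 := by simp [jf, mT]
  rw [hj, norm_one, Complex.ofReal_one, one_smul]
  have h1 : ee (((1 : ℤ) : ℂ) / 4) * conj (ee (((1 : ℤ) : ℂ) / 4)) = 1 := by
    rw [Complex.mul_conj, Complex.normSq_eq_norm_sq, norm_ee]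
    have : ((((1 : ℤ) : ℂ) / 4)).im = 0 := by
      simp
    rw [this]
    simp
  ext i j
  fin_cases i <;> fin_cases j
  · simp [Matrix.mul_apply, Fin.sum_univ_two, Matrix.conjTranspose_apply]
  · simp [Matrix.mul_apply, Fin.sum_univ_two, Matrix.conjTranspose_apply]
  · simp [Matrix.mul_apply, Fin.sum_univ_two, Matrix.conjTranspose_apply]
  · simpa [Matrix.mul_apply, Fin.sum_univ_two, Matrix.conjTranspose_apply] using h1

theorem M_unit (γ : SL(2, ℤ)) (τ : ℍ) :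
    M 1 (γ : Mat) τ * (M 1 (γ : Mat) τ)ᴴ = ((‖jf (γ : Mat) τ‖ : ℝ) : ℂ) • 1 := by
  have hγ : γ ∈ Subgroup.closure {ModularGroup.S, ModularGroup.T} := by
    rw [SpecialLinearGroup.SL2Z_generators]
    exact Subgroup.mem_top γ
  have key : UU γ := by
    induction hγ using Subgroup.closure_induction with
    | mem x hx =>
      rcases hx with rfl | hx
      · exact mb_uS
      · rw [Set.mem_singleton_iff] at hx
        rw [hx]
        exact mb_uT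
    | one =>
      intro τ
      rw [Matrix.SpecialLinearGroup.coe_one, M_one, jf_one]
      simp
    | mul x y _ _ hx hy => exact mb_mul hx hy
    | inv x _ hx => exact mb_inv hx
  exact key τ

theorem E_unit (κ : ℕ) (γ : SL(2, ℤ)) (τ : ℍ) :
    (E κ 1 (γ : Mat) τ)ᴴ * E κ 1 (γ : Mat) τ = ((‖jf (γ : Mat) τ‖ : ℝ) : ℂ)⁻¹ • 1 := by
  have hj : jf (γ : Mat) τ ≠ 0 := jf_ne_zero _ (mb_pos γ).ne' τ
  have hn : ((‖jf (γ : Mat) τ‖ : ℝ) : ℂ) ≠ 0 := by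
    exact_mod_cast (norm_pos_iff.mpr hj).ne'
  unfold E
  split_ifs with hk
  · rw [Matrix.conjTranspose_smul, Matrix.conjTranspose_conjTranspose, Matrix.smul_mul,
      Matrix.mul_smul, M_unit, smul_smul, smul_smul]
    congr 1
    rw [star_inv₀, Complex.star_def, Complex.conj_ofReal]
    field_simp
  · rw [Matrix.conjTranspose_smul, Matrix.smul_mul, Matrix.mul_smul, smul_smul]
    have e1 : ((M 1 (γ : Mat) τ)ᵀ)ᴴ * (M 1 (γ : Mat) τ)ᵀ =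
        (M 1 (γ : Mat) τ * (M 1 (γ : Mat) τ)ᴴ)ᵀ := by
      rw [Matrix.transpose_mul]
      rfl
    rw [e1, M_unit, Matrix.transpose_smul, Matrix.transpose_one, smul_smul]
    congr 1
    have h1 : star (jf (γ : Mat) τ)⁻¹ * (jf (γ : Mat) τ)⁻¹ =
        (((‖jf (γ : Mat) τ‖ : ℝ) : ℂ) ^ 2)⁻¹ := by
      rw [star_inv₀, ← mul_inv, Complex.star_def, mul_comm, Complex.mul_conj,
        Complex.normSq_eq_norm_sq]
      push_cast
      rfl
    rw [h1]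
    field_simp

/-- the pairing of two images -/
private theorem mb_pair (E' : Matrix (Fin 2) (Fin 2) ℂ) (c : ℂ) (hE : E'ᴴ * E' = c • 1)
    (u v : Fin 2 → ℂ) :
    ∑ r : Fin 2, (E' *ᵥ u) r * conj ((E' *ᵥ v) r) = c * ∑ r : Fin 2, u r * conj (v r) := by
  have h00 := congrFun (congrFun hE 0) 0
  have h01 := congrFun (congrFun hE 0) 1
  have h10 := congrFun (congrFun hE 1) 0
  have h11 := congrFun (congrFun hE 1) 1
  simp only [Matrix.mul_apply, Fin.sum_univ_two, Matrix.conjTranspose_apply, Matrix.smul_apply,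
    Matrix.one_apply_eq, smul_eq_mul, mul_one, Complex.star_def] at h00 h11
  simp only [Matrix.mul_apply, Fin.sum_univ_two, Matrix.conjTranspose_apply, Matrix.smul_apply,
    smul_eq_mul, Complex.star_def] at h01 h10
  rw [Matrix.one_apply_ne (by decide)] at h01 h10
  simp only [Fin.sum_univ_two, Matrix.mulVec, dotProduct, map_add, map_mul]
  linear_combination (u 0 * conj (v 0)) * h00 + (u 1 * conj (v 0)) * h01 +
    (u 0 * conj (v 1)) * h10 + (u 1 * conj (v 1)) * h11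

theorem sl_inner (κ : ℕ) (γ : SL(2, ℤ)) (g h : VF) (τ : ℍ) :
    (∑ r : Fin 2, sl κ 1 (γ : Mat) g τ r * conj (sl κ 1 (γ : Mat) h τ r)) *
        ((τ.im ^ ((κ : ℝ) + 1 / 2) : ℝ) : ℂ) =
      (∑ r : Fin 2, g (mob (γ : Mat) τ) r * conj (h (mob (γ : Mat) τ) r)) *
        (((mob (γ : Mat) τ).im ^ ((κ : ℝ) + 1 / 2) : ℝ) : ℂ) := by
  have hj : jf (γ : Mat) τ ≠ 0 := jf_ne_zero _ (mb_pos γ).ne' τ
  have hn0 : 0 < ‖jf (γ : Mat) τ‖ := norm_pos_iff.mpr hj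
  have hp := mb_pair (E κ 1 (γ : Mat) τ) _ (E_unit κ γ τ) (g (mob (γ : Mat) τ))
    (h (mob (γ : Mat) τ))
  have h1 : ∀ r : Fin 2, sl κ 1 (γ : Mat) g τ r * conj (sl κ 1 (γ : Mat) h τ r) =
      (((‖jf (γ : Mat) τ‖ ^ (2 * κ) : ℝ) : ℂ))⁻¹ *
        ((E κ 1 (γ : Mat) τ *ᵥ g (mob (γ : Mat) τ)) r *
          conj ((E κ 1 (γ : Mat) τ *ᵥ h (mob (γ : Mat) τ)) r)) := by
    intro r
    have h2 : (((‖jf (γ : Mat) τ‖ ^ (2 * κ) : ℝ) : ℂ)) =
        (jf (γ : Mat) τ) ^ κ * conj ((jf (γ : Mat) τ) ^ κ) := by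
      rw [Complex.mul_conj, Complex.normSq_eq_norm_sq, norm_pow, ← pow_mul, mul_comm κ 2]
    rw [h2, mul_inv]
    simp only [sl, Pi.smul_apply, smul_eq_mul, map_mul, map_inv₀]
    ring
  simp_rw [h1]
  rw [← Finset.mul_sum, hp, im_mob _ (mb_pos γ), mb_det]
  have h3 : (((1 : ℤ) : ℝ) * τ.im / ‖jf (γ : Mat) τ‖ ^ 2) ^ ((κ : ℝ) + 1 / 2) =
      τ.im ^ ((κ : ℝ) + 1 / 2) * (‖jf (γ : Mat) τ‖ ^ (2 * κ))⁻¹ * (‖jf (γ : Mat) τ‖)⁻¹ := by
    rw [Int.cast_one, one_mul, Real.div_rpow τ.im_pos.le (by positivity), div_eq_mul_inv,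
      mul_assoc]
    congr 1
    rw [← mul_inv]
    congr 1
    rw [← Real.rpow_natCast, ← Real.rpow_mul hn0.le]
    have h4 : ((2 : ℕ) : ℝ) * ((κ : ℝ) + 1 / 2) = ((2 * κ : ℕ) : ℝ) + 1 := by
      push_cast
      ring
    rw [h4, Real.rpow_add hn0, Real.rpow_one, Real.rpow_natCast]
  rw [h3]
  push_cast
  ring

theorem sl_norm (κ : ℕ) (γ : SL(2, ℤ)) (h : VF) (τ : ℍ) :
    (∑ r : Fin 2, ‖sl κ 1 (γ : Mat) h τ r‖ ^ 2) * τ.im ^ ((κ : ℝ) + 1 / 2) =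
      (∑ r : Fin 2, ‖h (mob (γ : Mat) τ) r‖ ^ 2) * (mob (γ : Mat) τ).im ^ ((κ : ℝ) + 1 / 2) := by
  have h0 := sl_inner κ γ h h τ
  have h1 : ∀ z : ℂ, z * conj z = ((‖z‖ ^ 2 : ℝ) : ℂ) := by
    intro z
    rw [Complex.mul_conj, Complex.normSq_eq_norm_sq]
  simp_rw [h1] at h0
  exact_mod_cast h0

end MP836e4b.P
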