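/-
MODULE LwH (size M), board mod836, MP_836e4b_nt, folder Work/MP_836e4b_nt/P. Keep the statements verbatim, helper lemmas private.
M 1 γ τ = (cτ+d)^(1/2) U with U independent of τ (principal branch). True for S ((τ/2i)^(1/2) = τ^(1/2) (1/(2i))^(1/2)
because arg τ in (0,π)) and T^b (j = 1). Products: M_mul; ρ(τ) = j(γ,γ'τ)^(1/2) j(γ',τ)^(1/2)/j(γγ',τ)^(1/2) has
square 1 (jf_mul) and is continuous on the connected space ℍ ((cτ+d)^(1/2) is continuous: for c ≠ 0 cτ+d is never a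
nonpositive real, for c = 0 it is constant), so it is constant. Inverses similarly (or S⁻¹ = S³, T⁻¹ = T^(-1)).
Generators: SpecialLinearGroup.SL2Z_generators.
-/
import Mathlib
import Pool.Agent.Work.MP_836e4b_nt.P.Defs
import Pool.Agent.Work.MP_836e4b_nt.P.MA1
import Pool.Agent.Work.MP_836e4b_nt.P.MA2

open UpperHalfPlane Complex
open scoped MatrixGroups ComplexConjugate Matrix

namespace MP836e4b.P

private def Br (γ : SL(2, ℤ)) : Prop :=
  ∃ U : Matrix (Fin 2) (Fin 2) ℂ, ∀ τ : ℍ, M 1 (γ : Mat) τ = (jf (γ : Mat) τ) ^ (1 / 2 : ℂ) • U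

private theorem half_sq (x : ℂ) : (x ^ (1 / 2 : ℂ)) ^ 2 = x := by
  have h := Complex.cpow_nat_inv_pow x (n := 2) two_ne_zero
  rw [show (1 / 2 : ℂ) = (((2 : ℕ) : ℂ))⁻¹ by norm_num]
  exact h

private theorem half_ne (x : ℂ) (hx : x ≠ 0) : x ^ (1 / 2 : ℂ) ≠ 0 := by
  intro h
  apply hx
  rw [← half_sq x, h]
  norm_num

private theorem det_pos (γ : SL(2, ℤ)) : 0 < (γ : Mat).det := by
  rw [Matrix.SpecialLinearGroup.det_coe]
  exact one_pos

/-- a continuous square root of a constant is constant -/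
private theorem const_of_sq (f : ℍ → ℂ) (hf : Continuous f) (c : ℂ) (hc : c ≠ 0)
    (h : ∀ τ, f τ ^ 2 = c) : ∃ a : ℂ, ∀ τ, f τ = a := by
  have hne : f UpperHalfPlane.I ≠ 0 := by
    intro h0
    apply hc
    rw [← h UpperHalfPlane.I, h0]
    norm_num
  have hpre : IsPreconnected (Set.univ : Set ℍ) := isPreconnected_univ
  have := hpre.eq_or_eq_neg_of_sq_eq (f := f) (g := fun _ => f UpperHalfPlane.I) hf.continuousOn
    continuousOn_const (fun τ _ => by simp [h]) (fun _ => hne)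
  rcases this with h1 | h1
  · exact ⟨f UpperHalfPlane.I, fun τ => h1 (Set.mem_univ τ)⟩
  · exact ⟨-f UpperHalfPlane.I, fun τ => h1 (Set.mem_univ τ)⟩

private theorem jf_cont (A : Mat) : Continuous fun τ : ℍ => jf A τ := by
  unfold jf
  exact (continuous_const.mul UpperHalfPlane.continuous_coe).add continuous_const

/-- continuity of the square root of the factor of automorphy along a continuous function -/
private theorem half_cont (A : Mat) (g : ℍ → ℍ) (hg : Continuous fun τ : ℍ => jf A (g τ)) :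
    Continuous fun τ : ℍ => (jf A (g τ)) ^ (1 / 2 : ℂ) := by
  by_cases hc : A 1 0 = 0
  · have : (fun τ : ℍ => (jf A (g τ)) ^ (1 / 2 : ℂ)) = fun _ => ((A 1 1 : ℂ)) ^ (1 / 2 : ℂ) := by
      funext τ
      simp [jf, hc]
    rw [this]
    exact continuous_const
  · refine continuous_iff_continuousAt.2 fun τ => ?_
    refine ContinuousAt.cpow hg.continuousAt continuousAt_const ?_
    rw [Complex.mem_slitPlane_iff]
    right
    unfold jf
    have h1 : (0 : ℝ) < ((g τ : ℍ) : ℂ).im := (g τ).im_pos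
    simp only [Complex.add_im, Complex.mul_im, Complex.intCast_re, Complex.intCast_im, zero_mul,
      add_zero]
    have h2 : ((A 1 0 : ℤ) : ℝ) ≠ 0 := by exact_mod_cast hc
    exact mul_ne_zero h2 h1.ne'

private theorem br_mul (γ γ' : SL(2, ℤ)) (h : Br γ) (h' : Br γ') : Br (γ * γ') := by
  obtain ⟨U, hU⟩ := h
  obtain ⟨U', hU'⟩ := h'
  have hj : ∀ τ, jf ((γ : Mat) * (γ' : Mat)) τ = jf (γ : Mat) (mob (γ' : Mat) τ) * jf (γ' : Mat) τ :=
    fun τ => jf_mul _ _ (det_pos γ) (det_pos γ') τ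
  have hj' : ∀ τ, jf (γ' : Mat) τ ≠ 0 := fun τ => jf_ne_zero _ (det_pos γ').ne' τ
  have hjj : ∀ τ, jf ((γ : Mat) * (γ' : Mat)) τ ≠ 0 := by
    intro τ
    rw [hj]
    exact mul_ne_zero (jf_ne_zero _ (det_pos γ).ne' _) (hj' τ)
  have hc1 : Continuous fun τ : ℍ => jf (γ : Mat) (mob (γ' : Mat) τ) := by
    have : (fun τ : ℍ => jf (γ : Mat) (mob (γ' : Mat) τ)) =
        fun τ : ℍ => jf ((γ : Mat) * (γ' : Mat)) τ / jf (γ' : Mat) τ := by
      funext τ
      rw [hj, mul_div_assoc, div_self (hj' τ), mul_one]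
    rw [this]
    exact (jf_cont _).div (jf_cont _) hj'
  obtain ⟨a, ha⟩ := const_of_sq
    (fun τ => (jf (γ : Mat) (mob (γ' : Mat) τ)) ^ (1 / 2 : ℂ) * (jf (γ' : Mat) τ) ^ (1 / 2 : ℂ) /
      (jf ((γ : Mat) * (γ' : Mat)) τ) ^ (1 / 2 : ℂ))
    (((half_cont _ _ hc1).mul (half_cont _ id (jf_cont _))).div (half_cont _ id (jf_cont _))
      fun τ => half_ne _ (hjj τ)) 1 one_ne_zero
    (fun τ => by
      rw [div_pow, mul_pow, half_sq, half_sq, half_sq, ← hj, div_self (hjj τ)])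
  refine ⟨a • (U * U'), fun τ => ?_⟩
  rw [Matrix.SpecialLinearGroup.coe_mul, M_mul, hU, hU', ← ha τ, smul_mul_smul_comm, smul_smul]
  congr 1
  rw [mul_div_cancel₀ _ (half_ne _ (hjj τ))]

private theorem br_S : Br ModularGroup.S := by
  have hj : ∀ τ, jf mS τ = (τ : ℂ) := fun τ => by simp [jf, mS]
  have hcoe : ((ModularGroup.S : SL(2, ℤ)) : Mat) = mS := by
    rw [ModularGroup.coe_S]
    rfl
  have hI : (2 * Complex.I : ℂ) ≠ 0 := mul_ne_zero two_ne_zero Complex.I_ne_zero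
  have hc1 : Continuous fun τ : ℍ => ((τ : ℂ) / (2 * Complex.I)) ^ (1 / 2 : ℂ) := by
    refine continuous_iff_continuousAt.2 fun τ => ?_
    refine ContinuousAt.cpow (UpperHalfPlane.continuous_coe.div_const _).continuousAt
      continuousAt_const ?_
    rw [Complex.mem_slitPlane_iff]
    left
    have h1 : (0 : ℝ) < (τ : ℂ).im := τ.im_pos
    have e : (τ : ℂ) / (2 * Complex.I) = -Complex.I * (τ : ℂ) / 2 := by
      rw [div_eq_div_iff hI two_ne_zero]
      linear_combination (2 * (τ : ℂ)) * Complex.I_sq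
    rw [e]
    simp only [neg_mul, Complex.div_ofNat_re, Complex.neg_re, Complex.mul_re, Complex.I_re,
      zero_mul, Complex.I_im, one_mul, zero_sub, neg_neg]
    exact half_pos h1
  obtain ⟨a, ha⟩ := const_of_sq
    (fun τ => ((τ : ℂ) / (2 * Complex.I)) ^ (1 / 2 : ℂ) / (jf mS τ) ^ (1 / 2 : ℂ))
    (hc1.div (half_cont _ id (jf_cont _)) fun τ => half_ne _ (by
      rw [hj]
      exact τ.ne_zero)) (2 * Complex.I)⁻¹ (inv_ne_zero hI)
    (fun τ => by
      rw [div_pow, half_sq, half_sq, hj, div_div, mul_comm, ← div_div, div_self τ.ne_zero, one_div])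
  refine ⟨a • !![1, 1; 1, -1], fun τ => ?_⟩
  rw [hcoe, M_S, ← ha τ, smul_smul]
  congr 1
  have hne := half_ne (jf mS τ) (by
      rw [hj]
      exact τ.ne_zero)
  rw [mul_div_cancel₀ _ hne]

private theorem br_T (γ : SL(2, ℤ)) (b : ℤ) (h : (γ : Mat) = mT b) : Br γ := by
  have hj : ∀ τ, jf (mT b) τ = 1 := fun τ => by simp [jf, mT]
  refine ⟨!![1, 0; 0, ee ((b : ℂ) / 4)], fun τ => ?_⟩
  rw [h, M_T, hj, Complex.one_cpow, one_smul]

theorem M_branch (γ : SL(2, ℤ)) :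
    ∃ U : Matrix (Fin 2) (Fin 2) ℂ, ∀ τ : ℍ, M 1 (γ : Mat) τ = (jf (γ : Mat) τ) ^ (1 / 2 : ℂ) • U := by
  have hγ : γ ∈ Subgroup.closure {ModularGroup.S, ModularGroup.T} := by
    rw [SpecialLinearGroup.SL2Z_generators]
    exact Subgroup.mem_top γ
  have hS := br_S
  have hT : Br ModularGroup.T := br_T _ 1 (by
    rw [ModularGroup.coe_T]
    rfl)
  have hTi : Br ModularGroup.T⁻¹ := br_T _ (-1) (by
    rw [ModularGroup.coe_T_inv]
    rfl)
  have hSi : Br ModularGroup.S⁻¹ := by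
    have e : (ModularGroup.S)⁻¹ = ModularGroup.S * ModularGroup.S * ModularGroup.S := by
      rw [inv_eq_iff_mul_eq_one]
      ext i j
      fin_cases i <;> fin_cases j <;>
        simp [ModularGroup.coe_S, Matrix.mul_apply, Fin.sum_univ_two]
    rw [e]
    exact br_mul _ _ (br_mul _ _ hS hS) hS
  show Br γ
  induction hγ using Subgroup.closure_induction_right with
  | one =>
    refine br_T _ 0 ?_
    rw [Matrix.SpecialLinearGroup.coe_one]
    ext i j
    fin_cases i <;> fin_cases j <;> simp [mT]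
  | mul_right x y hy ih ih2 =>
    rcases ih with rfl | rfl
    · exact br_mul _ _ ih2 hS
    · exact br_mul _ _ ih2 hT
  | mul_inv_cancel x y hy ih ih2 =>
    rcases ih with rfl | rfl
    · exact br_mul _ _ ih2 hSi
    · exact br_mul _ _ ih2 hTi

theorem E_branch (κ : ℕ) (γ : SL(2, ℤ)) :
    ∃ U : Matrix (Fin 2) (Fin 2) ℂ, ∀ τ : ℍ,
      E κ 1 (γ : Mat) τ = ((jf (γ : Mat) τ) ^ (1 / 2 : ℂ))⁻¹ • U := by
  obtain ⟨U, hU⟩ := M_branch γ
  by_cases hκ : Even κ
  · refine ⟨Uᴴ, fun τ => ?_⟩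
    have hne := half_ne _ (jf_ne_zero _ (det_pos γ).ne' τ)
    unfold E
    rw [if_pos hκ, hU, Matrix.conjTranspose_smul, smul_smul]
    congr 1
    have h1 : ((‖jf (γ : Mat) τ‖ : ℝ) : ℂ) =
        (jf (γ : Mat) τ) ^ (1 / 2 : ℂ) * conj ((jf (γ : Mat) τ) ^ (1 / 2 : ℂ)) := by
      rw [Complex.mul_conj, Complex.normSq_eq_norm_sq, ← norm_pow, half_sq]
    rw [h1, mul_inv, mul_assoc]
    have h2 : conj ((jf (γ : Mat) τ) ^ (1 / 2 : ℂ)) ≠ 0 := by
      rw [Ne, map_eq_zero]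
      exact hne
    have h3 : star ((jf (γ : Mat) τ) ^ (1 / 2 : ℂ)) = conj ((jf (γ : Mat) τ) ^ (1 / 2 : ℂ)) := rfl
    rw [h3, inv_mul_cancel₀ h2, mul_one]
  · refine ⟨Uᵀ, fun τ => ?_⟩
    have hne := half_ne _ (jf_ne_zero _ (det_pos γ).ne' τ)
    unfold E
    rw [if_neg hκ, hU, Matrix.transpose_smul, smul_smul]
    congr 1
    rw [inv_mul_eq_div, div_eq_iff (jf_ne_zero _ (det_pos γ).ne' τ), eq_inv_mul_iff_mul_eq₀ hne,
      ← pow_two, half_sq]

end MP836e4b.P
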