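/-
MODULE Hei (size M), board mod836, MP_836e4b_nt, folder Work/MP_836e4b_nt/P. Keep the statements verbatim, helper lemmas private.
Half-integral translations. Put f|[x,y](z) = e(x²τ/4 + x z + xy/4) f(z + (xτ+y)/2). Then th r τ |[x,y] =
e(xy/4 + ry/2) th (r+x) τ, i.e. ∑_s rho x y r s th s τ (n = r mod 2: e(ny/2) = e(ry/2), n -> n+x).
Relation with γ = (a,b;c,d): with (f⋆γ)(z) = e(-cz²/j) f(z/j) (f at γτ): (f⋆γ)|[x,y] = (f|[x',y'])⋆γ, where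
x' = xd - yc, y' = ya - xb: (xτ+y)/j = x'γτ + y', and exactly (λ = x/2, μ = y/2, λ' = x'/2, μ' = y'/2)
λ²τ + 2λz + λμ - c((z+λτ+μ)² - z²)/j = λ'²γτ + 2λ'z/j + λ'μ' (multiply by j; use ad - bc = 1).
Apply to f = th r (γτ), f⋆γ = ∑ M_rs th s τ: M rho(x,y) = rho(x',y') M by uniqueness (th_indep).
-/
import Mathlib
import Pool.Agent.Work.MP_836e4b_nt.P.Defs
import Pool.Agent.Work.MP_836e4b_nt.P.MA1

open UpperHalfPlane Complex
open scoped MatrixGroups ComplexConjugate Matrix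

namespace MP836e4b.P

/-- The matrix of the translation by `(x/2, y/2)`. -/
noncomputable def rho (x y : ℤ) : Matrix (Fin 2) (Fin 2) ℂ := fun r s ↦
  if (((s : ℕ) : ℤ) - ((r : ℕ) : ℤ) - x) % 2 = 0 then
    ee ((x : ℂ) * (y : ℂ) / 4 + ((r : ℕ) : ℂ) * (y : ℂ) / 2) else 0

private theorem hei_shift_aux (r s : Fin 2) (x y : ℤ) (τ : ℍ) (z : ℂ)
    (h : (((s : ℕ) : ℤ) - ((r : ℕ) : ℤ) - x) % 2 = 0) :
    ee ((x : ℂ) ^ 2 * (τ : ℂ) / 4 + (x : ℂ) * z + (x : ℂ) * (y : ℂ) / 4) *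
      th r τ (z + ((x : ℂ) * (τ : ℂ) + (y : ℂ)) / 2) =
    ee ((x : ℂ) * (y : ℂ) / 4 + ((r : ℕ) : ℂ) * (y : ℂ) / 2) * th s τ z := by
  obtain ⟨k, hk⟩ : ∃ k : ℤ, ((s : ℕ) : ℤ) - ((r : ℕ) : ℤ) - x = 2 * k :=
    Int.dvd_of_emod_eq_zero h
  have hk' : ((s : ℕ) : ℂ) = ((r : ℕ) : ℂ) + (x : ℂ) + 2 * (k : ℂ) := by
    have h2 : (((s : ℕ) : ℤ) : ℂ) - (((r : ℕ) : ℤ) : ℂ) - (x : ℂ) = 2 * (k : ℂ) := by
      exact_mod_cast congrArg (Int.cast : ℤ → ℂ) hk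
    push_cast at h2
    linear_combination h2
  unfold th
  rw [← tsum_mul_left, ← tsum_mul_left, ← (Equiv.subRight k).tsum_eq (fun m : ℤ ↦
    ee ((x : ℂ) * (y : ℂ) / 4 + ((r : ℕ) : ℂ) * (y : ℂ) / 2) *
      ee ((2 * (m : ℂ) + ((s : ℕ) : ℂ)) ^ 2 * (τ : ℂ) / 4 +
        (2 * (m : ℂ) + ((s : ℕ) : ℂ)) * z))]
  refine tsum_congr fun m ↦ ?_
  rw [← ee_add, ← ee_add, ← ee_add_int ((x : ℂ) * (y : ℂ) / 4 + ((r : ℕ) : ℂ) * (y : ℂ) / 2 + _)
    (m * y)]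
  congr 1
  have h1 : ((Equiv.subRight k) m : ℤ) = m - k := rfl
  rw [h1, hk']
  push_cast
  ring

private theorem hei_shift (r : Fin 2) (x y : ℤ) (τ : ℍ) (z : ℂ) :
    ee ((x : ℂ) ^ 2 * (τ : ℂ) / 4 + (x : ℂ) * z + (x : ℂ) * (y : ℂ) / 4) *
      th r τ (z + ((x : ℂ) * (τ : ℂ) + (y : ℂ)) / 2) = ∑ s, rho x y r s * th s τ z := by
  rw [Fin.sum_univ_two]
  unfold rho
  by_cases h : ((((0 : Fin 2) : ℕ) : ℤ) - ((r : ℕ) : ℤ) - x) % 2 = 0
  · have h' : ¬ ((((1 : Fin 2) : ℕ) : ℤ) - ((r : ℕ) : ℤ) - x) % 2 = 0 := by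
      have e0 : (((0 : Fin 2) : ℕ) : ℤ) = 0 := rfl
      have e1 : (((1 : Fin 2) : ℕ) : ℤ) = 1 := rfl
      omega
    rw [if_pos h, if_neg h', zero_mul, add_zero]
    exact hei_shift_aux r 0 x y τ z h
  · have h' : ((((1 : Fin 2) : ℕ) : ℤ) - ((r : ℕ) : ℤ) - x) % 2 = 0 := by
      have e0 : (((0 : Fin 2) : ℕ) : ℤ) = 0 := rfl
      have e1 : (((1 : Fin 2) : ℕ) : ℤ) = 1 := rfl
      omega
    rw [if_neg h, if_pos h', zero_mul, zero_add]
    exact hei_shift_aux r 1 x y τ z h'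

private theorem hei_unique (τ : ℍ) {m m' : Matrix (Fin 2) (Fin 2) ℂ}
    (h : ∀ r z, ∑ s, m r s * th s τ z = ∑ s, m' r s * th s τ z) : m = m' := by
  have key : ∀ r : Fin 2, m r 0 - m' r 0 = 0 ∧ m r 1 - m' r 1 = 0 := by
    intro r
    apply th_indep τ
    intro z
    have h1 := h r z
    rw [Fin.sum_univ_two, Fin.sum_univ_two] at h1
    linear_combination h1
  ext r s
  obtain ⟨h0, h1⟩ := key r
  fin_cases s
  · exact sub_eq_zero.1 h0
  · exact sub_eq_zero.1 h1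

private theorem hei_exp (x y x' y' c j u t z : ℂ) (hj : j ≠ 0)
    (h1 : x * j - c * (x * t + y) = x') (h2 : x' * u + y' = (x * t + y) / j) :
    x ^ 2 * t / 4 + x * z + x * y / 4 + -(c * (z + (x * t + y) / 2) ^ 2 / j) =
      -(c * z ^ 2 / j) + (x' ^ 2 * u / 4 + x' * (z / j) + x' * y' / 4) := by
  have e1 : x' ^ 2 * u / 4 + x' * y' / 4 = x' * ((x * t + y) / j) / 4 := by
    rw [← h2]
    ring
  have e2 : x' ^ 2 * u / 4 + x' * (z / j) + x' * y' / 4 =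
      x' * ((x * t + y) / j) / 4 + x' * (z / j) := by
    linear_combination e1
  rw [e2, ← h1]
  field_simp
  ring

private theorem hei_avg (τ : ℍ) (f : ℂ → ℂ) (z : ℂ) : avg 1 τ f z = f z := by
  unfold avg
  simp [ee_zero]

theorem M_heis (γ : SL(2, ℤ)) (τ : ℍ) (x y : ℤ) :
    M 1 (γ : Mat) τ * rho x y =
      rho (x * (γ : Mat) 1 1 - y * (γ : Mat) 1 0) (y * (γ : Mat) 0 0 - x * (γ : Mat) 0 1) *
        M 1 (γ : Mat) τ := by
  set A : Mat := (γ : Mat) with hA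
  have hdet : A.det = 1 := γ.det_coe
  have hpos : 0 < A.det := by rw [hdet]; exact one_pos
  have hj : jf A τ ≠ 0 := jf_ne_zero A hpos.ne' τ
  set a : ℤ := A 0 0 with ha
  set b : ℤ := A 0 1 with hb
  set c : ℤ := A 1 0 with hc
  set d : ℤ := A 1 1 with hd
  have had : a * d - b * c = 1 := by
    have := hdet
    rw [Matrix.det_fin_two] at this
    exact this
  have hadC : (a : ℂ) * (d : ℂ) - (b : ℂ) * (c : ℂ) = 1 := by exact_mod_cast had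
  have hjd : jf A τ = (c : ℂ) * (τ : ℂ) + (d : ℂ) := rfl
  have hu : ((mob A τ : ℍ) : ℂ) = ((a : ℂ) * (τ : ℂ) + (b : ℂ)) / jf A τ := coe_mob A hpos τ
  set m := M 1 A τ with hm
  have K : ∀ r w, ee (-((c : ℂ) * w ^ 2 / jf A τ)) * th r (mob A τ) (w / jf A τ) =
      ∑ s, m r s * th s τ w := by
    intro r w
    have h1 := isM_sl γ τ r w
    rw [hei_avg] at h1
    rw [hm, ← h1]
    unfold thA
    simp only [Nat.cast_one, one_mul]
    rfl
  set x' : ℤ := x * d - y * c with hx'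
  set y' : ℤ := y * a - x * b with hy'
  have hx'C : (x' : ℂ) = (x : ℂ) * d - y * c := by rw [hx']; push_cast; ring
  have hy'C : (y' : ℂ) = (y : ℂ) * a - x * b := by rw [hy']; push_cast; ring
  have e1 : (x : ℂ) * jf A τ - (c : ℂ) * ((x : ℂ) * (τ : ℂ) + (y : ℂ)) = (x' : ℂ) := by
    rw [hjd, hx'C]
    ring
  have e2 : (x' : ℂ) * ((mob A τ : ℍ) : ℂ) + (y' : ℂ) =
      ((x : ℂ) * (τ : ℂ) + (y : ℂ)) / jf A τ := by
    rw [hu, eq_div_iff hj, add_mul, mul_assoc, div_mul_cancel₀ _ hj, hjd, hx'C, hy'C]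
    linear_combination ((x : ℂ) * (τ : ℂ) + (y : ℂ)) * hadC
  refine hei_unique τ fun r z ↦ ?_
  have L : ∑ s, (m * rho x y) r s * th s τ z =
      ee ((x : ℂ) ^ 2 * (τ : ℂ) / 4 + (x : ℂ) * z + (x : ℂ) * (y : ℂ) / 4) *
        (ee (-((c : ℂ) * (z + ((x : ℂ) * (τ : ℂ) + (y : ℂ)) / 2) ^ 2 / jf A τ)) *
          th r (mob A τ) ((z + ((x : ℂ) * (τ : ℂ) + (y : ℂ)) / 2) / jf A τ)) := by
    rw [K, Finset.mul_sum]
    have : ∀ s, (m * rho x y) r s * th s τ z = ∑ t, m r t * (rho x y t s * th s τ z) := by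
      intro s
      rw [Matrix.mul_apply, Finset.sum_mul]
      exact Finset.sum_congr rfl fun t _ ↦ by ring
    rw [Finset.sum_congr rfl fun s _ ↦ this s, Finset.sum_comm]
    refine Finset.sum_congr rfl fun t _ ↦ ?_
    rw [← Finset.mul_sum, ← hei_shift]
    ring
  have R : ∑ s, (rho x' y' * m) r s * th s τ z =
      ee (-((c : ℂ) * z ^ 2 / jf A τ)) *
        (ee ((x' : ℂ) ^ 2 * ((mob A τ : ℍ) : ℂ) / 4 + (x' : ℂ) * (z / jf A τ) +
          (x' : ℂ) * (y' : ℂ) / 4) *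
        th r (mob A τ) (z / jf A τ + ((x' : ℂ) * ((mob A τ : ℍ) : ℂ) + (y' : ℂ)) / 2)) := by
    rw [hei_shift, Finset.mul_sum]
    have : ∀ s, (rho x' y' * m) r s * th s τ z = ∑ t, rho x' y' r t * (m t s * th s τ z) := by
      intro s
      rw [Matrix.mul_apply, Finset.sum_mul]
      exact Finset.sum_congr rfl fun t _ ↦ by ring
    rw [Finset.sum_congr rfl fun s _ ↦ this s, Finset.sum_comm]
    refine Finset.sum_congr rfl fun t _ ↦ ?_
    rw [← Finset.mul_sum, ← K]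
    ring
  rw [L, R, ← mul_assoc, ← mul_assoc, ← ee_add, ← ee_add,
    hei_exp (x : ℂ) y x' y' c (jf A τ) ((mob A τ : ℍ) : ℂ) τ z hj e1 e2, e2]
  congr 2
  field_simp

theorem rho_period (x y u v : ℤ) : rho (x + 4 * u) (y + 4 * v) = rho x y := by
  ext r s
  unfold rho
  have h1 : (((s : ℕ) : ℤ) - ((r : ℕ) : ℤ) - (x + 4 * u)) % 2 = 0 ↔
      (((s : ℕ) : ℤ) - ((r : ℕ) : ℤ) - x) % 2 = 0 := by omega
  by_cases h : (((s : ℕ) : ℤ) - ((r : ℕ) : ℤ) - x) % 2 = 0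
  · rw [if_pos (h1.mpr h), if_pos h, ← ee_add_int ((x : ℂ) * (y : ℂ) / 4 + _)
      (x * v + u * y + 4 * u * v + 2 * ((r : ℕ) : ℤ) * v)]
    congr 1
    push_cast
    ring
  · rw [if_neg (fun h2 ↦ h (h1.mp h2)), if_neg h]

theorem rho_conj (x y : ℤ) : (rho x y).map conj = rho x (-y) := by
  ext r s
  rw [Matrix.map_apply]
  unfold rho
  split_ifs
  · rw [conj_ee]
    congr 1
    simp only [map_add, map_div₀, map_mul, map_intCast, map_natCast,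
      Complex.conj_ofNat]
    push_cast
    ring
  · exact map_zero _

theorem scalar_of_comm (N : Matrix (Fin 2) (Fin 2) ℂ) (h1 : N * rho 1 0 = rho 1 0 * N)
    (h2 : N * rho 0 1 = rho 0 1 * N) : ∃ s : ℂ, N = s • (1 : Matrix (Fin 2) (Fin 2) ℂ) := by
  have e1 : rho 1 0 = !![0, 1; 1, 0] := by
    ext r s
    fin_cases r <;> fin_cases s <;> simp [rho, ee_zero]
  have hh : ee (1 / 2) = -1 := by
    rw [ee, ← Complex.exp_pi_mul_I]
    congr 1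
    ring
  have e2 : rho 0 1 = !![1, 0; 0, -1] := by
    ext r s
    fin_cases r <;> fin_cases s <;> simp [rho, ee_zero]
    rw [← hh]
    congr 1
    norm_num
  rw [e1] at h1
  rw [e2] at h2
  have a1 := congrFun (congrFun h1 0) 1
  have a2 := congrFun (congrFun h2 0) 1
  have a3 := congrFun (congrFun h2 1) 0
  simp [Matrix.mul_apply, Fin.sum_univ_two] at a1 a2 a3
  refine ⟨N 0 0, ?_⟩
  have b2 : N 0 1 = 0 := by linear_combination -(1 / 2 : ℂ) * a2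
  have b3 : N 1 0 = 0 := by linear_combination (1 / 2 : ℂ) * a3
  ext r s
  fin_cases r <;> fin_cases s <;> simp [a1, b2, b3]

end MP836e4b.P
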