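/-
MODULE LwU (size M), board mod836, MP_836e4b_nt, folder Work/MP_836e4b_nt/P. Keep the statements verbatim, helper lemmas private.
N = E κ 1 γ τ * M 1 γ' τ' is scalar, γ = (a,b;Dc,d), γ' = (a,Db;c,d), any τ, τ'.
κ even (D = 1 mod 4): E = Mᴴ/|j| = M⁻¹. M_heis: M_γ rho(x,y) = rho(xd - yDc, ya - xb) M_γ and
M_γ' rho(x,y) = rho(xd - yc, ya - xDb) M_γ'; D = 1 mod 4 and rho_period: the two rho agree, so N commutes with
rho(x,y). κ odd (D = 3 mod 4): E = Mᵀ/j = (|j|/j) (conj M)⁻¹ (from M Mᴴ = |j|). Conjugate the relation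
(rho_conj) and replace y by -y: conj(M_γ) rho(x,y) = rho(xd + yDc, xb + ya) conj(M_γ); D = -1 mod 4: again the same
as for γ'. Then scalar_of_comm.
-/
import Mathlib
import Pool.Agent.Work.MP_836e4b_nt.P.Defs
import Pool.Agent.Work.MP_836e4b_nt.P.Hei
import Pool.Agent.Work.MP_836e4b_nt.P.MA2

open UpperHalfPlane Complex
open scoped MatrixGroups ComplexConjugate Matrix

namespace MP836e4b.P

private theorem lwu_comm (Q P m R R' : Matrix (Fin 2) (Fin 2) ℂ) (hQP : Q * P = 1)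
    (h1 : Q * R = R' * Q) (h2 : m * R = R' * m) : (P * m) * R = R * (P * m) := by
  have hPQ : P * Q = 1 := mul_eq_one_comm.mp hQP
  have h3 : R * P = P * R' := by
    calc R * P = (P * Q) * R * P := by rw [hPQ, one_mul]
      _ = P * (Q * R) * P := by rw [mul_assoc P Q R]
      _ = P * (R' * Q) * P := by rw [h1]
      _ = P * R' * (Q * P) := by simp only [mul_assoc]
      _ = P * R' := by rw [hQP, mul_one]
  calc (P * m) * R = P * (m * R) := mul_assoc _ _ _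
    _ = P * (R' * m) := by rw [h2]
    _ = (P * R') * m := (mul_assoc _ _ _).symm
    _ = (R * P) * m := by rw [h3]
    _ = R * (P * m) := mul_assoc _ _ _

private theorem lwu_main (E1 Q P m : Matrix (Fin 2) (Fin 2) ℂ) (t : ℂ) (hE : E1 = t • P)
    (hQP : Q * P = 1) (f g : ℤ → ℤ → ℤ)
    (h1 : ∀ x y, Q * rho x y = rho (f x y) (g x y) * Q)
    (h2 : ∀ x y, m * rho x y = rho (f x y) (g x y) * m) :
    ∃ s : ℂ, E1 * m = s • (1 : Matrix (Fin 2) (Fin 2) ℂ) := by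
  obtain ⟨s, hs⟩ := scalar_of_comm (P * m)
    (lwu_comm Q P m _ _ hQP (h1 1 0) (h2 1 0)) (lwu_comm Q P m _ _ hQP (h1 0 1) (h2 0 1))
  refine ⟨t * s, ?_⟩
  rw [hE, Matrix.smul_mul, hs, smul_smul]

theorem law_scalar (D κ : ℕ) (hD4 : D % 4 = cls κ 1) (a b c d : ℤ)
    (h : a * d - (D : ℤ) * b * c = 1) (τ τ' : ℍ) :
    ∃ s : ℂ, E κ 1 !![a, b; (D : ℤ) * c, d] τ * M 1 !![a, (D : ℤ) * b; c, d] τ' =
      s • (1 : Matrix (Fin 2) (Fin 2) ℂ) := by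
  have hd1 : (!![a, b; (D : ℤ) * c, d] : Mat).det = 1 := by
    rw [Matrix.det_fin_two_of]
    linarith
  have hd2 : (!![a, (D : ℤ) * b; c, d] : Mat).det = 1 := by
    rw [Matrix.det_fin_two_of]
    linarith
  set γ1 : SL(2, ℤ) := ⟨!![a, b; (D : ℤ) * c, d], hd1⟩ with hγ1
  set γ2 : SL(2, ℤ) := ⟨!![a, (D : ℤ) * b; c, d], hd2⟩ with hγ2
  have e1 : (γ1 : Mat) = !![a, b; (D : ℤ) * c, d] := rfl
  have e2 : (γ2 : Mat) = !![a, (D : ℤ) * b; c, d] := rfl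
  rw [← e1, ← e2]
  have hj : jf (γ1 : Mat) τ ≠ 0 := jf_ne_zero _ (by rw [e1, hd1]; exact one_ne_zero) τ
  have hn : ((‖jf (γ1 : Mat) τ‖ : ℝ) : ℂ) ≠ 0 := by
    rw [Complex.ofReal_ne_zero]
    exact norm_ne_zero_iff.mpr hj
  have hu := M_unit γ1 τ
  have H1 : ∀ x y : ℤ, M 1 (γ1 : Mat) τ * rho x y =
      rho (x * d - y * ((D : ℤ) * c)) (y * a - x * b) * M 1 (γ1 : Mat) τ := fun x y ↦
    M_heis γ1 τ x y
  have H2 : ∀ x y : ℤ, M 1 (γ2 : Mat) τ' * rho x y =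
      rho (x * d - y * c) (y * a - x * ((D : ℤ) * b)) * M 1 (γ2 : Mat) τ' := fun x y ↦
    M_heis γ2 τ' x y
  by_cases hκ : Even κ
  · have hD : D % 4 = 1 := by
      rw [hD4]
      simp [cls, hκ]
    obtain ⟨k, hk⟩ : ∃ k : ℤ, (D : ℤ) = 4 * k + 1 := ⟨(D : ℤ) / 4, by omega⟩
    refine lwu_main _ (M 1 (γ1 : Mat) τ)
      (((‖jf (γ1 : Mat) τ‖ : ℝ) : ℂ)⁻¹ • (M 1 (γ1 : Mat) τ)ᴴ) _ 1 ?_ ?_
      (fun x y ↦ x * d - y * ((D : ℤ) * c)) (fun x y ↦ y * a - x * b) H1 ?_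
    · rw [one_smul]
      unfold E
      rw [if_pos hκ]
    · rw [Matrix.mul_smul, hu, smul_smul, inv_mul_cancel₀ hn, one_smul]
    · intro x y
      rw [H2]
      congr 1
      rw [hk, ← rho_period (x * d - y * ((4 * k + 1) * c)) (y * a - x * b) (k * y * c)
        (-(k * x * b))]
      congr 1 <;> ring
  · have hD : D % 4 = 3 := by
      rw [hD4]
      simp [cls, hκ]
    obtain ⟨k, hk⟩ : ∃ k : ℤ, (D : ℤ) = 4 * k - 1 := ⟨(D : ℤ) / 4 + 1, by omega⟩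
    have hmap : ∀ X Y : Matrix (Fin 2) (Fin 2) ℂ,
        (X * Y).map (starRingEnd ℂ) = X.map (starRingEnd ℂ) * Y.map (starRingEnd ℂ) :=
      fun X Y ↦ Matrix.map_mul
    refine lwu_main _ ((M 1 (γ1 : Mat) τ).map (starRingEnd ℂ))
      (((‖jf (γ1 : Mat) τ‖ : ℝ) : ℂ)⁻¹ • (M 1 (γ1 : Mat) τ)ᵀ) _
      ((jf (γ1 : Mat) τ)⁻¹ * ((‖jf (γ1 : Mat) τ‖ : ℝ) : ℂ)) ?_ ?_
      (fun x y ↦ x * d + y * ((D : ℤ) * c)) (fun x y ↦ y * a + x * b) ?_ ?_
    · unfold E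
      rw [if_neg hκ, smul_smul, mul_assoc, mul_inv_cancel₀ hn, mul_one]
    · have h3 := congrArg (fun X : Matrix (Fin 2) (Fin 2) ℂ ↦ X.map (starRingEnd ℂ)) hu
      simp only [hmap] at h3
      have h4 : ((M 1 (γ1 : Mat) τ)ᴴ).map (starRingEnd ℂ) = (M 1 (γ1 : Mat) τ)ᵀ := by
        ext i j
        simp [Matrix.conjTranspose_apply]
      have h5 : ((((‖jf (γ1 : Mat) τ‖ : ℝ) : ℂ) • (1 : Matrix (Fin 2) (Fin 2) ℂ)).map
          (starRingEnd ℂ)) = ((‖jf (γ1 : Mat) τ‖ : ℝ) : ℂ) • 1 := by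
        ext i j
        fin_cases i <;> fin_cases j <;> simp [Complex.conj_ofReal]
      rw [h4, h5] at h3
      rw [Matrix.mul_smul, h3, smul_smul, inv_mul_cancel₀ hn, one_smul]
    · intro x y
      have h3 := congrArg (fun X : Matrix (Fin 2) (Fin 2) ℂ ↦ X.map (starRingEnd ℂ)) (H1 x (-y))
      simp only [hmap] at h3
      have h4 := rho_conj x (-y)
      have h5 := rho_conj (x * d - -y * ((D : ℤ) * c)) (-y * a - x * b)
      rw [h4, h5, neg_neg] at h3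
      rw [h3]
      congr 2 <;> ring
    · intro x y
      rw [H2]
      congr 1
      rw [hk, ← rho_period (x * d + y * ((4 * k - 1) * c)) (y * a + x * b) (-(k * y * c))
        (-(k * x * b))]
      congr 1 <;> ring

end MP836e4b.P
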