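/-
MODULE CosR (size M), board mod836, MP_836e4b_nt, folder Work/MP_836e4b_nt/P. Keep the statements verbatim, helper lemmas private.
Representatives of integer matrices of determinant p² (p prime) modulo SL(2,Z) on the left: existence
and uniqueness. Existence: Mathlib FixedDetMatrices (reps, induction) or directly: multiply on the left to
make the lower left entry 0 (Bezout: first column (a,c)ᵗ = g (a',c')ᵗ, γ with γ(a',c')ᵗ = (1,0)ᵗ), make the
diagonal positive, reduce b modulo d (left multiplication by T^n); ad = p² gives (p²,1), (p,p), (1,p²).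
Uniqueness: γβ = β' with both upper triangular with positive diagonal forces γ = T^n and equal
diagonals, then 0 ≤ b, b' < d gives n = 0.
-/
import Mathlib
import Pool.Agent.Work.MP_836e4b_nt.P.Defs

open UpperHalfPlane Complex
open scoped MatrixGroups ComplexConjugate Matrix

namespace MP836e4b.P

/-- The list of representatives. -/
def IsRep (p : ℕ) (β : Mat) : Prop :=
  β = !![(p : ℤ) ^ 2, 0; 0, 1] ∨ (∃ b < p, β = !![(p : ℤ), (b : ℤ); 0, (p : ℤ)]) ∨
    ∃ b < p ^ 2, β = !![1, (b : ℤ); 0, (p : ℤ) ^ 2]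

private theorem rep_shape {p : ℕ} (hp : 0 < p) {β : Mat} (h : IsRep p β) :
    β 1 0 = 0 ∧ 0 < β 0 0 ∧ 0 ≤ β 0 1 ∧ β 0 1 < β 1 1 := by
  have hpz : (0 : ℤ) < (p : ℤ) := by exact_mod_cast hp
  rcases h with h | ⟨b, hb, h⟩ | ⟨b, hb, h⟩
  · subst h
    refine ⟨by simp, ?_, by simp, by simp⟩
    simp; positivity
  · subst h
    refine ⟨by simp, ?_, by simp, ?_⟩
    · simpa using hp
    · simpa using hb
  · subst h
    refine ⟨by simp, by simp, by simp, ?_⟩
    simp
    exact_mod_cast hb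

private theorem mul_entry (A B : Mat) (i j : Fin 2) :
    (A * B) i j = A i 0 * B 0 j + A i 1 * B 1 j := by
  simp [Matrix.mul_apply, Fin.sum_univ_two]

private theorem rep_unique_aux (p : ℕ) (hp : p.Prime) (δ : SL(2, ℤ)) (β β' : Mat) (h : IsRep p β)
    (h' : IsRep p β') (he : (δ : Mat) * β = β') : δ = 1 ∧ β = β' := by
  obtain ⟨h1, h2, h3, h4⟩ := rep_shape hp.pos h
  obtain ⟨k1, k2, k3, k4⟩ := rep_shape hp.pos h'
  have hdet : (δ : Mat) 0 0 * (δ : Mat) 1 1 - (δ : Mat) 0 1 * (δ : Mat) 1 0 = 1 := by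
    have := δ.det_coe
    rwa [Matrix.det_fin_two] at this
  have e00 : (δ : Mat) 0 0 * β 0 0 + (δ : Mat) 0 1 * β 1 0 = β' 0 0 := by
    rw [← mul_entry, he]
  have e01 : (δ : Mat) 0 0 * β 0 1 + (δ : Mat) 0 1 * β 1 1 = β' 0 1 := by
    rw [← mul_entry, he]
  have e10 : (δ : Mat) 1 0 * β 0 0 + (δ : Mat) 1 1 * β 1 0 = β' 1 0 := by
    rw [← mul_entry, he]
  have e11 : (δ : Mat) 1 0 * β 0 1 + (δ : Mat) 1 1 * β 1 1 = β' 1 1 := by
    rw [← mul_entry, he]
  generalize hx : (δ : Mat) 0 0 = x at *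
  generalize hy : (δ : Mat) 0 1 = y at *
  generalize hz : (δ : Mat) 1 0 = z at *
  generalize hw : (δ : Mat) 1 1 = w at *
  rw [h1] at e00 e10
  rw [k1] at e10
  have hz0 : z = 0 := by
    have : z * β 0 0 = 0 := by linarith
    rcases mul_eq_zero.mp this with h | h
    · exact h
    · omega
  subst hz0
  have hxpos : 0 < x := by
    by_contra hcon
    have : x * β 0 0 ≤ 0 := mul_nonpos_of_nonpos_of_nonneg (not_lt.mp hcon) h2.le
    linarith
  have hxw : x * w = 1 := by linarith
  have hx1 : x = 1 := by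
    rcases Int.isUnit_iff.mp (IsUnit.of_mul_eq_one _ hxw) with h | h
    · exact h
    · omega
  subst hx1
  have hw1 : w = 1 := by linarith
  subst hw1
  have hd : β 1 1 = β' 1 1 := by linarith
  have hyd : y * β 1 1 = β' 0 1 - β 0 1 := by linarith
  have hy0 : y = 0 := by
    have hd0 : 0 < β 1 1 := lt_of_le_of_lt h3 h4
    have hl : y * β 1 1 < 1 * β 1 1 := by rw [hyd]; linarith
    have hg : (-1) * β 1 1 < y * β 1 1 := by rw [hyd]; linarith
    have a1 := lt_of_mul_lt_mul_right hl hd0.le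
    have a2 := lt_of_mul_lt_mul_right hg hd0.le
    omega
  subst hy0
  have hδ : δ = 1 := by
    apply Subtype.ext
    ext i j
    fin_cases i <;> fin_cases j <;> simp [hx, hy, hz, hw]
  refine ⟨hδ, ?_⟩
  rw [← he, hδ]
  simp

theorem isRep_det {p : ℕ} {β : Mat} (h : IsRep p β) : β.det = (p : ℤ) ^ 2 := by
  rcases h with h | ⟨b, hb, h⟩ | ⟨b, hb, h⟩
  · subst h
    simp [Matrix.det_fin_two]
  · subst h
    simp [Matrix.det_fin_two]
    ring
  · subst h
    simp [Matrix.det_fin_two]

theorem exists_rep (p : ℕ) (hp : p.Prime) (A : Mat) (hA : A.det = (p : ℤ) ^ 2) :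
    ∃ (γ : SL(2, ℤ)) (β : Mat), IsRep p β ∧ A = (γ : Mat) * β := by
  have hpz : (0 : ℤ) < (p : ℤ) := by exact_mod_cast hp.pos
  rw [Matrix.det_fin_two] at hA
  obtain ⟨a, b, c, d, rfl⟩ : ∃ a b c d : ℤ, A = !![a, b; c, d] :=
    ⟨A 0 0, A 0 1, A 1 0, A 1 1, by ext i j; fin_cases i <;> fin_cases j <;> rfl⟩
  replace hA : a * d - b * c = (p : ℤ) ^ 2 := by simpa using hA
  have hpos : (0 : ℤ) < (p : ℤ) ^ 2 := by positivity
  have hg0 : Int.gcd a c ≠ 0 := by
    intro h0
    rw [Int.gcd_eq_zero_iff] at h0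
    rw [h0.1, h0.2] at hA
    simp at hA
    omega
  have hgpos : 0 < Int.gcd a c := Nat.pos_of_ne_zero hg0
  have hgz : (0 : ℤ) < (Int.gcd a c : ℤ) := by exact_mod_cast hgpos
  obtain ⟨a', ha'⟩ : (Int.gcd a c : ℤ) ∣ a := Int.gcd_dvd_left ..
  obtain ⟨c', hc'⟩ : (Int.gcd a c : ℤ) ∣ c := Int.gcd_dvd_right ..
  have hbez := Int.gcd_eq_gcd_ab a c
  generalize Int.gcdA a c = u at hbez
  generalize Int.gcdB a c = v at hbez
  generalize Int.gcd a c = g at *
  have hone : a' * u + c' * v = 1 := by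
    have : (g : ℤ) * (a' * u + c' * v) = (g : ℤ) * 1 := by
      have h3 : (g : ℤ) * (a' * u + c' * v) = a * u + c * v := by
        rw [ha', hc']; ring
      rw [h3, ← hbez]; ring
    exact mul_left_cancel₀ hgz.ne' this
  have hgd : (g : ℤ) * (a' * d - c' * b) = (p : ℤ) ^ 2 := by
    rw [← hA, ha', hc']; ring
  obtain ⟨D, hD⟩ : ∃ D, D = a' * d - c' * b := ⟨_, rfl⟩
  rw [← hD] at hgd
  have hDpos : 0 < D := by
    by_contra hcon
    have : (g : ℤ) * D ≤ 0 := mul_nonpos_of_nonneg_of_nonpos hgz.le (not_lt.mp hcon)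
    omega
  obtain ⟨t, ht⟩ : ∃ t, t = u * b + v * d := ⟨_, rfl⟩
  have hdm := Int.mul_ediv_add_emod t D
  have hr0 := Int.emod_nonneg t hDpos.ne'
  have hr1 := Int.emod_lt_of_pos t hDpos
  generalize t / D = q at hdm
  generalize t % D = r at hdm hr0 hr1
  have hγdet : (!![a', a' * q - v; c', c' * q + u] : Mat).det = 1 := by
    rw [Matrix.det_fin_two]
    simp
    linear_combination hone
  refine ⟨⟨!![a', a' * q - v; c', c' * q + u], hγdet⟩, !![(g : ℤ), r; 0, D], ?_, ?_⟩
  · have hgdvd : g ∣ p ^ 2 := by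
      have : (g : ℤ) ∣ ((p ^ 2 : ℕ) : ℤ) := ⟨D, by push_cast; exact hgd.symm⟩
      exact_mod_cast this
    obtain ⟨i, hi, hgi⟩ := (Nat.dvd_prime_pow hp).mp hgdvd
    subst hgi
    interval_cases i
    · have hD1 : D = (p : ℤ) ^ 2 := by simpa using hgd
      right; right
      refine ⟨r.toNat, ?_, ?_⟩
      · have : ((r.toNat : ℕ) : ℤ) < ((p ^ 2 : ℕ) : ℤ) := by
          rw [Int.toNat_of_nonneg hr0]
          push_cast
          rw [← hD1]
          exact hr1
        exact_mod_cast this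
      · rw [Int.toNat_of_nonneg hr0, hD1]
        simp
    · have hD1 : D = (p : ℤ) := by
        have h3 : (p : ℤ) * D = (p : ℤ) * (p : ℤ) := by
          have := hgd
          push_cast at this
          rw [pow_one] at this
          rw [this]; ring
        exact mul_left_cancel₀ hpz.ne' h3
      right; left
      refine ⟨r.toNat, ?_, ?_⟩
      · have : ((r.toNat : ℕ) : ℤ) < (p : ℤ) := by
          rw [Int.toNat_of_nonneg hr0, ← hD1]
          exact hr1
        exact_mod_cast this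
      · rw [Int.toNat_of_nonneg hr0, hD1]
        simp
    · have hD1 : D = 1 := by
        have h3 : (p : ℤ) ^ 2 * D = (p : ℤ) ^ 2 * 1 := by
          have := hgd
          push_cast at this
          rw [this]; ring
        exact mul_left_cancel₀ hpos.ne' h3
      have hr : r = 0 := by omega
      left
      rw [hr, hD1]
      simp
  · have hv1 : a' * r + (a' * q - v) * D = b := by
      linear_combination a' * hdm + a' * ht - v * hD + b * hone
    have hv2 : c' * r + (c' * q + u) * D = d := by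
      linear_combination c' * hdm + c' * ht + u * hD + d * hone
    ext i j
    fin_cases i <;> fin_cases j
    · simp [Matrix.mul_apply, Fin.sum_univ_two]
      linear_combination ha'
    · simp [Matrix.mul_apply, Fin.sum_univ_two]
      linear_combination -hv1
    · simp [Matrix.mul_apply, Fin.sum_univ_two]
      linear_combination hc'
    · simp [Matrix.mul_apply, Fin.sum_univ_two]
      linear_combination -hv2

theorem rep_unique (p : ℕ) (hp : p.Prime) (γ γ' : SL(2, ℤ)) (β β' : Mat) (h : IsRep p β)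
    (h' : IsRep p β') (he : (γ : Mat) * β = (γ' : Mat) * β') : γ = γ' ∧ β = β' := by
  have he' : ((γ'⁻¹ * γ : SL(2, ℤ)) : Mat) * β = β' := by
    rw [Matrix.SpecialLinearGroup.coe_mul, Matrix.mul_assoc, he, ← Matrix.mul_assoc,
      ← Matrix.SpecialLinearGroup.coe_mul, inv_mul_cancel, Matrix.SpecialLinearGroup.coe_one,
      Matrix.one_mul]
  obtain ⟨h1, h2⟩ := rep_unique_aux p hp _ β β' h h' he'
  refine ⟨?_, h2⟩
  have := inv_mul_eq_one.mp h1
  exact this.symm

end MP836e4b.P
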