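/-
MODULE MA3 (size M), board mod836, MP_836e4b_nt, folder Work/MP_836e4b_nt/P. Keep the statements verbatim, helper lemmas private.
Left and right equivariance of the matrices of A (det p²).
Left: thA p (γA) r τ z = e(-c_A z²/j_A) thA 1 γ r (Aτ) (p z/j_A)  (cocycle_c with det A = p²)
 = ∑_s M 1 γ (Aτ) r s * thA p A s τ z by isM_sl; avg is linear.
Right: thA p (Aγ) r τ z = e(-c_γ z²/j_γ) thA p A r (γτ) (z/j_γ) (cocycle_c, det γ = 1; p z/j_{Aγ} =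
p (z/j_γ)/j_A(γτ)); apply avg_slash with F = thA p A r (γτ) (hF = thA_elliptic), then h at γτ, then
isM_sl for γ: e(-c_γ z²/j_γ) th s (γτ) (z/j_γ) = thA 1 γ s τ z = ∑ M 1 γ τ s t * th t τ z.
-/
import Mathlib
import Pool.Agent.Work.MP_836e4b_nt.P.Defs
import Pool.Agent.Work.MP_836e4b_nt.P.MA1
import Pool.Agent.Work.MP_836e4b_nt.P.AvI
import Pool.Agent.Work.MP_836e4b_nt.P.AvG

open UpperHalfPlane Complex
open scoped MatrixGroups ComplexConjugate Matrix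

namespace MP836e4b.P

private theorem ma3_avg1 (τ : ℍ) (f : ℂ → ℂ) (z : ℂ) : avg 1 τ f z = f z := by
  have h0 : ee 0 = 1 := ee_zero
  simp [avg, h0]

private theorem ma3_sl (γ : SL(2, ℤ)) (r : Fin 2) (τ : ℍ) (z : ℂ) :
    thA 1 (γ : Mat) r τ z = ∑ s : Fin 2, M 1 (γ : Mat) τ r s * th s τ z := by
  have h := isM_sl γ τ r z
  rwa [ma3_avg1] at h

private theorem ma3_det (γ : SL(2, ℤ)) : (γ : Mat).det = 1 := γ.det_coe

/-- left composition -/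
private theorem ma3_left (p : ℕ) (hp : 0 < p) (γ : SL(2, ℤ)) (A : Mat)
    (hA : A.det = (p : ℤ) ^ 2) (r : Fin 2) (τ : ℍ) (z : ℂ) :
    thA p ((γ : Mat) * A) r τ z =
      ∑ s : Fin 2, M 1 (γ : Mat) (mob A τ) r s * thA p A s τ z := by
  have hA0 : 0 < A.det := by
    rw [hA]
    positivity
  have hγ : 0 < (γ : Mat).det := by
    rw [ma3_det]
    exact one_pos
  have hjA : jf A τ ≠ 0 := jf_ne_zero A hA0.ne' τ
  have hjγ : jf (γ : Mat) (mob A τ) ≠ 0 := jf_ne_zero (γ : Mat) hγ.ne' _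
  have hc := cocycle_c (γ : Mat) A hγ hA0 τ
  rw [hA] at hc
  have key : thA p ((γ : Mat) * A) r τ z =
      ee (-(((A 1 0 : ℤ) : ℂ) * z ^ 2 / jf A τ)) *
        thA 1 (γ : Mat) r (mob A τ) ((p : ℂ) * z / jf A τ) := by
    unfold thA
    rw [mob_mul (γ : Mat) A hγ hA0, ← mul_assoc, ← ee_add]
    have e1 : -(((((γ : Mat) * A) 1 0 : ℤ) : ℂ) * z ^ 2 / jf ((γ : Mat) * A) τ) =
        -((A 1 0 : ℂ) * z ^ 2 / jf A τ) +
          -(((γ : Mat) 1 0 : ℂ) * ((p : ℂ) * z / jf A τ) ^ 2 / jf (γ : Mat) (mob A τ)) := by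
      have e2 : ((((γ : Mat) * A) 1 0 : ℤ) : ℂ) * z ^ 2 / jf ((γ : Mat) * A) τ =
          ((((γ : Mat) * A) 1 0 : ℤ) : ℂ) / jf ((γ : Mat) * A) τ * z ^ 2 := by ring
      rw [e2, hc]
      push_cast
      field_simp
      ring
    have e3 : (p : ℂ) * z / jf ((γ : Mat) * A) τ =
        ((1 : ℕ) : ℂ) * ((p : ℂ) * z / jf A τ) / jf (γ : Mat) (mob A τ) := by
      rw [jf_mul (γ : Mat) A hγ hA0]
      field_simp
      push_cast
      ring
    rw [e1, e3]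
  rw [key, ma3_sl, Finset.mul_sum]
  refine Finset.sum_congr rfl fun s _ ↦ ?_
  unfold thA
  ring

/-- right composition -/
private theorem ma3_right (p : ℕ) (hp : 0 < p) (γ : SL(2, ℤ)) (A : Mat)
    (hA : A.det = (p : ℤ) ^ 2) (r : Fin 2) (τ : ℍ) (z : ℂ) :
    thA p (A * (γ : Mat)) r τ z =
      ee (-((((γ : Mat) 1 0 : ℤ) : ℂ) * z ^ 2 / jf (γ : Mat) τ)) *
        thA p A r (mob (γ : Mat) τ) (z / jf (γ : Mat) τ) := by
  have hA0 : 0 < A.det := by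
    rw [hA]
    positivity
  have hγ : 0 < (γ : Mat).det := by
    rw [ma3_det]
    exact one_pos
  have hjγ : jf (γ : Mat) τ ≠ 0 := jf_ne_zero (γ : Mat) hγ.ne' τ
  have hjA : jf A (mob (γ : Mat) τ) ≠ 0 := jf_ne_zero A hA0.ne' _
  have hc := cocycle_c A (γ : Mat) hA0 hγ τ
  rw [ma3_det] at hc
  unfold thA
  rw [mob_mul A (γ : Mat) hA0 hγ, ← mul_assoc, ← ee_add]
  have e1 : -((((A * (γ : Mat)) 1 0 : ℤ) : ℂ) * z ^ 2 / jf (A * (γ : Mat)) τ) =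
      -((((γ : Mat) 1 0 : ℤ) : ℂ) * z ^ 2 / jf (γ : Mat) τ) +
        -((A 1 0 : ℂ) * (z / jf (γ : Mat) τ) ^ 2 / jf A (mob (γ : Mat) τ)) := by
    have e2 : (((A * (γ : Mat)) 1 0 : ℤ) : ℂ) * z ^ 2 / jf (A * (γ : Mat)) τ =
        (((A * (γ : Mat)) 1 0 : ℤ) : ℂ) / jf (A * (γ : Mat)) τ * z ^ 2 := by ring
    rw [e2, hc]
    push_cast
    field_simp
    ring
  have e3 : (p : ℂ) * z / jf (A * (γ : Mat)) τ =
      (p : ℂ) * (z / jf (γ : Mat) τ) / jf A (mob (γ : Mat) τ) := by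
    rw [jf_mul A (γ : Mat) hA0 hγ]
    field_simp
  rw [e1, e3]

private theorem ma3_avg_lin (p : ℕ) (τ : ℍ) (a b : ℂ) (f g : ℂ → ℂ) (z : ℂ) :
    avg p τ (fun w ↦ a * f w + b * g w) z = a * avg p τ f z + b * avg p τ g z := by
  unfold avg
  simp only [Finset.mul_sum]
  rw [← Finset.sum_add_distrib]
  refine Finset.sum_congr rfl fun l _ ↦ ?_
  rw [← Finset.sum_add_distrib]
  refine Finset.sum_congr rfl fun m _ ↦ ?_
  ring

theorem isM_left (p : ℕ) (hp : 0 < p) (γ : SL(2, ℤ)) (A : Mat) (hA : A.det = (p : ℤ) ^ 2) (τ : ℍ)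
    {m : Matrix (Fin 2) (Fin 2) ℂ} (h : IsM p A τ m) :
    IsM p ((γ : Mat) * A) τ (M 1 (γ : Mat) (mob A τ) * m) := by
  intro r z
  have h1 : thA p ((γ : Mat) * A) r τ = fun w ↦
      M 1 (γ : Mat) (mob A τ) r 0 * thA p A 0 τ w +
        M 1 (γ : Mat) (mob A τ) r 1 * thA p A 1 τ w := by
    funext w
    rw [ma3_left p hp γ A hA r τ w, Fin.sum_univ_two]
  rw [h1, ma3_avg_lin, h 0 z, h 1 z]
  simp only [Fin.sum_univ_two, Matrix.mul_apply]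
  ring

theorem isM_right (p : ℕ) (hp : 0 < p) (γ : SL(2, ℤ)) (A : Mat) (hA : A.det = (p : ℤ) ^ 2) (τ : ℍ)
    {m : Matrix (Fin 2) (Fin 2) ℂ} (h : IsM p A (mob (γ : Mat) τ) m) :
    IsM p (A * (γ : Mat)) τ (m * M 1 (γ : Mat) τ) := by
  intro r z
  have h1 : thA p (A * (γ : Mat)) r τ = fun w ↦
      ee (-((((γ : Mat) 1 0 : ℤ) : ℂ) * w ^ 2 / jf (γ : Mat) τ)) *
        thA p A r (mob (γ : Mat) τ) (w / jf (γ : Mat) τ) := by
    funext w
    exact ma3_right p hp γ A hA r τ w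
  rw [h1, avg_slash p hp γ τ (thA p A r (mob (γ : Mat) τ))
    (fun l n w ↦ thA_elliptic p hp A hA r (mob (γ : Mat) τ) w l n) z, h r]
  have h2 : ∀ s : Fin 2, ee (-((((γ : Mat) 1 0 : ℤ) : ℂ) * z ^ 2 / jf (γ : Mat) τ)) *
      th s (mob (γ : Mat) τ) (z / jf (γ : Mat) τ) =
      ∑ t : Fin 2, M 1 (γ : Mat) τ s t * th t τ z := by
    intro s
    rw [← ma3_sl γ s τ z]
    unfold thA
    rw [Nat.cast_one, one_mul]
  have h20 := h2 0
  have h21 := h2 1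
  simp only [Fin.sum_univ_two, Matrix.mul_apply] at h20 h21 ⊢
  linear_combination m r 0 * h20 + m r 1 * h21

end MP836e4b.P
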