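/-
MODULE UT1 (size M), board mod836, MP_836e4b_nt, folder Work/MP_836e4b_nt/P. Keep the statements verbatim, helper lemmas private.
The matrix of (1,b;0,p²). thA: jf = p², mob = (τ+b)/p², thA z = th r ((τ+b)/p²) (z/p) =
∑_{n=r mod 2} e(n²b/(4p²)) e(n²τ/(4p²) + nz/p). Translating z by m: factor e(nm/p), so the mean over m
kills n not divisible by p; n = pn': the term is e(n'²b/4) e(n'²τ/4 + n'z). This sum G(z) is a
combination of th 0, th 1: for p odd n' = r mod 2 and e(n'²b/4) = e(rb/4): G = e(rb/4) th r. For p = 2: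
r = 0: n = 2n', n' arbitrary: G = th 0 + e(b/4) th 1; r = 1: no such n: G = 0. G is invariant under the
translations by l (th_elliptic), so the mean over l changes nothing (order of the two means: for fixed
l, ∑_m e(l²τ+2lz) f(z+lτ+m) = p e(l²τ+2lz) G(z+lτ) = p G(z)).
-/
import Mathlib
import Pool.Agent.Work.MP_836e4b_nt.P.Defs
import Pool.Agent.Work.MP_836e4b_nt.P.Th1

open UpperHalfPlane Complex
open scoped MatrixGroups ComplexConjugate Matrix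

namespace MP836e4b.P

private theorem ut1_mob (p : ℕ) (hp : 0 < p) (b : ℤ) (τ : ℍ) :
    ((mob !![1, b; 0, (p : ℤ) ^ 2] τ : ℍ) : ℂ) = ((τ : ℂ) + (b : ℂ)) / (p : ℂ) ^ 2 := by
  have hd : 0 < (!![1, b; 0, (p : ℤ) ^ 2] : Mat).det := by
    rw [Matrix.det_fin_two_of]
    have : (0 : ℤ) < (p : ℤ) ^ 2 := by positivity
    linarith
  rw [coe_mob _ hd]
  simp [jf]

/-- the root of unity sum -/
private theorem ut1_root (p : ℕ) (hp : 0 < p) (n : ℤ) :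
    ∑ m ∈ Finset.range p, ee ((n : ℂ) * (m : ℂ) / (p : ℂ)) = if (p : ℤ) ∣ n then (p : ℂ) else 0 := by
  have hp0 : (p : ℂ) ≠ 0 := by exact_mod_cast hp.ne'
  have hpow : ∀ m : ℕ, ee ((n : ℂ) * (m : ℂ) / (p : ℂ)) = (ee ((n : ℂ) / (p : ℂ))) ^ m := by
    intro m
    unfold ee
    rw [← Complex.exp_nat_mul]
    congr 1
    ring
  split_ifs with h
  · obtain ⟨k, hk⟩ := h
    have h1 : ee ((n : ℂ) / (p : ℂ)) = 1 := by
      rw [hk]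
      push_cast
      rw [mul_div_cancel_left₀ _ hp0]
      exact ee_intCast k
    simp [hpow, h1]
  · have h1 : ee ((n : ℂ) / (p : ℂ)) ≠ 1 := by
      intro h1
      apply h
      unfold ee at h1
      rw [Complex.exp_eq_one_iff] at h1
      obtain ⟨k, hk⟩ := h1
      have hpi : (2 * (Real.pi : ℂ) * Complex.I) ≠ 0 := by
        simp [Real.pi_ne_zero]
      have h2 : (n : ℂ) / (p : ℂ) = (k : ℂ) := by
        apply mul_left_cancel₀ hpi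
        rw [hk]
        ring
      rw [div_eq_iff hp0] at h2
      refine ⟨k, ?_⟩
      have h3 : ((n : ℤ) : ℂ) = (((p : ℤ) * k : ℤ) : ℂ) := by
        push_cast
        rw [h2]
        ring
      exact_mod_cast h3
    have h2 : (ee ((n : ℂ) / (p : ℂ))) ^ p = 1 := by
      rw [← hpow, mul_div_assoc, div_self hp0, mul_one, ee_intCast]
    simp only [hpow]
    have := mul_neg_geom_sum (ee ((n : ℂ) / (p : ℂ))) p
    rw [h2, sub_self] at this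
    rcases mul_eq_zero.1 this with h3 | h3
    · exact absurd (sub_eq_zero.1 h3).symm h1
    · exact h3

/-- the term of the series -/
private theorem ut1_thA (p : ℕ) (hp : 0 < p) (b : ℤ) (r : Fin 2) (τ : ℍ) (w : ℂ) :
    thA p !![1, b; 0, (p : ℤ) ^ 2] r τ w =
    ∑' k : ℤ, ee ((2 * (k : ℂ) + ((r : ℕ) : ℂ)) ^ 2 * (((τ : ℂ) + (b : ℂ)) / (p : ℂ) ^ 2) / 4 +
      (2 * (k : ℂ) + ((r : ℕ) : ℂ)) * (w / (p : ℂ))) := by
  have hp0 : (p : ℂ) ≠ 0 := by exact_mod_cast hp.ne'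
  have hj : jf !![1, b; 0, (p : ℤ) ^ 2] τ = (p : ℂ) ^ 2 := by simp [jf]
  unfold thA
  rw [hj]
  have h0 : (((!![1, b; 0, (p : ℤ) ^ 2] : Mat) 1 0 : ℤ) : ℂ) = 0 := by simp
  rw [h0]
  have h1 : ee (-(0 * w ^ 2 / (p : ℂ) ^ 2)) = 1 := by
    rw [show (-(0 * w ^ 2 / (p : ℂ) ^ 2) : ℂ) = 0 by simp, ee_zero]
  rw [h1, one_mul]
  unfold th
  rw [ut1_mob p hp b τ]
  refine tsum_congr fun k ↦ ?_
  congr 3
  field_simp

private theorem ut1_summable (p : ℕ) (hp : 0 < p) (b : ℤ) (r : Fin 2) (τ : ℍ) (w : ℂ) :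
    Summable fun k : ℤ ↦
      ee ((2 * (k : ℂ) + ((r : ℕ) : ℂ)) ^ 2 * (((τ : ℂ) + (b : ℂ)) / (p : ℂ) ^ 2) / 4 +
      (2 * (k : ℂ) + ((r : ℕ) : ℂ)) * (w / (p : ℂ))) := by
  have := th_summable r (mob !![1, b; 0, (p : ℤ) ^ 2] τ) (w / (p : ℂ))
  rw [ut1_mob p hp b τ] at this
  exact this

/-- the sum over `m` -/
private theorem ut1_sum (p : ℕ) (hp : 0 < p) (b : ℤ) (r : Fin 2) (τ : ℍ) (w : ℂ) :
    ∑ m ∈ Finset.range p, thA p !![1, b; 0, (p : ℤ) ^ 2] r τ (w + (m : ℂ)) =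
    (p : ℂ) * ∑' k : ℤ, if (p : ℤ) ∣ 2 * k + ((r : ℕ) : ℤ) then
      ee ((2 * (k : ℂ) + ((r : ℕ) : ℂ)) ^ 2 * (((τ : ℂ) + (b : ℂ)) / (p : ℂ) ^ 2) / 4 +
      (2 * (k : ℂ) + ((r : ℕ) : ℂ)) * (w / (p : ℂ))) else 0 := by
  have h1 : ∀ m ∈ Finset.range p, thA p !![1, b; 0, (p : ℤ) ^ 2] r τ (w + (m : ℂ)) =
      ∑' k : ℤ, ee ((2 * (k : ℂ) + ((r : ℕ) : ℂ)) ^ 2 * (((τ : ℂ) + (b : ℂ)) / (p : ℂ) ^ 2) / 4 +
      (2 * (k : ℂ) + ((r : ℕ) : ℂ)) * ((w + (m : ℂ)) / (p : ℂ))) := fun m _ ↦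
    ut1_thA p hp b r τ (w + (m : ℂ))
  rw [Finset.sum_congr rfl h1,
    ← Summable.tsum_finsetSum (f := fun (m : ℕ) (k : ℤ) ↦
      ee ((2 * (k : ℂ) + ((r : ℕ) : ℂ)) ^ 2 * (((τ : ℂ) + (b : ℂ)) / (p : ℂ) ^ 2) / 4 +
      (2 * (k : ℂ) + ((r : ℕ) : ℂ)) * ((w + (m : ℂ)) / (p : ℂ))))
      fun m _ ↦ ut1_summable p hp b r τ (w + (m : ℂ)), ← tsum_mul_left]
  refine tsum_congr fun k ↦ ?_
  have h2 : ∀ m ∈ Finset.range p,
      ee ((2 * (k : ℂ) + ((r : ℕ) : ℂ)) ^ 2 * (((τ : ℂ) + (b : ℂ)) / (p : ℂ) ^ 2) / 4 +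
      (2 * (k : ℂ) + ((r : ℕ) : ℂ)) * ((w + (m : ℂ)) / (p : ℂ))) =
      ee ((2 * (k : ℂ) + ((r : ℕ) : ℂ)) ^ 2 * (((τ : ℂ) + (b : ℂ)) / (p : ℂ) ^ 2) / 4 +
      (2 * (k : ℂ) + ((r : ℕ) : ℂ)) * (w / (p : ℂ))) *
      ee (((2 * k + ((r : ℕ) : ℤ) : ℤ) : ℂ) * (m : ℂ) / (p : ℂ)) := by
    intro m _
    rw [← ee_add]
    congr 1
    push_cast
    ring
  rw [Finset.sum_congr rfl h2, ← Finset.mul_sum, ut1_root p hp]
  split_ifs
  · ring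
  · simp

/-- the reduction of the claim to the sum over `m` -/
private theorem ut1_avg (p : ℕ) (hp : 0 < p) (b : ℤ) (r : Fin 2) (τ : ℍ) (z : ℂ) (u v : ℂ)
    (H : ∀ w : ℂ, (∑' k : ℤ, if (p : ℤ) ∣ 2 * k + ((r : ℕ) : ℤ) then
      ee ((2 * (k : ℂ) + ((r : ℕ) : ℂ)) ^ 2 * (((τ : ℂ) + (b : ℂ)) / (p : ℂ) ^ 2) / 4 +
      (2 * (k : ℂ) + ((r : ℕ) : ℂ)) * (w / (p : ℂ))) else 0) = u * th 0 τ w + v * th 1 τ w) :
    avg p τ (thA p !![1, b; 0, (p : ℤ) ^ 2] r τ) z = u * th 0 τ z + v * th 1 τ z := by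
  have hp0 : (p : ℂ) ≠ 0 := by exact_mod_cast hp.ne'
  unfold avg
  have h1 : ∀ l ∈ Finset.range p, ∑ m ∈ Finset.range p,
      ee ((l : ℂ) ^ 2 * (τ : ℂ) + 2 * (l : ℂ) * z) *
        thA p !![1, b; 0, (p : ℤ) ^ 2] r τ (z + (l : ℂ) * (τ : ℂ) + (m : ℂ)) =
      (p : ℂ) * (u * th 0 τ z + v * th 1 τ z) := by
    intro l _
    rw [← Finset.mul_sum, ut1_sum p hp b r τ, H]
    have e0 := th_elliptic 0 τ z (l : ℤ) 0
    have e1 := th_elliptic 1 τ z (l : ℤ) 0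
    simp only [Int.cast_natCast, Int.cast_zero, add_zero] at e0 e1
    calc _ = (p : ℂ) * (u * (ee ((l : ℂ) ^ 2 * (τ : ℂ) + 2 * (l : ℂ) * z) *
            th 0 τ (z + (l : ℂ) * (τ : ℂ))) + v * (ee ((l : ℂ) ^ 2 * (τ : ℂ) + 2 * (l : ℂ) * z) *
            th 1 τ (z + (l : ℂ) * (τ : ℂ)))) := by ring
      _ = _ := by rw [e0, e1]
  rw [Finset.sum_congr rfl h1, Finset.sum_const, Finset.card_range, nsmul_eq_mul]
  field_simp

private theorem ut1_sq (b k : ℤ) (r : Fin 2) (x : ℂ) :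
    ee (x + (2 * (k : ℂ) + ((r : ℕ) : ℂ)) ^ 2 * (b : ℂ) / 4) =
      ee (((r : ℕ) : ℂ) * (b : ℂ) / 4) * ee x := by
  have hr : ((r : ℕ) : ℂ) ^ 2 = ((r : ℕ) : ℂ) := by
    fin_cases r <;> simp
  have : x + (2 * (k : ℂ) + ((r : ℕ) : ℂ)) ^ 2 * (b : ℂ) / 4 =
      (((r : ℕ) : ℂ) * (b : ℂ) / 4 + x) + (((k ^ 2 + k * ((r : ℕ) : ℤ)) * b : ℤ) : ℂ) := by
    push_cast
    linear_combination (b : ℂ) / 4 * hr
  rw [this, ee_add_int, ee_add]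

theorem isM_U1_odd (p : ℕ) (hp : Odd p) (b : ℤ) (τ : ℍ) :
    IsM p !![1, b; 0, (p : ℤ) ^ 2] τ !![1, 0; 0, ee ((b : ℂ) / 4)] := by
  intro r z
  obtain ⟨q, hq⟩ := hp
  have hp1 : 0 < p := by omega
  have hp0 : (p : ℂ) ≠ 0 := by exact_mod_cast hp1.ne'
  have key : ∀ w : ℂ, (∑' k : ℤ, if (p : ℤ) ∣ 2 * k + ((r : ℕ) : ℤ) then
      ee ((2 * (k : ℂ) + ((r : ℕ) : ℂ)) ^ 2 * (((τ : ℂ) + (b : ℂ)) / (p : ℂ) ^ 2) / 4 +
      (2 * (k : ℂ) + ((r : ℕ) : ℂ)) * (w / (p : ℂ))) else 0) =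
      ee (((r : ℕ) : ℂ) * (b : ℂ) / 4) * th r τ w := by
    intro w
    have hinj : Function.Injective fun k : ℤ ↦ (p : ℤ) * k + (q : ℤ) * ((r : ℕ) : ℤ) := by
      intro x y hxy
      have hpz : (p : ℤ) ≠ 0 := by exact_mod_cast hp1.ne'
      have : (p : ℤ) * x = (p : ℤ) * y := by
        have := hxy
        simp only at this
        linarith
      exact mul_left_cancel₀ hpz this
    rw [← hinj.tsum_eq (f := fun k : ℤ ↦ if (p : ℤ) ∣ 2 * k + ((r : ℕ) : ℤ) then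
      ee ((2 * (k : ℂ) + ((r : ℕ) : ℂ)) ^ 2 * (((τ : ℂ) + (b : ℂ)) / (p : ℂ) ^ 2) / 4 +
      (2 * (k : ℂ) + ((r : ℕ) : ℂ)) * (w / (p : ℂ))) else 0)]
    · unfold th
      rw [← tsum_mul_left]
      refine tsum_congr fun k ↦ ?_
      have hd : (2 * ((p : ℤ) * k + (q : ℤ) * ((r : ℕ) : ℤ)) + ((r : ℕ) : ℤ)) =
          (p : ℤ) * (2 * k + ((r : ℕ) : ℤ)) := by
        rw [hq]
        push_cast
        ring
      have hdc : (2 * ((((p : ℤ) * k + (q : ℤ) * ((r : ℕ) : ℤ)) : ℤ) : ℂ) + ((r : ℕ) : ℂ)) =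
          (p : ℂ) * (2 * (k : ℂ) + ((r : ℕ) : ℂ)) := by
        have := congrArg (Int.cast : ℤ → ℂ) hd
        push_cast at this ⊢
        exact this
      rw [if_pos ⟨_, hd⟩, hdc, ← ut1_sq]
      congr 1
      field_simp
      ring
    · intro k hk
      rw [Function.mem_support] at hk
      by_cases hdv : (p : ℤ) ∣ 2 * k + ((r : ℕ) : ℤ)
      · obtain ⟨c, hc⟩ := hdv
        -- parity of `c`
        have hr : ((r : ℕ) : ℤ) = 0 ∨ ((r : ℕ) : ℤ) = 1 := by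
          fin_cases r <;> simp
        have hpq : (p : ℤ) = 2 * (q : ℤ) + 1 := by rw [hq]; push_cast; ring
        have hc2 : 2 * k + ((r : ℕ) : ℤ) = 2 * ((q : ℤ) * c) + c := by
          rw [hc, hpq]; ring
        refine ⟨(c - ((r : ℕ) : ℤ)) / 2, ?_⟩
        obtain ⟨d, hd⟩ : (2 : ℤ) ∣ c - ((r : ℕ) : ℤ) := by
          refine ⟨k - (q : ℤ) * c, ?_⟩
          linarith
        simp only
        rw [hd, Int.mul_ediv_cancel_left _ (by norm_num : (2 : ℤ) ≠ 0)]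
        have hc3 : c = 2 * d + ((r : ℕ) : ℤ) := by linarith
        rw [hc3] at hc2
        rw [hpq]
        nlinarith [hc2]
      · exact absurd (if_neg hdv) hk
  have hfin : ∀ z : ℂ, ee (((r : ℕ) : ℂ) * (b : ℂ) / 4) * th r τ z =
      ((!![1, 0; 0, ee ((b : ℂ) / 4)] : Matrix (Fin 2) (Fin 2) ℂ) r 0) * th 0 τ z +
      ((!![1, 0; 0, ee ((b : ℂ) / 4)] : Matrix (Fin 2) (Fin 2) ℂ) r 1) * th 1 τ z := by
    intro z
    fin_cases r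
    · simp [ee_zero]
    · simp
  rw [Fin.sum_univ_two]
  exact ut1_avg p hp1 b r τ z _ _ fun w ↦ (key w).trans (hfin w)

private theorem ut1_split (G : ℤ → ℂ) (hG : Summable G) :
    ∑' k : ℤ, G k = ∑' k : ℤ, G (2 * k) + ∑' k : ℤ, G (2 * k + 1) := by
  have hval : ∀ (k : ℤ) (l : Fin 2), (Int.divModEquiv 2).symm (k, l) = 2 * k + (l : ℤ) := by
    intro k l
    simp [Int.divModEquiv]
    ring
  have h1 : ∑' k : ℤ, G k = ∑' x : ℤ × Fin 2, G ((Int.divModEquiv 2).symm x) :=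
    ((Int.divModEquiv 2).symm.tsum_eq G).symm
  have hs : Summable fun x : ℤ × Fin 2 ↦ G ((Int.divModEquiv 2).symm x) :=
    (Int.divModEquiv 2).symm.summable_iff.2 hG
  have hs2 : Summable fun x : Fin 2 × ℤ ↦ G ((Int.divModEquiv 2).symm (x.2, x.1)) := by
    have := (Equiv.prodComm (Fin 2) ℤ).summable_iff.2 hs
    exact this
  have h2 : ∑' x : ℤ × Fin 2, G ((Int.divModEquiv 2).symm x) =
      ∑' x : Fin 2 × ℤ, G ((Int.divModEquiv 2).symm (x.2, x.1)) :=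
    ((Equiv.prodComm (Fin 2) ℤ).tsum_eq fun x : ℤ × Fin 2 ↦
      G ((Int.divModEquiv 2).symm x)).symm
  rw [h1, h2, hs2.tsum_prod, tsum_fintype, Fin.sum_univ_two]
  congr 1
  · refine tsum_congr fun k ↦ ?_
    rw [hval]
    simp
  · refine tsum_congr fun k ↦ ?_
    rw [hval]
    simp

theorem isM_U1_two (p : ℕ) (hp : p = 2) (b : ℤ) (τ : ℍ) :
    IsM p !![1, b; 0, (p : ℤ) ^ 2] τ !![1, ee ((b : ℂ) / 4); 0, 0] := by
  intro r z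
  subst hp
  rw [Fin.sum_univ_two]
  refine ut1_avg 2 (by norm_num) b r τ z _ _ fun w ↦ ?_
  fin_cases r
  · -- `r = 0`
    have hs := ut1_summable 2 (by norm_num) b 0 τ w
    have hev : ∀ k : ℤ, (if ((2 : ℕ) : ℤ) ∣ 2 * k + (((0 : Fin 2) : ℕ) : ℤ) then
      ee ((2 * (k : ℂ) + (((0 : Fin 2) : ℕ) : ℂ)) ^ 2 * (((τ : ℂ) + (b : ℂ)) / ((2 : ℕ) : ℂ) ^ 2) / 4 +
      (2 * (k : ℂ) + (((0 : Fin 2) : ℕ) : ℂ)) * (w / ((2 : ℕ) : ℂ))) else 0) =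
      ee ((2 * (k : ℂ) + (((0 : Fin 2) : ℕ) : ℂ)) ^ 2 * (((τ : ℂ) + (b : ℂ)) / ((2 : ℕ) : ℂ) ^ 2) / 4 +
      (2 * (k : ℂ) + (((0 : Fin 2) : ℕ) : ℂ)) * (w / ((2 : ℕ) : ℂ))) := fun k ↦
      if_pos ⟨k, by simp⟩
    refine (tsum_congr hev).trans ?_
    rw [ut1_split _ hs]
    have h00 : ((!![1, ee ((b : ℂ) / 4); 0, 0] : Matrix (Fin 2) (Fin 2) ℂ) 0 0) = 1 := by simp
    have h01 : ((!![1, ee ((b : ℂ) / 4); 0, 0] : Matrix (Fin 2) (Fin 2) ℂ) 0 1) =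
      ee ((b : ℂ) / 4) := by simp
    change _ = ((!![1, ee ((b : ℂ) / 4); 0, 0] : Matrix (Fin 2) (Fin 2) ℂ) 0 0) * th 0 τ w +
      ((!![1, ee ((b : ℂ) / 4); 0, 0] : Matrix (Fin 2) (Fin 2) ℂ) 0 1) * th 1 τ w
    rw [h00, h01]
    congr 1
    · rw [one_mul]
      unfold th
      refine tsum_congr fun k ↦ ?_
      have := ut1_sq b k 0 ((2 * (k : ℂ) + (((0 : Fin 2) : ℕ) : ℂ)) ^ 2 * (τ : ℂ) / 4 +
        (2 * (k : ℂ) + (((0 : Fin 2) : ℕ) : ℂ)) * w)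
      rw [show ((((0 : Fin 2) : ℕ) : ℂ) * (b : ℂ) / 4) = 0 by simp, ee_zero, one_mul] at this
      rw [← this]
      congr 1
      push_cast
      simp
      ring
    · unfold th
      rw [← tsum_mul_left]
      refine tsum_congr fun k ↦ ?_
      have := ut1_sq b k 1 ((2 * (k : ℂ) + (((1 : Fin 2) : ℕ) : ℂ)) ^ 2 * (τ : ℂ) / 4 +
        (2 * (k : ℂ) + (((1 : Fin 2) : ℕ) : ℂ)) * w)
      rw [show ((((1 : Fin 2) : ℕ) : ℂ) * (b : ℂ) / 4) = (b : ℂ) / 4 by simp] at this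
      rw [← this]
      congr 1
      push_cast
      simp
      ring
  · -- `r = 1`
    have hod : ∀ k : ℤ, (if ((2 : ℕ) : ℤ) ∣ 2 * k + (((1 : Fin 2) : ℕ) : ℤ) then
      ee ((2 * (k : ℂ) + (((1 : Fin 2) : ℕ) : ℂ)) ^ 2 * (((τ : ℂ) + (b : ℂ)) / ((2 : ℕ) : ℂ) ^ 2) / 4 +
      (2 * (k : ℂ) + (((1 : Fin 2) : ℕ) : ℂ)) * (w / ((2 : ℕ) : ℂ))) else 0) = 0 := fun k ↦
      if_neg (by
        rintro ⟨c, hc⟩
        have h1 : (((1 : Fin 2) : ℕ) : ℤ) = 1 := by simp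
        rw [h1] at hc
        push_cast at hc
        omega)
    refine (tsum_congr hod).trans ?_
    simp

end MP836e4b.P
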