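/-
MODULE UT2 (size M), board mod836, MP_836e4b_nt, folder Work/MP_836e4b_nt/P. Keep the statements verbatim, helper lemmas private.
The matrix of (p²,0;0,1): thA z = th r (p²τ) (p z) = ∑_{n=r(2)} e(p²n²τ/4 + pnz), invariant under z -> z+m.
With the factor e(l²τ+2lz) and z -> z+lτ: e((pn+2l)²τ/4 + (pn+2l)z). Sum over 0 ≤ l < p:
p odd: (n,l) -> N = pn+2l is a bijection {n = r mod 2} × [0,p) -> {N = r mod 2} (l is determined mod p by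
2l = N, then n = (N-2l)/p has the parity of N). So the mean is (1/p²) * p * th r = th r / p.
p = 2: N = 2(n+l), l in {0,1}, n = r mod 2: every even N exactly once: mean = (1/4) * 2 * th 0 = th 0/2.
-/
import Mathlib
import Pool.Agent.Work.MP_836e4b_nt.P.Defs
import Pool.Agent.Work.MP_836e4b_nt.P.Th1

open UpperHalfPlane Complex
open scoped MatrixGroups ComplexConjugate Matrix

namespace MP836e4b.P

private theorem ut2_split (p : ℕ) (hp : 0 < p) (G : ℤ → ℂ) (hG : Summable G) :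
    ∑ l ∈ Finset.range p, ∑' k : ℤ, G ((p : ℤ) * k + (l : ℤ)) = ∑' k : ℤ, G k := by
  have : NeZero p := ⟨hp.ne'⟩
  have hval : ∀ (k : ℤ) (l : Fin p), (Int.divModEquiv p).symm (k, l) = (p : ℤ) * k + (l : ℤ) := by
    intro k l
    simp [Int.divModEquiv]
    ring
  have h1 : ∑' k : ℤ, G k = ∑' x : ℤ × Fin p, G ((Int.divModEquiv p).symm x) :=
    ((Int.divModEquiv p).symm.tsum_eq G).symm
  have hs : Summable fun x : ℤ × Fin p ↦ G ((Int.divModEquiv p).symm x) :=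
    (Int.divModEquiv p).symm.summable_iff.2 hG
  have hs2 : Summable fun x : Fin p × ℤ ↦ G ((Int.divModEquiv p).symm (x.2, x.1)) := by
    have := (Equiv.prodComm (Fin p) ℤ).summable_iff.2 hs
    exact this
  have h2 : ∑' x : ℤ × Fin p, G ((Int.divModEquiv p).symm x) =
      ∑' x : Fin p × ℤ, G ((Int.divModEquiv p).symm (x.2, x.1)) :=
    ((Equiv.prodComm (Fin p) ℤ).tsum_eq fun x : ℤ × Fin p ↦
      G ((Int.divModEquiv p).symm x)).symm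
  rw [h1, h2, hs2.tsum_prod, tsum_fintype, ← Fin.sum_univ_eq_sum_range
    (fun l ↦ ∑' k : ℤ, G ((p : ℤ) * k + (l : ℤ)))]
  refine Finset.sum_congr rfl fun l _ ↦ tsum_congr fun k ↦ ?_
  rw [hval]

private theorem ut2_mob (p : ℕ) (hp : 0 < p) (τ : ℍ) :
    ((mob !![(p : ℤ) ^ 2, 0; 0, 1] τ : ℍ) : ℂ) = (p : ℂ) ^ 2 * (τ : ℂ) := by
  have hd : 0 < (!![(p : ℤ) ^ 2, 0; 0, 1] : Mat).det := by
    rw [Matrix.det_fin_two_of]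
    have : (0 : ℤ) < (p : ℤ) ^ 2 := by positivity
    linarith
  rw [coe_mob _ hd]
  simp [jf]

private theorem ut2_term (p : ℕ) (hp : 0 < p) (r : Fin 2) (τ : ℍ) (z : ℂ) (l m : ℕ) :
    ee ((l : ℂ) ^ 2 * (τ : ℂ) + 2 * (l : ℂ) * z) *
      thA p !![(p : ℤ) ^ 2, 0; 0, 1] r τ (z + (l : ℂ) * (τ : ℂ) + (m : ℂ)) =
    ∑' k : ℤ, ee ((2 * (((p : ℤ) * k + (l : ℤ) : ℤ) : ℂ) + (p : ℂ) * ((r : ℕ) : ℂ)) ^ 2 * (τ : ℂ) / 4 +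
      (2 * (((p : ℤ) * k + (l : ℤ) : ℤ) : ℂ) + (p : ℂ) * ((r : ℕ) : ℂ)) * z) := by
  have hj : jf !![(p : ℤ) ^ 2, 0; 0, 1] τ = 1 := by simp [jf]
  unfold thA
  rw [hj]
  have h0 : (((!![(p : ℤ) ^ 2, 0; 0, 1] : Mat) 1 0 : ℤ) : ℂ) = 0 := by simp
  rw [h0]
  have h1 : ee (-(0 * (z + (l : ℂ) * (τ : ℂ) + (m : ℂ)) ^ 2 / 1)) = 1 := by
    rw [show (-(0 * (z + (l : ℂ) * (τ : ℂ) + (m : ℂ)) ^ 2 / 1) : ℂ) = 0 by ring, ee_zero]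
  rw [h1, one_mul]
  unfold th
  rw [ut2_mob p hp τ, ← tsum_mul_left]
  refine tsum_congr fun k ↦ ?_
  rw [← ee_add]
  have : (l : ℂ) ^ 2 * (τ : ℂ) + 2 * (l : ℂ) * z +
      ((2 * (k : ℂ) + ((r : ℕ) : ℂ)) ^ 2 * ((p : ℂ) ^ 2 * (τ : ℂ)) / 4 +
        (2 * (k : ℂ) + ((r : ℕ) : ℂ)) * ((p : ℂ) * (z + (l : ℂ) * (τ : ℂ) + (m : ℂ)) / 1)) =
      ((2 * (((p : ℤ) * k + (l : ℤ) : ℤ) : ℂ) + (p : ℂ) * ((r : ℕ) : ℂ)) ^ 2 * (τ : ℂ) / 4 +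
      (2 * (((p : ℤ) * k + (l : ℤ) : ℤ) : ℂ) + (p : ℂ) * ((r : ℕ) : ℂ)) * z) +
      (((2 * k + ((r : ℕ) : ℤ)) * (p : ℤ) * (m : ℤ) : ℤ) : ℂ) := by
    push_cast
    ring
  rw [this, ee_add_int]

private theorem ut2_shift (r : Fin 2) (τ : ℍ) (z : ℂ) (c : ℤ) :
    ∑' k : ℤ, ee ((2 * ((k + c : ℤ) : ℂ) + ((r : ℕ) : ℂ)) ^ 2 * (τ : ℂ) / 4 +
      (2 * ((k + c : ℤ) : ℂ) + ((r : ℕ) : ℂ)) * z) = th r τ z := by
  unfold th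
  exact (Equiv.addRight c).tsum_eq fun k : ℤ ↦
    ee ((2 * (k : ℂ) + ((r : ℕ) : ℂ)) ^ 2 * (τ : ℂ) / 4 + (2 * (k : ℂ) + ((r : ℕ) : ℂ)) * z)

private theorem ut2_shift_summable (r : Fin 2) (τ : ℍ) (z : ℂ) (c : ℤ) :
    Summable fun k : ℤ ↦ ee ((2 * ((k + c : ℤ) : ℂ) + ((r : ℕ) : ℂ)) ^ 2 * (τ : ℂ) / 4 +
      (2 * ((k + c : ℤ) : ℂ) + ((r : ℕ) : ℂ)) * z) :=
  (Equiv.addRight c).summable_iff.2 (th_summable r τ z)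

private theorem ut2_avg (p : ℕ) (hp : 0 < p) (r s : Fin 2) (c : ℤ)
    (hc : (p : ℤ) * ((r : ℕ) : ℤ) = 2 * c + ((s : ℕ) : ℤ)) (τ : ℍ) (z : ℂ) :
    avg p τ (thA p !![(p : ℤ) ^ 2, 0; 0, 1] r τ) z = (p : ℂ)⁻¹ * th s τ z := by
  unfold avg
  have hc' : (p : ℂ) * ((r : ℕ) : ℂ) = 2 * (c : ℂ) + ((s : ℕ) : ℂ) := by
    exact_mod_cast congrArg (Int.cast : ℤ → ℂ) hc
  have h1 : ∀ l ∈ Finset.range p, ∑ m ∈ Finset.range p,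
      ee ((l : ℂ) ^ 2 * (τ : ℂ) + 2 * (l : ℂ) * z) *
        thA p !![(p : ℤ) ^ 2, 0; 0, 1] r τ (z + (l : ℂ) * (τ : ℂ) + (m : ℂ)) =
      (p : ℂ) * ∑' k : ℤ, (fun j : ℤ ↦ ee ((2 * ((j + c : ℤ) : ℂ) + ((s : ℕ) : ℂ)) ^ 2 * (τ : ℂ) / 4 +
        (2 * ((j + c : ℤ) : ℂ) + ((s : ℕ) : ℂ)) * z)) ((p : ℤ) * k + (l : ℤ)) := by
    intro l _
    rw [Finset.sum_congr rfl fun m _ ↦ ut2_term p hp r τ z l m, Finset.sum_const,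
      Finset.card_range, nsmul_eq_mul]
    congr 1
    refine tsum_congr fun k ↦ ?_
    have : (2 * (((p : ℤ) * k + (l : ℤ) : ℤ) : ℂ) + (p : ℂ) * ((r : ℕ) : ℂ)) =
        (2 * ((((p : ℤ) * k + (l : ℤ)) + c : ℤ) : ℂ) + ((s : ℕ) : ℂ)) := by
      rw [hc']
      push_cast
      ring
    simp only [this]
  rw [Finset.sum_congr rfl h1, ← Finset.mul_sum,
    ut2_split p hp _ (ut2_shift_summable s τ z c), ut2_shift]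
  have hp0 : (p : ℂ) ≠ 0 := by exact_mod_cast hp.ne'
  field_simp

theorem isM_U2_odd (p : ℕ) (hp : Odd p) (τ : ℍ) :
    IsM p !![(p : ℤ) ^ 2, 0; 0, 1] τ ((p : ℂ)⁻¹ • 1) := by
  intro r z
  obtain ⟨q, hq⟩ := hp
  have hp0 : 0 < p := by omega
  rw [ut2_avg p hp0 r r ((q : ℤ) * ((r : ℕ) : ℤ)) (by rw [hq]; push_cast; ring) τ z]
  rw [Fin.sum_univ_two]
  fin_cases r <;> simp [Matrix.smul_apply]

theorem isM_U2_two (p : ℕ) (hp : p = 2) (τ : ℍ) :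
    IsM p !![(p : ℤ) ^ 2, 0; 0, 1] τ !![1 / 2, 0; 1 / 2, 0] := by
  intro r z
  have hp0 : 0 < p := by omega
  rw [ut2_avg p hp0 r 0 ((r : ℕ) : ℤ) (by rw [hp]; push_cast; simp) τ z]
  rw [Fin.sum_univ_two, hp]
  fin_cases r <;> simp

end MP836e4b.P
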