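/-
MODULE UT3 (size M-L), board mod836, MP_836e4b_nt, folder Work/MP_836e4b_nt/P. Keep the statements verbatim, helper lemmas private.
The matrix of (p,b;0,p): thA z = th r (τ+b/p) z = ∑_{n=r(2)} e(bn²/(4p)) e(n²τ/4+nz), invariant under
z -> z+m. With the translation l: e(bn²/(4p)) e((n+2l)²τ/4+(n+2l)z); put N = n+2l: coefficient of
e(N²τ/4+Nz) (N = r mod 2) in the mean: (1/p) ∑_{0≤l<p} e(b(N-2l)²/(4p)).
p odd, N even (r=0): N-2l = 2y, y runs over a complete system mod p: (1/p) ∑ e(by²/p) = gq b p/p.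
p odd, N odd: N-2l = p+2y, (p+2y)² = p²+4py+4y²: e(b(p/4+y+y²/p)): (1/p) e(pb/4) gq b p.
p = 2, b = 0: identity. p = 2, b = 1: N even: e(y²/2)+e((y-1)²/2) = 0; N odd: e(N'^2/8) = e(1/8) for
both l. (e(b x²/(4p)) for the sum over l depends only on the class because b((x+2p)²-x²)/(4p) = b(x+p),
an integer.)
-/
import Mathlib
import Pool.Agent.Work.MP_836e4b_nt.P.Defs
import Pool.Agent.Work.MP_836e4b_nt.P.Th1

open UpperHalfPlane Complex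
open scoped MatrixGroups ComplexConjugate Matrix

namespace MP836e4b.P

private theorem ut3_norm (x : ℝ) : ‖ee (x : ℂ)‖ = 1 := by
  rw [norm_ee]
  simp

/-- the slashed theta function of `(p, b; 0, p)` -/
private theorem ut3_thA (p : ℕ) (hp : 0 < p) (b : ℤ) (r : Fin 2) (τ : ℍ) (z : ℂ) :
    thA p !![(p : ℤ), b; 0, (p : ℤ)] r τ z =
      ∑' k : ℤ, ee ((2 * (k : ℂ) + ((r : ℕ) : ℂ)) ^ 2 * ((τ : ℂ) + (b : ℂ) / (p : ℂ)) / 4 +
        (2 * (k : ℂ) + ((r : ℕ) : ℂ)) * z) := by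
  have hp0 : (p : ℂ) ≠ 0 := by exact_mod_cast hp.ne'
  have hj : jf !![(p : ℤ), b; 0, (p : ℤ)] τ = (p : ℂ) := by simp [jf]
  have hd : 0 < (!![(p : ℤ), b; 0, (p : ℤ)] : Mat).det := by
    rw [Matrix.det_fin_two_of, mul_zero, sub_zero]
    have : (0 : ℤ) < (p : ℤ) := by exact_mod_cast hp
    positivity
  have hm : ((mob !![(p : ℤ), b; 0, (p : ℤ)] τ : ℍ) : ℂ) = (τ : ℂ) + (b : ℂ) / (p : ℂ) := by
    rw [coe_mob _ hd τ, hj]
    simp only [Matrix.of_apply, Matrix.cons_val', Matrix.cons_val_zero, Matrix.cons_val_one,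
      Int.cast_natCast]
    field_simp
  have h0 : ((!![(p : ℤ), b; 0, (p : ℤ)] : Mat) 1 0 : ℂ) = 0 := by simp
  unfold thA th
  rw [hj, hm, h0, zero_mul, zero_div, neg_zero, ee_zero, one_mul, mul_div_cancel_left₀ _ hp0]

/-- one term of the mean -/
private theorem ut3_term (p : ℕ) (hp : 0 < p) (b : ℤ) (r : Fin 2) (τ : ℍ) (z : ℂ) (l m : ℕ) :
    ee ((l : ℂ) ^ 2 * (τ : ℂ) + 2 * (l : ℂ) * z) *
        thA p !![(p : ℤ), b; 0, (p : ℤ)] r τ (z + (l : ℂ) * (τ : ℂ) + (m : ℂ)) =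
      ∑' k : ℤ, ee ((b : ℂ) * (2 * (k : ℂ) + ((r : ℕ) : ℂ) - 2 * (l : ℂ)) ^ 2 / (4 * (p : ℂ))) *
        ee ((2 * (k : ℂ) + ((r : ℕ) : ℂ)) ^ 2 * (τ : ℂ) / 4 +
          (2 * (k : ℂ) + ((r : ℕ) : ℂ)) * z) := by
  have hp0 : (p : ℂ) ≠ 0 := by exact_mod_cast hp.ne'
  rw [ut3_thA p hp, ← tsum_mul_left, ← (Equiv.subRight (l : ℤ)).tsum_eq]
  apply tsum_congr
  intro k
  rw [← ee_add, ← ee_add]
  have h1 : ((Equiv.subRight (l : ℤ)) k : ℤ) = k - (l : ℤ) := rfl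
  rw [h1]
  have h2 : (l : ℂ) ^ 2 * (τ : ℂ) + 2 * (l : ℂ) * z +
      ((2 * ((k - (l : ℤ) : ℤ) : ℂ) + ((r : ℕ) : ℂ)) ^ 2 * ((τ : ℂ) + (b : ℂ) / (p : ℂ)) / 4 +
        (2 * ((k - (l : ℤ) : ℤ) : ℂ) + ((r : ℕ) : ℂ)) * (z + (l : ℂ) * (τ : ℂ) + (m : ℂ))) =
      (b : ℂ) * (2 * (k : ℂ) + ((r : ℕ) : ℂ) - 2 * (l : ℂ)) ^ 2 / (4 * (p : ℂ)) +
        ((2 * (k : ℂ) + ((r : ℕ) : ℂ)) ^ 2 * (τ : ℂ) / 4 +
          (2 * (k : ℂ) + ((r : ℕ) : ℂ)) * z) +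
        (((2 * (k - l) + ((r : ℕ) : ℤ)) * m : ℤ) : ℂ) := by
    push_cast
    field_simp
    ring
  rw [h2, ee_add_int]

/-- the coefficient of the mean -/
private noncomputable def ut3_co (p : ℕ) (b : ℤ) (r : Fin 2) (k : ℤ) : ℂ :=
  (p : ℂ)⁻¹ * ∑ l ∈ Finset.range p,
    ee ((b : ℂ) * (2 * (k : ℂ) + ((r : ℕ) : ℂ) - 2 * (l : ℂ)) ^ 2 / (4 * (p : ℂ)))

private theorem ut3_avg (p : ℕ) (hp : 0 < p) (b : ℤ) (r : Fin 2) (τ : ℍ) (z : ℂ) :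
    avg p τ (thA p !![(p : ℤ), b; 0, (p : ℤ)] r τ) z =
      ∑' k : ℤ, ut3_co p b r k * ee ((2 * (k : ℂ) + ((r : ℕ) : ℂ)) ^ 2 * (τ : ℂ) / 4 +
          (2 * (k : ℂ) + ((r : ℕ) : ℂ)) * z) := by
  have hp0 : (p : ℂ) ≠ 0 := by exact_mod_cast hp.ne'
  have hs : ∀ l ∈ Finset.range p, Summable fun k : ℤ ↦
      ee ((b : ℂ) * (2 * (k : ℂ) + ((r : ℕ) : ℂ) - 2 * (l : ℂ)) ^ 2 / (4 * (p : ℂ))) *
        ee ((2 * (k : ℂ) + ((r : ℕ) : ℂ)) ^ 2 * (τ : ℂ) / 4 +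
          (2 * (k : ℂ) + ((r : ℕ) : ℂ)) * z) := by
    intro l _
    apply Summable.of_norm_bounded (th_summable r τ z).norm
    intro k
    rw [norm_mul]
    have h1 : (b : ℂ) * (2 * (k : ℂ) + ((r : ℕ) : ℂ) - 2 * (l : ℂ)) ^ 2 / (4 * (p : ℂ)) =
        (((b : ℝ) * (2 * (k : ℝ) + ((r : ℕ) : ℝ) - 2 * (l : ℝ)) ^ 2 / (4 * (p : ℝ)) : ℝ) : ℂ) := by
      push_cast
      ring
    rw [h1, ut3_norm, one_mul]
  unfold avg
  have h1 : ∀ l ∈ Finset.range p, ∑ m ∈ Finset.range p,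
      ee ((l : ℂ) ^ 2 * (τ : ℂ) + 2 * (l : ℂ) * z) *
        thA p !![(p : ℤ), b; 0, (p : ℤ)] r τ (z + (l : ℂ) * (τ : ℂ) + (m : ℂ)) =
      (p : ℂ) * ∑' k : ℤ,
        ee ((b : ℂ) * (2 * (k : ℂ) + ((r : ℕ) : ℂ) - 2 * (l : ℂ)) ^ 2 / (4 * (p : ℂ))) *
        ee ((2 * (k : ℂ) + ((r : ℕ) : ℂ)) ^ 2 * (τ : ℂ) / 4 +
          (2 * (k : ℂ) + ((r : ℕ) : ℂ)) * z) := by
    intro l _
    rw [Finset.sum_congr rfl (fun m _ ↦ ut3_term p hp b r τ z l m)]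
    rw [Finset.sum_const, Finset.card_range, nsmul_eq_mul]
  rw [Finset.sum_congr rfl h1, ← Finset.mul_sum, ← Summable.tsum_finsetSum hs]
  rw [← tsum_mul_left, ← tsum_mul_left]
  apply tsum_congr
  intro k
  unfold ut3_co
  rw [← Finset.sum_mul]
  field_simp

/-- constant coefficients -/
private theorem ut3_const (p : ℕ) (hp : 0 < p) (b : ℤ) (r : Fin 2) (τ : ℍ) (z : ℂ) (c : ℂ)
    (hc : ∀ k, ut3_co p b r k = c) :
    avg p τ (thA p !![(p : ℤ), b; 0, (p : ℤ)] r τ) z = c * th r τ z := by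
  rw [ut3_avg p hp]
  unfold th
  rw [← tsum_mul_left]
  apply tsum_congr
  intro k
  rw [hc]

/-- a sum over a complete system of residues -/
private theorem ut3_shift (p : ℕ) (f : ℤ → ℂ) (hf : ∀ y : ℤ, f (y + p) = f y) (s : ℤ) :
    ∑ l ∈ Finset.range p, f (s - l) = ∑ l ∈ Finset.range p, f (l : ℤ) := by
  have h1 : ∑ l ∈ Finset.range p, f (s - l) = ∑ l ∈ Finset.range p, f (s + 1 - p + l) := by
    rw [← Finset.sum_range_reflect]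
    apply Finset.sum_congr rfl
    intro l hl
    rw [Finset.mem_range] at hl
    congr 1
    omega
  have h2 : ∀ t : ℤ, ∑ l ∈ Finset.range p, f (t + 1 + l) = ∑ l ∈ Finset.range p, f (t + l) := by
    intro t
    have e1 := Finset.sum_range_succ (fun l : ℕ ↦ f (t + l)) p
    have e2 := Finset.sum_range_succ' (fun l : ℕ ↦ f (t + l)) p
    rw [e1] at e2
    have e3 : f (t + (p : ℕ)) = f t := by
      have := hf t
      exact this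
    have e4 : ∑ l ∈ Finset.range p, f (t + ((l + 1 : ℕ) : ℤ)) =
        ∑ l ∈ Finset.range p, f (t + 1 + l) := by
      apply Finset.sum_congr rfl
      intro l _
      congr 1
      push_cast
      ring
    rw [e4, e3] at e2
    simp only [Nat.cast_zero, add_zero] at e2
    exact (add_right_cancel e2).symm
  have h3 : ∀ t : ℤ, ∑ l ∈ Finset.range p, f (t + l) = ∑ l ∈ Finset.range p, f (l : ℤ) := by
    intro t
    induction t using Int.induction_on with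
    | zero => simp
    | succ n ih => rw [h2, ih]
    | pred n ih =>
      have := h2 (-(n : ℤ) - 1)
      rw [← this, ← ih]
      apply Finset.sum_congr rfl
      intro l _
      congr 1
      ring
  rw [h1, h3]

private theorem ut3_gauss (p : ℕ) (hp : 0 < p) (b : ℤ) (s : ℤ) :
    ∑ l ∈ Finset.range p, ee ((b : ℂ) * (((s - l : ℤ)) : ℂ) ^ 2 / (p : ℂ)) = gq b p := by
  have hp0 : (p : ℂ) ≠ 0 := by exact_mod_cast hp.ne'
  unfold gq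
  have := ut3_shift p (fun y : ℤ ↦ ee ((b : ℂ) * (y : ℂ) ^ 2 / (p : ℂ))) (by
    intro y
    have h1 : (b : ℂ) * ((y + p : ℤ) : ℂ) ^ 2 / (p : ℂ) =
        (b : ℂ) * (y : ℂ) ^ 2 / (p : ℂ) + ((b * (2 * y + p) : ℤ) : ℂ) := by
      push_cast
      field_simp
      ring
    change ee ((b : ℂ) * ((y + p : ℤ) : ℂ) ^ 2 / (p : ℂ)) = _
    rw [h1, ee_add_int]) s
  simpa using this

private theorem ut3_co_even (p : ℕ) (hp : 0 < p) (b k : ℤ) :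
    ut3_co p b 0 k = (p : ℂ)⁻¹ * gq b p := by
  have hp0 : (p : ℂ) ≠ 0 := by exact_mod_cast hp.ne'
  unfold ut3_co
  rw [← ut3_gauss p hp b k]
  congr 1
  apply Finset.sum_congr rfl
  intro l _
  congr 1
  push_cast
  simp only [Fin.val_zero, Nat.cast_zero, add_zero]
  field_simp
  ring

private theorem ut3_co_odd (p : ℕ) (hp : Odd p) (b k : ℤ) :
    ut3_co p b 1 k = (p : ℂ)⁻¹ * gq b p * ee ((p : ℂ) * (b : ℂ) / 4) := by
  obtain ⟨q, rfl⟩ := hp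
  have hp0 : ((2 * q + 1 : ℕ) : ℂ) ≠ 0 := Nat.cast_ne_zero.2 (Nat.succ_ne_zero _)
  unfold ut3_co
  rw [← ut3_gauss (2 * q + 1) (Nat.succ_pos _) b (k - q), mul_assoc, Finset.sum_mul]
  congr 1
  apply Finset.sum_congr rfl
  intro l _
  rw [← ee_add]
  have h1 : (b : ℂ) * (2 * (k : ℂ) + ((1 : Fin 2) : ℕ) - 2 * (l : ℂ)) ^ 2 /
      (4 * ((2 * q + 1 : ℕ) : ℂ)) =
      (b : ℂ) * ((k - q - l : ℤ) : ℂ) ^ 2 / ((2 * q + 1 : ℕ) : ℂ) +
        ((2 * q + 1 : ℕ) : ℂ) * (b : ℂ) / 4 + ((b * (k - q - l) : ℤ) : ℂ) := by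
    have e : (((1 : Fin 2) : ℕ) : ℂ) = 1 := by simp
    rw [e]
    push_cast at hp0 ⊢
    field_simp
    ring
  rw [h1, ee_add_int]

theorem isM_U3_odd (p : ℕ) (hp : Odd p) (b : ℤ) (τ : ℍ) :
    IsM p !![(p : ℤ), b; 0, (p : ℤ)] τ
      (((p : ℂ)⁻¹ * gq b p) • !![1, 0; 0, ee ((p : ℂ) * (b : ℂ) / 4)]) := by
  have hpp : 0 < p := hp.pos
  intro r z
  fin_cases r
  · have := ut3_const p hpp b 0 τ z _ (ut3_co_even p hpp b)
    simp [Fin.sum_univ_two, this]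
  · have := ut3_const p hpp b 1 τ z _ (ut3_co_odd p hp b)
    simp [Fin.sum_univ_two, this]

theorem isM_U3_two_zero (p : ℕ) (hp : p = 2) (τ : ℍ) :
    IsM p !![(p : ℤ), 0; 0, (p : ℤ)] τ 1 := by
  subst hp
  have h : ∀ (r : Fin 2) (z : ℂ),
      avg 2 τ (thA 2 !![((2 : ℕ) : ℤ), 0; 0, ((2 : ℕ) : ℤ)] r τ) z = 1 * th r τ z := by
    intro r z
    refine ut3_const 2 (by norm_num) 0 r τ z 1 ?_
    intro k
    unfold ut3_co
    simp [ee_zero]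
  intro r z
  rw [h, one_mul, Fin.sum_univ_two]
  fin_cases r
  · change _ = (1 : Matrix (Fin 2) (Fin 2) ℂ) 0 0 * _ + (1 : Matrix (Fin 2) (Fin 2) ℂ) 0 1 * _
    simp
  · change _ = (1 : Matrix (Fin 2) (Fin 2) ℂ) 1 0 * _ + (1 : Matrix (Fin 2) (Fin 2) ℂ) 1 1 * _
    simp

theorem isM_U3_two_one (p : ℕ) (hp : p = 2) (τ : ℍ) :
    IsM p !![(p : ℤ), 1; 0, (p : ℤ)] τ !![0, 0; 0, ee (1 / 8)] := by
  subst hp
  have hhalf : ee (1 / 2) = -1 := by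
    unfold ee
    rw [show 2 * (Real.pi : ℂ) * Complex.I * (1 / 2) = (Real.pi : ℂ) * Complex.I by ring]
    exact Complex.exp_pi_mul_I
  intro r z
  fin_cases r
  · have h := ut3_const 2 (by norm_num) 1 0 τ z 0 (by
      intro k
      unfold ut3_co
      rw [Finset.sum_range_succ, Finset.sum_range_succ, Finset.sum_range_zero, zero_add]
      rcases Int.even_or_odd' k with ⟨j, rfl | rfl⟩
      · have e1 : ((1 : ℤ) : ℂ) * (2 * ((2 * j : ℤ) : ℂ) + (((0 : Fin 2) : ℕ) : ℂ) -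
            2 * ((0 : ℕ) : ℂ)) ^ 2 / (4 * ((2 : ℕ) : ℂ)) = 0 + ((2 * j ^ 2 : ℤ) : ℂ) := by
          simp
          ring
        have e2 : ((1 : ℤ) : ℂ) * (2 * ((2 * j : ℤ) : ℂ) + (((0 : Fin 2) : ℕ) : ℂ) -
            2 * ((1 : ℕ) : ℂ)) ^ 2 / (4 * ((2 : ℕ) : ℂ)) = 1 / 2 + ((2 * j ^ 2 - 2 * j : ℤ) : ℂ) := by
          simp
          ring
        rw [e1, e2, ee_add_int, ee_add_int, ee_zero, hhalf]
        ring
      · have e1 : ((1 : ℤ) : ℂ) * (2 * ((2 * j + 1 : ℤ) : ℂ) + (((0 : Fin 2) : ℕ) : ℂ) -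
            2 * ((0 : ℕ) : ℂ)) ^ 2 / (4 * ((2 : ℕ) : ℂ)) = 1 / 2 + ((2 * j ^ 2 + 2 * j : ℤ) : ℂ) := by
          simp
          ring
        have e2 : ((1 : ℤ) : ℂ) * (2 * ((2 * j + 1 : ℤ) : ℂ) + (((0 : Fin 2) : ℕ) : ℂ) -
            2 * ((1 : ℕ) : ℂ)) ^ 2 / (4 * ((2 : ℕ) : ℂ)) = 0 + ((2 * j ^ 2 : ℤ) : ℂ) := by
          simp
          ring
        rw [e1, e2, ee_add_int, ee_add_int, ee_zero, hhalf]
        ring)
    have h' : avg 2 τ (thA 2 !![((2 : ℕ) : ℤ), 1; 0, ((2 : ℕ) : ℤ)] 0 τ) z = 0 := by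
      rw [h, zero_mul]
    simpa [Fin.sum_univ_two] using h'
  · have h := ut3_const 2 (by norm_num) 1 1 τ z (ee (1 / 8)) (by
      intro k
      unfold ut3_co
      rw [Finset.sum_range_succ, Finset.sum_range_succ, Finset.sum_range_zero, zero_add]
      have key : ∀ y : ℤ, ee ((2 * (y : ℂ) + 1) ^ 2 / 8) = ee (1 / 8) := by
        intro y
        obtain ⟨j, hj⟩ := Int.even_mul_succ_self y
        have hjc : (y : ℂ) * ((y : ℂ) + 1) = (j : ℂ) + (j : ℂ) := by exact_mod_cast hj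
        have e1 : (2 * (y : ℂ) + 1) ^ 2 / 8 = 1 / 8 + ((j : ℤ) : ℂ) := by
          linear_combination hjc / 2
        rw [e1, ee_add_int]
      have e1 : ((1 : ℤ) : ℂ) * (2 * (k : ℂ) + (((1 : Fin 2) : ℕ) : ℂ) -
            2 * ((0 : ℕ) : ℂ)) ^ 2 / (4 * ((2 : ℕ) : ℂ)) = (2 * (k : ℂ) + 1) ^ 2 / 8 := by
        simp
        ring
      have e2 : ((1 : ℤ) : ℂ) * (2 * (k : ℂ) + (((1 : Fin 2) : ℕ) : ℂ) -
            2 * ((1 : ℕ) : ℂ)) ^ 2 / (4 * ((2 : ℕ) : ℂ)) = (2 * ((k - 1 : ℤ) : ℂ) + 1) ^ 2 / 8 := by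
        simp
        ring
      rw [e1, e2, key, key]
      push_cast
      ring)
    have h' : avg 2 τ (thA 2 !![((2 : ℕ) : ℤ), 1; 0, ((2 : ℕ) : ℤ)] 1 τ) z =
        ee (1 / 8) * th 1 τ z := h
    simpa [Fin.sum_univ_two] using h'

end MP836e4b.P
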