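/-
MODULE MA4 (size M), board mod836, MP_836e4b_nt, folder Work/MP_836e4b_nt/P. Keep the statements verbatim, helper lemmas private.
For p prime and det A = p²: A = γβ (exists_rep) and β has a matrix (UT1, UT2, UT3; for p = 2 the
representatives are b in {0,1} for the middle family), so IsM p A τ (M p A τ) for every A of determinant
p² (isM_left, M_eq). Then M p (γA) τ = M 1 γ (Aτ) M p A τ, M p (Aγ) τ = M p A (γτ) M 1 γ τ by uniqueness, the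
same for E (transpose or conjugate transpose reverses the order; j is multiplicative, jf_mul), and
the slash rules. sl_mul: the case p = 1 (M_mul).
-/
import Mathlib
import Pool.Agent.Work.MP_836e4b_nt.P.Defs
import Pool.Agent.Work.MP_836e4b_nt.P.MA3
import Pool.Agent.Work.MP_836e4b_nt.P.UT1
import Pool.Agent.Work.MP_836e4b_nt.P.UT2
import Pool.Agent.Work.MP_836e4b_nt.P.UT3
import Pool.Agent.Work.MP_836e4b_nt.P.CosR

open UpperHalfPlane Complex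
open scoped MatrixGroups ComplexConjugate Matrix

namespace MP836e4b.P

private theorem ma4_rep (p : ℕ) (hp : p.Prime) (β : Mat) (h : IsRep p β) (τ : ℍ) :
    ∃ m, IsM p β τ m := by
  rcases hp.eq_two_or_odd' with h2 | hodd
  · rcases h with h | ⟨b, hb, h⟩ | ⟨b, hb, h⟩
    · rw [h]
      exact ⟨_, isM_U2_two p h2 τ⟩
    · have hb2 : b = 0 ∨ b = 1 := by omega
      rcases hb2 with h0 | h0
      · rw [h, h0, Nat.cast_zero]
        exact ⟨_, isM_U3_two_zero p h2 τ⟩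
      · rw [h, h0, Nat.cast_one]
        exact ⟨_, isM_U3_two_one p h2 τ⟩
    · rw [h]
      exact ⟨_, isM_U1_two p h2 b τ⟩
  · rcases h with h | ⟨b, hb, h⟩ | ⟨b, hb, h⟩
    · rw [h]
      exact ⟨_, isM_U2_odd p hodd τ⟩
    · rw [h]
      exact ⟨_, isM_U3_odd p hodd b τ⟩
    · rw [h]
      exact ⟨_, isM_U1_odd p hodd b τ⟩

private theorem ma4_pos (γ : SL(2, ℤ)) : 0 < (γ : Mat).det := by
  have h : (γ : Mat).det = 1 := γ.det_coe
  rw [h]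
  exact one_pos

private theorem ma4_pos' {p : ℕ} (hp : p.Prime) {A : Mat} (hA : A.det = (p : ℤ) ^ 2) :
    0 < A.det := by
  have h := hp.pos
  rw [hA]
  positivity

private theorem ma4_E (κ p q s : ℕ) (A B : Mat) (hA : 0 < A.det) (hB : 0 < B.det) (τ : ℍ)
    (hM : M s (A * B) τ = M p A (mob B τ) * M q B τ) :
    E κ s (A * B) τ = E κ q B τ * E κ p A (mob B τ) := by
  unfold E
  split_ifs with hk
  · rw [hM, jf_mul A B hA hB, norm_mul, Matrix.conjTranspose_mul, Matrix.smul_mul,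
      Matrix.mul_smul, smul_smul, Complex.ofReal_mul, mul_inv,
      mul_comm (((‖jf A (mob B τ)‖ : ℝ) : ℂ)⁻¹)]
  · rw [hM, jf_mul A B hA hB, Matrix.transpose_mul, Matrix.smul_mul,
      Matrix.mul_smul, smul_smul, mul_inv, mul_comm ((jf A (mob B τ))⁻¹)]

private theorem ma4_sl (κ p q s : ℕ) (A B : Mat) (hA : 0 < A.det) (hB : 0 < B.det) (h : VF)
    (hE : ∀ τ, E κ s (A * B) τ = E κ q B τ * E κ p A (mob B τ)) :
    sl κ q B (sl κ p A h) = sl κ s (A * B) h := by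
  funext τ
  unfold sl
  rw [hE τ, jf_mul A B hA hB, mob_mul A B hA hB, Matrix.mulVec_smul, smul_smul,
    Matrix.mulVec_mulVec, mul_pow, mul_inv, mul_comm ((jf A (mob B τ) ^ κ)⁻¹)]

theorem isM_all (p : ℕ) (hp : p.Prime) (A : Mat) (hA : A.det = (p : ℤ) ^ 2) (τ : ℍ) :
    IsM p A τ (M p A τ) := by
  obtain ⟨γ, β, hβ, hA'⟩ := exists_rep p hp A hA
  obtain ⟨m, hm⟩ := ma4_rep p hp β hβ τ
  apply isM_M
  rw [hA']
  exact ⟨_, isM_left p hp.pos γ β (isRep_det hβ) τ hm⟩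

theorem M_left (p : ℕ) (hp : p.Prime) (γ : SL(2, ℤ)) (A : Mat) (hA : A.det = (p : ℤ) ^ 2) (τ : ℍ) :
    M p ((γ : Mat) * A) τ = M 1 (γ : Mat) (mob A τ) * M p A τ :=
  M_eq (isM_left p hp.pos γ A hA τ (isM_all p hp A hA τ))

theorem M_right (p : ℕ) (hp : p.Prime) (γ : SL(2, ℤ)) (A : Mat) (hA : A.det = (p : ℤ) ^ 2)
    (τ : ℍ) : M p (A * (γ : Mat)) τ = M p A (mob (γ : Mat) τ) * M 1 (γ : Mat) τ :=
  M_eq (isM_right p hp.pos γ A hA τ (isM_all p hp A hA (mob (γ : Mat) τ)))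

theorem E_mul (κ : ℕ) (γ γ' : SL(2, ℤ)) (τ : ℍ) :
    E κ 1 ((γ : Mat) * (γ' : Mat)) τ =
      E κ 1 (γ' : Mat) τ * E κ 1 (γ : Mat) (mob (γ' : Mat) τ) :=
  ma4_E κ 1 1 1 (γ : Mat) (γ' : Mat) (ma4_pos γ) (ma4_pos γ') τ (M_mul γ γ' τ)

theorem sl_mul (κ : ℕ) (γ γ' : SL(2, ℤ)) (h : VF) :
    sl κ 1 (γ' : Mat) (sl κ 1 (γ : Mat) h) = sl κ 1 ((γ : Mat) * (γ' : Mat)) h :=
  ma4_sl κ 1 1 1 (γ : Mat) (γ' : Mat) (ma4_pos γ) (ma4_pos γ') h (E_mul κ γ γ')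

theorem sl_left (κ p : ℕ) (hp : p.Prime) (γ : SL(2, ℤ)) (A : Mat) (hA : A.det = (p : ℤ) ^ 2)
    (h : VF) : sl κ p A (sl κ 1 (γ : Mat) h) = sl κ p ((γ : Mat) * A) h :=
  ma4_sl κ 1 p p (γ : Mat) A (ma4_pos γ) (ma4_pos' hp hA) h fun τ ↦
    ma4_E κ 1 p p (γ : Mat) A (ma4_pos γ) (ma4_pos' hp hA) τ (M_left p hp γ A hA τ)

theorem sl_right (κ p : ℕ) (hp : p.Prime) (γ : SL(2, ℤ)) (A : Mat) (hA : A.det = (p : ℤ) ^ 2)
    (h : VF) : sl κ 1 (γ : Mat) (sl κ p A h) = sl κ p (A * (γ : Mat)) h :=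
  ma4_sl κ p 1 p A (γ : Mat) (ma4_pos' hp hA) (ma4_pos γ) h fun τ ↦
    ma4_E κ p 1 p A (γ : Mat) (ma4_pos' hp hA) (ma4_pos γ) τ (M_right p hp γ A hA τ)

end MP836e4b.P
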