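/-
MODULE LwE (size M), board mod836, MP_836e4b_nt, folder Work/MP_836e4b_nt/P. Keep the statements verbatim, helper lemmas private.
The scalar does not depend on τ and is multiplicative. jf γ τ = D c τ + d = jf γ' (Dτ) with the same principal
root, so by M_branch and E_branch the product E κ 1 γ τ * M 1 γ' (Dτ) is constant in τ; law_scalar: it is
eps • 1 with eps its (0,0) entry at τ = i. eps_mul: for γ1 γ2: E(γ1γ2,τ) = E(γ2,τ) E(γ1,γ2τ) (E_mul), M(γ1'γ2', Dτ) =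
M(γ1', γ2'Dτ) M(γ2', Dτ) (M_mul), (γ1γ2)' = γ1'γ2', D(γ2τ) = γ2'(Dτ). The product of
(a1,b1;Dc1,d1),(a2,b2;Dc2,d2) is (a1a2+Db1c2, a1b2+b1d2; D(c1a2+d1c2), Dc1b2+d1d2).
-/
import Mathlib
import Pool.Agent.Work.MP_836e4b_nt.P.Defs
import Pool.Agent.Work.MP_836e4b_nt.P.LwU
import Pool.Agent.Work.MP_836e4b_nt.P.LwH
import Pool.Agent.Work.MP_836e4b_nt.P.MA4

open UpperHalfPlane Complex
open scoped MatrixGroups ComplexConjugate Matrix

namespace MP836e4b.P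

/-- The scalar of `γ = (a,b;Dc,d)`. -/
noncomputable def eps (D κ : ℕ) (a b c d : ℤ) : ℂ :=
  (E κ 1 !![a, b; (D : ℤ) * c, d] UpperHalfPlane.I *
    M 1 !![a, (D : ℤ) * b; c, d] (mob !![(D : ℤ), 0; 0, 1] UpperHalfPlane.I)) 0 0

private theorem lwe_gam {a b c d : ℤ} {D : ℤ} (h : a * d - D * b * c = 1) :
    ∃ γ : SL(2, ℤ), (γ : Mat) = !![a, b; D * c, d] :=
  ⟨⟨!![a, b; D * c, d], by rw [Matrix.det_fin_two_of]; linarith⟩, rfl⟩

private theorem lwe_gam' {a b c d : ℤ} {D : ℤ} (h : a * d - D * b * c = 1) :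
    ∃ γ : SL(2, ℤ), (γ : Mat) = !![a, D * b; c, d] :=
  ⟨⟨!![a, D * b; c, d], by rw [Matrix.det_fin_two_of]; linarith⟩, rfl⟩

private theorem lwe_mob (D : ℕ) (hD : 0 < D) (τ : ℍ) :
    ((mob !![(D : ℤ), 0; 0, 1] τ : ℍ) : ℂ) = (D : ℂ) * (τ : ℂ) := by
  have hd : 0 < (!![(D : ℤ), 0; 0, 1] : Mat).det := by
    rw [Matrix.det_fin_two_of]
    have : (0 : ℤ) < (D : ℤ) := by exact_mod_cast hD
    linarith
  rw [coe_mob _ hd]
  simp [jf]

private theorem lwe_const (D κ : ℕ) (hD : 0 < D) (a b c d : ℤ)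
    (h : a * d - (D : ℤ) * b * c = 1) :
    ∃ W : Matrix (Fin 2) (Fin 2) ℂ, ∀ τ : ℍ,
      E κ 1 !![a, b; (D : ℤ) * c, d] τ * M 1 !![a, (D : ℤ) * b; c, d] (mob !![(D : ℤ), 0; 0, 1] τ) =
        W := by
  obtain ⟨γ, hγ⟩ := lwe_gam h
  obtain ⟨γ', hγ'⟩ := lwe_gam' h
  obtain ⟨U, hU⟩ := E_branch κ γ
  obtain ⟨U', hU'⟩ := M_branch γ'
  refine ⟨U * U', fun τ ↦ ?_⟩
  rw [← hγ, ← hγ', hU, hU']
  have hj : jf (γ' : Mat) (mob !![(D : ℤ), 0; 0, 1] τ) = jf (γ : Mat) τ := by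
    rw [hγ, hγ']
    unfold jf
    rw [lwe_mob D hD]
    simp
    ring
  have hj0 : jf (γ : Mat) τ ≠ 0 := jf_ne_zero _ (by rw [γ.det_coe]; exact one_ne_zero) τ
  have hj1 : (jf (γ : Mat) τ) ^ (1 / 2 : ℂ) ≠ 0 := by
    rw [Complex.cpow_def_of_ne_zero hj0]
    exact Complex.exp_ne_zero _
  rw [hj, Matrix.smul_mul, Matrix.mul_smul, smul_smul, inv_mul_cancel₀ hj1, one_smul]

theorem eps_spec (D κ : ℕ) (hD : 0 < D) (hD4 : D % 4 = cls κ 1) (a b c d : ℤ)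
    (h : a * d - (D : ℤ) * b * c = 1) (τ : ℍ) :
    E κ 1 !![a, b; (D : ℤ) * c, d] τ * M 1 !![a, (D : ℤ) * b; c, d] (mob !![(D : ℤ), 0; 0, 1] τ) =
      eps D κ a b c d • (1 : Matrix (Fin 2) (Fin 2) ℂ) := by
  obtain ⟨W, hW⟩ := lwe_const D κ hD a b c d h
  obtain ⟨s, hs⟩ := law_scalar D κ hD4 a b c d h UpperHalfPlane.I
    (mob !![(D : ℤ), 0; 0, 1] UpperHalfPlane.I)
  have h1 : eps D κ a b c d = s := by
    unfold eps
    rw [hs]
    simp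
  rw [h1, ← hs, hW, hW]

theorem eps_mul (D κ : ℕ) (hD : 0 < D) (hD4 : D % 4 = cls κ 1) (a b c d a' b' c' d' : ℤ)
    (h : a * d - (D : ℤ) * b * c = 1) (h' : a' * d' - (D : ℤ) * b' * c' = 1) :
    eps D κ (a * a' + (D : ℤ) * b * c') (a * b' + b * d') (c * a' + d * c')
      ((D : ℤ) * c * b' + d * d') = eps D κ a b c d * eps D κ a' b' c' d' := by
  have h'' : (a * a' + (D : ℤ) * b * c') * ((D : ℤ) * c * b' + d * d') -
      (D : ℤ) * (a * b' + b * d') * (c * a' + d * c') = 1 := by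
    linear_combination (a' * d' - (D : ℤ) * b' * c') * h + h'
  obtain ⟨γ, hγ⟩ := lwe_gam h
  obtain ⟨γ', hγ'⟩ := lwe_gam' h
  obtain ⟨δ, hδ⟩ := lwe_gam h'
  obtain ⟨δ', hδ'⟩ := lwe_gam' h'
  have hm : (!![a * a' + (D : ℤ) * b * c', a * b' + b * d'; (D : ℤ) * (c * a' + d * c'),
      (D : ℤ) * c * b' + d * d'] : Mat) = (γ : Mat) * (δ : Mat) := by
    rw [hγ, hδ, Matrix.mul_fin_two]
    ext i j
    fin_cases i <;> fin_cases j <;> simp <;> ring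
  have hm' : (!![a * a' + (D : ℤ) * b * c', (D : ℤ) * (a * b' + b * d'); c * a' + d * c',
      (D : ℤ) * c * b' + d * d'] : Mat) = (γ' : Mat) * (δ' : Mat) := by
    rw [hγ', hδ', Matrix.mul_fin_two]
    ext i j
    fin_cases i <;> fin_cases j <;> simp <;> ring
  have hpD : 0 < (!![(D : ℤ), 0; 0, 1] : Mat).det := by
    rw [Matrix.det_fin_two_of]
    have : (0 : ℤ) < (D : ℤ) := by exact_mod_cast hD
    linarith
  have hpδ : 0 < (δ : Mat).det := by rw [δ.det_coe]; exact one_pos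
  have hpδ' : 0 < (δ' : Mat).det := by rw [δ'.det_coe]; exact one_pos
  have hmob : mob (δ' : Mat) (mob !![(D : ℤ), 0; 0, 1] UpperHalfPlane.I) =
      mob !![(D : ℤ), 0; 0, 1] (mob (δ : Mat) UpperHalfPlane.I) := by
    rw [← mob_mul _ _ hpδ' hpD, ← mob_mul _ _ hpD hpδ]
    congr 1
    rw [hδ, hδ', Matrix.mul_fin_two, Matrix.mul_fin_two]
    ext i j
    fin_cases i <;> fin_cases j <;> simp <;> ring
  have e1 := eps_spec D κ hD hD4 _ _ _ _ h'' UpperHalfPlane.I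
  have e2 := eps_spec D κ hD hD4 a b c d h (mob (δ : Mat) UpperHalfPlane.I)
  have e3 := eps_spec D κ hD hD4 a' b' c' d' h' UpperHalfPlane.I
  rw [hm, hm', E_mul, M_mul, hmob] at e1
  rw [← hγ, ← hγ'] at e2
  rw [← hδ, ← hδ'] at e3
  have e4 : E κ 1 (δ : Mat) UpperHalfPlane.I * E κ 1 (γ : Mat) (mob (δ : Mat) UpperHalfPlane.I) *
      (M 1 (γ' : Mat) (mob !![(D : ℤ), 0; 0, 1] (mob (δ : Mat) UpperHalfPlane.I)) *
        M 1 (δ' : Mat) (mob !![(D : ℤ), 0; 0, 1] UpperHalfPlane.I)) =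
      (eps D κ a b c d * eps D κ a' b' c' d') • (1 : Matrix (Fin 2) (Fin 2) ℂ) := by
    calc _ = E κ 1 (δ : Mat) UpperHalfPlane.I *
        (E κ 1 (γ : Mat) (mob (δ : Mat) UpperHalfPlane.I) *
          M 1 (γ' : Mat) (mob !![(D : ℤ), 0; 0, 1] (mob (δ : Mat) UpperHalfPlane.I))) *
        M 1 (δ' : Mat) (mob !![(D : ℤ), 0; 0, 1] UpperHalfPlane.I) := by
          simp only [Matrix.mul_assoc]
      _ = eps D κ a b c d • (E κ 1 (δ : Mat) UpperHalfPlane.I *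
        M 1 (δ' : Mat) (mob !![(D : ℤ), 0; 0, 1] UpperHalfPlane.I)) := by
          rw [e2, Matrix.mul_smul, Matrix.mul_one, Matrix.smul_mul]
      _ = _ := by rw [e3, smul_smul]
  rw [e4] at e1
  have := congrFun (congrFun e1 0) 0
  simp only [Matrix.smul_apply, Matrix.one_apply_eq, smul_eq_mul, mul_one] at this
  exact this.symm

theorem eps_one (D κ : ℕ) (hD : 0 < D) (hD4 : D % 4 = cls κ 1) : eps D κ 1 0 0 1 = 1 := by
  have h1 : (!![1, 0; (D : ℤ) * 0, 1] : Mat) = 1 := by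
    ext i j
    fin_cases i <;> fin_cases j <;> simp
  have h2 : (!![1, (D : ℤ) * 0; 0, 1] : Mat) = 1 := by
    ext i j
    fin_cases i <;> fin_cases j <;> simp
  unfold eps
  rw [h1, h2, M_one, Matrix.mul_one]
  unfold E
  rw [M_one, jf_one]
  split_ifs <;> simp

end MP836e4b.P
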