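/-
MODULE CLwB (size M-L), board mod836, MP_836e4b_nt, folder Work/MP_836e4b_nt/P. Keep the statements verbatim, helper lemmas private.
eps for odd squarefree D and c = l > 0 with l = 1 or l an odd prime not dividing D: eps D κ a b l d = ch D a.
Same proof as module LwB (D prime): j = jf γ τ = jf γ' (Dτ). κ even (D = 1 mod 4): E = M⁻¹: gq a l/√l = eps gq a (Dl)/√(Dl).
κ odd (D = 3 mod 4): eps = -i √D gq a l/conj(gq a (Dl)). gq a (Dl) = gq (aD) l * gq (al) D; gq (aD) l = ch l D * gq a l;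
gq (al) D = ch D (al) gD D (gq_sqfree). κ even: eps = ch D a * (D/l)(l/D) = ch D a by reciprocity
(jacobiSym.quadratic_reciprocity); κ odd: conj: gq (-aD) l = (-D/l) gq a l, conj(gD D) = -i√D,
eps = ch D a * (-D/l)(l/D) = ch D a.
-/
import Mathlib
import Pool.Agent.Work.MP_836e4b_nt.P.Defs
import Pool.Agent.Work.MP_836e4b_nt.P.LwE
import Pool.Agent.Work.MP_836e4b_nt.P.CuspG
import Pool.Agent.Work.MP_836e4b_nt.P.GCr
import Pool.Agent.Work.MP_836e4b_nt.P.CGa
import Pool.Agent.Work.MP_836e4b_nt.P.Bas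
import Pool.Agent.Work.MP_836e4b_nt.P.MA2
import Pool.Agent.Work.MP_836e4b_nt.P.GaD

open UpperHalfPlane Complex
open scoped MatrixGroups ComplexConjugate Matrix

namespace MP836e4b.P

private theorem lwb_ch_mul (D : ℕ) (x y : ℤ) : ch D (x * y) = ch D x * ch D y := by
  unfold ch
  rw [jacobiSym.mul_left]
  push_cast
  rfl

private theorem lwb_ch_sq (D : ℕ) (x : ℤ) (h : IsCoprime x (D : ℤ)) : ch D x * ch D x = 1 := by
  unfold ch
  have h1 : jacobiSym x D ^ 2 = 1 := jacobiSym.sq_one (Int.isCoprime_iff_gcd_eq_one.1 h)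
  have h2 : ((jacobiSym x D : ℤ) : ℂ) * ((jacobiSym x D : ℤ) : ℂ) = (((jacobiSym x D) ^ 2 : ℤ) : ℂ) := by
    push_cast
    ring
  rw [h2, h1]
  norm_num

private theorem lwb_rec_one (D l : ℕ) (hD4 : D % 4 = 1) (hl : Odd l)
    (hc : IsCoprime (l : ℤ) (D : ℤ)) : ch l (D : ℤ) * ch D (l : ℤ) = 1 := by
  have h1 : ch l (D : ℤ) = ch D (l : ℤ) := by
    unfold ch
    rw [jacobiSym.quadratic_reciprocity_one_mod_four hD4 hl]
  rw [h1]
  exact lwb_ch_sq D l hc

private theorem lwb_rec_three (D l : ℕ) (hD4 : D % 4 = 3) (hl : Odd l)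
    (hc : IsCoprime (l : ℤ) (D : ℤ)) : ch l (-(D : ℤ)) * ch D (l : ℤ) = 1 := by
  have h1 : ch l (-(D : ℤ)) = ch D (l : ℤ) := by
    unfold ch
    congr 1
    have e : (-(D : ℤ)) = (-1) * (D : ℤ) := by ring
    rw [e, jacobiSym.mul_left]
    have hl4 : l % 4 = 1 ∨ l % 4 = 3 := by
      have := Nat.odd_iff.1 hl
      omega
    rcases hl4 with h | h
    · rw [jacobiSym.at_neg_one hl, ZMod.χ₄_nat_one_mod_four h, one_mul]
      have hDo : Odd D := Nat.odd_iff.2 (by omega)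
      exact (jacobiSym.quadratic_reciprocity_one_mod_four h hDo).symm
    · rw [jacobiSym.at_neg_one hl, ZMod.χ₄_nat_three_mod_four h,
        jacobiSym.quadratic_reciprocity_three_mod_four hD4 h]
      ring
  rw [h1]
  exact lwb_ch_sq D l hc

theorem eps_prime_sq (D κ : ℕ) (hD : Odd D) (hs : Squarefree D) (hD4 : D % 4 = cls κ 1)
    (a b d : ℤ) (l : ℕ) (hl : l = 1 ∨ (l.Prime ∧ l ≠ 2 ∧ ¬ l ∣ D))
    (h : a * d - (D : ℤ) * b * l = 1) : eps D κ a b l d = ch D a := by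
  have hsq := hs
  have hDpos : 0 < D := Nat.pos_of_ne_zero hs.ne_zero
  have hD4' : D % 4 = 1 ∨ D % 4 = 3 := by
    rw [hD4]
    unfold cls
    by_cases hk : Even κ
    · left; simp [hk]
    · right; simp [hk]
  have hDodd : Odd D := hD
  have hl0 : 0 < l := by
    rcases hl with rfl | h
    · exact one_pos
    · exact h.1.pos
  have hlodd : Odd l := by
    rcases hl with rfl | h
    · exact odd_one
    · exact h.1.odd_of_ne_two h.2.1
  have hcopN : Nat.Coprime D l := by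
    rcases hl with rfl | h
    · exact Nat.coprime_one_right D
    · exact ((Nat.Prime.coprime_iff_not_dvd h.1).2 h.2.2).symm
  have hcop : IsCoprime (l : ℤ) (D : ℤ) := Nat.isCoprime_iff_coprime.2 hcopN.symm
  have haD : IsCoprime a (D : ℤ) := ⟨d, -(b * l), by linear_combination h⟩
  have hal : IsCoprime a (l : ℤ) := ⟨d, -((D : ℤ) * b), by linear_combination h⟩
  -- the two matrices
  let γ : SL(2, ℤ) := ⟨!![a, b; (D : ℤ) * l, d], by
    rw [Matrix.det_fin_two_of]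
    linear_combination h⟩
  let γ' : SL(2, ℤ) := ⟨!![a, (D : ℤ) * b; (l : ℤ), d], by
    rw [Matrix.det_fin_two_of]
    linear_combination h⟩
  have hγ : (γ : Mat) = !![a, b; (D : ℤ) * l, d] := rfl
  have hγ' : (γ' : Mat) = !![a, (D : ℤ) * b; (l : ℤ), d] := rfl
  have hDZ : (0 : ℤ) < (D : ℤ) := by exact_mod_cast hDpos
  set τ : ℍ := UpperHalfPlane.I with hτ
  set w : ℍ := mob !![(D : ℤ), 0; 0, 1] τ with hw
  have hwc : (w : ℂ) = (D : ℂ) * (τ : ℂ) := by
    rw [hw, coe_mob _ (by rw [Matrix.det_fin_two_of]; linarith)]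
    unfold jf
    simp
  have hjj : jf (γ' : Mat) w = jf (γ : Mat) τ := by
    rw [hγ, hγ']
    unfold jf
    rw [hwc]
    simp
    ring
  have hj0 : jf (γ : Mat) τ ≠ 0 := jf_ne_zero _ (by
    rw [Matrix.SpecialLinearGroup.det_coe]
    exact one_ne_zero) τ
  set j : ℂ := jf (γ : Mat) τ with hj
  have hjn : (0 : ℝ) < ‖j‖ := norm_pos_iff.2 hj0
  have hjn' : ((‖j‖ : ℝ) : ℂ) ≠ 0 := by
    exact_mod_cast hjn.ne'
  set s : ℂ := (j / (2 * Complex.I)) ^ (1 / 2 : ℂ) with hs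
  have hjI : j / (2 * Complex.I) ≠ 0 := by
    refine div_ne_zero hj0 ?_
    simp
  have hss : s * s = j / (2 * Complex.I) := by
    rw [hs, ← Complex.cpow_add _ _ hjI]
    norm_num
  have hs0 : s ≠ 0 := by
    intro h0
    rw [h0, mul_zero] at hss
    exact hjI hss.symm
  have hsc : s * conj s = ((‖j‖ : ℝ) : ℂ) / 2 := by
    rw [Complex.mul_conj, Complex.normSq_eq_norm_sq]
    have h1 : ‖s‖ ^ 2 = ‖j‖ / 2 := by
      rw [sq, ← norm_mul, hss, norm_div, norm_mul, Complex.norm_I, mul_one]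
      norm_num
    rw [h1]
    push_cast
    rfl
  have hM := M_zero_zero γ (D * l) (Nat.mul_pos hDpos hl0) (by rw [hγ]; simp) τ
  have hM' := M_zero_zero γ' l hl0 (by rw [hγ']; simp) w
  rw [hjj] at hM'
  have ha0 : (γ : Mat) 0 0 = a := by rw [hγ]; rfl
  have ha0' : (γ' : Mat) 0 0 = a := by rw [hγ']; rfl
  rw [ha0] at hM
  rw [ha0'] at hM'
  have hsp := eps_spec D κ hDpos hD4 a b l d h τ
  rw [← hγ, ← hγ', ← hw] at hsp
  have hU := M_unit γ τ
  rw [← hj] at hU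
  have hDr : (0 : ℝ) < (D : ℝ) := by exact_mod_cast hDpos
  have hlr : (0 : ℝ) < (l : ℝ) := by exact_mod_cast hl0
  have hsqrt : ((Real.sqrt ((D * l : ℕ) : ℝ) : ℝ) : ℂ) =
      ((Real.sqrt (D : ℝ) : ℝ) : ℂ) * ((Real.sqrt (l : ℝ) : ℝ) : ℂ) := by
    rw [← Complex.ofReal_mul, ← Real.sqrt_mul hDr.le]
    push_cast
    rfl
  have hsD : ((Real.sqrt (D : ℝ) : ℝ) : ℂ) ≠ 0 := by
    exact_mod_cast (Real.sqrt_pos.2 hDr).ne'
  have hsl : ((Real.sqrt (l : ℝ) : ℝ) : ℂ) ≠ 0 := by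
    exact_mod_cast (Real.sqrt_pos.2 hlr).ne'
  rw [hsqrt] at hM
  -- Gauss sums modulo l
  have hgl : ∀ x : ℤ, IsCoprime x (l : ℤ) → gq x l = ch l x * gq 1 l := by
    intro x hx
    rcases hl with rfl | hl'
    · rw [gq_one, gq_one]
      unfold ch
      simp
    · rw [gq_prime l hl'.1 hl'.2.1 x ?_, gq_prime l hl'.1 hl'.2.1 1 ?_]
      · unfold ch
        rw [jacobiSym.one_left]
        push_cast
        ring
      · intro hdv
        have := Int.natAbs_dvd_natAbs.2 hdv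
        simp at this
        exact hl'.1.one_lt.ne' this
      · intro hdv
        have hu : IsUnit (l : ℤ) := hx.isUnit_of_dvd' hdv dvd_rfl
        rw [Int.isUnit_iff] at hu
        have := hl'.1.one_lt
        omega
  have hg1 : gq 1 l ≠ 0 := by
    rcases hl with rfl | hl'
    · rw [gq_one]
      exact one_ne_zero
    · rw [gq_prime l hl'.1 hl'.2.1 1 ?_]
      · unfold ch gD
        rw [jacobiSym.one_left]
        split_ifs
        · simpa using hsl
        · simpa using hsl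
      · intro hdv
        have := Int.natAbs_dvd_natAbs.2 hdv
        simp at this
        exact hl'.1.one_lt.ne' this
  have hla : ch l a ≠ 0 := by
    intro h0
    have := lwb_ch_sq l a hal
    rw [h0, mul_zero] at this
    exact zero_ne_one this
  have haa := lwb_ch_sq D a haD
  have hfin : eps D κ a b l d * ch D a = 1 → eps D κ a b l d = ch D a := by
    intro h1
    calc eps D κ a b l d = eps D κ a b l d * (ch D a * ch D a) := by rw [haa, mul_one]
      _ = (eps D κ a b l d * ch D a) * ch D a := by ring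
      _ = ch D a := by rw [h1, one_mul]
  apply hfin
  by_cases hk : Even κ
  · have hD1 : D % 4 = 1 := by rw [hD4]; simp [cls, hk]
    have hE : E κ 1 (γ : Mat) τ = ((‖j‖ : ℝ) : ℂ)⁻¹ • (M 1 (γ : Mat) τ)ᴴ := by
      unfold E
      rw [if_pos hk]
    have hME : M 1 (γ : Mat) τ * E κ 1 (γ : Mat) τ = 1 := by
      rw [hE, Matrix.mul_smul, hU, smul_smul, inv_mul_cancel₀ hjn', one_smul]
    have hMM : M 1 (γ' : Mat) w = eps D κ a b l d • M 1 (γ : Mat) τ := by
      calc M 1 (γ' : Mat) w = (M 1 (γ : Mat) τ * E κ 1 (γ : Mat) τ) * M 1 (γ' : Mat) w := by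
            rw [hME, one_mul]
        _ = M 1 (γ : Mat) τ * (E κ 1 (γ : Mat) τ * M 1 (γ' : Mat) w) := by rw [Matrix.mul_assoc]
        _ = _ := by rw [hsp, Matrix.mul_smul, Matrix.mul_one]
    have h00 := congrFun (congrFun hMM 0) 0
    rw [Matrix.smul_apply, smul_eq_mul, hM, hM'] at h00
    -- eps * gq a (D l) = sqrt D * gq a l
    have h1 : eps D κ a b l d * gq a (D * l) = ((Real.sqrt (D : ℝ) : ℝ) : ℂ) * gq a l := by
      have h2 : gq a l / ((Real.sqrt (l : ℝ) : ℝ) : ℂ) * s =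
          eps D κ a b l d * (gq a (D * l) / (((Real.sqrt (D : ℝ) : ℝ) : ℂ) *
            ((Real.sqrt (l : ℝ) : ℝ) : ℂ)) * s) := h00
      field_simp at h2
      linear_combination -h2
    rw [gq_coprime a D l hDpos hl0 hcopN, hgl (a * D) (hal.mul_left hcop.symm), hgl a hal,
      gq_sqfree D hD hsq (a * l) (haD.mul_left hcop), lwb_ch_mul, lwb_ch_mul] at h1
    have hgD : gD D = ((Real.sqrt (D : ℝ) : ℝ) : ℂ) := by
      unfold gD
      rw [if_pos hD1]
    rw [hgD] at h1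
    have hr := lwb_rec_one D l hD1 hlodd hcop
    have h3 : (((Real.sqrt (D : ℝ) : ℝ) : ℂ) * (ch l a * gq 1 l)) *
        (eps D κ a b l d * ch D a * (ch l D * ch D l)) =
        (((Real.sqrt (D : ℝ) : ℝ) : ℂ) * (ch l a * gq 1 l)) * 1 := by
      linear_combination h1
    have h4 := mul_left_cancel₀ (mul_ne_zero hsD (mul_ne_zero hla hg1)) h3
    rw [hr, mul_one] at h4
    exact h4
  · have hD3 : D % 4 = 3 := by rw [hD4]; simp [cls, hk]
    have hE : E κ 1 (γ : Mat) τ = j⁻¹ • (M 1 (γ : Mat) τ)ᵀ := by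
      unfold E
      rw [if_neg hk]
    set Mc : Matrix (Fin 2) (Fin 2) ℂ := ((M 1 (γ : Mat) τ)ᴴ)ᵀ with hMc
    have hMcM : Mc * (M 1 (γ : Mat) τ)ᵀ = ((‖j‖ : ℝ) : ℂ) • 1 := by
      have h1 : (M 1 (γ : Mat) τ * (M 1 (γ : Mat) τ)ᴴ)ᴴ = M 1 (γ : Mat) τ * (M 1 (γ : Mat) τ)ᴴ := by
        rw [Matrix.conjTranspose_mul, Matrix.conjTranspose_conjTranspose]
      have h2 : Mc * (M 1 (γ : Mat) τ)ᵀ = (M 1 (γ : Mat) τ * (M 1 (γ : Mat) τ)ᴴ)ᵀ := by
        rw [hMc, Matrix.transpose_mul]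
      rw [h2, hU, Matrix.transpose_smul, Matrix.transpose_one]
    have hMM : (j⁻¹ * ((‖j‖ : ℝ) : ℂ)) • M 1 (γ' : Mat) w = eps D κ a b l d • Mc := by
      calc (j⁻¹ * ((‖j‖ : ℝ) : ℂ)) • M 1 (γ' : Mat) w
          = (Mc * E κ 1 (γ : Mat) τ) * M 1 (γ' : Mat) w := by
            rw [hE, Matrix.mul_smul, hMcM, smul_smul, Matrix.smul_mul, Matrix.one_mul]
        _ = Mc * (E κ 1 (γ : Mat) τ * M 1 (γ' : Mat) w) := by rw [Matrix.mul_assoc]
        _ = _ := by rw [hsp, Matrix.mul_smul, Matrix.mul_one]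
    have h00 := congrFun (congrFun hMM 0) 0
    have hMc0 : Mc 0 0 = conj (M 1 (γ : Mat) τ 0 0) := by
      rw [hMc, Matrix.transpose_apply, Matrix.conjTranspose_apply]
      rfl
    rw [Matrix.smul_apply, Matrix.smul_apply, smul_eq_mul, smul_eq_mul, hMc0, hM, hM'] at h00
    have h1 : Complex.I * (eps D κ a b l d * gq (-a) (D * l)) =
        ((Real.sqrt (D : ℝ) : ℝ) : ℂ) * gq a l := by
      have h2 : j⁻¹ * ((‖j‖ : ℝ) : ℂ) * (gq a l / ((Real.sqrt (l : ℝ) : ℝ) : ℂ) * s) =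
          eps D κ a b l d * (gq (-a) (D * l) / (((Real.sqrt (D : ℝ) : ℝ) : ℂ) *
            ((Real.sqrt (l : ℝ) : ℝ) : ℂ)) * conj s) := by
        rw [h00, map_mul, map_div₀, gq_conj, map_mul, Complex.conj_ofReal, Complex.conj_ofReal]
      -- multiply by s
      have h3 : j⁻¹ * ((‖j‖ : ℝ) : ℂ) * (gq a l / ((Real.sqrt (l : ℝ) : ℝ) : ℂ) * (s * s)) =
          eps D κ a b l d * (gq (-a) (D * l) / (((Real.sqrt (D : ℝ) : ℝ) : ℂ) *
            ((Real.sqrt (l : ℝ) : ℝ) : ℂ)) * (s * conj s)) := by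
        linear_combination s * h2
      rw [hss, hsc] at h3
      have hI : Complex.I ≠ 0 := Complex.I_ne_zero
      have h4 : j⁻¹ * ((‖j‖ : ℝ) : ℂ) * (gq a l / ((Real.sqrt (l : ℝ) : ℝ) : ℂ) *
          (j / (2 * Complex.I))) = ((‖j‖ : ℝ) : ℂ) / 2 *
            (gq a l / ((Real.sqrt (l : ℝ) : ℝ) : ℂ) / Complex.I) := by
        field_simp
      rw [h4] at h3
      have h5 : ((‖j‖ : ℝ) : ℂ) / 2 * (gq a l / ((Real.sqrt (l : ℝ) : ℝ) : ℂ) / Complex.I) =
          ((‖j‖ : ℝ) : ℂ) / 2 * (eps D κ a b l d * (gq (-a) (D * l) /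
            (((Real.sqrt (D : ℝ) : ℝ) : ℂ) * ((Real.sqrt (l : ℝ) : ℝ) : ℂ)))) := by
        rw [h3]
        ring
      have h6 := mul_left_cancel₀ (div_ne_zero hjn' two_ne_zero) h5
      field_simp at h6
      linear_combination -h6
    rw [gq_coprime (-a) D l hDpos hl0 hcopN,
      hgl (-a * D) (hal.neg_left.mul_left hcop.symm), hgl a hal,
      gq_sqfree D hD hsq (-a * l) (haD.neg_left.mul_left hcop)] at h1
    have e1 : ch l (-a * D) = ch l a * ch l (-(D : ℤ)) := by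
      rw [← lwb_ch_mul]
      congr 1
      ring
    have hm1 : ch D (-1) = -1 := by
      unfold ch
      rw [jacobiSym.at_neg_one hDodd, ZMod.χ₄_nat_three_mod_four hD3]
      norm_num
    have e2 : ch D (-a * l) = -(ch D a * ch D l) := by
      have : (-a * (l : ℤ)) = (-1) * (a * l) := by ring
      rw [this, lwb_ch_mul, lwb_ch_mul, hm1]
      ring
    rw [e1, e2] at h1
    have hgD : gD D = Complex.I * ((Real.sqrt (D : ℝ) : ℝ) : ℂ) := by
      unfold gD
      rw [if_neg (by omega)]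
    rw [hgD] at h1
    have hr := lwb_rec_three D l hD3 hlodd hcop
    have h3 : (((Real.sqrt (D : ℝ) : ℝ) : ℂ) * (ch l a * gq 1 l)) *
        (eps D κ a b l d * ch D a * (ch l (-(D : ℤ)) * ch D l)) =
        (((Real.sqrt (D : ℝ) : ℝ) : ℂ) * (ch l a * gq 1 l)) * 1 := by
      have hI2 : Complex.I * Complex.I = -1 := Complex.I_mul_I
      linear_combination h1 + (eps D κ a b l d * (ch l a * ch l (-(D : ℤ)) * gq 1 l) *
        (ch D a * ch D l) * ((Real.sqrt (D : ℝ) : ℝ) : ℂ)) * hI2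
    have h4 := mul_left_cancel₀ (mul_ne_zero hsD (mul_ne_zero hla hg1)) h3
    rw [hr, mul_one] at h4
    exact h4

end MP836e4b.P
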