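/-
MODULE CLwC (size M), board mod836, MP_836e4b_nt, folder Work/MP_836e4b_nt/P. Keep the statements verbatim, helper lemmas private.
The law for odd squarefree D. L^j = (1,0;Dj,1): eps(L) = 1 (l = 1, a = 1), so eps(L^j) = 1 for all integers j (eps_mul,
eps_one). γL^j = (a+Dbj, b; D(c+dj), d). If d = 0 then D = 1 and b c = -1 (D = 1: eps = 1 directly: E κ 1 γ τ * M 1 γ τ with κ
even is M⁻¹M; treat D = 1 separately). d ≠ 0: Dirichlet (Nat.forall_exists_prime_gt_and_eq_mod or similar; modulus |d|,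
residue c): a prime l > max(D,2) with l = c + dj. eps(γ) = eps(γL^j) = ch D (a+Dbj) = ch D a = ch D d (ad = 1 mod D).
-/
import Mathlib
import Pool.Agent.Work.MP_836e4b_nt.P.Defs
import Pool.Agent.Work.MP_836e4b_nt.P.CLwB
import Pool.Agent.Work.MP_836e4b_nt.P.Bas
import Pool.Agent.Work.MP_836e4b_nt.P.MA2

open UpperHalfPlane Complex
open scoped MatrixGroups ComplexConjugate Matrix

namespace MP836e4b.P

private theorem eps_L (D κ : ℕ) (hD : Odd D) (hs : Squarefree D) (hD4 : D % 4 = cls κ 1) (j : ℤ) :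
    eps D κ 1 0 j 1 = 1 := by
  have h1 : eps D κ 1 0 1 1 = 1 := by
    have := eps_prime_sq D κ hD hs hD4 1 0 1 1 (Or.inl rfl) (by norm_num)
    rw [Nat.cast_one] at this
    rw [this, ch, jacobiSym.one_left]
    simp
  have h2 : ∀ i : ℤ, eps D κ 1 0 (i + 1) 1 = eps D κ 1 0 i 1 := by
    intro i
    have := eps_mul D κ (Nat.pos_of_ne_zero hs.ne_zero) hD4 1 0 i 1 1 0 1 1 (by ring) (by ring)
    rw [h1] at this
    have h3 := this.trans (mul_one _)
    rw [← h3]
    congr 1 <;> ring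
  induction j using Int.induction_on with
  | zero => exact eps_one D κ (Nat.pos_of_ne_zero hs.ne_zero) hD4
  | succ n ih => rw [h2, ih]
  | pred n ih =>
    rw [← ih, ← h2]
    congr 1
    ring

private theorem eps_mul_L (D κ : ℕ) (hD : Odd D) (hs : Squarefree D) (hD4 : D % 4 = cls κ 1) (a b c d j : ℤ)
    (h : a * d - (D : ℤ) * b * c = 1) :
    eps D κ (a + (D : ℤ) * b * j) b (c + d * j) d = eps D κ a b c d := by
  have := eps_mul D κ (Nat.pos_of_ne_zero hs.ne_zero) hD4 a b c d 1 0 j 1 h (by ring)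
  rw [eps_L D κ hD hs hD4] at this
  have h3 := this.trans (mul_one _)
  rw [← h3]
  congr 1 <;> ring

private theorem eps_eq (D κ : ℕ) (hD : Odd D) (hs : Squarefree D) (hD4 : D % 4 = cls κ 1) (a b c d : ℤ)
    (hD1 : D ≠ 1) (h : a * d - (D : ℤ) * b * c = 1) : eps D κ a b c d = ch D d := by
  have hD0 : D ≠ 0 := hs.ne_zero
  have hD1 : 1 < (D : ℤ) := by
    have : 1 < D := by omega
    exact_mod_cast this
  have hd : d ≠ 0 := by
    rintro rfl
    have hdv : (D : ℤ) ∣ 1 := ⟨-(b * c), by linarith⟩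
    have := Int.le_of_dvd one_pos hdv
    omega
  have hcop : IsCoprime c ((d.natAbs : ℕ) : ℤ) := by
    have h1 : IsCoprime c d := ⟨-((D : ℤ) * b), a, by linarith⟩
    rw [Int.isCoprime_iff_gcd_eq_one] at h1 ⊢
    rw [← h1, Int.gcd, Int.gcd, Int.natAbs_natCast]
  obtain ⟨l, hl, hlp, hmod⟩ := Nat.forall_exists_prime_gt_and_zmodEq (max D 2)
    (Int.natAbs_ne_zero.mpr hd) hcop
  have hdv : d ∣ (l : ℤ) - c := by
    have := hmod.symm.dvd
    rwa [Int.natAbs_dvd] at this
  obtain ⟨j, hj⟩ := hdv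
  have hlc : c + d * j = (l : ℤ) := by linarith
  have hl2 : l ≠ 2 := by
    have := le_max_right D 2
    omega
  have hlD : ¬ l ∣ D := by
    intro hdv
    have := Nat.le_of_dvd (Nat.pos_of_ne_zero hD0) hdv
    have := le_max_left D 2
    omega
  rw [← eps_mul_L D κ hD hs hD4 a b c d j h, hlc,
    eps_prime_sq D κ hD hs hD4 (a + (D : ℤ) * b * j) b d l (Or.inr ⟨hlp, hl2, hlD⟩)
      (by rw [← hlc]; linear_combination h)]
  have h1 : jacobiSym (a + (D : ℤ) * b * j) D = jacobiSym a D := by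
    apply jacobiSym.mod_left'
    rw [mul_assoc, Int.add_mul_emod_self_left]
  have h2 : jacobiSym a D * jacobiSym d D = 1 := by
    rw [← jacobiSym.mul_left, ← jacobiSym.one_left D]
    apply jacobiSym.mod_left'
    have : a * d = 1 + (D : ℤ) * (b * c) := by linarith
    rw [this, Int.add_mul_emod_self_left]
  rw [ch, ch, h1]
  congr 1
  rcases jacobiSym.trichotomy a D with h3 | h3 | h3 <;>
    rcases jacobiSym.trichotomy d D with h4 | h4 | h4 <;> rw [h3, h4] at h2 ⊢ <;>
    first | rfl | omega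

theorem law_sq (D κ : ℕ) (hD : Odd D) (hs : Squarefree D) (hD4 : D % 4 = cls κ 1) (a b c d : ℤ)
    (h : a * d - (D : ℤ) * b * c = 1) (τ : ℍ) :
    E κ 1 !![a, b; (D : ℤ) * c, d] τ * M 1 !![a, (D : ℤ) * b; c, d] (mob !![(D : ℤ), 0; 0, 1] τ) =
      ch D d • (1 : Matrix (Fin 2) (Fin 2) ℂ) := by
  by_cases hD1 : D = 1
  · subst hD1
    have hk : Even κ := by
      by_contra hk
      unfold cls at hD4
      rw [if_neg (by decide), if_neg hk] at hD4
      omega
    have hc : ch 1 d = 1 := by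
      unfold ch
      rw [jacobiSym.one_right]
      simp
    have h' : a * d - b * c = 1 := by
      rw [← h]
      push_cast
      ring
    let γ : SL(2, ℤ) := ⟨!![a, b; c, d], by
      rw [Matrix.det_fin_two_of]
      linear_combination h'⟩
    have e1 : (!![a, b; ((1 : ℕ) : ℤ) * c, d] : Mat) = (γ : Mat) := by
      show _ = !![a, b; c, d]
      rw [Nat.cast_one, one_mul]
    have e2 : (!![a, ((1 : ℕ) : ℤ) * b; c, d] : Mat) = (γ : Mat) := by
      show _ = !![a, b; c, d]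
      rw [Nat.cast_one, one_mul]
    have e3 : mob !![((1 : ℕ) : ℤ), 0; 0, 1] τ = τ := by
      have : (!![((1 : ℕ) : ℤ), 0; 0, 1] : Mat) = 1 := by
        ext i j
        fin_cases i <;> fin_cases j <;> simp
      rw [this, mob_one]
    rw [e1, e2, e3, hc, one_smul]
    have hj0 : jf (γ : Mat) τ ≠ 0 := jf_ne_zero _ (by
      rw [Matrix.SpecialLinearGroup.det_coe]
      exact one_ne_zero) τ
    have hjn : ((‖jf (γ : Mat) τ‖ : ℝ) : ℂ) ≠ 0 := by
      exact_mod_cast (norm_pos_iff.2 hj0).ne'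
    have hE : E κ 1 (γ : Mat) τ = ((‖jf (γ : Mat) τ‖ : ℝ) : ℂ)⁻¹ • (M 1 (γ : Mat) τ)ᴴ := by
      unfold E
      rw [if_pos hk]
    rw [mul_eq_one_comm, hE, Matrix.mul_smul, M_unit γ τ, smul_smul, inv_mul_cancel₀ hjn,
      one_smul]
  · rw [eps_spec D κ (Nat.pos_of_ne_zero hs.ne_zero) hD4 a b c d h τ,
      eps_eq D κ hD hs hD4 a b c d hD1 h]

end MP836e4b.P
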