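/-
MODULE CMat (size M-L), board mod836, MP_836e4b_nt, folder Work/MP_836e4b_nt/P. Keep the statements verbatim, helper lemmas private.
The matrix of a general term. D = D1 D2 odd squarefree, γ = (a,b;c,d) in SL(2,Z), c = D1 c1, β an integer with
D2 ∣ d - c1 β, γ'' = (D2 a, D1 b - aβ; c1, (d - c1β)/D2) (determinant 1).
CLAIM: E κ 1 γ τ * M 1 γ'' ((D1τ+β)/D2) = χ_{D1}(d) χ_{D2}(c1) (dl D2/√D2) diag(tw2 D2 r β).
PROOF. Let κ1, κ2 be any naturals with D1 % 4 = cls κ1 1, D2 % 4 = cls κ2 1. γ1 = (a, D1 b; c1, d), τ1 = D1 τ.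
(i) law_sq for D1: E κ1 1 γ τ * M 1 γ1 τ1 = χ_{D1}(d). (ii) For D2: γ1 = γ0 S T^β with γ0 = (a0,b0;D2c0,d0):
 b0 = a, a0 = aβ - D1 b, d0 = c1, D2 c0 = c1β - d; γ'' = γ0' S, γ0' = (a0, D2 b0; c0, d0), so as in module PA2:
 E κ2 1 γ1 τ1 * M 1 γ'' ((τ1+β)/D2) = χ_{D2}(c1) (dl D2/√D2) E κ2 1 T^β (law_sq for D2, E_S_M_S, E_Tb); tw κ2 = tw2 D2.
(iii) Combine: for D ≡ 1 mod 4: E = M⁻¹; for 3 mod 4: E = Mᵀ/j = (|j|/j) conj(M)⁻¹ (M_unit); j(γ1,τ1) = j(γ,τ).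
 D2 = 1 mod 4: M'' = M_{γ1} X, X = the right side of (ii), and E κ γ has the type of D1: done by (i).
 D2 = 3 mod 4: M'' = (j/|j|) conj(M_{γ1}) X; D1 = 1: M_{γ1} = χ M_γ and E κ γ = (|j|/j) conj(M_γ)⁻¹; D1 = 3: M_{γ1} =
 χ (j/|j|) conj(M_γ) and E κ γ = M_γ⁻¹. In all cases the product is χ_{D1}(d) X.
-/
import Mathlib
import Pool.Agent.Work.MP_836e4b_nt.P.Defs
import Pool.Agent.Work.MP_836e4b_nt.P.CLwC
import Pool.Agent.Work.MP_836e4b_nt.P.LwS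
import Pool.Agent.Work.MP_836e4b_nt.P.MA2
import Pool.Agent.Work.MP_836e4b_nt.P.MA4
import Pool.Agent.Work.MP_836e4b_nt.P.CDf
import Pool.Agent.Work.MP_836e4b_nt.P.Bas

open UpperHalfPlane Complex
open scoped MatrixGroups ComplexConjugate Matrix

namespace MP836e4b.P

private theorem pa_E_mul (κ : ℕ) (A B : Mat) (hA : A.det = 1) (hB : B.det = 1) (τ : ℍ) :
    E κ 1 (A * B) τ = E κ 1 B τ * E κ 1 A (mob B τ) :=
  E_mul κ ⟨A, hA⟩ ⟨B, hB⟩ τ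

private theorem pa_M_mul (A B : Mat) (hA : A.det = 1) (hB : B.det = 1) (τ : ℍ) :
    M 1 (A * B) τ = M 1 A (mob B τ) * M 1 B τ :=
  M_mul ⟨A, hA⟩ ⟨B, hB⟩ τ

private theorem pa_key (D κ : ℕ) (hD : Odd D) (hs : Squarefree D) (hD4 : D % 4 = cls κ 1)
    (a b c d d' : ℤ) (hdet : a * d - b * c = 1) (β : ℤ) (hd' : d - β * c = (D : ℤ) * d') (τ : ℍ) :
    E κ 1 !![a, b; c, d] τ * M 1 !![(D : ℤ) * a, b - a * β; c, d'] (mob !![1, β; 0, (D : ℤ)] τ) =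
      (ch D c * (dl D / ((Real.sqrt D : ℝ) : ℂ))) •
        Matrix.diagonal fun r ↦ tw κ r β := by
  have hDp : 0 < D := Nat.pos_of_ne_zero hs.ne_zero
  have hD0 : (0 : ℤ) < (D : ℤ) := by exact_mod_cast hDp
  have hSd : (mS : Mat).det = 1 := by rw [Matrix.det_fin_two]; simp [mS]
  have hTd : (mT β : Mat).det = 1 := by rw [Matrix.det_fin_two]; simp [mT]
  have hST : (mS * mT β : Mat).det = 1 := by rw [Matrix.det_mul, hSd, hTd, one_mul]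
  have h0 : (a * β - b) * c - (D : ℤ) * a * (-d') = 1 := by
    linear_combination hdet - a * hd'
  have hg0 : (!![a * β - b, a; (D : ℤ) * (-d'), c] : Mat).det = 1 := by
    rw [Matrix.det_fin_two]
    simp
    linear_combination h0
  have hg0' : (!![a * β - b, (D : ℤ) * a; -d', c] : Mat).det = 1 := by
    rw [Matrix.det_fin_two]
    simp
    linear_combination h0
  have e1 : (!![a, b; c, d] : Mat) = !![a * β - b, a; (D : ℤ) * (-d'), c] * (mS * mT β) := by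
    ext i j
    fin_cases i <;> fin_cases j
    · simp [mS, mT, Matrix.mul_apply, Fin.sum_univ_two]
    · simp [mS, mT, Matrix.mul_apply, Fin.sum_univ_two]
    · simp [mS, mT, Matrix.mul_apply, Fin.sum_univ_two]
    · simp [mS, mT, Matrix.mul_apply, Fin.sum_univ_two]
      linear_combination hd'
  have e2 : (!![(D : ℤ) * a, b - a * β; c, d'] : Mat) =
      !![a * β - b, (D : ℤ) * a; -d', c] * mS := by
    ext i j
    fin_cases i <;> fin_cases j <;> simp [mS, Matrix.mul_apply, Fin.sum_univ_two]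
  have hB0 : 0 < (!![1, 0; 0, (D : ℤ)] : Mat).det := by
    rw [Matrix.det_fin_two]
    simp [hDp]
  have hC0 : 0 < (!![(D : ℤ), 0; 0, 1] : Mat).det := by
    rw [Matrix.det_fin_two]
    simp [hDp]
  have m1 : mob !![1, β; 0, (D : ℤ)] τ = mob !![1, 0; 0, (D : ℤ)] (mob (mT β) τ) := by
    rw [← mob_mul _ _ hB0 (by rw [hTd]; exact one_pos)]
    congr 1
    ext i j
    fin_cases i <;> fin_cases j <;> simp [mT, Matrix.mul_apply, Fin.sum_univ_two]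
  have m2 : mob mS (mob !![1, 0; 0, (D : ℤ)] (mob (mT β) τ)) =
      mob !![(D : ℤ), 0; 0, 1] (mob (mS * mT β) τ) := by
    rw [mob_mul mS (mT β) (by rw [hSd]; exact one_pos) (by rw [hTd]; exact one_pos),
      ← mob_mul _ _ (by rw [hSd]; exact one_pos) hB0,
      ← mob_mul _ mS hC0 (by rw [hSd]; exact one_pos)]
    congr 1
    ext i j
    fin_cases i <;> fin_cases j <;> simp [mS, Matrix.mul_apply, Fin.sum_univ_two]
  have hl := law_sq D κ hD hs hD4 (a * β - b) a (-d') c h0 (mob (mS * mT β) τ)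
  have hss := E_S_M_S D κ hDp hD4 (mob (mT β) τ)
  rw [e1, e2, pa_E_mul κ _ _ hg0 hST, pa_E_mul κ _ _ hSd hTd, pa_M_mul _ _ hg0' hSd, m1, m2]
  calc E κ 1 (mT β) τ * E κ 1 mS (mob (mT β) τ) *
        E κ 1 !![a * β - b, a; (D : ℤ) * (-d'), c] (mob (mS * mT β) τ) *
        (M 1 !![a * β - b, (D : ℤ) * a; -d', c] (mob !![(D : ℤ), 0; 0, 1] (mob (mS * mT β) τ)) *
        M 1 mS (mob !![1, 0; 0, (D : ℤ)] (mob (mT β) τ)))
      = E κ 1 (mT β) τ * (E κ 1 mS (mob (mT β) τ) *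
        (E κ 1 !![a * β - b, a; (D : ℤ) * (-d'), c] (mob (mS * mT β) τ) *
        M 1 !![a * β - b, (D : ℤ) * a; -d', c]
          (mob !![(D : ℤ), 0; 0, 1] (mob (mS * mT β) τ))) *
        M 1 mS (mob !![1, 0; 0, (D : ℤ)] (mob (mT β) τ))) := by
          simp only [Matrix.mul_assoc]
    _ = ch D c • (E κ 1 (mT β) τ * (E κ 1 mS (mob (mT β) τ) *
        M 1 mS (mob !![1, 0; 0, (D : ℤ)] (mob (mT β) τ)))) := by
          rw [hl, Matrix.mul_smul, Matrix.mul_one, Matrix.smul_mul, Matrix.mul_smul]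
    _ = _ := by
          rw [hss, Matrix.mul_smul, Matrix.mul_one, smul_smul, E_Tb]

/-- entrywise conjugation -/
private noncomputable def cj (A : Matrix (Fin 2) (Fin 2) ℂ) : Matrix (Fin 2) (Fin 2) ℂ := (Aᴴ)ᵀ

private theorem cj_smul (c : ℂ) (A : Matrix (Fin 2) (Fin 2) ℂ) : cj (c • A) = conj c • cj A := by
  unfold cj
  rw [Matrix.conjTranspose_smul, Matrix.transpose_smul]
  rfl

private theorem cj_cj (A : Matrix (Fin 2) (Fin 2) ℂ) : cj (cj A) = A := by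
  unfold cj
  ext i j
  simp [Matrix.transpose_apply, Matrix.conjTranspose_apply]

/-- the inverse of `E κ 1 A τ` -/
private noncomputable def Nm (κ : ℕ) (A : Mat) (τ : ℍ) : Matrix (Fin 2) (Fin 2) ℂ :=
  if Even κ then M 1 A τ else (((‖jf A τ‖ : ℝ) : ℂ)⁻¹ * jf A τ) • cj (M 1 A τ)

private theorem nm_mul (κ : ℕ) (γ : SL(2, ℤ)) (τ : ℍ) :
    Nm κ (γ : Mat) τ * E κ 1 (γ : Mat) τ = 1 := by
  have hj0 : jf (γ : Mat) τ ≠ 0 := jf_ne_zero _ (by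
    rw [Matrix.SpecialLinearGroup.det_coe]
    exact one_ne_zero) τ
  have hjn : ((‖jf (γ : Mat) τ‖ : ℝ) : ℂ) ≠ 0 := by
    exact_mod_cast (norm_pos_iff.2 hj0).ne'
  have hU := M_unit γ τ
  unfold Nm E
  by_cases hk : Even κ
  · rw [if_pos hk, if_pos hk, Matrix.mul_smul, hU, smul_smul, inv_mul_cancel₀ hjn, one_smul]
  · rw [if_neg hk, if_neg hk]
    have h2 : cj (M 1 (γ : Mat) τ) * (M 1 (γ : Mat) τ)ᵀ = ((‖jf (γ : Mat) τ‖ : ℝ) : ℂ) • 1 := by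
      have h3 : cj (M 1 (γ : Mat) τ) * (M 1 (γ : Mat) τ)ᵀ =
          (M 1 (γ : Mat) τ * (M 1 (γ : Mat) τ)ᴴ)ᵀ := by
        rw [Matrix.transpose_mul]
        rfl
      rw [h3, hU, Matrix.transpose_smul, Matrix.transpose_one]
    rw [Matrix.smul_mul, Matrix.mul_smul, h2, smul_smul, smul_smul]
    have e : ((‖jf (γ : Mat) τ‖ : ℝ) : ℂ)⁻¹ * jf (γ : Mat) τ *
        (jf (γ : Mat) τ)⁻¹ * ((‖jf (γ : Mat) τ‖ : ℝ) : ℂ) = 1 := by
      field_simp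
    rw [e, one_smul]

private theorem mul_nm (κ : ℕ) (γ : SL(2, ℤ)) (τ : ℍ) :
    E κ 1 (γ : Mat) τ * Nm κ (γ : Mat) τ = 1 := by
  rw [mul_eq_one_comm]
  exact nm_mul κ γ τ

private theorem exists_par (D : ℕ) (hD : Odd D) :
    ∃ κ : ℕ, D % 4 = cls κ 1 ∧ (Even κ ↔ D % 4 = 1) := by
  have h4 : D % 4 = 1 ∨ D % 4 = 3 := by
    have := Nat.odd_iff.1 hD
    omega
  rcases h4 with h | h
  · exact ⟨0, by rw [h]; simp [cls], by simp [h]⟩
  · exact ⟨1, by rw [h]; simp [cls], by simp [h]⟩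

theorem E_M_gen (D₁ D₂ κ : ℕ) (hD : Odd (D₁ * D₂)) (hs : Squarefree (D₁ * D₂))
    (hD4 : (D₁ * D₂) % 4 = cls κ 1) (a b c₁ d β d' : ℤ)
    (h : a * d - b * ((D₁ : ℤ) * c₁) = 1) (hd : (D₂ : ℤ) * d' = d - c₁ * β) (τ : ℍ) :
    E κ 1 !![a, b; (D₁ : ℤ) * c₁, d] τ *
        M 1 !![(D₂ : ℤ) * a, (D₁ : ℤ) * b - a * β; c₁, d'] (mob !![(D₁ : ℤ), β; 0, (D₂ : ℤ)] τ) =
      (ch D₁ d * ch D₂ c₁ * (dl D₂ / ((Real.sqrt D₂ : ℝ) : ℂ))) •
        Matrix.diagonal fun r ↦ tw2 D₂ r β := by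
  obtain ⟨hD1, hD2⟩ := Nat.odd_mul.1 hD
  have hs1 : Squarefree D₁ := hs.squarefree_of_dvd (Dvd.intro _ rfl)
  have hs2 : Squarefree D₂ := hs.squarefree_of_dvd (Dvd.intro_left _ rfl)
  have hD1p : 0 < D₁ := Nat.pos_of_ne_zero hs1.ne_zero
  have hD2p : 0 < D₂ := Nat.pos_of_ne_zero hs2.ne_zero
  obtain ⟨κ₁, hk1, hk1'⟩ := exists_par D₁ hD1
  obtain ⟨κ₂, hk2, hk2'⟩ := exists_par D₂ hD2
  have hkk : Even κ ↔ (D₁ * D₂) % 4 = 1 := by
    rw [hD4]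
    unfold cls
    rw [if_neg (by decide)]
    by_cases hk : Even κ
    · simp [hk]
    · simp [hk]
  have hmod1 : D₁ % 4 = 1 ∨ D₁ % 4 = 3 := by
    have := Nat.odd_iff.1 hD1
    omega
  have hmod2 : D₂ % 4 = 1 ∨ D₂ % 4 = 3 := by
    have := Nat.odd_iff.1 hD2
    omega
  have h1 := law_sq D₁ κ₁ hD1 hs1 hk1 a b c₁ d (by linear_combination h) τ
  set τ₁ : ℍ := mob !![(D₁ : ℤ), 0; 0, 1] τ with hτ₁
  have h2 := pa_key D₂ κ₂ hD2 hs2 hk2 a ((D₁ : ℤ) * b) c₁ d d' (by linear_combination h) β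
    (by linear_combination -hd) τ₁
  have hA0 : 0 < (!![(D₁ : ℤ), 0; 0, 1] : Mat).det := by
    rw [Matrix.det_fin_two]
    simp [hD1p]
  have hB0 : 0 < (!![1, β; 0, (D₂ : ℤ)] : Mat).det := by
    rw [Matrix.det_fin_two]
    simp [hD2p]
  have hm : mob !![1, β; 0, (D₂ : ℤ)] τ₁ = mob !![(D₁ : ℤ), β; 0, (D₂ : ℤ)] τ := by
    rw [hτ₁, ← mob_mul _ _ hB0 hA0]
    congr 1
    ext i j
    fin_cases i <;> fin_cases j <;> simp [Matrix.mul_apply, Fin.sum_univ_two]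
  rw [hm] at h2
  let γ : SL(2, ℤ) := ⟨!![a, b; (D₁ : ℤ) * c₁, d], by
    rw [Matrix.det_fin_two_of]
    linear_combination h⟩
  let γ₁ : SL(2, ℤ) := ⟨!![a, (D₁ : ℤ) * b; c₁, d], by
    rw [Matrix.det_fin_two_of]
    linear_combination h⟩
  have hγ : (γ : Mat) = !![a, b; (D₁ : ℤ) * c₁, d] := rfl
  have hγ₁ : (γ₁ : Mat) = !![a, (D₁ : ℤ) * b; c₁, d] := rfl
  rw [← hγ, ← hγ₁] at h1
  rw [← hγ₁] at h2
  rw [← hγ]
  set M2 : Matrix (Fin 2) (Fin 2) ℂ :=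
    M 1 !![(D₂ : ℤ) * a, (D₁ : ℤ) * b - a * β; c₁, d'] (mob !![(D₁ : ℤ), β; 0, (D₂ : ℤ)] τ) with hM2
  set X : Matrix (Fin 2) (Fin 2) ℂ := Matrix.diagonal fun r ↦ tw κ₂ r β with hX
  have hXX : (Matrix.diagonal fun r ↦ tw2 D₂ r β) = X := by
    rw [hX]
    congr 1
    funext r
    unfold tw2 tw
    by_cases h4 : D₂ % 4 = 1
    · rw [if_pos h4, if_pos (hk2'.2 h4)]
    · rw [if_neg h4, if_neg (fun hh => h4 (hk2'.1 hh))]
  have hj : jf (γ₁ : Mat) τ₁ = jf (γ : Mat) τ := by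
    rw [hγ, hγ₁, hτ₁]
    unfold jf
    rw [coe_mob _ hA0]
    unfold jf
    simp
    ring
  have hj0 : jf (γ : Mat) τ ≠ 0 := jf_ne_zero _ (by
    rw [Matrix.SpecialLinearGroup.det_coe]
    exact one_ne_zero) τ
  have hjn : ((‖jf (γ : Mat) τ‖ : ℝ) : ℂ) ≠ 0 := by
    exact_mod_cast (norm_pos_iff.2 hj0).ne'
  have hchi : conj (ch D₁ d) = ch D₁ d := by
    unfold ch
    exact map_intCast (starRingEnd ℂ) _
  -- the first step
  have hM1 : M 1 (γ₁ : Mat) τ₁ = ch D₁ d • Nm κ₁ (γ : Mat) τ := by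
    calc M 1 (γ₁ : Mat) τ₁ = (Nm κ₁ (γ : Mat) τ * E κ₁ 1 (γ : Mat) τ) * M 1 (γ₁ : Mat) τ₁ := by
          rw [nm_mul, Matrix.one_mul]
      _ = Nm κ₁ (γ : Mat) τ * (E κ₁ 1 (γ : Mat) τ * M 1 (γ₁ : Mat) τ₁) := by
          rw [Matrix.mul_assoc]
      _ = _ := by rw [h1, Matrix.mul_smul, Matrix.mul_one]
  have hM2' : M2 = Nm κ₂ (γ₁ : Mat) τ₁ * ((ch D₂ c₁ * (dl D₂ / ((Real.sqrt D₂ : ℝ) : ℂ))) • X) := by
    calc M2 = (Nm κ₂ (γ₁ : Mat) τ₁ * E κ₂ 1 (γ₁ : Mat) τ₁) * M2 := by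
          rw [nm_mul, Matrix.one_mul]
      _ = Nm κ₂ (γ₁ : Mat) τ₁ * (E κ₂ 1 (γ₁ : Mat) τ₁ * M2) := by
          rw [Matrix.mul_assoc]
      _ = _ := by rw [h2]
  -- the key identity
  have hN : Nm κ₂ (γ₁ : Mat) τ₁ = ch D₁ d • Nm κ (γ : Mat) τ := by
    have hjc : ((‖jf (γ : Mat) τ‖ : ℝ) : ℂ)⁻¹ * jf (γ : Mat) τ *
        conj (((‖jf (γ : Mat) τ‖ : ℝ) : ℂ)⁻¹ * jf (γ : Mat) τ) = 1 := by
      rw [Complex.mul_conj, Complex.normSq_eq_norm_sq, norm_mul, norm_inv, Complex.norm_real,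
        norm_norm, inv_mul_cancel₀ (norm_ne_zero_iff.2 hj0)]
      norm_num
    rcases hmod2 with m2 | m2
    · have e2 : Even κ₂ := hk2'.2 m2
      have e3 : Nm κ₂ (γ₁ : Mat) τ₁ = M 1 (γ₁ : Mat) τ₁ := by
        unfold Nm
        rw [if_pos e2]
      rw [e3, hM1]
      congr 1
      unfold Nm
      have : Even κ₁ ↔ Even κ := by
        rw [hkk, hk1', Nat.mul_mod, m2]
        omega
      by_cases hk : Even κ
      · rw [if_pos hk, if_pos (this.2 hk)]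
      · rw [if_neg hk, if_neg (fun hh => hk (this.1 hh))]
    · have e2 : ¬ Even κ₂ := by
        rw [hk2', m2]
        norm_num
      have e3 : Nm κ₂ (γ₁ : Mat) τ₁ =
          (((‖jf (γ₁ : Mat) τ₁‖ : ℝ) : ℂ)⁻¹ * jf (γ₁ : Mat) τ₁) • cj (M 1 (γ₁ : Mat) τ₁) := by
        unfold Nm
        rw [if_neg e2]
      rw [e3, hM1, cj_smul, hchi, hj, smul_smul, mul_comm, ← smul_smul]
      congr 1
      unfold Nm
      rcases hmod1 with m1 | m1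
      · have e1 : Even κ₁ := hk1'.2 m1
        have e4 : ¬ Even κ := by
          rw [hkk, Nat.mul_mod, m1, m2]
          norm_num
        rw [if_pos e1, if_neg e4]
      · have e1 : ¬ Even κ₁ := by
          rw [hk1', m1]
          norm_num
        have e4 : Even κ := by
          rw [hkk, Nat.mul_mod, m1, m2]
        rw [if_neg e1, if_pos e4, cj_smul, cj_cj, smul_smul, hjc, one_smul]
  rw [hXX, hM2', hN, Matrix.smul_mul, Matrix.mul_smul, ← Matrix.mul_assoc, mul_nm,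
    Matrix.one_mul, smul_smul, mul_assoc]

end MP836e4b.P
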