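/-
MODULE GenF (size M-L), board mod836, MP_836e4b_nt, folder Work/MP_836e4b_nt/P. Keep the statements verbatim, helper lemmas private.
Generating function identity. th r (γτ) w = e(c j w²) ∑_s M_rs th s τ (j w) for all w (isM_sl with z = j w:
thA 1 γ r τ (jw) = e(-c (jw)²/j) th r (γτ) (w)). Expand in powers of w: th s τ z = ∑_l (2πi z)^l/l! ph 1 l τ s
(ph 1 l τ s = ∑_n n^l e(n²τ/4), sums over n exchange by absolute convergence), e(c j w²) = ∑_i (2πi c j)^i w^{2i}/i!.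
Compare the coefficients of w^e: (2πi)^e/e! ph 1 e (γτ) r = ∑_i (2πi c j)^i/i! * (2πi j)^{e-2i}/(e-2i)! ∑_s M_rs ph 1 (e-2i) τ s.
Multiply by e!/(2πi)^e: (2πi)^{i+e-2i-e} = (2πi)^{-i}, j^{i+e-2i} = j^{e-i}. Use uniqueness of power series
coefficients (HasFPowerSeriesAt.eq_formalMultilinearSeries or iteratedDeriv at 0), or differentiate e times.
-/
import Mathlib
import Pool.Agent.Work.MP_836e4b_nt.P.Defs
import Pool.Agent.Work.MP_836e4b_nt.P.MA1
import Pool.Agent.Work.MP_836e4b_nt.P.PhE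

open UpperHalfPlane Complex
open scoped MatrixGroups ComplexConjugate Matrix

namespace MP836e4b.P

private theorem gf_unique {a b : ℕ → ℂ} {f : ℂ → ℂ}
    (ha : ∀ z, HasSum (fun n => a n * z ^ n) (f z))
    (hb : ∀ z, HasSum (fun n => b n * z ^ n) (f z)) (n : ℕ) : a n = b n := by
  have h1 : HasFPowerSeriesAt f (FormalMultilinearSeries.ofScalars ℂ a) 0 := by
    rw [hasFPowerSeriesAt_iff]
    refine Filter.Eventually.of_forall (fun z => ?_)
    rw [zero_add]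
    simpa [mul_comm] using ha z
  have h2 : HasFPowerSeriesAt f (FormalMultilinearSeries.ofScalars ℂ b) 0 := by
    rw [hasFPowerSeriesAt_iff]
    refine Filter.Eventually.of_forall (fun z => ?_)
    rw [zero_add]
    simpa [mul_comm] using hb z
  have h3 := h1.eq_formalMultilinearSeries h2
  have h4 := congrArg (fun p => FormalMultilinearSeries.coeff p n) h3
  simpa using h4

private theorem gf_exp (x : ℂ) : HasSum (fun l : ℕ => x ^ l / (l.factorial : ℂ)) (Complex.exp x) := by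
  rw [Complex.exp_eq_exp_ℂ]
  exact NormedSpace.expSeries_div_hasSum_exp x

private theorem gf_expR (x : ℝ) : HasSum (fun l : ℕ => x ^ l / (l.factorial : ℝ)) (Real.exp x) := by
  rw [Real.exp_eq_exp_ℝ]
  exact NormedSpace.expSeries_div_hasSum_exp x

private theorem gf_bd (r : Fin 2) (τ : ℍ) (z : ℂ) (m : ℤ) :
    ‖ee ((2 * (m : ℂ) + ((r : ℕ) : ℂ)) ^ 2 * (τ : ℂ) / 4)‖ *
      Real.exp (‖2 * (Real.pi : ℂ) * Complex.I * ((2 * (m : ℂ) + ((r : ℕ) : ℂ)) * z)‖) ≤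
    ‖ee ((2 * (m : ℂ) + ((r : ℕ) : ℂ)) ^ 2 * (τ : ℂ) / 4 + (2 * (m : ℂ) + ((r : ℕ) : ℂ)) *
      (-(Complex.I * ((‖z‖ : ℝ) : ℂ))))‖ +
    ‖ee ((2 * (m : ℂ) + ((r : ℕ) : ℂ)) ^ 2 * (τ : ℂ) / 4 + (2 * (m : ℂ) + ((r : ℕ) : ℂ)) *
      (Complex.I * ((‖z‖ : ℝ) : ℂ)))‖ := by
  set v : ℝ := 2 * (m : ℝ) + ((r : ℕ) : ℝ) with hv
  have hu : (2 * (m : ℂ) + ((r : ℕ) : ℂ)) = ((v : ℝ) : ℂ) := by
    rw [hv]
    push_cast
    ring
  rw [hu]
  have h1 : ‖2 * (Real.pi : ℂ) * Complex.I * (((v : ℝ) : ℂ) * z)‖ = 2 * Real.pi * (|v| * ‖z‖) := by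
    rw [norm_mul, norm_mul, norm_mul, norm_mul, Complex.norm_I, Complex.norm_real, Complex.norm_real,
      Real.norm_eq_abs, Real.norm_eq_abs, abs_of_pos Real.pi_pos]
    simp
  rw [h1, ee_add, ee_add, norm_mul, norm_mul, ← mul_add]
  refine mul_le_mul_of_nonneg_left ?_ (norm_nonneg _)
  rw [norm_ee, norm_ee]
  have h2 : (((v : ℝ) : ℂ) * (-(Complex.I * ((‖z‖ : ℝ) : ℂ)))).im = -(v * ‖z‖) := by
    simp
  have h3 : (((v : ℝ) : ℂ) * (Complex.I * ((‖z‖ : ℝ) : ℂ))).im = v * ‖z‖ := by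
    simp
  rw [h2, h3]
  rcases le_total 0 v with h | h
  · rw [abs_of_nonneg h]
    have : 2 * Real.pi * (v * ‖z‖) = -2 * Real.pi * -(v * ‖z‖) := by ring
    rw [this]
    have := Real.exp_pos (-2 * Real.pi * (v * ‖z‖))
    linarith
  · rw [abs_of_nonpos h]
    have : 2 * Real.pi * (-v * ‖z‖) = -2 * Real.pi * (v * ‖z‖) := by ring
    rw [this]
    have := Real.exp_pos (-2 * Real.pi * -(v * ‖z‖))
    linarith

private theorem gf_sum (r : Fin 2) (τ : ℍ) (z : ℂ) :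
    HasSum (fun l : ℕ => (2 * (Real.pi : ℂ) * Complex.I) ^ l / (l.factorial : ℂ) * ph 1 l τ r * z ^ l)
      (th r τ z) := by
  set F : ℤ × ℕ → ℂ := fun p => ee ((2 * (p.1 : ℂ) + ((r : ℕ) : ℂ)) ^ 2 * (τ : ℂ) / 4) *
    ((2 * (Real.pi : ℂ) * Complex.I * ((2 * (p.1 : ℂ) + ((r : ℕ) : ℂ)) * z)) ^ p.2 /
      (p.2.factorial : ℂ)) with hF
  have hrow : ∀ m : ℤ, HasSum (fun l : ℕ => F (m, l))
      (ee ((2 * (m : ℂ) + ((r : ℕ) : ℂ)) ^ 2 * (τ : ℂ) / 4 + (2 * (m : ℂ) + ((r : ℕ) : ℂ)) * z)) := by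
    intro m
    rw [ee_add]
    have := (gf_exp (2 * (Real.pi : ℂ) * Complex.I * ((2 * (m : ℂ) + ((r : ℕ) : ℂ)) * z))).mul_left
      (ee ((2 * (m : ℂ) + ((r : ℕ) : ℂ)) ^ 2 * (τ : ℂ) / 4))
    exact this
  have hrown : ∀ m : ℤ, HasSum (fun l : ℕ => ‖F (m, l)‖)
      (‖ee ((2 * (m : ℂ) + ((r : ℕ) : ℂ)) ^ 2 * (τ : ℂ) / 4)‖ *
      Real.exp (‖2 * (Real.pi : ℂ) * Complex.I * ((2 * (m : ℂ) + ((r : ℕ) : ℂ)) * z)‖)) := by
    intro m
    have h0 := (gf_expR (‖2 * (Real.pi : ℂ) * Complex.I * ((2 * (m : ℂ) + ((r : ℕ) : ℂ)) * z)‖)).mul_left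
      (‖ee ((2 * (m : ℂ) + ((r : ℕ) : ℂ)) ^ 2 * (τ : ℂ) / 4)‖)
    refine h0.congr_fun ?_
    intro l
    simp only [hF]
    rw [norm_mul, norm_div, norm_pow]
    congr 2
    simp
  have hsn : Summable (fun p : ℤ × ℕ => ‖F p‖) := by
    rw [summable_prod_of_nonneg (fun p => norm_nonneg _)]
    refine ⟨fun m => (hrown m).summable, ?_⟩
    have h1 := (th_summable r τ (-(Complex.I * ((‖z‖ : ℝ) : ℂ)))).norm
    have h2 := (th_summable r τ (Complex.I * ((‖z‖ : ℝ) : ℂ))).norm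
    refine Summable.of_nonneg_of_le (fun m => tsum_nonneg (fun l => norm_nonneg _)) (fun m => ?_)
      (h1.add h2)
    rw [(hrown m).tsum_eq]
    exact gf_bd r τ z m
  have hs : Summable F := hsn.of_norm
  have hsum := hs.hasSum
  have h1 := hsum.prod_fiberwise hrow
  have h2 : (∑' p, F p) = th r τ z := by
    rw [← h1.tsum_eq]
    rfl
  rw [h2] at hsum
  have h3 := (Equiv.prodComm ℕ ℤ).hasSum_iff.2 hsum
  refine h3.prod_fiberwise (fun l => ?_)
  have h4 := (((ph_summable 1 l one_pos τ r).hasSum).mul_left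
    ((2 * (Real.pi : ℂ) * Complex.I) ^ l / (l.factorial : ℂ))).mul_right (z ^ l)
  refine h4.congr_fun ?_
  intro m
  simp only [Function.comp, Equiv.prodComm_apply, Prod.swap_prod_mk, hF]
  rw [Nat.cast_one, one_mul]
  generalize (2 * (m : ℂ) + ((r : ℕ) : ℂ)) = u
  ring

private theorem gf_E (x w : ℂ) : HasSum (fun k : ℕ =>
    (if Even k then (2 * (Real.pi : ℂ) * Complex.I * x) ^ (k / 2) / ((k / 2).factorial : ℂ) else 0) *
      w ^ k) (ee (x * w ^ 2)) := by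
  have hinj : Function.Injective (fun i : ℕ => 2 * i) := by
    intro a b h
    simp only at h
    omega
  refine (hinj.hasSum_iff ?_).1 ?_
  · intro k hk
    rw [if_neg, zero_mul]
    intro he
    apply hk
    obtain ⟨t, ht⟩ := he
    exact ⟨t, by simp only; omega⟩
  · have h0 := gf_exp (2 * (Real.pi : ℂ) * Complex.I * (x * w ^ 2))
    refine h0.congr_fun ?_
    intro i
    simp only [Function.comp]
    rw [if_pos (even_two_mul i), Nat.mul_div_cancel_left i two_pos, pow_mul w 2 i, mul_pow, mul_pow,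
      mul_pow, mul_pow, mul_pow]
    ring

private theorem gf_range (e : ℕ) (f g : ℕ → ℂ) :
    ∑ k ∈ Finset.range (e + 1), (if Even k then f (k / 2) else 0) * g (e - k) =
      ∑ i ∈ Finset.range (e / 2 + 1), f i * g (e - 2 * i) := by
  have hinj : Function.Injective (fun i : ℕ => 2 * i) := by
    intro a b h
    simp only at h
    omega
  have h1 : ∑ i ∈ Finset.range (e / 2 + 1), f i * g (e - 2 * i) =
      ∑ k ∈ (Finset.range (e / 2 + 1)).image (fun i : ℕ => 2 * i),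
        (if Even k then f (k / 2) else 0) * g (e - k) := by
    rw [Finset.sum_image (fun a _ b _ h => hinj h)]
    refine Finset.sum_congr rfl (fun i _ => ?_)
    rw [if_pos (even_two_mul i), Nat.mul_div_cancel_left i two_pos]
  rw [h1]
  symm
  apply Finset.sum_subset
  · intro k hk
    rw [Finset.mem_image] at hk
    obtain ⟨i, hi, rfl⟩ := hk
    rw [Finset.mem_range] at hi ⊢
    omega
  · intro k hk hk2
    rw [if_neg, zero_mul]
    intro he
    apply hk2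
    obtain ⟨t, ht⟩ := he
    rw [Finset.mem_image]
    rw [Finset.mem_range] at hk
    exact ⟨t, Finset.mem_range.2 (by omega), by omega⟩

private theorem gf_key (γ : SL(2, ℤ)) (τ : ℍ) (r : Fin 2) (w : ℂ) :
    th r (mob (γ : Mat) τ) w = ee ((((γ : Mat) 1 0 : ℤ) : ℂ) * jf (γ : Mat) τ * w ^ 2) *
      ∑ s : Fin 2, M 1 (γ : Mat) τ r s * th s τ (jf (γ : Mat) τ * w) := by
  have hj : jf (γ : Mat) τ ≠ 0 := jf_ne_zero _ (by rw [Matrix.SpecialLinearGroup.det_coe]; exact one_ne_zero) τ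
  have h := isM_sl γ τ r (jf (γ : Mat) τ * w)
  have hav : ∀ (f : ℂ → ℂ) (z : ℂ), avg 1 τ f z = f z := by
    intro f z
    have h0 : ee 0 = 1 := ee_zero
    simp [avg, h0]
  rw [hav] at h
  rw [← h]
  unfold thA
  rw [← mul_assoc, ← ee_add]
  have e1 : (((γ : Mat) 1 0 : ℤ) : ℂ) * jf (γ : Mat) τ * w ^ 2 +
      -((((γ : Mat) 1 0 : ℤ) : ℂ) * (jf (γ : Mat) τ * w) ^ 2 / jf (γ : Mat) τ) = 0 := by
    field_simp
    ring
  rw [e1, ee_zero, one_mul]
  congr 1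
  rw [Nat.cast_one, one_mul]
  field_simp

theorem ph_mob (γ : SL(2, ℤ)) (e : ℕ) (τ : ℍ) (r : Fin 2) :
    ph 1 e (mob (γ : Mat) τ) r = ∑ i ∈ Finset.range (e / 2 + 1),
      cf e i * (((γ : Mat) 1 0 : ℤ) : ℂ) ^ i * (jf (γ : Mat) τ) ^ (e - i) *
        ∑ s : Fin 2, M 1 (γ : Mat) τ r s * ph 1 (e - 2 * i) τ s := by
  set J : ℂ := jf (γ : Mat) τ with hJ
  set c : ℂ := (((γ : Mat) 1 0 : ℤ) : ℂ) with hc
  set P : ℂ := 2 * (Real.pi : ℂ) * Complex.I with hP
  have hP0 : P ≠ 0 := Complex.two_pi_I_ne_zero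
  set g : ℕ → ℂ := fun l => ∑ s : Fin 2, M 1 (γ : Mat) τ r s *
    (P ^ l / (l.factorial : ℂ) * ph 1 l τ s * J ^ l) with hg
  have hG : ∀ w : ℂ, HasSum (fun l : ℕ => g l * w ^ l)
      (∑ s : Fin 2, M 1 (γ : Mat) τ r s * th s τ (J * w)) := by
    intro w
    have h1 : ∀ s ∈ (Finset.univ : Finset (Fin 2)), HasSum (fun l : ℕ => M 1 (γ : Mat) τ r s *
        (P ^ l / (l.factorial : ℂ) * ph 1 l τ s * (J * w) ^ l)) (M 1 (γ : Mat) τ r s * th s τ (J * w)) :=
      fun s _ => (gf_sum s τ (J * w)).mul_left _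
    have h2 := hasSum_sum h1
    refine h2.congr_fun ?_
    intro l
    simp only [hg]
    rw [Finset.sum_mul]
    refine Finset.sum_congr rfl (fun s _ => ?_)
    rw [mul_pow]
    ring
  have hR : ∀ w : ℂ, HasSum (fun n : ℕ => (∑ k ∈ Finset.range (n + 1),
      (if Even k then (P * (c * J)) ^ (k / 2) / ((k / 2).factorial : ℂ) else 0) * g (n - k)) * w ^ n)
      (th r (mob (γ : Mat) τ) w) := by
    intro w
    have hE := gf_E (c * J) w
    have hG' := hG w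
    have h1 := hasSum_sum_range_mul_of_summable_norm hE.summable.norm hG'.summable.norm
    rw [hE.tsum_eq, hG'.tsum_eq, ← gf_key γ τ r w] at h1
    refine h1.congr_fun ?_
    intro n
    rw [Finset.sum_mul]
    refine Finset.sum_congr rfl (fun k hk => ?_)
    have hk' : k + (n - k) = n := by
      rw [Finset.mem_range] at hk
      omega
    have hw : w ^ n = w ^ k * w ^ (n - k) := by
      rw [← pow_add, hk']
    rw [hw]
    ring
  have hL : ∀ w : ℂ, HasSum (fun n : ℕ => (P ^ n / (n.factorial : ℂ) * ph 1 n (mob (γ : Mat) τ) r) *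
      w ^ n) (th r (mob (γ : Mat) τ) w) := fun w => gf_sum r (mob (γ : Mat) τ) w
  have hEq := gf_unique hL hR e
  rw [gf_range e (fun i => (P * (c * J)) ^ i / (i.factorial : ℂ)) g] at hEq
  have hef : ((e.factorial : ℕ) : ℂ) ≠ 0 := by exact_mod_cast e.factorial_ne_zero
  have h5 : ph 1 e (mob (γ : Mat) τ) r = (e.factorial : ℂ) / P ^ e *
      (P ^ e / (e.factorial : ℂ) * ph 1 e (mob (γ : Mat) τ) r) := by
    field_simp
  rw [h5, hEq, Finset.mul_sum]
  refine Finset.sum_congr rfl (fun i hi => ?_)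
  rw [Finset.mem_range] at hi
  obtain ⟨t, rfl⟩ : ∃ t, e = 2 * i + t := ⟨e - 2 * i, by omega⟩
  have e1 : 2 * i + t - 2 * i = t := by omega
  have e2 : 2 * i + t - i = i + t := by omega
  simp only [hg, e1, e2, cf]
  have hi0 : ((i.factorial : ℕ) : ℂ) ≠ 0 := by exact_mod_cast i.factorial_ne_zero
  have ht0 : ((t.factorial : ℕ) : ℂ) ≠ 0 := by exact_mod_cast t.factorial_ne_zero
  have h6 : ∑ s : Fin 2, M 1 (γ : Mat) τ r s * (P ^ t / (t.factorial : ℂ) * ph 1 t τ s * J ^ t) =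
      P ^ t / (t.factorial : ℂ) * J ^ t * ∑ s : Fin 2, M 1 (γ : Mat) τ r s * ph 1 t τ s := by
    rw [Finset.mul_sum]
    refine Finset.sum_congr rfl (fun s _ => ?_)
    ring
  rw [h6, ← hP, mul_pow P (c * J) i, mul_pow c J i, pow_add P (2 * i) t, pow_mul P 2 i,
    pow_add J i t]
  have h7 : P ^ 2 ≠ 0 := pow_ne_zero 2 hP0
  have h8 : (P ^ 2) ^ i = P ^ i * P ^ i := by
    rw [← pow_mul, two_mul, pow_add]
  rw [h8]
  have h9 : P ^ i ≠ 0 := pow_ne_zero i hP0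
  have h10 : P ^ t ≠ 0 := pow_ne_zero t hP0
  field_simp

end MP836e4b.P
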