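/-
MODULE SlG (size S-M), board mod836, MP_836e4b_nt, folder Work/MP_836e4b_nt/P. Keep the statements verbatim, helper lemmas private.
If h is invariant under S and T then it is invariant under SL(2,Z): generators S, T
(Mathlib: SpecialLinearGroup.SL2Z_generators, ModularGroup.S, ModularGroup.T; their matrices are mS and mT 1),
sl_mul, Subgroup.closure_induction; inverse: sl κ 1 γ⁻¹ h = sl κ 1 γ⁻¹ (sl κ 1 γ h) = sl κ 1 (γγ⁻¹) h = h
(sl κ 1 1 h = h by M_one).
The second theorem: for an invariant seed f (T and -1), sl κ 1 γ f depends only on the bottom row: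
two matrices with the same bottom row differ by T^n on the left.
-/
import Mathlib
import Pool.Agent.Work.MP_836e4b_nt.P.Defs
import Pool.Agent.Work.MP_836e4b_nt.P.MA4

open UpperHalfPlane Complex
open scoped MatrixGroups ComplexConjugate Matrix

namespace MP836e4b.P

theorem sl_one (κ : ℕ) (h : VF) : sl κ 1 (1 : Mat) h = h := by
  funext τ
  have hE : E κ 1 (1 : Mat) τ = 1 := by
    unfold E
    rw [M_one, jf_one]
    split_ifs <;> simp
  unfold sl
  rw [hE, jf_one, mob_one]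
  simp

theorem inv_of_gen (κ : ℕ) (h : VF) (hS : sl κ 1 mS h = h) (hT : sl κ 1 (mT 1) h = h)
    (γ : SL(2, ℤ)) : sl κ 1 (γ : Mat) h = h := by
  have hγ : γ ∈ Subgroup.closure {ModularGroup.S, ModularGroup.T} := by
    rw [SpecialLinearGroup.SL2Z_generators]; trivial
  induction hγ using Subgroup.closure_induction with
  | mem x hx =>
    rcases hx with rfl | rfl
    · exact hS
    · exact hT
  | one =>
    rw [Matrix.SpecialLinearGroup.coe_one]
    exact sl_one κ h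
  | mul x y _ _ hx hy =>
    rw [Matrix.SpecialLinearGroup.coe_mul, ← sl_mul, hx, hy]
  | inv x _ hx =>
    have h1 : sl κ 1 ((x⁻¹ : SL(2, ℤ)) : Mat) (sl κ 1 (x : Mat) h) = h := by
      rw [sl_mul, ← Matrix.SpecialLinearGroup.coe_mul, mul_inv_cancel,
        Matrix.SpecialLinearGroup.coe_one]
      exact sl_one κ h
    rw [hx] at h1
    exact h1

private theorem coe_Tz (n : ℤ) : ((ModularGroup.T ^ n : SL(2, ℤ)) : Mat) = mT n :=
  ModularGroup.coe_T_zpow n

private theorem Tn_aux (κ : ℕ) (f : VF) (hT : sl κ 1 (mT 1) f = f) (n : ℤ) :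
    sl κ 1 (mT n) f = f := by
  have hT' : sl κ 1 ((ModularGroup.T : SL(2, ℤ)) : Mat) f = f := hT
  have hTi : sl κ 1 ((ModularGroup.T⁻¹ : SL(2, ℤ)) : Mat) f = f := by
    have h1 : sl κ 1 ((ModularGroup.T⁻¹ : SL(2, ℤ)) : Mat)
        (sl κ 1 ((ModularGroup.T : SL(2, ℤ)) : Mat) f) = f := by
      rw [sl_mul, ← Matrix.SpecialLinearGroup.coe_mul, mul_inv_cancel,
        Matrix.SpecialLinearGroup.coe_one]
      exact sl_one κ f
    rw [hT'] at h1
    exact h1
  rw [← coe_Tz]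
  induction n with
  | zero => rw [zpow_zero, Matrix.SpecialLinearGroup.coe_one]; exact sl_one κ f
  | succ n ih =>
    rw [zpow_add, zpow_one, Matrix.SpecialLinearGroup.coe_mul, ← sl_mul, ih, hT']
  | pred n ih =>
    rw [zpow_sub, zpow_one, Matrix.SpecialLinearGroup.coe_mul, ← sl_mul, ih, hTi]

theorem sl_bottom (κ : ℕ) (f : VF) (hT : sl κ 1 (mT 1) f = f) (γ γ' : SL(2, ℤ))
    (h0 : (γ : Mat) 1 0 = (γ' : Mat) 1 0) (h1 : (γ : Mat) 1 1 = (γ' : Mat) 1 1) :
    sl κ 1 (γ : Mat) f = sl κ 1 (γ' : Mat) f := by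
  have d1 := γ.det_coe
  have d2 := γ'.det_coe
  rw [Matrix.det_fin_two] at d1 d2
  have key : (γ : Mat) =
      mT ((γ : Mat) 0 1 * (γ' : Mat) 0 0 - (γ : Mat) 0 0 * (γ' : Mat) 0 1) * (γ' : Mat) := by
    ext i j
    fin_cases i <;> fin_cases j
    · simp only [mT, Matrix.mul_apply, Fin.sum_univ_two, Matrix.of_apply, Matrix.cons_val',
        Matrix.cons_val_zero, Matrix.cons_val_one, Fin.zero_eta, Fin.isValue, Fin.mk_one,
        Matrix.cons_val_fin_one]
      rw [h0, h1] at d1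
      linear_combination (-(γ : Mat) 0 0) * d2 + (γ' : Mat) 0 0 * d1
    · simp only [mT, Matrix.mul_apply, Fin.sum_univ_two, Matrix.of_apply, Matrix.cons_val',
        Matrix.cons_val_zero, Matrix.cons_val_one, Fin.zero_eta, Fin.isValue, Fin.mk_one,
        Matrix.cons_val_fin_one]
      rw [h0, h1] at d1
      linear_combination (-(γ : Mat) 0 1) * d2 + (γ' : Mat) 0 1 * d1
    · simp [mT, Matrix.mul_apply, Fin.sum_univ_two, h0]
    · simp [mT, Matrix.mul_apply, Fin.sum_univ_two, h1]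
  rw [key, ← coe_Tz, ← sl_mul, coe_Tz, Tn_aux κ f hT]

theorem sl_Tn (κ : ℕ) (f : VF) (hT : sl κ 1 (mT 1) f = f) (n : ℤ) :
    sl κ 1 (mT n) f = f := Tn_aux κ f hT n

private theorem seed_t (κ : ℕ) (c : ℕ → ℂ) (f : VF) (h : HasE κ c f) :
    sl κ 1 (mT 1) f = f := by
  have hj : ∀ τ : ℍ, jf (mT 1) τ = 1 := by
    intro τ; simp [jf, mT]
  have hm : ∀ τ : ℍ, ((mob (mT 1) τ : ℍ) : ℂ) = (τ : ℂ) + 1 := by
    intro τ
    rw [coe_mob (mT 1) (by simp [mT, Matrix.det_fin_two]) τ, hj]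
    simp [mT]
  have hM : ∀ τ : ℍ, M 1 (mT 1) τ = !![1, 0; 0, ee ((1 : ℂ) / 4)] := by
    intro τ
    have := M_T 1 τ
    simpa using this
  have hval : ∀ (τ : ℍ) (r : Fin 2),
      f (mob (mT 1) τ) r = ee ((cls κ r : ℂ) / 4) * f τ r := by
    intro τ r
    have h1 := h.sum (mob (mT 1) τ) r
    have h2 := (h.sum τ r).mul_left (ee ((cls κ r : ℂ) / 4))
    refine h1.unique ?_
    refine h2.congr_fun ?_
    intro n
    split_ifs with hn
    · rw [hm]
      have : ((n : ℂ) * ((τ : ℂ) + 1) / 4) = (n : ℂ) * (τ : ℂ) / 4 + (cls κ r : ℂ) / 4 +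
          (((n / 4 : ℕ) : ℤ) : ℂ) := by
        have h4 : (n : ℂ) = 4 * (((n / 4 : ℕ) : ℤ) : ℂ) + (cls κ r : ℂ) := by
          rw [← hn, Int.cast_natCast]
          have h5 : ((4 * (n / 4) + n % 4 : ℕ) : ℂ) = (n : ℂ) := by rw [Nat.div_add_mod]
          rw [Nat.cast_add, Nat.cast_mul, Nat.cast_ofNat] at h5
          exact h5.symm
        linear_combination (1 / 4 : ℂ) * h4
      rw [this, ee_add_int, ee_add]
      ring
    · simp
  obtain ⟨w, hw⟩ : ∃ w, w = ee ((1 : ℂ) / 4) := ⟨_, rfl⟩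
  funext τ r
  unfold sl E
  rw [hj, hM, ← hw]
  have h1 := hval τ 0
  have h2 := hval τ 1
  by_cases hκ : Even κ
  · rw [if_pos hκ]
    have e1 : ee ((cls κ 1 : ℂ) / 4) = w := by simp [cls, hκ, hw]
    have e0 : ee ((cls κ 0 : ℂ) / 4) = 1 := by simp [cls, ee_zero]
    have ec : conj w * w = 1 := by
      rw [hw, conj_ee, ← ee_add]
      have : -conj ((1 : ℂ) / 4) + 1 / 4 = 0 := by simp [Complex.ext_iff]
      rw [this, ee_zero]
    rw [e0, one_mul] at h1
    rw [e1] at h2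
    fin_cases r
    · simp [h1]
    · simp only [Fin.mk_one, Fin.isValue]
      simp
      rw [h2]
      linear_combination (f τ 1) * ec
  · rw [if_neg hκ]
    have e1 : ee ((cls κ 1 : ℂ) / 4) = ee (3 / 4) := by simp [cls, hκ]
    have e0 : ee ((cls κ 0 : ℂ) / 4) = 1 := by simp [cls, ee_zero]
    have ec : w * ee (3 / 4) = 1 := by
      rw [hw, ← ee_add]
      have : (1 : ℂ) / 4 + 3 / 4 = ((1 : ℤ) : ℂ) := by norm_num
      rw [this, ee_intCast]
    rw [e0, one_mul] at h1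
    rw [e1] at h2
    fin_cases r
    · simp [h1]
    · simp only [Fin.mk_one, Fin.isValue]
      simp
      rw [h2]
      linear_combination (f τ 1) * ec

private theorem seed_n (κ : ℕ) (f : VF) : sl κ 1 mN f = f := by
  have hj : ∀ τ : ℍ, jf mN τ = -1 := by
    intro τ; simp [jf, mN]
  have hm : ∀ τ : ℍ, mob mN τ = τ := by
    intro τ
    apply UpperHalfPlane.ext
    rw [coe_mob mN (by simp [mN, Matrix.det_fin_two]) τ, hj]
    simp [mN]
  funext τ r
  unfold sl E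
  rw [hj, hm, M_N]
  by_cases hκ : Even κ
  · rw [if_pos hκ]
    simp [hκ.neg_one_pow]
  · rw [if_neg hκ]
    have ho : Odd κ := Nat.not_even_iff_odd.mp hκ
    simp [ho.neg_one_pow, Matrix.neg_mulVec]

theorem seedInv_of_hasE (κ : ℕ) (c : ℕ → ℂ) (f : VF) (h : HasE κ c f) : SeedInv κ f :=
  ⟨seed_t κ c f h, seed_n κ f⟩

theorem gam_spec (c d : ℤ) (h : IsCoprime c d) :
    ((gam c d : SL(2, ℤ)) : Mat) 1 0 = c ∧ ((gam c d : SL(2, ℤ)) : Mat) 1 1 = d := by
  have hex : ∃ γ : SL(2, ℤ), γ 1 0 = c ∧ γ 1 1 = d := by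
    obtain ⟨a, b, hab⟩ := h
    refine ⟨⟨!![b, -a; c, d], ?_⟩, ?_, ?_⟩
    · rw [Matrix.det_fin_two_of]
      linarith
    · rfl
    · rfl
  unfold gam
  rw [dif_pos hex]
  exact hex.choose_spec

end MP836e4b.P
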