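/-
MODULE CTrm (size M), board mod836, MP_836e4b_nt, folder Work/MP_836e4b_nt/P. Keep the statements verbatim, helper lemmas private.
The general term. γ = gam c d = (a,b;c,d), c = D1 c1, c1 prime to D2, β0 = D1 β (β0 c1 = β c = d mod D2). D·(γτ) =
γ''(τ''), τ'' = (D1τ+β0)/D2, γ'' = (D2 a, D1 b - aβ0; c1, (d-c1β0)/D2), jf γ'' τ'' = j/D2. ph D e τ = ph 1 e (Dτ).
ph_mob for γ'' at τ'': ph D e (γτ) = ∑_i cf e i c1^i (j/D2)^(e-i) M 1 γ'' τ'' ph 1 (e-2i) τ''. Multiply by j^(-κ) E κ 1 γ τ and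
use E_M_gen. c1 = c/D1: c1^i = c^i D1^(-i); j^(-κ+e-i) = j^(-k-i).
-/
import Mathlib
import Pool.Agent.Work.MP_836e4b_nt.P.Defs
import Pool.Agent.Work.MP_836e4b_nt.P.CMat
import Pool.Agent.Work.MP_836e4b_nt.P.GenF
import Pool.Agent.Work.MP_836e4b_nt.P.SlG

open UpperHalfPlane Complex
open scoped MatrixGroups ComplexConjugate Matrix

namespace MP836e4b.P

private theorem ph_scale (D e : ℕ) (hD : 0 < D) (τ : ℍ) (s : Fin 2) :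
    ph D e τ s = ph 1 e (mob !![(D : ℤ), 0; 0, 1] τ) s := by
  have hm : ((mob !![(D : ℤ), 0; 0, 1] τ : ℍ) : ℂ) = (D : ℂ) * (τ : ℂ) := by
    rw [coe_mob _ (by simp only [Matrix.det_fin_two_of]; simpa using hD)]
    simp [jf]
  unfold ph
  refine tsum_congr fun m ↦ ?_
  rw [hm]
  congr 2
  push_cast
  ring

private theorem sl_eq (κ p : ℕ) (A : Mat) (h : VF) (τ : ℍ) (r : Fin 2) :
    sl κ p A h τ r = ((jf A τ) ^ κ)⁻¹ * ∑ s, E κ p A τ r s * h (mob A τ) s := by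
  simp only [sl, Pi.smul_apply, smul_eq_mul, Matrix.mulVec, dotProduct]

private theorem mat_sum (X : ℂ) (t f : Fin 2 → ℂ) (E₀ M₀ : Matrix (Fin 2) (Fin 2) ℂ)
    (h : E₀ * M₀ = X • Matrix.diagonal t) (r : Fin 2) :
    ∑ s, E₀ r s * ∑ s', M₀ s s' * f s' = X * t r * f r := by
  have h1 : ∑ s, E₀ r s * ∑ s', M₀ s s' * f s' = ∑ s', (E₀ * M₀) r s' * f s' := by
    simp only [Matrix.mul_apply, Finset.mul_sum, Finset.sum_mul]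
    rw [Finset.sum_comm]
    refine Finset.sum_congr rfl fun s _ ↦ Finset.sum_congr rfl fun s' _ ↦ by ring
  rw [h1, h]
  simp only [Matrix.smul_apply, smul_eq_mul, Matrix.diagonal_apply]
  rw [Finset.sum_eq_single r]
  · rw [if_pos rfl]
  · intro s _ hs
    rw [if_neg (Ne.symm hs)]
    ring
  · intro h'
    exact absurd (Finset.mem_univ r) h'

theorem sl_gam_gen (D₁ D₂ κ k e : ℕ) (hD : Odd (D₁ * D₂)) (hs : Squarefree (D₁ * D₂))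
    (hD4 : (D₁ * D₂) % 4 = cls κ 1) (hκ : κ = k + e) (c d : ℤ) (hcd : IsCoprime c d)
    (hc : (D₁ : ℤ) ∣ c) (β : ℕ) (hβ : (D₂ : ℤ) ∣ d - (β : ℤ) * c) (τ : ℍ) (r : Fin 2) :
    sl κ 1 (gam c d : Mat) (ph (D₁ * D₂) e) τ r = ∑ i ∈ Finset.range (e / 2 + 1),
      cf e i * ((D₁ : ℂ) ^ i)⁻¹ * ((D₂ : ℂ) ^ (e - i))⁻¹ * (dl D₂ / ((Real.sqrt D₂ : ℝ) : ℂ)) *
        tw2 D₂ r ((D₁ : ℤ) * β) *
        (ch D₁ d * ch D₂ (c / (D₁ : ℤ)) * (c : ℂ) ^ i *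
          (((c : ℂ) * (τ : ℂ) + (d : ℂ)) ^ (k + i))⁻¹) *
        ph 1 (e - 2 * i) (mob !![(D₁ : ℤ), (D₁ : ℤ) * (β : ℤ); 0, (D₂ : ℤ)] τ) r := by
  have hD0 : 0 < D₁ * D₂ := hD.pos
  have hD1 : 0 < D₁ := Nat.pos_of_ne_zero (by rintro rfl; simp at hD0)
  have hD2 : 0 < D₂ := Nat.pos_of_ne_zero (by rintro rfl; simp at hD0)
  have hD1z : (D₁ : ℤ) ≠ 0 := by exact_mod_cast hD1.ne'
  have hD1c : (D₁ : ℂ) ≠ 0 := by exact_mod_cast hD1.ne'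
  have hD2c : (D₂ : ℂ) ≠ 0 := by exact_mod_cast hD2.ne'
  obtain ⟨c₁, hc₁⟩ := hc
  obtain ⟨d', hd'⟩ := hβ
  obtain ⟨hg0, hg1⟩ := gam_spec c d hcd
  obtain ⟨γ, hγd⟩ : ∃ γ, γ = gam c d := ⟨_, rfl⟩
  rw [← hγd] at hg0 hg1 ⊢
  have hdet := γ.det_coe
  rw [Matrix.det_fin_two, hg0, hg1] at hdet
  obtain ⟨a, ha⟩ : ∃ a, a = (γ : Mat) 0 0 := ⟨_, rfl⟩
  obtain ⟨b, hb⟩ : ∃ b, b = (γ : Mat) 0 1 := ⟨_, rfl⟩
  rw [← ha, ← hb] at hdet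
  have hγ : (γ : Mat) = !![a, b; (D₁ : ℤ) * c₁, d] := by
    ext i j
    fin_cases i <;> fin_cases j
    · simpa using ha.symm
    · simpa using hb.symm
    · rw [← hc₁]; simpa using hg0
    · simpa using hg1
  have hdet1 : a * d - b * ((D₁ : ℤ) * c₁) = 1 := by rw [← hc₁]; exact hdet
  have hdd : (D₂ : ℤ) * d' = d - c₁ * ((D₁ : ℤ) * (β : ℤ)) := by
    rw [← hd', hc₁]; ring
  have hEM := E_M_gen D₁ D₂ κ hD hs hD4 a b c₁ d ((D₁ : ℤ) * (β : ℤ)) d' hdet1 hdd τ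
  rw [← hγ] at hEM
  -- the second matrix
  have hdet2 : (!![(D₂ : ℤ) * a, (D₁ : ℤ) * b - a * ((D₁ : ℤ) * (β : ℤ)); c₁, d'] : Mat).det = 1 := by
    rw [Matrix.det_fin_two_of]
    linear_combination a * hdd + hdet1
  obtain ⟨γ₂, hγ₂⟩ : ∃ γ₂ : SL(2, ℤ), (γ₂ : Mat) =
      !![(D₂ : ℤ) * a, (D₁ : ℤ) * b - a * ((D₁ : ℤ) * (β : ℤ)); c₁, d'] := ⟨⟨_, hdet2⟩, rfl⟩
  have hBdet : (0 : ℤ) < (!![(D₁ : ℤ), (D₁ : ℤ) * (β : ℤ); 0, (D₂ : ℤ)] : Mat).det := by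
    rw [Matrix.det_fin_two_of]
    have : (0 : ℤ) < (D₁ : ℤ) * (D₂ : ℤ) := by exact_mod_cast hD0
    simpa using this
  have hDdet : (0 : ℤ) < (!![((D₁ * D₂ : ℕ) : ℤ), 0; 0, 1] : Mat).det := by
    rw [Matrix.det_fin_two_of]
    have : (0 : ℤ) < ((D₁ * D₂ : ℕ) : ℤ) := by exact_mod_cast hD0
    simpa using this
  have hγdet : (0 : ℤ) < (γ : Mat).det := by rw [γ.det_coe]; exact one_pos
  have hγ₂det : (0 : ℤ) < (γ₂ : Mat).det := by rw [γ₂.det_coe]; exact one_pos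
  have hmat : (γ₂ : Mat) * !![(D₁ : ℤ), (D₁ : ℤ) * (β : ℤ); 0, (D₂ : ℤ)] =
      !![((D₁ * D₂ : ℕ) : ℤ), 0; 0, 1] * (γ : Mat) := by
    rw [hγ₂, hγ]
    ext i j
    fin_cases i <;> fin_cases j <;> simp [Matrix.mul_apply, Fin.sum_univ_two]
    · ring
    · ring
    · ring
    · linear_combination hdd
  have hmob : mob !![((D₁ * D₂ : ℕ) : ℤ), 0; 0, 1] (mob (γ : Mat) τ) =
      mob (γ₂ : Mat) (mob !![(D₁ : ℤ), (D₁ : ℤ) * (β : ℤ); 0, (D₂ : ℤ)] τ) := by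
    rw [← mob_mul _ _ hDdet hγdet, ← mob_mul _ _ hγ₂det hBdet, hmat]
  have hj0 : jf (γ : Mat) τ ≠ 0 := jf_ne_zero _ hγdet.ne' τ
  have hjf : jf (γ₂ : Mat) (mob !![(D₁ : ℤ), (D₁ : ℤ) * (β : ℤ); 0, (D₂ : ℤ)] τ) =
      jf (γ : Mat) τ / (D₂ : ℂ) := by
    have h1 := jf_mul (γ₂ : Mat) !![(D₁ : ℤ), (D₁ : ℤ) * (β : ℤ); 0, (D₂ : ℤ)] hγ₂det hBdet τ
    rw [hmat, jf_mul _ _ hDdet hγdet] at h1
    have h2 : jf !![(D₁ : ℤ), (D₁ : ℤ) * (β : ℤ); 0, (D₂ : ℤ)] τ = (D₂ : ℂ) := by simp [jf]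
    have h3 : jf !![((D₁ * D₂ : ℕ) : ℤ), 0; 0, 1] (mob (γ : Mat) τ) = 1 := by simp [jf]
    rw [h2, h3, one_mul] at h1
    rw [h1]
    field_simp
  have hjc : jf (γ : Mat) τ = (c : ℂ) * (τ : ℂ) + (d : ℂ) := by
    rw [jf, hg0, hg1]
  have hcdiv : c / (D₁ : ℤ) = c₁ := by
    rw [hc₁]
    exact Int.mul_ediv_cancel_left _ hD1z
  have hc1 : ((γ₂ : Mat) 1 0 : ℤ) = c₁ := by rw [hγ₂]; simp
  rw [sl_eq]
  simp_rw [ph_scale (D₁ * D₂) e hD0, hmob, ph_mob γ₂ e, hjf, hc1]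
  rw [hγ₂]
  simp_rw [Finset.mul_sum]
  rw [Finset.sum_comm]
  refine Finset.sum_congr rfl fun i hi ↦ ?_
  have hie : i ≤ e / 2 := by
    rw [Finset.mem_range] at hi
    omega
  have hms := mat_sum _ (fun r ↦ tw2 D₂ r ((D₁ : ℤ) * (β : ℤ)))
    (ph 1 (e - 2 * i) (mob !![(D₁ : ℤ), (D₁ : ℤ) * (β : ℤ); 0, (D₂ : ℤ)] τ)) _ _ hEM r
  simp_rw [Finset.mul_sum] at hms
  have hcc : (c : ℂ) = (D₁ : ℂ) * (c₁ : ℂ) := by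
    rw [hc₁]; push_cast; ring
  rw [hcdiv]
  have hpow : ((jf (γ : Mat) τ) ^ κ)⁻¹ * (jf (γ : Mat) τ) ^ (e - i) =
      ((jf (γ : Mat) τ) ^ (k + i))⁻¹ := by
    have h1 : κ = (k + i) + (e - i) := by omega
    rw [h1, pow_add, mul_inv, mul_assoc, inv_mul_cancel₀ (pow_ne_zero _ hj0), mul_one]
  rw [← hjc, ← hpow]
  have h1 := congrArg (fun X : ℂ ↦ ((jf (γ : Mat) τ) ^ κ)⁻¹ *
    (cf e i * (c₁ : ℂ) ^ i * (jf (γ : Mat) τ / (D₂ : ℂ)) ^ (e - i)) * X) hms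
  simp only [Finset.mul_sum] at h1
  refine Eq.trans (Finset.sum_congr rfl fun s _ ↦ Finset.sum_congr rfl fun s' _ ↦ ?_) (h1.trans ?_)
  · ring
  · rw [hcc, mul_pow, div_pow]
    have hDi : (D₁ : ℂ) ^ i ≠ 0 := pow_ne_zero _ hD1c
    have h2 : ((D₁ : ℂ) ^ i)⁻¹ * (D₁ : ℂ) ^ i = 1 := inv_mul_cancel₀ hDi
    linear_combination (-(cf e i * ((D₂ : ℂ) ^ (e - i))⁻¹ * (dl D₂ / ((Real.sqrt D₂ : ℝ) : ℂ)) *
      tw2 D₂ r ((D₁ : ℤ) * (β : ℤ)) * (ch D₁ d * ch D₂ c₁ * (c₁ : ℂ) ^ i *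
        (((jf (γ : Mat) τ) ^ κ)⁻¹ * (jf (γ : Mat) τ) ^ (e - i))) *
      ph 1 (e - 2 * i) (mob !![(D₁ : ℤ), (D₁ : ℤ) * (β : ℤ); 0, (D₂ : ℤ)] τ) r)) * h2

end MP836e4b.P
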