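/-
MODULE SeedB (size M), board mod836, MP_836e4b_nt, folder Work/MP_836e4b_nt/P. Keep the statements verbatim, helper lemmas private.
Absolute convergence: for γ with bottom row (c,d), ‖sl κ 1 γ f τ r‖ ≤ 2 |j|^{-κ-1/2} max_s ‖f(γτ)_s‖
(sl_norm) ≤ C |j|^{-κ-1/2} (Im τ/|j|²)^{-(e+1)/2} = C' |cτ+d|^{-(k-1/2)} since κ = k+e, and
k - 1/2 ≥ 5/2 > 2: Mathlib EisensteinSeries summability of ‖cτ+d‖^{-s} over Z² for s > 2.
T_bd: T κ p f is a finite sum of sl κ p β f, β upper triangular; sl κ p β f τ = const matrix * f((aτ+b)/d),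
Im((aτ+b)/d) = a/d Im τ (M p β τ does not depend on τ for the representatives: UT1, UT2, UT3).
-/
import Mathlib
import Pool.Agent.Work.MP_836e4b_nt.P.Defs
import Pool.Agent.Work.MP_836e4b_nt.P.MA2
import Pool.Agent.Work.MP_836e4b_nt.P.SlG

open UpperHalfPlane Complex
open scoped MatrixGroups ComplexConjugate Matrix

namespace MP836e4b.P

private theorem seedB_det (γ : SL(2, ℤ)) : (γ : Mat).det = 1 :=
  Matrix.SpecialLinearGroup.det_coe γ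

private theorem seedB_key (κ k e : ℕ) (hκ : κ = k + e) (f : VF) (C : ℝ) (hC : 0 < C)
    (hb : ∀ (τ : ℍ) (r : Fin 2), ‖f τ r‖ ≤ C * τ.im ^ (-(((e : ℝ) + 1) / 2)))
    (τ : ℍ) (r : Fin 2) (γ : SL(2, ℤ)) :
    ‖sl κ 1 (γ : Mat) f τ r‖ ≤ Real.sqrt (2 * C ^ 2 * τ.im ^ (-((e : ℝ) + 1))) *
      ‖jf (γ : Mat) τ‖ ^ (-((k : ℝ) - 1 / 2)) := by
  have hdet : (0 : ℤ) < (γ : Mat).det := by rw [seedB_det]; exact one_pos
  have hj : jf (γ : Mat) τ ≠ 0 := jf_ne_zero _ hdet.ne' τ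
  have hJ : 0 < ‖jf (γ : Mat) τ‖ := norm_pos_iff.mpr hj
  have hy : 0 < τ.im := τ.im_pos
  set J := ‖jf (γ : Mat) τ‖ with hJdef
  set y := τ.im with hydef
  have him : (mob (γ : Mat) τ).im = y / J ^ 2 := by
    rw [im_mob _ hdet, seedB_det]
    simp [hJdef, hydef]
  have hw : 0 < y / J ^ 2 := by positivity
  have h1 := sl_norm κ γ f τ
  rw [him] at h1
  -- the sum of the squares of f
  have h2 : (∑ s : Fin 2, ‖f (mob (γ : Mat) τ) s‖ ^ 2) ≤ 2 * C ^ 2 * (y / J ^ 2) ^ (-((e : ℝ) + 1)) := by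
    have h3 : ∀ s : Fin 2, ‖f (mob (γ : Mat) τ) s‖ ^ 2 ≤ C ^ 2 * (y / J ^ 2) ^ (-((e : ℝ) + 1)) := by
      intro s
      have h4 := hb (mob (γ : Mat) τ) s
      rw [him] at h4
      have h5 : (C * (y / J ^ 2) ^ (-(((e : ℝ) + 1) / 2))) ^ 2 =
          C ^ 2 * (y / J ^ 2) ^ (-((e : ℝ) + 1)) := by
        rw [mul_pow, ← Real.rpow_natCast ((y / J ^ 2) ^ (-(((e : ℝ) + 1) / 2))) 2,
          ← Real.rpow_mul hw.le]
        congr 2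
        push_cast
        ring
      rw [← h5]
      exact pow_le_pow_left₀ (norm_nonneg _) h4 2
    rw [Fin.sum_univ_two]
    have ha := h3 0
    have hbb := h3 1
    linarith
  have h6 : ‖sl κ 1 (γ : Mat) f τ r‖ ^ 2 ≤ ∑ s : Fin 2, ‖sl κ 1 (γ : Mat) f τ s‖ ^ 2 :=
    Finset.single_le_sum (f := fun s ↦ ‖sl κ 1 (γ : Mat) f τ s‖ ^ 2)
      (fun s _ ↦ sq_nonneg _) (Finset.mem_univ r)
  have hyk : 0 < y ^ ((κ : ℝ) + 1 / 2) := Real.rpow_pos_of_pos hy _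
  have hwk : 0 < (y / J ^ 2) ^ ((κ : ℝ) + 1 / 2) := Real.rpow_pos_of_pos hw _
  have h7 : ‖sl κ 1 (γ : Mat) f τ r‖ ^ 2 * y ^ ((κ : ℝ) + 1 / 2) ≤
      2 * C ^ 2 * (y / J ^ 2) ^ (-((e : ℝ) + 1)) * (y / J ^ 2) ^ ((κ : ℝ) + 1 / 2) :=
    calc ‖sl κ 1 (γ : Mat) f τ r‖ ^ 2 * y ^ ((κ : ℝ) + 1 / 2)
        ≤ (∑ s : Fin 2, ‖sl κ 1 (γ : Mat) f τ s‖ ^ 2) * y ^ ((κ : ℝ) + 1 / 2) :=
          mul_le_mul_of_nonneg_right h6 hyk.le
      _ = (∑ s : Fin 2, ‖f (mob (γ : Mat) τ) s‖ ^ 2) * (y / J ^ 2) ^ ((κ : ℝ) + 1 / 2) := h1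
      _ ≤ _ := mul_le_mul_of_nonneg_right h2 hwk.le
  have h8 : 2 * C ^ 2 * (y / J ^ 2) ^ (-((e : ℝ) + 1)) * (y / J ^ 2) ^ ((κ : ℝ) + 1 / 2) =
      (2 * C ^ 2 * y ^ (-((e : ℝ) + 1)) * (J ^ (-((k : ℝ) - 1 / 2))) ^ 2) *
        y ^ ((κ : ℝ) + 1 / 2) := by
    have hJ2 : J ^ 2 = J ^ (2 : ℝ) := by
      rw [← Real.rpow_natCast]
      norm_num
    have e1 : (J ^ (-((k : ℝ) - 1 / 2))) ^ 2 = J ^ (-(2 * (k : ℝ) - 1)) := by
      rw [← Real.rpow_natCast (J ^ (-((k : ℝ) - 1 / 2))) 2, ← Real.rpow_mul hJ.le]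
      congr 1
      push_cast
      ring
    rw [e1, mul_assoc (2 * C ^ 2), ← Real.rpow_add hw, Real.div_rpow hy.le (by positivity), hJ2,
      ← Real.rpow_mul hJ.le]
    have hκ' : (κ : ℝ) = (k : ℝ) + e := by rw [hκ]; push_cast; ring
    have e2 : J ^ (-(2 * (k : ℝ) - 1)) = (J ^ (2 * (-((e : ℝ) + 1) + ((κ : ℝ) + 1 / 2))))⁻¹ := by
      rw [← Real.rpow_neg hJ.le]
      congr 1
      rw [hκ']
      ring
    have e3 : y ^ (-((e : ℝ) + 1) + ((κ : ℝ) + 1 / 2)) =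
        y ^ (-((e : ℝ) + 1)) * y ^ ((κ : ℝ) + 1 / 2) := Real.rpow_add hy _ _
    rw [e2, e3, div_eq_mul_inv]
    ring
  rw [h8] at h7
  have h9 : ‖sl κ 1 (γ : Mat) f τ r‖ ^ 2 ≤
      2 * C ^ 2 * y ^ (-((e : ℝ) + 1)) * (J ^ (-((k : ℝ) - 1 / 2))) ^ 2 :=
    le_of_mul_le_mul_right h7 hyk
  have hA : 0 ≤ 2 * C ^ 2 * y ^ (-((e : ℝ) + 1)) := by
    have := Real.rpow_nonneg hy.le (-((e : ℝ) + 1))
    positivity
  have hB : 0 ≤ J ^ (-((k : ℝ) - 1 / 2)) := Real.rpow_nonneg hJ.le _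
  have h10 : ‖sl κ 1 (γ : Mat) f τ r‖ ^ 2 ≤
      (Real.sqrt (2 * C ^ 2 * y ^ (-((e : ℝ) + 1))) * J ^ (-((k : ℝ) - 1 / 2))) ^ 2 := by
    rw [mul_pow, Real.sq_sqrt hA]
    exact h9
  exact (sq_le_sq₀ (norm_nonneg _) (mul_nonneg (Real.sqrt_nonneg _) hB)).mp h10

theorem seedSum_of_bd (κ k e : ℕ) (hk : 3 ≤ k) (hκ : κ = k + e) (f : VF) (hf : SeedBd e f) :
    SeedSum κ f := by
  obtain ⟨C, hC, hb⟩ := hf
  intro τ r
  have hk' : (2 : ℝ) < (k : ℝ) - 1 / 2 := by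
    have : (3 : ℝ) ≤ (k : ℝ) := by exact_mod_cast hk
    linarith
  have hs : Summable fun x : Fin 2 → ℤ ↦ ‖x‖ ^ (-((k : ℝ) - 1 / 2)) :=
    EisensteinSeries.summable_one_div_norm_rpow hk'
  have hinj : Function.Injective
      (fun v : {v : ℤ × ℤ // IsCoprime v.1 v.2} ↦ (![v.1.1, v.1.2] : Fin 2 → ℤ)) := by
    intro v w h
    have h0 := congrFun h 0
    have h1 := congrFun h 1
    simp only [Matrix.cons_val_zero, Matrix.cons_val_one] at h0 h1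
    exact Subtype.ext (Prod.ext h0 h1)
  have hs2 := hs.comp_injective hinj
  have hs3 := (hs2.mul_left ((EisensteinSeries.r τ) ^ (-((k : ℝ) - 1 / 2)))).mul_left
    (Real.sqrt (2 * C ^ 2 * τ.im ^ (-((e : ℝ) + 1))))
  refine Summable.of_norm_bounded hs3 ?_
  intro v
  have h1 := seedB_key κ k e hκ f C hC hb τ r (gam v.1.1 v.1.2)
  refine h1.trans (mul_le_mul_of_nonneg_left ?_ (Real.sqrt_nonneg _))
  have hg := gam_spec v.1.1 v.1.2 v.2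
  have hjf : jf ((gam v.1.1 v.1.2 : SL(2, ℤ)) : Mat) τ =
      ((![v.1.1, v.1.2] : Fin 2 → ℤ) 0 : ℂ) * (τ : ℂ) + ((![v.1.1, v.1.2] : Fin 2 → ℤ) 1 : ℂ) := by
    unfold jf
    rw [hg.1, hg.2]
    simp
  rw [hjf]
  exact EisensteinSeries.summand_bound τ (by linarith) _

end MP836e4b.P
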