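/-
MODULE CSum (size M-L), board mod836, MP_836e4b_nt, folder Work/MP_836e4b_nt/P. Keep the statements verbatim, helper lemmas private.
Sum of all terms. Split the coprime pairs (c,d) by D1 = gcd(c,D), D2 = D/D1 (c/D1 is prime to D2 because D is squarefree);
exactly one β in [0,D2) with d = βc mod D2; substitute d = d' + βc, D2 ∣ d': cτ+d = c(τ+β)+d', (c,d') coprime,
χ_{D1}(d) = χ_{D1}(d') as D1 ∣ c. In EGen the conditions coprime, D1 ∣ c, D2 ∣ d' give gcd(c,D) = D1 (a prime of D2 dividing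
c would divide d'). The sum is 2 EGen D1 D2 k i (τ+β). Absolute convergence: |c|^i |cτ+d|^{-k-i} ≤ C |cτ+d|^{-k}, k ≥ 3.
(Same as module PA3 for D prime.)
-/
import Mathlib
import Pool.Agent.Work.MP_836e4b_nt.P.Defs
import Pool.Agent.Work.MP_836e4b_nt.P.CTrm
import Pool.Agent.Work.MP_836e4b_nt.P.SeedB
import Pool.Agent.Work.MP_836e4b_nt.P.PhE

open UpperHalfPlane Complex
open scoped MatrixGroups ComplexConjugate Matrix

namespace MP836e4b.P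

private theorem cs_bound (k i : ℕ) (hk : 3 ≤ k) (τ : ℍ) (c d : ℤ) :
    ‖(c : ℂ) ^ i * (((c : ℂ) * (τ : ℂ) + (d : ℂ)) ^ (k + i))⁻¹‖ ≤
      (τ.im ^ i)⁻¹ * ‖(((c : ℂ) * (τ : ℂ) + (d : ℂ)) ^ k)⁻¹‖ := by
  have hy : 0 < τ.im := τ.im_pos
  set w : ℂ := (c : ℂ) * (τ : ℂ) + (d : ℂ) with hw
  by_cases h0 : w = 0
  · rw [h0, zero_pow (by omega), zero_pow (by omega)]
    simp
  have hJ : 0 < ‖w‖ := norm_pos_iff.mpr h0
  have hc : ‖(c : ℂ)‖ * τ.im ≤ ‖w‖ := by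
    have h1 : w.im = (c : ℝ) * τ.im := by
      simp [hw]
    have h2 := Complex.abs_im_le_norm w
    rw [h1, abs_mul, abs_of_pos hy] at h2
    have h3 : ‖(c : ℂ)‖ = |(c : ℝ)| := by
      rw [← Complex.ofReal_intCast, Complex.norm_real, Real.norm_eq_abs]
    rw [h3]
    exact h2
  have h4 : ‖(c : ℂ)‖ ^ i * τ.im ^ i ≤ ‖w‖ ^ i := by
    rw [← mul_pow]
    exact pow_le_pow_left₀ (by positivity) hc i
  rw [norm_mul, norm_pow, norm_inv, norm_pow, norm_inv, norm_pow, pow_add, mul_inv,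
    ← mul_assoc]
  have h5 : ‖(c : ℂ)‖ ^ i ≤ (τ.im ^ i)⁻¹ * ‖w‖ ^ i := by
    rw [inv_mul_eq_div, le_div_iff₀ (by positivity)]
    exact h4
  have h6 : 0 < ‖w‖ ^ i := by positivity
  have h7 : 0 < ‖w‖ ^ k := by positivity
  calc ‖(c : ℂ)‖ ^ i * (‖w‖ ^ k)⁻¹ * (‖w‖ ^ i)⁻¹
      ≤ ((τ.im ^ i)⁻¹ * ‖w‖ ^ i) * (‖w‖ ^ k)⁻¹ * (‖w‖ ^ i)⁻¹ := by gcongr
    _ = (τ.im ^ i)⁻¹ * (‖w‖ ^ k)⁻¹ := by field_simp

private theorem cs_summ (k i : ℕ) (hk : 3 ≤ k) (τ : ℍ) :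
    Summable fun v : ℤ × ℤ ↦
      ‖(v.1 : ℂ) ^ i * (((v.1 : ℂ) * (τ : ℂ) + (v.2 : ℂ)) ^ (k + i))⁻¹‖ := by
  have h1 := EisensteinSeries.summable_norm_eisSummand (k := (k : ℤ)) (by exact_mod_cast hk) τ
  have h2 := h1.comp_injective (finTwoArrowEquiv ℤ).symm.injective
  refine Summable.of_nonneg_of_le (fun _ ↦ norm_nonneg _) (fun v ↦ ?_)
    (h2.mul_left ((τ.im ^ i)⁻¹))
  refine (cs_bound k i hk τ v.1 v.2).trans (le_of_eq ?_)
  simp [EisensteinSeries.eisSummand]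

/-- The general piece. -/
private theorem cs_piece (k i : ℕ) (hk : 3 ≤ k) (τ : ℍ) (P : ℤ × ℤ → Prop)
    [DecidablePred P] (χ : ℤ × ℤ → ℂ) (hχ : ∀ v, ‖χ v‖ ≤ 1) :
    Summable fun v : ℤ × ℤ ↦ if P v then
      χ v * (v.1 : ℂ) ^ i * (((v.1 : ℂ) * (τ : ℂ) + (v.2 : ℂ)) ^ (k + i))⁻¹ else 0 := by
  refine Summable.of_norm_bounded (cs_summ k i hk τ) fun v ↦ ?_
  split_ifs
  · rw [mul_assoc, norm_mul]
    exact mul_le_of_le_one_left (norm_nonneg _) (hχ v)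
  · rw [norm_zero]
    exact norm_nonneg _

private theorem cs_ch (D : ℕ) (n : ℤ) : ‖ch D n‖ ≤ 1 := by
  unfold ch
  rcases jacobiSym.trichotomy n D with h | h | h <;> simp [h]

private theorem cs_ch_mod (D : ℕ) (n m : ℤ) (h : (D : ℤ) ∣ m) : ch D (n + m) = ch D n := by
  unfold ch
  congr 1
  rw [jacobiSym.mod_left, jacobiSym.mod_left n D]
  congr 1
  obtain ⟨t, rfl⟩ := h
  rw [Int.add_mul_emod_self_left]

open Classical in
/-- The general piece. -/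
private noncomputable def pZ (D₁ D₂ k i β : ℕ) (τ : ℍ) (v : ℤ × ℤ) : ℂ :=
  if (IsCoprime v.1 v.2 ∧ (D₁ : ℤ) ∣ v.1 ∧ (D₂ : ℤ) ∣ v.2 - (β : ℤ) * v.1) then
    (ch D₁ v.2 * ch D₂ (v.1 / (D₁ : ℤ))) * (v.1 : ℂ) ^ i *
      (((v.1 : ℂ) * (τ : ℂ) + (v.2 : ℂ)) ^ (k + i))⁻¹ else 0

private theorem pZ_summ (D₁ D₂ k i β : ℕ) (hk : 3 ≤ k) (τ : ℍ) : Summable (pZ D₁ D₂ k i β τ) := by
  classical
  refine cs_piece k i hk τ _ (fun v ↦ ch D₁ v.2 * ch D₂ (v.1 / (D₁ : ℤ))) (fun v ↦ ?_)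
  rw [norm_mul]
  exact mul_le_one₀ (cs_ch _ _) (norm_nonneg _) (cs_ch _ _)

private theorem pZ_tsum (D₁ D₂ k i β : ℕ) (τ : ℍ) :
    ∑' v, pZ D₁ D₂ k i β τ v = 2 * EGen D₁ D₂ k i (mob (mT β) τ) := by
  classical
  have hm : ((mob (mT (β : ℤ)) τ : ℍ) : ℂ) = (τ : ℂ) + (β : ℂ) := by
    rw [coe_mob _ (by simp [mT, Matrix.det_fin_two])]
    simp [mT, jf]
  let φ : ℤ × ℤ ≃ ℤ × ℤ :=
    { toFun := fun v ↦ (v.1, v.2 + (β : ℤ) * v.1)
      invFun := fun v ↦ (v.1, v.2 - (β : ℤ) * v.1)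
      left_inv := fun v ↦ by simp
      right_inv := fun v ↦ by simp }
  rw [← φ.tsum_eq]
  unfold EGen
  rw [← mul_assoc, mul_one_div_cancel two_ne_zero, one_mul]
  refine tsum_congr fun v ↦ ?_
  have e1 : (φ v).1 = v.1 := rfl
  have e2 : (φ v).2 = v.2 + (β : ℤ) * v.1 := rfl
  unfold pZ
  rw [e1, e2]
  have e3 : IsCoprime v.1 (v.2 + (β : ℤ) * v.1) ↔ IsCoprime v.1 v.2 := by
    rw [mul_comm, IsCoprime.add_mul_left_right_iff]
  have e4 : (D₂ : ℤ) ∣ v.2 + (β : ℤ) * v.1 - (β : ℤ) * v.1 ↔ (D₂ : ℤ) ∣ v.2 := by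
    rw [add_sub_cancel_right]
  have hiff : (IsCoprime v.1 (v.2 + (β : ℤ) * v.1) ∧ (D₁ : ℤ) ∣ v.1 ∧
      (D₂ : ℤ) ∣ v.2 + (β : ℤ) * v.1 - (β : ℤ) * v.1) ↔
      (IsCoprime v.1 v.2 ∧ (D₁ : ℤ) ∣ v.1 ∧ (D₂ : ℤ) ∣ v.2) := by
    rw [e3, e4]
  by_cases hc : IsCoprime v.1 v.2 ∧ (D₁ : ℤ) ∣ v.1 ∧ (D₂ : ℤ) ∣ v.2
  · rw [if_pos (hiff.mpr hc), if_pos hc, hm, cs_ch_mod D₁ v.2 _ (hc.2.1.mul_left _)]
    congr 3
    push_cast
    ring
  · rw [if_neg (fun h ↦ hc (hiff.mp h)), if_neg hc]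

private theorem cs_cop {D₂ : ℕ} {c d : ℤ} {β : ℤ} (hcd : IsCoprime c d)
    (h : (D₂ : ℤ) ∣ d - β * c) : IsCoprime (D₂ : ℤ) c := by
  obtain ⟨a, b, hab⟩ := hcd
  obtain ⟨t, ht⟩ := h
  exact ⟨b * t, a + b * β, by linear_combination hab - b * ht⟩

private theorem cs_gcd {D D₁ D₂ : ℕ} (h : D₁ * D₂ = D) {c : ℤ} (h1 : (D₁ : ℤ) ∣ c)
    (h2 : IsCoprime (D₂ : ℤ) c) : D₁ = Nat.gcd c.natAbs D := by
  apply Nat.dvd_antisymm
  · exact Nat.dvd_gcd (Int.natCast_dvd.mp h1) (Dvd.intro _ h)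
  · have h3 : Nat.Coprime D₂ c.natAbs := by
      have := Int.isCoprime_iff_gcd_eq_one.mp h2
      simpa [Int.gcd] using this
    have h4 : Nat.Coprime (Nat.gcd c.natAbs D) D₂ :=
      (Nat.Coprime.coprime_dvd_right (Nat.gcd_dvd_left _ _) h3).symm
    refine h4.dvd_of_dvd_mul_right ?_
    rw [h]
    exact Nat.gcd_dvd_right _ _

/-- Existence and uniqueness of `β`. -/
private theorem cs_beta (D : ℕ) (hD : 0 < D) (c d : ℤ) (hc : IsCoprime (D : ℤ) c) :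
    ∃ β ∈ Finset.range D, (D : ℤ) ∣ d - (β : ℤ) * c ∧
      ∀ β' ∈ Finset.range D, β' ≠ β → ¬ (D : ℤ) ∣ d - (β' : ℤ) * c := by
  have hD0 : (0 : ℤ) < D := by exact_mod_cast hD
  obtain ⟨a, b, hab⟩ := hc
  refine ⟨((d * b) % D).toNat, ?_, ?_, ?_⟩
  · rw [Finset.mem_range]
    have h1 := Int.emod_lt_of_pos (d * b) hD0
    have h2 := Int.emod_nonneg (d * b) hD0.ne'
    omega
  · have h2 := Int.emod_nonneg (d * b) hD0.ne'
    rw [Int.toNat_of_nonneg h2]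
    have h3 : (d * b) % (D : ℤ) = d * b - D * (d * b / D) := by
      have := Int.emod_add_mul_ediv (d * b) (D : ℤ)
      linarith
    rw [h3]
    refine ⟨d * a + (d * b / D) * c, ?_⟩
    linear_combination (-d) * hab
  · intro β' hβ' hne hdv
    apply hne
    have h2 := Int.emod_nonneg (d * b) hD0.ne'
    have h4 : (D : ℤ) ∣ (β' : ℤ) - d * b := by
      have h5 : (D : ℤ) ∣ (d - (β' : ℤ) * c) * b := hdv.mul_right b
      have h6 : (β' : ℤ) - d * b = (D : ℤ) * (β' * a) - (d - (β' : ℤ) * c) * b := by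
        linear_combination (-(β' : ℤ)) * hab
      rw [h6]
      exact (Dvd.intro _ rfl).sub h5
    have h7 : (β' : ℤ) % D = (d * b) % D := (Int.modEq_iff_dvd.mpr h4).symm
    rw [Finset.mem_range] at hβ'
    have h8 : (β' : ℤ) % D = β' := Int.emod_eq_of_lt (by positivity) (by exact_mod_cast hβ')
    rw [← h7, h8, Int.toNat_natCast]

private theorem cs_split (D : ℕ) (hD : Odd D) (hs : Squarefree D) (c : ℤ) :
    ∃ D₁ D₂ : ℕ, D₁ * D₂ = D ∧ (D₁ : ℤ) ∣ c ∧ IsCoprime (D₂ : ℤ) c := by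
  have hD0 : 0 < D := hD.pos
  set D₁ := Nat.gcd c.natAbs D with hD1
  have h1 : D₁ ∣ D := Nat.gcd_dvd_right _ _
  obtain ⟨D₂, hD2⟩ := h1
  refine ⟨D₁, D₂, hD2.symm, Int.natCast_dvd.mpr (Nat.gcd_dvd_left _ _), ?_⟩
  have h3 : Nat.Coprime D₂ c.natAbs := by
    apply Nat.coprime_of_dvd
    intro q hq hq1 hq2
    have h4 : q ∣ D₁ := Nat.dvd_gcd hq2 (by rw [hD2]; exact hq1.mul_left _)
    have h5 : q * q ∣ D := by
      rw [hD2]
      exact mul_dvd_mul h4 hq1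
    have h6 := hs q h5
    exact hq.one_lt.ne' (Nat.isUnit_iff.mp h6)
  rw [Int.isCoprime_iff_gcd_eq_one]
  simpa [Int.gcd] using h3

/-- The coefficient of a piece. -/
private noncomputable def cZ (D₁ D₂ e i β : ℕ) (τ : ℍ) (r : Fin 2) : ℂ :=
  cf e i * ((D₁ : ℂ) ^ i)⁻¹ * ((D₂ : ℂ) ^ (e - i))⁻¹ * (dl D₂ / ((Real.sqrt D₂ : ℝ) : ℂ)) *
    tw2 D₂ r ((D₁ : ℤ) * β) *
    ph 1 (e - 2 * i) (mob !![(D₁ : ℤ), (D₁ : ℤ) * (β : ℤ); 0, (D₂ : ℤ)] τ) r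

open Classical in
private theorem cs_term (D κ k e : ℕ) (hD : Odd D) (hs : Squarefree D) (hD4 : D % 4 = cls κ 1)
    (hκ : κ = k + e) (τ : ℍ) (r : Fin 2) (v : ℤ × ℤ) :
    (if IsCoprime v.1 v.2 then sl κ 1 (gam v.1 v.2 : Mat) (ph D e) τ r else 0) =
      ∑ p ∈ D.divisorsAntidiagonal, ∑ β ∈ Finset.range p.2, ∑ i ∈ Finset.range (e / 2 + 1),
        cZ p.1 p.2 e i β τ r * pZ p.1 p.2 k i β τ v := by
  by_cases hv : IsCoprime v.1 v.2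
  · rw [if_pos hv]
    obtain ⟨D₁, D₂, h12, hc, hcop⟩ := cs_split D hD hs v.1
    have hD0 : 0 < D := hD.pos
    have hD20 : 0 < D₂ := by
      rcases Nat.eq_zero_or_pos D₂ with h | h
      · rw [h, mul_zero] at h12
        omega
      · exact h
    obtain ⟨β, hβ, hdv, huniq⟩ := cs_beta D₂ hD20 v.1 v.2 hcop
    have hmem : (D₁, D₂) ∈ D.divisorsAntidiagonal :=
      Nat.mem_divisorsAntidiagonal.mpr ⟨h12, hD0.ne'⟩
    rw [Finset.sum_eq_single_of_mem (D₁, D₂) hmem, Finset.sum_eq_single_of_mem β hβ]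
    · have h1 := sl_gam_gen D₁ D₂ κ k e (by rw [h12]; exact hD) (by rw [h12]; exact hs)
        (by rw [h12]; exact hD4) hκ v.1 v.2 hv hc β hdv τ r
      rw [h12] at h1
      rw [h1]
      refine Finset.sum_congr rfl fun i _ ↦ ?_
      simp only [cZ]
      rw [pZ, if_pos ⟨hv, hc, hdv⟩]
      ring
    · intro β' hβ' hne
      refine Finset.sum_eq_zero fun i _ ↦ ?_
      rw [pZ, if_neg (fun h ↦ huniq β' hβ' hne h.2.2), mul_zero]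
    · rintro ⟨E₁, E₂⟩ hE hne
      refine Finset.sum_eq_zero fun β' _ ↦ Finset.sum_eq_zero fun i _ ↦ ?_
      rw [pZ, if_neg, mul_zero]
      rintro ⟨-, h2, h3⟩
      apply hne
      have hE' : E₁ * E₂ = D := (Nat.mem_divisorsAntidiagonal.mp hE).1
      have h4 : E₁ = D₁ := by
        rw [cs_gcd hE' h2 (cs_cop hv h3), cs_gcd h12 hc hcop]
      have h5 : E₂ = D₂ := by
        have hD10 : 0 < D₁ := by
          rcases Nat.eq_zero_or_pos D₁ with h | h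
          · rw [h, zero_mul] at h12
            omega
          · exact h
        rw [h4, ← h12] at hE'
        exact Nat.eq_of_mul_eq_mul_left hD10 hE'
      rw [h4, h5]
  · rw [if_neg hv]
    symm
    refine Finset.sum_eq_zero fun p _ ↦ Finset.sum_eq_zero fun β _ ↦
      Finset.sum_eq_zero fun i _ ↦ ?_
    rw [pZ, if_neg (fun h ↦ hv h.1), mul_zero]

theorem Pser_ph_gen (D κ k e : ℕ) (hD : Odd D) (hs : Squarefree D) (hD4 : D % 4 = cls κ 1)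
    (hκ : κ = k + e) (hk : 3 ≤ k) (τ : ℍ) (r : Fin 2) :
    Pser κ (ph D e) τ r = ∑ p ∈ D.divisorsAntidiagonal, ∑ β ∈ Finset.range p.2,
      ∑ i ∈ Finset.range (e / 2 + 1),
        cf e i * ((p.1 : ℂ) ^ i)⁻¹ * ((p.2 : ℂ) ^ (e - i))⁻¹ *
          (dl p.2 / ((Real.sqrt p.2 : ℝ) : ℂ)) * tw2 p.2 r ((p.1 : ℤ) * β) *
          EGen p.1 p.2 k i (mob (mT β) τ) *
          ph 1 (e - 2 * i) (mob !![(p.1 : ℤ), (p.1 : ℤ) * (β : ℤ); 0, (p.2 : ℤ)] τ) r := by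
  classical
  have hS : HasSum (fun v ↦ ∑ p ∈ D.divisorsAntidiagonal, ∑ β ∈ Finset.range p.2,
      ∑ i ∈ Finset.range (e / 2 + 1), cZ p.1 p.2 e i β τ r * pZ p.1 p.2 k i β τ v)
      (∑ p ∈ D.divisorsAntidiagonal, ∑ β ∈ Finset.range p.2,
      ∑ i ∈ Finset.range (e / 2 + 1), cZ p.1 p.2 e i β τ r *
        (2 * EGen p.1 p.2 k i (mob (mT β) τ))) := by
    refine hasSum_sum fun p _ ↦ hasSum_sum fun β _ ↦ hasSum_sum fun i _ ↦ ?_
    rw [← pZ_tsum p.1 p.2 k i β τ]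
    exact (pZ_summ p.1 p.2 k i β hk τ).hasSum.mul_left _
  have hP : Pser κ (ph D e) τ r = (1 / 2 : ℂ) * ∑' v : ℤ × ℤ,
      (∑ p ∈ D.divisorsAntidiagonal, ∑ β ∈ Finset.range p.2,
      ∑ i ∈ Finset.range (e / 2 + 1), cZ p.1 p.2 e i β τ r * pZ p.1 p.2 k i β τ v) := by
    unfold Pser
    congr 1
    exact tsum_congr (fun v ↦ cs_term D κ k e hD hs hD4 hκ τ r v)
  rw [hP, hS.tsum_eq, Finset.mul_sum]
  refine Finset.sum_congr rfl fun p _ ↦ ?_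
  rw [Finset.mul_sum]
  refine Finset.sum_congr rfl fun β _ ↦ ?_
  rw [Finset.mul_sum]
  refine Finset.sum_congr rfl fun i _ ↦ ?_
  rw [cZ]
  ring

end MP836e4b.P
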