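/-
MODULE PInv (size M-L), board mod836, MP_836e4b_nt, folder Work/MP_836e4b_nt/P. Keep the statements verbatim, helper lemmas private.
Invariance of the Poincare series: sl κ 1 γ (Pser κ f) τ = (1/2) ∑_v sl κ 1 (γ_v γ) f τ (the sum at the point
mob γ τ converges absolutely, sl κ 1 γ is a finite linear combination; sl_mul). γ_v γ has bottom row vγ
(a bijection of the coprime pairs), sl_bottom: sl κ 1 (γ_v γ) f = sl κ 1 (gam (vγ)) f. Reindex.
-/
import Mathlib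
import Pool.Agent.Work.MP_836e4b_nt.P.Defs
import Pool.Agent.Work.MP_836e4b_nt.P.SlG
import Pool.Agent.Work.MP_836e4b_nt.P.MA4

open UpperHalfPlane Complex
open scoped MatrixGroups ComplexConjugate Matrix

namespace MP836e4b.P

/-- the right action on rows, as a bijection -/
private def rowE (a b c d : ℤ) (h : a * d - b * c = 1) : (ℤ × ℤ) ≃ (ℤ × ℤ) where
  toFun v := (v.1 * a + v.2 * c, v.1 * b + v.2 * d)
  invFun v := (v.1 * d - v.2 * c, -v.1 * b + v.2 * a)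
  left_inv v := by
    obtain ⟨x, y⟩ := v
    simp only [Prod.mk.injEq]
    constructor
    · linear_combination x * h
    · linear_combination y * h
  right_inv v := by
    obtain ⟨x, y⟩ := v
    simp only [Prod.mk.injEq]
    constructor
    · linear_combination x * h
    · linear_combination y * h

private theorem rowE_coprime (a b c d : ℤ) (h : a * d - b * c = 1) (v : ℤ × ℤ) :
    IsCoprime (rowE a b c d h v).1 (rowE a b c d h v).2 ↔ IsCoprime v.1 v.2 := by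
  obtain ⟨x, y⟩ := v
  simp only [rowE, Equiv.coe_fn_mk]
  constructor
  · rintro ⟨u, w, huw⟩
    exact ⟨u * a + w * b, u * c + w * d, by linear_combination huw⟩
  · rintro ⟨u, w, huw⟩
    exact ⟨u * d - w * b, -u * c + w * a, by linear_combination (u * x + w * y) * h + huw⟩

private theorem sum_ext (κ : ℕ) (f : VF) (hS : SeedSum κ f) (τ : ℍ) (r : Fin 2) :
    Summable fun v : ℤ × ℤ ↦
      (if IsCoprime v.1 v.2 then sl κ 1 (gam v.1 v.2 : Mat) f τ r else (0 : ℂ)) := by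
  classical
  have h := hS τ r
  have h2 := (summable_subtype_iff_indicator
    (f := fun v : ℤ × ℤ ↦ sl κ 1 (gam v.1 v.2 : Mat) f τ r)
    (s := {v : ℤ × ℤ | IsCoprime v.1 v.2})).mp h
  refine h2.congr fun v => ?_
  rw [Set.indicator_apply]
  rfl

theorem Pser_inv (κ : ℕ) (f : VF) (hi : SeedInv κ f) (hS : SeedSum κ f) (γ : SL(2, ℤ)) :
    sl κ 1 (γ : Mat) (Pser κ f) = Pser κ f := by
  classical
  have hdet : (γ : Mat) 0 0 * (γ : Mat) 1 1 - (γ : Mat) 0 1 * (γ : Mat) 1 0 = 1 := by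
    have := γ.det_coe
    rwa [Matrix.det_fin_two] at this
  have hbot : ∀ v : ℤ × ℤ, IsCoprime v.1 v.2 →
      sl κ 1 (γ : Mat) (sl κ 1 (gam v.1 v.2 : Mat) f) =
        sl κ 1 (gam (rowE _ _ _ _ hdet v).1 (rowE _ _ _ _ hdet v).2 : Mat) f := by
    intro v hv
    have hv' := (rowE_coprime _ _ _ _ hdet v).mpr hv
    obtain ⟨g1, g2⟩ := gam_spec _ _ hv
    obtain ⟨g3, g4⟩ := gam_spec _ _ hv'
    rw [sl_mul, ← Matrix.SpecialLinearGroup.coe_mul]
    refine sl_bottom κ f hi.t _ _ ?_ ?_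
    · rw [g3, Matrix.SpecialLinearGroup.coe_mul, Matrix.mul_apply, Fin.sum_univ_two, g1, g2]
      rfl
    · rw [g4, Matrix.SpecialLinearGroup.coe_mul, Matrix.mul_apply, Fin.sum_univ_two, g1, g2]
      rfl
  funext τ r
  have hs := fun s => sum_ext κ f hS (mob (γ : Mat) τ) s
  have e1 : sl κ 1 (γ : Mat) (Pser κ f) τ r =
      ((jf (γ : Mat) τ) ^ κ)⁻¹ * (E κ 1 (γ : Mat) τ r 0 * Pser κ f (mob (γ : Mat) τ) 0 +
        E κ 1 (γ : Mat) τ r 1 * Pser κ f (mob (γ : Mat) τ) 1) := by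
    unfold sl
    rw [Pi.smul_apply, Matrix.mulVec, dotProduct, Fin.sum_univ_two, smul_eq_mul]
  have e2 : ∀ g : VF, sl κ 1 (γ : Mat) g τ r =
      ((jf (γ : Mat) τ) ^ κ)⁻¹ * (E κ 1 (γ : Mat) τ r 0 * g (mob (γ : Mat) τ) 0 +
        E κ 1 (γ : Mat) τ r 1 * g (mob (γ : Mat) τ) 1) := by
    intro g
    unfold sl
    rw [Pi.smul_apply, Matrix.mulVec, dotProduct, Fin.sum_univ_two, smul_eq_mul]
  have e3 : sl κ 1 (γ : Mat) (Pser κ f) τ r = (1 / 2 : ℂ) * ∑' v : ℤ × ℤ,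
      ((jf (γ : Mat) τ) ^ κ)⁻¹ * (E κ 1 (γ : Mat) τ r 0 *
        (if IsCoprime v.1 v.2 then sl κ 1 (gam v.1 v.2 : Mat) f (mob (γ : Mat) τ) 0 else 0) +
        E κ 1 (γ : Mat) τ r 1 *
        (if IsCoprime v.1 v.2 then sl κ 1 (gam v.1 v.2 : Mat) f (mob (γ : Mat) τ) 1 else 0)) := by
    rw [e1, tsum_mul_left, ((hs 0).mul_left _).tsum_add ((hs 1).mul_left _), tsum_mul_left,
      tsum_mul_left]
    unfold Pser
    ring
  rw [e3]
  unfold Pser
  congr 1
  rw [← (rowE _ _ _ _ hdet).tsum_eq (fun v : ℤ × ℤ ↦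
    (if IsCoprime v.1 v.2 then sl κ 1 (gam v.1 v.2 : Mat) f τ r else (0 : ℂ)))]
  refine tsum_congr fun v => ?_
  by_cases hv : IsCoprime v.1 v.2
  · rw [if_pos hv, if_pos hv, if_pos ((rowE_coprime _ _ _ _ hdet v).mpr hv), ← hbot v hv, e2]
  · rw [if_neg hv, if_neg hv, if_neg (fun h => hv ((rowE_coprime _ _ _ _ hdet v).mp h))]
    ring

end MP836e4b.P
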