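/-
MODULE CIsP (size M), board mod836, MP_836e4b_nt, folder Work/MP_836e4b_nt/P. Keep the statements verbatim, helper lemmas private.
g_D is in the plus space, D odd squarefree: Pser_ph_gen + hasSum_part for every (D1,D2) give HasE.sum; zero: cgP .. 0: only
m = 0, N = 0, Wp k e 0 0 = 0 since e ≥ 2; supp: 4 ∣ D2 n - D1 m² forces D2 n = D1 m² mod 4, n = D m² mod 4. inv: Pser_inv with
seedInv_of_hasE (hasE_ph) and seedSum_of_bd (ph_bound). (Module PA6 is the case D prime.)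
-/
import Mathlib
import Pool.Agent.Work.MP_836e4b_nt.P.Defs
import Pool.Agent.Work.MP_836e4b_nt.P.CSum
import Pool.Agent.Work.MP_836e4b_nt.P.CPar
import Pool.Agent.Work.MP_836e4b_nt.P.PInv
import Pool.Agent.Work.MP_836e4b_nt.P.SeedB
import Pool.Agent.Work.MP_836e4b_nt.P.SlG
import Pool.Agent.Work.MP_836e4b_nt.P.PhE

open UpperHalfPlane Complex
open scoped MatrixGroups ComplexConjugate Matrix

namespace MP836e4b.P

private theorem wp_zero (k e : ℕ) (he : 0 < e) : Wp k e 0 0 = 0 := by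
  unfold Wp
  refine Finset.sum_eq_zero fun i hi ↦ ?_
  rcases Nat.eq_zero_or_pos i with h | h
  · subst h
    have : (0 : ℂ) ^ (e - 2 * 0) = 0 := zero_pow (by omega)
    rw [this, mul_zero]
  · rw [neg_zero, zero_pow (by omega), mul_zero, zero_mul]

private theorem sq_mod4 (m : ℤ) : m ^ 2 % 4 = 0 ∨ m ^ 2 % 4 = 1 := by
  rcases Int.even_or_odd' m with ⟨t, rfl | rfl⟩
  · left; ring_nf; omega
  · right; ring_nf; omega

private theorem cgP_supp (D₁ D₂ k e n : ℕ) (h5 : Odd D₁) (h6 : Odd D₂) (h1 : n % 4 ≠ 0)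
    (h2 : n % 4 ≠ (D₁ * D₂) % 4) : cgP D₁ D₂ k e n = 0 := by
  unfold cgP
  rw [Finset.sum_eq_zero, mul_zero]
  intro m _
  rw [if_neg]
  rintro ⟨-, h⟩
  have hDn : ((D₂ : ℤ) * (n : ℤ)) % 4 = ((D₂ : ℤ) % 4) * ((n : ℤ) % 4) % 4 := Int.mul_emod _ _ _
  have hDm : ((D₁ : ℤ) * m ^ 2) % 4 = ((D₁ : ℤ) % 4) * (m ^ 2 % 4) % 4 := Int.mul_emod _ _ _
  have hDD : (D₁ * D₂) % 4 = (D₁ % 4) * (D₂ % 4) % 4 := Nat.mul_mod _ _ _
  have hn : n % 4 < 4 := Nat.mod_lt _ (by norm_num)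
  have h51 : D₁ % 4 = 1 ∨ D₁ % 4 = 3 := by
    rcases h5 with ⟨t, rfl⟩; omega
  have h61 : D₂ % 4 = 1 ∨ D₂ % 4 = 3 := by
    rcases h6 with ⟨t, rfl⟩; omega
  rcases sq_mod4 m with h3 | h3 <;> rcases h51 with h7 | h7 <;> rcases h61 with h8 | h8
  all_goals
    rw [h3] at hDm
    rw [h7, h8] at hDD
    have h9 : (D₁ : ℤ) % 4 = ((D₁ % 4 : ℕ) : ℤ) := by omega
    have h10 : (D₂ : ℤ) % 4 = ((D₂ % 4 : ℕ) : ℤ) := by omega
    rw [h9, h7] at hDm
    rw [h10, h8] at hDn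
    push_cast at hDm hDn
    omega

theorem isP_gD_sq (D κ k e : ℕ) (hD : Odd D) (hs : Squarefree D) (hD4 : D % 4 = cls κ 1)
    (hκ : κ = k + e) (hk : 3 ≤ k) (he : Even e) (he2 : 2 ≤ e)
    (hpar : jacobiSym (-1) D = (-1) ^ k) :
    IsP κ (fun n ↦ 2 / Lval D (1 - (k : ℂ)) * cgG D k e n) (Pser κ (ph D e)) := by
  have hDpos : 0 < D := hD.pos
  refine ⟨⟨?_, ?_, ?_⟩, ?_⟩
  · -- the coefficient at zero
    have h0 : cgG D k e 0 = 0 := by
      unfold cgG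
      refine Finset.sum_eq_zero fun p _ ↦ ?_
      have hW : Wp k e 0 0 = 0 := wp_zero k e (by omega)
      simp [cgP, hW]
    simp only [h0, mul_zero]
  · intro n h1 h2
    have h3 : cgG D k e n = 0 := by
      have hc1 : n % 4 ≠ 0 := by
        simpa [cls] using h1
      have hc2 : n % 4 ≠ D % 4 := by rw [hD4]; exact h2
      unfold cgG
      refine Finset.sum_eq_zero fun p hp ↦ ?_
      have hp1 : p.1 * p.2 = D := (Nat.mem_divisorsAntidiagonal.mp hp).1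
      have ho : Odd (p.1 * p.2) := by rw [hp1]; exact hD
      rw [← hp1] at hc2
      exact cgP_supp p.1 p.2 k e n (Nat.odd_mul.mp ho).1 (Nat.odd_mul.mp ho).2 hc1 hc2
    simp only [h3, mul_zero]
  · intro τ r
    rw [Pser_ph_gen D κ k e hD hs hD4 hκ hk τ r]
    have h1 := hasSum_sum (s := D.divisorsAntidiagonal)
      (f := fun (p : ℕ × ℕ) (n : ℕ) ↦ if n % 4 = cls κ r then
        2 / Lval D (1 - (k : ℂ)) * cgP p.1 p.2 k e n * ee ((n : ℂ) * (τ : ℂ) / 4) else 0)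
      (a := fun p : ℕ × ℕ ↦ ∑ β ∈ Finset.range p.2,
      ∑ i ∈ Finset.range (e / 2 + 1),
        cf e i * ((p.1 : ℂ) ^ i)⁻¹ * ((p.2 : ℂ) ^ (e - i))⁻¹ *
          (dl p.2 / ((Real.sqrt p.2 : ℝ) : ℂ)) * tw2 p.2 r ((p.1 : ℤ) * β) *
          EGen p.1 p.2 k i (mob (mT β) τ) *
          ph 1 (e - 2 * i) (mob !![(p.1 : ℤ), (p.1 : ℤ) * (β : ℤ); 0, (p.2 : ℤ)] τ) r)
      (by
        intro p hp
        have hp1 : p.1 * p.2 = D := (Nat.mem_divisorsAntidiagonal.mp hp).1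
        have h4 := hasSum_part p.1 p.2 κ k e (by rw [hp1]; exact hD) (by rw [hp1]; exact hs)
          (by rw [hp1]; exact hD4) hk (by rw [hp1]; exact hpar) τ r
        rw [hp1] at h4
        exact h4)
    have h2 : (fun n : ℕ ↦ if n % 4 = cls κ r then
        2 / Lval D (1 - (k : ℂ)) * cgG D k e n * ee ((n : ℂ) * (τ : ℂ) / 4) else 0) =
        fun n : ℕ ↦ ∑ p ∈ D.divisorsAntidiagonal, (if n % 4 = cls κ r then
          2 / Lval D (1 - (k : ℂ)) * cgP p.1 p.2 k e n * ee ((n : ℂ) * (τ : ℂ) / 4) else 0) := by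
      funext n
      split_ifs with h
      · unfold cgG
        rw [Finset.mul_sum, Finset.sum_mul]
      · rw [Finset.sum_const_zero]
    rw [h2]
    exact h1
  · intro γ
    exact Pser_inv κ _ (seedInv_of_hasE κ _ _ (hasE_ph D e κ hDpos he he2 hD4))
      (seedSum_of_bd κ k e hk hκ _ (ph_bound D e hDpos (by omega))) γ

end MP836e4b.P
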