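/-
MODULE HecM (size M), board mod836, MP_836e4b_nt, folder Work/MP_836e4b_nt/P. Keep the statements verbatim, helper lemmas private.
Hecke multiplicativity of σ(n) = ∑_{d1 d2 = n} χ1(d1) χ2(d2) d1^(k-1) with χ1 χ2 = χ_{D1 D2}:
σ(a)σ(b) = ∑_{d ∣ gcd(a,b)} χ1(d)χ2(d) d^(k-1) σ(ab/d²). Proof: both sides are multiplicative; or the standard
double counting: reduce to prime powers, or use ArithmeticFunction: σ = (χ1 n^(k-1)) * χ2 with both factors
completely multiplicative; the identity for such convolutions (Busche-Ramanujan). Prime power case: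
geometric sums x^i y^j. Multiplicativity over coprime parts then extends it.
-/
import Mathlib
import Pool.Agent.Work.MP_836e4b_nt.P.Defs

open UpperHalfPlane Complex
open scoped MatrixGroups ComplexConjugate Matrix

namespace MP836e4b.P

private theorem sum_div_coprime {m n : ℕ} (h : m.Coprime n) (φ : ℕ → ℂ) :
    ∑ d ∈ (m * n).divisors, φ d = ∑ x ∈ m.divisors, ∑ y ∈ n.divisors, φ (x * y) := by
  rw [Nat.divisors_mul, Finset.mul_def, Finset.sum_image h.mul_injOn_divisors,
    Finset.sum_product]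

private def sF (f g : ℕ → ℂ) (n : ℕ) : ℂ := ∑ d ∈ n.divisors, f d * g (n / d)

private def rF (f g : ℕ → ℂ) (a b : ℕ) : ℂ :=
  ∑ d ∈ (Nat.gcd a b).divisors, f d * g d * sF f g (a * b / d ^ 2)

private def hF (x y : ℂ) (m : ℕ) : ℂ := ∑ i ∈ Finset.range (m + 1), x ^ i * y ^ (m - i)

private theorem sF_mul (f g : ℕ → ℂ) (hf : ∀ m n, f (m * n) = f m * f n)
    (hg : ∀ m n, g (m * n) = g m * g n) {m n : ℕ} (h : m.Coprime n) :
    sF f g (m * n) = sF f g m * sF f g n := by
  unfold sF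
  rw [sum_div_coprime h, Finset.sum_mul_sum]
  refine Finset.sum_congr rfl fun x hx ↦ Finset.sum_congr rfl fun y hy ↦ ?_
  have hx' := Nat.dvd_of_mem_divisors hx
  have hy' := Nat.dvd_of_mem_divisors hy
  rw [← Nat.div_mul_div_comm hx' hy', hf, hg]
  ring

private theorem rF_mul (f g : ℕ → ℂ) (hf : ∀ m n, f (m * n) = f m * f n)
    (hg : ∀ m n, g (m * n) = g m * g n) {a b a' b' : ℕ} (h : (a * b).Coprime (a' * b')) :
    rF f g (a * a') (b * b') = rF f g a b * rF f g a' b' := by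
  have haa : a.Coprime a' := Nat.Coprime.coprime_mul_right (Nat.Coprime.coprime_mul_right_right h)
  have hab' : a.Coprime b' := Nat.Coprime.coprime_mul_right (Nat.Coprime.coprime_mul_left_right h)
  have hba' : b.Coprime a' := Nat.Coprime.coprime_mul_left (Nat.Coprime.coprime_mul_right_right h)
  have hbb : b.Coprime b' := Nat.Coprime.coprime_mul_left (Nat.Coprime.coprime_mul_left_right h)
  have hg1 : Nat.gcd (a * a') (b * b') = Nat.gcd a b * Nat.gcd a' b' := by
    rw [Nat.Coprime.gcd_mul _ hbb, Nat.Coprime.gcd_mul_right_cancel _ hba'.symm,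
      Nat.Coprime.gcd_mul_left_cancel _ hab']
  have hgc : (Nat.gcd a b).Coprime (Nat.gcd a' b') :=
    Nat.Coprime.coprime_dvd_left (Nat.gcd_dvd_left a b)
      (Nat.Coprime.coprime_dvd_right (Nat.gcd_dvd_left a' b') haa)
  unfold rF
  rw [hg1, sum_div_coprime hgc, Finset.sum_mul_sum]
  refine Finset.sum_congr rfl fun x hx ↦ Finset.sum_congr rfl fun y hy ↦ ?_
  have hx' := Nat.dvd_of_mem_divisors hx
  have hy' := Nat.dvd_of_mem_divisors hy
  have hx2 : x ^ 2 ∣ a * b := by
    rw [pow_two]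
    exact mul_dvd_mul (hx'.trans (Nat.gcd_dvd_left a b)) (hx'.trans (Nat.gcd_dvd_right a b))
  have hy2 : y ^ 2 ∣ a' * b' := by
    rw [pow_two]
    exact mul_dvd_mul (hy'.trans (Nat.gcd_dvd_left a' b')) (hy'.trans (Nat.gcd_dvd_right a' b'))
  have e1 : a * a' * (b * b') / (x * y) ^ 2 = (a * b / x ^ 2) * (a' * b' / y ^ 2) := by
    rw [Nat.div_mul_div_comm hx2 hy2, mul_pow]
    congr 1
    ring
  have hco : (a * b / x ^ 2).Coprime (a' * b' / y ^ 2) :=
    Nat.Coprime.coprime_dvd_left (Nat.div_dvd_of_dvd hx2)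
      (Nat.Coprime.coprime_dvd_right (Nat.div_dvd_of_dvd hy2) h)
  rw [e1, sF_mul f g hf hg hco, hf, hg]
  ring

private theorem hF_succ (x y : ℂ) (m : ℕ) : hF x y (m + 1) = x ^ (m + 1) + y * hF x y m := by
  unfold hF
  rw [Finset.sum_range_succ _ (m + 1), Finset.mul_sum]
  have : ∀ i ∈ Finset.range (m + 1), x ^ i * y ^ (m + 1 - i) = y * (x ^ i * y ^ (m - i)) := by
    intro i hi
    have hi' : i ≤ m := Nat.lt_succ_iff.mp (Finset.mem_range.mp hi)
    rw [Nat.succ_sub hi', pow_succ]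
    ring
  rw [Finset.sum_congr rfl this, Nat.sub_self]
  ring

private theorem hF_zero (x y : ℂ) : hF x y 0 = 1 := by
  simp [hF]

private theorem hF_add (x y : ℂ) (b : ℕ) : ∀ a : ℕ,
    hF x y (a + 1 + b) = x ^ (b + 1) * hF x y a + y ^ (a + 1) * hF x y b := by
  intro a
  induction a with
  | zero =>
    rw [hF_zero, show 0 + 1 + b = b + 1 by ring, hF_succ]
    ring
  | succ a ih =>
    rw [show a + 1 + 1 + b = (a + 1 + b) + 1 by ring, hF_succ, ih, hF_succ]
    ring

private theorem hF_succ' (x y : ℂ) (m : ℕ) : hF x y (m + 1) = y ^ (m + 1) + x * hF x y m := by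
  have h := hF_add x y 0 m
  rw [hF_zero] at h
  simp only [add_zero, zero_add, pow_one, mul_one] at h
  rw [h]
  ring

private theorem hF_pieri (x y : ℂ) (a b : ℕ) :
    hF x y (a + 1) * hF x y (b + 1) = hF x y (a + 1 + (b + 1)) + x * y * (hF x y a * hF x y b) := by
  have h1 := hF_add x y (b + 1) a
  have h2 := hF_succ' x y a
  have h3 := hF_succ x y b
  rw [h1]
  linear_combination (hF x y (b + 1)) * h2 + (x * hF x y a) * h3

private theorem hF_prod (x y : ℂ) : ∀ a b : ℕ, a ≤ b →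
    hF x y a * hF x y b = ∑ l ∈ Finset.range (a + 1), (x * y) ^ l * hF x y (a + b - 2 * l) := by
  intro a
  induction a with
  | zero =>
    intro b _
    simp [hF_zero]
  | succ a ih =>
    intro b hb
    obtain ⟨c, rfl⟩ : ∃ c, b = c + 1 := ⟨b - 1, by omega⟩
    rw [hF_pieri, ih c (by omega), Finset.sum_range_succ' _ (a + 1), Finset.mul_sum]
    rw [add_comm]
    congr 1
    · refine Finset.sum_congr rfl fun l hl ↦ ?_
      have : a + 1 + (c + 1) - 2 * (l + 1) = a + c - 2 * l := by omega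
      rw [this, pow_succ]
      ring
    · simp

private theorem map_pow' (f : ℕ → ℂ) (h1 : f 1 = 1) (hf : ∀ m n, f (m * n) = f m * f n)
    (p : ℕ) : ∀ i : ℕ, f (p ^ i) = f p ^ i := by
  intro i
  induction i with
  | zero => simpa using h1
  | succ i ih => rw [pow_succ, hf, ih, pow_succ]

private theorem sF_pow (f g : ℕ → ℂ) (hf1 : f 1 = 1) (hg1 : g 1 = 1)
    (hf : ∀ m n, f (m * n) = f m * f n)
    (hg : ∀ m n, g (m * n) = g m * g n) {p : ℕ} (hp : p.Prime) (m : ℕ) :
    sF f g (p ^ m) = hF (f p) (g p) m := by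
  unfold sF hF
  rw [Nat.sum_divisors_prime_pow hp]
  refine Finset.sum_congr rfl fun i hi ↦ ?_
  have hi' : i ≤ m := Nat.lt_succ_iff.mp (Finset.mem_range.mp hi)
  rw [Nat.pow_div hi' hp.pos, map_pow' f hf1 hf, map_pow' g hg1 hg]

private theorem rF_pow (f g : ℕ → ℂ) (hf1 : f 1 = 1) (hg1 : g 1 = 1)
    (hf : ∀ m n, f (m * n) = f m * f n)
    (hg : ∀ m n, g (m * n) = g m * g n) {p : ℕ} (hp : p.Prime) (i j : ℕ) (hij : i ≤ j) :
    sF f g (p ^ i) * sF f g (p ^ j) = rF f g (p ^ i) (p ^ j) := by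
  unfold rF
  rw [Nat.gcd_eq_left (pow_dvd_pow p hij), Nat.sum_divisors_prime_pow hp,
    sF_pow f g hf1 hg1 hf hg hp, sF_pow f g hf1 hg1 hf hg hp, hF_prod _ _ i j hij]
  refine Finset.sum_congr rfl fun l hl ↦ ?_
  have hl' : l ≤ i := Nat.lt_succ_iff.mp (Finset.mem_range.mp hl)
  have e : p ^ i * p ^ j / (p ^ l) ^ 2 = p ^ (i + j - 2 * l) := by
    rw [← pow_add, ← pow_mul, mul_comm l 2, Nat.pow_div (by omega) hp.pos]
  rw [e, sF_pow f g hf1 hg1 hf hg hp, map_pow' f hf1 hf, map_pow' g hg1 hg, mul_pow]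

private theorem rF_comm (f g : ℕ → ℂ) (a b : ℕ) : rF f g a b = rF f g b a := by
  unfold rF
  rw [Nat.gcd_comm, mul_comm a b]

private theorem rF_eq (f g : ℕ → ℂ) (hf1 : f 1 = 1) (hg1 : g 1 = 1)
    (hf : ∀ m n, f (m * n) = f m * f n)
    (hg : ∀ m n, g (m * n) = g m * g n) : ∀ N a b : ℕ, a * b = N → 0 < a → 0 < b →
    sF f g a * sF f g b = rF f g a b := by
  intro N
  induction N using Nat.strong_induction_on with
  | _ N ih =>
    intro a b hN ha hb
    by_cases h1 : N = 1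
    · rw [h1] at hN
      have ha1 : a = 1 := Nat.eq_one_of_mul_eq_one_right hN
      have hb1 : b = 1 := Nat.eq_one_of_mul_eq_one_left hN
      subst ha1
      subst hb1
      simp [sF, rF, hf1, hg1]
    · have hp : (N.minFac).Prime := Nat.minFac_prime h1
      set p := N.minFac with hpdef
      have hpN : p ∣ N := Nat.minFac_dvd N
      obtain ⟨i, a', hna, hae⟩ := Nat.exists_eq_pow_mul_and_not_dvd ha.ne' p hp.ne_one
      obtain ⟨j, b', hnb, hbe⟩ := Nat.exists_eq_pow_mul_and_not_dvd hb.ne' p hp.ne_one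
      have ha' : 0 < a' := Nat.pos_of_ne_zero (by
        rintro rfl
        simp at hna)
      have hb' : 0 < b' := Nat.pos_of_ne_zero (by
        rintro rfl
        simp at hnb)
      have hcop : p.Coprime (a' * b') := by
        rw [hp.coprime_iff_not_dvd]
        intro h
        rcases hp.dvd_mul.mp h with h | h
        · exact hna h
        · exact hnb h
      have hco : (p ^ i * p ^ j).Coprime (a' * b') := by
        rw [← pow_add]
        exact Nat.Coprime.pow_left _ hcop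
      have hlt : a' * b' < N := by
        have h2 : N = p ^ (i + j) * (a' * b') := by
          rw [← hN, hae, hbe, pow_add]
          ring
        have h3 : i + j ≠ 0 := by
          intro h0
          rw [h0, pow_zero, one_mul] at h2
          rw [h2] at hpN
          rcases hp.dvd_mul.mp hpN with h | h
          · exact hna h
          · exact hnb h
        rw [h2]
        have h4 : 1 < p ^ (i + j) := Nat.one_lt_pow h3 hp.one_lt
        exact lt_mul_of_one_lt_left (Nat.mul_pos ha' hb') h4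
      have hca : (p ^ i).Coprime a' :=
        Nat.Coprime.pow_left _ (Nat.Coprime.coprime_mul_right_right hcop)
      have hcb : (p ^ j).Coprime b' :=
        Nat.Coprime.pow_left _ (Nat.Coprime.coprime_mul_left_right hcop)
      have hpp : sF f g (p ^ i) * sF f g (p ^ j) = rF f g (p ^ i) (p ^ j) := by
        rcases le_total i j with h | h
        · exact rF_pow f g hf1 hg1 hf hg hp i j h
        · rw [mul_comm, rF_comm]
          exact rF_pow f g hf1 hg1 hf hg hp j i h
      rw [hae, hbe, rF_mul f g hf hg hco, sF_mul f g hf hg hca, sF_mul f g hf hg hcb, ← hpp,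
        ← ih (a' * b') hlt a' b' rfl ha' hb']
      ring

private theorem sig_eq (k D₁ D₂ n : ℕ) (hn : 0 < n) :
    sig k D₁ D₂ n = sF (fun d ↦ ch D₁ d * (d : ℂ) ^ (k - 1)) (fun d ↦ ch D₂ d) n := by
  unfold sig sF
  rw [if_neg hn.ne', Nat.sum_divisorsAntidiagonal
    (fun x y ↦ ((jacobiSym (x : ℤ) D₁ : ℤ) : ℂ) * ((jacobiSym (y : ℤ) D₂ : ℤ) : ℂ) *
      (x : ℂ) ^ (k - 1))]
  refine Finset.sum_congr rfl fun d hd ↦ ?_
  unfold ch
  ring

theorem sig_mul (k D₁ D₂ a b : ℕ) (hk : 1 ≤ k) (ha : 0 < a) (hb : 0 < b) :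
    sig k D₁ D₂ a * sig k D₁ D₂ b = ∑ d ∈ (Nat.gcd a b).divisors,
      ch D₁ d * ch D₂ d * (d : ℂ) ^ (k - 1) * sig k D₁ D₂ (a * b / d ^ 2) := by
  have hch : ∀ D m n : ℕ, ch D ((m * n : ℕ) : ℤ) = ch D m * ch D n := by
    intro D m n
    unfold ch
    rw [Nat.cast_mul, jacobiSym.mul_left, Int.cast_mul]
  have hch1 : ∀ D : ℕ, ch D ((1 : ℕ) : ℤ) = 1 := by
    intro D
    unfold ch
    rw [Nat.cast_one, jacobiSym.one_left, Int.cast_one]
  rw [sig_eq k D₁ D₂ a ha, sig_eq k D₁ D₂ b hb,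
    rF_eq (fun d ↦ ch D₁ d * (d : ℂ) ^ (k - 1)) (fun d ↦ ch D₂ d) (by
      have := hch1 D₁
      rw [Nat.cast_one] at this
      simp [this]) (hch1 D₂)
      (fun m n ↦ by simp only [hch]; push_cast; ring) (fun m n ↦ hch D₂ m n) (a * b) a b rfl ha hb]
  unfold rF
  refine Finset.sum_congr rfl fun d hd ↦ ?_
  have hd' := Nat.dvd_of_mem_divisors hd
  have hd2 : d ^ 2 ∣ a * b := by
    rw [pow_two]
    exact mul_dvd_mul (hd'.trans (Nat.gcd_dvd_left a b)) (hd'.trans (Nat.gcd_dvd_right a b))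
  have hpos : 0 < a * b / d ^ 2 := Nat.div_pos (Nat.le_of_dvd (Nat.mul_pos ha hb) hd2)
    (pow_pos (Nat.pos_of_dvd_of_pos hd' (Nat.gcd_pos_of_pos_left b ha)) 2)
  rw [sig_eq k D₁ D₂ _ hpos]
  ring

end MP836e4b.P
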