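/-
MODULE Wid (size M), board mod836, MP_836e4b_nt, folder Work/MP_836e4b_nt/P. Keep the statements verbatim, helper lemmas private.
The quadratic transformation as a polynomial identity. Coefficient of a^r b^(e-r) on the left (binomial expansion of
(b-a)^(e-2i)): (-1)^r ∑_i e!/(i!(r-i)!(e-r-i)!) (k-1)!/(k+i-1)!; on the right after dividing:
(-1)^r e! (e+k-1)! (k-1)!/((e-r)! r! (k+r-1)! (e-r+k-1)!). The identity is Vandermonde:
∑_i C(r,i) C(e-r+k-1, k-1+i) = C(e+k-1, k-1+r)  (Nat.add_choose_eq after symmetric reflection).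
The sum over i ≤ e/2 may be replaced by i ≤ min(r, e-r) for each r.
-/
import Mathlib
import Pool.Agent.Work.MP_836e4b_nt.P.Defs

open UpperHalfPlane Complex
open scoped MatrixGroups ComplexConjugate Matrix

namespace MP836e4b.P

private theorem vand (r K n : ℕ) :
    ∑ i ∈ Finset.range (min r K + 1), r.choose i * n.choose (K - i) = (r + n).choose K := by
  rw [Nat.add_choose_eq, Finset.Nat.sum_antidiagonal_eq_sum_range_succ_mk]
  refine Finset.sum_subset ?_ ?_
  · intro i hi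
    rw [Finset.mem_range] at hi ⊢
    omega
  · intro i hi hi'
    rw [Finset.mem_range] at hi hi'
    have h : r < i := by omega
    rw [Nat.choose_eq_zero_of_lt h, zero_mul]

private theorem term (k e r i : ℕ) (hk : 1 ≤ k) (hr : r ≤ e) (hi : i ≤ r) (hi' : i ≤ e - r) :
    ((e + k - 1).choose e : ℂ) * (((e.factorial : ℂ) / ((i.factorial : ℂ) * ((e - 2 * i).factorial : ℂ))) *
      (((k - 1).factorial : ℂ) / ((k + i - 1).factorial : ℂ)) * ((e - 2 * i).choose (r - i) : ℂ)) =
      ((e + k - 1).choose r : ℂ) * ((r.choose i : ℂ) * ((e - r + k - 1).choose (e - r - i) : ℂ)) := by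
  obtain ⟨m, rfl⟩ : ∃ m, k = m + 1 := ⟨k - 1, by omega⟩
  obtain ⟨t, rfl⟩ : ∃ t, r = i + t := ⟨r - i, by omega⟩
  obtain ⟨u, rfl⟩ : ∃ u, e = i + t + (i + u) := ⟨e - (i + t) - i, by omega⟩
  have e1 : i + t + (i + u) + (m + 1) - 1 = i + t + (i + u) + m := by omega
  have e2 : i + t + (i + u) - 2 * i = t + u := by omega
  have e3 : m + 1 - 1 = m := by omega
  have e4 : m + 1 + i - 1 = m + i := by omega
  have e5 : i + t - i = t := by omega
  have e6 : i + t + (i + u) - (i + t) + (m + 1) - 1 = i + u + m := by omega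
  have e7 : i + t + (i + u) - (i + t) - i = u := by omega
  rw [e1, e2, e3, e4, e5, e6, e7]
  have c1 : ((i + t + (i + u) + m).choose (i + t + (i + u)) : ℂ) =
      ((i + t + (i + u) + m).factorial : ℂ) / (((i + t + (i + u)).factorial : ℂ) * (m.factorial : ℂ)) := by
    rw [Nat.cast_add_choose ℂ]
  have c2 : ((t + u).choose t : ℂ) = ((t + u).factorial : ℂ) / ((t.factorial : ℂ) * (u.factorial : ℂ)) := by
    rw [Nat.cast_add_choose ℂ]
  have c3 : ((i + t + (i + u) + m).choose (i + t) : ℂ) =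
      ((i + t + (i + u) + m).factorial : ℂ) / (((i + t).factorial : ℂ) * ((i + u + m).factorial : ℂ)) := by
    rw [show i + t + (i + u) + m = (i + t) + (i + u + m) by omega, Nat.cast_add_choose ℂ]
  have c4 : ((i + t).choose i : ℂ) = ((i + t).factorial : ℂ) / ((i.factorial : ℂ) * (t.factorial : ℂ)) := by
    rw [Nat.cast_add_choose ℂ]
  have c5 : ((i + u + m).choose u : ℂ) =
      ((i + u + m).factorial : ℂ) / ((u.factorial : ℂ) * ((m + i).factorial : ℂ)) := by
    rw [show i + u + m = u + (m + i) by omega, Nat.cast_add_choose ℂ]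
  rw [c1, c2, c3, c4, c5]
  have h1 : ((i + t + (i + u)).factorial : ℂ) ≠ 0 := Nat.cast_ne_zero.2 (Nat.factorial_ne_zero _)
  have h2 : (m.factorial : ℂ) ≠ 0 := Nat.cast_ne_zero.2 (Nat.factorial_ne_zero _)
  have h3 : (i.factorial : ℂ) ≠ 0 := Nat.cast_ne_zero.2 (Nat.factorial_ne_zero _)
  have h4 : ((t + u).factorial : ℂ) ≠ 0 := Nat.cast_ne_zero.2 (Nat.factorial_ne_zero _)
  have h5 : ((m + i).factorial : ℂ) ≠ 0 := Nat.cast_ne_zero.2 (Nat.factorial_ne_zero _)
  have h6 : (t.factorial : ℂ) ≠ 0 := Nat.cast_ne_zero.2 (Nat.factorial_ne_zero _)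
  have h7 : (u.factorial : ℂ) ≠ 0 := Nat.cast_ne_zero.2 (Nat.factorial_ne_zero _)
  have h8 : ((i + t).factorial : ℂ) ≠ 0 := Nat.cast_ne_zero.2 (Nat.factorial_ne_zero _)
  have h9 : ((i + u + m).factorial : ℂ) ≠ 0 := Nat.cast_ne_zero.2 (Nat.factorial_ne_zero _)
  field_simp

theorem Wp_eq_ce (k e : ℕ) (hk : 1 ≤ k) (a b : ℕ) :
    ((e + k - 1).choose e : ℂ) * Wp k e ((a : ℂ) * (b : ℂ)) ((b : ℂ) - (a : ℂ)) =
      ((ce k e a b : ℤ) : ℂ) := by
  have key : Wp k e ((a : ℂ) * (b : ℂ)) ((b : ℂ) - (a : ℂ)) =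
      ∑ r ∈ Finset.range (e + 1), ∑ i ∈ Finset.range (min r (e - r) + 1),
        (((e.factorial : ℂ) / ((i.factorial : ℂ) * ((e - 2 * i).factorial : ℂ))) *
          (((k - 1).factorial : ℂ) / ((k + i - 1).factorial : ℂ)) * ((e - 2 * i).choose (r - i) : ℂ)) *
          ((-1) ^ r * (a : ℂ) ^ r * (b : ℂ) ^ (e - r)) := by
    unfold Wp
    have step : ∀ i ∈ Finset.range (e / 2 + 1),
        ((e.factorial : ℂ) / ((i.factorial : ℂ) * ((e - 2 * i).factorial : ℂ))) *
          (((k - 1).factorial : ℂ) / ((k + i - 1).factorial : ℂ)) * (-((a : ℂ) * (b : ℂ))) ^ i *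
            ((b : ℂ) - (a : ℂ)) ^ (e - 2 * i) =
        ∑ r ∈ Finset.Ico i (e - i + 1),
          (((e.factorial : ℂ) / ((i.factorial : ℂ) * ((e - 2 * i).factorial : ℂ))) *
          (((k - 1).factorial : ℂ) / ((k + i - 1).factorial : ℂ)) * ((e - 2 * i).choose (r - i) : ℂ)) *
          ((-1) ^ r * (a : ℂ) ^ r * (b : ℂ) ^ (e - r)) := by
      intro i hi
      rw [Finset.mem_range] at hi
      have hi2 : 2 * i ≤ e := by omega
      rw [Finset.sum_Ico_eq_sum_range, show e - i + 1 - i = e - 2 * i + 1 by omega]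
      have hb : ((b : ℂ) - (a : ℂ)) ^ (e - 2 * i) = (-(a : ℂ) + (b : ℂ)) ^ (e - 2 * i) := by
        congr 1
        ring
      rw [hb, add_pow, Finset.mul_sum]
      refine Finset.sum_congr rfl fun t ht => ?_
      rw [Finset.mem_range] at ht
      rw [show i + t - i = t by omega, show e - (i + t) = e - 2 * i - t + i by omega]
      rw [neg_pow (a : ℂ) t, neg_pow ((a : ℂ) * (b : ℂ)) i, mul_pow, pow_add (-1 : ℂ), pow_add (a : ℂ),
        pow_add (b : ℂ)]
      ring
    rw [Finset.sum_congr rfl step]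
    refine Finset.sum_comm' fun i r => ?_
    rw [Finset.mem_range, Finset.mem_Ico, Finset.mem_range, Finset.mem_range]
    omega
  rw [key, Finset.mul_sum]
  have hce : ((ce k e a b : ℤ) : ℂ) = ∑ r ∈ Finset.range (e + 1), (-1) ^ r * (a : ℂ) ^ r * (b : ℂ) ^ (e - r) *
      ((e + k - 1).choose (e - r) : ℂ) * ((e + k - 1).choose r : ℂ) := by
    unfold ce
    push_cast
    rfl
  rw [hce]
  refine Finset.sum_congr rfl fun r hr => ?_
  rw [Finset.mem_range] at hr
  have hr' : r ≤ e := by omega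
  rw [← Finset.sum_mul, ← mul_assoc, Finset.mul_sum]
  have h1 : ∑ i ∈ Finset.range (min r (e - r) + 1),
      ((e + k - 1).choose e : ℂ) * (((e.factorial : ℂ) / ((i.factorial : ℂ) * ((e - 2 * i).factorial : ℂ))) *
      (((k - 1).factorial : ℂ) / ((k + i - 1).factorial : ℂ)) * ((e - 2 * i).choose (r - i) : ℂ)) =
      ((e + k - 1).choose r : ℂ) * ((e + k - 1).choose (e - r) : ℂ) := by
    rw [Finset.sum_congr rfl fun i hi => term k e r i hk hr'
      (by rw [Finset.mem_range] at hi; omega) (by rw [Finset.mem_range] at hi; omega), ← Finset.mul_sum]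
    congr 1
    have h2 := vand r (e - r) (e - r + k - 1)
    rw [show r + (e - r + k - 1) = e + k - 1 by omega] at h2
    rw [← h2]
    push_cast
    rfl
  rw [h1]
  ring

end MP836e4b.P
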