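/-
MODULE CSh (size L), board mod836, MP_836e4b_nt, folder Work/MP_836e4b_nt/P. Keep the statements verbatim, helper lemmas private.
F is the D-th Shimura lift of g_D, D odd squarefree, e even. For each D = D1 D2 show
(-1/D2) D2^{-e} ∑_{a1+a2 = nD2} σ(a1)σ(a2) ce(a1,a2) = C ∑_{d ∣ n} χ_D(d) d^(κ-1) cgP D1 D2 k e (D(n/d)²), σ = sig k D1 D2,
C = binomial. For a1,a2 > 0: sig_mul; χ1χ2(d) = χ_D(d) ≠ 0 and d ∣ a1+a2 = nD2 give d ∣ n. For a1 = 0 (or a2 = 0): D2 > 1: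
σ(0) = 0 (Lval_zero in Char.lean); D2 = 1: σ(n) = ∑_{d ∣ n} χ_D(d) d^(k-1). ce is homogeneous of degree e. So the left side is
(-1/D2) D2^{-e} ∑_{d ∣ n} χ_D(d) d^(k-1+e) ∑_{b1+b2 = D2 n/d} σ(b1b2) ce(b1,b2) (σ(0) if b1b2 = 0). And σ(D1 x) = χ_{D2}(D1) σ(x)
(d1 ∣ D1x with χ_{D1}(d1) ≠ 0 divides x), χ_{D2}(D1)² = 1, ch D2 (-D1) = (-1/D2) χ_{D2}(D1). In cgP at ν = D n'^2, n' = n/d:
D2ν - D1m² = D1(D2²n'^2 - m²), divisible by 4 iff m = D2 n' mod 2; b1 = (D2n'-m)/2, b2 = (D2n'+m)/2, N = D1b1b2,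
Wp k e (b1b2)(b2-b1) C = ce(b1,b2) (Wp_eq_ce). (Module ShA is the case D prime; all formulas numerically checked.)
-/
import Mathlib
import Pool.Agent.Work.MP_836e4b_nt.P.Defs
import Pool.Agent.Work.MP_836e4b_nt.P.Wid
import Pool.Agent.Work.MP_836e4b_nt.P.HecM
import Pool.Agent.Work.MP_836e4b_nt.P.CDf
import Pool.Agent.Work.MP_836e4b_nt.Char

open UpperHalfPlane Complex
open scoped MatrixGroups ComplexConjugate Matrix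

namespace MP836e4b.P

private theorem cS_sig1 (k D n : ℕ) (hn : 0 < n) :
    sig k D 1 n = ∑ d ∈ n.divisors, ch D (d : ℤ) * (d : ℂ) ^ (k - 1) := by
  rw [sig, if_neg hn.ne', Nat.sum_divisorsAntidiagonal (f := fun a b : ℕ =>
    ((jacobiSym (a : ℤ) D : ℤ) : ℂ) * ((jacobiSym (b : ℤ) 1 : ℤ) : ℂ) * (a : ℂ) ^ (k - 1))]
  refine Finset.sum_congr rfl fun d _ => ?_
  rw [jacobiSym.one_right, Int.cast_one, mul_one]
  rfl

private theorem cS_ch1 (d : ℤ) : ch 1 d = 1 := by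
  unfold ch
  rw [jacobiSym.one_right, Int.cast_one]

private theorem cS_mulI (k D a b : ℕ) (hk : 1 ≤ k) (hab : 0 < a + b) :
    sig k D 1 a * sig k D 1 b = ∑ d ∈ (Nat.gcd a b).divisors,
      ch D (d : ℤ) * (d : ℂ) ^ (k - 1) * sig k D 1 (a * b / d ^ 2) := by
  rcases Nat.eq_zero_or_pos a with rfl | ha
  · have hb : 0 < b := by omega
    have h1 : ∀ d : ℕ, sig k D 1 (0 * b / d ^ 2) = sig k D 1 0 := by
      intro d
      rw [zero_mul, Nat.zero_div]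
    simp only [h1]
    rw [← Finset.sum_mul, Nat.gcd_zero_left, ← cS_sig1 k D b hb, mul_comm]
  · rcases Nat.eq_zero_or_pos b with rfl | hb
    · have h1 : ∀ d : ℕ, sig k D 1 (a * 0 / d ^ 2) = sig k D 1 0 := by
        intro d
        rw [mul_zero, Nat.zero_div]
      simp only [h1]
      rw [← Finset.sum_mul, Nat.gcd_zero_right, ← cS_sig1 k D a ha]
    · rw [sig_mul k D 1 a b hk ha hb]
      refine Finset.sum_congr rfl fun d _ => ?_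
      rw [cS_ch1, mul_one]

private theorem cS_ch0 (D d : ℕ) (hD : D ≠ 0) (h : ¬ Nat.Coprime d D) : ch D (d : ℤ) = 0 := by
  unfold ch
  haveI : NeZero D := ⟨hD⟩
  have h1 : jacobiSym (d : ℤ) D = 0 := by
    rw [jacobiSym.eq_zero_iff_not_coprime, Int.gcd_natCast_natCast]
    exact h
  rw [h1, Int.cast_zero]

private theorem cS_div (D E x : ℕ) (hE : E ≠ 0) (hED : E ∣ D) (hx : 0 < x)
    (F : ℕ → ℂ) (hF : ∀ d, ¬ Nat.Coprime d D → F d = 0) :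
    ∑ d ∈ (x * E).divisors, F d = ∑ d ∈ x.divisors, F d := by
  symm
  refine Finset.sum_subset (Nat.divisors_subset_of_dvd
    (Nat.mul_ne_zero hx.ne' hE) (Dvd.intro _ rfl)) ?_
  intro d hd hd'
  apply hF
  intro hcop
  have h1 : Nat.Coprime d E := Nat.Coprime.coprime_dvd_right hED hcop
  exact hd' (Nat.mem_divisors.2 ⟨h1.dvd_of_dvd_mul_right (Nat.mem_divisors.1 hd).1, hx.ne'⟩)

private theorem cS_sig (k D₁ D₂ n : ℕ) (hn : 0 < n) :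
    sig k D₁ D₂ n = ∑ d ∈ n.divisors, ch D₁ (d : ℤ) * ch D₂ ((n / d : ℕ) : ℤ) *
      (d : ℂ) ^ (k - 1) := by
  rw [sig, if_neg hn.ne', Nat.sum_divisorsAntidiagonal (f := fun a b : ℕ =>
    ((jacobiSym (a : ℤ) D₁ : ℤ) : ℂ) * ((jacobiSym (b : ℤ) D₂ : ℤ) : ℂ) * (a : ℂ) ^ (k - 1))]
  rfl

private theorem cS_chmul (D m n : ℕ) : ch D ((m * n : ℕ) : ℤ) = ch D m * ch D n := by
  unfold ch
  rw [Nat.cast_mul, jacobiSym.mul_left, Int.cast_mul]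

private theorem cS_sigD (k D₁ D₂ x : ℕ) (hD : D₁ ≠ 0)
    (hz : 1 < D₂ → sig k D₁ D₂ 0 = 0) (hD2 : D₂ ≠ 0) :
    sig k D₁ D₂ (D₁ * x) = ch D₂ (D₁ : ℤ) * sig k D₁ D₂ x := by
  rcases Nat.eq_zero_or_pos x with rfl | hx
  · rw [mul_zero]
    rcases Nat.lt_or_ge 1 D₂ with h | h
    · rw [hz h, mul_zero]
    · have h1 : D₂ = 1 := by omega
      rw [h1, cS_ch1, one_mul]
  · have hpos : 0 < D₁ * x := Nat.mul_pos (Nat.pos_of_ne_zero hD) hx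
    rw [cS_sig k D₁ D₂ _ hpos, cS_sig k D₁ D₂ x hx, mul_comm D₁ x,
      cS_div D₁ D₁ x hD dvd_rfl hx _ (fun d hd => by
        rw [cS_ch0 D₁ d hD hd, zero_mul, zero_mul]), Finset.mul_sum]
    refine Finset.sum_congr rfl fun d hd => ?_
    have hdx : d ∣ x := Nat.dvd_of_mem_divisors hd
    have e1 : x * D₁ / d = D₁ * (x / d) := by
      rw [mul_comm x D₁, Nat.mul_div_assoc _ hdx]
    rw [e1, cS_chmul]
    ring

private theorem cS_mul (k D₁ D₂ a b : ℕ) (hk : 1 ≤ k) (hab : 0 < a + b) (h1 : D₁ ≠ 0)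
    (h2 : D₂ ≠ 0) (hz : 1 < D₂ → sig k D₁ D₂ 0 = 0) :
    sig k D₁ D₂ a * sig k D₁ D₂ b = ∑ d ∈ (Nat.gcd a b).divisors,
      ch (D₁ * D₂) (d : ℤ) * (d : ℂ) ^ (k - 1) * sig k D₁ D₂ (a * b / d ^ 2) := by
  have hch : ∀ d : ℕ, ch (D₁ * D₂) (d : ℤ) = ch D₁ d * ch D₂ d := by
    intro d
    haveI : NeZero D₁ := ⟨h1⟩
    haveI : NeZero D₂ := ⟨h2⟩
    unfold ch
    rw [jacobiSym.mul_right, Int.cast_mul]
  rcases Nat.lt_or_ge 1 D₂ with h | h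
  · have hz' := hz h
    rcases Nat.eq_zero_or_pos a with rfl | ha
    · rw [hz', zero_mul, Finset.sum_eq_zero]
      intro d _
      rw [zero_mul, Nat.zero_div, hz', mul_zero]
    · rcases Nat.eq_zero_or_pos b with rfl | hb
      · rw [hz', mul_zero, Finset.sum_eq_zero]
        intro d _
        rw [mul_zero, Nat.zero_div, hz', mul_zero]
      · rw [sig_mul k D₁ D₂ a b hk ha hb]
        refine Finset.sum_congr rfl fun d _ => ?_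
        rw [hch]
  · have h3 : D₂ = 1 := by omega
    subst h3
    rw [cS_mulI k D₁ a b hk hab, mul_one]

private theorem cS_swap (N : ℕ) (hN : 0 < N) (f : ℕ → ℕ → ℕ → ℂ) :
    ∑ p ∈ Finset.HasAntidiagonal.antidiagonal N, ∑ d ∈ (Nat.gcd p.1 p.2).divisors, f d p.1 p.2 =
      ∑ d ∈ N.divisors, ∑ q ∈ Finset.HasAntidiagonal.antidiagonal (N / d), f d (d * q.1) (d * q.2) := by
  rw [Finset.sum_sigma', Finset.sum_sigma']
  refine Finset.sum_bij' (fun x _ => ⟨x.2, (x.1.1 / x.2, x.1.2 / x.2)⟩)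
    (fun y _ => ⟨(y.1 * y.2.1, y.1 * y.2.2), y.1⟩) ?_ ?_ ?_ ?_ ?_
  · rintro ⟨p, d⟩ hx
    rw [Finset.mem_sigma, Finset.HasAntidiagonal.mem_antidiagonal, Nat.mem_divisors] at hx
    obtain ⟨h1, h2, h3⟩ := hx
    simp only at h1 h2 h3
    have hd1 : d ∣ p.1 := h2.trans (Nat.gcd_dvd_left _ _)
    have hd2 : d ∣ p.2 := h2.trans (Nat.gcd_dvd_right _ _)
    rw [Finset.mem_sigma, Nat.mem_divisors, Finset.HasAntidiagonal.mem_antidiagonal]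
    refine ⟨⟨?_, hN.ne'⟩, ?_⟩
    · show d ∣ N
      rw [← h1]
      exact dvd_add hd1 hd2
    · show p.1 / d + p.2 / d = N / d
      rw [← h1, Nat.add_div_of_dvd_right hd1]
  · rintro ⟨d, q⟩ hx
    rw [Finset.mem_sigma, Finset.HasAntidiagonal.mem_antidiagonal, Nat.mem_divisors] at hx
    obtain ⟨⟨h1, _⟩, h2⟩ := hx
    simp only at h1 h2
    have h3 : d * q.1 + d * q.2 = N := by
      rw [← Nat.mul_add, h2, Nat.mul_div_cancel' h1]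
    rw [Finset.mem_sigma, Finset.HasAntidiagonal.mem_antidiagonal, Nat.mem_divisors]
    refine ⟨h3, ?_, ?_⟩
    · exact Nat.dvd_gcd (Dvd.intro _ rfl) (Dvd.intro _ rfl)
    · intro h0
      have h4 := Nat.gcd_eq_zero_iff.1 h0
      simp only at h4
      omega
  · rintro ⟨p, d⟩ hx
    rw [Finset.mem_sigma, Finset.HasAntidiagonal.mem_antidiagonal, Nat.mem_divisors] at hx
    obtain ⟨h1, h2, h3⟩ := hx
    simp only at h1 h2 h3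
    have hd1 : d ∣ p.1 := h2.trans (Nat.gcd_dvd_left _ _)
    have hd2 : d ∣ p.2 := h2.trans (Nat.gcd_dvd_right _ _)
    show (⟨(d * (p.1 / d), d * (p.2 / d)), d⟩ : Σ _ : ℕ × ℕ, ℕ) = ⟨p, d⟩
    rw [Nat.mul_div_cancel' hd1, Nat.mul_div_cancel' hd2]
  · rintro ⟨d, q⟩ hx
    rw [Finset.mem_sigma, Finset.HasAntidiagonal.mem_antidiagonal, Nat.mem_divisors] at hx
    obtain ⟨⟨h1, _⟩, h2⟩ := hx
    simp only at h1 h2
    have hd : 0 < d := Nat.pos_of_dvd_of_pos h1 hN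
    show (⟨d, (d * q.1 / d, d * q.2 / d)⟩ : Σ _ : ℕ, ℕ × ℕ) = ⟨d, q⟩
    rw [Nat.mul_div_cancel_left _ hd, Nat.mul_div_cancel_left _ hd]
  · rintro ⟨p, d⟩ hx
    rw [Finset.mem_sigma, Finset.HasAntidiagonal.mem_antidiagonal, Nat.mem_divisors] at hx
    obtain ⟨h1, h2, h3⟩ := hx
    simp only at h1 h2 h3
    have hd1 : d ∣ p.1 := h2.trans (Nat.gcd_dvd_left _ _)
    have hd2 : d ∣ p.2 := h2.trans (Nat.gcd_dvd_right _ _)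
    show f d p.1 p.2 = f d (d * (p.1 / d)) (d * (p.2 / d))
    rw [Nat.mul_div_cancel' hd1, Nat.mul_div_cancel' hd2]

private theorem cS_ce (k e d a b : ℕ) :
    (ce k e (d * a) (d * b) : ℂ) = (d : ℂ) ^ e * (ce k e a b : ℂ) := by
  unfold ce
  push_cast
  rw [Finset.mul_sum]
  refine Finset.sum_congr rfl fun r hr => ?_
  have h1 : r ≤ e := Nat.lt_succ_iff.1 (Finset.mem_range.1 hr)
  have h2 : (d : ℂ) ^ e = (d : ℂ) ^ r * (d : ℂ) ^ (e - r) := by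
    rw [← pow_add, Nat.add_sub_cancel' h1]
  rw [mul_pow, mul_pow, h2]
  ring

/-- the general form of both parts -/
private theorem cS_part (k e D N : ℕ) (hk : 1 ≤ k) (hN : 0 < N) (s : ℕ → ℂ)
    (hs : ∀ a b, 0 < a + b → s a * s b = ∑ d ∈ (Nat.gcd a b).divisors,
      ch D (d : ℤ) * (d : ℂ) ^ (k - 1) * s (a * b / d ^ 2)) :
    ∑ p ∈ Finset.HasAntidiagonal.antidiagonal N, s p.1 * s p.2 * (ce k e p.1 p.2 : ℂ) =
      ∑ d ∈ N.divisors, ch D (d : ℤ) * (d : ℂ) ^ (k + e - 1) *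
        ∑ q ∈ Finset.HasAntidiagonal.antidiagonal (N / d), s (q.1 * q.2) * (ce k e q.1 q.2 : ℂ) := by
  have h1 : ∑ p ∈ Finset.HasAntidiagonal.antidiagonal N, s p.1 * s p.2 * (ce k e p.1 p.2 : ℂ) =
      ∑ p ∈ Finset.HasAntidiagonal.antidiagonal N, ∑ d ∈ (Nat.gcd p.1 p.2).divisors,
        ch D (d : ℤ) * (d : ℂ) ^ (k - 1) * s (p.1 * p.2 / d ^ 2) * (ce k e p.1 p.2 : ℂ) := by
    refine Finset.sum_congr rfl fun p hp => ?_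
    rw [Finset.HasAntidiagonal.mem_antidiagonal] at hp
    rw [hs p.1 p.2 (by omega), Finset.sum_mul]
  rw [h1, cS_swap N hN (fun d a b =>
    ch D (d : ℤ) * (d : ℂ) ^ (k - 1) * s (a * b / d ^ 2) * (ce k e a b : ℂ))]
  refine Finset.sum_congr rfl fun d hd => ?_
  have hd0 : 0 < d := Nat.pos_of_mem_divisors hd
  rw [Finset.mul_sum]
  refine Finset.sum_congr rfl fun q _ => ?_
  have h2 : d * q.1 * (d * q.2) / d ^ 2 = q.1 * q.2 := by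
    have h3 : d * q.1 * (d * q.2) = q.1 * q.2 * d ^ 2 := by ring
    rw [h3, Nat.mul_div_cancel _ (by positivity)]
  have h4 : (d : ℂ) ^ (k + e - 1) = (d : ℂ) ^ (k - 1) * (d : ℂ) ^ e := by
    rw [← pow_add]
    congr 1
    omega
  rw [h2, cS_ce, h4]
  ring

/-- the sum over `m` as a sum over pairs -/
private theorem cS_G (N R : ℕ) (hR : N ≤ R) (g : ℤ → ℂ) :
    ∑ m ∈ Finset.Icc (-(R : ℤ)) R, (if m ^ 2 ≤ (N : ℤ) ^ 2 ∧ (4 : ℤ) ∣ (N : ℤ) ^ 2 - m ^ 2 then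
      g m else 0) = ∑ p ∈ Finset.HasAntidiagonal.antidiagonal N, g ((p.2 : ℤ) - (p.1 : ℤ)) := by
  rw [← Finset.sum_filter]
  symm
  have key : ∀ m : ℤ, m ^ 2 ≤ (N : ℤ) ^ 2 → (4 : ℤ) ∣ (N : ℤ) ^ 2 - m ^ 2 →
      -(N : ℤ) ≤ m ∧ m ≤ N ∧ 2 * (((N : ℤ) - m) / 2) = N - m ∧
        2 * (((N : ℤ) + m) / 2) = N + m := by
    intro m h1 h2
    have h3 := abs_le.mp (abs_le_of_sq_le_sq h1 (Int.natCast_nonneg N))
    have hpar : ((N : ℤ) - m) % 2 = 0 := by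
      rcases Int.emod_two_eq_zero_or_one ((N : ℤ) - m) with h | h
      · exact h
      · exfalso
        have h4 : ((N : ℤ) - m) * (N + m) % 2 = 1 := by
          rw [Int.mul_emod, h]
          have h5 : ((N : ℤ) + m) % 2 = 1 := by omega
          rw [h5]
          norm_num
        have h6 : (N : ℤ) ^ 2 - m ^ 2 = ((N : ℤ) - m) * (N + m) := by ring
        rw [h6] at h2
        omega
    refine ⟨h3.1, h3.2, ?_, ?_⟩ <;> omega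
  refine Finset.sum_bij' (fun p _ => (p.2 : ℤ) - (p.1 : ℤ))
    (fun m _ => ((((N : ℤ) - m) / 2).toNat, (((N : ℤ) + m) / 2).toNat)) ?_ ?_ ?_ ?_ ?_
  · intro p hp
    rw [Finset.HasAntidiagonal.mem_antidiagonal] at hp
    have hp' : (N : ℤ) = p.1 + p.2 := by exact_mod_cast hp.symm
    rw [Finset.mem_filter, Finset.mem_Icc]
    have hR' : (N : ℤ) ≤ R := by exact_mod_cast hR
    refine ⟨⟨by omega, by omega⟩, ?_, ?_⟩
    · rw [hp']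
      nlinarith [mul_nonneg (Int.natCast_nonneg p.1) (Int.natCast_nonneg p.2)]
    · refine ⟨(p.1 : ℤ) * p.2, ?_⟩
      rw [hp']
      ring
  · intro m hm
    rw [Finset.mem_filter] at hm
    obtain ⟨-, h1, h2⟩ := hm
    obtain ⟨a1, a2, a3, a4⟩ := key m h1 h2
    rw [Finset.HasAntidiagonal.mem_antidiagonal]
    show (((N : ℤ) - m) / 2).toNat + (((N : ℤ) + m) / 2).toNat = N
    omega
  · intro p hp
    rw [Finset.HasAntidiagonal.mem_antidiagonal] at hp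
    have hp' : (N : ℤ) = p.1 + p.2 := by exact_mod_cast hp.symm
    refine Prod.ext ?_ ?_
    · show (((N : ℤ) - ((p.2 : ℤ) - (p.1 : ℤ))) / 2).toNat = p.1
      omega
    · show (((N : ℤ) + ((p.2 : ℤ) - (p.1 : ℤ))) / 2).toNat = p.2
      omega
  · intro m hm
    rw [Finset.mem_filter] at hm
    obtain ⟨-, h1, h2⟩ := hm
    obtain ⟨a1, a2, a3, a4⟩ := key m h1 h2
    show ((((N : ℤ) + m) / 2).toNat : ℤ) - ((((N : ℤ) - m) / 2).toNat : ℤ) = m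
    omega
  · intro p _
    rfl

private theorem cS_cgP (k e D₁ D₂ N : ℕ) (h1 : Odd D₁) (h2 : D₂ ≠ 0)
    (hz : 1 < D₂ → sig k D₁ D₂ 0 = 0) (hcop : Nat.Coprime D₁ D₂) :
    cgP D₁ D₂ k e (D₁ * D₂ * N ^ 2) = ((jacobiSym (-1) D₂ : ℤ) : ℂ) * ((D₂ : ℂ) ^ e)⁻¹ *
      ∑ p ∈ Finset.HasAntidiagonal.antidiagonal (D₂ * N),
      sig k D₁ D₂ (p.1 * p.2) * Wp k e ((p.1 : ℂ) * (p.2 : ℂ)) ((p.2 : ℂ) - (p.1 : ℂ)) := by
  have hD0 : D₁ ≠ 0 := by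
    rintro rfl
    exact absurd h1 (by decide)
  have hDpos : (0 : ℤ) < D₁ := by exact_mod_cast Nat.pos_of_ne_zero hD0
  have hDC : (D₁ : ℂ) ≠ 0 := by exact_mod_cast hD0
  have hc : ch D₂ (-(D₁ : ℤ)) * ch D₂ (D₁ : ℤ) = ((jacobiSym (-1) D₂ : ℤ) : ℂ) := by
    haveI : NeZero D₂ := ⟨h2⟩
    unfold ch
    rw [neg_eq_neg_one_mul, jacobiSym.mul_left, Int.cast_mul, mul_assoc, ← Int.cast_mul,
      ← pow_two, jacobiSym.sq_one (by rw [Int.gcd_natCast_natCast]; exact hcop), Int.cast_one,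
      mul_one]
  have hR : D₂ * N ≤ D₂ * (D₁ * D₂ * N ^ 2) := by
    apply Nat.mul_le_mul_left
    rcases Nat.eq_zero_or_pos N with rfl | hN
    · exact Nat.zero_le _
    · have h3 : 1 ≤ D₁ * D₂ := Nat.mul_pos (Nat.pos_of_ne_zero hD0) (Nat.pos_of_ne_zero h2)
      nlinarith
  have hcond : ∀ m : ℤ, ((D₁ : ℤ) * m ^ 2 ≤ (D₂ : ℤ) * ((D₁ * D₂ * N ^ 2 : ℕ) : ℤ) ∧
      (4 : ℤ) ∣ (D₂ : ℤ) * ((D₁ * D₂ * N ^ 2 : ℕ) : ℤ) - (D₁ : ℤ) * m ^ 2) ↔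
      (m ^ 2 ≤ ((D₂ * N : ℕ) : ℤ) ^ 2 ∧ (4 : ℤ) ∣ ((D₂ * N : ℕ) : ℤ) ^ 2 - m ^ 2) := by
    intro m
    have e0 : (D₂ : ℤ) * ((D₁ * D₂ * N ^ 2 : ℕ) : ℤ) = (D₁ : ℤ) * ((D₂ * N : ℕ) : ℤ) ^ 2 := by
      push_cast
      ring
    have e1 : (D₁ : ℤ) * ((D₂ * N : ℕ) : ℤ) ^ 2 - (D₁ : ℤ) * m ^ 2 =
        (D₁ : ℤ) * (((D₂ * N : ℕ) : ℤ) ^ 2 - m ^ 2) := by ring
    rw [e0, e1, mul_le_mul_iff_right₀ hDpos]
    have hcop4 : IsCoprime (4 : ℤ) (D₁ : ℤ) := by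
      have h4 : Nat.Coprime 4 D₁ := by
        have h3 : Nat.Coprime 2 D₁ := (Nat.coprime_two_left).2 h1
        have h4 : Nat.Coprime (2 ^ 2) D₁ := h3.pow_left 2
        exact h4
      exact_mod_cast Nat.isCoprime_iff_coprime.2 h4
    constructor
    · rintro ⟨h5, h6⟩
      exact ⟨h5, hcop4.dvd_of_dvd_mul_left h6⟩
    · rintro ⟨h5, h6⟩
      exact ⟨h5, h6.mul_left _⟩
  unfold cgP
  have h5 : ∑ m ∈ Finset.Icc (-((D₂ * (D₁ * D₂ * N ^ 2) : ℕ) : ℤ)) (D₂ * (D₁ * D₂ * N ^ 2) : ℕ),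
      (if (D₁ : ℤ) * m ^ 2 ≤ (D₂ : ℤ) * ((D₁ * D₂ * N ^ 2 : ℕ) : ℤ) ∧
          (4 : ℤ) ∣ (D₂ : ℤ) * ((D₁ * D₂ * N ^ 2 : ℕ) : ℤ) - (D₁ : ℤ) * m ^ 2 then
        sig k D₁ D₂ (((D₂ : ℤ) * ((D₁ * D₂ * N ^ 2 : ℕ) : ℤ) - (D₁ : ℤ) * m ^ 2) / 4).toNat *
          Wp k e (((((D₂ : ℤ) * ((D₁ * D₂ * N ^ 2 : ℕ) : ℤ) - (D₁ : ℤ) * m ^ 2) / 4 : ℤ) : ℂ) /
            (D₁ : ℂ)) (m : ℂ) else 0) =
      ∑ m ∈ Finset.Icc (-((D₂ * (D₁ * D₂ * N ^ 2) : ℕ) : ℤ)) (D₂ * (D₁ * D₂ * N ^ 2) : ℕ),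
      (if m ^ 2 ≤ ((D₂ * N : ℕ) : ℤ) ^ 2 ∧ (4 : ℤ) ∣ ((D₂ * N : ℕ) : ℤ) ^ 2 - m ^ 2 then
        (fun m : ℤ => sig k D₁ D₂ (((D₂ : ℤ) * ((D₁ * D₂ * N ^ 2 : ℕ) : ℤ) -
            (D₁ : ℤ) * m ^ 2) / 4).toNat *
          Wp k e (((((D₂ : ℤ) * ((D₁ * D₂ * N ^ 2 : ℕ) : ℤ) - (D₁ : ℤ) * m ^ 2) / 4 : ℤ) : ℂ) /
            (D₁ : ℂ)) (m : ℂ)) m else 0) :=
    Finset.sum_congr rfl fun m _ => if_congr (hcond m) rfl rfl
  rw [h5, cS_G (D₂ * N) (D₂ * (D₁ * D₂ * N ^ 2)) hR, ← hc]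
  rw [show ch D₂ (-(D₁ : ℤ)) * ch D₂ (D₁ : ℤ) * ((D₂ : ℂ) ^ e)⁻¹ =
    ch D₂ (-(D₁ : ℤ)) * ((D₂ : ℂ) ^ e)⁻¹ * ch D₂ (D₁ : ℤ) by ring, mul_assoc _ (ch D₂ (D₁ : ℤ)),
    Finset.mul_sum (a := ch D₂ (D₁ : ℤ))]
  congr 1
  refine Finset.sum_congr rfl fun p hp => ?_
  rw [Finset.HasAntidiagonal.mem_antidiagonal] at hp
  have hp' : (D₂ : ℤ) * N = p.1 + p.2 := by exact_mod_cast hp.symm
  have hval : ((D₂ : ℤ) * ((D₁ * D₂ * N ^ 2 : ℕ) : ℤ) -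
      (D₁ : ℤ) * ((p.2 : ℤ) - (p.1 : ℤ)) ^ 2) / 4 = ((D₁ * (p.1 * p.2) : ℕ) : ℤ) := by
    have h3 : (D₂ : ℤ) * ((D₁ * D₂ * N ^ 2 : ℕ) : ℤ) - (D₁ : ℤ) * ((p.2 : ℤ) - (p.1 : ℤ)) ^ 2 =
        4 * ((D₁ * (p.1 * p.2) : ℕ) : ℤ) := by
      have h4 : (D₂ : ℤ) * ((D₁ * D₂ * N ^ 2 : ℕ) : ℤ) = (D₁ : ℤ) * ((D₂ : ℤ) * N) ^ 2 := by
        push_cast
        ring
      rw [h4, hp']
      push_cast
      ring
    rw [h3]
    exact Int.mul_ediv_cancel_left _ (by norm_num)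
  show sig k D₁ D₂ (((D₂ : ℤ) * ((D₁ * D₂ * N ^ 2 : ℕ) : ℤ) -
      (D₁ : ℤ) * ((p.2 : ℤ) - (p.1 : ℤ)) ^ 2) / 4).toNat *
    Wp k e (((((D₂ : ℤ) * ((D₁ * D₂ * N ^ 2 : ℕ) : ℤ) -
      (D₁ : ℤ) * ((p.2 : ℤ) - (p.1 : ℤ)) ^ 2) / 4 : ℤ) : ℂ) /
      (D₁ : ℂ)) ((((p.2 : ℤ) - (p.1 : ℤ) : ℤ)) : ℂ) = _
  rw [hval, Int.toNat_natCast, cS_sigD k D₁ D₂ _ hD0 hz h2, mul_assoc]
  congr 3
  · push_cast
    field_simp
  · push_cast
    ring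

theorem aCoeff_eq_Sh_sq (D k e n : ℕ) (hD : Odd D) (hs : Squarefree D) (hk : 3 ≤ k) (he : Even e)
    (he2 : 2 ≤ e) (hpar : jacobiSym (-1) D = (-1) ^ k) (hn : 1 ≤ n) :
    aCoeff D k e n = ((e + k - 1).choose e : ℂ) * Sh D (k + e) (cgG D k e) n := by
  have hn0 : 0 < n := hn
  have key : ∀ q ∈ D.divisorsAntidiagonal,
      ((jacobiSym (-1) q.2 : ℤ) : ℂ) * ((q.2 : ℂ) ^ e)⁻¹ *
        ∑ p ∈ Finset.HasAntidiagonal.antidiagonal (n * q.2),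
          sig k q.1 q.2 p.1 * sig k q.1 q.2 p.2 * (ce k e p.1 p.2 : ℂ) =
      ((e + k - 1).choose e : ℂ) * ∑ d ∈ n.divisors, ((jacobiSym (d : ℤ) D : ℤ) : ℂ) *
        (d : ℂ) ^ (k + e - 1) * cgP q.1 q.2 k e (D * (n / d) ^ 2) := by
    rintro ⟨D₁, D₂⟩ hq
    obtain ⟨hq1, hq2⟩ := Nat.mem_divisorsAntidiagonal.1 hq
    simp only at hq1 ⊢
    subst hq1
    have h1 : D₁ ≠ 0 := (Nat.mul_ne_zero_iff.1 hq2).1
    have h2 : D₂ ≠ 0 := (Nat.mul_ne_zero_iff.1 hq2).2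
    haveI : NeZero D₁ := ⟨h1⟩
    haveI : NeZero D₂ := ⟨h2⟩
    have hO1 : Odd D₁ := (Nat.odd_mul.1 hD).1
    have hcop : Nat.Coprime D₁ D₂ := (Nat.squarefree_mul_iff.1 hs).1
    have hz : 1 < D₂ → sig k D₁ D₂ 0 = 0 := fun h => by
      rw [sig, if_pos rfl, Lval_zero k D₁ D₂ hk h hpar, neg_zero]
    have h3 := cS_part k e (D₁ * D₂) (n * D₂) (by omega) (Nat.mul_pos hn0 (Nat.pos_of_ne_zero h2))
      (sig k D₁ D₂) (fun a b hab => cS_mul k D₁ D₂ a b (by omega) hab h1 h2 hz)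
    rw [cS_div (D₁ * D₂) D₂ n h2 (Dvd.intro_left _ rfl) hn0 _ (fun d hd => by
      rw [cS_ch0 (D₁ * D₂) d hq2 hd, zero_mul, zero_mul])] at h3
    rw [h3, Finset.mul_sum, Finset.mul_sum]
    refine Finset.sum_congr rfl fun d hd => ?_
    have hdn : d ∣ n := Nat.dvd_of_mem_divisors hd
    have e1 : n * D₂ / d = D₂ * (n / d) := by
      rw [mul_comm n D₂, Nat.mul_div_assoc _ hdn]
    rw [e1, cS_cgP k e D₁ D₂ (n / d) hO1 h2 hz hcop]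
    have hW : ∀ (s : ℕ → ℂ) (N : ℕ), ∑ q ∈ Finset.HasAntidiagonal.antidiagonal N,
        s (q.1 * q.2) * (ce k e q.1 q.2 : ℂ) = ((e + k - 1).choose e : ℂ) *
          ∑ p ∈ Finset.HasAntidiagonal.antidiagonal N,
            s (p.1 * p.2) * Wp k e ((p.1 : ℂ) * (p.2 : ℂ)) ((p.2 : ℂ) - (p.1 : ℂ)) := by
      intro s N
      rw [Finset.mul_sum]
      refine Finset.sum_congr rfl fun q _ => ?_
      rw [← Wp_eq_ce k e (by omega) q.1 q.2]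
      ring
    rw [hW]
    show _ * (ch (D₁ * D₂) (d : ℤ) * (d : ℂ) ^ (k + e - 1) * _) =
      _ * (ch (D₁ * D₂) (d : ℤ) * _ * _)
    ring
  rw [aCoeff, Finset.sum_congr rfl key, ← Finset.mul_sum, Sh, Finset.sum_comm]
  congr 1
  refine Finset.sum_congr rfl fun d _ => ?_
  rw [cgG, Finset.mul_sum]

end MP836e4b.P
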