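/-
MODULE Cont (size M), board mod836, MP_836e4b_nt, folder Work/MP_836e4b_nt/P. Keep the statements verbatim, helper lemmas private.
Consequences of HasE. Summability: HasSum in ℂ is absolute, at every τ and for both classes, and c is
supported on the two classes (cls κ 0 ≠ cls κ 1): ∑ |c(n)| exp(-π n Im τ/2) < ∞.
Continuity: uniform convergence on Im τ ≥ δ. Decay: c(0) = 0, so for Im τ ≥ 1/2
‖h τ r‖ ≤ ∑_{n≥1} |c(n)| e^{-πn/4} e^{-π(Im τ-1/2)/2}. Uniqueness: n-th coefficient =
(1/4)∫_0^4 h(x+iy)_r e(-n(x+iy)/4) dx. hasE_lin: linear combinations.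
-/
import Mathlib
import Pool.Agent.Work.MP_836e4b_nt.P.Defs
import Pool.Agent.Work.MP_836e4b_nt.P.Bas

open UpperHalfPlane Complex
open scoped MatrixGroups ComplexConjugate Matrix

namespace MP836e4b.P

private theorem norm_ee_n (n : ℕ) (τ : ℍ) :
    ‖ee ((n : ℂ) * (τ : ℂ) / 4)‖ = Real.exp (-(Real.pi * n * τ.im / 2)) := by
  rw [norm_ee]
  congr 1
  have h1 : ((n : ℂ) * (τ : ℂ) / 4).im = (n : ℝ) * τ.im / 4 := by
    have h2 : ((n : ℂ) * (τ : ℂ) / 4) = (((n : ℝ) / 4 : ℝ) : ℂ) * (τ : ℂ) := by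
      push_cast
      ring
    rw [h2, Complex.im_ofReal_mul, UpperHalfPlane.coe_im]
    ring
  rw [h1]
  ring

theorem hasE_summable (κ : ℕ) (c : ℕ → ℂ) (h : VF) (H : HasE κ c h) (y : ℝ) (hy : 0 < y) :
    Summable fun n : ℕ ↦ ‖c n‖ * Real.exp (-(Real.pi * n * y / 2)) := by
  set τ : ℍ := ⟨Complex.I * y, by simpa using hy⟩ with hτ
  have him : τ.im = y := by
    change (Complex.I * (y : ℂ)).im = y
    simp
  have h0 := (H.sum τ 0).summable.norm
  have h1 := (H.sum τ 1).summable.norm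
  refine Summable.of_nonneg_of_le (fun n ↦ by positivity) (fun n ↦ ?_) (h0.add h1)
  have key : ∀ r : Fin 2, n % 4 = cls κ r → ‖(if n % 4 = cls κ r then
      c n * ee ((n : ℂ) * (τ : ℂ) / 4) else 0)‖ = ‖c n‖ * Real.exp (-(Real.pi * n * y / 2)) := by
    intro r hr
    rw [if_pos hr, norm_mul, norm_ee_n, him]
  by_cases h0' : n % 4 = cls κ 0
  · rw [← key 0 h0']
    exact le_add_of_nonneg_right (norm_nonneg _)
  · by_cases h1' : n % 4 = cls κ 1
    · rw [← key 1 h1']
      exact le_add_of_nonneg_left (norm_nonneg _)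
    · rw [H.supp n h0' h1', norm_zero, zero_mul]
      positivity

private theorem term_le (κ : ℕ) (c : ℕ → ℂ) (r : Fin 2) (n : ℕ) (τ : ℍ) (δ : ℝ)
    (hδ : δ ≤ τ.im) :
    ‖(if n % 4 = cls κ r then c n * ee ((n : ℂ) * (τ : ℂ) / 4) else 0)‖ ≤
      ‖c n‖ * Real.exp (-(Real.pi * n * δ / 2)) := by
  split_ifs with h
  · rw [norm_mul, norm_ee_n]
    refine mul_le_mul_of_nonneg_left ?_ (norm_nonneg _)
    rw [Real.exp_le_exp]
    have : Real.pi * n * δ ≤ Real.pi * n * τ.im :=
      mul_le_mul_of_nonneg_left hδ (by positivity)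
    linarith
  · rw [norm_zero]
    positivity

theorem hasE_continuous (κ : ℕ) (c : ℕ → ℂ) (h : VF) (H : HasE κ c h) (r : Fin 2) :
    Continuous fun τ : ℍ ↦ h τ r := by
  have e1 : (fun τ : ℍ ↦ h τ r) = fun τ : ℍ ↦ ∑' n : ℕ,
      (if n % 4 = cls κ r then c n * ee ((n : ℂ) * (τ : ℂ) / 4) else 0) := by
    funext τ
    exact ((H.sum τ r).tsum_eq).symm
  rw [e1, continuous_iff_continuousAt]
  intro τ₀
  have hpos : 0 < τ₀.im / 2 := by
    have := τ₀.im_pos
    linarith
  have hopen : IsOpen {τ : ℍ | τ₀.im / 2 < τ.im} :=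
    isOpen_lt continuous_const UpperHalfPlane.continuous_im
  have hmem : τ₀ ∈ {τ : ℍ | τ₀.im / 2 < τ.im} := by
    change τ₀.im / 2 < τ₀.im
    have := τ₀.im_pos
    linarith
  refine ContinuousOn.continuousAt (s := {τ : ℍ | τ₀.im / 2 < τ.im}) ?_ (hopen.mem_nhds hmem)
  refine continuousOn_tsum (u := fun n : ℕ ↦ ‖c n‖ * Real.exp (-(Real.pi * n * (τ₀.im / 2) / 2)))
    ?_ (hasE_summable κ c h H _ hpos) ?_
  · intro n
    apply Continuous.continuousOn
    by_cases hn : n % 4 = cls κ r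
    · simp only [if_pos hn]
      have hc : Continuous fun τ : ℍ ↦ (n : ℂ) * (τ : ℂ) / 4 :=
        (continuous_const.mul UpperHalfPlane.continuous_coe).div_const 4
      unfold ee
      exact continuous_const.mul (Complex.continuous_exp.comp (continuous_const.mul hc))
    · simp only [if_neg hn]
      exact continuous_const
  · intro n τ hτ
    exact term_le κ c r n τ _ (le_of_lt hτ)

theorem hasE_decay (κ : ℕ) (c : ℕ → ℂ) (h : VF) (H : HasE κ c h) :
    ∃ C : ℝ, 0 < C ∧ ∀ τ : ℍ, 1 / 2 ≤ τ.im → ∀ r, ‖h τ r‖ ≤ C * Real.exp (-(Real.pi * τ.im / 2)) := by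
  have hs := hasE_summable κ c h H (1 / 2) (by norm_num)
  set S : ℝ := ∑' n : ℕ, ‖c n‖ * Real.exp (-(Real.pi * n * (1 / 2) / 2)) with hS
  have hS0 : 0 ≤ S := tsum_nonneg fun n ↦ by positivity
  refine ⟨S * Real.exp (Real.pi / 4) + 1, by positivity, ?_⟩
  intro τ hτ r
  have hb : ‖h τ r‖ ≤ S * Real.exp (-(Real.pi * (τ.im - 1 / 2) / 2)) := by
    refine HasSum.norm_le_of_bounded (H.sum τ r)
      (hs.hasSum.mul_right (Real.exp (-(Real.pi * (τ.im - 1 / 2) / 2)))) ?_
    intro n
    rcases Nat.eq_zero_or_pos n with h0 | h0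
    · subst h0
      rw [H.zero]
      simp
    · refine (term_le κ c r n τ τ.im le_rfl).trans ?_
      rw [mul_assoc ‖c n‖, ← Real.exp_add]
      refine mul_le_mul_of_nonneg_left ?_ (norm_nonneg _)
      rw [Real.exp_le_exp]
      have h1 : (1 : ℝ) ≤ n := by exact_mod_cast h0
      have h2 : Real.pi * (τ.im - 1 / 2) ≤ Real.pi * n * (τ.im - 1 / 2) := by
        have h3 : 0 ≤ Real.pi * (τ.im - 1 / 2) := mul_nonneg Real.pi_pos.le (by linarith)
        nlinarith
      linarith
  have he : Real.exp (-(Real.pi * (τ.im - 1 / 2) / 2)) =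
      Real.exp (Real.pi / 4) * Real.exp (-(Real.pi * τ.im / 2)) := by
    rw [← Real.exp_add]
    congr 1
    ring
  rw [he] at hb
  have hp : 0 < Real.exp (-(Real.pi * τ.im / 2)) := Real.exp_pos _
  nlinarith

/-- Uniqueness of the coefficients of an exponential series. -/
private theorem coeff_zero (a : ℕ → ℂ)
    (hs : Summable fun n : ℕ ↦ ‖a n‖ * Real.exp (-(Real.pi * n * 1 / 2)))
    (h : ∀ τ : ℍ, HasSum (fun n : ℕ ↦ a n * ee ((n : ℂ) * (τ : ℂ) / 4)) 0) :
    ∀ k, a k = 0 := by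
  intro k
  induction k using Nat.strong_induction_on with
  | _ k ih =>
    set S : ℝ := ∑' n : ℕ, ‖a n‖ * Real.exp (-(Real.pi * n * 1 / 2)) with hS
    have key : ∀ y : ℝ, 1 ≤ y →
        ‖a k‖ ≤ (S * Real.exp (Real.pi * (k + 1) / 2)) * Real.exp (-(Real.pi * y / 2)) := by
      intro y hy
      have hy0 : 0 < y := by linarith
      set τ : ℍ := ⟨Complex.I * y, by simpa using hy0⟩ with hτ
      have him : τ.im = y := by
        change (Complex.I * (y : ℂ)).im = y
        simp
      have h1 := (h τ).sub (hasSum_ite_eq k (a k * ee ((k : ℂ) * (τ : ℂ) / 4)))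
      have h2 : ‖(0 : ℂ) - a k * ee ((k : ℂ) * (τ : ℂ) / 4)‖ ≤
          S * Real.exp (-(Real.pi * (k + 1) * (y - 1) / 2)) := by
        refine HasSum.norm_le_of_bounded h1
          (hs.hasSum.mul_right (Real.exp (-(Real.pi * (k + 1) * (y - 1) / 2)))) ?_
        intro n
        rcases lt_trichotomy n k with hn | hn | hn
        · rw [ih n hn, if_neg hn.ne]
          simp
        · subst hn
          rw [if_pos rfl, sub_self, norm_zero]
          positivity
        · rw [if_neg hn.ne', sub_zero, norm_mul, norm_ee_n, him, mul_assoc ‖a n‖, ← Real.exp_add]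
          refine mul_le_mul_of_nonneg_left ?_ (norm_nonneg _)
          rw [Real.exp_le_exp]
          have h3 : ((k : ℝ) + 1) ≤ n := by exact_mod_cast hn
          have h4 : Real.pi * (k + 1) * (y - 1) ≤ Real.pi * n * (y - 1) := by
            refine mul_le_mul_of_nonneg_right ?_ (by linarith)
            exact mul_le_mul_of_nonneg_left h3 Real.pi_pos.le
          linarith
      rw [zero_sub, norm_neg, norm_mul, norm_ee_n, him] at h2
      have h5 : ‖a k‖ = (‖a k‖ * Real.exp (-(Real.pi * k * y / 2))) *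
          Real.exp (Real.pi * k * y / 2) := by
        rw [mul_assoc, ← Real.exp_add]
        simp
      rw [h5]
      have h6 : (S * Real.exp (Real.pi * (k + 1) / 2)) * Real.exp (-(Real.pi * y / 2)) =
          (S * Real.exp (-(Real.pi * (k + 1) * (y - 1) / 2))) *
            Real.exp (Real.pi * k * y / 2) := by
        rw [mul_assoc, mul_assoc, ← Real.exp_add, ← Real.exp_add]
        congr 2
        ring
      rw [h6]
      exact mul_le_mul_of_nonneg_right h2 (Real.exp_pos _).le
    have hlim : Filter.Tendsto (fun y : ℝ ↦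
        (S * Real.exp (Real.pi * (k + 1) / 2)) * Real.exp (-(Real.pi * y / 2))) Filter.atTop
        (nhds ((S * Real.exp (Real.pi * (k + 1) / 2)) * 0)) := by
      refine Filter.Tendsto.const_mul _ ?_
      refine Real.tendsto_exp_atBot.comp ?_
      refine Filter.tendsto_neg_atTop_atBot.comp ?_
      refine Filter.Tendsto.atTop_div_const (by norm_num) ?_
      exact Filter.Tendsto.const_mul_atTop Real.pi_pos Filter.tendsto_id
    rw [mul_zero] at hlim
    have hle : ‖a k‖ ≤ 0 := by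
      refine ge_of_tendsto hlim ?_
      filter_upwards [Filter.eventually_ge_atTop (1 : ℝ)] with y hy
      exact key y hy
    exact norm_le_zero_iff.mp hle

theorem hasE_unique (κ : ℕ) (c c' : ℕ → ℂ) (h : VF) (H : HasE κ c h) (H' : HasE κ c' h) :
    c = c' := by
  have key : ∀ r : Fin 2, ∀ n, n % 4 = cls κ r → c n = c' n := by
    intro r
    have hz := coeff_zero (fun n ↦ if n % 4 = cls κ r then c n - c' n else 0) ?_ ?_
    · intro n hn
      have h1 := hz n
      simp only [if_pos hn] at h1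
      exact sub_eq_zero.mp h1
    · refine Summable.of_nonneg_of_le (fun n ↦ by positivity) (fun n ↦ ?_)
        ((hasE_summable κ c h H 1 one_pos).add (hasE_summable κ c' h H' 1 one_pos))
      rw [← add_mul]
      refine mul_le_mul_of_nonneg_right ?_ (Real.exp_pos _).le
      split_ifs
      · exact norm_sub_le _ _
      · rw [norm_zero]
        positivity
    · intro τ
      have h1 := (H.sum τ r).sub (H'.sum τ r)
      rw [sub_self] at h1
      have e2 : (fun n : ℕ ↦ (if n % 4 = cls κ r then c n - c' n else 0) *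
          ee ((n : ℂ) * (τ : ℂ) / 4)) = fun n : ℕ ↦
          (if n % 4 = cls κ r then c n * ee ((n : ℂ) * (τ : ℂ) / 4) else 0) -
            (if n % 4 = cls κ r then c' n * ee ((n : ℂ) * (τ : ℂ) / 4) else 0) := by
        funext n
        split_ifs
        · ring
        · simp
      rw [e2]
      exact h1
  funext n
  by_cases h0 : n % 4 = cls κ 0
  · exact key 0 n h0
  · by_cases h1 : n % 4 = cls κ 1
    · exact key 1 n h1
    · rw [H.supp n h0 h1, H'.supp n h0 h1]

theorem hasE_ext (κ : ℕ) (c : ℕ → ℂ) (h h' : VF) (H : HasE κ c h) (H' : HasE κ c h') :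
    h = h' := by
  funext τ r
  exact (H.sum τ r).unique (H'.sum τ r)

theorem hasE_lin (κ : ℕ) (c c' : ℕ → ℂ) (h h' : VF) (a : ℂ) (H : HasE κ c h) (H' : HasE κ c' h') :
    HasE κ (fun n ↦ c n - a * c' n) (fun τ ↦ h τ - a • h' τ) := by
  refine ⟨?_, ?_, ?_⟩
  · simp only [H.zero, H'.zero, mul_zero, sub_zero]
  · intro n h0 h1
    simp only [H.supp n h0 h1, H'.supp n h0 h1, mul_zero, sub_zero]
  · intro τ r
    have h1 := (H.sum τ r).sub ((H'.sum τ r).mul_left a)
    have e1 : (h τ - a • h' τ) r = h τ r - a * h' τ r := rfl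
    rw [e1]
    have e2 : (fun n : ℕ ↦ if n % 4 = cls κ r then
        (c n - a * c' n) * ee ((n : ℂ) * (τ : ℂ) / 4) else 0) = fun n : ℕ ↦
        (if n % 4 = cls κ r then c n * ee ((n : ℂ) * (τ : ℂ) / 4) else 0) -
          a * (if n % 4 = cls κ r then c' n * ee ((n : ℂ) * (τ : ℂ) / 4) else 0) := by
      funext n
      split_ifs
      · ring
      · simp
    rw [e2]
    exact h1

theorem isP_lin (κ : ℕ) (c c' : ℕ → ℂ) (h h' : VF) (a : ℂ) (H : IsP κ c h) (H' : IsP κ c' h') :
    IsP κ (fun n ↦ c n - a * c' n) (fun τ ↦ h τ - a • h' τ) := by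
  refine ⟨hasE_lin κ c c' h h' a H.exp H'.exp, ?_⟩
  intro γ
  funext τ
  have h1 := congrFun (H.inv γ) τ
  have h2 := congrFun (H'.inv γ) τ
  unfold sl at h1 h2 ⊢
  rw [Matrix.mulVec_sub, Matrix.mulVec_smul, smul_sub, smul_comm, h1, h2]

end MP836e4b.P
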