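/-
MODULE CosB (size L), board mod836, MP_836e4b_nt, folder Work/MP_836e4b_nt/P. Keep the statements verbatim, helper lemmas private.
T commutes with the Poincare series. Let Ψ(δ) = sl κ p δ f τ r for integer δ of determinant p². By sl_left,
Ψ(T^n δ) = Ψ(δ) = Ψ(-δ). I = representatives β (IsRep p β, 1 + p + p² of them).
LHS = p^(2κ) ∑_β (1/2) ∑_v Ψ(γ_v β)  (sl κ p β is a finite combination of the values at mob β τ, so it
commutes with the sum, which converges absolutely by SeedSum at mob β τ; sl_left).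
RHS = p^(2κ) (1/2) ∑_v ∑_β Ψ(β γ_v)  (sl κ 1 γ_v is linear; sl_right).
Bijection between pairs (v,β), (v',β'), v, v' coprime pairs: γ_v β = T^n β' γ_{v'} for some n:
 given (v,β): δ = γ_v β has bottom row g v' with g > 0 and v' coprime; δ γ_{v'}⁻¹ is upper triangular with
 lower right entry g, upper left p²/g, and T^n brings the upper right entry into [0,g): β'.
 Conversely given (v',β'): β'γ_{v'} = γβ with γ in SL(2,Z), β in I (exists_rep), v = bottom row of γ, and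
 γ = T^n γ_v. Both maps are inverse to each other (rep_unique and uniqueness of the decomposition).
Since Ψ(T^n δ) = Ψ(δ) the two absolutely convergent sums agree (Equiv.tsum_eq / Summable reindexing over
{v // IsCoprime} × I).
-/
import Mathlib
import Pool.Agent.Work.MP_836e4b_nt.P.Defs
import Pool.Agent.Work.MP_836e4b_nt.P.MA4
import Pool.Agent.Work.MP_836e4b_nt.P.CosR
import Pool.Agent.Work.MP_836e4b_nt.P.SlG

open UpperHalfPlane Complex
open scoped MatrixGroups ComplexConjugate Matrix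

namespace MP836e4b.P

/-- Index type of the representatives. -/
private abbrev JJ (p : ℕ) := Unit ⊕ (Fin p ⊕ Fin (p ^ 2))

/-- The representatives. -/
private def rp (p : ℕ) : JJ p → Mat
  | .inl _ => !![(p : ℤ) ^ 2, 0; 0, 1]
  | .inr (.inl b) => !![(p : ℤ), ((b : ℕ) : ℤ); 0, (p : ℤ)]
  | .inr (.inr b) => !![1, ((b : ℕ) : ℤ); 0, (p : ℤ) ^ 2]

private theorem rp_isRep (p : ℕ) (j : JJ p) : IsRep p (rp p j) := by
  rcases j with _ | b | b
  · left; rfl
  · right; left; exact ⟨b, b.2, rfl⟩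
  · right; right; exact ⟨b, b.2, rfl⟩

private theorem rp_surj (p : ℕ) (β : Mat) (h : IsRep p β) : ∃ j, rp p j = β := by
  rcases h with h | ⟨b, hb, h⟩ | ⟨b, hb, h⟩
  · exact ⟨.inl (), h.symm⟩
  · exact ⟨.inr (.inl ⟨b, hb⟩), h.symm⟩
  · exact ⟨.inr (.inr ⟨b, hb⟩), h.symm⟩

private theorem rp_inj (p : ℕ) (hp : p.Prime) : Function.Injective (rp p) := by
  have h1 : (1 : ℤ) < (p : ℤ) := by exact_mod_cast hp.one_lt
  have h2 : (p : ℤ) < (p : ℤ) ^ 2 := by nlinarith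
  intro i j hij
  have e00 := congrFun (congrFun hij 0) 0
  have e01 := congrFun (congrFun hij 0) 1
  rcases i with a | a | a <;> rcases j with b | b | b
  · rfl
  · simp [rp] at e00; omega
  · simp [rp] at e00; omega
  · simp [rp] at e00; omega
  · simp [rp] at e01
    have : a = b := Fin.ext e01
    rw [this]
  · simp [rp] at e00; omega
  · simp [rp] at e00; omega
  · simp [rp] at e00; omega
  · simp [rp] at e01
    have : a = b := Fin.ext e01
    rw [this]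

private theorem T_eq (κ p : ℕ) (h : VF) (τ : ℍ) (r : Fin 2) :
    T κ p h τ r = (p : ℂ) ^ (2 * κ) * ∑ j : JJ p, sl κ p (rp p j) h τ r := by
  simp only [T, Fintype.sum_sum_type, Finset.sum_range, rp, Pi.smul_apply, Pi.add_apply,
    Finset.sum_apply, smul_eq_mul, Finset.univ_unique, Finset.sum_singleton]
  rw [add_assoc]

private theorem sl_eq (κ p : ℕ) (A : Mat) (h : VF) (τ : ℍ) (r : Fin 2) :
    sl κ p A h τ r = ((jf A τ) ^ κ)⁻¹ * ∑ s, E κ p A τ r s * h (mob A τ) s := by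
  simp only [sl, Pi.smul_apply, smul_eq_mul, Matrix.mulVec, dotProduct]

private abbrev CC := {v : ℤ × ℤ // IsCoprime v.1 v.2}

private theorem Pser_eq (κ : ℕ) (f : VF) (τ : ℍ) (r : Fin 2) :
    Pser κ f τ r = (1 / 2 : ℂ) * ∑' v : CC, sl κ 1 (gam v.1.1 v.1.2 : Mat) f τ r := by
  have h := tsum_subtype {v : ℤ × ℤ | IsCoprime v.1 v.2}
    (fun v ↦ sl κ 1 (gam v.1 v.2 : Mat) f τ r)
  have h' : (∑' v : CC, sl κ 1 (gam v.1.1 v.1.2 : Mat) f τ r) =
      ∑' v : ℤ × ℤ, ({v : ℤ × ℤ | IsCoprime v.1 v.2}).indicator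
        (fun v ↦ sl κ 1 (gam v.1 v.2 : Mat) f τ r) v := h
  rw [h', Pser]
  congr 1
  refine tsum_congr fun v ↦ ?_
  by_cases hv : IsCoprime v.1 v.2
  · rw [if_pos hv, Set.indicator_of_mem (show v ∈ {v : ℤ × ℤ | IsCoprime v.1 v.2} from hv)]
  · rw [if_neg hv, Set.indicator_of_notMem (show v ∉ {v : ℤ × ℤ | IsCoprime v.1 v.2} from hv)]

private theorem sl_tsum (κ p : ℕ) (A : Mat) (τ : ℍ) (r : Fin 2) (g : CC → VF)
    (hg : ∀ s, Summable fun v ↦ g v (mob A τ) s) (c : ℂ) (h : VF)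
    (hh : ∀ s, h (mob A τ) s = c * ∑' v, g v (mob A τ) s) :
    sl κ p A h τ r = c * ∑' v, sl κ p A (g v) τ r ∧ Summable fun v ↦ sl κ p A (g v) τ r := by
  have hs : ∀ s, Summable fun v ↦ E κ p A τ r s * g v (mob A τ) s := fun s ↦ (hg s).mul_left _
  constructor
  · simp_rw [sl_eq κ p A]
    rw [tsum_mul_left, Summable.tsum_finsetSum (fun s _ ↦ hs s)]
    simp_rw [hh, tsum_mul_left]
    rw [mul_left_comm]
    congr 1
    rw [Finset.mul_sum]
    exact Finset.sum_congr rfl fun s _ ↦ by ring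
  · simp_rw [sl_eq κ p A]
    exact (summable_sum fun s _ ↦ hs s).mul_left _

private theorem det_gam_mul (γ : SL(2, ℤ)) (A : Mat) : ((γ : Mat) * A).det = A.det := by
  rw [Matrix.det_mul, γ.det_coe, one_mul]

private theorem det_mul_gam (γ : SL(2, ℤ)) (A : Mat) : (A * (γ : Mat)).det = A.det := by
  rw [Matrix.det_mul, γ.det_coe, mul_one]

/-- The translation as an element of the modular group. -/
private def tr (n : ℤ) : SL(2, ℤ) := ⟨mT n, by simp [mT, Matrix.det_fin_two]⟩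

private theorem coe_tr (n : ℤ) : ((tr n : SL(2, ℤ)) : Mat) = mT n := rfl

private theorem mul_entry (A B : Mat) (i j : Fin 2) :
    (A * B) i j = A i 0 * B 0 j + A i 1 * B 1 j := by
  simp [Matrix.mul_apply, Fin.sum_univ_two]

private theorem sl_tr (κ p : ℕ) (hp : p.Prime) (f : VF) (hi : SeedInv κ f) (n : ℤ) (A : Mat)
    (hA : A.det = (p : ℤ) ^ 2) : sl κ p (mT n * A) f = sl κ p A f := by
  have h := sl_left κ p hp (tr n) A hA f
  rw [coe_tr, sl_Tn κ f hi.t n] at h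
  exact h.symm

/-- An element of the modular group with bottom row `(0, 1)` is a translation. -/
private theorem eq_tr (γ : SL(2, ℤ)) (h0 : (γ : Mat) 1 0 = 0) (h1 : (γ : Mat) 1 1 = 1) :
    γ = tr ((γ : Mat) 0 1) := by
  have hdet := γ.det_coe
  rw [Matrix.det_fin_two, h0, h1] at hdet
  apply Subtype.ext
  show (γ : Mat) = mT _
  ext i j
  fin_cases i <;> fin_cases j
  · simp [mT]; linarith
  · simp [mT]
  · simpa [mT] using h0
  · simpa [mT] using h1

/-- Two elements with the same bottom row differ by a translation. -/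
private theorem same_bottom (γ γ' : SL(2, ℤ)) (h0 : (γ : Mat) 1 0 = (γ' : Mat) 1 0)
    (h1 : (γ : Mat) 1 1 = (γ' : Mat) 1 1) : ∃ n, γ = tr n * γ' := by
  have hdet := γ'.det_coe
  rw [Matrix.det_fin_two] at hdet
  refine ⟨((γ * γ'⁻¹ : SL(2, ℤ)) : Mat) 0 1, ?_⟩
  have : γ * γ'⁻¹ = tr (((γ * γ'⁻¹ : SL(2, ℤ)) : Mat) 0 1) := by
    refine eq_tr _ ?_ ?_
    · rw [Matrix.SpecialLinearGroup.coe_mul, mul_entry, Matrix.SpecialLinearGroup.coe_inv,
        Matrix.adjugate_fin_two]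
      simp
      rw [h0, h1]; ring
    · rw [Matrix.SpecialLinearGroup.coe_mul, mul_entry, Matrix.SpecialLinearGroup.coe_inv,
        Matrix.adjugate_fin_two]
      simp
      rw [h0, h1]; linarith
  rw [← this]
  group

private theorem rp_shape (p : ℕ) (hp : p.Prime) (j : JJ p) :
    rp p j 1 0 = 0 ∧ 0 < rp p j 0 0 ∧ 0 < rp p j 1 1 := by
  have hpz : (0 : ℤ) < (p : ℤ) := by exact_mod_cast hp.pos
  rcases j with _ | b | b
  · refine ⟨by simp [rp], ?_, by simp [rp]⟩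
    simp [rp]; positivity
  · refine ⟨by simp [rp], ?_, ?_⟩ <;> simpa [rp] using hp.pos
  · refine ⟨by simp [rp], by simp [rp], ?_⟩
    simp [rp]; positivity

/-- The gam matrix of a coprime pair. -/
private noncomputable def gm (v : CC) : SL(2, ℤ) := gam v.1.1 v.1.2

private theorem gm_bot (v : CC) : ((gm v : SL(2, ℤ)) : Mat) 1 0 = v.1.1 ∧
    ((gm v : SL(2, ℤ)) : Mat) 1 1 = v.1.2 := gam_spec _ _ v.2

/-- Bottom row of an element of the modular group. -/
private theorem bot_coprime (γ : SL(2, ℤ)) : IsCoprime ((γ : Mat) 1 0) ((γ : Mat) 1 1) := by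
  have hdet := γ.det_coe
  rw [Matrix.det_fin_two] at hdet
  exact ⟨-((γ : Mat) 0 1), (γ : Mat) 0 0, by linarith⟩

/-- The relation. -/
private def Rel (p : ℕ) (x y : JJ p × CC) : Prop :=
  ∃ n : ℤ, ((gm x.2 : SL(2, ℤ)) : Mat) * rp p x.1 = mT n * (rp p y.1 * ((gm y.2 : SL(2, ℤ)) : Mat))

private theorem rel_left_exists (p : ℕ) (hp : p.Prime) (x : JJ p × CC) : ∃ y, Rel p x y := by
  obtain ⟨j, v⟩ := x
  have hδ : (((gm v : SL(2, ℤ)) : Mat) * rp p j).det = (p : ℤ) ^ 2 := by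
    rw [det_gam_mul]; exact isRep_det (rp_isRep p j)
  obtain ⟨δ, hδe⟩ : ∃ δ, δ = ((gm v : SL(2, ℤ)) : Mat) * rp p j := ⟨_, rfl⟩
  rw [← hδe] at hδ
  have hp2 : (0 : ℤ) < (p : ℤ) ^ 2 := by
    have : (0 : ℤ) < (p : ℤ) := by exact_mod_cast hp.pos
    positivity
  have hdet := hδ
  rw [Matrix.det_fin_two] at hdet
  have hg0 : Int.gcd (δ 1 0) (δ 1 1) ≠ 0 := by
    intro h0
    rw [Int.gcd_eq_zero_iff] at h0
    rw [h0.1, h0.2] at hdet
    simp at hdet
    exact hp2.ne hdet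
  have hgpos : 0 < Int.gcd (δ 1 0) (δ 1 1) := Nat.pos_of_ne_zero hg0
  obtain ⟨g, c', d', hg, hcop, hc, hd⟩ : ∃ (g : ℤ) (c' d' : ℤ), 0 < g ∧ IsCoprime c' d' ∧
      δ 1 0 = c' * g ∧ δ 1 1 = d' * g := by
    obtain ⟨c', d', h1, h2, h3⟩ := Int.exists_gcd_one hgpos
    exact ⟨_, c', d', by exact_mod_cast hgpos, Int.isCoprime_iff_gcd_eq_one.mpr h1, h2, h3⟩
  let w : CC := ⟨(c', d'), hcop⟩
  obtain ⟨hw0, hw1⟩ := gm_bot w
  have hw0 : ((gm w : SL(2, ℤ)) : Mat) 1 0 = c' := hw0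
  have hw1 : ((gm w : SL(2, ℤ)) : Mat) 1 1 = d' := hw1
  have hdw := (gm w).det_coe
  rw [Matrix.det_fin_two, hw0, hw1] at hdw
  obtain ⟨γ, β, hβ, hA⟩ := exists_rep p hp (δ * (((gm w)⁻¹ : SL(2, ℤ)) : Mat))
    (by rw [det_mul_gam]; exact hδ)
  obtain ⟨i, rfl⟩ := rp_surj p β hβ
  obtain ⟨hi0, hi1, hi2⟩ := rp_shape p hp i
  have e10 : (δ * (((gm w)⁻¹ : SL(2, ℤ)) : Mat)) 1 0 = 0 := by
    rw [mul_entry, Matrix.SpecialLinearGroup.coe_inv, Matrix.adjugate_fin_two]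
    simp
    rw [hc, hd, hw0, hw1]; ring
  have e11 : (δ * (((gm w)⁻¹ : SL(2, ℤ)) : Mat)) 1 1 = g := by
    rw [mul_entry, Matrix.SpecialLinearGroup.coe_inv, Matrix.adjugate_fin_two]
    simp
    rw [hc, hd]; linear_combination g * hdw
  rw [hA, mul_entry, hi0, mul_zero, add_zero] at e10
  have hγ0 : (γ : Mat) 1 0 = 0 := by
    rcases mul_eq_zero.mp e10 with h | h
    · exact h
    · omega
  rw [hA, mul_entry, hγ0, zero_mul, zero_add] at e11
  have hγd := γ.det_coe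
  rw [Matrix.det_fin_two, hγ0, mul_zero, sub_zero] at hγd
  have hγ1 : (γ : Mat) 1 1 = 1 := by
    rcases Int.isUnit_iff.mp (IsUnit.of_mul_eq_one_right _ hγd) with h | h
    · exact h
    · rw [h] at e11; omega
  have hγt := eq_tr γ hγ0 hγ1
  refine ⟨(i, w), (γ : Mat) 0 1, ?_⟩
  show ((gm v : SL(2, ℤ)) : Mat) * rp p j = mT ((γ : Mat) 0 1) * (rp p i * ((gm w : SL(2, ℤ)) : Mat))
  rw [← hδe, ← Matrix.mul_assoc, ← coe_tr, ← hγt, ← hA, Matrix.mul_assoc,
    ← Matrix.SpecialLinearGroup.coe_mul, inv_mul_cancel, Matrix.SpecialLinearGroup.coe_one,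
    Matrix.mul_one]

private theorem mT_entries (n : ℤ) (B : Mat) : (mT n * B) 1 0 = B 1 0 ∧ (mT n * B) 1 1 = B 1 1 := by
  constructor <;> rw [mul_entry] <;> simp [mT]

private theorem coprime_scale {g g' c d c' d' : ℤ} (hg : 0 < g) (hg' : 0 < g')
    (h : IsCoprime c d) (h' : IsCoprime c' d') (e0 : g * c = g' * c') (e1 : g * d = g' * d') :
    g = g' ∧ c = c' ∧ d = d' := by
  have hgg : g = g' := by
    have h1 : Int.gcd (g * c) (g * d) = g.natAbs := by
      rw [Int.gcd_mul_left, Int.isCoprime_iff_gcd_eq_one.mp h, mul_one]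
    have h2 : Int.gcd (g' * c') (g' * d') = g'.natAbs := by
      rw [Int.gcd_mul_left, Int.isCoprime_iff_gcd_eq_one.mp h', mul_one]
    rw [e0, e1, h2] at h1
    omega
  subst hgg
  exact ⟨rfl, mul_left_cancel₀ hg.ne' e0, mul_left_cancel₀ hg.ne' e1⟩

private theorem mT_cancel (n : ℤ) (A B : Mat) (h : A = mT n * B) : mT (-n) * A = B := by
  rw [h, ← Matrix.mul_assoc]
  have : mT (-n) * mT n = 1 := by
    ext i j
    fin_cases i <;> fin_cases j <;> simp [mT, Matrix.mul_apply, Fin.sum_univ_two]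
  rw [this, Matrix.one_mul]

private theorem rel_left_unique (p : ℕ) (hp : p.Prime) (x y z : JJ p × CC) (hy : Rel p x y)
    (hz : Rel p x z) : y = z := by
  obtain ⟨n, hn⟩ := hy
  obtain ⟨m, hm⟩ := hz
  obtain ⟨i, v⟩ := y
  obtain ⟨j, w⟩ := z
  have he : mT n * (rp p i * ((gm v : SL(2, ℤ)) : Mat)) = mT m * (rp p j * ((gm w : SL(2, ℤ)) : Mat)) := by
    rw [← hn, hm]
  obtain ⟨hv0, hv1⟩ := gm_bot v
  obtain ⟨hw0, hw1⟩ := gm_bot w
  obtain ⟨hi0, hi1, hi2⟩ := rp_shape p hp i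
  obtain ⟨hj0, hj1, hj2⟩ := rp_shape p hp j
  have e0 := congrFun (congrFun he 1) 0
  have e1 := congrFun (congrFun he 1) 1
  rw [(mT_entries _ _).1, (mT_entries _ _).1, mul_entry, mul_entry, hi0, hj0, hv0, hw0] at e0
  rw [(mT_entries _ _).2, (mT_entries _ _).2, mul_entry, mul_entry, hi0, hj0, hv1, hw1] at e1
  simp only [zero_mul, zero_add] at e0 e1
  obtain ⟨-, hc, hd⟩ := coprime_scale hi2 hj2 v.2 w.2 e0 e1
  have hvw : v = w := Subtype.ext (Prod.ext hc hd)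
  subst hvw
  have h2 : (tr n : Mat) * rp p i = (tr m : Mat) * rp p j := by
    have := congrArg (fun B : Mat ↦ B * (((gm v)⁻¹ : SL(2, ℤ)) : Mat)) he
    simp only [Matrix.mul_assoc] at this
    rw [← Matrix.SpecialLinearGroup.coe_mul, mul_inv_cancel, Matrix.SpecialLinearGroup.coe_one,
      Matrix.mul_one, Matrix.mul_one] at this
    exact this
  have h3 := (rep_unique p hp _ _ _ _ (rp_isRep p i) (rp_isRep p j) h2).2
  rw [rp_inj p hp h3]

private theorem rel_right_exists (p : ℕ) (hp : p.Prime) (y : JJ p × CC) : ∃ x, Rel p x y := by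
  obtain ⟨j, v⟩ := y
  obtain ⟨γ, β, hβ, hA⟩ := exists_rep p hp (rp p j * ((gm v : SL(2, ℤ)) : Mat))
    (by rw [det_mul_gam]; exact isRep_det (rp_isRep p j))
  obtain ⟨i, rfl⟩ := rp_surj p β hβ
  let w : CC := ⟨((γ : Mat) 1 0, (γ : Mat) 1 1), bot_coprime γ⟩
  obtain ⟨hw0, hw1⟩ := gm_bot w
  obtain ⟨n, hn⟩ := same_bottom (gm w) γ hw0 hw1
  refine ⟨(i, w), n, ?_⟩
  show ((gm w : SL(2, ℤ)) : Mat) * rp p i = mT n * (rp p j * ((gm v : SL(2, ℤ)) : Mat))
  rw [hA, hn, Matrix.SpecialLinearGroup.coe_mul, Matrix.mul_assoc, coe_tr]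

private theorem rel_right_unique (p : ℕ) (hp : p.Prime) (x z y : JJ p × CC) (hx : Rel p x y)
    (hz : Rel p z y) : x = z := by
  obtain ⟨n, hn⟩ := hx
  obtain ⟨m, hm⟩ := hz
  have h1 := mT_cancel _ _ _ hn
  have h2 := mT_cancel _ _ _ hm
  have he : ((tr (-n) * gm x.2 : SL(2, ℤ)) : Mat) * rp p x.1 =
      ((tr (-m) * gm z.2 : SL(2, ℤ)) : Mat) * rp p z.1 := by
    rw [Matrix.SpecialLinearGroup.coe_mul, Matrix.SpecialLinearGroup.coe_mul, Matrix.mul_assoc,
      Matrix.mul_assoc, coe_tr, coe_tr, h1, h2]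
  obtain ⟨h3, h4⟩ := rep_unique p hp _ _ _ _ (rp_isRep p x.1) (rp_isRep p z.1) he
  have h5 : x.1 = z.1 := rp_inj p hp h4
  have h6 : x.2 = z.2 := by
    have h7 : ((tr (-n) * gm x.2 : SL(2, ℤ)) : Mat) = ((tr (-m) * gm z.2 : SL(2, ℤ)) : Mat) := by
      rw [h3]
    rw [Matrix.SpecialLinearGroup.coe_mul, Matrix.SpecialLinearGroup.coe_mul, coe_tr, coe_tr] at h7
    have e0 := congrFun (congrFun h7 1) 0
    have e1 := congrFun (congrFun h7 1) 1
    rw [(mT_entries _ _).1, (mT_entries _ _).1, (gm_bot _).1, (gm_bot _).1] at e0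
    rw [(mT_entries _ _).2, (mT_entries _ _).2, (gm_bot _).2, (gm_bot _).2] at e1
    exact Subtype.ext (Prod.ext e0 e1)
  exact Prod.ext h5 h6

private theorem exists_equiv (p : ℕ) (hp : p.Prime) :
    ∃ e : (JJ p × CC) ≃ (JJ p × CC), ∀ x, Rel p x (e x) := by
  choose e he using rel_left_exists p hp
  refine ⟨Equiv.ofBijective e ⟨?_, ?_⟩, he⟩
  · intro x z hxz
    refine rel_right_unique p hp x z (e x) (he x) ?_
    rw [hxz]; exact he z
  · intro y
    obtain ⟨x, hx⟩ := rel_right_exists p hp y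
    exact ⟨x, rel_left_unique p hp x _ _ (he x) hx⟩

theorem T_Pser (κ p : ℕ) (hp : p.Prime) (f : VF) (hi : SeedInv κ f) (hS : SeedSum κ f) :
    T κ p (Pser κ f) = Pser κ (T κ p f) := by
  funext τ r
  obtain ⟨e, he⟩ := exists_equiv p hp
  let Ψ : Mat → ℂ := fun A ↦ sl κ p A f τ r
  let F : JJ p × CC → ℂ := fun x ↦ Ψ (((gm x.2 : SL(2, ℤ)) : Mat) * rp p x.1)
  let G : JJ p × CC → ℂ := fun x ↦ Ψ (rp p x.1 * ((gm x.2 : SL(2, ℤ)) : Mat))
  have hFG : ∀ x, F x = G (e x) := by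
    intro x
    obtain ⟨n, hn⟩ := he x
    show sl κ p _ f τ r = sl κ p _ f τ r
    rw [hn, sl_tr κ p hp f hi n _ (by rw [det_mul_gam]; exact isRep_det (rp_isRep p _))]
  -- left side
  have hL : ∀ j : JJ p, sl κ p (rp p j) (Pser κ f) τ r = (1 / 2 : ℂ) * ∑' v, F (j, v) ∧
      Summable fun v ↦ F (j, v) := by
    intro j
    have h := sl_tsum κ p (rp p j) τ r (fun v : CC ↦ sl κ 1 ((gm v : SL(2, ℤ)) : Mat) f)
      (fun s ↦ hS _ s) (1 / 2) (Pser κ f) (fun s ↦ Pser_eq κ f _ s)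
    have h2 : ∀ v : CC, sl κ p (rp p j) (sl κ 1 ((gm v : SL(2, ℤ)) : Mat) f) τ r = F (j, v) := by
      intro v
      rw [sl_left κ p hp (gm v) (rp p j) (isRep_det (rp_isRep p j)) f]
    simp only [h2] at h
    exact h
  have hFs : Summable F := by
    refine Summable.of_norm ?_
    rw [summable_prod_of_nonneg (fun _ ↦ norm_nonneg _)]
    exact ⟨fun j ↦ (hL j).2.norm, (hasSum_fintype _).summable⟩
  have hGs : Summable G := by
    rw [← e.summable_iff]
    exact hFs.congr fun x ↦ hFG x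
  have hGj : ∀ j, Summable fun v ↦ G (j, v) := fun j ↦ hGs.prod_factor j
  have hsum : ∑ j : JJ p, ∑' v, F (j, v) = ∑ j : JJ p, ∑' v, G (j, v) := by
    have h1 : ∑' x, F x = ∑' x, G x := by
      rw [← e.tsum_eq G]
      exact tsum_congr hFG
    rw [hFs.tsum_prod, hGs.tsum_prod, tsum_fintype, tsum_fintype] at h1
    exact h1
  have hR : ∀ v : CC, sl κ 1 ((gm v : SL(2, ℤ)) : Mat) (T κ p f) τ r =
      (p : ℂ) ^ (2 * κ) * ∑ j : JJ p, G (j, v) := by
    intro v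
    have h2 : ∀ j : JJ p, G (j, v) = sl κ 1 ((gm v : SL(2, ℤ)) : Mat) (sl κ p (rp p j) f) τ r := by
      intro j
      rw [sl_right κ p hp (gm v) (rp p j) (isRep_det (rp_isRep p j)) f]
    simp_rw [h2, sl_eq κ 1 ((gm v : SL(2, ℤ)) : Mat), T_eq]
    rw [← Finset.mul_sum, Finset.sum_comm]
    simp_rw [← Finset.mul_sum]
    rw [mul_left_comm]
    congr 1
    rw [Finset.mul_sum]
    exact Finset.sum_congr rfl fun s _ ↦ by ring
  rw [T_eq, Pser_eq]
  have hR' : ∀ v : CC, sl κ 1 ((gam v.1.1 v.1.2 : SL(2, ℤ)) : Mat) (T κ p f) τ r =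
      (p : ℂ) ^ (2 * κ) * ∑ j : JJ p, G (j, v) := hR
  simp_rw [hR', fun j ↦ (hL j).1]
  rw [tsum_mul_left, Summable.tsum_finsetSum (fun j _ ↦ hGj j), ← hsum, ← Finset.mul_sum]
  ring

end MP836e4b.P
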