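/-
MODULE Sup (size M), board mod836, MP_836e4b_nt, folder Work/MP_836e4b_nt/P. Keep the statements verbatim, helper lemmas private.
The function (Im τ)^(κ/2+1/4) |h(τ)| is bounded: it is SL(2,Z)-invariant (sl_norm, inv; mob γ τ = γ • τ), so it
suffices to bound it on the standard domain (ModularGroup.exists_smul_mem_fd; there Im ≥ √3/2 ≥ 1/2), where
hasE_decay applies. Coefficient bound: c(n) = (1/4)∫_0^4 h_r(x+iy) e(-n(x+iy)/4) dx, so
|c(n)| ≤ C y^{-(κ/2+1/4)} e^{πny/2}; take y = 1/n. (For n not in a class c(n) = 0.)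
-/
import Mathlib
import Pool.Agent.Work.MP_836e4b_nt.P.Defs
import Pool.Agent.Work.MP_836e4b_nt.P.Cont
import Pool.Agent.Work.MP_836e4b_nt.P.MA2

open UpperHalfPlane Complex
open scoped MatrixGroups ComplexConjugate Matrix

namespace MP836e4b.P

private theorem sup_rpow_exp (κ : ℕ) (y : ℝ) (hy : 0 < y) :
    y ^ ((κ : ℝ) + 1 / 2) ≤ ((κ + 1).factorial : ℝ) * Real.exp y := by
  have hf : (1 : ℝ) ≤ ((κ + 1).factorial : ℝ) := by exact_mod_cast Nat.factorial_pos (κ + 1)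
  have he : (1 : ℝ) ≤ Real.exp y := Real.one_le_exp hy.le
  rcases le_or_gt y 1 with h | h
  · have h1 : y ^ ((κ : ℝ) + 1 / 2) ≤ 1 := Real.rpow_le_one hy.le h (by positivity)
    nlinarith
  · have h1 : y ^ ((κ : ℝ) + 1 / 2) ≤ y ^ (((κ + 1 : ℕ) : ℝ)) :=
      Real.rpow_le_rpow_of_exponent_le h.le (by push_cast; linarith)
    rw [Real.rpow_natCast] at h1
    have h2 := Real.pow_div_factorial_le_exp y hy.le (κ + 1)
    rw [div_le_iff₀ (by linarith)] at h2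
    calc y ^ ((κ : ℝ) + 1 / 2) ≤ y ^ (κ + 1) := h1
      _ ≤ Real.exp y * ((κ + 1).factorial : ℝ) := h2
      _ = _ := mul_comm _ _

theorem isP_sup (κ : ℕ) (c : ℕ → ℂ) (h : VF) (H : IsP κ c h) :
    ∃ C : ℝ, 0 < C ∧ ∀ (τ : ℍ) (r : Fin 2),
      ‖h τ r‖ ≤ C * τ.im ^ (-((2 * (κ : ℝ) + 1) / 4)) := by
  obtain ⟨C, hC, hdec⟩ := hasE_decay κ c h H.exp
  set K : ℝ := 2 * C ^ 2 * ((κ + 1).factorial : ℝ) with hK
  have hf : (0 : ℝ) < ((κ + 1).factorial : ℝ) := by exact_mod_cast Nat.factorial_pos (κ + 1)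
  have hKpos : 0 < K := by positivity
  refine ⟨Real.sqrt K, Real.sqrt_pos.mpr hKpos, ?_⟩
  intro τ r
  obtain ⟨γ, hγ⟩ := ModularGroup.exists_smul_mem_fd τ
  set w : ℍ := mob (γ : Mat) τ with hw
  have hwfd : w ∈ ModularGroup.fd := by rw [hw, mob_sl]; exact hγ
  have h3 := ModularGroup.three_le_four_mul_im_sq_of_mem_fd hwfd
  have hwim : 0 < w.im := w.im_pos
  have hhalf : 1 / 2 ≤ w.im := by nlinarith
  have h1 := sl_norm κ γ h τ
  rw [H.inv γ, ← hw] at h1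
  have h2 : (∑ s : Fin 2, ‖h w s‖ ^ 2) * w.im ^ ((κ : ℝ) + 1 / 2) ≤ K := by
    have h4 : ∀ s : Fin 2, ‖h w s‖ ^ 2 ≤ C ^ 2 * Real.exp (-(Real.pi * w.im)) := by
      intro s
      have h5 := hdec w hhalf s
      have h6 : (C * Real.exp (-(Real.pi * w.im / 2))) ^ 2 = C ^ 2 * Real.exp (-(Real.pi * w.im)) := by
        rw [mul_pow, ← Real.exp_nat_mul]
        congr 2
        push_cast
        ring
      rw [← h6]
      exact pow_le_pow_left₀ (norm_nonneg _) h5 2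
    have h7 : (∑ s : Fin 2, ‖h w s‖ ^ 2) ≤ 2 * C ^ 2 * Real.exp (-(Real.pi * w.im)) := by
      rw [Fin.sum_univ_two]
      have ha := h4 0
      have hb := h4 1
      linarith
    have h8 := sup_rpow_exp κ w.im hwim
    have h9 : Real.exp (-(Real.pi * w.im)) * Real.exp w.im ≤ 1 := by
      rw [← Real.exp_add]
      apply Real.exp_le_one_iff.mpr
      have := Real.pi_gt_three
      nlinarith
    have hrp : 0 ≤ w.im ^ ((κ : ℝ) + 1 / 2) := Real.rpow_nonneg hwim.le _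
    have hexp : 0 < Real.exp (-(Real.pi * w.im)) := Real.exp_pos _
    calc (∑ s : Fin 2, ‖h w s‖ ^ 2) * w.im ^ ((κ : ℝ) + 1 / 2)
        ≤ (2 * C ^ 2 * Real.exp (-(Real.pi * w.im))) * (((κ + 1).factorial : ℝ) * Real.exp w.im) :=
          mul_le_mul h7 h8 hrp (by positivity)
      _ = K * (Real.exp (-(Real.pi * w.im)) * Real.exp w.im) := by rw [hK]; ring
      _ ≤ K * 1 := mul_le_mul_of_nonneg_left h9 hKpos.le
      _ = K := mul_one K
  have hy : 0 < τ.im := τ.im_pos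
  have hyk : 0 < τ.im ^ ((κ : ℝ) + 1 / 2) := Real.rpow_pos_of_pos hy _
  have h5 : ‖h τ r‖ ^ 2 * τ.im ^ ((κ : ℝ) + 1 / 2) ≤ K := by
    have h6 : ‖h τ r‖ ^ 2 ≤ ∑ s : Fin 2, ‖h τ s‖ ^ 2 :=
      Finset.single_le_sum (f := fun s ↦ ‖h τ s‖ ^ 2) (fun s _ ↦ sq_nonneg _) (Finset.mem_univ r)
    calc ‖h τ r‖ ^ 2 * τ.im ^ ((κ : ℝ) + 1 / 2)
        ≤ (∑ s : Fin 2, ‖h τ s‖ ^ 2) * τ.im ^ ((κ : ℝ) + 1 / 2) :=
          mul_le_mul_of_nonneg_right h6 hyk.le
      _ = _ := h1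
      _ ≤ K := h2
  have hB : 0 ≤ τ.im ^ (-((2 * (κ : ℝ) + 1) / 4)) := Real.rpow_nonneg hy.le _
  have h6 : (τ.im ^ (-((2 * (κ : ℝ) + 1) / 4))) ^ 2 = (τ.im ^ ((κ : ℝ) + 1 / 2))⁻¹ := by
    rw [← Real.rpow_natCast (τ.im ^ (-((2 * (κ : ℝ) + 1) / 4))) 2, ← Real.rpow_mul hy.le,
      ← Real.rpow_neg hy.le]
    congr 1
    push_cast
    ring
  have h7 : ‖h τ r‖ ^ 2 ≤ (Real.sqrt K * τ.im ^ (-((2 * (κ : ℝ) + 1) / 4))) ^ 2 := by
    rw [mul_pow, Real.sq_sqrt hKpos.le, h6, ← div_eq_mul_inv, le_div_iff₀ hyk]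
    exact h5
  exact (sq_le_sq₀ (norm_nonneg _) (mul_nonneg (Real.sqrt_nonneg _) hB)).mp h7

private noncomputable def supPt (y : ℝ) (hy : 0 < y) (x : ℝ) : ℍ :=
  ⟨(x : ℂ) + (y : ℂ) * Complex.I, by simpa using hy⟩

private theorem coe_supPt (y : ℝ) (hy : 0 < y) (x : ℝ) :
    ((supPt y hy x : ℍ) : ℂ) = (x : ℂ) + (y : ℂ) * Complex.I := rfl

private theorem im_supPt (y : ℝ) (hy : 0 < y) (x : ℝ) : (supPt y hy x).im = y := by
  rw [← UpperHalfPlane.coe_im, coe_supPt]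
  simp

private theorem norm_ee_supPt (y : ℝ) (hy : 0 < y) (x : ℝ) (m : ℕ) :
    ‖ee ((m : ℂ) * ((supPt y hy x : ℍ) : ℂ) / 4)‖ = Real.exp (-(Real.pi * m * y / 2)) := by
  rw [norm_ee]
  congr 1
  have : ((m : ℂ) * ((supPt y hy x : ℍ) : ℂ) / 4).im = (m : ℝ) * y / 4 := by
    rw [coe_supPt]
    have e : (m : ℂ) * ((x : ℂ) + (y : ℂ) * Complex.I) / 4 =
        (((m : ℝ) * x / 4 : ℝ) : ℂ) + (((m : ℝ) * y / 4 : ℝ) : ℂ) * Complex.I := by
      push_cast
      ring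
    rw [e]
    simp
  rw [this]
  ring

private theorem continuous_ee : Continuous ee := by
  unfold ee
  fun_prop

private theorem continuous_supPt_coe (y : ℝ) (hy : 0 < y) :
    Continuous fun x : ℝ ↦ ((supPt y hy x : ℍ) : ℂ) := by
  have : (fun x : ℝ ↦ ((supPt y hy x : ℍ) : ℂ)) = fun x : ℝ ↦ (x : ℂ) + (y : ℂ) * Complex.I := rfl
  rw [this]
  fun_prop

private theorem int_ee (y : ℝ) (hy : 0 < y) (m n : ℕ) :
    (∫ x in (0 : ℝ)..4, ee ((m : ℂ) * ((supPt y hy x : ℍ) : ℂ) / 4) *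
      ee (-((n : ℂ) * ((supPt y hy x : ℍ) : ℂ) / 4))) = if m = n then 4 else 0 := by
  by_cases hmn : m = n
  · subst hmn
    rw [if_pos rfl]
    have : ∀ x : ℝ, ee ((m : ℂ) * ((supPt y hy x : ℍ) : ℂ) / 4) *
        ee (-((m : ℂ) * ((supPt y hy x : ℍ) : ℂ) / 4)) = 1 := by
      intro x
      rw [← ee_add]
      have e : (m : ℂ) * ((supPt y hy x : ℍ) : ℂ) / 4 + -((m : ℂ) * ((supPt y hy x : ℍ) : ℂ) / 4) = 0 := by
        ring
      rw [e, ee_zero]
    simp only [this]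
    rw [intervalIntegral.integral_const]
    norm_num
  · rw [if_neg hmn]
    set a : ℂ := 2 * (Real.pi : ℂ) * Complex.I * (((m : ℂ) - (n : ℂ)) / 4) with ha
    have hmn' : (m : ℂ) - (n : ℂ) ≠ 0 := by
      intro hz
      apply hmn
      have : (m : ℂ) = (n : ℂ) := sub_eq_zero.mp hz
      exact_mod_cast this
    have ha0 : a ≠ 0 := by
      rw [ha]
      have h2 : (2 * (Real.pi : ℂ) * Complex.I) ≠ 0 := Complex.two_pi_I_ne_zero
      exact mul_ne_zero h2 (div_ne_zero hmn' (by norm_num))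
    have h1 : ∀ x : ℝ, ee ((m : ℂ) * ((supPt y hy x : ℍ) : ℂ) / 4) *
        ee (-((n : ℂ) * ((supPt y hy x : ℍ) : ℂ) / 4)) =
        Complex.exp (a * ((y : ℂ) * Complex.I)) * Complex.exp (a * (x : ℂ)) := by
      intro x
      rw [← ee_add, coe_supPt, ← Complex.exp_add]
      unfold ee
      congr 1
      rw [ha]
      ring
    simp only [h1]
    rw [intervalIntegral.integral_const_mul, integral_exp_mul_complex ha0]
    have h4 : Complex.exp (a * ((4 : ℝ) : ℂ)) = 1 := by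
      rw [Complex.exp_eq_one_iff]
      refine ⟨(m : ℤ) - (n : ℤ), ?_⟩
      rw [ha]
      push_cast
      ring
    rw [h4]
    simp

private theorem coeff_int (κ : ℕ) (c : ℕ → ℂ) (h : VF) (H : HasE κ c h) (n : ℕ) (r : Fin 2)
    (hn : n % 4 = cls κ r) (y : ℝ) (hy : 0 < y) (B : ℝ)
    (hB : ∀ x : ℝ, ‖h (supPt y hy x) r‖ ≤ B) :
    ‖c n‖ ≤ B * Real.exp (Real.pi * n * y / 2) := by
  set F : ℕ → ℝ → ℂ := fun m x ↦
    (if m % 4 = cls κ r then c m * ee ((m : ℂ) * ((supPt y hy x : ℍ) : ℂ) / 4) else 0) *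
      ee (-((n : ℂ) * ((supPt y hy x : ℍ) : ℂ) / 4)) with hF
  set f : ℝ → ℂ := fun x ↦ h (supPt y hy x) r * ee (-((n : ℂ) * ((supPt y hy x : ℍ) : ℂ) / 4)) with hf
  have hnorm : ∀ x : ℝ, ‖ee (-((n : ℂ) * ((supPt y hy x : ℍ) : ℂ) / 4))‖ =
      Real.exp (Real.pi * n * y / 2) := by
    intro x
    rw [ee_neg, norm_inv, norm_ee_supPt, ← Real.exp_neg]
    congr 1
    ring
  have hcont : ∀ m, Continuous (F m) := by
    intro m
    have hc1 := continuous_supPt_coe y hy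
    have hc2 : Continuous fun x : ℝ ↦ ee (-((n : ℂ) * ((supPt y hy x : ℍ) : ℂ) / 4)) :=
      continuous_ee.comp (by fun_prop)
    have hc3 : Continuous fun x : ℝ ↦ ee ((m : ℂ) * ((supPt y hy x : ℍ) : ℂ) / 4) :=
      continuous_ee.comp (by fun_prop)
    by_cases hm : m % 4 = cls κ r
    · simp only [hF, if_pos hm]
      exact (continuous_const.mul hc3).mul hc2
    · simp only [hF, if_neg hm]
      exact continuous_const.mul hc2
  have hsum := (hasE_summable κ c h H y hy).mul_right (Real.exp (Real.pi * n * y / 2))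
  have hHS : HasSum (fun m ↦ ∫ x in (0 : ℝ)..4, F m x) (∫ x in (0 : ℝ)..4, f x) := by
    refine intervalIntegral.hasSum_integral_of_dominated_convergence
      (fun m _ ↦ ‖c m‖ * Real.exp (-(Real.pi * m * y / 2)) * Real.exp (Real.pi * n * y / 2))
      (fun m ↦ (hcont m).aestronglyMeasurable) ?_ ?_ ?_ ?_
    · intro m
      refine Filter.Eventually.of_forall fun x _ ↦ ?_
      rw [hF]
      simp only
      rw [norm_mul, hnorm x]
      refine mul_le_mul_of_nonneg_right ?_ (Real.exp_pos _).le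
      by_cases hm : m % 4 = cls κ r
      · rw [if_pos hm, norm_mul, norm_ee_supPt]
      · rw [if_neg hm, norm_zero]
        positivity
    · exact Filter.Eventually.of_forall fun x _ ↦ hsum
    · exact intervalIntegrable_const
    · refine Filter.Eventually.of_forall fun x _ ↦ ?_
      exact (H.sum (supPt y hy x) r).mul_right _
  have hval : ∀ m, (∫ x in (0 : ℝ)..4, F m x) = if m = n then 4 * c n else 0 := by
    intro m
    by_cases hm : m % 4 = cls κ r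
    · simp only [hF, if_pos hm, mul_assoc]
      rw [intervalIntegral.integral_const_mul, int_ee]
      by_cases hmn : m = n
      · subst hmn
        rw [if_pos rfl, if_pos rfl]
        ring
      · rw [if_neg hmn, if_neg hmn, mul_zero]
    · have hmn : m ≠ n := by
        intro he
        rw [he] at hm
        exact hm hn
      simp only [hF, if_neg hm, zero_mul, if_neg hmn, intervalIntegral.integral_zero]
  simp only [hval] at hHS
  have hu : (∫ x in (0 : ℝ)..4, f x) = 4 * c n := by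
    have h2 : HasSum (fun m ↦ if m = n then 4 * c n else 0) (4 * c n) := hasSum_ite_eq n (4 * c n)
    exact hHS.unique h2
  have hbd : ‖∫ x in (0 : ℝ)..4, f x‖ ≤ (B * Real.exp (Real.pi * n * y / 2)) * |4 - 0| := by
    refine intervalIntegral.norm_integral_le_of_norm_le_const fun x _ ↦ ?_
    rw [hf]
    simp only
    rw [norm_mul, hnorm x]
    exact mul_le_mul_of_nonneg_right (hB x) (Real.exp_pos _).le
  rw [hu, norm_mul] at hbd
  have h4 : ‖(4 : ℂ)‖ = 4 := by norm_num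
  have h5 : |(4 : ℝ) - 0| = 4 := by norm_num
  rw [h4, h5] at hbd
  linarith

theorem isP_coeff_bound (κ : ℕ) (c : ℕ → ℂ) (h : VF) (H : IsP κ c h) :
    ∃ C : ℝ, 0 < C ∧ ∀ n : ℕ, 1 ≤ n → ‖c n‖ ≤ C * (n : ℝ) ^ ((2 * (κ : ℝ) + 1) / 4) := by
  obtain ⟨C, hC, hs⟩ := isP_sup κ c h H
  refine ⟨C * Real.exp (Real.pi / 2), by positivity, ?_⟩
  intro n hn
  have hn0 : (0 : ℝ) < (n : ℝ) := by exact_mod_cast hn
  by_cases hcl : ∃ r : Fin 2, n % 4 = cls κ r
  · obtain ⟨r, hr⟩ := hcl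
    have hy : (0 : ℝ) < 1 / (n : ℝ) := by positivity
    have h1 := coeff_int κ c h H.exp n r hr (1 / (n : ℝ)) hy
      (C * (1 / (n : ℝ)) ^ (-((2 * (κ : ℝ) + 1) / 4))) (fun x ↦ by
        have h2 := hs (supPt (1 / (n : ℝ)) hy x) r
        rw [im_supPt] at h2
        exact h2)
    have h3 : (1 / (n : ℝ)) ^ (-((2 * (κ : ℝ) + 1) / 4)) = (n : ℝ) ^ ((2 * (κ : ℝ) + 1) / 4) := by
      rw [one_div, Real.inv_rpow hn0.le, ← Real.rpow_neg hn0.le, neg_neg]
    have h4 : Real.pi * (n : ℝ) * (1 / (n : ℝ)) / 2 = Real.pi / 2 := by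
      field_simp
    rw [h3, h4] at h1
    calc ‖c n‖ ≤ C * (n : ℝ) ^ ((2 * (κ : ℝ) + 1) / 4) * Real.exp (Real.pi / 2) := h1
      _ = _ := by ring
  · have h0 : c n = 0 := by
      apply H.exp.supp
      · intro he
        exact hcl ⟨0, he⟩
      · intro he
        exact hcl ⟨1, he⟩
    rw [h0, norm_zero]
    have : 0 ≤ (n : ℝ) ^ ((2 * (κ : ℝ) + 1) / 4) := Real.rpow_nonneg hn0.le _
    positivity

end MP836e4b.P
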