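/-
MODULE PtA (size M), board mod836, MP_836e4b_nt, folder Work/MP_836e4b_nt/P. Keep the statements verbatim, helper lemmas private.
Integrability on the standard domain: for functions with HasE (both factors) the integrand is continuous and
≤ C e^{-π Im τ} (Im τ)^(κ+1/2) on ModularGroup.fd (Im ≥ √3/2), the volume of ℍ is dx dy/y² (see
Work/MP_af11aa_nt/Coord.lean lintegral_coord and Unfold.lean). Linearity. Positivity: if pet κ h h = 0 the continuous
nonnegative integrand ∑|h_r|² y^.. vanishes on the interior of the domain, which contains {|Re| < 1/2, Im > 1}; by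
T-invariance h_r(τ) = 0 for Im τ > 1 (almost all real parts, continuity), so the Fourier coefficients vanish.
-/
import Mathlib
import Pool.Agent.Work.MP_836e4b_nt.P.Defs
import Pool.Agent.Work.MP_836e4b_nt.P.Cont
import Pool.Agent.Work.MP_836e4b_nt.P.Sup
import Pool.Agent.Work.MP_836e4b_nt.P.MA2
import Pool.Agent.Work.MP_af11aa_nt.Coord

open UpperHalfPlane Complex
open scoped MatrixGroups ComplexConjugate Matrix

namespace MP836e4b.P

section

open MeasureTheory
open scoped ENNReal

private theorem ofC_eq {y : ℝ} (hy : 0 < y) (x : ℝ) :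
    ofComplex (x + y * Complex.I) = ⟨x + y * Complex.I, by simpa using hy⟩ :=
  ofComplex_apply_of_im_pos (by simpa using hy)

private theorem ofC_im {y : ℝ} (hy : 0 < y) (x : ℝ) :
    (ofComplex ((x : ℂ) + y * Complex.I) : ℍ).im = y := by
  rw [ofC_eq hy]
  change ((x : ℂ) + y * Complex.I).im = y
  simp

private theorem ofC_re {y : ℝ} (hy : 0 < y) (x : ℝ) :
    (ofComplex ((x : ℂ) + y * Complex.I) : ℍ).re = x := by
  rw [ofC_eq hy]
  change ((x : ℂ) + y * Complex.I).re = x
  simp

private theorem vol_fd_le : volume (ModularGroup.fd : Set ℍ) ≤ 2 := by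
  have hm : MeasurableSet (ModularGroup.fd : Set ℍ) := ModularGroup.isClosed_fd.measurableSet
  rw [← lintegral_indicator_one hm,
    Pool.Agent.Work.MP_af11aa_nt.lintegral_coord (measurable_one.indicator hm)]
  have hb : ∀ p ∈ (Set.univ ×ˢ Set.Ioi 0 : Set (ℝ × ℝ)),
      (ModularGroup.fd : Set ℍ).indicator (1 : ℍ → ℝ≥0∞) (ofComplex (p.1 + p.2 * Complex.I)) *
        ENNReal.ofReal (1 / p.2 ^ 2) ≤
      (Set.Icc (-(1 / 2 : ℝ)) (1 / 2)).indicator 1 p.1 *
        (Set.Ioi (1 / 2 : ℝ)).indicator (fun y ↦ ENNReal.ofReal (1 / y ^ 2)) p.2 := by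
    rintro ⟨x, y⟩ ⟨-, hy⟩
    have hy0 : 0 < y := hy
    simp only
    by_cases hmem : (ofComplex ((x : ℂ) + y * Complex.I) : ℍ) ∈ (ModularGroup.fd : Set ℍ)
    · have h1 : x ∈ Set.Icc (-(1 / 2 : ℝ)) (1 / 2) := by
        have := hmem.2
        rw [ofC_re hy0, abs_le] at this
        exact this
      have h2 : y ∈ Set.Ioi (1 / 2 : ℝ) := by
        have := ModularGroup.three_le_four_mul_im_sq_of_mem_fd hmem
        rw [ofC_im hy0] at this
        rw [Set.mem_Ioi]
        nlinarith
      rw [Set.indicator_of_mem hmem, Set.indicator_of_mem h1, Set.indicator_of_mem h2]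
      exact le_rfl
    · rw [Set.indicator_of_notMem hmem, zero_mul]; exact zero_le
  calc _ ≤ ∫⁻ p : ℝ × ℝ in Set.univ ×ˢ Set.Ioi 0,
        (Set.Icc (-(1 / 2 : ℝ)) (1 / 2)).indicator 1 p.1 *
        (Set.Ioi (1 / 2 : ℝ)).indicator (fun y ↦ ENNReal.ofReal (1 / y ^ 2)) p.2 :=
        setLIntegral_mono' (MeasurableSet.univ.prod measurableSet_Ioi) hb
    _ ≤ ∫⁻ p : ℝ × ℝ,
        (Set.Icc (-(1 / 2 : ℝ)) (1 / 2)).indicator 1 p.1 *
        (Set.Ioi (1 / 2 : ℝ)).indicator (fun y ↦ ENNReal.ofReal (1 / y ^ 2)) p.2 :=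
        setLIntegral_le_lintegral _ _
    _ = 2 := by
        rw [Measure.volume_eq_prod, lintegral_prod_mul]
        · rw [lintegral_indicator_one measurableSet_Icc, lintegral_indicator measurableSet_Ioi,
            Real.volume_Icc]
          have : ∫⁻ y in Set.Ioi (1 / 2 : ℝ), ENNReal.ofReal (1 / y ^ 2) = ENNReal.ofReal 2 := by
            have hint : IntegrableOn (fun y : ℝ ↦ y ^ (-2 : ℝ)) (Set.Ioi (1 / 2)) :=
              integrableOn_Ioi_rpow_of_lt (by norm_num) (by norm_num)
            have e : ∫ y in Set.Ioi (1 / 2 : ℝ), y ^ (-2 : ℝ) = 2 := by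
              rw [integral_Ioi_rpow_of_lt (by norm_num) (by norm_num)]
              norm_num
            have e' : ENNReal.ofReal 2 = ENNReal.ofReal (∫ y in Set.Ioi (1 / 2 : ℝ), y ^ (-2 : ℝ)) := by
              rw [e]
            rw [e', ofReal_integral_eq_lintegral_ofReal hint]
            · refine setLIntegral_congr_fun measurableSet_Ioi fun y hy ↦ ?_
              have hy0 : 0 < y := lt_trans (by norm_num) hy
              congr 1
              rw [Real.rpow_neg hy0.le]
              norm_num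
            · refine (ae_restrict_iff' measurableSet_Ioi).2 (Filter.Eventually.of_forall fun y hy ↦ ?_)
              have hy0 : 0 < y := lt_trans (by norm_num) hy
              exact (Real.rpow_pos_of_pos hy0 _).le
          rw [this]
          norm_num
        · exact (measurable_one.indicator measurableSet_Icc).aemeasurable
        · refine (Measurable.indicator ?_ measurableSet_Ioi).aemeasurable
          fun_prop

private theorem openPos : (volume : Measure ℍ).IsOpenPosMeasure := by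
  refine ⟨fun U hU hne h0 ↦ ?_⟩
  rw [volume_eq_lintegral] at h0
  have hopen : IsOpen ((UpperHalfPlane.coe) '' U) := isOpenEmbedding_coe.isOpenMap _ hU
  have hmeas : Measurable fun z : ℂ ↦ ((((1 / ‖z.im‖₊) ^ 2 : NNReal)) : ℝ≥0∞) := by
    fun_prop
  have h1 : 0 < ∫⁻ z : ℂ in (UpperHalfPlane.coe) '' U, ((((1 / ‖z.im‖₊) ^ 2 : NNReal)) : ℝ≥0∞) := by
    rw [setLIntegral_pos_iff hmeas]
    have hsub : Function.support (fun z : ℂ ↦ ((((1 / ‖z.im‖₊) ^ 2 : NNReal)) : ℝ≥0∞)) ∩
        (UpperHalfPlane.coe) '' U = (UpperHalfPlane.coe) '' U := by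
      refine Set.inter_eq_right.mpr ?_
      rintro _ ⟨τ, -, rfl⟩
      rw [Function.mem_support]
      have h2 : ‖((τ : ℂ)).im‖₊ ≠ 0 := by
        rw [nnnorm_ne_zero_iff]
        exact τ.im_pos.ne'
      have h3 : ((1 / ‖((τ : ℂ)).im‖₊) ^ 2 : NNReal) ≠ 0 := by
        exact pow_ne_zero 2 (one_div_ne_zero h2)
      exact_mod_cast h3
    rw [hsub]
    exact hopen.measure_pos volume (hne.image _)
  exact absurd h0 h1.ne'

private theorem pta_rpow_exp (κ : ℕ) (y : ℝ) (hy : 0 < y) :
    y ^ ((κ : ℝ) + 1 / 2) ≤ ((κ + 1).factorial : ℝ) * Real.exp y := by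
  have hf : (1 : ℝ) ≤ ((κ + 1).factorial : ℝ) := by exact_mod_cast Nat.factorial_pos (κ + 1)
  have he : (1 : ℝ) ≤ Real.exp y := Real.one_le_exp hy.le
  rcases le_or_gt y 1 with h | h
  · have h1 : y ^ ((κ : ℝ) + 1 / 2) ≤ 1 := Real.rpow_le_one hy.le h (by positivity)
    nlinarith
  · have h1 : y ^ ((κ : ℝ) + 1 / 2) ≤ y ^ (((κ + 1 : ℕ) : ℝ)) :=
      Real.rpow_le_rpow_of_exponent_le h.le (by push_cast; linarith)
    rw [Real.rpow_natCast] at h1
    have h2 := Real.pow_div_factorial_le_exp y hy.le (κ + 1)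
    rw [div_le_iff₀ (by linarith)] at h2
    calc y ^ ((κ : ℝ) + 1 / 2) ≤ y ^ (κ + 1) := h1
      _ ≤ Real.exp y * ((κ + 1).factorial : ℝ) := h2
      _ = _ := mul_comm _ _

private theorem cont_integrand (κ : ℕ) (c c' : ℕ → ℂ) (g h : VF) (H : HasE κ c g)
    (H' : HasE κ c' h) :
    Continuous fun τ : ℍ ↦ (∑ r : Fin 2, g τ r * conj (h τ r)) *
      ((τ.im ^ ((κ : ℝ) + 1 / 2) : ℝ) : ℂ) := by
  refine Continuous.mul ?_ ?_
  · refine continuous_finsetSum _ fun r _ ↦ ?_
    exact (hasE_continuous κ c g H r).mul (Complex.continuous_conj.comp (hasE_continuous κ c' h H' r))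
  · refine Complex.continuous_ofReal.comp ?_
    exact UpperHalfPlane.continuous_im.rpow_const fun τ ↦ Or.inl τ.im_pos.ne'

private theorem int_integrand (κ : ℕ) (c c' : ℕ → ℂ) (g h : VF) (H : HasE κ c g)
    (H' : HasE κ c' h) :
    IntegrableOn (fun τ : ℍ ↦ (∑ r : Fin 2, g τ r * conj (h τ r)) *
      ((τ.im ^ ((κ : ℝ) + 1 / 2) : ℝ) : ℂ)) (ModularGroup.fd : Set ℍ) volume := by
  obtain ⟨C, hC, hd⟩ := hasE_decay κ c g H
  obtain ⟨C', hC', hd'⟩ := hasE_decay κ c' h H'
  have hfd : MeasurableSet (ModularGroup.fd : Set ℍ) := ModularGroup.isClosed_fd.measurableSet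
  refine Measure.integrableOn_of_bounded (M := 2 * (C * C') * ((κ + 1).factorial : ℝ))
    (ne_top_of_le_ne_top (by simp) vol_fd_le)
    (cont_integrand κ c c' g h H H').aestronglyMeasurable ?_
  refine (ae_restrict_iff' hfd).2 (Filter.Eventually.of_forall fun τ hτ ↦ ?_)
  have h3 := ModularGroup.three_le_four_mul_im_sq_of_mem_fd hτ
  have hpos : 0 < τ.im := τ.im_pos
  have hhalf : 1 / 2 ≤ τ.im := by nlinarith
  have hrp : 0 ≤ τ.im ^ ((κ : ℝ) + 1 / 2) := Real.rpow_nonneg hpos.le _
  rw [norm_mul, Complex.norm_real, Real.norm_of_nonneg hrp]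
  have hexp : Real.exp (-(Real.pi * τ.im / 2)) * Real.exp (-(Real.pi * τ.im / 2)) =
      Real.exp (-(Real.pi * τ.im)) := by
    rw [← Real.exp_add]
    congr 1
    ring
  have h4 : ∀ r : Fin 2, ‖g τ r * conj (h τ r)‖ ≤ C * C' * Real.exp (-(Real.pi * τ.im)) := by
    intro r
    rw [norm_mul, RCLike.norm_conj, ← hexp]
    calc ‖g τ r‖ * ‖h τ r‖ ≤ (C * Real.exp (-(Real.pi * τ.im / 2))) *
          (C' * Real.exp (-(Real.pi * τ.im / 2))) :=
          mul_le_mul (hd τ hhalf r) (hd' τ hhalf r) (norm_nonneg _) (by positivity)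
      _ = _ := by ring
  have h5 : ‖∑ r : Fin 2, g τ r * conj (h τ r)‖ ≤ 2 * (C * C') * Real.exp (-(Real.pi * τ.im)) := by
    refine (norm_sum_le _ _).trans ?_
    rw [Fin.sum_univ_two]
    have ha := h4 0
    have hb := h4 1
    linarith
  have h8 := pta_rpow_exp κ τ.im hpos
  have h9 : Real.exp (-(Real.pi * τ.im)) * Real.exp τ.im ≤ 1 := by
    rw [← Real.exp_add]
    apply Real.exp_le_one_iff.mpr
    have := Real.pi_gt_three
    nlinarith
  have hf : (0 : ℝ) < ((κ + 1).factorial : ℝ) := by exact_mod_cast Nat.factorial_pos (κ + 1)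
  calc ‖∑ r : Fin 2, g τ r * conj (h τ r)‖ * τ.im ^ ((κ : ℝ) + 1 / 2)
      ≤ (2 * (C * C') * Real.exp (-(Real.pi * τ.im))) *
          (((κ + 1).factorial : ℝ) * Real.exp τ.im) :=
        mul_le_mul h5 h8 hrp (by positivity)
    _ = (2 * (C * C') * ((κ + 1).factorial : ℝ)) *
          (Real.exp (-(Real.pi * τ.im)) * Real.exp τ.im) := by ring
    _ ≤ (2 * (C * C') * ((κ + 1).factorial : ℝ)) * 1 :=
        mul_le_mul_of_nonneg_left h9 (by positivity)
    _ = _ := mul_one _

/-- The coefficients vanish if the function vanishes high up on the imaginary axis. -/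
private theorem coeff_zero' (a : ℕ → ℂ)
    (hs : Summable fun n : ℕ ↦ ‖a n‖ * Real.exp (-(Real.pi * n * 1 / 2)))
    (h : ∀ (y : ℝ) (hy : 2 ≤ y), HasSum (fun n : ℕ ↦ a n * ee ((n : ℂ) *
      ((⟨Complex.I * y, by simpa using (by linarith : (0:ℝ) < y)⟩ : ℍ) : ℂ) / 4)) 0) :
    ∀ k, a k = 0 := by
  intro k
  have norm_ee_n : ∀ (n : ℕ) (τ : ℍ),
      ‖ee ((n : ℂ) * (τ : ℂ) / 4)‖ = Real.exp (-(Real.pi * n * τ.im / 2)) := by
    intro n τ
    rw [norm_ee]
    congr 1
    have h1 : ((n : ℂ) * (τ : ℂ) / 4).im = (n : ℝ) * τ.im / 4 := by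
      have h2 : ((n : ℂ) * (τ : ℂ) / 4) = (((n : ℝ) / 4 : ℝ) : ℂ) * (τ : ℂ) := by
        push_cast
        ring
      rw [h2, Complex.im_ofReal_mul, UpperHalfPlane.coe_im]
      ring
    rw [h1]
    ring
  induction k using Nat.strong_induction_on with
  | _ k ih =>
    set S : ℝ := ∑' n : ℕ, ‖a n‖ * Real.exp (-(Real.pi * n * 1 / 2)) with hS
    have key : ∀ y : ℝ, 2 ≤ y →
        ‖a k‖ ≤ (S * Real.exp (Real.pi * (k + 1) / 2)) * Real.exp (-(Real.pi * y / 2)) := by
      intro y hy
      have hy0 : 0 < y := by linarith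
      set τ : ℍ := ⟨Complex.I * y, by simpa using hy0⟩ with hτ
      have him : τ.im = y := by
        change (Complex.I * (y : ℂ)).im = y
        simp
      have h1 := (h y hy).sub (hasSum_ite_eq k (a k * ee ((k : ℂ) * (τ : ℂ) / 4)))
      rw [← hτ] at h1
      have h2 : ‖(0 : ℂ) - a k * ee ((k : ℂ) * (τ : ℂ) / 4)‖ ≤
          S * Real.exp (-(Real.pi * (k + 1) * (y - 1) / 2)) := by
        refine HasSum.norm_le_of_bounded h1
          (hs.hasSum.mul_right (Real.exp (-(Real.pi * (k + 1) * (y - 1) / 2)))) ?_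
        intro n
        rcases lt_trichotomy n k with hn | hn | hn
        · rw [ih n hn, if_neg hn.ne]
          simp
        · subst hn
          rw [if_pos rfl, sub_self, norm_zero]
          positivity
        · rw [if_neg hn.ne', sub_zero, norm_mul, norm_ee_n, him, mul_assoc ‖a n‖, ← Real.exp_add]
          refine mul_le_mul_of_nonneg_left ?_ (norm_nonneg _)
          rw [Real.exp_le_exp]
          have h3 : ((k : ℝ) + 1) ≤ n := by exact_mod_cast hn
          have h4 : Real.pi * (k + 1) * (y - 1) ≤ Real.pi * n * (y - 1) := by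
            refine mul_le_mul_of_nonneg_right ?_ (by linarith)
            exact mul_le_mul_of_nonneg_left h3 Real.pi_pos.le
          linarith
      rw [zero_sub, norm_neg, norm_mul, norm_ee_n, him] at h2
      have h5 : ‖a k‖ = (‖a k‖ * Real.exp (-(Real.pi * k * y / 2))) *
          Real.exp (Real.pi * k * y / 2) := by
        rw [mul_assoc, ← Real.exp_add]
        simp
      rw [h5]
      have h6 : (S * Real.exp (Real.pi * (k + 1) / 2)) * Real.exp (-(Real.pi * y / 2)) =
          (S * Real.exp (-(Real.pi * (k + 1) * (y - 1) / 2))) *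
            Real.exp (Real.pi * k * y / 2) := by
        rw [mul_assoc, mul_assoc, ← Real.exp_add, ← Real.exp_add]
        congr 2
        ring
      rw [h6]
      exact mul_le_mul_of_nonneg_right h2 (Real.exp_pos _).le
    have hlim : Filter.Tendsto (fun y : ℝ ↦
        (S * Real.exp (Real.pi * (k + 1) / 2)) * Real.exp (-(Real.pi * y / 2))) Filter.atTop
        (nhds ((S * Real.exp (Real.pi * (k + 1) / 2)) * 0)) := by
      refine Filter.Tendsto.const_mul _ ?_
      refine Real.tendsto_exp_atBot.comp ?_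
      refine Filter.tendsto_neg_atTop_atBot.comp ?_
      refine Filter.Tendsto.atTop_div_const (by norm_num) ?_
      exact Filter.Tendsto.const_mul_atTop Real.pi_pos Filter.tendsto_id
    rw [mul_zero] at hlim
    have hle : ‖a k‖ ≤ 0 := by
      refine ge_of_tendsto hlim ?_
      filter_upwards [Filter.eventually_ge_atTop (2 : ℝ)] with y hy
      exact key y hy
    exact norm_le_zero_iff.mp hle

end

theorem pet_sub (κ : ℕ) (c c' c'' : ℕ → ℂ) (x g g' : VF) (a : ℂ) (Hx : IsP κ c x) (H : IsP κ c' g)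
    (H' : IsP κ c'' g') :
    pet κ x (fun τ ↦ g τ - a • g' τ) = pet κ x g - conj a * pet κ x g' := by
  unfold pet
  rw [← MeasureTheory.integral_const_mul, ← MeasureTheory.integral_sub
    (int_integrand κ c c' x g Hx.exp H.exp)
    ((int_integrand κ c c'' x g' Hx.exp H'.exp).const_mul (conj a))]
  congr 1
  funext τ
  have e1 : ∀ r, (g τ - a • g' τ) r = g τ r - a * g' τ r := fun r ↦ rfl
  simp only [e1, Fin.sum_univ_two, map_sub, map_mul]
  ring

theorem pet_smul_right (κ : ℕ) (x g : VF) (a : ℂ) :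
    pet κ x (fun τ ↦ a • g τ) = conj a * pet κ x g := by
  unfold pet
  rw [← MeasureTheory.integral_const_mul]
  congr 1
  funext τ
  have e1 : ∀ r, (a • g τ) r = a * g τ r := fun r ↦ rfl
  simp only [e1, Fin.sum_univ_two, map_mul]
  ring

theorem pet_pos (κ : ℕ) (c : ℕ → ℂ) (h : VF) (H : IsP κ c h) (h0 : pet κ h h = 0) :
    ∀ n, c n = 0 := by
  have hfd : MeasurableSet (ModularGroup.fd : Set ℍ) := ModularGroup.isClosed_fd.measurableSet
  have := openPos
  set F : ℍ → ℝ := fun τ ↦ (∑ r : Fin 2, ‖h τ r‖ ^ 2) * τ.im ^ ((κ : ℝ) + 1 / 2) with hF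
  have eF : (fun τ : ℍ ↦ (∑ r : Fin 2, h τ r * conj (h τ r)) *
      ((τ.im ^ ((κ : ℝ) + 1 / 2) : ℝ) : ℂ)) = fun τ ↦ ((F τ : ℝ) : ℂ) := by
    funext τ
    rw [hF]
    simp only [Complex.mul_conj, Complex.normSq_eq_norm_sq]
    push_cast
    ring
  have hc := cont_integrand κ c c h h H.exp H.exp
  have hi := int_integrand κ c c h h H.exp H.exp
  rw [eF] at hc hi
  have hcF : Continuous F := by
    have := Complex.continuous_re.comp hc
    exact this
  have hiF : MeasureTheory.IntegrableOn F (ModularGroup.fd : Set ℍ) := by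
    have := hi.re
    exact this
  have hz : ∫ τ in (ModularGroup.fd : Set ℍ), F τ = 0 := by
    unfold pet at h0
    rw [eF, integral_complex_ofReal] at h0
    exact_mod_cast h0
  have hnn : ∀ τ, 0 ≤ F τ := fun τ ↦
    mul_nonneg (Finset.sum_nonneg fun r _ ↦ sq_nonneg _) (Real.rpow_nonneg τ.im_pos.le _)
  have hae : F =ᵐ[MeasureTheory.volume.restrict (ModularGroup.fd : Set ℍ)] 0 :=
    (MeasureTheory.setIntegral_eq_zero_iff_of_nonneg_ae
      (Filter.Eventually.of_forall hnn) hiF).mp hz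
  have hae' : F =ᵐ[MeasureTheory.volume.restrict (ModularGroup.fdo : Set ℍ)] 0 :=
    MeasureTheory.ae_mono (MeasureTheory.Measure.restrict_mono
      ModularGroup.fdo_subset_fd le_rfl) hae
  have heq : Set.EqOn F 0 (ModularGroup.fdo : Set ℍ) :=
    MeasureTheory.Measure.eqOn_open_of_ae_eq hae' ModularGroup.isOpen_fdo hcF.continuousOn
      continuousOn_const
  have hvan : ∀ τ ∈ (ModularGroup.fdo : Set ℍ), ∀ r, h τ r = 0 := by
    intro τ hτ r
    have h1 := heq hτ
    have h2 : (∑ r : Fin 2, ‖h τ r‖ ^ 2) = 0 := by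
      rcases mul_eq_zero.mp h1 with h3 | h3
      · exact h3
      · exact absurd h3 (Real.rpow_pos_of_pos τ.im_pos _).ne'
    have h4 := (Finset.sum_eq_zero_iff_of_nonneg (fun r _ ↦ sq_nonneg ‖h τ r‖)).mp h2 r
      (Finset.mem_univ r)
    exact norm_eq_zero.mp (pow_eq_zero_iff two_ne_zero |>.mp h4)
  have hsum := hasE_summable κ c h H.exp 1 one_pos
  have key : ∀ r : Fin 2, ∀ n, n % 4 = cls κ r → c n = 0 := by
    intro r
    have hz := coeff_zero' (fun n ↦ if n % 4 = cls κ r then c n else 0) ?_ ?_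
    · intro n hn
      have h1 := hz n
      simp only [if_pos hn] at h1
      exact h1
    · refine Summable.of_nonneg_of_le (fun n ↦ by positivity) (fun n ↦ ?_) hsum
      refine mul_le_mul_of_nonneg_right ?_ (Real.exp_pos _).le
      split_ifs
      · exact le_rfl
      · rw [norm_zero]
        positivity
    · intro y hy
      have hy0 : 0 < y := by linarith
      set τ : ℍ := ⟨Complex.I * y, by simpa using hy0⟩ with hτ
      have hco : (τ : ℂ) = Complex.I * y := rfl
      have hmem : τ ∈ (ModularGroup.fdo : Set ℍ) := by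
        refine ⟨?_, ?_⟩
        · rw [hco, Complex.normSq_mul, Complex.normSq_I, Complex.normSq_ofReal]
          nlinarith
        · have : τ.re = 0 := by
            change (Complex.I * (y : ℂ)).re = 0
            simp
          rw [this]
          norm_num
      have h1 := H.exp.sum τ r
      rw [hvan τ hmem r] at h1
      refine h1.congr_fun ?_
      intro n
      split_ifs
      · rfl
      · simp
  intro n
  by_cases h0 : n % 4 = cls κ 0
  · exact key 0 n h0
  · by_cases h1 : n % 4 = cls κ 1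
    · exact key 1 n h1
    · exact H.exp.supp n h0 h1

end MP836e4b.P
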