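/-
MODULE ShT (size M), board mod836, MP_836e4b_nt, folder Work/MP_836e4b_nt/P. Keep the statements verbatim, helper lemmas private.
The Shimura lift commutes with the Hecke operator at 2 (D odd, D % 4 = cls κ 1). With m = n/d:
(Tc κ 2 c)(Dm²) = c(4Dm²) + 2^{κ-1}(1+ψ(Dm²)) c(Dm²) + 2^{2κ-1}[2 ∣ m] c(D(m/2)²) (D m² is in the classes; 4 ∣ Dm² iff
2 ∣ m), ψ(Dm²) = 0 for m even, = (2/D) for m odd ((-1)^κ D = 1 mod 4; (2/D) = 1 iff (-1)^κ D = 1 mod 8).
hecke (2κ) 2 b n = b(2n) + [2 ∣ n] 2^{2κ-1} b(n/2). Divisors d of 2n: d ∣ n (first term), or d = 2d' with d' ∣ n, n/d' odd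
(term with ψ: χ(2)2^{κ-1}). Divisors d of n/2 = divisors d of n with n/d even (third term).
ShInj: strong induction, the d = 1 term is c(Dn²).
-/
import Mathlib
import Pool.Agent.Work.MP_836e4b_nt.P.Defs

open UpperHalfPlane Complex
open scoped MatrixGroups ComplexConjugate Matrix

namespace MP836e4b.P

private theorem cls_odd (κ D : ℕ) (hD4 : D % 4 = cls κ 1) :
    (Even κ ∧ D % 4 = 1) ∨ (¬ Even κ ∧ D % 4 = 3) := by
  by_cases h : Even κ
  · left
    refine ⟨h, ?_⟩
    simpa [cls, h] using hD4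
  · right
    refine ⟨h, ?_⟩
    simpa [cls, h] using hD4

private theorem sq_mod8 (m : ℕ) (h : m % 2 = 1) : m ^ 2 % 8 = 1 := by
  have h8 : m % 8 = 1 ∨ m % 8 = 3 ∨ m % 8 = 5 ∨ m % 8 = 7 := by omega
  rcases h8 with h | h | h | h <;> simp [Nat.pow_mod, h]

private theorem psi_two (κ D m : ℕ) (hD4 : D % 4 = cls κ 1) :
    psi κ 2 (D * m ^ 2) = if m % 2 = 1 then jacobiSym 2 D else 0 := by
  have hodd : D % 2 = 1 := by
    rcases cls_odd κ D hD4 with h | h <;> omega
  have hjac : jacobiSym 2 D = if D % 8 = 1 ∨ D % 8 = 7 then 1 else -1 := by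
    rw [jacobiSym.at_two (Nat.odd_iff.mpr hodd), ZMod.χ₈_nat_eq_if_mod_eight]
    have h2 : ¬ (D % 2 = 0) := by omega
    simp only [h2, if_false]
  unfold psi
  rw [if_pos rfl]
  by_cases hm : m % 2 = 1
  · have h8 := sq_mod8 m hm
    have hN2 : ¬ (D * m ^ 2 % 2 = 0) := by
      rw [Nat.mul_mod, hodd]
      have : m ^ 2 % 2 = 1 := by omega
      rw [this]
      simp
    have hN8 : D * m ^ 2 % 8 = D % 8 := by
      rw [Nat.mul_mod, h8, mul_one, Nat.mod_mod]
    rw [if_neg hN2, if_pos hm, hjac]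
    obtain ⟨N, hN⟩ : ∃ N, N = D * m ^ 2 := ⟨_, rfl⟩
    rw [← hN] at hN8 ⊢
    rcases cls_odd κ D hD4 with ⟨hk, hD⟩ | ⟨hk, hD⟩
    · rw [hk.neg_one_pow, one_mul]
      by_cases h1 : D % 8 = 1
      · rw [if_pos (by omega), if_pos (Or.inl h1)]
      · rw [if_neg (by omega), if_neg (by omega)]
    · rw [(Nat.not_even_iff_odd.mp hk).neg_one_pow]
      by_cases h1 : D % 8 = 7
      · rw [if_pos (by omega), if_pos (Or.inr h1)]
      · rw [if_neg (by omega), if_neg (by omega)]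
  · have hN2 : D * m ^ 2 % 2 = 0 := by
      have : m ^ 2 % 2 = 0 := by
        rw [Nat.pow_mod]
        have : m % 2 = 0 := by omega
        rw [this]
      rw [Nat.mul_mod, this, mul_zero, Nat.zero_mod]
    rw [if_pos hN2, if_neg hm]

private theorem Tc_two (D κ : ℕ) (hD4 : D % 4 = cls κ 1) (c : ℕ → ℂ) (m : ℕ) :
    Tc κ 2 c (D * m ^ 2) = c (D * (2 * m) ^ 2)
      + (2 : ℂ) ^ (κ - 1) * c (D * m ^ 2)
      + (2 : ℂ) ^ (κ - 1) * (if m % 2 = 1 then ((jacobiSym 2 D : ℤ) : ℂ) * c (D * m ^ 2) else 0)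
      + (2 : ℂ) ^ (2 * κ - 1) * (if m % 2 = 0 then c (D * (m / 2) ^ 2) else 0) := by
  have hodd : D % 2 = 1 := by
    rcases cls_odd κ D hD4 with h | h <;> omega
  have hcls : D * m ^ 2 % 4 = cls κ 0 ∨ D * m ^ 2 % 4 = cls κ 1 := by
    by_cases hm : m % 2 = 1
    · right
      have h8 := sq_mod8 m hm
      rw [← hD4, Nat.mul_mod]
      have : m ^ 2 % 4 = 1 := by omega
      rw [this, mul_one, Nat.mod_mod]
    · left
      have : m ^ 2 % 4 = 0 := by
        obtain ⟨k, rfl⟩ : ∃ k, m = 2 * k := ⟨m / 2, by omega⟩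
        rw [mul_pow]
        omega
      rw [Nat.mul_mod, this]
      simp [cls]
  unfold Tc
  rw [if_pos hcls, psi_two κ D m hD4]
  have e1 : 2 ^ 2 * (D * m ^ 2) = D * (2 * m) ^ 2 := by ring
  rw [e1, Nat.cast_ofNat]
  have e2 : (if 2 ^ 2 ∣ D * m ^ 2 then c (D * m ^ 2 / 2 ^ 2) else 0) =
      (if m % 2 = 0 then c (D * (m / 2) ^ 2) else 0) := by
    by_cases hm : m % 2 = 0
    · obtain ⟨k, rfl⟩ : ∃ k, m = 2 * k := ⟨m / 2, by omega⟩
      have e3 : D * (2 * k) ^ 2 = 2 ^ 2 * (D * k ^ 2) := by ring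
      rw [e3, if_pos (Dvd.intro _ rfl), if_pos hm, Nat.mul_div_cancel_left _ (by norm_num),
        Nat.mul_div_cancel_left _ (by norm_num)]
    · rw [if_neg hm, if_neg]
      intro h4
      have h8 := sq_mod8 m (by omega)
      have h5 : D * m ^ 2 % 2 = 1 := by
        rw [Nat.mul_mod, hodd]
        have : m ^ 2 % 2 = 1 := by omega
        rw [this]
      obtain ⟨N, hN⟩ : ∃ N, N = D * m ^ 2 := ⟨_, rfl⟩
      rw [← hN] at h4 h5
      omega
  rw [e2]
  split_ifs <;> push_cast <;> ring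

private theorem sum_two_mul (n : ℕ) (hn : 1 ≤ n) (F : ℕ → ℂ) :
    ∑ d ∈ (2 * n).divisors, F d = ∑ d ∈ n.divisors, F d +
      ∑ d ∈ n.divisors, (if n / d % 2 = 1 then F (2 * d) else 0) := by
  classical
  rw [← Finset.sum_filter_add_sum_filter_not (2 * n).divisors (fun d => d ∣ n)]
  congr 1
  · apply Finset.sum_congr _ fun _ _ => rfl
    ext d
    simp only [Finset.mem_filter, Nat.mem_divisors]
    constructor
    · rintro ⟨⟨_, _⟩, h⟩
      exact ⟨h, by omega⟩
    · rintro ⟨h, _⟩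
      exact ⟨⟨Dvd.dvd.mul_left h 2, by omega⟩, h⟩
  · rw [← Finset.sum_filter]
    symm
    apply Finset.sum_nbij (fun d => 2 * d)
    · intro d hd
      simp only [Finset.mem_filter, Nat.mem_divisors] at hd ⊢
      obtain ⟨⟨⟨k, rfl⟩, _⟩, h2⟩ := hd
      have hd0 : 0 < d := by
        rcases Nat.eq_zero_or_pos d with h | h
        · rw [h] at hn
          simp at hn
        · exact h
      rw [Nat.mul_div_cancel_left _ hd0] at h2
      refine ⟨⟨⟨k, by ring⟩, by omega⟩, ?_⟩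
      rintro ⟨l, hl⟩
      have : k = 2 * l := by
        apply Nat.eq_of_mul_eq_mul_left hd0
        rw [hl]
        ring
      omega
    · intro a _ b _ hab
      simp only at hab
      omega
    · intro d hd
      simp only [Finset.coe_filter, Nat.mem_divisors, Set.mem_ofPred_eq] at hd
      obtain ⟨⟨⟨k, hk⟩, _⟩, h2⟩ := hd
      have hk2 : k % 2 = 1 := by
        by_contra h3
        obtain ⟨l, rfl⟩ : ∃ l, k = 2 * l := ⟨k / 2, by omega⟩
        apply h2
        exact ⟨l, by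
          have : 2 * n = 2 * (d * l) := by rw [hk]; ring
          omega⟩
      have hd2 : d % 2 = 0 := by
        have h5 : d * k % 2 = 0 := by omega
        rw [Nat.mul_mod, hk2, mul_one, Nat.mod_mod] at h5
        exact h5
      obtain ⟨e, rfl⟩ : ∃ e, d = 2 * e := ⟨d / 2, by omega⟩
      have hn' : n = e * k := by
        have : 2 * n = 2 * (e * k) := by rw [hk]; ring
        omega
      have he0 : 0 < e := by
        rcases Nat.eq_zero_or_pos e with h | h
        · rw [h] at hn'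
          simp at hn'
          omega
        · exact h
      simp only [Finset.coe_filter, Nat.mem_divisors, Set.mem_image, Set.mem_ofPred_eq]
      refine ⟨e, ⟨⟨⟨k, hn'⟩, by omega⟩, ?_⟩, rfl⟩
      rw [hn', Nat.mul_div_cancel_left _ he0]
      exact hk2
    · intro d _
      rfl

private theorem sum_half (n : ℕ) (hn : 1 ≤ n) (h2 : n % 2 = 0) (F : ℕ → ℂ) :
    ∑ d ∈ (n / 2).divisors, F d = ∑ d ∈ n.divisors, (if n / d % 2 = 0 then F d else 0) := by
  classical
  rw [← Finset.sum_filter]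
  apply Finset.sum_congr _ fun _ _ => rfl
  ext d
  simp only [Finset.mem_filter, Nat.mem_divisors]
  obtain ⟨l, rfl⟩ : ∃ l, n = 2 * l := ⟨n / 2, by omega⟩
  rw [Nat.mul_div_cancel_left _ (by norm_num : 0 < 2)]
  constructor
  · rintro ⟨⟨k, rfl⟩, h3⟩
    have hd0 : 0 < d := by
      rcases Nat.eq_zero_or_pos d with h | h
      · rw [h] at h3
        simp at h3
      · exact h
    refine ⟨⟨⟨2 * k, by ring⟩, by omega⟩, ?_⟩
    have : 2 * (d * k) = d * (2 * k) := by ring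
    rw [this, Nat.mul_div_cancel_left _ hd0]
    omega
  · rintro ⟨⟨⟨k, hk⟩, h4⟩, h5⟩
    have hd0 : 0 < d := by
      rcases Nat.eq_zero_or_pos d with h | h
      · rw [h] at hk
        simp at hk
        omega
      · exact h
    rw [hk, Nat.mul_div_cancel_left _ hd0] at h5
    obtain ⟨j, rfl⟩ : ∃ j, k = 2 * j := ⟨k / 2, by omega⟩
    refine ⟨⟨j, ?_⟩, by omega⟩
    have : 2 * l = 2 * (d * j) := by rw [hk]; ring
    omega

theorem Sh_T (D κ : ℕ) (hκ : 1 ≤ κ) (hD4 : D % 4 = cls κ 1) (c : ℕ → ℂ) (n : ℕ) (hn : 1 ≤ n) :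
    Sh D κ (Tc κ 2 c) n = hecke (2 * κ) 2 (Sh D κ c) n + (2 : ℂ) ^ (κ - 1) * Sh D κ c n := by
  have hL : Sh D κ (Tc κ 2 c) n =
      ∑ d ∈ n.divisors, ((jacobiSym (d : ℤ) D : ℤ) : ℂ) * (d : ℂ) ^ (κ - 1) *
        c (D * (2 * n / d) ^ 2)
      + (2 : ℂ) ^ (κ - 1) * Sh D κ c n
      + ∑ d ∈ n.divisors, (if n / d % 2 = 1 then ((jacobiSym ((2 * d : ℕ) : ℤ) D : ℤ) : ℂ) *
          ((2 * d : ℕ) : ℂ) ^ (κ - 1) * c (D * (2 * n / (2 * d)) ^ 2) else 0)
      + (2 : ℂ) ^ (2 * κ - 1) * ∑ d ∈ n.divisors, (if n / d % 2 = 0 then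
          ((jacobiSym (d : ℤ) D : ℤ) : ℂ) * (d : ℂ) ^ (κ - 1) * c (D * (n / 2 / d) ^ 2)
          else 0) := by
    unfold Sh
    rw [Finset.mul_sum, Finset.mul_sum, ← Finset.sum_add_distrib, ← Finset.sum_add_distrib,
      ← Finset.sum_add_distrib]
    refine Finset.sum_congr rfl fun d hd => ?_
    rw [Nat.mem_divisors] at hd
    obtain ⟨⟨k, rfl⟩, _⟩ := hd
    have hd0 : 0 < d := by
      rcases Nat.eq_zero_or_pos d with h | h
      · rw [h] at hn
        simp at hn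
      · exact h
    have e1 : 2 * (d * k) / d = 2 * k := by
      have : 2 * (d * k) = d * (2 * k) := by ring
      rw [this, Nat.mul_div_cancel_left _ hd0]
    have e2 : 2 * (d * k) / (2 * d) = k := by
      have : 2 * (d * k) = 2 * d * k := by ring
      rw [this, Nat.mul_div_cancel_left _ (by omega)]
    have e3 : d * k / 2 / d = k / 2 := by
      rw [Nat.div_div_eq_div_mul, mul_comm 2 d, ← Nat.div_div_eq_div_mul,
        Nat.mul_div_cancel_left _ hd0]
    rw [Nat.mul_div_cancel_left _ hd0, e1, e2, e3, Tc_two D κ hD4 c k]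
    have e4 : jacobiSym ((2 * d : ℕ) : ℤ) D = jacobiSym 2 D * jacobiSym (d : ℤ) D := by
      rw [← jacobiSym.mul_left]
      push_cast
      rfl
    rw [e4]
    split_ifs <;> push_cast <;> ring
  have hR : hecke (2 * κ) 2 (Sh D κ c) n = Sh D κ c (2 * n) + (2 : ℂ) ^ (2 * κ - 1) *
      (if n % 2 = 0 then Sh D κ c (n / 2) else 0) := by
    unfold hecke
    by_cases h2 : n % 2 = 0
    · have hg : Nat.gcd 2 n = 2 := Nat.gcd_eq_left (Nat.dvd_of_mod_eq_zero h2)
      rw [hg, Nat.Prime.sum_divisors Nat.prime_two, if_pos h2]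
      have e5 : 2 * n / 2 ^ 2 = n / 2 := by omega
      rw [e5]
      simp
      ring
    · have hg : Nat.gcd 2 n = 1 := by
        rw [← Nat.coprime_iff_gcd_eq_one, Nat.coprime_two_left]
        exact Nat.odd_iff.mpr (by omega)
      rw [hg, if_neg h2]
      simp
  rw [hL, hR]
  have hR2 : Sh D κ c (2 * n) =
      ∑ d ∈ n.divisors, ((jacobiSym (d : ℤ) D : ℤ) : ℂ) * (d : ℂ) ^ (κ - 1) *
        c (D * (2 * n / d) ^ 2) +
      ∑ d ∈ n.divisors, (if n / d % 2 = 1 then ((jacobiSym ((2 * d : ℕ) : ℤ) D : ℤ) : ℂ) *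
          ((2 * d : ℕ) : ℂ) ^ (κ - 1) * c (D * (2 * n / (2 * d)) ^ 2) else 0) := by
    unfold Sh
    exact sum_two_mul n hn _
  rw [hR2]
  have hR3 : (if n % 2 = 0 then Sh D κ c (n / 2) else 0) =
      ∑ d ∈ n.divisors, (if n / d % 2 = 0 then
          ((jacobiSym (d : ℤ) D : ℤ) : ℂ) * (d : ℂ) ^ (κ - 1) * c (D * (n / 2 / d) ^ 2)
          else 0) := by
    by_cases h2 : n % 2 = 0
    · rw [if_pos h2]
      unfold Sh
      exact sum_half n hn h2 _
    · rw [if_neg h2]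
      symm
      apply Finset.sum_eq_zero
      intro d hd
      rw [if_neg]
      intro h3
      rw [Nat.mem_divisors] at hd
      obtain ⟨⟨k, rfl⟩, _⟩ := hd
      have hd0 : 0 < d := by
        rcases Nat.eq_zero_or_pos d with h | h
        · rw [h] at hn
          simp at hn
        · exact h
      rw [Nat.mul_div_cancel_left _ hd0] at h3
      apply h2
      rw [Nat.mul_mod, h3, mul_zero, Nat.zero_mod]
  rw [hR3]
  ring

theorem Sh_inj (D κ : ℕ) (c : ℕ → ℂ) (h : ∀ n, 1 ≤ n → Sh D κ c n = 0) :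
    ∀ n, 1 ≤ n → c (D * n ^ 2) = 0 := by
  intro n
  induction n using Nat.strong_induction_on with
  | _ n ih =>
    intro hn
    have h1 := h n hn
    unfold Sh at h1
    have hmem : 1 ∈ n.divisors := Nat.one_mem_divisors.mpr (by omega)
    rw [← Finset.add_sum_erase _ _ hmem] at h1
    have h2 : ∑ d ∈ n.divisors.erase 1, ((jacobiSym (d : ℤ) D : ℤ) : ℂ) * (d : ℂ) ^ (κ - 1) *
        c (D * (n / d) ^ 2) = 0 := by
      apply Finset.sum_eq_zero
      intro d hd
      rw [Finset.mem_erase, Nat.mem_divisors] at hd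
      obtain ⟨hd1, ⟨k, rfl⟩, _⟩ := hd
      have hd0 : 0 < d := by
        rcases Nat.eq_zero_or_pos d with h | h
        · rw [h] at hn
          simp at hn
        · exact h
      have hk0 : 0 < k := by
        rcases Nat.eq_zero_or_pos k with h | h
        · rw [h] at hn
          simp at hn
        · exact h
      rw [Nat.mul_div_cancel_left _ hd0, ih k (by nlinarith [hd0, hk0, show 2 ≤ d by omega]) hk0,
        mul_zero]
    rw [h2, add_zero] at h1
    simpa using h1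

theorem Sh_lin (D κ : ℕ) (c c' : ℕ → ℂ) (a : ℂ) (n : ℕ) :
    Sh D κ (fun n ↦ c n - a * c' n) n = Sh D κ c n - a * Sh D κ c' n := by
  unfold Sh
  rw [Finset.mul_sum, ← Finset.sum_sub_distrib]
  refine Finset.sum_congr rfl fun d _ => ?_
  ring

end MP836e4b.P
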