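/-
MODULE TBd (size M), board mod836, MP_836e4b_nt, folder Work/MP_836e4b_nt/P. Keep the statements verbatim, helper lemmas private.
SeedBd is preserved by T κ p (p prime): T κ p f τ is a finite combination (constant coefficients: the matrices of
the representatives do not depend on τ, by UT1, UT2, UT3 and M_eq; jf = d) of f((aτ+b)/d), and
Im((aτ+b)/d) = (a/d) Im τ, so each term is bounded by a constant times (Im τ)^{-(e+1)/2}.
-/
import Mathlib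
import Pool.Agent.Work.MP_836e4b_nt.P.Defs
import Pool.Agent.Work.MP_836e4b_nt.P.MA4
import Pool.Agent.Work.MP_836e4b_nt.P.UT1
import Pool.Agent.Work.MP_836e4b_nt.P.UT2
import Pool.Agent.Work.MP_836e4b_nt.P.UT3

open UpperHalfPlane Complex
open scoped MatrixGroups ComplexConjugate Matrix

namespace MP836e4b.P

private theorem tbd_mk {e : ℕ} {f : VF} (C : ℝ)
    (h : ∀ (τ : ℍ) (r : Fin 2), ‖f τ r‖ ≤ C * τ.im ^ (-(((e : ℝ) + 1) / 2))) : SeedBd e f := by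
  refine ⟨max C 1, lt_of_lt_of_le one_pos (le_max_right _ _), fun τ r ↦ ?_⟩
  refine (h τ r).trans ?_
  exact mul_le_mul_of_nonneg_right (le_max_left _ _) (Real.rpow_nonneg τ.im_pos.le _)

private theorem tbd_add {e : ℕ} {f g : VF} (hf : SeedBd e f) (hg : SeedBd e g) :
    SeedBd e (fun τ ↦ f τ + g τ) := by
  obtain ⟨C, -, hC⟩ := hf
  obtain ⟨C', -, hC'⟩ := hg
  refine tbd_mk (C + C') fun τ r ↦ ?_
  rw [add_mul]
  exact (norm_add_le _ _).trans (add_le_add (hC τ r) (hC' τ r))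

private theorem tbd_smul {e : ℕ} {f : VF} (a : ℂ) (hf : SeedBd e f) :
    SeedBd e (fun τ ↦ a • f τ) := by
  obtain ⟨C, -, hC⟩ := hf
  refine tbd_mk (‖a‖ * C) fun τ r ↦ ?_
  rw [Pi.smul_apply, smul_eq_mul, norm_mul, mul_assoc]
  exact mul_le_mul_of_nonneg_left (hC τ r) (norm_nonneg _)

private theorem tbd_sum {e : ℕ} (n : ℕ) (F : ℕ → VF) (hF : ∀ b ∈ Finset.range n, SeedBd e (F b)) :
    SeedBd e (fun τ ↦ ∑ b ∈ Finset.range n, F b τ) := by
  induction n with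
  | zero =>
    refine tbd_mk 0 fun τ r ↦ ?_
    simp
  | succ n ih =>
    have h1 : (fun τ ↦ ∑ b ∈ Finset.range (n + 1), F b τ) =
        fun τ ↦ (∑ b ∈ Finset.range n, F b τ) + F n τ := by
      funext τ
      rw [Finset.sum_range_succ]
    rw [h1]
    refine tbd_add (ih fun b hb ↦ hF b ?_) (hF n ?_)
    · exact Finset.mem_range.mpr ((Finset.mem_range.mp hb).trans (Nat.lt_succ_self n))
    · exact Finset.mem_range.mpr (Nat.lt_succ_self n)

private theorem tbd_sl (κ p e : ℕ) (A : Mat) (hA : 0 < A.det) (h10 : A 1 0 = 0)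
    (hm : ∃ m, ∀ τ, IsM p A τ m) (f : VF) (hf : SeedBd e f) : SeedBd e (sl κ p A f) := by
  obtain ⟨m, hm⟩ := hm
  obtain ⟨C, hC0, hC⟩ := hf
  have hj : ∀ τ : ℍ, jf A τ = (A 1 1 : ℂ) := by
    intro τ
    unfold jf
    rw [h10]
    simp
  set d : ℂ := (A 1 1 : ℂ) with hd
  have hd0 : d ≠ 0 := by
    rw [← hj UpperHalfPlane.I]
    exact jf_ne_zero A hA.ne' _
  have hdet : (0 : ℝ) < (A.det : ℝ) := by exact_mod_cast hA
  set k : ℝ := (A.det : ℝ) / ‖d‖ ^ 2 with hk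
  have hk0 : 0 < k := by
    have : 0 < ‖d‖ := norm_pos_iff.mpr hd0
    positivity
  have him : ∀ τ : ℍ, (mob A τ).im = k * τ.im := by
    intro τ
    rw [im_mob A hA, hj, hk]
    ring
  set E0 : Matrix (Fin 2) (Fin 2) ℂ :=
    if Even κ then ((‖d‖ : ℝ) : ℂ)⁻¹ • mᴴ else d⁻¹ • mᵀ with hE0
  have hE : ∀ τ, E κ p A τ = E0 := by
    intro τ
    unfold E
    rw [M_eq (hm τ), hj]
  refine tbd_mk (‖(d ^ κ)⁻¹‖ * (∑ r, ∑ s, ‖E0 r s‖) * (C * k ^ (-(((e : ℝ) + 1) / 2)))) ?_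
  intro τ r
  have h1 : sl κ p A f τ r = (d ^ κ)⁻¹ * ∑ s, E0 r s * f (mob A τ) s := by
    unfold sl
    rw [hE, hj, Pi.smul_apply, smul_eq_mul]
    rfl
  rw [h1, norm_mul, mul_assoc, mul_assoc]
  refine mul_le_mul_of_nonneg_left ?_ (norm_nonneg _)
  have h2 : ∀ s, ‖f (mob A τ) s‖ ≤ C * k ^ (-(((e : ℝ) + 1) / 2)) * τ.im ^ (-(((e : ℝ) + 1) / 2)) := by
    intro s
    refine (hC (mob A τ) s).trans ?_
    rw [him, Real.mul_rpow hk0.le τ.im_pos.le, mul_assoc]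
  have h3 : ‖∑ s, E0 r s * f (mob A τ) s‖ ≤ (∑ s, ‖E0 r s‖) *
      (C * k ^ (-(((e : ℝ) + 1) / 2)) * τ.im ^ (-(((e : ℝ) + 1) / 2))) := by
    rw [Finset.sum_mul]
    refine (norm_sum_le _ _).trans (Finset.sum_le_sum fun s _ ↦ ?_)
    rw [norm_mul]
    exact mul_le_mul_of_nonneg_left (h2 s) (norm_nonneg _)
  refine h3.trans ?_
  have h4 : (∑ s, ‖E0 r s‖) ≤ ∑ r, ∑ s, ‖E0 r s‖ :=
    Finset.single_le_sum (f := fun r ↦ ∑ s, ‖E0 r s‖)
      (fun i _ ↦ Finset.sum_nonneg fun s _ ↦ norm_nonneg _) (Finset.mem_univ r)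
  refine mul_le_mul_of_nonneg_right h4 ?_
  have h5 : 0 ≤ τ.im ^ (-(((e : ℝ) + 1) / 2)) := Real.rpow_nonneg τ.im_pos.le _
  have h6 : 0 ≤ k ^ (-(((e : ℝ) + 1) / 2)) := Real.rpow_nonneg hk0.le _
  positivity

theorem T_bd (κ p e : ℕ) (hp : p.Prime) (f : VF) (hf : SeedBd e f) : SeedBd e (T κ p f) := by
  have hp0 : (0 : ℤ) < (p : ℤ) := by exact_mod_cast hp.pos
  have hpp : (0 : ℤ) < (p : ℤ) ^ 2 := by positivity
  have h1 : SeedBd e (sl κ p !![(p : ℤ) ^ 2, 0; 0, 1] f) := by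
    refine tbd_sl κ p e _ ?_ ?_ ?_ f hf
    · rw [Matrix.det_fin_two_of]
      linarith
    · rfl
    · rcases hp.eq_two_or_odd' with h | h
      · exact ⟨_, fun τ ↦ isM_U2_two p h τ⟩
      · exact ⟨_, fun τ ↦ isM_U2_odd p h τ⟩
  have h2 : ∀ b ∈ Finset.range p, SeedBd e (sl κ p !![(p : ℤ), (b : ℤ); 0, (p : ℤ)] f) := by
    intro b hb
    refine tbd_sl κ p e _ ?_ ?_ ?_ f hf
    · rw [Matrix.det_fin_two_of]
      nlinarith
    · rfl
    · rcases hp.eq_two_or_odd' with h | h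
      · have hb2 : b < 2 := h ▸ Finset.mem_range.mp hb
        interval_cases b
        · exact ⟨_, fun τ ↦ isM_U3_two_zero p h τ⟩
        · exact ⟨_, fun τ ↦ isM_U3_two_one p h τ⟩
      · exact ⟨_, fun τ ↦ isM_U3_odd p h b τ⟩
  have h3 : ∀ b ∈ Finset.range (p ^ 2),
      SeedBd e (sl κ p !![1, (b : ℤ); 0, (p : ℤ) ^ 2] f) := by
    intro b _
    refine tbd_sl κ p e _ ?_ ?_ ?_ f hf
    · rw [Matrix.det_fin_two_of]
      linarith
    · rfl
    · rcases hp.eq_two_or_odd' with h | h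
      · exact ⟨_, fun τ ↦ isM_U1_two p h b τ⟩
      · exact ⟨_, fun τ ↦ isM_U1_odd p h b τ⟩
  exact tbd_smul _ (tbd_add (tbd_add h1 (tbd_sum p _ h2)) (tbd_sum (p ^ 2) _ h3))

end MP836e4b.P
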