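/-
MODULE T2E (size L), board mod836, MP_836e4b_nt, folder Work/MP_836e4b_nt/P. Keep the statements verbatim, helper lemmas private.
Fourier expansion of T κ 2 h. M_eq from UT1/UT2/UT3 (p = 2). Put ε = +1 (κ odd, E = Mᵀ/j) or -1 (κ even,
E = Mᴴ/|j|); j = d for upper triangular matrices. Exponents of component 1 are n = 3 (κ odd) / 1 (κ even) mod 4.
 (4,0;0,1): j = 1, Mᵀ = (1/2,1/2;0,0): component 0: (h_0+h_1)(4τ)/2; times 2^(2κ): 2^(2κ-1) c(N/4), N = 4n.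
 (2,0;0,2): 2^(-κ-1) h, times 2^(2κ): 2^(κ-1) c(N).
 (2,1;0,2): component 1: 2^(-κ-1) e(ε/8) h_1(τ+1/2); coefficient c(N) e((N+ε)/8) = psi κ 2 N c(N).
 (1,b;0,4): 4^(-κ-1) (∑_b h_0((τ+b)/4), ∑_b e(εb/4) h_0((τ+b)/4)), h_0 = ∑ c(4N) e(Nτ) so
  h_0((τ+b)/4) = ∑_N c(4N) e(Nb/4) e(Nτ/4); ∑_b picks N = 0 mod 4 resp. N + ε = 0 mod 4 (N = 3 resp. 1), factor 4.
Total = Tc κ 2 c (classes 0 and cls κ 1 only). zero and supp are immediate.
-/
import Mathlib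
import Pool.Agent.Work.MP_836e4b_nt.P.Defs
import Pool.Agent.Work.MP_836e4b_nt.P.Bas
import Pool.Agent.Work.MP_836e4b_nt.P.GaD
import Pool.Agent.Work.MP_836e4b_nt.P.ThI
import Pool.Agent.Work.MP_836e4b_nt.P.MA4
import Pool.Agent.Work.MP_836e4b_nt.P.UT1
import Pool.Agent.Work.MP_836e4b_nt.P.UT2
import Pool.Agent.Work.MP_836e4b_nt.P.UT3

open UpperHalfPlane Complex
open scoped MatrixGroups ComplexConjugate Matrix

namespace MP836e4b.P

private noncomputable def t2e_s (κ : ℕ) (x : ℂ) : ℂ := if Even κ then conj x else x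

private def t2e_e (κ : ℕ) : ℤ := if Even κ then -1 else 1

private theorem t2e_s_mul (κ : ℕ) (x y : ℂ) : t2e_s κ (x * y) = t2e_s κ x * t2e_s κ y := by
  unfold t2e_s
  split_ifs
  · rw [map_mul]
  · rfl

private theorem t2e_s_zero (κ : ℕ) : t2e_s κ 0 = 0 := by
  unfold t2e_s
  split_ifs
  · rw [map_zero]
  · rfl

private theorem t2e_s_ofReal (κ : ℕ) (x : ℝ) : t2e_s κ (x : ℂ) = (x : ℂ) := by
  unfold t2e_s
  split_ifs
  · rw [Complex.conj_ofReal]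
  · rfl

private theorem t2e_s_one (κ : ℕ) : t2e_s κ 1 = 1 := by
  have h := t2e_s_ofReal κ 1
  rwa [Complex.ofReal_one] at h

private theorem t2e_s_ee (κ : ℕ) (x : ℝ) : t2e_s κ (ee (x : ℂ)) = ee ((t2e_e κ : ℂ) * (x : ℂ)) := by
  unfold t2e_s t2e_e
  split_ifs
  · rw [conj_ee, Complex.conj_ofReal]
    push_cast
    rw [neg_one_mul]
  · push_cast
    rw [one_mul]

private theorem t2e_up (κ p : ℕ) (a b d : ℤ) (hd : 0 < d) (τ : ℍ)
    (m : Matrix (Fin 2) (Fin 2) ℂ) (hm : IsM p !![a, b; 0, d] τ m) (h : VF) (r : Fin 2) :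
    sl κ p !![a, b; 0, d] h τ r = ((d : ℂ) ^ (κ + 1))⁻¹ *
      (t2e_s κ (m 0 r) * h (mob !![a, b; 0, d] τ) 0 +
        t2e_s κ (m 1 r) * h (mob !![a, b; 0, d] τ) 1) := by
  have hj : jf !![a, b; 0, d] τ = (d : ℂ) := by
    unfold jf
    simp
  have hn : ((‖(d : ℂ)‖ : ℝ) : ℂ) = (d : ℂ) := by
    rw [Complex.norm_intCast, abs_of_pos (by exact_mod_cast hd : (0 : ℝ) < (d : ℝ))]
    push_cast
    rfl
  have hd0 : (d : ℂ) ≠ 0 := by exact_mod_cast hd.ne'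
  have hE : ∀ s : Fin 2, E κ p !![a, b; 0, d] τ r s = (d : ℂ)⁻¹ * t2e_s κ (m s r) := by
    intro s
    unfold E t2e_s
    rw [hj, M_eq hm, hn]
    split_ifs
    · rfl
    · rfl
  have h1 : sl κ p !![a, b; 0, d] h τ r = ((jf !![a, b; 0, d] τ) ^ κ)⁻¹ *
      ((E κ p !![a, b; 0, d] τ) *ᵥ (h (mob !![a, b; 0, d] τ))) r := rfl
  rw [h1, Matrix.mulVec, dotProduct, Fin.sum_univ_two, hE, hE, hj, pow_succ, mul_inv]
  ring

private theorem t2e_root (m : ℕ) (hm : 0 < m) (j : ℤ) :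
    ∑ b ∈ Finset.range m, ee ((j : ℂ) * (b : ℂ) / (m : ℂ)) = if (m : ℤ) ∣ j then (m : ℂ) else 0 := by
  have hmc : (m : ℂ) ≠ 0 := by exact_mod_cast hm.ne'
  split_ifs with h
  · obtain ⟨t, rfl⟩ := h
    have h1 : ∀ b ∈ Finset.range m, ee ((((m : ℤ) * t : ℤ) : ℂ) * (b : ℂ) / (m : ℂ)) = 1 := by
      intro b _
      have h2 : (((m : ℤ) * t : ℤ) : ℂ) * (b : ℂ) / (m : ℂ) = ((t * (b : ℤ) : ℤ) : ℂ) := by
        push_cast
        field_simp
      rw [h2, ee_intCast]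
    rw [Finset.sum_congr rfl h1, Finset.sum_const, Finset.card_range, nsmul_eq_mul, mul_one]
  · have h1 : ∀ b ∈ Finset.range m, ee ((j : ℂ) * (b : ℂ) / (m : ℂ)) =
        (ee ((j : ℂ) / (m : ℂ))) ^ b := by
      intro b _
      unfold ee
      rw [← Complex.exp_nat_mul]
      congr 1
      ring
    rw [Finset.sum_congr rfl h1]
    have h2 : ee ((j : ℂ) / (m : ℂ)) ≠ 1 := by
      intro h3
      unfold ee at h3
      rw [Complex.exp_eq_one_iff] at h3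
      obtain ⟨n, hn⟩ := h3
      apply h
      refine ⟨n, ?_⟩
      have h4 : (j : ℂ) / (m : ℂ) = (n : ℂ) := by
        have h5 : (2 * (Real.pi : ℂ) * Complex.I) ≠ 0 := Complex.two_pi_I_ne_zero
        apply mul_left_cancel₀ h5
        rw [hn]
        ring
      rw [div_eq_iff hmc] at h4
      have h5 : (j : ℂ) = (((m : ℤ) * n : ℤ) : ℂ) := by
        rw [h4]
        push_cast
        ring
      exact_mod_cast h5
    have h3 : (ee ((j : ℂ) / (m : ℂ))) ^ m = 1 := by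
      have h4 : (ee ((j : ℂ) / (m : ℂ))) ^ m = ee (j : ℂ) := by
        unfold ee
        rw [← Complex.exp_nat_mul]
        congr 1
        field_simp
      rw [h4, ee_intCast]
    rw [geom_sum_eq h2, h3, sub_self, zero_div]

private theorem t2e_cls0 (κ : ℕ) : cls κ 0 = 0 := by
  unfold cls
  rw [if_pos rfl]

private theorem t2e_cls1 (κ : ℕ) : cls κ 1 = if Even κ then 1 else 3 := by
  unfold cls
  rw [if_neg (by decide)]

private theorem t2e_mob (a b d : ℤ) (ha : 0 < a) (hd : 0 < d) (τ : ℍ) :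
    ((mob !![a, b; 0, d] τ : ℍ) : ℂ) = ((a : ℂ) * (τ : ℂ) + (b : ℂ)) / (d : ℂ) := by
  have hdet : 0 < (!![a, b; 0, d] : Mat).det := by
    rw [Matrix.det_fin_two_of]
    nlinarith [mul_pos ha hd]
  rw [coe_mob _ hdet]
  unfold jf
  simp

private theorem t2e_cls (κ n : ℕ) (r : Fin 2) :
    (4 : ℤ) ∣ (n : ℤ) + t2e_e κ * ((r : ℕ) : ℤ) ↔ n % 4 = cls κ r := by
  fin_cases r
  · have h2 : cls κ (0 : Fin 2) = 0 := t2e_cls0 κ
    change (4 : ℤ) ∣ (n : ℤ) + t2e_e κ * ((0 : ℕ) : ℤ) ↔ n % 4 = cls κ (0 : Fin 2)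
    rw [h2]
    push_cast
    omega
  · have h2 := t2e_cls1 κ
    change (4 : ℤ) ∣ (n : ℤ) + t2e_e κ * ((1 : ℕ) : ℤ) ↔ n % 4 = cls κ (1 : Fin 2)
    rw [h2]
    unfold t2e_e
    by_cases hk : Even κ
    · rw [if_pos hk, if_pos hk]
      push_cast
      omega
    · rw [if_neg hk, if_neg hk]
      push_cast
      omega

private theorem t2e_L3 (κ N : ℕ) (r : Fin 2) :
    ∑ b ∈ Finset.range 4, t2e_s κ (ee (((r : ℕ) : ℂ) * (b : ℂ) / 4)) *
      ee ((N : ℂ) * (b : ℂ) / 4) = if N % 4 = cls κ r then 4 else 0 := by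
  have h1 : ∀ b ∈ Finset.range 4, t2e_s κ (ee (((r : ℕ) : ℂ) * (b : ℂ) / 4)) *
      ee ((N : ℂ) * (b : ℂ) / 4) =
        ee ((((N : ℤ) + t2e_e κ * ((r : ℕ) : ℤ) : ℤ) : ℂ) * (b : ℂ) / ((4 : ℕ) : ℂ)) := by
    intro b _
    have h2 : ((r : ℕ) : ℂ) * (b : ℂ) / 4 = (((((r : ℕ) : ℝ) * (b : ℝ) / 4 : ℝ)) : ℂ) := by
      push_cast
      rfl
    rw [h2, t2e_s_ee, ← ee_add]
    congr 1
    push_cast
    ring
  rw [Finset.sum_congr rfl h1, t2e_root 4 (by norm_num)]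
  have h3 := t2e_cls κ N r
  have h4 : ((4 : ℕ) : ℤ) = 4 := by norm_num
  rw [h4]
  by_cases h : N % 4 = cls κ r
  · rw [if_pos h, if_pos (h3.mpr h)]
    norm_num
  · rw [if_neg h, if_neg (fun h' ↦ h (h3.mp h'))]

private theorem t2e_L2 (κ N : ℕ) (hN : N % 4 = cls κ 1) :
    t2e_s κ (ee (1 / 8)) * ee ((N : ℂ) / 8) = ((psi κ 2 N : ℤ) : ℂ) := by
  have h2 : (1 : ℂ) / 8 = (((1 / 8 : ℝ)) : ℂ) := by
    push_cast
    rfl
  rw [h2, t2e_s_ee, ← ee_add]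
  have h1 := t2e_cls1 κ
  rw [h1] at hN
  have hodd : N % 2 ≠ 0 := by
    split_ifs at hN <;> omega
  unfold psi t2e_e
  rw [if_pos rfl, if_neg hodd]
  have hhalf : ee (1 / 2) = -1 := by
    unfold ee
    rw [show 2 * (Real.pi : ℂ) * Complex.I * (1 / 2) = (Real.pi : ℂ) * Complex.I by ring]
    exact Complex.exp_pi_mul_I
  by_cases hk : Even κ
  · rw [if_pos hk, hk.neg_one_pow, one_mul]
    rw [if_pos hk] at hN
    by_cases h8 : (N : ℤ) % 8 = 1
    · rw [if_pos h8]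
      obtain ⟨t, ht⟩ : ∃ t : ℤ, (N : ℤ) = 8 * t + 1 := ⟨(N : ℤ) / 8, by omega⟩
      have h3 : (N : ℂ) = 8 * (t : ℂ) + 1 := by exact_mod_cast ht
      rw [h3]
      have h4 : ((-1 : ℤ) : ℂ) * (((1 / 8 : ℝ)) : ℂ) + (8 * (t : ℂ) + 1) / 8 = (t : ℂ) := by
        push_cast
        ring
      rw [h4, ee_intCast]
      norm_num
    · rw [if_neg h8]
      obtain ⟨t, ht⟩ : ∃ t : ℤ, (N : ℤ) = 8 * t + 5 := ⟨(N : ℤ) / 8, by omega⟩
      have h3 : (N : ℂ) = 8 * (t : ℂ) + 5 := by exact_mod_cast ht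
      rw [h3]
      have h4 : ((-1 : ℤ) : ℂ) * (((1 / 8 : ℝ)) : ℂ) + (8 * (t : ℂ) + 5) / 8 =
          1 / 2 + (t : ℂ) := by
        push_cast
        ring
      rw [h4, ee_add_int, hhalf]
      norm_num
  · rw [if_neg hk, (Nat.not_even_iff_odd.mp hk).neg_one_pow]
    rw [if_neg hk] at hN
    by_cases h8 : (-1 * (N : ℤ)) % 8 = 1
    · rw [if_pos h8]
      obtain ⟨t, ht⟩ : ∃ t : ℤ, (N : ℤ) = 8 * t + 7 := ⟨(N : ℤ) / 8, by omega⟩
      have h3 : (N : ℂ) = 8 * (t : ℂ) + 7 := by exact_mod_cast ht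
      rw [h3]
      have h4 : ((1 : ℤ) : ℂ) * (((1 / 8 : ℝ)) : ℂ) + (8 * (t : ℂ) + 7) / 8 =
          ((t + 1 : ℤ) : ℂ) := by
        push_cast
        ring
      rw [h4, ee_intCast]
      norm_num
    · rw [if_neg h8]
      obtain ⟨t, ht⟩ : ∃ t : ℤ, (N : ℤ) = 8 * t + 3 := ⟨(N : ℤ) / 8, by omega⟩
      have h3 : (N : ℂ) = 8 * (t : ℂ) + 3 := by exact_mod_cast ht
      rw [h3]
      have h4 : ((1 : ℤ) : ℂ) * (((1 / 8 : ℝ)) : ℂ) + (8 * (t : ℂ) + 3) / 8 =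
          1 / 2 + (t : ℂ) := by
        push_cast
        ring
      rw [h4, ee_add_int, hhalf]
      norm_num

theorem hasE_T_two (κ : ℕ) (hκ : 1 ≤ κ) (c : ℕ → ℂ) (h : VF) (H : HasE κ c h) :
    HasE κ (Tc κ 2 c) (T κ 2 h) := by
  refine ⟨?_, ?_, ?_⟩
  · unfold Tc
    simp [H.zero]
  · intro n h0 h1
    unfold Tc
    rw [if_neg (by
      rintro (h | h)
      · exact h0 h
      · exact h1 h)]
  · intro τ r
    have hinj : Function.Injective fun n : ℕ ↦ 4 * n := by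
      intro a b hab
      exact Nat.eq_of_mul_eq_mul_left (by norm_num) hab
    have hcond : ∀ n : ℕ, n % 4 = cls κ r → (n % 4 = cls κ 0 ∨ n % 4 = cls κ 1) := by
      intro n hn
      fin_cases r
      · exact Or.inl hn
      · exact Or.inr hn
    have hc0 := t2e_cls0 κ
    have hc1 := t2e_cls1 κ
    have h22 : ((2 : ℕ) : ℤ) ^ 2 = 4 := by norm_num
    -- first piece
    have hX1 : HasSum (fun N : ℕ ↦ if N % 4 = cls κ r then (2 : ℂ) ^ (2 * κ - 1) *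
        (if 4 ∣ N then c (N / 4) else 0) * ee ((N : ℂ) * (τ : ℂ) / 4) else 0)
        ((2 : ℂ) ^ (2 * κ) * sl κ 2 !![((2 : ℕ) : ℤ) ^ 2, 0; 0, 1] h τ r) := by
      have e0 : (2 : ℂ) ^ (2 * κ) = (2 : ℂ) ^ (2 * κ - 1) * 2 := by
        rw [← pow_succ]
        congr 1
        omega
      have e2 : t2e_s κ (1 / 2) = 1 / 2 := by
        have e3 := t2e_s_ofReal κ (1 / 2)
        push_cast at e3
        exact e3
      by_cases hr : r = 0
      · subst hr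
        set σ : ℍ := mob !![((2 : ℕ) : ℤ) ^ 2, 0; 0, 1] τ with hσ
        have e4 : (σ : ℂ) = 4 * (τ : ℂ) := by
          rw [hσ, t2e_mob _ _ _ (by positivity) one_pos]
          push_cast
          ring
        have e1 : sl κ 2 !![((2 : ℕ) : ℤ) ^ 2, 0; 0, 1] h τ 0 = 1 / 2 * (h σ 0 + h σ 1) := by
          rw [t2e_up κ 2 _ _ _ one_pos τ _ (isM_U2_two 2 rfl τ)]
          rw [← hσ]
          simp only [Matrix.of_apply, Matrix.cons_val', Matrix.cons_val_zero, Matrix.cons_val_one]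
          rw [e2, Int.cast_one, one_pow, inv_one]
          ring
        have e5 : HasSum (fun N : ℕ ↦ c N * ee ((N : ℂ) * (σ : ℂ) / 4)) (h σ 0 + h σ 1) := by
          refine ((H.sum σ 0).add (H.sum σ 1)).congr_fun fun N ↦ ?_
          rw [hc0, hc1]
          by_cases h3 : N % 4 = 0
          · rw [if_pos h3, if_neg (by split_ifs <;> omega), add_zero]
          · rw [if_neg h3, zero_add]
            by_cases h4 : N % 4 = if Even κ then 1 else 3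
            · rw [if_pos h4]
            · rw [if_neg h4, H.supp N (by rw [hc0]; exact h3) (by rw [hc1]; exact h4), zero_mul]
        rw [e1, ← mul_assoc]
        have e6 := e5.mul_left ((2 : ℂ) ^ (2 * κ) * (1 / 2))
        rw [← hinj.hasSum_iff]
        · refine e6.congr_fun fun n ↦ ?_
          change (if (4 * n) % 4 = cls κ 0 then (2 : ℂ) ^ (2 * κ - 1) *
            (if 4 ∣ 4 * n then c (4 * n / 4) else 0) *
              ee (((4 * n : ℕ) : ℂ) * (τ : ℂ) / 4) else 0) = _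
          rw [hc0, if_pos (by omega), if_pos (dvd_mul_right _ _),
            Nat.mul_div_cancel_left _ (by norm_num), e0, e4]
          have e7 : ((4 * n : ℕ) : ℂ) * (τ : ℂ) / 4 = (n : ℂ) * (4 * (τ : ℂ)) / 4 := by
            push_cast
            ring
          rw [e7]
          ring
        · intro N hN
          have h5 : ¬ 4 ∣ N := by
            rintro ⟨t, rfl⟩
            exact hN ⟨t, rfl⟩
          rw [if_neg h5, mul_zero, zero_mul, ite_self]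
      · have hr1 : r = 1 := by omega
        subst hr1
        have e1 : sl κ 2 !![((2 : ℕ) : ℤ) ^ 2, 0; 0, 1] h τ 1 = 0 := by
          rw [t2e_up κ 2 _ _ _ one_pos τ _ (isM_U2_two 2 rfl τ)]
          simp [t2e_s_zero]
        rw [e1, mul_zero]
        refine hasSum_zero.congr_fun fun N ↦ ?_
        by_cases h3 : N % 4 = cls κ 1
        · rw [if_pos h3, if_neg, mul_zero, zero_mul]
          rw [hc1] at h3
          split_ifs at h3 <;> omega
        · rw [if_neg h3]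
    -- second piece
    have hX2 : HasSum (fun N : ℕ ↦ if N % 4 = cls κ r then (2 : ℂ) ^ (κ - 1) *
        (1 + ((psi κ 2 N : ℤ) : ℂ)) * c N * ee ((N : ℂ) * (τ : ℂ) / 4) else 0)
        ((2 : ℂ) ^ (2 * κ) *
          ∑ b ∈ Finset.range 2, sl κ 2 !![((2 : ℕ) : ℤ), (b : ℤ); 0, ((2 : ℕ) : ℤ)] h τ r) := by
      have e0 : (2 : ℂ) ^ (2 * κ) = (2 : ℂ) ^ (κ - 1) * (2 : ℂ) ^ (κ + 1) := by
        rw [← pow_add]
        congr 1
        omega
      have h2z : (0 : ℤ) < ((2 : ℕ) : ℤ) := by norm_num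
      have em0 : mob !![((2 : ℕ) : ℤ), ((0 : ℕ) : ℤ); 0, ((2 : ℕ) : ℤ)] τ = τ := by
        apply UpperHalfPlane.ext
        rw [t2e_mob _ _ _ h2z h2z]
        push_cast
        ring
      have e1 : sl κ 2 !![((2 : ℕ) : ℤ), ((0 : ℕ) : ℤ); 0, ((2 : ℕ) : ℤ)] h τ r =
          ((2 : ℂ) ^ (κ + 1))⁻¹ * h τ r := by
        have e2 := t2e_up κ 2 _ _ _ h2z τ _ (isM_U3_two_zero 2 rfl τ) h r
        have e3 : mob !![((2 : ℕ) : ℤ), 0; 0, ((2 : ℕ) : ℤ)] τ = τ := em0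
        rw [e3] at e2
        rw [Nat.cast_zero, e2]
        have hr : r = 0 ∨ r = 1 := by omega
        rcases hr with hr | hr
        · subst hr
          simp [t2e_s_zero, t2e_s_one]
        · subst hr
          simp [t2e_s_zero, t2e_s_one]
      rw [Finset.sum_range_succ, Finset.sum_range_one, e1]
      by_cases hr : r = 0
      · subst hr
        have e4 : sl κ 2 !![((2 : ℕ) : ℤ), ((1 : ℕ) : ℤ); 0, ((2 : ℕ) : ℤ)] h τ 0 = 0 := by
          have e2 := t2e_up κ 2 _ _ _ h2z τ _ (isM_U3_two_one 2 rfl τ) h 0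
          rw [Nat.cast_one, e2]
          simp [t2e_s_zero]
        rw [e4, add_zero, ← mul_assoc, e0, mul_assoc ((2 : ℂ) ^ (κ - 1)),
          mul_inv_cancel₀ (pow_ne_zero _ two_ne_zero), mul_one]
        refine ((H.sum τ 0).mul_left ((2 : ℂ) ^ (κ - 1))).congr_fun fun N ↦ ?_
        by_cases h3 : N % 4 = cls κ 0
        · rw [if_pos h3, if_pos h3]
          have h4 : psi κ 2 N = 0 := by
            unfold psi
            rw [if_pos rfl, if_pos (by rw [hc0] at h3; omega)]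
          rw [h4]
          push_cast
          ring
        · rw [if_neg h3, if_neg h3, mul_zero]
      · have hr1 : r = 1 := by omega
        subst hr1
        set σ : ℍ := mob !![((2 : ℕ) : ℤ), ((1 : ℕ) : ℤ); 0, ((2 : ℕ) : ℤ)] τ with hσ
        have e5 : (σ : ℂ) = (τ : ℂ) + 1 / 2 := by
          rw [hσ, t2e_mob _ _ _ h2z h2z]
          push_cast
          ring
        have e4 : sl κ 2 !![((2 : ℕ) : ℤ), ((1 : ℕ) : ℤ); 0, ((2 : ℕ) : ℤ)] h τ 1 =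
            ((2 : ℂ) ^ (κ + 1))⁻¹ * (t2e_s κ (ee (1 / 8)) * h σ 1) := by
          have e2 := t2e_up κ 2 _ _ _ h2z τ _ (isM_U3_two_one 2 rfl τ) h 1
          have e3 : mob !![((2 : ℕ) : ℤ), 1; 0, ((2 : ℕ) : ℤ)] τ = σ := rfl
          rw [e3] at e2
          rw [Nat.cast_one, e2]
          simp [t2e_s_zero]
        have e6 : (2 : ℂ) ^ (2 * κ) * (((2 : ℂ) ^ (κ + 1))⁻¹ * h τ 1 +
            ((2 : ℂ) ^ (κ + 1))⁻¹ * (t2e_s κ (ee (1 / 8)) * h σ 1)) =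
            (2 : ℂ) ^ (κ - 1) * h τ 1 + ((2 : ℂ) ^ (κ - 1) * t2e_s κ (ee (1 / 8))) * h σ 1 := by
          have e7 : (2 : ℂ) ^ (κ + 1) * ((2 : ℂ) ^ (κ + 1))⁻¹ = 1 :=
            mul_inv_cancel₀ (pow_ne_zero _ two_ne_zero)
          rw [e0]
          linear_combination ((2 : ℂ) ^ (κ - 1) * (h τ 1 + t2e_s κ (ee (1 / 8)) * h σ 1)) * e7
        rw [e4, e6]
        refine (((H.sum τ 1).mul_left _).add ((H.sum σ 1).mul_left _)).congr_fun fun N ↦ ?_
        by_cases h3 : N % 4 = cls κ 1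
        · rw [if_pos h3, if_pos h3, if_pos h3, ← t2e_L2 κ N h3, e5]
          have e7 : (N : ℂ) * ((τ : ℂ) + 1 / 2) / 4 = (N : ℂ) * (τ : ℂ) / 4 + (N : ℂ) / 8 := by
            ring
          rw [e7, ee_add]
          ring
        · rw [if_neg h3, if_neg h3, if_neg h3, mul_zero, mul_zero, add_zero]
    -- third piece
    have hX3 : HasSum (fun N : ℕ ↦ if N % 4 = cls κ r then c (4 * N) *
        ee ((N : ℂ) * (τ : ℂ) / 4) else 0)
        ((2 : ℂ) ^ (2 * κ) *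
          ∑ b ∈ Finset.range 4, sl κ 2 !![1, (b : ℤ); 0, ((2 : ℕ) : ℤ) ^ 2] h τ r) := by
      have hp2z : (0 : ℤ) < ((2 : ℕ) : ℤ) ^ 2 := by positivity
      have e1 : ∀ b : ℕ, sl κ 2 !![1, (b : ℤ); 0, ((2 : ℕ) : ℤ) ^ 2] h τ r =
          ((4 : ℂ) ^ (κ + 1))⁻¹ * t2e_s κ (ee (((r : ℕ) : ℂ) * (b : ℂ) / 4)) *
              h (mob !![1, (b : ℤ); 0, ((2 : ℕ) : ℤ) ^ 2] τ) 0 := by
        intro b
        rw [t2e_up κ 2 _ _ _ hp2z τ _ (isM_U1_two 2 rfl b τ)]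
        have e2 : (((((2 : ℕ) : ℤ) ^ 2 : ℤ)) : ℂ) = 4 := by norm_num
        rw [e2]
        fin_cases r
        · simp [t2e_s_zero, t2e_s_one, ee_zero]
        · simp [t2e_s_zero]
          ring
      have e2 : ∀ b : ℕ, ((mob !![1, (b : ℤ); 0, ((2 : ℕ) : ℤ) ^ 2] τ : ℍ) : ℂ) =
          ((τ : ℂ) + (b : ℂ)) / 4 := by
        intro b
        rw [t2e_mob _ _ _ one_pos hp2z]
        push_cast
        norm_num
      rw [Finset.mul_sum]
      have e3 : HasSum (fun N : ℕ ↦ ∑ b ∈ Finset.range 4, ((2 : ℂ) ^ (2 * κ) *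
          (((4 : ℂ) ^ (κ + 1))⁻¹ * t2e_s κ (ee (((r : ℕ) : ℂ) * (b : ℂ) / 4)))) *
              (if N % 4 = cls κ 0 then c N * ee ((N : ℂ) *
                ((mob !![1, (b : ℤ); 0, ((2 : ℕ) : ℤ) ^ 2] τ : ℍ) : ℂ) / 4) else 0))
          (∑ b ∈ Finset.range 4, (2 : ℂ) ^ (2 * κ) *
            sl κ 2 !![1, (b : ℤ); 0, ((2 : ℕ) : ℤ) ^ 2] h τ r) := by
        refine hasSum_sum fun b _ ↦ ?_
        have e8 := (H.sum (mob !![1, (b : ℤ); 0, ((2 : ℕ) : ℤ) ^ 2] τ) 0).mul_left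
          ((2 : ℂ) ^ (2 * κ) * (((4 : ℂ) ^ (κ + 1))⁻¹ *
            t2e_s κ (ee (((r : ℕ) : ℂ) * (b : ℂ) / 4))))
        rw [mul_assoc ((2 : ℂ) ^ (2 * κ))] at e8
        rw [e1]
        exact e8
      have e5 : (2 : ℂ) ^ (2 * κ) * ((4 : ℂ) ^ (κ + 1))⁻¹ = (4 : ℂ)⁻¹ := by
        rw [pow_mul, show (2 : ℂ) ^ 2 = 4 by norm_num, pow_succ, mul_inv, ← mul_assoc,
          mul_inv_cancel₀ (pow_ne_zero _ (by norm_num)), one_mul]
      have e6 := (hinj.hasSum_iff (f := fun N : ℕ ↦ ∑ b ∈ Finset.range 4, ((2 : ℂ) ^ (2 * κ) *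
          (((4 : ℂ) ^ (κ + 1))⁻¹ * t2e_s κ (ee (((r : ℕ) : ℂ) * (b : ℂ) / 4)))) *
              (if N % 4 = cls κ 0 then c N * ee ((N : ℂ) *
                ((mob !![1, (b : ℤ); 0, ((2 : ℕ) : ℤ) ^ 2] τ : ℍ) : ℂ) / 4) else 0)) (by
          intro N hN
          refine Finset.sum_eq_zero fun b _ ↦ ?_
          rw [if_neg, mul_zero]
          rw [hc0]
          intro h9
          obtain ⟨t, rfl⟩ := Nat.dvd_of_mod_eq_zero h9
          exact hN ⟨t, rfl⟩)).mpr e3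
      refine e6.congr_fun fun n ↦ ?_
      change _ = ∑ b ∈ Finset.range 4, ((2 : ℂ) ^ (2 * κ) *
          (((4 : ℂ) ^ (κ + 1))⁻¹ * t2e_s κ (ee (((r : ℕ) : ℂ) * (b : ℂ) / 4)))) *
              (if (4 * n) % 4 = cls κ 0 then c (4 * n) * ee (((4 * n : ℕ) : ℂ) *
                ((mob !![1, (b : ℤ); 0, ((2 : ℕ) : ℤ) ^ 2] τ : ℍ) : ℂ) / 4) else 0)
      have e7 : (if n % 4 = cls κ r then c (4 * n) * ee ((n : ℂ) * (τ : ℂ) / 4) else 0) =
          ((4 : ℂ)⁻¹ * (c (4 * n) * ee ((n : ℂ) * (τ : ℂ) / 4))) *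
            (if n % 4 = cls κ r then 4 else 0) := by
        split_ifs
        · ring
        · ring
      rw [e7, ← t2e_L3 κ n r, Finset.mul_sum]
      refine Finset.sum_congr rfl fun b _ ↦ ?_
      rw [if_pos (by rw [hc0]; omega), e2]
      have e9 : ((4 * n : ℕ) : ℂ) * (((τ : ℂ) + (b : ℂ)) / 4) / 4 =
          (n : ℂ) * (τ : ℂ) / 4 + (n : ℂ) * (b : ℂ) / 4 := by
        push_cast
        ring
      rw [e9, ee_add, ← mul_assoc ((2 : ℂ) ^ (2 * κ)), e5]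
      ring
    have hall := (hX1.add hX2).add hX3
    have hT : T κ 2 h τ r = (2 : ℂ) ^ (2 * κ) * sl κ 2 !![((2 : ℕ) : ℤ) ^ 2, 0; 0, 1] h τ r +
        (2 : ℂ) ^ (2 * κ) *
          ∑ b ∈ Finset.range 2, sl κ 2 !![((2 : ℕ) : ℤ), (b : ℤ); 0, ((2 : ℕ) : ℤ)] h τ r +
        (2 : ℂ) ^ (2 * κ) *
          ∑ b ∈ Finset.range 4, sl κ 2 !![1, (b : ℤ); 0, ((2 : ℕ) : ℤ) ^ 2] h τ r := by
      unfold T
      rw [Pi.smul_apply, Pi.add_apply, Pi.add_apply, Finset.sum_apply, Finset.sum_apply,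
        smul_eq_mul]
      rw [show (2 : ℕ) ^ 2 = 4 by norm_num]
      push_cast
      ring
    rw [hT]
    refine hall.congr_fun fun N ↦ ?_
    by_cases hN : N % 4 = cls κ r
    · rw [if_pos hN, if_pos hN, if_pos hN, if_pos hN]
      unfold Tc
      rw [if_pos (hcond N hN), show (2 : ℕ) ^ 2 = 4 by norm_num]
      push_cast
      ring
    · rw [if_neg hN, if_neg hN, if_neg hN, if_neg hN]
      ring

end MP836e4b.P
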