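/-
MODULE CosA (size M-L), board mod836, MP_836e4b_nt, folder Work/MP_836e4b_nt/P. Keep the statements verbatim, helper lemmas private.
Right invariance of the coset sum. Index set I = {reps} (a Finset: the union of the three families,
pairwise distinct: 1 + p + p² elements). For β in I and γ fixed, βγ has determinant p², so
βγ = γ_β σ(β) with σ(β) in I (exists_rep). σ is injective: βγ = γ_1 β'', β'γ = γ_2 β'' gives
β = γ_1γ_2⁻¹ β', so β = β' (rep_unique). An injective self map of a finite set is a bijection.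
Φ(βγ) = Φ(γ_β σ(β)) = Φ(σ(β)). First rewrite cosSum p Φ as ∑ over the Finset of representatives.
-/
import Mathlib
import Pool.Agent.Work.MP_836e4b_nt.P.Defs
import Pool.Agent.Work.MP_836e4b_nt.P.CosR

open UpperHalfPlane Complex
open scoped MatrixGroups ComplexConjugate Matrix

namespace MP836e4b.P

private def ca_R (p : ℕ) : Finset Mat :=
  ({!![(p : ℤ) ^ 2, 0; 0, 1]} ∪
    (Finset.range p).image (fun b : ℕ ↦ (!![(p : ℤ), (b : ℤ); 0, (p : ℤ)] : Mat))) ∪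
    (Finset.range (p ^ 2)).image (fun b : ℕ ↦ (!![1, (b : ℤ); 0, (p : ℤ) ^ 2] : Mat))

private theorem ca_mem (p : ℕ) (β : Mat) : β ∈ ca_R p ↔ IsRep p β := by
  unfold ca_R IsRep
  simp only [Finset.mem_union, Finset.mem_singleton, Finset.mem_image, Finset.mem_range]
  constructor
  · rintro ((h | ⟨b, hb, rfl⟩) | ⟨b, hb, rfl⟩)
    · exact Or.inl h
    · exact Or.inr (Or.inl ⟨b, hb, rfl⟩)
    · exact Or.inr (Or.inr ⟨b, hb, rfl⟩)
  · rintro (h | ⟨b, hb, rfl⟩ | ⟨b, hb, rfl⟩)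
    · exact Or.inl (Or.inl h)
    · exact Or.inl (Or.inr ⟨b, hb, rfl⟩)
    · exact Or.inr ⟨b, hb, rfl⟩

private theorem ca_sum (p : ℕ) (hp : p.Prime) (Φ : Mat → Fin 2 → ℂ) :
    cosSum p Φ = ∑ β ∈ ca_R p, Φ β := by
  have hp2 : (2 : ℤ) ≤ (p : ℤ) := by exact_mod_cast hp.two_le
  have hpp : (1 : ℤ) < (p : ℤ) ^ 2 := by nlinarith
  unfold cosSum ca_R
  rw [Finset.sum_union, Finset.sum_union, Finset.sum_singleton, Finset.sum_image,
    Finset.sum_image]
  · intro b _ b' _ h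
    have h1 := congrFun (congrFun h 0) 1
    simpa using h1
  · intro b _ b' _ h
    have h1 := congrFun (congrFun h 0) 1
    simpa using h1
  · rw [Finset.disjoint_left]
    intro β h1 h2
    rw [Finset.mem_singleton] at h1
    rw [Finset.mem_image] at h2
    obtain ⟨b, -, h3⟩ := h2
    rw [h1] at h3
    have h4 := congrFun (congrFun h3 1) 1
    simp at h4
    omega
  · rw [Finset.disjoint_left]
    intro β h1 h2
    rw [Finset.mem_union, Finset.mem_singleton, Finset.mem_image] at h1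
    rw [Finset.mem_image] at h2
    obtain ⟨b, -, h3⟩ := h2
    rcases h1 with h1 | ⟨b', -, h1⟩
    · rw [h1] at h3
      have h4 := congrFun (congrFun h3 1) 1
      simp at h4
      omega
    · rw [← h1] at h3
      have h4 := congrFun (congrFun h3 0) 0
      simp at h4
      omega

private theorem ca_inv (δ : SL(2, ℤ)) : ((δ⁻¹ : SL(2, ℤ)) : Mat) * (δ : Mat) = 1 := by
  rw [← Matrix.SpecialLinearGroup.coe_mul, inv_mul_cancel, Matrix.SpecialLinearGroup.coe_one]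

private theorem ca_inv2 (δ : SL(2, ℤ)) : (δ : Mat) * ((δ⁻¹ : SL(2, ℤ)) : Mat) = 1 := by
  rw [← Matrix.SpecialLinearGroup.coe_mul, mul_inv_cancel, Matrix.SpecialLinearGroup.coe_one]

theorem cosSum_right (p : ℕ) (hp : p.Prime) (Φ : Mat → Fin 2 → ℂ)
    (hΦ : ∀ (γ : SL(2, ℤ)) (A : Mat), A.det = (p : ℤ) ^ 2 → Φ ((γ : Mat) * A) = Φ A)
    (γ : SL(2, ℤ)) : cosSum p (fun A ↦ Φ (A * (γ : Mat))) = cosSum p Φ := by
  have hex : ∀ β : Mat, ∃ β' : Mat, IsRep p β →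
      (IsRep p β' ∧ ∃ δ : SL(2, ℤ), β * (γ : Mat) = (δ : Mat) * β') := by
    intro β
    by_cases h : IsRep p β
    · obtain ⟨δ, β', h1, h2⟩ := exists_rep p hp (β * (γ : Mat)) (by
        rw [Matrix.det_mul, isRep_det h, Matrix.SpecialLinearGroup.det_coe, mul_one])
      exact ⟨β', fun _ ↦ ⟨h1, δ, h2⟩⟩
    · exact ⟨β, fun h' ↦ absurd h' h⟩
  choose σ hσ using hex
  rw [ca_sum p hp, ca_sum p hp]
  have h1 : ∀ β ∈ ca_R p, Φ (β * (γ : Mat)) = Φ (σ β) := by
    intro β hβ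
    obtain ⟨h2, δ, h3⟩ := hσ β ((ca_mem p β).1 hβ)
    rw [h3, hΦ δ (σ β) (isRep_det h2)]
  have hinj : Set.InjOn σ (ca_R p : Set Mat) := by
    intro β hβ β' hβ' he
    have hb := (ca_mem p β).1 (Finset.mem_coe.1 hβ)
    have hb' := (ca_mem p β').1 (Finset.mem_coe.1 hβ')
    obtain ⟨-, δ, h3⟩ := hσ β hb
    obtain ⟨-, δ', h3'⟩ := hσ β' hb'
    have h4 : ((δ⁻¹ : SL(2, ℤ)) : Mat) * (β * (γ : Mat)) = σ β := by
      rw [h3, ← Matrix.mul_assoc, ca_inv, Matrix.one_mul]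
    have h4' : ((δ'⁻¹ : SL(2, ℤ)) : Mat) * (β' * (γ : Mat)) = σ β' := by
      rw [h3', ← Matrix.mul_assoc, ca_inv, Matrix.one_mul]
    have h5 : ((δ⁻¹ : SL(2, ℤ)) : Mat) * β = ((δ'⁻¹ : SL(2, ℤ)) : Mat) * β' := by
      have h6 : (((δ⁻¹ : SL(2, ℤ)) : Mat) * β) * (γ : Mat) =
          (((δ'⁻¹ : SL(2, ℤ)) : Mat) * β') * (γ : Mat) := by
        rw [Matrix.mul_assoc, Matrix.mul_assoc, h4, h4', he]
      have h7 := congrArg (fun X : Mat ↦ X * ((γ⁻¹ : SL(2, ℤ)) : Mat)) h6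
      simp only [Matrix.mul_assoc, ca_inv2, Matrix.mul_one] at h7
      exact h7
    exact (rep_unique p hp δ⁻¹ δ'⁻¹ β β' hb hb' h5).2
  have himg : (ca_R p).image σ = ca_R p := by
    refine Finset.eq_of_subset_of_card_le ?_ ?_
    · intro x hx
      obtain ⟨β, hβ, rfl⟩ := Finset.mem_image.1 hx
      exact (ca_mem p _).2 (hσ β ((ca_mem p β).1 hβ)).1
    · rw [Finset.card_image_of_injOn hinj]
  calc ∑ β ∈ ca_R p, Φ (β * (γ : Mat)) = ∑ β ∈ ca_R p, Φ (σ β) := Finset.sum_congr rfl h1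
    _ = ∑ β ∈ (ca_R p).image σ, Φ β := by
        rw [Finset.sum_image]
        intro x hx y hy
        exact hinj hx hy
    _ = ∑ β ∈ ca_R p, Φ β := by rw [himg]

end MP836e4b.P
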