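/-
MODULE TInv (size M), board mod836, MP_836e4b_nt, folder Work/MP_836e4b_nt/P. Keep the statements verbatim, helper lemmas private.
T κ p h is invariant if h is. T κ p h τ = p^(2κ) • cosSum p (fun A ↦ sl κ p A h τ).
sl κ 1 γ is linear in h, so sl κ 1 γ (T κ p h) τ = p^(2κ) • cosSum p (fun A ↦ sl κ p (A γ) h τ) (sl_right) and
cosSum_right applies because sl κ p (γ' A) h = sl κ p A (sl κ 1 γ' h) = sl κ p A h (sl_left).
-/
import Mathlib
import Pool.Agent.Work.MP_836e4b_nt.P.Defs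
import Pool.Agent.Work.MP_836e4b_nt.P.MA4
import Pool.Agent.Work.MP_836e4b_nt.P.CosA

open UpperHalfPlane Complex
open scoped MatrixGroups ComplexConjugate Matrix

namespace MP836e4b.P

private theorem T_eq (κ p : ℕ) (h : VF) (τ : ℍ) :
    T κ p h τ = (p : ℂ) ^ (2 * κ) • cosSum p (fun A ↦ sl κ p A h τ) := rfl

theorem T_inv (κ p : ℕ) (hp : p.Prime) (h : VF)
    (hh : ∀ γ : SL(2, ℤ), sl κ 1 (γ : Mat) h = h) (γ : SL(2, ℤ)) :
    sl κ 1 (γ : Mat) (T κ p h) = T κ p h := by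
  funext τ
  have hlin : sl κ 1 (γ : Mat) (T κ p h) τ =
      (p : ℂ) ^ (2 * κ) • cosSum p (fun A ↦ sl κ 1 (γ : Mat) (sl κ p A h) τ) := by
    change ((jf (γ : Mat) τ) ^ κ)⁻¹ • (E κ 1 (γ : Mat) τ) *ᵥ (T κ p h (mob (γ : Mat) τ)) = _
    rw [T_eq]
    unfold cosSum
    simp only [Matrix.mulVec_smul, Matrix.mulVec_add, Matrix.mulVec_sum, smul_add,
      Finset.smul_sum]
    simp only [sl, smul_comm ((p : ℂ) ^ (2 * κ))]
  have hdet1 : (!![(p : ℤ) ^ 2, 0; 0, 1] : Mat).det = (p : ℤ) ^ 2 := by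
    rw [Matrix.det_fin_two_of]; ring
  have hdet2 : ∀ b : ℕ, (!![(p : ℤ), (b : ℤ); 0, (p : ℤ)] : Mat).det = (p : ℤ) ^ 2 := by
    intro b; rw [Matrix.det_fin_two_of]; ring
  have hdet3 : ∀ b : ℕ, (!![1, (b : ℤ); 0, (p : ℤ) ^ 2] : Mat).det = (p : ℤ) ^ 2 := by
    intro b; rw [Matrix.det_fin_two_of]; ring
  have hcos : cosSum p (fun A ↦ sl κ 1 (γ : Mat) (sl κ p A h) τ) =
      cosSum p (fun A ↦ (fun B ↦ sl κ p B h τ) (A * (γ : Mat))) := by
    unfold cosSum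
    simp only [sl_right κ p hp γ _ hdet1 h, fun b ↦ sl_right κ p hp γ _ (hdet2 b) h,
      fun b ↦ sl_right κ p hp γ _ (hdet3 b) h]
  rw [hlin, hcos, cosSum_right p hp (fun B ↦ sl κ p B h τ) ?_ γ, ← T_eq]
  intro γ' A hA
  have := sl_left κ p hp γ' A hA h
  rw [hh γ'] at this
  exact (congrFun this τ).symm

end MP836e4b.P
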