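/-
MODULE TpE (size L), board mod836, MP_836e4b_nt, folder Work/MP_836e4b_nt/P. Keep the statements verbatim, helper lemmas private.
Fourier expansion of T κ p h, p odd prime. ε = +1 (κ odd), -1 (κ even). Component r exponents n = cls κ r mod 4,
and n + ε p² r = 0 mod 4, put m = (n + ε p² r)/4.
 (p²,0;0,1): j = 1, M = 1/p: h(p²τ)/p; times p^(2κ): p^(2κ-1) c(N/p²).
 (1,b;0,p²): j = p²: p^(-2κ-2) diag(1,e(εb/4)) h((τ+b)/p²): coefficient of c(n) e(nτ/(4p²)):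
   ∑_{b<p²} e(b m/p²) = p² if p² ∣ m (iff p² ∣ n), else 0; n = p² N, N = n mod 4: gives c(p² N).
 (p,b;0,p): j = p: p^(-κ-2) g_b diag(1,e(εpb/4)) h(τ+b/p), g_b = gq b p (κ odd) or its conjugate (κ even);
   coefficient of c(N): p^(-κ-2) ∑_{b<p} g_b e(b m/p). b = 0: g = p. b ≠ 0: gq b p = χ_p(b) G, G = gaussSum,
   ∑_b χ_p(b) e(bm/p) = χ_p(m) G; G² = χ_p(-1) p (Mathlib gaussSum_sq), G conj(G) = p; χ_p(m) = χ_p(4m) = χ_p(N).
   Total p^(-κ-1)(1 + χ_p((-1)^κ N)), times p^(2κ): p^(κ-1)(1+psi).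
-/
import Mathlib
import Pool.Agent.Work.MP_836e4b_nt.P.Defs
import Pool.Agent.Work.MP_836e4b_nt.P.Bas
import Pool.Agent.Work.MP_836e4b_nt.P.GaD
import Pool.Agent.Work.MP_836e4b_nt.P.ThI
import Pool.Agent.Work.MP_836e4b_nt.P.MA4
import Pool.Agent.Work.MP_836e4b_nt.P.UT1
import Pool.Agent.Work.MP_836e4b_nt.P.UT2
import Pool.Agent.Work.MP_836e4b_nt.P.UT3

open UpperHalfPlane Complex
open scoped MatrixGroups ComplexConjugate Matrix

namespace MP836e4b.P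

private noncomputable def tpe_s (κ : ℕ) (x : ℂ) : ℂ := if Even κ then conj x else x

private def tpe_e (κ : ℕ) : ℤ := if Even κ then -1 else 1

private theorem tpe_s_mul (κ : ℕ) (x y : ℂ) : tpe_s κ (x * y) = tpe_s κ x * tpe_s κ y := by
  unfold tpe_s
  split_ifs
  · rw [map_mul]
  · rfl

private theorem tpe_s_zero (κ : ℕ) : tpe_s κ 0 = 0 := by
  unfold tpe_s
  split_ifs
  · rw [map_zero]
  · rfl

private theorem tpe_s_ofReal (κ : ℕ) (x : ℝ) : tpe_s κ (x : ℂ) = (x : ℂ) := by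
  unfold tpe_s
  split_ifs
  · rw [Complex.conj_ofReal]
  · rfl

private theorem tpe_s_one (κ : ℕ) : tpe_s κ 1 = 1 := by
  have h := tpe_s_ofReal κ 1
  rwa [Complex.ofReal_one] at h

private theorem tpe_s_ee (κ : ℕ) (x : ℝ) : tpe_s κ (ee (x : ℂ)) = ee ((tpe_e κ : ℂ) * (x : ℂ)) := by
  unfold tpe_s tpe_e
  split_ifs
  · rw [conj_ee, Complex.conj_ofReal]
    push_cast
    rw [neg_one_mul]
  · push_cast
    rw [one_mul]

private theorem tpe_up (κ p : ℕ) (a b d : ℤ) (hd : 0 < d) (τ : ℍ)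
    (m : Matrix (Fin 2) (Fin 2) ℂ) (hm : IsM p !![a, b; 0, d] τ m) (h : VF) (r : Fin 2) :
    sl κ p !![a, b; 0, d] h τ r = ((d : ℂ) ^ (κ + 1))⁻¹ *
      (tpe_s κ (m 0 r) * h (mob !![a, b; 0, d] τ) 0 +
        tpe_s κ (m 1 r) * h (mob !![a, b; 0, d] τ) 1) := by
  have hj : jf !![a, b; 0, d] τ = (d : ℂ) := by
    unfold jf
    simp
  have hn : ((‖(d : ℂ)‖ : ℝ) : ℂ) = (d : ℂ) := by
    rw [Complex.norm_intCast, abs_of_pos (by exact_mod_cast hd : (0 : ℝ) < (d : ℝ))]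
    push_cast
    rfl
  have hd0 : (d : ℂ) ≠ 0 := by exact_mod_cast hd.ne'
  have hE : ∀ s : Fin 2, E κ p !![a, b; 0, d] τ r s = (d : ℂ)⁻¹ * tpe_s κ (m s r) := by
    intro s
    unfold E tpe_s
    rw [hj, M_eq hm, hn]
    split_ifs
    · rfl
    · rfl
  have h1 : sl κ p !![a, b; 0, d] h τ r = ((jf !![a, b; 0, d] τ) ^ κ)⁻¹ *
      ((E κ p !![a, b; 0, d] τ) *ᵥ (h (mob !![a, b; 0, d] τ))) r := rfl
  rw [h1, Matrix.mulVec, dotProduct, Fin.sum_univ_two, hE, hE, hj, pow_succ, mul_inv]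
  ring

private theorem tpe_root (m : ℕ) (hm : 0 < m) (j : ℤ) :
    ∑ b ∈ Finset.range m, ee ((j : ℂ) * (b : ℂ) / (m : ℂ)) = if (m : ℤ) ∣ j then (m : ℂ) else 0 := by
  have hmc : (m : ℂ) ≠ 0 := by exact_mod_cast hm.ne'
  split_ifs with h
  · obtain ⟨t, rfl⟩ := h
    have h1 : ∀ b ∈ Finset.range m, ee ((((m : ℤ) * t : ℤ) : ℂ) * (b : ℂ) / (m : ℂ)) = 1 := by
      intro b _
      have h2 : (((m : ℤ) * t : ℤ) : ℂ) * (b : ℂ) / (m : ℂ) = ((t * (b : ℤ) : ℤ) : ℂ) := by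
        push_cast
        field_simp
      rw [h2, ee_intCast]
    rw [Finset.sum_congr rfl h1, Finset.sum_const, Finset.card_range, nsmul_eq_mul, mul_one]
  · have h1 : ∀ b ∈ Finset.range m, ee ((j : ℂ) * (b : ℂ) / (m : ℂ)) =
        (ee ((j : ℂ) / (m : ℂ))) ^ b := by
      intro b _
      unfold ee
      rw [← Complex.exp_nat_mul]
      congr 1
      ring
    rw [Finset.sum_congr rfl h1]
    have h2 : ee ((j : ℂ) / (m : ℂ)) ≠ 1 := by
      intro h3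
      unfold ee at h3
      rw [Complex.exp_eq_one_iff] at h3
      obtain ⟨n, hn⟩ := h3
      apply h
      refine ⟨n, ?_⟩
      have h4 : (j : ℂ) / (m : ℂ) = (n : ℂ) := by
        have h5 : (2 * (Real.pi : ℂ) * Complex.I) ≠ 0 := Complex.two_pi_I_ne_zero
        apply mul_left_cancel₀ h5
        rw [hn]
        ring
      rw [div_eq_iff hmc] at h4
      have h5 : (j : ℂ) = (((m : ℤ) * n : ℤ) : ℂ) := by
        rw [h4]
        push_cast
        ring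
      exact_mod_cast h5
    have h3 : (ee ((j : ℂ) / (m : ℂ))) ^ m = 1 := by
      have h4 : (ee ((j : ℂ) / (m : ℂ))) ^ m = ee (j : ℂ) := by
        unfold ee
        rw [← Complex.exp_nat_mul]
        congr 1
        field_simp
      rw [h4, ee_intCast]
    rw [geom_sum_eq h2, h3, sub_self, zero_div]

private theorem tpe_cls0 (κ : ℕ) : cls κ 0 = 0 := by
  unfold cls
  rw [if_pos rfl]

private theorem tpe_cls1 (κ : ℕ) : cls κ 1 = if Even κ then 1 else 3 := by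
  unfold cls
  rw [if_neg (by decide)]

private theorem tpe_mob (a b d : ℤ) (ha : 0 < a) (hd : 0 < d) (τ : ℍ) :
    ((mob !![a, b; 0, d] τ : ℍ) : ℂ) = ((a : ℂ) * (τ : ℂ) + (b : ℂ)) / (d : ℂ) := by
  have hdet : 0 < (!![a, b; 0, d] : Mat).det := by
    rw [Matrix.det_fin_two_of]
    nlinarith [mul_pos ha hd]
  rw [coe_mob _ hdet]
  unfold jf
  simp

private theorem tpe_four (κ p n : ℕ) (hodd : Odd p) (r : Fin 2) (hn : n % 4 = cls κ r) :
    ∃ m : ℤ, (n : ℤ) + tpe_e κ * ((r : ℕ) : ℤ) * (p : ℤ) ^ 2 = 4 * m := by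
  have hp4 : ((p : ℤ) ^ 2) % 4 = 1 := by
    obtain ⟨t, rfl⟩ := hodd
    push_cast
    ring_nf
    omega
  have hn' : (n : ℤ) % 4 = (cls κ r : ℤ) := by
    rw [← hn]
    push_cast
    rfl
  have h1 : ((n : ℤ) + tpe_e κ * ((r : ℕ) : ℤ) * (p : ℤ) ^ 2) % 4 = 0 := by
    generalize (p : ℤ) ^ 2 = P at *
    fin_cases r
    · have h2 : cls κ (0 : Fin 2) = 0 := tpe_cls0 κ
      have h3 : (n : ℤ) % 4 = 0 := by
        rw [hn']
        change ((cls κ (0 : Fin 2) : ℕ) : ℤ) = 0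
        rw [h2]
        rfl
      simp
      omega
    · have h2 := tpe_cls1 κ
      have h3 : (n : ℤ) % 4 = ((if Even κ then 1 else 3 : ℕ) : ℤ) := by
        rw [hn']
        change ((cls κ (1 : Fin 2) : ℕ) : ℤ) = _
        rw [h2]
      unfold tpe_e
      by_cases hk : Even κ
      · rw [if_pos hk] at h3 ⊢
        simp
        omega
      · rw [if_neg hk] at h3 ⊢
        simp
        omega
  obtain ⟨m, hm⟩ := Int.dvd_of_emod_eq_zero h1
  exact ⟨m, hm⟩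

private theorem tpe_L3 (κ p n : ℕ) (hp : p.Prime) (hp2 : p ≠ 2) (r : Fin 2)
    (hn : n % 4 = cls κ r) :
    ∑ b ∈ Finset.range (p ^ 2), tpe_s κ (ee (((r : ℕ) : ℂ) * (b : ℂ) / 4)) *
      ee ((n : ℂ) * (b : ℂ) / (4 * (p : ℂ) ^ 2)) = if p ^ 2 ∣ n then (p : ℂ) ^ 2 else 0 := by
  have hodd : Odd p := hp.odd_of_ne_two hp2
  have hpc : (p : ℂ) ≠ 0 := by exact_mod_cast hp.ne_zero
  obtain ⟨m, hm⟩ := tpe_four κ p n hodd r hn
  have hmc : (n : ℂ) + (tpe_e κ : ℂ) * ((r : ℕ) : ℂ) * (p : ℂ) ^ 2 = 4 * (m : ℂ) := by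
    exact_mod_cast hm
  have h1 : ∀ b ∈ Finset.range (p ^ 2), tpe_s κ (ee (((r : ℕ) : ℂ) * (b : ℂ) / 4)) *
      ee ((n : ℂ) * (b : ℂ) / (4 * (p : ℂ) ^ 2)) =
        ee ((m : ℂ) * (b : ℂ) / ((p ^ 2 : ℕ) : ℂ)) := by
    intro b _
    have h2 : ((r : ℕ) : ℂ) * (b : ℂ) / 4 = (((((r : ℕ) : ℝ) * (b : ℝ) / 4 : ℝ)) : ℂ) := by
      push_cast
      rfl
    rw [h2, tpe_s_ee, ← ee_add]
    congr 1
    have h3 : (m : ℂ) = ((n : ℂ) + (tpe_e κ : ℂ) * ((r : ℕ) : ℂ) * (p : ℂ) ^ 2) / 4 := by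
      rw [hmc]
      ring
    rw [h3]
    push_cast
    field_simp
    ring
  rw [Finset.sum_congr rfl h1, tpe_root (p ^ 2) (pow_pos hp.pos 2) m]
  have hiff : ((p ^ 2 : ℕ) : ℤ) ∣ m ↔ p ^ 2 ∣ n := by
    have hcop : IsCoprime ((p ^ 2 : ℕ) : ℤ) ((2 ^ 2 : ℕ) : ℤ) := by
      rw [Nat.isCoprime_iff_coprime]
      exact Nat.Coprime.pow 2 2 ((Nat.coprime_primes hp Nat.prime_two).mpr hp2)
    have hcop : IsCoprime ((p ^ 2 : ℕ) : ℤ) 4 := by exact_mod_cast hcop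
    constructor
    · intro h
      have h2 : ((p ^ 2 : ℕ) : ℤ) ∣ 4 * m := h.mul_left _
      rw [← hm] at h2
      have h3 : ((p ^ 2 : ℕ) : ℤ) ∣ tpe_e κ * ((r : ℕ) : ℤ) * (p : ℤ) ^ 2 := by
        push_cast
        exact dvd_mul_left _ _
      exact_mod_cast (dvd_add_left h3).mp h2
    · intro h
      have h2 : ((p ^ 2 : ℕ) : ℤ) ∣ (n : ℤ) := by exact_mod_cast h
      have h3 : ((p ^ 2 : ℕ) : ℤ) ∣ tpe_e κ * ((r : ℕ) : ℤ) * (p : ℤ) ^ 2 := by
        push_cast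
        exact dvd_mul_left _ _
      have h4 := dvd_add h2 h3
      rw [hm] at h4
      exact hcop.dvd_of_dvd_mul_left h4
  by_cases h : p ^ 2 ∣ n
  · rw [if_pos h, if_pos (hiff.mpr h)]
    push_cast
    rfl
  · rw [if_neg h, if_neg (fun h' ↦ h (hiff.mp h'))]

private theorem tpe_gD (κ p : ℕ) (hp : p.Prime) (hp2 : p ≠ 2) :
    tpe_s κ (gD p) * gD p = ch p ((-1) ^ κ) * (p : ℂ) := by
  have hodd : Odd p := hp.odd_of_ne_two hp2
  have hsq : ((Real.sqrt p : ℝ) : ℂ) * ((Real.sqrt p : ℝ) : ℂ) = (p : ℂ) := by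
    rw [← Complex.ofReal_mul, Real.mul_self_sqrt (by positivity)]
    push_cast
    rfl
  unfold tpe_s
  by_cases hk : Even κ
  · rw [if_pos hk, hk.neg_one_pow]
    have h1 : ch p 1 = 1 := by
      unfold ch
      rw [jacobiSym.one_left]
      norm_num
    rw [h1, one_mul]
    unfold gD
    split_ifs
    · rw [Complex.conj_ofReal, hsq]
    · rw [map_mul, Complex.conj_I, Complex.conj_ofReal]
      linear_combination hsq - ((Real.sqrt p : ℝ) : ℂ) * ((Real.sqrt p : ℝ) : ℂ) * Complex.I_mul_I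
  · rw [if_neg hk, (Nat.not_even_iff_odd.mp hk).neg_one_pow]
    unfold gD ch
    rw [jacobiSym.at_neg_one hodd]
    split_ifs with h4
    · rw [ZMod.χ₄_nat_one_mod_four h4, hsq]
      norm_num
    · have h5 : p % 4 = 3 := by
        have := Nat.odd_iff.mp hodd
        omega
      rw [ZMod.χ₄_nat_three_mod_four h5]
      push_cast
      linear_combination ((Real.sqrt p : ℝ) : ℂ) * ((Real.sqrt p : ℝ) : ℂ) * Complex.I_mul_I - hsq

private theorem tpe_L2 (κ p n : ℕ) (hp : p.Prime) (hp2 : p ≠ 2) (r : Fin 2)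
    (hn : n % 4 = cls κ r) :
    ∑ b ∈ Finset.range p, tpe_s κ (gq b p) *
      (tpe_s κ (ee (((r : ℕ) : ℂ) * ((p : ℂ) * (b : ℂ)) / 4)) *
      ee ((n : ℂ) * (b : ℂ) / (4 * (p : ℂ)))) = (p : ℂ) * (1 + ((psi κ p n : ℤ) : ℂ)) := by
  have hodd : Odd p := hp.odd_of_ne_two hp2
  have hpc : (p : ℂ) ≠ 0 := by exact_mod_cast hp.ne_zero
  obtain ⟨m, hm⟩ := tpe_four κ p n hodd r hn
  have hmc : (n : ℂ) + (tpe_e κ : ℂ) * ((r : ℕ) : ℂ) * (p : ℂ) ^ 2 = 4 * (m : ℂ) := by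
    exact_mod_cast hm
  have hmul : ∀ m n : ℤ, ch p (m * n) = ch p m * ch p n := by
    intro m n
    unfold ch
    rw [jacobiSym.mul_left]
    push_cast
    ring
  have h1 : ∀ b ∈ Finset.range p, tpe_s κ (gq b p) *
      (tpe_s κ (ee (((r : ℕ) : ℂ) * ((p : ℂ) * (b : ℂ)) / 4)) *
      ee ((n : ℂ) * (b : ℂ) / (4 * (p : ℂ)))) =
        tpe_s κ (gD p) * (ch p (b : ℤ) * ee ((b : ℂ) * (m : ℂ) / (p : ℂ))) +
          if b = 0 then (p : ℂ) else 0 := by
    intro b hb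
    have h2 : ((r : ℕ) : ℂ) * ((p : ℂ) * (b : ℂ)) / 4 =
        (((((r : ℕ) : ℝ) * ((p : ℝ) * (b : ℝ)) / 4 : ℝ)) : ℂ) := by
      push_cast
      rfl
    have h3 : tpe_s κ (ee (((r : ℕ) : ℂ) * ((p : ℂ) * (b : ℂ)) / 4)) *
      ee ((n : ℂ) * (b : ℂ) / (4 * (p : ℂ))) = ee ((b : ℂ) * (m : ℂ) / (p : ℂ)) := by
      rw [h2, tpe_s_ee, ← ee_add]
      congr 1
      have h3 : (m : ℂ) = ((n : ℂ) + (tpe_e κ : ℂ) * ((r : ℕ) : ℂ) * (p : ℂ) ^ 2) / 4 := by
        rw [hmc]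
        ring
      rw [h3]
      push_cast
      field_simp
      ring
    rw [h3]
    by_cases hb0 : b = 0
    · subst hb0
      rw [if_pos rfl]
      have h4 : gq ((0 : ℕ) : ℤ) p = ((p : ℝ) : ℂ) := by
        unfold gq
        have h5 : ∀ n ∈ Finset.range p,
            ee ((((0 : ℕ) : ℤ) : ℂ) * (n : ℂ) ^ 2 / (p : ℂ)) = 1 := by
          intro n _
          rw [show (((0 : ℕ) : ℤ) : ℂ) * (n : ℂ) ^ 2 / (p : ℂ) = 0 by simp, ee_zero]
        rw [Finset.sum_congr rfl h5, Finset.sum_const, Finset.card_range, nsmul_eq_mul, mul_one]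
        push_cast
        rfl
      have h5 : ch p ((0 : ℕ) : ℤ) = 0 := by
        unfold ch
        rw [Nat.cast_zero, jacobiSym.zero_left hp.one_lt, Int.cast_zero]
      rw [h4, tpe_s_ofReal, h5]
      rw [show ((0 : ℕ) : ℂ) * (m : ℂ) / (p : ℂ) = 0 by simp, ee_zero]
      push_cast
      ring
    · rw [if_neg hb0]
      have h4 : ¬ (p : ℤ) ∣ (b : ℤ) := by
        intro h5
        have h6 : p ∣ b := by exact_mod_cast h5
        exact absurd (Nat.le_of_dvd (Nat.pos_of_ne_zero hb0) h6)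
          (not_le.mpr (Finset.mem_range.mp hb))
      rw [gq_prime p hp hp2 _ h4, tpe_s_mul]
      have h5 : tpe_s κ (ch p (b : ℤ)) = ch p (b : ℤ) := by
        have h6 := tpe_s_ofReal κ ((jacobiSym (b : ℤ) p : ℤ) : ℝ)
        unfold ch
        push_cast at h6
        exact h6
      rw [h5]
      ring
  rw [Finset.sum_congr rfl h1, Finset.sum_add_distrib, ← Finset.mul_sum, gauss_twist p hp hp2,
    Finset.sum_ite_eq' (Finset.range p) 0, if_pos (Finset.mem_range.mpr hp.pos)]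
  have h2 : ch p m = ch p (n : ℤ) := by
    have h3 : ch p 4 = 1 := by
      unfold ch
      have h4 : jacobiSym ((2 : ℤ) ^ 2) p = 1 := by
        apply jacobiSym.sq_one'
        change Nat.gcd 2 p = 1
        exact (Nat.coprime_primes Nat.prime_two hp).mpr (Ne.symm hp2)
      rw [show (4 : ℤ) = 2 ^ 2 by norm_num, h4]
      norm_num
    have h4 : ch p (4 * m) = ch p (n : ℤ) := by
      rw [← hm]
      unfold ch
      congr 1
      rw [jacobiSym.mod_left ((n : ℤ) + tpe_e κ * ((r : ℕ) : ℤ) * (p : ℤ) ^ 2)]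
      rw [show (n : ℤ) + tpe_e κ * ((r : ℕ) : ℤ) * (p : ℤ) ^ 2 =
        (n : ℤ) + (p : ℤ) * (tpe_e κ * ((r : ℕ) : ℤ) * (p : ℤ)) by ring,
        Int.add_mul_emod_self_left, ← jacobiSym.mod_left]
    rw [← h4, hmul, h3, one_mul]
  have h3 : ((psi κ p n : ℤ) : ℂ) = ch p ((-1) ^ κ) * ch p (n : ℤ) := by
    unfold psi
    rw [if_neg hp2, ← hmul]
    rfl
  rw [h2, h3]
  linear_combination ch p (n : ℤ) * tpe_gD κ p hp hp2

theorem hasE_T_odd (κ p : ℕ) (hκ : 1 ≤ κ) (hp : p.Prime) (hp2 : p ≠ 2) (c : ℕ → ℂ) (h : VF)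
    (H : HasE κ c h) : HasE κ (Tc κ p c) (T κ p h) := by
  have hodd : Odd p := hp.odd_of_ne_two hp2
  have hpc : (p : ℂ) ≠ 0 := by exact_mod_cast hp.ne_zero
  have hp4 : (p ^ 2) % 4 = 1 := by
    obtain ⟨t, rfl⟩ := hodd
    ring_nf
    omega
  have hpz : (0 : ℤ) < (p : ℤ) := by exact_mod_cast hp.pos
  refine ⟨?_, ?_, ?_⟩
  · unfold Tc
    simp [H.zero]
  · intro n h0 h1
    unfold Tc
    rw [if_neg (by
      rintro (h | h)
      · exact h0 h
      · exact h1 h)]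
  · intro τ r
    have hmod : ∀ n : ℕ, (p ^ 2 * n) % 4 = n % 4 := by
      intro n
      rw [Nat.mul_mod, hp4, one_mul, Nat.mod_mod]
    have hinj : Function.Injective fun n : ℕ ↦ p ^ 2 * n := by
      intro a b hab
      exact Nat.eq_of_mul_eq_mul_left (pow_pos hp.pos 2) hab
    have hcond : ∀ n : ℕ, n % 4 = cls κ r → (n % 4 = cls κ 0 ∨ n % 4 = cls κ 1) := by
      intro n hn
      fin_cases r
      · exact Or.inl hn
      · exact Or.inr hn
    have hsep : ∀ (s : Fin 2 → ℂ) (m : Fin 2 → ℂ), (∀ s', s' ≠ r → m s' = 0) →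
        m 0 * s 0 + m 1 * s 1 = m r * s r := by
      intro s m hm
      fin_cases r
      · have h1 := hm 1 (by decide)
        change m 0 * s 0 + m 1 * s 1 = m 0 * s 0
        rw [h1]
        ring
      · have h1 := hm 0 (by decide)
        change m 0 * s 0 + m 1 * s 1 = m 1 * s 1
        rw [h1]
        ring
    -- first piece
    have hX1 : HasSum (fun N : ℕ ↦ if N % 4 = cls κ r then (p : ℂ) ^ (2 * κ - 1) *
        (if p ^ 2 ∣ N then c (N / p ^ 2) else 0) * ee ((N : ℂ) * (τ : ℂ) / 4) else 0)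
        ((p : ℂ) ^ (2 * κ) * sl κ p !![(p : ℤ) ^ 2, 0; 0, 1] h τ r) := by
      have e1 : sl κ p !![(p : ℤ) ^ 2, 0; 0, 1] h τ r =
          (p : ℂ)⁻¹ * h (mob !![(p : ℤ) ^ 2, 0; 0, 1] τ) r := by
        rw [tpe_up κ p _ _ _ one_pos τ _ (isM_U2_odd p hodd τ)]
        have e2 : tpe_s κ ((p : ℂ)⁻¹) = (p : ℂ)⁻¹ := by
          have e3 := tpe_s_ofReal κ ((p : ℝ)⁻¹)
          push_cast at e3
          exact e3
        fin_cases r
        · simp [tpe_s_zero, e2]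
        · simp [tpe_s_zero, e2]
      rw [e1]
      set σ : ℍ := mob !![(p : ℤ) ^ 2, 0; 0, 1] τ with hσ
      have e2 : (σ : ℂ) = (p : ℂ) ^ 2 * (τ : ℂ) := by
        rw [hσ, tpe_mob _ _ _ (by positivity) one_pos]
        push_cast
        ring
      have e3 := (H.sum σ r).mul_left ((p : ℂ) ^ (2 * κ) * (p : ℂ)⁻¹)
      rw [mul_assoc] at e3
      rw [← hinj.hasSum_iff]
      · refine e3.congr_fun fun n ↦ ?_
        change (if (p ^ 2 * n) % 4 = cls κ r then (p : ℂ) ^ (2 * κ - 1) *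
          (if p ^ 2 ∣ p ^ 2 * n then c (p ^ 2 * n / p ^ 2) else 0) *
            ee (((p ^ 2 * n : ℕ) : ℂ) * (τ : ℂ) / 4) else 0) = _
        rw [hmod, if_pos (dvd_mul_right _ _), Nat.mul_div_cancel_left _ (pow_pos hp.pos 2)]
        split_ifs
        · have e4 : (p : ℂ) ^ (2 * κ) = (p : ℂ) ^ (2 * κ - 1) * (p : ℂ) := by
            rw [← pow_succ]
            congr 1
            omega
          have e5 : ((p ^ 2 * n : ℕ) : ℂ) * (τ : ℂ) / 4 = (n : ℂ) * (σ : ℂ) / 4 := by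
            rw [e2]
            push_cast
            ring
          rw [e4, e5]
          field_simp
        · ring
      · intro N hN
        split_ifs with h1 h2
        · exact absurd (by
            obtain ⟨t, rfl⟩ := h2
            exact ⟨t, rfl⟩) hN
        · ring
        · rfl
    -- second piece
    have hX2 : HasSum (fun N : ℕ ↦ if N % 4 = cls κ r then (p : ℂ) ^ (κ - 1) *
        (1 + ((psi κ p N : ℤ) : ℂ)) * c N * ee ((N : ℂ) * (τ : ℂ) / 4) else 0)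
        ((p : ℂ) ^ (2 * κ) *
          ∑ b ∈ Finset.range p, sl κ p !![(p : ℤ), (b : ℤ); 0, (p : ℤ)] h τ r) := by
      have e1 : ∀ b : ℕ, sl κ p !![(p : ℤ), (b : ℤ); 0, (p : ℤ)] h τ r =
          ((p : ℂ) ^ (κ + 1))⁻¹ * ((p : ℂ)⁻¹ * tpe_s κ (gq b p) *
            tpe_s κ (ee (((r : ℕ) : ℂ) * ((p : ℂ) * (b : ℂ)) / 4))) *
              h (mob !![(p : ℤ), (b : ℤ); 0, (p : ℤ)] τ) r := by
        intro b
        rw [tpe_up κ p _ _ _ hpz τ _ (isM_U3_odd p hodd b τ)]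
        have e2 : tpe_s κ ((p : ℂ)⁻¹) = (p : ℂ)⁻¹ := by
          have e3 := tpe_s_ofReal κ ((p : ℝ)⁻¹)
          push_cast at e3
          exact e3
        fin_cases r
        · simp [tpe_s_zero, tpe_s_mul, tpe_s_one, e2, ee_zero]
          ring
        · simp [tpe_s_zero, tpe_s_mul, e2]
          ring
      have e2 : ∀ b : ℕ, ((mob !![(p : ℤ), (b : ℤ); 0, (p : ℤ)] τ : ℍ) : ℂ) =
          ((p : ℂ) * (τ : ℂ) + (b : ℂ)) / (p : ℂ) := by
        intro b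
        rw [tpe_mob _ _ _ hpz hpz]
        push_cast
        rfl
      rw [Finset.mul_sum]
      have e3 : HasSum (fun N : ℕ ↦ ∑ b ∈ Finset.range p, ((p : ℂ) ^ (2 * κ) *
          (((p : ℂ) ^ (κ + 1))⁻¹ * ((p : ℂ)⁻¹ * tpe_s κ (gq b p) *
            tpe_s κ (ee (((r : ℕ) : ℂ) * ((p : ℂ) * (b : ℂ)) / 4))))) *
              (if N % 4 = cls κ r then c N * ee ((N : ℂ) *
                ((mob !![(p : ℤ), (b : ℤ); 0, (p : ℤ)] τ : ℍ) : ℂ) / 4) else 0))
          (∑ b ∈ Finset.range p, (p : ℂ) ^ (2 * κ) *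
            sl κ p !![(p : ℤ), (b : ℤ); 0, (p : ℤ)] h τ r) := by
        refine hasSum_sum fun b _ ↦ ?_
        have e8 := (H.sum (mob !![(p : ℤ), (b : ℤ); 0, (p : ℤ)] τ) r).mul_left
          ((p : ℂ) ^ (2 * κ) * (((p : ℂ) ^ (κ + 1))⁻¹ * ((p : ℂ)⁻¹ * tpe_s κ (gq b p) *
            tpe_s κ (ee (((r : ℕ) : ℂ) * ((p : ℂ) * (b : ℂ)) / 4)))))
        rw [mul_assoc ((p : ℂ) ^ (2 * κ))] at e8
        rw [e1]
        exact e8
      refine e3.congr_fun fun N ↦ ?_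
      by_cases hN : N % 4 = cls κ r
      · rw [if_pos hN]
        have e4 := tpe_L2 κ p N hp hp2 r hN
        have e5 : (p : ℂ) ^ (2 * κ) = (p : ℂ) ^ (κ - 1) * (p : ℂ) ^ (κ + 1) := by
          rw [← pow_add]
          congr 1
          omega
        have e6 : (p : ℂ) ^ (κ - 1) * (1 + ((psi κ p N : ℤ) : ℂ)) * c N *
            ee ((N : ℂ) * (τ : ℂ) / 4) = ((p : ℂ) ^ (κ - 1) * (p : ℂ)⁻¹ * c N *
              ee ((N : ℂ) * (τ : ℂ) / 4)) * ((p : ℂ) * (1 + ((psi κ p N : ℤ) : ℂ))) := by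
          field_simp
        rw [e6, ← e4, Finset.mul_sum]
        refine Finset.sum_congr rfl fun b _ ↦ ?_
        rw [if_pos hN, e2]
        have e7 : (N : ℂ) * (((p : ℂ) * (τ : ℂ) + (b : ℂ)) / (p : ℂ)) / 4 =
            (N : ℂ) * (τ : ℂ) / 4 + (N : ℂ) * (b : ℂ) / (4 * (p : ℂ)) := by
          field_simp
        rw [e7, ee_add, e5]
        field_simp
      · rw [if_neg hN]
        symm
        refine Finset.sum_eq_zero fun b _ ↦ ?_
        rw [if_neg hN, mul_zero]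
    -- third piece
    have hX3 : HasSum (fun N : ℕ ↦ if N % 4 = cls κ r then c (p ^ 2 * N) *
        ee ((N : ℂ) * (τ : ℂ) / 4) else 0)
        ((p : ℂ) ^ (2 * κ) *
          ∑ b ∈ Finset.range (p ^ 2), sl κ p !![1, (b : ℤ); 0, (p : ℤ) ^ 2] h τ r) := by
      have hp2z : (0 : ℤ) < (p : ℤ) ^ 2 := by positivity
      have e1 : ∀ b : ℕ, sl κ p !![1, (b : ℤ); 0, (p : ℤ) ^ 2] h τ r =
          (((p : ℂ) ^ 2) ^ (κ + 1))⁻¹ * tpe_s κ (ee (((r : ℕ) : ℂ) * (b : ℂ) / 4)) *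
              h (mob !![1, (b : ℤ); 0, (p : ℤ) ^ 2] τ) r := by
        intro b
        rw [tpe_up κ p _ _ _ hp2z τ _ (isM_U1_odd p hodd b τ)]
        fin_cases r
        · simp [tpe_s_zero, tpe_s_one, ee_zero]
        · simp [tpe_s_zero]
          ring
      have e2 : ∀ b : ℕ, ((mob !![1, (b : ℤ); 0, (p : ℤ) ^ 2] τ : ℍ) : ℂ) =
          ((τ : ℂ) + (b : ℂ)) / (p : ℂ) ^ 2 := by
        intro b
        rw [tpe_mob _ _ _ one_pos hp2z]
        push_cast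
        rw [one_mul]
      rw [Finset.mul_sum]
      have e3 : HasSum (fun N : ℕ ↦ ∑ b ∈ Finset.range (p ^ 2), ((p : ℂ) ^ (2 * κ) *
          ((((p : ℂ) ^ 2) ^ (κ + 1))⁻¹ * tpe_s κ (ee (((r : ℕ) : ℂ) * (b : ℂ) / 4)))) *
              (if N % 4 = cls κ r then c N * ee ((N : ℂ) *
                ((mob !![1, (b : ℤ); 0, (p : ℤ) ^ 2] τ : ℍ) : ℂ) / 4) else 0))
          (∑ b ∈ Finset.range (p ^ 2), (p : ℂ) ^ (2 * κ) *
            sl κ p !![1, (b : ℤ); 0, (p : ℤ) ^ 2] h τ r) := by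
        refine hasSum_sum fun b _ ↦ ?_
        have e8 := (H.sum (mob !![1, (b : ℤ); 0, (p : ℤ) ^ 2] τ) r).mul_left
          ((p : ℂ) ^ (2 * κ) * ((((p : ℂ) ^ 2) ^ (κ + 1))⁻¹ *
            tpe_s κ (ee (((r : ℕ) : ℂ) * (b : ℂ) / 4))))
        rw [mul_assoc ((p : ℂ) ^ (2 * κ))] at e8
        rw [e1]
        exact e8
      have e5 : (p : ℂ) ^ (2 * κ) * (((p : ℂ) ^ 2) ^ (κ + 1))⁻¹ = ((p : ℂ) ^ 2)⁻¹ := by
        rw [pow_succ ((p : ℂ) ^ 2), ← pow_mul]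
        field_simp
      have e4 : HasSum (fun N : ℕ ↦ if N % 4 = cls κ r ∧ p ^ 2 ∣ N then c N *
          ee ((N : ℂ) * (τ : ℂ) / (4 * (p : ℂ) ^ 2)) else 0)
          (∑ b ∈ Finset.range (p ^ 2), (p : ℂ) ^ (2 * κ) *
            sl κ p !![1, (b : ℤ); 0, (p : ℤ) ^ 2] h τ r) := by
        refine e3.congr_fun fun N ↦ ?_
        by_cases hN : N % 4 = cls κ r
        · have e6 : (if N % 4 = cls κ r ∧ p ^ 2 ∣ N then c N *
              ee ((N : ℂ) * (τ : ℂ) / (4 * (p : ℂ) ^ 2)) else 0) =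
              (((p : ℂ) ^ 2)⁻¹ * c N * ee ((N : ℂ) * (τ : ℂ) / (4 * (p : ℂ) ^ 2))) *
                (if p ^ 2 ∣ N then (p : ℂ) ^ 2 else 0) := by
            by_cases h6 : p ^ 2 ∣ N
            · rw [if_pos ⟨hN, h6⟩, if_pos h6]
              field_simp
            · rw [if_neg (fun h ↦ h6 h.2), if_neg h6, mul_zero]
          rw [e6, ← tpe_L3 κ p N hp hp2 r hN, Finset.mul_sum]
          refine Finset.sum_congr rfl fun b _ ↦ ?_
          rw [if_pos hN, e2]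
          have e7 : (N : ℂ) * (((τ : ℂ) + (b : ℂ)) / (p : ℂ) ^ 2) / 4 =
              (N : ℂ) * (τ : ℂ) / (4 * (p : ℂ) ^ 2) + (N : ℂ) * (b : ℂ) / (4 * (p : ℂ) ^ 2) := by
            field_simp
          rw [e7, ee_add, ← mul_assoc ((p : ℂ) ^ (2 * κ)), e5]
          ring
        · rw [if_neg (fun h ↦ hN h.1)]
          symm
          refine Finset.sum_eq_zero fun b _ ↦ ?_
          rw [if_neg hN, mul_zero]
      have e6 : HasSum ((fun N : ℕ ↦ if N % 4 = cls κ r ∧ p ^ 2 ∣ N then c N *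
          ee ((N : ℂ) * (τ : ℂ) / (4 * (p : ℂ) ^ 2)) else 0) ∘ fun n : ℕ ↦ p ^ 2 * n)
          (∑ b ∈ Finset.range (p ^ 2), (p : ℂ) ^ (2 * κ) *
            sl κ p !![1, (b : ℤ); 0, (p : ℤ) ^ 2] h τ r) := by
        rw [hinj.hasSum_iff]
        · exact e4
        · intro N hN
          rw [if_neg]
          rintro ⟨-, t, rfl⟩
          exact hN ⟨t, rfl⟩
      refine e6.congr_fun fun n ↦ ?_
      change _ = if (p ^ 2 * n) % 4 = cls κ r ∧ p ^ 2 ∣ p ^ 2 * n then c (p ^ 2 * n) *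
          ee (((p ^ 2 * n : ℕ) : ℂ) * (τ : ℂ) / (4 * (p : ℂ) ^ 2)) else 0
      rw [hmod]
      by_cases hn : n % 4 = cls κ r
      · rw [if_pos hn, if_pos ⟨hn, dvd_mul_right _ _⟩]
        congr 2
        push_cast
        field_simp
      · rw [if_neg hn, if_neg (fun h ↦ hn h.1)]
    have hall := (hX1.add hX2).add hX3
    have hT : T κ p h τ r = (p : ℂ) ^ (2 * κ) * sl κ p !![(p : ℤ) ^ 2, 0; 0, 1] h τ r +
        (p : ℂ) ^ (2 * κ) * ∑ b ∈ Finset.range p, sl κ p !![(p : ℤ), (b : ℤ); 0, (p : ℤ)] h τ r +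
        (p : ℂ) ^ (2 * κ) *
          ∑ b ∈ Finset.range (p ^ 2), sl κ p !![1, (b : ℤ); 0, (p : ℤ) ^ 2] h τ r := by
      unfold T
      rw [Pi.smul_apply, Pi.add_apply, Pi.add_apply, Finset.sum_apply, Finset.sum_apply,
        smul_eq_mul]
      ring
    rw [hT]
    refine hall.congr_fun fun N ↦ ?_
    by_cases hN : N % 4 = cls κ r
    · rw [if_pos hN, if_pos hN, if_pos hN, if_pos hN]
      unfold Tc
      rw [if_pos (hcond N hN)]
      ring
    · rw [if_neg hN, if_neg hN, if_neg hN, if_neg hN]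
      ring

end MP836e4b.P
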