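/-
MODULE TP (size S-M), board mod836, MP_836e4b_nt, folder Work/MP_836e4b_nt/P. Keep the statements verbatim, helper lemmas private.
T κ p preserves the space (T2E, TpE, TInv).
-/
import Mathlib
import Pool.Agent.Work.MP_836e4b_nt.P.Defs
import Pool.Agent.Work.MP_836e4b_nt.P.T2E
import Pool.Agent.Work.MP_836e4b_nt.P.TpE
import Pool.Agent.Work.MP_836e4b_nt.P.TInv

open UpperHalfPlane Complex
open scoped MatrixGroups ComplexConjugate Matrix

namespace MP836e4b.P

theorem isP_T (κ p : ℕ) (hκ : 1 ≤ κ) (hp : p.Prime) (c : ℕ → ℂ) (h : VF) (H : IsP κ c h) :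
    IsP κ (Tc κ p c) (T κ p h) := by
  refine ⟨?_, fun γ => T_inv κ p hp h H.inv γ⟩
  by_cases h2 : p = 2
  · subst h2
    exact hasE_T_two κ hκ c h H.exp
  · exact hasE_T_odd κ p hκ hp h2 c h H.exp

end MP836e4b.P
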