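/-
MODULE CInv (size M-L), board mod836, MP_836e4b_nt, folder Work/MP_836e4b_nt/P. Keep the statements verbatim, helper lemmas private.
Inversion for odd squarefree D: the proof of module Inv (D prime) verbatim; for p ∣ D: p² ∣ Dm² iff p ∣ m (D squarefree),
ψ(Dm²) = 0 for all m. Copy the private lemmas of Inv or generalise them.
-/
import Mathlib
import Pool.Agent.Work.MP_836e4b_nt.P.Defs
import Pool.Agent.Work.MP_836e4b_nt.P.Inv

open UpperHalfPlane Complex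
open scoped MatrixGroups ComplexConjugate Matrix

namespace MP836e4b.P

private noncomputable def FF (s D P : ℕ) (c : ℕ → ℂ) (m : ℕ) : ℂ :=
  if 0 < m ∧ m.Coprime P then ((m : ℂ) ^ s)⁻¹ * c (D * m ^ 2) else 0

private theorem Mf_eq (k e D P : ℕ) (c : ℕ → ℂ) : Mf k e D P c = ∑' m, FF (2 * k + e - 1) D P c m :=
  rfl

private theorem inv_bound (κ k e D : ℕ) (hk : 3 ≤ k) (hκ : κ = k + e) (c : ℕ → ℂ) (C : ℝ)
    (hb : ∀ n : ℕ, 1 ≤ n → ‖c n‖ ≤ C * (n : ℝ) ^ ((2 * (κ : ℝ) + 1) / 4)) (P m : ℕ) :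
    ‖FF (2 * k + e - 1) D P c m‖ ≤
      (‖c 0‖ + C * (D : ℝ) ^ ((2 * (κ : ℝ) + 1) / 4)) * (m : ℝ) ^ (-(3 / 2) : ℝ) := by
  have hC : 0 ≤ C := by
    have := hb 1 le_rfl
    simp only [Nat.cast_one, Real.one_rpow, mul_one] at this
    exact (norm_nonneg _).trans this
  have hq : (0 : ℝ) < (2 * (κ : ℝ) + 1) / 4 := by positivity
  have hB : 0 ≤ ‖c 0‖ + C * (D : ℝ) ^ ((2 * (κ : ℝ) + 1) / 4) := by positivity
  have hall : ∀ n : ℕ, ‖c n‖ ≤ ‖c 0‖ + C * (n : ℝ) ^ ((2 * (κ : ℝ) + 1) / 4) := by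
    intro n
    rcases Nat.eq_zero_or_pos n with h | h
    · subst h
      have : (0 : ℝ) ≤ C * ((0 : ℕ) : ℝ) ^ ((2 * (κ : ℝ) + 1) / 4) := by positivity
      linarith
    · have := hb n h
      have h2 := norm_nonneg (c 0)
      linarith
  unfold FF
  split_ifs with h
  · have hm : (1 : ℝ) ≤ (m : ℝ) := by exact_mod_cast h.1
    have hm0 : (0 : ℝ) < (m : ℝ) := by linarith
    rw [norm_mul, norm_inv, norm_pow, Complex.norm_natCast]
    have h1 := hall (D * m ^ 2)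
    have h2 : (((D * m ^ 2 : ℕ) : ℝ)) ^ ((2 * (κ : ℝ) + 1) / 4) =
        (D : ℝ) ^ ((2 * (κ : ℝ) + 1) / 4) * (m : ℝ) ^ ((2 * (κ : ℝ) + 1) / 2) := by
      push_cast
      rw [Real.mul_rpow (by positivity) (by positivity), ← Real.rpow_natCast (m : ℝ) 2,
        ← Real.rpow_mul hm0.le]
      congr 2
      push_cast
      ring
    have h3 : (1 : ℝ) ≤ (m : ℝ) ^ ((2 * (κ : ℝ) + 1) / 2) :=
      Real.one_le_rpow hm (by positivity)
    have h4 : ‖c (D * m ^ 2)‖ ≤ (‖c 0‖ + C * (D : ℝ) ^ ((2 * (κ : ℝ) + 1) / 4)) *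
        (m : ℝ) ^ ((2 * (κ : ℝ) + 1) / 2) := by
      rw [h2] at h1
      have h5 : ‖c 0‖ ≤ ‖c 0‖ * (m : ℝ) ^ ((2 * (κ : ℝ) + 1) / 2) :=
        le_mul_of_one_le_right (norm_nonneg _) h3
      calc ‖c (D * m ^ 2)‖ ≤ ‖c 0‖ + C * ((D : ℝ) ^ ((2 * (κ : ℝ) + 1) / 4) *
          (m : ℝ) ^ ((2 * (κ : ℝ) + 1) / 2)) := h1
        _ ≤ ‖c 0‖ * (m : ℝ) ^ ((2 * (κ : ℝ) + 1) / 2) + C * ((D : ℝ) ^ ((2 * (κ : ℝ) + 1) / 4) *
          (m : ℝ) ^ ((2 * (κ : ℝ) + 1) / 2)) := by linarith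
        _ = _ := by ring
    have h6 : ((m : ℝ) ^ (2 * k + e - 1))⁻¹ * (m : ℝ) ^ ((2 * (κ : ℝ) + 1) / 2) ≤
        (m : ℝ) ^ (-(3 / 2) : ℝ) := by
      rw [← Real.rpow_natCast, ← Real.rpow_neg hm0.le, ← Real.rpow_add hm0]
      apply Real.rpow_le_rpow_of_exponent_le hm
      rw [Nat.cast_sub (by omega), hκ]
      push_cast
      have : (3 : ℝ) ≤ (k : ℝ) := by exact_mod_cast hk
      linarith
    calc ((m : ℝ) ^ (2 * k + e - 1))⁻¹ * ‖c (D * m ^ 2)‖
        ≤ ((m : ℝ) ^ (2 * k + e - 1))⁻¹ * ((‖c 0‖ + C * (D : ℝ) ^ ((2 * (κ : ℝ) + 1) / 4)) *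
          (m : ℝ) ^ ((2 * (κ : ℝ) + 1) / 2)) := by gcongr
      _ = (‖c 0‖ + C * (D : ℝ) ^ ((2 * (κ : ℝ) + 1) / 4)) *
          (((m : ℝ) ^ (2 * k + e - 1))⁻¹ * (m : ℝ) ^ ((2 * (κ : ℝ) + 1) / 2)) := by ring
      _ ≤ _ := by gcongr
  · rw [norm_zero]
    positivity

private theorem inv_maj_summable (B : ℝ) : Summable fun m : ℕ ↦ B * (m : ℝ) ^ (-(3 / 2) : ℝ) := by
  apply Summable.mul_left
  rw [Real.summable_nat_rpow]
  norm_num

private theorem inv_summable (κ k e D : ℕ) (hk : 3 ≤ k) (hκ : κ = k + e) (c : ℕ → ℂ)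
    (hb : ∃ C : ℝ, ∀ n : ℕ, 1 ≤ n → ‖c n‖ ≤ C * (n : ℝ) ^ ((2 * (κ : ℝ) + 1) / 4)) (P : ℕ) :
    Summable (FF (2 * k + e - 1) D P c) := by
  obtain ⟨C, hC⟩ := hb
  exact Summable.of_norm_bounded (inv_maj_summable _) (inv_bound κ k e D hk hκ c C hC P)

private theorem inv_mul_inj (p : ℕ) (hp : 0 < p) : Function.Injective fun m : ℕ ↦ p * m := by
  intro a b h
  exact Nat.eq_of_mul_eq_mul_left hp h

private theorem tsum_mul_p (p : ℕ) (hp : 0 < p) (g : ℕ → ℂ) :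
    ∑' m : ℕ, g (p * m) = ∑' m : ℕ, if p ∣ m then g m else 0 := by
  rw [← (inv_mul_inj p hp).tsum_eq (f := fun m : ℕ ↦ if p ∣ m then g m else 0)]
  · refine tsum_congr fun m ↦ ?_
    rw [if_pos (dvd_mul_right p m)]
  · intro m hm
    rw [Function.mem_support] at hm
    by_cases h : p ∣ m
    · obtain ⟨a, rfl⟩ := h
      exact ⟨a, rfl⟩
    · exact absurd (if_neg h) hm

private theorem tsum_div_p (p : ℕ) (hp : 0 < p) (g : ℕ → ℂ) :
    ∑' m : ℕ, (if p ∣ m then g (m / p) else 0) = ∑' m : ℕ, g m := by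
  rw [← (inv_mul_inj p hp).tsum_eq (f := fun m : ℕ ↦ if p ∣ m then g (m / p) else 0)]
  · refine tsum_congr fun m ↦ ?_
    rw [if_pos (dvd_mul_right p m), Nat.mul_div_cancel_left _ hp]
  · intro m hm
    rw [Function.mem_support] at hm
    by_cases h : p ∣ m
    · obtain ⟨a, rfl⟩ := h
      exact ⟨a, rfl⟩
    · exact absurd (if_neg h) hm

private theorem summable_div_p (p : ℕ) (hp : 0 < p) (g : ℕ → ℂ) (hg : Summable g) :
    Summable fun m : ℕ ↦ if p ∣ m then g (m / p) else 0 := by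
  have : Summable ((fun m : ℕ ↦ if p ∣ m then g (m / p) else 0) ∘ fun m : ℕ ↦ p * m) := by
    refine hg.congr fun m ↦ ?_
    simp [Nat.mul_div_cancel_left _ hp]
  refine ((inv_mul_inj p hp).summable_iff ?_).1 this
  intro m hm
  by_cases h : p ∣ m
  · obtain ⟨a, rfl⟩ := h
    exact absurd ⟨a, rfl⟩ hm
  · exact if_neg h

/-- the class of `D m²` -/
private theorem inv_cls (κ D m : ℕ) (hD4 : D % 4 = cls κ 1) :
    (D * m ^ 2) % 4 = cls κ 0 ∨ (D * m ^ 2) % 4 = cls κ 1 := by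
  rcases Nat.even_or_odd m with h | h
  · left
    obtain ⟨a, rfl⟩ := h
    have : D * (a + a) ^ 2 = 4 * (D * a ^ 2) := by ring
    rw [this]
    simp [cls]
  · right
    obtain ⟨a, rfl⟩ := h
    have : D * (2 * a + 1) ^ 2 = D + 4 * (D * (a ^ 2 + a)) := by ring
    rw [this, Nat.add_mul_mod_self_left, hD4]

private theorem inv_dvd (p D m : ℕ) (hp : p.Prime) (hD : Squarefree D) :
    p ^ 2 ∣ D * m ^ 2 ↔ p ∣ m := by
  constructor
  · intro h
    by_contra hpm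
    have hc : Nat.Coprime (p ^ 2) (m ^ 2) :=
      Nat.Coprime.pow 2 2 ((Nat.Prime.coprime_iff_not_dvd hp).2 hpm)
    have h1 : p ^ 2 ∣ D := hc.dvd_of_dvd_mul_right h
    rw [pow_two] at h1
    exact hp.one_lt.ne' (Nat.isUnit_iff.1 (hD p h1))
  · rintro ⟨a, rfl⟩
    exact ⟨D * a ^ 2, by ring⟩

private theorem inv_psi (κ p D m : ℕ) (hp : p.Prime) :
    psi κ p (D * m ^ 2) = if p ∣ m then 0 else psi κ p D := by
  unfold psi
  by_cases h2 : p = 2
  · subst h2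
    simp only [if_true]
    by_cases hm : 2 ∣ m
    · rw [if_pos hm]
      obtain ⟨a, rfl⟩ := hm
      have : D * (2 * a) ^ 2 = 2 * (2 * (D * a ^ 2)) := by ring
      rw [this]
      simp
    · rw [if_neg hm]
      obtain ⟨a, rfl⟩ : Odd m := by
        rw [← Nat.not_even_iff_odd, even_iff_two_dvd]; exact hm
      obtain ⟨b, hb⟩ : 2 ∣ a * (a + 1) := (Nat.even_mul_succ_self a).two_dvd
      have h1 : D * (2 * a + 1) ^ 2 = D + 8 * (D * b) := by
        have : D * (2 * a + 1) ^ 2 = D + 4 * D * (a * (a + 1)) := by ring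
        rw [this, hb]; ring
      rw [h1]
      have h3 : (D + 8 * (D * b)) % 2 = D % 2 := by omega
      rw [h3]
      have h4 : ((-1 : ℤ) ^ κ * (((D + 8 * (D * b) : ℕ)) : ℤ)) % 8 = ((-1 : ℤ) ^ κ * (D : ℤ)) % 8 := by
        push_cast
        rw [mul_add, show (-1 : ℤ) ^ κ * (8 * ((D : ℤ) * (b : ℤ))) =
          8 * ((-1 : ℤ) ^ κ * ((D : ℤ) * (b : ℤ))) by ring, Int.add_mul_emod_self_left]
      rw [h4]
  · rw [if_neg h2, if_neg h2]
    have hpos : 0 < p := hp.pos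
    have : ((-1 : ℤ) ^ κ * ((D * m ^ 2 : ℕ) : ℤ)) = ((-1 : ℤ) ^ κ * (D : ℤ)) * (m : ℤ) ^ 2 := by
      push_cast; ring
    rw [this, jacobiSym.mul_left]
    by_cases hm : p ∣ m
    · rw [if_pos hm]
      have hz : jacobiSym ((m : ℤ) ^ 2) p = 0 := by
        rw [jacobiSym.pow_left]
        have : jacobiSym (m : ℤ) p = 0 := by
          haveI : NeZero p := ⟨hpos.ne'⟩
          rw [jacobiSym.eq_zero_iff_not_coprime]
          intro hg
          have h1 : p ∣ Int.gcd (m : ℤ) (p : ℤ) := by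
            rw [Int.gcd_natCast_natCast]
            exact Nat.dvd_gcd hm dvd_rfl
          rw [hg] at h1
          exact hp.one_lt.ne' (Nat.dvd_one.1 h1)
        rw [this]; norm_num
      rw [hz, mul_zero]
    · rw [if_neg hm]
      have hg : Int.gcd (m : ℤ) (p : ℤ) = 1 := by
        rw [Int.gcd_natCast_natCast]
        exact ((Nat.Prime.coprime_iff_not_dvd hp).2 hm).symm
      have := jacobiSym.sq_one hg
      rw [jacobiSym.pow_left, this, mul_one]

private theorem inv_psi_abs (κ p D : ℕ) : ‖((psi κ p D : ℤ) : ℂ)‖ ≤ 1 := by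
  have : psi κ p D = 0 ∨ psi κ p D = 1 ∨ psi κ p D = -1 := by
    unfold psi
    split_ifs
    · simp
    · simp
    · simp
    · exact jacobiSym.trichotomy _ _
  rcases this with h | h | h <;> rw [h] <;> simp

private theorem inv_point (κ s p D P m : ℕ) (hp : p.Prime) (hD : Squarefree D) (hD4 : D % 4 = cls κ 1)
    (hpP : ¬ p ∣ P) (c : ℕ → ℂ) :
    FF s D P (Tc κ p c) m = (p : ℂ) ^ s * FF s D P c (p * m) + (p : ℂ) ^ (κ - 1) * FF s D P c m +
      (p : ℂ) ^ (κ - 1) * ((psi κ p D : ℤ) : ℂ) * FF s D (P * p) c m +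
      (p : ℂ) ^ (2 * κ - 1) * ((p : ℂ) ^ s)⁻¹ * (if p ∣ m then FF s D P c (m / p) else 0) := by
  have hp0 : (p : ℂ) ≠ 0 := by exact_mod_cast hp.ne_zero
  have hcp : Nat.Coprime p P := (Nat.Prime.coprime_iff_not_dvd hp).2 hpP
  by_cases hm : 0 < m ∧ m.Coprime P
  · have hm0 : (m : ℂ) ≠ 0 := by exact_mod_cast hm.1.ne'
    have e1 : FF s D P (Tc κ p c) m = ((m : ℂ) ^ s)⁻¹ * Tc κ p c (D * m ^ 2) := if_pos hm
    have e2 : FF s D P c (p * m) = (((p * m : ℕ) : ℂ) ^ s)⁻¹ * c (D * (p * m) ^ 2) :=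
      if_pos ⟨Nat.mul_pos hp.pos hm.1, Nat.Coprime.mul_left hcp hm.2⟩
    have e3 : FF s D P c m = ((m : ℂ) ^ s)⁻¹ * c (D * m ^ 2) := if_pos hm
    have e5 : Tc κ p c (D * m ^ 2) = c (p ^ 2 * (D * m ^ 2)) +
        (p : ℂ) ^ (κ - 1) * (1 + ((psi κ p (D * m ^ 2) : ℤ) : ℂ)) * c (D * m ^ 2)
        + (p : ℂ) ^ (2 * κ - 1) *
          (if p ^ 2 ∣ D * m ^ 2 then c (D * m ^ 2 / p ^ 2) else 0) :=
      if_pos (inv_cls κ D m hD4)
    have e6 : p ^ 2 * (D * m ^ 2) = D * (p * m) ^ 2 := by ring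
    rw [e1, e2, e3, e5, e6, inv_psi κ p D m hp]
    by_cases hpm : p ∣ m
    · have hd : p ^ 2 ∣ D * m ^ 2 := (inv_dvd p D m hp hD).2 hpm
      have e4 : FF s D (P * p) c m = 0 := by
        refine if_neg ?_
        rintro ⟨_, h⟩
        have h1 := Nat.Coprime.coprime_mul_left_right h
        exact ((Nat.Prime.coprime_iff_not_dvd hp).1 h1.symm) hpm
      rw [if_pos hd, if_pos hpm, if_pos hpm, e4]
      obtain ⟨a, rfl⟩ := hpm
      have ha : 0 < a := Nat.pos_of_mul_pos_left hm.1 |> fun _ ↦ by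
        rcases Nat.eq_zero_or_pos a with h | h
        · subst h; simp at hm
        · exact h
      have haP : a.Coprime P := Nat.Coprime.coprime_mul_left hm.2
      have ha0 : (a : ℂ) ≠ 0 := by exact_mod_cast ha.ne'
      rw [Nat.mul_div_cancel_left _ hp.pos]
      have e7 : FF s D P c a = ((a : ℂ) ^ s)⁻¹ * c (D * a ^ 2) := if_pos ⟨ha, haP⟩
      have e8 : D * (p * a) ^ 2 / p ^ 2 = D * a ^ 2 := by
        rw [show D * (p * a) ^ 2 = p ^ 2 * (D * a ^ 2) by ring,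
          Nat.mul_div_cancel_left _ (pow_pos hp.pos 2)]
      rw [e7, e8]
      push_cast
      simp only [mul_pow]
      field_simp
      ring
    · have hd : ¬ p ^ 2 ∣ D * m ^ 2 := fun h ↦ hpm ((inv_dvd p D m hp hD).1 h)
      have e4 : FF s D (P * p) c m = ((m : ℂ) ^ s)⁻¹ * c (D * m ^ 2) := by
        refine if_pos ⟨hm.1, ?_⟩
        exact Nat.Coprime.mul_right hm.2 ((Nat.Prime.coprime_iff_not_dvd hp).2 hpm).symm
      rw [if_neg hd, if_neg hpm, if_neg hpm, e4]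
      push_cast
      simp only [mul_pow]
      field_simp
      ring
  · have e1 : FF s D P (Tc κ p c) m = 0 := if_neg hm
    have e2 : FF s D P c (p * m) = 0 := by
      refine if_neg ?_
      rintro ⟨h1, h2⟩
      exact hm ⟨Nat.pos_of_mul_pos_left h1 |> fun _ ↦ by
        rcases Nat.eq_zero_or_pos m with h | h
        · subst h; simp at h1
        · exact h, Nat.Coprime.coprime_mul_left h2⟩
    have e3 : FF s D P c m = 0 := if_neg hm
    have e4 : FF s D (P * p) c m = 0 := by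
      refine if_neg ?_
      rintro ⟨h1, h2⟩
      exact hm ⟨h1, Nat.Coprime.coprime_mul_right_right h2⟩
    have e5 : (if p ∣ m then FF s D P c (m / p) else 0) = 0 := by
      split_ifs with hpm
      · obtain ⟨a, rfl⟩ := hpm
        rw [Nat.mul_div_cancel_left _ hp.pos]
        refine if_neg ?_
        rintro ⟨h1, h2⟩
        exact hm ⟨Nat.mul_pos hp.pos h1, Nat.Coprime.mul_left hcp h2⟩
      · rfl
    rw [e1, e2, e3, e4, e5]
    ring

private theorem inv_diff (s p D P : ℕ) (hp : p.Prime) (c : ℕ → ℂ) (m : ℕ) :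
    (if p ∣ m then FF s D P c m else 0) = FF s D P c m - FF s D (P * p) c m := by
  split_ifs with hpm
  · have e4 : FF s D (P * p) c m = 0 := by
      refine if_neg ?_
      rintro ⟨_, h⟩
      have h1 := Nat.Coprime.coprime_mul_left_right h
      exact ((Nat.Prime.coprime_iff_not_dvd hp).1 h1.symm) hpm
    rw [e4, sub_zero]
  · have : FF s D (P * p) c m = FF s D P c m := by
      unfold FF
      have : (0 < m ∧ m.Coprime (P * p)) ↔ (0 < m ∧ m.Coprime P) := by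
        constructor
        · rintro ⟨h1, h2⟩
          exact ⟨h1, Nat.Coprime.coprime_mul_right_right h2⟩
        · rintro ⟨h1, h2⟩
          exact ⟨h1, Nat.Coprime.mul_right h2 ((Nat.Prime.coprime_iff_not_dvd hp).2 hpm).symm⟩
      simp only [this]
    rw [this, sub_self]

private theorem inv_rec (κ k e p D P : ℕ) (hk : 3 ≤ k) (hκ : κ = k + e) (hp : p.Prime) (hD : Squarefree D)
    (hD4 : D % 4 = cls κ 1) (hpP : ¬ p ∣ P) (c : ℕ → ℂ)
    (hb : ∃ C : ℝ, ∀ n : ℕ, 1 ≤ n → ‖c n‖ ≤ C * (n : ℝ) ^ ((2 * (κ : ℝ) + 1) / 4)) :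
    Mf k e D P (Tc κ p c) = (p : ℂ) ^ (2 * k + e - 1) * (Mf k e D P c - Mf k e D (P * p) c) +
      (p : ℂ) ^ (κ - 1) * Mf k e D P c +
      (p : ℂ) ^ (κ - 1) * ((psi κ p D : ℤ) : ℂ) * Mf k e D (P * p) c +
      (p : ℂ) ^ (2 * κ - 1) * ((p : ℂ) ^ (2 * k + e - 1))⁻¹ * Mf k e D P c := by
  have hS := inv_summable κ k e D hk hκ c hb P
  have hS' := inv_summable κ k e D hk hκ c hb (P * p)
  have hS1 : Summable fun m ↦ FF (2 * k + e - 1) D P c (p * m) :=
    hS.comp_injective (inv_mul_inj p hp.pos)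
  have hS4 := summable_div_p p hp.pos _ hS
  simp only [Mf_eq]
  rw [tsum_congr fun m ↦ inv_point κ (2 * k + e - 1) p D P m hp hD hD4 hpP c]
  rw [Summable.tsum_add (((hS1.mul_left _).add (hS.mul_left _)).add (hS'.mul_left _))
    (hS4.mul_left _), Summable.tsum_add ((hS1.mul_left _).add (hS.mul_left _)) (hS'.mul_left _),
    Summable.tsum_add (hS1.mul_left _) (hS.mul_left _), tsum_mul_left, tsum_mul_left, tsum_mul_left,
    tsum_mul_left, tsum_div_p p hp.pos, tsum_mul_p p hp.pos,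
    tsum_congr fun m ↦ inv_diff (2 * k + e - 1) p D P hp c m, hS.tsum_sub hS']

private theorem inv_primorial (κ k e D : ℕ) (hk : 3 ≤ k) (hκ : κ = k + e) (hD : Squarefree D)
    (hD4 : D % 4 = cls κ 1) (V : Set (ℕ → ℂ)) (hV : ∀ c ∈ V, ∀ p : ℕ, p.Prime → Tc κ p c ∈ V)
    (hb : ∀ c ∈ V, ∃ C : ℝ, ∀ n : ℕ, 1 ≤ n → ‖c n‖ ≤ C * (n : ℝ) ^ ((2 * (κ : ℝ) + 1) / 4))
    (hM : ∀ c ∈ V, Mf k e D 1 c = 0) (S : Finset ℕ) :
    (∀ p ∈ S, p.Prime) → ∀ c ∈ V, Mf k e D (∏ p ∈ S, p) c = 0 := by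
  induction S using Finset.induction_on with
  | empty => intro _ c hc; simpa using hM c hc
  | insert p S hpS ih =>
    intro hpr c hc
    have hp : p.Prime := hpr p (Finset.mem_insert_self _ _)
    have hS : ∀ q ∈ S, q.Prime := fun q hq ↦ hpr q (Finset.mem_insert_of_mem hq)
    have hpP : ¬ p ∣ ∏ q ∈ S, q := by
      intro h
      obtain ⟨q, hq, h1⟩ := (hp.prime.dvd_finset_prod_iff _).1 h
      have := (Nat.prime_dvd_prime_iff_eq hp (hS q hq)).1 h1
      exact hpS (this ▸ hq)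
    rw [Finset.prod_insert hpS, mul_comm]
    have h0 := ih hS c hc
    have h1 := ih hS (Tc κ p c) (hV c hc p hp)
    have h2 := inv_rec κ k e p D (∏ q ∈ S, q) hk hκ hp hD hD4 hpP c (hb c hc)
    rw [h0, h1] at h2
    have h3 : ((p : ℂ) ^ (κ - 1) * ((psi κ p D : ℤ) : ℂ) - (p : ℂ) ^ (2 * k + e - 1)) *
        Mf k e D ((∏ q ∈ S, q) * p) c = 0 := by
      linear_combination -h2
    rcases mul_eq_zero.1 h3 with h4 | h4
    · exfalso
      have h5 : (p : ℂ) ^ (κ - 1) * ((psi κ p D : ℤ) : ℂ) = (p : ℂ) ^ (2 * k + e - 1) :=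
        sub_eq_zero.1 h4
      have h6 := congrArg (fun x : ℂ ↦ ‖x‖) h5
      simp only [norm_mul, norm_pow, Complex.norm_natCast] at h6
      have h7 : (p : ℝ) ^ (κ - 1) < (p : ℝ) ^ (2 * k + e - 1) := by
        apply pow_lt_pow_right₀
        · exact_mod_cast hp.one_lt
        · omega
      have h8 : (p : ℝ) ^ (κ - 1) * ‖((psi κ p D : ℤ) : ℂ)‖ ≤ (p : ℝ) ^ (κ - 1) * 1 := by
        gcongr
        exact inv_psi_abs κ p D
      linarith
    · exact h4

theorem inversion_sq (κ k e D : ℕ) (hk : 3 ≤ k) (hκ : κ = k + e) (hD : Odd D) (hs : Squarefree D)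
    (hD4 : D % 4 = cls κ 1) (V : Set (ℕ → ℂ)) (hV : ∀ c ∈ V, ∀ p : ℕ, p.Prime → Tc κ p c ∈ V)
    (hb : ∀ c ∈ V, ∃ C : ℝ, ∀ n : ℕ, 1 ≤ n → ‖c n‖ ≤ C * (n : ℝ) ^ ((2 * (κ : ℝ) + 1) / 4))
    (hM : ∀ c ∈ V, Mf k e D 1 c = 0) : ∀ c ∈ V, c D = 0 := by
  intro c hc
  have hz : ∀ N : ℕ, Mf k e D (∏ p ∈ (Finset.range (N + 1)).filter Nat.Prime, p) c = 0 := fun N ↦
    inv_primorial κ k e D hk hκ hs hD4 V hV hb hM _ (fun p hp ↦ (Finset.mem_filter.1 hp).2) c hc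
  obtain ⟨C, hC⟩ := hb c hc
  have ht : Filter.Tendsto (fun N : ℕ ↦ ∑' m, FF (2 * k + e - 1) D
      (∏ p ∈ (Finset.range (N + 1)).filter Nat.Prime, p) c m) Filter.atTop
      (nhds (∑' m : ℕ, if m = 1 then c D else 0)) := by
    refine tendsto_tsum_of_dominated_convergence
      (inv_maj_summable (‖c 0‖ + C * (D : ℝ) ^ ((2 * (κ : ℝ) + 1) / 4))) ?_ ?_
    · intro m
      apply tendsto_const_nhds.congr'
      filter_upwards [Filter.eventually_ge_atTop m] with N hN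
      unfold FF
      by_cases h1 : m = 1
      · subst h1
        simp
      · rw [if_neg h1, if_neg]
        rintro ⟨hm, hcop⟩
        have hq := Nat.minFac_prime h1
        have hqm : m.minFac ≤ m := Nat.minFac_le hm
        have hmem : m.minFac ∈ (Finset.range (N + 1)).filter Nat.Prime := by
          rw [Finset.mem_filter, Finset.mem_range]
          exact ⟨by omega, hq⟩
        have hdv : m.minFac ∣ ∏ p ∈ (Finset.range (N + 1)).filter Nat.Prime, p :=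
          Finset.dvd_prod_of_mem _ hmem
        have := Nat.dvd_gcd (Nat.minFac_dvd m) hdv
        rw [hcop] at this
        exact hq.one_lt.ne' (Nat.dvd_one.1 this)
    · exact Filter.Eventually.of_forall fun N m ↦ inv_bound κ k e D hk hκ c C hC _ m
  have ht0 : Filter.Tendsto (fun N : ℕ ↦ ∑' m, FF (2 * k + e - 1) D
      (∏ p ∈ (Finset.range (N + 1)).filter Nat.Prime, p) c m) Filter.atTop (nhds 0) := by
    refine tendsto_const_nhds.congr fun N ↦ ?_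
    rw [← Mf_eq, hz N]
  have := tendsto_nhds_unique ht ht0
  rwa [tsum_ite_eq] at this

end MP836e4b.P
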