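/-
MODULE Comm (size M), board mod836, MP_836e4b_nt, folder Work/MP_836e4b_nt/P. Keep the statements verbatim, helper lemmas private.
Tc κ p and Tc κ 2 commute on sequences supported on the two classes (p odd prime; p = 2 is trivial). For N in the
classes: p²N = N mod 8, N/p² = N mod 8 (odd squares are 1 mod 8) so the class and psi κ 2 are the same for p²N, N/p²;
psi κ p (4N) = psi κ p N, psi κ p (N/4) = psi κ p N. Compare the nine terms. If 4 ∣ N but N/4 is not in the classes, then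
p²N/4, N/4, N/(4p²) are all not in the classes and c vanishes there (supp).
Also linearity of Tc and Tc preserves integer valued sequences.
-/
import Mathlib
import Pool.Agent.Work.MP_836e4b_nt.P.Defs

open UpperHalfPlane Complex
open scoped MatrixGroups ComplexConjugate Matrix

namespace MP836e4b.P

private theorem cm_sq8 {p : ℕ} (hp : p.Prime) (h2 : p ≠ 2) : p ^ 2 % 8 = 1 := by
  have h := hp.eq_two_or_odd.resolve_left h2
  have h8 : p % 8 < 8 := Nat.mod_lt _ (by norm_num)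
  have h3 : p % 8 % 2 = 1 := by omega
  rw [Nat.pow_mod]
  interval_cases (p % 8) <;> simp_all

private theorem cm_mod4 {q : ℕ} (hq : q % 8 = 1) (m : ℕ) : (q * m) % 4 = m % 4 := by
  have : q % 4 = 1 := by omega
  rw [Nat.mul_mod, this, one_mul, Nat.mod_mod]

private theorem cm_mod2 {q : ℕ} (hq : q % 8 = 1) (m : ℕ) : (q * m) % 2 = m % 2 := by
  have : q % 2 = 1 := by omega
  rw [Nat.mul_mod, this, one_mul, Nat.mod_mod]

private theorem cm_psi2 {q : ℕ} (hq : q % 8 = 1) (κ m : ℕ) : psi κ 2 (q * m) = psi κ 2 m := by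
  unfold psi
  simp only [if_true]
  rw [cm_mod2 hq]
  have h1 : ((-1) ^ κ * ((q * m : ℕ) : ℤ)) % 8 = ((-1) ^ κ * (m : ℤ)) % 8 := by
    have h2 : (q : ℤ) % 8 = 1 := by omega
    rw [Nat.cast_mul, ← mul_assoc, mul_comm ((-1) ^ κ) (q : ℤ), mul_assoc, Int.mul_emod, h2,
      one_mul, Int.emod_emod_of_dvd _ (dvd_refl 8)]
  rw [h1]

private theorem cm_psip {p : ℕ} (hp : p.Prime) (h2 : p ≠ 2) (κ m : ℕ) :
    psi κ p (4 * m) = psi κ p m := by
  unfold psi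
  rw [if_neg h2, if_neg h2]
  have h1 : ((-1) ^ κ * ((4 * m : ℕ) : ℤ)) = (2 : ℤ) ^ 2 * ((-1) ^ κ * (m : ℤ)) := by
    push_cast
    ring
  have h3 : jacobiSym ((2 : ℤ) ^ 2) p = 1 := by
    apply jacobiSym.sq_one'
    rw [Int.gcd_eq_natAbs]
    simpa using (Nat.coprime_primes Nat.prime_two hp).2 (Ne.symm h2)
  rw [h1, jacobiSym.mul_left, h3, one_mul]

/-- the formula without the condition on the class -/
private theorem cm_raw {p : ℕ} (hp : p.Prime) (h2 : p ≠ 2) (κ : ℕ) (c : ℕ → ℂ)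
    (hc : ∀ n, n % 4 ≠ cls κ 0 → n % 4 ≠ cls κ 1 → c n = 0) (N : ℕ) :
    Tc κ p c N = c (p ^ 2 * N) + (p : ℂ) ^ (κ - 1) * (1 + ((psi κ p N : ℤ) : ℂ)) * c N
      + (p : ℂ) ^ (2 * κ - 1) * (if p ^ 2 ∣ N then c (N / p ^ 2) else 0) := by
  have hq := cm_sq8 hp h2
  unfold Tc
  by_cases hR : N % 4 = cls κ 0 ∨ N % 4 = cls κ 1
  · rw [if_pos hR]
  · rw [if_neg hR]
    push Not at hR
    have h1 : c (p ^ 2 * N) = 0 := by
      apply hc <;> rw [cm_mod4 hq]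
      · exact hR.1
      · exact hR.2
    have h3 : c N = 0 := hc N hR.1 hR.2
    have h4 : (if p ^ 2 ∣ N then c (N / p ^ 2) else 0) = 0 := by
      split_ifs with hd
      · obtain ⟨m, rfl⟩ := hd
        have hp0 : 0 < p ^ 2 := pow_pos hp.pos 2
        rw [Nat.mul_div_cancel_left _ hp0]
        rw [cm_mod4 hq] at hR
        exact hc m hR.1 hR.2
      · rfl
    rw [h1, h3, h4]
    ring

private theorem cm_two (κ : ℕ) (c : ℕ → ℂ) (N : ℕ)
    (hR : N % 4 = cls κ 0 ∨ N % 4 = cls κ 1) :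
    Tc κ 2 c N = c (4 * N) + (2 : ℂ) ^ (κ - 1) * (1 + ((psi κ 2 N : ℤ) : ℂ)) * c N
      + (2 : ℂ) ^ (2 * κ - 1) * (if 4 ∣ N then c (N / 4) else 0) := by
  unfold Tc
  rw [if_pos hR]
  norm_num

private theorem cm_supp (κ p : ℕ) (c : ℕ → ℂ) :
    ∀ n, n % 4 ≠ cls κ 0 → n % 4 ≠ cls κ 1 → Tc κ p c n = 0 := by
  intro n h0 h1
  unfold Tc
  rw [if_neg]
  push Not
  exact ⟨h0, h1⟩

theorem Tc_comm (κ p : ℕ) (hp : p.Prime) (c : ℕ → ℂ)
    (hc : ∀ n, n % 4 ≠ cls κ 0 → n % 4 ≠ cls κ 1 → c n = 0) :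
    Tc κ p (Tc κ 2 c) = Tc κ 2 (Tc κ p c) := by
  by_cases h2 : p = 2
  · rw [h2]
  have hq := cm_sq8 hp h2
  have hp0 : 0 < p ^ 2 := pow_pos hp.pos 2
  have hcop : Nat.Coprime (p ^ 2) 4 := by
    have h1 : Nat.Coprime p 2 := (Nat.coprime_primes hp Nat.prime_two).2 h2
    have h3 : Nat.Coprime (p ^ 2) (2 ^ 2) := Nat.Coprime.pow 2 2 h1
    simpa using h3
  funext N
  by_cases hR : N % 4 = cls κ 0 ∨ N % 4 = cls κ 1
  swap
  · push Not at hR
    rw [cm_supp κ p _ N hR.1 hR.2, cm_supp κ 2 _ N hR.1 hR.2]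
  have hR4 : (4 * N) % 4 = cls κ 0 ∨ (4 * N) % 4 = cls κ 1 := by
    left
    simp [cls]
  have hRp : (p ^ 2 * N) % 4 = cls κ 0 ∨ (p ^ 2 * N) % 4 = cls κ 1 := by
    rw [cm_mod4 hq]
    exact hR
  rw [cm_raw hp h2 κ (Tc κ 2 c) (cm_supp κ 2 c) N, cm_two κ (Tc κ p c) N hR]
  rw [cm_two κ c _ hRp, cm_two κ c N hR, cm_raw hp h2 κ c hc (4 * N), cm_raw hp h2 κ c hc N]
  rw [cm_psi2 hq, cm_psip hp h2]
  -- the condition p^2 ∣ 4 N
  have hd1 : (p ^ 2 ∣ 4 * N) ↔ p ^ 2 ∣ N := hcop.dvd_mul_left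
  have hd2 : (4 ∣ p ^ 2 * N) ↔ 4 ∣ N := hcop.symm.dvd_mul_left
  have e1 : (if p ^ 2 ∣ 4 * N then c (4 * N / p ^ 2) else 0) =
      if p ^ 2 ∣ N then c (4 * (N / p ^ 2)) else 0 := by
    by_cases hd : p ^ 2 ∣ N
    · rw [if_pos (hd1.2 hd), if_pos hd, Nat.mul_div_assoc _ hd]
    · rw [if_neg (fun h => hd (hd1.1 h)), if_neg hd]
  have e2 : (if 4 ∣ p ^ 2 * N then c (p ^ 2 * N / 4) else 0) =
      if 4 ∣ N then c (p ^ 2 * (N / 4)) else 0 := by
    by_cases hd : 4 ∣ N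
    · rw [if_pos (hd2.2 hd), if_pos hd, Nat.mul_div_assoc _ hd]
    · rw [if_neg (fun h => hd (hd2.1 h)), if_neg hd]
  have e3 : (if p ^ 2 ∣ N then Tc κ 2 c (N / p ^ 2) else 0) =
      (if p ^ 2 ∣ N then c (4 * (N / p ^ 2)) else 0) +
      (2 : ℂ) ^ (κ - 1) * (1 + ((psi κ 2 N : ℤ) : ℂ)) * (if p ^ 2 ∣ N then c (N / p ^ 2) else 0)
      + (2 : ℂ) ^ (2 * κ - 1) * (if 4 ∣ N then (if p ^ 2 ∣ N then c (N / 4 / p ^ 2) else 0)
        else 0) := by
    by_cases hd : p ^ 2 ∣ N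
    · rw [if_pos hd, if_pos hd, if_pos hd, if_pos hd]
      obtain ⟨m, rfl⟩ := hd
      rw [Nat.mul_div_cancel_left _ hp0]
      have hRm : m % 4 = cls κ 0 ∨ m % 4 = cls κ 1 := by
        rw [cm_mod4 hq] at hR
        exact hR
      rw [cm_two κ c m hRm, cm_psi2 hq]
      congr 2
      by_cases h4 : 4 ∣ m
      · rw [if_pos h4, if_pos (hcop.symm.dvd_mul_left.2 h4), Nat.mul_div_assoc _ h4,
          Nat.mul_div_cancel_left _ hp0]
      · rw [if_neg h4, if_neg (fun h => h4 (hcop.symm.dvd_mul_left.1 h))]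
    · rw [if_neg hd, if_neg hd, if_neg hd, if_neg hd]
      simp
  have e4 : (if 4 ∣ N then Tc κ p c (N / 4) else 0) =
      (if 4 ∣ N then c (p ^ 2 * (N / 4)) else 0) +
      (p : ℂ) ^ (κ - 1) * (1 + ((psi κ p N : ℤ) : ℂ)) * (if 4 ∣ N then c (N / 4) else 0)
      + (p : ℂ) ^ (2 * κ - 1) * (if 4 ∣ N then (if p ^ 2 ∣ N then c (N / 4 / p ^ 2) else 0)
        else 0) := by
    by_cases hd : 4 ∣ N
    · rw [if_pos hd, if_pos hd, if_pos hd, if_pos hd]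
      obtain ⟨m, rfl⟩ := hd
      rw [Nat.mul_div_cancel_left _ (by norm_num : 0 < 4), cm_raw hp h2 κ c hc m,
        cm_psip hp h2]
      congr 2
      by_cases h4 : p ^ 2 ∣ m
      · rw [if_pos h4, if_pos (hcop.dvd_mul_left.2 h4)]
      · rw [if_neg h4, if_neg (fun h => h4 (hcop.dvd_mul_left.1 h))]
    · rw [if_neg hd, if_neg hd, if_neg hd, if_neg hd]
      simp
  have e5 : c (4 * (p ^ 2 * N)) = c (p ^ 2 * (4 * N)) := by
    congr 1
    ring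
  rw [e1, e2, e3, e4, e5]
  ring

theorem Tc_lin (κ p : ℕ) (c c' : ℕ → ℂ) (a : ℂ) :
    Tc κ p (fun n ↦ c n - a * c' n) = fun n ↦ Tc κ p c n - a * Tc κ p c' n := by
  funext N
  unfold Tc
  split_ifs <;> ring

theorem Tc_int (κ p : ℕ) (c : ℕ → ℤ) :
    ∃ c' : ℕ → ℤ, Tc κ p (fun n ↦ (c n : ℂ)) = fun n ↦ (c' n : ℂ) := by
  refine ⟨fun N => if N % 4 = cls κ 0 ∨ N % 4 = cls κ 1 then
    c (p ^ 2 * N) + (p : ℤ) ^ (κ - 1) * (1 + psi κ p N) * c N
      + (p : ℤ) ^ (2 * κ - 1) * (if p ^ 2 ∣ N then c (N / p ^ 2) else 0)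
  else 0, ?_⟩
  funext N
  unfold Tc
  by_cases h : N % 4 = cls κ 0 ∨ N % 4 = cls κ 1
  · by_cases h' : p ^ 2 ∣ N
    · simp only [if_pos h, if_pos h']
      push_cast
      ring
    · simp only [if_pos h, if_neg h']
      push_cast
      ring
  · simp only [if_neg h]
    push_cast
    ring

end MP836e4b.P
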