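/-
MODULE CEgD (size M), board mod836, MP_836e4b_nt, folder Work/MP_836e4b_nt/P. Keep the statements verbatim, helper lemmas private.
The functional c(D) is an eigenfunctional (module EigD with inversion_sq): V = {Tc κ 2 c - l' c : IsP κ c g}. Stable under
Tc κ p (Tc_comm, Tc_lin, isP_T), bounded (isP_coeff_bound), Mf = 0 on V (Mf_lin).
c_zero: if c(D) = 0 for all forms then c(Dm²) = 0 for all forms and all m ≥ 1: strong induction on m, p a prime factor,
m = p m': (Tc κ p c)(Dm'^2) = c(Dm²) + p^{κ-1}(1+ψ)c(Dm'^2) + p^{2κ-1}[p ∣ m'] c(D(m'/p)²) (for p ∣ D: p² ∣ Dm'^2 iff p ∣ m'),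
so c(Dm²) = 0. Then aCoeff = 0 by aCoeff_eq_Sh_sq applied to the coefficients of g_D (isP_gD_sq, L ≠ 0).
-/
import Mathlib
import Pool.Agent.Work.MP_836e4b_nt.P.Defs
import Pool.Agent.Work.MP_836e4b_nt.P.CEig
import Pool.Agent.Work.MP_836e4b_nt.P.CInv
import Pool.Agent.Work.MP_836e4b_nt.P.Comm
import Pool.Agent.Work.MP_836e4b_nt.P.TP
import Pool.Agent.Work.MP_836e4b_nt.P.Sup
import Pool.Agent.Work.MP_836e4b_nt.P.Cont
import Pool.Agent.Work.MP_836e4b_nt.P.Inv

open UpperHalfPlane Complex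
open scoped MatrixGroups ComplexConjugate Matrix

namespace MP836e4b.P

theorem eigD_sq (D κ k e : ℕ) (hD : Odd D) (hs : Squarefree D) (hD4 : D % 4 = cls κ 1)
    (hκ : κ = k + e) (hk : 3 ≤ k) (he : Even e) (he2 : 2 ≤ e)
    (hpar : jacobiSym (-1) D = (-1) ^ k)
    (l : ℂ) (hl : ∀ n, 1 ≤ n → hecke (2 * κ) 2 (aCoeff D k e) n = l * aCoeff D k e n) :
    ∃ l' : ℂ, ∀ (c : ℕ → ℂ) (g : VF), IsP κ c g → Tc κ 2 c D = l' * c D := by
  obtain ⟨l', hl'⟩ := eig_sq D κ k e hD hs hD4 hκ hk he he2 hpar l hl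
  have hκ1 : 1 ≤ κ := by omega
  refine ⟨l', ?_⟩
  have hbd : ∀ (c : ℕ → ℂ) (g : VF), IsP κ c g →
      ∃ C : ℝ, ∀ n : ℕ, 1 ≤ n → ‖c n‖ ≤ C * (n : ℝ) ^ ((2 * (κ : ℝ) + 1) / 4) := by
    intro c g H
    obtain ⟨C, _, hC⟩ := isP_coeff_bound κ c g H
    exact ⟨C, hC⟩
  have key := inversion_sq κ k e D hk hκ hD hs hD4
    {x : ℕ → ℂ | ∃ (c : ℕ → ℂ) (g : VF), IsP κ c g ∧ x = fun n ↦ Tc κ 2 c n - l' * c n}
    (by
      rintro x ⟨c, g, H, rfl⟩ p hp
      refine ⟨Tc κ p c, T κ p g, isP_T κ p hκ1 hp c g H, ?_⟩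
      rw [Tc_lin, Tc_comm κ p hp c H.exp.supp])
    (by
      rintro x ⟨c, g, H, rfl⟩
      exact hbd _ _ (isP_lin κ _ _ _ _ l' (isP_T κ 2 hκ1 Nat.prime_two c g H) H))
    (by
      rintro x ⟨c, g, H, rfl⟩
      rw [Mf_lin κ k e D hk hκ (Tc κ 2 c) c l'
        (hbd _ _ (isP_T κ 2 hκ1 Nat.prime_two c g H)) (hbd _ _ H), hl' c g H]
      ring)
  intro c g H
  exact sub_eq_zero.mp (key _ ⟨c, g, H, rfl⟩)

private theorem cegd_dvd {D p m : ℕ} (hp : p.Prime) (hs : Squarefree D)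
    (h : p ^ 2 ∣ D * m ^ 2) : p ∣ m := by
  by_contra hm
  have h1 : Nat.Coprime (p ^ 2) (m ^ 2) :=
    Nat.Coprime.pow 2 2 ((Nat.Prime.coprime_iff_not_dvd hp).2 hm)
  have h2 : p ^ 2 ∣ D := h1.dvd_of_dvd_mul_right h
  rw [pow_two] at h2
  have h3 := hs p h2
  rw [Nat.isUnit_iff] at h3
  exact hp.one_lt.ne' h3

private theorem cegd_zero (D κ : ℕ) (hs : Squarefree D) (hD4 : D % 4 = cls κ 1)
    (hκ1 : 1 ≤ κ) (h : ∀ (c : ℕ → ℂ) (g : VF), IsP κ c g → c D = 0) :
    ∀ m : ℕ, 1 ≤ m → ∀ (c : ℕ → ℂ) (g : VF), IsP κ c g → c (D * m ^ 2) = 0 := by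
  intro m
  induction m using Nat.strong_induction_on with
  | _ m ih =>
    intro hm c g H
    rcases eq_or_lt_of_le hm with h1 | h1
    · rw [← h1]
      simpa using h c g H
    · have hp : m.minFac.Prime := Nat.minFac_prime (by omega)
      obtain ⟨m', hm'⟩ := Nat.minFac_dvd m
      set p := m.minFac with hpdef
      have hm'0 : 1 ≤ m' := by
        rcases Nat.eq_zero_or_pos m' with h2 | h2
        · rw [h2, mul_zero] at hm'
          omega
        · exact h2
      have hlt : m' < m := by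
        rw [hm']
        have := hp.two_le
        nlinarith
      have hN : (D * m' ^ 2) % 4 = cls κ 0 ∨ (D * m' ^ 2) % 4 = cls κ 1 := by
        rcases Nat.even_or_odd m' with h2 | h2
        · left
          obtain ⟨t, ht⟩ := h2
          have : D * m' ^ 2 = 4 * (D * t ^ 2) := by
            rw [ht]
            ring
          rw [this]
          simp [cls]
        · right
          obtain ⟨t, ht⟩ := h2
          have : D * m' ^ 2 = D + 4 * (D * (t ^ 2 + t)) := by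
            rw [ht]
            ring
          rw [this, Nat.add_mul_mod_self_left]
          exact hD4
      have e1 : Tc κ p c (D * m' ^ 2) = 0 :=
        ih m' hlt hm'0 (Tc κ p c) (T κ p g) (isP_T κ p hκ1 hp c g H)
      have e2 : c (D * m' ^ 2) = 0 := ih m' hlt hm'0 c g H
      have e3 : (if p ^ 2 ∣ D * m' ^ 2 then c (D * m' ^ 2 / p ^ 2) else 0) = 0 := by
        split_ifs with h2
        · obtain ⟨n, hn⟩ := cegd_dvd hp hs h2
          have hn0 : 1 ≤ n := by
            rcases Nat.eq_zero_or_pos n with h3 | h3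
            · rw [h3, mul_zero] at hn
              omega
            · exact h3
          have h4 : D * m' ^ 2 / p ^ 2 = D * n ^ 2 := by
            have h5 : D * m' ^ 2 = D * n ^ 2 * p ^ 2 := by
              rw [hn]
              ring
            rw [h5, Nat.mul_div_cancel _ (pow_pos hp.pos 2)]
          rw [h4]
          refine ih n ?_ hn0 c g H
          refine lt_of_le_of_lt ?_ hlt
          rw [hn]
          exact Nat.le_mul_of_pos_left n hp.pos
        · rfl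
      unfold Tc at e1
      rw [if_pos hN, e2, e3, mul_zero, mul_zero, add_zero, add_zero] at e1
      have h6 : D * m ^ 2 = p ^ 2 * (D * m' ^ 2) := by
        rw [hm']
        ring
      rw [h6]
      exact e1

theorem aCoeff_zero_of (D κ k e : ℕ) (hD : Odd D) (hs : Squarefree D) (hD4 : D % 4 = cls κ 1)
    (hκ : κ = k + e) (hk : 3 ≤ k) (he : Even e) (he2 : 2 ≤ e)
    (hpar : jacobiSym (-1) D = (-1) ^ k)
    (h : ∀ (c : ℕ → ℂ) (g : VF), IsP κ c g → c D = 0) : ∀ n, 1 ≤ n → aCoeff D k e n = 0 := by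
  intro n hn
  subst hκ
  rw [aCoeff_eq_Sh_sq D k e n hD hs hk he he2 hpar hn]
  have hL := (const_B_sq D k hD hs hk hpar).1
  have hz := cegd_zero D (k + e) hs hD4 (by omega) h
  have hS : Sh D (k + e) (cgG D k e) n = 0 := by
    unfold Sh
    refine Finset.sum_eq_zero fun d hd ↦ ?_
    have hd' := Nat.dvd_of_mem_divisors hd
    have h1 : 1 ≤ n / d := Nat.div_pos (Nat.le_of_dvd (by omega) hd')
      (Nat.pos_of_dvd_of_pos hd' (by omega))
    have h2 := hz (n / d) h1 _ _ (isP_gD_sq D (k + e) k e hD hs hD4 rfl hk he he2 hpar)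
    have h3 : cgG D k e (D * (n / d) ^ 2) = 0 :=
      (mul_eq_zero.1 h2).resolve_left (div_ne_zero two_ne_zero hL)
    rw [h3, mul_zero]
  rw [hS, mul_zero]

end MP836e4b.P
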