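/-
MODULE IntL (size S), board mod836, MP_836e4b_nt, folder Work/MP_836e4b_nt/P. Keep the statements verbatim, helper lemmas private.
If l^n a is an integer for all n ≥ 0 and a ≠ 0 is an integer then l is an integer: l = (la)/a is rational = u/v in
lowest terms; v^n divides a for all n, so v = ±1.
-/
import Mathlib
import Pool.Agent.Work.MP_836e4b_nt.P.Defs

open UpperHalfPlane Complex
open scoped MatrixGroups ComplexConjugate Matrix

namespace MP836e4b.P

theorem int_of_pow (l : ℂ) (a : ℤ) (ha : a ≠ 0) (h : ∀ n : ℕ, ∃ b : ℤ, l ^ n * (a : ℂ) = (b : ℂ)) :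
    ∃ m : ℤ, l = (m : ℂ) := by
  obtain ⟨b, hb⟩ := h 1
  have haC : (a : ℂ) ≠ 0 := by exact_mod_cast ha
  obtain ⟨q, hq⟩ : ∃ q : ℚ, q = (b : ℚ) / (a : ℚ) := ⟨_, rfl⟩
  have hl : l = (q : ℂ) := by
    rw [hq]
    push_cast
    rw [eq_div_iff haC, ← hb, pow_one]
  have hdiv : ∀ n : ℕ, (q.den : ℤ) ^ n ∣ a := by
    intro n
    obtain ⟨c, hc⟩ := h n
    have h1 : q ^ n * (a : ℚ) = (c : ℚ) := by
      rw [hl] at hc
      exact_mod_cast hc
    have hd : (q.den : ℚ) ≠ 0 := by exact_mod_cast q.den_nz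
    have h0 : q * (q.den : ℚ) = (q.num : ℚ) := Rat.mul_den_eq_num q
    have h2 : (q.num : ℚ) ^ n * a = c * (q.den : ℚ) ^ n := by
      rw [← h1, ← h0, mul_pow]
      ring
    have h3 : q.num ^ n * a = c * (q.den : ℤ) ^ n := by exact_mod_cast h2
    have h4 : IsCoprime ((q.den : ℤ) ^ n) (q.num ^ n) := by
      have h5 : IsCoprime (q.num) (q.den : ℤ) := by
        rw [Int.isCoprime_iff_gcd_eq_one, Int.gcd]
        simpa using q.reduced
      exact h5.symm.pow
    exact h4.dvd_of_dvd_mul_left ⟨c, by rw [h3]; ring⟩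
  have hden : q.den = 1 := by
    by_contra hne
    have h2 : 2 ≤ q.den := by
      have := q.den_pos
      omega
    have h3 := Int.natAbs_dvd_natAbs.2 (hdiv a.natAbs)
    rw [Int.natAbs_pow, Int.natAbs_natCast] at h3
    have h4 := Nat.le_of_dvd (Int.natAbs_pos.2 ha) h3
    have h5 : a.natAbs < 2 ^ a.natAbs := Nat.lt_two_pow_self
    have h6 : 2 ^ a.natAbs ≤ q.den ^ a.natAbs := Nat.pow_le_pow_left h2 _
    omega
  refine ⟨q.num, ?_⟩
  rw [hl]
  have h0 : q * (q.den : ℚ) = (q.num : ℚ) := Rat.mul_den_eq_num q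
  rw [hden] at h0
  have h1 : q = (q.num : ℚ) := by simpa using h0
  conv_lhs => rw [h1]
  push_cast
  rfl

end MP836e4b.P
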