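/-
MODULE Tf2 (size M), board mod836, MP_836e4b_nt, folder Work/MP_836e4b_nt/P. Keep the statements verbatim, helper lemmas private.
Invariance of the test forms, κ = b + 4a + 6a' + 12j, b in {0,2,3,5}. Put x = th 0 τ 0, y = th 1 τ 0.
T: y -> e(1/4) y = iy (th_T), x fixed: e4p, e6p, dlp are fixed (powers y⁴, y⁸, y¹²; (iy)^4 = y^4), bas b has component 1
multiplied by i (b = 0, 2: y, y⁵, ..) or i³ = -i (b = 3, 5: y⁷, y³, y¹¹); E κ 1 T = diag(1,-i) resp. diag(1,i).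
S: (x,y)(-1/τ) = w (x+y, x-y)/√2·√2... precisely x' = w (x+y), y' = w (x-y), w = (τ/2i)^(1/2), w² = τ/(2i) (th_S at z = 0).
Polynomial identities (ring): e4p(x+y,x-y) = 16 e4p(x,y), e6p(x+y,x-y) = -64 e6p(x,y), dlp(x+y,x-y) = 4096 dlp(x,y) ((x+y)(x-y)
((x+y)⁴-(x-y)⁴) = 8xy(x²-y²)(x²+y²)), bas b (x+y,x-y) = 2^b' (component sums): b=0: (x+y, x-y); b = 2: -4·(sum, difference);
b = 3: 8·(sum,difference); b = 5: -32·(sum,difference) where sum = bas_0+bas_1, difference = bas_0-bas_1 (check signs by ring).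
Weights: w^8·16 = τ⁴, w^12·(-64) = τ⁶, w^24·4096 = τ^12. Then sl κ 1 S h = τ^{-κ} E_S h(-1/τ), E_S = Mᵀ/τ or Mᴴ/|τ|,
M_S = w (1,1;1,-1). Conclude with inv_of_gen. (All four laws were checked numerically.)
-/
import Mathlib
import Pool.Agent.Work.MP_836e4b_nt.P.Defs
import Pool.Agent.Work.MP_836e4b_nt.P.SlG
import Pool.Agent.Work.MP_836e4b_nt.P.MA1

open UpperHalfPlane Complex
open scoped MatrixGroups ComplexConjugate Matrix

namespace MP836e4b.P

private def Cb (b : ℕ) : ℂ := if b = 0 then 1 else if b = 2 then -4 else if b = 3 then 8 else -32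

private theorem bas_S0 (b : ℕ) (hb : b = 0 ∨ b = 2 ∨ b = 3 ∨ b = 5) (w x y : ℂ) :
    bas b (w * (x + y)) (w * (x - y)) 0 =
      Cb b * w ^ (2 * b + 1) * (bas b x y 0 + bas b x y 1) := by
  rcases hb with rfl | rfl | rfl | rfl <;> simp [bas, Cb] <;> ring

private theorem bas_S1 (b : ℕ) (hb : b = 0 ∨ b = 2 ∨ b = 3 ∨ b = 5) (w x y : ℂ) :
    bas b (w * (x + y)) (w * (x - y)) 1 =
      Cb b * w ^ (2 * b + 1) * (bas b x y 0 - bas b x y 1) := by
  rcases hb with rfl | rfl | rfl | rfl <;> simp [bas, Cb] <;> ring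

private theorem e4p_S (w x y : ℂ) :
    e4p (w * (x + y)) (w * (x - y)) = (2 * Complex.I * w ^ 2) ^ 4 * e4p x y := by
  have h4 : Complex.I ^ 4 = 1 := Complex.I_pow_four
  have h : (2 * Complex.I * w ^ 2) ^ 4 = 16 * w ^ 8 := by
    rw [mul_pow, mul_pow, h4]
    ring
  rw [h]
  unfold e4p
  ring

private theorem e6p_S (w x y : ℂ) :
    e6p (w * (x + y)) (w * (x - y)) = (2 * Complex.I * w ^ 2) ^ 6 * e6p x y := by
  have h2 : Complex.I ^ 2 = -1 := Complex.I_sq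
  have h : (2 * Complex.I * w ^ 2) ^ 6 = -64 * w ^ 12 := by
    have : (2 * Complex.I * w ^ 2) ^ 6 = 64 * (Complex.I ^ 2) ^ 3 * w ^ 12 := by ring
    rw [this, h2]
    ring
  rw [h]
  unfold e6p
  ring

private theorem dlp_S (w x y : ℂ) :
    dlp (w * (x + y)) (w * (x - y)) = (2 * Complex.I * w ^ 2) ^ 12 * dlp x y := by
  have h4 : Complex.I ^ 4 = 1 := Complex.I_pow_four
  have h : (2 * Complex.I * w ^ 2) ^ 12 = 4096 * w ^ 24 := by
    have : (2 * Complex.I * w ^ 2) ^ 12 = 4096 * (Complex.I ^ 4) ^ 3 * w ^ 24 := by ring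
    rw [this, h4]
    ring
  rw [h]
  unfold dlp
  ring

private theorem par (b a a' j : ℕ) : Even (b + 4 * a + 6 * a' + 12 * j) ↔ Even b := by
  have h1 : Even (4 * a) := ⟨2 * a, by ring⟩
  have h2 : Even (6 * a') := ⟨3 * a', by ring⟩
  have h3 : Even (12 * j) := ⟨6 * j, by ring⟩
  rw [Nat.even_add, Nat.even_add, Nat.even_add]
  tauto

private theorem key_S (b : ℕ) (hb : b = 0 ∨ b = 2 ∨ b = 3 ∨ b = 5) (gw : ℂ)
    (hg : gw = if Even b then 1 / 2 else 1 / (2 * Complex.I)) :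
    gw * Cb b * 2 = (2 * Complex.I) ^ b := by
  have hI : Complex.I ≠ 0 := Complex.I_ne_zero
  have h2 : Complex.I ^ 2 = -1 := Complex.I_sq
  have e3 : ¬ Even 3 := by decide
  have e5 : ¬ Even 5 := by decide
  have e2 : Even 2 := by decide
  have e0 : Even 0 := by decide
  rw [hg]
  rcases hb with rfl | rfl | rfl | rfl
  · rw [if_pos e0]
    simp [Cb]
  · rw [if_pos e2]
    simp only [Cb]
    norm_num
    rw [mul_pow, h2]
    norm_num
  · rw [if_neg e3]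
    simp only [Cb]
    norm_num
    have h3 : (2 * Complex.I) ^ 3 = 8 * Complex.I * Complex.I ^ 2 := by ring
    rw [h3, h2]
    field_simp
  · rw [if_neg e5]
    simp only [Cb]
    norm_num
    have h3 : (2 * Complex.I) ^ 5 = 32 * Complex.I * (Complex.I ^ 2) ^ 2 := by ring
    rw [h3, h2]
    field_simp

private theorem th_S_zero (τ : ℍ) (w : ℂ) (hw : w = ((τ : ℂ) / (2 * Complex.I)) ^ (1 / 2 : ℂ)) :
    th 0 (mob mS τ) 0 = w * (th 0 τ 0 + th 1 τ 0) ∧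
      th 1 (mob mS τ) 0 = w * (th 0 τ 0 - th 1 τ 0) := by
  have h0 := th_S 0 τ 0
  have h1 := th_S 1 τ 0
  rw [← hw] at h0 h1
  simp only [Fin.sum_univ_two] at h0 h1
  constructor
  · simpa [ee_zero] using h0
  · simpa [ee_zero, sub_eq_add_neg] using h1

private theorem E_S_ex (κ : ℕ) (τ : ℍ) (w : ℂ)
    (hw : w = ((τ : ℂ) / (2 * Complex.I)) ^ (1 / 2 : ℂ)) (hw2 : (τ : ℂ) = 2 * Complex.I * w ^ 2) :
    ∃ g : ℂ, E κ 1 mS τ = g • !![1, 1; 1, -1] ∧
      g * w = if Even κ then 1 / 2 else 1 / (2 * Complex.I) := by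
  have hτ : (τ : ℂ) ≠ 0 := τ.ne_zero
  have hj : jf mS τ = (τ : ℂ) := by simp [jf, mS]
  have hw0 : w ≠ 0 := by
    rintro rfl
    apply hτ
    rw [hw2]
    ring
  by_cases hκ : Even κ
  · refine ⟨((‖(τ : ℂ)‖ : ℝ) : ℂ)⁻¹ * conj w, ?_, ?_⟩
    · unfold E
      rw [if_pos hκ, hj, M_S, ← hw, Matrix.conjTranspose_smul, smul_smul]
      congr 1
      ext i j
      fin_cases i <;> fin_cases j <;> simp [Matrix.conjTranspose_apply]
    · rw [if_pos hκ, mul_assoc, Complex.conj_mul']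
      have hn : ‖(τ : ℂ)‖ = 2 * ‖w‖ ^ 2 := by
        rw [hw2]
        simp
      have hn0 : ‖w‖ ≠ 0 := norm_ne_zero_iff.2 hw0
      rw [hn]
      push_cast
      have hn1 : ((‖w‖ : ℝ) : ℂ) ≠ 0 := by exact_mod_cast hn0
      field_simp
  · refine ⟨(τ : ℂ)⁻¹ * w, ?_, ?_⟩
    · unfold E
      rw [if_neg hκ, hj, M_S, ← hw, Matrix.transpose_smul, smul_smul]
      congr 1
      ext i j
      fin_cases i <;> fin_cases j <;> simp [Matrix.transpose_apply]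
    · rw [if_neg hκ, hw2]
      have hI : Complex.I ≠ 0 := Complex.I_ne_zero
      field_simp

private theorem tf_S (b a a' j : ℕ) (hb : b = 0 ∨ b = 2 ∨ b = 3 ∨ b = 5) :
    sl (b + 4 * a + 6 * a' + 12 * j) 1 mS (tf b a a' j) = tf b a a' j := by
  funext τ
  have hτ : (τ : ℂ) ≠ 0 := τ.ne_zero
  obtain ⟨w, hw⟩ : ∃ w : ℂ, w = ((τ : ℂ) / (2 * Complex.I)) ^ (1 / 2 : ℂ) := ⟨_, rfl⟩
  have hw2 : (τ : ℂ) = 2 * Complex.I * w ^ 2 := by
    have h1 : w ^ 2 = (τ : ℂ) / (2 * Complex.I) := by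
      rw [hw, ← Complex.cpow_nat_mul]
      norm_num
    rw [h1]
    have hI : Complex.I ≠ 0 := Complex.I_ne_zero
    field_simp
  obtain ⟨g, hE, hg⟩ := E_S_ex (b + 4 * a + 6 * a' + 12 * j) τ w hw hw2
  have hj : jf mS τ = (τ : ℂ) := by simp [jf, mS]
  obtain ⟨h0, h1⟩ := th_S_zero τ w hw
  have hkey := key_S b hb (g * w) (by
    rw [hg]
    simp only [par])
  obtain ⟨x, hx⟩ : ∃ x, x = th 0 τ 0 := ⟨_, rfl⟩
  obtain ⟨y, hy⟩ : ∃ y, y = th 1 τ 0 := ⟨_, rfl⟩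
  rw [← hx, ← hy] at h0 h1
  have hv : ∀ r, tf b a a' j (mob mS τ) r = bas b (w * (x + y)) (w * (x - y)) r *
      ((τ : ℂ) ^ (4 * a + 6 * a' + 12 * j) * (e4p x y ^ a * e6p x y ^ a' * dlp x y ^ j)) := by
    intro r
    simp only [tf]
    rw [h0, h1, e4p_S, e6p_S, dlp_S, ← hw2, mul_pow, mul_pow, mul_pow, ← pow_mul, ← pow_mul,
      ← pow_mul, pow_add, pow_add]
    ring
  have hτb : (τ : ℂ) ^ b = g * w * Cb b * 2 * w ^ (2 * b) := by
    rw [hkey, pow_mul, ← mul_pow, ← hw2]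
  have hfin : ∀ r, tf b a a' j τ r = bas b x y r *
      (e4p x y ^ a * e6p x y ^ a' * dlp x y ^ j) := by
    intro r
    simp only [tf]
    rw [hx, hy]
    ring
  have hexp : (τ : ℂ) ^ (b + 4 * a + 6 * a' + 12 * j) =
      (τ : ℂ) ^ b * (τ : ℂ) ^ (4 * a + 6 * a' + 12 * j) := by
    rw [← pow_add]
    congr 1
    ring
  have hτb0 : (τ : ℂ) ^ b ≠ 0 := pow_ne_zero _ hτ
  have hτK0 : (τ : ℂ) ^ (4 * a + 6 * a' + 12 * j) ≠ 0 := pow_ne_zero _ hτ
  obtain ⟨K, hK⟩ : ∃ K, K = (τ : ℂ) ^ (4 * a + 6 * a' + 12 * j) := ⟨_, rfl⟩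
  obtain ⟨Q, hQ⟩ : ∃ Q, Q = e4p x y ^ a * e6p x y ^ a' * dlp x y ^ j := ⟨_, rfl⟩
  rw [← hK] at hexp hτK0
  rw [← hQ] at hfin
  simp only [← hK, ← hQ] at hv
  funext r
  unfold sl
  rw [hj, hE, hexp, hfin]
  fin_cases r
  · simp only [Fin.zero_eta, Fin.isValue, Pi.smul_apply, smul_eq_mul, Matrix.smul_mulVec,
      Matrix.mulVec, dotProduct, Fin.sum_univ_two, hv, bas_S0 b hb, bas_S1 b hb]
    simp only [Matrix.cons_val_zero, Matrix.cons_val_one, Matrix.of_apply, Matrix.cons_val',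
      Matrix.cons_val_fin_one]
    rw [inv_mul_eq_iff_eq_mul₀ (mul_ne_zero hτb0 hτK0), hτb]
    ring
  · simp only [Fin.mk_one, Fin.isValue, Pi.smul_apply, smul_eq_mul, Matrix.smul_mulVec,
      Matrix.mulVec, dotProduct, Fin.sum_univ_two, hv, bas_S0 b hb, bas_S1 b hb]
    simp only [Matrix.cons_val_zero, Matrix.cons_val_one, Matrix.of_apply, Matrix.cons_val',
      Matrix.cons_val_fin_one]
    rw [inv_mul_eq_iff_eq_mul₀ (mul_ne_zero hτb0 hτK0), hτb]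
    ring

private theorem bas_T0 (b : ℕ) (hb : b = 0 ∨ b = 2 ∨ b = 3 ∨ b = 5) (z x y : ℂ) (h4 : z ^ 4 = 1) :
    bas b x (z * y) 0 = bas b x y 0 := by
  have h8 : z ^ 8 = 1 := by
    have : z ^ 8 = (z ^ 4) ^ 2 := by ring
    rw [this, h4, one_pow]
  rcases hb with rfl | rfl | rfl | rfl <;> simp [bas, mul_pow, h4, h8]

private theorem bas_T1 (b : ℕ) (hb : b = 0 ∨ b = 2 ∨ b = 3 ∨ b = 5) (z x y : ℂ) (h4 : z ^ 4 = 1) :
    bas b x (z * y) 1 = z ^ (if Even b then 1 else 3) * bas b x y 1 := by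
  have h5 : z ^ 5 = z := by
    have : z ^ 5 = z ^ 4 * z := by ring
    rw [this, h4, one_mul]
  have h7 : z ^ 7 = z ^ 3 := by
    have : z ^ 7 = z ^ 4 * z ^ 3 := by ring
    rw [this, h4, one_mul]
  have h11 : z ^ 11 = z ^ 3 := by
    have : z ^ 11 = (z ^ 4) ^ 2 * z ^ 3 := by ring
    rw [this, h4, one_pow, one_mul]
  have e3 : ¬ Even 3 := by decide
  have e5 : ¬ Even 5 := by decide
  have e2 : Even 2 := by decide
  have e0 : Even 0 := by decide
  rcases hb with rfl | rfl | rfl | rfl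
  · rw [if_pos e0]
    simp [bas]
  · rw [if_pos e2]
    simp [bas, mul_pow, h5]
    ring
  · rw [if_neg e3]
    simp [bas, mul_pow, h7]
    ring
  · rw [if_neg e5]
    simp [bas, mul_pow, h7, h11]
    ring

private theorem e4p_T (z x y : ℂ) (h4 : z ^ 4 = 1) : e4p x (z * y) = e4p x y := by
  have h8 : z ^ 8 = 1 := by
    have : z ^ 8 = (z ^ 4) ^ 2 := by ring
    rw [this, h4, one_pow]
  simp only [e4p, mul_pow, h4, h8, one_mul]

private theorem e6p_T (z x y : ℂ) (h4 : z ^ 4 = 1) : e6p x (z * y) = e6p x y := by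
  have h8 : z ^ 8 = 1 := by
    have : z ^ 8 = (z ^ 4) ^ 2 := by ring
    rw [this, h4, one_pow]
  have h12 : z ^ 12 = 1 := by
    have : z ^ 12 = (z ^ 4) ^ 3 := by ring
    rw [this, h4, one_pow]
  simp only [e6p, mul_pow, h4, h8, h12, one_mul]

private theorem dlp_T (z x y : ℂ) (h4 : z ^ 4 = 1) : dlp x (z * y) = dlp x y := by
  simp only [dlp, mul_pow, div_pow, h4, one_mul]

private theorem tf_T (b a a' j : ℕ) (hb : b = 0 ∨ b = 2 ∨ b = 3 ∨ b = 5) :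
    sl (b + 4 * a + 6 * a' + 12 * j) 1 (mT 1) (tf b a a' j) = tf b a a' j := by
  funext τ
  have hj : jf (mT 1) τ = 1 := by simp [jf, mT]
  obtain ⟨z, hz⟩ : ∃ z, z = ee ((1 : ℂ) / 4) := ⟨_, rfl⟩
  have h4 : z ^ 4 = 1 := by
    have h : z ^ 4 = z * z * z * z := by ring
    rw [h, hz, ← ee_add, ← ee_add, ← ee_add]
    have : (1 : ℂ) / 4 + 1 / 4 + 1 / 4 + 1 / 4 = ((1 : ℤ) : ℂ) := by norm_num
    rw [this, ee_intCast]
  have h0 : th 0 (mob (mT 1) τ) 0 = th 0 τ 0 := by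
    rw [th_T]
    simp [ee_zero]
  have h1 : th 1 (mob (mT 1) τ) 0 = z * th 1 τ 0 := by
    rw [th_T, hz]
    simp
  have hM : M 1 (mT 1) τ = !![1, 0; 0, z] := by
    have := M_T 1 τ
    rw [hz]
    simpa using this
  obtain ⟨x, hx⟩ : ∃ x, x = th 0 τ 0 := ⟨_, rfl⟩
  obtain ⟨y, hy⟩ : ∃ y, y = th 1 τ 0 := ⟨_, rfl⟩
  rw [← hx] at h0
  rw [← hy] at h1
  have hv : ∀ r, tf b a a' j (mob (mT 1) τ) r = bas b x (z * y) r *
      (e4p x y ^ a * e6p x y ^ a' * dlp x y ^ j) := by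
    intro r
    simp only [tf]
    rw [h0, h1, e4p_T _ _ _ h4, e6p_T _ _ _ h4, dlp_T _ _ _ h4]
    ring
  have hfin : ∀ r, tf b a a' j τ r = bas b x y r *
      (e4p x y ^ a * e6p x y ^ a' * dlp x y ^ j) := by
    intro r
    simp only [tf]
    rw [hx, hy]
    ring
  obtain ⟨Q, hQ⟩ : ∃ Q, Q = e4p x y ^ a * e6p x y ^ a' * dlp x y ^ j := ⟨_, rfl⟩
  rw [← hQ] at hfin
  simp only [← hQ] at hv
  have hE : ∃ g : ℂ, E (b + 4 * a + 6 * a' + 12 * j) 1 (mT 1) τ = !![1, 0; 0, g] ∧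
      g * z ^ (if Even b then 1 else 3) = 1 := by
    by_cases hb' : Even b
    · refine ⟨conj z, ?_, ?_⟩
      · unfold E
        rw [if_pos ((par b a a' j).2 hb'), hj, hM]
        ext i k
        fin_cases i <;> fin_cases k <;> simp [Matrix.conjTranspose_apply]
      · rw [if_pos hb', pow_one, hz, conj_ee, ← ee_add]
        have : -conj ((1 : ℂ) / 4) + 1 / 4 = 0 := by simp [Complex.ext_iff]
        rw [this, ee_zero]
    · refine ⟨z, ?_, ?_⟩
      · unfold E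
        rw [if_neg (fun h => hb' ((par b a a' j).1 h)), hj, hM]
        ext i k
        fin_cases i <;> fin_cases k <;> simp [Matrix.transpose_apply]
      · rw [if_neg hb', ← h4]
        ring
  obtain ⟨g, hE, hg⟩ := hE
  funext r
  unfold sl
  rw [hj, hE, hfin]
  fin_cases r
  · simp only [Fin.zero_eta, Fin.isValue, Pi.smul_apply, smul_eq_mul,
      Matrix.mulVec, dotProduct, Fin.sum_univ_two, hv, bas_T0 b hb _ _ _ h4, bas_T1 b hb _ _ _ h4]
    simp only [Matrix.cons_val_zero, Matrix.cons_val_one, Matrix.of_apply, Matrix.cons_val',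
      Matrix.cons_val_fin_one]
    rw [one_pow]
    ring
  · simp only [Fin.mk_one, Fin.isValue, Pi.smul_apply, smul_eq_mul,
      Matrix.mulVec, dotProduct, Fin.sum_univ_two, hv, bas_T0 b hb _ _ _ h4, bas_T1 b hb _ _ _ h4]
    simp only [Matrix.cons_val_zero, Matrix.cons_val_one, Matrix.of_apply, Matrix.cons_val',
      Matrix.cons_val_fin_one]
    rw [one_pow]
    linear_combination bas b x y 1 * Q * hg

theorem tf_inv (b a a' j : ℕ) (hb : b = 0 ∨ b = 2 ∨ b = 3 ∨ b = 5) (γ : SL(2, ℤ)) :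
    sl (b + 4 * a + 6 * a' + 12 * j) 1 (γ : Mat) (tf b a a' j) = tf b a a' j := by
  exact inv_of_gen _ _ (tf_S b a a' j hb) (tf_T b a a' j hb) γ

end MP836e4b.P
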