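/-
MODULE Tf4 (size M-L), board mod836, MP_836e4b_nt, folder Work/MP_836e4b_nt/P. Keep the statements verbatim, helper lemmas private.
The test forms have integer coefficients. x = ev PX, y = 2 ev PB: bas, e4p, e6p are integer polynomials in x, y and
dlp = x⁴(x⁴-y⁴)⁴(y/2)⁴ = PX⁴(PX⁴-16PB⁴)⁴PB⁴. So both components of tf are Ev of integer power series Q_0, Q_1.
Exponents: PX is a series in t⁴, PB = t·(series in t⁸); Q_0 is a series in t⁴ (x, y⁴, y⁸), Q_1 has exponents = 1 mod 4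
(κ even: y, y⁵) or 3 mod 4 (κ odd: y³, y⁷, y¹¹). Define c(n) = coeff n Q_0 for 4 ∣ n, coeff n Q_1 for n % 4 = cls κ 1, else 0.
HasE: c(0) = 0 as j ≥ 1 (PB^(4j) has no constant term). Parity: mod 2, PX = 1, y = 0 (2PB), bas_0 = 1, bas_1 = 0,
e4p = e6p = 1, dlp = PB⁴, so Q_0 = PB^(4j), Q_1 = 0 mod 2; coeff_PB. κ % 2 = b % 2.
-/
import Mathlib
import Pool.Agent.Work.MP_836e4b_nt.P.Defs
import Pool.Agent.Work.MP_836e4b_nt.P.Tf2
import Pool.Agent.Work.MP_836e4b_nt.P.Tf3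

open UpperHalfPlane Complex
open scoped MatrixGroups ComplexConjugate Matrix

namespace MP836e4b.P

private def Gr (r : ℕ) (P : PowerSeries ℤ) : Prop :=
  ∀ n, PowerSeries.coeff n P ≠ 0 → n % 4 = r % 4

private theorem gr_add {r : ℕ} {P Q : PowerSeries ℤ} (hP : Gr r P) (hQ : Gr r Q) :
    Gr r (P + Q) := by
  intro n hn
  rw [map_add] at hn
  by_cases h : PowerSeries.coeff n P = 0
  · rw [h, zero_add] at hn
    exact hQ n hn
  · exact hP n h

private theorem gr_mul {r s : ℕ} {P Q : PowerSeries ℤ} (hP : Gr r P) (hQ : Gr s Q) :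
    Gr (r + s) (P * Q) := by
  intro n hn
  rw [PowerSeries.coeff_mul] at hn
  obtain ⟨p, hp, hp2⟩ := Finset.exists_ne_zero_of_sum_ne_zero hn
  rw [Finset.HasAntidiagonal.mem_antidiagonal] at hp
  have h1 := hP p.1 (left_ne_zero_of_mul hp2)
  have h2 := hQ p.2 (right_ne_zero_of_mul hp2)
  omega

private theorem gr_C (a : ℤ) : Gr 0 (PowerSeries.C a) := by
  intro n hn
  rw [PowerSeries.coeff_C] at hn
  by_cases h : n = 0
  · rw [h]
  · rw [if_neg h] at hn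
    exact absurd rfl hn

private theorem gr_pow {r : ℕ} {P : PowerSeries ℤ} (hP : Gr r P) (k : ℕ) : Gr (k * r) (P ^ k) := by
  induction k with
  | zero =>
    rw [pow_zero, zero_mul, ← map_one PowerSeries.C]
    exact gr_C 1
  | succ k ih =>
    rw [pow_succ, Nat.succ_mul]
    exact gr_mul ih hP

private theorem gr_congr {r s : ℕ} {P : PowerSeries ℤ} (hP : Gr r P) (h : r % 4 = s % 4) :
    Gr s P := fun n hn => (hP n hn).trans h

private theorem gr_X : Gr 0 PX := by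
  intro n hn
  unfold PX at hn
  rw [PowerSeries.coeff_mk] at hn
  by_cases h : n = 0
  · rw [h]
  · rw [if_neg h] at hn
    by_cases h2 : ∃ m ≤ n, 4 * m ^ 2 = n
    · obtain ⟨m, -, hm⟩ := h2
      omega
    · rw [if_neg h2] at hn
      exact absurd rfl hn

private theorem gr_B : Gr 1 PB := by
  intro n hn
  unfold PB at hn
  rw [PowerSeries.coeff_mk] at hn
  by_cases h2 : ∃ m ≤ n, (2 * m + 1) ^ 2 = n
  · obtain ⟨m, -, hm⟩ := h2
    have h3 : (2 * m + 1) ^ 2 = 4 * (m ^ 2 + m) + 1 := by ring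
    omega
  · rw [if_neg h2] at hn
    exact absurd rfl hn

private noncomputable def ph2 : PowerSeries ℤ →+* PowerSeries (ZMod 2) :=
  PowerSeries.map (Int.castRingHom (ZMod 2))

private theorem ph2_X : ph2 PX = 1 := by
  ext n
  unfold ph2
  rw [PowerSeries.coeff_map, PowerSeries.coeff_one]
  unfold PX
  rw [PowerSeries.coeff_mk]
  by_cases h : n = 0
  · rw [if_pos h, if_pos h]
    simp
  · rw [if_neg h, if_neg h]
    split_ifs
    · simp only [eq_intCast]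
      decide
    · simp

private noncomputable def PY : PowerSeries ℤ := PowerSeries.C 2 * PB

private theorem ph2_C (a : ℤ) : ph2 (PowerSeries.C a) = PowerSeries.C (a : ZMod 2) := by
  unfold ph2
  rw [PowerSeries.map_C]
  rfl

private theorem ph2_Y : ph2 PY = 0 := by
  unfold PY
  have h : ((2 : ℤ) : ZMod 2) = 0 := by decide
  rw [map_mul, ph2_C, h, map_zero, zero_mul]

private theorem gr_Y : Gr 1 PY := gr_congr (gr_mul (gr_C 2) gr_B) rfl

private theorem ev_congr {P : PowerSeries ℤ} {f g : ℍ → ℂ} (hP : Ev P f) (h : ∀ τ, f τ = g τ) :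
    Ev P g := fun τ => by
  rw [← h]
  exact hP τ

private theorem ev_Y : Ev PY (fun τ ↦ th 1 τ 0) :=
  ev_congr (ev_mul (ev_C 2) ev_B) fun τ => by
    push_cast
    ring

/-- the series of `bas`, `e4p`, `e6p`, `dlp` -/
private theorem bas_ser (b : ℕ) (hb : b = 0 ∨ b = 2 ∨ b = 3 ∨ b = 5) :
    ∃ P0 P1 : PowerSeries ℤ, Ev P0 (fun τ ↦ bas b (th 0 τ 0) (th 1 τ 0) 0) ∧
      Ev P1 (fun τ ↦ bas b (th 0 τ 0) (th 1 τ 0) 1) ∧ Gr 0 P0 ∧
      Gr (if Even b then 1 else 3) P1 ∧ ph2 P0 = 1 ∧ ph2 P1 = 0 := by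
  rcases hb with rfl | rfl | rfl | rfl
  · refine ⟨PX, PY, ev_congr ev_X fun τ => ?_, ev_congr ev_Y fun τ => ?_, gr_X, ?_, ph2_X, ph2_Y⟩
    · simp [bas]
    · simp [bas]
    · rw [if_pos (by decide)]
      exact gr_Y
  · refine ⟨PX ^ 5 + PowerSeries.C (-5) * (PX * PY ^ 4), PY ^ 5 + PowerSeries.C (-5) * (PX ^ 4 * PY),
      ev_congr (ev_add (ev_pow ev_X 5) (ev_mul (ev_C (-5)) (ev_mul ev_X (ev_pow ev_Y 4))))
        fun τ => ?_,
      ev_congr (ev_add (ev_pow ev_Y 5) (ev_mul (ev_C (-5)) (ev_mul (ev_pow ev_X 4) ev_Y)))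
        fun τ => ?_,
      gr_add (gr_congr (gr_pow gr_X 5) rfl)
        (gr_congr (gr_mul (gr_C _) (gr_mul gr_X (gr_pow gr_Y 4))) rfl), ?_, ?_, ?_⟩
    · simp [bas]
      ring
    · simp [bas]
      ring
    · rw [if_pos (by decide)]
      exact gr_add (gr_congr (gr_pow gr_Y 5) rfl)
        (gr_congr (gr_mul (gr_C _) (gr_mul (gr_pow gr_X 4) gr_Y)) rfl)
    · simp only [map_add, map_mul, map_pow, ph2_X, ph2_Y]
      ring
    · simp only [map_add, map_mul, map_pow, ph2_X, ph2_Y]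
      ring
  · refine ⟨PX ^ 7 + PowerSeries.C 7 * (PX ^ 3 * PY ^ 4), PY ^ 7 + PowerSeries.C 7 * (PX ^ 4 * PY ^ 3),
      ev_congr (ev_add (ev_pow ev_X 7) (ev_mul (ev_C 7) (ev_mul (ev_pow ev_X 3) (ev_pow ev_Y 4))))
        fun τ => ?_,
      ev_congr (ev_add (ev_pow ev_Y 7) (ev_mul (ev_C 7) (ev_mul (ev_pow ev_X 4) (ev_pow ev_Y 3))))
        fun τ => ?_,
      gr_add (gr_congr (gr_pow gr_X 7) rfl)
        (gr_congr (gr_mul (gr_C _) (gr_mul (gr_pow gr_X 3) (gr_pow gr_Y 4))) rfl), ?_, ?_, ?_⟩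
    · simp [bas]
      ring
    · simp [bas]
      ring
    · rw [if_neg (by decide)]
      exact gr_add (gr_congr (gr_pow gr_Y 7) rfl)
        (gr_congr (gr_mul (gr_C _) (gr_mul (gr_pow gr_X 4) (gr_pow gr_Y 3))) rfl)
    · simp only [map_add, map_mul, map_pow, ph2_X, ph2_Y]
      ring
    · simp only [map_add, map_mul, map_pow, ph2_X, ph2_Y]
      ring
  · refine ⟨PX ^ 11 + PowerSeries.C (-22) * (PX ^ 7 * PY ^ 4) + PowerSeries.C (-11) * (PX ^ 3 * PY ^ 8),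
      PY ^ 11 + PowerSeries.C (-22) * (PX ^ 4 * PY ^ 7) + PowerSeries.C (-11) * (PX ^ 8 * PY ^ 3),
      ev_congr (ev_add (ev_add (ev_pow ev_X 11)
        (ev_mul (ev_C (-22)) (ev_mul (ev_pow ev_X 7) (ev_pow ev_Y 4))))
        (ev_mul (ev_C (-11)) (ev_mul (ev_pow ev_X 3) (ev_pow ev_Y 8)))) fun τ => ?_,
      ev_congr (ev_add (ev_add (ev_pow ev_Y 11)
        (ev_mul (ev_C (-22)) (ev_mul (ev_pow ev_X 4) (ev_pow ev_Y 7))))
        (ev_mul (ev_C (-11)) (ev_mul (ev_pow ev_X 8) (ev_pow ev_Y 3)))) fun τ => ?_,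
      gr_add (gr_add (gr_congr (gr_pow gr_X 11) rfl)
        (gr_congr (gr_mul (gr_C _) (gr_mul (gr_pow gr_X 7) (gr_pow gr_Y 4))) rfl))
        (gr_congr (gr_mul (gr_C _) (gr_mul (gr_pow gr_X 3) (gr_pow gr_Y 8))) rfl), ?_, ?_, ?_⟩
    · simp [bas]
      ring
    · simp [bas]
      ring
    · rw [if_neg (by decide)]
      exact gr_add (gr_add (gr_congr (gr_pow gr_Y 11) rfl)
        (gr_congr (gr_mul (gr_C _) (gr_mul (gr_pow gr_X 4) (gr_pow gr_Y 7))) rfl))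
        (gr_congr (gr_mul (gr_C _) (gr_mul (gr_pow gr_X 8) (gr_pow gr_Y 3))) rfl)
    · simp only [map_add, map_mul, map_pow, ph2_X, ph2_Y]
      ring
    · simp only [map_add, map_mul, map_pow, ph2_X, ph2_Y]
      ring

private theorem e4_ser : ∃ P : PowerSeries ℤ, Ev P (fun τ ↦ e4p (th 0 τ 0) (th 1 τ 0)) ∧ Gr 0 P ∧
    ph2 P = 1 := by
  refine ⟨PX ^ 8 + PowerSeries.C 14 * (PX ^ 4 * PY ^ 4) + PY ^ 8,
    ev_congr (ev_add (ev_add (ev_pow ev_X 8)
      (ev_mul (ev_C 14) (ev_mul (ev_pow ev_X 4) (ev_pow ev_Y 4)))) (ev_pow ev_Y 8)) fun τ => ?_,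
    gr_add (gr_add (gr_congr (gr_pow gr_X 8) rfl)
      (gr_congr (gr_mul (gr_C _) (gr_mul (gr_pow gr_X 4) (gr_pow gr_Y 4))) rfl))
      (gr_congr (gr_pow gr_Y 8) rfl), ?_⟩
  · unfold e4p
    push_cast
    ring
  · simp only [map_add, map_mul, map_pow, ph2_X, ph2_Y]
    ring

private theorem e6_ser : ∃ P : PowerSeries ℤ, Ev P (fun τ ↦ e6p (th 0 τ 0) (th 1 τ 0)) ∧ Gr 0 P ∧
    ph2 P = 1 := by
  refine ⟨PX ^ 12 + PowerSeries.C (-33) * (PX ^ 8 * PY ^ 4) + PowerSeries.C (-33) * (PX ^ 4 * PY ^ 8) +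
      PY ^ 12,
    ev_congr (ev_add (ev_add (ev_add (ev_pow ev_X 12)
      (ev_mul (ev_C (-33)) (ev_mul (ev_pow ev_X 8) (ev_pow ev_Y 4))))
      (ev_mul (ev_C (-33)) (ev_mul (ev_pow ev_X 4) (ev_pow ev_Y 8)))) (ev_pow ev_Y 12)) fun τ => ?_,
    gr_add (gr_add (gr_add (gr_congr (gr_pow gr_X 12) rfl)
      (gr_congr (gr_mul (gr_C _) (gr_mul (gr_pow gr_X 8) (gr_pow gr_Y 4))) rfl))
      (gr_congr (gr_mul (gr_C _) (gr_mul (gr_pow gr_X 4) (gr_pow gr_Y 8))) rfl))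
      (gr_congr (gr_pow gr_Y 12) rfl), ?_⟩
  · unfold e6p
    push_cast
    ring
  · simp only [map_add, map_mul, map_pow, ph2_X, ph2_Y]
    ring

private theorem dl_ser : ∃ P : PowerSeries ℤ, Ev P (fun τ ↦ dlp (th 0 τ 0) (th 1 τ 0)) ∧ Gr 0 P ∧
    ph2 P = ph2 PB ^ 4 ∧ PowerSeries.coeff 0 P = 0 := by
  refine ⟨PX ^ 4 * (PX ^ 4 + PowerSeries.C (-1) * PY ^ 4) ^ 4 * PB ^ 4,
    ev_congr (ev_mul (ev_mul (ev_pow ev_X 4) (ev_pow (ev_add (ev_pow ev_X 4)
      (ev_mul (ev_C (-1)) (ev_pow ev_Y 4))) 4)) (ev_pow ev_B 4)) fun τ => ?_,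
    gr_congr (gr_mul (gr_mul (gr_pow gr_X 4) (gr_pow (gr_add (gr_congr (gr_pow gr_X 4) rfl)
      (gr_congr (gr_mul (gr_C _) (gr_pow gr_Y 4)) rfl) : Gr 0 _) 4)) (gr_pow gr_B 4)) rfl, ?_, ?_⟩
  · unfold dlp
    push_cast
    ring
  · simp only [map_add, map_mul, map_pow, ph2_X, ph2_Y]
    ring
  · have h : PowerSeries.constantCoeff PB = 0 := by
      rw [← PowerSeries.coeff_zero_eq_constantCoeff_apply]
      unfold PB
      rw [PowerSeries.coeff_mk, if_neg]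
      rintro ⟨m, -, hm⟩
      have : 0 < (2 * m + 1) ^ 2 := by positivity
      omega
    rw [PowerSeries.coeff_zero_eq_constantCoeff_apply, map_mul, map_pow PowerSeries.constantCoeff PB,
      h]
    simp

theorem tf_hasE (b a a' j : ℕ) (hb : b = 0 ∨ b = 2 ∨ b = 3 ∨ b = 5) (hj : 1 ≤ j) :
    ∃ c : ℕ → ℤ, IsP (b + 4 * a + 6 * a' + 12 * j) (fun n ↦ (c n : ℂ)) (tf b a a' j) ∧
      (∀ n, n % 4 = cls (b + 4 * a + 6 * a' + 12 * j) 1 → Even (c n)) ∧
      ∀ n, (Odd (c (4 * n)) ↔ Odd (oddReps j n)) := by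
  obtain ⟨P0, P1, hP0, hP1, gP0, gP1, pP0, pP1⟩ := bas_ser b hb
  obtain ⟨P4, hP4, gP4, pP4⟩ := e4_ser
  obtain ⟨P6, hP6, gP6, pP6⟩ := e6_ser
  obtain ⟨PD, hPD, gPD, pPD, zPD⟩ := dl_ser
  obtain ⟨Q0, hQ0⟩ : ∃ Q, Q = P0 * P4 ^ a * P6 ^ a' * PD ^ j := ⟨_, rfl⟩
  obtain ⟨Q1, hQ1⟩ : ∃ Q, Q = P1 * P4 ^ a * P6 ^ a' * PD ^ j := ⟨_, rfl⟩
  have eQ0 : Ev Q0 (fun τ ↦ tf b a a' j τ 0) := by
    rw [hQ0]
    exact ev_mul (ev_mul (ev_mul hP0 (ev_pow hP4 a)) (ev_pow hP6 a')) (ev_pow hPD j)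
  have eQ1 : Ev Q1 (fun τ ↦ tf b a a' j τ 1) := by
    rw [hQ1]
    exact ev_mul (ev_mul (ev_mul hP1 (ev_pow hP4 a)) (ev_pow hP6 a')) (ev_pow hPD j)
  have gQ0 : Gr 0 Q0 := by
    rw [hQ0]
    refine gr_congr (gr_mul (gr_mul (gr_mul gP0 (gr_pow gP4 a)) (gr_pow gP6 a')) (gr_pow gPD j)) ?_
    simp
  obtain ⟨κ, hκ⟩ : ∃ κ, κ = b + 4 * a + 6 * a' + 12 * j := ⟨_, rfl⟩
  have hcls0 : cls κ 0 = 0 := by
    unfold cls
    rw [if_pos rfl]
  have hpar : Even κ ↔ Even b := by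
    rw [hκ]
    constructor
    · intro h
      rw [Nat.even_iff] at h ⊢
      omega
    · intro h
      rw [Nat.even_iff] at h ⊢
      omega
  have hcls1 : cls κ 1 = if Even b then 1 else 3 := by
    unfold cls
    rw [if_neg (by decide)]
    by_cases h : Even b
    · rw [if_pos h, if_pos (hpar.2 h)]
    · rw [if_neg h, if_neg (fun h' => h (hpar.1 h'))]
  have hcls1' : cls κ 1 % 4 = cls κ 1 ∧ cls κ 1 ≠ 0 := by
    rw [hcls1]
    split_ifs <;> decide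
  have gQ1 : Gr (cls κ 1) Q1 := by
    rw [hQ1, hcls1]
    refine gr_congr (gr_mul (gr_mul (gr_mul gP1 (gr_pow gP4 a)) (gr_pow gP6 a')) (gr_pow gPD j)) ?_
    simp
  rw [← hκ]
  refine ⟨fun n => if n % 4 = 0 then PowerSeries.coeff n Q0 else
    if n % 4 = cls κ 1 then PowerSeries.coeff n Q1 else 0, ⟨⟨?_, ?_, ?_⟩, ?_⟩, ?_, ?_⟩
  · dsimp only
    rw [if_pos (by decide)]
    have h : PowerSeries.coeff 0 Q0 = 0 := by
      rw [PowerSeries.coeff_zero_eq_constantCoeff_apply] at zPD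
      rw [hQ0, PowerSeries.coeff_zero_eq_constantCoeff_apply, map_mul,
        map_pow PowerSeries.constantCoeff PD, zPD, zero_pow (by omega), mul_zero]
    rw [h]
    simp
  · intro n h0 h1
    dsimp only
    rw [hcls0] at h0
    rw [if_neg h0, if_neg h1]
    simp
  · intro τ r
    have hr : r = 0 ∨ r = 1 := by
      fin_cases r
      · exact Or.inl rfl
      · exact Or.inr rfl
    rcases hr with rfl | rfl
    · have h := eQ0 τ
      have e : (fun n : ℕ ↦ if n % 4 = cls κ 0 then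
          ((if n % 4 = 0 then PowerSeries.coeff n Q0 else
            if n % 4 = cls κ 1 then PowerSeries.coeff n Q1 else 0 : ℤ) : ℂ) *
              ee ((n : ℂ) * (τ : ℂ) / 4) else 0) =
          fun n : ℕ ↦ ((PowerSeries.coeff n Q0 : ℤ) : ℂ) * ee ((n : ℂ) * (τ : ℂ) / 4) := by
        funext n
        rw [hcls0]
        by_cases hn : n % 4 = 0
        · rw [if_pos hn, if_pos hn]
        · rw [if_neg hn]
          have h0 : PowerSeries.coeff n Q0 = 0 := by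
            by_contra hc
            exact hn (gQ0 n hc)
          rw [h0]
          simp
      rw [← e] at h
      exact h
    · have h := eQ1 τ
      have e : (fun n : ℕ ↦ if n % 4 = cls κ 1 then
          ((if n % 4 = 0 then PowerSeries.coeff n Q0 else
            if n % 4 = cls κ 1 then PowerSeries.coeff n Q1 else 0 : ℤ) : ℂ) *
              ee ((n : ℂ) * (τ : ℂ) / 4) else 0) =
          fun n : ℕ ↦ ((PowerSeries.coeff n Q1 : ℤ) : ℂ) * ee ((n : ℂ) * (τ : ℂ) / 4) := by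
        funext n
        by_cases hn : n % 4 = cls κ 1
        · rw [if_pos hn, if_neg (by rw [hn]; exact hcls1'.2), if_pos hn]
        · rw [if_neg hn]
          have h0 : PowerSeries.coeff n Q1 = 0 := by
            by_contra hc
            exact hn ((gQ1 n hc).trans hcls1'.1)
          rw [h0]
          simp
      rw [← e] at h
      exact h
  · intro γ
    rw [hκ]
    exact tf_inv b a a' j hb γ
  · intro n hn
    dsimp only
    rw [if_neg (by rw [hn]; exact hcls1'.2), if_pos hn]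
    have h : ph2 Q1 = 0 := by
      rw [hQ1, map_mul, map_mul, map_mul, pP1, zero_mul, zero_mul, zero_mul]
    have h2 := congrArg (PowerSeries.coeff n) h
    unfold ph2 at h2
    rw [PowerSeries.coeff_map, map_zero, eq_intCast] at h2
    rw [ZMod.intCast_zmod_eq_zero_iff_dvd] at h2
    exact even_iff_two_dvd.2 h2
  · intro n
    dsimp only
    rw [if_pos (by omega)]
    have h : ph2 Q0 = ph2 (PB ^ (4 * j)) := by
      rw [hQ0, map_mul, map_mul, map_mul, map_pow, map_pow, map_pow, pP0, pP4, pP6, pPD, one_pow,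
        one_pow, one_mul, one_mul, one_mul, map_pow, pow_mul]
    have h2 := congrArg (PowerSeries.coeff (4 * n)) h
    unfold ph2 at h2
    rw [PowerSeries.coeff_map, PowerSeries.coeff_map, eq_intCast, eq_intCast, coeff_PB] at h2
    rw [← Int.not_even_iff_odd, ← Nat.not_even_iff_odd, not_iff_not, even_iff_two_dvd,
      even_iff_two_dvd]
    have h3 := ZMod.intCast_zmod_eq_zero_iff_dvd (PowerSeries.coeff (4 * n) Q0) 2
    rw [h2, ZMod.natCast_eq_zero_iff] at h3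
    exact_mod_cast h3.symm

theorem exists_weights (κ j : ℕ) (h : 12 * j + 3 ≤ κ) :
    ∃ b a a' : ℕ, (b = 0 ∨ b = 2 ∨ b = 3 ∨ b = 5) ∧ κ = b + 4 * a + 6 * a' + 12 * j := by
  have h1 : κ % 4 < 4 := Nat.mod_lt _ (by norm_num)
  by_cases h2 : κ % 4 = 0
  · exact ⟨0, (κ - 12 * j) / 4, 0, Or.inl rfl, by omega⟩
  by_cases h3 : κ % 4 = 1
  · exact ⟨5, (κ - 12 * j - 5) / 4, 0, by omega, by omega⟩
  by_cases h4 : κ % 4 = 2
  · exact ⟨2, (κ - 12 * j - 2) / 4, 0, by omega, by omega⟩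
  · exact ⟨3, (κ - 12 * j - 3) / 4, 0, by omega, by omega⟩

end MP836e4b.P
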