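/-
MODULE CMn (size M), board mod836, MP_836e4b_nt, folder Work/MP_836e4b_nt/P. Keep the statements verbatim, helper lemmas private.
Assembly for odd squarefree D (module MainP is the prime case). Suppose T_2 F = l F. eigD_sq gives l'. (-1)^κ = (-1)^k =
jacobiSym (-1) D = χ₄(D), so D % 4 = cls κ 1. tf_hasE with exists_weights (j ≥ 1 since oddReps 0 D = 0 for D ≥ 1): c integer,
IsP κ c g. l'^n c(D) = (Tc^n c)(D) is an integer (Tc_int, isP_T). c(D) = 0: (Tc κ 2 c)(D) = c(4D) = 0 but c(4D) is odd (D odd, so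
4 ∤ D). Otherwise l' = m is an integer and c(4D) = m c(D) - 2^{κ-1}(1+ψ) c(D) is even since c(D) is even.
oddReps_self: the number of representations of D as a sum of D odd squares is 1.
-/
import Mathlib
import Pool.Agent.Work.MP_836e4b_nt.P.Defs
import Pool.Agent.Work.MP_836e4b_nt.P.CEgD
import Pool.Agent.Work.MP_836e4b_nt.P.IntL
import Pool.Agent.Work.MP_836e4b_nt.P.Tf4
import Pool.Agent.Work.MP_836e4b_nt.P.Comm

open UpperHalfPlane Complex
open scoped MatrixGroups ComplexConjugate Matrix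

namespace MP836e4b.P

private theorem d4_eq (D k e : ℕ) (hodd : Odd D) (he : Even e)
    (hpar : jacobiSym (-1) D = (-1) ^ k) : D % 4 = cls (k + e) 1 := by
  have h1 := jacobiSym.at_neg_one hodd
  rw [hpar] at h1
  unfold cls
  rw [if_neg (by decide)]
  have h2 : D % 4 = 1 ∨ D % 4 = 3 := by
    have := Nat.odd_iff.1 hodd
    omega
  by_cases hk : Even k
  · rw [if_pos (hk.add he)]
    rw [hk.neg_one_pow] at h1
    rcases h2 with h2 | h2
    · exact h2
    · exfalso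
      rw [ZMod.χ₄_nat_three_mod_four h2] at h1
      norm_num at h1
  · rw [if_neg (by rw [Nat.even_add]; tauto)]
    rcases h2 with h2 | h2
    · exfalso
      rw [ZMod.χ₄_nat_one_mod_four h2, (Nat.not_even_iff_odd.1 hk).neg_one_pow] at h1
      norm_num at h1
    · exact h2

private theorem oddReps_zero (D : ℕ) (hD : D ≠ 0) : oddReps 0 D = 0 := by
  unfold oddReps
  rw [Finset.card_eq_zero, Finset.filter_eq_empty_iff]
  rintro u - ⟨-, h⟩
  apply hD
  rw [← h]
  simp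

theorem main_eig_sq (D k e j : ℕ) (hD : Odd D) (hs : Squarefree D) (hk : 3 ≤ k) (he : Even e)
    (he2 : 2 ≤ e) (hpar : jacobiSym (-1) D = (-1) ^ k) (hj : Odd (oddReps j D))
    (hκ : 12 * j + 3 ≤ k + e) :
    ¬ ∃ l : ℂ, ∀ n, 1 ≤ n → hecke (2 * k + 2 * e) 2 (aCoeff D k e) n = l * aCoeff D k e n := by
  rintro ⟨l, hl⟩
  have hD4 : D % 4 = cls (k + e) 1 := d4_eq D k e hD he hpar
  obtain ⟨l', hl'⟩ := eigD_sq D (k + e) k e hD hs hD4 rfl hk he he2 hpar l (by
    intro n hn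
    rw [mul_add]
    exact hl n hn)
  obtain ⟨κ, hκe⟩ : ∃ κ, κ = k + e := ⟨_, rfl⟩
  rw [← hκe] at hl' hD4 hκ
  have hj1 : 1 ≤ j := by
    rcases Nat.eq_zero_or_pos j with h0 | h0
    · rw [h0, oddReps_zero D hD.pos.ne'] at hj
      exact absurd hj (by decide)
    · exact h0
  obtain ⟨b, a, a', hb, hw⟩ := exists_weights κ j hκ
  obtain ⟨c, hP, hev, hodd⟩ := tf_hasE b a a' j hb hj1
  rw [← hw] at hP hev
  have hiter : ∀ n : ℕ, ∃ (d : ℕ → ℤ) (g : VF), IsP κ (fun n ↦ (d n : ℂ)) g ∧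
      (d D : ℂ) = l' ^ n * (c D : ℂ) := by
    intro n
    induction n with
    | zero => exact ⟨c, _, hP, by simp⟩
    | succ n ih =>
      obtain ⟨d, g, hg, hd⟩ := ih
      obtain ⟨d', hd'⟩ := Tc_int κ 2 d
      have h1 := isP_T κ 2 (by omega) Nat.prime_two _ _ hg
      rw [hd'] at h1
      refine ⟨d', _, h1, ?_⟩
      have h2 := hl' _ _ hg
      rw [hd'] at h2
      refine h2.trans ?_
      rw [hd]
      ring
  have hT := hl' _ _ hP
  have h4D : ¬ (2 ^ 2 ∣ D) := by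
    intro h
    have h3 : (2 : ℕ) ∣ D := dvd_trans (by norm_num) h
    exact (Nat.not_even_iff_odd.2 hD) (even_iff_two_dvd.2 h3)
  have hTc : Tc κ 2 (fun n ↦ (c n : ℂ)) D = (c (2 ^ 2 * D) : ℂ) +
      (2 : ℂ) ^ (κ - 1) * (1 + ((psi κ 2 D : ℤ) : ℂ)) * (c D : ℂ) := by
    unfold Tc
    rw [if_pos (Or.inr hD4), if_neg h4D]
    push_cast
    ring
  obtain ⟨m, hm⟩ : ∃ m : ℤ, l' * (c D : ℂ) = (m : ℂ) * (c D : ℂ) := by
    by_cases h0 : c D = 0
    · exact ⟨0, by rw [h0]; simp⟩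
    · obtain ⟨m, hm⟩ := int_of_pow l' (c D) h0 (fun n ↦ by
        obtain ⟨d, g, _, hd⟩ := hiter n
        exact ⟨d D, hd.symm⟩)
      exact ⟨m, by rw [hm]⟩
  rw [hTc, hm] at hT
  have hZ : c (2 ^ 2 * D) + 2 ^ (κ - 1) * (1 + psi κ 2 D) * c D = m * c D := by
    exact_mod_cast hT
  have h4 : Odd (c (4 * D)) := (hodd D).2 hj
  have h5 : Even (c D) := hev D hD4
  have h6 : c (2 ^ 2 * D) = (m - 2 ^ (κ - 1) * (1 + psi κ 2 D)) * c D := by
    linear_combination hZ
  have h7 : Even (c (2 ^ 2 * D)) := by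
    rw [h6]
    exact h5.mul_left _
  have h8 : 2 ^ 2 * D = 4 * D := by ring
  rw [h8] at h7
  exact (Int.not_even_iff_odd.2 h4) h7

theorem oddReps_self (D : ℕ) : oddReps D D = 1 := by
  unfold oddReps
  rw [Finset.card_eq_one]
  refine ⟨fun _ ↦ 1, ?_⟩
  ext u
  rw [Finset.mem_filter, Finset.mem_singleton, Fintype.mem_piFinset]
  constructor
  · rintro ⟨-, hodd, hsum⟩
    have h1 : ∀ i ∈ (Finset.univ : Finset (Fin D)), 1 ≤ u i ^ 2 := by
      intro i _
      exact Nat.one_le_pow _ _ (hodd i).pos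
    have h2 : ∑ _i : Fin D, 1 = ∑ i : Fin D, u i ^ 2 := by
      rw [hsum]
      simp
    have h3 := (Finset.sum_eq_sum_iff_of_le h1).1 h2
    funext i
    have h4 := h3 i (Finset.mem_univ i)
    have h5 := (hodd i).pos
    show u i = 1
    by_contra hne
    have h6 : 2 ≤ u i := by omega
    have h7 : 2 ^ 2 ≤ u i ^ 2 := Nat.pow_le_pow_left h6 2
    omega
  · rintro rfl
    refine ⟨fun i ↦ ?_, fun _ ↦ odd_one, by simp⟩
    show 1 ∈ Finset.range (D + 1)
    rw [Finset.mem_range]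
    have := i.2
    omega

theorem cls_of_par (D k e : ℕ) (hD : Odd D) (he : Even e) (hpar : jacobiSym (-1) D = (-1) ^ k) :
    D % 4 = cls (k + e) 1 := d4_eq D k e hD he hpar

end MP836e4b.P
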