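/-
MODULE CgD (size S), board mod836, MP_836e4b_nt, folder Work/MP_836e4b_nt/P. Keep the statements verbatim, helper lemmas private.
Definitions of the two parts of cg (fully proved, not for claiming).
-/
import Mathlib
import Pool.Agent.Work.MP_836e4b_nt.P.Defs

open UpperHalfPlane Complex
open scoped MatrixGroups ComplexConjugate Matrix

namespace MP836e4b.P

/-- The contribution of the cusp `∞` to `cg`. -/
noncomputable def cgI (D k e n : ℕ) : ℂ :=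
  ∑ m ∈ Finset.Icc (-(n : ℤ)) n,
    ((if (D : ℤ) * m ^ 2 ≤ n ∧ (4 : ℤ) ∣ (n : ℤ) - (D : ℤ) * m ^ 2 then
      sig k D 1 (((n : ℤ) - (D : ℤ) * m ^ 2) / 4).toNat *
        Wp k e (((((n : ℤ) - (D : ℤ) * m ^ 2) / 4 : ℤ) : ℂ) / (D : ℂ)) (m : ℂ) else 0))

/-- The contribution of the cusp `0` to `cg`. -/
noncomputable def cgZ (D k e n : ℕ) : ℂ :=
  ((jacobiSym (-1) D : ℤ) : ℂ) * ((D : ℂ) ^ e)⁻¹ *
    ∑ m ∈ Finset.Icc (-((D * n : ℕ) : ℤ)) (D * n : ℕ),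
      (if m ^ 2 ≤ (D : ℤ) * n ∧ (4 : ℤ) ∣ (D : ℤ) * n - m ^ 2 then
        sig k 1 D (((D : ℤ) * n - m ^ 2) / 4).toNat *
          Wp k e ((((D : ℤ) * n - m ^ 2) / 4 : ℤ) : ℂ) (m : ℂ) else 0)

theorem cg_eq (D k e n : ℕ) : cg D k e n = cgI D k e n + cgZ D k e n := rfl

end MP836e4b.P
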