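/-
MODULE EIn (size L), board mod836, MP_836e4b_nt, folder Work/MP_836e4b_nt/P. Keep the statements verbatim, helper lemmas private.
Expansion of EInf. F(c,d) = [D ∣ c] χ(d) c^i (cτ+d)^{-k-i}; F(g v) = χ(g) g^{-k} F(v) (if D ∤ c but D ∣ gc then
D ∣ g and χ(g) = 0). sum_coprime, Lval_tsum: 2 L(k,χ) EInf = ∑_v F(v). Rows c = 0: i = 0: ∑_d χ(d) d^{-k} = 2L(k,χ)
(χ(-1) = (-1)^k), i > 0: 0. Rows ±c equal: 2 ∑_{c'≥1} (Dc')^i ∑_d χ(d) (Dc'τ+d)^{-k-i}; d = a + Dl: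
D^{-k-i} ∑_a χ(a) ∑_l (c'τ + a/D + l)^{-k-i} = D^{-k-i} (-2πi)^{k+i}/(k+i-1)! ∑_n n^{k+i-1} e(nc'τ) ∑_a χ(a) e(an/D)
= ... gD D χ(n) (lipschitz at c'τ + a/D, gauss_twist). N = c'n: c'^i n^{k+i-1} χ(n) = N^i χ(n) n^{k-1}, the sum over
c'n = N is sig k D 1 N. Constant: const_B.
-/
import Mathlib
import Pool.Agent.Work.MP_836e4b_nt.P.Defs
import Pool.Agent.Work.MP_836e4b_nt.P.Lip
import Pool.Agent.Work.MP_836e4b_nt.P.GaD
import Pool.Agent.Work.MP_836e4b_nt.P.CoB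
import Pool.Agent.Work.MP_836e4b_nt.P.CopS

open UpperHalfPlane Complex
open scoped MatrixGroups ComplexConjugate Matrix

namespace MP836e4b.P

private theorem ein_ch (D : ℕ) (n : ℤ) : ‖ch D n‖ ≤ 1 := by
  unfold ch
  rcases jacobiSym.trichotomy n D with h | h | h <;> simp [h]

private theorem ein_sum (K i : ℕ) (hK : 3 ≤ K) (τ : ℍ) (a : ℤ × ℤ → ℂ) (ha : ∀ v, ‖a v‖ ≤ 1) :
    Summable fun v : ℤ × ℤ ↦
      a v * (v.1 : ℂ) ^ i * (((v.1 : ℂ) * (τ : ℂ) + (v.2 : ℂ)) ^ (K + i))⁻¹ := by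
  have h1 := EisensteinSeries.summable_norm_eisSummand (k := (K : ℤ)) (by exact_mod_cast hK) τ
  have h2 : Summable fun v : ℤ × ℤ ↦
      ‖EisensteinSeries.eisSummand (K : ℤ) ((finTwoArrowEquiv ℤ).symm v) τ‖ :=
    (finTwoArrowEquiv ℤ).symm.summable_iff.mpr h1
  refine Summable.of_norm_bounded (h2.mul_left ((τ.im⁻¹) ^ i)) fun v ↦ ?_
  have e1 : EisensteinSeries.eisSummand (K : ℤ) ((finTwoArrowEquiv ℤ).symm v) τ =
      ((v.1 : ℂ) * (τ : ℂ) + (v.2 : ℂ)) ^ (-(K : ℤ)) := rfl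
  rw [e1]
  set w : ℂ := (v.1 : ℂ) * (τ : ℂ) + (v.2 : ℂ) with hw
  have him : 0 < τ.im := τ.im_pos
  by_cases h0 : w = 0
  · rw [h0, zero_pow (by omega), inv_zero, mul_zero, norm_zero]
    positivity
  · have hwn : 0 < ‖w‖ := norm_pos_iff.mpr h0
    have h3 : ‖(v.1 : ℂ)‖ ≤ ‖w‖ * τ.im⁻¹ := by
      have h4 : w.im = (v.1 : ℝ) * τ.im := by
        rw [hw]
        simp
      have h5 := Complex.abs_im_le_norm w
      rw [h4, abs_mul, abs_of_pos him] at h5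
      rw [Complex.norm_intCast, ← div_eq_mul_inv, le_div_iff₀ him]
      exact h5
    rw [norm_mul, norm_mul, norm_inv, norm_pow, norm_pow, zpow_neg, zpow_natCast, norm_inv,
      norm_pow]
    calc ‖a v‖ * ‖(v.1 : ℂ)‖ ^ i * (‖w‖ ^ (K + i))⁻¹
        ≤ 1 * (‖w‖ * τ.im⁻¹) ^ i * (‖w‖ ^ (K + i))⁻¹ := by
          gcongr
          exact ha v
      _ = (τ.im⁻¹) ^ i * (‖w‖ ^ K)⁻¹ := by
          rw [pow_add, mul_pow]
          field_simp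

private theorem ein_pnat (f : ℕ → ℂ) :
    ∑' n : ℕ, (if n = 0 then 0 else f n) = ∑' n : ℕ+, f n := by
  rw [← PNat.coe_injective.tsum_eq (f := fun n : ℕ ↦ if n = 0 then 0 else f n)]
  · exact tsum_congr fun n ↦ if_neg n.ne_zero
  · intro n hn
    rw [Function.mem_support] at hn
    have h0 : n ≠ 0 := by
      rintro rfl
      exact hn (if_pos rfl)
    exact ⟨⟨n, Nat.pos_of_ne_zero h0⟩, rfl⟩

private theorem ein_mult (D : ℕ) (hD : D ≠ 0) (f : ℤ → ℂ) :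
    ∑' d : ℤ, (if (D : ℤ) ∣ d then f d else 0) = ∑' l : ℤ, f ((D : ℤ) * l) := by
  have hinj : Function.Injective fun l : ℤ ↦ (D : ℤ) * l := by
    intro l l' h
    exact mul_left_cancel₀ (by exact_mod_cast hD) h
  rw [← hinj.tsum_eq (f := fun d : ℤ ↦ if (D : ℤ) ∣ d then f d else 0)]
  · exact tsum_congr fun l ↦ if_pos (dvd_mul_right _ _)
  · intro d hd
    rw [Function.mem_support] at hd
    by_cases h : (D : ℤ) ∣ d
    · obtain ⟨l, rfl⟩ := h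
      exact ⟨l, rfl⟩
    · exact absurd (if_neg h) hd

private theorem ein_geo (K : ℕ) {s : ℝ} (h0 : 0 ≤ s) (h1 : s < 1) :
    Summable fun n : ℕ+ ↦ ((n : ℕ) : ℝ) ^ K * s ^ (n : ℕ) := by
  have h := summable_pow_mul_geometric_of_norm_lt_one K (r := s)
    (by rw [Real.norm_eq_abs, abs_of_nonneg h0]; exact h1)
  exact h.comp_injective PNat.coe_injective

private theorem ein_div (k i : ℕ) (hk : 1 ≤ k) (a b : ℕ → ℂ) (ha : ∀ n, ‖a n‖ ≤ 1)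
    (hb : ∀ n, ‖b n‖ ≤ 1) {q : ℂ} (hq : ‖q‖ < 1) :
    ∑' c : ℕ+, ∑' n : ℕ+, ((c : ℕ) : ℂ) ^ i * ((n : ℕ) : ℂ) ^ (k + i - 1) * a c * b n *
      q ^ ((c : ℕ) * (n : ℕ)) = ∑' N : ℕ+, ((N : ℕ) : ℂ) ^ i *
        (∑ x ∈ (N : ℕ).divisorsAntidiagonal, b x.1 * a x.2 * (x.1 : ℂ) ^ (k - 1)) *
          q ^ (N : ℕ) := by
  set s : ℝ := Real.sqrt ‖q‖ with hs
  have s0 : 0 ≤ s := Real.sqrt_nonneg _
  have s1 : s < 1 := by
    rw [hs, Real.sqrt_lt' one_pos, one_pow]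
    exact hq
  have hqs : ‖q‖ = s ^ 2 := (Real.sq_sqrt (norm_nonneg _)).symm
  let h : ℕ × ℕ → ℂ := fun x ↦ (x.2 : ℂ) ^ i * (x.1 : ℂ) ^ (k + i - 1) * a x.2 * b x.1 *
    q ^ (x.1 * x.2)
  have hsum : Summable fun x : ℕ+ × ℕ+ ↦ h ((x.1 : ℕ), (x.2 : ℕ)) := by
    have g1 := ein_geo (k + i - 1) s0 s1
    have g2 := ein_geo i s0 s1
    have g3 := g1.mul_of_nonneg g2 (fun n ↦ by positivity) (fun n ↦ by positivity)
    refine Summable.of_norm_bounded g3 fun x ↦ ?_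
    have p1 : 1 ≤ (x.1 : ℕ) := x.1.pos
    have p2 : 1 ≤ (x.2 : ℕ) := x.2.pos
    have hle : (x.1 : ℕ) + (x.2 : ℕ) ≤ 2 * ((x.1 : ℕ) * (x.2 : ℕ)) := by nlinarith
    have hpow : ‖q‖ ^ ((x.1 : ℕ) * (x.2 : ℕ)) ≤ s ^ (x.1 : ℕ) * s ^ (x.2 : ℕ) := by
      rw [hqs, ← pow_mul, ← pow_add]
      exact pow_le_pow_of_le_one s0 s1.le hle
    change ‖((x.2 : ℕ) : ℂ) ^ i * ((x.1 : ℕ) : ℂ) ^ (k + i - 1) * a x.2 * b x.1 *
      q ^ ((x.1 : ℕ) * (x.2 : ℕ))‖ ≤ ((x.1 : ℕ) : ℝ) ^ (k + i - 1) * s ^ (x.1 : ℕ) *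
        (((x.2 : ℕ) : ℝ) ^ i * s ^ (x.2 : ℕ))
    rw [norm_mul, norm_mul, norm_mul, norm_mul, norm_pow, norm_pow, norm_pow,
      Complex.norm_natCast, Complex.norm_natCast]
    calc ((x.2 : ℕ) : ℝ) ^ i * ((x.1 : ℕ) : ℝ) ^ (k + i - 1) * ‖a x.2‖ * ‖b x.1‖ *
          ‖q‖ ^ ((x.1 : ℕ) * (x.2 : ℕ))
        ≤ ((x.2 : ℕ) : ℝ) ^ i * ((x.1 : ℕ) : ℝ) ^ (k + i - 1) * 1 * 1 *
          (s ^ (x.1 : ℕ) * s ^ (x.2 : ℕ)) := by
          gcongr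
          · exact ha _
          · exact hb _
      _ = _ := by ring
  have hsw : Summable fun x : ℕ+ × ℕ+ ↦ h ((x.2 : ℕ), (x.1 : ℕ)) :=
    (Equiv.prodComm ℕ+ ℕ+).summable_iff.mpr hsum
  have e1 : ∑' c : ℕ+, ∑' n : ℕ+, ((c : ℕ) : ℂ) ^ i * ((n : ℕ) : ℂ) ^ (k + i - 1) * a c * b n *
      q ^ ((c : ℕ) * (n : ℕ)) = ∑' x : ℕ+ × ℕ+, h ((x.2 : ℕ), (x.1 : ℕ)) := by
    rw [hsw.tsum_prod]
    refine tsum_congr fun c ↦ tsum_congr fun n ↦ ?_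
    change _ = ((c : ℕ) : ℂ) ^ i * ((n : ℕ) : ℂ) ^ (k + i - 1) * a c * b n *
      q ^ ((n : ℕ) * (c : ℕ))
    rw [mul_comm (n : ℕ) (c : ℕ)]
  have e2 : ∑' x : ℕ+ × ℕ+, h ((x.2 : ℕ), (x.1 : ℕ)) =
      ∑' x : ℕ+ × ℕ+, h ((x.1 : ℕ), (x.2 : ℕ)) :=
    (Equiv.prodComm ℕ+ ℕ+).tsum_eq fun x : ℕ+ × ℕ+ ↦ h ((x.1 : ℕ), (x.2 : ℕ))
  have hss : Summable fun y : (n : ℕ+) × Nat.divisorsAntidiagonal n ↦ h y.2.1 :=
    sigmaAntidiagonalEquivProd.summable_iff.mpr hsum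
  have e3 : ∑' x : ℕ+ × ℕ+, h ((x.1 : ℕ), (x.2 : ℕ)) =
      ∑' y : (n : ℕ+) × Nat.divisorsAntidiagonal n, h y.2.1 :=
    (sigmaAntidiagonalEquivProd.tsum_eq fun x : ℕ+ × ℕ+ ↦ h ((x.1 : ℕ), (x.2 : ℕ))).symm
  rw [e1, e2, e3, hss.tsum_sigma]
  refine tsum_congr fun N ↦ ?_
  have e4 : ∑' x : Nat.divisorsAntidiagonal N, h x.1 =
      ∑ x ∈ (N : ℕ).divisorsAntidiagonal, h x := Finset.tsum_subtype _ h
  rw [e4, Finset.mul_sum, Finset.sum_mul]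
  refine Finset.sum_congr rfl fun x hx ↦ ?_
  have hx' : x.1 * x.2 = (N : ℕ) := (Nat.mem_divisorsAntidiagonal.mp hx).1
  change (x.2 : ℂ) ^ i * (x.1 : ℂ) ^ (k + i - 1) * a x.2 * b x.1 * q ^ (x.1 * x.2) = _
  rw [hx', ← hx', show k + i - 1 = i + (k - 1) by omega, pow_add]
  push_cast
  ring

private theorem ein_even (G : ℤ → ℂ) (hG : ∀ n, G (-n) = G n) (hs : Summable G) :
    ∑' n : ℤ, G n = G 0 + 2 * ∑' n : ℕ+, G ((n : ℕ) : ℤ) := by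
  have h := tsum_int_eq_zero_add_two_mul_tsum_pnat (f := G) (fun n ↦ hG n) hs
  rw [h, nsmul_eq_mul, Nat.cast_ofNat]

private theorem ein_L (D k : ℕ) (hD : D.Prime) (hD2 : D ≠ 2) (hk : 3 ≤ k)
    (hpar : jacobiSym (-1) D = (-1) ^ k) : Lval D (k : ℂ) ≠ 0 := by
  obtain ⟨h1, h2⟩ := const_B D k hD hD2 hk hpar
  intro h0
  rw [h0, mul_zero, div_zero] at h2
  exact div_ne_zero two_ne_zero h1 h2.symm

private theorem ein_gD (D : ℕ) (hD : D.Prime) : gD D ≠ 0 := by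
  have h1 : ((Real.sqrt D : ℝ) : ℂ) ≠ 0 := by
    rw [Complex.ofReal_ne_zero]
    exact (Real.sqrt_pos.mpr (by exact_mod_cast hD.pos)).ne'
  unfold gD
  split_ifs
  · exact h1
  · exact mul_ne_zero Complex.I_ne_zero h1
private theorem ein_res (D : ℕ) (hD : D ≠ 0) (f : ℤ → ℂ) (hf : Summable f) :
    ∑' d : ℤ, f d = ∑ a ∈ Finset.range D, ∑' l : ℤ, f ((D : ℤ) * l + (a : ℤ)) := by
  have : NeZero D := ⟨hD⟩
  have h1 := (Int.divModEquiv D).symm.tsum_eq f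
  have h2 : Summable fun x : ℤ × Fin D ↦ f ((Int.divModEquiv D).symm x) :=
    (Int.divModEquiv D).symm.summable_iff.mpr hf
  have h3 : Summable fun x : Fin D × ℤ ↦ f ((Int.divModEquiv D).symm (x.2, x.1)) :=
    (Equiv.prodComm (Fin D) ℤ).summable_iff.mpr h2
  have h4 : ∑' x : Fin D × ℤ, f ((Int.divModEquiv D).symm (x.2, x.1)) =
      ∑' x : ℤ × Fin D, f ((Int.divModEquiv D).symm x) :=
    (Equiv.prodComm (Fin D) ℤ).tsum_eq fun x : ℤ × Fin D ↦ f ((Int.divModEquiv D).symm x)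
  rw [← h1, ← h4, h3.tsum_prod, tsum_fintype, Finset.sum_range]
  refine Finset.sum_congr rfl fun a _ ↦ tsum_congr fun l ↦ ?_
  congr 1
  change l * (D : ℤ) + ((a : ℕ) : ℤ) = _
  ring

theorem EInf_eq (D k i : ℕ) (hD : D.Prime) (hD2 : D ≠ 2) (hk : 3 ≤ k)
    (hpar : jacobiSym (-1) D = (-1) ^ k) (τ : ℍ) :
    EInf D k i τ = (if i = 0 then 1 else 0) + 2 / Lval D (1 - (k : ℂ)) *
      ((-(2 * (Real.pi : ℂ) * Complex.I)) ^ i *
        (((k - 1).factorial : ℂ) / ((k + i - 1).factorial : ℂ))) *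
      ∑' N : ℕ, if N = 0 then 0 else (N : ℂ) ^ i * sig k D 1 N * ee ((N : ℂ) * (τ : ℂ)) := by
  classical
  have hD0 : D ≠ 0 := hD.ne_zero
  have : NeZero D := ⟨hD0⟩
  have hDc : (D : ℂ) ≠ 0 := by exact_mod_cast hD0
  set K : ℕ := k + i with hK
  set L : ℂ := Lval D (k : ℂ) with hL
  have hL0 : L ≠ 0 := ein_L D k hD hD2 hk hpar
  have hg0 : gD D ≠ 0 := ein_gD D hD
  obtain ⟨hB0, hB⟩ := const_B D k hD hD2 hk hpar
  have hmul : ∀ m n : ℤ, ch D (m * n) = ch D m * ch D n := by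
    intro m n
    unfold ch
    rw [jacobiSym.mul_left]
    push_cast
    ring
  have hch0 : ∀ n : ℤ, (D : ℤ) ∣ n → ch D n = 0 := by
    intro n hn
    unfold ch
    have h1 : jacobiSym n D = 0 := by
      rw [jacobiSym.eq_zero_iff_not_coprime]
      intro h2
      have h3 : (D : ℤ) ∣ (Int.gcd n D : ℤ) := Int.dvd_coe_gcd hn (dvd_refl _)
      rw [h2] at h3
      have h4 : D ∣ 1 := by exact_mod_cast h3
      exact hD.one_lt.ne' (Nat.dvd_one.mp h4)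
    rw [h1, Int.cast_zero]
  have hchp : ∀ (a : ℕ) (l : ℤ), ch D ((D : ℤ) * l + (a : ℤ)) = ch D (a : ℤ) := by
    intro a l
    unfold ch
    rw [jacobiSym.mod_left, Int.mul_add_emod_self_left, ← jacobiSym.mod_left]
  let F : ℤ × ℤ → ℂ := fun v ↦ if (D : ℤ) ∣ v.1 then
    ch D v.2 * (v.1 : ℂ) ^ i * (((v.1 : ℂ) * (τ : ℂ) + (v.2 : ℂ)) ^ K)⁻¹ else 0
  have hFe : ∀ v : ℤ × ℤ, F v = (if (D : ℤ) ∣ v.1 then ch D v.2 else 0) * (v.1 : ℂ) ^ i *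
      (((v.1 : ℂ) * (τ : ℂ) + (v.2 : ℂ)) ^ K)⁻¹ := by
    intro v
    change (if (D : ℤ) ∣ v.1 then _ else (0 : ℂ)) = _
    split_ifs
    · rfl
    · rw [zero_mul, zero_mul]
  have hF : Summable F := by
    have h1 := ein_sum k i hk τ (fun v ↦ if (D : ℤ) ∣ v.1 then ch D v.2 else 0) (by
      intro v
      by_cases h2 : (D : ℤ) ∣ v.1
      · rw [if_pos h2]
        exact ein_ch D _
      · rw [if_neg h2, norm_zero]
        exact zero_le_one)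
    exact h1.congr fun v ↦ (hFe v).symm
  have hF0 : F 0 = 0 := by
    rw [hFe]
    have h1 : ch D (0 : ℤ × ℤ).2 = 0 := hch0 _ (dvd_zero _)
    rw [h1, ite_self, zero_mul, zero_mul]
  have hhom : ∀ (g : ℕ) (v : ℤ × ℤ), 0 < g →
      F ((g : ℤ) * v.1, (g : ℤ) * v.2) = (ch D g * ((g : ℂ) ^ k)⁻¹) * F v := by
    intro g v hg
    have hgc : (g : ℂ) ≠ 0 := by exact_mod_cast hg.ne'
    rw [hFe, hFe]
    dsimp only
    by_cases hDg : (D : ℤ) ∣ (g : ℤ)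
    · have h1 : ch D ((g : ℤ) * v.2) = 0 := hch0 _ (hDg.mul_right _)
      have h2 : ch D (g : ℤ) = 0 := hch0 _ hDg
      rw [h1, h2, ite_self]
      ring
    · have h3 : (D : ℤ) ∣ (g : ℤ) * v.1 ↔ (D : ℤ) ∣ v.1 :=
        ⟨fun h ↦ ((Nat.prime_iff_prime_int.mp hD).dvd_or_dvd h).resolve_left hDg,
          fun h ↦ h.mul_left _⟩
      by_cases h4 : (D : ℤ) ∣ v.1
      · rw [if_pos (h3.mpr h4), if_pos h4, hmul]
        have h5 : (((g : ℤ) * v.1 : ℤ) : ℂ) * (τ : ℂ) + (((g : ℤ) * v.2 : ℤ) : ℂ) =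
            (g : ℂ) * ((v.1 : ℂ) * (τ : ℂ) + (v.2 : ℂ)) := by
          push_cast
          ring
        rw [h5, mul_pow, mul_inv, hK, pow_add (g : ℂ) k i]
        push_cast
        rw [mul_pow]
        field_simp
      · rw [if_neg (fun h ↦ h4 (h3.mp h)), if_neg h4]
        ring
  have hcop := sum_coprime F (fun g ↦ ch D g * ((g : ℂ) ^ k)⁻¹) hF hF0 hhom
  rw [← Lval_tsum D k hD hk, ← hL] at hcop
  have hEI : EInf D k i τ = (1 / 2) * (L⁻¹ * ∑' v, F v) := by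
    rw [hcop, inv_mul_cancel_left₀ hL0]
    unfold EInf
    congr 1
    refine tsum_congr fun v ↦ ?_
    by_cases h1 : IsCoprime v.1 v.2
    · by_cases h2 : (D : ℤ) ∣ v.1
      · rw [if_pos ⟨h1, h2⟩, if_pos h1]
        change _ = (if (D : ℤ) ∣ v.1 then _ else (0 : ℂ))
        rw [if_pos h2]
      · rw [if_neg (fun h ↦ h2 h.2), if_pos h1]
        change _ = (if (D : ℤ) ∣ v.1 then _ else (0 : ℂ))
        rw [if_neg h2]
    · rw [if_neg (fun h ↦ h1 h.1), if_neg h1]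
  -- the rows
  set G : ℤ → ℂ := fun c ↦ ∑' d : ℤ, F (c, d) with hG
  have hGs : Summable G := hF.prod
  have hsumG : ∑' v, F v = ∑' c : ℤ, G c := hF.tsum_prod
  have hneg1 : ch D (-1) = (-1) ^ k := by
    unfold ch
    rw [hpar]
    push_cast
    ring
  have hchn : ∀ d : ℤ, ch D (-d) = (-1) ^ k * ch D d := by
    intro d
    rw [← hneg1, ← hmul, neg_one_mul]
  have h4 : ((-1 : ℂ) ^ k) * ((-1 : ℂ) ^ k) = 1 := by
    rw [← mul_pow]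
    norm_num
  have h5 : ((-1 : ℂ) ^ i) * ((-1 : ℂ) ^ i) = 1 := by
    rw [← mul_pow]
    norm_num
  have hGe : ∀ c, G (-c) = G c := by
    intro c
    rw [hG]
    dsimp only
    rw [← (Equiv.neg ℤ).tsum_eq (fun d : ℤ ↦ F (-c, d))]
    refine tsum_congr fun d ↦ ?_
    rw [hFe, hFe]
    change (if (D : ℤ) ∣ -c then ch D (-d) else 0) * ((-c : ℤ) : ℂ) ^ i *
      ((((-c : ℤ) : ℂ) * (τ : ℂ) + ((-d : ℤ) : ℂ)) ^ K)⁻¹ = (if (D : ℤ) ∣ c then ch D d else 0) *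
        (c : ℂ) ^ i * (((c : ℂ) * (τ : ℂ) + (d : ℂ)) ^ K)⁻¹
    have h2 : ((-c : ℤ) : ℂ) * (τ : ℂ) + ((-d : ℤ) : ℂ) =
        (-1) * ((c : ℂ) * (τ : ℂ) + (d : ℂ)) := by
      push_cast
      ring
    have h3 : ((-c : ℤ) : ℂ) = (-1) * (c : ℂ) := by
      push_cast
      ring
    rw [hchn, h2, h3, mul_pow, mul_pow, mul_inv, hK, pow_add (-1 : ℂ) k i]
    simp only [dvd_neg]
    have h6 : (((-1 : ℂ) ^ k * (-1 : ℂ) ^ i))⁻¹ = (-1 : ℂ) ^ k * (-1 : ℂ) ^ i := by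
      apply inv_eq_of_mul_eq_one_right
      linear_combination h4 * ((-1 : ℂ) ^ i * (-1 : ℂ) ^ i) + h5
    rw [h6]
    split_ifs
    · linear_combination (ch D d * (c : ℂ) ^ i * (((c : ℂ) * (τ : ℂ) + (d : ℂ)) ^ (k + i))⁻¹) *
        (h4 * ((-1 : ℂ) ^ i * (-1 : ℂ) ^ i) + h5)
    · ring
  have hG0 : G 0 = if i = 0 then 2 * L else 0 := by
    by_cases hi : i = 0
    · rw [if_pos hi, hG]
      dsimp only
      have h1 : ∀ d : ℤ, F (0, d) = ch D d * ((d : ℂ) ^ k)⁻¹ := by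
        intro d
        rw [hFe]
        dsimp only
        rw [if_pos (dvd_zero _), hK, hi]
        simp
      have h2 : Summable fun d : ℤ ↦ ch D d * ((d : ℂ) ^ k)⁻¹ :=
        (hF.prod_factor 0).congr fun d ↦ h1 d
      rw [tsum_congr h1, ein_even _ _ h2]
      · have h3 : ch D (0 : ℤ) = 0 := hch0 _ (dvd_zero _)
        rw [h3, zero_mul, zero_add, hL, Lval_tsum D k hD hk, ein_pnat]
        rfl
      · intro n
        rw [hchn]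
        have h6 : ((-n : ℤ) : ℂ) ^ k = (-1) ^ k * (n : ℂ) ^ k := by
          rw [← mul_pow]
          push_cast
          ring
        have h7 : ((-1 : ℂ) ^ k)⁻¹ = (-1 : ℂ) ^ k := inv_eq_of_mul_eq_one_right h4
        rw [h6, mul_inv, h7]
        linear_combination (ch D n * ((n : ℂ) ^ k)⁻¹) * h4
    · rw [if_neg hi, hG]
      dsimp only
      have h1 : ∀ d : ℤ, F (0, d) = 0 := by
        intro d
        rw [hFe]
        dsimp only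
        rw [Int.cast_zero, zero_pow hi, mul_zero, zero_mul]
      rw [tsum_congr h1, tsum_zero]
  -- only the multiples of `D`
  have hGD : ∀ c : ℤ, G c = if (D : ℤ) ∣ c then G c else 0 := by
    intro c
    by_cases h1 : (D : ℤ) ∣ c
    · rw [if_pos h1]
    · rw [if_neg h1, hG]
      dsimp only
      have h2 : ∀ d : ℤ, F (c, d) = 0 := by
        intro d
        rw [hFe]
        dsimp only
        rw [if_neg h1, zero_mul, zero_mul]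
      rw [tsum_congr h2, tsum_zero]
  have hinj : Function.Injective fun l : ℤ ↦ (D : ℤ) * l := by
    intro l l' h
    exact mul_left_cancel₀ (by exact_mod_cast hD0) h
  have hsumG2 : ∑' c : ℤ, G c = ∑' l : ℤ, G ((D : ℤ) * l) := by
    rw [tsum_congr hGD, ein_mult D hD0 G]
  have hsumG3 : ∑' l : ℤ, G ((D : ℤ) * l) = G 0 + 2 * ∑' c : ℕ+, G ((D : ℤ) * ((c : ℕ) : ℤ)) := by
    have h1 := ein_even (fun l : ℤ ↦ G ((D : ℤ) * l)) (fun n ↦ by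
      rw [mul_neg, hGe]) (hGs.comp_injective hinj)
    rw [h1, mul_zero]
  set q : ℂ := ee (τ : ℂ) with hq
  have hqn : ‖q‖ < 1 := by
    rw [hq, norm_ee]
    rw [Real.exp_lt_one_iff]
    have := τ.im_pos
    have := Real.pi_pos
    have h1 : (τ : ℂ).im = τ.im := rfl
    rw [h1]
    nlinarith
  have hqp : ∀ n : ℕ, ee ((n : ℂ) * (τ : ℂ)) = q ^ n := by
    intro n
    rw [hq]
    unfold ee
    rw [← Complex.exp_nat_mul]
    congr 1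
    ring
  set C : ℂ := (-(2 * (Real.pi : ℂ) * Complex.I)) ^ K / ((K - 1).factorial : ℂ) with hC
  have hrow : ∀ c : ℕ+, G ((D : ℤ) * ((c : ℕ) : ℤ)) = (((D : ℂ) ^ k)⁻¹ * C * gD D) *
      ∑' n : ℕ+, ((c : ℕ) : ℂ) ^ i * ((n : ℕ) : ℂ) ^ (k + i - 1) * 1 * ch D ((n : ℕ) : ℤ) *
        q ^ ((c : ℕ) * (n : ℕ)) := by
    intro c
    have hDr : (0 : ℝ) < (D : ℝ) := by exact_mod_cast hD.pos
    have hc0 : (0 : ℝ) < ((c : ℕ) : ℝ) := by exact_mod_cast c.pos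
    have him : ∀ a : ℕ, 0 < (((c : ℕ) : ℂ) * (τ : ℂ) + (a : ℂ) / (D : ℂ)).im := by
      intro a
      have h1 : (((c : ℕ) : ℂ) * (τ : ℂ) + (a : ℂ) / (D : ℂ)).im = ((c : ℕ) : ℝ) * τ.im := by
        rw [Complex.add_im, Complex.div_natCast_im, Complex.natCast_im, Complex.mul_im,
          Complex.natCast_re, Complex.natCast_im, zero_mul, add_zero, zero_div, add_zero]
        rfl
      rw [h1]
      exact mul_pos hc0 τ.im_pos
    let τc : ℕ → ℍ := fun a ↦ ⟨((c : ℕ) : ℂ) * (τ : ℂ) + (a : ℂ) / (D : ℂ), him a⟩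
    have hτc : ∀ a, (τc a : ℂ) = ((c : ℕ) : ℂ) * (τ : ℂ) + (a : ℂ) / (D : ℂ) := fun a ↦ rfl
    have hlip : ∀ a, ∑' l : ℤ, (((τc a : ℂ) + (l : ℂ)) ^ K)⁻¹ =
        C * ∑' n : ℕ+, ((n : ℕ) : ℂ) ^ (K - 1) * ee (((n : ℕ) : ℂ) * (τc a : ℂ)) := by
      intro a
      have h1 := lipschitz K (by omega) (τc a)
      rw [ein_pnat] at h1
      exact h1
    have hFc : Summable fun d : ℤ ↦ F ((D : ℤ) * ((c : ℕ) : ℤ), d) := hF.prod_factor _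
    have hA : ∀ a : ℕ, ∑' l : ℤ, F ((D : ℤ) * ((c : ℕ) : ℤ), (D : ℤ) * l + (a : ℤ)) =
        (((c : ℕ) : ℂ) ^ i * ((D : ℂ) ^ k)⁻¹ * C) * ∑' n : ℕ+, (((n : ℕ) : ℂ) ^ (K - 1) *
          q ^ ((c : ℕ) * (n : ℕ))) * (ch D (a : ℤ) * ee ((a : ℂ) * (((n : ℕ) : ℤ) : ℂ) / (D : ℂ))) := by
      intro a
      have h1 : ∀ l : ℤ, F ((D : ℤ) * ((c : ℕ) : ℤ), (D : ℤ) * l + (a : ℤ)) =
          (ch D (a : ℤ) * ((c : ℕ) : ℂ) ^ i * ((D : ℂ) ^ k)⁻¹) * (((τc a : ℂ) + (l : ℂ)) ^ K)⁻¹ := by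
        intro l
        rw [hFe]
        dsimp only
        rw [if_pos (dvd_mul_right _ _), hchp]
        have h3 : (((D : ℤ) * ((c : ℕ) : ℤ) : ℤ) : ℂ) * (τ : ℂ) + (((D : ℤ) * l + (a : ℤ) : ℤ) : ℂ) =
            (D : ℂ) * ((τc a : ℂ) + (l : ℂ)) := by
          rw [hτc]
          push_cast
          field_simp
          ring
        rw [h3, mul_pow, mul_inv, hK, pow_add (D : ℂ) k i]
        push_cast
        rw [mul_pow]
        field_simp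
      rw [tsum_congr h1, tsum_mul_left, hlip, ← tsum_mul_left, ← tsum_mul_left, ← tsum_mul_left]
      refine tsum_congr fun n ↦ ?_
      have h2 : ee (((n : ℕ) : ℂ) * (τc a : ℂ)) = q ^ ((c : ℕ) * (n : ℕ)) *
          ee ((a : ℂ) * (((n : ℕ) : ℤ) : ℂ) / (D : ℂ)) := by
        rw [← hqp, ← ee_add, hτc]
        congr 1
        push_cast
        ring
      rw [h2]
      ring
    have hAs : ∀ a : ℕ, Summable fun n : ℕ+ ↦ (((n : ℕ) : ℂ) ^ (K - 1) *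
          q ^ ((c : ℕ) * (n : ℕ))) * (ch D (a : ℤ) * ee ((a : ℂ) * (((n : ℕ) : ℤ) : ℂ) / (D : ℂ))) := by
      intro a
      have h1 := ((lipschitz_summable (K - 1) (τc a)).comp_injective
        PNat.coe_injective).mul_left (ch D (a : ℤ))
      refine h1.congr fun n ↦ ?_
      have h2 : ee (((n : ℕ) : ℂ) * (τc a : ℂ)) = q ^ ((c : ℕ) * (n : ℕ)) *
          ee ((a : ℂ) * (((n : ℕ) : ℤ) : ℂ) / (D : ℂ)) := by
        rw [← hqp, ← ee_add, hτc]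
        congr 1
        push_cast
        ring
      change ch D (a : ℤ) * (((n : ℕ) : ℂ) ^ (K - 1) * ee (((n : ℕ) : ℂ) * (τc a : ℂ))) = _
      rw [h2]
      ring
    have hG1 : G ((D : ℤ) * ((c : ℕ) : ℤ)) =
        ∑' d : ℤ, F ((D : ℤ) * ((c : ℕ) : ℤ), d) := rfl
    rw [hG1, ein_res D hD0 _ hFc, Finset.sum_congr rfl fun a _ ↦ hA a, ← Finset.mul_sum,
      ← Summable.tsum_finsetSum fun a _ ↦ hAs a]
    have h6 : ∀ n : ℕ+, ∑ a ∈ Finset.range D, (((n : ℕ) : ℂ) ^ (K - 1) *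
          q ^ ((c : ℕ) * (n : ℕ))) * (ch D (a : ℤ) * ee ((a : ℂ) * (((n : ℕ) : ℤ) : ℂ) / (D : ℂ))) =
        gD D * (((n : ℕ) : ℂ) ^ (K - 1) * ch D ((n : ℕ) : ℤ) * q ^ ((c : ℕ) * (n : ℕ))) := by
      intro n
      rw [← Finset.mul_sum, gauss_twist D hD hD2]
      ring
    rw [tsum_congr h6, tsum_mul_left]
    have h7 : ∑' n : ℕ+, ((c : ℕ) : ℂ) ^ i * ((n : ℕ) : ℂ) ^ (k + i - 1) * 1 *
        ch D ((n : ℕ) : ℤ) * q ^ ((c : ℕ) * (n : ℕ)) = ((c : ℕ) : ℂ) ^ i *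
        ∑' n : ℕ+, ((n : ℕ) : ℂ) ^ (K - 1) * ch D ((n : ℕ) : ℤ) * q ^ ((c : ℕ) * (n : ℕ)) := by
      rw [← tsum_mul_left]
      refine tsum_congr fun n ↦ ?_
      rw [hK]
      ring
    rw [h7]
    ring
  have hdiv := ein_div k i (by omega) (fun _ ↦ 1) (fun n ↦ ch D (n : ℤ))
    (fun _ ↦ by rw [norm_one]) (fun n ↦ ein_ch D n) hqn
  have hsig : ∑' N : ℕ, (if N = 0 then 0 else
      (N : ℂ) ^ i * sig k D 1 N * ee ((N : ℂ) * (τ : ℂ))) =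
      ∑' N : ℕ+, ((N : ℕ) : ℂ) ^ i * (∑ x ∈ (N : ℕ).divisorsAntidiagonal,
        ch D (x.1 : ℤ) * 1 * (x.1 : ℂ) ^ (k - 1)) * q ^ (N : ℕ) := by
    rw [ein_pnat]
    refine tsum_congr fun N ↦ ?_
    rw [hqp]
    congr 2
    unfold sig
    rw [if_neg N.ne_zero]
    refine Finset.sum_congr rfl fun x _ ↦ ?_
    rw [jacobiSym.one_right]
    unfold ch
    push_cast
    ring
  rw [hEI, hsumG, hsumG2, hsumG3, hG0, tsum_congr hrow, tsum_mul_left, hdiv, ← hsig, ← hB, ← hL]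
  generalize (∑' N : ℕ, (if N = 0 then 0 else
      (N : ℂ) ^ i * sig k D 1 N * ee ((N : ℂ) * (τ : ℂ)))) = SS
  have hf1 : ((k - 1).factorial : ℂ) ≠ 0 := by exact_mod_cast (k - 1).factorial_ne_zero
  have hf2 : ((K - 1).factorial : ℂ) ≠ 0 := by exact_mod_cast (K - 1).factorial_ne_zero
  have hp : (-(2 * (Real.pi : ℂ) * Complex.I)) ^ K = (-(2 * (Real.pi : ℂ) * Complex.I)) ^ k *
      (-(2 * (Real.pi : ℂ) * Complex.I)) ^ i := by
    rw [hK, pow_add]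
  rw [hC, hp]
  split_ifs
  · field_simp
  · field_simp
    ring

end MP836e4b.P
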