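/-
MODULE EZe (size L), board mod836, MP_836e4b_nt, folder Work/MP_836e4b_nt/P. Keep the statements verbatim, helper lemmas private.
Expansion of EZero. F(c,d) = [D ∣ d] χ(c) c^i (cτ+d)^{-k-i}, F(gv) = χ(g) g^{-k} F(v). 2 L(k,χ) EZero = ∑ F =
2 ∑_{c≥1} χ(c) c^i ∑_l (cτ+Dl)^{-k-i} (c = 0: χ(0) = 0) = 2 ∑_c χ(c) c^i D^{-k-i} ∑_l (cτ/D+l)^{-k-i}
= 2 D^{-k-i} (-2πi)^{k+i}/(k+i-1)! ∑_c ∑_n χ(c) c^i n^{k+i-1} e(cnτ/D); N = cn: N^i χ(c) n^{k-1}: sig k 1 D N.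
const_B: D^{-k} (-2πi)^k/((k-1)! L(k,χ)) = (2/L(1-k,χ))/gD D.
-/
import Mathlib
import Pool.Agent.Work.MP_836e4b_nt.P.Defs
import Pool.Agent.Work.MP_836e4b_nt.P.Lip
import Pool.Agent.Work.MP_836e4b_nt.P.GaD
import Pool.Agent.Work.MP_836e4b_nt.P.CoB
import Pool.Agent.Work.MP_836e4b_nt.P.CopS

open UpperHalfPlane Complex
open scoped MatrixGroups ComplexConjugate Matrix

namespace MP836e4b.P

private theorem eze_ch (D : ℕ) (n : ℤ) : ‖ch D n‖ ≤ 1 := by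
  unfold ch
  rcases jacobiSym.trichotomy n D with h | h | h <;> simp [h]

private theorem eze_sum (K i : ℕ) (hK : 3 ≤ K) (τ : ℍ) (a : ℤ × ℤ → ℂ) (ha : ∀ v, ‖a v‖ ≤ 1) :
    Summable fun v : ℤ × ℤ ↦
      a v * (v.1 : ℂ) ^ i * (((v.1 : ℂ) * (τ : ℂ) + (v.2 : ℂ)) ^ (K + i))⁻¹ := by
  have h1 := EisensteinSeries.summable_norm_eisSummand (k := (K : ℤ)) (by exact_mod_cast hK) τ
  have h2 : Summable fun v : ℤ × ℤ ↦
      ‖EisensteinSeries.eisSummand (K : ℤ) ((finTwoArrowEquiv ℤ).symm v) τ‖ :=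
    (finTwoArrowEquiv ℤ).symm.summable_iff.mpr h1
  refine Summable.of_norm_bounded (h2.mul_left ((τ.im⁻¹) ^ i)) fun v ↦ ?_
  have e1 : EisensteinSeries.eisSummand (K : ℤ) ((finTwoArrowEquiv ℤ).symm v) τ =
      ((v.1 : ℂ) * (τ : ℂ) + (v.2 : ℂ)) ^ (-(K : ℤ)) := rfl
  rw [e1]
  set w : ℂ := (v.1 : ℂ) * (τ : ℂ) + (v.2 : ℂ) with hw
  have him : 0 < τ.im := τ.im_pos
  by_cases h0 : w = 0
  · rw [h0, zero_pow (by omega), inv_zero, mul_zero, norm_zero]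
    positivity
  · have hwn : 0 < ‖w‖ := norm_pos_iff.mpr h0
    have h3 : ‖(v.1 : ℂ)‖ ≤ ‖w‖ * τ.im⁻¹ := by
      have h4 : w.im = (v.1 : ℝ) * τ.im := by
        rw [hw]
        simp
      have h5 := Complex.abs_im_le_norm w
      rw [h4, abs_mul, abs_of_pos him] at h5
      rw [Complex.norm_intCast, ← div_eq_mul_inv, le_div_iff₀ him]
      exact h5
    rw [norm_mul, norm_mul, norm_inv, norm_pow, norm_pow, zpow_neg, zpow_natCast, norm_inv,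
      norm_pow]
    calc ‖a v‖ * ‖(v.1 : ℂ)‖ ^ i * (‖w‖ ^ (K + i))⁻¹
        ≤ 1 * (‖w‖ * τ.im⁻¹) ^ i * (‖w‖ ^ (K + i))⁻¹ := by
          gcongr
          exact ha v
      _ = (τ.im⁻¹) ^ i * (‖w‖ ^ K)⁻¹ := by
          rw [pow_add, mul_pow]
          field_simp

private theorem eze_pnat (f : ℕ → ℂ) :
    ∑' n : ℕ, (if n = 0 then 0 else f n) = ∑' n : ℕ+, f n := by
  rw [← PNat.coe_injective.tsum_eq (f := fun n : ℕ ↦ if n = 0 then 0 else f n)]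
  · exact tsum_congr fun n ↦ if_neg n.ne_zero
  · intro n hn
    rw [Function.mem_support] at hn
    have h0 : n ≠ 0 := by
      rintro rfl
      exact hn (if_pos rfl)
    exact ⟨⟨n, Nat.pos_of_ne_zero h0⟩, rfl⟩

private theorem eze_mult (D : ℕ) (hD : D ≠ 0) (f : ℤ → ℂ) :
    ∑' d : ℤ, (if (D : ℤ) ∣ d then f d else 0) = ∑' l : ℤ, f ((D : ℤ) * l) := by
  have hinj : Function.Injective fun l : ℤ ↦ (D : ℤ) * l := by
    intro l l' h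
    exact mul_left_cancel₀ (by exact_mod_cast hD) h
  rw [← hinj.tsum_eq (f := fun d : ℤ ↦ if (D : ℤ) ∣ d then f d else 0)]
  · exact tsum_congr fun l ↦ if_pos (dvd_mul_right _ _)
  · intro d hd
    rw [Function.mem_support] at hd
    by_cases h : (D : ℤ) ∣ d
    · obtain ⟨l, rfl⟩ := h
      exact ⟨l, rfl⟩
    · exact absurd (if_neg h) hd

private theorem eze_geo (K : ℕ) {s : ℝ} (h0 : 0 ≤ s) (h1 : s < 1) :
    Summable fun n : ℕ+ ↦ ((n : ℕ) : ℝ) ^ K * s ^ (n : ℕ) := by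
  have h := summable_pow_mul_geometric_of_norm_lt_one K (r := s)
    (by rw [Real.norm_eq_abs, abs_of_nonneg h0]; exact h1)
  exact h.comp_injective PNat.coe_injective

private theorem eze_div (k i : ℕ) (hk : 1 ≤ k) (a b : ℕ → ℂ) (ha : ∀ n, ‖a n‖ ≤ 1)
    (hb : ∀ n, ‖b n‖ ≤ 1) {q : ℂ} (hq : ‖q‖ < 1) :
    ∑' c : ℕ+, ∑' n : ℕ+, ((c : ℕ) : ℂ) ^ i * ((n : ℕ) : ℂ) ^ (k + i - 1) * a c * b n *
      q ^ ((c : ℕ) * (n : ℕ)) = ∑' N : ℕ+, ((N : ℕ) : ℂ) ^ i *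
        (∑ x ∈ (N : ℕ).divisorsAntidiagonal, b x.1 * a x.2 * (x.1 : ℂ) ^ (k - 1)) *
          q ^ (N : ℕ) := by
  set s : ℝ := Real.sqrt ‖q‖ with hs
  have s0 : 0 ≤ s := Real.sqrt_nonneg _
  have s1 : s < 1 := by
    rw [hs, Real.sqrt_lt' one_pos, one_pow]
    exact hq
  have hqs : ‖q‖ = s ^ 2 := (Real.sq_sqrt (norm_nonneg _)).symm
  let h : ℕ × ℕ → ℂ := fun x ↦ (x.2 : ℂ) ^ i * (x.1 : ℂ) ^ (k + i - 1) * a x.2 * b x.1 *
    q ^ (x.1 * x.2)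
  have hsum : Summable fun x : ℕ+ × ℕ+ ↦ h ((x.1 : ℕ), (x.2 : ℕ)) := by
    have g1 := eze_geo (k + i - 1) s0 s1
    have g2 := eze_geo i s0 s1
    have g3 := g1.mul_of_nonneg g2 (fun n ↦ by positivity) (fun n ↦ by positivity)
    refine Summable.of_norm_bounded g3 fun x ↦ ?_
    have p1 : 1 ≤ (x.1 : ℕ) := x.1.pos
    have p2 : 1 ≤ (x.2 : ℕ) := x.2.pos
    have hle : (x.1 : ℕ) + (x.2 : ℕ) ≤ 2 * ((x.1 : ℕ) * (x.2 : ℕ)) := by nlinarith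
    have hpow : ‖q‖ ^ ((x.1 : ℕ) * (x.2 : ℕ)) ≤ s ^ (x.1 : ℕ) * s ^ (x.2 : ℕ) := by
      rw [hqs, ← pow_mul, ← pow_add]
      exact pow_le_pow_of_le_one s0 s1.le hle
    change ‖((x.2 : ℕ) : ℂ) ^ i * ((x.1 : ℕ) : ℂ) ^ (k + i - 1) * a x.2 * b x.1 *
      q ^ ((x.1 : ℕ) * (x.2 : ℕ))‖ ≤ ((x.1 : ℕ) : ℝ) ^ (k + i - 1) * s ^ (x.1 : ℕ) *
        (((x.2 : ℕ) : ℝ) ^ i * s ^ (x.2 : ℕ))
    rw [norm_mul, norm_mul, norm_mul, norm_mul, norm_pow, norm_pow, norm_pow,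
      Complex.norm_natCast, Complex.norm_natCast]
    calc ((x.2 : ℕ) : ℝ) ^ i * ((x.1 : ℕ) : ℝ) ^ (k + i - 1) * ‖a x.2‖ * ‖b x.1‖ *
          ‖q‖ ^ ((x.1 : ℕ) * (x.2 : ℕ))
        ≤ ((x.2 : ℕ) : ℝ) ^ i * ((x.1 : ℕ) : ℝ) ^ (k + i - 1) * 1 * 1 *
          (s ^ (x.1 : ℕ) * s ^ (x.2 : ℕ)) := by
          gcongr
          · exact ha _
          · exact hb _
      _ = _ := by ring
  have hsw : Summable fun x : ℕ+ × ℕ+ ↦ h ((x.2 : ℕ), (x.1 : ℕ)) :=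
    (Equiv.prodComm ℕ+ ℕ+).summable_iff.mpr hsum
  have e1 : ∑' c : ℕ+, ∑' n : ℕ+, ((c : ℕ) : ℂ) ^ i * ((n : ℕ) : ℂ) ^ (k + i - 1) * a c * b n *
      q ^ ((c : ℕ) * (n : ℕ)) = ∑' x : ℕ+ × ℕ+, h ((x.2 : ℕ), (x.1 : ℕ)) := by
    rw [hsw.tsum_prod]
    refine tsum_congr fun c ↦ tsum_congr fun n ↦ ?_
    change _ = ((c : ℕ) : ℂ) ^ i * ((n : ℕ) : ℂ) ^ (k + i - 1) * a c * b n *
      q ^ ((n : ℕ) * (c : ℕ))
    rw [mul_comm (n : ℕ) (c : ℕ)]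
  have e2 : ∑' x : ℕ+ × ℕ+, h ((x.2 : ℕ), (x.1 : ℕ)) =
      ∑' x : ℕ+ × ℕ+, h ((x.1 : ℕ), (x.2 : ℕ)) :=
    (Equiv.prodComm ℕ+ ℕ+).tsum_eq fun x : ℕ+ × ℕ+ ↦ h ((x.1 : ℕ), (x.2 : ℕ))
  have hss : Summable fun y : (n : ℕ+) × Nat.divisorsAntidiagonal n ↦ h y.2.1 :=
    sigmaAntidiagonalEquivProd.summable_iff.mpr hsum
  have e3 : ∑' x : ℕ+ × ℕ+, h ((x.1 : ℕ), (x.2 : ℕ)) =
      ∑' y : (n : ℕ+) × Nat.divisorsAntidiagonal n, h y.2.1 :=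
    (sigmaAntidiagonalEquivProd.tsum_eq fun x : ℕ+ × ℕ+ ↦ h ((x.1 : ℕ), (x.2 : ℕ))).symm
  rw [e1, e2, e3, hss.tsum_sigma]
  refine tsum_congr fun N ↦ ?_
  have e4 : ∑' x : Nat.divisorsAntidiagonal N, h x.1 =
      ∑ x ∈ (N : ℕ).divisorsAntidiagonal, h x := Finset.tsum_subtype _ h
  rw [e4, Finset.mul_sum, Finset.sum_mul]
  refine Finset.sum_congr rfl fun x hx ↦ ?_
  have hx' : x.1 * x.2 = (N : ℕ) := (Nat.mem_divisorsAntidiagonal.mp hx).1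
  change (x.2 : ℂ) ^ i * (x.1 : ℂ) ^ (k + i - 1) * a x.2 * b x.1 * q ^ (x.1 * x.2) = _
  rw [hx', ← hx', show k + i - 1 = i + (k - 1) by omega, pow_add]
  push_cast
  ring

private theorem eze_even (G : ℤ → ℂ) (hG : ∀ n, G (-n) = G n) (hs : Summable G) :
    ∑' n : ℤ, G n = G 0 + 2 * ∑' n : ℕ+, G ((n : ℕ) : ℤ) := by
  have h := tsum_int_eq_zero_add_two_mul_tsum_pnat (f := G) (fun n ↦ hG n) hs
  rw [h, nsmul_eq_mul, Nat.cast_ofNat]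

private theorem eze_L (D k : ℕ) (hD : D.Prime) (hD2 : D ≠ 2) (hk : 3 ≤ k)
    (hpar : jacobiSym (-1) D = (-1) ^ k) : Lval D (k : ℂ) ≠ 0 := by
  obtain ⟨h1, h2⟩ := const_B D k hD hD2 hk hpar
  intro h0
  rw [h0, mul_zero, div_zero] at h2
  exact div_ne_zero two_ne_zero h1 h2.symm

private theorem eze_gD (D : ℕ) (hD : D.Prime) : gD D ≠ 0 := by
  have h1 : ((Real.sqrt D : ℝ) : ℂ) ≠ 0 := by
    rw [Complex.ofReal_ne_zero]
    exact (Real.sqrt_pos.mpr (by exact_mod_cast hD.pos)).ne'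
  unfold gD
  split_ifs
  · exact h1
  · exact mul_ne_zero Complex.I_ne_zero h1

theorem EZero_eq (D k i : ℕ) (hD : D.Prime) (hD2 : D ≠ 2) (hk : 3 ≤ k)
    (hpar : jacobiSym (-1) D = (-1) ^ k) (τ : ℍ) :
    EZero D k i τ = 2 / Lval D (1 - (k : ℂ)) * (gD D)⁻¹ * ((D : ℂ) ^ i)⁻¹ *
      ((-(2 * (Real.pi : ℂ) * Complex.I)) ^ i *
        (((k - 1).factorial : ℂ) / ((k + i - 1).factorial : ℂ))) *
      ∑' N : ℕ, if N = 0 then 0 else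
        (N : ℂ) ^ i * sig k 1 D N * ee ((N : ℂ) * (τ : ℂ) / (D : ℂ)) := by
  classical
  have hD0 : D ≠ 0 := hD.ne_zero
  have : NeZero D := ⟨hD0⟩
  have hDc : (D : ℂ) ≠ 0 := by exact_mod_cast hD0
  set K : ℕ := k + i with hK
  set L : ℂ := Lval D (k : ℂ) with hL
  have hL0 : L ≠ 0 := eze_L D k hD hD2 hk hpar
  have hg0 : gD D ≠ 0 := eze_gD D hD
  obtain ⟨hB0, hB⟩ := const_B D k hD hD2 hk hpar
  have hmul : ∀ m n : ℤ, ch D (m * n) = ch D m * ch D n := by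
    intro m n
    unfold ch
    rw [jacobiSym.mul_left]
    push_cast
    ring
  have hch0 : ∀ n : ℤ, (D : ℤ) ∣ n → ch D n = 0 := by
    intro n hn
    unfold ch
    have h1 : jacobiSym n D = 0 := by
      rw [jacobiSym.eq_zero_iff_not_coprime]
      intro h2
      have h3 : (D : ℤ) ∣ (Int.gcd n D : ℤ) := Int.dvd_coe_gcd hn (dvd_refl _)
      rw [h2] at h3
      have h4 : D ∣ 1 := by exact_mod_cast h3
      exact hD.one_lt.ne' (Nat.dvd_one.mp h4)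
    rw [h1, Int.cast_zero]
  let F : ℤ × ℤ → ℂ := fun v ↦ if (D : ℤ) ∣ v.2 then
    ch D v.1 * (v.1 : ℂ) ^ i * (((v.1 : ℂ) * (τ : ℂ) + (v.2 : ℂ)) ^ K)⁻¹ else 0
  have hFe : ∀ v : ℤ × ℤ, F v = (if (D : ℤ) ∣ v.2 then ch D v.1 else 0) * (v.1 : ℂ) ^ i *
      (((v.1 : ℂ) * (τ : ℂ) + (v.2 : ℂ)) ^ K)⁻¹ := by
    intro v
    change (if (D : ℤ) ∣ v.2 then _ else (0 : ℂ)) = _
    split_ifs
    · rfl
    · rw [zero_mul, zero_mul]
  have hF : Summable F := by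
    have h1 := eze_sum k i hk τ (fun v ↦ if (D : ℤ) ∣ v.2 then ch D v.1 else 0) (by
      intro v
      by_cases h2 : (D : ℤ) ∣ v.2
      · rw [if_pos h2]
        exact eze_ch D _
      · rw [if_neg h2, norm_zero]
        exact zero_le_one)
    exact h1.congr fun v ↦ (hFe v).symm
  have hF0 : F 0 = 0 := by
    rw [hFe]
    have h1 : ch D (0 : ℤ × ℤ).1 = 0 := hch0 _ (dvd_zero _)
    rw [h1, ite_self, zero_mul, zero_mul]
  have hhom : ∀ (g : ℕ) (v : ℤ × ℤ), 0 < g →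
      F ((g : ℤ) * v.1, (g : ℤ) * v.2) = (ch D g * ((g : ℂ) ^ k)⁻¹) * F v := by
    intro g v hg
    have hgc : (g : ℂ) ≠ 0 := by exact_mod_cast hg.ne'
    rw [hFe, hFe]
    dsimp only
    by_cases hDg : (D : ℤ) ∣ (g : ℤ)
    · have h1 : ch D ((g : ℤ) * v.1) = 0 := hch0 _ (hDg.mul_right _)
      have h2 : ch D (g : ℤ) = 0 := hch0 _ hDg
      rw [h1, h2, ite_self]
      ring
    · have h3 : (D : ℤ) ∣ (g : ℤ) * v.2 ↔ (D : ℤ) ∣ v.2 :=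
        ⟨fun h ↦ ((Nat.prime_iff_prime_int.mp hD).dvd_or_dvd h).resolve_left hDg,
          fun h ↦ h.mul_left _⟩
      by_cases h4 : (D : ℤ) ∣ v.2
      · rw [if_pos (h3.mpr h4), if_pos h4, hmul]
        have h5 : (((g : ℤ) * v.1 : ℤ) : ℂ) * (τ : ℂ) + (((g : ℤ) * v.2 : ℤ) : ℂ) =
            (g : ℂ) * ((v.1 : ℂ) * (τ : ℂ) + (v.2 : ℂ)) := by
          push_cast
          ring
        rw [h5, mul_pow, mul_inv, hK, pow_add (g : ℂ) k i]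
        push_cast
        rw [mul_pow]
        field_simp
      · rw [if_neg (fun h ↦ h4 (h3.mp h)), if_neg h4]
        ring
  have hcop := sum_coprime F (fun g ↦ ch D g * ((g : ℂ) ^ k)⁻¹) hF hF0 hhom
  rw [← Lval_tsum D k hD hk, ← hL] at hcop
  have hEZ : EZero D k i τ = (1 / 2) * (L⁻¹ * ∑' v, F v) := by
    rw [hcop, inv_mul_cancel_left₀ hL0]
    unfold EZero
    congr 1
    refine tsum_congr fun v ↦ ?_
    by_cases h1 : IsCoprime v.1 v.2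
    · by_cases h2 : (D : ℤ) ∣ v.2
      · rw [if_pos ⟨h1, h2⟩, if_pos h1]
        change _ = (if (D : ℤ) ∣ v.2 then _ else (0 : ℂ))
        rw [if_pos h2]
      · rw [if_neg (fun h ↦ h2 h.2), if_pos h1]
        change _ = (if (D : ℤ) ∣ v.2 then _ else (0 : ℂ))
        rw [if_neg h2]
    · rw [if_neg (fun h ↦ h1 h.1), if_neg h1]
  -- the rows
  set G : ℤ → ℂ := fun c ↦ ∑' d : ℤ, F (c, d) with hG
  have hGs : Summable G := hF.prod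
  have hsumG : ∑' v, F v = ∑' c : ℤ, G c := hF.tsum_prod
  have hneg1 : ch D (-1) = (-1) ^ k := by
    unfold ch
    rw [hpar]
    push_cast
    ring
  have hGe : ∀ c, G (-c) = G c := by
    intro c
    rw [hG]
    dsimp only
    rw [← (Equiv.neg ℤ).tsum_eq (fun d : ℤ ↦ F (-c, d))]
    refine tsum_congr fun d ↦ ?_
    rw [hFe, hFe]
    change (if (D : ℤ) ∣ -d then ch D (-c) else 0) * ((-c : ℤ) : ℂ) ^ i *
      ((((-c : ℤ) : ℂ) * (τ : ℂ) + ((-d : ℤ) : ℂ)) ^ K)⁻¹ = (if (D : ℤ) ∣ d then ch D c else 0) *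
        (c : ℂ) ^ i * (((c : ℂ) * (τ : ℂ) + (d : ℂ)) ^ K)⁻¹
    have h1 : ch D (-c) = (-1) ^ k * ch D c := by
      rw [← hneg1, ← hmul, neg_one_mul]
    have h2 : ((-c : ℤ) : ℂ) * (τ : ℂ) + ((-d : ℤ) : ℂ) =
        (-1) * ((c : ℂ) * (τ : ℂ) + (d : ℂ)) := by
      push_cast
      ring
    have h3 : ((-c : ℤ) : ℂ) = (-1) * (c : ℂ) := by
      push_cast
      ring
    rw [h1, h2, h3, mul_pow, mul_pow, mul_inv, hK, pow_add (-1 : ℂ) k i]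
    simp only [dvd_neg]
    have h4 : ((-1 : ℂ) ^ k) * ((-1 : ℂ) ^ k) = 1 := by
      rw [← mul_pow]
      norm_num
    have h5 : ((-1 : ℂ) ^ i) * ((-1 : ℂ) ^ i) = 1 := by
      rw [← mul_pow]
      norm_num
    have h6 : (((-1 : ℂ) ^ k * (-1 : ℂ) ^ i))⁻¹ = (-1 : ℂ) ^ k * (-1 : ℂ) ^ i := by
      apply inv_eq_of_mul_eq_one_right
      linear_combination h4 * ((-1 : ℂ) ^ i * (-1 : ℂ) ^ i) + h5
    rw [h6]
    split_ifs
    · linear_combination (ch D c * (c : ℂ) ^ i * (((c : ℂ) * (τ : ℂ) + (d : ℂ)) ^ (k + i))⁻¹) *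
        (h4 * ((-1 : ℂ) ^ i * (-1 : ℂ) ^ i) + h5)
    · ring
  have hG0 : G 0 = 0 := by
    rw [hG]
    dsimp only
    have h1 : ∀ d : ℤ, F (0, d) = 0 := by
      intro d
      rw [hFe]
      have h2 : ch D (0 : ℤ) = 0 := hch0 _ (dvd_zero _)
      dsimp only
      rw [h2, ite_self, zero_mul, zero_mul]
    rw [tsum_congr h1, tsum_zero]
  set q : ℂ := ee ((τ : ℂ) / (D : ℂ)) with hq
  have hqn : ‖q‖ < 1 := by
    rw [hq, norm_ee, Real.exp_lt_one_iff]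
    have h1 : ((τ : ℂ) / (D : ℂ)).im = τ.im / D := by
      rw [Complex.div_natCast_im]
      rfl
    rw [h1]
    have h2 : 0 < τ.im / D := div_pos τ.im_pos (by exact_mod_cast hD.pos)
    have h3 := Real.pi_pos
    nlinarith
  have hqp : ∀ m : ℕ, ee ((m : ℂ) * ((τ : ℂ) / (D : ℂ))) = q ^ m := by
    intro m
    rw [hq]
    unfold ee
    rw [← Complex.exp_nat_mul]
    congr 1
    ring
  have hrow : ∀ c : ℕ+, G ((c : ℕ) : ℤ) = ((D : ℂ) ^ K)⁻¹ *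
      ((-(2 * (Real.pi : ℂ) * Complex.I)) ^ K / ((K - 1).factorial : ℂ)) *
        ∑' n : ℕ+, ((c : ℕ) : ℂ) ^ i * ((n : ℕ) : ℂ) ^ (k + i - 1) * ch D ((c : ℕ) : ℤ) * 1 *
          q ^ ((c : ℕ) * (n : ℕ)) := by
    intro c
    have hc0 : (0 : ℝ) < ((c : ℕ) : ℝ) := by exact_mod_cast c.pos
    have hDr : (0 : ℝ) < (D : ℝ) := by exact_mod_cast hD.pos
    have him : 0 < (((c : ℕ) : ℂ) * ((τ : ℂ) / (D : ℂ))).im := by
      have h1 : (((c : ℕ) : ℂ) * ((τ : ℂ) / (D : ℂ))).im = ((c : ℕ) : ℝ) * (τ.im / D) := by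
        rw [Complex.mul_im, Complex.natCast_re, Complex.natCast_im, zero_mul, add_zero,
          Complex.div_natCast_im]
        rfl
      rw [h1]
      exact mul_pos hc0 (div_pos τ.im_pos hDr)
    let τc : ℍ := ⟨((c : ℕ) : ℂ) * ((τ : ℂ) / (D : ℂ)), him⟩
    have hτc : (τc : ℂ) = ((c : ℕ) : ℂ) * ((τ : ℂ) / (D : ℂ)) := rfl
    have hlip := lipschitz K (by omega) τc
    rw [eze_pnat] at hlip
    rw [hG]
    dsimp only
    have h1 : ∑' d : ℤ, F (((c : ℕ) : ℤ), d) = ∑' l : ℤ, (ch D ((c : ℕ) : ℤ) *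
        ((c : ℕ) : ℂ) ^ i * ((D : ℂ) ^ K)⁻¹) * (((τc : ℂ) + (l : ℂ)) ^ K)⁻¹ := by
      have h2 : ∑' d : ℤ, F (((c : ℕ) : ℤ), d) = ∑' l : ℤ, ch D ((c : ℕ) : ℤ) *
          (((c : ℕ) : ℤ) : ℂ) ^ i *
            (((((c : ℕ) : ℤ) : ℂ) * (τ : ℂ) + (((D : ℤ) * l : ℤ) : ℂ)) ^ K)⁻¹ :=
        eze_mult D hD0 (fun d : ℤ ↦ ch D ((c : ℕ) : ℤ) * (((c : ℕ) : ℤ) : ℂ) ^ i *
          (((((c : ℕ) : ℤ) : ℂ) * (τ : ℂ) + (d : ℂ)) ^ K)⁻¹)
      rw [h2]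
      refine tsum_congr fun l ↦ ?_
      have h3 : (((c : ℕ) : ℤ) : ℂ) * (τ : ℂ) + (((D : ℤ) * l : ℤ) : ℂ) =
          (D : ℂ) * ((τc : ℂ) + (l : ℂ)) := by
        rw [hτc]
        push_cast
        field_simp
      rw [h3, mul_pow, mul_inv]
      push_cast
      ring
    rw [h1, tsum_mul_left, hlip]
    have h4 : ∑' n : ℕ+, ((n : ℕ) : ℂ) ^ (K - 1) * ee (((n : ℕ) : ℂ) * (τc : ℂ)) =
        ∑' n : ℕ+, ((n : ℕ) : ℂ) ^ (K - 1) * q ^ ((c : ℕ) * (n : ℕ)) := by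
      refine tsum_congr fun n ↦ ?_
      rw [← hqp, hτc]
      congr 2
      push_cast
      ring
    have h5 : ∑' n : ℕ+, ((c : ℕ) : ℂ) ^ i * ((n : ℕ) : ℂ) ^ (k + i - 1) *
        ch D ((c : ℕ) : ℤ) * 1 * q ^ ((c : ℕ) * (n : ℕ)) = ((c : ℕ) : ℂ) ^ i *
        ch D ((c : ℕ) : ℤ) * ∑' n : ℕ+, ((n : ℕ) : ℂ) ^ (K - 1) * q ^ ((c : ℕ) * (n : ℕ)) := by
      rw [← tsum_mul_left]
      refine tsum_congr fun n ↦ ?_
      rw [hK]
      ring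
    rw [h4, h5]
    ring
  have hdiv := eze_div k i (by omega) (fun n ↦ ch D (n : ℤ)) (fun _ ↦ 1)
    (fun n ↦ eze_ch D n) (fun _ ↦ by rw [norm_one]) hqn
  have hsig : ∑' N : ℕ, (if N = 0 then 0 else
      (N : ℂ) ^ i * sig k 1 D N * ee ((N : ℂ) * (τ : ℂ) / (D : ℂ))) =
      ∑' N : ℕ+, ((N : ℕ) : ℂ) ^ i * (∑ x ∈ (N : ℕ).divisorsAntidiagonal,
        1 * ch D (x.2 : ℤ) * (x.1 : ℂ) ^ (k - 1)) * q ^ (N : ℕ) := by
    rw [eze_pnat]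
    refine tsum_congr fun N ↦ ?_
    rw [mul_div_assoc, hqp]
    congr 2
    unfold sig
    rw [if_neg N.ne_zero]
    refine Finset.sum_congr rfl fun x _ ↦ ?_
    rw [jacobiSym.one_right]
    unfold ch
    push_cast
    ring
  have hgoal : ∑' v, F v = 2 * (((D : ℂ) ^ K)⁻¹ *
      ((-(2 * (Real.pi : ℂ) * Complex.I)) ^ K / ((K - 1).factorial : ℂ)) *
        ∑' N : ℕ, (if N = 0 then 0 else
          (N : ℂ) ^ i * sig k 1 D N * ee ((N : ℂ) * (τ : ℂ) / (D : ℂ)))) := by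
    rw [hsumG, eze_even G hGe hGs, hG0, zero_add, tsum_congr hrow, tsum_mul_left, hsig,
      ← hdiv]
  rw [hEZ, hgoal, ← hB, ← hL]
  generalize (∑' N : ℕ, (if N = 0 then 0 else
          (N : ℂ) ^ i * sig k 1 D N * ee ((N : ℂ) * (τ : ℂ) / (D : ℂ)))) = SS
  have hf1 : ((k - 1).factorial : ℂ) ≠ 0 := by exact_mod_cast (k - 1).factorial_ne_zero
  have hf2 : ((K - 1).factorial : ℂ) ≠ 0 := by exact_mod_cast (K - 1).factorial_ne_zero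
  rw [show k + i - 1 = K - 1 from rfl, hK, pow_add, pow_add]
  rw [← hK]
  field_simp

end MP836e4b.P
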