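/-
MODULE LwC (size M), board mod836, MP_836e4b_nt, folder Work/MP_836e4b_nt/P. Keep the statements verbatim, helper lemmas private.
The law in general. L^j = (1,0;Dj,1): eps(L) = 1 (eps_prime with l = 1, a = 1), so eps(L^j) = 1 for all integers j
(eps_mul, eps_one). γL^j = (a+Dbj, b; D(c+dj), d). d ≠ 0 (else D divides 1). Dirichlet
(Nat.forall_exists_prime_gt_and_eq_mod or similar; modulus |d|, residue c, gcd(c,d) = 1): a prime l > max(D,2) with
l = c + dj. Then eps(γ) = eps(γL^j) = ch D (a + Dbj) = ch D a = ch D d (ad = 1 mod D). Conclude with eps_spec.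
-/
import Mathlib
import Pool.Agent.Work.MP_836e4b_nt.P.Defs
import Pool.Agent.Work.MP_836e4b_nt.P.LwB

open UpperHalfPlane Complex
open scoped MatrixGroups ComplexConjugate Matrix

namespace MP836e4b.P

private theorem eps_L (D κ : ℕ) (hD : D.Prime) (hD4 : D % 4 = cls κ 1) (j : ℤ) :
    eps D κ 1 0 j 1 = 1 := by
  have h1 : eps D κ 1 0 1 1 = 1 := by
    have := eps_prime D κ hD hD4 1 0 1 1 (Or.inl rfl) (by norm_num)
    rw [Nat.cast_one] at this
    rw [this, ch, jacobiSym.one_left]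
    simp
  have h2 : ∀ i : ℤ, eps D κ 1 0 (i + 1) 1 = eps D κ 1 0 i 1 := by
    intro i
    have := eps_mul D κ hD.pos hD4 1 0 i 1 1 0 1 1 (by ring) (by ring)
    rw [h1] at this
    have h3 := this.trans (mul_one _)
    rw [← h3]
    congr 1 <;> ring
  induction j using Int.induction_on with
  | zero => exact eps_one D κ hD.pos hD4
  | succ n ih => rw [h2, ih]
  | pred n ih =>
    rw [← ih, ← h2]
    congr 1
    ring

private theorem eps_mul_L (D κ : ℕ) (hD : D.Prime) (hD4 : D % 4 = cls κ 1) (a b c d j : ℤ)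
    (h : a * d - (D : ℤ) * b * c = 1) :
    eps D κ (a + (D : ℤ) * b * j) b (c + d * j) d = eps D κ a b c d := by
  have := eps_mul D κ hD.pos hD4 a b c d 1 0 j 1 h (by ring)
  rw [eps_L D κ hD hD4] at this
  have h3 := this.trans (mul_one _)
  rw [← h3]
  congr 1 <;> ring

private theorem eps_eq (D κ : ℕ) (hD : D.Prime) (hD4 : D % 4 = cls κ 1) (a b c d : ℤ)
    (h : a * d - (D : ℤ) * b * c = 1) : eps D κ a b c d = ch D d := by
  have hD1 : 1 < (D : ℤ) := by exact_mod_cast hD.one_lt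
  have hd : d ≠ 0 := by
    rintro rfl
    have hdv : (D : ℤ) ∣ 1 := ⟨-(b * c), by linarith⟩
    have := Int.le_of_dvd one_pos hdv
    omega
  have hcop : IsCoprime c ((d.natAbs : ℕ) : ℤ) := by
    have h1 : IsCoprime c d := ⟨-((D : ℤ) * b), a, by linarith⟩
    rw [Int.isCoprime_iff_gcd_eq_one] at h1 ⊢
    rw [← h1, Int.gcd, Int.gcd, Int.natAbs_natCast]
  obtain ⟨l, hl, hlp, hmod⟩ := Nat.forall_exists_prime_gt_and_zmodEq (max D 2)
    (Int.natAbs_ne_zero.mpr hd) hcop
  have hdv : d ∣ (l : ℤ) - c := by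
    have := hmod.symm.dvd
    rwa [Int.natAbs_dvd] at this
  obtain ⟨j, hj⟩ := hdv
  have hlc : c + d * j = (l : ℤ) := by linarith
  have hl2 : l ≠ 2 := by
    have := le_max_right D 2
    omega
  have hlD : l ≠ D := by
    have := le_max_left D 2
    omega
  rw [← eps_mul_L D κ hD hD4 a b c d j h, hlc,
    eps_prime D κ hD hD4 (a + (D : ℤ) * b * j) b d l (Or.inr ⟨hlp, hl2, hlD⟩)
      (by rw [← hlc]; linear_combination h)]
  have h1 : jacobiSym (a + (D : ℤ) * b * j) D = jacobiSym a D := by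
    apply jacobiSym.mod_left'
    rw [mul_assoc, Int.add_mul_emod_self_left]
  have h2 : jacobiSym a D * jacobiSym d D = 1 := by
    rw [← jacobiSym.mul_left, ← jacobiSym.one_left D]
    apply jacobiSym.mod_left'
    have : a * d = 1 + (D : ℤ) * (b * c) := by linarith
    rw [this, Int.add_mul_emod_self_left]
  rw [ch, ch, h1]
  congr 1
  rcases jacobiSym.trichotomy a D with h3 | h3 | h3 <;>
    rcases jacobiSym.trichotomy d D with h4 | h4 | h4 <;> rw [h3, h4] at h2 ⊢ <;>
    first | rfl | omega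

theorem law_main (D κ : ℕ) (hD : D.Prime) (hD4 : D % 4 = cls κ 1) (a b c d : ℤ)
    (h : a * d - (D : ℤ) * b * c = 1) (τ : ℍ) :
    E κ 1 !![a, b; (D : ℤ) * c, d] τ * M 1 !![a, (D : ℤ) * b; c, d] (mob !![(D : ℤ), 0; 0, 1] τ) =
      ch D d • (1 : Matrix (Fin 2) (Fin 2) ℂ) := by
  rw [eps_spec D κ hD.pos hD4 a b c d h τ, eps_eq D κ hD hD4 a b c d h]

end MP836e4b.P
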