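import Mathlib
import Pool.Agent.Work.MP_836e4b_nt.P.Defs
import Pool.Agent.Work.MP_836e4b_nt.P.LwC

open UpperHalfPlane Complex
open scoped MatrixGroups ComplexConjugate Matrix

namespace MP836e4b.P

/-- The law of the theta vector under `Γ₀(D)`: for `γ = (a,b;Dc,d)` and `γ' = (a,Db;c,d)`. -/
theorem law (D κ : ℕ) (hD : D.Prime) (hD4 : D % 4 = cls κ 1) (a b c d : ℤ)
    (h : a * d - (D : ℤ) * b * c = 1) (τ : ℍ) :
    E κ 1 !![a, b; (D : ℤ) * c, d] τ * M 1 !![a, (D : ℤ) * b; c, d] (mob !![(D : ℤ), 0; 0, 1] τ) =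
      ch D d • (1 : Matrix (Fin 2) (Fin 2) ℂ) :=
  law_main D κ hD hD4 a b c d h τ

end MP836e4b.P
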