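/-
MODULE PA1 (size M), board mod836, MP_836e4b_nt, folder Work/MP_836e4b_nt/P. Keep the statements verbatim, helper lemmas private.
The term of the Poincare series for D ∣ c. γ = gam c d = (a,b;Dc',d). D·(γτ) = γ'(Dτ) with γ' = (a,Db;c',d) in
SL(2,Z), jf γ' (Dτ) = c τ + d = jf γ τ = j. ph D e τ = ph 1 e (Dτ) (mob !![D,0;0,1] τ). ph_mob for γ' at Dτ:
ph D e (γτ) r = ∑_i cf e i c'^i j^(e-i) ∑_s M 1 γ' (Dτ) r s ph D (e-2i) τ s. Multiply by j^(-κ) E κ 1 γ τ and use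
law: E * M' = ch D d • 1; j^(-κ+e-i) = j^(-k-i).
-/
import Mathlib
import Pool.Agent.Work.MP_836e4b_nt.P.Defs
import Pool.Agent.Work.MP_836e4b_nt.P.GenF
import Pool.Agent.Work.MP_836e4b_nt.P.Law
import Pool.Agent.Work.MP_836e4b_nt.P.SlG

open UpperHalfPlane Complex
open scoped MatrixGroups ComplexConjugate Matrix

namespace MP836e4b.P

private theorem pa1_det_D (D : ℕ) (hD : 0 < D) : 0 < (!![(D : ℤ), 0; 0, 1] : Mat).det := by
  rw [Matrix.det_fin_two_of, mul_zero, sub_zero, mul_one]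
  exact_mod_cast hD

private theorem pa1_ph (D l : ℕ) (hD : 0 < D) (τ : ℍ) (s : Fin 2) :
    ph D l τ s = ph 1 l (mob !![(D : ℤ), 0; 0, 1] τ) s := by
  have hj : jf !![(D : ℤ), 0; 0, 1] τ = 1 := by simp [jf]
  have hm : ((mob !![(D : ℤ), 0; 0, 1] τ : ℍ) : ℂ) = (D : ℂ) * (τ : ℂ) := by
    rw [coe_mob _ (pa1_det_D D hD) τ, hj]
    simp
  unfold ph
  refine tsum_congr fun m ↦ ?_
  rw [hm]
  congr 2
  push_cast
  ring

theorem sl_gam_inf (D κ k e : ℕ) (hD : D.Prime) (hD4 : D % 4 = cls κ 1) (hκ : κ = k + e)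
    (c d : ℤ) (hcd : IsCoprime c d) (hc : (D : ℤ) ∣ c) (τ : ℍ) (r : Fin 2) :
    sl κ 1 (gam c d : Mat) (ph D e) τ r = ∑ i ∈ Finset.range (e / 2 + 1),
      cf e i * ((D : ℂ) ^ i)⁻¹ *
        (ch D d * (c : ℂ) ^ i * (((c : ℂ) * (τ : ℂ) + (d : ℂ)) ^ (k + i))⁻¹) *
        ph D (e - 2 * i) τ r := by
  obtain ⟨c', rfl⟩ := hc
  obtain ⟨h10, h11⟩ := gam_spec ((D : ℤ) * c') d hcd
  set γ : SL(2, ℤ) := gam ((D : ℤ) * c') d with hγ
  have hDpos : 0 < D := hD.pos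
  have hD0 : (D : ℂ) ≠ 0 := by exact_mod_cast hDpos.ne'
  -- entries
  set a : ℤ := (γ : Mat) 0 0 with ha
  set b : ℤ := (γ : Mat) 0 1 with hb
  have hmat : (γ : Mat) = !![a, b; (D : ℤ) * c', d] := by
    ext i j
    fin_cases i <;> fin_cases j
    · rfl
    · rfl
    · exact h10
    · exact h11
  have hdet : a * d - (D : ℤ) * b * c' = 1 := by
    have h := γ.det_coe
    rw [hmat, Matrix.det_fin_two_of] at h
    linarith
  have hγdet : 0 < (γ : Mat).det := by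
    rw [γ.det_coe]
    exact one_pos
  let γ' : SL(2, ℤ) := ⟨!![a, (D : ℤ) * b; c', d], by
    rw [Matrix.det_fin_two_of]
    linarith⟩
  have hγ' : (γ' : Mat) = !![a, (D : ℤ) * b; c', d] := rfl
  have hγ'det : 0 < (γ' : Mat).det := by
    rw [γ'.det_coe]
    exact one_pos
  have hDdet := pa1_det_D D hDpos
  have hcomm : !![(D : ℤ), 0; 0, 1] * (γ : Mat) = (γ' : Mat) * !![(D : ℤ), 0; 0, 1] := by
    rw [hmat, hγ', Matrix.mul_fin_two, Matrix.mul_fin_two]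
    ext i j
    fin_cases i <;> fin_cases j <;> simp <;> ring
  have hjD : ∀ τ : ℍ, jf !![(D : ℤ), 0; 0, 1] τ = 1 := by
    intro τ
    simp [jf]
  have hmob : mob !![(D : ℤ), 0; 0, 1] (mob (γ : Mat) τ) =
      mob (γ' : Mat) (mob !![(D : ℤ), 0; 0, 1] τ) := by
    rw [← mob_mul _ _ hDdet hγdet, hcomm, mob_mul _ _ hγ'det hDdet]
  have hjf : jf (γ' : Mat) (mob !![(D : ℤ), 0; 0, 1] τ) = jf (γ : Mat) τ := by
    have h1 := jf_mul (γ' : Mat) !![(D : ℤ), 0; 0, 1] hγ'det hDdet τ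
    have h2 := jf_mul !![(D : ℤ), 0; 0, 1] (γ : Mat) hDdet hγdet τ
    rw [hjD, mul_one] at h1
    rw [hjD, one_mul] at h2
    rw [← h1, ← hcomm, h2]
  have hj : jf (γ : Mat) τ = (((D : ℤ) * c' : ℤ) : ℂ) * (τ : ℂ) + (d : ℂ) := by
    unfold jf
    rw [h10, h11]
  have hj0 : jf (γ : Mat) τ ≠ 0 := jf_ne_zero _ hγdet.ne' τ
  have hlaw := law D κ hD hD4 a b c' d hdet τ
  rw [← hmat, ← hγ'] at hlaw
  -- the entries of the law
  have hlaw' : ∀ s t : Fin 2, ∑ u : Fin 2, E κ 1 (γ : Mat) τ s u *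
      M 1 (γ' : Mat) (mob !![(D : ℤ), 0; 0, 1] τ) u t = ch D d * (1 : Matrix (Fin 2) (Fin 2) ℂ) s t := by
    intro s t
    have h := congrFun (congrFun hlaw s) t
    rw [Matrix.mul_apply, Matrix.smul_apply, smul_eq_mul] at h
    exact h
  -- expand
  have h1 : sl κ 1 (γ : Mat) (ph D e) τ r = ((jf (γ : Mat) τ) ^ κ)⁻¹ *
      ∑ s : Fin 2, E κ 1 (γ : Mat) τ r s * ph D e (mob (γ : Mat) τ) s := rfl
  have h2 : ∀ s : Fin 2, ph D e (mob (γ : Mat) τ) s = ∑ i ∈ Finset.range (e / 2 + 1),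
      cf e i * (c' : ℂ) ^ i * (jf (γ : Mat) τ) ^ (e - i) *
        ∑ t : Fin 2, M 1 (γ' : Mat) (mob !![(D : ℤ), 0; 0, 1] τ) s t * ph D (e - 2 * i) τ t := by
    intro s
    rw [pa1_ph D e hDpos, hmob, ph_mob γ' e, hjf]
    refine Finset.sum_congr rfl fun i _ ↦ ?_
    have h3 : (γ' : Mat) 1 0 = c' := rfl
    rw [h3]
    congr 1
    refine Finset.sum_congr rfl fun t _ ↦ ?_
    rw [pa1_ph D (e - 2 * i) hDpos]
  have h4 : ∑ s : Fin 2, E κ 1 (γ : Mat) τ r s * ph D e (mob (γ : Mat) τ) s =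
      ∑ i ∈ Finset.range (e / 2 + 1), cf e i * (c' : ℂ) ^ i * (jf (γ : Mat) τ) ^ (e - i) *
        (ch D d * ph D (e - 2 * i) τ r) := by
    calc ∑ s : Fin 2, E κ 1 (γ : Mat) τ r s * ph D e (mob (γ : Mat) τ) s
        = ∑ s : Fin 2, ∑ i ∈ Finset.range (e / 2 + 1), ∑ t : Fin 2,
          cf e i * (c' : ℂ) ^ i * (jf (γ : Mat) τ) ^ (e - i) *
            ((E κ 1 (γ : Mat) τ r s * M 1 (γ' : Mat) (mob !![(D : ℤ), 0; 0, 1] τ) s t) *
              ph D (e - 2 * i) τ t) := by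
          refine Finset.sum_congr rfl fun s _ ↦ ?_
          rw [h2, Finset.mul_sum]
          refine Finset.sum_congr rfl fun i _ ↦ ?_
          rw [Finset.mul_sum, Finset.mul_sum]
          refine Finset.sum_congr rfl fun t _ ↦ ?_
          ring
      _ = ∑ i ∈ Finset.range (e / 2 + 1), ∑ t : Fin 2, ∑ s : Fin 2,
          cf e i * (c' : ℂ) ^ i * (jf (γ : Mat) τ) ^ (e - i) *
            ((E κ 1 (γ : Mat) τ r s * M 1 (γ' : Mat) (mob !![(D : ℤ), 0; 0, 1] τ) s t) *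
              ph D (e - 2 * i) τ t) := by
          rw [Finset.sum_comm]
          refine Finset.sum_congr rfl fun i _ ↦ ?_
          rw [Finset.sum_comm]
      _ = _ := by
          refine Finset.sum_congr rfl fun i _ ↦ ?_
          have h5 : ∀ t : Fin 2, ∑ s : Fin 2, cf e i * (c' : ℂ) ^ i *
              (jf (γ : Mat) τ) ^ (e - i) *
              ((E κ 1 (γ : Mat) τ r s * M 1 (γ' : Mat) (mob !![(D : ℤ), 0; 0, 1] τ) s t) *
                ph D (e - 2 * i) τ t) = cf e i * (c' : ℂ) ^ i * (jf (γ : Mat) τ) ^ (e - i) *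
              (ch D d * (1 : Matrix (Fin 2) (Fin 2) ℂ) r t * ph D (e - 2 * i) τ t) := by
            intro t
            rw [← hlaw' r t, Finset.sum_mul, Finset.mul_sum]
          rw [Finset.sum_congr rfl fun t _ ↦ h5 t, ← Finset.mul_sum]
          congr 1
          have h6 : ∀ t : Fin 2, ch D d * (1 : Matrix (Fin 2) (Fin 2) ℂ) r t *
              ph D (e - 2 * i) τ t = if r = t then ch D d * ph D (e - 2 * i) τ t else 0 := by
            intro t
            rw [Matrix.one_apply]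
            split_ifs <;> ring
          rw [Finset.sum_congr rfl fun t _ ↦ h6 t, Finset.sum_ite_eq, if_pos (Finset.mem_univ r)]
  rw [h1, h4, Finset.mul_sum]
  refine Finset.sum_congr rfl fun i hi ↦ ?_
  have hi' : i ≤ e := by
    have := Finset.mem_range.mp hi
    omega
  have hpow : jf (γ : Mat) τ ^ κ = jf (γ : Mat) τ ^ (k + i) * jf (γ : Mat) τ ^ (e - i) := by
    rw [← pow_add, hκ]
    congr 1
    omega
  rw [hpow, ← hj]
  push_cast
  rw [mul_pow]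
  field_simp

end MP836e4b.P
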