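/-
MODULE LwS (size M), board mod836, MP_836e4b_nt, folder Work/MP_836e4b_nt/P. Keep the statements verbatim, helper lemmas private.
The remaining constant: E κ 1 S τ * M 1 S (τ/D) = (dl D/√D) 1 when D % 4 = cls κ 1 (κ even: D = 1 mod 4, κ odd: 3).
M 1 S τ = (τ/2i)^(1/2) (1,1;1,-1), (1,1;1,-1)² = 2. κ odd: E = Mᵀ/τ: product = (τ/2i)^(1/2) (τ/(2iD))^(1/2) 2/τ =
(1/(i√D)). κ even: conj((τ/2i)^(1/2)) (τ/(2iD))^(1/2) 2/|τ| = 1/√D. (x^(1/2) with positive real part,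
(τ/(2iD))^(1/2) = (τ/2i)^(1/2)/√D.) And E κ 1 T^β τ = diag(1, tw κ 1 β).
-/
import Mathlib
import Pool.Agent.Work.MP_836e4b_nt.P.Defs
import Pool.Agent.Work.MP_836e4b_nt.P.MA1
import Pool.Agent.Work.MP_836e4b_nt.P.MA2

open UpperHalfPlane Complex
open scoped MatrixGroups ComplexConjugate Matrix

namespace MP836e4b.P

private theorem lws_jS (τ : ℍ) : jf mS τ = (τ : ℂ) := by simp [jf, mS]

private theorem lws_jT (b : ℤ) (τ : ℍ) : jf (mT b) τ = 1 := by simp [jf, mT]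

private theorem lws_mob (D : ℕ) (hD : 0 < D) (τ : ℍ) :
    ((mob !![1, 0; 0, (D : ℤ)] τ : ℍ) : ℂ) = (τ : ℂ) / (D : ℂ) := by
  have hdet : 0 < (!![1, 0; 0, (D : ℤ)] : Mat).det := by
    rw [Matrix.det_fin_two]
    simpa using hD
  rw [coe_mob _ hdet]
  simp [jf]

private theorem lws_H : (!![1, 1; 1, -1] : Matrix (Fin 2) (Fin 2) ℂ) * !![1, 1; 1, -1] =
    (2 : ℂ) • (1 : Matrix (Fin 2) (Fin 2) ℂ) := by
  ext i j
  fin_cases i <;> fin_cases j <;> norm_num [Matrix.mul_apply, Fin.sum_univ_two]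

private theorem lws_HH : (!![1, 1; 1, -1] : Matrix (Fin 2) (Fin 2) ℂ)ᴴ = !![1, 1; 1, -1] := by
  ext i j
  fin_cases i <;> fin_cases j <;> simp [Matrix.conjTranspose_apply]

private theorem lws_HT : (!![1, 1; 1, -1] : Matrix (Fin 2) (Fin 2) ℂ)ᵀ = !![1, 1; 1, -1] := by
  ext i j
  fin_cases i <;> fin_cases j <;> simp [Matrix.transpose_apply]

private theorem lws_sqrt (D : ℕ) (hD : 0 < D) (w : ℂ) (hw : w ≠ 0) :
    (w / (D : ℂ)) ^ (1 / 2 : ℂ) = w ^ (1 / 2 : ℂ) / ((Real.sqrt D : ℝ) : ℂ) := by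
  have hDr : (0 : ℝ) < D := by exact_mod_cast hD
  have hi : (0 : ℝ) < (D : ℝ)⁻¹ := inv_pos.mpr hDr
  have e1 : w / (D : ℂ) = (((D : ℝ)⁻¹ : ℝ) : ℂ) * w := by
    push_cast
    rw [div_eq_mul_inv, mul_comm]
  have hne : (((D : ℝ)⁻¹ : ℝ) : ℂ) * w ≠ 0 :=
    mul_ne_zero (by exact_mod_cast hi.ne') hw
  rw [e1, Complex.cpow_def_of_ne_zero hne, Complex.cpow_def_of_ne_zero hw,
    Complex.log_ofReal_mul hi hw, add_mul, Complex.exp_add]
  have e2 : Complex.exp ((Real.log ((D : ℝ)⁻¹) : ℂ) * (1 / 2)) =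
      (((Real.sqrt D)⁻¹ : ℝ) : ℂ) := by
    have e3 : ((Real.log ((D : ℝ)⁻¹) : ℝ) : ℂ) * (1 / 2) =
        ((Real.log ((D : ℝ)⁻¹) * (1 / 2) : ℝ) : ℂ) := by push_cast; ring
    rw [e3, ← Complex.ofReal_exp, Real.exp_mul, Real.exp_log hi, Real.inv_rpow hDr.le,
      ← Real.sqrt_eq_rpow]
  rw [e2, Complex.ofReal_inv]
  ring

private theorem lws_sq (w : ℂ) : w ^ (1 / 2 : ℂ) * w ^ (1 / 2 : ℂ) = w := by
  have h := Complex.cpow_nat_inv_pow w (n := 2) two_ne_zero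
  rw [pow_two] at h
  simpa using h

private theorem lws_cc (w : ℂ) : conj (w ^ (1 / 2 : ℂ)) * w ^ (1 / 2 : ℂ) = ((‖w‖ : ℝ) : ℂ) := by
  have h := lws_sq w
  rw [mul_comm, Complex.mul_conj, Complex.normSq_eq_norm_sq, pow_two, ← norm_mul, h]

private theorem lws_ee_conj (x : ℝ) : conj (ee (x : ℂ)) = ee (-(x : ℂ)) := by
  unfold ee
  rw [← Complex.exp_conj]
  congr 1
  have h2 : conj (2 : ℂ) = 2 := Complex.conj_ofNat 2
  simp only [map_mul, Complex.conj_ofReal, Complex.conj_I, h2]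
  ring

theorem E_S_M_S (D κ : ℕ) (hD : 0 < D) (hD4 : D % 4 = cls κ 1) (τ : ℍ) :
    E κ 1 mS τ * M 1 mS (mob !![1, 0; 0, (D : ℤ)] τ) =
      (dl D / ((Real.sqrt D : ℝ) : ℂ)) • (1 : Matrix (Fin 2) (Fin 2) ℂ) := by
  have hτ : (τ : ℂ) ≠ 0 := τ.ne_zero
  have h2 : (2 * Complex.I : ℂ) ≠ 0 := mul_ne_zero two_ne_zero Complex.I_ne_zero
  have hw : (τ : ℂ) / (2 * Complex.I) ≠ 0 := div_ne_zero hτ h2
  have hDr : (0 : ℝ) < Real.sqrt D := Real.sqrt_pos.mpr (by exact_mod_cast hD)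
  have hDc : ((Real.sqrt D : ℝ) : ℂ) ≠ 0 := by exact_mod_cast hDr.ne'
  have eM : M 1 mS (mob !![1, 0; 0, (D : ℤ)] τ) =
      (((τ : ℂ) / (2 * Complex.I)) ^ (1 / 2 : ℂ) / ((Real.sqrt D : ℝ) : ℂ)) •
        !![1, 1; 1, -1] := by
    rw [M_S, lws_mob D hD τ]
    have e1 : (τ : ℂ) / (D : ℂ) / (2 * Complex.I) = (τ : ℂ) / (2 * Complex.I) / (D : ℂ) := by
      rw [div_right_comm]
    rw [e1, lws_sqrt D hD _ hw]
  rw [eM]
  unfold E
  rw [lws_jS]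
  by_cases hκ : Even κ
  · rw [if_pos hκ, M_S, Matrix.conjTranspose_smul, lws_HH, smul_mul_assoc, smul_mul_assoc,
      mul_smul_comm, lws_H, smul_smul, smul_smul, smul_smul]
    have hd : dl D = 1 := by
      have h3 : D % 4 = 1 := by
        rw [hD4]
        unfold cls
        rw [if_neg (by decide), if_pos hκ]
      unfold dl
      rw [if_pos h3]
    rw [hd]
    congr 1
    have h4 : ((‖(τ : ℂ)‖ : ℝ) : ℂ) ≠ 0 := by
      exact_mod_cast (norm_pos_iff.mpr hτ).ne'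
    have h5 : (star (((τ : ℂ) / (2 * Complex.I)) ^ (1 / 2 : ℂ))) *
        ((τ : ℂ) / (2 * Complex.I)) ^ (1 / 2 : ℂ) = ((‖(τ : ℂ)‖ : ℝ) : ℂ) / 2 := by
      have h6 := lws_cc ((τ : ℂ) / (2 * Complex.I))
      rw [norm_div] at h6
      have h7 : ‖(2 * Complex.I : ℂ)‖ = 2 := by simp
      rw [h7] at h6
      push_cast at h6
      exact h6
    have h8 : ((‖(τ : ℂ)‖ : ℝ) : ℂ)⁻¹ * (star (((τ : ℂ) / (2 * Complex.I)) ^ (1 / 2 : ℂ)) *
        (((τ : ℂ) / (2 * Complex.I)) ^ (1 / 2 : ℂ) / ((Real.sqrt D : ℝ) : ℂ) * 2)) =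
        ((‖(τ : ℂ)‖ : ℝ) : ℂ)⁻¹ * (star (((τ : ℂ) / (2 * Complex.I)) ^ (1 / 2 : ℂ)) *
        ((τ : ℂ) / (2 * Complex.I)) ^ (1 / 2 : ℂ)) * 2 / ((Real.sqrt D : ℝ) : ℂ) := by
      ring
    calc _ = ((‖(τ : ℂ)‖ : ℝ) : ℂ)⁻¹ * (star (((τ : ℂ) / (2 * Complex.I)) ^ (1 / 2 : ℂ)) *
          (((τ : ℂ) / (2 * Complex.I)) ^ (1 / 2 : ℂ) / ((Real.sqrt D : ℝ) : ℂ) * 2)) := by ring
      _ = _ := by
        rw [h8, h5]
        field_simp
  · rw [if_neg hκ, M_S, Matrix.transpose_smul, lws_HT, smul_mul_assoc, smul_mul_assoc,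
      mul_smul_comm, lws_H, smul_smul, smul_smul, smul_smul]
    have hd : dl D = -Complex.I := by
      have h3 : D % 4 = 3 := by
        rw [hD4]
        unfold cls
        rw [if_neg (by decide), if_neg hκ]
      unfold dl
      rw [if_neg (by omega)]
    rw [hd]
    congr 1
    have h8 : (τ : ℂ)⁻¹ * (((τ : ℂ) / (2 * Complex.I)) ^ (1 / 2 : ℂ) *
        (((τ : ℂ) / (2 * Complex.I)) ^ (1 / 2 : ℂ) / ((Real.sqrt D : ℝ) : ℂ) * 2)) =
        (τ : ℂ)⁻¹ * (((τ : ℂ) / (2 * Complex.I)) ^ (1 / 2 : ℂ) *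
        ((τ : ℂ) / (2 * Complex.I)) ^ (1 / 2 : ℂ)) * 2 / ((Real.sqrt D : ℝ) : ℂ) := by
      ring
    have hI : Complex.I ≠ 0 := Complex.I_ne_zero
    have h9 : (τ : ℂ)⁻¹ * ((τ : ℂ) / (2 * Complex.I)) * 2 = -Complex.I := by
      field_simp
      simp
    calc _ = (τ : ℂ)⁻¹ * (((τ : ℂ) / (2 * Complex.I)) ^ (1 / 2 : ℂ) *
        (((τ : ℂ) / (2 * Complex.I)) ^ (1 / 2 : ℂ) / ((Real.sqrt D : ℝ) : ℂ) * 2)) := by ring
      _ = _ := by rw [h8, lws_sq, h9]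

theorem E_Tb (κ : ℕ) (β : ℤ) (τ : ℍ) : E κ 1 (mT β) τ = Matrix.diagonal fun r ↦ tw κ r β := by
  unfold E
  rw [lws_jT, M_T]
  have h0 : ee 0 = 1 := by simp [ee]
  have hc : conj (ee ((β : ℂ) / 4)) = ee (-((β : ℂ) / 4)) := by
    have h := lws_ee_conj ((β : ℝ) / 4)
    push_cast at h
    exact h
  by_cases hκ : Even κ
  · rw [if_pos hκ]
    ext i j
    fin_cases i <;> fin_cases j
    · simp [tw, hκ, h0, Matrix.conjTranspose_apply]
    · simp [tw, hκ, h0, Matrix.conjTranspose_apply]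
    · simp [tw, hκ, h0, Matrix.conjTranspose_apply]
    · have h1 : tw κ 1 β = ee (-((β : ℂ) / 4)) := by
        unfold tw
        have h3 : (((1 : Fin 2) : ℕ) : ℂ) = 1 := by norm_num
        rw [if_pos hκ, h3]
        congr 1
        ring
      simp [h1, Matrix.conjTranspose_apply, hc]
  · rw [if_neg hκ]
    ext i j
    fin_cases i <;> fin_cases j
    · simp [tw, hκ, h0, Matrix.transpose_apply]
    · simp [tw, hκ, h0, Matrix.transpose_apply]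
    · simp [tw, hκ, h0, Matrix.transpose_apply]
    · have h1 : tw κ 1 β = ee ((β : ℂ) / 4) := by
        unfold tw
        have h3 : (((1 : Fin 2) : ℕ) : ℂ) = 1 := by norm_num
        rw [if_neg hκ, h3]
        congr 1
        ring
      simp [h1, Matrix.transpose_apply]

end MP836e4b.P
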