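/-
MODULE PA2 (size M-L), board mod836, MP_836e4b_nt, folder Work/MP_836e4b_nt/P. Keep the statements verbatim, helper lemmas private.
The term for D not dividing c. γ = gam c d = (a,b;c,d), β with d = βc mod D. (D,0;0,1) γ = γ'' (1,β;0,D) with
γ'' = (Da, b-aβ; c, (d-cβ)/D) in SL(2,Z); so D(γτ) = γ''(τ''), τ'' = (τ+β)/D, jf γ'' τ'' = j/D, j = cτ+d.
ph_mob for γ'' at τ'': ph D e (γτ) = ∑_i cf e i c^i (j/D)^(e-i) M 1 γ'' τ'' ph 1 (e-2i) τ''.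
Matrix: γ T^(-β) S⁻¹ = γ_0 = (a0,b0;Dc0,d0) with d0 = c, i.e. γ = γ_0 S T^β, (b0 = a, a0 = aβ - b, d0 = c, Dc0 = cβ - d);
γ'' = γ_0' S with γ_0' = (a0,Db0;c0,d0). So
E κ 1 γ τ * M 1 γ'' τ'' = E κ 1 T^β τ * E κ 1 S (τ+β) * [E κ 1 γ_0 (S(τ+β)) * M 1 γ_0' (D·S(τ+β))] * M 1 S τ''
 = ch D c • E κ 1 T^β τ * (dl D/√D)  (law for γ_0, E_S_M_S at τ+β; D·S(τ+β) = -D/(τ+β) = S τ'').
E_mul and M_mul. Diagonal entry r of E κ 1 T^β is tw κ r β.
-/
import Mathlib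
import Pool.Agent.Work.MP_836e4b_nt.P.Defs
import Pool.Agent.Work.MP_836e4b_nt.P.GenF
import Pool.Agent.Work.MP_836e4b_nt.P.Law
import Pool.Agent.Work.MP_836e4b_nt.P.SlG
import Pool.Agent.Work.MP_836e4b_nt.P.LwS
import Pool.Agent.Work.MP_836e4b_nt.P.MA4

open UpperHalfPlane Complex
open scoped MatrixGroups ComplexConjugate Matrix

namespace MP836e4b.P

private theorem pa_E_mul (κ : ℕ) (A B : Mat) (hA : A.det = 1) (hB : B.det = 1) (τ : ℍ) :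
    E κ 1 (A * B) τ = E κ 1 B τ * E κ 1 A (mob B τ) :=
  E_mul κ ⟨A, hA⟩ ⟨B, hB⟩ τ

private theorem pa_M_mul (A B : Mat) (hA : A.det = 1) (hB : B.det = 1) (τ : ℍ) :
    M 1 (A * B) τ = M 1 A (mob B τ) * M 1 B τ :=
  M_mul ⟨A, hA⟩ ⟨B, hB⟩ τ

private theorem pa_ph (D e : ℕ) (hD : 0 < D) (τ : ℍ) (r : Fin 2) :
    ph D e τ r = ph 1 e (mob !![(D : ℤ), 0; 0, 1] τ) r := by
  have hdet : 0 < (!![(D : ℤ), 0; 0, 1] : Mat).det := by
    rw [Matrix.det_fin_two]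
    simp [hD]
  unfold ph
  refine tsum_congr fun m => ?_
  rw [coe_mob _ hdet]
  congr 2
  simp [jf]
  ring

private theorem pa_key (D κ : ℕ) (hD : D.Prime) (hD4 : D % 4 = cls κ 1) (a b c d d' : ℤ)
    (hdet : a * d - b * c = 1) (β : ℕ) (hd' : d - (β : ℤ) * c = (D : ℤ) * d') (τ : ℍ) :
    E κ 1 !![a, b; c, d] τ * M 1 !![(D : ℤ) * a, b - a * β; c, d'] (mob !![1, (β : ℤ); 0, (D : ℤ)] τ) =
      (ch D c * (dl D / ((Real.sqrt D : ℝ) : ℂ))) •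
        Matrix.diagonal fun r ↦ tw κ r β := by
  have hD0 : (0 : ℤ) < (D : ℤ) := by exact_mod_cast hD.pos
  have hSd : (mS : Mat).det = 1 := by rw [Matrix.det_fin_two]; simp [mS]
  have hTd : (mT (β : ℤ) : Mat).det = 1 := by rw [Matrix.det_fin_two]; simp [mT]
  have hST : (mS * mT (β : ℤ) : Mat).det = 1 := by rw [Matrix.det_mul, hSd, hTd, one_mul]
  have h0 : (a * β - b) * c - (D : ℤ) * a * (-d') = 1 := by
    linear_combination hdet - a * hd'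
  have hg0 : (!![a * β - b, a; (D : ℤ) * (-d'), c] : Mat).det = 1 := by
    rw [Matrix.det_fin_two]
    simp
    linear_combination h0
  have hg0' : (!![a * β - b, (D : ℤ) * a; -d', c] : Mat).det = 1 := by
    rw [Matrix.det_fin_two]
    simp
    linear_combination h0
  have e1 : (!![a, b; c, d] : Mat) = !![a * β - b, a; (D : ℤ) * (-d'), c] * (mS * mT (β : ℤ)) := by
    ext i j
    fin_cases i <;> fin_cases j
    · simp [mS, mT, Matrix.mul_apply, Fin.sum_univ_two]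
    · simp [mS, mT, Matrix.mul_apply, Fin.sum_univ_two]
    · simp [mS, mT, Matrix.mul_apply, Fin.sum_univ_two]
    · simp [mS, mT, Matrix.mul_apply, Fin.sum_univ_two]
      linear_combination hd'
  have e2 : (!![(D : ℤ) * a, b - a * β; c, d'] : Mat) =
      !![a * β - b, (D : ℤ) * a; -d', c] * mS := by
    ext i j
    fin_cases i <;> fin_cases j <;> simp [mS, Matrix.mul_apply, Fin.sum_univ_two]
  have hB0 : 0 < (!![1, 0; 0, (D : ℤ)] : Mat).det := by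
    rw [Matrix.det_fin_two]
    simp [hD.pos]
  have hC0 : 0 < (!![(D : ℤ), 0; 0, 1] : Mat).det := by
    rw [Matrix.det_fin_two]
    simp [hD.pos]
  have m1 : mob !![1, (β : ℤ); 0, (D : ℤ)] τ = mob !![1, 0; 0, (D : ℤ)] (mob (mT (β : ℤ)) τ) := by
    rw [← mob_mul _ _ hB0 (by rw [hTd]; exact one_pos)]
    congr 1
    ext i j
    fin_cases i <;> fin_cases j <;> simp [mT, Matrix.mul_apply, Fin.sum_univ_two]
  have m2 : mob mS (mob !![1, 0; 0, (D : ℤ)] (mob (mT (β : ℤ)) τ)) =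
      mob !![(D : ℤ), 0; 0, 1] (mob (mS * mT (β : ℤ)) τ) := by
    rw [mob_mul mS (mT (β : ℤ)) (by rw [hSd]; exact one_pos) (by rw [hTd]; exact one_pos),
      ← mob_mul _ _ (by rw [hSd]; exact one_pos) hB0,
      ← mob_mul _ mS hC0 (by rw [hSd]; exact one_pos)]
    congr 1
    ext i j
    fin_cases i <;> fin_cases j <;> simp [mS, Matrix.mul_apply, Fin.sum_univ_two]
  have hl := law D κ hD hD4 (a * β - b) a (-d') c h0 (mob (mS * mT (β : ℤ)) τ)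
  have hs := E_S_M_S D κ hD.pos hD4 (mob (mT (β : ℤ)) τ)
  rw [e1, e2, pa_E_mul κ _ _ hg0 hST, pa_E_mul κ _ _ hSd hTd, pa_M_mul _ _ hg0' hSd, m1, m2]
  calc E κ 1 (mT (β : ℤ)) τ * E κ 1 mS (mob (mT (β : ℤ)) τ) *
        E κ 1 !![a * β - b, a; (D : ℤ) * (-d'), c] (mob (mS * mT (β : ℤ)) τ) *
        (M 1 !![a * β - b, (D : ℤ) * a; -d', c] (mob !![(D : ℤ), 0; 0, 1] (mob (mS * mT (β : ℤ)) τ)) *
        M 1 mS (mob !![1, 0; 0, (D : ℤ)] (mob (mT (β : ℤ)) τ)))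
      = E κ 1 (mT (β : ℤ)) τ * (E κ 1 mS (mob (mT (β : ℤ)) τ) *
        (E κ 1 !![a * β - b, a; (D : ℤ) * (-d'), c] (mob (mS * mT (β : ℤ)) τ) *
        M 1 !![a * β - b, (D : ℤ) * a; -d', c]
          (mob !![(D : ℤ), 0; 0, 1] (mob (mS * mT (β : ℤ)) τ))) *
        M 1 mS (mob !![1, 0; 0, (D : ℤ)] (mob (mT (β : ℤ)) τ))) := by
          simp only [Matrix.mul_assoc]
    _ = ch D c • (E κ 1 (mT (β : ℤ)) τ * (E κ 1 mS (mob (mT (β : ℤ)) τ) *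
        M 1 mS (mob !![1, 0; 0, (D : ℤ)] (mob (mT (β : ℤ)) τ)))) := by
          rw [hl, Matrix.mul_smul, Matrix.mul_one, Matrix.smul_mul, Matrix.mul_smul]
    _ = _ := by
          rw [hs, Matrix.mul_smul, Matrix.mul_one, smul_smul, E_Tb]

theorem sl_gam_zero (D κ k e : ℕ) (hD : D.Prime) (hD4 : D % 4 = cls κ 1) (hκ : κ = k + e)
    (c d : ℤ) (hcd : IsCoprime c d) (hc : ¬ (D : ℤ) ∣ c) (β : ℕ) (hβ : (D : ℤ) ∣ d - (β : ℤ) * c)
    (τ : ℍ) (r : Fin 2) :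
    sl κ 1 (gam c d : Mat) (ph D e) τ r = ∑ i ∈ Finset.range (e / 2 + 1),
      cf e i * ((D : ℂ) ^ (e - i))⁻¹ * (dl D / ((Real.sqrt D : ℝ) : ℂ)) * tw κ r β *
        (ch D c * (c : ℂ) ^ i * (((c : ℂ) * (τ : ℂ) + (d : ℂ)) ^ (k + i))⁻¹) *
        ph 1 (e - 2 * i) (mob !![1, (β : ℤ); 0, (D : ℤ)] τ) r := by
  have hD0 : (0 : ℤ) < (D : ℤ) := by exact_mod_cast hD.pos
  have hDc : (D : ℂ) ≠ 0 := by exact_mod_cast hD.ne_zero
  obtain ⟨d', hd'⟩ := hβ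
  obtain ⟨g0, g1⟩ := gam_spec c d hcd
  have hdetg : (gam c d : Mat).det = 1 := (gam c d).det_coe
  obtain ⟨a, b, hA⟩ : ∃ a b : ℤ, (gam c d : Mat) = !![a, b; c, d] := by
    refine ⟨(gam c d : Mat) 0 0, (gam c d : Mat) 0 1, ?_⟩
    ext i j
    fin_cases i <;> fin_cases j
    · simp
    · simp
    · simpa using g0
    · simpa using g1
  rw [hA] at hdetg ⊢
  have hdet : a * d - b * c = 1 := by
    rw [Matrix.det_fin_two] at hdetg
    simpa using hdetg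
  have hgdet : (!![(D : ℤ) * a, b - a * β; c, d'] : Mat).det = 1 := by
    rw [Matrix.det_fin_two]
    simp
    linear_combination hdet - a * hd'
  have hBdet : 0 < (!![1, (β : ℤ); 0, (D : ℤ)] : Mat).det := by
    rw [Matrix.det_fin_two]
    simp [hD.pos]
  have hCdet : 0 < (!![(D : ℤ), 0; 0, 1] : Mat).det := by
    rw [Matrix.det_fin_two]
    simp [hD.pos]
  have hj : jf (!![a, b; c, d] : Mat) τ = (c : ℂ) * (τ : ℂ) + (d : ℂ) := by
    simp [jf]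
  have hj0 : jf (!![a, b; c, d] : Mat) τ ≠ 0 :=
    jf_ne_zero _ (by rw [hdetg]; exact one_ne_zero) τ
  rw [hj] at hj0
  have hm : mob !![(D : ℤ) * a, b - a * β; c, d'] (mob !![1, (β : ℤ); 0, (D : ℤ)] τ) =
      mob !![(D : ℤ), 0; 0, 1] (mob !![a, b; c, d] τ) := by
    rw [← mob_mul _ _ (by rw [hgdet]; exact one_pos) hBdet,
      ← mob_mul _ _ hCdet (by rw [hdetg]; exact one_pos)]
    congr 1
    ext i j
    fin_cases i <;> fin_cases j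
    · simp [Matrix.mul_apply, Fin.sum_univ_two]
    · simp [Matrix.mul_apply, Fin.sum_univ_two]
      ring
    · simp [Matrix.mul_apply, Fin.sum_univ_two]
    · simp [Matrix.mul_apply, Fin.sum_univ_two]
      linear_combination -hd'
  have hj2 : jf (!![(D : ℤ) * a, b - a * β; c, d'] : Mat) (mob !![1, (β : ℤ); 0, (D : ℤ)] τ) =
      ((c : ℂ) * (τ : ℂ) + (d : ℂ)) / (D : ℂ) := by
    rw [eq_div_iff hDc]
    have h1 := jf_mul (!![(D : ℤ) * a, b - a * β; c, d'] : Mat) !![1, (β : ℤ); 0, (D : ℤ)]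
      (by rw [hgdet]; exact one_pos) hBdet τ
    have h2 : jf (!![1, (β : ℤ); 0, (D : ℤ)] : Mat) τ = (D : ℂ) := by simp [jf]
    rw [h2] at h1
    rw [← h1]
    have hdc : (d : ℂ) - (β : ℂ) * (c : ℂ) = (D : ℂ) * (d' : ℂ) := by exact_mod_cast hd'
    unfold jf
    simp [Matrix.mul_apply, Fin.sum_univ_two]
    linear_combination -hdc
  have hkey := pa_key D κ hD hD4 a b c d d' hdet β hd' τ
  set τ₂ := mob !![1, (β : ℤ); 0, (D : ℤ)] τ with hτ₂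
  have hph : ∀ r : Fin 2, ph D e (mob !![a, b; c, d] τ) r = ∑ i ∈ Finset.range (e / 2 + 1),
      cf e i * (c : ℂ) ^ i * (((c : ℂ) * (τ : ℂ) + (d : ℂ)) / (D : ℂ)) ^ (e - i) *
        ∑ s : Fin 2, M 1 !![(D : ℤ) * a, b - a * β; c, d'] τ₂ r s * ph 1 (e - 2 * i) τ₂ s := by
    intro r
    rw [pa_ph D e hD.pos, ← hm]
    have h := ph_mob ⟨!![(D : ℤ) * a, b - a * β; c, d'], hgdet⟩ e τ₂ r
    have h' : ph 1 e (mob !![(D : ℤ) * a, b - a * β; c, d'] τ₂) r =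
      ∑ i ∈ Finset.range (e / 2 + 1),
      cf e i * (((!![(D : ℤ) * a, b - a * β; c, d'] : Mat) 1 0 : ℤ) : ℂ) ^ i *
        (jf (!![(D : ℤ) * a, b - a * β; c, d'] : Mat) τ₂) ^ (e - i) *
        ∑ s : Fin 2, M 1 !![(D : ℤ) * a, b - a * β; c, d'] τ₂ r s * ph 1 (e - 2 * i) τ₂ s := h
    rw [hj2] at h'
    exact h'
  have hvec : ph D e (mob !![a, b; c, d] τ) = ∑ i ∈ Finset.range (e / 2 + 1),
      (cf e i * (c : ℂ) ^ i * (((c : ℂ) * (τ : ℂ) + (d : ℂ)) / (D : ℂ)) ^ (e - i)) •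
        (M 1 !![(D : ℤ) * a, b - a * β; c, d'] τ₂ *ᵥ ph 1 (e - 2 * i) τ₂) := by
    funext r
    rw [hph r, Finset.sum_apply]
    refine Finset.sum_congr rfl fun i _ => ?_
    rw [Pi.smul_apply, smul_eq_mul]
    rfl
  unfold sl
  rw [hvec, Matrix.mulVec_sum, hj, Finset.smul_sum, Finset.sum_apply]
  refine Finset.sum_congr rfl fun i hi => ?_
  have hie : i ≤ e := by
    have := Finset.mem_range.mp hi
    omega
  rw [Matrix.mulVec_smul, Matrix.mulVec_mulVec, hkey, Matrix.smul_mulVec, Pi.smul_apply,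
    Pi.smul_apply, Pi.smul_apply, Matrix.mulVec_diagonal, smul_eq_mul, smul_eq_mul, smul_eq_mul]
  have hpow : ((c : ℂ) * (τ : ℂ) + (d : ℂ)) ^ κ =
      ((c : ℂ) * (τ : ℂ) + (d : ℂ)) ^ (k + i) * ((c : ℂ) * (τ : ℂ) + (d : ℂ)) ^ (e - i) := by
    rw [← pow_add]
    congr 1
    omega
  rw [hpow, div_pow]
  have hn1 : ((c : ℂ) * (τ : ℂ) + (d : ℂ)) ^ (k + i) ≠ 0 := pow_ne_zero _ hj0
  have hn2 : ((c : ℂ) * (τ : ℂ) + (d : ℂ)) ^ (e - i) ≠ 0 := pow_ne_zero _ hj0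
  have hn3 : (D : ℂ) ^ (e - i) ≠ 0 := pow_ne_zero _ hDc
  generalize ((c : ℂ) * (τ : ℂ) + (d : ℂ)) ^ (k + i) = X1 at *
  generalize ((c : ℂ) * (τ : ℂ) + (d : ℂ)) ^ (e - i) = X2 at *
  generalize (D : ℂ) ^ (e - i) = X3 at *
  field_simp

end MP836e4b.P
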