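/-
MODULE PA3 (size M-L), board mod836, MP_836e4b_nt, folder Work/MP_836e4b_nt/P. Keep the statements verbatim, helper lemmas private.
Sum of all terms. Split the coprime pairs: D ∣ c (PA1 gives EInf directly) and D ∤ c: exactly one β in [0,D) with
d = βc mod D; for fixed β substitute d = d' + βc, D ∣ d': cτ+d = c(τ+β)+d', (c,d') coprime, and in EZero the
condition D ∣ v.2, coprime, forces D ∤ v.1: the sum is 2 EZero D k i (τ+β). Absolute convergence of every piece: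
|c|^i |cτ+d|^{-k-i} ≤ C |cτ+d|^{-k} (|c| Im τ ≤ |cτ+d|) and k ≥ 3.
-/
import Mathlib
import Pool.Agent.Work.MP_836e4b_nt.P.Defs
import Pool.Agent.Work.MP_836e4b_nt.P.PA1
import Pool.Agent.Work.MP_836e4b_nt.P.PA2
import Pool.Agent.Work.MP_836e4b_nt.P.SeedB
import Pool.Agent.Work.MP_836e4b_nt.P.PhE

open UpperHalfPlane Complex
open scoped MatrixGroups ComplexConjugate Matrix

namespace MP836e4b.P

private theorem pa3_bound (k i : ℕ) (hk : 3 ≤ k) (τ : ℍ) (c d : ℤ) :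
    ‖(c : ℂ) ^ i * (((c : ℂ) * (τ : ℂ) + (d : ℂ)) ^ (k + i))⁻¹‖ ≤
      (τ.im ^ i)⁻¹ * ‖(((c : ℂ) * (τ : ℂ) + (d : ℂ)) ^ k)⁻¹‖ := by
  have hy : 0 < τ.im := τ.im_pos
  set w : ℂ := (c : ℂ) * (τ : ℂ) + (d : ℂ) with hw
  by_cases h0 : w = 0
  · rw [h0, zero_pow (by omega), zero_pow (by omega)]
    simp
  have hJ : 0 < ‖w‖ := norm_pos_iff.mpr h0
  have hc : ‖(c : ℂ)‖ * τ.im ≤ ‖w‖ := by
    have h1 : w.im = (c : ℝ) * τ.im := by
      simp [hw]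
    have h2 := Complex.abs_im_le_norm w
    rw [h1, abs_mul, abs_of_pos hy] at h2
    have h3 : ‖(c : ℂ)‖ = |(c : ℝ)| := by
      rw [← Complex.ofReal_intCast, Complex.norm_real, Real.norm_eq_abs]
    rw [h3]
    exact h2
  have h4 : ‖(c : ℂ)‖ ^ i * τ.im ^ i ≤ ‖w‖ ^ i := by
    rw [← mul_pow]
    exact pow_le_pow_left₀ (by positivity) hc i
  rw [norm_mul, norm_pow, norm_inv, norm_pow, norm_inv, norm_pow, pow_add, mul_inv,
    ← mul_assoc]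
  have h5 : ‖(c : ℂ)‖ ^ i ≤ (τ.im ^ i)⁻¹ * ‖w‖ ^ i := by
    rw [inv_mul_eq_div, le_div_iff₀ (by positivity)]
    exact h4
  have h6 : 0 < ‖w‖ ^ i := by positivity
  have h7 : 0 < ‖w‖ ^ k := by positivity
  calc ‖(c : ℂ)‖ ^ i * (‖w‖ ^ k)⁻¹ * (‖w‖ ^ i)⁻¹
      ≤ ((τ.im ^ i)⁻¹ * ‖w‖ ^ i) * (‖w‖ ^ k)⁻¹ * (‖w‖ ^ i)⁻¹ := by gcongr
    _ = (τ.im ^ i)⁻¹ * (‖w‖ ^ k)⁻¹ := by field_simp

private theorem pa3_summ (k i : ℕ) (hk : 3 ≤ k) (τ : ℍ) :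
    Summable fun v : ℤ × ℤ ↦
      ‖(v.1 : ℂ) ^ i * (((v.1 : ℂ) * (τ : ℂ) + (v.2 : ℂ)) ^ (k + i))⁻¹‖ := by
  have h1 := EisensteinSeries.summable_norm_eisSummand (k := (k : ℤ)) (by exact_mod_cast hk) τ
  have h2 := h1.comp_injective (finTwoArrowEquiv ℤ).symm.injective
  refine Summable.of_nonneg_of_le (fun _ ↦ norm_nonneg _) (fun v ↦ ?_)
    (h2.mul_left ((τ.im ^ i)⁻¹))
  refine (pa3_bound k i hk τ v.1 v.2).trans (le_of_eq ?_)
  simp [EisensteinSeries.eisSummand]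

/-- The general piece. -/
private theorem pa3_piece (k i : ℕ) (hk : 3 ≤ k) (τ : ℍ) (P : ℤ × ℤ → Prop)
    [DecidablePred P] (χ : ℤ × ℤ → ℂ) (hχ : ∀ v, ‖χ v‖ ≤ 1) :
    Summable fun v : ℤ × ℤ ↦ if P v then
      χ v * (v.1 : ℂ) ^ i * (((v.1 : ℂ) * (τ : ℂ) + (v.2 : ℂ)) ^ (k + i))⁻¹ else 0 := by
  refine Summable.of_norm_bounded (pa3_summ k i hk τ) fun v ↦ ?_
  split_ifs
  · rw [mul_assoc, norm_mul]
    exact mul_le_of_le_one_left (norm_nonneg _) (hχ v)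
  · rw [norm_zero]
    exact norm_nonneg _

private theorem pa3_ch (D : ℕ) (n : ℤ) : ‖ch D n‖ ≤ 1 := by
  unfold ch
  rcases jacobiSym.trichotomy n D with h | h | h <;> simp [h]

open Classical in
private theorem pa3_zero (D k i : ℕ) (hD : D.Prime) (τ : ℍ) (β : ℕ) :
    (∑' v : ℤ × ℤ, if (IsCoprime v.1 v.2 ∧ ¬ (D : ℤ) ∣ v.1 ∧ (D : ℤ) ∣ v.2 - (β : ℤ) * v.1) then
      ch D v.1 * (v.1 : ℂ) ^ i * (((v.1 : ℂ) * (τ : ℂ) + (v.2 : ℂ)) ^ (k + i))⁻¹ else 0) =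
      2 * EZero D k i (mob (mT β) τ) := by
  have hm : ((mob (mT (β : ℤ)) τ : ℍ) : ℂ) = (τ : ℂ) + (β : ℂ) := by
    rw [coe_mob _ (by simp [mT, Matrix.det_fin_two])]
    simp [mT, jf]
  let φ : ℤ × ℤ ≃ ℤ × ℤ :=
    { toFun := fun v ↦ (v.1, v.2 + (β : ℤ) * v.1)
      invFun := fun v ↦ (v.1, v.2 - (β : ℤ) * v.1)
      left_inv := fun v ↦ by simp
      right_inv := fun v ↦ by simp }
  rw [← φ.tsum_eq]
  unfold EZero
  rw [← mul_assoc, mul_one_div_cancel two_ne_zero, one_mul]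
  refine tsum_congr fun v ↦ ?_
  have e1 : (φ v).1 = v.1 := rfl
  have e2 : (φ v).2 = v.2 + (β : ℤ) * v.1 := rfl
  rw [e1, e2]
  have e3 : IsCoprime v.1 (v.2 + (β : ℤ) * v.1) ↔ IsCoprime v.1 v.2 := by
    rw [mul_comm, IsCoprime.add_mul_left_right_iff]
  have e4 : (D : ℤ) ∣ v.2 + (β : ℤ) * v.1 - (β : ℤ) * v.1 ↔ (D : ℤ) ∣ v.2 := by
    rw [add_sub_cancel_right]
  have hiff : (IsCoprime v.1 (v.2 + (β : ℤ) * v.1) ∧ ¬ (D : ℤ) ∣ v.1 ∧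
      (D : ℤ) ∣ v.2 + (β : ℤ) * v.1 - (β : ℤ) * v.1) ↔ (IsCoprime v.1 v.2 ∧ (D : ℤ) ∣ v.2) := by
    rw [e3, e4]
    constructor
    · rintro ⟨a, _, b⟩
      exact ⟨a, b⟩
    · rintro ⟨a, b⟩
      refine ⟨a, fun hd ↦ ?_, b⟩
      have h1 : IsUnit (D : ℤ) := a.isUnit_of_dvd' hd b
      rw [Int.isUnit_iff_natAbs_eq, Int.natAbs_natCast] at h1
      exact hD.one_lt.ne' h1
  by_cases hc : IsCoprime v.1 v.2 ∧ (D : ℤ) ∣ v.2
  · rw [if_pos (hiff.mpr hc), if_pos hc, hm]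
    congr 3
    push_cast
    ring
  · rw [if_neg (fun h ↦ hc (hiff.mp h)), if_neg hc]

/-- Existence and uniqueness of `β`. -/
private theorem pa3_beta (D : ℕ) (hD : D.Prime) (c d : ℤ) (hc : ¬ (D : ℤ) ∣ c) :
    ∃ β ∈ Finset.range D, (D : ℤ) ∣ d - (β : ℤ) * c ∧
      ∀ β' ∈ Finset.range D, β' ≠ β → ¬ (D : ℤ) ∣ d - (β' : ℤ) * c := by
  have hDp : Prime (D : ℤ) := Nat.prime_iff_prime_int.mp hD
  have hD0 : (0 : ℤ) < D := by exact_mod_cast hD.pos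
  have hcop : IsCoprime (D : ℤ) c := by
    rcases (Prime.coprime_iff_not_dvd hDp).mpr hc with ⟨a, b, h⟩
    exact ⟨a, b, h⟩
  obtain ⟨a, b, hab⟩ := hcop
  -- d - (d b) c = d (1 - b c) = d a D
  refine ⟨((d * b) % D).toNat, ?_, ?_, ?_⟩
  · rw [Finset.mem_range]
    have h1 := Int.emod_lt_of_pos (d * b) hD0
    have h2 := Int.emod_nonneg (d * b) hD0.ne'
    omega
  · have h2 := Int.emod_nonneg (d * b) hD0.ne'
    rw [Int.toNat_of_nonneg h2]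
    have h3 : (d * b) % (D : ℤ) = d * b - D * (d * b / D) := by
      have := Int.emod_add_mul_ediv (d * b) (D : ℤ)
      linarith
    rw [h3]
    refine ⟨d * a + (d * b / D) * c, ?_⟩
    linear_combination (-d) * hab
  · intro β' hβ' hne hdv
    apply hne
    have h2 := Int.emod_nonneg (d * b) hD0.ne'
    have h4 : (D : ℤ) ∣ (β' : ℤ) - d * b := by
      have h5 : (D : ℤ) ∣ (d - (β' : ℤ) * c) * b := hdv.mul_right b
      have h6 : (β' : ℤ) - d * b = (D : ℤ) * (β' * a) - (d - (β' : ℤ) * c) * b := by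
        linear_combination (-(β' : ℤ)) * hab
      rw [h6]
      exact (Dvd.intro _ rfl).sub h5
    have h7 : (β' : ℤ) % D = (d * b) % D := (Int.modEq_iff_dvd.mpr h4).symm
    rw [Finset.mem_range] at hβ'
    have h8 : (β' : ℤ) % D = β' := Int.emod_eq_of_lt (by positivity) (by exact_mod_cast hβ')
    rw [← h7, h8, Int.toNat_natCast]

open Classical in
/-- The pieces at the cusps `∞` and `0`. -/
private noncomputable def pX (D k i : ℕ) (τ : ℍ) (v : ℤ × ℤ) : ℂ :=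
  if IsCoprime v.1 v.2 ∧ (D : ℤ) ∣ v.1 then
    ch D v.2 * (v.1 : ℂ) ^ i * (((v.1 : ℂ) * (τ : ℂ) + (v.2 : ℂ)) ^ (k + i))⁻¹ else 0

open Classical in
private noncomputable def pY (D k i β : ℕ) (τ : ℍ) (v : ℤ × ℤ) : ℂ :=
  if (IsCoprime v.1 v.2 ∧ ¬ (D : ℤ) ∣ v.1 ∧ (D : ℤ) ∣ v.2 - (β : ℤ) * v.1) then
    ch D v.1 * (v.1 : ℂ) ^ i * (((v.1 : ℂ) * (τ : ℂ) + (v.2 : ℂ)) ^ (k + i))⁻¹ else 0

private theorem pX_summ (D k i : ℕ) (hk : 3 ≤ k) (τ : ℍ) : Summable (pX D k i τ) := by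
  classical
  exact pa3_piece k i hk τ _ (fun v ↦ ch D v.2) (fun v ↦ pa3_ch D v.2)

private theorem pY_summ (D k i β : ℕ) (hk : 3 ≤ k) (τ : ℍ) : Summable (pY D k i β τ) := by
  classical
  exact pa3_piece k i hk τ _ (fun v ↦ ch D v.1) (fun v ↦ pa3_ch D v.1)

private theorem pX_tsum (D k i : ℕ) (τ : ℍ) : ∑' v, pX D k i τ v = 2 * EInf D k i τ := by
  unfold EInf pX
  rw [← mul_assoc, mul_one_div_cancel two_ne_zero, one_mul]

private theorem pY_tsum (D k i β : ℕ) (hD : D.Prime) (τ : ℍ) :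
    ∑' v, pY D k i β τ v = 2 * EZero D k i (mob (mT β) τ) := by
  unfold pY
  exact pa3_zero D k i hD τ β

open Classical in
private theorem pa3_term (D κ k e : ℕ) (hD : D.Prime) (hD4 : D % 4 = cls κ 1) (hκ : κ = k + e)
    (τ : ℍ) (r : Fin 2) (v : ℤ × ℤ) :
    (if IsCoprime v.1 v.2 then sl κ 1 (gam v.1 v.2 : Mat) (ph D e) τ r else 0) =
      ∑ i ∈ Finset.range (e / 2 + 1),
        (cf e i * ((D : ℂ) ^ i)⁻¹ * ph D (e - 2 * i) τ r) * pX D k i τ v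
      + ∑ β ∈ Finset.range D, ∑ i ∈ Finset.range (e / 2 + 1),
        (cf e i * ((D : ℂ) ^ (e - i))⁻¹ * (dl D / ((Real.sqrt D : ℝ) : ℂ)) * tw κ r β *
          ph 1 (e - 2 * i) (mob !![1, (β : ℤ); 0, (D : ℤ)] τ) r) * pY D k i β τ v := by
  by_cases hv : IsCoprime v.1 v.2
  · rw [if_pos hv]
    by_cases hc : (D : ℤ) ∣ v.1
    · rw [sl_gam_inf D κ k e hD hD4 hκ v.1 v.2 hv hc τ r]
      have h2 : ∀ β ∈ Finset.range D, (∑ i ∈ Finset.range (e / 2 + 1),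
        (cf e i * ((D : ℂ) ^ (e - i))⁻¹ * (dl D / ((Real.sqrt D : ℝ) : ℂ)) * tw κ r β *
          ph 1 (e - 2 * i) (mob !![1, (β : ℤ); 0, (D : ℤ)] τ) r) * pY D k i β τ v) = 0 := by
        intro β _
        refine Finset.sum_eq_zero fun i _ ↦ ?_
        rw [pY, if_neg (fun h ↦ h.2.1 hc), mul_zero]
      rw [Finset.sum_eq_zero h2, add_zero]
      refine Finset.sum_congr rfl fun i _ ↦ ?_
      rw [pX, if_pos ⟨hv, hc⟩]
      ring
    · obtain ⟨β, hβ, hdv, huniq⟩ := pa3_beta D hD v.1 v.2 hc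
      rw [sl_gam_zero D κ k e hD hD4 hκ v.1 v.2 hv hc β hdv τ r]
      have h1 : (∑ i ∈ Finset.range (e / 2 + 1),
        (cf e i * ((D : ℂ) ^ i)⁻¹ * ph D (e - 2 * i) τ r) * pX D k i τ v) = 0 := by
        refine Finset.sum_eq_zero fun i _ ↦ ?_
        rw [pX, if_neg (fun h ↦ hc h.2), mul_zero]
      rw [h1, zero_add, Finset.sum_eq_single_of_mem β hβ]
      · refine Finset.sum_congr rfl fun i _ ↦ ?_
        rw [pY, if_pos ⟨hv, hc, hdv⟩]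
        ring
      · intro β' hβ' hne
        refine Finset.sum_eq_zero fun i _ ↦ ?_
        rw [pY, if_neg (fun h ↦ huniq β' hβ' hne h.2.2), mul_zero]
  · rw [if_neg hv]
    have h1 : (∑ i ∈ Finset.range (e / 2 + 1),
        (cf e i * ((D : ℂ) ^ i)⁻¹ * ph D (e - 2 * i) τ r) * pX D k i τ v) = 0 := by
      refine Finset.sum_eq_zero fun i _ ↦ ?_
      rw [pX, if_neg (fun h ↦ hv h.1), mul_zero]
    have h2 : ∀ β ∈ Finset.range D, (∑ i ∈ Finset.range (e / 2 + 1),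
        (cf e i * ((D : ℂ) ^ (e - i))⁻¹ * (dl D / ((Real.sqrt D : ℝ) : ℂ)) * tw κ r β *
          ph 1 (e - 2 * i) (mob !![1, (β : ℤ); 0, (D : ℤ)] τ) r) * pY D k i β τ v) = 0 := by
      intro β _
      refine Finset.sum_eq_zero fun i _ ↦ ?_
      rw [pY, if_neg (fun h ↦ hv h.1), mul_zero]
    rw [h1, Finset.sum_eq_zero h2, add_zero]

theorem Pser_ph (D κ k e : ℕ) (hD : D.Prime) (hD4 : D % 4 = cls κ 1) (hκ : κ = k + e)
    (hk : 3 ≤ k) (τ : ℍ) (r : Fin 2) :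
    Pser κ (ph D e) τ r =
      ∑ i ∈ Finset.range (e / 2 + 1), cf e i * ((D : ℂ) ^ i)⁻¹ * EInf D k i τ *
        ph D (e - 2 * i) τ r
      + ∑ β ∈ Finset.range D, ∑ i ∈ Finset.range (e / 2 + 1),
        cf e i * ((D : ℂ) ^ (e - i))⁻¹ * (dl D / ((Real.sqrt D : ℝ) : ℂ)) * tw κ r β *
          EZero D k i (mob (mT β) τ) *
          ph 1 (e - 2 * i) (mob !![1, (β : ℤ); 0, (D : ℤ)] τ) r := by
  classical
  have hX : HasSum (fun v ↦ ∑ i ∈ Finset.range (e / 2 + 1),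
        (cf e i * ((D : ℂ) ^ i)⁻¹ * ph D (e - 2 * i) τ r) * pX D k i τ v)
      (∑ i ∈ Finset.range (e / 2 + 1),
        (cf e i * ((D : ℂ) ^ i)⁻¹ * ph D (e - 2 * i) τ r) * (2 * EInf D k i τ)) := by
    refine hasSum_sum fun i _ ↦ ?_
    rw [← pX_tsum]
    exact (pX_summ D k i hk τ).hasSum.mul_left _
  have hY : HasSum (fun v ↦ ∑ β ∈ Finset.range D, ∑ i ∈ Finset.range (e / 2 + 1),
        (cf e i * ((D : ℂ) ^ (e - i))⁻¹ * (dl D / ((Real.sqrt D : ℝ) : ℂ)) * tw κ r β *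
          ph 1 (e - 2 * i) (mob !![1, (β : ℤ); 0, (D : ℤ)] τ) r) * pY D k i β τ v)
      (∑ β ∈ Finset.range D, ∑ i ∈ Finset.range (e / 2 + 1),
        (cf e i * ((D : ℂ) ^ (e - i))⁻¹ * (dl D / ((Real.sqrt D : ℝ) : ℂ)) * tw κ r β *
          ph 1 (e - 2 * i) (mob !![1, (β : ℤ); 0, (D : ℤ)] τ) r) *
          (2 * EZero D k i (mob (mT β) τ))) := by
    refine hasSum_sum fun β _ ↦ hasSum_sum fun i _ ↦ ?_
    rw [← pY_tsum D k i β hD τ]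
    exact (pY_summ D k i β hk τ).hasSum.mul_left _
  have hS := hX.add hY
  have hterm : ∀ v : ℤ × ℤ,
      (if IsCoprime v.1 v.2 then sl κ 1 (gam v.1 v.2 : Mat) (ph D e) τ r else 0) =
      ∑ i ∈ Finset.range (e / 2 + 1),
        (cf e i * ((D : ℂ) ^ i)⁻¹ * ph D (e - 2 * i) τ r) * pX D k i τ v
      + ∑ β ∈ Finset.range D, ∑ i ∈ Finset.range (e / 2 + 1),
        (cf e i * ((D : ℂ) ^ (e - i))⁻¹ * (dl D / ((Real.sqrt D : ℝ) : ℂ)) * tw κ r β *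
          ph 1 (e - 2 * i) (mob !![1, (β : ℤ); 0, (D : ℤ)] τ) r) * pY D k i β τ v :=
    fun v ↦ pa3_term D κ k e hD hD4 hκ τ r v
  have hP : Pser κ (ph D e) τ r = (1 / 2 : ℂ) * ∑' v : ℤ × ℤ,
      (∑ i ∈ Finset.range (e / 2 + 1),
        (cf e i * ((D : ℂ) ^ i)⁻¹ * ph D (e - 2 * i) τ r) * pX D k i τ v
      + ∑ β ∈ Finset.range D, ∑ i ∈ Finset.range (e / 2 + 1),
        (cf e i * ((D : ℂ) ^ (e - i))⁻¹ * (dl D / ((Real.sqrt D : ℝ) : ℂ)) * tw κ r β *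
          ph 1 (e - 2 * i) (mob !![1, (β : ℤ); 0, (D : ℤ)] τ) r) * pY D k i β τ v) := by
    unfold Pser
    congr 1
    exact tsum_congr hterm
  rw [hP, hS.tsum_eq, mul_add, Finset.mul_sum, Finset.mul_sum]
  congr 1
  · refine Finset.sum_congr rfl fun i _ ↦ ?_
    ring
  · refine Finset.sum_congr rfl fun β _ ↦ ?_
    rw [Finset.mul_sum]
    refine Finset.sum_congr rfl fun i _ ↦ ?_
    ring

end MP836e4b.P
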