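/-
MODULE PA4 (size L), board mod836, MP_836e4b_nt, folder Work/MP_836e4b_nt/P. Keep the statements verbatim, helper lemmas private.
The q-expansion of the part at ∞. cf e i * (-2πi)^i = e!/(i!(e-2i)!) (-1)^i. Insert EInf_eq; the term 1 (i = 0) is
(2/L) * sig k D 1 0 because sig k D 1 0 = -(L(1-k,χ) * L(0,1)) = L(1-k,χ)/2 (Lval_one_zero in Char.lean), L ≠ 0
(const_B), and it is the N = 0 term with Wp k e 0 m = m^e. So the function is
(2/L) ∑_{N≥0} ∑_{m = r(2)} sig k D 1 N * Wp k e (N/D) m * e((4N + Dm²)τ/4), absolutely convergent double sum;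
group by n = 4N + Dm² (n % 4 = D r mod 4 = cls κ r; conversely n % 4 = cls κ r and 4 ∣ n - Dm² force m = r mod 2).
In cgI the range |m| ≤ n is harmless (D m² ≤ n).
-/
import Mathlib
import Pool.Agent.Work.MP_836e4b_nt.P.Defs
import Pool.Agent.Work.MP_836e4b_nt.P.CgD
import Pool.Agent.Work.MP_836e4b_nt.P.EIn
import Pool.Agent.Work.MP_836e4b_nt.P.PhE
import Pool.Agent.Work.MP_836e4b_nt.Char

open UpperHalfPlane Complex
open scoped MatrixGroups ComplexConjugate Matrix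

namespace MP836e4b.P

private theorem pa4_jac (a : ℤ) (b : ℕ) : ‖((jacobiSym a b : ℤ) : ℂ)‖ ≤ 1 := by
  rcases jacobiSym.trichotomy a b with h | h | h <;> rw [h] <;> simp

private theorem pa4_sig_norm (D k N : ℕ) (hN : N ≠ 0) :
    ‖sig k D 1 N‖ ≤ (N : ℝ) * (N : ℝ) ^ (k - 1) := by
  unfold sig
  rw [if_neg hN, Nat.sum_divisorsAntidiagonal (fun a b : ℕ ↦
    ((jacobiSym (a : ℤ) D : ℤ) : ℂ) * ((jacobiSym (b : ℤ) 1 : ℤ) : ℂ) * (a : ℂ) ^ (k - 1))]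
  have h1 : ∀ a ∈ N.divisors, ‖((jacobiSym (a : ℤ) D : ℤ) : ℂ) *
      ((jacobiSym ((N / a : ℕ) : ℤ) 1 : ℤ) : ℂ) * (a : ℂ) ^ (k - 1)‖ ≤ (N : ℝ) ^ (k - 1) := by
    intro a ha
    have ha2 : (a : ℝ) ≤ (N : ℝ) := by exact_mod_cast Nat.divisor_le ha
    rw [norm_mul, norm_mul, norm_pow, Complex.norm_natCast]
    have h2 := pa4_jac (a : ℤ) D
    have h3 := pa4_jac ((N / a : ℕ) : ℤ) 1
    have h4 : (a : ℝ) ^ (k - 1) ≤ (N : ℝ) ^ (k - 1) :=
      pow_le_pow_left₀ (Nat.cast_nonneg a) ha2 _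
    have h5 : ‖((jacobiSym (a : ℤ) D : ℤ) : ℂ)‖ * ‖((jacobiSym ((N / a : ℕ) : ℤ) 1 : ℤ) : ℂ)‖ ≤ 1 := by
      have := mul_le_mul h2 h3 (norm_nonneg _) zero_le_one
      rwa [one_mul] at this
    calc _ ≤ 1 * (N : ℝ) ^ (k - 1) :=
          mul_le_mul h5 h4 (by positivity) zero_le_one
      _ = _ := one_mul _
  refine (norm_sum_le_of_le _ h1).trans ?_
  rw [Finset.sum_const, nsmul_eq_mul]
  apply mul_le_mul_of_nonneg_right _ (by positivity)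
  exact_mod_cast Nat.card_divisors_le_self N

/-- the series over `N` converges -/
private theorem pa4_sumA (D k i : ℕ) (τ : ℍ) :
    Summable fun N : ℕ ↦ (N : ℂ) ^ i * sig k D 1 N * ee ((N : ℂ) * (τ : ℂ)) := by
  have hy : 0 < 2 * Real.pi * τ.im := by
    have := τ.im_pos
    have := Real.pi_pos
    positivity
  have h0 := Real.summable_pow_mul_exp_neg_nat_mul (i + 1 + (k - 1)) hy
  rw [← summable_nat_add_iff 1] at h0 ⊢
  apply Summable.of_norm_bounded h0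
  intro N
  have h1 := pa4_sig_norm D k (N + 1) (Nat.succ_ne_zero N)
  have h2 : ‖ee (((N + 1 : ℕ) : ℂ) * (τ : ℂ))‖ =
      Real.exp (-(2 * Real.pi * τ.im) * ((N + 1 : ℕ) : ℝ)) := by
    rw [norm_ee]
    congr 1
    have : (((N + 1 : ℕ) : ℂ) * (τ : ℂ)).im = ((N + 1 : ℕ) : ℝ) * τ.im := by
      have h := Complex.im_ofReal_mul ((N + 1 : ℕ) : ℝ) (τ : ℂ)
      rw [Complex.ofReal_natCast] at h
      exact h
    rw [this]
    ring
  rw [norm_mul, norm_mul, norm_pow, Complex.norm_natCast, h2]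
  calc ((N + 1 : ℕ) : ℝ) ^ i * ‖sig k D 1 (N + 1)‖ *
        Real.exp (-(2 * Real.pi * τ.im) * ((N + 1 : ℕ) : ℝ)) ≤
      ((N + 1 : ℕ) : ℝ) ^ i * (((N + 1 : ℕ) : ℝ) * ((N + 1 : ℕ) : ℝ) ^ (k - 1)) *
        Real.exp (-(2 * Real.pi * τ.im) * ((N + 1 : ℕ) : ℝ)) := by
        gcongr
    _ = _ := by ring

/-- the expansion of `EInf` with the constant term in the sum -/
private theorem pa4_EInf (D k i : ℕ) (hD : D.Prime) (hD2 : D ≠ 2) (hk : 3 ≤ k)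
    (hpar : jacobiSym (-1) D = (-1) ^ k) (τ : ℍ) :
    EInf D k i τ = 2 / Lval D (1 - (k : ℂ)) *
      ((-(2 * (Real.pi : ℂ) * Complex.I)) ^ i *
        (((k - 1).factorial : ℂ) / ((k + i - 1).factorial : ℂ))) *
      ∑' N : ℕ, (N : ℂ) ^ i * sig k D 1 N * ee ((N : ℂ) * (τ : ℂ)) := by
  have hL := (const_B D k hD hD2 hk hpar).1
  rw [EInf_eq D k i hD hD2 hk hpar, (pa4_sumA D k i τ).tsum_eq_add_tsum_ite 0, mul_add]
  congr 1
  rcases Nat.eq_zero_or_pos i with hi | hi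
  · subst hi
    have hs : sig k D 1 0 = Lval D (1 - (k : ℂ)) / 2 := by
      unfold sig
      rw [if_pos rfl, Lval_one_zero]
      ring
    have hf : ((k - 1).factorial : ℂ) ≠ 0 := by exact_mod_cast Nat.factorial_ne_zero _
    rw [if_pos rfl, hs]
    simp only [pow_zero, add_zero, Nat.cast_zero, zero_mul, ee_zero, mul_one, one_mul]
    field_simp
  · rw [if_neg hi.ne', Nat.cast_zero, zero_pow hi.ne', zero_mul, zero_mul, mul_zero]

/-- the term of the double series -/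
private noncomputable def pa4F (D k e : ℕ) (r : Fin 2) (τ : ℍ) (x : ℕ × ℤ) : ℂ :=
  if x.2 % 2 = ((r : ℕ) : ℤ) then
    2 / Lval D (1 - (k : ℂ)) * (sig k D 1 x.1 * Wp k e ((x.1 : ℂ) / (D : ℂ)) (x.2 : ℂ)) *
      ee ((4 * (x.1 : ℂ) + (D : ℂ) * (x.2 : ℂ) ^ 2) * (τ : ℂ) / 4) else 0

private theorem pa4_term (D k e : ℕ) (r : Fin 2) (τ : ℍ) (N : ℕ) (m : ℤ) :
    ∑ i ∈ Finset.range (e / 2 + 1), cf e i * ((D : ℂ) ^ i)⁻¹ * (2 / Lval D (1 - (k : ℂ)) *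
      ((-(2 * (Real.pi : ℂ) * Complex.I)) ^ i *
        (((k - 1).factorial : ℂ) / ((k + i - 1).factorial : ℂ)))) *
      (((N : ℂ) ^ i * sig k D 1 N * ee ((N : ℂ) * (τ : ℂ))) *
        ((2 * (m : ℂ) + ((r : ℕ) : ℂ)) ^ (e - 2 * i) *
          ee ((D : ℂ) * (2 * (m : ℂ) + ((r : ℕ) : ℂ)) ^ 2 * (τ : ℂ) / 4))) =
      pa4F D k e r τ (N, 2 * m + ((r : ℕ) : ℤ)) := by
  have hr : (2 * m + ((r : ℕ) : ℤ)) % 2 = ((r : ℕ) : ℤ) := by
    have := r.isLt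
    omega
  have hpi : (2 * (Real.pi : ℂ) * Complex.I) ≠ 0 := by
    simp [Real.pi_ne_zero]
  unfold pa4F Wp
  simp only
  rw [if_pos hr, Finset.mul_sum, Finset.mul_sum, Finset.sum_mul]
  apply Finset.sum_congr rfl
  intro i _
  have h1 : ee ((4 * (N : ℂ) + (D : ℂ) * ((2 * m + ((r : ℕ) : ℤ) : ℤ) : ℂ) ^ 2) * (τ : ℂ) / 4) =
      ee ((N : ℂ) * (τ : ℂ)) * ee ((D : ℂ) * (2 * (m : ℂ) + ((r : ℕ) : ℂ)) ^ 2 * (τ : ℂ) / 4) := by
    rw [← ee_add]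
    congr 1
    push_cast
    ring
  have h2 : cf e i * (-(2 * (Real.pi : ℂ) * Complex.I)) ^ i =
      ((e.factorial : ℂ) / ((i.factorial : ℂ) * ((e - 2 * i).factorial : ℂ))) * (-1) ^ i := by
    unfold cf
    rw [neg_pow (2 * (Real.pi : ℂ) * Complex.I) i]
    have : (2 * (Real.pi : ℂ) * Complex.I) ^ i ≠ 0 := pow_ne_zero _ hpi
    field_simp
  have h3 : (-((N : ℂ) / (D : ℂ))) ^ i = (-1) ^ i * ((N : ℂ) ^ i * ((D : ℂ) ^ i)⁻¹) := by
    rw [neg_pow, div_pow, div_eq_mul_inv]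
  have h4 : ((2 * m + ((r : ℕ) : ℤ) : ℤ) : ℂ) = 2 * (m : ℂ) + ((r : ℕ) : ℂ) := by
    push_cast
    ring
  rw [h1, h3, h4]
  linear_combination (((D : ℂ) ^ i)⁻¹ * (2 / Lval D (1 - (k : ℂ)) *
        (((k - 1).factorial : ℂ) / ((k + i - 1).factorial : ℂ))) *
      (((N : ℂ) ^ i * sig k D 1 N * ee ((N : ℂ) * (τ : ℂ))) *
        ((2 * (m : ℂ) + ((r : ℕ) : ℂ)) ^ (e - 2 * i) *
          ee ((D : ℂ) * (2 * (m : ℂ) + ((r : ℕ) : ℂ)) ^ 2 * (τ : ℂ) / 4)))) * h2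

private theorem pa4_mul {A : ℕ → ℂ} {B : ℤ → ℂ} (hA : Summable A) (hB : Summable B) :
    HasSum (fun x : ℕ × ℤ ↦ A x.1 * B x.2) ((∑' N, A N) * ∑' m, B m) :=
  HasSum.mul hA.hasSum hB.hasSum (summable_mul_of_summable_norm hA.norm hB.norm)

private theorem pa4_one (D k e i : ℕ) (hD : D.Prime) (hD2 : D ≠ 2) (hk : 3 ≤ k)
    (hpar : jacobiSym (-1) D = (-1) ^ k) (τ : ℍ) (r : Fin 2) :
    HasSum (fun x : ℕ × ℤ ↦ cf e i * ((D : ℂ) ^ i)⁻¹ * (2 / Lval D (1 - (k : ℂ)) *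
      ((-(2 * (Real.pi : ℂ) * Complex.I)) ^ i *
        (((k - 1).factorial : ℂ) / ((k + i - 1).factorial : ℂ)))) *
      (((x.1 : ℂ) ^ i * sig k D 1 x.1 * ee ((x.1 : ℂ) * (τ : ℂ))) *
        ((2 * (x.2 : ℂ) + ((r : ℕ) : ℂ)) ^ (e - 2 * i) *
          ee ((D : ℂ) * (2 * (x.2 : ℂ) + ((r : ℕ) : ℂ)) ^ 2 * (τ : ℂ) / 4))))
      (cf e i * ((D : ℂ) ^ i)⁻¹ * EInf D k i τ * ph D (e - 2 * i) τ r) := by
  have h3 : cf e i * ((D : ℂ) ^ i)⁻¹ * EInf D k i τ * ph D (e - 2 * i) τ r =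
      cf e i * ((D : ℂ) ^ i)⁻¹ * (2 / Lval D (1 - (k : ℂ)) *
    ((-(2 * (Real.pi : ℂ) * Complex.I)) ^ i *
      (((k - 1).factorial : ℂ) / ((k + i - 1).factorial : ℂ)))) *
      ((∑' N : ℕ, (N : ℂ) ^ i * sig k D 1 N * ee ((N : ℂ) * (τ : ℂ))) *
        ∑' m : ℤ, (2 * (m : ℂ) + ((r : ℕ) : ℂ)) ^ (e - 2 * i) *
          ee ((D : ℂ) * (2 * (m : ℂ) + ((r : ℕ) : ℂ)) ^ 2 * (τ : ℂ) / 4)) := by
    rw [pa4_EInf D k i hD hD2 hk hpar]
    unfold ph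
    ring
  rw [h3]
  have hAB := pa4_mul (pa4_sumA D k i τ) (ph_summable D (e - 2 * i) hD.pos τ r)
  exact hAB.mul_left _

private theorem pa4_double (D k e : ℕ) (hD : D.Prime) (hD2 : D ≠ 2) (hk : 3 ≤ k)
    (hpar : jacobiSym (-1) D = (-1) ^ k) (τ : ℍ) (r : Fin 2) :
    HasSum (pa4F D k e r τ)
      (∑ i ∈ Finset.range (e / 2 + 1), cf e i * ((D : ℂ) ^ i)⁻¹ * EInf D k i τ *
        ph D (e - 2 * i) τ r) := by
  have h1 : HasSum (fun x : ℕ × ℤ ↦ pa4F D k e r τ (x.1, 2 * x.2 + ((r : ℕ) : ℤ)))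
      (∑ i ∈ Finset.range (e / 2 + 1), cf e i * ((D : ℂ) ^ i)⁻¹ * EInf D k i τ *
        ph D (e - 2 * i) τ r) := by
    have h2 := hasSum_sum (s := Finset.range (e / 2 + 1))
      (fun i _ ↦ pa4_one D k e i hD hD2 hk hpar τ r)
    have h3 : (fun x : ℕ × ℤ ↦ pa4F D k e r τ (x.1, 2 * x.2 + ((r : ℕ) : ℤ))) = _ :=
      funext fun x ↦ (pa4_term D k e r τ x.1 x.2).symm
    rw [h3]
    exact h2
  have hinj : Function.Injective (fun x : ℕ × ℤ ↦ (x.1, 2 * x.2 + ((r : ℕ) : ℤ))) := by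
    rintro ⟨a, b⟩ ⟨c, d⟩ h
    simp only [Prod.mk.injEq] at h
    ext
    · exact h.1
    · simp only
      omega
  refine (hinj.hasSum_iff ?_).1 h1
  rintro ⟨N, m⟩ hx
  unfold pa4F
  rw [if_neg]
  intro h
  apply hx
  refine ⟨(N, m / 2), ?_⟩
  simp only [Prod.mk.injEq, true_and]
  simp only at h
  omega

/-- the value of `φ (N, m) = 4 N + D m²` -/
private def pa4phi (D : ℕ) (x : ℕ × ℤ) : ℕ := 4 * x.1 + D * (x.2 ^ 2).toNat

private theorem pa4_phi_cast (D : ℕ) (x : ℕ × ℤ) :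
    ((pa4phi D x : ℕ) : ℤ) = 4 * (x.1 : ℤ) + (D : ℤ) * x.2 ^ 2 := by
  unfold pa4phi
  push_cast
  rw [Int.toNat_of_nonneg (sq_nonneg _)]

private theorem pa4_cls (D κ : ℕ) (hD4 : D % 4 = cls κ 1) (r : Fin 2) (m : ℤ) (n : ℕ)
    (h4 : (4 : ℤ) ∣ (n : ℤ) - (D : ℤ) * m ^ 2) :
    (m % 2 = ((r : ℕ) : ℤ)) ↔ n % 4 = cls κ r := by
  have hc1 : D % 4 = 1 ∨ D % 4 = 3 := by
    rw [hD4]
    unfold cls
    split_ifs <;> simp_all
  have hc0 : cls κ 0 = 0 := by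
    unfold cls
    simp
  obtain ⟨q, hq⟩ := h4
  rcases Int.even_or_odd' m with ⟨j, rfl | rfl⟩
  · have h1 : (n : ℤ) = 4 * (q + (D : ℤ) * j ^ 2) := by linear_combination hq
    generalize q + (D : ℤ) * j ^ 2 = t at h1
    fin_cases r
    · change (2 * j % 2 = 0) ↔ n % 4 = cls κ 0
      rw [hc0]
      omega
    · change (2 * j % 2 = 1) ↔ n % 4 = cls κ 1
      rw [← hD4]
      omega
  · have h1 : (n : ℤ) = 4 * (q + (D : ℤ) * (j ^ 2 + j)) + (D : ℤ) := by linear_combination hq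
    generalize q + (D : ℤ) * (j ^ 2 + j) = t at h1
    fin_cases r
    · change ((2 * j + 1) % 2 = 0) ↔ n % 4 = cls κ 0
      rw [hc0]
      omega
    · change ((2 * j + 1) % 2 = 1) ↔ n % 4 = cls κ 1
      rw [← hD4]
      omega

/-- the sum over one row of the box -/
private theorem pa4_row (D κ k e : ℕ) (hD : 0 < D) (hD4 : D % 4 = cls κ 1) (τ : ℍ) (r : Fin 2)
    (n : ℕ) (m : ℤ) :
    ∑ N ∈ Finset.range (n + 1), {x : ℕ × ℤ | pa4phi D x = n}.indicator (pa4F D k e r τ) (N, m) =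
      if n % 4 = cls κ r then
        2 / Lval D (1 - (k : ℂ)) *
          (if (D : ℤ) * m ^ 2 ≤ n ∧ (4 : ℤ) ∣ (n : ℤ) - (D : ℤ) * m ^ 2 then
            sig k D 1 (((n : ℤ) - (D : ℤ) * m ^ 2) / 4).toNat *
              Wp k e (((((n : ℤ) - (D : ℤ) * m ^ 2) / 4 : ℤ) : ℂ) / (D : ℂ)) (m : ℂ) else 0) *
          ee ((n : ℂ) * (τ : ℂ) / 4) else 0 := by
  by_cases hc : (D : ℤ) * m ^ 2 ≤ n ∧ (4 : ℤ) ∣ (n : ℤ) - (D : ℤ) * m ^ 2
  · obtain ⟨hc1, hc2⟩ := hc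
    have hcc := hc2
    obtain ⟨q, hq⟩ := hc2
    have hq0 : 0 ≤ q := by omega
    obtain ⟨N0, rfl⟩ := Int.eq_ofNat_of_zero_le hq0
    have hdiv : ((n : ℤ) - (D : ℤ) * m ^ 2) / 4 = (N0 : ℤ) := by
      rw [hq]
      exact Int.mul_ediv_cancel_left _ (by norm_num)
    have hsq : 0 ≤ (D : ℤ) * m ^ 2 := by positivity
    have hN0 : N0 ∈ Finset.range (n + 1) := by
      rw [Finset.mem_range]
      omega
    have hmem : pa4phi D (N0, m) = n := by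
      have := pa4_phi_cast D (N0, m)
      simp only at this
      have h2 : ((pa4phi D (N0, m) : ℕ) : ℤ) = (n : ℤ) := by linarith
      exact_mod_cast h2
    rw [Finset.sum_eq_single_of_mem N0 hN0]
    · rw [Set.indicator_of_mem (show (N0, m) ∈ {x : ℕ × ℤ | pa4phi D x = n} from hmem)]
      rw [if_pos (show (D : ℤ) * m ^ 2 ≤ n ∧ (4 : ℤ) ∣ (n : ℤ) - (D : ℤ) * m ^ 2 from ⟨hc1, hcc⟩)]
      rw [hdiv, Int.toNat_natCast, Int.cast_natCast]
      unfold pa4F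
      simp only
      have hcl := pa4_cls D κ hD4 r m n hcc
      have hee : (4 * (N0 : ℂ) + (D : ℂ) * (m : ℂ) ^ 2) * (τ : ℂ) / 4 = (n : ℂ) * (τ : ℂ) / 4 := by
        have : (n : ℂ) - (D : ℂ) * (m : ℂ) ^ 2 = 4 * (N0 : ℂ) := by exact_mod_cast hq
        linear_combination (-(τ : ℂ) / 4) * this
      by_cases hr : m % 2 = ((r : ℕ) : ℤ)
      · rw [if_pos hr, if_pos (hcl.1 hr), hee]
      · rw [if_neg hr, if_neg (fun h ↦ hr (hcl.2 h))]
    · intro N _ hne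
      apply Set.indicator_of_notMem
      intro h
      apply hne
      have h1 := pa4_phi_cast D (N, m)
      have h2 : pa4phi D (N, m) = n := h
      rw [h2] at h1
      simp only at h1
      omega
  · rw [if_neg hc, mul_zero, zero_mul, ite_self]
    apply Finset.sum_eq_zero
    intro N _
    apply Set.indicator_of_notMem
    intro h
    apply hc
    have h1 := pa4_phi_cast D (N, m)
    have h2 : pa4phi D (N, m) = n := h
    rw [h2] at h1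
    simp only at h1
    constructor
    · omega
    · exact ⟨(N : ℤ), by linarith⟩

/-- the sum over one fibre -/
private theorem pa4_fibre (D κ k e : ℕ) (hD : 0 < D) (hD4 : D % 4 = cls κ 1) (τ : ℍ) (r : Fin 2)
    (n : ℕ) :
    HasSum (fun x : {x : ℕ × ℤ // pa4phi D x = n} ↦ pa4F D k e r τ x)
      (if n % 4 = cls κ r then
        2 / Lval D (1 - (k : ℂ)) * cgI D k e n * ee ((n : ℂ) * (τ : ℂ) / 4) else 0) := by
  have h1 : HasSum ({x : ℕ × ℤ | pa4phi D x = n}.indicator (pa4F D k e r τ))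
      (∑ x ∈ Finset.range (n + 1) ×ˢ Finset.Icc (-(n : ℤ)) n,
        {x : ℕ × ℤ | pa4phi D x = n}.indicator (pa4F D k e r τ) x) := by
    apply hasSum_sum_of_ne_finset_zero
    rintro ⟨N, m⟩ hx
    apply Set.indicator_of_notMem
    intro h
    apply hx
    have h1 := pa4_phi_cast D (N, m)
    have h2 : pa4phi D (N, m) = n := h
    rw [h2] at h1
    simp only at h1
    have hD1 : (1 : ℤ) ≤ (D : ℤ) := by exact_mod_cast hD
    have hsq : 0 ≤ m ^ 2 := sq_nonneg m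
    have hDm : m ^ 2 ≤ (D : ℤ) * m ^ 2 := by nlinarith
    have hDm0 : 0 ≤ (D : ℤ) * m ^ 2 := by positivity
    have hm1 : m ≤ m ^ 2 := by nlinarith [Int.le_self_sq m]
    have hm2 : -m ≤ m ^ 2 := by
      have := Int.le_self_sq (-m)
      nlinarith
    rw [Finset.mem_product, Finset.mem_range, Finset.mem_Icc]
    refine ⟨?_, ?_, ?_⟩
    · simp only
      omega
    · simp only
      omega
    · simp only
      omega
  have h2 : (∑ x ∈ Finset.range (n + 1) ×ˢ Finset.Icc (-(n : ℤ)) n,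
        {x : ℕ × ℤ | pa4phi D x = n}.indicator (pa4F D k e r τ) x) =
      (if n % 4 = cls κ r then
        2 / Lval D (1 - (k : ℂ)) * cgI D k e n * ee ((n : ℂ) * (τ : ℂ) / 4) else 0) := by
    rw [Finset.sum_product_right]
    rw [Finset.sum_congr rfl (fun m _ ↦ pa4_row D κ k e hD hD4 τ r n m)]
    by_cases hn : n % 4 = cls κ r
    · simp only [if_pos hn]
      unfold cgI
      rw [Finset.mul_sum, Finset.sum_mul]
    · simp only [if_neg hn, Finset.sum_const_zero]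
  rw [h2] at h1
  exact hasSum_subtype_iff_indicator.2 h1

theorem hasSum_inf (D κ k e : ℕ) (hD : D.Prime) (hD2 : D ≠ 2) (hD4 : D % 4 = cls κ 1) (hk : 3 ≤ k)
    (hpar : jacobiSym (-1) D = (-1) ^ k) (τ : ℍ) (r : Fin 2) :
    HasSum (fun n : ℕ ↦ if n % 4 = cls κ r then
        2 / Lval D (1 - (k : ℂ)) * cgI D k e n * ee ((n : ℂ) * (τ : ℂ) / 4) else 0)
      (∑ i ∈ Finset.range (e / 2 + 1), cf e i * ((D : ℂ) ^ i)⁻¹ * EInf D k i τ *
        ph D (e - 2 * i) τ r) := by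
  have h1 := pa4_double D k e hD hD2 hk hpar τ r
  have h2 := (Equiv.sigmaFiberEquiv (pa4phi D)).hasSum_iff.2 h1
  exact h2.sigma (fun n ↦ pa4_fibre D κ k e hD.pos hD4 τ r n)

end MP836e4b.P
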