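/-
MODULE PA5 (size L), board mod836, MP_836e4b_nt, folder Work/MP_836e4b_nt/P. Keep the statements verbatim, helper lemmas private.
The q-expansion of the part at 0. Insert EZero_eq at τ+β; D^{-(e-i)} D^{-i} = D^{-e}; N = 0 term may be added since
sig k 1 D 0 = -(Lval 1 (1-k) * Lval D 0) = 0 (Lval_zero in Char.lean, parity). The function is
(dl D/√D) gD⁻¹ (2/L) D^{-e} ∑_{N≥0} ∑_{m=r(2)} sig k 1 D N * Wp k e N m * e((4N+m²)τ/(4D)) * ∑_β tw κ r β e((4N+m²)β/(4D)).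
Let μ = 4N+m² and ε = -1 (κ even), +1 (κ odd): tw κ r β e(μβ/(4D)) = e(β(μ + εrD)/(4D)), μ + εrD = 0 mod 4 (m² = r mod 4,
D = cls κ 1), so the sum over β is D if D ∣ μ and 0 otherwise. With μ = D n: n % 4 = cls κ r. Constant:
D (dl D/√D)/gD D = dl D √D/gD D = (-1/D) (D = 1 mod 4: 1; D = 3 mod 4: -i/i = -1; jacobiSym (-1) D = χ₄(D)).
-/
import Mathlib
import Pool.Agent.Work.MP_836e4b_nt.P.Defs
import Pool.Agent.Work.MP_836e4b_nt.P.CgD
import Pool.Agent.Work.MP_836e4b_nt.P.EZe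
import Pool.Agent.Work.MP_836e4b_nt.P.PhE
import Pool.Agent.Work.MP_836e4b_nt.Arith
import Pool.Agent.Work.MP_836e4b_nt.Char

open UpperHalfPlane Complex
open scoped MatrixGroups ComplexConjugate Matrix

namespace MP836e4b.P

private theorem pA5_coeT (τ : ℍ) (β : ℤ) : ((mob (mT β) τ : ℍ) : ℂ) = (τ : ℂ) + (β : ℂ) := by
  have hd : (mT β).det = 1 := by
    rw [mT, Matrix.det_fin_two]
    simp
  rw [coe_mob _ (by rw [hd]; exact one_pos)]
  have hj : jf (mT β) τ = 1 := by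
    unfold jf mT
    simp
  rw [hj, div_one]
  simp [mT]

private theorem pA5_coeD (τ : ℍ) (β : ℤ) (D : ℕ) (hD : 0 < D) :
    ((mob !![1, β; 0, (D : ℤ)] τ : ℍ) : ℂ) = ((τ : ℂ) + (β : ℂ)) / (D : ℂ) := by
  have hd : (!![1, β; 0, (D : ℤ)] : Mat).det = D := by
    rw [Matrix.det_fin_two]
    simp
  rw [coe_mob _ (by rw [hd]; exact_mod_cast hD)]
  have hj : jf !![1, β; 0, (D : ℤ)] τ = (D : ℂ) := by
    unfold jf
    simp
  rw [hj]
  simp

private theorem pA5_geom (D : ℕ) (hD : 0 < D) (ν : ℤ) :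
    ∑ β ∈ Finset.range D, ee ((ν : ℂ) * (β : ℂ) / (D : ℂ)) =
      if (D : ℤ) ∣ ν then (D : ℂ) else 0 := by
  have hD0 : (D : ℂ) ≠ 0 := by exact_mod_cast hD.ne'
  split_ifs with h
  · obtain ⟨c, rfl⟩ := h
    have h1 : ∀ β ∈ Finset.range D, ee ((((D : ℤ) * c : ℤ) : ℂ) * (β : ℂ) / (D : ℂ)) = 1 := by
      intro β _
      have h2 : (((D : ℤ) * c : ℤ) : ℂ) * (β : ℂ) / (D : ℂ) = ((c * (β : ℤ) : ℤ) : ℂ) := by
        push_cast
        field_simp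
      rw [h2, ee_intCast]
    rw [Finset.sum_congr rfl h1, Finset.sum_const, Finset.card_range, nsmul_eq_mul, mul_one]
  · have hz : ∀ β : ℕ, ee ((ν : ℂ) * (β : ℂ) / (D : ℂ)) = ee ((ν : ℂ) / (D : ℂ)) ^ β := by
      intro β
      unfold ee
      rw [← Complex.exp_nat_mul]
      congr 1
      ring
    rw [Finset.sum_congr rfl (fun β _ => hz β)]
    have hne : ee ((ν : ℂ) / (D : ℂ)) ≠ 1 := by
      intro h1
      unfold ee at h1
      rw [Complex.exp_eq_one_iff] at h1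
      obtain ⟨n, hn⟩ := h1
      apply h
      refine ⟨n, ?_⟩
      have h2 : (2 * (Real.pi : ℂ) * Complex.I) ≠ 0 := Complex.two_pi_I_ne_zero
      have h3 : (ν : ℂ) / (D : ℂ) = n := by
        apply mul_left_cancel₀ h2
        rw [hn]
        ring
      have h4 : (ν : ℂ) = (D : ℂ) * n := by
        rw [← h3]
        field_simp
      exact_mod_cast h4
    have hD1 : ee ((ν : ℂ) / (D : ℂ)) ^ D = 1 := by
      rw [← hz D]
      have h2 : (ν : ℂ) * (D : ℂ) / (D : ℂ) = (ν : ℂ) := by field_simp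
      rw [h2, ee_intCast]
    rw [geom_sum_eq hne, hD1, sub_self, zero_div]

private theorem pA5_cls (κ : ℕ) (D : ℕ) (hD4 : D % 4 = cls κ 1) :
    (Even κ ∧ ∃ q : ℕ, D = 4 * q + 1) ∨ (¬ Even κ ∧ ∃ q : ℕ, D = 4 * q + 3) := by
  unfold cls at hD4
  rw [if_neg (by decide)] at hD4
  split_ifs at hD4 with h
  · exact Or.inl ⟨h, D / 4, by omega⟩
  · exact Or.inr ⟨h, D / 4, by omega⟩

private theorem pA5_nu (D κ : ℕ) (hD4 : D % 4 = cls κ 1) (r : Fin 2) (N : ℕ) (m : ℤ) :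
    ∃ ν : ℤ, 4 * (N : ℤ) + (2 * m + ((r : ℕ) : ℤ)) ^ 2 +
      (if Even κ then (-1 : ℤ) else 1) * ((r : ℕ) : ℤ) * (D : ℤ) = 4 * ν := by
  rcases pA5_cls κ D hD4 with ⟨h, q, rfl⟩ | ⟨h, q, rfl⟩
  · rw [if_pos h]
    fin_cases r
    · refine ⟨N + m ^ 2, ?_⟩
      push_cast
      ring
    · refine ⟨N + m ^ 2 + m - q, ?_⟩
      push_cast
      ring
  · rw [if_neg h]
    fin_cases r
    · refine ⟨N + m ^ 2, ?_⟩
      push_cast
      ring
    · refine ⟨N + m ^ 2 + m + q + 1, ?_⟩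
      push_cast
      ring

private theorem pA5_tw (D κ : ℕ) (hD : D.Prime) (hD2 : D ≠ 2) (hD4 : D % 4 = cls κ 1)
    (r : Fin 2) (N : ℕ) (m : ℤ) :
    ∑ β ∈ Finset.range D, tw κ r (β : ℤ) *
      ee (((4 * (N : ℤ) + (2 * m + ((r : ℕ) : ℤ)) ^ 2 : ℤ) : ℂ) * (β : ℂ) / (4 * (D : ℂ))) =
      if (D : ℤ) ∣ 4 * (N : ℤ) + (2 * m + ((r : ℕ) : ℤ)) ^ 2 then (D : ℂ) else 0 := by
  have hD0 : (D : ℂ) ≠ 0 := by exact_mod_cast hD.ne_zero
  obtain ⟨ν, hν⟩ := pA5_nu D κ hD4 r N m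
  set μ : ℤ := 4 * (N : ℤ) + (2 * m + ((r : ℕ) : ℤ)) ^ 2 with hμ
  have h1 : ∀ β ∈ Finset.range D, tw κ r (β : ℤ) * ee ((μ : ℂ) * (β : ℂ) / (4 * (D : ℂ))) =
      ee ((ν : ℂ) * (β : ℂ) / (D : ℂ)) := by
    intro β _
    unfold tw
    rw [← ee_add]
    congr 1
    have h2 : (μ : ℂ) + (if Even κ then (-1 : ℂ) else 1) * ((r : ℕ) : ℂ) * (D : ℂ) =
        4 * (ν : ℂ) := by
      have h3 := congrArg (fun z : ℤ => (z : ℂ)) hν
      push_cast at h3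
      rw [← h3]
    have h4 : (ν : ℂ) = ((μ : ℂ) + (if Even κ then (-1 : ℂ) else 1) * ((r : ℕ) : ℂ) * (D : ℂ)) / 4 := by
      rw [h2]
      ring
    rw [h4]
    push_cast
    field_simp
    ring
  rw [Finset.sum_congr rfl h1, pA5_geom D hD.pos ν]
  have hcop : IsCoprime (D : ℤ) 4 := by
    have h5 : Nat.Coprime D 4 := by
      have h6 : Nat.Coprime D 2 := (Nat.coprime_primes hD Nat.prime_two).2 hD2
      exact Nat.Coprime.pow_right 2 h6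
    exact_mod_cast Nat.isCoprime_iff_coprime.2 h5
  have h7 : (D : ℤ) ∣ ν ↔ (D : ℤ) ∣ μ := by
    have h8 : (D : ℤ) ∣ ν ↔ (D : ℤ) ∣ 4 * ν :=
      ⟨fun h => Dvd.dvd.mul_left h 4, fun h => hcop.dvd_of_dvd_mul_left h⟩
    rw [h8, ← hν]
    exact dvd_add_left (Dvd.intro_left _ rfl)
  simp only [h7]

private theorem pA5_fib1 (D κ : ℕ) (hD4 : D % 4 = cls κ 1) (r : Fin 2) (N : ℕ) (m : ℤ) (n : ℕ)
    (h : 4 * (N : ℤ) + (2 * m + ((r : ℕ) : ℤ)) ^ 2 = (D : ℤ) * n) : n % 4 = cls κ r := by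
  rcases pA5_cls κ D hD4 with ⟨hk, q, rfl⟩ | ⟨hk, q, rfl⟩
  · fin_cases r
    · show n % 4 = cls κ 0
      unfold cls
      rw [if_pos rfl]
      have h1 : 4 * ((N : ℤ) + m ^ 2) = 4 * ((q : ℤ) * n) + n := by
        have h' : 4 * (N : ℤ) + (2 * m + 0) ^ 2 = ((4 * q + 1 : ℕ) : ℤ) * n := h
        push_cast at h'
        linarith
      omega
    · show n % 4 = cls κ 1
      unfold cls
      rw [if_neg (by decide), if_pos hk]
      have h1 : 4 * ((N : ℤ) + m ^ 2 + m) + 1 = 4 * ((q : ℤ) * n) + n := by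
        have h' : 4 * (N : ℤ) + (2 * m + 1) ^ 2 = ((4 * q + 1 : ℕ) : ℤ) * n := h
        push_cast at h'
        linarith
      omega
  · fin_cases r
    · show n % 4 = cls κ 0
      unfold cls
      rw [if_pos rfl]
      have h1 : 4 * ((N : ℤ) + m ^ 2) = 4 * ((q : ℤ) * n) + 3 * n := by
        have h' : 4 * (N : ℤ) + (2 * m + 0) ^ 2 = ((4 * q + 3 : ℕ) : ℤ) * n := h
        push_cast at h'
        linarith
      omega
    · show n % 4 = cls κ 1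
      unfold cls
      rw [if_neg (by decide), if_neg hk]
      have h1 : 4 * ((N : ℤ) + m ^ 2 + m) + 1 = 4 * ((q : ℤ) * n) + 3 * n := by
        have h' : 4 * (N : ℤ) + (2 * m + 1) ^ 2 = ((4 * q + 3 : ℕ) : ℤ) * n := h
        push_cast at h'
        linarith
      omega

private theorem pA5_fib2 (D κ : ℕ) (hD4 : D % 4 = cls κ 1) (r : Fin 2) (v : ℤ) (n : ℕ)
    (hn : n % 4 = cls κ r) (h : (4 : ℤ) ∣ (D : ℤ) * n - v ^ 2) :
    2 * ((v - ((r : ℕ) : ℤ)) / 2) + ((r : ℕ) : ℤ) = v := by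
  obtain ⟨c, hc⟩ := h
  rcases Int.even_or_odd' v with ⟨w, hw | hw⟩
  · rcases pA5_cls κ D hD4 with ⟨hk, q, rfl⟩ | ⟨hk, q, rfl⟩
    · have h1 : 4 * ((q : ℤ) * n) + n - 4 * w ^ 2 = 4 * c := by
        rw [← hc, hw]
        push_cast
        ring
      fin_cases r
      · show 2 * ((v - 0) / 2) + 0 = v
        omega
      · exfalso
        have hn' : n % 4 = cls κ 1 := hn
        unfold cls at hn'
        rw [if_neg (by decide), if_pos hk] at hn'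
        omega
    · have h1 : 4 * ((q : ℤ) * n) + 3 * n - 4 * w ^ 2 = 4 * c := by
        rw [← hc, hw]
        push_cast
        ring
      fin_cases r
      · show 2 * ((v - 0) / 2) + 0 = v
        omega
      · exfalso
        have hn' : n % 4 = cls κ 1 := hn
        unfold cls at hn'
        rw [if_neg (by decide), if_neg hk] at hn'
        omega
  · rcases pA5_cls κ D hD4 with ⟨hk, q, rfl⟩ | ⟨hk, q, rfl⟩
    · have h1 : 4 * ((q : ℤ) * n) + n - (4 * (w ^ 2 + w) + 1) = 4 * c := by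
        rw [← hc, hw]
        push_cast
        ring
      fin_cases r
      · exfalso
        have hn' : n % 4 = cls κ 0 := hn
        unfold cls at hn'
        rw [if_pos rfl] at hn'
        omega
      · show 2 * ((v - 1) / 2) + 1 = v
        omega
    · have h1 : 4 * ((q : ℤ) * n) + 3 * n - (4 * (w ^ 2 + w) + 1) = 4 * c := by
        rw [← hc, hw]
        push_cast
        ring
      fin_cases r
      · exfalso
        have hn' : n % 4 = cls κ 0 := hn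
        unfold cls at hn'
        rw [if_pos rfl] at hn'
        omega
      · show 2 * ((v - 1) / 2) + 1 = v
        omega

private theorem pA5_sumN (D k i : ℕ) (hD : 0 < D) (hk : 3 ≤ k) (hz : sig k 1 D 0 = 0) (τ : ℍ) :
    Summable fun N : ℕ ↦ ‖(N : ℂ) ^ i * sig k 1 D N * ee ((N : ℂ) * (τ : ℂ) / (D : ℂ))‖ := by
  set ρ : ℝ := Real.exp (-(2 * Real.pi * τ.im / D)) with hρ
  have hD' : (0 : ℝ) < D := by exact_mod_cast hD
  have hpos : 0 < 2 * Real.pi * τ.im / D := by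
    have := Real.pi_pos
    have := τ.im_pos
    positivity
  have hρ0 : 0 < ρ := Real.exp_pos _
  have hρ1 : ρ < 1 := by
    rw [hρ]
    exact Real.exp_lt_one_iff.2 (by linarith)
  have hnorm : ‖ρ‖ < 1 := by
    rw [Real.norm_eq_abs, abs_of_pos hρ0]
    exact hρ1
  have hS := (summable_pow_mul_geometric_of_norm_lt_one (i + (k - 1)) hnorm).mul_left (5 / 3 : ℝ)
  refine Summable.of_nonneg_of_le (fun N => norm_nonneg _) (fun N => ?_) hS
  rcases Nat.eq_zero_or_pos N with rfl | hN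
  · rw [hz, mul_zero, zero_mul, norm_zero]
    positivity
  · have hE : ‖ee ((N : ℂ) * (τ : ℂ) / (D : ℂ))‖ = ρ ^ N := by
      rw [norm_ee, hρ, ← Real.exp_nat_mul]
      congr 1
      have h1 : (N : ℂ) * (τ : ℂ) / (D : ℂ) = (((N : ℝ) / (D : ℝ) : ℝ) : ℂ) * (τ : ℂ) := by
        push_cast
        ring
      rw [h1, Complex.im_ofReal_mul, UpperHalfPlane.coe_im]
      field_simp
    rw [norm_mul, norm_mul, norm_pow, Complex.norm_natCast, hE]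
    have hs := sig_bound k 1 D N hk hN.ne'
    calc (N : ℝ) ^ i * ‖sig k 1 D N‖ * ρ ^ N ≤
          (N : ℝ) ^ i * (5 / 3 * (N : ℝ) ^ (k - 1)) * ρ ^ N := by gcongr
      _ = 5 / 3 * ((N : ℝ) ^ (i + (k - 1)) * ρ ^ N) := by
          rw [pow_add]
          ring

private theorem pA5_coef (D k e i : ℕ) (hD : 0 < D) (hi : i ∈ Finset.range (e / 2 + 1))
    (N u : ℂ) :
    cf e i * ((D : ℂ) ^ (e - i))⁻¹ * (((D : ℂ) ^ i)⁻¹ *
      ((-(2 * (Real.pi : ℂ) * Complex.I)) ^ i *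
        (((k - 1).factorial : ℂ) / ((k + i - 1).factorial : ℂ)))) * (N ^ i * u ^ (e - 2 * i)) =
    ((D : ℂ) ^ e)⁻¹ * (((e.factorial : ℂ) / ((i.factorial : ℂ) * ((e - 2 * i).factorial : ℂ))) *
      (((k - 1).factorial : ℂ) / ((k + i - 1).factorial : ℂ)) * (-N) ^ i * u ^ (e - 2 * i)) := by
  rw [Finset.mem_range] at hi
  have hD0 : (D : ℂ) ≠ 0 := by exact_mod_cast hD.ne'
  have hpi : (2 * (Real.pi : ℂ) * Complex.I) ^ i ≠ 0 := pow_ne_zero _ Complex.two_pi_I_ne_zero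
  have he : (D : ℂ) ^ e = (D : ℂ) ^ (e - i) * (D : ℂ) ^ i := by
    rw [← pow_add]
    congr 1
    omega
  have h1 : (-(2 * (Real.pi : ℂ) * Complex.I)) ^ i =
      (-1) ^ i * (2 * (Real.pi : ℂ) * Complex.I) ^ i := by
    rw [← mul_pow]
    congr 1
    ring
  have h2 : (-N) ^ i = (-1) ^ i * N ^ i := by
    rw [← mul_pow]
    congr 1
    ring
  have h3 : ((2 * (Real.pi : ℂ) * Complex.I) ^ i)⁻¹ * (2 * (Real.pi : ℂ) * Complex.I) ^ i = 1 :=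
    inv_mul_cancel₀ hpi
  rw [he, h1, h2, mul_inv]
  unfold cf
  calc _ = ((2 * (Real.pi : ℂ) * Complex.I) ^ i)⁻¹ * (2 * (Real.pi : ℂ) * Complex.I) ^ i *
      (((D : ℂ) ^ (e - i))⁻¹ * ((D : ℂ) ^ i)⁻¹ *
        (((e.factorial : ℂ) / ((i.factorial : ℂ) * ((e - 2 * i).factorial : ℂ))) *
      (((k - 1).factorial : ℂ) / ((k + i - 1).factorial : ℂ)) * ((-1) ^ i * N ^ i) *
        u ^ (e - 2 * i))) := by ring
    _ = _ := by
      rw [h3, one_mul]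

private theorem pA5_const (D : ℕ) (hD : D.Prime) (hD2 : D ≠ 2) :
    (gD D)⁻¹ * (dl D / ((Real.sqrt D : ℝ) : ℂ)) * (D : ℂ) = ((jacobiSym (-1) D : ℤ) : ℂ) := by
  have hodd : Odd D := hD.odd_of_ne_two hD2
  have hs : ((Real.sqrt D : ℝ) : ℂ) * ((Real.sqrt D : ℝ) : ℂ) = (D : ℂ) := by
    rw [← Complex.ofReal_mul, Real.mul_self_sqrt (Nat.cast_nonneg D)]
    simp
  have hs0 : ((Real.sqrt D : ℝ) : ℂ) ≠ 0 := by
    intro h
    rw [h, mul_zero] at hs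
    exact hD.ne_zero (by exact_mod_cast hs.symm)
  rw [jacobiSym.at_neg_one hodd, ← hs]
  rcases Nat.odd_mod_four_iff.1 (Nat.odd_iff.1 hodd) with h | h
  · rw [ZMod.χ₄_nat_one_mod_four h]
    unfold gD dl
    rw [if_pos h, if_pos h]
    field_simp
    simp
  · rw [ZMod.χ₄_nat_three_mod_four h]
    unfold gD dl
    rw [if_neg (by omega), if_neg (by omega)]
    field_simp
    simp

private noncomputable def pA5_g (D : ℕ) (r : Fin 2) (p : ℕ × ℤ) : ℕ :=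
  ((4 * (p.1 : ℤ) + (2 * p.2 + ((r : ℕ) : ℤ)) ^ 2) / (D : ℤ)).toNat

/-- the terms of the double series -/
private noncomputable def pA5_F (D k e : ℕ) (τ : ℍ) (r : Fin 2) (p : ℕ × ℤ) : ℂ :=
  if (D : ℤ) ∣ 4 * (p.1 : ℤ) + (2 * p.2 + ((r : ℕ) : ℤ)) ^ 2 then
    sig k 1 D p.1 * Wp k e (p.1 : ℂ) ((2 * p.2 + ((r : ℕ) : ℤ) : ℤ) : ℂ) *
      ee (((4 * (p.1 : ℤ) + (2 * p.2 + ((r : ℕ) : ℤ)) ^ 2 : ℤ) : ℂ) * (τ : ℂ) / (4 * (D : ℂ))) else 0

private theorem pA5_fibre (D κ k e n : ℕ) (hD : 0 < D) (hD4 : D % 4 = cls κ 1) (τ : ℍ) (r : Fin 2)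
    (C : ℂ) :
    ∑' b : (pA5_g D r) ⁻¹' {n}, (C * pA5_F D k e τ r b) =
    if n % 4 = cls κ r then
      C * (∑ m ∈ Finset.Icc (-((D * n : ℕ) : ℤ)) (D * n : ℕ),
      (if m ^ 2 ≤ (D : ℤ) * n ∧ (4 : ℤ) ∣ (D : ℤ) * n - m ^ 2 then
        sig k 1 D (((D : ℤ) * n - m ^ 2) / 4).toNat *
          Wp k e ((((D : ℤ) * n - m ^ 2) / 4 : ℤ) : ℂ) (m : ℂ) else 0)) *
        ee ((n : ℂ) * (τ : ℂ) / 4) else 0 := by
  have hDz : (0 : ℤ) < D := by exact_mod_cast hD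
  have hD0 : (D : ℂ) ≠ 0 := by exact_mod_cast hD.ne'
  rw [tsum_subtype ((pA5_g D r) ⁻¹' {n})
        (fun b => C * pA5_F D k e τ r b)]
  -- the terms that are not zero
  have key : ∀ b : ℕ × ℤ, b ∈ (pA5_g D r) ⁻¹' {n} →
      (D : ℤ) ∣ 4 * (b.1 : ℤ) + (2 * b.2 + ((r : ℕ) : ℤ)) ^ 2 →
      4 * (b.1 : ℤ) + (2 * b.2 + ((r : ℕ) : ℤ)) ^ 2 = (D : ℤ) * n := by
    intro b hb hdvd
    have hb' : ((4 * (b.1 : ℤ) + (2 * b.2 + ((r : ℕ) : ℤ)) ^ 2) / (D : ℤ)).toNat = n := hb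
    have h0 : 0 ≤ 4 * (b.1 : ℤ) + (2 * b.2 + ((r : ℕ) : ℤ)) ^ 2 := by positivity
    have h1 : 0 ≤ (4 * (b.1 : ℤ) + (2 * b.2 + ((r : ℕ) : ℤ)) ^ 2) / (D : ℤ) :=
      Int.ediv_nonneg h0 hDz.le
    have h2 : (n : ℤ) = (4 * (b.1 : ℤ) + (2 * b.2 + ((r : ℕ) : ℤ)) ^ 2) / (D : ℤ) := by
      rw [← hb', Int.toNat_of_nonneg h1]
    rw [h2, Int.mul_ediv_cancel' hdvd]
  by_cases hn : n % 4 = cls κ r
  · rw [if_pos hn, ← Finset.sum_filter, Finset.mul_sum, Finset.sum_mul]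
    set S := (Finset.Icc (-((D * n : ℕ) : ℤ)) (D * n : ℕ)).filter
      (fun m => m ^ 2 ≤ (D : ℤ) * n ∧ (4 : ℤ) ∣ (D : ℤ) * n - m ^ 2) with hS
    set φ : ℤ → ℕ × ℤ := fun v => ((((D : ℤ) * n - v ^ 2) / 4).toNat,
      (v - ((r : ℕ) : ℤ)) / 2) with hφ
    have hSφ : ∀ v ∈ S, 2 * ((v - ((r : ℕ) : ℤ)) / 2) + ((r : ℕ) : ℤ) = v ∧
        ((((D : ℤ) * n - v ^ 2) / 4).toNat : ℤ) = ((D : ℤ) * n - v ^ 2) / 4 ∧
        4 * (((D : ℤ) * n - v ^ 2) / 4) = (D : ℤ) * n - v ^ 2 := by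
      intro v hv
      rw [hS, Finset.mem_filter] at hv
      obtain ⟨-, h1, h2⟩ := hv
      refine ⟨pA5_fib2 D κ hD4 r v n hn h2, ?_, ?_⟩
      · exact Int.toNat_of_nonneg (Int.ediv_nonneg (by linarith) (by norm_num))
      · rw [mul_comm]
        exact Int.ediv_mul_cancel h2
    rw [tsum_eq_sum (s := S.image φ) ?_, Finset.sum_image ?_]
    · refine Finset.sum_congr rfl fun v hv => ?_
      obtain ⟨h1, h2, h3⟩ := hSφ v hv
      have h4 : 4 * ((φ v).1 : ℤ) + (2 * (φ v).2 + ((r : ℕ) : ℤ)) ^ 2 = (D : ℤ) * n := by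
        show 4 * ((((D : ℤ) * n - v ^ 2) / 4).toNat : ℤ) +
          (2 * ((v - ((r : ℕ) : ℤ)) / 2) + ((r : ℕ) : ℤ)) ^ 2 = (D : ℤ) * n
        rw [h1, h2, h3]
        ring
      rw [Set.indicator_of_mem]
      · unfold pA5_F
        rw [h4, if_pos (Dvd.intro _ rfl)]
        have h5 : (2 * (φ v).2 + ((r : ℕ) : ℤ) : ℤ) = v := h1
        have h6 : ((φ v).1 : ℂ) = (((((D : ℤ) * n - v ^ 2) / 4 : ℤ)) : ℂ) := by
          rw [← h2]
          rfl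
        have h7 : (((D : ℤ) * n : ℤ) : ℂ) * (τ : ℂ) / (4 * (D : ℂ)) = (n : ℂ) * (τ : ℂ) / 4 := by
          push_cast
          field_simp
        rw [h5, h6, h7, ← mul_assoc]
      · show ((4 * ((φ v).1 : ℤ) + (2 * (φ v).2 + ((r : ℕ) : ℤ)) ^ 2) / (D : ℤ)).toNat = n
        rw [h4, Int.mul_ediv_cancel_left _ hDz.ne']
        exact Int.toNat_natCast n
    · intro v hv w hw hvw
      have h1 := (hSφ v hv).1
      have h2 := (hSφ w hw).1
      have h3 : (v - ((r : ℕ) : ℤ)) / 2 = (w - ((r : ℕ) : ℤ)) / 2 := congrArg Prod.snd hvw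
      rw [← h1, ← h2, h3]
    · intro b hb
      by_cases hbm : b ∈ (pA5_g D r) ⁻¹' {n}
      · rw [Set.indicator_of_mem hbm]
        by_cases hdvd : (D : ℤ) ∣ 4 * (b.1 : ℤ) + (2 * b.2 + ((r : ℕ) : ℤ)) ^ 2
        · exfalso
          apply hb
          have h1 := key b hbm hdvd
          rw [Finset.mem_image]
          refine ⟨2 * b.2 + ((r : ℕ) : ℤ), ?_, ?_⟩
          · have h2 : (2 * b.2 + ((r : ℕ) : ℤ)) ^ 2 ≤ (D : ℤ) * n := by
              rw [← h1]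
              have := Int.natCast_nonneg b.1
              linarith
            have h3 : |2 * b.2 + ((r : ℕ) : ℤ)| ≤ (2 * b.2 + ((r : ℕ) : ℤ)) ^ 2 := by
              rw [← sq_abs]
              exact Int.le_self_sq _
            have h4 := abs_le.1 (h3.trans h2)
            rw [hS, Finset.mem_filter, Finset.mem_Icc]
            push_cast
            refine ⟨⟨h4.1, h4.2⟩, h2, ?_⟩
            exact ⟨b.1, by linarith⟩
          · refine Prod.ext ?_ ?_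
            · show (((D : ℤ) * n - (2 * b.2 + ((r : ℕ) : ℤ)) ^ 2) / 4).toNat = b.1
              have h5 : (D : ℤ) * n - (2 * b.2 + ((r : ℕ) : ℤ)) ^ 2 = 4 * (b.1 : ℤ) := by linarith
              rw [h5, Int.mul_ediv_cancel_left _ (by norm_num)]
              exact Int.toNat_natCast _
            · show (2 * b.2 + ((r : ℕ) : ℤ) - ((r : ℕ) : ℤ)) / 2 = b.2
              omega
        · unfold pA5_F
          rw [if_neg hdvd, mul_zero]
      · rw [Set.indicator_of_notMem hbm]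
  · rw [if_neg hn]
    have h0 : ∀ b : ℕ × ℤ, ((pA5_g D r) ⁻¹' {n}).indicator
        (fun b => C * pA5_F D k e τ r b) b = 0 := by
      intro b
      by_cases hbm : b ∈ (pA5_g D r) ⁻¹' {n}
      · rw [Set.indicator_of_mem hbm]
        by_cases hdvd : (D : ℤ) ∣ 4 * (b.1 : ℤ) + (2 * b.2 + ((r : ℕ) : ℤ)) ^ 2
        · exact absurd (pA5_fib1 D κ hD4 r b.1 b.2 n (key b hbm hdvd)) hn
        · unfold pA5_F
          rw [if_neg hdvd, mul_zero]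
      · rw [Set.indicator_of_notMem hbm]
    simp only [h0, tsum_zero]

theorem hasSum_zero (D κ k e : ℕ) (hD : D.Prime) (hD2 : D ≠ 2) (hD4 : D % 4 = cls κ 1) (hk : 3 ≤ k)
    (hpar : jacobiSym (-1) D = (-1) ^ k) (τ : ℍ) (r : Fin 2) :
    HasSum (fun n : ℕ ↦ if n % 4 = cls κ r then
        2 / Lval D (1 - (k : ℂ)) * cgZ D k e n * ee ((n : ℂ) * (τ : ℂ) / 4) else 0)
      (∑ β ∈ Finset.range D, ∑ i ∈ Finset.range (e / 2 + 1),
        cf e i * ((D : ℂ) ^ (e - i))⁻¹ * (dl D / ((Real.sqrt D : ℝ) : ℂ)) * tw κ r β *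
          EZero D k i (mob (mT β) τ) *
          ph 1 (e - 2 * i) (mob !![1, (β : ℤ); 0, (D : ℤ)] τ) r) := by
  haveI : NeZero D := ⟨hD.ne_zero⟩
  have hD0 : (D : ℂ) ≠ 0 := by exact_mod_cast hD.ne_zero
  have hz : sig k 1 D 0 = 0 := by
    rw [sig, if_pos rfl, Lval_zero k 1 D hk hD.one_lt (by rw [one_mul]; exact hpar), neg_zero]
  set c0 : ℂ := 2 / Lval D (1 - (k : ℂ)) with hc0
  -- one product
  have hprod : ∀ (β : ℕ) (i : ℕ), HasSum (fun p : ℕ × ℤ ↦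
      (cf e i * ((D : ℂ) ^ (e - i))⁻¹ * (dl D / ((Real.sqrt D : ℝ) : ℂ)) * tw κ r (β : ℤ) *
        (c0 * (gD D)⁻¹ * ((D : ℂ) ^ i)⁻¹ * ((-(2 * (Real.pi : ℂ) * Complex.I)) ^ i *
        (((k - 1).factorial : ℂ) / ((k + i - 1).factorial : ℂ))))) *
      (((p.1 : ℂ) ^ i * sig k 1 D p.1 *
          ee ((p.1 : ℂ) * ((mob (mT (β : ℤ)) τ : ℍ) : ℂ) / (D : ℂ))) *
        ((2 * (p.2 : ℂ) + ((r : ℕ) : ℂ)) ^ (e - 2 * i) *
          ee (((1 : ℕ) : ℂ) * (2 * (p.2 : ℂ) + ((r : ℕ) : ℂ)) ^ 2 *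
            ((mob !![1, (β : ℤ); 0, (D : ℤ)] τ : ℍ) : ℂ) / 4))))
      (cf e i * ((D : ℂ) ^ (e - i))⁻¹ * (dl D / ((Real.sqrt D : ℝ) : ℂ)) * tw κ r (β : ℤ) *
          EZero D k i (mob (mT (β : ℤ)) τ) *
          ph 1 (e - 2 * i) (mob !![1, (β : ℤ); 0, (D : ℤ)] τ) r) := by
    intro β i
    have hA := pA5_sumN D k i hD.pos hk hz (mob (mT (β : ℤ)) τ)
    have hB := summable_norm_iff.2
      (ph_summable 1 (e - 2 * i) one_pos (mob !![1, (β : ℤ); 0, (D : ℤ)] τ) r)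
    have hsum := summable_mul_of_summable_norm hA hB
    have htsum := tsum_mul_tsum_of_summable_norm hA hB
    have hE := EZero_eq D k i hD hD2 hk hpar (mob (mT (β : ℤ)) τ)
    have hif : (∑' N : ℕ, if N = 0 then 0 else
        (N : ℂ) ^ i * sig k 1 D N * ee ((N : ℂ) * ((mob (mT (β : ℤ)) τ : ℍ) : ℂ) / (D : ℂ))) =
        ∑' N : ℕ, (N : ℂ) ^ i * sig k 1 D N *
          ee ((N : ℂ) * ((mob (mT (β : ℤ)) τ : ℍ) : ℂ) / (D : ℂ)) := by
      refine tsum_congr fun N => ?_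
      split_ifs with h
      · rw [h, hz, mul_zero, zero_mul]
      · rfl
    rw [hif] at hE
    have hP : ph 1 (e - 2 * i) (mob !![1, (β : ℤ); 0, (D : ℤ)] τ) r =
      ∑' m : ℤ, (2 * (m : ℂ) + ((r : ℕ) : ℂ)) ^ (e - 2 * i) *
        ee (((1 : ℕ) : ℂ) * (2 * (m : ℂ) + ((r : ℕ) : ℂ)) ^ 2 *
          ((mob !![1, (β : ℤ); 0, (D : ℤ)] τ : ℍ) : ℂ) / 4) := rfl
    have h1 := hsum.hasSum
    rw [← htsum, ← hP] at h1
    have h2 := h1.mul_left (cf e i * ((D : ℂ) ^ (e - i))⁻¹ *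
      (dl D / ((Real.sqrt D : ℝ) : ℂ)) * tw κ r (β : ℤ) *
        (c0 * (gD D)⁻¹ * ((D : ℂ) ^ i)⁻¹ * ((-(2 * (Real.pi : ℂ) * Complex.I)) ^ i *
        (((k - 1).factorial : ℂ) / ((k + i - 1).factorial : ℂ)))))
    rw [hE]
    refine Eq.subst (motive := fun v => HasSum _ v) ?_ h2
    ring
  have hall : HasSum _ _ := hasSum_sum (s := Finset.range D) fun β _ =>
    hasSum_sum (s := Finset.range (e / 2 + 1)) fun i _ => hprod β i
  set C : ℂ := c0 * (((jacobiSym (-1) D : ℤ) : ℂ) * ((D : ℂ) ^ e)⁻¹) with hC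
  have hpt : ∀ p : ℕ × ℤ, (∑ β ∈ Finset.range D, ∑ i ∈ Finset.range (e / 2 + 1),
      (cf e i * ((D : ℂ) ^ (e - i))⁻¹ * (dl D / ((Real.sqrt D : ℝ) : ℂ)) * tw κ r (β : ℤ) *
        (c0 * (gD D)⁻¹ * ((D : ℂ) ^ i)⁻¹ * ((-(2 * (Real.pi : ℂ) * Complex.I)) ^ i *
        (((k - 1).factorial : ℂ) / ((k + i - 1).factorial : ℂ))))) *
      (((p.1 : ℂ) ^ i * sig k 1 D p.1 *
          ee ((p.1 : ℂ) * ((mob (mT (β : ℤ)) τ : ℍ) : ℂ) / (D : ℂ))) *
        ((2 * (p.2 : ℂ) + ((r : ℕ) : ℂ)) ^ (e - 2 * i) *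
          ee (((1 : ℕ) : ℂ) * (2 * (p.2 : ℂ) + ((r : ℕ) : ℂ)) ^ 2 *
            ((mob !![1, (β : ℤ); 0, (D : ℤ)] τ : ℍ) : ℂ) / 4)))) =
      C * pA5_F D k e τ r p := by
    rintro ⟨N, m⟩
    have hβ : ∀ β ∈ Finset.range D, (∑ i ∈ Finset.range (e / 2 + 1),
      (cf e i * ((D : ℂ) ^ (e - i))⁻¹ * (dl D / ((Real.sqrt D : ℝ) : ℂ)) * tw κ r (β : ℤ) *
        (c0 * (gD D)⁻¹ * ((D : ℂ) ^ i)⁻¹ * ((-(2 * (Real.pi : ℂ) * Complex.I)) ^ i *
        (((k - 1).factorial : ℂ) / ((k + i - 1).factorial : ℂ))))) *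
      (((N : ℂ) ^ i * sig k 1 D N *
          ee ((N : ℂ) * ((mob (mT (β : ℤ)) τ : ℍ) : ℂ) / (D : ℂ))) *
        ((2 * (m : ℂ) + ((r : ℕ) : ℂ)) ^ (e - 2 * i) *
          ee (((1 : ℕ) : ℂ) * (2 * (m : ℂ) + ((r : ℕ) : ℂ)) ^ 2 *
            ((mob !![1, (β : ℤ); 0, (D : ℤ)] τ : ℍ) : ℂ) / 4)))) =
        (c0 * (gD D)⁻¹ * (dl D / ((Real.sqrt D : ℝ) : ℂ)) * ((D : ℂ) ^ e)⁻¹ *
        (sig k 1 D N * Wp k e (N : ℂ) ((2 * m + ((r : ℕ) : ℤ) : ℤ) : ℂ) *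
          ee (((4 * (N : ℤ) + (2 * m + ((r : ℕ) : ℤ)) ^ 2 : ℤ) : ℂ) * (τ : ℂ) /
            (4 * (D : ℂ))))) *
        (tw κ r (β : ℤ) * ee (((4 * (N : ℤ) + (2 * m + ((r : ℕ) : ℤ)) ^ 2 : ℤ) : ℂ) * (β : ℂ) /
          (4 * (D : ℂ)))) := by
      intro β _
      have hEE : ee ((N : ℂ) * ((mob (mT (β : ℤ)) τ : ℍ) : ℂ) / (D : ℂ)) *
          ee (((1 : ℕ) : ℂ) * (2 * (m : ℂ) + ((r : ℕ) : ℂ)) ^ 2 *
            ((mob !![1, (β : ℤ); 0, (D : ℤ)] τ : ℍ) : ℂ) / 4) =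
          ee (((4 * (N : ℤ) + (2 * m + ((r : ℕ) : ℤ)) ^ 2 : ℤ) : ℂ) * (τ : ℂ) / (4 * (D : ℂ))) *
          ee (((4 * (N : ℤ) + (2 * m + ((r : ℕ) : ℤ)) ^ 2 : ℤ) : ℂ) * (β : ℂ) /
            (4 * (D : ℂ))) := by
        rw [← ee_add, ← ee_add, pA5_coeT, pA5_coeD τ (β : ℤ) D hD.pos]
        congr 1
        push_cast
        field_simp
      have hW : Wp k e (N : ℂ) ((2 * m + ((r : ℕ) : ℤ) : ℤ) : ℂ) =
        ∑ i ∈ Finset.range (e / 2 + 1),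
          ((e.factorial : ℂ) / ((i.factorial : ℂ) * ((e - 2 * i).factorial : ℂ))) *
          (((k - 1).factorial : ℂ) / ((k + i - 1).factorial : ℂ)) * (-(N : ℂ)) ^ i *
          (2 * (m : ℂ) + ((r : ℕ) : ℂ)) ^ (e - 2 * i) := by
        unfold Wp
        push_cast
        rfl
      rw [hW]
      calc _ = ∑ i ∈ Finset.range (e / 2 + 1),
          (c0 * (gD D)⁻¹ * (dl D / ((Real.sqrt D : ℝ) : ℂ)) * ((D : ℂ) ^ e)⁻¹ * sig k 1 D N *
            tw κ r (β : ℤ) *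
            (ee (((4 * (N : ℤ) + (2 * m + ((r : ℕ) : ℤ)) ^ 2 : ℤ) : ℂ) * (τ : ℂ) /
              (4 * (D : ℂ))) *
            ee (((4 * (N : ℤ) + (2 * m + ((r : ℕ) : ℤ)) ^ 2 : ℤ) : ℂ) * (β : ℂ) /
              (4 * (D : ℂ))))) *
          (((e.factorial : ℂ) / ((i.factorial : ℂ) * ((e - 2 * i).factorial : ℂ))) *
          (((k - 1).factorial : ℂ) / ((k + i - 1).factorial : ℂ)) * (-(N : ℂ)) ^ i *
          (2 * (m : ℂ) + ((r : ℕ) : ℂ)) ^ (e - 2 * i)) := by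
            refine Finset.sum_congr rfl fun i hi => ?_
            have hco := pA5_coef D k e i hD.pos hi (N : ℂ) (2 * (m : ℂ) + ((r : ℕ) : ℂ))
            rw [← hEE]
            generalize ee ((N : ℂ) * ((mob (mT (β : ℤ)) τ : ℍ) : ℂ) / (D : ℂ)) = E1
            generalize ee (((1 : ℕ) : ℂ) * (2 * (m : ℂ) + ((r : ℕ) : ℂ)) ^ 2 *
              ((mob !![1, (β : ℤ); 0, (D : ℤ)] τ : ℍ) : ℂ) / 4) = E2
            calc _ = (c0 * (gD D)⁻¹ * (dl D / ((Real.sqrt D : ℝ) : ℂ)) * sig k 1 D N *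
                tw κ r (β : ℤ) * (E1 * E2)) * (cf e i * ((D : ℂ) ^ (e - i))⁻¹ *
                (((D : ℂ) ^ i)⁻¹ * ((-(2 * (Real.pi : ℂ) * Complex.I)) ^ i *
                (((k - 1).factorial : ℂ) / ((k + i - 1).factorial : ℂ)))) *
                ((N : ℂ) ^ i * (2 * (m : ℂ) + ((r : ℕ) : ℂ)) ^ (e - 2 * i))) := by ring
              _ = _ := by
                rw [hco]
                ring
        _ = _ := by
            rw [← Finset.mul_sum]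
            ring
    show (∑ β ∈ Finset.range D, ∑ i ∈ Finset.range (e / 2 + 1), _) = _
    rw [Finset.sum_congr rfl hβ, ← Finset.mul_sum, pA5_tw D κ hD hD2 hD4 r N m]
    unfold pA5_F
    rw [hC, ← pA5_const D hD hD2]
    split_ifs with h
    · ring
    · rw [mul_zero, mul_zero]
  have hF := Eq.subst (motive := fun f => HasSum f _) (funext hpt) hall
  have hfin := hF.tsum_fiberwise (pA5_g D r)
  refine Eq.subst (motive := fun f => HasSum f _) (funext ?_) hfin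
  intro n
  rw [pA5_fibre D κ k e n hD.pos hD4 τ r C]
  unfold cgZ
  split_ifs with h
  · rw [hC]
    ring
  · rfl

end MP836e4b.P
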