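/-
MODULE PA6 (size M), board mod836, MP_836e4b_nt, folder Work/MP_836e4b_nt/P. Keep the statements verbatim, helper lemmas private.
g_D = Pser κ (ph D e) is in the plus space: PA3 + PA4 + PA5 give HasE.sum; zero: cg D k e 0 = 0: only m = 0 counts,
Wp k e 0 0 = 0 since e ≥ 2 (m^e = 0 for i = 0; x^i = 0 for i ≥ 1); supp: n outside the classes: the conditions
4 ∣ n - Dm² (first part) and 4 ∣ Dn - m² (second) force n % 4 in {0, D % 4}. inv: Pser_inv with
seedInv_of_hasE (hasE_ph) and seedSum_of_bd (ph_bound).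
-/
import Mathlib
import Pool.Agent.Work.MP_836e4b_nt.P.Defs
import Pool.Agent.Work.MP_836e4b_nt.P.PA3
import Pool.Agent.Work.MP_836e4b_nt.P.PA4
import Pool.Agent.Work.MP_836e4b_nt.P.PA5
import Pool.Agent.Work.MP_836e4b_nt.P.PInv
import Pool.Agent.Work.MP_836e4b_nt.P.SeedB

open UpperHalfPlane Complex
open scoped MatrixGroups ComplexConjugate Matrix

namespace MP836e4b.P

private theorem wp_zero (k e : ℕ) (he : 0 < e) : Wp k e 0 0 = 0 := by
  unfold Wp
  refine Finset.sum_eq_zero fun i hi ↦ ?_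
  rcases Nat.eq_zero_or_pos i with h | h
  · subst h
    have : (0 : ℂ) ^ (e - 2 * 0) = 0 := zero_pow (by omega)
    rw [this, mul_zero]
  · rw [neg_zero, zero_pow (by omega), mul_zero, zero_mul]

private theorem sq_mod4 (m : ℤ) : m ^ 2 % 4 = 0 ∨ m ^ 2 % 4 = 1 := by
  rcases Int.even_or_odd' m with ⟨t, rfl | rfl⟩
  · left; ring_nf; omega
  · right; ring_nf; omega

private theorem cgI_supp (D k e n : ℕ) (h1 : n % 4 ≠ 0) (h2 : n % 4 ≠ D % 4) :
    cgI D k e n = 0 := by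
  unfold cgI
  refine Finset.sum_eq_zero fun m _ ↦ ?_
  rw [if_neg]
  rintro ⟨-, h⟩
  rcases sq_mod4 m with h3 | h3
  · have h4 : ((D : ℤ) * m ^ 2) % 4 = 0 := by
      rw [Int.mul_emod, h3]; simp
    omega
  · have h4 : ((D : ℤ) * m ^ 2) % 4 = (D : ℤ) % 4 := by
      rw [Int.mul_emod, h3]; simp
    omega

private theorem cgZ_supp (D k e n : ℕ) (hD : D % 4 = 1 ∨ D % 4 = 3) (h1 : n % 4 ≠ 0)
    (h2 : n % 4 ≠ D % 4) : cgZ D k e n = 0 := by
  unfold cgZ
  rw [Finset.sum_eq_zero, mul_zero]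
  intro m _
  rw [if_neg]
  rintro ⟨-, h⟩
  have hDn : ((D : ℤ) * (n : ℤ)) % 4 = ((D : ℤ) % 4) * ((n : ℤ) % 4) % 4 := Int.mul_emod _ _ _
  have hn : n % 4 < 4 := Nat.mod_lt _ (by norm_num)
  rcases sq_mod4 m with h3 | h3 <;> rcases hD with h5 | h5
  · have h6 : (D : ℤ) % 4 = 1 := by omega
    rw [h6] at hDn; omega
  · have h6 : (D : ℤ) % 4 = 3 := by omega
    rw [h6] at hDn; omega
  · have h6 : (D : ℤ) % 4 = 1 := by omega
    rw [h6] at hDn; omega
  · have h6 : (D : ℤ) % 4 = 3 := by omega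
    rw [h6] at hDn; omega

theorem isP_gD (D κ k e : ℕ) (hD : D.Prime) (hD2 : D ≠ 2) (hD4 : D % 4 = cls κ 1) (hκ : κ = k + e)
    (hk : 3 ≤ k) (he : Even e) (he2 : 2 ≤ e) (hpar : jacobiSym (-1) D = (-1) ^ k) :
    IsP κ (fun n ↦ 2 / Lval D (1 - (k : ℂ)) * cg D k e n) (Pser κ (ph D e)) := by
  have hDpos : 0 < D := hD.pos
  refine ⟨⟨?_, ?_, ?_⟩, ?_⟩
  · -- the coefficient at zero
    have h0 : cg D k e 0 = 0 := by
      have hW : Wp k e 0 0 = 0 := wp_zero k e (by omega)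
      simp [cg, hW]
    simp only [h0, mul_zero]
  · intro n h1 h2
    have h3 : cg D k e n = 0 := by
      rw [cg_eq]
      have hc1 : n % 4 ≠ 0 := by
        simpa [cls] using h1
      have hc2 : n % 4 ≠ D % 4 := by rw [hD4]; exact h2
      have hD' : D % 4 = 1 ∨ D % 4 = 3 := by
        rw [hD4]
        unfold cls
        by_cases hk2 : Even κ <;> simp [hk2]
      rw [cgI_supp D k e n hc1 hc2, cgZ_supp D k e n hD' hc1 hc2, add_zero]
    simp only [h3, mul_zero]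
  · intro τ r
    rw [Pser_ph D κ k e hD hD4 hκ hk τ r]
    have h1 := (hasSum_inf D κ k e hD hD2 hD4 hk hpar τ r).add
      (hasSum_zero D κ k e hD hD2 hD4 hk hpar τ r)
    have h2 : (fun n : ℕ ↦ if n % 4 = cls κ r then
        2 / Lval D (1 - (k : ℂ)) * cg D k e n * ee ((n : ℂ) * (τ : ℂ) / 4) else 0) =
        fun n : ℕ ↦ (if n % 4 = cls κ r then
          2 / Lval D (1 - (k : ℂ)) * cgI D k e n * ee ((n : ℂ) * (τ : ℂ) / 4) else 0) +
        (if n % 4 = cls κ r then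
          2 / Lval D (1 - (k : ℂ)) * cgZ D k e n * ee ((n : ℂ) * (τ : ℂ) / 4) else 0) := by
      funext n
      split_ifs with h
      · rw [cg_eq]; ring
      · rw [add_zero]
    rw [h2]
    exact h1
  · intro γ
    exact Pser_inv κ _ (seedInv_of_hasE κ _ _ (hasE_ph D e κ hDpos he he2 hD4))
      (seedSum_of_bd κ k e hk hκ _ (ph_bound D e hDpos (by omega))) γ

end MP836e4b.P
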