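/-
MODULE PtU (size L), board mod836, MP_836e4b_nt, folder Work/MP_836e4b_nt/P. Keep the statements verbatim, helper lemmas private.
Unfolding. Let G(τ) = ∑_r g_r conj(f_r) (Im τ)^(κ+1/2). For γ_v = gam v: ∑_r g_r(τ) conj((sl κ 1 γ_v f)_r(τ)) (Im τ)^(..) =
G(γ_v τ) (sl_inner with g = sl κ 1 γ_v g). So the integrand of pet κ g (Pser κ f) is (1/2)∑_v G(γ_v τ), v coprime pairs;
±v give the same term. ∫_fd ∑_{v mod ±} G(γ_v τ) = ∫_{strip} G: the sets T^n γ_v fd tile ℍ up to measure zero, the strip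
0 ≤ Re < 1 is a fundamental domain of the translations, G is invariant under T, the volume is SL(2,Z)-invariant.
(See Work/MP_af11aa_nt/Unfold.lean, K/Pairing.lean, K/Fold.lean for a similar unfolding in Lean; Mathlib
MeasureTheory.IsFundamentalDomain also has integral_tsum lemmas.) Absolute convergence: ∫_strip |G| < ∞:
|g| ≤ C y^{-(2κ+1)/4} (isP_sup), |f| ≤ C y^{-(e+1)/2} and dμ = dxdy/y²: near 0 the integrand is ≤ C y^{(k-5)/2 + 1/4}
= y^{k/2-9/4} ≥ exponent -3/4; near ∞ hasE_decay for g.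
-/
import Mathlib
import Pool.Agent.Work.MP_836e4b_nt.P.Defs
import Pool.Agent.Work.MP_836e4b_nt.P.PInv
import Pool.Agent.Work.MP_836e4b_nt.P.SeedB
import Pool.Agent.Work.MP_836e4b_nt.P.Sup
import Pool.Agent.Work.MP_836e4b_nt.P.Cont

open UpperHalfPlane Complex
open scoped MatrixGroups ComplexConjugate Matrix

namespace MP836e4b.P

/-- The strip `0 ≤ Re τ < 1`. -/
def strip : Set ℍ := {τ | 0 ≤ τ.re ∧ τ.re < 1}

open MeasureTheory
open scoped ENNReal NNReal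

private theorem ptu_line (a : ℝ) : volume {w : ℂ | w.re = a} = 0 := by
  have h1 : {w : ℂ | w.re = a} = Complex.measurableEquivRealProd ⁻¹' (({a} : Set ℝ) ×ˢ Set.univ) := by
    ext w
    simp [Complex.measurableEquivRealProd_apply]
  rw [h1, Complex.volume_preserving_equiv_real_prod.measure_preimage_equiv, Measure.volume_eq_prod,
    Measure.prod_prod]
  simp

private theorem ptu_bdry : volume ((ModularGroup.fd : Set ℍ) \ ModularGroup.fdo) = 0 := by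
  rw [volume_eq_lintegral]
  refine setLIntegral_measure_zero _ _ ?_
  have h0 : volume ({w : ℂ | ‖w‖ = 1} ∪ ({w : ℂ | w.re = 1 / 2} ∪ {w : ℂ | w.re = -(1 / 2)})) = 0 := by
    rw [measure_union_null_iff, measure_union_null_iff]
    refine ⟨?_, ptu_line _, ptu_line _⟩
    have : {w : ℂ | ‖w‖ = 1} = Metric.sphere (0 : ℂ) 1 := by
      ext w
      simp
    rw [this]
    exact Measure.addHaar_sphere _ _ _
  refine measure_mono_null ?_ h0
  rintro _ ⟨z, ⟨hz1, hz2⟩, rfl⟩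
  have hz3 : ¬ (1 < Complex.normSq (z : ℂ) ∧ |z.re| < (1 : ℝ) / 2) := hz2
  have hz4 : 1 ≤ Complex.normSq (z : ℂ) ∧ |z.re| ≤ (1 : ℝ) / 2 := hz1
  by_cases h : 1 < Complex.normSq (z : ℂ)
  · right
    have h2 : ¬ |z.re| < (1 : ℝ) / 2 := fun h3 => hz3 ⟨h, h3⟩
    have h3 : |z.re| = 1 / 2 := le_antisymm hz4.2 (not_lt.1 h2)
    rcases (abs_eq (by norm_num)).1 h3 with h4 | h4
    · left; exact h4
    · right; exact h4
  · left
    have h2 : Complex.normSq (z : ℂ) = 1 := le_antisymm (not_lt.1 h) hz4.1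
    show ‖(z : ℂ)‖ = 1
    rw [Complex.normSq_eq_norm_sq] at h2
    nlinarith [norm_nonneg (z : ℂ)]

private instance ptu_count : Countable SL(2, ℤ) := by
  have : Function.Injective (fun (γ : SL(2, ℤ)) ↦ (fun i j ↦ γ i j : Fin 2 → Fin 2 → ℤ)) := by
    intro a b h
    ext i j
    exact congrFun (congrFun h i) j
  exact this.countable

private theorem ptu_mp (γ : SL(2, ℤ)) :
    MeasurePreserving (fun z : ℍ ↦ γ • z) volume volume :=
  measurePreserving_smul (γ : GL (Fin 2) ℝ) (volume : Measure ℍ)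

private theorem ptu_emb (γ : SL(2, ℤ)) : MeasurableEmbedding (fun z : ℍ ↦ γ • z) :=
  measurableEmbedding_const_smul (γ : GL (Fin 2) ℝ)

private theorem ptu_ae : ∀ᵐ z : ℍ, ∃ γ : SL(2, ℤ), γ • z ∈ (ModularGroup.fdo : Set ℍ) := by
  have h : ∀ᵐ z : ℍ, ∀ γ : SL(2, ℤ), γ • z ∉ (ModularGroup.fd : Set ℍ) \ ModularGroup.fdo := by
    rw [ae_all_iff]
    intro γ
    have h1 : volume ((fun z : ℍ ↦ γ • z) ⁻¹' ((ModularGroup.fd : Set ℍ) \ ModularGroup.fdo)) = 0 := by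
      rw [(ptu_mp γ).measure_preimage_emb (ptu_emb γ)]
      exact ptu_bdry
    rw [ae_iff]
    refine measure_mono_null ?_ h1
    intro z hz
    simpa using hz
  filter_upwards [h] with z hz
  obtain ⟨γ, hγ⟩ := ModularGroup.exists_smul_mem_fd z
  refine ⟨γ, ?_⟩
  by_contra hc
  exact hz γ ⟨hγ, hc⟩

private theorem ptu_two (z : ℍ) (γ : SL(2, ℤ)) (hγ : γ • z ∈ (ModularGroup.fdo : Set ℍ)) :
    ∑' g : SL(2, ℤ), (ModularGroup.fd : Set ℍ).indicator (1 : ℍ → ℝ≥0∞) (g⁻¹ • z) = 2 := by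
  classical
  have h1 : ∀ g : SL(2, ℤ), g ∉ ({γ⁻¹, -γ⁻¹} : Finset SL(2, ℤ)) →
      (ModularGroup.fd : Set ℍ).indicator (1 : ℍ → ℝ≥0∞) (g⁻¹ • z) = 0 := by
    intro g hg
    apply Set.indicator_of_notMem
    intro hz
    apply hg
    have h2 : (g⁻¹ * γ⁻¹) • (γ • z) ∈ (ModularGroup.fd : Set ℍ) := by
      rw [mul_smul, inv_smul_smul]
      exact hz
    rcases ModularGroup.eq_one_or_neg_one_of_mem_fdo_mem_fd hγ h2 with h3 | h3
    · rw [Finset.mem_insert]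
      left
      exact (inv_mul_eq_one.1 h3)
    · rw [Finset.mem_insert, Finset.mem_singleton]
      right
      have h4 : γ⁻¹ = g * (-1) := by
        rw [← h3]
        group
      rw [h4]
      simp
  rw [tsum_eq_sum h1]
  have hne : γ⁻¹ ≠ -γ⁻¹ := by
    intro h
    have h2 : ((γ⁻¹ : SL(2, ℤ)) : Matrix (Fin 2) (Fin 2) ℤ) =
      ((-γ⁻¹ : SL(2, ℤ)) : Matrix (Fin 2) (Fin 2) ℤ) := by rw [← h]
    have h3 : ∀ i j, ((γ⁻¹ : SL(2, ℤ)) : Matrix (Fin 2) (Fin 2) ℤ) i j = 0 := by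
      intro i j
      have h4 := congrFun (congrFun h2 i) j
      rw [Matrix.SpecialLinearGroup.coe_neg, Matrix.neg_apply] at h4
      omega
    have h5 := (γ⁻¹).det_coe
    rw [Matrix.det_fin_two, h3 0 0, h3 0 1] at h5
    norm_num at h5
  have e1 : (γ⁻¹)⁻¹ • z ∈ (ModularGroup.fd : Set ℍ) := by
    rw [inv_inv]
    exact ModularGroup.fdo_subset_fd hγ
  have e2 : (-γ⁻¹)⁻¹ • z ∈ (ModularGroup.fd : Set ℍ) := by
    have : (-γ⁻¹)⁻¹ = -γ := by
      rw [inv_eq_iff_mul_eq_one]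
      simp
    rw [this, ModularGroup.SL_neg_smul]
    exact ModularGroup.fdo_subset_fd hγ
  rw [Finset.sum_pair hne, Set.indicator_of_mem e1, Set.indicator_of_mem e2]
  norm_num

private theorem ptu_sum : Measure.sum (fun γ : SL(2, ℤ) ↦
    ((volume : Measure ℍ).restrict (ModularGroup.fd : Set ℍ)).map (fun z ↦ γ • z)) =
      (2 : ℝ≥0∞) • (volume : Measure ℍ) := by
  have h𝒟 : MeasurableSet (ModularGroup.fd : Set ℍ) := ModularGroup.isClosed_fd.measurableSet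
  have h𝒟1 : Measurable ((ModularGroup.fd : Set ℍ).indicator (1 : ℍ → ℝ≥0∞)) :=
    measurable_one.indicator h𝒟
  ext S hS
  have hS1 : Measurable (S.indicator (1 : ℍ → ℝ≥0∞)) := measurable_one.indicator hS
  rw [Measure.sum_apply _ hS, Measure.smul_apply, smul_eq_mul]
  have h1 : ∀ γ : SL(2, ℤ), (((volume : Measure ℍ).restrict (ModularGroup.fd : Set ℍ)).map
      (fun z ↦ γ • z)) S = ∫⁻ z, S.indicator 1 z *
        (ModularGroup.fd : Set ℍ).indicator (1 : ℍ → ℝ≥0∞) (γ⁻¹ • z) := by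
    intro γ
    rw [(ptu_emb γ).map_apply, Measure.restrict_apply ((ptu_emb γ).measurable hS),
      ← (ptu_mp γ).lintegral_comp_emb (ptu_emb γ)]
    rw [← lintegral_indicator_one (((ptu_emb γ).measurable hS).inter h𝒟)]
    congr 1
    funext z
    rw [inv_smul_smul]
    by_cases ha : γ • z ∈ S
    · by_cases hb : z ∈ (ModularGroup.fd : Set ℍ)
      · rw [Set.indicator_of_mem (show z ∈ _ ∩ _ from ⟨ha, hb⟩), Set.indicator_of_mem ha,
          Set.indicator_of_mem hb]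
        simp
      · rw [Set.indicator_of_notMem (fun h => hb h.2), Set.indicator_of_notMem hb, mul_zero]
    · rw [Set.indicator_of_notMem (fun h => ha h.1), Set.indicator_of_notMem ha, zero_mul]
  rw [tsum_congr h1, ← lintegral_tsum]
  · have h2 : ∀ᵐ z : ℍ, ∑' γ : SL(2, ℤ), S.indicator 1 z *
        (ModularGroup.fd : Set ℍ).indicator (1 : ℍ → ℝ≥0∞) (γ⁻¹ • z) = 2 * S.indicator 1 z := by
      filter_upwards [ptu_ae] with z hz
      obtain ⟨γ, hγ⟩ := hz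
      rw [ENNReal.tsum_mul_left, ptu_two z γ hγ, mul_comm]
    rw [lintegral_congr_ae h2, lintegral_const_mul _ hS1, lintegral_indicator_one hS]
  · intro γ
    exact (hS1.mul (h𝒟1.comp (ptu_emb γ⁻¹).measurable)).aemeasurable

private theorem ptu_unf (H : ℍ → ℂ) (hH : Integrable H volume) :
    ∫ z in (ModularGroup.fd : Set ℍ), ∑' γ : SL(2, ℤ), H (γ • z) = 2 * ∫ z, H z := by
  have hI : Integrable H (Measure.sum (fun γ : SL(2, ℤ) ↦
    ((volume : Measure ℍ).restrict (ModularGroup.fd : Set ℍ)).map (fun z ↦ γ • z))) := by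
    rw [ptu_sum]
    exact hH.smul_measure (by norm_num)
  have h1 := integral_sum_measure hI
  have h2 : ∀ γ : SL(2, ℤ), ∫ z, H z ∂(((volume : Measure ℍ).restrict
      (ModularGroup.fd : Set ℍ)).map (fun z ↦ γ • z)) = ∫ z in (ModularGroup.fd : Set ℍ), H (γ • z) :=
    fun γ => (ptu_emb γ).integral_map H
  rw [ptu_sum, integral_smul_measure, tsum_congr h2] at h1
  rw [integral_tsum]
  · rw [← h1]
    simp
  · intro γ
    exact ((ptu_mp γ).integrable_comp_emb (ptu_emb γ)).2 hH |>.aestronglyMeasurable.restrict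
  · have h3 : ∑' γ : SL(2, ℤ), ∫⁻ z in (ModularGroup.fd : Set ℍ), ‖H (γ • z)‖ₑ =
        ∫⁻ z, ‖H z‖ₑ ∂(Measure.sum (fun γ : SL(2, ℤ) ↦
    ((volume : Measure ℍ).restrict (ModularGroup.fd : Set ℍ)).map (fun z ↦ γ • z))) := by
      rw [lintegral_sum_measure]
      refine tsum_congr fun γ => ?_
      exact ((ptu_emb γ).lintegral_map (fun z => ‖H z‖ₑ)).symm
    rw [h3]
    exact hI.hasFiniteIntegral.ne

/-- Hyperbolic integrals in the coordinates `x, y`. -/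
private theorem ptu_coord {F : ℍ → ℝ≥0∞} (hF : Measurable F) :
    ∫⁻ z, F z = ∫⁻ p : ℝ × ℝ in Set.univ ×ˢ Set.Ioi 0,
      F (ofComplex (p.1 + p.2 * Complex.I)) * ENNReal.ofReal (1 / p.2 ^ 2) := by
  have hmeas : Measurable fun z : ℍ ↦ (((1 / NNReal.mk z.im z.im_pos.le : ℝ≥0) ^ 2 : ℝ≥0) : ℝ≥0∞) := by
    have : Continuous fun z : ℍ ↦ (((1 / NNReal.mk z.im z.im_pos.le : ℝ≥0) ^ 2 : ℝ≥0)) := by
      refine .pow (.div₀ continuous_const ?_ ?_) _
      · exact continuous_im.subtype_mk _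
      · exact fun x ↦ NNReal.ne_iff.mp x.im_ne_zero
    exact this.measurable.coe_nnreal_ennreal
  rw [volume_def, lintegral_withDensity_eq_lintegral_mul _ hmeas hF]
  have hmp : MeasurePreserving UpperHalfPlane.coe (volume.comap UpperHalfPlane.coe)
      (volume.restrict (.range UpperHalfPlane.coe)) :=
    ⟨measurable_coe, by rw [measurableEmbedding_coe.map_comap]⟩
  have h1 : ∫⁻ z : ℍ, ((fun z : ℍ ↦ (((1 / NNReal.mk z.im z.im_pos.le : ℝ≥0) ^ 2 : ℝ≥0) : ℝ≥0∞)) * F) z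
      ∂(volume.comap UpperHalfPlane.coe) =
      ∫⁻ z : ℍ, (fun w : ℂ ↦ F (ofComplex w) * ENNReal.ofReal (1 / w.im ^ 2)) z
      ∂(volume.comap UpperHalfPlane.coe) := by
    congr 1
    funext z
    simp only [Pi.mul_apply, ofComplex_apply]
    rw [mul_comm]
    congr 1
    rw [ENNReal.ofReal, ENNReal.coe_inj]
    ext
    rw [Real.coe_toNNReal _ (by positivity)]
    push_cast
    simp
  rw [h1, hmp.lintegral_comp_emb measurableEmbedding_coe
    (fun w : ℂ ↦ F (ofComplex w) * ENNReal.ofReal (1 / w.im ^ 2))]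
  have h2 : (Set.range UpperHalfPlane.coe) = Complex.measurableEquivRealProd ⁻¹' (Set.univ ×ˢ Set.Ioi 0) := by
    ext w
    simp only [Set.mem_range, Set.mem_preimage, Complex.measurableEquivRealProd_apply, Set.mem_prod,
      Set.mem_univ, true_and, Set.mem_Ioi]
    constructor
    · rintro ⟨z, rfl⟩; exact z.im_pos
    · intro h; exact ⟨⟨w, h⟩, rfl⟩
  rw [h2]
  have h3 := Complex.volume_preserving_equiv_real_prod
  rw [← h3.setLIntegral_comp_preimage_emb (Complex.measurableEquivRealProd.measurableEmbedding)]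
  congr 1
  funext w
  simp [Complex.measurableEquivRealProd_apply]

private theorem ptu_strip_meas : MeasurableSet strip := by
  have h1 : MeasurableSet {τ : ℍ | 0 ≤ τ.re} := by
    exact (isClosed_le continuous_const UpperHalfPlane.continuous_re).measurableSet
  have h2 : MeasurableSet {τ : ℍ | τ.re < 1} := by
    exact (isOpen_lt UpperHalfPlane.continuous_re continuous_const).measurableSet
  exact h1.inter h2

/-- a bound of the form `y^s e^{-y}` -/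
private theorem ptu_fin (K s : ℝ) (hs : 1 < s) :
    ∫⁻ z in strip, ENNReal.ofReal (K * (z.im ^ s * Real.exp (-z.im))) < ∞ := by
  have hm : Measurable (fun z : ℍ ↦ ENNReal.ofReal (K * (z.im ^ s * Real.exp (-z.im)))) := by
    have : Measurable (fun z : ℍ ↦ z.im) := UpperHalfPlane.continuous_im.measurable
    fun_prop
  rw [← lintegral_indicator ptu_strip_meas, ptu_coord (hm.indicator ptu_strip_meas)]
  have hint : IntegrableOn (fun y : ℝ ↦ K * (Real.exp (-y) * y ^ ((s - 1) - 1))) (Set.Ioi 0) :=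
    (Real.GammaIntegral_convergent (by linarith)).const_mul K
  have h1 : ∫⁻ p : ℝ × ℝ in Set.univ ×ˢ Set.Ioi 0,
      (strip.indicator (fun z : ℍ ↦ ENNReal.ofReal (K * (z.im ^ s * Real.exp (-z.im)))))
        (ofComplex (p.1 + p.2 * Complex.I)) * ENNReal.ofReal (1 / p.2 ^ 2) =
      ∫⁻ p : ℝ × ℝ in Set.univ ×ˢ Set.Ioi 0, (Set.Ico (0 : ℝ) 1).indicator 1 p.1 *
        ENNReal.ofReal (K * (Real.exp (-p.2) * p.2 ^ ((s - 1) - 1))) := by
    refine setLIntegral_congr_fun (MeasurableSet.univ.prod measurableSet_Ioi) ?_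
    rintro ⟨x, y⟩ hp
    have hy : 0 < y := (Set.mem_prod.1 hp).2
    have him : (ofComplex ((x : ℂ) + (y : ℂ) * Complex.I) : ℍ).im = y := by
      rw [ofComplex_apply_of_im_pos (by simpa using hy)]
      show ((x : ℂ) + (y : ℂ) * Complex.I).im = y
      simp
    have hre : (ofComplex ((x : ℂ) + (y : ℂ) * Complex.I) : ℍ).re = x := by
      rw [ofComplex_apply_of_im_pos (by simpa using hy)]
      show ((x : ℂ) + (y : ℂ) * Complex.I).re = x
      simp
    simp only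
    by_cases hx : x ∈ Set.Ico (0 : ℝ) 1
    · rw [Set.indicator_of_mem hx, Set.indicator_of_mem (show _ ∈ strip from
        ⟨by rw [hre]; exact hx.1, by rw [hre]; exact hx.2⟩), him, ← ENNReal.ofReal_mul' (by positivity)]
      simp only [Pi.one_apply, one_mul]
      congr 1
      have e : y ^ s = y ^ ((s - 1) - 1) * y ^ 2 := by
        rw [← Real.rpow_natCast y 2, ← Real.rpow_add hy]
        congr 1
        push_cast
        ring
      rw [e]
      field_simp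
    · rw [Set.indicator_of_notMem hx, Set.indicator_of_notMem (fun h : _ ∈ strip => hx
        ⟨by rw [← hre]; exact h.1, by rw [← hre]; exact h.2⟩), zero_mul, zero_mul]
  rw [h1, Measure.volume_eq_prod, ← Measure.prod_restrict,
    lintegral_prod_mul (f := (Set.Ico (0 : ℝ) 1).indicator (1 : ℝ → ℝ≥0∞))
      (g := fun y : ℝ ↦ ENNReal.ofReal (K * (Real.exp (-y) * y ^ ((s - 1) - 1))))]
  · rw [Measure.restrict_univ, lintegral_indicator_one measurableSet_Ico, Real.volume_Ico]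
    refine ENNReal.mul_lt_top (by simp) ?_
    refine lt_of_le_of_lt ?_ hint.hasFiniteIntegral
    refine lintegral_mono fun y => ?_
    exact Real.ofReal_le_enorm _
  · exact (measurable_one.indicator measurableSet_Ico).aemeasurable
  · have : Measurable (fun y : ℝ ↦ K * (Real.exp (-y) * y ^ ((s - 1) - 1))) := by fun_prop
    exact this.ennreal_ofReal.aemeasurable


private theorem ptu_pow (κ : ℕ) :
    ∃ C : ℝ, 0 < C ∧ ∀ y : ℝ, 1 ≤ y → y ^ ((κ : ℝ) + 1 / 2) ≤ C * Real.exp y := by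
  refine ⟨((κ + 1).factorial : ℝ), by positivity, ?_⟩
  intro y hy
  have h1 : y ^ ((κ : ℝ) + 1 / 2) ≤ y ^ ((κ + 1 : ℕ) : ℝ) := by
    apply Real.rpow_le_rpow_of_exponent_le hy
    push_cast
    linarith
  rw [Real.rpow_natCast] at h1
  have h2 := Real.pow_div_factorial_le_exp y (by linarith) (κ + 1)
  rw [div_le_iff₀ (by positivity)] at h2
  linarith

private theorem ptu_bd (κ k e : ℕ) (hk : 3 ≤ k) (hκ : κ = k + e) (c cf' : ℕ → ℂ) (g f : VF)
    (hg : IsP κ c g) (hf : HasE κ cf' f) (hb : SeedBd e f) : ∃ K : ℝ, 0 < K ∧ ∀ τ : ℍ,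
      ‖(∑ r : Fin 2, g τ r * conj (f τ r)) * ((τ.im ^ ((κ : ℝ) + 1 / 2) : ℝ) : ℂ)‖ ≤
        K * (τ.im ^ ((2 * (k : ℝ) - 1) / 4) * Real.exp (-τ.im)) := by
  obtain ⟨C1, hC1, h1⟩ := isP_sup κ c g hg
  obtain ⟨C2, hC2, h2⟩ := hb
  obtain ⟨C3, hC3, h3⟩ := hasE_decay κ c g hg.exp
  obtain ⟨C4, hC4, h4⟩ := hasE_decay κ cf' f hf
  obtain ⟨C5, hC5, h5⟩ := ptu_pow κ
  refine ⟨2 * (C1 * C2 * Real.exp 1) + 2 * (C3 * C4 * C5), by positivity, fun τ => ?_⟩
  have hy : 0 < τ.im := τ.im_pos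
  have hk' : (3 : ℝ) ≤ k := by exact_mod_cast hk
  have hs : 0 ≤ (2 * (k : ℝ) - 1) / 4 := by linarith
  have hn : ‖(∑ r : Fin 2, g τ r * conj (f τ r)) * ((τ.im ^ ((κ : ℝ) + 1 / 2) : ℝ) : ℂ)‖ ≤
      (‖g τ 0‖ * ‖f τ 0‖ + ‖g τ 1‖ * ‖f τ 1‖) * τ.im ^ ((κ : ℝ) + 1 / 2) := by
    rw [norm_mul, Complex.norm_real, Real.norm_of_nonneg (by positivity), Fin.sum_univ_two]
    refine mul_le_mul_of_nonneg_right ?_ (by positivity)
    refine (norm_add_le _ _).trans ?_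
    rw [norm_mul, norm_mul, RCLike.norm_conj, RCLike.norm_conj]
  refine hn.trans ?_
  have hP : 0 ≤ τ.im ^ ((2 * (k : ℝ) - 1) / 4) * Real.exp (-τ.im) := by positivity
  rcases le_or_gt τ.im 1 with hle | hgt
  · have e1 : ∀ r, ‖g τ r‖ * ‖f τ r‖ ≤ (C1 * C2) *
        (τ.im ^ (-((2 * (κ : ℝ) + 1) / 4)) * τ.im ^ (-(((e : ℝ) + 1) / 2))) := by
      intro r
      calc ‖g τ r‖ * ‖f τ r‖ ≤ (C1 * τ.im ^ (-((2 * (κ : ℝ) + 1) / 4))) *
          (C2 * τ.im ^ (-(((e : ℝ) + 1) / 2))) :=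
            mul_le_mul (h1 τ r) (h2 τ r) (norm_nonneg _) (by positivity)
        _ = _ := by ring
    have e2 : (τ.im ^ (-((2 * (κ : ℝ) + 1) / 4)) * τ.im ^ (-(((e : ℝ) + 1) / 2))) *
        τ.im ^ ((κ : ℝ) + 1 / 2) = τ.im ^ ((2 * (k : ℝ) - 1) / 4) := by
      rw [← Real.rpow_add hy, ← Real.rpow_add hy]
      congr 1
      rw [hκ]
      push_cast
      ring
    have e3 : 1 ≤ Real.exp 1 * Real.exp (-τ.im) := by
      rw [← Real.exp_add]
      exact Real.one_le_exp (by linarith)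
    calc (‖g τ 0‖ * ‖f τ 0‖ + ‖g τ 1‖ * ‖f τ 1‖) * τ.im ^ ((κ : ℝ) + 1 / 2)
        ≤ (2 * ((C1 * C2) * (τ.im ^ (-((2 * (κ : ℝ) + 1) / 4)) *
          τ.im ^ (-(((e : ℝ) + 1) / 2))))) * τ.im ^ ((κ : ℝ) + 1 / 2) := by
          refine mul_le_mul_of_nonneg_right ?_ (by positivity)
          linarith [e1 0, e1 1]
      _ = 2 * (C1 * C2) * τ.im ^ ((2 * (k : ℝ) - 1) / 4) * 1 := by
          rw [← e2]; ring
      _ ≤ 2 * (C1 * C2) * τ.im ^ ((2 * (k : ℝ) - 1) / 4) *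
          (Real.exp 1 * Real.exp (-τ.im)) := mul_le_mul_of_nonneg_left e3 (by positivity)
      _ = 2 * (C1 * C2 * Real.exp 1) * (τ.im ^ ((2 * (k : ℝ) - 1) / 4) * Real.exp (-τ.im)) := by
          ring
      _ ≤ _ := by
          refine mul_le_mul_of_nonneg_right ?_ hP
          have : 0 < 2 * (C3 * C4 * C5) := by positivity
          linarith
  · have hh : 1 / 2 ≤ τ.im := by linarith
    have e1 : ∀ r, ‖g τ r‖ * ‖f τ r‖ ≤ (C3 * C4) * Real.exp (-(Real.pi * τ.im)) := by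
      intro r
      calc ‖g τ r‖ * ‖f τ r‖ ≤ (C3 * Real.exp (-(Real.pi * τ.im / 2))) *
          (C4 * Real.exp (-(Real.pi * τ.im / 2))) :=
            mul_le_mul (h3 τ hh r) (h4 τ hh r) (norm_nonneg _) (by positivity)
        _ = (C3 * C4) * (Real.exp (-(Real.pi * τ.im / 2)) * Real.exp (-(Real.pi * τ.im / 2))) := by
            ring
        _ = _ := by
            rw [← Real.exp_add]
            congr 2
            ring
    have e2 : Real.exp (-(Real.pi * τ.im)) * τ.im ^ ((κ : ℝ) + 1 / 2) ≤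
        C5 * (τ.im ^ ((2 * (k : ℝ) - 1) / 4) * Real.exp (-τ.im)) := by
      have e3 : (1 : ℝ) ≤ τ.im ^ ((2 * (k : ℝ) - 1) / 4) := Real.one_le_rpow hgt.le hs
      calc Real.exp (-(Real.pi * τ.im)) * τ.im ^ ((κ : ℝ) + 1 / 2)
          ≤ Real.exp (-(2 * τ.im)) * (C5 * Real.exp τ.im) := by
            refine mul_le_mul ?_ (h5 τ.im hgt.le) (by positivity) (by positivity)
            apply Real.exp_le_exp.2
            nlinarith [Real.two_le_pi]
        _ = C5 * (1 * Real.exp (-τ.im)) := by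
            rw [one_mul, show -τ.im = -(2 * τ.im) + τ.im by ring, Real.exp_add]
            ring
        _ ≤ _ := by
            refine mul_le_mul_of_nonneg_left ?_ hC5.le
            exact mul_le_mul_of_nonneg_right e3 (Real.exp_pos _).le
    calc (‖g τ 0‖ * ‖f τ 0‖ + ‖g τ 1‖ * ‖f τ 1‖) * τ.im ^ ((κ : ℝ) + 1 / 2)
        ≤ (2 * ((C3 * C4) * Real.exp (-(Real.pi * τ.im)))) * τ.im ^ ((κ : ℝ) + 1 / 2) := by
          refine mul_le_mul_of_nonneg_right ?_ (by positivity)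
          linarith [e1 0, e1 1]
      _ = 2 * (C3 * C4) * (Real.exp (-(Real.pi * τ.im)) * τ.im ^ ((κ : ℝ) + 1 / 2)) := by ring
      _ ≤ 2 * (C3 * C4) * (C5 * (τ.im ^ ((2 * (k : ℝ) - 1) / 4) * Real.exp (-τ.im))) :=
          mul_le_mul_of_nonneg_left e2 (by positivity)
      _ = 2 * (C3 * C4 * C5) * (τ.im ^ ((2 * (k : ℝ) - 1) / 4) * Real.exp (-τ.im)) := by ring
      _ ≤ _ := by
          refine mul_le_mul_of_nonneg_right ?_ hP
          have : 0 < 2 * (C1 * C2 * Real.exp 1) := by positivity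
          linarith

private theorem ptu_cont (κ : ℕ) (c cf' : ℕ → ℂ) (g f : VF) (hg : IsP κ c g) (hf : HasE κ cf' f) :
    Continuous (fun τ : ℍ ↦ (∑ r : Fin 2, g τ r * conj (f τ r)) *
      ((τ.im ^ ((κ : ℝ) + 1 / 2) : ℝ) : ℂ)) := by
  have h1 : Continuous (fun τ : ℍ ↦ τ.im ^ ((κ : ℝ) + 1 / 2)) :=
    UpperHalfPlane.continuous_im.rpow_const (fun τ => Or.inl τ.im_pos.ne')
  refine Continuous.mul (continuous_finsetSum _ fun r _ => ?_) (Complex.continuous_ofReal.comp h1)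
  exact (hasE_continuous κ c g hg.exp r).mul
    (Complex.continuous_conj.comp (hasE_continuous κ cf' f hf r))

theorem strip_integrable (κ k e : ℕ) (hk : 3 ≤ k) (hκ : κ = k + e) (c cf' : ℕ → ℂ) (g f : VF)
    (hg : IsP κ c g) (hf : HasE κ cf' f) (hb : SeedBd e f) :
    MeasureTheory.IntegrableOn (fun τ : ℍ ↦ (∑ r : Fin 2, g τ r * conj (f τ r)) *
      ((τ.im ^ ((κ : ℝ) + 1 / 2) : ℝ) : ℂ)) strip := by
  obtain ⟨K, hK, hbd⟩ := ptu_bd κ k e hk hκ c cf' g f hg hf hb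
  have hk' : (3 : ℝ) ≤ k := by exact_mod_cast hk
  refine ⟨(ptu_cont κ c cf' g f hg hf).aestronglyMeasurable, ?_⟩
  refine lt_of_le_of_lt (lintegral_mono fun τ => ?_)
    (ptu_fin K ((2 * (k : ℝ) - 1) / 4) (by linarith))
  rw [← ofReal_norm]
  exact ENNReal.ofReal_le_ofReal (hbd τ)


private theorem ptu_Tz (n : ℤ) : ((ModularGroup.T ^ n : SL(2, ℤ)) : Mat) = mT n :=
  ModularGroup.coe_T_zpow n

private theorem ptu_bot (γ γ' : SL(2, ℤ)) (h0 : (γ : Mat) 1 0 = (γ' : Mat) 1 0)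
    (h1 : (γ : Mat) 1 1 = (γ' : Mat) 1 1) : ∃ m : ℤ, γ = ModularGroup.T ^ m * γ' := by
  have d1 := γ.det_coe
  have d2 := γ'.det_coe
  rw [Matrix.det_fin_two] at d1 d2
  have key : (γ : Mat) =
      mT ((γ : Mat) 0 1 * (γ' : Mat) 0 0 - (γ : Mat) 0 0 * (γ' : Mat) 0 1) * (γ' : Mat) := by
    ext i j
    fin_cases i <;> fin_cases j
    · simp only [mT, Matrix.mul_apply, Fin.sum_univ_two, Matrix.of_apply, Matrix.cons_val',
        Matrix.cons_val_zero, Matrix.cons_val_one, Fin.zero_eta, Fin.isValue, Fin.mk_one,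
        Matrix.cons_val_fin_one]
      rw [h0, h1] at d1
      linear_combination (-(γ : Mat) 0 0) * d2 + (γ' : Mat) 0 0 * d1
    · simp only [mT, Matrix.mul_apply, Fin.sum_univ_two, Matrix.of_apply, Matrix.cons_val',
        Matrix.cons_val_zero, Matrix.cons_val_one, Fin.zero_eta, Fin.isValue, Fin.mk_one,
        Matrix.cons_val_fin_one]
      rw [h0, h1] at d1
      linear_combination (-(γ : Mat) 0 1) * d2 + (γ' : Mat) 0 1 * d1
    · simp [mT, Matrix.mul_apply, Fin.sum_univ_two, h0]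
    · simp [mT, Matrix.mul_apply, Fin.sum_univ_two, h1]
  refine ⟨(γ : Mat) 0 1 * (γ' : Mat) 0 0 - (γ : Mat) 0 0 * (γ' : Mat) 0 1, ?_⟩
  apply Subtype.ext
  rw [Matrix.SpecialLinearGroup.coe_mul, ptu_Tz]
  exact key

private theorem ptu_row (n : ℤ) (γ : SL(2, ℤ)) :
    ((ModularGroup.T ^ n * γ : SL(2, ℤ)) : Mat) 1 0 = (γ : Mat) 1 0 ∧
      ((ModularGroup.T ^ n * γ : SL(2, ℤ)) : Mat) 1 1 = (γ : Mat) 1 1 := by
  rw [Matrix.SpecialLinearGroup.coe_mul, ptu_Tz]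
  constructor <;> simp [mT, Matrix.mul_apply, Fin.sum_univ_two]

/-- The sum over the group of a function supported in the strip. -/
private theorem ptu_grp (G : ℍ → ℂ) (hG : ∀ (n : ℤ) (τ : ℍ), G (ModularGroup.T ^ n • τ) = G τ)
    (τ : ℍ) : ∑' γ : SL(2, ℤ), strip.indicator G (γ • τ) =
      ∑' v : {v : ℤ × ℤ // IsCoprime v.1 v.2}, G (gam v.1.1 v.1.2 • τ) := by
  classical
  set i : {v : ℤ × ℤ // IsCoprime v.1 v.2} → SL(2, ℤ) := fun v ↦
    ModularGroup.T ^ (-⌊(gam v.1.1 v.1.2 • τ : ℍ).re⌋) * gam v.1.1 v.1.2 with hi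
  have hmem : ∀ v, i v • τ ∈ strip := by
    intro v
    have h1 : (i v • τ : ℍ).re = Int.fract (gam v.1.1 v.1.2 • τ : ℍ).re := by
      rw [hi]
      simp only
      rw [mul_smul, ModularGroup.re_T_zpow_smul]
      push_cast
      rw [← sub_eq_add_neg]
      rfl
    exact ⟨by rw [h1]; exact Int.fract_nonneg _, by rw [h1]; exact Int.fract_lt_one _⟩
  have hinj : Function.Injective i := by
    intro v w hvw
    have r1 := ptu_row (-⌊(gam v.1.1 v.1.2 • τ : ℍ).re⌋) (gam v.1.1 v.1.2)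
    have r2 := ptu_row (-⌊(gam w.1.1 w.1.2 • τ : ℍ).re⌋) (gam w.1.1 w.1.2)
    have g1 := gam_spec v.1.1 v.1.2 v.2
    have g2 := gam_spec w.1.1 w.1.2 w.2
    have hvw' : ModularGroup.T ^ (-⌊(gam v.1.1 v.1.2 • τ : ℍ).re⌋) * gam v.1.1 v.1.2 =
      ModularGroup.T ^ (-⌊(gam w.1.1 w.1.2 • τ : ℍ).re⌋) * gam w.1.1 w.1.2 := hvw
    rw [hvw'] at r1
    apply Subtype.ext
    apply Prod.ext
    · rw [← g1.1, ← g2.1, ← r1.1, r2.1]
    · rw [← g1.2, ← g2.2, ← r1.2, r2.2]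
  have hsup : Function.support (fun γ : SL(2, ℤ) ↦ strip.indicator G (γ • τ)) ⊆ Set.range i := by
    intro γ hγ
    have h1 : γ • τ ∈ strip := by
      by_contra hc
      exact hγ (Set.indicator_of_notMem hc G)
    have hcop : IsCoprime ((γ : Mat) 1 0) ((γ : Mat) 1 1) :=
      ModularGroup.bottom_row_coprime γ
    refine ⟨⟨((γ : Mat) 1 0, (γ : Mat) 1 1), hcop⟩, ?_⟩
    have g1 := gam_spec ((γ : Mat) 1 0) ((γ : Mat) 1 1) hcop
    obtain ⟨m, hm⟩ := ptu_bot γ (gam ((γ : Mat) 1 0) ((γ : Mat) 1 1)) g1.1.symm g1.2.symm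
    show ModularGroup.T ^ (-⌊(gam ((γ : Mat) 1 0) ((γ : Mat) 1 1) • τ : ℍ).re⌋) *
      gam ((γ : Mat) 1 0) ((γ : Mat) 1 1) = γ
    have h2 : (γ • τ : ℍ).re = (gam ((γ : Mat) 1 0) ((γ : Mat) 1 1) • τ : ℍ).re + m := by
      conv_lhs => rw [hm]
      rw [mul_smul, ModularGroup.re_T_zpow_smul]
    have h3 : ⌊(gam ((γ : Mat) 1 0) ((γ : Mat) 1 1) • τ : ℍ).re⌋ = -m := by
      rw [Int.floor_eq_iff]
      have h4 : 0 ≤ (γ • τ : ℍ).re := h1.1
      have h5 : (γ • τ : ℍ).re < 1 := h1.2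
      push_cast
      constructor <;> linarith
    rw [h3, neg_neg]
    exact hm.symm
  rw [← hinj.tsum_eq hsup]
  refine tsum_congr fun v => ?_
  rw [Set.indicator_of_mem (hmem v)]
  show G ((ModularGroup.T ^ (-⌊(gam v.1.1 v.1.2 • τ : ℍ).re⌋) * gam v.1.1 v.1.2) • τ) = _
  rw [mul_smul, hG]

private theorem ptu_int (κ k e : ℕ) (hk : 3 ≤ k) (hκ : κ = k + e) (c : ℕ → ℂ) (g f : VF)
    (hg : IsP κ c g) (hb : SeedBd e f) (τ : ℍ) :
    (∑ r : Fin 2, g τ r * conj (Pser κ f τ r)) * ((τ.im ^ ((κ : ℝ) + 1 / 2) : ℝ) : ℂ) =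
      (1 / 2 : ℂ) * ∑' v : {v : ℤ × ℤ // IsCoprime v.1 v.2},
        (∑ r : Fin 2, g (gam v.1.1 v.1.2 • τ) r * conj (f (gam v.1.1 v.1.2 • τ) r)) *
          (((gam v.1.1 v.1.2 • τ : ℍ).im ^ ((κ : ℝ) + 1 / 2) : ℝ) : ℂ) := by
  classical
  have hS := seedSum_of_bd κ k e hk hκ f hb
  have h1 : ∀ r : Fin 2, Pser κ f τ r = (1 / 2 : ℂ) *
      ∑' v : {v : ℤ × ℤ // IsCoprime v.1 v.2}, sl κ 1 (gam v.1.1 v.1.2 : Mat) f τ r := by
    intro r
    show (1 / 2 : ℂ) * (∑' v : ℤ × ℤ, if IsCoprime v.1 v.2 then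
      sl κ 1 (gam v.1 v.2 : Mat) f τ r else 0) = _
    congr 1
    refine Eq.trans ?_ (tsum_subtype {v : ℤ × ℤ | IsCoprime v.1 v.2}
      (fun v : ℤ × ℤ ↦ sl κ 1 (gam v.1 v.2 : Mat) f τ r)).symm
    refine tsum_congr fun v => ?_
    rw [Set.indicator_apply]
    rfl
  have h2 : ∀ v : {v : ℤ × ℤ // IsCoprime v.1 v.2},
      (∑ r : Fin 2, g (gam v.1.1 v.1.2 • τ) r * conj (f (gam v.1.1 v.1.2 • τ) r)) *
          (((gam v.1.1 v.1.2 • τ : ℍ).im ^ ((κ : ℝ) + 1 / 2) : ℝ) : ℂ) =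
      (∑ r : Fin 2, g τ r * conj (sl κ 1 (gam v.1.1 v.1.2 : Mat) f τ r)) *
        ((τ.im ^ ((κ : ℝ) + 1 / 2) : ℝ) : ℂ) := by
    intro v
    have h3 := sl_inner κ (gam v.1.1 v.1.2) g f τ
    rw [hg.inv, mob_sl] at h3
    exact h3.symm
  rw [tsum_congr h2]
  have h3 : ∀ r : Fin 2, HasSum (fun v : {v : ℤ × ℤ // IsCoprime v.1 v.2} ↦
      g τ r * conj (sl κ 1 (gam v.1.1 v.1.2 : Mat) f τ r))
      (g τ r * conj (∑' v : {v : ℤ × ℤ // IsCoprime v.1 v.2},
        sl κ 1 (gam v.1.1 v.1.2 : Mat) f τ r)) := by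
    intro r
    exact (Complex.hasSum_conj'.2 (by simpa using (hS τ r).hasSum)).mul_left _
  have h4 := (hasSum_sum (s := Finset.univ) (fun r _ => h3 r)).mul_right
    ((τ.im ^ ((κ : ℝ) + 1 / 2) : ℝ) : ℂ)
  rw [h4.tsum_eq, ← mul_assoc]
  congr 1
  rw [Finset.mul_sum]
  refine Finset.sum_congr rfl fun r _ => ?_
  rw [h1 r, map_mul]
  have h5 : conj (1 / 2 : ℂ) = 1 / 2 := by
    rw [map_div₀, map_one, Complex.conj_ofNat]
  rw [h5]
  ring

theorem pet_unfold (κ k e : ℕ) (hk : 3 ≤ k) (hκ : κ = k + e) (c cf' : ℕ → ℂ) (g f : VF)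
    (hg : IsP κ c g) (hf : HasE κ cf' f) (hb : SeedBd e f) :
    pet κ g (Pser κ f) = ∫ τ in strip, (∑ r : Fin 2, g τ r * conj (f τ r)) *
      ((τ.im ^ ((κ : ℝ) + 1 / 2) : ℝ) : ℂ) := by
  have hT : sl κ 1 (mT 1) f = f := (seedInv_of_hasE κ cf' f hf).t
  have hG : ∀ (n : ℤ) (τ : ℍ), (fun τ : ℍ ↦ (∑ r : Fin 2, g τ r * conj (f τ r)) *
      ((τ.im ^ ((κ : ℝ) + 1 / 2) : ℝ) : ℂ)) (ModularGroup.T ^ n • τ) =
      (fun τ : ℍ ↦ (∑ r : Fin 2, g τ r * conj (f τ r)) *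
      ((τ.im ^ ((κ : ℝ) + 1 / 2) : ℝ) : ℂ)) τ := by
    intro n τ
    have h3 := sl_inner κ (ModularGroup.T ^ n) g f τ
    have h4 : sl κ 1 ((ModularGroup.T ^ n : SL(2, ℤ)) : Mat) f = f := by
      rw [ptu_Tz]
      exact sl_Tn κ f hT n
    rw [hg.inv, mob_sl, h4] at h3
    exact h3.symm
  have hI : Integrable (strip.indicator (fun τ : ℍ ↦ (∑ r : Fin 2, g τ r * conj (f τ r)) *
      ((τ.im ^ ((κ : ℝ) + 1 / 2) : ℝ) : ℂ))) :=
    (strip_integrable κ k e hk hκ c cf' g f hg hf hb).integrable_indicator ptu_strip_meas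
  have h1 := ptu_unf _ hI
  rw [integral_indicator ptu_strip_meas] at h1
  have h2 : pet κ g (Pser κ f) = ∫ τ in (ModularGroup.fd : Set ℍ), (1 / 2 : ℂ) *
      ∑' γ : SL(2, ℤ), strip.indicator (fun τ : ℍ ↦ (∑ r : Fin 2, g τ r * conj (f τ r)) *
      ((τ.im ^ ((κ : ℝ) + 1 / 2) : ℝ) : ℂ)) (γ • τ) := by
    unfold pet
    refine integral_congr_ae (Filter.Eventually.of_forall fun τ => ?_)
    have h6 := ptu_grp (fun τ : ℍ ↦ (∑ r : Fin 2, g τ r * conj (f τ r)) *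
      ((τ.im ^ ((κ : ℝ) + 1 / 2) : ℝ) : ℂ)) hG τ
    exact (ptu_int κ k e hk hκ c g f hg hb τ).trans
      (congrArg (fun x : ℂ => (1 / 2 : ℂ) * x) h6.symm)
  rw [h2, integral_const_mul, h1]
  ring

end MP836e4b.P
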