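/-
MODULE PtL (size L), board mod836, MP_836e4b_nt, folder Work/MP_836e4b_nt/P. Keep the statements verbatim, helper lemmas private.
The strip integral. Coordinates τ = x+iy, dμ = dx dy/y² (Work/MP_af11aa_nt/Coord.lean). For fixed y:
∫_0^1 ∑_r g_r conj(f_r) dx = ∑_n c(n) conj(cf'(n)) e^{-πny} (n, m in the same class mod 4: (n-m)/4 integer; absolutely
convergent). ∫_0^∞ e^{-πny} y^{κ-3/2} dy = Γ(κ-1/2) (πn)^{-(κ-1/2)}. Exchange of sum and integral: the terms are
nonzero only for n = D m² (support of cf'), |c(Dm²)| ≤ C m^{κ+1/2}, |cf'(Dm²)| ≤ C m^e, so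
∑ |..| ≤ C ∑ m^{κ+1/2+e-2κ+1} = C ∑ m^{-k+3/2} < ∞.
-/
import Mathlib
import Pool.Agent.Work.MP_836e4b_nt.P.Defs
import Pool.Agent.Work.MP_836e4b_nt.P.PtU
import Pool.Agent.Work.MP_af11aa_nt.Coord

open UpperHalfPlane Complex
open scoped MatrixGroups ComplexConjugate Matrix

namespace MP836e4b.P

open MeasureTheory

private noncomputable def pt (y : ℝ) (hy : 0 < y) (x : ℝ) : ℍ :=
  ⟨(x : ℂ) + (y : ℂ) * Complex.I, by simpa using hy⟩

private theorem coe_pt (y : ℝ) (hy : 0 < y) (x : ℝ) :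
    ((pt y hy x : ℍ) : ℂ) = (x : ℂ) + (y : ℂ) * Complex.I := rfl

private theorem im_pt (y : ℝ) (hy : 0 < y) (x : ℝ) : (pt y hy x).im = y := by
  rw [← UpperHalfPlane.coe_im, coe_pt]
  simp

private theorem re_pt (y : ℝ) (hy : 0 < y) (x : ℝ) : (pt y hy x).re = x := by
  rw [← UpperHalfPlane.coe_re, coe_pt]
  simp

private theorem norm_ee_pt (y : ℝ) (hy : 0 < y) (x : ℝ) (m : ℕ) :
    ‖ee ((m : ℂ) * ((pt y hy x : ℍ) : ℂ) / 4)‖ = Real.exp (-(Real.pi * m * y / 2)) := by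
  rw [norm_ee]
  congr 1
  have : ((m : ℂ) * ((pt y hy x : ℍ) : ℂ) / 4).im = (m : ℝ) * y / 4 := by
    rw [coe_pt]
    have e : (m : ℂ) * ((x : ℂ) + (y : ℂ) * Complex.I) / 4 =
        (((m : ℝ) * x / 4 : ℝ) : ℂ) + (((m : ℝ) * y / 4 : ℝ) : ℂ) * Complex.I := by
      push_cast
      ring
    rw [e]
    simp
  rw [this]
  ring

private theorem continuous_ee' : Continuous ee := by
  unfold ee
  fun_prop

private theorem continuous_pt_coe (y : ℝ) (hy : 0 < y) :
    Continuous fun x : ℝ ↦ ((pt y hy x : ℍ) : ℂ) := by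
  have : (fun x : ℝ ↦ ((pt y hy x : ℍ) : ℂ)) = fun x : ℝ ↦ (x : ℂ) + (y : ℂ) * Complex.I := rfl
  rw [this]
  fun_prop

private theorem continuous_pt (y : ℝ) (hy : 0 < y) : Continuous (pt y hy) :=
  UpperHalfPlane.isEmbedding_coe.continuous_iff.mpr (continuous_pt_coe y hy)

private theorem int_one (y : ℝ) (hy : 0 < y) (m n : ℕ) (h4 : n % 4 = m % 4) :
    (∫ x in (0 : ℝ)..1, ee ((n : ℂ) * ((pt y hy x : ℍ) : ℂ) / 4) *
      conj (ee ((m : ℂ) * ((pt y hy x : ℍ) : ℂ) / 4))) =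
      if n = m then ((Real.exp (-(Real.pi * m * y)) : ℝ) : ℂ) else 0 := by
  have hconj : ∀ x : ℝ, conj (ee ((m : ℂ) * ((pt y hy x : ℍ) : ℂ) / 4)) =
      ee (-((m : ℂ) * ((x : ℂ) - (y : ℂ) * Complex.I) / 4)) := by
    intro x
    rw [conj_ee, coe_pt]
    congr 1
    have h4' : conj (4 : ℂ) = 4 := Complex.conj_ofNat 4
    rw [map_div₀, map_mul, map_add, map_mul, Complex.conj_ofReal, Complex.conj_ofReal, Complex.conj_I,
      h4', Complex.conj_natCast]
    ring
  obtain ⟨q, hq⟩ : ∃ q : ℤ, (n : ℤ) - (m : ℤ) = 4 * q := ⟨((n : ℤ) - (m : ℤ)) / 4, by omega⟩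
  have hqc : ((n : ℂ) - (m : ℂ)) = 4 * (q : ℂ) := by exact_mod_cast hq
  by_cases hmn : n = m
  · subst hmn
    rw [if_pos rfl]
    have : ∀ x : ℝ, ee ((n : ℂ) * ((pt y hy x : ℍ) : ℂ) / 4) *
        conj (ee ((n : ℂ) * ((pt y hy x : ℍ) : ℂ) / 4)) =
        ((Real.exp (-(Real.pi * n * y)) : ℝ) : ℂ) := by
      intro x
      rw [hconj, coe_pt, ← ee_add]
      unfold ee
      rw [Complex.ofReal_exp]
      congr 1
      push_cast
      have hI := Complex.I_mul_I
      linear_combination (Real.pi : ℂ) * n * y * hI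
    simp only [this]
    rw [intervalIntegral.integral_const]
    norm_num
  · rw [if_neg hmn]
    set a : ℂ := 2 * (Real.pi : ℂ) * Complex.I * (q : ℂ) with ha
    have hq0 : (q : ℂ) ≠ 0 := by
      intro hz
      apply hmn
      rw [hz, mul_zero, sub_eq_zero] at hqc
      exact_mod_cast hqc
    have ha0 : a ≠ 0 := mul_ne_zero Complex.two_pi_I_ne_zero hq0
    have h1 : ∀ x : ℝ, ee ((n : ℂ) * ((pt y hy x : ℍ) : ℂ) / 4) *
        conj (ee ((m : ℂ) * ((pt y hy x : ℍ) : ℂ) / 4)) =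
        ee (((n : ℂ) + (m : ℂ)) * ((y : ℂ) * Complex.I) / 4) * Complex.exp (a * (x : ℂ)) := by
      intro x
      rw [hconj, coe_pt, ← ee_add]
      unfold ee
      rw [← Complex.exp_add]
      congr 1
      rw [ha]
      linear_combination (2 * (Real.pi : ℂ) * Complex.I * x / 4) * hqc
    simp only [h1]
    rw [intervalIntegral.integral_const_mul, integral_exp_mul_complex ha0]
    have h5 : Complex.exp (a * ((1 : ℝ) : ℂ)) = 1 := by
      rw [Complex.exp_eq_one_iff]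
      refine ⟨q, ?_⟩
      rw [ha]
      push_cast
      ring
    rw [h5]
    simp

private theorem norm_le_tsum (κ : ℕ) (c : ℕ → ℂ) (g : VF) (H : HasE κ c g) (y : ℝ) (hy : 0 < y)
    (x : ℝ) (r : Fin 2) :
    ‖g (pt y hy x) r‖ ≤ ∑' n : ℕ, ‖c n‖ * Real.exp (-(Real.pi * n * y / 2)) := by
  have hs := hasE_summable κ c g H y hy
  rw [← (H.sum (pt y hy x) r).tsum_eq]
  refine tsum_of_norm_bounded hs.hasSum fun n ↦ ?_
  by_cases hn : n % 4 = cls κ r
  · rw [if_pos hn, norm_mul, norm_ee_pt]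
  · rw [if_neg hn, norm_zero]
    positivity

private theorem stepA (κ : ℕ) (c : ℕ → ℂ) (g : VF) (H : HasE κ c g) (y : ℝ) (hy : 0 < y)
    (r : Fin 2) (m : ℕ) (hm : m % 4 = cls κ r) :
    (∫ x in (0 : ℝ)..1, g (pt y hy x) r * conj (ee ((m : ℂ) * ((pt y hy x : ℍ) : ℂ) / 4))) =
      c m * ((Real.exp (-(Real.pi * m * y)) : ℝ) : ℂ) := by
  have hcee : ∀ n : ℕ, Continuous fun x : ℝ ↦ ee ((n : ℂ) * ((pt y hy x : ℍ) : ℂ) / 4) := by
    intro n
    have hc1 := continuous_pt_coe y hy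
    exact continuous_ee'.comp (by fun_prop)
  have hHS : HasSum (fun n ↦ ∫ x in (0 : ℝ)..1,
      (if n % 4 = cls κ r then c n * ee ((n : ℂ) * ((pt y hy x : ℍ) : ℂ) / 4) else 0) *
        conj (ee ((m : ℂ) * ((pt y hy x : ℍ) : ℂ) / 4)))
      (∫ x in (0 : ℝ)..1, g (pt y hy x) r * conj (ee ((m : ℂ) * ((pt y hy x : ℍ) : ℂ) / 4))) := by
    refine intervalIntegral.hasSum_integral_of_dominated_convergence
      (fun n _ ↦ ‖c n‖ * Real.exp (-(Real.pi * n * y / 2)) * Real.exp (-(Real.pi * m * y / 2)))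
      ?_ ?_ ?_ ?_ ?_
    · intro n
      refine Continuous.aestronglyMeasurable ?_
      refine Continuous.mul ?_ (Complex.continuous_conj.comp (hcee m))
      by_cases hn : n % 4 = cls κ r
      · simp only [if_pos hn]
        exact continuous_const.mul (hcee n)
      · simp only [if_neg hn]
        exact continuous_const
    · intro n
      refine Filter.Eventually.of_forall fun x _ ↦ ?_
      rw [norm_mul, RCLike.norm_conj, norm_ee_pt]
      refine mul_le_mul_of_nonneg_right ?_ (Real.exp_pos _).le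
      by_cases hn : n % 4 = cls κ r
      · rw [if_pos hn, norm_mul, norm_ee_pt]
      · rw [if_neg hn, norm_zero]
        positivity
    · exact Filter.Eventually.of_forall fun x _ ↦ (hasE_summable κ c g H y hy).mul_right _
    · exact intervalIntegrable_const
    · exact Filter.Eventually.of_forall fun x _ ↦ (H.sum (pt y hy x) r).mul_right _
  have hval : ∀ n, (∫ x in (0 : ℝ)..1,
      (if n % 4 = cls κ r then c n * ee ((n : ℂ) * ((pt y hy x : ℍ) : ℂ) / 4) else 0) *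
        conj (ee ((m : ℂ) * ((pt y hy x : ℍ) : ℂ) / 4))) =
      if n = m then c m * ((Real.exp (-(Real.pi * m * y)) : ℝ) : ℂ) else 0 := by
    intro n
    by_cases hn : n % 4 = cls κ r
    · have e : ∀ x : ℝ, c n * ee ((n : ℂ) * ((pt y hy x : ℍ) : ℂ) / 4) *
          conj (ee ((m : ℂ) * ((pt y hy x : ℍ) : ℂ) / 4)) =
          c n * (ee ((n : ℂ) * ((pt y hy x : ℍ) : ℂ) / 4) *
          conj (ee ((m : ℂ) * ((pt y hy x : ℍ) : ℂ) / 4))) := fun x ↦ mul_assoc _ _ _
      simp only [if_pos hn, e]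
      rw [intervalIntegral.integral_const_mul, int_one y hy m n (by rw [hn, hm])]
      by_cases hmn : n = m
      · rw [if_pos hmn, if_pos hmn, hmn]
      · rw [if_neg hmn, if_neg hmn, mul_zero]
    · have hmn : n ≠ m := by
        intro he
        rw [he] at hn
        exact hn hm
      simp only [if_neg hn, zero_mul, if_neg hmn, intervalIntegral.integral_zero]
  simp only [hval] at hHS
  exact hHS.unique (hasSum_ite_eq m _)

private theorem stepB (κ : ℕ) (c cf' : ℕ → ℂ) (g f : VF) (H : HasE κ c g) (H' : HasE κ cf' f)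
    (y : ℝ) (hy : 0 < y) (r : Fin 2) :
    HasSum (fun m ↦ if m % 4 = cls κ r then
      c m * conj (cf' m) * ((Real.exp (-(Real.pi * m * y)) : ℝ) : ℂ) else 0)
      (∫ x in (0 : ℝ)..1, g (pt y hy x) r * conj (f (pt y hy x) r)) := by
  have hcee : ∀ n : ℕ, Continuous fun x : ℝ ↦ ee ((n : ℂ) * ((pt y hy x : ℍ) : ℂ) / 4) := by
    intro n
    have hc1 := continuous_pt_coe y hy
    exact continuous_ee'.comp (by fun_prop)
  have hcg : Continuous fun x : ℝ ↦ g (pt y hy x) r :=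
    (hasE_continuous κ c g H r).comp (continuous_pt y hy)
  set B : ℝ := ∑' n : ℕ, ‖c n‖ * Real.exp (-(Real.pi * n * y / 2)) with hB
  have hHS : HasSum (fun m ↦ ∫ x in (0 : ℝ)..1, g (pt y hy x) r *
      conj (if m % 4 = cls κ r then cf' m * ee ((m : ℂ) * ((pt y hy x : ℍ) : ℂ) / 4) else 0))
      (∫ x in (0 : ℝ)..1, g (pt y hy x) r * conj (f (pt y hy x) r)) := by
    refine intervalIntegral.hasSum_integral_of_dominated_convergence
      (fun m _ ↦ B * (‖cf' m‖ * Real.exp (-(Real.pi * m * y / 2)))) ?_ ?_ ?_ ?_ ?_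
    · intro m
      refine Continuous.aestronglyMeasurable ?_
      refine Continuous.mul hcg (Complex.continuous_conj.comp ?_)
      by_cases hn : m % 4 = cls κ r
      · simp only [if_pos hn]
        exact continuous_const.mul (hcee m)
      · simp only [if_neg hn]
        exact continuous_const
    · intro m
      refine Filter.Eventually.of_forall fun x _ ↦ ?_
      rw [norm_mul, RCLike.norm_conj]
      refine mul_le_mul (norm_le_tsum κ c g H y hy x r) ?_ (norm_nonneg _) ?_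
      · by_cases hn : m % 4 = cls κ r
        · rw [if_pos hn, norm_mul, norm_ee_pt]
        · rw [if_neg hn, norm_zero]
          positivity
      · exact tsum_nonneg fun n ↦ by positivity
    · exact Filter.Eventually.of_forall fun x _ ↦ (hasE_summable κ cf' f H' y hy).mul_left _
    · exact intervalIntegrable_const
    · refine Filter.Eventually.of_forall fun x _ ↦ ?_
      exact (Complex.hasSum_conj'.mpr (H'.sum (pt y hy x) r)).mul_left _
  have hval : ∀ m, (∫ x in (0 : ℝ)..1, g (pt y hy x) r *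
      conj (if m % 4 = cls κ r then cf' m * ee ((m : ℂ) * ((pt y hy x : ℍ) : ℂ) / 4) else 0)) =
      if m % 4 = cls κ r then
        c m * conj (cf' m) * ((Real.exp (-(Real.pi * m * y)) : ℝ) : ℂ) else 0 := by
    intro m
    by_cases hm : m % 4 = cls κ r
    · simp only [if_pos hm]
      have e : ∀ x : ℝ, g (pt y hy x) r * conj (cf' m * ee ((m : ℂ) * ((pt y hy x : ℍ) : ℂ) / 4)) =
          conj (cf' m) * (g (pt y hy x) r * conj (ee ((m : ℂ) * ((pt y hy x : ℍ) : ℂ) / 4))) := by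
        intro x
        rw [map_mul]
        ring
      simp only [e]
      rw [intervalIntegral.integral_const_mul, stepA κ c g H y hy r m hm]
      ring
    · simp only [if_neg hm, map_zero, mul_zero, intervalIntegral.integral_zero]
  simp only [hval] at hHS
  exact hHS

private theorem inner (κ : ℕ) (c cf' : ℕ → ℂ) (g f : VF) (H : HasE κ c g) (H' : HasE κ cf' f)
    (y : ℝ) (hy : 0 < y) :
    HasSum (fun m : ℕ ↦ c m * conj (cf' m) * ((Real.exp (-(Real.pi * m * y)) : ℝ) : ℂ))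
      (∫ x in (0 : ℝ)..1, ∑ r : Fin 2, g (pt y hy x) r * conj (f (pt y hy x) r)) := by
  have hcg : ∀ r, Continuous fun x : ℝ ↦ g (pt y hy x) r := fun r ↦
    (hasE_continuous κ c g H r).comp (continuous_pt y hy)
  have hcf : ∀ r, Continuous fun x : ℝ ↦ f (pt y hy x) r := fun r ↦
    (hasE_continuous κ cf' f H' r).comp (continuous_pt y hy)
  have hcr : ∀ r, IntervalIntegrable (fun x : ℝ ↦ g (pt y hy x) r * conj (f (pt y hy x) r))
      volume 0 1 := fun r ↦
    ((hcg r).mul (Complex.continuous_conj.comp (hcf r))).intervalIntegrable _ _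
  have h0 := stepB κ c cf' g f H H' y hy 0
  have h1 := stepB κ c cf' g f H H' y hy 1
  have h2 := h0.add h1
  simp only [Fin.sum_univ_two]
  rw [intervalIntegral.integral_add (hcr 0) (hcr 1)]
  have hfun : (fun m : ℕ ↦ c m * conj (cf' m) * ((Real.exp (-(Real.pi * m * y)) : ℝ) : ℂ)) =
      fun m : ℕ ↦ (if m % 4 = cls κ 0 then
      c m * conj (cf' m) * ((Real.exp (-(Real.pi * m * y)) : ℝ) : ℂ) else 0) +
      (if m % 4 = cls κ 1 then
      c m * conj (cf' m) * ((Real.exp (-(Real.pi * m * y)) : ℝ) : ℂ) else 0) := by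
    funext m
    have hc01 : cls κ 0 ≠ cls κ 1 := by
      unfold cls
      by_cases hk : Even κ <;> simp [hk]
    by_cases h0 : m % 4 = cls κ 0
    · have h1 : m % 4 ≠ cls κ 1 := by rw [h0]; exact hc01
      rw [if_pos h0, if_neg h1, add_zero]
    · by_cases h1 : m % 4 = cls κ 1
      · rw [if_neg h0, if_pos h1, zero_add]
      · rw [if_neg h0, if_neg h1, H.supp m h0 h1]
        simp
  rw [hfun]
  exact h2

/-- The coordinate map. -/
private noncomputable def Ph (τ : ℍ) : ℝ × ℝ := (τ.re, τ.im)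

private theorem Ph_emb : MeasurableEmbedding Ph := by
  have h : Ph = (Complex.measurableEquivRealProd : ℂ → ℝ × ℝ) ∘ UpperHalfPlane.coe := by
    funext τ
    simp [Ph, Complex.measurableEquivRealProd_apply]
  rw [h]
  exact Complex.measurableEquivRealProd.measurableEmbedding.comp UpperHalfPlane.measurableEmbedding_coe

private noncomputable def rho (p : ℝ × ℝ) : ENNReal := ENNReal.ofReal (1 / p.2 ^ 2)

private theorem rho_meas : Measurable rho := by
  unfold rho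
  fun_prop

private theorem map_Ph : Measure.map Ph volume =
    (volume.restrict (Set.univ ×ˢ Set.Ioi (0 : ℝ)) : Measure (ℝ × ℝ)).withDensity rho := by
  ext s hs
  have hms : MeasurableSet (Ph ⁻¹' s) := Ph_emb.measurable hs
  rw [Measure.map_apply Ph_emb.measurable hs, withDensity_apply _ hs,
    ← lintegral_indicator_one hms,
    Pool.Agent.Work.MP_af11aa_nt.lintegral_coord (measurable_one.indicator hms),
    ← lintegral_indicator hs]
  refine setLIntegral_congr_fun (MeasurableSet.univ.prod measurableSet_Ioi) fun p hp ↦ ?_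
  have hp2 : 0 < p.2 := hp.2
  have hof : UpperHalfPlane.ofComplex ((p.1 : ℂ) + (p.2 : ℂ) * Complex.I) = pt p.2 hp2 p.1 := by
    rw [← coe_pt p.2 hp2 p.1, UpperHalfPlane.ofComplex_apply]
  rw [hof]
  have hPh : Ph (pt p.2 hp2 p.1) = p := by
    unfold Ph
    rw [re_pt, im_pt]
  by_cases h : p ∈ s
  · rw [Set.indicator_of_mem h, Set.indicator_of_mem (by rw [Set.mem_preimage, hPh]; exact h)]
    simp [rho]
  · rw [Set.indicator_of_notMem h, Set.indicator_of_notMem (by rw [Set.mem_preimage, hPh]; exact h)]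
    simp

/-- A function on the upper half plane in the coordinates. -/
private noncomputable def lft (F : ℍ → ℂ) (p : ℝ × ℝ) : ℂ := if h : 0 < p.2 then F (pt p.2 h p.1) else 0

private theorem lft_Ph (F : ℍ → ℂ) (τ : ℍ) : lft F (Ph τ) = F τ := by
  unfold lft Ph
  rw [dif_pos τ.im_pos]
  congr 1
  apply UpperHalfPlane.ext
  rw [coe_pt]
  exact Complex.re_add_im (τ : ℂ)

private theorem map_strip : (Measure.map Ph volume).restrict (Set.Ico 0 1 ×ˢ Set.univ) =
    ((volume.restrict (Set.Ico (0 : ℝ) 1)).prod (volume.restrict (Set.Ioi (0 : ℝ)))).withDensity rho := by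
  rw [map_Ph, restrict_withDensity (measurableSet_Ico.prod MeasurableSet.univ),
    Measure.restrict_restrict (measurableSet_Ico.prod MeasurableSet.univ), Measure.prod_restrict,
    ← Measure.volume_eq_prod]
  congr 2
  ext p
  simp [Set.mem_prod]

private theorem strip_pre : strip = Ph ⁻¹' (Set.Ico 0 1 ×ˢ Set.univ) := by
  ext τ
  simp [strip, Ph, Set.mem_prod]

private theorem rho_lt : ∀ᵐ p ∂((volume.restrict (Set.Ico (0 : ℝ) 1)).prod
    (volume.restrict (Set.Ioi (0 : ℝ)))), rho p < ⊤ :=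
  Filter.Eventually.of_forall fun _ ↦ ENNReal.ofReal_lt_top

private theorem strip_fubini (F : ℍ → ℂ) (hF : IntegrableOn F strip) :
    (∫ τ in strip, F τ) = ∫ y in Set.Ioi (0 : ℝ), ∫ x in Set.Ico (0 : ℝ) 1,
      (rho (x, y)).toReal • lft F (x, y) := by
  have e1 : (∫ τ in strip, F τ) = ∫ p in Set.Ico 0 1 ×ˢ Set.univ, lft F p ∂(Measure.map Ph volume) := by
    rw [Ph_emb.setIntegral_map, ← strip_pre]
    simp only [lft_Ph]
  have hI : Integrable (fun p ↦ (rho p).toReal • lft F p) ((volume.restrict (Set.Ico (0 : ℝ) 1)).prod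
      (volume.restrict (Set.Ioi (0 : ℝ)))) := by
    rw [← integrable_withDensity_iff_integrable_smul' rho_meas rho_lt, ← map_strip]
    have := (Ph_emb.integrableOn_map_iff (f := lft F) (μ := volume)
      (s := Set.Ico 0 1 ×ˢ Set.univ)).mpr (by
        rw [← strip_pre]
        have e : lft F ∘ Ph = F := funext fun τ ↦ lft_Ph F τ
        rw [e]
        exact hF)
    exact this
  rw [e1, map_strip, integral_withDensity_eq_integral_toReal_smul rho_meas rho_lt,
    integral_prod_symm _ hI]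

private theorem term_int (κ : ℕ) (hκ : 3 ≤ κ) (m : ℕ) (hm : 1 ≤ m) :
    (∫ y in Set.Ioi (0 : ℝ), y ^ ((κ : ℝ) - 3 / 2) * Real.exp (-(Real.pi * m * y))) =
      Real.Gamma ((κ : ℝ) - 1 / 2) * Real.pi ^ (-((κ : ℝ) - 1 / 2)) *
        (m : ℝ) ^ (-((κ : ℝ) - 1 / 2)) := by
  have hκ' : (3 : ℝ) ≤ (κ : ℝ) := by exact_mod_cast hκ
  have hm' : (0 : ℝ) < (m : ℝ) := by exact_mod_cast hm
  have hp := Real.pi_pos
  have h := Real.integral_rpow_mul_exp_neg_mul_Ioi (a := (κ : ℝ) - 1 / 2) (r := Real.pi * m)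
    (by linarith) (by positivity)
  have e : (κ : ℝ) - 1 / 2 - 1 = (κ : ℝ) - 3 / 2 := by ring
  rw [e] at h
  rw [h, one_div, Real.inv_rpow (by positivity), ← Real.rpow_neg (by positivity),
    Real.mul_rpow hp.le hm'.le]
  ring

private theorem term_integrable (κ : ℕ) (hκ : 3 ≤ κ) (m : ℕ) (hm : 1 ≤ m) :
    IntegrableOn (fun y : ℝ ↦ y ^ ((κ : ℝ) - 3 / 2) * Real.exp (-(Real.pi * m * y))) (Set.Ioi 0) := by
  have hκ' : (3 : ℝ) ≤ (κ : ℝ) := by exact_mod_cast hκ
  have hm' : (0 : ℝ) < (m : ℝ) := by exact_mod_cast hm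
  have hp := Real.pi_pos
  have h := integrableOn_rpow_mul_exp_neg_mul_rpow (p := 1) (s := (κ : ℝ) - 3 / 2)
    (b := Real.pi * m) (by linarith) one_pos (by positivity)
  refine h.congr_fun (fun y hy ↦ ?_) measurableSet_Ioi
  simp only [Real.rpow_one]
  congr 2
  ring

private theorem sq_inj (D : ℕ) (hD : 0 < D) : Function.Injective fun m : ℕ ↦ D * m ^ 2 := by
  intro a b h
  simp only at h
  have h1 : a ^ 2 = b ^ 2 := Nat.eq_of_mul_eq_mul_left hD h
  exact (Nat.pow_left_injective (two_ne_zero)) h1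

private theorem summ (κ k e D : ℕ) (hk : 3 ≤ k) (hκ : κ = k + e) (hD : 0 < D) (c cf' : ℕ → ℂ)
    (h0 : c 0 = 0)
    (hcb : ∃ C : ℝ, 0 < C ∧ ∀ n : ℕ, 1 ≤ n → ‖c n‖ ≤ C * (n : ℝ) ^ ((2 * (κ : ℝ) + 1) / 4))
    (hs : ∀ n, cf' n ≠ 0 → ∃ m : ℕ, n = D * m ^ 2)
    (hc : ∃ C : ℝ, ∀ m : ℕ, ‖cf' (D * m ^ 2)‖ ≤ C * (m : ℝ) ^ e) :
    Summable fun n : ℕ ↦ ‖c n * conj (cf' n)‖ * (n : ℝ) ^ (-((κ : ℝ) - 1 / 2)) := by
  obtain ⟨C1, hC1, hcb⟩ := hcb
  obtain ⟨C2, hc⟩ := hc
  have hC2 : 0 ≤ C2 := by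
    have := (norm_nonneg _).trans (hc 1)
    simpa using this
  have hD' : (0 : ℝ) < (D : ℝ) := by exact_mod_cast hD
  rw [← (sq_inj D hD).summable_iff]
  · have hk' : (3 : ℝ) ≤ (k : ℝ) := by exact_mod_cast hk
    have hκ' : (κ : ℝ) = (k : ℝ) + (e : ℝ) := by rw [hκ]; push_cast; ring
    have hsum : Summable fun m : ℕ ↦ (C1 * C2 * (D : ℝ) ^ ((3 / 4 : ℝ) - (κ : ℝ) / 2)) *
        (m : ℝ) ^ ((3 / 2 : ℝ) - (k : ℝ)) :=
      (Real.summable_nat_rpow.mpr (by linarith)).mul_left _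
    refine Summable.of_nonneg_of_le (fun m ↦ ?_) (fun m ↦ ?_) hsum
    · simp only [Function.comp]
      positivity
    · simp only [Function.comp]
      rcases Nat.eq_zero_or_pos m with hm | hm
      · subst hm
        simp only [ne_eq, OfNat.ofNat_ne_zero, not_false_eq_true, zero_pow, mul_zero, h0, zero_mul,
          norm_zero]
        positivity
      · have hm' : (0 : ℝ) < (m : ℝ) := by exact_mod_cast hm
        have hn : 1 ≤ D * m ^ 2 := Nat.succ_le_of_lt (by positivity)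
        have b1 := hcb (D * m ^ 2) hn
        have b2 := hc m
        rw [norm_mul, RCLike.norm_conj]
        have hcast : (((D * m ^ 2 : ℕ)) : ℝ) = (D : ℝ) * (m : ℝ) ^ 2 := by push_cast; ring
        rw [hcast] at b1 ⊢
        have hpos : (0 : ℝ) < (D : ℝ) * (m : ℝ) ^ 2 := by positivity
        calc ‖c (D * m ^ 2)‖ * ‖cf' (D * m ^ 2)‖ * ((D : ℝ) * (m : ℝ) ^ 2) ^ (-((κ : ℝ) - 1 / 2))
            ≤ (C1 * ((D : ℝ) * (m : ℝ) ^ 2) ^ ((2 * (κ : ℝ) + 1) / 4)) * (C2 * (m : ℝ) ^ e) *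
              ((D : ℝ) * (m : ℝ) ^ 2) ^ (-((κ : ℝ) - 1 / 2)) := by
              refine mul_le_mul_of_nonneg_right ?_ (Real.rpow_nonneg hpos.le _)
              exact mul_le_mul b1 b2 (norm_nonneg _) (by positivity)
          _ = C1 * C2 * (((D : ℝ) * (m : ℝ) ^ 2) ^ ((2 * (κ : ℝ) + 1) / 4) *
              ((D : ℝ) * (m : ℝ) ^ 2) ^ (-((κ : ℝ) - 1 / 2))) * (m : ℝ) ^ e := by ring
          _ = C1 * C2 * ((D : ℝ) ^ ((3 / 4 : ℝ) - (κ : ℝ) / 2) *
              (m : ℝ) ^ ((3 / 2 : ℝ) - (κ : ℝ))) * (m : ℝ) ^ (e : ℝ) := by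
              rw [← Real.rpow_add hpos, Real.rpow_natCast]
              have e1 : (2 * (κ : ℝ) + 1) / 4 + -((κ : ℝ) - 1 / 2) = (3 / 4 : ℝ) - (κ : ℝ) / 2 := by
                ring
              rw [e1, Real.mul_rpow hD'.le (by positivity), ← Real.rpow_natCast (m : ℝ) 2,
                ← Real.rpow_mul hm'.le]
              have e2 : ((2 : ℕ) : ℝ) * ((3 / 4 : ℝ) - (κ : ℝ) / 2) = (3 / 2 : ℝ) - (κ : ℝ) := by
                push_cast; ring
              rw [e2]
          _ = (C1 * C2 * (D : ℝ) ^ ((3 / 4 : ℝ) - (κ : ℝ) / 2)) *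
              ((m : ℝ) ^ ((3 / 2 : ℝ) - (κ : ℝ)) * (m : ℝ) ^ (e : ℝ)) := by ring
          _ = (C1 * C2 * (D : ℝ) ^ ((3 / 4 : ℝ) - (κ : ℝ) / 2)) *
              (m : ℝ) ^ ((3 / 2 : ℝ) - (k : ℝ)) := by
              rw [← Real.rpow_add hm']
              congr 2
              rw [hκ']
              ring
          _ ≤ _ := le_rfl
  · intro n hn
    by_cases h : cf' n = 0
    · rw [h]
      simp
    · obtain ⟨m, hm⟩ := hs n h
      exact absurd ⟨m, hm.symm⟩ hn

theorem strip_value (κ k e D : ℕ) (hk : 3 ≤ k) (hκ : κ = k + e) (hD : 0 < D) (c cf' : ℕ → ℂ)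
    (g f : VF) (hg : IsP κ c g) (hf : HasE κ cf' f) (hb : SeedBd e f)
    (hs : ∀ n, cf' n ≠ 0 → ∃ m : ℕ, n = D * m ^ 2)
    (hc : ∃ C : ℝ, ∀ m : ℕ, ‖cf' (D * m ^ 2)‖ ≤ C * (m : ℝ) ^ e) :
    (∫ τ in strip, (∑ r : Fin 2, g τ r * conj (f τ r)) * ((τ.im ^ ((κ : ℝ) + 1 / 2) : ℝ) : ℂ)) =
      ((Real.Gamma ((κ : ℝ) - 1 / 2) * Real.pi ^ (-((κ : ℝ) - 1 / 2)) : ℝ) : ℂ) *
        ∑' m : ℕ, if m = 0 then 0 else c (D * m ^ 2) * conj (cf' (D * m ^ 2)) *
          ((((D : ℝ) * (m : ℝ) ^ 2) ^ (-((κ : ℝ) - 1 / 2)) : ℝ) : ℂ) := by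
  have hκ3 : 3 ≤ κ := by omega
  have hsm := summ κ k e D hk hκ hD c cf' hg.exp.zero (isP_coeff_bound κ c g hg) hs hc
  rw [strip_fubini _ (strip_integrable κ k e hk hκ c cf' g f hg hf hb)]
  -- the inner integral
  have hin : ∀ y ∈ Set.Ioi (0 : ℝ), (∫ x in Set.Ico (0 : ℝ) 1,
      (rho (x, y)).toReal • lft (fun τ : ℍ ↦ (∑ r : Fin 2, g τ r * conj (f τ r)) *
        ((τ.im ^ ((κ : ℝ) + 1 / 2) : ℝ) : ℂ)) (x, y)) =
      ∑' m : ℕ, c m * conj (cf' m) *
        ((y ^ ((κ : ℝ) - 3 / 2) * Real.exp (-(Real.pi * m * y)) : ℝ) : ℂ) := by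
    intro y hy
    have hy' : 0 < y := hy
    have e1 : ∀ x : ℝ, (rho (x, y)).toReal • lft (fun τ : ℍ ↦ (∑ r : Fin 2, g τ r * conj (f τ r)) *
        ((τ.im ^ ((κ : ℝ) + 1 / 2) : ℝ) : ℂ)) (x, y) =
        ((y ^ ((κ : ℝ) - 3 / 2) : ℝ) : ℂ) *
          ∑ r : Fin 2, g (pt y hy' x) r * conj (f (pt y hy' x) r) := by
      intro x
      unfold lft rho
      rw [dif_pos (show 0 < (x, y).2 from hy'), ENNReal.toReal_ofReal (by positivity)]
      simp only [im_pt]
      rw [Complex.real_smul]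
      have e2 : y ^ ((κ : ℝ) + 1 / 2) = y ^ ((κ : ℝ) - 3 / 2) * y ^ 2 := by
        rw [← Real.rpow_natCast y 2, ← Real.rpow_add hy']
        congr 1
        push_cast
        ring
      rw [e2]
      push_cast
      have hyc : (y : ℂ) ≠ 0 := by exact_mod_cast hy'.ne'
      field_simp
    simp only [e1]
    rw [integral_const_mul, integral_Ico_eq_integral_Ioc,
      ← intervalIntegral.integral_of_le zero_le_one, (inner κ c cf' g f hg.exp hf y hy').tsum_eq.symm,
      ← tsum_mul_left]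
    congr 1
    funext m
    push_cast
    ring
  rw [setIntegral_congr_fun measurableSet_Ioi hin]
  -- exchange
  have hF : ∀ m : ℕ, Integrable (fun y : ℝ ↦ c m * conj (cf' m) *
      ((y ^ ((κ : ℝ) - 3 / 2) * Real.exp (-(Real.pi * m * y)) : ℝ) : ℂ))
      (volume.restrict (Set.Ioi (0 : ℝ))) := by
    intro m
    rcases Nat.eq_zero_or_pos m with hm | hm
    · subst hm
      rw [hg.exp.zero]
      simp
    · exact (term_integrable κ hκ3 m hm).ofReal.const_mul _
  have hnorm : ∀ m : ℕ, (∫ y in Set.Ioi (0 : ℝ), ‖c m * conj (cf' m) *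
      ((y ^ ((κ : ℝ) - 3 / 2) * Real.exp (-(Real.pi * m * y)) : ℝ) : ℂ)‖) =
      (Real.Gamma ((κ : ℝ) - 1 / 2) * Real.pi ^ (-((κ : ℝ) - 1 / 2))) *
      (‖c m * conj (cf' m)‖ * (m : ℝ) ^ (-((κ : ℝ) - 1 / 2))) := by
    intro m
    rcases Nat.eq_zero_or_pos m with hm | hm
    · subst hm
      rw [hg.exp.zero]
      simp
    · have e1 : ∀ y ∈ Set.Ioi (0 : ℝ), ‖c m * conj (cf' m) *
          ((y ^ ((κ : ℝ) - 3 / 2) * Real.exp (-(Real.pi * m * y)) : ℝ) : ℂ)‖ =
          ‖c m * conj (cf' m)‖ * (y ^ ((κ : ℝ) - 3 / 2) * Real.exp (-(Real.pi * m * y))) := by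
        intro y hy
        have hy' : 0 < y := hy
        rw [norm_mul, Complex.norm_real, Real.norm_of_nonneg (by positivity)]
      rw [setIntegral_congr_fun measurableSet_Ioi e1, integral_const_mul, term_int κ hκ3 m hm]
      ring
  have hval : ∀ m : ℕ, (∫ y in Set.Ioi (0 : ℝ), c m * conj (cf' m) *
      ((y ^ ((κ : ℝ) - 3 / 2) * Real.exp (-(Real.pi * m * y)) : ℝ) : ℂ)) =
      ((Real.Gamma ((κ : ℝ) - 1 / 2) * Real.pi ^ (-((κ : ℝ) - 1 / 2)) : ℝ) : ℂ) *
      (c m * conj (cf' m) * (((m : ℝ) ^ (-((κ : ℝ) - 1 / 2)) : ℝ) : ℂ)) := by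
    intro m
    rcases Nat.eq_zero_or_pos m with hm | hm
    · subst hm
      rw [hg.exp.zero]
      simp
    · rw [integral_const_mul, integral_complex_ofReal, term_int κ hκ3 m hm]
      push_cast
      ring
  have hHS := hasSum_integral_of_summable_integral_norm hF (by
    simp only [hnorm]
    exact hsm.mul_left _)
  simp only [hval] at hHS
  rw [← hHS.tsum_eq, tsum_mul_left]
  congr 1
  -- reindex
  rw [← (sq_inj D hD).tsum_eq (f := fun n : ℕ ↦ c n * conj (cf' n) *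
    (((n : ℝ) ^ (-((κ : ℝ) - 1 / 2)) : ℝ) : ℂ))]
  · congr 1
    funext m
    rcases Nat.eq_zero_or_pos m with hm | hm
    · subst hm
      simp [hg.exp.zero]
    · rw [if_neg hm.ne']
      have hcast : (((D * m ^ 2 : ℕ)) : ℝ) = (D : ℝ) * (m : ℝ) ^ 2 := by push_cast; ring
      rw [hcast]
  · intro n hn
    rw [Function.mem_support] at hn
    have h : cf' n ≠ 0 := by
      intro h
      apply hn
      rw [h]
      simp
    obtain ⟨m, hm⟩ := hs n h
    exact ⟨m, hm.symm⟩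

end MP836e4b.P
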