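/-
MODULE PtM (size M-L), board mod836, MP_836e4b_nt, folder Work/MP_836e4b_nt/P. Keep the statements verbatim, helper lemmas private.
The two pairings. Put w = κ - 1/2, Cpt = 2 Γ(w) (πD)^{-w}. cph D e (D m²) = 2 m^e (m ≥ 1), 0 for other n.
(1) pet κ g (Pser κ (ph D e)) = Γ(w)π^{-w} ∑ c(Dm²) 2 m^e (Dm²)^{-w} = Cpt ∑ m^{e-2κ+1} c(Dm²), 2κ-1-e = 2k+e-1.
(2) For T κ 2 (ph D e): HasE with Tc κ 2 (cph D e) (hasE_T_two), T_bd, support in D·squares and bound C m^e: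
 (Tc cph)(Dm²) = cph(4Dm²) + 2^{κ-1}(1+ψ)cph(Dm²) + 2^{2κ-1} cph(Dm²/4) (m even). Then
 ∑_m c(Dm²) cph(D(2m)²) (Dm²)^{-w} = 4^w ∑_{m even} c(D(m/2)²) cph(Dm²) (Dm²)^{-w}, 4^w = 2^{2κ-1}, and
 2^{2κ-1} ∑_{m even} c(Dm²) cph(D(m/2)²)(Dm²)^{-w} = ∑ c(4Dm²) cph(Dm²) (Dm²)^{-w}; the middle term is symmetric.
 So the pairing is Γ(w)π^{-w} ∑ (Tc κ 2 c)(Dm²) cph(Dm²) (Dm²)^{-w} = Cpt Mf (Tc κ 2 c) (D m² is in the classes).
-/
import Mathlib
import Pool.Agent.Work.MP_836e4b_nt.P.Defs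
import Pool.Agent.Work.MP_836e4b_nt.P.PtL
import Pool.Agent.Work.MP_836e4b_nt.P.PhE
import Pool.Agent.Work.MP_836e4b_nt.P.T2E
import Pool.Agent.Work.MP_836e4b_nt.P.TBd

set_option autoImplicit false

open UpperHalfPlane Complex
open scoped MatrixGroups ComplexConjugate Matrix

namespace MP836e4b.P

/-- The constant of the unfolded pairing. -/
noncomputable def Cpt (κ D : ℕ) : ℂ :=
  ((2 * (Real.Gamma ((κ : ℝ) - 1 / 2) * (Real.pi * (D : ℝ)) ^ (-((κ : ℝ) - 1 / 2))) : ℝ) : ℂ)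

theorem Cpt_ne (κ D : ℕ) (hκ : 1 ≤ κ) (hD : 0 < D) : Cpt κ D ≠ 0 := by
  unfold Cpt
  have h1 : (1 : ℝ) ≤ (κ : ℝ) := by exact_mod_cast hκ
  have hD' : (0 : ℝ) < (D : ℝ) := by exact_mod_cast hD
  have h2 : 0 < Real.Gamma ((κ : ℝ) - 1 / 2) := Real.Gamma_pos_of_pos (by linarith)
  have h3 : 0 < (Real.pi * (D : ℝ)) ^ (-((κ : ℝ) - 1 / 2)) :=
    Real.rpow_pos_of_pos (by positivity) _
  have h4 : 0 < 2 * (Real.Gamma ((κ : ℝ) - 1 / 2) * (Real.pi * (D : ℝ)) ^ (-((κ : ℝ) - 1 / 2))) := by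
    positivity
  exact_mod_cast h4.ne'

private theorem ptm_cph (D e u : ℕ) (hD : 0 < D) (hu : 0 < u) :
    cph D e (D * u ^ 2) = 2 * (u : ℂ) ^ e := by
  unfold cph
  rw [Finset.sum_eq_single u]
  · simp [hu]
  · intro m _ hm
    rw [if_neg]
    rintro ⟨h1, h2⟩
    apply hm
    have h3 : m ^ 2 = u ^ 2 := Nat.eq_of_mul_eq_mul_left hD h1
    exact Nat.pow_left_injective (n := 2) (by norm_num) h3
  · intro h
    exfalso
    apply h
    rw [Finset.mem_range]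
    nlinarith [Nat.pos_of_ne_zero hD.ne', sq_nonneg u]

private theorem ptm_cph_zero (D e : ℕ) : cph D e 0 = 0 := by
  unfold cph
  simp

private theorem ptm_cph_supp (D e n : ℕ) (h : cph D e n ≠ 0) : ∃ m : ℕ, n = D * m ^ 2 := by
  by_contra hno
  push Not at hno
  apply h
  unfold cph
  refine Finset.sum_eq_zero fun m _ ↦ ?_
  rw [if_neg]
  rintro ⟨h1, _⟩
  exact hno m h1.symm

private theorem ptm_Dodd (κ D : ℕ) (hD4 : D % 4 = cls κ 1) : D % 2 = 1 := by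
  unfold cls at hD4
  by_cases h : Even κ
  · simp [h] at hD4
    omega
  · simp [h] at hD4
    omega

private theorem ptm_cls (κ D m : ℕ) (hD4 : D % 4 = cls κ 1) :
    (D * m ^ 2) % 4 = cls κ 0 ∨ (D * m ^ 2) % 4 = cls κ 1 := by
  rcases Nat.mod_two_eq_zero_or_one m with h | h
  · left
    obtain ⟨v, rfl⟩ : 2 ∣ m := Nat.dvd_of_mod_eq_zero h
    have : D * (2 * v) ^ 2 = 4 * (D * v ^ 2) := by ring
    rw [this]
    simp [cls]
  · right
    obtain ⟨v, hv⟩ : ∃ v, m = 2 * v + 1 := ⟨m / 2, by omega⟩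
    subst hv
    have : D * (2 * v + 1) ^ 2 = 4 * (D * (v ^ 2 + v)) + D := by ring
    rw [this, ← hD4]
    omega

private theorem ptm_four_dvd (D m : ℕ) (hD : D % 2 = 1) : 2 ^ 2 ∣ D * m ^ 2 ↔ 2 ∣ m := by
  constructor
  · intro h
    have h1 : 2 ∣ D * m ^ 2 := Nat.dvd_trans (by norm_num) h
    rcases (Nat.Prime.dvd_mul Nat.prime_two).1 h1 with h2 | h2
    · omega
    · exact Nat.prime_two.dvd_of_dvd_pow h2
  · rintro ⟨v, rfl⟩
    exact ⟨D * v ^ 2, by ring⟩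

private theorem ptm_Tc (κ D m : ℕ) (hD4 : D % 4 = cls κ 1) (c : ℕ → ℂ) :
    Tc κ 2 c (D * m ^ 2) = c (D * (2 * m) ^ 2) +
      (2 : ℂ) ^ (κ - 1) * (1 + ((psi κ 2 (D * m ^ 2) : ℤ) : ℂ)) * c (D * m ^ 2) +
      (2 : ℂ) ^ (2 * κ - 1) * (if 2 ∣ m then c (D * (m / 2) ^ 2) else 0) := by
  unfold Tc
  rw [if_pos (ptm_cls κ D m hD4)]
  have e1 : 2 ^ 2 * (D * m ^ 2) = D * (2 * m) ^ 2 := by ring
  rw [e1]
  by_cases h : 2 ∣ m
  · rw [if_pos ((ptm_four_dvd D m (ptm_Dodd κ D hD4)).2 h), if_pos h]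
    obtain ⟨v, rfl⟩ := h
    have e2 : D * (2 * v) ^ 2 / 2 ^ 2 = D * v ^ 2 := by
      have : D * (2 * v) ^ 2 = D * v ^ 2 * 2 ^ 2 := by ring
      rw [this, Nat.mul_div_cancel _ (by norm_num)]
    have e3 : 2 * v / 2 = v := by omega
    rw [e2, e3]
    push_cast
    rfl
  · rw [if_neg (fun h' ↦ h ((ptm_four_dvd D m (ptm_Dodd κ D hD4)).1 h')), if_neg h]
    push_cast
    rfl

private theorem ptm_psi (κ N : ℕ) : psi κ 2 N = 0 ∨ psi κ 2 N = 1 ∨ psi κ 2 N = -1 := by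
  unfold psi
  rw [if_pos rfl]
  split_ifs <;> simp

private theorem ptm_psi_norm (κ N : ℕ) : ‖(1 + ((psi κ 2 N : ℤ) : ℂ))‖ ≤ 2 := by
  rcases ptm_psi κ N with h | h | h <;> rw [h] <;> norm_num

private theorem ptm_psi_conj (κ N : ℕ) :
    conj (1 + ((psi κ 2 N : ℤ) : ℂ)) = 1 + ((psi κ 2 N : ℤ) : ℂ) := by
  rw [map_add, map_one]
  congr 1
  exact map_intCast (starRingEnd ℂ) _

/-- the weight of the strip integral -/
private theorem ptm_rpow (κ D m : ℕ) (hκ : 1 ≤ κ) (hm : 0 < m) :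
    (((D : ℝ) * (m : ℝ) ^ 2) ^ (-((κ : ℝ) - 1 / 2)) : ℝ) =
      (D : ℝ) ^ (-((κ : ℝ) - 1 / 2)) * ((m : ℝ) ^ (2 * κ - 1))⁻¹ := by
  have hm' : (0 : ℝ) < (m : ℝ) := by exact_mod_cast hm
  rw [Real.mul_rpow (Nat.cast_nonneg D) (by positivity)]
  congr 1
  rw [← Real.rpow_natCast (m : ℝ) 2, ← Real.rpow_mul hm'.le, ← Real.rpow_natCast (m : ℝ) (2 * κ - 1),
    ← Real.rpow_neg hm'.le]
  congr 1
  have : ((2 * κ - 1 : ℕ) : ℝ) = 2 * (κ : ℝ) - 1 := by
    rw [Nat.cast_sub (by omega)]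
    push_cast
    ring
  rw [this]
  push_cast
  ring

private theorem ptm_const (κ D : ℕ) :
    ((Real.Gamma ((κ : ℝ) - 1 / 2) * Real.pi ^ (-((κ : ℝ) - 1 / 2)) : ℝ) : ℂ) *
      (2 * (((D : ℝ) ^ (-((κ : ℝ) - 1 / 2)) : ℝ) : ℂ)) = Cpt κ D := by
  unfold Cpt
  rw [Real.mul_rpow Real.pi_pos.le (Nat.cast_nonneg D)]
  push_cast
  ring

private theorem ptm_summable (κ k e D : ℕ) (hk : 3 ≤ k) (hκ : κ = k + e) (hD : 0 < D)
    (c : ℕ → ℂ) (g : VF) (hg : IsP κ c g) :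
    Summable fun m : ℕ ↦ if m = 0 then (0 : ℂ) else ((m : ℂ) ^ (2 * k + e - 1))⁻¹ * c (D * m ^ 2) := by
  obtain ⟨C, hC, hb⟩ := isP_coeff_bound κ c g hg
  have hD' : (0 : ℝ) < (D : ℝ) := by exact_mod_cast hD
  have hs : Summable fun m : ℕ ↦ C * (D : ℝ) ^ ((2 * (κ : ℝ) + 1) / 4) *
      (m : ℝ) ^ (-(3 / 2 : ℝ)) :=
    (Real.summable_nat_rpow.2 (by norm_num)).mul_left _
  refine Summable.of_norm_bounded hs fun m ↦ ?_
  by_cases hm : m = 0
  · rw [if_pos hm, norm_zero]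
    positivity
  · rw [if_neg hm]
    have hm1 : 1 ≤ m := Nat.one_le_iff_ne_zero.2 hm
    have hmr : (1 : ℝ) ≤ (m : ℝ) := by exact_mod_cast hm1
    have hmr0 : (0 : ℝ) < (m : ℝ) := by linarith
    have h1 := hb (D * m ^ 2) (Nat.one_le_iff_ne_zero.2 (by positivity))
    rw [norm_mul, norm_inv, norm_pow, Complex.norm_natCast]
    have h2 : (((D * m ^ 2 : ℕ) : ℝ)) ^ ((2 * (κ : ℝ) + 1) / 4) =
        (D : ℝ) ^ ((2 * (κ : ℝ) + 1) / 4) * (m : ℝ) ^ ((κ : ℝ) + 1 / 2) := by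
      push_cast
      rw [Real.mul_rpow hD'.le (by positivity), ← Real.rpow_natCast (m : ℝ) 2,
        ← Real.rpow_mul hmr0.le]
      congr 2
      push_cast
      ring
    rw [h2] at h1
    have h3 : ((m : ℝ) ^ (2 * k + e - 1))⁻¹ = (m : ℝ) ^ (-(2 * (k : ℝ) + (e : ℝ) - 1)) := by
      rw [← Real.rpow_natCast, ← Real.rpow_neg hmr0.le]
      congr 1
      rw [Nat.cast_sub (by omega)]
      push_cast
      ring
    rw [h3]
    have h4 : (m : ℝ) ^ (-(2 * (k : ℝ) + (e : ℝ) - 1)) * (m : ℝ) ^ ((κ : ℝ) + 1 / 2) ≤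
        (m : ℝ) ^ (-(3 / 2 : ℝ)) := by
      rw [← Real.rpow_add hmr0]
      apply Real.rpow_le_rpow_of_exponent_le hmr
      have : (3 : ℝ) ≤ (k : ℝ) := by exact_mod_cast hk
      rw [hκ]
      push_cast
      linarith
    have h5 : 0 ≤ (m : ℝ) ^ (-(2 * (k : ℝ) + (e : ℝ) - 1)) := by positivity
    have h6 : 0 ≤ C * (D : ℝ) ^ ((2 * (κ : ℝ) + 1) / 4) := by positivity
    calc (m : ℝ) ^ (-(2 * (k : ℝ) + (e : ℝ) - 1)) * ‖c (D * m ^ 2)‖
        ≤ (m : ℝ) ^ (-(2 * (k : ℝ) + (e : ℝ) - 1)) * (C * ((D : ℝ) ^ ((2 * (κ : ℝ) + 1) / 4) *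
            (m : ℝ) ^ ((κ : ℝ) + 1 / 2))) := mul_le_mul_of_nonneg_left h1 h5
      _ = C * (D : ℝ) ^ ((2 * (κ : ℝ) + 1) / 4) * ((m : ℝ) ^ (-(2 * (k : ℝ) + (e : ℝ) - 1)) *
            (m : ℝ) ^ ((κ : ℝ) + 1 / 2)) := by ring
      _ ≤ _ := mul_le_mul_of_nonneg_left h4 h6

private theorem ptm_Mf (k e D : ℕ) (c : ℕ → ℂ) :
    Mf k e D 1 c = ∑' m : ℕ, if m = 0 then (0 : ℂ) else
      ((m : ℂ) ^ (2 * k + e - 1))⁻¹ * c (D * m ^ 2) := by
  unfold Mf
  refine tsum_congr fun m ↦ ?_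
  by_cases hm : m = 0
  · rw [if_pos hm, if_neg (fun h ↦ by omega)]
  · rw [if_neg hm, if_pos ⟨Nat.pos_of_ne_zero hm, Nat.coprime_one_right m⟩]

theorem pet_ph (κ k e D : ℕ) (hk : 3 ≤ k) (hκ : κ = k + e) (hD : 0 < D) (he : Even e) (he2 : 2 ≤ e)
    (hD4 : D % 4 = cls κ 1) (c : ℕ → ℂ) (g : VF) (hg : IsP κ c g) :
    pet κ g (Pser κ (ph D e)) = Cpt κ D * Mf k e D 1 c := by
  have hE := hasE_ph D e κ hD he he2 hD4
  have hb := ph_bound D e hD (by omega)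
  rw [pet_unfold κ k e hk hκ c (cph D e) g (ph D e) hg hE hb,
    strip_value κ k e D hk hκ hD c (cph D e) g (ph D e) hg hE hb
      (fun n hn ↦ ptm_cph_supp D e n hn) ?_, ptm_Mf, ← ptm_const κ D, mul_assoc]
  · congr 1
    rw [← tsum_mul_left]
    refine tsum_congr fun m ↦ ?_
    by_cases hm : m = 0
    · rw [if_pos hm, if_pos hm, mul_zero]
    · have hm0 : 0 < m := Nat.pos_of_ne_zero hm
      have hmc : (m : ℂ) ≠ 0 := by exact_mod_cast hm
      rw [if_neg hm, if_neg hm, ptm_cph D e m hD hm0, ptm_rpow κ D m (by omega) hm0]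
      have e1 : conj (2 * (m : ℂ) ^ e) = 2 * (m : ℂ) ^ e := by
        rw [map_mul, map_pow, Complex.conj_natCast]
        congr 1
        exact Complex.conj_ofNat 2
      have e2 : 2 * κ - 1 = (2 * k + e - 1) + e := by omega
      rw [e1, e2, pow_add]
      push_cast
      field_simp
  · refine ⟨2, fun m ↦ ?_⟩
    rcases Nat.eq_zero_or_pos m with hm | hm
    · subst hm
      rw [zero_pow two_ne_zero, mul_zero, ptm_cph_zero, norm_zero]
      positivity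
    · rw [ptm_cph D e m hD hm, norm_mul, norm_pow, Complex.norm_natCast]
      norm_num

theorem pet_T_ph (κ k e D : ℕ) (hk : 3 ≤ k) (hκ : κ = k + e) (hD : 0 < D) (he : Even e)
    (he2 : 2 ≤ e) (hD4 : D % 4 = cls κ 1) (c : ℕ → ℂ) (g : VF) (hg : IsP κ c g) :
    pet κ g (Pser κ (T κ 2 (ph D e))) = Cpt κ D * Mf k e D 1 (Tc κ 2 c) := by
  have hE := hasE_T_two κ (by omega) _ _ (hasE_ph D e κ hD he he2 hD4)
  have hb := T_bd κ 2 e Nat.prime_two _ (ph_bound D e hD (by omega))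
  have hDo := ptm_Dodd κ D hD4
  -- values of the coefficients of the seed
  have hval : ∀ m : ℕ, 0 < m → Tc κ 2 (cph D e) (D * m ^ 2) =
      2 * (2 * (m : ℂ)) ^ e + (2 : ℂ) ^ (κ - 1) * (1 + ((psi κ 2 (D * m ^ 2) : ℤ) : ℂ)) *
        (2 * (m : ℂ) ^ e) +
      (2 : ℂ) ^ (2 * κ - 1) * (if 2 ∣ m then 2 * ((m / 2 : ℕ) : ℂ) ^ e else 0) := by
    intro m hm
    rw [ptm_Tc κ D m hD4, ptm_cph D e m hD hm, ptm_cph D e (2 * m) hD (by omega)]
    push_cast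
    congr 2
    by_cases h : 2 ∣ m
    · rw [if_pos h, if_pos h, ptm_cph D e (m / 2) hD (by omega)]
    · rw [if_neg h, if_neg h]
  have hs : ∀ n, Tc κ 2 (cph D e) n ≠ 0 → ∃ m : ℕ, n = D * m ^ 2 := by
    intro n hn
    by_contra hno
    push Not at hno
    apply hn
    unfold Tc
    split_ifs with h1 h2
    · have z1 : cph D e (2 ^ 2 * n) = 0 := by
        by_contra h
        obtain ⟨m, hm⟩ := ptm_cph_supp D e _ h
        have h3 : 2 ∣ m := (ptm_four_dvd D m hDo).1 ⟨n, by rw [← hm]⟩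
        obtain ⟨v, rfl⟩ := h3
        apply hno v
        have : D * (2 * v) ^ 2 = 2 ^ 2 * (D * v ^ 2) := by ring
        rw [this] at hm
        exact Nat.eq_of_mul_eq_mul_left (by norm_num) hm
      have z2 : cph D e n = 0 := by
        by_contra h
        obtain ⟨m, hm⟩ := ptm_cph_supp D e _ h
        exact hno m hm
      have z3 : cph D e (n / 2 ^ 2) = 0 := by
        by_contra h
        obtain ⟨m, hm⟩ := ptm_cph_supp D e _ h
        obtain ⟨v, rfl⟩ := h2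
        rw [Nat.mul_div_cancel_left _ (by norm_num)] at hm
        apply hno (2 * m)
        rw [hm]
        ring
      rw [z1, z2, z3]
      ring
    · have z1 : cph D e (2 ^ 2 * n) = 0 := by
        by_contra h
        obtain ⟨m, hm⟩ := ptm_cph_supp D e _ h
        have h3 : 2 ∣ m := (ptm_four_dvd D m hDo).1 ⟨n, by rw [← hm]⟩
        obtain ⟨v, rfl⟩ := h3
        apply hno v
        have : D * (2 * v) ^ 2 = 2 ^ 2 * (D * v ^ 2) := by ring
        rw [this] at hm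
        exact Nat.eq_of_mul_eq_mul_left (by norm_num) hm
      have z2 : cph D e n = 0 := by
        by_contra h
        obtain ⟨m, hm⟩ := ptm_cph_supp D e _ h
        exact hno m hm
      rw [z1, z2]
      ring
    · rfl
  have hc : ∃ C : ℝ, ∀ m : ℕ, ‖Tc κ 2 (cph D e) (D * m ^ 2)‖ ≤ C * (m : ℝ) ^ e := by
    refine ⟨2 * 2 ^ e + 2 ^ (κ - 1) * 2 * 2 + 2 ^ (2 * κ - 1) * 2, fun m ↦ ?_⟩
    rcases Nat.eq_zero_or_pos m with hm | hm
    · subst hm
      have : Tc κ 2 (cph D e) (D * 0 ^ 2) = 0 := by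
        rw [ptm_Tc κ D 0 hD4]
        simp [ptm_cph_zero]
      rw [this, norm_zero]
      positivity
    · rw [hval m hm]
      have n1 : ‖2 * (2 * (m : ℂ)) ^ e‖ = 2 * 2 ^ e * (m : ℝ) ^ e := by
        rw [norm_mul, norm_pow, norm_mul, Complex.norm_natCast, mul_pow]
        norm_num
        ring
      have n2 : ‖(2 : ℂ) ^ (κ - 1) * (1 + ((psi κ 2 (D * m ^ 2) : ℤ) : ℂ)) * (2 * (m : ℂ) ^ e)‖ ≤
          2 ^ (κ - 1) * 2 * 2 * (m : ℝ) ^ e := by
        rw [norm_mul, norm_mul, norm_pow, norm_mul, norm_pow, Complex.norm_natCast]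
        have h1 := ptm_psi_norm κ (D * m ^ 2)
        have h2 : ‖(2 : ℂ)‖ = 2 := by norm_num
        rw [h2]
        have h3 : (0 : ℝ) ≤ 2 ^ (κ - 1) := by positivity
        have h4 : (0 : ℝ) ≤ 2 * (m : ℝ) ^ e := by positivity
        calc 2 ^ (κ - 1) * ‖(1 + ((psi κ 2 (D * m ^ 2) : ℤ) : ℂ))‖ * (2 * (m : ℝ) ^ e)
            ≤ 2 ^ (κ - 1) * 2 * (2 * (m : ℝ) ^ e) :=
              mul_le_mul_of_nonneg_right (mul_le_mul_of_nonneg_left h1 h3) h4
          _ = _ := by ring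
      have n3 : ‖(2 : ℂ) ^ (2 * κ - 1) * (if 2 ∣ m then 2 * ((m / 2 : ℕ) : ℂ) ^ e else 0)‖ ≤
          2 ^ (2 * κ - 1) * 2 * (m : ℝ) ^ e := by
        rw [norm_mul, norm_pow]
        have h2 : ‖(2 : ℂ)‖ = 2 := by norm_num
        rw [h2, mul_assoc]
        apply mul_le_mul_of_nonneg_left _ (by positivity)
        split_ifs
        · rw [norm_mul, norm_pow, Complex.norm_natCast, h2]
          apply mul_le_mul_of_nonneg_left _ (by norm_num)
          apply pow_le_pow_left₀ (Nat.cast_nonneg _)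
          exact_mod_cast Nat.div_le_self m 2
        · rw [norm_zero]
          positivity
      calc ‖_‖ ≤ _ := norm_add₃_le
        _ ≤ 2 * 2 ^ e * (m : ℝ) ^ e + 2 ^ (κ - 1) * 2 * 2 * (m : ℝ) ^ e +
            2 ^ (2 * κ - 1) * 2 * (m : ℝ) ^ e := add_le_add (add_le_add n1.le n2) n3
        _ = _ := by ring
  rw [pet_unfold κ k e hk hκ c _ g _ hg hE hb,
    strip_value κ k e D hk hκ hD c _ g _ hg hE hb hs hc, ptm_Mf, ← ptm_const κ D, mul_assoc]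
  congr 1
  -- the sums
  set s := 2 * k + e - 1 with hsdef
  set x : ℕ → ℂ := fun m ↦ if m = 0 then (0 : ℂ) else ((m : ℂ) ^ s)⁻¹ * c (D * m ^ 2) with hx
  have hxs : Summable x := ptm_summable κ k e D hk hκ hD c g hg
  set y : ℕ → ℂ := fun m ↦ (2 : ℂ) ^ s * x (2 * m) with hy
  have hinj : Function.Injective fun m : ℕ ↦ 2 * m := fun a b h ↦ by
    simp only at h
    omega
  have hys : Summable y := (hxs.comp_injective hinj).mul_left _
  set z : ℕ → ℂ := fun m ↦ (2 : ℂ) ^ (κ - 1) * (1 + ((psi κ 2 (D * m ^ 2) : ℤ) : ℂ)) * x m with hz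
  have hzs : Summable z := by
    refine Summable.of_norm_bounded (hxs.norm.mul_left (2 ^ (κ - 1) * 2)) fun m ↦ ?_
    rw [hz]
    simp only
    rw [norm_mul, norm_mul, norm_pow]
    have h1 := ptm_psi_norm κ (D * m ^ 2)
    have h2 : ‖(2 : ℂ)‖ = 2 := by norm_num
    rw [h2]
    exact mul_le_mul_of_nonneg_right (mul_le_mul_of_nonneg_left h1 (by positivity)) (norm_nonneg _)
  -- the functions supported on the even numbers
  set u1 : ℕ → ℂ := fun m ↦ if 2 ∣ m then y (m / 2) else 0 with hu1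
  set u2 : ℕ → ℂ := fun m ↦ if 2 ∣ m then (2 : ℂ) ^ e * x (m / 2) else 0 with hu2
  have hu1s : HasSum u1 (∑' m, y m) := by
    rw [← hinj.hasSum_iff]
    · have : u1 ∘ (fun m : ℕ ↦ 2 * m) = y := by
        funext m
        simp only [Function.comp, hu1]
        rw [if_pos ⟨m, rfl⟩]
        congr 1
        omega
      rw [this]
      exact hys.hasSum
    · intro m hm
      simp only [hu1]
      rw [if_neg]
      rintro ⟨v, hv⟩
      exact hm ⟨v, hv.symm⟩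
  have hu2s : HasSum u2 ((2 : ℂ) ^ e * ∑' m, x m) := by
    rw [← hinj.hasSum_iff]
    · have : u2 ∘ (fun m : ℕ ↦ 2 * m) = fun m ↦ (2 : ℂ) ^ e * x m := by
        funext m
        simp only [Function.comp, hu2]
        rw [if_pos ⟨m, rfl⟩]
        congr 2
        omega
      rw [this]
      exact hxs.hasSum.mul_left _
    · intro m hm
      simp only [hu2]
      rw [if_neg]
      rintro ⟨v, hv⟩
      exact hm ⟨v, hv.symm⟩
  have hL : HasSum (fun m ↦ (2 : ℂ) ^ e * x m + z m + u1 m)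
      ((2 : ℂ) ^ e * (∑' m, x m) + (∑' m, z m) + ∑' m, y m) :=
    ((hxs.hasSum.mul_left _).add hzs.hasSum).add hu1s
  have hR : HasSum (fun m ↦ y m + z m + u2 m)
      ((∑' m, y m) + (∑' m, z m) + (2 : ℂ) ^ e * ∑' m, x m) :=
    (hys.hasSum.add hzs.hasSum).add hu2s
  have hse : 2 * κ - 1 = s + e := by omega
  have tL : (∑' m : ℕ, if m = 0 then 0 else c (D * m ^ 2) * conj (Tc κ 2 (cph D e) (D * m ^ 2)) *
      ((((D : ℝ) * (m : ℝ) ^ 2) ^ (-((κ : ℝ) - 1 / 2)) : ℝ) : ℂ)) =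
      2 * (((D : ℝ) ^ (-((κ : ℝ) - 1 / 2)) : ℝ) : ℂ) *
        ((2 : ℂ) ^ e * (∑' m, x m) + (∑' m, z m) + ∑' m, y m) := by
    rw [← hL.tsum_eq, ← tsum_mul_left]
    refine tsum_congr fun m ↦ ?_
    by_cases hm : m = 0
    · subst hm
      simp [hx, hz, hu1, hy]
    · have hm0 : 0 < m := Nat.pos_of_ne_zero hm
      have hmc : (m : ℂ) ≠ 0 := by exact_mod_cast hm
      rw [if_neg hm, hval m hm0, ptm_rpow κ D m (by omega) hm0]
      have c2 : conj (2 : ℂ) = 2 := Complex.conj_ofNat 2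
      have e1 : conj (2 * (2 * (m : ℂ)) ^ e +
          (2 : ℂ) ^ (κ - 1) * (1 + ((psi κ 2 (D * m ^ 2) : ℤ) : ℂ)) * (2 * (m : ℂ) ^ e) +
          (2 : ℂ) ^ (2 * κ - 1) * (if 2 ∣ m then 2 * ((m / 2 : ℕ) : ℂ) ^ e else 0)) =
          2 * (2 * (m : ℂ)) ^ e +
          (2 : ℂ) ^ (κ - 1) * (1 + ((psi κ 2 (D * m ^ 2) : ℤ) : ℂ)) * (2 * (m : ℂ) ^ e) +
          (2 : ℂ) ^ (2 * κ - 1) * (if 2 ∣ m then 2 * ((m / 2 : ℕ) : ℂ) ^ e else 0) := by
        rw [map_add, map_add, map_mul, map_mul, map_mul, map_mul, map_mul, map_pow, map_pow,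
          map_pow, map_pow, map_mul, ptm_psi_conj, c2, Complex.conj_natCast]
        congr 2
        split_ifs
        · rw [map_mul, map_pow, c2, Complex.conj_natCast]
        · exact map_zero _
      rw [e1]
      simp only [hx, hz, hu1, hy]
      rw [if_neg hm, hse, pow_add (m : ℝ)]
      by_cases h2 : 2 ∣ m
      · obtain ⟨v, rfl⟩ := h2
        have hv0 : v ≠ 0 := by omega
        have hvc : (v : ℂ) ≠ 0 := by exact_mod_cast hv0
        have e3 : 2 * v / 2 = v := by omega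
        rw [if_pos ⟨v, rfl⟩, if_pos ⟨v, rfl⟩, e3, if_neg hm, pow_add]
        push_cast
        rw [mul_pow, mul_pow, mul_pow]
        field_simp
      · rw [if_neg h2, if_neg h2]
        push_cast
        rw [mul_pow]
        field_simp
        ring
  have tR : (∑' m : ℕ, if m = 0 then (0 : ℂ) else ((m : ℂ) ^ s)⁻¹ * Tc κ 2 c (D * m ^ 2)) =
      (∑' m, y m) + (∑' m, z m) + (2 : ℂ) ^ e * ∑' m, x m := by
    rw [← hR.tsum_eq]
    refine tsum_congr fun m ↦ ?_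
    by_cases hm : m = 0
    · subst hm
      simp [hx, hz, hu2, hy]
    · have hm0 : 0 < m := Nat.pos_of_ne_zero hm
      have hmc : (m : ℂ) ≠ 0 := by exact_mod_cast hm
      rw [if_neg hm, ptm_Tc κ D m hD4]
      have hm2 : 2 * m ≠ 0 := by omega
      simp only [hx, hz, hu2, hy]
      rw [if_neg hm, if_neg hm2, hse]
      by_cases h2 : 2 ∣ m
      · obtain ⟨v, rfl⟩ := h2
        have hv0 : v ≠ 0 := by omega
        have hvc : (v : ℂ) ≠ 0 := by exact_mod_cast hv0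
        have e3 : 2 * v / 2 = v := by omega
        rw [if_pos ⟨v, rfl⟩, if_pos ⟨v, rfl⟩, e3, if_neg hv0, pow_add]
        push_cast
        have pw2 : (2 * (v : ℂ)) ^ s = 2 ^ s * (v : ℂ) ^ s := mul_pow _ _ _
        have pw3 : (2 * (2 * (v : ℂ))) ^ s = 2 ^ s * (2 ^ s * (v : ℂ) ^ s) := by
          rw [mul_pow, mul_pow]
        rw [pw3, pw2]
        field_simp
      · rw [if_neg h2, if_neg h2]
        push_cast
        rw [mul_pow]
        field_simp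
        ring
  rw [tL, tR]
  ring

end MP836e4b.P
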