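/-
MODULE ShA (size L), board mod836, MP_836e4b_nt, folder Work/MP_836e4b_nt/P. Keep the statements verbatim, helper lemmas private.
F is the D-th Shimura lift of g_D (D prime, e even). D.divisorsAntidiagonal = {(1,D),(D,1)}.
Part (D,1): ∑_{a1+a2=n} sig k D 1 a1 * sig k D 1 a2 * ce. For a1,a2 > 0: sig_mul (ch 1 d = 1), and sig k D 1 (D x) =
sig k D 1 x (divisors of Dx with χ ≠ 0 divide x). For a1 = 0: sig k D 1 n = ∑_{d ∣ n} χ(d) d^(k-1), same form.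
ce is homogeneous of degree e: ce(d b1, d b2) = d^e ce(b1,b2). Hence the part equals
∑_{d ∣ n} χ(d) d^(κ-1) ∑_{b1+b2 = n/d} sig k D 1 (D b1 b2) ce(b1,b2) (with sig k D 1 0 when b1 b2 = 0), κ = k+e.
cgI at D n'^2, n' = n/d: condition D m² ≤ D n'^2, 4 ∣ D(n'^2-m²) (D odd) iff |m| ≤ n', m = n' mod 2; b1 = (n'-m)/2,
b2 = (n'+m)/2; (D n'^2 - D m²)/4 = D b1 b2, Wp k e (b1 b2) (b2-b1) * C = ce (Wp_eq_ce).
Part (1,D): a1 + a2 = Dn, sig k 1 D; d ∣ gcd(a1,a2) with χ(d) ≠ 0 divides n; sig k 1 D 0 = 0 (Lval_zero in Char.lean);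
cgZ at D n'^2: (D² n'^2 - m²)/4 = b1 b2 with b1+b2 = D n'. ch D d = ch 1 d * ch D d.
-/
import Mathlib
import Pool.Agent.Work.MP_836e4b_nt.P.Defs
import Pool.Agent.Work.MP_836e4b_nt.P.Wid
import Pool.Agent.Work.MP_836e4b_nt.P.HecM
import Pool.Agent.Work.MP_836e4b_nt.P.CgD
import Pool.Agent.Work.MP_836e4b_nt.Char

open UpperHalfPlane Complex
open scoped MatrixGroups ComplexConjugate Matrix

namespace MP836e4b.P

private theorem shA_ch0 (D d : ℕ) (hD : D.Prime) (h : D ∣ d) : ch D (d : ℤ) = 0 := by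
  unfold ch
  haveI : NeZero D := ⟨hD.ne_zero⟩
  have h1 : jacobiSym (d : ℤ) D = 0 := by
    rw [jacobiSym.eq_zero_iff_not_coprime, Int.gcd_natCast_natCast, Nat.gcd_eq_right h]
    exact hD.one_lt.ne'
  rw [h1, Int.cast_zero]

private theorem shA_div (D x : ℕ) (hD : D.Prime) (hx : 0 < x) (F : ℕ → ℂ)
    (hF : ∀ d, D ∣ d → F d = 0) :
    ∑ d ∈ (x * D).divisors, F d = ∑ d ∈ x.divisors, F d := by
  symm
  refine Finset.sum_subset (Nat.divisors_subset_of_dvd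
    (Nat.mul_ne_zero hx.ne' hD.ne_zero) (Dvd.intro _ rfl)) ?_
  intro d hd hd'
  apply hF
  by_contra h
  have hcop : Nat.Coprime d D := ((Nat.Prime.coprime_iff_not_dvd hD).2 h).symm
  exact hd' (Nat.mem_divisors.2 ⟨hcop.dvd_of_dvd_mul_right (Nat.mem_divisors.1 hd).1, hx.ne'⟩)

private theorem shA_sig1 (k D n : ℕ) (hn : 0 < n) :
    sig k D 1 n = ∑ d ∈ n.divisors, ch D (d : ℤ) * (d : ℂ) ^ (k - 1) := by
  rw [sig, if_neg hn.ne', Nat.sum_divisorsAntidiagonal (f := fun a b : ℕ =>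
    ((jacobiSym (a : ℤ) D : ℤ) : ℂ) * ((jacobiSym (b : ℤ) 1 : ℤ) : ℂ) * (a : ℂ) ^ (k - 1))]
  refine Finset.sum_congr rfl fun d _ => ?_
  rw [jacobiSym.one_right, Int.cast_one, mul_one]
  rfl

private theorem shA_sigD (k D x : ℕ) (hD : D.Prime) : sig k D 1 (D * x) = sig k D 1 x := by
  rcases Nat.eq_zero_or_pos x with rfl | hx
  · rw [mul_zero]
  · rw [shA_sig1 k D (D * x) (Nat.mul_pos hD.pos hx), shA_sig1 k D x hx, mul_comm D x]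
    refine shA_div D x hD hx _ fun d hd => ?_
    rw [shA_ch0 D d hD hd, zero_mul]

private theorem shA_ch1 (d : ℤ) : ch 1 d = 1 := by
  unfold ch
  rw [jacobiSym.one_right, Int.cast_one]

private theorem shA_mulI (k D a b : ℕ) (hk : 1 ≤ k) (hab : 0 < a + b) :
    sig k D 1 a * sig k D 1 b = ∑ d ∈ (Nat.gcd a b).divisors,
      ch D (d : ℤ) * (d : ℂ) ^ (k - 1) * sig k D 1 (a * b / d ^ 2) := by
  rcases Nat.eq_zero_or_pos a with rfl | ha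
  · have hb : 0 < b := by omega
    have h1 : ∀ d : ℕ, sig k D 1 (0 * b / d ^ 2) = sig k D 1 0 := by
      intro d
      rw [zero_mul, Nat.zero_div]
    simp only [h1]
    rw [← Finset.sum_mul, Nat.gcd_zero_left, ← shA_sig1 k D b hb, mul_comm]
  · rcases Nat.eq_zero_or_pos b with rfl | hb
    · have h1 : ∀ d : ℕ, sig k D 1 (a * 0 / d ^ 2) = sig k D 1 0 := by
        intro d
        rw [mul_zero, Nat.zero_div]
      simp only [h1]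
      rw [← Finset.sum_mul, Nat.gcd_zero_right, ← shA_sig1 k D a ha]
    · rw [sig_mul k D 1 a b hk ha hb]
      refine Finset.sum_congr rfl fun d _ => ?_
      rw [shA_ch1, mul_one]

private theorem shA_mulZ (k D a b : ℕ) (hk : 1 ≤ k) (hz : sig k 1 D 0 = 0) :
    sig k 1 D a * sig k 1 D b = ∑ d ∈ (Nat.gcd a b).divisors,
      ch D (d : ℤ) * (d : ℂ) ^ (k - 1) * sig k 1 D (a * b / d ^ 2) := by
  rcases Nat.eq_zero_or_pos a with rfl | ha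
  · rw [hz, zero_mul, Finset.sum_eq_zero]
    intro d _
    rw [zero_mul, Nat.zero_div, hz, mul_zero]
  · rcases Nat.eq_zero_or_pos b with rfl | hb
    · rw [hz, mul_zero, Finset.sum_eq_zero]
      intro d _
      rw [mul_zero, Nat.zero_div, hz, mul_zero]
    · rw [sig_mul k 1 D a b hk ha hb]
      refine Finset.sum_congr rfl fun d _ => ?_
      rw [shA_ch1, one_mul]

private theorem shA_swap (N : ℕ) (hN : 0 < N) (f : ℕ → ℕ → ℕ → ℂ) :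
    ∑ p ∈ Finset.HasAntidiagonal.antidiagonal N, ∑ d ∈ (Nat.gcd p.1 p.2).divisors, f d p.1 p.2 =
      ∑ d ∈ N.divisors, ∑ q ∈ Finset.HasAntidiagonal.antidiagonal (N / d), f d (d * q.1) (d * q.2) := by
  rw [Finset.sum_sigma', Finset.sum_sigma']
  refine Finset.sum_bij' (fun x _ => ⟨x.2, (x.1.1 / x.2, x.1.2 / x.2)⟩)
    (fun y _ => ⟨(y.1 * y.2.1, y.1 * y.2.2), y.1⟩) ?_ ?_ ?_ ?_ ?_
  · rintro ⟨p, d⟩ hx
    rw [Finset.mem_sigma, Finset.HasAntidiagonal.mem_antidiagonal, Nat.mem_divisors] at hx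
    obtain ⟨h1, h2, h3⟩ := hx
    simp only at h1 h2 h3
    have hd1 : d ∣ p.1 := h2.trans (Nat.gcd_dvd_left _ _)
    have hd2 : d ∣ p.2 := h2.trans (Nat.gcd_dvd_right _ _)
    rw [Finset.mem_sigma, Nat.mem_divisors, Finset.HasAntidiagonal.mem_antidiagonal]
    refine ⟨⟨?_, hN.ne'⟩, ?_⟩
    · show d ∣ N
      rw [← h1]
      exact dvd_add hd1 hd2
    · show p.1 / d + p.2 / d = N / d
      rw [← h1, Nat.add_div_of_dvd_right hd1]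
  · rintro ⟨d, q⟩ hx
    rw [Finset.mem_sigma, Finset.HasAntidiagonal.mem_antidiagonal, Nat.mem_divisors] at hx
    obtain ⟨⟨h1, _⟩, h2⟩ := hx
    simp only at h1 h2
    have h3 : d * q.1 + d * q.2 = N := by
      rw [← Nat.mul_add, h2, Nat.mul_div_cancel' h1]
    rw [Finset.mem_sigma, Finset.HasAntidiagonal.mem_antidiagonal, Nat.mem_divisors]
    refine ⟨h3, ?_, ?_⟩
    · exact Nat.dvd_gcd (Dvd.intro _ rfl) (Dvd.intro _ rfl)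
    · intro h0
      have h4 := Nat.gcd_eq_zero_iff.1 h0
      simp only at h4
      omega
  · rintro ⟨p, d⟩ hx
    rw [Finset.mem_sigma, Finset.HasAntidiagonal.mem_antidiagonal, Nat.mem_divisors] at hx
    obtain ⟨h1, h2, h3⟩ := hx
    simp only at h1 h2 h3
    have hd1 : d ∣ p.1 := h2.trans (Nat.gcd_dvd_left _ _)
    have hd2 : d ∣ p.2 := h2.trans (Nat.gcd_dvd_right _ _)
    show (⟨(d * (p.1 / d), d * (p.2 / d)), d⟩ : Σ _ : ℕ × ℕ, ℕ) = ⟨p, d⟩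
    rw [Nat.mul_div_cancel' hd1, Nat.mul_div_cancel' hd2]
  · rintro ⟨d, q⟩ hx
    rw [Finset.mem_sigma, Finset.HasAntidiagonal.mem_antidiagonal, Nat.mem_divisors] at hx
    obtain ⟨⟨h1, _⟩, h2⟩ := hx
    simp only at h1 h2
    have hd : 0 < d := Nat.pos_of_dvd_of_pos h1 hN
    show (⟨d, (d * q.1 / d, d * q.2 / d)⟩ : Σ _ : ℕ, ℕ × ℕ) = ⟨d, q⟩
    rw [Nat.mul_div_cancel_left _ hd, Nat.mul_div_cancel_left _ hd]
  · rintro ⟨p, d⟩ hx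
    rw [Finset.mem_sigma, Finset.HasAntidiagonal.mem_antidiagonal, Nat.mem_divisors] at hx
    obtain ⟨h1, h2, h3⟩ := hx
    simp only at h1 h2 h3
    have hd1 : d ∣ p.1 := h2.trans (Nat.gcd_dvd_left _ _)
    have hd2 : d ∣ p.2 := h2.trans (Nat.gcd_dvd_right _ _)
    show f d p.1 p.2 = f d (d * (p.1 / d)) (d * (p.2 / d))
    rw [Nat.mul_div_cancel' hd1, Nat.mul_div_cancel' hd2]

private theorem shA_ce (k e d a b : ℕ) :
    (ce k e (d * a) (d * b) : ℂ) = (d : ℂ) ^ e * (ce k e a b : ℂ) := by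
  unfold ce
  push_cast
  rw [Finset.mul_sum]
  refine Finset.sum_congr rfl fun r hr => ?_
  have h1 : r ≤ e := Nat.lt_succ_iff.1 (Finset.mem_range.1 hr)
  have h2 : (d : ℂ) ^ e = (d : ℂ) ^ r * (d : ℂ) ^ (e - r) := by
    rw [← pow_add, Nat.add_sub_cancel' h1]
  rw [mul_pow, mul_pow, h2]
  ring

/-- the general form of both parts -/
private theorem shA_part (k e D N : ℕ) (hk : 1 ≤ k) (hN : 0 < N) (s : ℕ → ℂ)
    (hs : ∀ a b, 0 < a + b → s a * s b = ∑ d ∈ (Nat.gcd a b).divisors,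
      ch D (d : ℤ) * (d : ℂ) ^ (k - 1) * s (a * b / d ^ 2)) :
    ∑ p ∈ Finset.HasAntidiagonal.antidiagonal N, s p.1 * s p.2 * (ce k e p.1 p.2 : ℂ) =
      ∑ d ∈ N.divisors, ch D (d : ℤ) * (d : ℂ) ^ (k + e - 1) *
        ∑ q ∈ Finset.HasAntidiagonal.antidiagonal (N / d), s (q.1 * q.2) * (ce k e q.1 q.2 : ℂ) := by
  have h1 : ∑ p ∈ Finset.HasAntidiagonal.antidiagonal N, s p.1 * s p.2 * (ce k e p.1 p.2 : ℂ) =
      ∑ p ∈ Finset.HasAntidiagonal.antidiagonal N, ∑ d ∈ (Nat.gcd p.1 p.2).divisors,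
        ch D (d : ℤ) * (d : ℂ) ^ (k - 1) * s (p.1 * p.2 / d ^ 2) * (ce k e p.1 p.2 : ℂ) := by
    refine Finset.sum_congr rfl fun p hp => ?_
    rw [Finset.HasAntidiagonal.mem_antidiagonal] at hp
    rw [hs p.1 p.2 (by omega), Finset.sum_mul]
  rw [h1, shA_swap N hN (fun d a b =>
    ch D (d : ℤ) * (d : ℂ) ^ (k - 1) * s (a * b / d ^ 2) * (ce k e a b : ℂ))]
  refine Finset.sum_congr rfl fun d hd => ?_
  have hd0 : 0 < d := Nat.pos_of_mem_divisors hd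
  rw [Finset.mul_sum]
  refine Finset.sum_congr rfl fun q _ => ?_
  have h2 : d * q.1 * (d * q.2) / d ^ 2 = q.1 * q.2 := by
    have h3 : d * q.1 * (d * q.2) = q.1 * q.2 * d ^ 2 := by ring
    rw [h3, Nat.mul_div_cancel _ (by positivity)]
  have h4 : (d : ℂ) ^ (k + e - 1) = (d : ℂ) ^ (k - 1) * (d : ℂ) ^ e := by
    rw [← pow_add]
    congr 1
    omega
  rw [h2, shA_ce, h4]
  ring

/-- the sum over `m` as a sum over pairs -/
private theorem shA_G (N R : ℕ) (hR : N ≤ R) (g : ℤ → ℂ) :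
    ∑ m ∈ Finset.Icc (-(R : ℤ)) R, (if m ^ 2 ≤ (N : ℤ) ^ 2 ∧ (4 : ℤ) ∣ (N : ℤ) ^ 2 - m ^ 2 then
      g m else 0) = ∑ p ∈ Finset.HasAntidiagonal.antidiagonal N, g ((p.2 : ℤ) - (p.1 : ℤ)) := by
  rw [← Finset.sum_filter]
  symm
  have key : ∀ m : ℤ, m ^ 2 ≤ (N : ℤ) ^ 2 → (4 : ℤ) ∣ (N : ℤ) ^ 2 - m ^ 2 →
      -(N : ℤ) ≤ m ∧ m ≤ N ∧ 2 * (((N : ℤ) - m) / 2) = N - m ∧
        2 * (((N : ℤ) + m) / 2) = N + m := by
    intro m h1 h2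
    have h3 := abs_le.mp (abs_le_of_sq_le_sq h1 (Int.natCast_nonneg N))
    have hpar : ((N : ℤ) - m) % 2 = 0 := by
      rcases Int.emod_two_eq_zero_or_one ((N : ℤ) - m) with h | h
      · exact h
      · exfalso
        have h4 : ((N : ℤ) - m) * (N + m) % 2 = 1 := by
          rw [Int.mul_emod, h]
          have h5 : ((N : ℤ) + m) % 2 = 1 := by omega
          rw [h5]
          norm_num
        have h6 : (N : ℤ) ^ 2 - m ^ 2 = ((N : ℤ) - m) * (N + m) := by ring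
        rw [h6] at h2
        omega
    refine ⟨h3.1, h3.2, ?_, ?_⟩ <;> omega
  refine Finset.sum_bij' (fun p _ => (p.2 : ℤ) - (p.1 : ℤ))
    (fun m _ => ((((N : ℤ) - m) / 2).toNat, (((N : ℤ) + m) / 2).toNat)) ?_ ?_ ?_ ?_ ?_
  · intro p hp
    rw [Finset.HasAntidiagonal.mem_antidiagonal] at hp
    have hp' : (N : ℤ) = p.1 + p.2 := by exact_mod_cast hp.symm
    rw [Finset.mem_filter, Finset.mem_Icc]
    have hR' : (N : ℤ) ≤ R := by exact_mod_cast hR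
    refine ⟨⟨by omega, by omega⟩, ?_, ?_⟩
    · rw [hp']
      nlinarith [mul_nonneg (Int.natCast_nonneg p.1) (Int.natCast_nonneg p.2)]
    · refine ⟨(p.1 : ℤ) * p.2, ?_⟩
      rw [hp']
      ring
  · intro m hm
    rw [Finset.mem_filter] at hm
    obtain ⟨-, h1, h2⟩ := hm
    obtain ⟨a1, a2, a3, a4⟩ := key m h1 h2
    rw [Finset.HasAntidiagonal.mem_antidiagonal]
    show (((N : ℤ) - m) / 2).toNat + (((N : ℤ) + m) / 2).toNat = N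
    omega
  · intro p hp
    rw [Finset.HasAntidiagonal.mem_antidiagonal] at hp
    have hp' : (N : ℤ) = p.1 + p.2 := by exact_mod_cast hp.symm
    refine Prod.ext ?_ ?_
    · show (((N : ℤ) - ((p.2 : ℤ) - (p.1 : ℤ))) / 2).toNat = p.1
      omega
    · show (((N : ℤ) + ((p.2 : ℤ) - (p.1 : ℤ))) / 2).toNat = p.2
      omega
  · intro m hm
    rw [Finset.mem_filter] at hm
    obtain ⟨-, h1, h2⟩ := hm
    obtain ⟨a1, a2, a3, a4⟩ := key m h1 h2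
    show ((((N : ℤ) + m) / 2).toNat : ℤ) - ((((N : ℤ) - m) / 2).toNat : ℤ) = m
    omega
  · intro p _
    rfl

private theorem shA_cgI (D k e N : ℕ) (hD : D.Prime) (hD2 : D ≠ 2) :
    cgI D k e (D * N ^ 2) = ∑ p ∈ Finset.HasAntidiagonal.antidiagonal N,
      sig k D 1 (p.1 * p.2) * Wp k e ((p.1 : ℂ) * (p.2 : ℂ)) ((p.2 : ℂ) - (p.1 : ℂ)) := by
  have hDpos : (0 : ℤ) < D := by exact_mod_cast hD.pos
  have hDodd : Odd D := hD.odd_of_ne_two hD2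
  have hDC : (D : ℂ) ≠ 0 := by exact_mod_cast hD.ne_zero
  unfold cgI
  have hR : N ≤ D * N ^ 2 := by
    rcases Nat.eq_zero_or_pos N with rfl | hN
    · exact Nat.zero_le _
    · have h1 : 1 ≤ D := hD.pos
      nlinarith
  have h1 : ∀ m : ℤ, ((D : ℤ) * m ^ 2 ≤ ((D * N ^ 2 : ℕ) : ℤ) ∧
      (4 : ℤ) ∣ ((D * N ^ 2 : ℕ) : ℤ) - (D : ℤ) * m ^ 2) ↔
      (m ^ 2 ≤ (N : ℤ) ^ 2 ∧ (4 : ℤ) ∣ (N : ℤ) ^ 2 - m ^ 2) := by
    intro m
    push_cast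
    have e1 : (D : ℤ) * (N : ℤ) ^ 2 - (D : ℤ) * m ^ 2 = (D : ℤ) * ((N : ℤ) ^ 2 - m ^ 2) := by ring
    rw [e1, mul_le_mul_iff_right₀ hDpos]
    have hcop : IsCoprime (4 : ℤ) (D : ℤ) := by
      have h2 : Nat.Coprime 4 D := by
        have h3 : Nat.Coprime 2 D := (Nat.coprime_two_left).2 hDodd
        have h4 : Nat.Coprime (2 ^ 2) D := h3.pow_left 2
        exact h4
      exact_mod_cast Nat.isCoprime_iff_coprime.2 h2
    constructor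
    · rintro ⟨h2, h3⟩
      exact ⟨h2, hcop.dvd_of_dvd_mul_left h3⟩
    · rintro ⟨h2, h3⟩
      exact ⟨h2, h3.mul_left _⟩
  have h2 : ∑ m ∈ Finset.Icc (-((D * N ^ 2 : ℕ) : ℤ)) (D * N ^ 2 : ℕ),
      ((if (D : ℤ) * m ^ 2 ≤ ((D * N ^ 2 : ℕ) : ℤ) ∧
          (4 : ℤ) ∣ ((D * N ^ 2 : ℕ) : ℤ) - (D : ℤ) * m ^ 2 then
        sig k D 1 ((((D * N ^ 2 : ℕ) : ℤ) - (D : ℤ) * m ^ 2) / 4).toNat *
          Wp k e ((((((D * N ^ 2 : ℕ) : ℤ) - (D : ℤ) * m ^ 2) / 4 : ℤ) : ℂ) / (D : ℂ)) (m : ℂ)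
        else 0)) =
      ∑ m ∈ Finset.Icc (-((D * N ^ 2 : ℕ) : ℤ)) (D * N ^ 2 : ℕ),
      ((if m ^ 2 ≤ (N : ℤ) ^ 2 ∧ (4 : ℤ) ∣ (N : ℤ) ^ 2 - m ^ 2 then
        (fun m : ℤ => sig k D 1 ((((D * N ^ 2 : ℕ) : ℤ) - (D : ℤ) * m ^ 2) / 4).toNat *
          Wp k e ((((((D * N ^ 2 : ℕ) : ℤ) - (D : ℤ) * m ^ 2) / 4 : ℤ) : ℂ) / (D : ℂ)) (m : ℂ)) m
        else 0)) :=
    Finset.sum_congr rfl fun m _ => if_congr (h1 m) rfl rfl
  rw [h2, shA_G N (D * N ^ 2) hR]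
  refine Finset.sum_congr rfl fun p hp => ?_
  rw [Finset.HasAntidiagonal.mem_antidiagonal] at hp
  have hval : (((D * N ^ 2 : ℕ) : ℤ) - (D : ℤ) * ((p.2 : ℤ) - (p.1 : ℤ)) ^ 2) / 4 =
      ((D * (p.1 * p.2) : ℕ) : ℤ) := by
    have h3 : ((D * N ^ 2 : ℕ) : ℤ) - (D : ℤ) * ((p.2 : ℤ) - (p.1 : ℤ)) ^ 2 =
        4 * ((D * (p.1 * p.2) : ℕ) : ℤ) := by
      rw [← hp]
      push_cast
      ring
    rw [h3]
    exact Int.mul_ediv_cancel_left _ (by norm_num)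
  show sig k D 1 ((((D * N ^ 2 : ℕ) : ℤ) - (D : ℤ) * ((p.2 : ℤ) - (p.1 : ℤ)) ^ 2) / 4).toNat *
    Wp k e ((((((D * N ^ 2 : ℕ) : ℤ) - (D : ℤ) * ((p.2 : ℤ) - (p.1 : ℤ)) ^ 2) / 4 : ℤ) : ℂ) /
      (D : ℂ)) ((((p.2 : ℤ) - (p.1 : ℤ) : ℤ)) : ℂ) = _
  rw [hval, Int.toNat_natCast, shA_sigD k D _ hD]
  congr 2
  · push_cast
    field_simp
  · push_cast
    ring

private theorem shA_cgZ (D k e N : ℕ) (hD : D.Prime) :
    cgZ D k e (D * N ^ 2) = ((jacobiSym (-1) D : ℤ) : ℂ) * ((D : ℂ) ^ e)⁻¹ *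
      ∑ p ∈ Finset.HasAntidiagonal.antidiagonal (D * N),
        sig k 1 D (p.1 * p.2) * Wp k e ((p.1 : ℂ) * (p.2 : ℂ)) ((p.2 : ℂ) - (p.1 : ℂ)) := by
  unfold cgZ
  congr 1
  have hR : D * N ≤ D * (D * N ^ 2) := by
    apply Nat.mul_le_mul_left
    rcases Nat.eq_zero_or_pos N with rfl | hN
    · exact Nat.zero_le _
    · have h1 : 1 ≤ D := hD.pos
      nlinarith
  have h1 : ∀ m : ℤ, (m ^ 2 ≤ (D : ℤ) * ((D * N ^ 2 : ℕ) : ℤ) ∧
      (4 : ℤ) ∣ (D : ℤ) * ((D * N ^ 2 : ℕ) : ℤ) - m ^ 2) ↔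
      (m ^ 2 ≤ ((D * N : ℕ) : ℤ) ^ 2 ∧ (4 : ℤ) ∣ ((D * N : ℕ) : ℤ) ^ 2 - m ^ 2) := by
    intro m
    have e1 : (D : ℤ) * ((D * N ^ 2 : ℕ) : ℤ) = ((D * N : ℕ) : ℤ) ^ 2 := by
      push_cast
      ring
    rw [e1]
  have h2 : ∑ m ∈ Finset.Icc (-((D * (D * N ^ 2) : ℕ) : ℤ)) (D * (D * N ^ 2) : ℕ),
      (if m ^ 2 ≤ (D : ℤ) * ((D * N ^ 2 : ℕ) : ℤ) ∧
          (4 : ℤ) ∣ (D : ℤ) * ((D * N ^ 2 : ℕ) : ℤ) - m ^ 2 then
        sig k 1 D (((D : ℤ) * ((D * N ^ 2 : ℕ) : ℤ) - m ^ 2) / 4).toNat *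
          Wp k e ((((D : ℤ) * ((D * N ^ 2 : ℕ) : ℤ) - m ^ 2) / 4 : ℤ) : ℂ) (m : ℂ) else 0) =
      ∑ m ∈ Finset.Icc (-((D * (D * N ^ 2) : ℕ) : ℤ)) (D * (D * N ^ 2) : ℕ),
      (if m ^ 2 ≤ ((D * N : ℕ) : ℤ) ^ 2 ∧ (4 : ℤ) ∣ ((D * N : ℕ) : ℤ) ^ 2 - m ^ 2 then
        (fun m : ℤ => sig k 1 D (((D : ℤ) * ((D * N ^ 2 : ℕ) : ℤ) - m ^ 2) / 4).toNat *
          Wp k e ((((D : ℤ) * ((D * N ^ 2 : ℕ) : ℤ) - m ^ 2) / 4 : ℤ) : ℂ) (m : ℂ)) m else 0) :=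
    Finset.sum_congr rfl fun m _ => if_congr (h1 m) rfl rfl
  rw [h2, shA_G (D * N) (D * (D * N ^ 2)) hR]
  refine Finset.sum_congr rfl fun p hp => ?_
  rw [Finset.HasAntidiagonal.mem_antidiagonal] at hp
  have hp' : (D : ℤ) * N = p.1 + p.2 := by exact_mod_cast hp.symm
  have hval : ((D : ℤ) * ((D * N ^ 2 : ℕ) : ℤ) - ((p.2 : ℤ) - (p.1 : ℤ)) ^ 2) / 4 =
      ((p.1 * p.2 : ℕ) : ℤ) := by
    have h3 : (D : ℤ) * ((D * N ^ 2 : ℕ) : ℤ) - ((p.2 : ℤ) - (p.1 : ℤ)) ^ 2 =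
        4 * ((p.1 * p.2 : ℕ) : ℤ) := by
      have h4 : (D : ℤ) * ((D * N ^ 2 : ℕ) : ℤ) = ((D : ℤ) * N) ^ 2 := by
        push_cast
        ring
      rw [h4, hp']
      push_cast
      ring
    rw [h3]
    exact Int.mul_ediv_cancel_left _ (by norm_num)
  show sig k 1 D (((D : ℤ) * ((D * N ^ 2 : ℕ) : ℤ) - ((p.2 : ℤ) - (p.1 : ℤ)) ^ 2) / 4).toNat *
    Wp k e ((((D : ℤ) * ((D * N ^ 2 : ℕ) : ℤ) - ((p.2 : ℤ) - (p.1 : ℤ)) ^ 2) / 4 : ℤ) : ℂ)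
      ((((p.2 : ℤ) - (p.1 : ℤ) : ℤ)) : ℂ) = _
  rw [hval, Int.toNat_natCast]
  congr 2
  · push_cast
    ring
  · push_cast
    ring

theorem aCoeff_eq_Sh (D k e n : ℕ) (hD : D.Prime) (hD2 : D ≠ 2) (hk : 3 ≤ k) (he : Even e)
    (he2 : 2 ≤ e) (hpar : jacobiSym (-1) D = (-1) ^ k) (hn : 1 ≤ n) :
    aCoeff D k e n = ((e + k - 1).choose e : ℂ) * Sh D (k + e) (cg D k e) n := by
  haveI : NeZero D := ⟨hD.ne_zero⟩
  have hn0 : 0 < n := hn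
  have hz : sig k 1 D 0 = 0 := by
    rw [sig, if_pos rfl, Lval_zero k 1 D hk hD.one_lt (by rw [one_mul]; exact hpar), neg_zero]
  -- the left side
  have hL : aCoeff D k e n =
      ∑ p ∈ Finset.HasAntidiagonal.antidiagonal n, sig k D 1 p.1 * sig k D 1 p.2 * (ce k e p.1 p.2 : ℂ) +
      ((jacobiSym (-1) D : ℤ) : ℂ) * ((D : ℂ) ^ e)⁻¹ *
        ∑ p ∈ Finset.HasAntidiagonal.antidiagonal (n * D),
          sig k 1 D p.1 * sig k 1 D p.2 * (ce k e p.1 p.2 : ℂ) := by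
    rw [aCoeff, Nat.sum_divisorsAntidiagonal (f := fun a b : ℕ =>
      ((jacobiSym (-1) b : ℤ) : ℂ) * ((b : ℂ) ^ e)⁻¹ *
        ∑ p ∈ Finset.HasAntidiagonal.antidiagonal (n * b), sig k a b p.1 * sig k a b p.2 *
          (ce k e p.1 p.2 : ℂ)), Nat.Prime.sum_divisors hD, Nat.div_self hD.pos, Nat.div_one,
      jacobiSym.one_right, mul_one, Nat.cast_one, one_pow, inv_one, Int.cast_one, one_mul,
      one_mul]
  have h1 := shA_part k e D n (by omega) hn0 (sig k D 1)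
    (fun a b hab => shA_mulI k D a b (by omega) hab)
  have h2 := shA_part k e D (n * D) (by omega) (Nat.mul_pos hn0 hD.pos) (sig k 1 D)
    (fun a b _ => shA_mulZ k D a b (by omega) hz)
  rw [shA_div D n hD hn0 _ (fun d hd => by
    rw [shA_ch0 D d hD hd, zero_mul, zero_mul])] at h2
  rw [hL, h1, h2, Sh, Finset.mul_sum, Finset.mul_sum, ← Finset.sum_add_distrib]
  refine Finset.sum_congr rfl fun d hd => ?_
  have hdn : d ∣ n := Nat.dvd_of_mem_divisors hd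
  have hd0 : 0 < d := Nat.pos_of_mem_divisors hd
  have e1 : n * D / d = D * (n / d) := by
    rw [mul_comm n D, Nat.mul_div_assoc _ hdn]
  rw [e1, cg_eq, shA_cgI D k e (n / d) hD hD2, shA_cgZ D k e (n / d) hD]
  have hW : ∀ (s : ℕ → ℂ) (N : ℕ), ∑ q ∈ Finset.HasAntidiagonal.antidiagonal N,
      s (q.1 * q.2) * (ce k e q.1 q.2 : ℂ) = ((e + k - 1).choose e : ℂ) *
        ∑ p ∈ Finset.HasAntidiagonal.antidiagonal N,
          s (p.1 * p.2) * Wp k e ((p.1 : ℂ) * (p.2 : ℂ)) ((p.2 : ℂ) - (p.1 : ℂ)) := by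
    intro s N
    rw [Finset.mul_sum]
    refine Finset.sum_congr rfl fun q _ => ?_
    rw [← Wp_eq_ce k e (by omega) q.1 q.2]
    ring
  rw [hW, hW]
  show ch D (d : ℤ) * (d : ℂ) ^ (k + e - 1) * _ + _ = _ * (ch D (d : ℤ) * _ * _)
  ring

end MP836e4b.P
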