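/-
MODULE Eig (size M-L), board mod836, MP_836e4b_nt, folder Work/MP_836e4b_nt/P. Keep the statements verbatim, helper lemmas private.
If F is a T_2-eigenvector then Mf(Tc κ 2 c) = l' Mf(c) for all forms. G = Pser κ (ph D e), IsP κ cD G with cD = (2/L) cg
(isP_gD), aCoeff = C Sh D κ cg, C = binomial ≠ 0, L ≠ 0 (const_B). T_2 F = l F: by Sh_T, with λ = l + 2^{κ-1}:
Sh(Tc κ 2 cD - λ cD) n = 0 for n ≥ 1, so x = T κ 2 G - λ G has coefficients cx = Tc κ 2 cD - λ cD with cx(Dn²) = 0 (n ≥ 1)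
(Sh_inj). x is in the space (isP_T, isP_lin). pet κ x G = Cpt Mf(cx) = 0 (pet_ph); T κ 2 G = Pser κ (T κ 2 (ph D e))
(T_Pser, seedInv_of_hasE, seedSum_of_bd), so pet κ x (T κ 2 G) = Cpt Mf(Tc κ 2 cx) = 0 because (Tc κ 2 cx)(Dm²) involves only
cx(4Dm²), cx(Dm²), cx(D(m/2)²). Hence pet κ x x = 0, cx = 0 (pet_pos), x = 0 (hasE_ext), T κ 2 G = λ G.
For every form g: Cpt Mf(Tc κ 2 c) = pet κ g (T κ 2 G) = conj λ pet κ g G = conj λ Cpt Mf(c).
-/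
import Mathlib
import Pool.Agent.Work.MP_836e4b_nt.P.Defs
import Pool.Agent.Work.MP_836e4b_nt.P.PA6
import Pool.Agent.Work.MP_836e4b_nt.P.ShA
import Pool.Agent.Work.MP_836e4b_nt.P.ShT
import Pool.Agent.Work.MP_836e4b_nt.P.PtM
import Pool.Agent.Work.MP_836e4b_nt.P.PtA
import Pool.Agent.Work.MP_836e4b_nt.P.TP
import Pool.Agent.Work.MP_836e4b_nt.P.CosB
import Pool.Agent.Work.MP_836e4b_nt.P.TBd
import Pool.Agent.Work.MP_836e4b_nt.P.Cont

open UpperHalfPlane Complex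
open scoped MatrixGroups ComplexConjugate Matrix

namespace MP836e4b.P

private theorem eig_Sh_mul (D κ : ℕ) (c : ℕ → ℂ) (a : ℂ) (n : ℕ) :
    Sh D κ (fun n ↦ a * c n) n = a * Sh D κ c n := by
  unfold Sh
  rw [Finset.mul_sum]
  refine Finset.sum_congr rfl (fun d _ => ?_)
  ring

private theorem eig_hecke_congr (K : ℕ) {a b : ℕ → ℂ} (h : ∀ n, 1 ≤ n → a n = b n) {n : ℕ}
    (hn : 1 ≤ n) : hecke K 2 a n = hecke K 2 b n := by
  unfold hecke
  refine Finset.sum_congr rfl (fun d hd => ?_)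
  rw [h]
  rw [Nat.mem_divisors] at hd
  have h1 : d ∣ 2 := hd.1.trans (Nat.gcd_dvd_left 2 n)
  have h2 : d ∣ n := hd.1.trans (Nat.gcd_dvd_right 2 n)
  have h3 : d ≤ 2 := Nat.le_of_dvd two_pos h1
  have h4 : d ≤ n := Nat.le_of_dvd (by omega) h2
  have hd0 : 0 < d := Nat.pos_of_dvd_of_pos h1 two_pos
  rw [Nat.one_le_div_iff (by positivity)]
  rw [pow_two]
  exact Nat.mul_le_mul h3 h4

private theorem eig_hecke_mul (K : ℕ) (a : ℕ → ℂ) (t : ℂ) (n : ℕ) :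
    hecke K 2 (fun n ↦ t * a n) n = t * hecke K 2 a n := by
  unfold hecke
  rw [Finset.mul_sum]
  refine Finset.sum_congr rfl (fun d _ => ?_)
  ring

private theorem eig_Mf_zero (k e D : ℕ) (c : ℕ → ℂ) (h : ∀ n, 1 ≤ n → c (D * n ^ 2) = 0) :
    Mf k e D 1 c = 0 := by
  unfold Mf
  have : ∀ m : ℕ, (if 0 < m ∧ m.Coprime 1 then ((m : ℂ) ^ (2 * k + e - 1))⁻¹ * c (D * m ^ 2)
      else 0) = 0 := by
    intro m
    split_ifs with h0
    · rw [h m h0.1, mul_zero]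
    · rfl
  simp only [this, tsum_zero]

private theorem eig_Tc_zero (κ D : ℕ) (hD : D.Prime) (hD2 : D ≠ 2) (c : ℕ → ℂ)
    (h : ∀ n, 1 ≤ n → c (D * n ^ 2) = 0) : ∀ n, 1 ≤ n → Tc κ 2 c (D * n ^ 2) = 0 := by
  intro n hn
  unfold Tc
  split_ifs with h0 h1
  · have e1 : 2 ^ 2 * (D * n ^ 2) = D * (2 * n) ^ 2 := by ring
    have hodd : Odd D := hD.odd_of_ne_two hD2
    have hcop : Nat.Coprime (2 ^ 2) D := by
      apply Nat.Coprime.pow_left
      exact hodd.coprime_two_left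
    have h2 : 2 ^ 2 ∣ n ^ 2 := hcop.dvd_of_dvd_mul_left h1
    have h3 : 2 ∣ n := (Nat.pow_dvd_pow_iff two_ne_zero).1 h2
    obtain ⟨t, rfl⟩ := h3
    have e2 : D * (2 * t) ^ 2 / 2 ^ 2 = D * t ^ 2 := by
      have : D * (2 * t) ^ 2 = 2 ^ 2 * (D * t ^ 2) := by ring
      rw [this, Nat.mul_div_cancel_left _ (by norm_num)]
    rw [e2, e1, h (2 * (2 * t)) (by omega), h (2 * t) (by omega), h t (by omega)]
    ring
  · have e1 : 2 ^ 2 * (D * n ^ 2) = D * (2 * n) ^ 2 := by ring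
    rw [e1, h (2 * n) (by omega), h n hn]
    ring
  · rfl

theorem eig (D κ k e : ℕ) (hD : D.Prime) (hD2 : D ≠ 2) (hD4 : D % 4 = cls κ 1) (hκ : κ = k + e)
    (hk : 3 ≤ k) (he : Even e) (he2 : 2 ≤ e) (hpar : jacobiSym (-1) D = (-1) ^ k)
    (l : ℂ) (hl : ∀ n, 1 ≤ n → hecke (2 * κ) 2 (aCoeff D k e) n = l * aCoeff D k e n) :
    ∃ l' : ℂ, ∀ (c : ℕ → ℂ) (g : VF), IsP κ c g →
      Mf k e D 1 (Tc κ 2 c) = l' * Mf k e D 1 c := by
  have hD0 : 0 < D := hD.pos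
  have hκ1 : 1 ≤ κ := by omega
  obtain ⟨hL, -⟩ := const_B D k hD hD2 hk hpar
  set L : ℂ := Lval D (1 - (k : ℂ)) with hLdef
  set cD : ℕ → ℂ := fun n ↦ 2 / L * cg D k e n with hcD
  set G : VF := Pser κ (ph D e) with hG
  have HG : IsP κ cD G := isP_gD D κ k e hD hD2 hD4 hκ hk he he2 hpar
  have hB : ((e + k - 1).choose e : ℂ) ≠ 0 := by
    have : 0 < (e + k - 1).choose e := Nat.choose_pos (by omega)
    exact_mod_cast this.ne'
  have hA : ∀ n, 1 ≤ n → aCoeff D k e n = ((e + k - 1).choose e : ℂ) * Sh D κ (cg D k e) n := by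
    intro n hn
    rw [hκ]
    exact aCoeff_eq_Sh D k e n hD hD2 hk he he2 hpar hn
  have hcg : ∀ n, 1 ≤ n → hecke (2 * κ) 2 (Sh D κ (cg D k e)) n = l * Sh D κ (cg D k e) n := by
    intro n hn
    have h1 := hl n hn
    rw [eig_hecke_congr (2 * κ) hA hn, eig_hecke_mul, hA n hn] at h1
    apply mul_left_cancel₀ hB
    rw [h1]
    ring
  have hScD : Sh D κ cD = fun n ↦ 2 / L * Sh D κ (cg D k e) n := by
    funext n
    exact eig_Sh_mul D κ (cg D k e) (2 / L) n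
  set lam : ℂ := l + (2 : ℂ) ^ (κ - 1) with hlam
  have hShx : ∀ n, 1 ≤ n → Sh D κ (fun n ↦ Tc κ 2 cD n - lam * cD n) n = 0 := by
    intro n hn
    rw [Sh_lin, Sh_T D κ hκ1 hD4 cD n hn, hScD, eig_hecke_mul, hcg n hn, hlam]
    ring
  set cx : ℕ → ℂ := fun n ↦ Tc κ 2 cD n - lam * cD n with hcx
  have hcx0 : ∀ n, 1 ≤ n → cx (D * n ^ 2) = 0 := Sh_inj D κ cx hShx
  have HT : IsP κ (Tc κ 2 cD) (T κ 2 G) := isP_T κ 2 hκ1 Nat.prime_two cD G HG
  set x : VF := fun τ ↦ T κ 2 G τ - lam • G τ with hx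
  have Hx : IsP κ cx x := isP_lin κ (Tc κ 2 cD) cD (T κ 2 G) G lam HT HG
  have hTG : T κ 2 G = Pser κ (T κ 2 (ph D e)) :=
    T_Pser κ 2 Nat.prime_two (ph D e) (seedInv_of_hasE κ (cph D e) (ph D e)
      (hasE_ph D e κ hD0 he he2 hD4)) (seedSum_of_bd κ k e hk hκ (ph D e)
      (ph_bound D e hD0 (by omega)))
  have hp1 : pet κ x (T κ 2 G) = 0 := by
    rw [hTG, pet_T_ph κ k e D hk hκ hD0 he he2 hD4 cx x Hx,
      eig_Mf_zero k e D (Tc κ 2 cx) (eig_Tc_zero κ D hD hD2 cx hcx0), mul_zero]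
  have hp2 : pet κ x G = 0 := by
    rw [hG, pet_ph κ k e D hk hκ hD0 he he2 hD4 cx x Hx, eig_Mf_zero k e D cx hcx0, mul_zero]
  have hp3 : pet κ x x = 0 := by
    have h1 := pet_sub κ cx (Tc κ 2 cD) cD x (T κ 2 G) G lam Hx HT HG
    rw [hp1, hp2, mul_zero, sub_zero] at h1
    exact h1
  have hzero : ∀ n, cx n = 0 := pet_pos κ cx x Hx hp3
  have hxz : ∀ τ r, x τ r = 0 := by
    intro τ r
    have h1 := Hx.exp.sum τ r
    have h2 : (fun n : ℕ ↦ if n % 4 = cls κ r then cx n * ee ((n : ℂ) * (τ : ℂ) / 4) else 0) =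
        fun _ ↦ (0 : ℂ) := by
      funext n
      rw [hzero n, zero_mul, ite_self]
    rw [h2] at h1
    exact h1.unique _root_.hasSum_zero
  have hTl : T κ 2 G = fun τ ↦ lam • G τ := by
    funext τ r
    have h1 := hxz τ r
    simp only [hx, Pi.sub_apply, Pi.smul_apply] at h1
    rw [sub_eq_zero] at h1
    rw [h1]
    rfl
  refine ⟨conj lam, fun c g Hg => ?_⟩
  have h1 := pet_T_ph κ k e D hk hκ hD0 he he2 hD4 c g Hg
  have h2 := pet_ph κ k e D hk hκ hD0 he he2 hD4 c g Hg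
  rw [← hTG, hTl, pet_smul_right, ← hG] at *
  rw [h2] at h1
  apply mul_left_cancel₀ (Cpt_ne κ D hκ1 hD0)
  rw [← h1]
  ring

end MP836e4b.P
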