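/-
MODULE EigD (size M), board mod836, MP_836e4b_nt, folder Work/MP_836e4b_nt/P. Keep the statements verbatim, helper lemmas private.
The functional c(D) is an eigenfunctional: V = {Tc κ 2 c - l' c : IsP κ c g for some g}. Stable under Tc κ p
(Tc_comm, Tc_lin, isP_T), bounded (isP_coeff_bound for the form T κ 2 g - l' g), Mf = 0 on V (Mf_lin). Conclude with
inversion: (Tc κ 2 c)(D) = l' c(D).
-/
import Mathlib
import Pool.Agent.Work.MP_836e4b_nt.P.Defs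
import Pool.Agent.Work.MP_836e4b_nt.P.Eig
import Pool.Agent.Work.MP_836e4b_nt.P.Inv
import Pool.Agent.Work.MP_836e4b_nt.P.Comm
import Pool.Agent.Work.MP_836e4b_nt.P.TP
import Pool.Agent.Work.MP_836e4b_nt.P.Sup
import Pool.Agent.Work.MP_836e4b_nt.P.Cont

open UpperHalfPlane Complex
open scoped MatrixGroups ComplexConjugate Matrix

namespace MP836e4b.P

theorem eigD (D κ k e : ℕ) (hD : D.Prime) (hD2 : D ≠ 2) (hD4 : D % 4 = cls κ 1) (hκ : κ = k + e)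
    (hk : 3 ≤ k) (he : Even e) (he2 : 2 ≤ e) (hpar : jacobiSym (-1) D = (-1) ^ k)
    (l : ℂ) (hl : ∀ n, 1 ≤ n → hecke (2 * κ) 2 (aCoeff D k e) n = l * aCoeff D k e n) :
    ∃ l' : ℂ, ∀ (c : ℕ → ℂ) (g : VF), IsP κ c g → Tc κ 2 c D = l' * c D := by
  obtain ⟨l', hl'⟩ := eig D κ k e hD hD2 hD4 hκ hk he he2 hpar l hl
  have hκ1 : 1 ≤ κ := by omega
  refine ⟨l', ?_⟩
  have hbd : ∀ (c : ℕ → ℂ) (g : VF), IsP κ c g →
      ∃ C : ℝ, ∀ n : ℕ, 1 ≤ n → ‖c n‖ ≤ C * (n : ℝ) ^ ((2 * (κ : ℝ) + 1) / 4) := by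
    intro c g H
    obtain ⟨C, _, hC⟩ := isP_coeff_bound κ c g H
    exact ⟨C, hC⟩
  have key := inversion κ k e D hk hκ hD hD2 hD4
    {x : ℕ → ℂ | ∃ (c : ℕ → ℂ) (g : VF), IsP κ c g ∧ x = fun n ↦ Tc κ 2 c n - l' * c n}
    (by
      rintro x ⟨c, g, H, rfl⟩ p hp
      refine ⟨Tc κ p c, T κ p g, isP_T κ p hκ1 hp c g H, ?_⟩
      rw [Tc_lin, Tc_comm κ p hp c H.exp.supp])
    (by
      rintro x ⟨c, g, H, rfl⟩
      exact hbd _ _ (isP_lin κ _ _ _ _ l' (isP_T κ 2 hκ1 Nat.prime_two c g H) H))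
    (by
      rintro x ⟨c, g, H, rfl⟩
      rw [Mf_lin κ k e D hk hκ (Tc κ 2 c) c l'
        (hbd _ _ (isP_T κ 2 hκ1 Nat.prime_two c g H)) (hbd _ _ H), hl' c g H]
      ring)
  intro c g H
  exact sub_eq_zero.mp (key _ ⟨c, g, H, rfl⟩)

end MP836e4b.P
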