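/-
MODULE LinA (size M), board mod836, MP_836e4b_nt, folder Work/MP_836e4b_nt/P. Keep the statements verbatim, helper lemmas private.
PURE LINEAR ALGEBRA. Let Δ = det G (integer), B = GT * adjugate G (integer matrix). al * Δ = B over ℂ (al G = GT, G adj G = Δ),
so B w = Δ l w over ℂ, hence over ℤ. Mod p: G U = 1 so Δ is a unit mod p and adjugate G = Δ U mod p, B = Δ (GT U) = Δ A,
A = GT U. Hence A w = l w mod p (cancel Δ) for EVERY integer vector w with B w = Δ l w; then A^p w = l^p w = l w mod p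
(Fermat: ZMod.pow_card), (A^p - A) w = 0, w = S (A^p - A) w = 0 mod p. So w = p w' with w' again a solution: by induction
p^n divides w_i for all n, so w_i = 0 (p ≥ 2).
-/
import Mathlib

namespace MP836e4b.P

open Matrix in
private theorem step_core (p d : ℕ) (hp : p.Prime) (G GT : Matrix (Fin d) (Fin d) ℤ)
    (U S : Matrix (Fin d) (Fin d) (ZMod p)) (hU : G.map (Int.cast : ℤ → ZMod p) * U = 1)
    (hS : S * ((GT.map (Int.cast : ℤ → ZMod p) * U) ^ p - GT.map (Int.cast : ℤ → ZMod p) * U) = 1)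
    (l : ℤ) (v : Fin d → ℤ) (hv : (GT * G.adjugate) *ᵥ v = (G.det * l) • v) :
    ∀ i, (p : ℤ) ∣ v i := by
  have : Fact p.Prime := ⟨hp⟩
  set c : ℤ →+* ZMod p := Int.castRingHom (ZMod p) with hc
  set Gp : Matrix (Fin d) (Fin d) (ZMod p) := G.map (Int.cast : ℤ → ZMod p) with hGp
  set GTp : Matrix (Fin d) (Fin d) (ZMod p) := GT.map (Int.cast : ℤ → ZMod p) with hGTp
  have eG : c.mapMatrix G = Gp := rfl
  have eGT : c.mapMatrix GT = GTp := rfl
  set A := GTp * U with hA
  have hadj : Gp.adjugate = Gp.det • U := by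
    calc Gp.adjugate = Gp.adjugate * (Gp * U) := by rw [hU, mul_one]
      _ = (Gp.adjugate * Gp) * U := by rw [mul_assoc]
      _ = Gp.det • U := by rw [Matrix.adjugate_mul, Matrix.smul_mul, one_mul]
  have hdet : Gp.det ≠ 0 := by
    intro h
    have h1 := congrArg Matrix.det hU
    rw [Matrix.det_mul, h, zero_mul, Matrix.det_one] at h1
    exact zero_ne_one h1
  set vp : Fin d → ZMod p := fun i => ((v i : ℤ) : ZMod p) with hvp
  have hB : c.mapMatrix (GT * G.adjugate) = Gp.det • A := by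
    rw [map_mul, eGT, RingHom.map_adjugate, eG, hadj, hA, Matrix.mul_smul]
  have hv1 : (c.mapMatrix (GT * G.adjugate)) *ᵥ vp = fun i => c (((GT * G.adjugate) *ᵥ v) i) := by
    funext i
    have := RingHom.map_mulVec c (GT * G.adjugate) v i
    rw [this]
    rfl
  have hv2 : A *ᵥ vp = (l : ZMod p) • vp := by
    have h1 : Gp.det • (A *ᵥ vp) = Gp.det • ((l : ZMod p) • vp) := by
      rw [← Matrix.smul_mulVec, ← hB, hv1, hv]
      funext i
      have hd : Gp.det = ((G.det : ℤ) : ZMod p) := by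
        rw [← eG]
        exact (RingHom.map_det c G).symm
      simp only [Pi.smul_apply, smul_eq_mul, hd, hvp, hc, Int.coe_castRingHom]
      push_cast
      ring
    funext i
    have h2 := congrFun h1 i
    simp only [Pi.smul_apply, smul_eq_mul] at h2 ⊢
    exact mul_left_cancel₀ hdet h2
  have hpow : ∀ n : ℕ, (A ^ n) *ᵥ vp = ((l : ZMod p) ^ n) • vp := by
    intro n
    induction n with
    | zero => simp
    | succ n ih =>
      rw [pow_succ, ← Matrix.mulVec_mulVec, hv2, Matrix.mulVec_smul, ih, smul_smul, pow_succ, mul_comm]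
  have hz : vp = 0 := by
    have h1 : (A ^ p - A) *ᵥ vp = 0 := by
      rw [Matrix.sub_mulVec, hpow p, hv2, ZMod.pow_card, sub_self]
    calc vp = (1 : Matrix (Fin d) (Fin d) (ZMod p)) *ᵥ vp := (Matrix.one_mulVec vp).symm
      _ = S *ᵥ ((A ^ p - A) *ᵥ vp) := by rw [← hS, Matrix.mulVec_mulVec]
      _ = 0 := by rw [h1, Matrix.mulVec_zero]
  intro i
  have := congrFun hz i
  exact (ZMod.intCast_zmod_eq_zero_iff_dvd (v i) p).mp this

open Matrix in
private theorem desc_core (p d : ℕ) (hp : p.Prime) (G GT : Matrix (Fin d) (Fin d) ℤ)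
    (U S : Matrix (Fin d) (Fin d) (ZMod p)) (hU : G.map (Int.cast : ℤ → ZMod p) * U = 1)
    (hS : S * ((GT.map (Int.cast : ℤ → ZMod p) * U) ^ p - GT.map (Int.cast : ℤ → ZMod p) * U) = 1)
    (l : ℤ) (n : ℕ) : ∀ v : Fin d → ℤ, (GT * G.adjugate) *ᵥ v = (G.det * l) • v →
    ∀ i, ((p : ℤ) ^ n) ∣ v i := by
  have hp0 : (p : ℤ) ≠ 0 := by exact_mod_cast hp.ne_zero
  induction n with
  | zero => intro v _ i; simp
  | succ n ih =>
    intro v hv i
    have hd := step_core p d hp G GT U S hU hS l v hv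
    choose v' hv' using hd
    have hvv : v = (p : ℤ) • v' := by
      funext i
      rw [hv' i]
      rfl
    have h1 : (GT * G.adjugate) *ᵥ v' = (G.det * l) • v' := by
      rw [hvv, Matrix.mulVec_smul, smul_comm (G.det * l) (p : ℤ) v'] at hv
      funext j
      have := congrFun hv j
      simp only [Pi.smul_apply, smul_eq_mul] at this ⊢
      exact mul_left_cancel₀ hp0 this
    have h2 := ih v' h1 i
    rw [hv' i, pow_succ, mul_comm]
    exact mul_dvd_mul_left _ h2

open Matrix in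
theorem lin_core (p d : ℕ) (hp : p.Prime) (G GT : Matrix (Fin d) (Fin d) ℤ)
    (U S : Matrix (Fin d) (Fin d) (ZMod p)) (hU : G.map (Int.cast : ℤ → ZMod p) * U = 1)
    (hS : S * ((GT.map (Int.cast : ℤ → ZMod p) * U) ^ p - GT.map (Int.cast : ℤ → ZMod p) * U) = 1)
    (al : Matrix (Fin d) (Fin d) ℂ)
    (hal : ∀ i k, ((GT i k : ℤ) : ℂ) = ∑ j, al i j * ((G j k : ℤ) : ℂ))
    (w : Fin d → ℤ) (l : ℤ) (hw : ∀ i, ∑ j, al i j * ((w j : ℤ) : ℂ) = (l : ℂ) * ((w i : ℤ) : ℂ)) :
    ∀ i, w i = 0 := by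
  set c : ℤ →+* ℂ := Int.castRingHom ℂ with hc
  have e1 : c.mapMatrix GT = al * c.mapMatrix G := by
    ext i k
    rw [Matrix.mul_apply]
    exact hal i k
  have e2 : c.mapMatrix (GT * G.adjugate) = (c.mapMatrix G).det • al := by
    rw [map_mul, e1, RingHom.map_adjugate, mul_assoc, Matrix.mul_adjugate, Matrix.mul_smul, mul_one]
  have e3 : (GT * G.adjugate) *ᵥ w = (G.det * l) • w := by
    funext i
    have h1 := RingHom.map_mulVec c (GT * G.adjugate) w i
    have h2 : (c.mapMatrix (GT * G.adjugate) *ᵥ (fun j => c (w j))) i =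
        (c.mapMatrix G).det * ((l : ℂ) * ((w i : ℤ) : ℂ)) := by
      rw [e2, Matrix.smul_mulVec, Pi.smul_apply, smul_eq_mul]
      congr 1
      exact hw i
    have h3 : c (((GT * G.adjugate) *ᵥ w) i) = (c.mapMatrix G).det * ((l : ℂ) * ((w i : ℤ) : ℂ)) := by
      rw [h1, ← h2]
      rfl
    have hd : (c.mapMatrix G).det = ((G.det : ℤ) : ℂ) := (RingHom.map_det c G).symm
    rw [hd] at h3
    have h4 : ((((GT * G.adjugate) *ᵥ w) i : ℤ) : ℂ) = (((G.det * l) * w i : ℤ) : ℂ) := by
      rw [Int.cast_mul, Int.cast_mul, mul_assoc]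
      exact h3
    have h5 := Int.cast_injective (α := ℂ) h4
    rw [h5]
    rfl
  intro i
  have h := desc_core p d hp G GT U S hU hS l (w i).natAbs w e3 i
  apply Int.eq_zero_of_abs_lt_dvd h
  have h6 : (w i).natAbs < p ^ (w i).natAbs := Nat.lt_pow_self hp.one_lt
  rw [Int.abs_eq_natAbs]
  exact_mod_cast h6

end MP836e4b.P
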