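/-
MODULE MainP (size M), board mod836, MP_836e4b_nt, folder Work/MP_836e4b_nt/P. Keep the statements verbatim, helper lemmas private.
Assembly. e odd: aCoeff = 0 (aCoeff_odd, Decomp.lean), not an eigenform. e even, suppose T_2 F = l F. eigD gives l'.
Parity of κ = k+e: (-1)^κ = (-1)^k = jacobiSym (-1) D = χ₄(D), so D % 4 = cls κ 1. tf_hasE with exists_weights: c integer,
IsP κ c g. Iterating: l'^n c(D) = (Tc^n c)(D) is an integer (Tc_int, isP_T). If c(D) = 0: (Tc κ 2 c)(D) = c(4D) + 0 + 0 (4 ∤ D) =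
0, but c(4D) is odd. Otherwise l' = m integer (int_of_pow) and c(4D) = m c(D) - 2^{κ-1}(1+ψ) c(D) is even since c(D) is
even (D % 4 = cls κ 1). Contradiction.
-/
import Mathlib
import Pool.Agent.Work.MP_836e4b_nt.P.Defs
import Pool.Agent.Work.MP_836e4b_nt.P.EigD
import Pool.Agent.Work.MP_836e4b_nt.P.IntL
import Pool.Agent.Work.MP_836e4b_nt.P.Tf4
import Pool.Agent.Work.MP_836e4b_nt.P.Rep3
import Pool.Agent.Work.MP_836e4b_nt.P.Rep5

open UpperHalfPlane Complex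
open scoped MatrixGroups ComplexConjugate Matrix

namespace MP836e4b.P

private theorem d4_eq (D k e : ℕ) (hD : D.Prime) (hD2 : D ≠ 2) (he : Even e)
    (hpar : jacobiSym (-1) D = (-1) ^ k) : D % 4 = cls (k + e) 1 := by
  have hodd : Odd D := hD.odd_of_ne_two hD2
  have h1 := jacobiSym.at_neg_one hodd
  rw [hpar] at h1
  unfold cls
  rw [if_neg (by decide)]
  have h2 : D % 4 = 1 ∨ D % 4 = 3 := by
    have := Nat.odd_iff.1 hodd
    omega
  by_cases hk : Even k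
  · rw [if_pos (hk.add he)]
    rw [hk.neg_one_pow] at h1
    rcases h2 with h2 | h2
    · exact h2
    · exfalso
      rw [ZMod.χ₄_nat_three_mod_four h2] at h1
      norm_num at h1
  · rw [if_neg (by rw [Nat.even_add]; tauto)]
    rcases h2 with h2 | h2
    · exfalso
      rw [ZMod.χ₄_nat_one_mod_four h2, (Nat.not_even_iff_odd.1 hk).neg_one_pow] at h1
      norm_num at h1
    · exact h2

private theorem oddReps_zero (D : ℕ) (hD : D ≠ 0) : oddReps 0 D = 0 := by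
  unfold oddReps
  rw [Finset.card_eq_zero, Finset.filter_eq_empty_iff]
  rintro u - ⟨-, h⟩
  apply hD
  rw [← h]
  simp

theorem main_eig (D k e j : ℕ) (hD : D.Prime) (hD2 : D ≠ 2) (hk : 3 ≤ k) (he : Even e)
    (he2 : 2 ≤ e) (hpar : jacobiSym (-1) D = (-1) ^ k) (hj : Odd (oddReps j D))
    (hκ : 12 * j + 3 ≤ k + e) :
    ¬ ∃ l : ℂ, ∀ n, 1 ≤ n → hecke (2 * k + 2 * e) 2 (aCoeff D k e) n = l * aCoeff D k e n := by
  rintro ⟨l, hl⟩
  have hD4 : D % 4 = cls (k + e) 1 := d4_eq D k e hD hD2 he hpar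
  obtain ⟨l', hl'⟩ := eigD D (k + e) k e hD hD2 hD4 rfl hk he he2 hpar l (by
    intro n hn
    rw [mul_add]
    exact hl n hn)
  obtain ⟨κ, hκe⟩ : ∃ κ, κ = k + e := ⟨_, rfl⟩
  rw [← hκe] at hl' hD4 hκ
  have hj1 : 1 ≤ j := by
    rcases Nat.eq_zero_or_pos j with h0 | h0
    · rw [h0, oddReps_zero D hD.ne_zero] at hj
      exact absurd hj (by decide)
    · exact h0
  obtain ⟨b, a, a', hb, hw⟩ := exists_weights κ j hκ
  obtain ⟨c, hP, hev, hodd⟩ := tf_hasE b a a' j hb hj1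
  rw [← hw] at hP hev
  have hiter : ∀ n : ℕ, ∃ (d : ℕ → ℤ) (g : VF), IsP κ (fun n ↦ (d n : ℂ)) g ∧
      (d D : ℂ) = l' ^ n * (c D : ℂ) := by
    intro n
    induction n with
    | zero => exact ⟨c, _, hP, by simp⟩
    | succ n ih =>
      obtain ⟨d, g, hg, hd⟩ := ih
      obtain ⟨d', hd'⟩ := Tc_int κ 2 d
      have h1 := isP_T κ 2 (by omega) Nat.prime_two _ _ hg
      rw [hd'] at h1
      refine ⟨d', _, h1, ?_⟩
      have h2 := hl' _ _ hg
      rw [hd'] at h2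
      refine h2.trans ?_
      rw [hd]
      ring
  have hT := hl' _ _ hP
  have h4D : ¬ (2 ^ 2 ∣ D) := by
    intro h
    have h3 : (2 : ℕ) ∣ D := dvd_trans (by norm_num) h
    exact hD2 ((Nat.prime_dvd_prime_iff_eq Nat.prime_two hD).1 h3).symm
  have hTc : Tc κ 2 (fun n ↦ (c n : ℂ)) D = (c (2 ^ 2 * D) : ℂ) +
      (2 : ℂ) ^ (κ - 1) * (1 + ((psi κ 2 D : ℤ) : ℂ)) * (c D : ℂ) := by
    unfold Tc
    rw [if_pos (Or.inr hD4), if_neg h4D]
    push_cast
    ring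
  obtain ⟨m, hm⟩ : ∃ m : ℤ, l' * (c D : ℂ) = (m : ℂ) * (c D : ℂ) := by
    by_cases h0 : c D = 0
    · exact ⟨0, by rw [h0]; simp⟩
    · obtain ⟨m, hm⟩ := int_of_pow l' (c D) h0 (fun n ↦ by
        obtain ⟨d, g, _, hd⟩ := hiter n
        exact ⟨d D, hd.symm⟩)
      exact ⟨m, by rw [hm]⟩
  rw [hTc, hm] at hT
  have hZ : c (2 ^ 2 * D) + 2 ^ (κ - 1) * (1 + psi κ 2 D) * c D = m * c D := by
    exact_mod_cast hT
  have h4 : Odd (c (4 * D)) := (hodd D).2 hj
  have h5 : Even (c D) := hev D hD4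
  have h6 : c (2 ^ 2 * D) = (m - 2 ^ (κ - 1) * (1 + psi κ 2 D)) * c D := by
    linear_combination hZ
  have h7 : Even (c (2 ^ 2 * D)) := by
    rw [h6]
    exact h5.mul_left _
  have h8 : 2 ^ 2 * D = 4 * D := by ring
  rw [h8] at h7
  exact (Int.not_even_iff_odd.2 h4) h7

end MP836e4b.P
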