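/-
MODULE SWDef, board mod836, MP_836e4b_nt. Definitions of the small weight block (fully proved, not for claiming).

Computation modulo a prime `p < 2^10` with packed series: the series `∑ a_i q^i` modulo `q^N` (`a_i < p`) is the number
`∑ a_i W^i`, `W = 2^32`; products are products of natural numbers followed by `red` (reduction of the digits).
`x = th 0 τ 0 = 1 + 2q + ..`, `th 1 τ 0 = t * Y1(q)`, `t = e(τ/4)`, `z = y^4 = q Y1^4`.
-/
import Mathlib
import Pool.Agent.Work.MP_836e4b_nt.P.Defs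

open UpperHalfPlane Complex
open scoped MatrixGroups ComplexConjugate Matrix

namespace MP836e4b.P

/-- The base of the packed representation. -/
def WW : ℕ := 4294967296

/-- The digit `i`. -/
def dg (X i : ℕ) : ℕ := X / WW ^ i % WW

/-- Reduce the first `N` digits mod `p`, drop the others. -/
def red (p : ℕ) : ℕ → ℕ → ℕ
  | 0, _ => 0
  | N + 1, X => X % WW % p + WW * red p N (X / WW)

/-- Product mod `p`, mod `q^N`. -/
def mulP (p N X Y : ℕ) : ℕ := red p N (X * Y)

/-- Pack a list of digits. -/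
def pack : List ℕ → ℕ
  | [] => 0
  | a :: A => a + WW * pack A

/-- `-a mod p`. -/
def ng (p a : ℕ) : ℕ := (p - a % p) % p

/-- Sum of `W^(m²)` for `1 ≤ m ≤ n`, `m² < N`. -/
def sqP (N : ℕ) : ℕ → ℕ
  | 0 => 0
  | n + 1 => (if (n + 1) * (n + 1) < N then WW ^ ((n + 1) * (n + 1)) else 0) + sqP N n

/-- Sum of `W^(m(m+1))` for `0 ≤ m < n`, `m(m+1) < N`. -/
def trP (N : ℕ) : ℕ → ℕ
  | 0 => 0
  | n + 1 => (if n * (n + 1) < N then WW ^ (n * (n + 1)) else 0) + trP N n

/-- `x = 1 + 2 ∑ q^(m²)`. -/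
def xP (N : ℕ) : ℕ := 1 + 2 * sqP N N

/-- `Y1 = 2 ∑ q^(m(m+1))`. -/
def yP (N : ℕ) : ℕ := 2 * trP N N

/-- `z = q Y1^4`. -/
def zP (p N : ℕ) : ℕ :=
  let y2 := mulP p N (yP N) (yP N)
  red p N (WW * mulP p N y2 y2)

/-- `E₄` mod `p`: `x^8 + 14 x^4 z + z^2`. -/
def e4P (p N x4 z : ℕ) : ℕ := red p N (mulP p N x4 x4 + 14 * mulP p N x4 z + mulP p N z z)

/-- `E₆` mod `p`: `x^12 - 33 x^8 z - 33 x^4 z^2 + z^3`. -/
def e6P (p N x4 z : ℕ) : ℕ :=
  let x8 := mulP p N x4 x4
  let z2 := mulP p N z z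
  red p N (mulP p N x8 x4 + ng p 33 * mulP p N x8 z + ng p 33 * mulP p N x4 z2 + mulP p N z2 z)

/-- The two components of the basic vector `b` (the second divided by `t` or `t³`). -/
def basP (p N b : ℕ) : ℕ × ℕ :=
  let x := xP N
  let y := yP N
  let z := zP p N
  let x2 := mulP p N x x
  let x4 := mulP p N x2 x2
  if b = 0 then (red p N x, red p N y)
  else if b = 2 then
    (red p N (mulP p N x4 x + ng p 5 * mulP p N x z),
     red p N (mulP p N y z + ng p 5 * mulP p N x4 y))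
  else
    let x3 := mulP p N x2 x
    let y3 := mulP p N (mulP p N y y) y
    if b = 3 then
      (red p N (mulP p N x4 x3 + 7 * mulP p N x3 z), red p N (mulP p N y3 z + 7 * mulP p N x4 y3))
    else
      let z2 := mulP p N z z
      let x8 := mulP p N x4 x4
      (red p N (mulP p N x8 x3 + ng p 22 * mulP p N (mulP p N x4 x3) z + ng p 11 * mulP p N x3 z2),
       red p N (mulP p N y3 z2 + ng p 22 * mulP p N (mulP p N x4 y3) z + ng p 11 * mulP p N x8 y3))

/-- The triples `(b, a, a')` with `b + 4a + 6a' = κ`. -/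
def idx (κ : ℕ) : List (ℕ × ℕ × ℕ) :=
  (if κ % 2 = 0 then [0, 2] else [3, 5]).flatMap fun b ↦
    (List.range (κ / 6 + 1)).filterMap fun a' ↦
      if b + 6 * a' ≤ κ ∧ (κ - b - 6 * a') % 4 = 0 then some (b, (κ - b - 6 * a') / 4, a') else none

/-- All powers `A^0, .., A^n` times `P`. -/
def powsP (p N A : ℕ) : ℕ → ℕ → List ℕ
  | 0, P => [P]
  | n + 1, P => P :: powsP p N A n (mulP p N A P)

/-- The table of `(component 0, component 1)` for all triples of `idx κ`. -/
def tabP (p N κ : ℕ) : List (ℕ × ℕ) :=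
  let x2 := mulP p N (xP N) (xP N)
  let x4 := mulP p N x2 x2
  let z := zP p N
  let P4 := powsP p N (e4P p N x4 z) (κ / 4) 1
  let P6 := powsP p N (e6P p N x4 z) (κ / 6) 1
  let B0 := basP p N (if κ % 2 = 0 then 0 else 3)
  let B1 := basP p N (if κ % 2 = 0 then 2 else 5)
  (idx κ).map fun t ↦
    let f := mulP p N (P4.getD t.2.1 0) (P6.getD t.2.2 0)
    if t.1 = 0 ∨ t.1 = 3 then (mulP p N B0.1 f, mulP p N B0.2 f)
    else (mulP p N B1.1 f, mulP p N B1.2 f)

/-- The residue class of the second component. -/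
def cl1 (κ : ℕ) : ℕ := if κ % 2 = 0 then 1 else 3

/-- The coefficient at `n` from the two packed components. -/
def coP (κ : ℕ) (f : ℕ × ℕ) (n : ℕ) : ℕ :=
  if n % 4 = 0 then dg f.1 (n / 4) else if n % 4 = cl1 κ then dg f.2 ((n - cl1 κ) / 4) else 0

/-- The coefficient of `T` at `n`, `n` in one of the two classes, mod `p`. -/
def toP (p κ : ℕ) (f : ℕ × ℕ) (n : ℕ) : ℕ :=
  (dg f.1 n
    + 2 ^ (κ - 1) % p * (if n % 2 = 0 then 1 else if (n % 8 = 1 ∧ κ % 2 = 0) ∨ (n % 8 = 7 ∧ κ % 2 = 1)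
        then 2 else 0) * coP κ f n
    + 2 ^ (2 * κ - 1) % p * (if n % 4 = 0 then coP κ f (n / 4) else 0)) % p

/-- Packed rows: differences with the first form of the values at `piv`. -/
def difMat (p : ℕ) (piv : List ℕ) (F : List (ℕ × ℕ)) (co : (ℕ × ℕ) → ℕ → ℕ) : List ℕ :=
  match F with
  | [] => []
  | f0 :: F => F.map fun f ↦ pack (piv.map fun n ↦ (co f n + (p - co f0 n % p)) % p)

/-- The digits of a packed row. -/
def digs : ℕ → ℕ → List ℕ
  | 0, _ => []
  | d + 1, X => X % WW :: digs d (X / WW)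

/-- Row vector times matrix (packed rows). -/
def rowP : List ℕ → List ℕ → ℕ
  | a :: v, r :: B => a * r + rowP v B
  | _, _ => 0

/-- Matrix product mod `p`. -/
def mMul (p d : ℕ) (A B : List ℕ) : List ℕ := A.map fun X ↦ red p d (rowP (digs d X) B)

/-- Identity matrix. -/
def mId (d : ℕ) : List ℕ := (List.range d).map fun i ↦ WW ^ i

/-- Power by repeated squaring, with fuel. -/
def mPow (p d : ℕ) : ℕ → List ℕ → ℕ → List ℕ
  | 0, _, _ => mId d
  | fuel + 1, A, n => if n = 0 then mId d else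
      let B := mPow p d fuel (mMul p d A A) (n / 2)
      if n % 2 = 1 then mMul p d A B else B

/-- The certificate checker. `U` = inverse of the matrix of coefficients at `piv`, `S` = inverse of `A^p - A`. -/
def chkW (κ p N : ℕ) (piv U S : List ℕ) : Bool :=
  let d := piv.length
  let F := tabP p N κ
  let A := mMul p d (difMat p piv F (toP p κ)) U
  let Q := mPow p d 12 A p
  let Df := (Q.zip A).map fun rs ↦ red p d (rs.1 + (p - 1) * rs.2)
  (F.length == d + 1) && (mMul p d (difMat p piv F (coP κ)) U == mId d) && (mMul p d S Df == mId d)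
    && piv.all (fun n ↦ (n % 4 == 0 || n % 4 == cl1 κ) && decide (n < N) && decide (0 < n))
    && U.length == d && S.length == d && decide (p < 1024) && decide (5 ≤ p)
    && decide (N < 256) && decide (d < 256) && decide (0 < N) && decide (0 < d)

/-- The series `x = 1 + 2 ∑ q^(m²)`. -/
noncomputable def xQ : PowerSeries ℤ := PowerSeries.mk fun n ↦
  if n = 0 then 1 else if ∃ m ≤ n, m ^ 2 = n then 2 else 0

/-- The series `Y1 = 2 ∑ q^(m(m+1))` (so `th 1 τ 0 = e(τ/4) Y1(q)`). -/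
noncomputable def yQ : PowerSeries ℤ := PowerSeries.mk fun n ↦
  if ∃ m ≤ n, m * (m + 1) = n then 2 else 0

/-- `z = y⁴ = q Y1⁴`. -/
noncomputable def zQ : PowerSeries ℤ := PowerSeries.X * yQ ^ 4

noncomputable def e4Q : PowerSeries ℤ := xQ ^ 8 + 14 * xQ ^ 4 * zQ + zQ ^ 2

noncomputable def e6Q : PowerSeries ℤ :=
  xQ ^ 12 - 33 * xQ ^ 8 * zQ - 33 * xQ ^ 4 * zQ ^ 2 + zQ ^ 3

/-- The components of the basic vector `b`, the second one divided by `t` (`b = 0, 2`) or `t³`. -/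
noncomputable def basQ (b : ℕ) (r : Fin 2) : PowerSeries ℤ :=
  if b = 0 then (if r = 0 then xQ else yQ)
  else if b = 2 then (if r = 0 then xQ ^ 5 - 5 * xQ * zQ else yQ * zQ - 5 * xQ ^ 4 * yQ)
  else if b = 3 then
    (if r = 0 then xQ ^ 7 + 7 * xQ ^ 3 * zQ else yQ ^ 3 * zQ + 7 * xQ ^ 4 * yQ ^ 3)
  else
    (if r = 0 then xQ ^ 11 - 22 * xQ ^ 7 * zQ - 11 * xQ ^ 3 * zQ ^ 2
      else yQ ^ 3 * zQ ^ 2 - 22 * xQ ^ 4 * yQ ^ 3 * zQ - 11 * xQ ^ 8 * yQ ^ 3)

/-- The component `r` of `bas b * E₄^a * E₆^a'` as a series in `q`. -/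
noncomputable def qQ (t : ℕ × ℕ × ℕ) (r : Fin 2) : PowerSeries ℤ :=
  basQ t.1 r * e4Q ^ t.2.1 * e6Q ^ t.2.2

/-- The coefficient of `e(nτ/4)` of `tf b a a' 0`, `(b,a,a') = t`, weight `κ`. -/
noncomputable def mc (κ : ℕ) (t : ℕ × ℕ × ℕ) (n : ℕ) : ℤ :=
  if n % 4 = 0 then PowerSeries.coeff (n / 4) (qQ t 0)
  else if n % 4 = cl1 κ then PowerSeries.coeff ((n - cl1 κ) / 4) (qQ t 1) else 0

end MP836e4b.P
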