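/-
MODULE PkDef, board mod836, MP_836e4b_nt. Definitions of the soundness proof of the small weight checker (fully proved, not
for claiming).
-/
import Mathlib
import Pool.Agent.Work.MP_836e4b_nt.P.SWDef

open UpperHalfPlane Complex
open scoped MatrixGroups ComplexConjugate Matrix

namespace MP836e4b.P

/-- The number with the digits `a 0, .., a (M-1)`. -/
def sm (a : ℕ → ℕ) (M : ℕ) : ℕ := ∑ i ∈ Finset.range M, a i * WW ^ i

/-- `X` has digits `< B` and represents `P` modulo `(p, q^N)`. -/
structure Rw (p N B X : ℕ) (P : PowerSeries ℤ) : Prop where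
  lt : ∀ i, dg X i < B
  eq : ∀ i, i < N → ((dg X i : ℕ) : ZMod p) = ((PowerSeries.coeff i P : ℤ) : ZMod p)

/-- `X` is reduced (digits `< p`, `N` digits) and represents `P` modulo `(p, q^N)`. -/
structure Rep (p N X : ℕ) (P : PowerSeries ℤ) : Prop where
  lt : ∀ i, dg X i < p
  ge : ∀ i, N ≤ i → dg X i = 0
  eq : ∀ i, i < N → ((dg X i : ℕ) : ZMod p) = ((PowerSeries.coeff i P : ℤ) : ZMod p)

/-- The matrix mod `p` of a list of packed rows. -/
def toMat (p d : ℕ) (A : List ℕ) : Matrix (Fin d) (Fin d) (ZMod p) := fun i j ↦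
  ((dg (A.getD i 0) j : ℕ) : ZMod p)

/-- A reduced packed matrix. -/
structure RM (p d : ℕ) (A : List ℕ) : Prop where
  len : A.length = d
  lt : ∀ i j, dg (A.getD i 0) j < p

/-- The action of `T κ 2` on integer coefficients, at `N` in one of the classes. -/
def TcZ (κ : ℕ) (c : ℕ → ℤ) (N : ℕ) : ℤ :=
  c (4 * N) + 2 ^ (κ - 1) * (1 + psi κ 2 N) * c N +
    2 ^ (2 * κ - 1) * (if N % 4 = 0 then c (N / 4) else 0)

/-- The `i`-th cusp form of the basis: coefficients of the difference with the first form. -/
noncomputable def gc (κ i : ℕ) (n : ℕ) : ℤ :=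
  mc κ ((idx κ).getD (i + 1) (0, 0, 0)) n - mc κ ((idx κ).getD 0 (0, 0, 0)) n

/-- The integer matrix of the coefficients of the cusp forms at the pivots. -/
noncomputable def Gm (κ : ℕ) (piv : List ℕ) : Matrix (Fin piv.length) (Fin piv.length) ℤ :=
  fun i j ↦ gc κ i (piv.getD j 0)

/-- The integer matrix of the coefficients of `T` of the cusp forms at the pivots. -/
noncomputable def GTm (κ : ℕ) (piv : List ℕ) : Matrix (Fin piv.length) (Fin piv.length) ℤ :=
  fun i j ↦ TcZ κ (gc κ i) (piv.getD j 0)

/-- The checker, including the check that the digits of the certificates are reduced. -/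
def chkX (κ p N : ℕ) (piv U S : List ℕ) : Bool :=
  chkW κ p N piv U S && U.all (fun r ↦ red p piv.length r == r) &&
    S.all (fun r ↦ red p piv.length r == r)

end MP836e4b.P
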