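/-
MODULE PkA (size M), board mod836, MP_836e4b_nt, folder Work/MP_836e4b_nt/P. Keep the statements verbatim, helper lemmas private.
Digits in base WW = 2^32 (SWDef, PkDef). dg X i = X / WW^i % WW.
dg_sm: induction on M (or on i with sm a (M+1) = a 0 + WW * sm (fun i => a (i+1)) M).
eq_sm: X < WW^M: induction on M: X = X % WW + WW * (X / WW), dg X (i+1) = dg (X/WW) i (Nat.div_div_eq_div_mul).
red_eq: induction on N: red p (N+1) X = X % WW % p + WW * red p N (X / WW). dg_red follows from dg_sm (a % p < WW).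
dg_add: if the sums of the digits are < WW there are no carries: both numbers are < WW^M for a large M (lt_pow), use
eq_sm, sm a M + sm b M = sm (a+b) M, dg_sm. dg_mul_const the same. dg_shift: WW * X.
dg_mul: X = sm a N, Y = sm b N with a i = dg X i (zero for i >= N), product = sm (conv) (2N) (e.g. Polynomial.eval_mul,
Polynomial.eval_eq_sum_range', coeff_mul; or Finset.sum_mul_sum), every coefficient of the product is < WW, dg_sm.
-/
import Mathlib
import Pool.Agent.Work.MP_836e4b_nt.P.PkDef

namespace MP836e4b.P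

private theorem WW_pos : 0 < WW := by unfold WW; norm_num

private theorem WW_one_lt : 1 < WW := by unfold WW; norm_num

private theorem sm_succ_last (a : ℕ → ℕ) (M : ℕ) : sm a (M + 1) = sm a M + a M * WW ^ M :=
  Finset.sum_range_succ _ _

private theorem sm_succ_first (a : ℕ → ℕ) (M : ℕ) :
    sm a (M + 1) = a 0 + WW * sm (fun i => a (i + 1)) M := by
  unfold sm
  rw [Finset.sum_range_succ', Finset.mul_sum, pow_zero, mul_one, add_comm]
  congr 1
  refine Finset.sum_congr rfl fun i _ => ?_
  rw [pow_succ]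
  ring

private theorem dg_zero' (X : ℕ) : dg X 0 = X % WW := by
  unfold dg
  rw [pow_zero, Nat.div_one]

private theorem dg_succ' (X i : ℕ) : dg X (i + 1) = dg (X / WW) i := by
  unfold dg
  rw [pow_succ', Nat.div_div_eq_div_mul]

private theorem dg_of_zero (i : ℕ) : dg 0 i = 0 := by
  unfold dg
  rw [Nat.zero_div, Nat.zero_mod]

private theorem dg_add_mul_succ (x Y i : ℕ) (hx : x < WW) : dg (x + WW * Y) (i + 1) = dg Y i := by
  rw [dg_succ', Nat.add_mul_div_left _ _ WW_pos, Nat.div_eq_of_lt hx, Nat.zero_add]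

private theorem dg_add_mul_zero (x Y : ℕ) (hx : x < WW) : dg (x + WW * Y) 0 = x := by
  rw [dg_zero', Nat.add_mul_mod_self_left, Nat.mod_eq_of_lt hx]

theorem dg_sm (a : ℕ → ℕ) (ha : ∀ i, a i < WW) (M i : ℕ) :
    dg (sm a M) i = if i < M then a i else 0 := by
  induction M generalizing a i with
  | zero =>
    rw [if_neg (Nat.not_lt_zero i)]
    exact dg_of_zero i
  | succ M ih =>
    rw [sm_succ_first]
    cases i with
    | zero =>
      rw [dg_add_mul_zero _ _ (ha 0), if_pos (Nat.succ_pos M)]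
    | succ i =>
      rw [dg_add_mul_succ _ _ _ (ha 0), ih (fun i => a (i + 1)) (fun i => ha (i + 1)) i]
      by_cases h : i < M
      · rw [if_pos h, if_pos (Nat.succ_lt_succ h)]
      · rw [if_neg h, if_neg fun h' => h (Nat.lt_of_succ_lt_succ h')]

theorem eq_sm (X M : ℕ) (h : X < WW ^ M) : X = sm (dg X) M := by
  induction M generalizing X with
  | zero =>
    rw [pow_zero] at h
    have h0 : X = 0 := by omega
    subst h0
    rfl
  | succ M ih =>
    have h1 : X / WW < WW ^ M := by
      rw [Nat.div_lt_iff_lt_mul WW_pos, ← pow_succ]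
      exact h
    rw [sm_succ_first, dg_zero']
    have h2 : (fun i => dg X (i + 1)) = dg (X / WW) := funext fun i => dg_succ' X i
    rw [h2, ← ih _ h1]
    exact (Nat.mod_add_div X WW).symm

theorem lt_pow_self_WW (X : ℕ) : X < WW ^ X := Nat.lt_pow_self WW_one_lt

theorem dg_lt (X i : ℕ) : dg X i < WW := Nat.mod_lt _ WW_pos

private theorem red_eq (p N X : ℕ) : red p N X = sm (fun i => dg X i % p) N := by
  induction N generalizing X with
  | zero => rfl
  | succ N ih =>
    rw [sm_succ_first]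
    have h2 : (fun i => dg X (i + 1) % p) = fun i => dg (X / WW) i % p :=
      funext fun i => by rw [dg_succ']
    rw [h2, ← ih, dg_zero']
    rfl

private theorem eq_sm_of_le (X M : ℕ) (h : X ≤ M) : X = sm (dg X) M :=
  eq_sm X M (lt_of_lt_of_le (lt_pow_self_WW X) (Nat.pow_le_pow_right WW_pos h))

private theorem sm_eq_of_zero (f : ℕ → ℕ) (N M : ℕ) (hNM : N ≤ M) (h : ∀ i, N ≤ i → f i = 0) :
    sm f M = sm f N := by
  induction M, hNM using Nat.le_induction with
  | base => rfl
  | succ M hM ih => rw [sm_succ_last, ih, h M hM, zero_mul, add_zero]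

private theorem eq_sm_of_zero (X N : ℕ) (h : ∀ i, N ≤ i → dg X i = 0) : X = sm (dg X) N := by
  have h1 := eq_sm_of_le X (X + N) (Nat.le_add_right _ _)
  rw [sm_eq_of_zero _ N (X + N) (Nat.le_add_left _ _) h] at h1
  exact h1

theorem dg_red (p N X i : ℕ) : dg (red p N X) i = if i < N then dg X i % p else 0 := by
  rw [red_eq]
  exact dg_sm _ (fun i => lt_of_le_of_lt (Nat.mod_le _ _) (dg_lt X i)) N i

theorem dg_add (X Y : ℕ) (h : ∀ i, dg X i + dg Y i < WW) (i : ℕ) :
    dg (X + Y) i = dg X i + dg Y i := by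
  have h1 := eq_sm_of_le X (X + Y + i + 1) (by omega)
  have h2 := eq_sm_of_le Y (X + Y + i + 1) (by omega)
  have h3 : X + Y = sm (fun j => dg X j + dg Y j) (X + Y + i + 1) := by
    have h4 : sm (fun j => dg X j + dg Y j) (X + Y + i + 1) =
        sm (dg X) (X + Y + i + 1) + sm (dg Y) (X + Y + i + 1) := by
      unfold sm
      rw [← Finset.sum_add_distrib]
      exact Finset.sum_congr rfl fun j _ => add_mul _ _ _
    rw [h4, ← h1, ← h2]
  have h5 := dg_sm (fun j => dg X j + dg Y j) h (X + Y + i + 1) i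
  rw [← h3, if_pos (by omega)] at h5
  exact h5

theorem dg_mul_const (c X : ℕ) (h : ∀ i, c * dg X i < WW) (i : ℕ) :
    dg (c * X) i = c * dg X i := by
  have h1 := eq_sm_of_le X (X + i + 1) (by omega)
  have h3 : c * X = sm (fun j => c * dg X j) (X + i + 1) := by
    have h4 : sm (fun j => c * dg X j) (X + i + 1) = c * sm (dg X) (X + i + 1) := by
      unfold sm
      rw [Finset.mul_sum]
      exact Finset.sum_congr rfl fun j _ => mul_assoc _ _ _
    rw [h4, ← h1]
  have h5 := dg_sm (fun j => c * dg X j) h (X + i + 1) i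
  rw [← h3, if_pos (by omega)] at h5
  exact h5

theorem dg_shift (X i : ℕ) : dg (WW * X) i = if i = 0 then 0 else dg X (i - 1) := by
  cases i with
  | zero =>
    rw [if_pos rfl, dg_zero', Nat.mul_mod_right]
  | succ i =>
    rw [if_neg (Nat.succ_ne_zero i), dg_succ', Nat.mul_div_cancel_left _ WW_pos, Nat.add_sub_cancel]

private theorem conv_lt (p N : ℕ) (f g : ℕ → ℕ) (hp : p < 1024) (hN : N < 256)
    (hf : ∀ i, f i < p) (hg : ∀ i, g i < p) (hf0 : ∀ i, N ≤ i → f i = 0) (k : ℕ) :
    ∑ a ∈ Finset.range (k + 1), f a * g (k - a) < WW := by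
  have h1 : ∑ a ∈ Finset.range (k + 1), f a * g (k - a) =
      ∑ a ∈ (Finset.range (k + 1)).filter (fun a => a < N), f a * g (k - a) := by
    symm
    refine Finset.sum_subset (Finset.filter_subset _ _) fun a ha hna => ?_
    have h2 : N ≤ a := by
      by_contra h3
      exact hna (Finset.mem_filter.2 ⟨ha, by omega⟩)
    rw [hf0 a h2, zero_mul]
  rw [h1]
  have h4 : ∑ a ∈ (Finset.range (k + 1)).filter (fun a => a < N), f a * g (k - a) ≤
      ((Finset.range (k + 1)).filter (fun a => a < N)).card • (1024 * 1024) := by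
    refine Finset.sum_le_card_nsmul _ _ _ fun a _ => ?_
    exact Nat.mul_le_mul (le_of_lt (lt_trans (hf a) hp)) (le_of_lt (lt_trans (hg _) hp))
  have h5 : ((Finset.range (k + 1)).filter (fun a => a < N)).card ≤ N := by
    have h6 : (Finset.range (k + 1)).filter (fun a => a < N) ⊆ Finset.range N := fun a ha =>
      Finset.mem_range.2 (Finset.mem_filter.1 ha).2
    have h7 := Finset.card_le_card h6
    rwa [Finset.card_range] at h7
  rw [smul_eq_mul] at h4
  have h8 : ((Finset.range (k + 1)).filter (fun a => a < N)).card * (1024 * 1024) ≤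
      256 * (1024 * 1024) := Nat.mul_le_mul_right _ (h5.trans hN.le)
  refine lt_of_le_of_lt (h4.trans h8) ?_
  unfold WW
  norm_num

private theorem sm_mul (N M : ℕ) (f g : ℕ → ℕ) (hf0 : ∀ i, N ≤ i → f i = 0)
    (hg0 : ∀ i, N ≤ i → g i = 0) (hM : N + N < M) :
    sm f N * sm g N = sm (fun k => ∑ a ∈ Finset.range (k + 1), f a * g (k - a)) M := by
  classical
  have key : ∀ f : ℕ → ℕ, (∀ i, N ≤ i → f i = 0) → ∃ P : Polynomial ℕ,
      (∀ i, P.coeff i = f i) ∧ P.eval WW = sm f N ∧ P.natDegree ≤ N := by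
    intro f hf
    have hc : ∀ i, (∑ a ∈ Finset.range N, Polynomial.monomial a (f a)).coeff i = f i := by
      intro i
      rw [Polynomial.finset_sum_coeff]
      simp only [Polynomial.coeff_monomial]
      rw [Finset.sum_ite_eq' (Finset.range N) i f]
      by_cases h : i < N
      · rw [if_pos (Finset.mem_range.2 h)]
      · rw [if_neg (fun h' => h (Finset.mem_range.1 h')), hf i (by omega)]
    refine ⟨∑ a ∈ Finset.range N, Polynomial.monomial a (f a), hc, ?_, ?_⟩
    · rw [Polynomial.eval_finset_sum]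
      unfold sm
      exact Finset.sum_congr rfl fun a _ => Polynomial.eval_monomial
    · rw [Polynomial.natDegree_le_iff_coeff_eq_zero]
      intro i hi
      rw [hc, hf i (by omega)]
  obtain ⟨P, hP, hPe, hPd⟩ := key f hf0
  obtain ⟨Q, hQ, hQe, hQd⟩ := key g hg0
  rw [← hPe, ← hQe, ← Polynomial.eval_mul]
  have hd : (P * Q).natDegree < M :=
    lt_of_le_of_lt (Polynomial.natDegree_mul_le.trans (add_le_add hPd hQd)) hM
  rw [Polynomial.eval_eq_sum_range' hd]
  unfold sm
  refine Finset.sum_congr rfl fun k _ => ?_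
  rw [Polynomial.coeff_mul, Finset.Nat.sum_antidiagonal_eq_sum_range_succ_mk]
  simp only [hP, hQ]

theorem dg_mul (p N X Y : ℕ) (hp : p < 1024) (hN : N < 256) (hX : ∀ i, dg X i < p)
    (hY : ∀ i, dg Y i < p) (hX0 : ∀ i, N ≤ i → dg X i = 0) (hY0 : ∀ i, N ≤ i → dg Y i = 0)
    (i : ℕ) : dg (X * Y) i = ∑ k ∈ Finset.range (i + 1), dg X k * dg Y (i - k) := by
  have h1 := eq_sm_of_zero X N hX0
  have h2 := eq_sm_of_zero Y N hY0
  have h3 := sm_mul N (N + N + i + 1) (dg X) (dg Y) hX0 hY0 (by omega)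
  rw [← h1, ← h2] at h3
  have h4 := dg_sm (fun k => ∑ a ∈ Finset.range (k + 1), dg X a * dg Y (k - a))
    (fun k => conv_lt p N (dg X) (dg Y) hp hN hX hY hX0 k) (N + N + i + 1) i
  rw [← h3, if_pos (by omega)] at h4
  exact h4

end MP836e4b.P
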