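/-
MODULE PkB (size S-M), board mod836, MP_836e4b_nt, folder Work/MP_836e4b_nt/P. Keep the statements verbatim, helper lemmas private.
Closure properties of Rep and Rw (PkDef). mul: mulP p N X Y = red p N (X*Y); dg_red, dg_mul, coeff_mul
(Finset.Nat.sum_antidiagonal_eq_sum_range_succ_mk), ((a % p : ℕ) : ZMod p) = a (ZMod.natCast_mod). red: dg_red. add: dg_add.
smul: dg_mul_const. shift: dg_shift, PowerSeries.coeff_succ_X_mul, coeff_zero_X_mul. ng_cast: (ng p a : ZMod p) = -a.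
-/
import Mathlib
import Pool.Agent.Work.MP_836e4b_nt.P.PkDef
import Pool.Agent.Work.MP_836e4b_nt.P.PkA

namespace MP836e4b.P

theorem Rep.mul {p N X Y : ℕ} {P Q : PowerSeries ℤ} (hp0 : 0 < p) (hp : p < 1024) (hN : N < 256)
    (hX : Rep p N X P) (hY : Rep p N Y Q) : Rep p N (mulP p N X Y) (P * Q) := by
  have hm : ∀ i, dg (mulP p N X Y) i = if i < N then dg (X * Y) i % p else 0 := by
    intro i
    unfold mulP
    exact dg_red p N (X * Y) i
  refine ⟨fun i => ?_, fun i hi => ?_, fun i hi => ?_⟩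
  · rw [hm]
    split_ifs
    · exact Nat.mod_lt _ hp0
    · exact hp0
  · rw [hm, if_neg (by omega)]
  · rw [hm, if_pos hi, ZMod.natCast_mod, dg_mul p N X Y hp hN hX.lt hY.lt hX.ge hY.ge i,
      PowerSeries.coeff_mul,
      Finset.Nat.sum_antidiagonal_eq_sum_range_succ
        (fun a b => PowerSeries.coeff a P * PowerSeries.coeff b Q) i]
    push_cast
    refine Finset.sum_congr rfl fun k hk => ?_
    rw [Finset.mem_range] at hk
    rw [hX.eq k (by omega), hY.eq (i - k) (by omega)]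

theorem Rep.toRw {p N X : ℕ} {P : PowerSeries ℤ} (h : Rep p N X P) : Rw p N p X P :=
  ⟨h.lt, h.eq⟩

theorem Rw.mono {p N B B' X : ℕ} {P : PowerSeries ℤ} (h : Rw p N B X P) (hB : B ≤ B') :
    Rw p N B' X P :=
  ⟨fun i => lt_of_lt_of_le (h.lt i) hB, h.eq⟩

theorem Rw.add {p N B B' X Y : ℕ} {P Q : PowerSeries ℤ} (hX : Rw p N B X P) (hY : Rw p N B' Y Q)
    (hB : B + B' ≤ WW) : Rw p N (B + B') (X + Y) (P + Q) := by
  have hd : ∀ i, dg (X + Y) i = dg X i + dg Y i := by
    refine fun i => dg_add X Y (fun j => ?_) i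
    have h1 := hX.lt j
    have h2 := hY.lt j
    omega
  refine ⟨fun i => ?_, fun i hi => ?_⟩
  · rw [hd]
    exact add_lt_add (hX.lt i) (hY.lt i)
  · rw [hd, map_add]
    push_cast
    rw [hX.eq i hi, hY.eq i hi]

theorem Rw.smul {p N B X : ℕ} {P : PowerSeries ℤ} (c : ℕ) (z : ℤ) (hc : (c : ZMod p) = (z : ZMod p))
    (hX : Rw p N B X P) (hB : c * B + 1 ≤ WW) :
    Rw p N (c * B + 1) (c * X) (PowerSeries.C z * P) := by
  have hle : ∀ i, c * dg X i ≤ c * B := fun i => Nat.mul_le_mul_left c (hX.lt i).le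
  have hd : ∀ i, dg (c * X) i = c * dg X i := by
    refine fun i => dg_mul_const c X (fun j => ?_) i
    have h1 := hle j
    omega
  refine ⟨fun i => ?_, fun i hi => ?_⟩
  · rw [hd]
    have h1 := hle i
    omega
  · rw [hd, PowerSeries.coeff_C_mul]
    push_cast
    rw [hX.eq i hi, hc]

theorem Rw.red {p N B X : ℕ} {P : PowerSeries ℤ} (hp0 : 0 < p) (h : Rw p N B X P) :
    Rep p N (red p N X) P := by
  refine ⟨fun i => ?_, fun i hi => ?_, fun i hi => ?_⟩
  · rw [dg_red]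
    split_ifs
    · exact Nat.mod_lt _ hp0
    · exact hp0
  · rw [dg_red, if_neg (by omega)]
  · rw [dg_red, if_pos hi, ZMod.natCast_mod, h.eq i hi]

theorem Rw.shift {p N B X : ℕ} {P : PowerSeries ℤ} (h : Rw p N B X P) (hB : 0 < B) :
    Rw p N B (WW * X) (PowerSeries.X * P) := by
  refine ⟨fun i => ?_, fun i hi => ?_⟩
  · rw [dg_shift]
    split_ifs
    · exact hB
    · exact h.lt _
  · rw [dg_shift]
    rcases i with _ | i
    · rw [if_pos rfl, PowerSeries.coeff_zero_X_mul]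
      simp
    · rw [if_neg (Nat.succ_ne_zero i), Nat.add_sub_cancel, PowerSeries.coeff_succ_X_mul]
      exact h.eq i (by omega)

theorem ng_cast (p a : ℕ) (hp : 0 < p) : ((ng p a : ℕ) : ZMod p) = -(a : ZMod p) := by
  unfold ng
  rw [ZMod.natCast_mod, Nat.cast_sub (Nat.mod_lt a hp).le, ZMod.natCast_mod, ZMod.natCast_self,
    zero_sub]

theorem ng_lt (p a : ℕ) (hp : 0 < p) : ng p a < p :=
  Nat.mod_lt _ hp

end MP836e4b.P
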