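/-
MODULE PkC (size M), board mod836, MP_836e4b_nt, folder Work/MP_836e4b_nt/P. Keep the statements verbatim, helper lemmas private.
The series x, Y1, z. sqP N n = sum of W^(m²) for 1 ≤ m ≤ n with m² < N: by induction on n it is sm a N with a i = 1 if i = m²
for some 1 ≤ m ≤ n, else 0 (squares are distinct, no carries; dg_add or a direct induction with Finset.sum), so the digits
of xP N are 1 at 0, 2 at the squares m² < N, m ≥ 1, 0 otherwise (m ≤ m² < N, so m ≤ N is enough); digits ≤ 2 < p. yP the same.
zP: y2 = mulP y y represents yQ^2, mulP y2 y2 represents yQ^4 (Rep.mul), Rw.shift, Rw.red.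
-/
import Mathlib
import Pool.Agent.Work.MP_836e4b_nt.P.PkDef
import Pool.Agent.Work.MP_836e4b_nt.P.PkA
import Pool.Agent.Work.MP_836e4b_nt.P.PkB

namespace MP836e4b.P

private theorem sum_ind (g : ℕ → ℕ) (hg : Function.Injective g) (N n : ℕ) :
    ∑ m ∈ Finset.range n, (if g m < N then WW ^ (g m) else 0) =
      ∑ i ∈ Finset.range N, (if ∃ m, m < n ∧ g m = i then 1 else 0) * WW ^ i := by
  induction n with
  | zero => simp
  | succ n ih =>
    rw [Finset.sum_range_succ, ih]
    have h1 : ∀ i, (if ∃ m, m < n + 1 ∧ g m = i then 1 else 0) =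
        (if ∃ m, m < n ∧ g m = i then 1 else 0) + (if g n = i then 1 else 0) := by
      intro i
      by_cases h : g n = i
      · have h2 : ¬ ∃ m, m < n ∧ g m = i := by
          rintro ⟨m, hm, hmi⟩
          have := hg (hmi.trans h.symm)
          omega
        have h3 : ∃ m, m < n + 1 ∧ g m = i := ⟨n, by omega, h⟩
        rw [if_pos h3, if_neg h2, if_pos h]
      · have h3 : (∃ m, m < n + 1 ∧ g m = i) ↔ ∃ m, m < n ∧ g m = i := by
          constructor
          · rintro ⟨m, hm, hmi⟩
            rcases Nat.lt_succ_iff_lt_or_eq.mp hm with h' | h'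
            · exact ⟨m, h', hmi⟩
            · rw [h'] at hmi
              exact absurd hmi h
          · rintro ⟨m, hm, hmi⟩
            exact ⟨m, by omega, hmi⟩
        rw [if_neg h, add_zero]
        exact if_congr h3 rfl rfl
    have h4 : ∑ i ∈ Finset.range N, (if g n = i then 1 else 0) * WW ^ i =
        if g n < N then WW ^ (g n) else 0 := by
      simp only [ite_mul, one_mul, zero_mul]
      rw [Finset.sum_ite_eq]
      simp only [Finset.mem_range]
    rw [← h4, ← Finset.sum_add_distrib]
    refine Finset.sum_congr rfl fun i _ => ?_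
    rw [h1, add_mul]

private theorem sq_sum (N n : ℕ) : sqP N n =
    ∑ m ∈ Finset.range n, (if (m + 1) * (m + 1) < N then WW ^ ((m + 1) * (m + 1)) else 0) := by
  induction n with
  | zero => rfl
  | succ n ih =>
    rw [Finset.sum_range_succ, ← ih]
    exact Nat.add_comm _ _

private theorem tr_sum (N n : ℕ) : trP N n =
    ∑ m ∈ Finset.range n, (if m * (m + 1) < N then WW ^ (m * (m + 1)) else 0) := by
  induction n with
  | zero => rfl
  | succ n ih =>
    rw [Finset.sum_range_succ, ← ih]
    exact Nat.add_comm _ _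

private theorem inj_sq : Function.Injective (fun m : ℕ => (m + 1) * (m + 1)) := by
  intro a b h
  have h' : (a + 1) * (a + 1) = (b + 1) * (b + 1) := h
  have := Nat.mul_self_inj.mp h'
  omega

private theorem inj_tr : Function.Injective (fun m : ℕ => m * (m + 1)) := by
  intro a b h
  have h' : a * (a + 1) = b * (b + 1) := h
  rcases lt_trichotomy a b with h1 | h1 | h1
  · nlinarith
  · exact h1
  · nlinarith

private theorem ww3 : 3 < WW := by
  unfold WW
  norm_num

/-- the digits of x -/
private theorem dg_x (N : ℕ) (hN0 : 0 < N) (i : ℕ) : dg (xP N) i =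
    if i < N then (if i = 0 then 1 else 0) +
      2 * (if ∃ m, m < N ∧ (m + 1) * (m + 1) = i then 1 else 0) else 0 := by
  have e : xP N = sm (fun i => (if i = 0 then 1 else 0) +
      2 * (if ∃ m, m < N ∧ (m + 1) * (m + 1) = i then 1 else 0)) N := by
    unfold xP sm
    rw [sq_sum, sum_ind (fun m : ℕ => (m + 1) * (m + 1)) inj_sq N N, Finset.mul_sum]
    have h1 : (1 : ℕ) = ∑ i ∈ Finset.range N, (if i = 0 then 1 else 0) * WW ^ i := by
      simp only [ite_mul, one_mul, zero_mul]
      rw [Finset.sum_ite_eq']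
      simp [hN0]
    nth_rewrite 1 [h1]
    rw [← Finset.sum_add_distrib]
    refine Finset.sum_congr rfl fun i _ => ?_
    rw [add_mul, mul_assoc]
  rw [e, dg_sm]
  intro i
  refine lt_of_le_of_lt ?_ ww3
  split_ifs <;> omega

/-- the digits of y -/
private theorem dg_y (N : ℕ) (i : ℕ) : dg (yP N) i =
    if i < N then 2 * (if ∃ m, m < N ∧ m * (m + 1) = i then 1 else 0) else 0 := by
  have e : yP N = sm (fun i => 2 * (if ∃ m, m < N ∧ m * (m + 1) = i then 1 else 0)) N := by
    unfold yP sm
    rw [tr_sum, sum_ind (fun m : ℕ => m * (m + 1)) inj_tr N N, Finset.mul_sum]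
    refine Finset.sum_congr rfl fun i _ => ?_
    rw [mul_assoc]
  rw [e, dg_sm]
  intro i
  refine lt_of_le_of_lt ?_ ww3
  split_ifs <;> omega

theorem rep_x (p N : ℕ) (hp : 5 ≤ p) (hN0 : 0 < N) : Rep p N (xP N) xQ := by
  refine ⟨fun i => ?_, fun i hi => ?_, fun i hi => ?_⟩
  · rw [dg_x N hN0]
    split_ifs <;> omega
  · rw [dg_x N hN0, if_neg (by omega)]
  · rw [dg_x N hN0, if_pos hi]
    unfold xQ
    rw [PowerSeries.coeff_mk]
    by_cases h0 : i = 0
    · subst h0
      rw [if_pos rfl, if_pos rfl, if_neg]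
      · simp
      · rintro ⟨m, _, h⟩
        have : 0 < (m + 1) * (m + 1) := Nat.mul_pos (by omega) (by omega)
        omega
    · rw [if_neg h0, if_neg h0]
      have h : (∃ m, m < N ∧ (m + 1) * (m + 1) = i) ↔ ∃ m ≤ i, m ^ 2 = i := by
        constructor
        · rintro ⟨m, _, h⟩
          refine ⟨m + 1, ?_, ?_⟩
          · nlinarith
          · rw [← h]
            ring
        · rintro ⟨m, hm, h⟩
          obtain ⟨k, rfl⟩ : ∃ k, m = k + 1 := by
            refine ⟨m - 1, ?_⟩
            have : m ≠ 0 := by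
              rintro rfl
              apply h0
              rw [← h]
              rfl
            omega
          refine ⟨k, by omega, ?_⟩
          rw [← h]
          ring
      by_cases h' : ∃ m ≤ i, m ^ 2 = i
      · rw [if_pos h', if_pos (h.mpr h')]
        simp
      · rw [if_neg h', if_neg (fun hh => h' (h.mp hh))]
        simp

theorem rep_y (p N : ℕ) (hp : 5 ≤ p) (hN0 : 0 < N) : Rep p N (yP N) yQ := by
  refine ⟨fun i => ?_, fun i hi => ?_, fun i hi => ?_⟩
  · rw [dg_y N]
    split_ifs <;> omega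
  · rw [dg_y N, if_neg (by omega)]
  · rw [dg_y N, if_pos hi]
    unfold yQ
    rw [PowerSeries.coeff_mk]
    have h : (∃ m, m < N ∧ m * (m + 1) = i) ↔ ∃ m ≤ i, m * (m + 1) = i := by
      constructor
      · rintro ⟨m, _, h⟩
        exact ⟨m, by nlinarith, h⟩
      · rintro ⟨m, hm, h⟩
        exact ⟨m, by omega, h⟩
    by_cases h' : ∃ m ≤ i, m * (m + 1) = i
    · rw [if_pos h', if_pos (h.mpr h')]
      simp
    · rw [if_neg h', if_neg (fun hh => h' (h.mp hh))]
      simp

theorem rep_z (p N : ℕ) (hp : 5 ≤ p) (hp2 : p < 1024) (hN0 : 0 < N) (hN : N < 256) :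
    Rep p N (zP p N) zQ := by
  have hp0 : 0 < p := by omega
  have hy := rep_y p N hp hN0
  have h2 := hy.mul hp0 hp2 hN hy
  have h4 := h2.mul hp0 hp2 hN h2
  have h := (h4.toRw.shift hp0).red hp0
  have e : PowerSeries.X * (yQ * yQ * (yQ * yQ)) = zQ := by
    unfold zQ
    ring
  rw [e] at h
  exact h

end MP836e4b.P
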