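/-
MODULE PkD (size M), board mod836, MP_836e4b_nt, folder Work/MP_836e4b_nt/P. Keep the statements verbatim, helper lemmas private.
E₄, E₆ and the basic vectors. Every product is Rep.mul; the sums are Rw.add and Rw.smul (coefficients 14, 7, or ng p c which
represents -c: ng_cast, ng_lt; bounds: every summand has digits < 1024*1024+1, at most four summands, < WW); then Rw.red.
Use h ▸ or congrArg with ring identities of power series (x^8 = x^4*x^4, 14 = C 14 via map_ofNat, etc.).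
rep_one: the number 1 represents 1.
-/
import Mathlib
import Pool.Agent.Work.MP_836e4b_nt.P.PkDef
import Pool.Agent.Work.MP_836e4b_nt.P.PkA
import Pool.Agent.Work.MP_836e4b_nt.P.PkB
import Pool.Agent.Work.MP_836e4b_nt.P.PkC

namespace MP836e4b.P

private theorem cgP {p N X : ℕ} {P Q : PowerSeries ℤ} (h : Rep p N X P) (e : P = Q) :
    Rep p N X Q := e ▸ h

private theorem wd {p N X : ℕ} {P : PowerSeries ℤ} (hp2 : p < 1024) (h : Rep p N X P) :
    Rw p N 1048577 X P := h.toRw.mono (by omega)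

private theorem sd {p N X : ℕ} {P : PowerSeries ℤ} (hp2 : p < 1024) (h : Rep p N X P) (c : ℕ)
    (z : ℤ) (hc : (c : ZMod p) = (z : ZMod p)) (hcl : c < 1024) :
    Rw p N 1048577 (c * X) (PowerSeries.C z * P) := by
  have h1 : c * p ≤ 1024 * 1024 := Nat.mul_le_mul hcl.le hp2.le
  have h2 : c * p + 1 ≤ WW := by
    unfold WW
    omega
  exact (h.toRw.smul c z hc h2).mono (by omega)

private theorem ng_hc (p c : ℕ) (hp0 : 0 < p) : ((ng p c : ℕ) : ZMod p) = ((-(c : ℤ) : ℤ) : ZMod p) := by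
  rw [ng_cast p c hp0]
  push_cast
  rfl

private theorem ad {p N X Y : ℕ} {P Q : PowerSeries ℤ} (hX : Rw p N 1048577 X P)
    (hY : Rw p N 1048577 Y Q) : Rw p N 2097154 (X + Y) (P + Q) :=
  hX.add hY (by unfold WW; norm_num)

private theorem ad3 {p N X Y Z : ℕ} {P Q R : PowerSeries ℤ} (hX : Rw p N 1048577 X P)
    (hY : Rw p N 1048577 Y Q) (hZ : Rw p N 1048577 Z R) :
    Rw p N 3145731 (X + Y + Z) (P + Q + R) :=
  (ad hX hY).add hZ (by unfold WW; norm_num)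

private theorem ad4 {p N X Y Z W : ℕ} {P Q R S : PowerSeries ℤ} (hX : Rw p N 1048577 X P)
    (hY : Rw p N 1048577 Y Q) (hZ : Rw p N 1048577 Z R) (hW : Rw p N 1048577 W S) :
    Rw p N 4194308 (X + Y + Z + W) (P + Q + R + S) :=
  (ad3 hX hY hZ).add hW (by unfold WW; norm_num)

theorem rep_one (p N : ℕ) (hp : 5 ≤ p) (hN0 : 0 < N) : Rep p N 1 1 := by
  have hd : ∀ i, dg 1 i = if i < 1 then (if i = 0 then 1 else 0) else 0 := by
    intro i
    have e : (1 : ℕ) = sm (fun i => if i = 0 then 1 else 0) 1 := by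
      simp [sm]
    conv_lhs => rw [e]
    rw [dg_sm]
    intro j
    unfold WW
    split_ifs <;> norm_num
  refine ⟨fun i => ?_, fun i hi => ?_, fun i hi => ?_⟩
  · rw [hd]
    split_ifs <;> omega
  · rw [hd, if_neg (by omega)]
  · rw [hd, PowerSeries.coeff_one]
    by_cases h0 : i = 0
    · subst h0
      simp
    · rw [if_neg (by omega), if_neg h0]
      simp

theorem rep_e4 (p N x4 z : ℕ) (hp : 5 ≤ p) (hp2 : p < 1024) (hN0 : 0 < N) (hN : N < 256)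
    (hx : Rep p N x4 (xQ ^ 4)) (hz : Rep p N z zQ) : Rep p N (e4P p N x4 z) e4Q := by
  have hp0 : 0 < p := by omega
  have a := hx.mul hp0 hp2 hN hx
  have b := hx.mul hp0 hp2 hN hz
  have c := hz.mul hp0 hp2 hN hz
  have b' := sd hp2 b 14 14 (by push_cast; rfl) (by norm_num)
  refine cgP ((ad3 (wd hp2 a) b' (wd hp2 c)).red hp0) ?_
  unfold e4Q
  rw [show (PowerSeries.C (14 : ℤ)) = (14 : PowerSeries ℤ) from map_ofNat _ 14]
  ring

theorem rep_e6 (p N x4 z : ℕ) (hp : 5 ≤ p) (hp2 : p < 1024) (hN0 : 0 < N) (hN : N < 256)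
    (hx : Rep p N x4 (xQ ^ 4)) (hz : Rep p N z zQ) : Rep p N (e6P p N x4 z) e6Q := by
  have hp0 : 0 < p := by omega
  have x8 := hx.mul hp0 hp2 hN hx
  have z2 := hz.mul hp0 hp2 hN hz
  have a := x8.mul hp0 hp2 hN hx
  have b := x8.mul hp0 hp2 hN hz
  have c := hx.mul hp0 hp2 hN z2
  have d := z2.mul hp0 hp2 hN hz
  have hng : ng p 33 < 1024 := (ng_lt p 33 hp0).trans hp2
  have b' := sd hp2 b (ng p 33) (-((33 : ℕ) : ℤ)) (ng_hc p 33 hp0) hng
  have c' := sd hp2 c (ng p 33) (-((33 : ℕ) : ℤ)) (ng_hc p 33 hp0) hng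
  refine cgP ((ad4 (wd hp2 a) b' c' (wd hp2 d)).red hp0) ?_
  unfold e6Q
  rw [map_neg, show (PowerSeries.C (((33 : ℕ) : ℤ))) = (33 : PowerSeries ℤ) from map_ofNat _ 33]
  ring

theorem rep_bas (p N b : ℕ) (hp : 5 ≤ p) (hp2 : p < 1024) (hN0 : 0 < N) (hN : N < 256)
    (hb : b = 0 ∨ b = 2 ∨ b = 3 ∨ b = 5) :
    Rep p N (basP p N b).1 (basQ b 0) ∧ Rep p N (basP p N b).2 (basQ b 1) := by
  have hp0 : 0 < p := by omega
  have x := rep_x p N hp hN0
  have y := rep_y p N hp hN0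
  have z := rep_z p N hp hp2 hN0 hN
  have x2 := x.mul hp0 hp2 hN x
  have x4 := x2.mul hp0 hp2 hN x2
  have x3 := x2.mul hp0 hp2 hN x
  have y3 := (y.mul hp0 hp2 hN y).mul hp0 hp2 hN y
  have z2 := z.mul hp0 hp2 hN z
  have x8 := x4.mul hp0 hp2 hN x4
  have hn5 : ng p 5 < 1024 := (ng_lt p 5 hp0).trans hp2
  have hn22 : ng p 22 < 1024 := (ng_lt p 22 hp0).trans hp2
  have hn11 : ng p 11 < 1024 := (ng_lt p 11 hp0).trans hp2
  have e5 : (PowerSeries.C (-((5 : ℕ) : ℤ))) = (-5 : PowerSeries ℤ) := by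
    rw [map_neg, show (PowerSeries.C (((5 : ℕ) : ℤ))) = (5 : PowerSeries ℤ) from map_ofNat _ 5]
  have e22 : (PowerSeries.C (-((22 : ℕ) : ℤ))) = (-22 : PowerSeries ℤ) := by
    rw [map_neg, show (PowerSeries.C (((22 : ℕ) : ℤ))) = (22 : PowerSeries ℤ) from map_ofNat _ 22]
  have e11 : (PowerSeries.C (-((11 : ℕ) : ℤ))) = (-11 : PowerSeries ℤ) := by
    rw [map_neg, show (PowerSeries.C (((11 : ℕ) : ℤ))) = (11 : PowerSeries ℤ) from map_ofNat _ 11]
  have e7 : (PowerSeries.C (7 : ℤ)) = (7 : PowerSeries ℤ) := map_ofNat _ 7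
  rcases hb with rfl | rfl | rfl | rfl
  · exact ⟨(wd hp2 x).red hp0, (wd hp2 y).red hp0⟩
  · constructor
    · refine cgP ((ad (wd hp2 (x4.mul hp0 hp2 hN x))
        (sd hp2 (x.mul hp0 hp2 hN z) (ng p 5) (-((5 : ℕ) : ℤ)) (ng_hc p 5 hp0) hn5)).red hp0) ?_
      change _ = xQ ^ 5 - 5 * xQ * zQ
      rw [e5]
      ring
    · refine cgP ((ad (wd hp2 (y.mul hp0 hp2 hN z))
        (sd hp2 (x4.mul hp0 hp2 hN y) (ng p 5) (-((5 : ℕ) : ℤ)) (ng_hc p 5 hp0) hn5)).red hp0) ?_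
      change _ = yQ * zQ - 5 * xQ ^ 4 * yQ
      rw [e5]
      ring
  · constructor
    · refine cgP ((ad (wd hp2 (x4.mul hp0 hp2 hN x3))
        (sd hp2 (x3.mul hp0 hp2 hN z) 7 7 (by push_cast; rfl) (by norm_num))).red hp0) ?_
      change _ = xQ ^ 7 + 7 * xQ ^ 3 * zQ
      rw [e7]
      ring
    · refine cgP ((ad (wd hp2 (y3.mul hp0 hp2 hN z))
        (sd hp2 (x4.mul hp0 hp2 hN y3) 7 7 (by push_cast; rfl) (by norm_num))).red hp0) ?_
      change _ = yQ ^ 3 * zQ + 7 * xQ ^ 4 * yQ ^ 3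
      rw [e7]
      ring
  · constructor
    · refine cgP ((ad3 (wd hp2 (x8.mul hp0 hp2 hN x3))
        (sd hp2 ((x4.mul hp0 hp2 hN x3).mul hp0 hp2 hN z) (ng p 22) (-((22 : ℕ) : ℤ))
          (ng_hc p 22 hp0) hn22)
        (sd hp2 (x3.mul hp0 hp2 hN z2) (ng p 11) (-((11 : ℕ) : ℤ)) (ng_hc p 11 hp0) hn11)).red hp0) ?_
      change _ = xQ ^ 11 - 22 * xQ ^ 7 * zQ - 11 * xQ ^ 3 * zQ ^ 2
      rw [e22, e11]
      ring
    · refine cgP ((ad3 (wd hp2 (y3.mul hp0 hp2 hN z2))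
        (sd hp2 ((x4.mul hp0 hp2 hN y3).mul hp0 hp2 hN z) (ng p 22) (-((22 : ℕ) : ℤ))
          (ng_hc p 22 hp0) hn22)
        (sd hp2 (x8.mul hp0 hp2 hN y3) (ng p 11) (-((11 : ℕ) : ℤ)) (ng_hc p 11 hp0) hn11)).red hp0) ?_
      change _ = yQ ^ 3 * zQ ^ 2 - 22 * xQ ^ 4 * yQ ^ 3 * zQ - 11 * xQ ^ 8 * yQ ^ 3
      rw [e22, e11]
      ring

end MP836e4b.P
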