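/-
MODULE PkE (size M), board mod836, MP_836e4b_nt, folder Work/MP_836e4b_nt/P. Keep the statements verbatim, helper lemmas private.
The table. powsP p N A n P = [P, AP, .., A^n P] (mulP p N A P): the entry k ≤ n represents A^k P (induction on n generalizing P).
For t in idx κ: t.1 is 0 or 2 (κ even), 3 or 5 (κ odd), t.2.1 ≤ κ/4, t.2.2 ≤ κ/6. The entry of tabP is
(mulP B.1 f, mulP B.2 f), f = mulP (E4^a) (E6^a'), so it represents basQ * (e4Q^a * e6Q^a') = qQ t (mul_assoc). tabP is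
(idx κ).map .., so its length is that of idx κ and getD commutes with map for k < length (List.getD_eq_getElem).
-/
import Mathlib
import Pool.Agent.Work.MP_836e4b_nt.P.PkDef
import Pool.Agent.Work.MP_836e4b_nt.P.PkD

namespace MP836e4b.P

private theorem pke_cast {p N X : ℕ} {P Q : PowerSeries ℤ} (h : Rep p N X P) (e : P = Q) :
    Rep p N X Q := e ▸ h

theorem idx_mem (κ : ℕ) (t : ℕ × ℕ × ℕ) (h : t ∈ idx κ) :
    (κ % 2 = 0 ∧ (t.1 = 0 ∨ t.1 = 2) ∨ κ % 2 = 1 ∧ (t.1 = 3 ∨ t.1 = 5)) ∧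
      t.1 + 4 * t.2.1 + 6 * t.2.2 = κ := by
  unfold idx at h
  rw [List.mem_flatMap] at h
  obtain ⟨b, hb, h⟩ := h
  rw [List.mem_filterMap] at h
  obtain ⟨a', _, h⟩ := h
  split_ifs at h with h1
  · rw [Option.some.injEq] at h
    subst h
    refine ⟨?_, ?_⟩
    · split_ifs at hb with h2
      · left
        refine ⟨h2, ?_⟩
        simpa using hb
      · right
        refine ⟨by omega, ?_⟩
        simpa using hb
    · show b + 4 * ((κ - b - 6 * a') / 4) + 6 * a' = κ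
      omega

theorem rep_pows (p N A n P : ℕ) (hp : 5 ≤ p) (hp2 : p < 1024) (hN : N < 256) (a b : PowerSeries ℤ)
    (hA : Rep p N A a) (hP : Rep p N P b) (k : ℕ) (hk : k ≤ n) :
    Rep p N ((powsP p N A n P).getD k 0) (a ^ k * b) := by
  induction n generalizing P b k with
  | zero =>
    obtain rfl : k = 0 := by omega
    show Rep p N P _
    rw [pow_zero, one_mul]
    exact hP
  | succ n ih =>
    rcases k with _ | k
    · show Rep p N P _
      rw [pow_zero, one_mul]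
      exact hP
    · have h1 := ih (mulP p N A P) (a * b) (Rep.mul (by omega) hp2 hN hA hP) k (by omega)
      refine pke_cast (P := a ^ k * (a * b)) ?_ (by ring)
      exact h1

theorem tab_length (p N κ : ℕ) : (tabP p N κ).length = (idx κ).length := by
  simp [tabP]

theorem rep_tab (p N κ : ℕ) (hp : 5 ≤ p) (hp2 : p < 1024) (hN0 : 0 < N) (hN : N < 256) (k : ℕ)
    (hk : k < (idx κ).length) :
    Rep p N ((tabP p N κ).getD k (0, 0)).1 (qQ ((idx κ).getD k (0, 0, 0)) 0) ∧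
      Rep p N ((tabP p N κ).getD k (0, 0)).2 (qQ ((idx κ).getD k (0, 0, 0)) 1) := by
  have hp0 : 0 < p := by omega
  obtain ⟨t, ht⟩ : ∃ t, t = (idx κ).getD k (0, 0, 0) := ⟨_, rfl⟩
  have hmem : t ∈ idx κ := by
    rw [ht, List.getD_eq_getElem _ _ hk]
    exact List.getElem_mem hk
  obtain ⟨h1, h2⟩ := idx_mem κ t hmem
  have hx := rep_x p N hp hN0
  have hx2 := Rep.mul hp0 hp2 hN hx hx
  have hx4 := pke_cast (Rep.mul hp0 hp2 hN hx2 hx2) (Q := xQ ^ 4) (by ring)
  have hz := rep_z p N hp hp2 hN0 hN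
  have hone := rep_one p N hp hN0
  have h4 := pke_cast (rep_pows p N _ (κ / 4) 1 hp hp2 hN _ 1 (rep_e4 p N _ _ hp hp2 hN0 hN hx4 hz) hone
    t.2.1 (by omega)) (mul_one _)
  have h6 := pke_cast (rep_pows p N _ (κ / 6) 1 hp hp2 hN _ 1 (rep_e6 p N _ _ hp hp2 hN0 hN hx4 hz) hone
    t.2.2 (by omega)) (mul_one _)
  have hf := Rep.mul hp0 hp2 hN h4 h6
  have hq : ∀ r, basQ t.1 r * (e4Q ^ t.2.1 * e6Q ^ t.2.2) = qQ t r := fun r => by
    unfold qQ
    rw [mul_assoc]
  rw [← ht]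
  have hget : (tabP p N κ).getD k (0, 0) =
      (fun t : ℕ × ℕ × ℕ ↦
        let f := mulP p N ((powsP p N (e4P p N (mulP p N (mulP p N (xP N) (xP N))
          (mulP p N (xP N) (xP N))) (zP p N)) (κ / 4) 1).getD t.2.1 0)
          ((powsP p N (e6P p N (mulP p N (mulP p N (xP N) (xP N))
          (mulP p N (xP N) (xP N))) (zP p N)) (κ / 6) 1).getD t.2.2 0)
        if t.1 = 0 ∨ t.1 = 3 then
          (mulP p N (basP p N (if κ % 2 = 0 then 0 else 3)).1 f,
            mulP p N (basP p N (if κ % 2 = 0 then 0 else 3)).2 f)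
        else (mulP p N (basP p N (if κ % 2 = 0 then 2 else 5)).1 f,
            mulP p N (basP p N (if κ % 2 = 0 then 2 else 5)).2 f)) t := by
    rw [ht, List.getD_eq_getElem _ _ hk, List.getD_eq_getElem _ _ (by rw [tab_length]; exact hk)]
    unfold tabP
    rw [List.getElem_map]
  rw [hget]
  have key : ∀ b : ℕ, t.1 = b → (b = 0 ∨ b = 2 ∨ b = 3 ∨ b = 5) → ∀ f,
      Rep p N f (e4Q ^ t.2.1 * e6Q ^ t.2.2) →
      Rep p N (mulP p N (basP p N b).1 f) (qQ t 0) ∧ Rep p N (mulP p N (basP p N b).2 f) (qQ t 1) := by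
    intro b hb hb' f hf
    obtain ⟨g1, g2⟩ := rep_bas p N b hp hp2 hN0 hN hb'
    exact ⟨pke_cast (Rep.mul hp0 hp2 hN g1 hf) (by rw [← hb]; exact hq 0),
      pke_cast (Rep.mul hp0 hp2 hN g2 hf) (by rw [← hb]; exact hq 1)⟩
  rcases h1 with ⟨hκ, h | h⟩ | ⟨hκ, h | h⟩
  · simp only [h, if_pos hκ, true_or, if_true]
    exact key 0 h (by simp) _ hf
  · have e : ¬ (t.1 = 0 ∨ t.1 = 3) := by omega
    simp only [if_neg e, if_pos hκ]
    exact key 2 h (by simp) _ hf
  · have hκ' : ¬ (κ % 2 = 0) := by omega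
    have e : (t.1 = 0 ∨ t.1 = 3) := by omega
    simp only [if_pos e, if_neg hκ']
    exact key 3 h (by simp) _ hf
  · have hκ' : ¬ (κ % 2 = 0) := by omega
    have e : ¬ (t.1 = 0 ∨ t.1 = 3) := by omega
    simp only [if_neg e, if_neg hκ']
    exact key 5 h (by simp) _ hf

end MP836e4b.P
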