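/-
MODULE PkF (size S-M), board mod836, MP_836e4b_nt, folder Work/MP_836e4b_nt/P. Keep the statements verbatim, helper lemmas private.
The checker functions coP and toP compute the coefficients and the action of T_4 modulo p. n < N and n in a class. coP: the
exponents n/4 and (n - cl1 κ)/4 are < N. toP: mc κ t (4n) = coeff n (qQ t 0); the factor is 1 + psi κ 2 n (n even: psi = 0; n odd:
psi = 1 iff (-1)^κ n = 1 mod 8 iff n%8 = 1 (κ even) or n % 8 = 7 (κ odd), else -1: unfold psi, ((-1)^κ) by parity, omega /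
Int.emod); ((a % p : ℕ) : ZMod p) = a (ZMod.natCast_mod); n/4 < N and coP at n/4 even if n/4 is not in a class (both sides 0).
-/
import Mathlib
import Pool.Agent.Work.MP_836e4b_nt.P.PkDef

namespace MP836e4b.P

private theorem fac_eq (κ n : ℕ) : ((if n % 2 = 0 then 1 else
    if (n % 8 = 1 ∧ κ % 2 = 0) ∨ (n % 8 = 7 ∧ κ % 2 = 1) then 2 else 0 : ℕ) : ℤ)
      = 1 + psi κ 2 n := by
  unfold psi
  rw [if_pos rfl]
  by_cases h : n % 2 = 0
  · rw [if_pos h, if_pos h]; norm_num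
  · rw [if_neg h, if_neg h]
    rcases Nat.even_or_odd κ with hk | hk
    · rw [hk.neg_one_pow, one_mul]
      have hk2 : κ % 2 = 0 := Nat.even_iff.1 hk
      by_cases h8 : n % 8 = 1
      · rw [if_pos (Or.inl ⟨h8, hk2⟩), if_pos (by omega)]; norm_num
      · rw [if_neg (by omega), if_neg (by omega)]; norm_num
    · rw [hk.neg_one_pow, neg_one_mul]
      have hk2 : κ % 2 = 1 := Nat.odd_iff.1 hk
      by_cases h8 : n % 8 = 7
      · rw [if_pos (Or.inr ⟨h8, hk2⟩), if_pos (by omega)]; norm_num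
      · rw [if_neg (by omega), if_neg (by omega)]; norm_num

theorem coP_cast (p N κ n : ℕ) (f : ℕ × ℕ) (t : ℕ × ℕ × ℕ) (hn : n < N)
    (h0 : Rep p N f.1 (qQ t 0)) (h1 : Rep p N f.2 (qQ t 1)) :
    ((coP κ f n : ℕ) : ZMod p) = ((mc κ t n : ℤ) : ZMod p) := by
  unfold coP mc
  by_cases ha : n % 4 = 0
  · rw [if_pos ha, if_pos ha]
    exact h0.eq _ (by omega)
  · rw [if_neg ha, if_neg ha]
    by_cases hb : n % 4 = cl1 κ
    · rw [if_pos hb, if_pos hb]
      exact h1.eq _ (by omega)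
    · rw [if_neg hb, if_neg hb]
      simp

theorem toP_cast (p N κ n : ℕ) (f : ℕ × ℕ) (t : ℕ × ℕ × ℕ) (hn : n < N) (hn0 : 0 < n)
    (hc : n % 4 = 0 ∨ n % 4 = cl1 κ) (h0 : Rep p N f.1 (qQ t 0)) (h1 : Rep p N f.2 (qQ t 1)) :
    ((toP p κ f n : ℕ) : ZMod p) = ((TcZ κ (mc κ t) n : ℤ) : ZMod p) := by
  have e1 := coP_cast p N κ n f t hn h0 h1
  have e2 := coP_cast p N κ (n / 4) f t (by omega) h0 h1
  have e3 : ((dg f.1 n : ℕ) : ZMod p) = ((mc κ t (4 * n) : ℤ) : ZMod p) := by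
    rw [h0.eq n hn]
    unfold mc
    rw [if_pos (by omega), Nat.mul_div_cancel_left n (by norm_num : 0 < 4)]
  have e4 : (((if n % 2 = 0 then 1 else
      if (n % 8 = 1 ∧ κ % 2 = 0) ∨ (n % 8 = 7 ∧ κ % 2 = 1) then 2 else 0 : ℕ)) : ZMod p)
      = ((1 + psi κ 2 n : ℤ) : ZMod p) := by
    rw [← fac_eq κ n, Int.cast_natCast]
  have e5 : (((if n % 4 = 0 then coP κ f (n / 4) else 0 : ℕ)) : ZMod p)
      = ((if n % 4 = 0 then mc κ t (n / 4) else 0 : ℤ) : ZMod p) := by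
    by_cases hd : n % 4 = 0
    · rw [if_pos hd, if_pos hd]; exact e2
    · rw [if_neg hd, if_neg hd]; simp
  unfold toP TcZ
  rw [ZMod.natCast_mod, Nat.cast_add, Nat.cast_add, Nat.cast_mul, Nat.cast_mul, Nat.cast_mul,
    ZMod.natCast_mod, ZMod.natCast_mod, e1, e3, e4, e5]
  push_cast
  ring

end MP836e4b.P
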