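/-
MODULE PkG (size M), board mod836, MP_836e4b_nt, folder Work/MP_836e4b_nt/P. Keep the statements verbatim, helper lemmas private.
Packed matrices (toMat, RM in PkDef). digs_get: digs d X = [dg X 0, .., dg X (d-1)] (dg X (i+1) = dg (X/WW) i). rowP v B =
∑_i v_i B_i; with v_i < p < 1024, digits of B_i < p and at most d < 256 rows there are no carries (dg_add, dg_mul_const,
induction on the list with the bound 2^20 * length), so dg (rowP v B) j = ∑ v_i dg (B_i) j. mMul: dg_red, ZMod.natCast_mod.
mId: dg (WW^i) j = if i = j then 1 else 0 (p > 1). mPow: A^n = (A²)^(n/2) * A^(n%2); fuel: n < 2^fuel.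
-/
import Mathlib
import Pool.Agent.Work.MP_836e4b_nt.P.PkDef
import Pool.Agent.Work.MP_836e4b_nt.P.PkA

namespace MP836e4b.P

private theorem dg_of_zero (i : ℕ) : dg 0 i = 0 := by
  unfold dg
  rw [Nat.zero_div, Nat.zero_mod]

private theorem digs_length (d X : ℕ) : (digs d X).length = d := by
  induction d generalizing X with
  | zero => rfl
  | succ d ih =>
    show (X % WW :: digs d (X / WW)).length = d + 1
    rw [List.length_cons, ih]

private theorem digs_getD (d X k : ℕ) : (digs d X).getD k 0 = if k < d then dg X k else 0 := by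
  induction d generalizing X k with
  | zero =>
    rw [if_neg (Nat.not_lt_zero k)]
    rfl
  | succ d ih =>
    show (X % WW :: digs d (X / WW)).getD k 0 = _
    cases k with
    | zero =>
      rw [if_pos (Nat.succ_pos d), List.getD_cons_zero]
      unfold dg
      rw [pow_zero, Nat.div_one]
    | succ k =>
      rw [List.getD_cons_succ, ih]
      have h1 : dg X (k + 1) = dg (X / WW) k := by
        unfold dg
        rw [pow_succ', Nat.div_div_eq_div_mul]
      by_cases h : k < d
      · rw [if_pos h, if_pos (Nat.succ_lt_succ h), h1]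
      · rw [if_neg h, if_neg fun h' => h (Nat.lt_of_succ_lt_succ h')]

private theorem rowP_dg (p : ℕ) (hp : p < 1024) (v : List ℕ) (B : List ℕ)
    (hv : ∀ k, v.getD k 0 < p) (hB : ∀ k j, dg (B.getD k 0) j < p) (hl : v.length < 256) :
    ∀ j, dg (rowP v B) j = ∑ k ∈ Finset.range v.length, v.getD k 0 * dg (B.getD k 0) j ∧
      dg (rowP v B) j ≤ v.length * 1048576 := by
  induction v generalizing B with
  | nil =>
    intro j
    have h : rowP [] B = 0 := by
      cases B <;> rfl
    rw [h, dg_of_zero]
    exact ⟨rfl, Nat.zero_le _⟩
  | cons a v ih =>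
    intro j
    cases B with
    | nil =>
      have h : rowP (a :: v) [] = 0 := rfl
      rw [h, dg_of_zero]
      refine ⟨?_, Nat.zero_le _⟩
      symm
      refine Finset.sum_eq_zero fun k _ => ?_
      have h2 : ([] : List ℕ).getD k 0 = 0 := rfl
      rw [h2, dg_of_zero, mul_zero]
    | cons r B =>
      have hl' : v.length < 256 := by
        rw [List.length_cons] at hl
        omega
      have hv' : ∀ k, v.getD k 0 < p := fun k => by
        have := hv (k + 1)
        rwa [List.getD_cons_succ] at this
      have hB' : ∀ k j, dg (B.getD k 0) j < p := fun k j => by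
        have := hB (k + 1) j
        rwa [List.getD_cons_succ] at this
      have ha : a < p := by
        have := hv 0
        rwa [List.getD_cons_zero] at this
      have hr : ∀ j, dg r j < p := fun j => by
        have := hB 0 j
        rwa [List.getD_cons_zero] at this
      have hW : 256 * 1048576 < WW := by unfold WW; norm_num
      have har : ∀ i, a * dg r i ≤ 1048576 := fun i => by
        have h1 : a ≤ 1024 := by omega
        have h2 : dg r i ≤ 1024 := by
          have := hr i
          omega
        exact (Nat.mul_le_mul h1 h2).trans (by norm_num)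
      have hI := ih B hv' hB' hl'
      have h3 : ∀ i, dg (a * r) i = a * dg r i := fun i =>
        dg_mul_const a r (fun i => lt_of_le_of_lt (har i) (by omega)) i
      have h4 : ∀ i, dg (a * r + rowP v B) i = dg (a * r) i + dg (rowP v B) i := fun i => by
        refine dg_add _ _ (fun i => ?_) i
        rw [h3]
        have h5 := har i
        have h6 := (hI i).2
        have h7 : v.length * 1048576 ≤ 255 * 1048576 := Nat.mul_le_mul_right _ (by omega)
        omega
      have h8 : rowP (a :: v) (r :: B) = a * r + rowP v B := rfl
      rw [h8, h4, h3, List.length_cons]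
      constructor
      · rw [Finset.sum_range_succ', (hI j).1, List.getD_cons_zero, List.getD_cons_zero, add_comm]
        congr 1
      · have h5 := har j
        have h6 := (hI j).2
        rw [Nat.add_mul, one_mul]
        omega

private theorem getD_map_lt (A : List ℕ) (f : ℕ → ℕ) (i : ℕ) (hi : i < A.length) :
    (A.map f).getD i 0 = f (A.getD i 0) := by
  rw [List.getD_eq_getElem _ _ (by rw [List.length_map]; exact hi), List.getElem_map,
    List.getD_eq_getElem _ _ hi]

private theorem getD_ge {α : Type} (A : List α) (a : α) (i : ℕ) (hi : A.length ≤ i) :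
    A.getD i a = a := List.getD_eq_default _ _ hi

theorem rm_mul (p d : ℕ) (hp0 : 1 < p) (hp : p < 1024) (hd : d < 256) (A B : List ℕ)
    (hA : RM p d A) (hB : RM p d B) :
    RM p d (mMul p d A B) ∧ toMat p d (mMul p d A B) = toMat p d A * toMat p d B := by
  have hp1 : 0 < p := by omega
  constructor
  · constructor
    · unfold mMul
      rw [List.length_map, hA.len]
    · intro i j
      unfold mMul
      by_cases hi : i < A.length
      · rw [getD_map_lt _ _ _ hi, dg_red]
        split_ifs
        · exact Nat.mod_lt _ hp1
        · exact hp1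
      · rw [getD_ge _ _ _ (by rw [List.length_map]; omega), dg_of_zero]
        exact hp1
  · ext i j
    have hi : (i : ℕ) < A.length := by
      rw [hA.len]
      exact i.2
    rw [Matrix.mul_apply]
    unfold toMat mMul
    rw [getD_map_lt _ _ _ hi, dg_red, if_pos j.2, ZMod.natCast_mod]
    have hdl : (digs d (A.getD i 0)).length = d := digs_length _ _
    have h1 := (rowP_dg p hp (digs d (A.getD i 0)) B (fun k => by
      rw [digs_getD]
      split_ifs
      · exact hA.lt _ _
      · exact hp1) hB.lt (by rw [hdl]; exact hd) j).1
    rw [h1, hdl, Nat.cast_sum, Finset.sum_range]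
    refine Finset.sum_congr rfl fun k _ => ?_
    rw [digs_getD, if_pos k.2, Nat.cast_mul]

private theorem dg_WW_pow (i j : ℕ) : dg (WW ^ i) j = if i = j then 1 else 0 := by
  have hW : 1 < WW := by unfold WW; norm_num
  have h1 : sm (fun k => if k = i then 1 else 0) (i + 1) = WW ^ i := by
    unfold sm
    rw [Finset.sum_eq_single i]
    · show (if i = i then 1 else 0) * WW ^ i = _
      rw [if_pos rfl, one_mul]
    · intro b _ hb
      show (if b = i then 1 else 0) * WW ^ b = _
      rw [if_neg hb, zero_mul]
    · intro h
      exact absurd (Finset.mem_range.2 (Nat.lt_succ_self i)) h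
  have h2 := dg_sm (fun k => if k = i then 1 else 0) (fun k => by
    show (if k = i then 1 else 0) < WW
    split_ifs <;> omega) (i + 1) j
  rw [← h1, h2]
  by_cases h : i = j
  · subst h
    rw [if_pos (Nat.lt_succ_self i), if_pos rfl]
  · rw [if_neg h]
    split_ifs with h3 h4
    · exact absurd h4.symm h
    · rfl
    · rfl

private theorem mId_length (d : ℕ) : (mId d).length = d := by
  unfold mId
  rw [List.length_map, List.length_range]

private theorem mId_getD (d i : ℕ) (hi : i < d) : (mId d).getD i 0 = WW ^ i := by
  unfold mId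
  rw [getD_map_lt _ _ _ (by rw [List.length_range]; exact hi),
    List.getD_eq_getElem _ _ (by rw [List.length_range]; exact hi), List.getElem_range]

theorem rm_one (p d : ℕ) (hp0 : 1 < p) : RM p d (mId d) ∧ toMat p d (mId d) = 1 := by
  constructor
  · constructor
    · exact mId_length d
    · intro i j
      by_cases hi : i < d
      · rw [mId_getD d i hi, dg_WW_pow]
        split_ifs <;> omega
      · rw [getD_ge _ _ _ (by rw [mId_length]; omega), dg_of_zero]
        omega
  · ext i j
    unfold toMat
    rw [mId_getD d i i.2, dg_WW_pow, Matrix.one_apply]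
    by_cases h : i = j
    · subst h
      rw [if_pos rfl, if_pos rfl, Nat.cast_one]
    · rw [if_neg (fun h' => h (Fin.ext h')), if_neg h, Nat.cast_zero]

theorem rm_pow (p d : ℕ) (hp0 : 1 < p) (hp : p < 1024) (hd : d < 256) (fuel : ℕ) (A : List ℕ)
    (hA : RM p d A) (n : ℕ) (hn : n < 2 ^ fuel) :
    RM p d (mPow p d fuel A n) ∧ toMat p d (mPow p d fuel A n) = toMat p d A ^ n := by
  induction fuel generalizing A n with
  | zero =>
    have h0 : n = 0 := by
      rw [pow_zero] at hn
      omega
    subst h0
    rw [pow_zero]
    exact rm_one p d hp0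
  | succ fuel ih =>
    have hdef : mPow p d (fuel + 1) A n = if n = 0 then mId d else
      if n % 2 = 1 then mMul p d A (mPow p d fuel (mMul p d A A) (n / 2))
      else mPow p d fuel (mMul p d A A) (n / 2) := rfl
    rw [hdef]
    by_cases h0 : n = 0
    · subst h0
      rw [if_pos rfl, pow_zero]
      exact rm_one p d hp0
    · rw [if_neg h0]
      have hAA := rm_mul p d hp0 hp hd A A hA hA
      have hB := ih (mMul p d A A) hAA.1 (n / 2) (by rw [pow_succ] at hn; omega)
      have hB2 : toMat p d (mPow p d fuel (mMul p d A A) (n / 2)) =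
          toMat p d A ^ (2 * (n / 2)) := by
        rw [hB.2, hAA.2, pow_mul, sq]
      by_cases h1 : n % 2 = 1
      · rw [if_pos h1]
        have hC := rm_mul p d hp0 hp hd A _ hA hB.1
        refine ⟨hC.1, ?_⟩
        rw [hC.2, hB2, ← pow_succ']
        congr 1
        omega
      · rw [if_neg h1]
        refine ⟨hB.1, ?_⟩
        rw [hB2]
        congr 1
        omega

/-- `A^p - A` row by row. -/
theorem rm_sub (p d : ℕ) (hp0 : 1 < p) (hp : p < 1024) (hd : d < 256) (Q A : List ℕ)
    (hQ : RM p d Q) (hA : RM p d A) :
    RM p d ((Q.zip A).map fun rs ↦ red p d (rs.1 + (p - 1) * rs.2)) ∧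
      toMat p d ((Q.zip A).map fun rs ↦ red p d (rs.1 + (p - 1) * rs.2)) =
        toMat p d Q - toMat p d A := by
  have hp1 : 0 < p := by omega
  have hlen : ((Q.zip A).map fun rs ↦ red p d (rs.1 + (p - 1) * rs.2)).length = d := by
    rw [List.length_map, List.length_zip, hQ.len, hA.len, min_self]
  have hget : ∀ i, i < d → ((Q.zip A).map fun rs ↦ red p d (rs.1 + (p - 1) * rs.2)).getD i 0 =
      red p d (Q.getD i 0 + (p - 1) * A.getD i 0) := by
    intro i hi
    rw [List.getD_eq_getElem _ _ (by rw [hlen]; exact hi), List.getElem_map, List.getElem_zip,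
      List.getD_eq_getElem _ _ (by rw [hQ.len]; exact hi),
      List.getD_eq_getElem _ _ (by rw [hA.len]; exact hi)]
  constructor
  · constructor
    · exact hlen
    · intro i j
      by_cases hi : i < d
      · rw [hget i hi, dg_red]
        split_ifs
        · exact Nat.mod_lt _ hp1
        · exact hp1
      · rw [getD_ge _ _ _ (by rw [hlen]; omega), dg_of_zero]
        exact hp1
  · ext i j
    rw [Matrix.sub_apply]
    unfold toMat
    rw [hget i i.2, dg_red, if_pos j.2, ZMod.natCast_mod]
    have hW : 2097152 < WW := by unfold WW; norm_num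
    have h1 : ∀ k, (p - 1) * dg (A.getD i 0) k ≤ 1048576 := fun k => by
      have h2 : p - 1 ≤ 1024 := by omega
      have h3 : dg (A.getD i 0) k ≤ 1024 := by
        have := hA.lt i k
        omega
      exact (Nat.mul_le_mul h2 h3).trans (by norm_num)
    have h4 : ∀ k, dg ((p - 1) * A.getD i 0) k = (p - 1) * dg (A.getD i 0) k := fun k =>
      dg_mul_const _ _ (fun k => lt_of_le_of_lt (h1 k) (by omega)) k
    have h5 : dg (Q.getD i 0 + (p - 1) * A.getD i 0) j =
        dg (Q.getD i 0) j + dg ((p - 1) * A.getD i 0) j := by
      refine dg_add _ _ (fun k => ?_) j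
      rw [h4]
      have h6 := h1 k
      have h7 := hQ.lt i k
      omega
    rw [h5, h4, Nat.cast_add, Nat.cast_mul, Nat.cast_sub (by omega : 1 ≤ p), ZMod.natCast_self,
      Nat.cast_one]
    ring

end MP836e4b.P
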