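/-
MODULE PkH (size M), board mod836, MP_836e4b_nt, folder Work/MP_836e4b_nt/P. Keep the statements verbatim, helper lemmas private.
Soundness of the checker. d = piv.length. Split the conjunctions of chkX/chkW (simp only [chkX, chkW, Bool.and_eq_true, ..]).
U' = toMat p d U, S' = toMat p d S. RM for U and S: red p d r = r for every row (dg_red: digits < p; getD outside is 0).
difMat .. (coP κ) has the matrix (Gm κ piv) mod p: dif_rm, coP_cast (rep_tab; piv entries < N, F.getD (i+1) with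
i + 1 < F.length = (idx κ).length), gc = mc - mc. difMat .. (toP p κ) has the matrix GTm: toP_cast and TcZ additive:
TcZ κ (gc κ i) n = TcZ κ (mc κ t) n - TcZ κ (mc κ t0) n (ring). Then rm_mul, rm_one, rm_pow (p < 2^12), rm_sub.
-/
import Mathlib
import Pool.Agent.Work.MP_836e4b_nt.P.PkDef
import Pool.Agent.Work.MP_836e4b_nt.P.PkE
import Pool.Agent.Work.MP_836e4b_nt.P.PkF
import Pool.Agent.Work.MP_836e4b_nt.P.PkG
import Pool.Agent.Work.MP_836e4b_nt.P.PkI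

namespace MP836e4b.P

private theorem ph_getD_mem (piv : List ℕ) (j : Fin piv.length) : piv.getD j 0 ∈ piv := by
  rw [List.getD_eq_getElem _ _ j.2]
  exact List.getElem_mem _

private theorem ph_rm (p d : ℕ) (hp : 0 < p) (U : List ℕ) (hU : U.length = d)
    (h : ∀ r ∈ U, red p d r = r) : RM p d U := by
  refine ⟨hU, fun i j ↦ ?_⟩
  by_cases hi : i < U.length
  · have h1 : U.getD i 0 = U[i] := List.getD_eq_getElem _ _ hi
    have h2 := h (U.getD i 0) (by rw [h1]; exact List.getElem_mem _)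
    rw [← h2, dg_red]
    split_ifs
    · exact Nat.mod_lt _ hp
    · exact hp
  · have h1 : U.getD i 0 = 0 := List.getD_eq_default _ _ (not_lt.1 hi)
    rw [h1]
    unfold dg
    simpa using hp

private theorem ph_Tc (κ i n : ℕ) : TcZ κ (gc κ i) n =
    TcZ κ (mc κ ((idx κ).getD (i + 1) (0, 0, 0))) n -
      TcZ κ (mc κ ((idx κ).getD 0 (0, 0, 0))) n := by
  unfold TcZ gc
  split_ifs <;> ring

theorem chk_sound (κ p N : ℕ) (piv U S : List ℕ) (h : chkX κ p N piv U S = true) :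
    (idx κ).length = piv.length + 1 ∧
    (∀ n ∈ piv, (n % 4 = 0 ∨ n % 4 = cl1 κ) ∧ 0 < n) ∧
    ∃ U' S' : Matrix (Fin piv.length) (Fin piv.length) (ZMod p),
      (Gm κ piv).map (Int.cast : ℤ → ZMod p) * U' = 1 ∧
      S' * (((GTm κ piv).map (Int.cast : ℤ → ZMod p) * U') ^ p -
        (GTm κ piv).map (Int.cast : ℤ → ZMod p) * U') = 1 := by
  simp only [chkX, chkW, Bool.and_eq_true, beq_iff_eq, decide_eq_true_eq, List.all_eq_true,
    Bool.or_eq_true] at h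
  obtain ⟨⟨⟨⟨⟨⟨⟨⟨⟨⟨⟨⟨⟨hlen, hGU⟩, hSD⟩, hpiv⟩, hUl⟩, hSl⟩, hp2⟩, hp5⟩, hN⟩, hd⟩, hN0⟩, hd0⟩, hUr⟩,
    hSr⟩ := h
  have hp1 : 1 < p := by omega
  have hp0 : 0 < p := by omega
  set d := piv.length with hdd
  set F := tabP p N κ with hF
  have hidx : (idx κ).length = d + 1 := by
    rw [← tab_length p N κ, ← hF, hlen]
  have hU : RM p d U := ph_rm p d hp0 U hUl hUr
  have hS : RM p d S := ph_rm p d hp0 S hSl hSr
  obtain ⟨hG1, hG2⟩ := dif_rm p hp0 hp2 piv F (coP κ) hlen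
  obtain ⟨hT1, hT2⟩ := dif_rm p hp0 hp2 piv F (toP p κ) hlen
  have hrep : ∀ k, k < d + 1 →
      Rep p N (F.getD k (0, 0)).1 (qQ ((idx κ).getD k (0, 0, 0)) 0) ∧
        Rep p N (F.getD k (0, 0)).2 (qQ ((idx κ).getD k (0, 0, 0)) 1) := by
    intro k hk
    exact rep_tab p N κ hp5 hp2 hN0 hN k (by rw [hidx]; exact hk)
  have hGm : toMat p d (difMat p piv F (coP κ)) = (Gm κ piv).map (Int.cast : ℤ → ZMod p) := by
    funext i j
    obtain ⟨⟨hc, hn⟩, hn0⟩ := hpiv _ (ph_getD_mem piv j)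
    have hi := hrep (i + 1) (by omega)
    have h0 := hrep 0 (by omega)
    rw [hG2 i j, coP_cast p N κ (piv.getD j 0) _ _ hn hi.1 hi.2,
      coP_cast p N κ (piv.getD j 0) _ _ hn h0.1 h0.2, ← Int.cast_sub]
    rfl
  have hGTm : toMat p d (difMat p piv F (toP p κ)) = (GTm κ piv).map (Int.cast : ℤ → ZMod p) := by
    funext i j
    obtain ⟨⟨hc, hn⟩, hn0⟩ := hpiv _ (ph_getD_mem piv j)
    have hi := hrep (i + 1) (by omega)
    have h0 := hrep 0 (by omega)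
    rw [hT2 i j, toP_cast p N κ (piv.getD j 0) _ _ hn hn0 hc hi.1 hi.2,
      toP_cast p N κ (piv.getD j 0) _ _ hn hn0 hc h0.1 h0.2, ← Int.cast_sub, ← ph_Tc]
    rfl
  refine ⟨hidx, fun n hn ↦ ⟨(hpiv n hn).1.1, (hpiv n hn).2⟩, toMat p d U, toMat p d S, ?_, ?_⟩
  · rw [← hGm, ← (rm_mul p d hp1 hp2 hd _ U hG1 hU).2, hGU, (rm_one p d hp1).2]
  · obtain ⟨hA1, hA2⟩ := rm_mul p d hp1 hp2 hd _ U hT1 hU
    set A := mMul p d (difMat p piv F (toP p κ)) U with hA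
    obtain ⟨hQ1, hQ2⟩ := rm_pow p d hp1 hp2 hd 12 A hA1 p (by omega)
    obtain ⟨hD1, hD2⟩ := rm_sub p d hp1 hp2 hd (mPow p d 12 A p) A hQ1 hA1
    rw [← hGTm, ← hA2, ← hQ2, ← hD2, ← (rm_mul p d hp1 hp2 hd S _ hS hD1).2, hSD,
      (rm_one p d hp1).2]

end MP836e4b.P
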