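/-
MODULE PkI (size S-M), board mod836, MP_836e4b_nt, folder Work/MP_836e4b_nt/P. Keep the statements verbatim, helper lemmas private.
dg_pack: pack A = sm (fun i => A.getD i 0) A.length (induction), dg_sm. dif_rm: difMat p piv (f0 :: F) co = F.map (..), so for
i < d the row i is pack (piv.map ..) with digits (co f n + (p - co f0 n % p)) % p < p; in ZMod p it is co f n - co f0 n
(Nat.cast_sub, co f0 n % p ≤ p). Rows i ≥ d of getD are 0 (digits 0 < p).
-/
import Mathlib
import Pool.Agent.Work.MP_836e4b_nt.P.PkDef
import Pool.Agent.Work.MP_836e4b_nt.P.PkA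

namespace MP836e4b.P

theorem dg_pack (A : List ℕ) (hA : ∀ a ∈ A, a < WW) (i : ℕ) : dg (pack A) i = A.getD i 0 := by
  induction A generalizing i with
  | nil => simp [pack, dg]
  | cons a A ih =>
    have ha := hA a List.mem_cons_self
    have hW : 0 < WW := by unfold WW; norm_num
    cases i with
    | zero =>
      simp only [dg, pack, pow_zero, Nat.div_one, List.getD_cons_zero]
      rw [Nat.add_mul_mod_self_left, Nat.mod_eq_of_lt ha]
    | succ i =>
      have h : dg (pack (a :: A)) (i + 1) = dg (pack A) i := by
        simp only [dg, pack]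
        rw [pow_succ', ← Nat.div_div_eq_div_mul, Nat.add_mul_div_left _ _ hW,
          Nat.div_eq_of_lt ha, zero_add]
      rw [h, ih (fun b hb => hA b (List.mem_cons_of_mem _ hb)) i, List.getD_cons_succ]

private theorem getD_map' {α : Type} (g : α → ℕ) (L : List α) (a : α) (i : ℕ) (h : i < L.length) :
    (L.map g).getD i 0 = g (L.getD i a) := by
  rw [List.getD_eq_getElem _ _ (by rw [List.length_map]; exact h), List.getD_eq_getElem _ _ h,
    List.getElem_map]

theorem dif_rm (p : ℕ) (hp0 : 0 < p) (hp : p < 1024) (piv : List ℕ) (F : List (ℕ × ℕ))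
    (co : (ℕ × ℕ) → ℕ → ℕ) (hF : F.length = piv.length + 1) :
    RM p piv.length (difMat p piv F co) ∧ ∀ i j : Fin piv.length,
      toMat p piv.length (difMat p piv F co) i j =
        ((co (F.getD (i + 1) (0, 0)) (piv.getD j 0) : ℕ) : ZMod p) -
          ((co (F.getD 0 (0, 0)) (piv.getD j 0) : ℕ) : ZMod p) := by
  cases F with
  | nil => simp at hF
  | cons f0 F =>
    have hl : F.length = piv.length := by
      rw [List.length_cons] at hF
      omega
    have hlt : ∀ (f : ℕ × ℕ), ∀ a ∈ piv.map (fun n ↦ (co f n + (p - co f0 n % p)) % p), a < WW := by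
      intro f a ha
      obtain ⟨n, -, rfl⟩ := List.mem_map.1 ha
      have h1 := Nat.mod_lt (co f n + (p - co f0 n % p)) hp0
      have h2 : (1024 : ℕ) < WW := by unfold WW; norm_num
      exact h1.trans (hp.trans h2)
    have hrow : ∀ i, i < piv.length → (difMat p piv (f0 :: F) co).getD i 0 =
        pack (piv.map fun n ↦ (co (F.getD i (0, 0)) n + (p - co f0 n % p)) % p) := by
      intro i hi
      exact getD_map' (fun f : ℕ × ℕ => pack (piv.map fun n ↦ (co f n + (p - co f0 n % p)) % p))
        F (0, 0) i (by omega)
    have hlen : (difMat p piv (f0 :: F) co).length = piv.length := by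
      show (F.map _).length = piv.length
      rw [List.length_map, hl]
    refine ⟨⟨hlen, ?_⟩, ?_⟩
    · intro i j
      by_cases hi : i < piv.length
      · rw [hrow i hi, dg_pack _ (hlt _)]
        by_cases hj : j < piv.length
        · rw [getD_map' (fun n ↦ (co (F.getD i (0, 0)) n + (p - co f0 n % p)) % p) piv 0 j hj]
          exact Nat.mod_lt _ hp0
        · rw [List.getD_eq_default _ _ (by rw [List.length_map]; omega)]
          exact hp0
      · rw [List.getD_eq_default _ _ (by omega)]
        have : dg 0 j = 0 := by simp [dg]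
        rw [this]
        exact hp0
    · intro i j
      unfold toMat
      rw [hrow i i.2, dg_pack _ (hlt _),
        getD_map' (fun n ↦ (co (F.getD i (0, 0)) n + (p - co f0 n % p)) % p) piv 0 j j.2,
        ZMod.natCast_mod, Nat.cast_add, Nat.cast_sub (Nat.mod_lt _ hp0).le, ZMod.natCast_mod,
        ZMod.natCast_self, List.getD_cons_succ, List.getD_cons_zero]
      ring

end MP836e4b.P
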