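/-
MODULE SWSa (size M), board mod836, MP_836e4b_nt, folder Work/MP_836e4b_nt/P. Keep the statements verbatim, helper lemmas private.
Analytic facts. Holomorphy: locally uniformly convergent series of holomorphic functions (jacobiTheta₂ is differentiable in
τ: differentiableAt_jacobiTheta₂; th_zero_eq, th_one_eq; for HasE: differentiableOn_tsum_of_summable_norm with the bound
|c n| e^{-πn Im τ/2}, hasE_summable; MDifferentiable iff DifferentiableOn of f ∘ ofComplex: UpperHalfPlane.mdifferentiable_iff).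
Limits: th 0 τ 0 = 1 + O(e^{-2π Im τ}), th 1 τ 0 = 2 e(τ/4)(1 + O(e^{-4π Im τ})). hasE_growth: c(0) = 0, component 0 has
exponents n ≥ 4, component 1 exponents n ≥ cls κ 1 (1 or 3).
-/
import Mathlib
import Pool.Agent.Work.MP_836e4b_nt.P.Defs
import Pool.Agent.Work.MP_836e4b_nt.P.Cont
import Pool.Agent.Work.MP_836e4b_nt.P.Th1

open UpperHalfPlane Complex
open scoped MatrixGroups ComplexConjugate Matrix

namespace MP836e4b.P

open scoped Manifold

private theorem sws_pt_im (y : ℝ) (hy : 0 < y) :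
    (⟨Complex.I * y, by simpa using hy⟩ : ℍ).im = y := by
  change (Complex.I * (y : ℂ)).im = y
  simp

private theorem sws_norm (e : ℝ) (τ : ℍ) :
    ‖ee ((e : ℂ) * (τ : ℂ))‖ = Real.exp (-(2 * Real.pi * e * τ.im)) := by
  rw [norm_ee, Complex.im_ofReal_mul, UpperHalfPlane.coe_im]
  congr 1
  ring

private theorem mdiff_series {ι : Type} (a : ι → ℂ) (e : ι → ℝ) (f : ℍ → ℂ)
    (hs : ∀ y : ℝ, 0 < y → Summable fun i ↦ ‖a i‖ * Real.exp (-(2 * Real.pi * e i * y)))
    (he : ∀ i, 0 ≤ e i)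
    (hf : ∀ τ : ℍ, f τ = ∑' i, a i * ee ((e i : ℂ) * (τ : ℂ))) :
    MDifferentiable 𝓘(ℂ) 𝓘(ℂ) f := by
  rw [UpperHalfPlane.mdifferentiable_iff]
  have hcongr : ∀ z ∈ {z : ℂ | 0 < z.im},
      (f ∘ ofComplex) z = ∑' i, a i * ee ((e i : ℂ) * z) := by
    intro z hz
    rw [Function.comp_apply, hf, ofComplex_apply_of_im_pos hz]
  refine DifferentiableOn.congr ?_ hcongr
  intro z hz
  have hz' : 0 < z.im := hz
  have hU : IsOpen {w : ℂ | z.im / 2 < w.im} := isOpen_lt continuous_const Complex.continuous_im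
  have hd : DifferentiableOn ℂ (fun w ↦ ∑' i, a i * ee ((e i : ℂ) * w))
      {w : ℂ | z.im / 2 < w.im} := by
    refine Complex.differentiableOn_tsum_of_summable_norm (hs (z.im / 2) (by linarith)) ?_ hU ?_
    · intro i
      apply Differentiable.differentiableOn
      unfold ee
      fun_prop
    · intro i w hw
      rw [norm_mul, norm_ee]
      refine mul_le_mul_of_nonneg_left ?_ (norm_nonneg _)
      rw [Real.exp_le_exp, Complex.im_ofReal_mul]
      have h1 : z.im / 2 < w.im := hw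
      have h2 : e i * (z.im / 2) ≤ e i * w.im := mul_le_mul_of_nonneg_left h1.le (he i)
      have h3 : 2 * Real.pi * (e i * (z.im / 2)) ≤ 2 * Real.pi * (e i * w.im) :=
        mul_le_mul_of_nonneg_left h2 (by positivity)
      linarith
  refine (hd.differentiableAt (hU.mem_nhds ?_)).differentiableWithinAt
  change z.im / 2 < z.im
  linarith

private theorem th_term (r : Fin 2) (τ : ℍ) (m : ℤ) :
    ee ((2 * (m : ℂ) + ((r : ℕ) : ℂ)) ^ 2 * (τ : ℂ) / 4 + (2 * (m : ℂ) + ((r : ℕ) : ℂ)) * 0) =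
      ee ((((2 * (m : ℝ) + ((r : ℕ) : ℝ)) ^ 2 / 4 : ℝ) : ℂ) * (τ : ℂ)) := by
  congr 1
  push_cast
  ring

private theorem th_sum_real (r : Fin 2) (y : ℝ) (hy : 0 < y) :
    Summable fun m : ℤ ↦ Real.exp (-(2 * Real.pi * ((2 * (m : ℝ) + ((r : ℕ) : ℝ)) ^ 2 / 4) * y)) := by
  have h := (th_summable r ⟨Complex.I * y, by simpa using hy⟩ 0).norm
  refine h.congr fun m ↦ ?_
  rw [th_term, sws_norm, sws_pt_im y hy]

theorem th_mdiff (r : Fin 2) : MDifferentiable 𝓘(ℂ) 𝓘(ℂ) (fun τ : ℍ ↦ th r τ 0) := by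
  refine mdiff_series (fun _ : ℤ ↦ (1 : ℂ)) (fun m ↦ (2 * (m : ℝ) + ((r : ℕ) : ℝ)) ^ 2 / 4) _
    ?_ ?_ ?_
  · intro y hy
    simpa using th_sum_real r y hy
  · intro m
    positivity
  · intro τ
    unfold th
    refine tsum_congr fun m ↦ ?_
    rw [one_mul]
    exact th_term r τ m

theorem hasE_mdiff (κ : ℕ) (c : ℕ → ℂ) (h : VF) (H : HasE κ c h) (r : Fin 2) :
    MDifferentiable 𝓘(ℂ) 𝓘(ℂ) (fun τ : ℍ ↦ h τ r) := by
  refine mdiff_series (fun n : ℕ ↦ if n % 4 = cls κ r then c n else 0) (fun n ↦ (n : ℝ) / 4) _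
    ?_ ?_ ?_
  · intro y hy
    refine Summable.of_nonneg_of_le (fun n ↦ by positivity) (fun n ↦ ?_)
      (hasE_summable κ c h H y hy)
    have e1 : -(2 * Real.pi * ((n : ℝ) / 4) * y) = -(Real.pi * n * y / 2) := by ring
    rw [e1]
    refine mul_le_mul_of_nonneg_right ?_ (Real.exp_pos _).le
    split_ifs
    · exact le_rfl
    · rw [norm_zero]
      exact norm_nonneg _
  · intro n
    positivity
  · intro τ
    rw [← (H.sum τ r).tsum_eq]
    refine tsum_congr fun n ↦ ?_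
    have e1 : (((n : ℝ) / 4 : ℝ) : ℂ) * (τ : ℂ) = (n : ℂ) * (τ : ℂ) / 4 := by
      push_cast
      ring
    rw [e1]
    split_ifs
    · rfl
    · rw [zero_mul]

private theorem tendsto_series (q : ℤ → ℤ) (hq : ∀ m, 0 ≤ q m) (S : Finset ℤ)
    (hS : ∀ m, m ∈ S ↔ q m = 0)
    (hsum : Summable fun m ↦ Real.exp (-(2 * Real.pi * (q m : ℝ)))) :
    Filter.Tendsto (fun τ : ℍ ↦ ∑' m : ℤ, ee ((q m : ℂ) * (τ : ℂ))) UpperHalfPlane.atImInfty
      (nhds (S.card : ℂ)) := by
  have hlim : ∑' m : ℤ, (if m ∈ S then (1 : ℂ) else 0) = (S.card : ℂ) := by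
    rw [tsum_eq_sum (s := S) (fun m hm ↦ if_neg hm), Finset.sum_ite_mem, Finset.inter_self]
    simp
  rw [← hlim]
  have hn : ∀ (m : ℤ) (τ : ℍ), ‖ee ((q m : ℂ) * (τ : ℂ))‖ =
      Real.exp (-(2 * Real.pi * (q m : ℝ) * τ.im)) := by
    intro m τ
    rw [← sws_norm]
    push_cast
    rfl
  refine tendsto_tsum_of_dominated_convergence hsum ?_ ?_
  · intro m
    by_cases hm : m ∈ S
    · have h0 : q m = 0 := (hS m).mp hm
      simp only [h0, Int.cast_zero, zero_mul, ee_zero, if_pos hm]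
      exact tendsto_const_nhds
    · have h0 : q m ≠ 0 := fun h ↦ hm ((hS m).mpr h)
      have h1 : 0 < q m := lt_of_le_of_ne (hq m) (Ne.symm h0)
      have h2 : (0 : ℝ) < (q m : ℝ) := by exact_mod_cast h1
      rw [if_neg hm, tendsto_zero_iff_norm_tendsto_zero]
      simp only [hn]
      refine Real.tendsto_exp_atBot.comp (Filter.tendsto_neg_atTop_atBot.comp ?_)
      exact Filter.Tendsto.const_mul_atTop (by positivity) Filter.tendsto_comap
  · have hmem : {τ : ℍ | 1 ≤ τ.im} ∈ UpperHalfPlane.atImInfty := by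
      rw [UpperHalfPlane.atImInfty_mem]
      exact ⟨1, fun τ hτ ↦ hτ⟩
    filter_upwards [hmem] with τ hτ m
    have h3 : 1 ≤ τ.im := hτ
    rw [hn, Real.exp_le_exp]
    have h2 : (0 : ℝ) ≤ (q m : ℝ) := by exact_mod_cast hq m
    have h4 : 2 * Real.pi * (q m : ℝ) * 1 ≤ 2 * Real.pi * (q m : ℝ) * τ.im :=
      mul_le_mul_of_nonneg_left h3 (by positivity)
    linarith

theorem th0_tendsto :
    Filter.Tendsto (fun τ : ℍ ↦ th 0 τ 0) UpperHalfPlane.atImInfty (nhds 1) := by
  have h := tendsto_series (fun m ↦ m ^ 2) (fun m ↦ sq_nonneg m) {0} (by intro m; simp) (by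
    refine (th_sum_real 0 1 one_pos).congr fun m ↦ ?_
    congr 1
    push_cast
    simp
    ring)
  have e1 : (fun τ : ℍ ↦ th 0 τ 0) =
      fun τ : ℍ ↦ ∑' m : ℤ, ee ((((m ^ 2 : ℤ)) : ℂ) * (τ : ℂ)) := by
    funext τ
    unfold th
    refine tsum_congr fun m ↦ ?_
    congr 1
    push_cast
    simp
    ring
  rw [e1]
  simpa using h

theorem th1_tendsto :
    Filter.Tendsto (fun τ : ℍ ↦ ee (-((τ : ℂ) / 4)) * th 1 τ 0) UpperHalfPlane.atImInfty (nhds 2) := by
  have h := tendsto_series (fun m ↦ m ^ 2 + m) (fun m ↦ by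
      rcases le_or_gt 0 m with h | h
      · positivity
      · nlinarith) {0, -1} (by
      intro m
      simp only [Finset.mem_insert, Finset.mem_singleton]
      constructor
      · rintro (h | h)
        · rw [h]
          rfl
        · rw [h]
          rfl
      · intro h
        have h1 : m * (m + 1) = 0 := by linear_combination h
        rcases mul_eq_zero.mp h1 with h2 | h2
        · left
          exact h2
        · right
          linarith) (by
      refine ((th_sum_real 1 1 one_pos).mul_left (Real.exp (Real.pi / 2))).congr fun m ↦ ?_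
      rw [← Real.exp_add]
      congr 1
      push_cast
      simp
      ring)
  have e1 : (fun τ : ℍ ↦ ee (-((τ : ℂ) / 4)) * th 1 τ 0) =
      fun τ : ℍ ↦ ∑' m : ℤ, ee ((((m ^ 2 + m : ℤ)) : ℂ) * (τ : ℂ)) := by
    funext τ
    unfold th
    rw [← tsum_mul_left]
    refine tsum_congr fun m ↦ ?_
    rw [← ee_add]
    congr 1
    push_cast
    simp
    ring
  rw [e1]
  have h2 : ((({0, -1} : Finset ℤ).card : ℕ) : ℂ) = 2 := by
    have : ({0, -1} : Finset ℤ).card = 2 := by decide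
    rw [this]
    norm_num
  rw [h2] at h
  exact h

theorem hasE_growth (κ : ℕ) (c : ℕ → ℂ) (h : VF) (H : HasE κ c h) :
    ∃ C : ℝ, ∀ τ : ℍ, 1 ≤ τ.im → ‖h τ 0‖ ≤ C * Real.exp (-(2 * Real.pi * τ.im)) ∧
      ‖h τ 1‖ ≤ C * Real.exp (-(Real.pi * (cls κ 1 : ℕ) * τ.im / 2)) := by
  have hs := hasE_summable κ c h H 1 one_pos
  set S : ℝ := ∑' n : ℕ, ‖c n‖ * Real.exp (-(Real.pi * n * 1 / 2)) with hS
  have hS0 : 0 ≤ S := tsum_nonneg fun n ↦ by positivity
  have key : ∀ (r : Fin 2) (n0 : ℕ), n0 ≤ 4 → (∀ n, n % 4 = cls κ r → c n ≠ 0 → n0 ≤ n) →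
      ∀ τ : ℍ, 1 ≤ τ.im → ‖h τ r‖ ≤ S * Real.exp (2 * Real.pi) *
        Real.exp (-(Real.pi * (n0 : ℝ) * τ.im / 2)) := by
    intro r n0 hn0 hcl τ hτ
    have hb : ‖h τ r‖ ≤ S * (Real.exp (2 * Real.pi) *
        Real.exp (-(Real.pi * (n0 : ℝ) * τ.im / 2))) := by
      refine HasSum.norm_le_of_bounded (H.sum τ r) (hs.hasSum.mul_right _) ?_
      intro n
      by_cases hn : n % 4 = cls κ r
      · rw [if_pos hn, norm_mul]
        have e1 : (n : ℂ) * (τ : ℂ) / 4 = (((n : ℝ) / 4 : ℝ) : ℂ) * (τ : ℂ) := by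
          push_cast
          ring
        rw [e1, sws_norm]
        by_cases hc : c n = 0
        · rw [hc]
          simp
        · have h1 := hcl n hn hc
          rw [mul_assoc ‖c n‖, ← Real.exp_add, ← Real.exp_add]
          refine mul_le_mul_of_nonneg_left ?_ (norm_nonneg _)
          rw [Real.exp_le_exp]
          have h2 : (n0 : ℝ) ≤ n := by exact_mod_cast h1
          have h3 : (n0 : ℝ) ≤ 4 := by exact_mod_cast hn0
          have h4 : 0 ≤ ((n : ℝ) - n0) * (τ.im - 1) :=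
            mul_nonneg (by linarith) (by linarith)
          have h5 : 0 ≤ Real.pi * (((n : ℝ) - n0) * (τ.im - 1)) :=
            mul_nonneg Real.pi_pos.le h4
          have h6 : Real.pi * (n0 : ℝ) ≤ Real.pi * 4 := mul_le_mul_of_nonneg_left h3 Real.pi_pos.le
          nlinarith
      · rw [if_neg hn, norm_zero]
        positivity
    rw [mul_assoc]
    exact hb
  refine ⟨S * Real.exp (2 * Real.pi), fun τ hτ ↦ ⟨?_, ?_⟩⟩
  · have h1 := key 0 4 le_rfl (by
      intro n hn hc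
      have h0 : cls κ 0 = 0 := by simp [cls]
      rw [h0] at hn
      rcases Nat.eq_zero_or_pos n with h2 | h2
      · exact absurd (h2 ▸ H.zero) hc
      · omega) τ hτ
    have e1 : -(Real.pi * ((4 : ℕ) : ℝ) * τ.im / 2) = -(2 * Real.pi * τ.im) := by
      push_cast
      ring
    rw [e1] at h1
    exact h1
  · refine key 1 (cls κ 1) ?_ ?_ τ hτ
    · simp only [cls]
      split_ifs <;> omega
    · intro n hn hc
      rw [← hn]
      exact Nat.mod_le n 4

end MP836e4b.P
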