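/-
MODULE ThS (size M), board mod836, MP_836e4b_nt, folder Work/MP_836e4b_nt/P. Keep the statements verbatim, helper lemmas private.
The inversion law of the two theta functions. From jacobiTheta₂_functional_equation
(jacobiTheta₂ z τ = 1/(-Iτ)^(1/2) * exp(-πI z²/τ) * jacobiTheta₂ (z/τ) (-1/τ)):
(1) at (z, τ/2): jacobiTheta₂ z (τ/2) = th 0 + th 1 (all n, e(nz + n²τ/4)) and jacobiTheta₂ (2z/τ) (-2/τ) =
th 0 (-1/τ) (z/τ), so th 0(-1/τ, z/τ) = (-Iτ/2)^(1/2) e(z²/τ) (th 0 + th 1).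
(2) at (2z, 2τ): jacobiTheta₂ (z/τ) (-1/(2τ)) = (th 0 + th 1)(-1/τ, z/τ), so the sum is
(-2Iτ)^(1/2) e(z²/τ) th 0 = 2 (-Iτ/2)^(1/2) e(z²/τ) th 0. Subtract. Note τ/(2i) = -Iτ/2, real part > 0,
so (4w)^(1/2) = 2 w^(1/2).
-/
import Mathlib
import Pool.Agent.Work.MP_836e4b_nt.P.Defs
import Pool.Agent.Work.MP_836e4b_nt.P.Th1

open UpperHalfPlane Complex
open scoped MatrixGroups ComplexConjugate Matrix

namespace MP836e4b.P

private lemma hasSum_int_even_odd {f : ℤ → ℂ} {a b : ℂ}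
    (ha : HasSum (fun m : ℤ ↦ f (2 * m)) a) (hb : HasSum (fun m : ℤ ↦ f (2 * m + 1)) b) :
    HasSum f (a + b) := by
  have h1 : Function.Injective (fun m : ℤ ↦ 2 * m) := by
    intro x y h
    simp only at h
    omega
  have h2 : Function.Injective (fun m : ℤ ↦ 2 * m + 1) := by
    intro x y h
    simp only at h
    omega
  have ha' := (h1.hasSum_range_iff (f := f)).2 ha
  have hb' := (h2.hasSum_range_iff (f := f)).2 hb
  refine ha'.add_isCompl ?_ hb'
  have hc : (Set.range (fun m : ℤ ↦ 2 * m))ᶜ = Set.range (fun m : ℤ ↦ 2 * m + 1) := by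
    ext n
    simp only [Set.mem_compl_iff, Set.mem_range, not_exists]
    constructor
    · intro h
      rcases Int.even_or_odd' n with ⟨k, hk | hk⟩
      · exact absurd hk.symm (h k)
      · exact ⟨k, hk.symm⟩
    · rintro ⟨k, hk⟩ m hm
      omega
  rw [← hc]
  exact isCompl_compl

private lemma theta_half (τ : ℍ) (z : ℂ) :
    jacobiTheta₂ z ((τ : ℂ) / 2) = th 0 τ z + th 1 τ z := by
  have h0 := (th_summable 0 τ z).hasSum
  have h1 := (th_summable 1 τ z).hasSum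
  have him : 0 < ((τ : ℂ) / 2).im := by
    have : ((τ : ℂ) / 2).im = τ.im / 2 := by
      rw [show (τ : ℂ) / 2 = (τ : ℂ) / ((2 : ℝ) : ℂ) by norm_num, Complex.div_ofReal_im]
      rfl
    rw [this]
    have := τ.im_pos
    linarith
  refine (hasSum_jacobiTheta₂_term z him).unique ?_
  refine hasSum_int_even_odd ?_ ?_
  · refine h0.congr_fun ?_
    intro m
    simp only [jacobiTheta₂_term, ee, Fin.val_zero, Nat.cast_zero]
    congr 1
    push_cast
    ring
  · refine h1.congr_fun ?_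
    intro m
    simp only [jacobiTheta₂_term, ee, Fin.val_one, Nat.cast_one]
    congr 1
    push_cast
    ring

private lemma coe_mob_mS (τ : ℍ) : ((mob mS τ : ℍ) : ℂ) = -1 / (τ : ℂ) := by
  rw [coe_mob mS (by simp [mS, Matrix.det_fin_two]) τ]
  simp [mS, jf]

private lemma ee_ne (x : ℂ) : ee x ≠ 0 := Complex.exp_ne_zero _

private lemma ee_ad (x y : ℂ) : ee (x + y) = ee x * ee y := by
  simp only [ee, ← Complex.exp_add]
  congr 1
  ring

private lemma sqrt_four (w : ℂ) (hw : 0 < w.re) :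
    (4 * w) ^ (1 / 2 : ℂ) = 2 * w ^ (1 / 2 : ℂ) := by
  have hw0 : w ≠ 0 := by
    intro h
    rw [h] at hw
    simp at hw
  have h4 : (4 : ℂ) * w = ((4 : ℝ) : ℂ) * w := by norm_num
  have hlog : Real.log 4 = 2 * Real.log 2 := by
    rw [show (4 : ℝ) = 2 ^ 2 by norm_num, Real.log_pow]
    norm_num
  rw [Complex.cpow_def_of_ne_zero (mul_ne_zero (by norm_num) hw0), h4,
    Complex.log_ofReal_mul (by norm_num) hw0, Complex.cpow_def_of_ne_zero hw0, hlog, add_mul,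
    Complex.exp_add]
  congr 1
  rw [show (((2 * Real.log 2 : ℝ)) : ℂ) * (1 / 2) = ((Real.log 2 : ℝ) : ℂ) by push_cast; ring,
    ← Complex.ofReal_exp, Real.exp_log (by norm_num)]
  norm_num

theorem th_S (r : Fin 2) (τ : ℍ) (z : ℂ) :
    ee (-(z ^ 2 / (τ : ℂ))) * th r (mob mS τ) (z / (τ : ℂ)) =
      ((τ : ℂ) / (2 * Complex.I)) ^ (1 / 2 : ℂ) *
        ∑ s : Fin 2, (-1) ^ ((r : ℕ) * (s : ℕ)) * th s τ z := by
  have hτ : (τ : ℂ) ≠ 0 := τ.ne_zero
  set w : ℂ := (τ : ℂ) / (2 * Complex.I) with hwdef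
  have hw1 : -Complex.I * ((τ : ℂ) / 2) = w := by
    rw [hwdef]
    field_simp
    ring_nf
    simp [Complex.I_sq]
  have hw2 : -Complex.I * (2 * (τ : ℂ)) = 4 * w := by
    rw [← hw1]; ring
  have hwre : 0 < w.re := by
    rw [← hw1]
    have : (-Complex.I * ((τ : ℂ) / 2)).re = τ.im / 2 := by
      rw [show -Complex.I * ((τ : ℂ) / 2) = (-(Complex.I * (τ : ℂ))) / ((2 : ℝ) : ℂ) by
        push_cast; ring, Complex.div_ofReal_re]
      simp
    rw [this]
    have := τ.im_pos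
    linarith
  have hw0 : w ≠ 0 := by
    intro h
    rw [h] at hwre
    simp at hwre
  have hwc : w ^ (1 / 2 : ℂ) ≠ 0 := by
    rw [Complex.cpow_ne_zero_iff]
    exact Or.inl hw0
  have e1 := jacobiTheta₂_functional_equation z ((τ : ℂ) / 2)
  have e2 := jacobiTheta₂_functional_equation (2 * z) (2 * (τ : ℂ))
  rw [theta_half, hw1, show z / ((τ : ℂ) / 2) = 2 * (z / (τ : ℂ)) by field_simp,
    show -1 / ((τ : ℂ) / 2) = 2 * ((mob mS τ : ℍ) : ℂ) by rw [coe_mob_mS]; field_simp,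
    ← th_zero_eq,
    show -(Real.pi : ℂ) * Complex.I * z ^ 2 / ((τ : ℂ) / 2) =
      2 * (Real.pi : ℂ) * Complex.I * (-(z ^ 2 / (τ : ℂ))) by field_simp] at e1
  rw [← th_zero_eq, hw2, show 2 * z / (2 * (τ : ℂ)) = z / (τ : ℂ) by field_simp,
    show -1 / (2 * (τ : ℂ)) = ((mob mS τ : ℍ) : ℂ) / 2 by rw [coe_mob_mS]; field_simp,
    theta_half,
    show -(Real.pi : ℂ) * Complex.I * (2 * z) ^ 2 / (2 * (τ : ℂ)) =
      2 * (Real.pi : ℂ) * Complex.I * (-(z ^ 2 / (τ : ℂ))) by field_simp,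
    sqrt_four w hwre] at e2
  change _ = _ * ee (-(z ^ 2 / (τ : ℂ))) * _ at e1
  change _ = _ * ee (-(z ^ 2 / (τ : ℂ))) * _ at e2
  have f1 : ee (-(z ^ 2 / (τ : ℂ))) * th 0 (mob mS τ) (z / (τ : ℂ)) =
      w ^ (1 / 2 : ℂ) * (th 0 τ z + th 1 τ z) := by
    rw [e1]
    field_simp
  have f2 : ee (-(z ^ 2 / (τ : ℂ))) * (th 0 (mob mS τ) (z / (τ : ℂ)) +
      th 1 (mob mS τ) (z / (τ : ℂ))) = 2 * w ^ (1 / 2 : ℂ) * th 0 τ z := by
    rw [e2]
    field_simp
  fin_cases r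
  · simp only [Fin.zero_eta, Fin.isValue, zero_mul, pow_zero, one_mul,
      Fin.sum_univ_two]
    exact f1
  · simp only [Fin.mk_one, Fin.isValue, Fin.val_one, one_mul, Fin.sum_univ_two, Fin.val_zero,
      pow_zero, pow_one]
    linear_combination f2 - f1

end MP836e4b.P
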