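/-
MODULE SWSc (size M), board mod836, MP_836e4b_nt, folder Work/MP_836e4b_nt/P. Keep the statements verbatim, helper lemmas private.
The theta polynomials are E₄, E₆, Δ. x = th 0 τ 0, y = th 1 τ 0. T: (x, iy); S: w(x+y), w(x-y), w = (τ/2i)^(1/2), w² = τ/(2i)
(th_S at z = 0). e4p(x+y,x-y) = 16 e4p(x,y), e6p(x+y,x-y) = -64 e6p(x,y), dlp(x+y,x-y) = 4096 dlp(x,y) (ring), so e4p, e6p, dlp are
level one forms of weights 4, 6, 12 (exists_form; bounded since x, y are). M_4, M_6 have rank one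
(levelOne_weight_four_rank_one, six) and the value at i∞ is 1 for both (th0_tendsto, th 1 -> 0): equal to E₄, E₆ (E_ne_zero,
E_qExpansion_coeff_zero). dlp vanishes at ∞: multiple of discriminant (exists_smul_discriminant_of_weight_eq_twelve), or
algebraically: dlp = (e4p³ - e6p²)/1728 (ring) and discriminant_eq_E₄_cube_sub_E₆_sq.
-/
import Mathlib
import Pool.Agent.Work.MP_836e4b_nt.P.Defs
import Pool.Agent.Work.MP_836e4b_nt.P.SWSa
import Pool.Agent.Work.MP_836e4b_nt.P.SWSb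
import Pool.Agent.Work.MP_836e4b_nt.P.ThS

open UpperHalfPlane Complex
open scoped MatrixGroups ComplexConjugate Matrix

namespace MP836e4b.P

open scoped Manifold Topology
open Filter

private theorem sw_ee : Tendsto (fun τ : ℍ ↦ ee ((τ : ℂ) / 4)) atImInfty (𝓝 0) := by
  rw [tendsto_zero_iff_norm_tendsto_zero]
  have h1 : ∀ τ : ℍ, ‖ee ((τ : ℂ) / 4)‖ = Real.exp (-(Real.pi / 2 * τ.im)) := by
    intro τ
    rw [norm_ee]
    congr 1
    have h2 : ((τ : ℂ) / 4).im = τ.im / 4 := by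
      have : (τ : ℂ) / 4 = (τ : ℂ) * ((1 / 4 : ℝ) : ℂ) := by
        push_cast
        ring
      rw [this, Complex.im_mul_ofReal, UpperHalfPlane.coe_im]
      ring
    rw [h2]
    ring
  simp_rw [h1]
  have h3 : Tendsto (fun τ : ℍ ↦ Real.pi / 2 * τ.im) atImInfty atTop :=
    Tendsto.const_mul_atTop (by positivity) tendsto_comap
  exact Real.tendsto_exp_neg_atTop_nhds_zero.comp h3

private theorem sw_y : Tendsto (fun τ : ℍ ↦ th 1 τ 0) atImInfty (𝓝 0) := by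
  have h1 := sw_ee.mul th1_tendsto
  rw [zero_mul] at h1
  refine h1.congr fun τ ↦ ?_
  rw [← mul_assoc, ← ee_add, add_neg_cancel, ee_zero, one_mul]

private theorem sw_T (r : Fin 2) (τ : ℍ) :
    th r (mob (mT 1) τ) 0 = ee (((r : ℕ) : ℂ) / 4) * th r τ 0 := by
  have h := th_T r 1 τ 0
  rwa [Int.cast_one, mul_one] at h

private theorem sw_T0 (τ : ℍ) : th 0 (mob (mT 1) τ) 0 = th 0 τ 0 := by
  rw [sw_T]
  simp [ee_zero]

private theorem sw_T1 (τ : ℍ) : th 1 (mob (mT 1) τ) 0 ^ 4 = th 1 τ 0 ^ 4 := by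
  rw [sw_T, mul_pow]
  have h1 : ee ((((1 : Fin 2) : ℕ) : ℂ) / 4) ^ 4 = 1 := by
    have h2 : ee ((((1 : Fin 2) : ℕ) : ℂ) / 4) ^ 4 = ee (((1 : ℤ) : ℂ)) := by
      have h3 : (((1 : ℤ) : ℂ)) = (1 / 4 : ℂ) + 1 / 4 + 1 / 4 + 1 / 4 := by
        push_cast
        norm_num
      rw [h3, ee_add, ee_add, ee_add]
      simp only [Fin.val_one, Nat.cast_one]
      ring
    rw [h2, ee_intCast]
  rw [h1, one_mul]

/-- the square root -/
private noncomputable def sw_w (τ : ℍ) : ℂ := ((τ : ℂ) / (2 * Complex.I)) ^ (1 / 2 : ℂ)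

private theorem sw_w2 (τ : ℍ) : sw_w τ ^ 2 = (τ : ℂ) / (2 * Complex.I) := by
  unfold sw_w
  rw [← Complex.cpow_mul_nat]
  norm_num

private theorem sw_S0 (τ : ℍ) : th 0 (mob mS τ) 0 = sw_w τ * (th 0 τ 0 + th 1 τ 0) := by
  have h := th_S 0 τ 0
  have h1 : -((0 : ℂ) ^ 2 / (τ : ℂ)) = 0 := by simp
  rw [h1, ee_zero, one_mul, zero_div] at h
  rw [h, Fin.sum_univ_two]
  simp [sw_w]

private theorem sw_S1 (τ : ℍ) : th 1 (mob mS τ) 0 = sw_w τ * (th 0 τ 0 - th 1 τ 0) := by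
  have h := th_S 1 τ 0
  have h1 : -((0 : ℂ) ^ 2 / (τ : ℂ)) = 0 := by simp
  rw [h1, ee_zero, one_mul, zero_div] at h
  rw [h, Fin.sum_univ_two]
  simp only [Fin.val_zero, Fin.val_one, mul_zero, mul_one, pow_zero, pow_one, one_mul]
  unfold sw_w
  ring

private theorem sw_unique {k : ℕ} (hk : 3 ≤ k) (hk2 : Even k)
    (hr : Module.rank ℂ (ModularForm 𝒮ℒ (k : ℤ)) = 1) (F : ModularForm 𝒮ℒ (k : ℤ))
    (hF : Tendsto (fun τ ↦ F τ) atImInfty (𝓝 1)) : F = ModularForm.E hk := by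
  obtain ⟨c, hc⟩ : ∃ c : ℂ, c • ModularForm.E hk = F :=
    (finrank_eq_one_iff_of_nonzero' _ (EisensteinSeries.E_ne_zero hk hk2)).mp
      (Module.rank_eq_one_iff_finrank_eq_one.mp hr) F
  have h1 : (qExpansion 1 F).coeff 0 = valueAtInfty F :=
    qExpansion_coeff_zero one_pos
      (ModularFormClass.analyticAt_cuspFunction_zero F one_pos one_mem_strictPeriods_SL)
      (SlashInvariantFormClass.periodic_comp_ofComplex F one_mem_strictPeriods_SL)
  have h2 : valueAtInfty F = 1 := hF.limUnder_eq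
  have h3 : qExpansion 1 F = c • qExpansion 1 (ModularForm.E hk) := by
    rw [← ModularForm.qExpansion_smul one_pos one_mem_strictPeriods_SL c (ModularForm.E hk),
      show (c • (ModularForm.E hk : ℍ → ℂ)) = (F : ℍ → ℂ) from congrArg DFunLike.coe hc]
  have h4 : c = 1 := by
    have h5 := h1
    rw [h2, h3, PowerSeries.coeff_smul, EisensteinSeries.E_qExpansion_coeff_zero hk hk2,
      smul_eq_mul, mul_one] at h5
    exact h5
  rw [← hc, h4, one_smul]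

private theorem sw_x_diff :
    DifferentiableOn ℂ ((fun τ : ℍ ↦ th 0 τ 0) ∘ ofComplex) {z | 0 < z.im} :=
  UpperHalfPlane.mdifferentiable_iff.1 (th_mdiff 0)

private theorem sw_y_diff :
    DifferentiableOn ℂ ((fun τ : ℍ ↦ th 1 τ 0) ∘ ofComplex) {z | 0 < z.im} :=
  UpperHalfPlane.mdifferentiable_iff.1 (th_mdiff 1)

theorem e4p_eq (τ : ℍ) : e4p (th 0 τ 0) (th 1 τ 0) = ModularForm.E₄ τ := by
  have hlim : Tendsto (fun τ : ℍ ↦ e4p (th 0 τ 0) (th 1 τ 0)) atImInfty (𝓝 1) := by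
    have h := ((th0_tendsto.pow 8).add (((th0_tendsto.pow 4).const_mul 14).mul (sw_y.pow 4))).add
      (sw_y.pow 8)
    have e : (1 : ℂ) ^ 8 + 14 * 1 ^ 4 * 0 ^ 4 + 0 ^ 8 = 1 := by norm_num
    rw [e] at h
    exact h
  obtain ⟨F, hF⟩ := exists_form 4 (fun τ : ℍ ↦ e4p (th 0 τ 0) (th 1 τ 0))
    (by
      rw [UpperHalfPlane.mdifferentiable_iff]
      exact ((sw_x_diff.pow 8).add (((sw_x_diff.pow 4).const_mul 14).mul (sw_y_diff.pow 4))).add
        (sw_y_diff.pow 8))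
    (by
      intro τ
      change e4p (th 0 (mob (mT 1) τ) 0) (th 1 (mob (mT 1) τ) 0) = e4p (th 0 τ 0) (th 1 τ 0)
      have h8 : ∀ y : ℂ, y ^ 8 = (y ^ 4) ^ 2 := fun y ↦ by ring
      unfold e4p
      rw [h8 (th 1 (mob (mT 1) τ) 0), sw_T1, sw_T0]
      ring)
    (by
      intro τ
      change e4p (th 0 (mob mS τ) 0) (th 1 (mob mS τ) 0) = (τ : ℂ) ^ 4 * e4p (th 0 τ 0) (th 1 τ 0)
      rw [sw_S0, sw_S1]
      have h1 : ∀ w x y : ℂ, e4p (w * (x + y)) (w * (x - y)) = (w ^ 2) ^ 4 * 16 * e4p x y := by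
        intro w x y
        unfold e4p
        ring
      rw [h1, sw_w2, div_pow, mul_pow]
      have h2 : Complex.I ^ 4 = 1 := Complex.I_pow_four
      rw [h2]
      ring)
    (hlim.isBigO_one ℝ)
  have hu := sw_unique (k := 4) (by norm_num) ⟨2, rfl⟩ ModularForm.levelOne_weight_four_rank_one F
    (hlim.congr fun τ ↦ (hF τ).symm)
  rw [← hF τ, hu]

theorem e6p_eq (τ : ℍ) : e6p (th 0 τ 0) (th 1 τ 0) = ModularForm.E₆ τ := by
  have hlim : Tendsto (fun τ : ℍ ↦ e6p (th 0 τ 0) (th 1 τ 0)) atImInfty (𝓝 1) := by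
    have h := (((th0_tendsto.pow 12).sub (((th0_tendsto.pow 8).const_mul 33).mul
      (sw_y.pow 4))).sub (((th0_tendsto.pow 4).const_mul 33).mul (sw_y.pow 8))).add (sw_y.pow 12)
    have e : (1 : ℂ) ^ 12 - 33 * 1 ^ 8 * 0 ^ 4 - 33 * 1 ^ 4 * 0 ^ 8 + 0 ^ 12 = 1 := by norm_num
    rw [e] at h
    exact h
  obtain ⟨F, hF⟩ := exists_form 6 (fun τ : ℍ ↦ e6p (th 0 τ 0) (th 1 τ 0))
    (by
      rw [UpperHalfPlane.mdifferentiable_iff]
      exact (((sw_x_diff.pow 12).sub (((sw_x_diff.pow 8).const_mul 33).mul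
        (sw_y_diff.pow 4))).sub (((sw_x_diff.pow 4).const_mul 33).mul (sw_y_diff.pow 8))).add
          (sw_y_diff.pow 12))
    (by
      intro τ
      change e6p (th 0 (mob (mT 1) τ) 0) (th 1 (mob (mT 1) τ) 0) = e6p (th 0 τ 0) (th 1 τ 0)
      have h8 : ∀ y : ℂ, y ^ 8 = (y ^ 4) ^ 2 := fun y ↦ by ring
      have h12 : ∀ y : ℂ, y ^ 12 = (y ^ 4) ^ 3 := fun y ↦ by ring
      unfold e6p
      rw [h8 (th 1 (mob (mT 1) τ) 0), h12 (th 1 (mob (mT 1) τ) 0), sw_T1, sw_T0]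
      ring)
    (by
      intro τ
      change e6p (th 0 (mob mS τ) 0) (th 1 (mob mS τ) 0) = (τ : ℂ) ^ 6 * e6p (th 0 τ 0) (th 1 τ 0)
      rw [sw_S0, sw_S1]
      have h1 : ∀ w x y : ℂ, e6p (w * (x + y)) (w * (x - y)) = (w ^ 2) ^ 6 * (-64) * e6p x y := by
        intro w x y
        unfold e6p
        ring
      rw [h1, sw_w2, div_pow, mul_pow]
      have h2 : Complex.I ^ 6 = -1 := by
        have : Complex.I ^ 6 = (Complex.I ^ 2) ^ 3 := by ring
        rw [this, Complex.I_sq]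
        norm_num
      rw [h2]
      ring)
    (hlim.isBigO_one ℝ)
  have hu := sw_unique (k := 6) (by norm_num) ⟨3, rfl⟩ ModularForm.levelOne_weight_six_rank_one F
    (hlim.congr fun τ ↦ (hF τ).symm)
  rw [← hF τ, hu]

theorem dlp_eq (τ : ℍ) : dlp (th 0 τ 0) (th 1 τ 0) = ModularForm.discriminant τ := by
  rw [ModularForm.discriminant_eq_E₄_cube_sub_E₆_sq, ← e4p_eq, ← e6p_eq]
  unfold dlp e4p e6p
  ring

theorem dlp_ne (τ : ℍ) : dlp (th 0 τ 0) (th 1 τ 0) ≠ 0 := by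
  rw [dlp_eq]
  exact ModularForm.discriminant_ne_zero τ

end MP836e4b.P
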