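/-
MODULE SWSd (size M), board mod836, MP_836e4b_nt, folder Work/MP_836e4b_nt/P. Keep the statements verbatim, helper lemmas private.
Level one forms are polynomials in E₄, E₆ (PURE MATHLIB). Strong induction on k: odd k: zero (levelOne_odd_weight_eq_zero);
k = 0: constant (levelOne_weight_zero_const); k = 2: zero (levelOne_weight_two_rank_zero); k ≥ 4 even: k = 4a+6a' for some
a, a'; f - f(i∞) E₄^a E₆^a' is a cusp form = Δ g with g of weight k-12 (CuspForm.discriminantEquiv; negative weight: zero), and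
Δ = (E₄³-E₆²)/1728 (discriminant_eq_E₄_cube_sub_E₆_sq), induction for g.
-/
import Mathlib
import Pool.Agent.Work.MP_836e4b_nt.P.Defs

open UpperHalfPlane Complex
open scoped MatrixGroups ComplexConjugate Matrix

namespace MP836e4b.P

/-- The span of the monomials. -/
private def Sp (k : ℕ) : Submodule ℂ (ℍ → ℂ) :=
  Submodule.span ℂ {g | ∃ a a' : ℕ, 4 * a + 6 * a' = k ∧
    g = fun τ ↦ ModularForm.E₄ τ ^ a * ModularForm.E₆ τ ^ a'}

private theorem Sp_gen (k a a' : ℕ) (h : 4 * a + 6 * a' = k) :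
    (fun τ : ℍ ↦ ModularForm.E₄ τ ^ a * ModularForm.E₆ τ ^ a') ∈ Sp k :=
  Submodule.subset_span ⟨a, a', h, rfl⟩

private theorem Sp_mul (k i j : ℕ) (g : ℍ → ℂ) (hg : g ∈ Sp k) :
    (fun τ ↦ (ModularForm.E₄ τ ^ i * ModularForm.E₆ τ ^ j) * g τ) ∈ Sp (k + 4 * i + 6 * j) := by
  let φ : (ℍ → ℂ) →ₗ[ℂ] (ℍ → ℂ) :=
    { toFun := fun g τ ↦ (ModularForm.E₄ τ ^ i * ModularForm.E₆ τ ^ j) * g τ
      map_add' := by
        intro g h
        funext τ
        simp only [Pi.add_apply]
        ring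
      map_smul' := by
        intro c g
        funext τ
        simp only [Pi.smul_apply, smul_eq_mul, RingHom.id_apply]
        ring }
  have h : Sp k ≤ (Sp (k + 4 * i + 6 * j)).comap φ := by
    refine Submodule.span_le.mpr ?_
    rintro _ ⟨a, a', h, rfl⟩
    refine Submodule.subset_span ⟨a + i, a' + j, by omega, ?_⟩
    funext τ
    show (ModularForm.E₄ τ ^ i * ModularForm.E₆ τ ^ j) *
      (ModularForm.E₄ τ ^ a * ModularForm.E₆ τ ^ a') = _
    ring
  exact h hg

private theorem EE_exists (k a a' : ℕ) (h : 4 * a + 6 * a' = k) :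
    ∃ G : ModularForm 𝒮ℒ (k : ℤ), (∀ τ, G τ = ModularForm.E₄ τ ^ a * ModularForm.E₆ τ ^ a') ∧
      (qExpansion 1 G).coeff 0 = 1 := by
  have h1 := EisensteinSeries.E_qExpansion_coeff_zero (k := 4) (by norm_num) ⟨2, rfl⟩
  have h2 := EisensteinSeries.E_qExpansion_coeff_zero (k := 6) (by norm_num) ⟨3, rfl⟩
  have hw : ((a : ℤ) * 4 + (a' : ℤ) * 6) = (k : ℤ) := by
    rw [← h]; push_cast; ring
  refine ⟨ModularForm.mcast hw ((ModularForm.E₄.pow a).mul (ModularForm.E₆.pow a')), ?_, ?_⟩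
  · intro τ
    simp
  · rw [ModularForm.coe_mcast, ModularForm.qExpansion_mul one_pos
      one_mem_strictPeriods_SL,
      ModularForm.qExpansion_pow one_pos one_mem_strictPeriods_SL,
      ModularForm.qExpansion_pow one_pos one_mem_strictPeriods_SL]
    rw [PowerSeries.coeff_zero_eq_constantCoeff] at h1 h2 ⊢
    rw [map_mul, map_pow, map_pow]
    rw [h1, h2]
    simp

private theorem mem_Sp (k : ℕ) : ∀ F : ModularForm 𝒮ℒ (k : ℤ), (F : ℍ → ℂ) ∈ Sp k := by
  induction k using Nat.strong_induction_on with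
  | _ k ih =>
  intro F
  rcases Nat.even_or_odd k with hk | hk
  · by_cases h0 : k = 0
    · subst h0
      obtain ⟨c, hc⟩ := ModularFormClass.levelOne_weight_zero_const
        (ModularForm.mcast (b := 0) (by simp) F)
      rw [ModularForm.coe_mcast] at hc
      rw [hc]
      have := (Sp 0).smul_mem c (Sp_gen 0 0 0 rfl)
      have h3 : (c • fun τ : ℍ ↦ ModularForm.E₄ τ ^ 0 * ModularForm.E₆ τ ^ 0) =
          Function.const ℍ c := by
        funext τ
        simp
      rw [← h3]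
      exact this
    by_cases h2 : k = 2
    · subst h2
      have := rank_zero_iff_forall_zero.mp ModularForm.levelOne_weight_two_rank_zero
        (ModularForm.mcast (b := 2) (by simp) F)
      rw [ModularForm.mcast_eq_zero_iff] at this
      rw [this]
      exact (Sp 2).zero_mem
    obtain ⟨a, a', haa⟩ : ∃ a a' : ℕ, 4 * a + 6 * a' = k := by
      obtain ⟨m, hm⟩ := hk
      rcases Nat.even_or_odd m with ⟨n, hn⟩ | ⟨n, hn⟩
      · exact ⟨n, 0, by omega⟩
      · exact ⟨n - 1, 1, by omega⟩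
    obtain ⟨G, hG, hG1⟩ := EE_exists k a a' haa
    obtain ⟨c, hc⟩ : ∃ c, c = (qExpansion 1 F).coeff 0 := ⟨_, rfl⟩
    have hq : (qExpansion 1 (F - c • G : ModularForm 𝒮ℒ (k : ℤ))).coeff 0 = 0 := by
      rw [FunLike.coe_sub, ModularForm.qExpansion_sub one_pos
        one_mem_strictPeriods_SL, FunLike.coe_smul,
        ModularForm.qExpansion_smul one_pos one_mem_strictPeriods_SL, map_sub,
        PowerSeries.coeff_smul, hG1, ← hc]
      simp
    obtain ⟨g, hg⟩ : ∃ g, g = CuspForm.discriminantEquiv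
      (ModularForm.toCuspForm (F - c • G : ModularForm 𝒮ℒ (k : ℤ)) hq) := ⟨_, rfl⟩
    have hgz : ∀ τ : ℍ, F τ = c * G τ + ModularForm.discriminant τ * g τ := by
      intro τ
      rw [hg, ModularForm.discriminant_mul_discriminantEquiv_apply]
      simp
    have hF1 : (c • fun τ : ℍ ↦ ModularForm.E₄ τ ^ a * ModularForm.E₆ τ ^ a') ∈ Sp k :=
      (Sp k).smul_mem c (Sp_gen k a a' haa)
    have hG' : ∀ τ : ℍ, (c • fun τ : ℍ ↦ ModularForm.E₄ τ ^ a * ModularForm.E₆ τ ^ a') τ = c * G τ := by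
      intro τ
      rw [hG]
      rfl
    rcases Nat.lt_or_ge k 12 with hlt | hge
    · have hg0 : ((k : ℤ) - 12) < 0 := by omega
      have h3 := ModularFormClass.levelOne_neg_weight_eq_zero hg0 g
      have h4 : (F : ℍ → ℂ) = c • fun τ : ℍ ↦ ModularForm.E₄ τ ^ a * ModularForm.E₆ τ ^ a' := by
        funext τ
        rw [hgz, hG', h3]
        simp
      rw [h4]
      exact hF1
    · have hg1 := ih (k - 12) (by omega) (ModularForm.mcast (by omega) g)
      rw [ModularForm.coe_mcast] at hg1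
      have h5 := Sp_mul _ 3 0 _ hg1
      have h6 := Sp_mul _ 0 2 _ hg1
      have hk1 : k - 12 + 4 * 3 + 6 * 0 = k := by omega
      have hk2 : k - 12 + 4 * 0 + 6 * 2 = k := by omega
      rw [hk1] at h5
      rw [hk2] at h6
      have h7 := (Sp k).add_mem hF1 ((Sp k).smul_mem (1 / 1728 : ℂ) ((Sp k).sub_mem h5 h6))
      have h4 : (F : ℍ → ℂ) = (c • fun τ : ℍ ↦ ModularForm.E₄ τ ^ a * ModularForm.E₆ τ ^ a') +
          (1 / 1728 : ℂ) • ((fun τ ↦ (ModularForm.E₄ τ ^ 3 * ModularForm.E₆ τ ^ 0) * g τ) -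
            fun τ ↦ (ModularForm.E₄ τ ^ 0 * ModularForm.E₆ τ ^ 2) * g τ) := by
        funext τ
        rw [Pi.add_apply, hG', hgz, ModularForm.discriminant_eq_E₄_cube_sub_E₆_sq]
        simp only [Pi.smul_apply, Pi.sub_apply, smul_eq_mul]
        ring
      rw [h4]
      exact h7
  · have := ModularForm.levelOne_odd_weight_eq_zero (by exact_mod_cast hk) F
    rw [this]
    exact (Sp k).zero_mem

theorem span_E4_E6 (k : ℕ) (F : ModularForm 𝒮ℒ (k : ℤ)) :
    ∃ α : ℕ → ℕ → ℂ, ∀ τ : ℍ, F τ = ∑ a ∈ Finset.range (k / 4 + 1), ∑ a' ∈ Finset.range (k / 6 + 1),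
      if 4 * a + 6 * a' = k then α a a' * (ModularForm.E₄ τ ^ a * ModularForm.E₆ τ ^ a') else 0 := by
  have key : ∀ f : ℍ → ℂ, f ∈ Sp k → ∃ α : ℕ → ℕ → ℂ, ∀ τ : ℍ, f τ =
      ∑ a ∈ Finset.range (k / 4 + 1), ∑ a' ∈ Finset.range (k / 6 + 1),
      if 4 * a + 6 * a' = k then α a a' * (ModularForm.E₄ τ ^ a * ModularForm.E₆ τ ^ a') else 0 := by
    intro f hf
    induction hf using Submodule.span_induction with
    | mem f hf =>
      obtain ⟨a, a', h, rfl⟩ := hf
      refine ⟨fun i j ↦ if i = a ∧ j = a' then 1 else 0, fun τ ↦ ?_⟩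
      rw [Finset.sum_eq_single a, Finset.sum_eq_single a']
      · simp [h]
      · intro b _ hb
        simp [hb]
      · intro hn
        exact absurd (Finset.mem_range.mpr (by omega)) hn
      · intro b _ hb
        refine Finset.sum_eq_zero fun b' _ ↦ ?_
        simp [hb]
      · intro hn
        exact absurd (Finset.mem_range.mpr (by omega)) hn
    | zero => exact ⟨fun _ _ ↦ 0, fun τ ↦ by simp⟩
    | add f g _ _ hf hg =>
      obtain ⟨α, hα⟩ := hf
      obtain ⟨β, hβ⟩ := hg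
      refine ⟨fun i j ↦ α i j + β i j, fun τ ↦ ?_⟩
      rw [Pi.add_apply, hα, hβ, ← Finset.sum_add_distrib]
      refine Finset.sum_congr rfl fun a _ ↦ ?_
      rw [← Finset.sum_add_distrib]
      refine Finset.sum_congr rfl fun a' _ ↦ ?_
      split_ifs
      · ring
      · ring
    | smul c f _ hf =>
      obtain ⟨α, hα⟩ := hf
      refine ⟨fun i j ↦ c * α i j, fun τ ↦ ?_⟩
      rw [Pi.smul_apply, hα, smul_eq_mul, Finset.mul_sum]
      refine Finset.sum_congr rfl fun a _ ↦ ?_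
      rw [Finset.mul_sum]
      refine Finset.sum_congr rfl fun a' _ ↦ ?_
      split_ifs
      · ring
      · ring
  exact key _ (mem_Sp k F)

end MP836e4b.P
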