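/-
MODULE SWSe (size M-L), board mod836, MP_836e4b_nt, folder Work/MP_836e4b_nt/P. Keep the statements verbatim, helper lemmas private.
Structure theorem. (b1,b2) = (0,2) (κ even) or (3,5) (κ odd), B_i = bas b_i (x,y). det(B1,B2) = -6xy(x⁴-y⁴) resp.
-18 (xy(x⁴-y⁴))³ (ring); its 4th power is a nonzero multiple of a power of dlp (dlp = (xy(x⁴-y⁴))⁴/16), nonzero by dlp_ne.
f1 = det(h,B2)/det(B1,B2), f2 = det(B1,h)/det(B1,B2), det(u,v) = u_0 v_1 - u_1 v_0: h = f1 B1 + f2 B2 (Cramer).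
T: h_1 and B_1 components get the same factor; S: h(-1/τ) and B_i(-1/τ) are the same constant matrix applied up to the
automorphy factors (from sl κ 1 S h = h and tf_inv for (b_i,0,0,0): E κ 1 S depends only on the parity of κ), so f_i(-1/τ) =
τ^(κ-b_i) f_i(τ), f_i(τ+1) = f_i(τ). (κ ≥ 5 ≥ b_i, so the weights are ≥ 0.) Bounded at ∞: |det(B1,B2)| ~ c|t| (κ even)
resp. c|t|³ (κ odd) (th0_tendsto, th1_tendsto) and |det(h,B_i)| ≤ C|t| resp. |t|³ (hasE_growth; t = e(τ/4)).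
exists_form + span_E4_E6 + e4p_eq, e6p_eq: f_i = ∑ α E₄^a E₆^a'. mem_idx describes idx κ.
-/
import Mathlib
import Pool.Agent.Work.MP_836e4b_nt.P.Defs
import Pool.Agent.Work.MP_836e4b_nt.P.SWSc
import Pool.Agent.Work.MP_836e4b_nt.P.SWSd
import Pool.Agent.Work.MP_836e4b_nt.P.Tf2
import Pool.Agent.Work.MP_836e4b_nt.P.SlG
import Pool.Agent.Work.MP_836e4b_nt.P.SWDef

open UpperHalfPlane Complex
open scoped MatrixGroups ComplexConjugate Matrix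

namespace MP836e4b.P

private theorem sw_E (κ b : ℕ) (hp : Even κ ↔ Even b) (A : Mat) (τ : ℍ) :
    E κ 1 A τ = E b 1 A τ := by
  unfold E
  by_cases h : Even κ
  · rw [if_pos h, if_pos (hp.mp h)]
  · rw [if_neg h, if_neg (fun h' ↦ h (hp.mpr h'))]

private theorem sw_Edet (κ : ℕ) (γ : SL(2, ℤ)) (τ : ℍ) : (E κ 1 (γ : Mat) τ).det ≠ 0 := by
  have hj : jf (γ : Mat) τ ≠ 0 := jf_ne_zero _ (by rw [γ.det_coe]; exact one_ne_zero) τ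
  have hM := M_det_ne γ τ
  unfold E
  split_ifs
  · rw [Matrix.det_smul, Matrix.det_conjTranspose]
    refine mul_ne_zero (pow_ne_zero _ (inv_ne_zero ?_)) (star_ne_zero.mpr hM)
    exact_mod_cast norm_ne_zero_iff.mpr hj
  · rw [Matrix.det_smul, Matrix.det_transpose]
    exact mul_ne_zero (pow_ne_zero _ (inv_ne_zero hj)) hM

private theorem sw_comp (κ : ℕ) (γ : SL(2, ℤ)) (u : VF) (hu : sl κ 1 (γ : Mat) u = u) (τ : ℍ)
    (r : Fin 2) : u τ r = ((jf (γ : Mat) τ) ^ κ)⁻¹ *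
      (E κ 1 (γ : Mat) τ r 0 * u (mob (γ : Mat) τ) 0 +
        E κ 1 (γ : Mat) τ r 1 * u (mob (γ : Mat) τ) 1) := by
  have h := congrFun (congrFun hu τ) r
  calc u τ r = sl κ 1 (γ : Mat) u τ r := h.symm
    _ = _ := by
      unfold sl
      rw [Pi.smul_apply, smul_eq_mul]
      congr 1
      simp [Matrix.mulVec, dotProduct, Fin.sum_univ_two]

private theorem sw_det (κ b : ℕ) (hp : Even κ ↔ Even b) (γ : SL(2, ℤ)) (u v : VF)
    (hu : sl κ 1 (γ : Mat) u = u) (hv : sl b 1 (γ : Mat) v = v) (τ : ℍ) :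
    u τ 0 * v τ 1 - u τ 1 * v τ 0 = ((jf (γ : Mat) τ) ^ κ)⁻¹ * ((jf (γ : Mat) τ) ^ b)⁻¹ *
      (E κ 1 (γ : Mat) τ).det * (u (mob (γ : Mat) τ) 0 * v (mob (γ : Mat) τ) 1 -
        u (mob (γ : Mat) τ) 1 * v (mob (γ : Mat) τ) 0) := by
  rw [sw_comp κ γ u hu τ 0, sw_comp κ γ u hu τ 1, sw_comp b γ v hv τ 0, sw_comp b γ v hv τ 1,
    ← sw_E κ b hp, Matrix.det_fin_two]
  ring

private theorem sw_tf (b : ℕ) (τ : ℍ) (r : Fin 2) :
    tf b 0 0 0 τ r = bas b (th 0 τ 0) (th 1 τ 0) r := by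
  unfold tf
  ring

private theorem sw_tfinv (b : ℕ) (hb : b = 0 ∨ b = 2 ∨ b = 3 ∨ b = 5) (γ : SL(2, ℤ)) :
    sl b 1 (γ : Mat) (tf b 0 0 0) = tf b 0 0 0 := by
  have h := tf_inv b 0 0 0 hb γ
  simp only [mul_zero, add_zero] at h
  exact h

private theorem sw_u_ne (τ : ℍ) :
    th 0 τ 0 * th 1 τ 0 * (th 0 τ 0 ^ 4 - th 1 τ 0 ^ 4) ≠ 0 := by
  intro h
  apply dlp_ne τ
  unfold dlp
  rcases mul_eq_zero.mp h with h | h
  · rcases mul_eq_zero.mp h with h | h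
    · rw [h]
      ring
    · rw [h]
      ring
  · rw [h]
    ring

private theorem sw_bas_diff (b : ℕ) (r : Fin 2) {F G : ℂ → ℂ} {U : Set ℂ}
    (hF : DifferentiableOn ℂ F U) (hG : DifferentiableOn ℂ G U) :
    DifferentiableOn ℂ (fun z ↦ bas b (F z) (G z) r) U := by
  unfold bas
  split_ifs <;> fin_cases r <;> simp <;> fun_prop

private theorem sw_bas_cont (b : ℕ) (r : Fin 2) :
    Continuous (fun p : ℂ × ℂ ↦ bas b p.1 p.2 r) := by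
  unfold bas
  split_ifs <;> fin_cases r <;> simp <;> fun_prop

private theorem sw_im : Filter.Tendsto (fun τ : ℍ ↦ τ.im) UpperHalfPlane.atImInfty
    Filter.atTop := Filter.tendsto_comap

private theorem sw_t : Filter.Tendsto (fun τ : ℍ ↦ ee ((τ : ℂ) / 4)) UpperHalfPlane.atImInfty
    (nhds 0) := by
  rw [tendsto_zero_iff_norm_tendsto_zero]
  have h1 : ∀ τ : ℍ, ‖ee ((τ : ℂ) / 4)‖ = Real.exp (-(Real.pi / 2 * τ.im)) := by
    intro τ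
    rw [norm_ee]
    congr 1
    have h2 : ((τ : ℂ) / 4).im = τ.im / 4 := by
      rw [show (τ : ℂ) / 4 = (τ : ℂ) / ((4 : ℝ) : ℂ) by norm_num, Complex.div_ofReal_im]
      rfl
    rw [h2]
    ring
  simp_rw [h1]
  refine Real.tendsto_exp_neg_atTop_nhds_zero.comp ?_
  exact Filter.Tendsto.const_mul_atTop (by positivity) sw_im

private theorem sw_y : Filter.Tendsto (fun τ : ℍ ↦ th 1 τ 0) UpperHalfPlane.atImInfty
    (nhds 0) := by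
  have h := th1_tendsto.mul sw_t
  rw [mul_zero] at h
  refine h.congr fun τ ↦ ?_
  have h1 : ee (-((τ : ℂ) / 4)) * ee ((τ : ℂ) / 4) = 1 := by
    rw [← ee_add, neg_add_cancel, ee_zero]
  linear_combination (th 1 τ 0) * h1

private theorem sw_bas_lim (b : ℕ) (r : Fin 2) :
    Filter.Tendsto (fun τ : ℍ ↦ bas b (th 0 τ 0) (th 1 τ 0) r) UpperHalfPlane.atImInfty
      (nhds (bas b 1 0 r)) := by
  have h1 : Filter.Tendsto (fun τ : ℍ ↦ (th 0 τ 0, th 1 τ 0)) UpperHalfPlane.atImInfty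
      (nhds ((1, 0) : ℂ × ℂ)) := th0_tendsto.prodMk_nhds sw_y
  have h2 := (sw_bas_cont b r).tendsto ((1, 0) : ℂ × ℂ)
  have h3 := Filter.Tendsto.comp h2 h1
  simp only [Function.comp_def] at h3
  exact h3

private theorem sw_growth (κ : ℕ) (c : ℕ → ℂ) (h : VF) (H : HasE κ c h) (cc : ℕ)
    (hcc : cls κ 1 = cc) (hcc4 : cc ≤ 4) (r : Fin 2) :
    (fun τ : ℍ ↦ h τ r * ee (-((τ : ℂ) / 4)) ^ cc) =O[UpperHalfPlane.atImInfty]
      (fun _ ↦ (1 : ℝ)) := by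
  obtain ⟨C, hC⟩ := hasE_growth κ c h H
  refine Asymptotics.IsBigO.of_bound |C| ?_
  filter_upwards [sw_im.eventually_ge_atTop 1] with τ hτ
  obtain ⟨h0, h1⟩ := hC τ hτ
  have hn : ‖ee (-((τ : ℂ) / 4))‖ = Real.exp (Real.pi / 2 * τ.im) := by
    rw [norm_ee]
    congr 1
    have h2 : (-((τ : ℂ) / 4)).im = -(τ.im / 4) := by
      rw [Complex.neg_im, show (τ : ℂ) / 4 = (τ : ℂ) / ((4 : ℝ) : ℂ) by norm_num,
        Complex.div_ofReal_im]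
      rfl
    rw [h2]
    ring
  have hr : ‖h τ r‖ ≤ |C| * Real.exp (-(Real.pi * (cc : ℝ) * τ.im / 2)) := by
    fin_cases r
    · refine h0.trans ?_
      refine (mul_le_mul_of_nonneg_right (le_abs_self C) (Real.exp_pos _).le).trans ?_
      refine mul_le_mul_of_nonneg_left ?_ (abs_nonneg C)
      rw [Real.exp_le_exp]
      have h3 : (cc : ℝ) ≤ 4 := by exact_mod_cast hcc4
      have h4 : 0 ≤ Real.pi * τ.im := mul_nonneg Real.pi_pos.le (by linarith)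
      nlinarith
    · rw [hcc] at h1
      refine h1.trans ?_
      exact mul_le_mul_of_nonneg_right (le_abs_self C) (Real.exp_pos _).le
  rw [norm_mul, norm_pow, hn, norm_one, mul_one, ← Real.exp_nat_mul]
  calc ‖h τ r‖ * Real.exp ((cc : ℝ) * (Real.pi / 2 * τ.im))
      ≤ |C| * Real.exp (-(Real.pi * (cc : ℝ) * τ.im / 2)) *
        Real.exp ((cc : ℝ) * (Real.pi / 2 * τ.im)) :=
        mul_le_mul_of_nonneg_right hr (Real.exp_pos _).le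
    _ = |C| := by
        rw [mul_assoc, ← Real.exp_add]
        have : -(Real.pi * (cc : ℝ) * τ.im / 2) + (cc : ℝ) * (Real.pi / 2 * τ.im) = 0 := by ring
        rw [this, Real.exp_zero, mul_one]

private theorem sw_one (κ b₁ b₂ cc : ℕ) (C0 : ℂ) (hC0 : C0 ≠ 0)
    (hb₁ : b₁ = 0 ∨ b₁ = 2 ∨ b₁ = 3 ∨ b₁ = 5) (hb₂ : b₂ = 0 ∨ b₂ = 2 ∨ b₂ = 3 ∨ b₂ = 5)
    (hp₁ : Even κ ↔ Even b₁) (hp₂ : Even κ ↔ Even b₂) (hk₁ : b₁ ≤ κ)
    (hcc : cls κ 1 = cc) (hcc4 : cc ≤ 4)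
    (hD : ∀ x y : ℂ, bas b₁ x y 0 * bas b₂ x y 1 - bas b₁ x y 1 * bas b₂ x y 0 =
      C0 * (x * y * (x ^ 4 - y ^ 4)) ^ cc)
    (c : ℕ → ℂ) (h : VF) (H : IsP κ c h) :
    ∃ F : ModularForm 𝒮ℒ ((κ - b₁ : ℕ) : ℤ), ∀ τ : ℍ, F τ =
      (h τ 0 * bas b₂ (th 0 τ 0) (th 1 τ 0) 1 - h τ 1 * bas b₂ (th 0 τ 0) (th 1 τ 0) 0) /
        (C0 * (th 0 τ 0 * th 1 τ 0 * (th 0 τ 0 ^ 4 - th 1 τ 0 ^ 4)) ^ cc) := by
  have hDne : ∀ τ : ℍ, C0 * (th 0 τ 0 * th 1 τ 0 * (th 0 τ 0 ^ 4 - th 1 τ 0 ^ 4)) ^ cc ≠ 0 :=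
    fun τ ↦ mul_ne_zero hC0 (pow_ne_zero _ (sw_u_ne τ))
  have law : ∀ (γ : SL(2, ℤ)) (τ : ℍ),
      (fun τ : ℍ ↦ (h τ 0 * bas b₂ (th 0 τ 0) (th 1 τ 0) 1 -
        h τ 1 * bas b₂ (th 0 τ 0) (th 1 τ 0) 0) /
        (C0 * (th 0 τ 0 * th 1 τ 0 * (th 0 τ 0 ^ 4 - th 1 τ 0 ^ 4)) ^ cc)) (mob (γ : Mat) τ) =
      jf (γ : Mat) τ ^ (κ - b₁) *
      (fun τ : ℍ ↦ (h τ 0 * bas b₂ (th 0 τ 0) (th 1 τ 0) 1 -
        h τ 1 * bas b₂ (th 0 τ 0) (th 1 τ 0) 0) /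
        (C0 * (th 0 τ 0 * th 1 τ 0 * (th 0 τ 0 ^ 4 - th 1 τ 0 ^ 4)) ^ cc)) τ := by
    intro γ τ
    have hj : jf (γ : Mat) τ ≠ 0 := jf_ne_zero _ (by rw [γ.det_coe]; exact one_ne_zero) τ
    have hN := sw_det κ b₂ hp₂ γ h (tf b₂ 0 0 0) (H.inv γ) (sw_tfinv b₂ hb₂ γ) τ
    have hQ := sw_det b₁ b₂ (hp₁.symm.trans hp₂) γ (tf b₁ 0 0 0) (tf b₂ 0 0 0)
      (sw_tfinv b₁ hb₁ γ) (sw_tfinv b₂ hb₂ γ) τ
    simp only [sw_tf] at hN hQ
    rw [hD, hD, ← sw_E κ b₁ hp₁] at hQ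
    have hK := sw_Edet κ γ τ
    have n1 := hDne τ
    have n2 := hDne (mob (γ : Mat) τ)
    simp only
    rw [hN, hQ]
    have hpow : jf (γ : Mat) τ ^ κ = jf (γ : Mat) τ ^ (κ - b₁) * jf (γ : Mat) τ ^ b₁ := by
      rw [← pow_add]
      congr 1
      omega
    rw [hpow]
    have j1 : jf (γ : Mat) τ ^ (κ - b₁) ≠ 0 := pow_ne_zero _ hj
    have j2 : jf (γ : Mat) τ ^ b₁ ≠ 0 := pow_ne_zero _ hj
    have j3 : jf (γ : Mat) τ ^ b₂ ≠ 0 := pow_ne_zero _ hj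
    generalize jf (γ : Mat) τ ^ (κ - b₁) = J1 at *
    generalize jf (γ : Mat) τ ^ b₁ = J2 at *
    generalize jf (γ : Mat) τ ^ b₂ = J3 at *
    generalize (E κ 1 (γ : Mat) τ).det = K at *
    generalize C0 * (th 0 (mob (γ : Mat) τ) 0 * th 1 (mob (γ : Mat) τ) 0 *
      (th 0 (mob (γ : Mat) τ) 0 ^ 4 - th 1 (mob (γ : Mat) τ) 0 ^ 4)) ^ cc = D2 at *
    generalize (h (mob (γ : Mat) τ) 0 * bas b₂ (th 0 (mob (γ : Mat) τ) 0)
      (th 1 (mob (γ : Mat) τ) 0) 1 - h (mob (γ : Mat) τ) 1 * bas b₂ (th 0 (mob (γ : Mat) τ) 0)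
      (th 1 (mob (γ : Mat) τ) 0) 0) = N2 at *
    field_simp
  have hSd : (mS : Mat).det = 1 := by rw [Matrix.det_fin_two]; simp [mS]
  have hTd : (mT 1 : Mat).det = 1 := by rw [Matrix.det_fin_two]; simp [mT]
  refine exists_form (κ - b₁) _ ?_ ?_ ?_ ?_
  · rw [UpperHalfPlane.mdifferentiable_iff]
    have d0 := UpperHalfPlane.mdifferentiable_iff.mp (hasE_mdiff κ c h H.exp 0)
    have d1 := UpperHalfPlane.mdifferentiable_iff.mp (hasE_mdiff κ c h H.exp 1)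
    have t0 := UpperHalfPlane.mdifferentiable_iff.mp (th_mdiff 0)
    have t1 := UpperHalfPlane.mdifferentiable_iff.mp (th_mdiff 1)
    have b0 := sw_bas_diff b₂ 0 t0 t1
    have b1 := sw_bas_diff b₂ 1 t0 t1
    have e1 : DifferentiableOn ℂ (fun z ↦ C0 * (th 0 (ofComplex z) 0 * th 1 (ofComplex z) 0 *
        (th 0 (ofComplex z) 0 ^ 4 - th 1 (ofComplex z) 0 ^ 4)) ^ cc) {z | 0 < z.im} :=
      (((t0.mul t1).mul ((t0.pow 4).sub (t1.pow 4))).pow cc).const_mul C0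
    exact ((d0.mul b1).sub (d1.mul b0)).div e1 fun z _ ↦ hDne (ofComplex z)
  · intro τ
    have h1 := law ⟨mT 1, hTd⟩ τ
    have h2 : jf (mT 1) τ = 1 := by simp [jf, mT]
    rw [show jf ((⟨mT 1, hTd⟩ : SL(2, ℤ)) : Mat) τ = 1 from h2, one_pow, one_mul] at h1
    exact h1
  · intro τ
    have h1 := law ⟨mS, hSd⟩ τ
    have h2 : jf mS τ = (τ : ℂ) := by simp [jf, mS]
    rw [show jf ((⟨mS, hSd⟩ : SL(2, ℤ)) : Mat) τ = (τ : ℂ) from h2] at h1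
    exact h1
  · have hG : Filter.Tendsto (fun τ : ℍ ↦ (C0 * (th 0 τ 0 * (ee (-((τ : ℂ) / 4)) * th 1 τ 0) *
        (th 0 τ 0 ^ 4 - th 1 τ 0 ^ 4)) ^ cc)⁻¹) UpperHalfPlane.atImInfty
        (nhds (C0 * (1 * 2 * (1 ^ 4 - 0 ^ 4)) ^ cc)⁻¹) := by
      refine Filter.Tendsto.inv₀ ?_ ?_
      · exact (((th0_tendsto.mul th1_tendsto).mul
          ((th0_tendsto.pow 4).sub (sw_y.pow 4))).pow cc).const_mul C0
      · refine mul_ne_zero hC0 (pow_ne_zero _ ?_)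
        norm_num
    have hG1 := hG.isBigO_one ℝ
    have hP0 := (sw_bas_lim b₂ 0).isBigO_one ℝ
    have hP1 := (sw_bas_lim b₂ 1).isBigO_one ℝ
    have hA0 := sw_growth κ c h H.exp cc hcc hcc4 0
    have hA1 := sw_growth κ c h H.exp cc hcc hcc4 1
    have hm1 := hA0.mul hP1
    have hm2 := hA1.mul hP0
    simp only [mul_one] at hm1 hm2
    have hm3 := (hm1.sub hm2).mul hG1
    simp only [mul_one] at hm3
    refine (Asymptotics.IsBigO.congr_left hm3 fun τ ↦ ?_)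
    have hs : ee (-((τ : ℂ) / 4)) ^ cc ≠ 0 := pow_ne_zero _ (ee_ne_zero _)
    have hd := hDne τ
    have e1 : C0 * (th 0 τ 0 * (ee (-((τ : ℂ) / 4)) * th 1 τ 0) *
        (th 0 τ 0 ^ 4 - th 1 τ 0 ^ 4)) ^ cc = ee (-((τ : ℂ) / 4)) ^ cc *
        (C0 * (th 0 τ 0 * th 1 τ 0 * (th 0 τ 0 ^ 4 - th 1 τ 0 ^ 4)) ^ cc) := by
      have e2 : th 0 τ 0 * (ee (-((τ : ℂ) / 4)) * th 1 τ 0) * (th 0 τ 0 ^ 4 - th 1 τ 0 ^ 4) =
          ee (-((τ : ℂ) / 4)) * (th 0 τ 0 * th 1 τ 0 * (th 0 τ 0 ^ 4 - th 1 τ 0 ^ 4)) := by ring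
      rw [e2, mul_pow]
      ring
    rw [e1]
    generalize ee (-((τ : ℂ) / 4)) ^ cc = s at *
    generalize C0 * (th 0 τ 0 * th 1 τ 0 * (th 0 τ 0 ^ 4 - th 1 τ 0 ^ 4)) ^ cc = D at *
    field_simp

private theorem sw_range (κ k : ℕ) (hk : k ≤ κ) (v : ℕ → ℕ → ℂ) :
    ∑ a ∈ Finset.range (k / 4 + 1), ∑ a' ∈ Finset.range (k / 6 + 1),
      (if 4 * a + 6 * a' = k then v a a' else 0) =
    ∑ a ∈ Finset.range (κ + 1), ∑ a' ∈ Finset.range (κ + 1),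
      (if 4 * a + 6 * a' = k then v a a' else 0) := by
  rw [← Finset.sum_product', ← Finset.sum_product']
  refine Finset.sum_subset ?_ ?_
  · intro p hp
    rw [Finset.mem_product, Finset.mem_range, Finset.mem_range] at hp ⊢
    omega
  · intro p _ hp
    rw [Finset.mem_product, Finset.mem_range, Finset.mem_range] at hp
    refine if_neg ?_
    intro h
    apply hp
    omega

private theorem sw_core (κ b₁ b₂ cc : ℕ) (C0 : ℂ) (hC0 : C0 ≠ 0)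
    (hb₁ : b₁ = 0 ∨ b₁ = 2 ∨ b₁ = 3 ∨ b₁ = 5) (hb₂ : b₂ = 0 ∨ b₂ = 2 ∨ b₂ = 3 ∨ b₂ = 5)
    (hp₁ : Even κ ↔ Even b₁) (hp₂ : Even κ ↔ Even b₂) (hk₁ : b₁ ≤ κ) (hk₂ : b₂ ≤ κ)
    (hcc : cls κ 1 = cc) (hcc4 : cc ≤ 4)
    (hD : ∀ x y : ℂ, bas b₁ x y 0 * bas b₂ x y 1 - bas b₁ x y 1 * bas b₂ x y 0 =
      C0 * (x * y * (x ^ 4 - y ^ 4)) ^ cc)
    (c : ℕ → ℂ) (h : VF) (H : IsP κ c h) :
    ∃ α₁ α₂ : ℕ → ℕ → ℂ, ∀ τ r, h τ r =
      (∑ a ∈ Finset.range (κ + 1), ∑ a' ∈ Finset.range (κ + 1),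
        (if 4 * a + 6 * a' = κ - b₁ then α₁ a a' * tf b₁ a a' 0 τ r else 0)) +
      (∑ a ∈ Finset.range (κ + 1), ∑ a' ∈ Finset.range (κ + 1),
        (if 4 * a + 6 * a' = κ - b₂ then α₂ a a' * tf b₂ a a' 0 τ r else 0)) := by
  obtain ⟨F₁, hF₁⟩ := sw_one κ b₁ b₂ cc C0 hC0 hb₁ hb₂ hp₁ hp₂ hk₁ hcc hcc4 hD c h H
  obtain ⟨F₂, hF₂⟩ := sw_one κ b₂ b₁ cc (-C0) (neg_ne_zero.mpr hC0) hb₂ hb₁ hp₂ hp₁ hk₂ hcc hcc4
    (fun x y ↦ by linear_combination -(hD x y)) c h H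
  obtain ⟨α₁, hα₁⟩ := span_E4_E6 (κ - b₁) F₁
  obtain ⟨α₂, hα₂⟩ := span_E4_E6 (κ - b₂) F₂
  refine ⟨α₁, α₂, ?_⟩
  intro τ r
  have key : h τ r = F₁ τ * bas b₁ (th 0 τ 0) (th 1 τ 0) r +
      F₂ τ * bas b₂ (th 0 τ 0) (th 1 τ 0) r := by
    rw [hF₁, hF₂]
    have hd : C0 * (th 0 τ 0 * th 1 τ 0 * (th 0 τ 0 ^ 4 - th 1 τ 0 ^ 4)) ^ cc ≠ 0 :=
      mul_ne_zero hC0 (pow_ne_zero _ (sw_u_ne τ))
    have e1 : (-C0) * (th 0 τ 0 * th 1 τ 0 * (th 0 τ 0 ^ 4 - th 1 τ 0 ^ 4)) ^ cc =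
        -(C0 * (th 0 τ 0 * th 1 τ 0 * (th 0 τ 0 ^ 4 - th 1 τ 0 ^ 4)) ^ cc) := by ring
    have hd1 := hD (th 0 τ 0) (th 1 τ 0)
    rw [e1]
    generalize C0 * (th 0 τ 0 * th 1 τ 0 * (th 0 τ 0 ^ 4 - th 1 τ 0 ^ 4)) ^ cc = D at *
    rw [div_mul_eq_mul_div, div_mul_eq_mul_div, div_neg, ← sub_eq_add_neg, ← sub_div,
      eq_div_iff hd, ← hd1]
    fin_cases r
    · simp only [Fin.zero_eta]
      ring
    · simp only [Fin.mk_one]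
      ring
  have term : ∀ b a a' : ℕ, tf b a a' 0 τ r = (ModularForm.E₄ τ ^ a * ModularForm.E₆ τ ^ a') *
      bas b (th 0 τ 0) (th 1 τ 0) r := by
    intro b a a'
    unfold tf
    rw [e4p_eq, e6p_eq]
    ring
  rw [key, hα₁, hα₂, sw_range κ (κ - b₁) (Nat.sub_le _ _), sw_range κ (κ - b₂) (Nat.sub_le _ _),
    Finset.sum_mul, Finset.sum_mul]
  congr 1
  · refine Finset.sum_congr rfl fun a _ ↦ ?_
    rw [Finset.sum_mul]
    refine Finset.sum_congr rfl fun a' _ ↦ ?_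
    rw [term]
    split_ifs
    · ring
    · ring
  · refine Finset.sum_congr rfl fun a _ ↦ ?_
    rw [Finset.sum_mul]
    refine Finset.sum_congr rfl fun a' _ ↦ ?_
    rw [term]
    split_ifs
    · ring
    · ring

private theorem sw_sum (κ b₁ b₂ : ℕ) (hne : b₁ ≠ b₂) (hk₁ : b₁ ≤ κ) (hk₂ : b₂ ≤ κ)
    (l : List (ℕ × ℕ × ℕ)) (hl : l.Nodup)
    (hmem : ∀ t : ℕ × ℕ × ℕ, t ∈ l ↔ (t.1 = b₁ ∨ t.1 = b₂) ∧ t.1 + 4 * t.2.1 + 6 * t.2.2 = κ)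
    (g : ℕ × ℕ × ℕ → ℂ) :
    (l.map g).sum = (∑ a ∈ Finset.range (κ + 1), ∑ a' ∈ Finset.range (κ + 1),
        (if 4 * a + 6 * a' = κ - b₁ then g (b₁, a, a') else 0)) +
      (∑ a ∈ Finset.range (κ + 1), ∑ a' ∈ Finset.range (κ + 1),
        (if 4 * a + 6 * a' = κ - b₂ then g (b₂, a, a') else 0)) := by
  classical
  rw [← List.sum_toFinset g hl]
  have h1 : l.toFinset = ((({b₁, b₂} : Finset ℕ) ×ˢ
      (Finset.range (κ + 1) ×ˢ Finset.range (κ + 1))).filter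
        fun t ↦ t.1 + 4 * t.2.1 + 6 * t.2.2 = κ) := by
    ext t
    rw [List.mem_toFinset, hmem, Finset.mem_filter, Finset.mem_product, Finset.mem_product,
      Finset.mem_range, Finset.mem_range, Finset.mem_insert, Finset.mem_singleton]
    constructor
    · rintro ⟨h2, h3⟩
      exact ⟨⟨h2, by omega, by omega⟩, h3⟩
    · rintro ⟨⟨h2, _⟩, h3⟩
      exact ⟨h2, h3⟩
  rw [h1, Finset.sum_filter, Finset.sum_product, Finset.sum_pair hne]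
  congr 1
  · rw [Finset.sum_product]
    refine Finset.sum_congr rfl fun a _ ↦ Finset.sum_congr rfl fun a' _ ↦ ?_
    have h2 : b₁ + 4 * a + 6 * a' = κ ↔ 4 * a + 6 * a' = κ - b₁ := by omega
    simp only [h2]
  · rw [Finset.sum_product]
    refine Finset.sum_congr rfl fun a _ ↦ Finset.sum_congr rfl fun a' _ ↦ ?_
    have h2 : b₂ + 4 * a + 6 * a' = κ ↔ 4 * a + 6 * a' = κ - b₂ := by omega
    simp only [h2]

private theorem sw_fin (κ b₁ b₂ cc : ℕ) (C0 : ℂ) (hC0 : C0 ≠ 0) (hne : b₁ ≠ b₂)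
    (hb₁ : b₁ = 0 ∨ b₁ = 2 ∨ b₁ = 3 ∨ b₁ = 5) (hb₂ : b₂ = 0 ∨ b₂ = 2 ∨ b₂ = 3 ∨ b₂ = 5)
    (hp₁ : Even κ ↔ Even b₁) (hp₂ : Even κ ↔ Even b₂) (hk₁ : b₁ ≤ κ) (hk₂ : b₂ ≤ κ)
    (hcc : cls κ 1 = cc) (hcc4 : cc ≤ 4)
    (hD : ∀ x y : ℂ, bas b₁ x y 0 * bas b₂ x y 1 - bas b₁ x y 1 * bas b₂ x y 0 =
      C0 * (x * y * (x ^ 4 - y ^ 4)) ^ cc)
    (l : List (ℕ × ℕ × ℕ)) (hl : l.Nodup)
    (hmem : ∀ t : ℕ × ℕ × ℕ, t ∈ l ↔ (t.1 = b₁ ∨ t.1 = b₂) ∧ t.1 + 4 * t.2.1 + 6 * t.2.2 = κ)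
    (c : ℕ → ℂ) (h : VF) (H : IsP κ c h) :
    ∃ a : ℕ × ℕ × ℕ → ℂ, ∀ τ r, h τ r =
      (l.map fun t ↦ a t * tf t.1 t.2.1 t.2.2 0 τ r).sum := by
  obtain ⟨α₁, α₂, hα⟩ := sw_core κ b₁ b₂ cc C0 hC0 hb₁ hb₂ hp₁ hp₂ hk₁ hk₂ hcc hcc4 hD c h H
  refine ⟨fun t ↦ if t.1 = b₁ then α₁ t.2.1 t.2.2 else α₂ t.2.1 t.2.2, ?_⟩
  intro τ r
  rw [hα, sw_sum κ b₁ b₂ hne hk₁ hk₂ l hl hmem]
  simp only [if_true, if_neg hne.symm]

theorem mem_idx (κ : ℕ) (t : ℕ × ℕ × ℕ) : t ∈ idx κ ↔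
    (if κ % 2 = 0 then t.1 = 0 ∨ t.1 = 2 else t.1 = 3 ∨ t.1 = 5) ∧
      t.1 + 4 * t.2.1 + 6 * t.2.2 = κ := by
  obtain ⟨b, a, a'⟩ := t
  have hmem : (b, a, a') ∈ idx κ ↔ ∃ b₀ ∈ (if κ % 2 = 0 then [0, 2] else [3, 5] : List ℕ),
      ∃ a₀ < κ / 6 + 1, (b₀ + 6 * a₀ ≤ κ ∧ (κ - b₀ - 6 * a₀) % 4 = 0) ∧
        b₀ = b ∧ (κ - b₀ - 6 * a₀) / 4 = a ∧ a₀ = a' := by
    unfold idx
    rw [List.mem_flatMap]
    refine exists_congr fun b₀ ↦ and_congr_right fun _ ↦ ?_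
    rw [List.mem_filterMap]
    refine exists_congr fun a₀ ↦ ?_
    rw [List.mem_range]
    refine and_congr_right fun _ ↦ ?_
    by_cases hc : b₀ + 6 * a₀ ≤ κ ∧ (κ - b₀ - 6 * a₀) % 4 = 0
    · rw [if_pos hc]
      simp [hc]
    · rw [if_neg hc]
      simp only [reduceCtorEq, false_iff, not_and]
      intro h1
      exact absurd h1 hc
  rw [hmem]
  clear hmem
  dsimp only
  constructor
  · rintro ⟨b₀, hb₀, a₀, _, ⟨h1, h2⟩, e1, e2, e3⟩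
    subst e1
    subst e3
    refine ⟨?_, by omega⟩
    split_ifs at hb₀ ⊢
    · simpa using hb₀
    · simpa using hb₀
  · rintro ⟨h1, h2⟩
    refine ⟨b, ?_, a', by omega, ⟨by omega, by omega⟩, rfl, by omega, rfl⟩
    split_ifs at h1 ⊢
    · simpa using h1
    · simpa using h1

theorem idx_nodup (κ : ℕ) : (idx κ).Nodup := by
  unfold idx
  rw [List.nodup_flatMap]
  constructor
  · intro b _
    refine List.Nodup.filterMap ?_ List.nodup_range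
    intro a a' t h1 h2
    rw [Option.mem_def] at h1 h2
    split_ifs at h1 h2
    have h3 := (Option.some.inj h1).trans (Option.some.inj h2).symm
    exact congrArg (fun t : ℕ × ℕ × ℕ ↦ t.2.2) h3
  · have hdis : ∀ b b' : ℕ, b ≠ b' → Function.onFun List.Disjoint (fun b ↦
        (List.range (κ / 6 + 1)).filterMap fun a' ↦
          if b + 6 * a' ≤ κ ∧ (κ - b - 6 * a') % 4 = 0 then
            some (b, (κ - b - 6 * a') / 4, a') else none) b b' := by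
      intro b b' hbb
      unfold Function.onFun
      intro t h1 h2
      rw [List.mem_filterMap] at h1 h2
      obtain ⟨a, _, h1⟩ := h1
      obtain ⟨a', _, h2⟩ := h2
      split_ifs at h1 h2
      have h3 := (Option.some.inj h1).trans (Option.some.inj h2).symm
      exact hbb (congrArg (fun t : ℕ × ℕ × ℕ ↦ t.1) h3)
    split_ifs
    · exact List.pairwise_pair.mpr (hdis 0 2 (by decide))
    · exact List.pairwise_pair.mpr (hdis 3 5 (by decide))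

theorem struct_tf (κ : ℕ) (hκ : 5 ≤ κ) (c : ℕ → ℂ) (h : VF) (H : IsP κ c h) :
    ∃ a : ℕ × ℕ × ℕ → ℂ, ∀ τ r, h τ r =
      ((idx κ).map fun t ↦ a t * tf t.1 t.2.1 t.2.2 0 τ r).sum := by
  have hmem := mem_idx κ
  by_cases hκ2 : κ % 2 = 0
  · have hev : Even κ := Nat.even_iff.mpr hκ2
    simp only [if_pos hκ2] at hmem
    refine sw_fin κ 0 2 1 (-6) (by norm_num) (by decide) (by decide) (by decide) ?_ ?_ (by omega)
      (by omega) ?_ (by decide) ?_ (idx κ) (idx_nodup κ) hmem c h H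
    · exact ⟨fun _ ↦ by decide, fun _ ↦ hev⟩
    · exact ⟨fun _ ↦ by decide, fun _ ↦ hev⟩
    · unfold cls
      rw [if_neg (by decide), if_pos hev]
    · intro x y
      simp [bas]
      ring
  · have hev : ¬ Even κ := fun h' ↦ hκ2 (Nat.even_iff.mp h')
    simp only [if_neg hκ2] at hmem
    refine sw_fin κ 3 5 3 (-18) (by norm_num) (by decide) (by decide) (by decide) ?_ ?_ (by omega)
      (by omega) ?_ (by decide) ?_ (idx κ) (idx_nodup κ) hmem c h H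
    · exact ⟨fun h' ↦ absurd h' hev, fun h' ↦ absurd h' (by decide)⟩
    · exact ⟨fun h' ↦ absurd h' hev, fun h' ↦ absurd h' (by decide)⟩
    · unfold cls
      rw [if_neg (by decide), if_neg hev]
    · intro x y
      simp [bas]
      ring

end MP836e4b.P
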