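/-
MODULE SWSf (size M-L), board mod836, MP_836e4b_nt, folder Work/MP_836e4b_nt/P. Keep the statements verbatim, helper lemmas private.
q-expansions of tf b a a' 0: th 0 τ 0 = ∑ coeff n xQ e(nτ), th 1 τ 0 = e(τ/4) ∑ coeff n yQ e(nτ), (th 1 τ 0)^4 = ∑ coeff n zQ e(nτ)
(e(τ/4)^4 = e(τ)). Products of absolutely convergent series (as ev_mul in Tf1). tf .. 0 has component 0 = ∑ coeff (qQ t 0) e(nτ),
component 1 = e(cτ/4) ∑ coeff (qQ t 1) e(nτ), c = 1 (b = 0, 2) or 3 (b = 3, 5). Reindex n -> 4n + c. mc_zero: constant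
coefficients: xQ = 1 + .., zQ = q·..: qQ t 0 has constant coefficient 1.
-/
import Mathlib
import Pool.Agent.Work.MP_836e4b_nt.P.Defs
import Pool.Agent.Work.MP_836e4b_nt.P.SWDef
import Pool.Agent.Work.MP_836e4b_nt.P.Th1
import Pool.Agent.Work.MP_836e4b_nt.P.Bas

open UpperHalfPlane Complex
open scoped MatrixGroups ComplexConjugate Matrix

namespace MP836e4b.P

/-- the power series `P` converges at `q` to `v` -/
private def EQ (P : PowerSeries ℤ) (q v : ℂ) : Prop :=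
  HasSum (fun n : ℕ ↦ ((PowerSeries.coeff n P : ℤ) : ℂ) * q ^ n) v

private theorem EQ.add {P Q : PowerSeries ℤ} {q v w : ℂ} (h : EQ P q v) (h' : EQ Q q w) :
    EQ (P + Q) q (v + w) := by
  unfold EQ at *
  have e : (fun n : ℕ ↦ ((PowerSeries.coeff n (P + Q) : ℤ) : ℂ) * q ^ n) =
      fun n : ℕ ↦ ((PowerSeries.coeff n P : ℤ) : ℂ) * q ^ n +
        ((PowerSeries.coeff n Q : ℤ) : ℂ) * q ^ n := by
    funext n
    rw [map_add]
    push_cast
    ring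
  rw [e]
  exact h.add h'

private theorem EQ.sub {P Q : PowerSeries ℤ} {q v w : ℂ} (h : EQ P q v) (h' : EQ Q q w) :
    EQ (P - Q) q (v - w) := by
  unfold EQ at *
  have e : (fun n : ℕ ↦ ((PowerSeries.coeff n (P - Q) : ℤ) : ℂ) * q ^ n) =
      fun n : ℕ ↦ ((PowerSeries.coeff n P : ℤ) : ℂ) * q ^ n -
        ((PowerSeries.coeff n Q : ℤ) : ℂ) * q ^ n := by
    funext n
    rw [map_sub]
    push_cast
    ring
  rw [e]
  exact h.sub h'

private theorem EQ.mul {P Q : PowerSeries ℤ} {q v w : ℂ} (h : EQ P q v) (h' : EQ Q q w) :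
    EQ (P * Q) q (v * w) := by
  unfold EQ at *
  have hf := h.summable.norm
  have hg := h'.summable.norm
  have h1 := (summable_norm_sum_mul_antidiagonal_of_summable_norm hf hg).of_norm.hasSum
  rw [← tsum_mul_tsum_eq_tsum_sum_antidiagonal_of_summable_norm hf hg, h.tsum_eq, h'.tsum_eq] at h1
  have e : (fun n : ℕ ↦ ((PowerSeries.coeff n (P * Q) : ℤ) : ℂ) * q ^ n) =
      fun n : ℕ ↦ ∑ kl ∈ Finset.HasAntidiagonal.antidiagonal n, ((PowerSeries.coeff kl.1 P : ℤ) : ℂ) * q ^ kl.1 *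
        (((PowerSeries.coeff kl.2 Q : ℤ) : ℂ) * q ^ kl.2) := by
    funext n
    rw [PowerSeries.coeff_mul]
    push_cast
    rw [Finset.sum_mul]
    refine Finset.sum_congr rfl fun p hp ↦ ?_
    have := Finset.HasAntidiagonal.mem_antidiagonal.mp hp
    rw [← this, pow_add]
    ring
  rw [e]
  exact h1

private theorem EQ.nat (k : ℕ) (q : ℂ) : EQ (k : PowerSeries ℤ) q (k : ℂ) := by
  unfold EQ
  have e : (k : PowerSeries ℤ) = PowerSeries.C (k : ℤ) := by simp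
  have h0 : ((PowerSeries.coeff 0 (k : PowerSeries ℤ) : ℤ) : ℂ) * q ^ 0 = (k : ℂ) := by
    rw [e]
    simp
  rw [← h0]
  refine hasSum_single 0 fun n hn ↦ ?_
  rw [e, PowerSeries.coeff_C, if_neg hn]
  simp

private theorem EQ.one (q : ℂ) : EQ (1 : PowerSeries ℤ) q 1 := by
  have := EQ.nat 1 q
  simpa using this

private theorem EQ.pow {P : PowerSeries ℤ} {q v : ℂ} (h : EQ P q v) (n : ℕ) :
    EQ (P ^ n) q (v ^ n) := by
  induction n with
  | zero =>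
    rw [pow_zero, pow_zero]
    exact EQ.one q
  | succ n ih =>
    rw [pow_succ, pow_succ]
    exact ih.mul h

private theorem EQ.X (q : ℂ) : EQ (PowerSeries.X : PowerSeries ℤ) q q := by
  unfold EQ
  have h0 : ((PowerSeries.coeff 1 (PowerSeries.X : PowerSeries ℤ) : ℤ) : ℂ) * q ^ 1 = q := by
    simp
  have h1 : HasSum (fun n : ℕ ↦ ((PowerSeries.coeff n (PowerSeries.X : PowerSeries ℤ) : ℤ) : ℂ) *
      q ^ n) (((PowerSeries.coeff 1 (PowerSeries.X : PowerSeries ℤ) : ℤ) : ℂ) * q ^ 1) := by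
    refine hasSum_single 1 fun n hn ↦ ?_
    rw [PowerSeries.coeff_X, if_neg hn]
    simp
  rwa [h0] at h1

private theorem ee_pow (x : ℂ) (n : ℕ) : (ee x) ^ n = ee ((n : ℂ) * x) := by
  unfold ee
  rw [← Complex.exp_nat_mul]
  congr 1
  ring

/-- indicator series -/
private theorem ind_sum (g : ℕ → ℕ) (hg : Function.Injective g) (q v : ℂ)
    (h : HasSum (fun m : ℕ ↦ q ^ g m) v) (d : ℕ → ℂ) (h1 : ∀ m, d (g m) = 1)
    (h0 : ∀ n, (¬ ∃ m, g m = n) → d n = 0) :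
    HasSum (fun n : ℕ ↦ d n * q ^ n) v := by
  rw [← hg.hasSum_iff]
  · have e : (fun n : ℕ ↦ d n * q ^ n) ∘ g = fun m : ℕ ↦ q ^ g m := by
      funext m
      simp only [Function.comp]
      rw [h1, one_mul]
    rw [e]
    exact h
  · intro x hx
    rw [h0, zero_mul]
    rintro ⟨m, hm⟩
    exact hx ⟨m, hm⟩

open Classical in
private theorem th0_ev (τ : ℍ) : EQ xQ (ee τ) (th 0 τ 0) := by
  set q := ee (τ : ℂ) with hq
  have hs := th_summable 0 τ 0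
  have hterm : ∀ m : ℤ, ee ((2 * (m : ℂ) + (((0 : Fin 2) : ℕ) : ℂ)) ^ 2 * (τ : ℂ) / 4 +
      (2 * (m : ℂ) + (((0 : Fin 2) : ℕ) : ℂ)) * 0) = ee ((m : ℂ) ^ 2 * τ) := by
    intro m
    congr 1
    simp
    ring
  have hsum : HasSum (fun m : ℤ ↦ ee ((m : ℂ) ^ 2 * (τ : ℂ))) (th 0 τ 0) := by
    have h1 := hs.hasSum
    simp_rw [hterm] at h1
    unfold th
    simp_rw [hterm]
    exact h1
  have hA : HasSum (fun m : ℕ ↦ q ^ (m ^ 2)) (∑' m : ℕ, q ^ (m ^ 2)) := by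
    apply Summable.hasSum
    have h1 := hsum.summable.comp_injective (i := fun m : ℕ ↦ (m : ℤ)) Nat.cast_injective
    refine h1.congr fun m ↦ ?_
    simp only [Function.comp]
    rw [hq, ee_pow]
    congr 1
    push_cast
    ring
  have hB : HasSum (fun m : ℕ ↦ q ^ ((m + 1) ^ 2)) (∑' m : ℕ, q ^ ((m + 1) ^ 2)) := by
    apply Summable.hasSum
    exact hA.summable.comp_injective (i := fun m : ℕ ↦ m + 1) (fun a b hab ↦ by simpa using hab)
  have hAB : HasSum (fun m : ℤ ↦ ee ((m : ℂ) ^ 2 * (τ : ℂ)))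
      ((∑' m : ℕ, q ^ (m ^ 2)) + ∑' m : ℕ, q ^ ((m + 1) ^ 2)) := by
    apply HasSum.of_nat_of_neg_add_one
    · have e : (fun n : ℕ ↦ ee ((((n : ℤ) : ℤ) : ℂ) ^ 2 * (τ : ℂ))) = fun m : ℕ ↦ q ^ (m ^ 2) := by
        funext m
        rw [hq, ee_pow]
        congr 1
        push_cast
        ring
      rw [e]
      exact hA
    · have e : (fun n : ℕ ↦ ee (((-((n : ℤ) + 1) : ℤ) : ℂ) ^ 2 * (τ : ℂ))) =
          fun m : ℕ ↦ q ^ ((m + 1) ^ 2) := by
        funext m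
        rw [hq, ee_pow]
        congr 1
        push_cast
        ring
      rw [e]
      exact hB
  have hval := hsum.unique hAB
  rw [hval]
  unfold EQ
  obtain ⟨d1, hd1, hd1'⟩ : ∃ d : ℕ → ℂ, (∀ n, (∃ m, m ^ 2 = n) → d n = 1) ∧
      (∀ n, (¬ ∃ m, m ^ 2 = n) → d n = 0) :=
    ⟨fun n ↦ if ∃ m, m ^ 2 = n then 1 else 0, fun n hn ↦ if_pos hn, fun n hn ↦ if_neg hn⟩
  obtain ⟨d2, hd2, hd2'⟩ : ∃ d : ℕ → ℂ, (∀ n, (∃ m, (m + 1) ^ 2 = n) → d n = 1) ∧
      (∀ n, (¬ ∃ m, (m + 1) ^ 2 = n) → d n = 0) :=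
    ⟨fun n ↦ if ∃ m, (m + 1) ^ 2 = n then 1 else 0, fun n hn ↦ if_pos hn, fun n hn ↦ if_neg hn⟩
  have h1 := (ind_sum (fun m ↦ m ^ 2) (fun a b hab ↦ by simpa using hab) q _ hA d1
      (fun m ↦ hd1 _ ⟨m, rfl⟩) hd1').add
    (ind_sum (fun m ↦ (m + 1) ^ 2) (fun a b hab ↦ by simpa using hab) q _ hB d2
      (fun m ↦ hd2 _ ⟨m, rfl⟩) hd2')
  have e : (fun n : ℕ ↦ ((PowerSeries.coeff n xQ : ℤ) : ℂ) * q ^ n) = fun n : ℕ ↦
      d1 n * q ^ n + d2 n * q ^ n := by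
    funext n
    rw [← add_mul]
    congr 1
    unfold xQ
    rw [PowerSeries.coeff_mk]
    by_cases hn : n = 0
    · subst hn
      rw [if_pos rfl, hd1 0 ⟨0, rfl⟩, hd2']
      · simp
      · rintro ⟨m, hm⟩
        simp at hm
    · rw [if_neg hn]
      by_cases hsq : ∃ m ≤ n, m ^ 2 = n
      · obtain ⟨m, hmn, hm⟩ := hsq
        rw [if_pos ⟨m, hmn, hm⟩, hd1 n ⟨m, hm⟩, hd2 n]
        · norm_num
        · refine ⟨m - 1, ?_⟩
          have : m ≠ 0 := by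
            rintro rfl
            exact hn (by simpa using hm.symm)
          rw [Nat.sub_add_cancel (Nat.one_le_iff_ne_zero.mpr this)]
          exact hm
      · rw [if_neg hsq, hd1', hd2']
        · simp
        · rintro ⟨m, hm⟩
          exact hsq ⟨m + 1, by nlinarith, hm⟩
        · rintro ⟨m, hm⟩
          exact hsq ⟨m, by nlinarith, hm⟩
  rw [e]
  exact h1

open Classical in
private theorem th1_ev (τ : ℍ) : ∃ Y, EQ yQ (ee τ) Y ∧ th 1 τ 0 = ee ((τ : ℂ) / 4) * Y := by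
  set q := ee (τ : ℂ) with hq
  have hs := th_summable 1 τ 0
  have hterm : ∀ m : ℤ, ee ((2 * (m : ℂ) + (((1 : Fin 2) : ℕ) : ℂ)) ^ 2 * (τ : ℂ) / 4 +
      (2 * (m : ℂ) + (((1 : Fin 2) : ℕ) : ℂ)) * 0) =
        ee ((τ : ℂ) / 4) * ee (((m : ℂ) ^ 2 + (m : ℂ)) * τ) := by
    intro m
    rw [← ee_add]
    congr 1
    simp
    ring
  have hne : ee ((τ : ℂ) / 4) ≠ 0 := ee_ne_zero _
  have hsum : HasSum (fun m : ℤ ↦ ee ((τ : ℂ) / 4) * ee (((m : ℂ) ^ 2 + (m : ℂ)) * τ))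
      (th 1 τ 0) := by
    have h1 := hs.hasSum
    simp_rw [hterm] at h1
    unfold th
    simp_rw [hterm]
    exact h1
  have hsum2 : Summable (fun m : ℤ ↦ ee (((m : ℂ) ^ 2 + (m : ℂ)) * τ)) := by
    have := hsum.summable.mul_left (ee ((τ : ℂ) / 4))⁻¹
    refine this.congr fun m ↦ ?_
    rw [← mul_assoc, inv_mul_cancel₀ hne, one_mul]
  have hA : HasSum (fun m : ℕ ↦ q ^ (m * (m + 1))) (∑' m : ℕ, q ^ (m * (m + 1))) := by
    apply Summable.hasSum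
    have h1 := hsum2.comp_injective (i := fun m : ℕ ↦ (m : ℤ)) Nat.cast_injective
    refine h1.congr fun m ↦ ?_
    simp only [Function.comp]
    rw [hq, ee_pow]
    congr 1
    push_cast
    ring
  have hAB : HasSum (fun m : ℤ ↦ ee (((m : ℂ) ^ 2 + (m : ℂ)) * τ))
      ((∑' m : ℕ, q ^ (m * (m + 1))) + ∑' m : ℕ, q ^ (m * (m + 1))) := by
    apply HasSum.of_nat_of_neg_add_one
    · have e : (fun n : ℕ ↦ ee (((((n : ℤ) : ℤ) : ℂ) ^ 2 + (((n : ℤ) : ℤ) : ℂ)) * (τ : ℂ))) =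
          fun m : ℕ ↦ q ^ (m * (m + 1)) := by
        funext m
        rw [hq, ee_pow]
        congr 1
        push_cast
        ring
      rw [e]
      exact hA
    · have e : (fun n : ℕ ↦ ee ((((-((n : ℤ) + 1) : ℤ) : ℂ) ^ 2 + ((-((n : ℤ) + 1) : ℤ) : ℂ)) *
          (τ : ℂ))) = fun m : ℕ ↦ q ^ (m * (m + 1)) := by
        funext m
        rw [hq, ee_pow]
        congr 1
        push_cast
        ring
      rw [e]
      exact hA
  refine ⟨_, ?_, hsum.unique (hAB.mul_left (ee ((τ : ℂ) / 4)))⟩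
  have hinj : Function.Injective (fun m : ℕ ↦ m * (m + 1)) := by
    intro a b hab
    simp only at hab
    rcases lt_trichotomy a b with h | h | h
    · exfalso
      nlinarith
    · exact h
    · exfalso
      nlinarith
  unfold EQ
  obtain ⟨d, hd, hd'⟩ : ∃ d : ℕ → ℂ, (∀ n, (∃ m, m * (m + 1) = n) → d n = 1) ∧
      (∀ n, (¬ ∃ m, m * (m + 1) = n) → d n = 0) :=
    ⟨fun n ↦ if ∃ m, m * (m + 1) = n then 1 else 0, fun n hn ↦ if_pos hn, fun n hn ↦ if_neg hn⟩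
  have h0 := ind_sum (fun m ↦ m * (m + 1)) hinj q _ hA d (fun m ↦ hd _ ⟨m, rfl⟩) hd'
  have h1 := h0.add h0
  have e : (fun n : ℕ ↦ ((PowerSeries.coeff n yQ : ℤ) : ℂ) * q ^ n) = fun n : ℕ ↦
      d n * q ^ n + d n * q ^ n := by
    funext n
    rw [← add_mul]
    congr 1
    unfold yQ
    rw [PowerSeries.coeff_mk]
    by_cases hsq : ∃ m ≤ n, m * (m + 1) = n
    · obtain ⟨m, hmn, hm⟩ := hsq
      rw [if_pos ⟨m, hmn, hm⟩, hd n ⟨m, hm⟩]
      norm_num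
    · rw [if_neg hsq, hd']
      · simp
      · rintro ⟨m, hm⟩
        exact hsq ⟨m, by nlinarith, hm⟩
  rw [e]
  exact h1

/-- the expansion of the two components -/
private theorem comp_ev (t : ℕ × ℕ × ℕ) (τ : ℍ)
    (ht : t.1 = 0 ∨ t.1 = 2 ∨ t.1 = 3 ∨ t.1 = 5) :
    EQ (qQ t 0) (ee τ) (tf t.1 t.2.1 t.2.2 0 τ 0) ∧
    ∃ V, EQ (qQ t 1) (ee τ) V ∧ tf t.1 t.2.1 t.2.2 0 τ 1 =
      (ee ((τ : ℂ) / 4)) ^ (if t.1 = 0 ∨ t.1 = 2 then 1 else 3) * V := by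
  obtain ⟨Y, hY, hY1⟩ := th1_ev τ
  have hx := th0_ev τ
  set x := th 0 τ 0 with hxd
  set y := th 1 τ 0 with hyd
  set q := ee (τ : ℂ) with hq
  set T := ee ((τ : ℂ) / 4) with hT
  have hT4 : T ^ 4 = q := by
    rw [hT, ee_pow, hq]
    congr 1
    push_cast
    ring
  have hz : EQ zQ q (y ^ 4) := by
    have h1 := (EQ.X q).mul (hY.pow 4)
    have h2 : q * Y ^ 4 = y ^ 4 := by
      rw [hY1, mul_pow, hT4]
    rw [h2] at h1
    exact h1
  have n14 : EQ 14 q 14 := by exact_mod_cast EQ.nat 14 q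
  have n33 : EQ 33 q 33 := by exact_mod_cast EQ.nat 33 q
  have n5 : EQ 5 q 5 := by exact_mod_cast EQ.nat 5 q
  have n7 : EQ 7 q 7 := by exact_mod_cast EQ.nat 7 q
  have n22 : EQ 22 q 22 := by exact_mod_cast EQ.nat 22 q
  have n11 : EQ 11 q 11 := by exact_mod_cast EQ.nat 11 q
  have h4 : EQ e4Q q (e4p x y) := by
    have h1 := ((hx.pow 8).add ((n14.mul (hx.pow 4)).mul hz)).add (hz.pow 2)
    have h2 : x ^ 8 + 14 * x ^ 4 * y ^ 4 + (y ^ 4) ^ 2 = e4p x y := by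
      unfold e4p
      ring
    rw [h2] at h1
    exact h1
  have h6 : EQ e6Q q (e6p x y) := by
    have h1 := (((hx.pow 12).sub ((n33.mul (hx.pow 8)).mul hz)).sub
      ((n33.mul (hx.pow 4)).mul (hz.pow 2))).add (hz.pow 3)
    have h2 : x ^ 12 - 33 * x ^ 8 * y ^ 4 - 33 * x ^ 4 * (y ^ 4) ^ 2 + (y ^ 4) ^ 3 = e6p x y := by
      unfold e6p
      ring
    rw [h2] at h1
    exact h1
  have hF : ∀ (r : Fin 2) (v : ℂ), EQ (basQ t.1 r) q v →
      EQ (qQ t r) q (v * e4p x y ^ t.2.1 * e6p x y ^ t.2.2) := fun r v hv ↦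
    (hv.mul (h4.pow _)).mul (h6.pow _)
  have htf : ∀ r, tf t.1 t.2.1 t.2.2 0 τ r =
      bas t.1 x y r * e4p x y ^ t.2.1 * e6p x y ^ t.2.2 := by
    intro r
    unfold tf
    rw [pow_zero, mul_one]
  rw [htf, htf]
  rcases ht with h | h | h | h
  · have hb : ∀ r, bas t.1 x y r = ![x, y] r := by
      intro r
      rw [h]
      simp [bas]
    rw [hb, hb, if_pos (Or.inl h)]
    refine ⟨hF 0 x ?_, Y * e4p x y ^ t.2.1 * e6p x y ^ t.2.2, hF 1 Y ?_, ?_⟩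
    · rw [h]
      simpa [basQ] using hx
    · rw [h]
      simpa [basQ] using hY
    · change y * _ * _ = _
      rw [hY1]
      ring
  · have hb : ∀ r, bas t.1 x y r =
        ![x ^ 5 - 5 * x * y ^ 4, y ^ 5 - 5 * x ^ 4 * y] r := by
      intro r
      rw [h]
      simp [bas]
    rw [hb, hb, if_pos (Or.inr h)]
    refine ⟨hF 0 (x ^ 5 - 5 * x * y ^ 4) ?_,
      (Y * y ^ 4 - 5 * x ^ 4 * Y) * e4p x y ^ t.2.1 * e6p x y ^ t.2.2, hF 1 _ ?_, ?_⟩
    · rw [h]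
      have := (hx.pow 5).sub ((n5.mul hx).mul hz)
      simpa [basQ] using this
    · rw [h]
      have := (hY.mul hz).sub ((n5.mul (hx.pow 4)).mul hY)
      simpa [basQ] using this
    · change (y ^ 5 - 5 * x ^ 4 * y) * _ * _ = _
      rw [show y ^ 5 - 5 * x ^ 4 * y = y * (y ^ 4 - 5 * x ^ 4) by ring]
      conv_lhs => rw [show y * (y ^ 4 - 5 * x ^ 4) = (T * Y) * (y ^ 4 - 5 * x ^ 4) by rw [← hY1]]
      ring
  · have hb : ∀ r, bas t.1 x y r =
        ![x ^ 7 + 7 * x ^ 3 * y ^ 4, y ^ 7 + 7 * x ^ 4 * y ^ 3] r := by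
      intro r
      rw [h]
      simp [bas]
    rw [hb, hb, if_neg (by omega)]
    refine ⟨hF 0 (x ^ 7 + 7 * x ^ 3 * y ^ 4) ?_,
      (Y ^ 3 * y ^ 4 + 7 * x ^ 4 * Y ^ 3) * e4p x y ^ t.2.1 * e6p x y ^ t.2.2, hF 1 _ ?_, ?_⟩
    · rw [h]
      have := (hx.pow 7).add ((n7.mul (hx.pow 3)).mul hz)
      simpa [basQ] using this
    · rw [h]
      have := ((hY.pow 3).mul hz).add ((n7.mul (hx.pow 4)).mul (hY.pow 3))
      simpa [basQ] using this
    · change (y ^ 7 + 7 * x ^ 4 * y ^ 3) * _ * _ = _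
      rw [show y ^ 7 + 7 * x ^ 4 * y ^ 3 = y ^ 3 * (y ^ 4 + 7 * x ^ 4) by ring]
      conv_lhs => rw [show y ^ 3 * (y ^ 4 + 7 * x ^ 4) = (T * Y) ^ 3 * (y ^ 4 + 7 * x ^ 4) by
        rw [← hY1]]
      ring
  · have hb : ∀ r, bas t.1 x y r = ![x ^ 11 - 22 * x ^ 7 * y ^ 4 - 11 * x ^ 3 * y ^ 8,
        y ^ 11 - 22 * x ^ 4 * y ^ 7 - 11 * x ^ 8 * y ^ 3] r := by
      intro r
      rw [h]
      simp [bas]
    rw [hb, hb, if_neg (by omega)]
    refine ⟨hF 0 (x ^ 11 - 22 * x ^ 7 * y ^ 4 - 11 * x ^ 3 * y ^ 8) ?_,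
      (Y ^ 3 * (y ^ 4) ^ 2 - 22 * x ^ 4 * Y ^ 3 * y ^ 4 - 11 * x ^ 8 * Y ^ 3) *
        e4p x y ^ t.2.1 * e6p x y ^ t.2.2, hF 1 _ ?_, ?_⟩
    · rw [h]
      have := ((hx.pow 11).sub ((n22.mul (hx.pow 7)).mul hz)).sub
        ((n11.mul (hx.pow 3)).mul (hz.pow 2))
      rw [show x ^ 11 - 22 * x ^ 7 * y ^ 4 - 11 * x ^ 3 * y ^ 8 =
        x ^ 11 - 22 * x ^ 7 * y ^ 4 - 11 * x ^ 3 * (y ^ 4) ^ 2 by ring]
      simpa [basQ] using this
    · rw [h]
      have := (((hY.pow 3).mul (hz.pow 2)).sub (((n22.mul (hx.pow 4)).mul (hY.pow 3)).mul hz)).sub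
        ((n11.mul (hx.pow 8)).mul (hY.pow 3))
      simpa [basQ] using this
    · change (y ^ 11 - 22 * x ^ 4 * y ^ 7 - 11 * x ^ 8 * y ^ 3) * _ * _ = _
      rw [show y ^ 11 - 22 * x ^ 4 * y ^ 7 - 11 * x ^ 8 * y ^ 3 =
        y ^ 3 * (y ^ 8 - 22 * x ^ 4 * y ^ 4 - 11 * x ^ 8) by ring]
      conv_lhs => rw [show y ^ 3 * (y ^ 8 - 22 * x ^ 4 * y ^ 4 - 11 * x ^ 8) =
        (T * Y) ^ 3 * (y ^ 8 - 22 * x ^ 4 * y ^ 4 - 11 * x ^ 8) by rw [← hY1]]
      ring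

theorem tf_expand (κ : ℕ) (t : ℕ × ℕ × ℕ)
    (ht : if κ % 2 = 0 then t.1 = 0 ∨ t.1 = 2 else t.1 = 3 ∨ t.1 = 5) (τ : ℍ) (r : Fin 2) :
    HasSum (fun n : ℕ ↦ if n % 4 = cls κ r then
      ((mc κ t n : ℤ) : ℂ) * ee ((n : ℂ) * (τ : ℂ) / 4) else 0) (tf t.1 t.2.1 t.2.2 0 τ r) := by
  have ht' : t.1 = 0 ∨ t.1 = 2 ∨ t.1 = 3 ∨ t.1 = 5 := by
    split_ifs at ht <;> omega
  obtain ⟨h0, V, hV, hV1⟩ := comp_ev t τ ht'
  have hcls1 : cls κ 1 = cl1 κ := by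
    unfold cls cl1
    by_cases hκ : κ % 2 = 0
    · have : Even κ := Nat.even_iff.mpr hκ
      simp [hκ, this]
    · have : ¬ Even κ := fun h ↦ hκ (Nat.even_iff.mp h)
      simp [hκ, this]
  have hcl : cl1 κ = 1 ∨ cl1 κ = 3 := by
    unfold cl1
    split_ifs
    · exact Or.inl rfl
    · exact Or.inr rfl
  fin_cases r
  · have hc0 : cls κ 0 = 0 := by simp [cls]
    change HasSum (fun n : ℕ ↦ if n % 4 = cls κ 0 then
      ((mc κ t n : ℤ) : ℂ) * ee ((n : ℂ) * (τ : ℂ) / 4) else 0) (tf t.1 t.2.1 t.2.2 0 τ 0)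
    rw [hc0]
    have hg : Function.Injective (fun n : ℕ ↦ 4 * n) := fun a b hab ↦ by
      simp only at hab
      omega
    rw [← hg.hasSum_iff]
    · have e : (fun n : ℕ ↦ if n % 4 = 0 then
          ((mc κ t n : ℤ) : ℂ) * ee ((n : ℂ) * (τ : ℂ) / 4) else 0) ∘ (fun n : ℕ ↦ 4 * n) =
          fun n : ℕ ↦ ((PowerSeries.coeff n (qQ t 0) : ℤ) : ℂ) * (ee (τ : ℂ)) ^ n := by
        funext n
        simp only [Function.comp]
        have h1 : 4 * n % 4 = 0 := by omega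
        rw [if_pos h1, ee_pow]
        unfold mc
        rw [if_pos h1, Nat.mul_div_cancel_left n (by norm_num)]
        congr 2
        push_cast
        ring
      rw [e]
      exact h0
    · intro n hn
      rw [if_neg]
      intro h
      exact hn ⟨n / 4, by show 4 * (n / 4) = n; omega⟩
  · change HasSum (fun n : ℕ ↦ if n % 4 = cls κ 1 then
      ((mc κ t n : ℤ) : ℂ) * ee ((n : ℂ) * (τ : ℂ) / 4) else 0) (tf t.1 t.2.1 t.2.2 0 τ 1)
    rw [hcls1]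
    have hce : (if t.1 = 0 ∨ t.1 = 2 then 1 else 3) = cl1 κ := by
      unfold cl1
      split_ifs at ht ⊢ <;> omega
    rw [hV1, hce]
    have hg : Function.Injective (fun n : ℕ ↦ 4 * n + cl1 κ) := fun a b hab ↦ by
      simp only at hab
      omega
    rw [← hg.hasSum_iff]
    · have e : (fun n : ℕ ↦ if n % 4 = cl1 κ then
          ((mc κ t n : ℤ) : ℂ) * ee ((n : ℂ) * (τ : ℂ) / 4) else 0) ∘
            (fun n : ℕ ↦ 4 * n + cl1 κ) =
          fun n : ℕ ↦ (ee ((τ : ℂ) / 4)) ^ (cl1 κ) *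
            (((PowerSeries.coeff n (qQ t 1) : ℤ) : ℂ) * (ee (τ : ℂ)) ^ n) := by
        funext n
        simp only [Function.comp]
        have h1 : (4 * n + cl1 κ) % 4 = cl1 κ := by omega
        have h2 : ¬ (4 * n + cl1 κ) % 4 = 0 := by omega
        have h3 : (4 * n + cl1 κ - cl1 κ) / 4 = n := by omega
        rw [if_pos h1, ee_pow, ee_pow]
        unfold mc
        rw [if_neg h2, if_pos h1, h3]
        have h4 : ee (((4 * n + cl1 κ : ℕ) : ℂ) * (τ : ℂ) / 4) =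
            ee ((cl1 κ : ℂ) * ((τ : ℂ) / 4)) * ee ((n : ℂ) * (τ : ℂ)) := by
          rw [← ee_add]
          congr 1
          push_cast
          ring
        rw [h4]
        ring
      rw [e]
      exact hV.mul_left _
    · intro n hn
      rw [if_neg]
      intro h
      exact hn ⟨n / 4, by show 4 * (n / 4) + cl1 κ = n; omega⟩

theorem mc_zero (κ : ℕ) (t : ℕ × ℕ × ℕ)
    (ht : if κ % 2 = 0 then t.1 = 0 ∨ t.1 = 2 else t.1 = 3 ∨ t.1 = 5) : mc κ t 0 = 1 := by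
  have hx : PowerSeries.constantCoeff xQ = 1 := by
    rw [← PowerSeries.coeff_zero_eq_constantCoeff_apply]
    unfold xQ
    rw [PowerSeries.coeff_mk, if_pos rfl]
  have hz : PowerSeries.constantCoeff zQ = 0 := by
    unfold zQ
    rw [map_mul, PowerSeries.constantCoeff_X, zero_mul]
  have h4 : PowerSeries.constantCoeff e4Q = 1 := by
    unfold e4Q
    simp [hx, hz]
  have h6 : PowerSeries.constantCoeff e6Q = 1 := by
    unfold e6Q
    simp [hx, hz]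
  have hb : PowerSeries.constantCoeff (basQ t.1 0) = 1 := by
    unfold basQ
    simp only [↓reduceIte]
    split_ifs <;> simp [hx, hz]
  unfold mc
  rw [if_pos rfl, Nat.zero_div, PowerSeries.coeff_zero_eq_constantCoeff_apply]
  unfold qQ
  rw [map_mul, map_mul, map_pow, map_pow, h4, h6, hb]
  simp

theorem mc_supp (κ : ℕ) (t : ℕ × ℕ × ℕ) (n : ℕ) (h0 : n % 4 ≠ cls κ 0) (h1 : n % 4 ≠ cls κ 1) :
    mc κ t n = 0 := by
  have hcls1 : cls κ 1 = cl1 κ := by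
    unfold cls cl1
    by_cases hκ : κ % 2 = 0
    · have : Even κ := Nat.even_iff.mpr hκ
      simp [hκ, this]
    · have : ¬ Even κ := fun h ↦ hκ (Nat.even_iff.mp h)
      simp [hκ, this]
  have hc0 : cls κ 0 = 0 := by simp [cls]
  unfold mc
  rw [if_neg (by rw [hc0] at h0; exact h0), if_neg (by rw [← hcls1]; exact h1)]

end MP836e4b.P
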