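/-
MODULE SWSg (size M), board mod836, MP_836e4b_nt, folder Work/MP_836e4b_nt/P. Keep the statements verbatim, helper lemmas private.
The interface. sws_span: struct_tf + tf_expand: both h and the combination have expansions in e(nτ/4) with nonnegative n;
uniqueness of Fourier coefficients ((1/4)∫_0^4 ..; as in hasE_unique) gives c n = ∑ a_t mc κ t n in the classes, outside both sides
vanish (supp, mc_supp); n = 0: 0 = c 0 = ∑ a_t (mc_zero). sws_form: tf t - tf t' (j = 0) is invariant (tf_inv with j = 0, mem_idx,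
linearity of sl) and has constant coefficient 1 - 1 = 0.
-/
import Mathlib
import Pool.Agent.Work.MP_836e4b_nt.P.Defs
import Pool.Agent.Work.MP_836e4b_nt.P.SWSe
import Pool.Agent.Work.MP_836e4b_nt.P.SWSf
import Pool.Agent.Work.MP_836e4b_nt.P.Tf2
import Pool.Agent.Work.MP_836e4b_nt.P.Cont

open UpperHalfPlane Complex
open scoped MatrixGroups ComplexConjugate Matrix

namespace MP836e4b.P

private theorem swsg_list (κ : ℕ) (a : ℕ × ℕ × ℕ → ℂ) (τ : ℍ) (r : Fin 2) :
    ∀ l : List (ℕ × ℕ × ℕ),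
      (∀ t ∈ l, if κ % 2 = 0 then t.1 = 0 ∨ t.1 = 2 else t.1 = 3 ∨ t.1 = 5) →
      HasSum (fun n : ℕ ↦ if n % 4 = cls κ r then
        (l.map fun t ↦ a t * ((mc κ t n : ℤ) : ℂ)).sum * ee ((n : ℂ) * (τ : ℂ) / 4) else 0)
        (l.map fun t ↦ a t * tf t.1 t.2.1 t.2.2 0 τ r).sum
  | [], _ => by
    simp only [List.map_nil, List.sum_nil, zero_mul, ite_self]
    exact hasSum_zero
  | t :: l, hl => by
    have h1 := (tf_expand κ t (hl t List.mem_cons_self) τ r).mul_left (a t)
    have h2 := swsg_list κ a τ r l (fun t' ht' => hl t' (List.mem_cons_of_mem _ ht'))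
    simp only [List.map_cons, List.sum_cons]
    refine (h1.add h2).congr_fun ?_
    intro n
    split_ifs
    · ring
    · ring

private theorem swsg_cls0 (κ : ℕ) : cls κ 0 = 0 := by simp [cls]

private theorem swsg_unique (κ : ℕ) (d : ℕ → ℂ)
    (hd : ∀ (τ : ℍ) (r : Fin 2), HasSum (fun n : ℕ ↦ if n % 4 = cls κ r then
      d n * ee ((n : ℂ) * (τ : ℂ) / 4) else 0) 0) (r : Fin 2) (n : ℕ) (hn : n % 4 = cls κ r) :
    d n = 0 := by
  set c' : ℕ → ℂ := fun m ↦ if m < 4 then 0 else
    if m % 4 = cls κ 0 ∨ m % 4 = cls κ 1 then d (m - 4) else 0 with hc'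
  have H : HasE κ c' (fun _ _ ↦ 0) := by
    refine ⟨?_, ?_, ?_⟩
    · simp [hc']
    · intro m h0 h1
      simp only [hc']
      split_ifs with h2 h3
      · rfl
      · rcases h3 with h3 | h3
        · exact absurd h3 h0
        · exact absurd h3 h1
      · rfl
    · intro τ r
      have h1 := (hd τ r).mul_right (ee (τ : ℂ))
      rw [zero_mul] at h1
      have h2 : HasSum (fun m : ℕ ↦ (fun m : ℕ ↦ if m % 4 = cls κ r then
          c' m * ee ((m : ℂ) * (τ : ℂ) / 4) else 0) (m + 4)) 0 := by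
        refine h1.congr_fun ?_
        intro m
        have e1 : (m + 4) % 4 = m % 4 := by omega
        have e2 : ee (((m + 4 : ℕ) : ℂ) * (τ : ℂ) / 4) = ee ((m : ℂ) * (τ : ℂ) / 4) * ee (τ : ℂ) := by
          rw [← ee_add]
          congr 1
          push_cast
          ring
        simp only [e1]
        by_cases h3 : m % 4 = cls κ r
        · rw [if_pos h3, if_pos h3, e2]
          have e3 : c' (m + 4) = d m := by
            simp only [hc']
            rw [if_neg (by omega), e1, if_pos, Nat.add_sub_cancel]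
            fin_cases r
            · exact Or.inl h3
            · exact Or.inr h3
          rw [e3]
          ring
        · rw [if_neg h3, if_neg h3, zero_mul]
      have h6 := (hasSum_nat_add_iff (f := fun m : ℕ ↦ if m % 4 = cls κ r then
          c' m * ee ((m : ℂ) * (τ : ℂ) / 4) else 0) 4).mp h2
      have h3 : ∑ i ∈ Finset.range 4, (fun m : ℕ ↦ if m % 4 = cls κ r then
          c' m * ee ((m : ℂ) * (τ : ℂ) / 4) else 0) i = 0 := by
        refine Finset.sum_eq_zero fun i hi => ?_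
        have h4 : i < 4 := Finset.mem_range.mp hi
        have h5 : c' i = 0 := by
          simp only [hc']
          rw [if_pos h4]
        simp only [h5, zero_mul, ite_self]
      rw [h3, add_zero] at h6
      exact h6
  have H0 : HasE κ (fun _ ↦ 0) (fun _ _ ↦ 0) := by
    refine ⟨rfl, fun _ _ _ => rfl, fun τ r => ?_⟩
    simp only [zero_mul, ite_self]
    exact hasSum_zero
  have h1 := congrFun (hasE_unique κ _ _ _ H H0) (n + 4)
  have e1 : (n + 4) % 4 = n % 4 := by omega
  simp only [hc'] at h1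
  rw [if_neg (by omega), e1, if_pos, Nat.add_sub_cancel] at h1
  · exact h1
  · fin_cases r
    · exact Or.inl hn
    · exact Or.inr hn

private theorem swsg_sl_sub (κ : ℕ) (A : Mat) (f g : VF) :
    sl κ 1 A (fun τ ↦ f τ - g τ) = fun τ ↦ sl κ 1 A f τ - sl κ 1 A g τ := by
  funext τ
  unfold sl
  rw [Matrix.mulVec_sub, smul_sub]

theorem sws_span (κ : ℕ) (hκ : 5 ≤ κ) (c : ℕ → ℂ) (h : VF) (H : IsP κ c h) :
    ∃ a : ℕ × ℕ × ℕ → ℂ, (∀ n, c n = ((idx κ).map fun t ↦ a t * ((mc κ t n : ℤ) : ℂ)).sum) ∧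
      ((idx κ).map a).sum = 0 := by
  obtain ⟨a, ha⟩ := struct_tf κ hκ c h H
  have hl : ∀ t ∈ idx κ, if κ % 2 = 0 then t.1 = 0 ∨ t.1 = 2 else t.1 = 3 ∨ t.1 = 5 :=
    fun t ht => ((mem_idx κ t).mp ht).1
  have hmain : ∀ n, c n = ((idx κ).map fun t ↦ a t * ((mc κ t n : ℤ) : ℂ)).sum := by
    have hd : ∀ (τ : ℍ) (r : Fin 2), HasSum (fun n : ℕ ↦ if n % 4 = cls κ r then
        (c n - ((idx κ).map fun t ↦ a t * ((mc κ t n : ℤ) : ℂ)).sum) *
          ee ((n : ℂ) * (τ : ℂ) / 4) else 0) 0 := by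
      intro τ r
      have h1 := H.exp.sum τ r
      have h2 := swsg_list κ a τ r (idx κ) hl
      rw [← ha τ r] at h2
      have h3 := h1.sub h2
      rw [sub_self] at h3
      refine h3.congr_fun ?_
      intro n
      split_ifs
      · ring
      · ring
    intro n
    by_cases h0 : n % 4 = cls κ 0
    · exact sub_eq_zero.mp (swsg_unique κ _ hd 0 n h0)
    · by_cases h1 : n % 4 = cls κ 1
      · exact sub_eq_zero.mp (swsg_unique κ _ hd 1 n h1)
      · rw [H.exp.supp n h0 h1]
        symm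
        apply List.sum_eq_zero
        intro z hz
        rw [List.mem_map] at hz
        obtain ⟨t, -, rfl⟩ := hz
        rw [mc_supp κ t n h0 h1, Int.cast_zero, mul_zero]
  refine ⟨a, hmain, ?_⟩
  have h0 := hmain 0
  rw [H.exp.zero] at h0
  have h1 : (idx κ).map (fun t ↦ a t * ((mc κ t 0 : ℤ) : ℂ)) = (idx κ).map a := by
    refine List.map_congr_left fun t ht => ?_
    rw [mc_zero κ t (hl t ht), Int.cast_one, mul_one]
  rw [h1] at h0
  exact h0.symm

theorem sws_form (κ : ℕ) (t t' : ℕ × ℕ × ℕ) (ht : t ∈ idx κ) (ht' : t' ∈ idx κ) :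
    ∃ h : VF, IsP κ (fun n ↦ ((mc κ t n - mc κ t' n : ℤ) : ℂ)) h := by
  have h1 := (mem_idx κ t).mp ht
  have h2 := (mem_idx κ t').mp ht'
  refine ⟨fun τ ↦ tf t.1 t.2.1 t.2.2 0 τ - tf t'.1 t'.2.1 t'.2.2 0 τ, ⟨?_, ?_, ?_⟩, ?_⟩
  · rw [mc_zero κ t h1.1, mc_zero κ t' h2.1, sub_self, Int.cast_zero]
  · intro n h0 h3
    rw [mc_supp κ t n h0 h3, mc_supp κ t' n h0 h3, sub_self, Int.cast_zero]
  · intro τ r
    have h3 := (tf_expand κ t h1.1 τ r).sub (tf_expand κ t' h2.1 τ r)
    refine h3.congr_fun ?_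
    intro n
    split_ifs
    · push_cast
      ring
    · ring
  · intro γ
    rw [swsg_sl_sub]
    have key : ∀ u : ℕ × ℕ × ℕ, u ∈ idx κ →
        sl κ 1 (γ : Mat) (tf u.1 u.2.1 u.2.2 0) = tf u.1 u.2.1 u.2.2 0 := by
      intro u hu
      have h3 := (mem_idx κ u).mp hu
      have hb : u.1 = 0 ∨ u.1 = 2 ∨ u.1 = 3 ∨ u.1 = 5 := by
        have h4 := h3.1
        split_ifs at h4
        · rcases h4 with h4 | h4
          · exact Or.inl h4
          · exact Or.inr (Or.inl h4)
        · rcases h4 with h4 | h4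
          · exact Or.inr (Or.inr (Or.inl h4))
          · exact Or.inr (Or.inr (Or.inr h4))
      have h5 := tf_inv u.1 u.2.1 u.2.2 0 hb γ
      have h6 : u.1 + 4 * u.2.1 + 6 * u.2.2 + 12 * 0 = κ := by
        rw [mul_zero, add_zero]
        exact h3.2
      rw [h6] at h5
      exact h5
    rw [key t ht, key t' ht']

end MP836e4b.P
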