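/-
MODULE SmA (size S-M), board mod836, MP_836e4b_nt, folder Work/MP_836e4b_nt/P. Keep the statements verbatim, helper lemmas private.
span_gc: write idx κ as the list t_0, .., t_d; c n = ∑ a(t_k) mc(t_k) n, a(t_0) = -∑_{k≥1} a(t_k), so
c n = ∑_{k≥1} a(t_k) (mc(t_k) - mc(t_0)) n; b j = a(t_(j+1)). (List.sum of a map over the list of length d+1 as
∑ k : Fin (d+1) with getD; Fin.sum_univ_succ.) form_gc: gc κ i is a difference of two members of idx κ (i+1 < length).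
tcZ_cast: unfold Tc, TcZ, cls, cl1: N % 4 = 0 or cl1 κ means the if of Tc is true (cl1 κ = cls κ 1: κ % 2 = 0 iff Even κ);
2 ^ 2 ∣ N iff N % 4 = 0.
-/
import Mathlib
import Pool.Agent.Work.MP_836e4b_nt.P.PkDef

namespace MP836e4b.P

theorem cl1_eq (κ : ℕ) : cl1 κ = cls κ 1 := by
  unfold cls cl1
  by_cases hκ : κ % 2 = 0
  · have : Even κ := Nat.even_iff.mpr hκ
    simp [hκ, this]
  · have : ¬ Even κ := fun h ↦ hκ (Nat.even_iff.mp h)
    simp [hκ, this]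

theorem tcZ_cast (κ : ℕ) (c : ℕ → ℤ) (N : ℕ) (hN : N % 4 = 0 ∨ N % 4 = cl1 κ) :
    Tc κ 2 (fun n ↦ ((c n : ℤ) : ℂ)) N = ((TcZ κ c N : ℤ) : ℂ) := by
  have hc0 : cls κ 0 = 0 := by simp [cls]
  have h1 : N % 4 = cls κ 0 ∨ N % 4 = cls κ 1 := by
    rw [hc0, ← cl1_eq]
    exact hN
  have h2 : (2 ^ 2 ∣ N) ↔ N % 4 = 0 := by
    constructor
    · intro h
      omega
    · intro h
      omega
  unfold Tc TcZ
  rw [if_pos h1]
  by_cases h3 : N % 4 = 0
  · rw [if_pos (h2.mpr h3), if_pos h3]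
    push_cast
    norm_num
  · rw [if_neg (fun h ↦ h3 (h2.mp h)), if_neg h3]
    push_cast
    norm_num

private theorem sma_sum {α : Type*} (z : α) (f : α → ℂ) (L : List α) (d : ℕ) (hL : L.length = d) :
    (L.map f).sum = ∑ j : Fin d, f (L.getD j z) := by
  induction L generalizing d with
  | nil =>
    subst hL
    simp
  | cons x L ih =>
    subst hL
    rw [List.length_cons, Fin.sum_univ_succ, List.map_cons, List.sum_cons, ih _ rfl]
    simp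

theorem span_gc (κ d : ℕ) (hlen : (idx κ).length = d + 1) (c : ℕ → ℂ) (a : ℕ × ℕ × ℕ → ℂ)
    (h : ∀ n, c n = ((idx κ).map fun t ↦ a t * ((mc κ t n : ℤ) : ℂ)).sum)
    (h0 : ((idx κ).map a).sum = 0) :
    ∃ b : Fin d → ℂ, ∀ n, c n = ∑ j : Fin d, b j * ((gc κ j n : ℤ) : ℂ) := by
  refine ⟨fun j ↦ a ((idx κ).getD (j + 1) (0, 0, 0)), fun n ↦ ?_⟩
  rw [sma_sum (0, 0, 0) _ _ _ hlen, Fin.sum_univ_succ] at h0
  rw [h n, sma_sum (0, 0, 0) _ _ _ hlen, Fin.sum_univ_succ]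
  have h1 : a ((idx κ).getD ((0 : Fin (d + 1)) : ℕ) (0, 0, 0)) =
      -∑ i : Fin d, a ((idx κ).getD ((i.succ : Fin (d + 1)) : ℕ) (0, 0, 0)) := by
    linear_combination h0
  rw [h1, neg_mul, Finset.sum_mul, neg_add_eq_sub, ← Finset.sum_sub_distrib]
  refine Finset.sum_congr rfl fun j _ ↦ ?_
  unfold gc
  simp only [Fin.val_succ, Fin.val_zero]
  push_cast
  ring

theorem form_gc (κ d : ℕ) (hlen : (idx κ).length = d + 1)
    (hform : ∀ t ∈ idx κ, ∀ t' ∈ idx κ, ∃ g, IsP κ (fun n ↦ ((mc κ t n - mc κ t' n : ℤ) : ℂ)) g)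
    (i : ℕ) (hi : i < d) : ∃ g, IsP κ (fun n ↦ ((gc κ i n : ℤ) : ℂ)) g := by
  have h1 : ∀ k, k < d + 1 → (idx κ).getD k (0, 0, 0) ∈ idx κ := by
    intro k hk
    rw [List.getD_eq_getElem _ _ (by rw [hlen]; exact hk)]
    exact List.getElem_mem _
  exact hform _ (h1 (i + 1) (by omega)) _ (h1 0 (by omega))

end MP836e4b.P
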