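/-
MODULE SmB (size M), board mod836, MP_836e4b_nt, folder Work/MP_836e4b_nt/P. Keep the statements verbatim, helper lemmas private.
chk_sound: (idx κ).length = d + 1, d = piv.length. By span_gc it suffices w i := gc κ i D = 0 for all i < d. Let h_i be the
forms of form_gc. T κ 2 h_i is a form with coefficients Tc κ 2 (gc κ i) (isP_T), by span_gc (hspan) there are al i j with
Tc κ 2 (gc κ i) n = ∑_j al i j gc κ j n for all n. At n = piv_k: tcZ_cast gives GTm = al * Gm. At n = D: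
l' w i = ∑_j al i j w j. If some w i ≠ 0: l' is an integer (int_of_pow: (Tc κ 2)^n (gc κ i) has integer values (Tc_int) and is
the coefficient function of a form (isP_T), so l'^n w i = ((Tc κ 2)^n gc)(D) is an integer; see MainP for the same
iteration); lin_core gives w = 0.
-/
import Mathlib
import Pool.Agent.Work.MP_836e4b_nt.P.PkDef
import Pool.Agent.Work.MP_836e4b_nt.P.PkH
import Pool.Agent.Work.MP_836e4b_nt.P.LinA
import Pool.Agent.Work.MP_836e4b_nt.P.SmA
import Pool.Agent.Work.MP_836e4b_nt.P.TP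
import Pool.Agent.Work.MP_836e4b_nt.P.Comm
import Pool.Agent.Work.MP_836e4b_nt.P.IntL

namespace MP836e4b.P

theorem small_of_chk (κ p N : ℕ) (piv U S : List ℕ) (hκ : 1 ≤ κ) (hp : p.Prime)
    (h : chkX κ p N piv U S = true)
    (hspan : ∀ c g, IsP κ c g → ∃ a : ℕ × ℕ × ℕ → ℂ,
      (∀ n, c n = ((idx κ).map fun t ↦ a t * ((mc κ t n : ℤ) : ℂ)).sum) ∧ ((idx κ).map a).sum = 0)
    (hform : ∀ t ∈ idx κ, ∀ t' ∈ idx κ, ∃ g, IsP κ (fun n ↦ ((mc κ t n - mc κ t' n : ℤ) : ℂ)) g)
    (D : ℕ) (hD4 : D % 4 = cls κ 1) (l' : ℂ)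
    (hl : ∀ c g, IsP κ c g → Tc κ 2 c D = l' * c D) : ∀ c g, IsP κ c g → c D = 0 := by
  obtain ⟨hlen, hpiv, U', S', hU, hS⟩ := chk_sound κ p N piv U S h
  have hf : ∀ i, i < piv.length → ∃ g, IsP κ (fun n ↦ ((gc κ i n : ℤ) : ℂ)) g :=
    fun i hi ↦ form_gc κ piv.length hlen hform i hi
  have hal : ∀ i : Fin piv.length, ∃ b : Fin piv.length → ℂ,
      ∀ n, Tc κ 2 (fun n ↦ ((gc κ i n : ℤ) : ℂ)) n = ∑ j, b j * ((gc κ j n : ℤ) : ℂ) := by
    intro i
    obtain ⟨g, hg⟩ := hf i i.2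
    have h1 := isP_T κ 2 hκ Nat.prime_two _ _ hg
    obtain ⟨a, ha, ha0⟩ := hspan _ _ h1
    exact span_gc κ piv.length hlen _ a ha ha0
  choose al hal using hal
  have hw : ∀ i : Fin piv.length, gc κ i D = 0 := by
    by_cases hz : ∃ i : Fin piv.length, gc κ i D ≠ 0
    · obtain ⟨i0, hi0⟩ := hz
      obtain ⟨g0, hg0⟩ := hf i0 i0.2
      have hiter : ∀ n : ℕ, ∃ (e : ℕ → ℤ) (g : VF), IsP κ (fun n ↦ (e n : ℂ)) g ∧
          (e D : ℂ) = l' ^ n * ((gc κ i0 D : ℤ) : ℂ) := by
        intro n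
        induction n with
        | zero => exact ⟨gc κ i0, g0, hg0, by simp⟩
        | succ n ih =>
          obtain ⟨e, g, hg, he⟩ := ih
          obtain ⟨e', he'⟩ := Tc_int κ 2 e
          have h1 := isP_T κ 2 hκ Nat.prime_two _ _ hg
          rw [he'] at h1
          refine ⟨e', _, h1, ?_⟩
          have h2 := hl _ _ hg
          rw [he'] at h2
          refine h2.trans ?_
          rw [he]
          ring
      obtain ⟨m, hm⟩ := int_of_pow l' (gc κ i0 D) hi0 (fun n ↦ by
        obtain ⟨e, g, _, he⟩ := hiter n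
        exact ⟨e D, he.symm⟩)
      refine lin_core p piv.length hp (Gm κ piv) (GTm κ piv) U' S' hU hS al ?_
        (fun i ↦ gc κ i D) m ?_
      · intro i k
        have hk : piv.getD k 0 ∈ piv := by
          rw [List.getD_eq_getElem _ _ k.2]
          exact List.getElem_mem k.2
        have h1 := hal i (piv.getD k 0)
        rw [tcZ_cast κ (gc κ i) (piv.getD k 0) (hpiv _ hk).1] at h1
        exact h1
      · intro i
        obtain ⟨g, hg⟩ := hf i i.2
        have h1 := hl _ _ hg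
        rw [hal i D, hm] at h1
        exact h1
    · push Not at hz
      exact hz
  intro c g hc
  obtain ⟨a, ha, ha0⟩ := hspan _ _ hc
  obtain ⟨b, hb⟩ := span_gc κ piv.length hlen _ a ha ha0
  rw [hb]
  simp [hw]

end MP836e4b.P
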