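/-
MODULE SmC, board mod836, MP_836e4b_nt. Assembly of the small weight block: κ = 12 and 14 ≤ κ ≤ 206.
-/
import Mathlib
import Pool.Agent.Work.MP_836e4b_nt.P.SmB
import Pool.Agent.Work.MP_836e4b_nt.P.SC01
import Pool.Agent.Work.MP_836e4b_nt.P.SC02
import Pool.Agent.Work.MP_836e4b_nt.P.SC03
import Pool.Agent.Work.MP_836e4b_nt.P.SC04
import Pool.Agent.Work.MP_836e4b_nt.P.SC05
import Pool.Agent.Work.MP_836e4b_nt.P.SC06
import Pool.Agent.Work.MP_836e4b_nt.P.SC07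
import Pool.Agent.Work.MP_836e4b_nt.P.SC08
import Pool.Agent.Work.MP_836e4b_nt.P.SC09
import Pool.Agent.Work.MP_836e4b_nt.P.SC10
import Pool.Agent.Work.MP_836e4b_nt.P.SC11
import Pool.Agent.Work.MP_836e4b_nt.P.SC12
import Pool.Agent.Work.MP_836e4b_nt.P.SC13
import Pool.Agent.Work.MP_836e4b_nt.P.SC14
import Pool.Agent.Work.MP_836e4b_nt.P.SC15
import Pool.Agent.Work.MP_836e4b_nt.P.SC16
import Pool.Agent.Work.MP_836e4b_nt.P.SC17
import Pool.Agent.Work.MP_836e4b_nt.P.SC18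
import Pool.Agent.Work.MP_836e4b_nt.P.SC19
import Pool.Agent.Work.MP_836e4b_nt.P.SC20
import Pool.Agent.Work.MP_836e4b_nt.P.SC21
import Pool.Agent.Work.MP_836e4b_nt.P.SC22
import Pool.Agent.Work.MP_836e4b_nt.P.SC23

namespace MP836e4b.P

theorem exists_cert (κ : ℕ) (h : κ = 12 ∨ (14 ≤ κ ∧ κ ≤ 206)) :
    ∃ p N piv U S, p.Prime ∧ chkX κ p N piv U S = true := by
  by_cases h01 : κ ≤ 62
  · exact cex_01 κ (by omega)
  by_cases h02 : κ ≤ 88
  · exact cex_02 κ (by omega) (by omega)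
  by_cases h03 : κ ≤ 105
  · exact cex_03 κ (by omega) (by omega)
  by_cases h04 : κ ≤ 117
  · exact cex_04 κ (by omega) (by omega)
  by_cases h05 : κ ≤ 127
  · exact cex_05 κ (by omega) (by omega)
  by_cases h06 : κ ≤ 135
  · exact cex_06 κ (by omega) (by omega)
  by_cases h07 : κ ≤ 142
  · exact cex_07 κ (by omega) (by omega)
  by_cases h08 : κ ≤ 148
  · exact cex_08 κ (by omega) (by omega)
  by_cases h09 : κ ≤ 154
  · exact cex_09 κ (by omega) (by omega)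
  by_cases h10 : κ ≤ 159
  · exact cex_10 κ (by omega) (by omega)
  by_cases h11 : κ ≤ 164
  · exact cex_11 κ (by omega) (by omega)
  by_cases h12 : κ ≤ 169
  · exact cex_12 κ (by omega) (by omega)
  by_cases h13 : κ ≤ 173
  · exact cex_13 κ (by omega) (by omega)
  by_cases h14 : κ ≤ 177
  · exact cex_14 κ (by omega) (by omega)
  by_cases h15 : κ ≤ 181
  · exact cex_15 κ (by omega) (by omega)
  by_cases h16 : κ ≤ 185
  · exact cex_16 κ (by omega) (by omega)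
  by_cases h17 : κ ≤ 188
  · exact cex_17 κ (by omega) (by omega)
  by_cases h18 : κ ≤ 191
  · exact cex_18 κ (by omega) (by omega)
  by_cases h19 : κ ≤ 194
  · exact cex_19 κ (by omega) (by omega)
  by_cases h20 : κ ≤ 197
  · exact cex_20 κ (by omega) (by omega)
  by_cases h21 : κ ≤ 200
  · exact cex_21 κ (by omega) (by omega)
  by_cases h22 : κ ≤ 203
  · exact cex_22 κ (by omega) (by omega)
  exact cex_23 κ (by omega) (by omega)

theorem small_weight (κ D : ℕ) (hκ : κ = 12 ∨ (14 ≤ κ ∧ κ ≤ 206))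
    (hspan : ∀ c g, IsP κ c g → ∃ a : ℕ × ℕ × ℕ → ℂ,
      (∀ n, c n = ((idx κ).map fun t ↦ a t * ((mc κ t n : ℤ) : ℂ)).sum) ∧ ((idx κ).map a).sum = 0)
    (hform : ∀ t ∈ idx κ, ∀ t' ∈ idx κ, ∃ g, IsP κ (fun n ↦ ((mc κ t n - mc κ t' n : ℤ) : ℂ)) g)
    (hD4 : D % 4 = cls κ 1) (l' : ℂ)
    (hl : ∀ c g, IsP κ c g → Tc κ 2 c D = l' * c D) : ∀ c g, IsP κ c g → c D = 0 := by
  obtain ⟨p, N, piv, U, S, hp, h⟩ := exists_cert κ hκ
  exact small_of_chk κ p N piv U S (by omega) hp h hspan hform D hD4 l' hl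

end MP836e4b.P
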