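/-
MODULE SWFin, board mod836, MP_836e4b_nt. Small weights: k + e = 12 or 14 ≤ k + e ≤ 206, all odd squarefree D.
-/
import Mathlib
import Pool.Agent.Work.MP_836e4b_nt.Main
import Pool.Agent.Work.MP_836e4b_nt.P.CMn
import Pool.Agent.Work.MP_836e4b_nt.P.SWSg
import Pool.Agent.Work.MP_836e4b_nt.P.SmC

open UpperHalfPlane Complex
open scoped MatrixGroups ComplexConjugate Matrix

namespace MP836e4b.P

/-- An eigenform with `e` odd does not exist: the coefficients are zero. -/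
theorem not_eig_odd (D k e : ℕ) (he : Odd e) :
    ¬ IsHeckeEigenform (2 * k + 2 * e) (aCoeff D k e) := by
  rintro ⟨⟨n, _, hn⟩, _⟩
  exact hn (aCoeff_odd D k e n he)

/-- Small weights, `e` even: an eigenvector of `T_2` is zero. -/
theorem small_zero (D k e : ℕ) (hD : Odd D) (hs : Squarefree D) (hk : 3 ≤ k) (he : Even e)
    (he2 : 2 ≤ e) (hpar : jacobiSym (-1) D = (-1) ^ k)
    (hκ : k + e = 12 ∨ (14 ≤ k + e ∧ k + e ≤ 206)) (l : ℂ)
    (hl : ∀ n, 1 ≤ n → hecke (2 * k + 2 * e) 2 (aCoeff D k e) n = l * aCoeff D k e n) :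
    ∀ n, 1 ≤ n → aCoeff D k e n = 0 := by
  have hD4 : D % 4 = cls (k + e) 1 := cls_of_par D k e hD he hpar
  obtain ⟨l', hl'⟩ := eigD_sq D (k + e) k e hD hs hD4 rfl hk he he2 hpar l (by
    intro n hn
    rw [Nat.mul_add]
    exact hl n hn)
  have h5 : 5 ≤ k + e := by omega
  exact aCoeff_zero_of D (k + e) k e hD hs hD4 rfl hk he he2 hpar
    (small_weight (k + e) D hκ (fun c g h ↦ sws_span (k + e) h5 c g h)
      (fun t ht t' ht' ↦ sws_form (k + e) t t' ht ht') hD4 l' hl')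

theorem small_not_eig (D k e : ℕ) (hD : Odd D) (hs : Squarefree D) (hk : 3 ≤ k) (he : 1 ≤ e)
    (hpar : jacobiSym (-1) D = (-1) ^ k)
    (hκ : k + e = 12 ∨ (14 ≤ k + e ∧ k + e ≤ 206)) :
    ¬ IsHeckeEigenform (2 * k + 2 * e) (aCoeff D k e) := by
  rcases Nat.even_or_odd e with h | h
  · rintro ⟨⟨n, hn1, hn⟩, h2⟩
    obtain ⟨l, hl⟩ := h2 2 (by norm_num)
    have he2 : 2 ≤ e := by
      obtain ⟨m, hm⟩ := h
      omega
    exact hn (small_zero D k e hD hs hk h he2 hpar hκ l hl n hn1)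
  · exact not_eig_odd D k e h

end MP836e4b.P
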