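/-
MODULE SWSb (size M), board mod836, MP_836e4b_nt, folder Work/MP_836e4b_nt/P. Keep the statements verbatim, helper lemmas private.
Constructing level one forms: f holomorphic on ℍ, f(τ+1) = f(τ), f(-1/τ) = τ^k f(τ), bounded at i∞. Slash invariance under S and
T (mob mS τ = -1/τ, mob (mT 1) τ = τ+1) implies invariance under SL(2,Z) (slash_action_generators_SL2Z in
Mathlib LevelOne/Basic), 𝒮ℒ is the image of SL(2,Z); boundedness at all cusps: all are equivalent to ∞
(bdd_at_cusps' as in CuspForm.discriminantEquiv, DimensionFormula.lean: isBoundedAt_iff_forall_SL2Z).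
-/
import Mathlib
import Pool.Agent.Work.MP_836e4b_nt.P.Defs
import Pool.Agent.Work.MP_836e4b_nt.P.Bas

open UpperHalfPlane Complex
open scoped MatrixGroups ComplexConjugate Matrix

namespace MP836e4b.P

open scoped Manifold

open scoped ModularForm in
private theorem swsb_aux (k : ℕ) (f : ℍ → ℂ) (hf : MDifferentiable 𝓘(ℂ) 𝓘(ℂ) f)
    (hT : ∀ τ, f (mob (mT 1) τ) = f τ) (hS : ∀ τ : ℍ, f (mob mS τ) = (τ : ℂ) ^ k * f τ)
    (hb : UpperHalfPlane.IsBoundedAtImInfty f) :
    ∃ F : ModularForm 𝒮ℒ (k : ℤ), ∀ τ, F τ = f τ := by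
  have h1 : f ∣[(k : ℤ)] ModularGroup.S = f := by
    ext τ
    have e : mob mS τ = ModularGroup.S • τ := by
      rw [← mob_sl]
      rfl
    rw [ModularForm.SL_slash_apply, ← e, hS, ModularGroup.denom_S, zpow_neg,
      zpow_natCast, mul_comm ((τ : ℂ) ^ k), mul_assoc,
      mul_inv_cancel₀ (pow_ne_zero k (UpperHalfPlane.ne_zero τ)), mul_one]
  have h2 : f ∣[(k : ℤ)] ModularGroup.T = f := by
    ext τ
    have e : mob (mT 1) τ = ModularGroup.T • τ := by
      rw [← mob_sl]
      rfl
    have hd : denom ModularGroup.T τ = 1 := by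
      simp [ModularGroup.T, ModularGroup.denom_apply]
    rw [ModularForm.SL_slash_apply, ← e, hT, hd, one_zpow, mul_one]
  have h3 := SlashInvariantForm.slash_action_generators_SL2Z h1 h2
  exact ⟨{ toFun := f
           slash_action_eq' := by
             intro A hA
             obtain ⟨A, rfl⟩ := hA
             exact h3 A
           holo' := hf
           bdd_at_cusps' := by
             intro c hc
             rw [Subgroup.IsArithmetic.isCusp_iff_isCusp_SL2Z] at hc
             rw [OnePoint.isBoundedAt_iff_forall_SL2Z hc]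
             intro γ _
             rw [h3 γ]
             exact hb }, fun τ => rfl⟩

theorem exists_form (k : ℕ) (f : ℍ → ℂ) (hf : MDifferentiable 𝓘(ℂ) 𝓘(ℂ) f)
    (hT : ∀ τ, f (mob (mT 1) τ) = f τ) (hS : ∀ τ : ℍ, f (mob mS τ) = (τ : ℂ) ^ k * f τ)
    (hb : UpperHalfPlane.IsBoundedAtImInfty f) :
    ∃ F : ModularForm 𝒮ℒ (k : ℤ), ∀ τ, F τ = f τ := swsb_aux k f hf hT hS hb

end MP836e4b.P
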