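/-
MODULE Tf1 (size M), board mod836, MP_836e4b_nt, folder Work/MP_836e4b_nt/P. Keep the statements verbatim, helper lemmas private.
Expansions with integer coefficients in t = e(τ/4): th 0 τ 0 = ∑_m t^(4m²) = 1 + 2∑_{m≥1}, th 1 τ 0 = ∑_{m ∈ Z} t^((2m+1)²) =
2 ∑_{m≥0}. Ev is closed under addition, integer multiples and products (Cauchy product; HasSum in ℂ is absolute) and
contains constants.
-/
import Mathlib
import Pool.Agent.Work.MP_836e4b_nt.P.Defs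
import Pool.Agent.Work.MP_836e4b_nt.P.Th1
import Pool.Agent.Work.MP_836e4b_nt.P.Bas

open UpperHalfPlane Complex
open scoped MatrixGroups ComplexConjugate Matrix

namespace MP836e4b.P

/-- `∑_m t^{4m²}`. -/
noncomputable def PX : PowerSeries ℤ := PowerSeries.mk fun n ↦
  if n = 0 then 1 else if ∃ m ≤ n, 4 * m ^ 2 = n then 2 else 0

/-- `∑_{m ≥ 0} t^{(2m+1)²}`. -/
noncomputable def PB : PowerSeries ℤ := PowerSeries.mk fun n ↦
  if ∃ m ≤ n, (2 * m + 1) ^ 2 = n then 1 else 0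

private theorem coeff_PX_of_not (n : ℕ) (h : n ∉ Set.range (fun m : ℕ ↦ 4 * m ^ 2)) :
    PowerSeries.coeff n PX = 0 := by
  unfold PX
  rw [PowerSeries.coeff_mk]
  have h0 : n ≠ 0 := by
    rintro rfl
    exact h ⟨0, by simp⟩
  rw [if_neg h0, if_neg]
  rintro ⟨m, _, hm⟩
  exact h ⟨m, hm⟩

private theorem coeff_PX_sq (m : ℕ) :
    PowerSeries.coeff (4 * m ^ 2) PX = if m = 0 then 1 else 2 := by
  unfold PX
  rw [PowerSeries.coeff_mk]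
  by_cases h : m = 0
  · subst h
    simp
  · have h1 : 4 * m ^ 2 ≠ 0 := by positivity
    have h2 : ∃ m' ≤ 4 * m ^ 2, 4 * m' ^ 2 = 4 * m ^ 2 := by
      refine ⟨m, ?_, rfl⟩
      nlinarith [Nat.pos_of_ne_zero h]
    rw [if_neg h1, if_pos h2, if_neg h]

private theorem coeff_PB_of_not (n : ℕ) (h : n ∉ Set.range (fun m : ℕ ↦ (2 * m + 1) ^ 2)) :
    PowerSeries.coeff n PB = 0 := by
  unfold PB
  rw [PowerSeries.coeff_mk, if_neg]
  rintro ⟨m, _, hm⟩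
  exact h ⟨m, hm⟩

private theorem coeff_PB_sq (m : ℕ) : PowerSeries.coeff ((2 * m + 1) ^ 2) PB = 1 := by
  unfold PB
  have h2 : ∃ m' ≤ (2 * m + 1) ^ 2, (2 * m' + 1) ^ 2 = (2 * m + 1) ^ 2 := by
    refine ⟨m, ?_, rfl⟩
    nlinarith
  rw [PowerSeries.coeff_mk, if_pos h2]

private theorem inj_X : Function.Injective (fun m : ℕ ↦ 4 * m ^ 2) := by
  intro a b h
  have h1 : a ^ 2 = b ^ 2 := by
    have : 4 * a ^ 2 = 4 * b ^ 2 := h
    omega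
  exact Nat.pow_left_injective (two_ne_zero) h1

private theorem inj_B : Function.Injective (fun m : ℕ ↦ (2 * m + 1) ^ 2) := by
  intro a b h
  have h1 : 2 * a + 1 = 2 * b + 1 := Nat.pow_left_injective (two_ne_zero) h
  omega

private theorem fin0 : (((0 : Fin 2) : ℕ) : ℂ) = 0 := by simp

private theorem fin1 : (((1 : Fin 2) : ℕ) : ℂ) = 1 := by simp

theorem ev_X : Ev PX (fun τ ↦ th 0 τ 0) := by
  intro τ
  have hs : HasSum (fun m : ℤ ↦ ee ((2 * (m : ℂ) + (((0 : Fin 2) : ℕ) : ℂ)) ^ 2 * (τ : ℂ) / 4 +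
      (2 * (m : ℂ) + (((0 : Fin 2) : ℕ) : ℂ)) * 0)) (th 0 τ 0) := (th_summable 0 τ 0).hasSum
  have h2 := hs.nat_add_neg
  have h3 : HasSum (fun n : ℕ ↦ if n = 0 then (1 : ℂ) else 0) 1 := hasSum_ite_eq 0 1
  have h4 := h2.sub h3
  rw [← inj_X.hasSum_iff]
  · have h5 : th 0 τ 0 + ee ((2 * (((0 : ℤ) : ℤ) : ℂ) + (((0 : Fin 2) : ℕ) : ℂ)) ^ 2 * (τ : ℂ) / 4 +
      (2 * (((0 : ℤ) : ℤ) : ℂ) + (((0 : Fin 2) : ℕ) : ℂ)) * 0) - 1 = th 0 τ 0 := by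
      have : ((2 * (((0 : ℤ) : ℤ) : ℂ) + (((0 : Fin 2) : ℕ) : ℂ)) ^ 2 * (τ : ℂ) / 4 +
        (2 * (((0 : ℤ) : ℤ) : ℂ) + (((0 : Fin 2) : ℕ) : ℂ)) * 0) = 0 := by simp
      rw [this, ee_zero]
      ring
    rw [h5] at h4
    refine h4.congr_fun fun m ↦ ?_
    simp only [Function.comp_apply]
    rw [coeff_PX_sq]
    have e1 : ((2 * (((m : ℕ) : ℤ) : ℂ) + (((0 : Fin 2) : ℕ) : ℂ)) ^ 2 * (τ : ℂ) / 4 +
        (2 * (((m : ℕ) : ℤ) : ℂ) + (((0 : Fin 2) : ℕ) : ℂ)) * 0) =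
        ((4 * m ^ 2 : ℕ) : ℂ) * (τ : ℂ) / 4 := by
      rw [fin0]
      push_cast
      ring
    have e2 : ((2 * ((-((m : ℕ) : ℤ) : ℤ) : ℂ) + (((0 : Fin 2) : ℕ) : ℂ)) ^ 2 * (τ : ℂ) / 4 +
        (2 * ((-((m : ℕ) : ℤ) : ℤ) : ℂ) + (((0 : Fin 2) : ℕ) : ℂ)) * 0) =
        ((4 * m ^ 2 : ℕ) : ℂ) * (τ : ℂ) / 4 := by
      rw [fin0]
      push_cast
      ring
    rw [e1, e2]
    by_cases h : m = 0
    · subst h
      simp [ee_zero]
    · rw [if_neg h, if_neg h]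
      push_cast
      ring
  · intro n hn
    rw [coeff_PX_of_not n hn]
    simp

theorem ev_B : Ev PB (fun τ ↦ th 1 τ 0 / 2) := by
  intro τ
  have hs : HasSum (fun m : ℤ ↦ ee ((2 * (m : ℂ) + (((1 : Fin 2) : ℕ) : ℂ)) ^ 2 * (τ : ℂ) / 4 +
      (2 * (m : ℂ) + (((1 : Fin 2) : ℕ) : ℂ)) * 0)) (th 1 τ 0) := (th_summable 1 τ 0).hasSum
  have h2 := hs.nat_add_neg_add_one.div_const 2
  rw [← inj_B.hasSum_iff]
  · refine h2.congr_fun fun m ↦ ?_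
    simp only [Function.comp_apply]
    rw [coeff_PB_sq]
    have e1 : ((2 * (((m : ℕ) : ℤ) : ℂ) + (((1 : Fin 2) : ℕ) : ℂ)) ^ 2 * (τ : ℂ) / 4 +
        (2 * (((m : ℕ) : ℤ) : ℂ) + (((1 : Fin 2) : ℕ) : ℂ)) * 0) =
        (((2 * m + 1) ^ 2 : ℕ) : ℂ) * (τ : ℂ) / 4 := by
      rw [fin1]
      push_cast
      ring
    have e2 : ((2 * ((-(((m : ℕ) : ℤ) + 1) : ℤ) : ℂ) + (((1 : Fin 2) : ℕ) : ℂ)) ^ 2 * (τ : ℂ) / 4 +
        (2 * ((-(((m : ℕ) : ℤ) + 1) : ℤ) : ℂ) + (((1 : Fin 2) : ℕ) : ℂ)) * 0) =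
        (((2 * m + 1) ^ 2 : ℕ) : ℂ) * (τ : ℂ) / 4 := by
      rw [fin1]
      push_cast
      ring
    rw [e1, e2]
    push_cast
    ring
  · intro n hn
    rw [coeff_PB_of_not n hn]
    simp

theorem ev_C (a : ℤ) : Ev (PowerSeries.C a) (fun _ ↦ (a : ℂ)) := by
  intro τ
  have h : HasSum (fun n : ℕ ↦ if n = 0 then (a : ℂ) else 0) (a : ℂ) := hasSum_ite_eq 0 _
  refine h.congr_fun fun n ↦ ?_
  rw [PowerSeries.coeff_C]
  by_cases h0 : n = 0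
  · subst h0
    simp [ee_zero]
  · simp [h0]

theorem ev_add {P Q : PowerSeries ℤ} {f g : ℍ → ℂ} (hP : Ev P f) (hQ : Ev Q g) :
    Ev (P + Q) (fun τ ↦ f τ + g τ) := by
  intro τ
  refine ((hP τ).add (hQ τ)).congr_fun fun n ↦ ?_
  rw [map_add]
  push_cast
  ring

theorem ev_mul {P Q : PowerSeries ℤ} {f g : ℍ → ℂ} (hP : Ev P f) (hQ : Ev Q g) :
    Ev (P * Q) (fun τ ↦ f τ * g τ) := by
  intro τ
  have h1 := (hP τ).summable.norm
  have h2 := (hQ τ).summable.norm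
  have h3 := tsum_mul_tsum_eq_tsum_sum_antidiagonal_of_summable_norm h1 h2
  have h4 := (summable_norm_sum_mul_antidiagonal_of_summable_norm h1 h2).of_norm.hasSum
  rw [← h3, (hP τ).tsum_eq, (hQ τ).tsum_eq] at h4
  refine h4.congr_fun fun n ↦ ?_
  rw [PowerSeries.coeff_mul]
  push_cast
  rw [Finset.sum_mul]
  refine Finset.sum_congr rfl fun p hp ↦ ?_
  have hpn : (n : ℂ) = (p.1 : ℂ) + (p.2 : ℂ) := by
    have := Finset.HasAntidiagonal.mem_antidiagonal.mp hp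
    rw [← this]
    push_cast
    ring
  have e : ee ((n : ℂ) * (τ : ℂ) / 4) =
      ee ((p.1 : ℂ) * (τ : ℂ) / 4) * ee ((p.2 : ℂ) * (τ : ℂ) / 4) := by
    rw [← ee_add, hpn]
    congr 1
    ring
  rw [e]
  ring

theorem ev_pow {P : PowerSeries ℤ} {f : ℍ → ℂ} (hP : Ev P f) (n : ℕ) :
    Ev (P ^ n) (fun τ ↦ f τ ^ n) := by
  induction n with
  | zero =>
    have h := ev_C 1
    simpa using h
  | succ n ih =>
    have h := ev_mul ih hP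
    simpa only [pow_succ] using h

end MP836e4b.P
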