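/-
MODULE Tf3 (size M), board mod836, MP_836e4b_nt, folder Work/MP_836e4b_nt/P. Keep the statements verbatim, helper lemmas private.
Modulo 2: PB^4 = PB(t^4) (Frobenius twice in characteristic 2), so the coefficient of t^(4n) in PB^(4j) is that of t^n in
PB^j, which counts (m_1..m_j) with ∑(2m_i+1)² = n: oddReps j n (PowerSeries.coeff_pow / induction on j; u_i = 2m_i+1).
The second statement: coefficients of PB^(4j) at exponents not divisible by 4 are even.
-/
import Mathlib
import Pool.Agent.Work.MP_836e4b_nt.P.Defs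
import Pool.Agent.Work.MP_836e4b_nt.P.Tf1

open UpperHalfPlane Complex
open scoped MatrixGroups ComplexConjugate Matrix

namespace MP836e4b.P

private theorem coeff_sq_two (c : PowerSeries (ZMod 2)) (m : ℕ) :
    PowerSeries.coeff (2 * m) (c ^ 2) = PowerSeries.coeff m c := by
  rw [sq, PowerSeries.coeff_mul]
  have hm : (m, m) ∈ Finset.HasAntidiagonal.antidiagonal (2 * m) := by
    rw [Finset.HasAntidiagonal.mem_antidiagonal]; ring
  rw [← Finset.add_sum_erase _ _ hm]
  have hz : ∑ x ∈ (Finset.HasAntidiagonal.antidiagonal (2 * m)).erase (m, m),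
      (PowerSeries.coeff x.1 c * PowerSeries.coeff x.2 c) = 0 := by
    refine Finset.sum_involution (fun x _ ↦ (x.2, x.1)) ?_ ?_ ?_ ?_
    · intro x hx
      rw [mul_comm (PowerSeries.coeff x.2 c)]
      exact CharTwo.add_self_eq_zero _
    · intro x hx _ h
      rw [Finset.mem_erase, Finset.HasAntidiagonal.mem_antidiagonal] at hx
      apply hx.1
      have h1 : x.2 = x.1 := congrArg Prod.fst h
      ext
      · have := hx.2
        simp only
        omega
      · have := hx.2
        simp only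
        omega
    · intro x hx
      rw [Finset.mem_erase, Finset.HasAntidiagonal.mem_antidiagonal] at hx ⊢
      refine ⟨?_, by rw [add_comm]; exact hx.2⟩
      intro h
      apply hx.1
      rw [Prod.ext_iff] at h ⊢
      exact ⟨h.2, h.1⟩
    · intro x hx
      rfl
  rw [hz, add_zero]
  generalize PowerSeries.coeff m c = a
  revert a
  decide

private theorem coeff_pow_four (c : PowerSeries (ZMod 2)) (n : ℕ) :
    PowerSeries.coeff (4 * n) (c ^ 4) = PowerSeries.coeff n c := by
  have h1 : c ^ 4 = (c ^ 2) ^ 2 := by ring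
  have h2 : 4 * n = 2 * (2 * n) := by ring
  rw [h1, h2, coeff_sq_two, coeff_sq_two]

private theorem coeff_PB_int (j n : ℕ) :
    (PowerSeries.coeff n (PB ^ j) : ℤ) = (oddReps j n : ℤ) := by
  have h0 : PB ^ j = ∏ _i : Fin j, PB := by simp
  rw [h0, PowerSeries.coeff_prod]
  have h1 : ∀ l : Fin j →₀ ℕ, ∏ i : Fin j, PowerSeries.coeff (l i) PB =
      if (∀ i ∈ (Finset.univ : Finset (Fin j)), ∃ m ≤ l i, (2 * m + 1) ^ 2 = l i) then 1 else 0 := by
    intro l
    have h2 : ∏ i : Fin j, PowerSeries.coeff (l i) PB =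
        ∏ i ∈ (Finset.univ : Finset (Fin j)), if (∃ m ≤ l i, (2 * m + 1) ^ 2 = l i) then (1 : ℤ) else 0 := by
      refine Finset.prod_congr rfl fun i _ ↦ ?_
      rw [PB, PowerSeries.coeff_mk]
    rw [h2, Finset.prod_boole]
    simp only [Finset.mem_univ, true_imp_iff]
  rw [Finset.sum_congr rfl fun l _ ↦ h1 l, Finset.sum_boole, oddReps]
  congr 1
  symm
  refine Finset.card_nbij' (fun u ↦ Finsupp.equivFunOnFinite.symm fun i ↦ u i ^ 2)
    (fun l i ↦ Nat.sqrt (l i)) ?_ ?_ ?_ ?_
  · intro u hu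
    rw [Finset.mem_coe, Finset.mem_filter, Fintype.mem_piFinset] at hu
    rw [Finset.mem_coe, Finset.mem_filter, Finset.mem_finsuppAntidiag]
    refine ⟨⟨?_, by simp⟩, ?_⟩
    · simpa using hu.2.2
    · intro i _
      obtain ⟨m, hm⟩ := hu.2.1 i
      refine ⟨m, ?_, ?_⟩
      · simp only [Finsupp.coe_equivFunOnFinite_symm]
        rw [hm]
        nlinarith
      · simp only [Finsupp.coe_equivFunOnFinite_symm]
        rw [hm]
  · intro l hl
    rw [Finset.mem_coe, Finset.mem_filter, Finset.mem_finsuppAntidiag] at hl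
    rw [Finset.mem_coe, Finset.mem_filter, Fintype.mem_piFinset]
    have hs : ∀ i, Nat.sqrt (l i) ^ 2 = l i ∧ Odd (Nat.sqrt (l i)) := by
      intro i
      obtain ⟨m, _, hm⟩ := hl.2 i (Finset.mem_univ i)
      have : Nat.sqrt (l i) = 2 * m + 1 := by
        rw [← hm, sq]
        exact Nat.sqrt_eq _
      rw [this]
      exact ⟨hm, ⟨m, rfl⟩⟩
    have hsum : ∑ i, l i = n := hl.1.1
    refine ⟨?_, fun i ↦ (hs i).2, ?_⟩
    · intro i
      rw [Finset.mem_range]
      have h3 : l i ≤ n := by
        rw [← hsum]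
        exact Finset.single_le_sum (f := fun i ↦ l i) (fun _ _ ↦ Nat.zero_le _) (Finset.mem_univ i)
      have h4 := Nat.sqrt_le_self (l i)
      exact Nat.lt_succ_of_le (h4.trans h3)
    · rw [← hsum]
      exact Finset.sum_congr rfl fun i _ ↦ (hs i).1
  · intro u hu
    funext i
    simp only [Finsupp.coe_equivFunOnFinite_symm]
    rw [sq]
    exact Nat.sqrt_eq _
  · intro l hl
    rw [Finset.mem_coe, Finset.mem_filter, Finset.mem_finsuppAntidiag] at hl
    ext i
    obtain ⟨m, _, hm⟩ := hl.2 i (Finset.mem_univ i)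
    simp only [Finsupp.coe_equivFunOnFinite_symm]
    rw [← hm, sq (2 * m + 1), Nat.sqrt_eq, sq]

theorem coeff_PB (j n : ℕ) :
    ((PowerSeries.coeff (4 * n) (PB ^ (4 * j)) : ℤ) : ZMod 2) = (oddReps j n : ZMod 2) := by
  have h1 : ((PowerSeries.coeff (4 * n) (PB ^ (4 * j)) : ℤ) : ZMod 2) =
      PowerSeries.coeff (4 * n) ((PowerSeries.map (Int.castRingHom (ZMod 2)) (PB ^ j)) ^ 4) := by
    rw [← map_pow, PowerSeries.coeff_map, ← pow_mul, mul_comm j 4]
    rfl
  rw [h1, coeff_pow_four, PowerSeries.coeff_map, coeff_PB_int]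
  simp

end MP836e4b.P
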